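import Mathlib

set_option autoImplicit false

/-!
# A lower bound for Euler's function
-/

namespace Pool.Agent.Lib.MP_0b748d_nt.HHC

noncomputable section

private theorem prod_low (S : Finset ℕ) :
    (∀ p ∈ S, 2 ≤ p) → 1 ≤ ((S.card : ℝ) + 1) * ∏ p ∈ S, (1 - (p : ℝ)⁻¹) := by
  induction S using Finset.induction_on_max with
  | empty => intro _; simp
  | insert a s hs ih =>
    intro h
    have has : a ∉ s := fun hm => lt_irrefl _ (hs a hm)
    have h1 := ih fun p hp => h p (Finset.mem_insert_of_mem hp)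
    have h2 : 2 ≤ a := h a (Finset.mem_insert_self a s)
    have hsub : s ⊆ Finset.Ico 2 a := by
      intro x hx
      rw [Finset.mem_Ico]
      exact ⟨h x (Finset.mem_insert_of_mem hx), hs x hx⟩
    have hc : s.card + 2 ≤ a := by
      have := Finset.card_le_card hsub
      rw [Nat.card_Ico] at this
      omega
    rw [Finset.prod_insert has, Finset.card_insert_of_notMem has]
    set k : ℝ := (s.card : ℝ) with hk
    set P : ℝ := ∏ p ∈ s, (1 - (p : ℝ)⁻¹) with hP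
    have hk0 : 0 ≤ k := Nat.cast_nonneg _
    have hak : k + 2 ≤ (a : ℝ) := by
      have : ((s.card + 2 : ℕ) : ℝ) ≤ (a : ℝ) := by exact_mod_cast hc
      push_cast at this
      linarith
    have ha0 : (0 : ℝ) < a := by linarith
    have hinv : (a : ℝ)⁻¹ ≤ (k + 2)⁻¹ := inv_anti₀ (by linarith) hak
    have hk2 : (k + 2) * (k + 2)⁻¹ = 1 := mul_inv_cancel₀ (by linarith)
    have hP0 : 0 ≤ P := by
      by_contra hneg
      push Not at hneg
      nlinarith
    have h3 : k + 1 ≤ (k + 2) * (1 - (a : ℝ)⁻¹) := by nlinarith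
    push_cast
    calc (1 : ℝ) ≤ (k + 1) * P := h1
      _ ≤ ((k + 2) * (1 - (a : ℝ)⁻¹)) * P := mul_le_mul_of_nonneg_right h3 hP0
      _ = (k + 1 + 1) * ((1 - (a : ℝ)⁻¹) * P) := by ring

/-- Proof. `φ n / n = ∏_{p ∣ n} (1 - 1/p)` (`Nat.totient_eq_mul_prod_factors`). For a finite set `S`
of integers `≥ 2` one has `∏_{p ∈ S} (1 - 1/p) ≥ 1/(#S + 1)` (induction on `#S`, removing the
maximum `m ≥ #S + 1`, as `S ⊆ [2, m]`: `(1/#S) (1 - 1/m) ≥ (1/#S) (#S/(#S+1))`). Finally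
`2^(number of prime factors) ≤ n`. -/
theorem phi_low (n : ℕ) (hn : 1 ≤ n) :
    (n : ℝ) ≤ (1 + (Nat.log 2 n : ℝ)) * Nat.totient n := by
  have h1 : (Nat.totient n : ℝ) = n * ∏ p ∈ n.primeFactors, (1 - (p : ℝ)⁻¹) := by
    have := Nat.totient_eq_mul_prod_factors n
    have h2 : ((Nat.totient n : ℚ) : ℝ) = ((n * ∏ p ∈ n.primeFactors, (1 - (p : ℚ)⁻¹) : ℚ) : ℝ) := by
      rw [this]
    push_cast at h2
    exact h2
  have h2 := prod_low n.primeFactors fun p hp => (Nat.prime_of_mem_primeFactors hp).two_le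
  have h3 : 2 ^ n.primeFactors.card ≤ n := by
    have h4 : 2 ^ n.primeFactors.card ≤ ∏ p ∈ n.primeFactors, p :=
      Finset.pow_card_le_prod _ _ _ fun p hp => (Nat.prime_of_mem_primeFactors hp).two_le
    exact h4.trans (Nat.le_of_dvd hn (Nat.prod_primeFactors_dvd n))
  have h4 : n.primeFactors.card ≤ Nat.log 2 n := Nat.le_log_of_pow_le (by norm_num) h3
  have h5 : (n.primeFactors.card : ℝ) ≤ (Nat.log 2 n : ℝ) := by exact_mod_cast h4
  rw [h1]
  set P : ℝ := ∏ p ∈ n.primeFactors, (1 - (p : ℝ)⁻¹) with hP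
  have hk0 : (0 : ℝ) ≤ n.primeFactors.card := Nat.cast_nonneg _
  have hP0 : 0 ≤ P := by
    by_contra hneg
    push Not at hneg
    nlinarith
  have hn0 : (0 : ℝ) ≤ n := Nat.cast_nonneg _
  have h6 : 1 ≤ (1 + (Nat.log 2 n : ℝ)) * P :=
    h2.trans (mul_le_mul_of_nonneg_right (by linarith) hP0)
  calc (n : ℝ) = n * 1 := by ring
    _ ≤ n * ((1 + (Nat.log 2 n : ℝ)) * P) := mul_le_mul_of_nonneg_left h6 hn0
    _ = (1 + (Nat.log 2 n : ℝ)) * (n * P) := by ring

end

end Pool.Agent.Lib.MP_0b748d_nt.HHC
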