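import Mathlib

set_option autoImplicit false

/-!
# Exactly half (program P2): definitions

Binary forms `d x² + 2 n x y + e y²` with `n² = d e + 2`, the tree of such forms, cells, and
averages over scales.
-/

namespace Pool.Agent.Lib.MP_0b748d_nt.HH

open Filter Topology

noncomputable section

/-- the form `d x² + 2 n x y + e y²` -/
@[ext] structure Fm where
  d : ℕ
  n : ℕ
  e : ℕ
deriving DecidableEq

/-- the matrix with rows `(a, b)`, `(c, d)` -/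
@[ext] structure Mt where
  a : ℕ
  b : ℕ
  c : ℕ
  d : ℕ
deriving DecidableEq

/-- positive forms with `n² - d e = 2` -/
def Fm.Ok (Q : Fm) : Prop := 0 < Q.d ∧ 0 < Q.e ∧ Q.n ^ 2 = Q.d * Q.e + 2

instance (Q : Fm) : Decidable Q.Ok := by unfold Fm.Ok; infer_instance

/-- the value of the form -/
def Fm.val (Q : Fm) (x y : ℕ) : ℕ := Q.d * x ^ 2 + 2 * Q.n * (x * y) + Q.e * y ^ 2

/-- the form `(x, y) ↦ Q (a x + b y, c x + d y)` -/
def Fm.act (Q : Fm) (M : Mt) : Fm :=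
  ⟨Q.val M.a M.c, Q.d * (M.a * M.b) + Q.n * (M.a * M.d + M.b * M.c) + Q.e * (M.c * M.d),
    Q.val M.b M.d⟩

/-- left child: the basis `(A, B)` becomes `(A, A + B)` -/
def Fm.lc (Q : Fm) : Fm := ⟨Q.d, Q.n + Q.d, Q.d + 2 * Q.n + Q.e⟩

/-- right child: the basis `(A, B)` becomes `(A + B, B)` -/
def Fm.rc (Q : Fm) : Fm := ⟨Q.d + 2 * Q.n + Q.e, Q.n + Q.e, Q.e⟩

/-- product of matrices -/
def Mt.mul (M N : Mt) : Mt :=
  ⟨M.a * N.a + M.b * N.c, M.a * N.b + M.b * N.d, M.c * N.a + M.d * N.c, M.c * N.b + M.d * N.d⟩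

/-- the unit matrix -/
def Mt.one : Mt := ⟨1, 0, 0, 1⟩

/-- left matrix -/
def Mt.l : Mt := ⟨1, 1, 0, 1⟩

/-- right matrix -/
def Mt.r : Mt := ⟨1, 0, 1, 1⟩

/-- determinant `m` -/
def Mt.Dt (m : ℕ) (M : Mt) : Prop := M.a * M.d = M.b * M.c + m

instance (m : ℕ) (M : Mt) : Decidable (M.Dt m) := by unfold Mt.Dt; infer_instance

/-- the matrices with entries at most `b` -/
def Bx (b : ℕ) : Finset Mt :=
  ((Finset.range (b + 1) ×ˢ Finset.range (b + 1)) ×ˢ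
    (Finset.range (b + 1) ×ˢ Finset.range (b + 1))).image
    (fun p => (⟨p.1.1, p.1.2, p.2.1, p.2.2⟩ : Mt))

/-- the forms with `d, e ≤ Y` -/
def Qs (Y : ℝ) : Finset Fm :=
  ((Finset.range (⌊Y⌋₊ + 1) ×ˢ (Finset.range (⌊Y⌋₊ + 3) ×ˢ Finset.range (⌊Y⌋₊ + 1))).image
    (fun p => (⟨p.1, p.2.1, p.2.2⟩ : Fm))).filter (fun Q => Q.Ok)

open Classical in
/-- the cells of level `T` -/
def Cl (T : ℝ) : Finset Fm := (Qs T).filter (fun Q => T < (Q.val 1 1 : ℝ))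

open Classical in
/-- the descendants of `Q` of level `T` -/
def Dn (T : ℝ) (Q : Fm) : Finset Mt := (Bx ⌊T⌋₊).filter (fun M => M.Dt 1 ∧ Q.act M ∈ Cl T)

/-- good cells -/
def Gc (δ T : ℝ) (Q : Fm) : Prop := δ * T ≤ Q.d ∧ δ * T ≤ Q.e

/-- the levels of the `n`-th system: `2 ^ (i / n)`, `i < n ^ 2` -/
def tt (n i : ℕ) : ℝ := (2 : ℝ) ^ ((i : ℝ) / (n : ℝ))

/-- average over the levels `2 ^ (i / n)`, `i < n ^ 2`, of sums over cells divided by the level -/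
def AvN (n : ℕ) (φ : ℕ → Fm → ℝ) : ℝ :=
  (1 / (n : ℝ) ^ 2) * ∑ i ∈ Finset.range (n ^ 2), (1 / tt n i) * ∑ Q ∈ Cl (tt n i), φ i Q

/-- limit of a real sequence along an ultrafilter -/
def ul (U : Ultrafilter ℕ) (x : ℕ → ℝ) : ℝ := limUnder (U : Filter ℕ) x

/-- bounded sequences -/
def Bs (x : ℕ → ℝ) : Prop := ∃ C : ℝ, ∀ n, |x n| ≤ C

/-- the limit average of a function of the system `n`, the level `i` and the cell -/
def Av (U : Ultrafilter ℕ) (φ : ℕ → ℕ → Fm → ℝ) : ℝ := ul U (fun n => AvN n (φ n))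

/-- functions which are summable over the cells of each level, uniformly -/
def Bd (φ : ℕ → ℕ → Fm → ℝ) : Prop :=
  ∃ C : ℝ, ∀ n i : ℕ, 1 ≤ n → ∑ Q ∈ Cl (tt n i), |φ n i Q| ≤ C * tt n i

end

end Pool.Agent.Lib.MP_0b748d_nt.HH
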