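import Pool.Agent.Lib.MP_0b748d_nt.HH.CselJ
import Pool.Agent.Lib.MP_0b748d_nt.HH.Defs
import Pool.Agent.Lib.PNT.Main
import Pool.Agent.Lib.MP_0b748d_nt.MR.Selberg
import Pool.Agent.Lib.MP_0b748d_nt.HH.CphiA

section

section

set_option autoImplicit false

/-!
# Decomposition by conductors
-/

namespace Pool.Agent.Lib.MP_0b748d_nt.HHC

noncomputable section

/-- Proof. `χ ↦ ⟨χ.conductor, χ.primitiveCharacter⟩` is injective on characters modulo `δ`
(`changeLevel_primitiveCharacter`), with values in the set of pairs `⟨D, χ'⟩`, `D ∣ δ`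
(`conductor_dvd_level`), `χ'` primitive (`primitiveCharacter_isPrimitive`). -/
theorem cond_dec {δ : ℕ} (hδ : 1 ≤ δ) (G : (D : ℕ) → DirichletCharacter ℂ D → ℝ)
    (hG : ∀ D χ, 0 ≤ G D χ) :
    ∑ χ : DirichletCharacter ℂ δ, G χ.conductor χ.primitiveCharacter ≤
      ∑ D ∈ δ.divisors, ∑ χ ∈ PC D, G D χ := by
  classical
  let φ : DirichletCharacter ℂ δ → (Σ D : ℕ, DirichletCharacter ℂ D) :=
    fun χ => ⟨χ.conductor, χ.primitiveCharacter⟩
  let Ψ : (Σ D : ℕ, DirichletCharacter ℂ D) → DirichletCharacter ℂ δ :=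
    fun x => if h : x.1 ∣ δ then DirichletCharacter.changeLevel h x.2 else 1
  have hΨ : ∀ χ, Ψ (φ χ) = χ := by
    intro χ
    have h1 : (φ χ).1 ∣ δ := χ.conductor_dvd_level
    simp only [Ψ, dif_pos h1]
    exact χ.changeLevel_primitiveCharacter
  have hinj : Function.Injective φ := Function.LeftInverse.injective hΨ
  have h2 : ∑ χ : DirichletCharacter ℂ δ, G χ.conductor χ.primitiveCharacter =
      ∑ x ∈ (Finset.univ : Finset (DirichletCharacter ℂ δ)).image φ, G x.1 x.2 := by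
    rw [Finset.sum_image (fun x _ y _ h => hinj h)]
  have h3 : ∑ D ∈ δ.divisors, ∑ χ ∈ PC D, G D χ =
      ∑ x ∈ δ.divisors.sigma (fun D => PC D), G x.1 x.2 := by
    rw [Finset.sum_sigma]
  rw [h2, h3]
  refine Finset.sum_le_sum_of_subset_of_nonneg ?_ fun x _ _ => hG x.1 x.2
  intro x hx
  obtain ⟨χ, _, rfl⟩ := Finset.mem_image.1 hx
  rw [Finset.mem_sigma]
  refine ⟨Nat.mem_divisors.2 ⟨χ.conductor_dvd_level, by omega⟩, ?_⟩
  exact Finset.mem_filter.2 ⟨Finset.mem_univ _, χ.primitiveCharacter_isPrimitive⟩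

open Classical in
/-- Proof. If `n` is prime to `δ`, use `primitiveCharacter_apply_of_isCoprime`; `n` is prime to
`δ / cond` in this case. Otherwise `χ n = 0`; if `n` is prime to `δ/cond` then it is not prime to
`cond`, so the right side is `0` too. -/
theorem val_prim {δ : ℕ} (hδ : 1 ≤ δ) (χ : DirichletCharacter ℂ δ) (n : ℕ) :
    χ (n : ZMod δ) = if Nat.Coprime n (δ / χ.conductor) then
      χ.primitiveCharacter (n : ZMod χ.conductor) else 0 := by
  have hc : χ.conductor ∣ δ := χ.conductor_dvd_level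
  have hcast : ∀ (m : ℕ), (((n : ℤ) : ZMod m)) = ((n : ℕ) : ZMod m) := fun m => by
    push_cast; rfl
  by_cases h : Nat.Coprime n δ
  · have h1 : Nat.Coprime n (δ / χ.conductor) :=
      Nat.Coprime.coprime_dvd_right (Nat.div_dvd_of_dvd hc) h
    rw [if_pos h1]
    have h2 : IsCoprime (n : ℤ) (δ : ℤ) := Nat.isCoprime_iff_coprime.2 h
    have h3 := χ.primitiveCharacter_apply_of_isCoprime h2
    rw [hcast, hcast] at h3
    exact h3.symm
  · have h1 : χ (n : ZMod δ) = 0 := by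
      have h2 := (DirichletCharacter.apply_eq_zero_iff χ (n : ℤ)).2
        (fun h3 => h (Nat.isCoprime_iff_coprime.1 h3))
      rwa [hcast] at h2
    rw [h1]
    by_cases h2 : Nat.Coprime n (δ / χ.conductor)
    · rw [if_pos h2]
      have h3 : ¬ Nat.Coprime n χ.conductor := by
        intro h4
        apply h
        have h5 := Nat.Coprime.mul_right h4 h2
        rwa [Nat.mul_div_cancel' hc] at h5
      have h4 := (DirichletCharacter.apply_eq_zero_iff χ.primitiveCharacter (n : ℤ)).2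
        (fun h5 => h3 (Nat.isCoprime_iff_coprime.1 h5))
      rw [hcast] at h4
      exact h4.symm
    · rw [if_neg h2]

open Classical in
/-- consequence of `val_prim` -/
theorem Kc_prim {δ : ℕ} (hδ : 1 ≤ δ) (χ : DirichletCharacter ℂ δ) (f : ℕ → ℝ) (s : Finset ℕ) :
    Kc f s χ = Kc f (s.filter (fun m => Nat.Coprime m (δ / χ.conductor))) χ.primitiveCharacter := by
  unfold Kc
  rw [Finset.sum_filter]
  refine Finset.sum_congr rfl fun m _ => ?_
  rw [val_prim hδ χ m]
  by_cases h : Nat.Coprime m (δ / χ.conductor)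
  · rw [if_pos h, if_pos h]
  · rw [if_neg h, if_neg h, mul_zero]

end

end Pool.Agent.Lib.MP_0b748d_nt.HHC
end

section

set_option autoImplicit false

/-!
# The fourth moments decomposed by conductors
-/

namespace Pool.Agent.Lib.MP_0b748d_nt.HHC

noncomputable section

open Classical in
/-- Proof. For fixed `δ` use `cond_dec` with
`G D χ = if P D then ‖Kc f (A.filter (coprime to δ/D)) χ‖² * ‖Kc f (B.filter …) χ‖² else 0`, and
`Kc_prim`. -/
theorem cond_sum (f : ℕ → ℝ) (A B s : Finset ℕ) (hs : ∀ δ ∈ s, 1 ≤ δ) (P : ℕ → Prop) :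
    ∑ δ ∈ s, (1 / (Nat.totient δ : ℝ)) *
      ∑ χ ∈ (Finset.univ : Finset (DirichletCharacter ℂ δ)).filter (fun χ => P χ.conductor),
        ‖Kc f A χ‖ ^ 2 * ‖Kc f B χ‖ ^ 2 ≤
    ∑ δ ∈ s, (1 / (Nat.totient δ : ℝ)) * ∑ D ∈ δ.divisors.filter P, ∑ χ ∈ PC D,
      ‖Kc f (A.filter (fun m => Nat.Coprime m (δ / D))) χ‖ ^ 2 *
        ‖Kc f (B.filter (fun m => Nat.Coprime m (δ / D))) χ‖ ^ 2 := by
  refine Finset.sum_le_sum fun δ hδs => ?_
  have hδ := hs δ hδs
  refine mul_le_mul_of_nonneg_left ?_ (by positivity)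
  have h1 := cond_dec hδ (fun D χ => if P D then
    ‖Kc f (A.filter (fun m => Nat.Coprime m (δ / D))) χ‖ ^ 2 *
      ‖Kc f (B.filter (fun m => Nat.Coprime m (δ / D))) χ‖ ^ 2 else 0) (fun D χ => by
        split_ifs
        · positivity
        · exact le_refl 0)
  rw [Finset.sum_filter, Finset.sum_filter]
  refine le_trans (le_of_eq ?_) (h1.trans (le_of_eq ?_))
  · refine Finset.sum_congr rfl fun χ _ => ?_
    by_cases h : P χ.conductor
    · rw [if_pos h, if_pos h, ← Kc_prim hδ, ← Kc_prim hδ]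
    · rw [if_neg h, if_neg h]
  · refine Finset.sum_congr rfl fun D _ => ?_
    by_cases h : P D
    · rw [if_pos h]
      exact Finset.sum_congr rfl fun χ _ => if_pos h
    · rw [if_neg h]
      exact Finset.sum_eq_zero fun χ _ => if_neg h

/-- Proof. The number of characters modulo `D` is `φ(D)`
(`DirichletCharacter.card_eq_totient_of_hasEnoughRootsOfUnity`). -/
theorem PC_card {D : ℕ} (hD : 1 ≤ D) : (PC D).card ≤ D := by
  classical
  have : NeZero D := ⟨by omega⟩
  have h1 : (PC D).card ≤ Fintype.card (DirichletCharacter ℂ D) := Finset.card_le_univ _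
  have h2 : Nat.card (DirichletCharacter ℂ D) = Nat.totient D :=
    DirichletCharacter.card_eq_totient_of_hasEnoughRootsOfUnity ℂ D
  rw [Nat.card_eq_fintype_card] at h2
  rw [h2] at h1
  exact h1.trans (Nat.totient_le D)

/-- Proof. The divisors `d > √k` are in bijection with the divisors `k/d < √k`. -/
theorem div_card (k : ℕ) : (k.divisors.card : ℝ) ≤ 2 * √k := by
  classical
  have h1 : (k.divisors.filter (fun d => d * d ≤ k)).card ≤ Nat.sqrt k := by
    have h2 : k.divisors.filter (fun d => d * d ≤ k) ⊆ Finset.Icc 1 (Nat.sqrt k) := by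
      intro d hd
      rw [Finset.mem_filter, Nat.mem_divisors] at hd
      rw [Finset.mem_Icc]
      exact ⟨Nat.pos_of_dvd_of_pos hd.1.1 (Nat.pos_of_ne_zero hd.1.2), Nat.le_sqrt.2 hd.2⟩
    have h3 := Finset.card_le_card h2
    rw [Nat.card_Icc, Nat.add_sub_cancel] at h3
    exact h3
  have h2 : (k.divisors.filter (fun d => ¬ d * d ≤ k)).card ≤
      (k.divisors.filter (fun d => d * d ≤ k)).card := by
    refine Finset.card_le_card_of_injOn (fun d => k / d) ?_ ?_
    · intro d hd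
      have hd' := Finset.mem_filter.1 (Finset.mem_coe.1 hd)
      rw [Nat.mem_divisors] at hd'
      obtain ⟨⟨⟨e, he⟩, hk⟩, hdd⟩ := hd'
      have hd0 : 0 < d := by
        rcases Nat.eq_zero_or_pos d with h | h
        · rw [h, zero_mul] at he
          exact absurd he hk
        · exact h
      have h3 : k / d = e := by rw [he, Nat.mul_div_cancel_left _ hd0]
      refine Finset.mem_coe.2 (Finset.mem_filter.2 ⟨Nat.mem_divisors.2 ⟨?_, hk⟩, ?_⟩)
      · show k / d ∣ k
        rw [h3, he]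
        exact Dvd.intro_left _ rfl
      · show k / d * (k / d) ≤ k
        rw [h3]
        have h4 : e < d := by
          by_contra h5
          exact hdd (by rw [he]; exact Nat.mul_le_mul_left d (not_lt.1 h5))
        rw [he]
        exact Nat.mul_le_mul_right e h4.le
    · intro d hd d' hd' h
      have hd1 := Finset.mem_filter.1 (Finset.mem_coe.1 hd)
      have hd2 := Finset.mem_filter.1 (Finset.mem_coe.1 hd')
      rw [Nat.mem_divisors] at hd1 hd2
      dsimp only at h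
      have h3 := Nat.div_mul_cancel hd1.1.1
      have h4 := Nat.div_mul_cancel hd2.1.1
      have h5 : 0 < k / d := by
        refine Nat.div_pos (Nat.le_of_dvd (Nat.pos_of_ne_zero hd1.1.2) hd1.1.1) ?_
        exact Nat.pos_of_dvd_of_pos hd1.1.1 (Nat.pos_of_ne_zero hd1.1.2)
      rw [← h] at h4
      exact Nat.eq_of_mul_eq_mul_left h5 (h3.trans h4.symm)
  have h3 := Finset.card_filter_add_card_filter_not (s := k.divisors) (fun d => d * d ≤ k)
  have h4 : k.divisors.card ≤ 2 * Nat.sqrt k := by omega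
  have h5 : ((k.divisors.card : ℕ) : ℝ) ≤ ((2 * Nat.sqrt k : ℕ) : ℝ) := by exact_mod_cast h4
  have h6 := Real.nat_sqrt_le_real_sqrt (a := k)
  push_cast at h5
  linarith

end

end Pool.Agent.Lib.MP_0b748d_nt.HHC
end
end

section

set_option autoImplicit false

/-!
# Further definitions
-/

namespace Pool.Agent.Lib.MP_0b748d_nt.HHC

noncomputable section

open Classical in
/-- the determinants of transversal pairs -/
def DR (C0 η : ℝ) (N : ℕ) : Finset ℕ :=
  (Finset.Icc 1 ⌊C0 * N⌋₊).filter (fun δ => η * N ≤ (δ : ℝ))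

/-- multiplicative convolution -/
def cv (f : ℕ → ℝ) (A B : Finset ℕ) (n : ℕ) : ℝ :=
  ∑ x ∈ A ×ˢ B, if x.1 * x.2 = n then f x.1 * f x.2 else 0

/-- `v ≡ r u` modulo `dt u v`, `r` a reduced residue -/
def Rz (u v : ℤ × ℤ) (r : ℕ) : Prop :=
  r ∈ ur (dt u v).natAbs ∧ ((dt u v).natAbs : ℤ) ∣ v.1 - r * u.1 ∧
    ((dt u v).natAbs : ℤ) ∣ v.2 - r * u.2

open Classical in
/-- the points of the box close to its boundary -/
def bd (L : ℕ) (s : ℝ) : Finset (ℤ × ℤ) :=
  (bx L).filter (fun w => (w.1 : ℝ) ≤ s ∨ (w.2 : ℝ) ≤ s ∨ (L : ℝ) - w.1 ≤ s ∨ (L : ℝ) - w.2 ≤ s)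

/-- Lipschitz kernels on the box -/
structure LK (C0 : ℝ) (N L : ℕ) (κ : ℤ × ℤ → ℤ × ℤ → ℝ) : Prop where
  bd : ∀ u ∈ bx L, ∀ w ∈ bx L, |κ u w| ≤ C0
  l1 : ∀ u ∈ bx L, ∀ u' ∈ bx L, ∀ w ∈ bx L,
    |κ u w - κ u' w| ≤ C0 * (|(u.1 : ℝ) - u'.1| + |(u.2 : ℝ) - u'.2|) / √N
  l2 : ∀ u ∈ bx L, ∀ w ∈ bx L, ∀ w' ∈ bx L,
    |κ u w - κ u w'| ≤ C0 * (|(w.1 : ℝ) - w'.1| + |(w.2 : ℝ) - w'.2|) / √N

open Classical in
/-- `f` has small sums over the pieces of a partition of the box into sets of diameter at most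
`η √N`, in all residue classes modulo `W` -/
def SM (W : ℕ) (η : ℝ) (N L : ℕ) (f : ℤ × ℤ → ℝ) : Prop := ∃ piece : ℤ × ℤ → ℕ,
  (∀ u ∈ bx L, ∀ u' ∈ bx L, piece u = piece u' →
    |(u.1 : ℝ) - u'.1| ≤ η * √N ∧ |(u.2 : ℝ) - u'.2| ≤ η * √N) ∧
  ∑ j ∈ (bx L).image piece, ∑ a ∈ Finset.range W ×ˢ Finset.range W,
    |∑ u ∈ (bx L).filter (fun u => piece u = j ∧ u.1 % (W : ℤ) = (a.1 : ℤ) ∧
      u.2 % (W : ℤ) = (a.2 : ℤ)), f u| ≤ η * N

end

end Pool.Agent.Lib.MP_0b748d_nt.HHC
end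

section

set_option autoImplicit false

/-!
# Cells
-/

namespace Pool.Agent.Lib.MP_0b748d_nt.HHC

noncomputable section

private theorem CmodA_mem {N J i m : ℕ} (hJ : 1 ≤ J) (hm : m ∈ cell N J i) :
    0 < N ∧ N ≤ m ∧ m < 2 * N ∧ (i : ℝ) * N / J ≤ (m : ℝ) - N ∧
      (m : ℝ) - N < ((i : ℝ) + 1) * N / J := by
  unfold cell ci at hm
  rw [Finset.mem_filter, Finset.mem_Ico] at hm
  obtain ⟨⟨h1, h2⟩, h3⟩ := hm
  have hN : 0 < N := by omega
  have hJ' : (0 : ℝ) < J := by exact_mod_cast hJ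
  have h4 : i * N ≤ (m - N) * J := by
    rw [← h3]; exact Nat.div_mul_le_self _ _
  have h5 : (m - N) * J < (i + 1) * N := by
    rw [← h3]
    have := Nat.lt_div_mul_add (a := (m - N) * J) hN
    linarith
  have h4' : (i : ℝ) * N ≤ ((m : ℝ) - N) * J := by
    rw [← Nat.cast_sub h1]; exact_mod_cast h4
  have h5' : ((m : ℝ) - N) * J < ((i : ℝ) + 1) * N := by
    rw [← Nat.cast_sub h1]; exact_mod_cast h5
  refine ⟨hN, h1, h2, ?_, ?_⟩
  · rw [div_le_iff₀ hJ']; exact h4'
  · rw [lt_div_iff₀ hJ']; exact h5'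

/-- the cell is an interval of integers -/
private theorem CmodA_cell {N J i : ℕ} (hN : 1 ≤ N) (hJ : 1 ≤ J) (hi : i < J) :
    cell N J i = Finset.Ico (N + ⌈(i : ℝ) * N / J⌉₊) (N + ⌈((i : ℝ) + 1) * N / J⌉₊) := by
  have hJ' : (0 : ℝ) < J := by exact_mod_cast hJ
  have hN' : (0 : ℝ) < N := by exact_mod_cast hN
  ext m
  constructor
  · intro hm
    obtain ⟨-, h1, h2, h3, h4⟩ := CmodA_mem hJ hm
    rw [← Nat.cast_sub h1] at h3 h4
    have h5 := Nat.ceil_le.2 h3
    have h6 := Nat.lt_ceil.2 h4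
    rw [Finset.mem_Ico]
    omega
  · intro hm
    rw [Finset.mem_Ico] at hm
    have h1 : N ≤ m := by omega
    have h3 : (i : ℝ) * N / J ≤ ((m - N : ℕ) : ℝ) := Nat.ceil_le.1 (by omega)
    have h4 : ((m - N : ℕ) : ℝ) < ((i : ℝ) + 1) * N / J := Nat.lt_ceil.1 (by omega)
    rw [div_le_iff₀ hJ'] at h3
    rw [lt_div_iff₀ hJ'] at h4
    have h3' : i * N ≤ (m - N) * J := by exact_mod_cast h3
    have h4' : (m - N) * J < (i + 1) * N := by exact_mod_cast h4
    unfold cell ci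
    rw [Finset.mem_filter, Finset.mem_Ico]
    have h5 : (m - N) * J / N = i := by
      rw [Nat.div_eq_iff (by omega)]
      constructor
      · exact h3'
      · have : (i + 1) * N = i * N + N := by ring
        omega
    refine ⟨⟨h1, ?_⟩, h5⟩
    have h6 : (m - N) * J < J * N := lt_of_lt_of_le h4' (Nat.mul_le_mul_right _ hi)
    have h7 : m - N < N := by
      by_contra h
      rw [not_lt] at h
      have := Nat.mul_le_mul_right J h
      rw [mul_comm N J] at this
      omega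
    omega

/-- Proof. For `i < J`, `m ∈ cell N J i` iff `N + i N/J ≤ m < N + (i+1) N/J` (real numbers): an
interval of length `N/J`; the class `a` modulo `W` meets it in `N/(JW) + O(1)` elements. -/
theorem cc_card (N J W i a : ℕ) (hN : 1 ≤ N) (hJ : 1 ≤ J) (hW : 1 ≤ W) (hi : i < J) (ha : a < W) :
    |((cc N J W i a).card : ℝ) - (N : ℝ) / (J * W)| ≤ 2 := by
  have hJ' : (0 : ℝ) < J := by exact_mod_cast hJ
  have hN' : (0 : ℝ) < N := by exact_mod_cast hN
  have hW' : (0 : ℝ) < W := by exact_mod_cast hW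
  have hWq : (0 : ℚ) < W := by exact_mod_cast hW
  set A : ℕ := N + ⌈(i : ℝ) * N / J⌉₊ with hA
  set B : ℕ := N + ⌈((i : ℝ) + 1) * N / J⌉₊ with hB
  have e1 : cc N J W i a = (Finset.Ico A B).filter (fun m => m ≡ a [MOD W]) := by
    unfold cc
    rw [CmodA_cell hN hJ hi]
    refine Finset.filter_congr fun m _ => ?_
    unfold Nat.ModEq
    rw [Nat.mod_eq_of_lt ha]
  have hAB : A ≤ B := by
    rw [hA, hB]
    have : ⌈(i : ℝ) * N / J⌉₊ ≤ ⌈((i : ℝ) + 1) * N / J⌉₊ := by
      apply Nat.ceil_le_ceil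
      gcongr
      linarith
    omega
  have e2 := Nat.Ico_filter_modEq_card A B (r := W) (by omega) a
  rw [← e1] at e2
  -- bounds over the rationals
  have h1 := Int.le_ceil (((B : ℚ) - a) / W)
  have h2 := Int.ceil_lt_add_one (((B : ℚ) - a) / W)
  have h3 := Int.le_ceil (((A : ℚ) - a) / W)
  have h4 := Int.ceil_lt_add_one (((A : ℚ) - a) / W)
  have hABq : (A : ℚ) ≤ B := by exact_mod_cast hAB
  have hle : ⌈((A : ℚ) - a) / W⌉ ≤ ⌈((B : ℚ) - a) / W⌉ := by
    apply Int.ceil_le_ceil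
    gcongr
  have e3 : ((cc N J W i a).card : ℤ) = ⌈((B : ℚ) - a) / W⌉ - ⌈((A : ℚ) - a) / W⌉ := by
    rw [e2, max_eq_left (by omega)]
  have e4 : ((cc N J W i a).card : ℚ) = (⌈((B : ℚ) - a) / W⌉ : ℚ) - (⌈((A : ℚ) - a) / W⌉ : ℚ) := by
    exact_mod_cast e3
  have e5 : ((B : ℚ) - a) / W - ((A : ℚ) - a) / W = ((B : ℚ) - A) / W := by
    field_simp; ring
  have h5 : |((cc N J W i a).card : ℚ) - ((B : ℚ) - A) / W| ≤ 1 := by
    rw [e4, abs_le, ← e5]
    constructor <;> linarith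
  have h6 : |((cc N J W i a).card : ℝ) - ((B : ℝ) - A) / W| ≤ 1 := by
    have h6 := (Rat.cast_le (K := ℝ)).2 h5
    push_cast at h6
    exact h6
  -- the length of the interval
  have h7 : |((B : ℝ) - A) - N / J| ≤ 1 := by
    have c1 := Nat.le_ceil ((i : ℝ) * N / J)
    have c2 := Nat.ceil_lt_add_one (show 0 ≤ (i : ℝ) * N / J by positivity)
    have c3 := Nat.le_ceil (((i : ℝ) + 1) * N / J)
    have c4 := Nat.ceil_lt_add_one (show 0 ≤ ((i : ℝ) + 1) * N / J by positivity)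
    have c5 : ((i : ℝ) + 1) * N / J = (i : ℝ) * N / J + N / J := by ring
    rw [c5] at c3 c4
    rw [hA, hB, c5]
    push_cast
    rw [abs_le]
    constructor <;> linarith
  have h8 : |((B : ℝ) - A) / W - N / (J * W)| ≤ 1 := by
    have c6 : ((B : ℝ) - A) / W - N / (J * W) = (((B : ℝ) - A) - N / J) / W := by
      field_simp
    rw [c6, abs_div, abs_of_pos hW', div_le_one hW']
    have : (1 : ℝ) ≤ W := by exact_mod_cast hW
    linarith
  calc |((cc N J W i a).card : ℝ) - (N : ℝ) / (J * W)|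
      = |(((cc N J W i a).card : ℝ) - ((B : ℝ) - A) / W) +
          (((B : ℝ) - A) / W - N / (J * W))| := by congr 1; ring
    _ ≤ 1 + 1 := (abs_add_le _ _).trans (add_le_add h6 h8)
    _ = 2 := by norm_num

/-- two elements of one cell are close -/
theorem cell_close {N J i m n : ℕ} (hJ : 1 ≤ J) (hm : m ∈ cell N J i) (hn : n ∈ cell N J i) :
    |(m : ℝ) - n| ≤ (N : ℝ) / J := by
  obtain ⟨-, -, -, h1, h2⟩ := CmodA_mem hJ hm
  obtain ⟨-, -, -, h3, h4⟩ := CmodA_mem hJ hn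
  have c5 : ((i : ℝ) + 1) * N / J = (i : ℝ) * N / J + N / J := by ring
  rw [c5] at h2 h4
  rw [abs_le]
  constructor <;> linarith

/-- every `m ∈ [N, 2N)` lies in a cell of index `< J` -/
theorem ci_lt {N J m : ℕ} (hJ : 1 ≤ J) (h1 : N ≤ m) (h2 : m < 2 * N) : ci N J m < J := by
  unfold ci
  have hN : 0 < N := by omega
  refine Nat.div_lt_of_lt_mul ?_
  exact Nat.mul_lt_mul_of_pos_right (by omega) (by omega)

/-- support of the model -/
theorem km_supp {c : ℕ → ℝ} {N J W m : ℕ} (h : km c N J W m ≠ 0) :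
    N ≤ m ∧ m < 2 * N ∧ Nat.Coprime m W := by
  unfold km at h
  by_contra h2
  exact h (if_neg h2)

end

end Pool.Agent.Lib.MP_0b748d_nt.HHC
end

section

set_option autoImplicit false

/-!
# The tree of forms and the cells
-/

namespace Pool.Agent.Lib.MP_0b748d_nt.HH

noncomputable section

private theorem treeC_aux {d n e : ℕ} (hd : 0 < d) (h : n ^ 2 = d * e + 2) (hlt : d < e) :
    (d = 1 ∧ n = 2 ∧ e = 2) ∨ ∃ m f : ℕ, 0 < f ∧ n = d + m ∧ e = d + 2 * m + f ∧
      m ^ 2 = d * f + 2 := by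
  have hn : d < n := by
    by_contra hcon
    have h1 : n ≤ d := not_lt.1 hcon
    have h2 : n ^ 2 ≤ d ^ 2 := Nat.pow_le_pow_left h1 2
    nlinarith
  by_cases h1 : 2 * n < d + e
  · right
    obtain ⟨m, rfl⟩ := Nat.exists_eq_add_of_lt hn
    obtain ⟨f, rfl⟩ : ∃ f, e = d + 2 * (m + 1) + f := ⟨e - (d + 2 * (m + 1)), by omega⟩
    refine ⟨m + 1, f, by omega, by omega, by omega, ?_⟩
    nlinarith
  · left
    obtain ⟨k, rfl⟩ := Nat.exists_eq_add_of_lt hlt
    have h2 : d + (d + k + 1) ≤ 2 * n := not_lt.1 h1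
    have h3 : (d + (d + k + 1)) ^ 2 ≤ (2 * n) ^ 2 := Nat.pow_le_pow_left h2 2
    have h4 : (k + 1) ^ 2 ≤ 8 := by nlinarith
    have h5 : k < 2 := by
      by_contra hcon
      have h6 : 3 ≤ k + 1 := by omega
      have h7 : 3 ^ 2 ≤ (k + 1) ^ 2 := Nat.pow_le_pow_left h6 2
      omega
    interval_cases k
    · have h8 : d < 2 := by
        by_contra hcon
        have h9 : d + 1 ≤ n := hn
        have h10 : (d + 1) ^ 2 ≤ n ^ 2 := Nat.pow_le_pow_left h9 2
        nlinarith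
      have h9 : d = 1 := by omega
      subst h9
      have h10 : n < 3 := by
        by_contra hcon
        have h11 : 3 ^ 2 ≤ n ^ 2 := Nat.pow_le_pow_left (not_lt.1 hcon) 2
        omega
      have h11 : n = 2 := by omega
      exact ⟨rfl, h11, rfl⟩
    · exfalso
      rcases Nat.lt_or_ge n (d + 2) with h8 | h8
      · have h9 : n ^ 2 ≤ (d + 1) ^ 2 := Nat.pow_le_pow_left (by omega) 2
        nlinarith
      · have h9 : (d + 2) ^ 2 ≤ n ^ 2 := Nat.pow_le_pow_left h8 2
        nlinarith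

/-- Every form except the two roots is a child. Proof. `d = e` is impossible (`n² = d² + 2`, and
`d² < n² < (d + 2)²` gives `n = d + 1`, `2 d = 1`). Let `d < e`. `n² = d e + 2 ≥ d (d + 1) + 2 > d²`,
so `n > d`. Consider `(d, n - d, d + e - 2 n)` (integers); `(n - d)² - d (d + e - 2 n) = n² - d e = 2`.
If `d + e > 2 n` it is an `Ok` form and `Q` is its left child. If `d + e ≤ 2 n` then
`(d + e)² ≤ 4 n² = 4 d e + 8`, `(e - d)² ≤ 8`, so `e = d + 1` or `e = d + 2`. If `e = d + 2` then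
`n² = (d + 1)² + 1`, impossible. If `e = d + 1` then `n² = d² + d + 2`, and for `d ≥ 2`
`d² < n² < (d + 1)²`, impossible; so `d = 1`, `e = 2`, `n = 2`. The case `e < d` is symmetric. -/
theorem parent {Q : Fm} (hQ : Q.Ok) : Q = ⟨1, 2, 2⟩ ∨ Q = ⟨2, 2, 1⟩ ∨
    (∃ Q' : Fm, Q'.Ok ∧ Q = Q'.lc) ∨ (∃ Q' : Fm, Q'.Ok ∧ Q = Q'.rc) := by
  obtain ⟨d, n, e⟩ := Q
  obtain ⟨hd, he, hn⟩ := hQ
  simp only at hd he hn
  rcases lt_trichotomy d e with h | h | h
  · rcases treeC_aux hd hn h with ⟨rfl, rfl, rfl⟩ | ⟨m, f, hf, rfl, rfl, hm⟩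
    · left; rfl
    · right; right; left
      refine ⟨⟨d, m, f⟩, ⟨hd, hf, hm⟩, ?_⟩
      show (⟨d, d + m, d + 2 * m + f⟩ : Fm) = ⟨d, m + d, d + 2 * m + f⟩
      rw [add_comm m d]
  · exfalso
    subst h
    rcases Nat.lt_or_ge d n with h1 | h1
    · have h2 : (d + 1) ^ 2 ≤ n ^ 2 := Nat.pow_le_pow_left h1 2
      rcases Nat.lt_or_ge n (d + 2) with h3 | h3
      · have h4 : n = d + 1 := by omega
        subst h4
        have h5 : 2 * d = 1 := by nlinarith
        omega
      · have h4 : (d + 2) ^ 2 ≤ n ^ 2 := Nat.pow_le_pow_left h3 2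
        nlinarith
    · have h2 : n ^ 2 ≤ d ^ 2 := Nat.pow_le_pow_left h1 2
      nlinarith
  · rcases treeC_aux he (by rw [hn, mul_comm]) h with ⟨rfl, rfl, rfl⟩ | ⟨m, f, hf, rfl, rfl, hm⟩
    · right; left; rfl
    · right; right; right
      refine ⟨⟨f, m, e⟩, ⟨hf, he, by simp only; rw [hm, mul_comm]⟩, ?_⟩
      show (⟨e + 2 * m + f, e + m, e⟩ : Fm) = ⟨f + 2 * m + e, m + e, e⟩
      rw [add_comm m e, add_comm e (2 * m), add_assoc (2 * m) e f, add_comm e f,
        ← add_assoc (2 * m) f e, add_comm (2 * m) f]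

/-- Every matrix of determinant one with natural entries is the unit matrix or ends with `l` or
`r`. Proof. `a d = b c + 1`. If `b ≥ a` and `d ≥ c` take `M' = (a, b - a; c, d - c)`; if `a ≥ b` and
`c ≥ d` take `M' = (a - b, b; c - d, d)`. If `a > b` and `c < d`: `a d ≥ (b + 1)(c + 1) =
b c + b + c + 1`, so `b = c = 0` and `a = d = 1`. If `a < b` and `c > d`: `b c ≥ (a + 1)(d + 1) >
a d`, impossible. -/
theorem SL_cases {M : Mt} (h : M.Dt 1) : M = Mt.one ∨
    (∃ M' : Mt, M'.Dt 1 ∧ M = M'.mul Mt.l ∧ M'.a + M'.b + M'.c + M'.d < M.a + M.b + M.c + M.d) ∨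
    (∃ M' : Mt, M'.Dt 1 ∧ M = M'.mul Mt.r ∧ M'.a + M'.b + M'.c + M'.d < M.a + M.b + M.c + M.d) := by
  obtain ⟨a, b, c, d⟩ := M
  have h0 : a * d = b * c + 1 := h
  have ha : 0 < a := by
    rcases Nat.eq_zero_or_pos a with rfl | h1
    · rw [zero_mul] at h0; omega
    · exact h1
  have hd : 0 < d := by
    rcases Nat.eq_zero_or_pos d with rfl | h1
    · rw [mul_zero] at h0; omega
    · exact h1
  by_cases h1 : a ≤ b ∧ c ≤ d
  · right; left
    obtain ⟨h2, h3⟩ := h1
    obtain ⟨b', rfl⟩ := Nat.exists_eq_add_of_le h2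
    obtain ⟨d', rfl⟩ := Nat.exists_eq_add_of_le h3
    refine ⟨⟨a, b', c, d'⟩, ?_, ?_, ?_⟩
    · show a * d' = b' * c + 1
      nlinarith
    · simp only [Mt.mul, Mt.l, Mt.mk.injEq]
      refine ⟨by omega, by omega, by omega, by omega⟩
    · simp only
      omega
  · by_cases h2 : b ≤ a ∧ d ≤ c
    · right; right
      obtain ⟨h2, h3⟩ := h2
      obtain ⟨a', rfl⟩ := Nat.exists_eq_add_of_le h2
      obtain ⟨c', rfl⟩ := Nat.exists_eq_add_of_le h3
      refine ⟨⟨a', b, c', d⟩, ?_, ?_, ?_⟩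
      · show a' * d = b * c' + 1
        nlinarith
      · simp only [Mt.mul, Mt.r, Mt.mk.injEq]
        refine ⟨by omega, by omega, by omega, by omega⟩
      · simp only
        omega
    · left
      rcases Nat.lt_or_ge b a with h3 | h3
      · rcases Nat.lt_or_ge c d with h4 | h4
        · obtain ⟨p, rfl⟩ := Nat.exists_eq_add_of_lt h3
          obtain ⟨q, rfl⟩ := Nat.exists_eq_add_of_lt h4
          have h5 : b + c + p + q + (b * q + p * c + p * q) = 0 := by nlinarith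
          have h6 : b = 0 ∧ c = 0 ∧ p = 0 ∧ q = 0 := by omega
          obtain ⟨rfl, rfl, rfl, rfl⟩ := h6
          rfl
        · exact absurd ⟨h3.le, h4⟩ h2
      · rcases Nat.lt_or_ge d c with h4 | h4
        · rcases Nat.lt_or_ge a b with h5 | h5
          · exfalso
            have h6 : a * d ≤ b * c := Nat.mul_le_mul h5.le h4.le
            omega
          · exact absurd ⟨h5, h4.le⟩ h2
        · exact absurd ⟨h3, h4⟩ h1

end

end Pool.Agent.Lib.MP_0b748d_nt.HH
end

section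

set_option autoImplicit false

/-!
# Limits along an ultrafilter
-/

namespace Pool.Agent.Lib.MP_0b748d_nt.HH

open Filter Topology

noncomputable section

/-- The sequence lies in a compact interval, so the image ultrafilter converges
(`IsCompact.ultrafilter_le_nhds` for `Set.Icc (-C) C` and `U.map x`), and `limUnder` is the limit
(`Filter.Tendsto.limUnder_eq`). -/
theorem ul_tendsto (U : Ultrafilter ℕ) {x : ℕ → ℝ} (hx : Bs x) : Tendsto x U (𝓝 (ul U x)) := by
  obtain ⟨C, hC⟩ := hx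
  obtain ⟨a, _, ha⟩ := (isCompact_Icc (a := -C) (b := C)).ultrafilter_le_nhds (U.map x) (by
    rw [le_principal_iff, Ultrafilter.coe_map, mem_map]
    exact Filter.Eventually.of_forall fun n => abs_le.1 (hC n))
  have h1 : Tendsto x U (𝓝 a) := ha
  have h2 : ul U x = a := h1.limUnder_eq
  rw [h2]
  exact h1

theorem ul_eq {U : Ultrafilter ℕ} {x : ℕ → ℝ} {a : ℝ} (h : Tendsto x U (𝓝 a)) : ul U x = a :=
  h.limUnder_eq

theorem Bs_add {x y : ℕ → ℝ} (hx : Bs x) (hy : Bs y) : Bs (fun n => x n + y n) := by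
  obtain ⟨C, hC⟩ := hx
  obtain ⟨D, hD⟩ := hy
  exact ⟨C + D, fun n => (abs_add_le _ _).trans (add_le_add (hC n) (hD n))⟩

theorem Bs_smul {x : ℕ → ℝ} (c : ℝ) (hx : Bs x) : Bs (fun n => c * x n) := by
  obtain ⟨C, hC⟩ := hx
  exact ⟨|c| * C, fun n => by
    rw [abs_mul]
    exact mul_le_mul_of_nonneg_left (hC n) (abs_nonneg c)⟩

theorem Bs_mul {x y : ℕ → ℝ} (hx : Bs x) (hy : Bs y) : Bs (fun n => x n * y n) := by
  obtain ⟨C, hC⟩ := hx
  obtain ⟨D, hD⟩ := hy
  exact ⟨C * D, fun n => by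
    rw [abs_mul]
    exact mul_le_mul (hC n) (hD n) (abs_nonneg _) ((abs_nonneg _).trans (hC n))⟩

theorem Bs_const (c : ℝ) : Bs (fun _ => c) :=
  ⟨|c|, fun _ => le_rfl⟩

theorem Bs_sum {ι : Type*} (s : Finset ι) (x : ι → ℕ → ℝ) (h : ∀ j ∈ s, Bs (x j)) :
    Bs (fun n => ∑ j ∈ s, x j n) := by
  classical
  induction s using Finset.induction_on with
  | empty =>
    simp only [Finset.sum_empty]
    exact Bs_const 0
  | insert a s ha ih =>
    simp only [Finset.sum_insert ha]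
    exact Bs_add (h a (Finset.mem_insert_self a s))
      (ih fun j hj => h j (Finset.mem_insert_of_mem hj))

end

end Pool.Agent.Lib.MP_0b748d_nt.HH
end

section

set_option autoImplicit false

/-!
# Limits along an ultrafilter
-/

namespace Pool.Agent.Lib.MP_0b748d_nt.HH

open Filter Topology

noncomputable section

theorem ul_add {U : Ultrafilter ℕ} {x y : ℕ → ℝ} (hx : Bs x) (hy : Bs y) :
    ul U (fun n => x n + y n) = ul U x + ul U y :=
  ul_eq ((ul_tendsto U hx).add (ul_tendsto U hy))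

theorem ul_smul {U : Ultrafilter ℕ} {x : ℕ → ℝ} (c : ℝ) (hx : Bs x) :
    ul U (fun n => c * x n) = c * ul U x :=
  ul_eq ((ul_tendsto U hx).const_mul c)

theorem ul_mul {U : Ultrafilter ℕ} {x y : ℕ → ℝ} (hx : Bs x) (hy : Bs y) :
    ul U (fun n => x n * y n) = ul U x * ul U y :=
  ul_eq ((ul_tendsto U hx).mul (ul_tendsto U hy))

theorem ul_const {U : Ultrafilter ℕ} (c : ℝ) : ul U (fun _ => c) = c :=
  ul_eq tendsto_const_nhds

theorem ul_sum {U : Ultrafilter ℕ} {ι : Type*} (s : Finset ι) (x : ι → ℕ → ℝ)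
    (h : ∀ j ∈ s, Bs (x j)) : ul U (fun n => ∑ j ∈ s, x j n) = ∑ j ∈ s, ul U (x j) :=
  ul_eq (tendsto_finsetSum s fun j hj => ul_tendsto U (h j hj))

theorem ul_mono {U : Ultrafilter ℕ} {x y : ℕ → ℝ} (hx : Bs x) (hy : Bs y)
    (h : ∀ᶠ n in (U : Filter ℕ), x n ≤ y n) : ul U x ≤ ul U y :=
  le_of_tendsto_of_tendsto (ul_tendsto U hx) (ul_tendsto U hy) h

theorem ul_congr {U : Ultrafilter ℕ} {x y : ℕ → ℝ}
    (h : ∀ᶠ n in (U : Filter ℕ), x n = y n) : ul U x = ul U y := by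
  unfold ul limUnder
  rw [Filter.map_congr h]

/-- two bounded sequences whose difference tends to zero have the same limit -/
theorem ul_eq_of_sub {U : Ultrafilter ℕ} (hU : (U : Filter ℕ) ≤ atTop) {x y : ℕ → ℝ} (hx : Bs x)
    (hy : Bs y) (h : Tendsto (fun n => x n - y n) atTop (𝓝 0)) : ul U x = ul U y := by
  have h1 : Tendsto (fun n => y n + (x n - y n)) U (𝓝 (ul U y + 0)) :=
    (ul_tendsto U hy).add (h.mono_left hU)
  have h2 : (fun n => y n + (x n - y n)) = x := by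
    funext n
    ring
  rw [h2, add_zero] at h1
  have _ := hx
  exact ul_eq h1

/-- the limit commutes with continuous functions -/
theorem ul_comp {U : Ultrafilter ℕ} {x : ℕ → ℝ} (hx : Bs x) {f : ℝ → ℝ} (hf : Continuous f) :
    ul U (fun n => f (x n)) = f (ul U x) :=
  ul_eq ((hf.tendsto _).comp (ul_tendsto U hx))

theorem abs_ul_le {U : Ultrafilter ℕ} {x : ℕ → ℝ} {C : ℝ} (h : ∀ n, |x n| ≤ C) :
    |ul U x| ≤ C := by
  have hx : Bs x := ⟨C, h⟩
  exact le_of_tendsto (ul_tendsto U hx).abs (Filter.Eventually.of_forall h)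

end

end Pool.Agent.Lib.MP_0b748d_nt.HH
end

section

set_option autoImplicit false

/-!
# Primes in cells and residue classes
-/

namespace Pool.Agent.Lib.MP_0b748d_nt.HHC

noncomputable section

private theorem CmodB_cell {N J i m : ℕ} (hJ : 1 ≤ J) (hm : m ∈ cell N J i) :
    0 < N ∧ N ≤ m ∧ m < 2 * N ∧ (i : ℝ) * N / J ≤ (m : ℝ) - N ∧
      (m : ℝ) - N < ((i : ℝ) + 1) * N / J := by
  unfold cell ci at hm
  rw [Finset.mem_filter, Finset.mem_Ico] at hm
  obtain ⟨⟨h1, h2⟩, h3⟩ := hm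
  have hN : 0 < N := by omega
  have hJ' : (0 : ℝ) < J := by exact_mod_cast hJ
  have h4 : i * N ≤ (m - N) * J := by
    rw [← h3]; exact Nat.div_mul_le_self _ _
  have h5 : (m - N) * J < (i + 1) * N := by
    rw [← h3]
    have := Nat.lt_div_mul_add (a := (m - N) * J) hN
    linarith only [this]
  have h4' : (i : ℝ) * N ≤ ((m : ℝ) - N) * J := by
    rw [← Nat.cast_sub h1]; exact_mod_cast h4
  have h5' : ((m : ℝ) - N) * J < ((i : ℝ) + 1) * N := by
    rw [← Nat.cast_sub h1]; exact_mod_cast h5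
  refine ⟨hN, h1, h2, ?_, ?_⟩
  · rw [div_le_iff₀ hJ']; exact h4'
  · rw [lt_div_iff₀ hJ']; exact h5'

open Classical in
/-- primes in a cell and a residue class.

Proof. The cell is the interval `[x1, x2)`, `x1 = N + i N/J`, `x2 = N + (i+1) N/J`, inside
`[N, 2N]`. The sum is at most `S(x2) - S(x1 - 1)` with `S(x) = ∑_{k ∈ Icc 1 ⌊x⌋₊}
vonMangoldt.residueClass a k` (a prime `m ≡ a` has `residueClass a m = log m`, all terms are
nonnegative). By `PNT.pnt_residueClass`, `|S(x) - x/φ(W)| ≤ η x` for `x ≥ x0(η, W)` and all the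
finitely many classes `a`; so the sum is at most `(N/J + 1)/φ(W) + 4 η N`. -/
theorem prime_cc (J W : ℕ) (hJ : 1 ≤ J) (hW : 1 ≤ W) (ε : ℝ) (hε : 0 < ε) :
    ∃ N0 : ℕ, ∀ N ≥ N0, ∀ i < J, ∀ a < W, Nat.Coprime a W →
    ∑ m ∈ (cc N J W i a).filter Nat.Prime, Real.log m ≤ (1 + ε) * (N / (J * Nat.totient W)) := by
  have : NeZero W := ⟨by omega⟩
  have hJ' : (0 : ℝ) < J := by exact_mod_cast hJ
  have hφ : 0 < Nat.totient W := Nat.totient_pos.2 (by omega)
  have hφ' : (0 : ℝ) < Nat.totient W := by exact_mod_cast hφ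
  set φ : ℝ := (Nat.totient W : ℝ) with hφdef
  set η : ℝ := ε / (8 * J * φ) with hη
  have hη0 : 0 < η := by positivity
  have hev : ∀ᶠ x : ℝ in Filter.atTop, ∀ a ∈ (Finset.range W).filter (fun a => Nat.Coprime a W),
      |(∑ k ∈ Finset.Icc 1 ⌊x⌋₊, ArithmeticFunction.vonMangoldt.residueClass (a : ZMod W) k) / x -
        φ⁻¹| < η := by
    rw [Filter.eventually_all_finset]
    intro a ha
    rw [Finset.mem_filter] at ha
    have hu : IsUnit (a : ZMod W) := (ZMod.isUnit_iff_coprime a W).2 ha.2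
    have h := PNT.pnt_residueClass hu
    have h2 := (Metric.tendsto_nhds.1 h) η hη0
    filter_upwards [h2] with x hx
    rwa [Real.dist_eq] at hx
  obtain ⟨x0, hx0⟩ := Filter.eventually_atTop.1 hev
  refine ⟨⌈|x0| + 2 + 2 * J / ε⌉₊, fun N hN i hi a ha hco => ?_⟩
  have hN1 : |x0| + 2 + 2 * J / ε ≤ N := (Nat.le_ceil _).trans (by exact_mod_cast hN)
  have hJε : 0 < 2 * (J : ℝ) / ε := by positivity
  have hx0N : x0 ≤ (N : ℝ) - 1 := by
    have := le_abs_self x0
    linarith only [hN1, hJε, this]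
  have hN2 : (2 : ℝ) ≤ N := by
    have := abs_nonneg x0
    linarith
  have hN3 : 2 * (J : ℝ) / ε ≤ N := by
    have := abs_nonneg x0
    linarith only [hN1, this]
  set S : ℝ → ℝ := fun x =>
    ∑ k ∈ Finset.Icc 1 ⌊x⌋₊, ArithmeticFunction.vonMangoldt.residueClass (a : ZMod W) k with hS
  have hSb : ∀ x : ℝ, x0 ≤ x → 0 < x → |S x - x / φ| ≤ η * x := by
    intro x h1 h2
    have h3 := hx0 x h1 a (by rw [Finset.mem_filter, Finset.mem_range]; exact ⟨ha, hco⟩)
    have h4 : S x - x / φ = (S x / x - φ⁻¹) * x := by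
      field_simp
    rw [h4, abs_mul, abs_of_pos h2]
    exact mul_le_mul_of_nonneg_right h3.le h2.le
  set x1 : ℝ := N + i * N / J with hx1
  set x2 : ℝ := N + ((i : ℝ) + 1) * N / J with hx2
  have hi' : (i : ℝ) + 1 ≤ J := by exact_mod_cast hi
  have hN0 : (0 : ℝ) < N := by linarith only [hN2]
  have hx12 : x2 - x1 = N / J := by rw [hx1, hx2]; ring
  have hx2N : x2 ≤ 2 * N := by
    have : ((i : ℝ) + 1) * N / J ≤ N := by
      rw [div_le_iff₀ hJ']
      nlinarith only [hi']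
    rw [hx2]; linarith only [this]
  have hx1N : (N : ℝ) ≤ x1 := by
    have : 0 ≤ (i : ℝ) * N / J := by positivity
    rw [hx1]; linarith only [this]
  have hx1l : x1 ≤ x2 := by
    have : 0 ≤ (N : ℝ) / J := by positivity
    linarith only [hx12, this]
  have hsum : ∑ m ∈ (cc N J W i a).filter Nat.Prime, Real.log m ≤ S x2 - S (x1 - 1) := by
    have hsub : Finset.Icc 1 ⌊x1 - 1⌋₊ ⊆ Finset.Icc 1 ⌊x2⌋₊ := by
      apply Finset.Icc_subset_Icc_right
      apply Nat.floor_le_floor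
      linarith
    have e1 : S x2 - S (x1 - 1) = ∑ k ∈ Finset.Icc 1 ⌊x2⌋₊ \ Finset.Icc 1 ⌊x1 - 1⌋₊,
        ArithmeticFunction.vonMangoldt.residueClass (a : ZMod W) k := by
      have := Finset.sum_sdiff (f := fun k =>
        ArithmeticFunction.vonMangoldt.residueClass (a : ZMod W) k) hsub
      simp only [hS]
      linarith only [this]
    rw [e1]
    have hterm : ∀ m ∈ (cc N J W i a).filter Nat.Prime, Real.log m =
        ArithmeticFunction.vonMangoldt.residueClass (a : ZMod W) m := by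
      intro m hm
      rw [Finset.mem_filter] at hm
      obtain ⟨hm1, hp⟩ := hm
      unfold cc at hm1
      rw [Finset.mem_filter] at hm1
      have h1 : (m : ZMod W) = a := by
        rw [ZMod.natCast_eq_natCast_iff, Nat.ModEq, hm1.2, Nat.mod_eq_of_lt ha]
      rw [ArithmeticFunction.vonMangoldt.residueClass, Set.indicator_of_mem (by exact h1),
        ArithmeticFunction.vonMangoldt_apply_prime hp]
    rw [Finset.sum_congr rfl hterm]
    refine Finset.sum_le_sum_of_subset_of_nonneg ?_ fun k _ _ =>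
      ArithmeticFunction.vonMangoldt.residueClass_nonneg _ k
    intro m hm
    rw [Finset.mem_filter] at hm
    have hm1 := hm.1
    unfold cc at hm1
    rw [Finset.mem_filter] at hm1
    obtain ⟨-, h1, h2, h3, h4⟩ := CmodB_cell hJ hm1.1
    rw [Finset.mem_sdiff, Finset.mem_Icc, Finset.mem_Icc]
    refine ⟨⟨hm.2.one_lt.le, ?_⟩, ?_⟩
    · apply Nat.le_floor
      rw [hx2]; linarith only [h4]
    · rintro ⟨-, h5⟩
      have h6 : (m : ℝ) ≤ x1 - 1 := (Nat.le_floor_iff (by linarith only [hN2, hx1N])).1 h5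
      rw [hx1] at h6
      linarith only [h3, h6]
  have h1 := (abs_le.1 (hSb x2 (by linarith only [hx0N, hx1N, hx1l]) (by linarith only [hN0, hx1N, hx1l]))).2
  have h2 := (abs_le.1 (hSb (x1 - 1) (by linarith only [hx0N, hx1N]) (by linarith only [hN2, hx1N]))).1
  have h3 : S x2 - S (x1 - 1) ≤ (N / J + 1) / φ + 4 * η * N := by
    have e1 : x2 / φ - (x1 - 1) / φ = (N / J + 1) / φ := by
      rw [← sub_div]; congr 1; linarith only [hx12]
    have e2 : η * x2 + η * (x1 - 1) ≤ 4 * η * N := by nlinarith only [hη0, hx2N, hx1l]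
    linarith only [h1, h2, e1, e2]
  have h4 : (N / J + 1) / φ + 4 * η * N ≤ (1 + ε) * (N / (J * φ)) := by
    have e1 : 4 * η * N = ε * N / (2 * J * φ) := by
      rw [hη]; field_simp; norm_num
    have e2 : 1 / φ ≤ ε * N / (2 * J * φ) := by
      rw [div_le_div_iff₀ hφ' (by positivity)]
      have : 2 * (J : ℝ) ≤ ε * N := by
        rw [div_le_iff₀ hε] at hN3; linarith only [hN3]
      nlinarith only [hφdef, this]
    have e3 : (1 + ε) * (N / (J * φ)) = (N / J) / φ + (ε * N / (2 * J * φ) +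
        ε * N / (2 * J * φ)) := by
      field_simp; ring
    rw [e1, e3, add_div]
    linarith only [e2]
  exact hsum.trans (h3.trans h4)

private theorem CmodB_kp (c : ℕ → ℝ) (hc : ∀ p, |c p| ≤ 1) {N m : ℕ} (hN : 1 ≤ N) :
    |kp c N m| ≤ Real.log N := by
  have hlog : 0 ≤ Real.log N := Real.log_nonneg (by exact_mod_cast hN)
  unfold kp
  split_ifs
  · rw [abs_mul, abs_of_nonneg hlog]
    exact mul_le_of_le_one_left hlog (hc m)
  · rw [abs_zero]; exact hlog

/-- Proof. Let `N ≥ N0`, `m ∈ [N, 2N)` prime to `W`, `i = ci N J m < J`, `a = m % W` (prime to `W`).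
The numerator is at most `∑_{m' ∈ cc, prime} log m' ≤ (5/4) N/(J φ(W))` in absolute value
(`prime_cc` with `ε = 1/4`, `log N ≤ log m'`), the denominator is at least
`N/(JW) - 2 ≥ (3/4) N/(JW)` for `N ≥ 8 J W` (`cc_card`). -/
theorem km_le (J W : ℕ) (hJ : 1 ≤ J) (hW : 1 ≤ W) : ∃ N0 : ℕ, ∀ N ≥ N0, ∀ c : ℕ → ℝ,
    (∀ p, |c p| ≤ 1) → ∀ m, |km c N J W m| ≤ 2 * W / Nat.totient W := by
  classical
  obtain ⟨N0, hN0⟩ := prime_cc J W hJ hW (1 / 4) (by norm_num)
  refine ⟨N0 + 8 * J * W + 1, fun N hN c hc m => ?_⟩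
  have hJ' : (0 : ℝ) < J := by exact_mod_cast hJ
  have hW' : (0 : ℝ) < W := by exact_mod_cast hW
  have hφ : 0 < Nat.totient W := Nat.totient_pos.2 (by omega)
  have hφ' : (0 : ℝ) < Nat.totient W := by exact_mod_cast hφ
  unfold km
  split_ifs with h
  · obtain ⟨h1, h2, h3⟩ := h
    have hci := ci_lt (J := J) hJ h1 h2
    have ha : m % W < W := Nat.mod_lt _ (by omega)
    have hco : Nat.Coprime (m % W) W := by
      unfold Nat.Coprime at h3 ⊢
      rw [← Nat.gcd_rec W m, Nat.gcd_comm]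
      exact h3
    have hnum : |∑ m' ∈ cc N J W (ci N J m) (m % W), kp c N m'| ≤
        (5 / 4) * (N / (J * Nat.totient W)) := by
      refine (Finset.abs_sum_le_sum_abs _ _).trans ?_
      have h4 := hN0 N (by linarith only [hN, Nat.zero_le (8 * J * W)]) _ hci _ ha hco
      have h5 : ∑ m' ∈ cc N J W (ci N J m) (m % W), |kp c N m'| ≤
          ∑ m' ∈ (cc N J W (ci N J m) (m % W)).filter Nat.Prime, Real.log m' := by
        rw [Finset.sum_filter]
        refine Finset.sum_le_sum fun m' hm' => ?_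
        unfold cc at hm'
        rw [Finset.mem_filter] at hm'
        obtain ⟨hN0', hm1, -⟩ := CmodB_cell hJ hm'.1
        by_cases hp : m'.Prime
        · rw [if_pos hp]
          refine (CmodB_kp c hc hN0').trans ?_
          exact Real.log_le_log (by exact_mod_cast hN0') (by exact_mod_cast hm1)
        · rw [if_neg hp]
          unfold kp
          rw [if_neg (fun h => hp h.1), abs_zero]
      refine h5.trans (h4.trans (le_of_eq ?_))
      norm_num
    have hden : (3 / 4) * ((N : ℝ) / (J * W)) ≤ (cc N J W (ci N J m) (m % W)).card := by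
      have h4 := (abs_le.1 (cc_card N J W (ci N J m) (m % W) (by omega) hJ hW hci ha)).1
      have h5 : (8 : ℝ) ≤ (N : ℝ) / (J * W) := by
        rw [le_div_iff₀ (by positivity)]
        have : 8 * (J * W) ≤ N := by linarith only [hN]
        exact_mod_cast this
      linarith only [h4, h5]
    have hNp : (0 : ℝ) < N := by
      have : 0 < N := by omega
      exact_mod_cast this
    have hdp : 0 < (3 / 4) * ((N : ℝ) / (J * W)) := by positivity
    rw [abs_div, Nat.abs_cast, div_le_iff₀ (lt_of_lt_of_le hdp hden)]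
    refine hnum.trans ?_
    have h6 : (5 / 4) * ((N : ℝ) / (J * Nat.totient W)) ≤
        2 * W / Nat.totient W * ((3 / 4) * ((N : ℝ) / (J * W))) := by
      have e1 : 2 * (W : ℝ) / Nat.totient W * ((3 / 4) * ((N : ℝ) / (J * W))) =
          (3 / 2) * ((N : ℝ) / (J * Nat.totient W)) := by
        field_simp; norm_num
      rw [e1]
      have : 0 ≤ (N : ℝ) / (J * Nat.totient W) := by positivity
      linarith only [this]
    exact h6.trans (mul_le_mul_of_nonneg_left hden (by positivity))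
  · rw [abs_zero]; positivity

/-- Proof. `|kp| ≤ log N`, `|km| ≤ 2W/φ(W) ≤ log N` for `N ≥ N0(J, W)` (`km_le`). -/
theorem ks_le (J W : ℕ) (hJ : 1 ≤ J) (hW : 1 ≤ W) : ∃ N0 : ℕ, ∀ N ≥ N0, ∀ c : ℕ → ℝ,
    (∀ p, |c p| ≤ 1) → ∀ m, |ks c N J W m| ≤ 2 * Real.log N := by
  obtain ⟨N0, hN0⟩ := km_le J W hJ hW
  refine ⟨N0 + ⌈Real.exp (2 * W / Nat.totient W)⌉₊ + 1, fun N hN c hc m => ?_⟩
  have h1 := hN0 N (by omega) c hc m
  have h2 := CmodB_kp c hc (N := N) (m := m) (by omega)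
  have h3 : 2 * (W : ℝ) / Nat.totient W ≤ Real.log N := by
    rw [Real.le_log_iff_exp_le (by exact_mod_cast (by omega : 0 < N))]
    exact (Nat.le_ceil _).trans (by exact_mod_cast (by omega :
      ⌈Real.exp (2 * W / Nat.totient W)⌉₊ ≤ N))
  unfold ks
  calc |kp c N m - km c N J W m| ≤ |kp c N m| + |km c N J W m| := abs_sub _ _
    _ ≤ 2 * Real.log N := by linarith only [h1, h2, h3]

end

end Pool.Agent.Lib.MP_0b748d_nt.HHC
end

section

section

set_option autoImplicit false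

/-!
# The Selberg majorant
-/

namespace Pool.Agent.Lib.MP_0b748d_nt.HHC

noncomputable section

theorem nu_nonneg (lam : ℕ → ℝ) (Z : ℕ) (n : ℤ) : 0 ≤ nu lam Z n := sq_nonneg _

open Classical in
/-- the square expanded -/
theorem nu_eq_sum (lam : ℕ → ℝ) (Z : ℕ) (n : ℤ) :
    nu lam Z n = ∑ d ∈ Finset.Icc 1 Z, ∑ e ∈ Finset.Icc 1 Z,
      (lam d * lam e) * (if ((Nat.lcm d e : ℕ) : ℤ) ∣ n then (1 : ℝ) else 0) := by
  unfold nu
  rw [pow_two, Finset.sum_filter, Finset.sum_mul_sum]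
  refine Finset.sum_congr rfl fun d _ => Finset.sum_congr rfl fun e _ => ?_
  have h : ((Nat.lcm d e : ℕ) : ℤ) ∣ n ↔ (d : ℤ) ∣ n ∧ (e : ℤ) ∣ n := by
    rw [Int.natCast_dvd, Int.natCast_dvd, Int.natCast_dvd, Nat.lcm_dvd_iff]
  by_cases h1 : (d : ℤ) ∣ n
  · by_cases h2 : (e : ℤ) ∣ n
    · rw [if_pos h1, if_pos h2, if_pos (h.2 ⟨h1, h2⟩), mul_one]
    · rw [if_neg h2, if_neg (fun k => h2 (h.1 k).2), mul_zero, mul_zero]
  · rw [if_neg h1, if_neg (fun k => h1 (h.1 k).1), zero_mul, mul_zero]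

/-- the only divisor of the prime `p` in `[1, Z]` is `1` -/
theorem nu_prime {lam : ℕ → ℝ} {Z p : ℕ} (h : SW Z lam) (hZ : 1 ≤ Z) (hp : p.Prime)
    (hpZ : Z < p) : nu lam Z (p : ℤ) = 1 := by
  unfold nu
  have h1 : (Finset.Icc 1 Z).filter (fun d : ℕ => (d : ℤ) ∣ (p : ℤ)) = {1} := by
    ext d
    rw [Finset.mem_filter, Finset.mem_Icc, Finset.mem_singleton]
    constructor
    · rintro ⟨⟨h2, h3⟩, h4⟩
      rcases (Nat.dvd_prime hp).1 (Int.natCast_dvd_natCast.1 h4) with h5 | h5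
      · exact h5
      · omega
    · rintro rfl
      exact ⟨⟨le_rfl, hZ⟩, by simp⟩
  rw [h1, Finset.sum_singleton, h.one, one_pow]

open Classical in
/-- expand the square and interchange; `d ∣ n` and `e ∣ n` iff `lcm d e ∣ n` -/
theorem nu_expand {ι : Type*} (T : Finset ι) (F : ι → ℤ) (w : ι → ℂ) (lam : ℕ → ℝ) (Z : ℕ) :
    ∑ t ∈ T, ((nu lam Z (F t) : ℝ) : ℂ) * w t =
      ∑ d ∈ Finset.Icc 1 Z, ∑ e ∈ Finset.Icc 1 Z, ((lam d * lam e : ℝ) : ℂ) *
        ∑ t ∈ T.filter (fun t => ((Nat.lcm d e : ℕ) : ℤ) ∣ F t), w t := by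
  simp only [nu_eq_sum]
  push_cast
  simp only [Finset.sum_mul]
  rw [Finset.sum_comm]
  refine Finset.sum_congr rfl fun d _ => ?_
  rw [Finset.sum_comm]
  refine Finset.sum_congr rfl fun e _ => ?_
  rw [Finset.sum_filter, Finset.mul_sum]
  refine Finset.sum_congr rfl fun t _ => ?_
  by_cases h : ((Nat.lcm d e : ℕ) : ℤ) ∣ F t
  · rw [if_pos h, if_pos h, Complex.ofReal_one, mul_one]
  · rw [if_neg h, if_neg h, Complex.ofReal_zero, mul_zero, zero_mul]

open Classical in
/-- the real form of `nu_expand` with constant weight -/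
theorem nu_expand_card {ι : Type*} (T : Finset ι) (F : ι → ℤ) (lam : ℕ → ℝ) (Z : ℕ) :
    ∑ t ∈ T, nu lam Z (F t) = ∑ d ∈ Finset.Icc 1 Z, ∑ e ∈ Finset.Icc 1 Z, (lam d * lam e) *
      ((T.filter (fun t => ((Nat.lcm d e : ℕ) : ℤ) ∣ F t)).card : ℝ) := by
  simp only [nu_eq_sum]
  rw [Finset.sum_comm]
  refine Finset.sum_congr rfl fun d _ => ?_
  rw [Finset.sum_comm]
  refine Finset.sum_congr rfl fun e _ => ?_
  rw [← Finset.mul_sum, Finset.sum_boole]

open Classical in
/-- the sieve inequality.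

Proof. `nu_expand` with `w = 1`: the sum is `∑_{d,e} lam d lam e #{t : lcm d e ∣ F t}`, with
`1 ≤ lcm d e ≤ Z^2`; replace `#` by `X / lcm d e`, the error is at most `Z^2 E`, and the main term is
`X` times the quadratic form. -/
theorem sieve_gen {ι : Type*} (T : Finset ι) (F : ι → ℤ) {lam : ℕ → ℝ} {Z : ℕ} (h : SW Z lam)
    (X E : ℝ) (hX : 0 ≤ X) (hE : ∀ D : ℕ, 1 ≤ D → D ≤ Z ^ 2 →
      |((T.filter (fun t => (D : ℤ) ∣ F t)).card : ℝ) - X / D| ≤ E) :
    ∑ t ∈ T, nu lam Z (F t) ≤ X / Real.log Z + Z ^ 2 * E := by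
  rw [nu_expand_card]
  have h1 : ∀ d ∈ Finset.Icc 1 Z, ∀ e ∈ Finset.Icc 1 Z, (lam d * lam e) *
      ((T.filter (fun t => ((Nat.lcm d e : ℕ) : ℤ) ∣ F t)).card : ℝ) ≤
        X * (lam d * lam e / (Nat.lcm d e : ℝ)) + E := by
    intro d hd e he
    rw [Finset.mem_Icc] at hd he
    have hl1 : 1 ≤ Nat.lcm d e := Nat.lcm_pos hd.1 he.1
    have hl2 : Nat.lcm d e ≤ Z ^ 2 := by
      calc Nat.lcm d e ≤ d * e := Nat.le_of_dvd (Nat.mul_pos hd.1 he.1) (Nat.lcm_dvd_mul d e)
        _ ≤ Z * Z := Nat.mul_le_mul hd.2 he.2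
        _ = Z ^ 2 := (pow_two Z).symm
    have h2 := hE _ hl1 hl2
    have h3 : |lam d * lam e| ≤ 1 := by
      rw [abs_mul]
      exact mul_le_one₀ (h.le d) (abs_nonneg _) (h.le e)
    have h4 : (lam d * lam e) *
        (((T.filter (fun t => ((Nat.lcm d e : ℕ) : ℤ) ∣ F t)).card : ℝ) - X / (Nat.lcm d e : ℕ)) ≤
          E := by
      refine (le_abs_self _).trans ?_
      rw [abs_mul]
      calc _ ≤ 1 * |((T.filter (fun t => ((Nat.lcm d e : ℕ) : ℤ) ∣ F t)).card : ℝ) -
            X / (Nat.lcm d e : ℕ)| := mul_le_mul_of_nonneg_right h3 (abs_nonneg _)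
        _ ≤ E := by rw [one_mul]; exact h2
    have h5 : (lam d * lam e) * (X / (Nat.lcm d e : ℕ)) = X * (lam d * lam e / (Nat.lcm d e : ℝ)) := by
      ring
    rw [mul_sub, h5] at h4
    linarith
  calc _ ≤ ∑ d ∈ Finset.Icc 1 Z, ∑ e ∈ Finset.Icc 1 Z,
        (X * (lam d * lam e / (Nat.lcm d e : ℝ)) + E) :=
        Finset.sum_le_sum fun d hd => Finset.sum_le_sum fun e he => h1 d hd e he
    _ = X * (∑ d ∈ Finset.Icc 1 Z, ∑ e ∈ Finset.Icc 1 Z, lam d * lam e / (Nat.lcm d e : ℝ)) +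
        Z ^ 2 * E := by
      simp only [Finset.sum_add_distrib, Finset.sum_const, Nat.card_Icc, Nat.add_sub_cancel,
        nsmul_eq_mul, Finset.mul_sum]
      ring
    _ ≤ X * (1 / Real.log Z) + Z ^ 2 * E := by
      have := mul_le_mul_of_nonneg_left h.form hX
      linarith
    _ = X / Real.log Z + Z ^ 2 * E := by rw [mul_one_div]

/-- the sieve on an interval: the number of multiples of `D ≥ 1` in an interval of `M` consecutive
integers is `M / D + O(1)` -/
theorem nu_interval {lam : ℕ → ℝ} {Z : ℕ} (h : SW Z lam) (a : ℤ) (M : ℕ) :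
    ∑ n ∈ Finset.Ico a (a + M), nu lam Z n ≤ M / Real.log Z + Z ^ 2 := by
  classical
  have h1 := sieve_gen (Finset.Ico a (a + M)) (fun n => n) h (M : ℝ) 1 (Nat.cast_nonneg M) (by
    intro D hD _
    have hD0 : (0 : ℤ) < D := by exact_mod_cast hD
    have hDq : (0 : ℚ) < D := by exact_mod_cast hD
    have h2 := Int.Ico_filter_dvd_card a (a + M) hD0
    obtain ⟨c1, hc1⟩ : ∃ c : ℤ, c = ⌈((a + M : ℤ) : ℚ) / ((D : ℤ) : ℚ)⌉ := ⟨_, rfl⟩
    obtain ⟨c2, hc2⟩ : ∃ c : ℤ, c = ⌈(a : ℚ) / ((D : ℤ) : ℚ)⌉ := ⟨_, rfl⟩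
    rw [← hc1, ← hc2] at h2
    have g1 := Int.le_ceil (((a + M : ℤ) : ℚ) / ((D : ℤ) : ℚ))
    have g2 := Int.ceil_lt_add_one (((a + M : ℤ) : ℚ) / ((D : ℤ) : ℚ))
    have g3 := Int.le_ceil ((a : ℚ) / ((D : ℤ) : ℚ))
    have g4 := Int.ceil_lt_add_one ((a : ℚ) / ((D : ℤ) : ℚ))
    rw [← hc1] at g1 g2
    rw [← hc2] at g3 g4
    have hsplit : ((a + M : ℤ) : ℚ) / ((D : ℤ) : ℚ) = (a : ℚ) / ((D : ℤ) : ℚ) + (M : ℚ) / D := by
      push_cast
      rw [add_div]
    rw [hsplit] at g1 g2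
    have hM : (0 : ℚ) ≤ (M : ℚ) / D := by positivity
    have h3 : c2 ≤ c1 := by
      rw [hc1, hc2]
      apply Int.ceil_le_ceil
      rw [hsplit]
      linarith
    rw [max_eq_left (by omega)] at h2
    have h4 : (((Finset.Ico a (a + M)).filter (fun n => (D : ℤ) ∣ n)).card : ℚ) = (c1 : ℚ) - c2 := by
      have h5 := congrArg (fun z : ℤ => (z : ℚ)) h2
      simp only [Int.cast_natCast, Int.cast_sub] at h5
      exact h5
    have h6 : |(((Finset.Ico a (a + M)).filter (fun n => (D : ℤ) ∣ n)).card : ℚ) - (M : ℚ) / D| ≤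
        1 := by
      rw [h4, abs_le]
      constructor <;> linarith
    have h7 : ((|(((Finset.Ico a (a + M)).filter (fun n => (D : ℤ) ∣ n)).card : ℚ) - (M : ℚ) / D| : ℚ)
        : ℝ) ≤ ((1 : ℚ) : ℝ) := by exact_mod_cast h6
    push_cast at h7
    exact h7)
  rw [mul_one] at h1
  exact h1

end

end Pool.Agent.Lib.MP_0b748d_nt.HHC
end

section

set_option autoImplicit false

/-!
# Selberg weights for the integers
-/

namespace Pool.Agent.Lib.MP_0b748d_nt.HHC

noncomputable section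

private theorem sel_lcm {d e : ℕ} (hd : Squarefree d) (he : Squarefree e) :
    ∏ p ∈ d.primeFactors ∪ e.primeFactors, p = Nat.lcm d e := by
  have hd0 := hd.ne_zero
  have he0 := he.ne_zero
  apply Nat.dvd_antisymm
  · apply Finset.prod_primes_dvd
    · intro p hp
      rw [Finset.mem_union] at hp
      rcases hp with hp | hp
      · exact (Nat.prime_of_mem_primeFactors hp).prime
      · exact (Nat.prime_of_mem_primeFactors hp).prime
    · intro p hp
      rw [Finset.mem_union] at hp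
      rcases hp with hp | hp
      · exact (Nat.dvd_of_mem_primeFactors hp).trans (Nat.dvd_lcm_left d e)
      · exact (Nat.dvd_of_mem_primeFactors hp).trans (Nat.dvd_lcm_right d e)
  · apply Nat.lcm_dvd
    · conv_lhs => rw [← Nat.prod_primeFactors_of_squarefree hd]
      exact Finset.prod_dvd_prod_of_subset _ _ _ Finset.subset_union_left
    · conv_lhs => rw [← Nat.prod_primeFactors_of_squarefree he]
      exact Finset.prod_dvd_prod_of_subset _ _ _ Finset.subset_union_right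

private theorem sel_phi {d : ℕ} (hd : Squarefree d) :
    ∏ p ∈ d.primeFactors, (1 / (p : ℝ)) / (1 - 1 / (p : ℝ)) = 1 / (Nat.totient d : ℝ) := by
  have h1 := Nat.totient_mul_prod_primeFactors d
  rw [Nat.prod_primeFactors_of_squarefree hd, mul_comm] at h1
  have h2 : Nat.totient d = ∏ p ∈ d.primeFactors, (p - 1) :=
    Nat.eq_of_mul_eq_mul_left (Nat.pos_of_ne_zero hd.ne_zero) h1
  rw [h2, Nat.cast_prod, one_div, ← Finset.prod_inv_distrib]
  refine Finset.prod_congr rfl fun p hp => ?_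
  have hp2 := (Nat.prime_of_mem_primeFactors hp).two_le
  have hp2' : (2 : ℝ) ≤ p := by exact_mod_cast hp2
  rw [Nat.cast_sub (by omega), Nat.cast_one]
  have h3 : (p : ℝ) - 1 ≠ 0 := by linarith
  have h4 : (p : ℝ) ≠ 0 := by linarith
  field_simp

private theorem sel_sqf {D : Finset ℕ} (hD : ∀ p ∈ D, p.Prime) : Squarefree (∏ p ∈ D, p) := by
  apply Finset.squarefree_prod_of_pairwise_isCoprime
  · intro p hp q hq hpq
    rw [Function.onFun, ← Nat.coprime_iff_isRelPrime]
    exact (Nat.coprime_primes (hD p hp) (hD q hq)).2 hpq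
  · intro p hp
    exact (hD p hp).prime.squarefree

/-- Proof. `MR.selberg` with `S` = the primes `≤ Z`, `h p = 1/p`, and
`DD` = the subsets `D` of `S` with `∏ p ∈ D, p ≤ Z` (closed under subsets, contains `∅`). It gives
`mu : Finset ℕ → ℝ`; put `lam d = mu d.primeFactors` if `d` is squarefree and `1 ≤ d ≤ Z`, and
`lam d = 0` otherwise. `D ↦ ∏ D` is a bijection of `DD` onto the squarefree `d ∈ [1, Z]`, and
`∏_{p ∈ D ∪ E} 1/p = 1 / lcm (∏ D) (∏ E)`. So the quadratic form equals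
`1 / ∑_{D ∈ DD} ∏_{p ∈ D} (1/p)/(1 - 1/p) = 1 / ∑_{d squarefree ≤ Z} 1/φ d ≤ 1/log Z` by `sel_J`. -/
theorem sel_exists (Z : ℕ) (hZ : 2 ≤ Z) : ∃ lam : ℕ → ℝ, SW Z lam := by
  classical
  obtain ⟨S, hS⟩ : ∃ S : Finset ℕ, S = (Finset.Icc 1 Z).filter Nat.Prime := ⟨_, rfl⟩
  obtain ⟨DD, hDD⟩ : ∃ DD : Finset (Finset ℕ), DD = S.powerset.filter (fun D => ∏ p ∈ D, p ≤ Z) :=
    ⟨_, rfl⟩
  have hSp : ∀ p ∈ S, p.Prime := by
    intro p hp
    rw [hS, Finset.mem_filter] at hp
    exact hp.2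
  have hmD : ∀ D, D ∈ DD ↔ D ⊆ S ∧ ∏ p ∈ D, p ≤ Z := by
    intro D
    rw [hDD, Finset.mem_filter, Finset.mem_powerset]
  obtain ⟨mu, hmu1, hmu2, _, hmu4⟩ := MR.selberg S (fun p => 1 / (p : ℝ))
    (by
      intro p hp
      have hp2 : (2 : ℝ) ≤ p := by exact_mod_cast (hSp p hp).two_le
      constructor
      · positivity
      · rw [div_lt_one (by linarith)]
        linarith)
    DD (fun D hD => ((hmD D).1 hD).1)
    (by
      intro D hD E hE
      obtain ⟨h1, h2⟩ := (hmD D).1 hD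
      refine (hmD E).2 ⟨hE.trans h1, le_trans ?_ h2⟩
      exact Finset.prod_le_prod_of_subset_of_one_le' hE
        (fun p hp _ => (hSp p (h1 hp)).one_lt.le))
    ((hmD ∅).2 ⟨Finset.empty_subset _, by rw [Finset.prod_empty]; omega⟩)
  -- the bijection
  obtain ⟨SF, hSF⟩ : ∃ SF : Finset ℕ, SF = (Finset.Icc 1 Z).filter Squarefree := ⟨_, rfl⟩
  have hmS : ∀ d, d ∈ SF ↔ (1 ≤ d ∧ d ≤ Z) ∧ Squarefree d := by
    intro d
    rw [hSF, Finset.mem_filter, Finset.mem_Icc]
  have bij : ∀ f : Finset ℕ → ℝ, ∑ d ∈ SF, f d.primeFactors = ∑ D ∈ DD, f D := by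
    intro f
    apply Finset.sum_nbij' (fun d : ℕ => d.primeFactors) (fun D : Finset ℕ => ∏ p ∈ D, p)
    · intro d hd
      obtain ⟨⟨h1, h2⟩, h3⟩ := (hmS d).1 hd
      refine (hmD _).2 ⟨?_, ?_⟩
      · intro p hp
        have hp1 := Nat.prime_of_mem_primeFactors hp
        rw [hS, Finset.mem_filter, Finset.mem_Icc]
        exact ⟨⟨hp1.one_lt.le, (Nat.le_of_dvd h1 (Nat.dvd_of_mem_primeFactors hp)).trans h2⟩, hp1⟩
      · rw [Nat.prod_primeFactors_of_squarefree h3]
        exact h2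
    · intro D hD
      obtain ⟨h1, h2⟩ := (hmD D).1 hD
      refine (hmS _).2 ⟨⟨?_, h2⟩, sel_sqf fun p hp => hSp p (h1 hp)⟩
      exact Nat.one_le_iff_ne_zero.2 (Finset.prod_ne_zero_iff.2 fun p hp => (hSp p (h1 hp)).ne_zero)
    · intro d hd
      exact Nat.prod_primeFactors_of_squarefree ((hmS d).1 hd).2
    · intro D hD
      exact Nat.primeFactors_prod fun p hp => hSp p (((hmD D).1 hD).1 hp)
    · intro d _
      rfl
  obtain ⟨lam, hlam⟩ : ∃ lam : ℕ → ℝ, ∀ d, lam d = if d ∈ SF then mu d.primeFactors else 0 :=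
    ⟨fun d => if d ∈ SF then mu d.primeFactors else 0, fun _ => rfl⟩
  refine ⟨lam, ?_, ?_, ?_⟩
  · rw [hlam, if_pos ((hmS 1).2 ⟨⟨le_rfl, by omega⟩, squarefree_one⟩), Nat.primeFactors_one, hmu1]
  · intro d
    rw [hlam]
    split_ifs
    · exact hmu2 _
    · rw [abs_zero]
      exact zero_le_one
  · have hsub : SF ⊆ Finset.Icc 1 Z := by
      rw [hSF]
      exact Finset.filter_subset _ _
    have h1 : ∑ d ∈ Finset.Icc 1 Z, ∑ e ∈ Finset.Icc 1 Z, lam d * lam e / (Nat.lcm d e : ℝ) =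
        ∑ d ∈ SF, ∑ e ∈ SF, mu d.primeFactors * mu e.primeFactors *
          ∏ p ∈ d.primeFactors ∪ e.primeFactors, (1 / (p : ℝ)) := by
      rw [← Finset.sum_subset hsub (by
        intro d _ hd
        apply Finset.sum_eq_zero
        intro e _
        rw [hlam d, if_neg hd, zero_mul, zero_div])]
      refine Finset.sum_congr rfl fun d hd => ?_
      rw [← Finset.sum_subset hsub (by
        intro e _ he
        rw [hlam e, if_neg he, mul_zero, zero_div])]
      refine Finset.sum_congr rfl fun e he => ?_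
      rw [hlam d, hlam e, if_pos hd, if_pos he, ← sel_lcm ((hmS d).1 hd).2 ((hmS e).1 he).2,
        Nat.cast_prod, Finset.prod_div_distrib, Finset.prod_const_one, mul_one_div]
    have h2 : ∑ d ∈ SF, ∑ e ∈ SF, mu d.primeFactors * mu e.primeFactors *
          ∏ p ∈ d.primeFactors ∪ e.primeFactors, (1 / (p : ℝ)) =
        ∑ D ∈ DD, ∑ E ∈ DD, mu D * mu E * ∏ p ∈ D ∪ E, (1 / (p : ℝ)) := by
      rw [← bij (fun D => ∑ E ∈ DD, mu D * mu E * ∏ p ∈ D ∪ E, (1 / (p : ℝ)))]
      refine Finset.sum_congr rfl fun d _ => ?_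
      exact bij (fun E => mu d.primeFactors * mu E * ∏ p ∈ d.primeFactors ∪ E, (1 / (p : ℝ)))
    have h3 : ∑ D ∈ DD, ∏ p ∈ D, (1 / (p : ℝ)) / (1 - 1 / (p : ℝ)) =
        ∑ d ∈ SF, 1 / (Nat.totient d : ℝ) := by
      rw [← bij (fun D => ∏ p ∈ D, (1 / (p : ℝ)) / (1 - 1 / (p : ℝ)))]
      exact Finset.sum_congr rfl fun d hd => sel_phi ((hmS d).1 hd).2
    rw [h1, h2, hmu4, h3]
    have h4 := sel_J Z (by omega)
    have h5 : 0 < Real.log Z := Real.log_pos (by exact_mod_cast (by omega : 1 < Z))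
    rw [← hSF] at h4
    exact one_div_le_one_div_of_le h5 h4

end

end Pool.Agent.Lib.MP_0b748d_nt.HHC
end
end

section

section

set_option autoImplicit false

/-!
# First moments
-/

namespace Pool.Agent.Lib.MP_0b748d_nt.HHC

noncomputable section

/-- number of primes in `[N, 2N)`.

Proof. Chebyshev's bound: `#primes * log N ≤ θ(2N) ≤ 2 log 4 * N`. -/
theorem prime_count : ∃ N0 : ℕ, ∀ N ≥ N0,
    (((Finset.Ico N (2 * N)).filter Nat.Prime).card : ℝ) ≤ 5 * (N / Real.log N) := by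
  refine ⟨2, fun N hN => ?_⟩
  have hN1 : (1 : ℝ) < N := by exact_mod_cast (by omega : 1 < N)
  have hlog : 0 < Real.log N := Real.log_pos hN1
  have h1 : (((Finset.Ico N (2 * N)).filter Nat.Prime).card : ℝ) * Real.log N ≤
      Chebyshev.theta ((2 * N : ℕ) : ℝ) := by
    rw [← nsmul_eq_mul, ← Finset.sum_const]
    unfold Chebyshev.theta
    rw [Nat.floor_natCast]
    calc ∑ _p ∈ (Finset.Ico N (2 * N)).filter Nat.Prime, Real.log (N : ℝ)
        ≤ ∑ p ∈ (Finset.Ico N (2 * N)).filter Nat.Prime, Real.log (p : ℝ) := by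
          apply Finset.sum_le_sum
          intro p hp
          rw [Finset.mem_filter, Finset.mem_Ico] at hp
          apply Real.log_le_log (by linarith)
          exact_mod_cast hp.1.1
      _ ≤ _ := by
          apply Finset.sum_le_sum_of_subset_of_nonneg
          · intro p hp
            rw [Finset.mem_filter, Finset.mem_Ico] at hp
            rw [Finset.mem_filter, Finset.mem_Ioc]
            exact ⟨⟨hp.2.pos, by omega⟩, hp.2⟩
          · intro p hp _
            exact Real.log_natCast_nonneg p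
  have h2 : Chebyshev.theta ((2 * N : ℕ) : ℝ) ≤ Real.log 4 * ((2 * N : ℕ) : ℝ) :=
    Chebyshev.theta_le_log4_mul_x (Nat.cast_nonneg _)
  have h3 : Real.log 4 ≤ 2 := by
    have h4 : Real.log 4 = 2 * Real.log 2 := by
      rw [show (4 : ℝ) = 2 ^ 2 by norm_num, Real.log_pow]
      norm_num
    have h5 := Real.log_two_lt_d9
    linarith
  have h6 : (((Finset.Ico N (2 * N)).filter Nat.Prime).card : ℝ) * Real.log N ≤ 5 * N := by
    have h7 : Real.log 4 * ((2 * N : ℕ) : ℝ) ≤ 2 * ((2 * N : ℕ) : ℝ) :=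
      mul_le_mul_of_nonneg_right h3 (Nat.cast_nonneg _)
    push_cast at h1 h2 h7
    linarith
  rw [← mul_div_assoc, le_div_iff₀ hlog]
  exact h6

private theorem km_sum (c : ℕ → ℝ) (N J W : ℕ) :
    ∑ m ∈ Finset.Ico N (2 * N), |km c N J W m| ≤ ∑ m ∈ Finset.Ico N (2 * N), |kp c N m| := by
  classical
  set S := Finset.Ico N (2 * N) with hS
  let K : ℕ → ℕ × ℕ := fun m => (ci N J m, m % W)
  have hcc : ∀ m, cc N J W (ci N J m) (m % W) = S.filter (fun m' => K m' = K m) := by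
    intro m
    unfold cc cell
    rw [Finset.filter_filter]
    apply Finset.filter_congr
    intro m' _
    simp [K, Prod.ext_iff]
  have h1 : ∀ m ∈ S, |km c N J W m| ≤ ∑ m' ∈ S, if K m' = K m then
      |kp c N m'| / ((S.filter (fun x => K x = K m')).card : ℝ) else 0 := by
    intro m hm
    rw [← Finset.sum_filter]
    have h2 : ∑ m' ∈ S.filter (fun m' => K m' = K m),
        |kp c N m'| / ((S.filter (fun x => K x = K m')).card : ℝ) =
        (∑ m' ∈ S.filter (fun m' => K m' = K m), |kp c N m'|) /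
          ((S.filter (fun x => K x = K m)).card : ℝ) := by
      rw [Finset.sum_div]
      apply Finset.sum_congr rfl
      intro m' hm'
      rw [(Finset.mem_filter.1 hm').2]
    rw [h2]
    unfold km
    split_ifs with h3
    · rw [hcc m, abs_div, Nat.abs_cast]
      apply div_le_div_of_nonneg_right _ (Nat.cast_nonneg _)
      exact Finset.abs_sum_le_sum_abs _ _
    · rw [abs_zero]
      exact div_nonneg (Finset.sum_nonneg fun _ _ => abs_nonneg _) (Nat.cast_nonneg _)
  calc ∑ m ∈ S, |km c N J W m| ≤ ∑ m ∈ S, ∑ m' ∈ S, (if K m' = K m then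
      |kp c N m'| / ((S.filter (fun x => K x = K m')).card : ℝ) else 0) := Finset.sum_le_sum h1
    _ = ∑ m' ∈ S, ∑ m ∈ S, (if K m' = K m then
      |kp c N m'| / ((S.filter (fun x => K x = K m')).card : ℝ) else 0) := Finset.sum_comm
    _ = ∑ m' ∈ S, |kp c N m'| := by
      apply Finset.sum_congr rfl
      intro m' hm'
      rw [← Finset.sum_filter, Finset.sum_const, nsmul_eq_mul]
      have h4 : S.filter (fun m => K m' = K m) = S.filter (fun x => K x = K m') := by
        apply Finset.filter_congr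
        intro x _
        exact eq_comm
      rw [h4]
      have h5 : 0 < (S.filter (fun x => K x = K m')).card :=
        Finset.card_pos.2 ⟨m', Finset.mem_filter.2 ⟨hm', rfl⟩⟩
      have h6 : ((S.filter (fun x => K x = K m')).card : ℝ) ≠ 0 := by
        exact_mod_cast h5.ne'
      field_simp

/-- Proof. `∑ |kp| ≤ log N * #primes ≤ 5 N` (`prime_count`). On each `cc N J W i a` with `a` prime to
`W` the sum of `|km|` is `|∑ kp| ≤ ∑ |kp|`, and `km` vanishes on the other classes; these sets are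
disjoint with union `[N, 2N)`. So the total is at most `10 N`. -/
theorem ks_sum : ∃ N0 : ℕ, ∀ N ≥ N0, ∀ J W : ℕ, 1 ≤ J → 1 ≤ W → ∀ c : ℕ → ℝ, (∀ p, |c p| ≤ 1) →
    ∑ m ∈ Finset.Ico N (2 * N), |ks c N J W m| ≤ 10 * N := by
  obtain ⟨N0, h0⟩ := prime_count
  refine ⟨max N0 2, fun N hN J W _ _ c hc => ?_⟩
  have hN0 : N0 ≤ N := le_trans (le_max_left _ _) hN
  have hN2 : 2 ≤ N := le_trans (le_max_right _ _) hN
  have hN1 : (1 : ℝ) < N := by exact_mod_cast (by omega : 1 < N)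
  have hlog : 0 < Real.log N := Real.log_pos hN1
  have h1 : ∑ m ∈ Finset.Ico N (2 * N), |kp c N m| ≤ 5 * N := by
    calc ∑ m ∈ Finset.Ico N (2 * N), |kp c N m|
        ≤ ∑ m ∈ Finset.Ico N (2 * N), (if m.Prime then Real.log N else 0) := by
          apply Finset.sum_le_sum
          intro m hm
          unfold kp
          split_ifs with h2 h3 h3
          · rw [abs_mul, abs_of_pos hlog]
            have := mul_le_mul_of_nonneg_right (hc m) hlog.le
            linarith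
          · exact absurd h2.1 h3
          · rw [abs_zero]; exact hlog.le
          · rw [abs_zero]
      _ = (((Finset.Ico N (2 * N)).filter Nat.Prime).card : ℝ) * Real.log N := by
          rw [← Finset.sum_filter, Finset.sum_const, nsmul_eq_mul]
      _ ≤ 5 * (N / Real.log N) * Real.log N := mul_le_mul_of_nonneg_right (h0 N hN0) hlog.le
      _ = 5 * N := by field_simp
  calc ∑ m ∈ Finset.Ico N (2 * N), |ks c N J W m|
      ≤ ∑ m ∈ Finset.Ico N (2 * N), (|kp c N m| + |km c N J W m|) := by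
        apply Finset.sum_le_sum
        intro m _
        unfold ks
        exact abs_sub _ _
    _ = ∑ m ∈ Finset.Ico N (2 * N), |kp c N m| + ∑ m ∈ Finset.Ico N (2 * N), |km c N J W m| :=
        Finset.sum_add_distrib
    _ ≤ 10 * N := by
        have h2 := km_sum c N J W
        linarith

end

end Pool.Agent.Lib.MP_0b748d_nt.HHC
end

section

set_option autoImplicit false

/-!
# Mean values of Euler's function
-/

namespace Pool.Agent.Lib.MP_0b748d_nt.HHC

noncomputable section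

private theorem cphiB_ratio (k : ℕ) (hk : 1 ≤ k) :
    (k : ℝ) / Nat.totient k ≤ ∑ d ∈ k.divisors, 1 / (Nat.totient d : ℝ) := by
  have hφ : (0 : ℝ) < Nat.totient k := by exact_mod_cast Nat.totient_pos.2 hk
  have h1 : (Nat.totient k : ℝ) * ∏ p ∈ k.primeFactors, (p : ℝ) =
      k * ∏ p ∈ k.primeFactors, ((p : ℝ) - 1) := by
    have h := Nat.totient_mul_prod_primeFactors k
    have h2 : ((Nat.totient k * ∏ p ∈ k.primeFactors, p : ℕ) : ℝ) =
        ((k * ∏ p ∈ k.primeFactors, (p - 1) : ℕ) : ℝ) := by rw [h]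
    push_cast at h2
    rw [h2]
    congr 1
    refine Finset.prod_congr rfl fun p hp => ?_
    rw [Nat.cast_sub (Nat.prime_of_mem_primeFactors hp).one_lt.le, Nat.cast_one]
  have hpos : ∀ p ∈ k.primeFactors, (0 : ℝ) < (p : ℝ) - 1 := by
    intro p hp
    have : (1 : ℝ) < p := by exact_mod_cast (Nat.prime_of_mem_primeFactors hp).one_lt
    linarith
  have h2 : (k : ℝ) / Nat.totient k = ∏ p ∈ k.primeFactors, (1 + 1 / ((p : ℝ) - 1)) := by
    have h3 : ∏ p ∈ k.primeFactors, (1 + 1 / ((p : ℝ) - 1)) =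
        (∏ p ∈ k.primeFactors, (p : ℝ)) / ∏ p ∈ k.primeFactors, ((p : ℝ) - 1) := by
      rw [← Finset.prod_div_distrib]
      refine Finset.prod_congr rfl fun p hp => ?_
      have := (hpos p hp).ne'
      field_simp
      ring
    have h4 : ∏ p ∈ k.primeFactors, ((p : ℝ) - 1) ≠ 0 :=
      (Finset.prod_pos hpos).ne'
    rw [h3, div_eq_div_iff hφ.ne' h4, ← h1]
    ring
  rw [h2, Finset.prod_one_add]
  have h5 : ∀ S ∈ k.primeFactors.powerset, ∏ p ∈ S, 1 / ((p : ℝ) - 1) =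
      1 / (Nat.totient (∏ p ∈ S, p) : ℝ) := by
    intro S hS
    have hSp : ∀ p ∈ S, p.Prime := fun p hp =>
      Nat.prime_of_mem_primeFactors (Finset.mem_powerset.1 hS hp)
    have h6 := Nat.totient_mul_prod_primeFactors (∏ p ∈ S, p)
    rw [Nat.primeFactors_prod hSp, mul_comm] at h6
    have h7 : 0 < ∏ p ∈ S, p := Finset.prod_pos fun p hp => (hSp p hp).pos
    have h8 := Nat.eq_of_mul_eq_mul_left h7 h6
    rw [h8]
    push_cast
    rw [one_div, ← Finset.prod_inv_distrib]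
    refine Finset.prod_congr rfl fun p hp => ?_
    rw [Nat.cast_sub (hSp p hp).one_lt.le, Nat.cast_one, one_div]
  rw [Finset.sum_congr rfl h5]
  have hinj : Set.InjOn (fun S : Finset ℕ => ∏ p ∈ S, p) k.primeFactors.powerset := by
    intro S hS T hT hST
    have hS' : ∀ p ∈ S, p.Prime := fun p hp =>
      Nat.prime_of_mem_primeFactors (Finset.mem_powerset.1 hS hp)
    have hT' : ∀ p ∈ T, p.Prime := fun p hp =>
      Nat.prime_of_mem_primeFactors (Finset.mem_powerset.1 hT hp)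
    rw [← Nat.primeFactors_prod hS', ← Nat.primeFactors_prod hT']
    exact congrArg Nat.primeFactors hST
  rw [← Finset.sum_image (f := fun d : ℕ => 1 / (Nat.totient d : ℝ)) hinj]
  refine Finset.sum_le_sum_of_subset_of_nonneg ?_ fun d _ _ => by positivity
  intro d hd
  rw [Finset.mem_image] at hd
  obtain ⟨S, hS, rfl⟩ := hd
  rw [Nat.mem_divisors]
  refine ⟨?_, by omega⟩
  exact (Finset.prod_dvd_prod_of_subset S k.primeFactors (fun p => p)
    (Finset.mem_powerset.1 hS)).trans (Nat.prod_primeFactors_dvd k)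

private theorem cphiB_log (L : ℕ) : (1 + L) ^ 2 ≤ 4 * 2 ^ L := by
  induction L with
  | zero => norm_num
  | succ L ih =>
    rcases Nat.lt_or_ge L 2 with h | h
    · interval_cases L <;> norm_num
    · have h2 : 2 ^ (L + 1) = 2 * 2 ^ L := by ring
      rw [h2]
      nlinarith

private theorem cphiB_term (d : ℕ) (hd : 1 ≤ d) :
    1 / (Nat.totient d : ℝ) / d ≤ 2 * (1 / (d : ℝ) ^ (3 / 2 : ℝ)) := by
  have hφ : (0 : ℝ) < Nat.totient d := by exact_mod_cast Nat.totient_pos.2 hd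
  have hd0 : (0 : ℝ) < d := by exact_mod_cast hd
  have h1 := phi_low d hd
  have h2 : (1 + (Nat.log 2 d : ℝ)) ≤ 2 * Real.sqrt d := by
    have h3 := cphiB_log (Nat.log 2 d)
    have h4 : 2 ^ Nat.log 2 d ≤ d := Nat.pow_log_le_self 2 (by omega)
    have h5 : (1 + Nat.log 2 d) ^ 2 ≤ 4 * d := h3.trans (Nat.mul_le_mul_left 4 h4)
    have h6 : (1 + (Nat.log 2 d : ℝ)) ^ 2 ≤ 4 * d := by exact_mod_cast h5
    have h7 : Real.sqrt ((1 + (Nat.log 2 d : ℝ)) ^ 2) ≤ Real.sqrt (4 * d) := Real.sqrt_le_sqrt h6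
    rw [Real.sqrt_sq (by positivity), Real.sqrt_mul (by norm_num)] at h7
    have h8 : Real.sqrt 4 = 2 := by
      rw [show (4 : ℝ) = 2 ^ 2 by norm_num, Real.sqrt_sq (by norm_num)]
    rw [h8] at h7
    exact h7
  have h3 : (d : ℝ) ≤ 2 * Real.sqrt d * Nat.totient d :=
    h1.trans (mul_le_mul_of_nonneg_right h2 hφ.le)
  have h4 : (d : ℝ) ^ (3 / 2 : ℝ) = d * Real.sqrt d := by
    rw [Real.sqrt_eq_rpow, show (3 / 2 : ℝ) = 1 + 1 / 2 by norm_num, Real.rpow_add hd0,
      Real.rpow_one]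
  have hs : 0 < Real.sqrt d := Real.sqrt_pos.2 hd0
  have hss : Real.sqrt d * Real.sqrt d = d := Real.mul_self_sqrt hd0.le
  have h5 : Real.sqrt d ≤ 2 * Nat.totient d := by
    have h6 : Real.sqrt d * Real.sqrt d ≤ Real.sqrt d * (2 * Nat.totient d) := by
      rw [hss]
      linarith
    exact le_of_mul_le_mul_left h6 hs
  rw [h4, div_div, mul_one_div, div_le_div_iff₀ (by positivity) (by positivity), one_mul]
  calc (d : ℝ) * Real.sqrt d ≤ d * (2 * Nat.totient d) :=
        mul_le_mul_of_nonneg_left h5 hd0.le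
    _ = 2 * (Nat.totient d * d) := by ring

/-- Proof. For `k ≥ 1`, `k / φ k = ∏_{p ∣ k} (1 + 1/(p-1)) = ∑_{d ∣ k, d squarefree} 1/φ d`. So the
sum is at most `∑_{d ≤ x} (1/φ d) (x/d) ≤ x ∑_{d ≤ x} (1 + log_2 d)/d^2` by `phi_low`, and
`1 + log_2 d ≤ 4 √d`, `∑ d^(-3/2)` converges. -/
theorem sum_ratio : ∃ C : ℝ, 1 ≤ C ∧ ∀ x : ℕ,
    ∑ k ∈ Finset.Icc 1 x, (k : ℝ) / Nat.totient k ≤ C * x := by
  have hsum : Summable (fun d : ℕ => 1 / (d : ℝ) ^ (3 / 2 : ℝ)) :=
    Real.summable_one_div_nat_rpow.2 (by norm_num)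
  set T := ∑' d : ℕ, 1 / (d : ℝ) ^ (3 / 2 : ℝ) with hT
  have hT0 : 0 ≤ T := tsum_nonneg fun d => by positivity
  refine ⟨1 + 2 * T, by linarith, fun x => ?_⟩
  have hx0 : (0 : ℝ) ≤ x := Nat.cast_nonneg x
  calc ∑ k ∈ Finset.Icc 1 x, (k : ℝ) / Nat.totient k
      ≤ ∑ k ∈ Finset.Icc 1 x, ∑ d ∈ k.divisors, 1 / (Nat.totient d : ℝ) :=
        Finset.sum_le_sum fun k hk => cphiB_ratio k (Finset.mem_Icc.1 hk).1
    _ = ∑ k ∈ Finset.Icc 1 x, ∑ d ∈ Finset.Icc 1 x,
          if d ∣ k then 1 / (Nat.totient d : ℝ) else 0 := by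
        refine Finset.sum_congr rfl fun k hk => ?_
        rw [← Finset.sum_filter]
        refine Finset.sum_congr ?_ fun _ _ => rfl
        ext d
        rw [Nat.mem_divisors, Finset.mem_filter, Finset.mem_Icc]
        rw [Finset.mem_Icc] at hk
        constructor
        · rintro ⟨h1, h2⟩
          have h3 := Nat.le_of_dvd (by omega) h1
          have h4 := Nat.pos_of_dvd_of_pos h1 (by omega)
          exact ⟨⟨h4, by omega⟩, h1⟩
        · rintro ⟨_, h1⟩
          exact ⟨h1, by omega⟩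
    _ = ∑ d ∈ Finset.Icc 1 x, ∑ k ∈ Finset.Icc 1 x,
          if d ∣ k then 1 / (Nat.totient d : ℝ) else 0 := Finset.sum_comm
    _ ≤ ∑ d ∈ Finset.Icc 1 x, (x : ℝ) * (2 * (1 / (d : ℝ) ^ (3 / 2 : ℝ))) := by
        refine Finset.sum_le_sum fun d hd => ?_
        have hd1 := (Finset.mem_Icc.1 hd).1
        have hd0 : (0 : ℝ) < d := by exact_mod_cast hd1
        rw [← Finset.sum_filter, Finset.sum_const, nsmul_eq_mul]
        have hc : (Finset.filter (fun k => d ∣ k) (Finset.Icc 1 x)).card = x / d := by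
          have := Nat.Ioc_filter_dvd_card_eq_div x d
          rw [← this]
          congr 1
        rw [hc]
        have h1 : ((x / d : ℕ) : ℝ) ≤ (x : ℝ) / d := Nat.cast_div_le
        calc ((x / d : ℕ) : ℝ) * (1 / (Nat.totient d : ℝ))
            ≤ (x : ℝ) / d * (1 / (Nat.totient d : ℝ)) :=
              mul_le_mul_of_nonneg_right h1 (by positivity)
          _ = x * (1 / (Nat.totient d : ℝ) / d) := by ring
          _ ≤ (x : ℝ) * (2 * (1 / (d : ℝ) ^ (3 / 2 : ℝ))) :=
              mul_le_mul_of_nonneg_left (cphiB_term d hd1) hx0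
    _ = 2 * (∑ d ∈ Finset.Icc 1 x, 1 / (d : ℝ) ^ (3 / 2 : ℝ)) * x := by
        rw [Finset.mul_sum, Finset.sum_mul]
        refine Finset.sum_congr rfl fun d _ => ?_
        ring
    _ ≤ (1 + 2 * T) * x := by
        refine mul_le_mul_of_nonneg_right ?_ hx0
        have := hsum.sum_le_tsum (Finset.Icc 1 x) fun d _ => by positivity
        linarith

end

end Pool.Agent.Lib.MP_0b748d_nt.HHC
end

section

set_option autoImplicit false

/-!
# Sums of 1/φ over multiples
-/

namespace Pool.Agent.Lib.MP_0b748d_nt.HHC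

noncomputable section

private theorem inv_phi_term {A : ℝ} {D k : ℕ} (hA : 0 < A) (hD : 1 ≤ D) (hk : 1 ≤ k)
    (h : A ≤ ((D * k : ℕ) : ℝ)) :
    1 / (Nat.totient (D * k) : ℝ) ≤
      (1 / (Nat.totient D : ℝ)) * ((D : ℝ) / A) * ((k : ℝ) / Nat.totient k) := by
  have hpD : 0 < (Nat.totient D : ℝ) := by exact_mod_cast Nat.totient_pos.2 hD
  have hpk : 0 < (Nat.totient k : ℝ) := by exact_mod_cast Nat.totient_pos.2 hk
  have h1 : (Nat.totient D : ℝ) * Nat.totient k ≤ Nat.totient (D * k) := by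
    exact_mod_cast Nat.totient_super_multiplicative D k
  have h2 : 1 / (Nat.totient (D * k) : ℝ) ≤ 1 / ((Nat.totient D : ℝ) * Nat.totient k) :=
    one_div_le_one_div_of_le (by positivity) h1
  have h3 : 1 ≤ (D : ℝ) * k / A := by
    rw [le_div_iff₀ hA]
    push_cast at h
    linarith
  calc 1 / (Nat.totient (D * k) : ℝ) ≤ 1 / ((Nat.totient D : ℝ) * Nat.totient k) := h2
    _ = 1 / ((Nat.totient D : ℝ) * Nat.totient k) * 1 := by ring
    _ ≤ 1 / ((Nat.totient D : ℝ) * Nat.totient k) * ((D : ℝ) * k / A) :=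
        mul_le_mul_of_nonneg_left h3 (by positivity)
    _ = _ := by
        field_simp

/-- Proof. Let `C` be the constant of `sum_ratio`. Every `δ ∈ s` is `D * k` with `k ≥ 1`
(`δ ≥ A > 0`), `k ≤ B / D`, and `φ (D k) ≥ φ D * φ k` (`Nat.totient_super_multiplicative`), and
`1/φ k = (k/φ k) * (1/k) ≤ (k/φ k) * (D / A)` because `D k ≥ A`. The map `δ ↦ δ / D` is injective on
`s`. So the sum is at most `(1/φ D) (D/A) ∑_{k ≤ B/D} k/φ k ≤ (1/φ D) (D/A) C (B/D)`. -/
theorem sum_inv_phi : ∃ C : ℝ, 1 ≤ C ∧ ∀ (A B : ℝ) (D : ℕ) (s : Finset ℕ), 0 < A → A ≤ B → 1 ≤ D →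
    (∀ δ ∈ s, A ≤ (δ : ℝ) ∧ (δ : ℝ) ≤ B ∧ D ∣ δ) →
    ∑ δ ∈ s, 1 / (Nat.totient δ : ℝ) ≤ C * (B / A) / Nat.totient D := by
  obtain ⟨C, hC1, hC⟩ := sum_ratio
  refine ⟨C, hC1, fun A B D s hA hAB hD hs => ?_⟩
  have hB : 0 < B := hA.trans_le hAB
  have hD0 : (0 : ℝ) < D := by exact_mod_cast hD
  have hpD : 0 < (Nat.totient D : ℝ) := by exact_mod_cast Nat.totient_pos.2 hD
  set x : ℕ := ⌊B / D⌋₊ with hx
  have hxB : (x : ℝ) ≤ B / D := Nat.floor_le (by positivity)
  have hinj : Set.InjOn (fun δ : ℕ => δ / D) (s : Set ℕ) := by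
    intro a ha b hb hab
    have h1 := (hs a ha).2.2
    have h2 := (hs b hb).2.2
    have h3 : a / D = b / D := hab
    rw [← Nat.mul_div_cancel' h1, ← Nat.mul_div_cancel' h2, h3]
  have hterm : ∀ δ ∈ s, 1 / (Nat.totient δ : ℝ) ≤
      (1 / (Nat.totient D : ℝ)) * ((D : ℝ) / A) * (((δ / D : ℕ) : ℝ) / Nat.totient (δ / D)) := by
    intro δ hδ
    obtain ⟨h1, h2, k, rfl⟩ := hs δ hδ
    have hk : 1 ≤ k := by
      rcases Nat.eq_zero_or_pos k with h | h
      · subst h
        simp at h1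
        linarith
      · exact h
    rw [Nat.mul_div_cancel_left k hD]
    exact inv_phi_term hA hD hk h1
  have hsub : s.image (fun δ : ℕ => δ / D) ⊆ Finset.Icc 1 x := by
    intro k hk
    obtain ⟨δ, hδ, rfl⟩ := Finset.mem_image.1 hk
    obtain ⟨h1, h2, k, rfl⟩ := hs δ hδ
    have hk : 1 ≤ k := by
      rcases Nat.eq_zero_or_pos k with h | h
      · subst h
        simp at h1
        linarith
      · exact h
    simp only [Nat.mul_div_cancel_left k hD]
    rw [Finset.mem_Icc]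
    refine ⟨hk, Nat.le_floor ?_⟩
    rw [le_div_iff₀ hD0]
    push_cast at h2
    linarith
  calc ∑ δ ∈ s, 1 / (Nat.totient δ : ℝ)
      ≤ ∑ δ ∈ s, (1 / (Nat.totient D : ℝ)) * ((D : ℝ) / A) *
          (((δ / D : ℕ) : ℝ) / Nat.totient (δ / D)) := Finset.sum_le_sum hterm
    _ = (1 / (Nat.totient D : ℝ)) * ((D : ℝ) / A) *
          ∑ δ ∈ s, (((δ / D : ℕ) : ℝ) / Nat.totient (δ / D)) := by rw [Finset.mul_sum]
    _ = (1 / (Nat.totient D : ℝ)) * ((D : ℝ) / A) *
          ∑ k ∈ s.image (fun δ : ℕ => δ / D), ((k : ℝ) / Nat.totient k) := by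
        rw [Finset.sum_image hinj]
    _ ≤ (1 / (Nat.totient D : ℝ)) * ((D : ℝ) / A) *
          ∑ k ∈ Finset.Icc 1 x, ((k : ℝ) / Nat.totient k) :=
        mul_le_mul_of_nonneg_left
          (Finset.sum_le_sum_of_subset_of_nonneg hsub fun k _ _ => by positivity) (by positivity)
    _ ≤ (1 / (Nat.totient D : ℝ)) * ((D : ℝ) / A) * (C * x) :=
        mul_le_mul_of_nonneg_left (hC x) (by positivity)
    _ ≤ (1 / (Nat.totient D : ℝ)) * ((D : ℝ) / A) * (C * (B / D)) :=
        mul_le_mul_of_nonneg_left (mul_le_mul_of_nonneg_left hxB (by linarith)) (by positivity)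
    _ = C * (B / A) / Nat.totient D := by
        field_simp

end

end Pool.Agent.Lib.MP_0b748d_nt.HHC
end

section

set_option autoImplicit false

/-!
# The difference has mean zero on cells and classes
-/

namespace Pool.Agent.Lib.MP_0b748d_nt.HHC

noncomputable section

/-- Proof. If `a` is prime to `W`, on `cc N J W i a` the model is the constant
`(∑ kp)/card`, so both sums agree (if the set is empty there is nothing to prove). If not, `km = 0`
there, and `kp` vanishes: a prime `m ≥ N > W` is prime to `W`. -/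
theorem ks_zero (c : ℕ → ℝ) {N J W : ℕ} (hW : 1 ≤ W) (hN : W < N) (i a : ℕ) :
    ∑ m ∈ cc N J W i a, ks c N J W m = 0 := by
  classical
  have hmem : ∀ m ∈ cc N J W i a, N ≤ m ∧ m < 2 * N ∧ ci N J m = i ∧ m % W = a := by
    intro m hm
    unfold cc cell at hm
    rw [Finset.mem_filter, Finset.mem_filter, Finset.mem_Ico] at hm
    exact ⟨hm.1.1.1, hm.1.1.2, hm.1.2, hm.2⟩
  have hcop : ∀ m ∈ cc N J W i a, (Nat.Coprime m W ↔ Nat.Coprime a W) := by
    intro m hm
    have h1 := (hmem m hm).2.2.2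
    have h2 : Nat.gcd a W = Nat.gcd m W := by
      rw [← h1]
      exact (Nat.mod_modEq m W).gcd_eq
    unfold Nat.Coprime
    rw [h2]
  by_cases ha : Nat.Coprime a W
  · have hk : ∀ m ∈ cc N J W i a, ks c N J W m = kp c N m -
        (∑ m' ∈ cc N J W i a, kp c N m') / (cc N J W i a).card := by
      intro m hm
      obtain ⟨h1, h2, h3, h4⟩ := hmem m hm
      have h5 : N ≤ m ∧ m < 2 * N ∧ Nat.Coprime m W := ⟨h1, h2, (hcop m hm).2 ha⟩
      unfold ks km
      rw [if_pos h5, h3, h4]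
    rw [Finset.sum_congr rfl hk, Finset.sum_sub_distrib, Finset.sum_const, nsmul_eq_mul]
    rcases (cc N J W i a).eq_empty_or_nonempty with he | he
    · rw [he]
      simp
    · have hc : ((cc N J W i a).card : ℝ) ≠ 0 := by
        exact_mod_cast (Finset.card_pos.2 he).ne'
      rw [mul_div_cancel₀ _ hc, sub_self]
  · refine Finset.sum_eq_zero fun m hm => ?_
    obtain ⟨h1, h2, h3, h4⟩ := hmem m hm
    have hn : ¬ Nat.Coprime m W := fun h => ha ((hcop m hm).1 h)
    have e1 : km c N J W m = 0 := by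
      unfold km
      exact if_neg fun h => hn h.2.2
    have e2 : kp c N m = 0 := by
      unfold kp
      refine if_neg fun h => hn ?_
      exact Nat.coprime_of_lt_prime (by omega) (by omega) h.1
    unfold ks
    rw [e1, e2, sub_zero]

/-- Proof. `χ m` depends only on `m % W` as `D ∣ W`; group the cell by `m % W` and use `ks_zero`. -/
theorem ks_char (c : ℕ → ℝ) {N J W D : ℕ} (hW : 1 ≤ W) (hN : W < N) (hD : D ∣ W) (i : ℕ)
    (χ : DirichletCharacter ℂ D) : Kc (ks c N J W) (cell N J i) χ = 0 := by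
  classical
  unfold Kc
  rw [← Finset.sum_fiberwise_of_maps_to (s := cell N J i) (t := Finset.range W)
    (g := fun m => m % W) (fun m _ => Finset.mem_range.2 (Nat.mod_lt _ (by omega)))]
  refine Finset.sum_eq_zero fun a _ => ?_
  have h1 : ∀ m ∈ (cell N J i).filter (fun m => m % W = a),
      (ks c N J W m : ℂ) * χ (m : ZMod D) = (ks c N J W m : ℂ) * χ (a : ZMod D) := by
    intro m hm
    have h2 : m % W = a := (Finset.mem_filter.1 hm).2
    have h3 : (m : ZMod D) = (a : ZMod D) := by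
      rw [ZMod.natCast_eq_natCast_iff]
      have h4 : m ≡ a [MOD W] := by
        rw [← h2]
        exact (Nat.mod_modEq m W).symm
      exact h4.of_dvd hD
    rw [h3]
  rw [Finset.sum_congr rfl h1, ← Finset.sum_mul]
  have h5 := ks_zero c (J := J) hW hN i a
  unfold cc at h5
  have h6 : ∑ m ∈ (cell N J i).filter (fun m => m % W = a), (ks c N J W m : ℂ) = 0 := by
    exact_mod_cast h5
  rw [h6, zero_mul]

end

end Pool.Agent.Lib.MP_0b748d_nt.HHC
end
end
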