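import Mathlib

section

set_option autoImplicit false

/-!
# The bilinear theorem on `ℤ²`: definitions (block C of program P2)

All functions on determinants are functions on `ℕ`; a determinant is turned into a natural number
by `Int.toNat` (negative determinants give `0`, where all the coefficients vanish).
-/

namespace Pool.Agent.Lib.MP_0b748d_nt.HHC

noncomputable section

/-- determinant of two vectors -/
def dt (u v : ℤ × ℤ) : ℤ := u.1 * v.2 - u.2 * v.1

/-- the box `[0, L]²` -/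
def bx (L : ℕ) : Finset (ℤ × ℤ) := Finset.Icc (0 : ℤ) L ×ˢ Finset.Icc (0 : ℤ) L

/-- the square of side `H` with lower left corner `(x, y)` -/
def sq (x y : ℤ) (H : ℕ) : Finset (ℤ × ℤ) := Finset.Ico x (x + H) ×ˢ Finset.Ico y (y + H)

/-- primitive vectors -/
def Pv (v : ℤ × ℤ) : Prop := IsCoprime v.1 v.2

open Classical in
/-- coefficients supported on the primes of `[N, 2N)` -/
def kp (c : ℕ → ℝ) (N m : ℕ) : ℝ :=
  if m.Prime ∧ N ≤ m ∧ m < 2 * N then c m * Real.log N else 0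

/-- index of the cell of `m ∈ [N, 2N)`, cells have length `N / J` -/
def ci (N J m : ℕ) : ℕ := (m - N) * J / N

/-- the cell of index `i < J` -/
def cell (N J i : ℕ) : Finset ℕ := (Finset.Ico N (2 * N)).filter (fun m => ci N J m = i)

/-- cell intersected with a residue class -/
def cc (N J W i a : ℕ) : Finset ℕ := (cell N J i).filter (fun m => m % W = a)

open Classical in
/-- the model of `kp`: its mean on the set (cell) ∩ (class modulo `W`), on numbers prime to `W` -/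
def km (c : ℕ → ℝ) (N J W m : ℕ) : ℝ :=
  if N ≤ m ∧ m < 2 * N ∧ Nat.Coprime m W then
    (∑ m' ∈ cc N J W (ci N J m) (m % W), kp c N m') / (cc N J W (ci N J m) (m % W)).card
  else 0

/-- the difference of `kp` and its model -/
def ks (c : ℕ → ℝ) (N J W m : ℕ) : ℝ := kp c N m - km c N J W m

/-- Selberg weights -/
structure SW (Z : ℕ) (lam : ℕ → ℝ) : Prop where
  one : lam 1 = 1
  le : ∀ d, |lam d| ≤ 1
  form : ∑ d ∈ Finset.Icc 1 Z, ∑ e ∈ Finset.Icc 1 Z, lam d * lam e / (Nat.lcm d e : ℝ) ≤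
    1 / Real.log Z

open Classical in
/-- the Selberg majorant of the primes `> Z` -/
def nu (lam : ℕ → ℝ) (Z : ℕ) (n : ℤ) : ℝ :=
  (∑ d ∈ (Finset.Icc 1 Z).filter (fun d : ℕ => (d : ℤ) ∣ n), lam d) ^ 2

/-- sum of `f` against a Dirichlet character over a finite set -/
def Kc (f : ℕ → ℝ) (s : Finset ℕ) {n : ℕ} (χ : DirichletCharacter ℂ n) : ℂ :=
  ∑ m ∈ s, (f m : ℂ) * χ (m : ZMod n)

open Classical in
/-- the primitive characters modulo `D` -/
def PC (D : ℕ) : Finset (DirichletCharacter ℂ D) := Finset.univ.filter (fun χ => χ.IsPrimitive)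

open Classical in
/-- the correlation along `n = r m mod δ` -/
def Sr (f : ℕ → ℝ) (A B : Finset ℕ) (δ r : ℕ) : ℝ :=
  ∑ m ∈ A, ∑ n ∈ B, if n ≡ r * m [MOD δ] then f m * f n else 0

/-- reduced residues modulo `δ` -/
def ur (δ : ℕ) : Finset ℕ := (Finset.range δ).filter (fun r => Nat.Coprime r δ)

end

end Pool.Agent.Lib.MP_0b748d_nt.HHC
end

section

set_option autoImplicit false

/-!
# Duality
-/

namespace Pool.Agent.Lib.MP_0b748d_nt.HHC

noncomputable section

/-- duality for bilinear forms.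

Proof. Let `S j = ∑_i a i x i j`, `Σ = ∑_j ‖S j‖²`, `A = ∑ ‖a i‖²`. Then
`Σ = ∑_i a i (∑_j conj (S j) x i j) ≤ √A (∑_i ‖∑_j conj (S j) x i j‖²)^(1/2) ≤ √A √(M Σ)`, hence
`Σ² ≤ A M Σ` and `Σ ≤ M A`. -/
theorem duality {ι κ : Type*} (s : Finset ι) (t : Finset κ) (x : ι → κ → ℂ) (M : ℝ) (hM : 0 ≤ M)
    (h : ∀ b : κ → ℂ, ∑ i ∈ s, ‖∑ j ∈ t, b j * x i j‖ ^ 2 ≤ M * ∑ j ∈ t, ‖b j‖ ^ 2) (a : ι → ℂ) :
    ∑ j ∈ t, ‖∑ i ∈ s, a i * x i j‖ ^ 2 ≤ M * ∑ i ∈ s, ‖a i‖ ^ 2 := by
  classical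
  set S : κ → ℂ := fun j => ∑ i ∈ s, a i * x i j with hS
  set Sg : ℝ := ∑ j ∈ t, ‖S j‖ ^ 2 with hSg
  set A : ℝ := ∑ i ∈ s, ‖a i‖ ^ 2 with hA
  have hSg0 : 0 ≤ Sg := Finset.sum_nonneg fun j _ => by positivity
  have hA0 : 0 ≤ A := Finset.sum_nonneg fun j _ => by positivity
  have hb := h (fun j => (starRingEnd ℂ) (S j))
  have hb2 : ∑ j ∈ t, ‖(starRingEnd ℂ) (S j)‖ ^ 2 = Sg := by
    rw [hSg]
    refine Finset.sum_congr rfl fun j _ => ?_
    rw [RCLike.norm_conj]

  rw [hb2] at hb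
  have h1 : (Sg : ℂ) = ∑ i ∈ s, a i * ∑ j ∈ t, (starRingEnd ℂ) (S j) * x i j := by
    have e1 : (Sg : ℂ) = ∑ j ∈ t, (starRingEnd ℂ) (S j) * S j := by
      rw [hSg]
      push_cast
      refine Finset.sum_congr rfl fun j _ => ?_
      rw [mul_comm, RCLike.mul_conj]
      norm_cast
    rw [e1]
    simp only [hS, Finset.mul_sum]
    rw [Finset.sum_comm]
    refine Finset.sum_congr rfl fun i _ => Finset.sum_congr rfl fun j _ => ?_
    ring
  have h2 : Sg ≤ ∑ i ∈ s, ‖a i‖ * ‖∑ j ∈ t, (starRingEnd ℂ) (S j) * x i j‖ := by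
    have e1 : ‖(Sg : ℂ)‖ = Sg := by
      rw [Complex.norm_real, Real.norm_eq_abs, abs_of_nonneg hSg0]
    rw [← e1, h1]
    refine (norm_sum_le _ _).trans (Finset.sum_le_sum fun i _ => ?_)
    rw [norm_mul]
  have h3 : Sg ^ 2 ≤ A * (M * Sg) := by
    have e1 : Sg ^ 2 ≤ (∑ i ∈ s, ‖a i‖ * ‖∑ j ∈ t, (starRingEnd ℂ) (S j) * x i j‖) ^ 2 :=
      pow_le_pow_left₀ hSg0 h2 2
    refine e1.trans ((Finset.sum_mul_sq_le_sq_mul_sq _ _ _).trans ?_)
    exact mul_le_mul_of_nonneg_left hb hA0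
  rcases hSg0.eq_or_lt with h0 | h0
  · rw [← h0]
    exact mul_nonneg hM hA0
  · have e2 : Sg * Sg ≤ M * A * Sg := by nlinarith
    exact le_of_mul_le_mul_right e2 h0

end

end Pool.Agent.Lib.MP_0b748d_nt.HHC
end

section

set_option autoImplicit false

/-!
# The Selberg denominator
-/

namespace Pool.Agent.Lib.MP_0b748d_nt.HHC

noncomputable section

/-- The reciprocals, as a multiplicative function. -/
private def cselInv : ℕ →* ℝ where
  toFun n := (n : ℝ)⁻¹
  map_one' := by simp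
  map_mul' a b := by rw [Nat.cast_mul, mul_inv]

private theorem csel_inner (d : ℕ) (T : Finset ℕ)
    (hT : ∀ n ∈ T, n ≠ 0 ∧ ∏ p ∈ n.primeFactors, p = d) :
    ∑ n ∈ T, (n : ℝ)⁻¹ ≤ 1 / (Nat.totient d : ℝ) := by
  classical
  rcases T.eq_empty_or_nonempty with rfl | ⟨n₀, hn₀⟩
  · rw [Finset.sum_empty]
    positivity
  have hd0 : d ≠ 0 := by
    rw [← (hT n₀ hn₀).2]
    exact Finset.prod_ne_zero_iff.2 fun p hp => (Nat.prime_of_mem_primeFactors hp).ne_zero
  have hdvd : ∀ n ∈ T, d ∣ n := fun n hn => by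
    rw [← (hT n hn).2]
    exact Nat.prod_primeFactors_dvd n
  have hpf : ∀ n ∈ T, n.primeFactors = d.primeFactors := fun n hn => by
    rw [← (hT n hn).2, Nat.primeFactors_prod_primeFactors]
  have hmem : ∀ n ∈ T, n / d ∈ Nat.factoredNumbers d.primeFactors := fun n hn => by
    refine Nat.mem_factoredNumbers_of_primeFactors_subset ?_ ?_
    · exact (Nat.div_pos (Nat.le_of_dvd (Nat.pos_of_ne_zero (hT n hn).1) (hdvd n hn))
        (Nat.pos_of_ne_zero hd0)).ne'
    · rw [← hpf n hn]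
      exact Nat.primeFactors_mono (Nat.div_dvd_of_dvd (hdvd n hn)) (hT n hn).1
  have hd0' : (d : ℝ) ≠ 0 := Nat.cast_ne_zero.2 hd0
  have h1 : ∑ n ∈ T, (n : ℝ)⁻¹ = (d : ℝ)⁻¹ * ∑ m ∈ T.image (fun n => n / d), (m : ℝ)⁻¹ := by
    rw [Finset.sum_image, Finset.mul_sum]
    · refine Finset.sum_congr rfl fun n hn => ?_
      rw [Nat.cast_div (hdvd n hn) hd0', ← mul_inv, mul_div_cancel₀ _ hd0']
    · intro a ha b hb hab
      have h2 : a / d = b / d := hab
      rw [← Nat.div_mul_cancel (hdvd a ha), h2, Nat.div_mul_cancel (hdvd b hb)]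
  have hlt : ∀ {p : ℕ}, p.Prime → ‖cselInv p‖ < 1 := fun {p} hp => by
    show ‖(p : ℝ)⁻¹‖ < 1
    rw [norm_inv, Real.norm_natCast]
    exact inv_lt_one_of_one_lt₀ (by exact_mod_cast hp.one_lt)
  have h2 := (EulerProduct.summable_and_hasSum_factoredNumbers_prod_filter_prime_geometric
    (f := cselInv) hlt d.primeFactors).2
  have h3 := sum_le_hasSum ((T.image (fun n => n / d)).subtype
    (· ∈ Nat.factoredNumbers d.primeFactors)) (fun i _ => by
      show 0 ≤ (((i : ℕ) : ℝ))⁻¹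
      positivity) h2
  rw [Finset.sum_subtype_of_mem (f := fun m : ℕ => cselInv m)] at h3
  · rw [h1]
    have h4 : (Nat.totient d : ℝ) = d * ∏ p ∈ d.primeFactors, (1 - (p : ℝ)⁻¹) := by
      have h5 := congrArg (fun x : ℚ => (x : ℝ)) (Nat.totient_eq_mul_prod_factors d)
      push_cast at h5
      exact h5
    rw [Finset.filter_true_of_mem fun p hp => Nat.prime_of_mem_primeFactors hp] at h3
    rw [h4, one_div, mul_inv, ← Finset.prod_inv_distrib]
    exact mul_le_mul_of_nonneg_left h3 (by positivity)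
  · intro m hm
    rw [Finset.mem_image] at hm
    obtain ⟨n, hn, rfl⟩ := hm
    exact hmem n hn

/-- Proof. `log Z ≤ ∑_{n ≤ Z} 1/n` (harmonic sum). Group the `n ≤ Z` according to their radical
`d = ∏ p ∈ n.primeFactors, p ≤ Z`, which is squarefree. For squarefree `d` the `n` with radical `d`
are `d * m` with `m ∈ Nat.factoredNumbers d.primeFactors`, and
`∑_{m ∈ factoredNumbers} 1/m = ∏_{p ∣ d} (1 - 1/p)⁻¹`
(`EulerProduct.summable_and_hasSum_factoredNumbers_prod_filter_prime_geometric` or a direct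
induction on the set of primes; only the upper bound for finite partial sums is needed). So the
contribution of `d` is at most `(1/d) ∏_{p ∣ d} (1 - 1/p)⁻¹ = 1/φ d`. -/
theorem sel_J (Z : ℕ) (hZ : 1 ≤ Z) :
    Real.log Z ≤ ∑ d ∈ (Finset.Icc 1 Z).filter Squarefree, 1 / (Nat.totient d : ℝ) := by
  classical
  have hZ0 : (0 : ℝ) < Z := by exact_mod_cast hZ
  have h1 : Real.log Z ≤ ∑ n ∈ Finset.Icc 1 Z, (n : ℝ)⁻¹ := by
    have h2 := log_add_one_le_harmonic Z
    rw [harmonic_eq_sum_Icc] at h2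
    push_cast at h2
    refine le_trans (Real.log_le_log hZ0 ?_) h2
    linarith
  refine h1.trans ?_
  have hmaps : ∀ n ∈ Finset.Icc 1 Z, ∏ p ∈ n.primeFactors, p ∈
      (Finset.Icc 1 Z).filter Squarefree := by
    intro n hn
    rw [Finset.mem_Icc] at hn
    rw [Finset.mem_filter, Finset.mem_Icc]
    refine ⟨⟨?_, ?_⟩, ?_⟩
    · exact Finset.prod_pos fun p hp => (Nat.prime_of_mem_primeFactors hp).pos
    · exact (Nat.le_of_dvd (by omega) (Nat.prod_primeFactors_dvd n)).trans hn.2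
    · refine Finset.squarefree_prod_of_pairwise_isCoprime (fun p hp q hq hpq => ?_) (fun p hp => ?_)
      · exact Nat.coprime_iff_isRelPrime.1 ((Nat.coprime_primes (Nat.prime_of_mem_primeFactors hp)
          (Nat.prime_of_mem_primeFactors hq)).2 hpq)
      · exact (Nat.prime_of_mem_primeFactors hp).squarefree
  rw [← Finset.sum_fiberwise_of_maps_to hmaps]
  refine Finset.sum_le_sum fun d _ => csel_inner d _ fun n hn => ?_
  rw [Finset.mem_filter, Finset.mem_Icc] at hn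
  exact ⟨by omega, hn.2⟩

end

end Pool.Agent.Lib.MP_0b748d_nt.HHC
end
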