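import Pool.Agent.Lib.MP_0b748d_nt.HH.TreeB
import Pool.Agent.Lib.MP_0b748d_nt.HH.CselJ
import Pool.Agent.Lib.MP_0b748d_nt.HH.CmodC

section

set_option autoImplicit false

/-!
# Residues of forms modulo primes
-/

namespace Pool.Agent.Lib.MP_0b748d_nt.HH

open Filter Topology

noncomputable section

/-- the form at a vector modulo `p` -/
def qv {p : ℕ} (y : Rp p) (x z : ZMod p) : ZMod p := y.1 * x ^ 2 + 2 * y.2.1 * (x * z) + y.2.2 * z ^ 2

/-- the residue form vanishes after substitution of the matrix -/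
def zr {p : ℕ} (y : Rp p) (M : Mt) : Prop :=
  qv y M.a M.c = 0 ∧ y.1 * (M.a * M.b) + y.2.1 * (M.a * M.d + M.b * M.c) + y.2.2 * (M.c * M.d) = 0 ∧
    qv y M.b M.d = 0

theorem zr_res {p : ℕ} (Q : Fm) (M : Mt) : zr (res p Q) M ↔
    p ∣ (Q.act M).d ∧ p ∣ (Q.act M).n ∧ p ∣ (Q.act M).e := by
  rw [← ZMod.natCast_eq_zero_iff, ← ZMod.natCast_eq_zero_iff, ← ZMod.natCast_eq_zero_iff]
  unfold zr qv res Fm.act Fm.val
  push_cast
  exact Iff.rfl

private lemma resE_orb {p : ℕ} {g : Equiv.Perm (Rp p)}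
    (hg : g ∈ ({rl p, rr p} : Set (Equiv.Perm (Rp p)))) (y : Rp p) : g y ∈ Orb p ↔ y ∈ Orb p := by
  constructor
  · rintro ⟨h, hh, hy⟩
    refine ⟨g⁻¹ * h, Subgroup.mul_mem _ (Subgroup.inv_mem _ (Subgroup.subset_closure hg)) hh, ?_⟩
    rw [Equiv.Perm.mul_apply, hy]
    exact Equiv.symm_apply_apply g y
  · rintro ⟨h, hh, hy⟩
    refine ⟨g * h, Subgroup.mul_mem _ (Subgroup.subset_closure hg) hh, ?_⟩
    rw [Equiv.Perm.mul_apply, hy]

private lemma resE_l (p : ℕ) (x z : ZMod p) :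
    Nat.card {y : Rp p // y ∈ Orb p ∧ qv y (x + z) z = 0} =
      Nat.card {y : Rp p // y ∈ Orb p ∧ qv y x z = 0} := by
  refine Nat.card_congr (Equiv.subtypeEquiv (rl p) fun y => ?_)
  have h1 : qv (rl p y) x z = qv y (x + z) z := by
    unfold qv
    simp only [rl, Equiv.coe_fn_mk]
    ring
  rw [h1, resE_orb (Or.inl rfl)]

private lemma resE_r (p : ℕ) (x z : ZMod p) :
    Nat.card {y : Rp p // y ∈ Orb p ∧ qv y x (x + z) = 0} =
      Nat.card {y : Rp p // y ∈ Orb p ∧ qv y x z = 0} := by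
  refine Nat.card_congr (Equiv.subtypeEquiv (rr p) fun y => ?_)
  have h1 : qv (rr p y) x z = qv y x (x + z) := by
    unfold qv
    simp only [rr, Equiv.coe_fn_mk]
    ring
  rw [h1, resE_orb (Or.inr rfl)]

private lemma resE_lk (p : ℕ) (x z : ZMod p) (k : ℕ) :
    Nat.card {y : Rp p // y ∈ Orb p ∧ qv y (x + k * z) z = 0} =
      Nat.card {y : Rp p // y ∈ Orb p ∧ qv y x z = 0} := by
  induction k with
  | zero => simp
  | succ k ih =>
    rw [← ih, ← resE_l p (x + k * z) z]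
    have h1 : x + ((k + 1 : ℕ) : ZMod p) * z = x + k * z + z := by
      push_cast
      ring
    rw [h1]

private lemma resE_rk (p : ℕ) (x z : ZMod p) (k : ℕ) :
    Nat.card {y : Rp p // y ∈ Orb p ∧ qv y x (z + k * x) = 0} =
      Nat.card {y : Rp p // y ∈ Orb p ∧ qv y x z = 0} := by
  induction k with
  | zero => simp
  | succ k ih =>
    rw [← ih, ← resE_r p x (z + k * x)]
    have h1 : z + ((k + 1 : ℕ) : ZMod p) * x = x + (z + k * x) := by
      push_cast
      ring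
    rw [h1]

private lemma resE_std (p : ℕ) (hp : p.Prime) (x z : ZMod p) (h : z ≠ 0) :
    Nat.card {y : Rp p // y ∈ Orb p ∧ qv y x z = 0} =
      Nat.card {y : Rp p // y ∈ Orb p ∧ qv y 1 0 = 0} := by
  have : Fact p.Prime := ⟨hp⟩
  have h1 := resE_lk p x z ((1 - x) * z⁻¹).val
  rw [ZMod.natCast_zmod_val, mul_assoc, inv_mul_cancel₀ h, mul_one, add_sub_cancel] at h1
  have h2 := resE_rk p 1 z (-z).val
  rw [ZMod.natCast_zmod_val, mul_one, add_neg_cancel] at h2
  rw [← h1, h2]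

private lemma resE_std2 (p : ℕ) (hp : p.Prime) (v : ZMod p × ZMod p) (hv : v ≠ 0) :
    Nat.card {y : Rp p // y ∈ Orb p ∧ qv y v.1 v.2 = 0} =
      Nat.card {y : Rp p // y ∈ Orb p ∧ qv y 1 0 = 0} := by
  by_cases h : v.2 = 0
  · have hx : v.1 ≠ 0 := by
      intro h1
      exact hv (Prod.ext h1 h)
    have h1 := resE_rk p v.1 v.2 1
    rw [h, Nat.cast_one, one_mul, zero_add] at h1
    rw [h, ← h1]
    exact resE_std p hp v.1 v.1 hx
  · exact resE_std p hp v.1 v.2 h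

/-- the group generated by `rl`, `rr` moves zeros of forms transitively: for nonzero vectors `v`, `w`
there is a bijection of `Orb p` carrying the forms vanishing at `v` to those vanishing at `w`. Proof:
`qv (rl p y) x z = qv y (x + z) z`, `qv (rr p y) x z = qv y x (x + z)`; the maps
`(x, z) ↦ (x + z, z)` and `(x, z) ↦ (x, x + z)` generate a group acting transitively on the nonzero
vectors of `(ZMod p)²`. -/
theorem zeros_card (p : ℕ) (hp : p.Prime) (v w : ZMod p × ZMod p) (hv : v ≠ 0) (hw : w ≠ 0) :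
    Nat.card {y : Rp p // y ∈ Orb p ∧ qv y v.1 v.2 = 0} =
      Nat.card {y : Rp p // y ∈ Orb p ∧ qv y w.1 w.2 = 0} := by
  rw [resE_std2 p hp v hv, resE_std2 p hp w hw]

end

end Pool.Agent.Lib.MP_0b748d_nt.HH
end

section

set_option autoImplicit false

/-!
# The tree of forms and the cells
-/

namespace Pool.Agent.Lib.MP_0b748d_nt.HH

noncomputable section

/-- Claim: for every `Ok` form `Q` with `d, e ≤ T'` and all `x, y` there is `M` with `M.Dt 1`,
`Q.act M ∈ Cl T'` and `(x, y) = M (x', y')`. Induction on `⌊T'⌋ + 1 - Q.val 1 1`: if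
`T' < Q.val 1 1` take `M = one`. Otherwise for `y ≤ x` use the claim for `Q.lc` and
`(x - y, y)`, for `x < y` the claim for `Q.rc` and `(x, y - x)`. -/
theorem cover {T' : ℝ} (hT : 0 ≤ T') {Q : Fm} (hQ : Q ∈ Qs T') (x y : ℕ) :
    ∃ M ∈ Dn T' Q, ∃ x' y' : ℕ, x = M.a * x' + M.b * y' ∧ y = M.c * x' + M.d * y' := by
  have key : ∀ s : ℕ, ∀ Q : Fm, ⌊T'⌋₊ + 1 - Q.val 1 1 = s → Q ∈ Qs T' → ∀ x y : ℕ,
      ∃ M ∈ Dn T' Q, ∃ x' y' : ℕ, x = M.a * x' + M.b * y' ∧ y = M.c * x' + M.d * y' := by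
    intro s
    induction s using Nat.strong_induction_on with
    | _ s ih =>
      intro Q hs hQ x y
      have hq := (mem_Qs hT).1 hQ
      by_cases hbig : T' < (Q.val 1 1 : ℝ)
      · refine ⟨Mt.one, (mem_Dn hT hq.1).2 ⟨by simp [Mt.Dt, Mt.one], ?_⟩, x, y, ?_, ?_⟩
        · rw [act_one]
          exact (mem_Cl hT).2 ⟨hq.1, hq.2.1, hq.2.2, hbig⟩
        · simp [Mt.one]
        · simp [Mt.one]
      · have hle : ((Q.val 1 1 : ℕ) : ℝ) ≤ T' := not_lt.1 hbig
        have hfl : Q.val 1 1 ≤ ⌊T'⌋₊ := (Nat.le_floor_iff hT).2 hle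
        have hd := hq.1.1
        have he := hq.1.2.1
        rcases le_or_gt y x with hyx | hxy
        · have hok := lc_Ok hq.1
          have hlce : Q.lc.e = Q.val 1 1 := by simp [Fm.lc, Fm.val]
          have hmem : Q.lc ∈ Qs T' := (mem_Qs hT).2 ⟨hok, hq.2.1, by rw [hlce]; exact hle⟩
          have hval : Q.val 1 1 < Q.lc.val 1 1 := by
            simp only [Fm.val, Fm.lc]
            omega
          obtain ⟨M, hM, x', y', h1, h2⟩ := ih (⌊T'⌋₊ + 1 - Q.lc.val 1 1) (by omega) Q.lc rfl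
            hmem (x - y) y
          have hM' := (mem_Dn hT hok).1 hM
          refine ⟨Mt.l.mul M, (mem_Dn hT hq.1).2 ⟨?_, ?_⟩, x', y', ?_, ?_⟩
          · exact Dt_mul (m := 1) (k := 1) (by simp [Mt.Dt, Mt.l]) hM'.1
          · rw [← act_mul, act_l]
            exact hM'.2
          · have h3 : x = (x - y) + y := by omega
            have h4 : (Mt.l.mul M).a * x' + (Mt.l.mul M).b * y' =
                (M.a * x' + M.b * y') + (M.c * x' + M.d * y') := by
              simp only [Mt.mul, Mt.l]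
              ring
            rw [h4, ← h1, ← h2]
            exact h3
          · rw [h2]
            simp only [Mt.mul, Mt.l]
            ring
        · have hok := rc_Ok hq.1
          have hrcd : Q.rc.d = Q.val 1 1 := by simp [Fm.rc, Fm.val]
          have hmem : Q.rc ∈ Qs T' := (mem_Qs hT).2 ⟨hok, by rw [hrcd]; exact hle, hq.2.2⟩
          have hval : Q.val 1 1 < Q.rc.val 1 1 := by
            simp only [Fm.val, Fm.rc]
            omega
          obtain ⟨M, hM, x', y', h1, h2⟩ := ih (⌊T'⌋₊ + 1 - Q.rc.val 1 1) (by omega) Q.rc rfl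
            hmem x (y - x)
          have hM' := (mem_Dn hT hok).1 hM
          refine ⟨Mt.r.mul M, (mem_Dn hT hq.1).2 ⟨?_, ?_⟩, x', y', ?_, ?_⟩
          · exact Dt_mul (m := 1) (k := 1) (by simp [Mt.Dt, Mt.r]) hM'.1
          · rw [← act_mul, act_r]
            exact hM'.2
          · rw [h1]
            simp only [Mt.mul, Mt.r]
            ring
          · have h3 : y = x + (y - x) := by omega
            have h4 : (Mt.r.mul M).c * x' + (Mt.r.mul M).d * y' =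
                (M.a * x' + M.b * y') + (M.c * x' + M.d * y') := by
              simp only [Mt.mul, Mt.r]
              ring
            rw [h4, ← h1, ← h2]
            exact h3
  exact key _ Q rfl hQ x y

/-- for `T < 2` there are no cells (`d = e = 1` gives `n² = 3`) -/
theorem Cl_empty {T : ℝ} (hT0 : 0 ≤ T) (hT : T < 2) : Cl T = ∅ := by
  rw [Finset.eq_empty_iff_forall_notMem]
  intro Q hQ
  have h := (mem_Cl hT0).1 hQ
  obtain ⟨⟨hd, he, hn⟩, h1, h2, -⟩ := h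
  have h3 : Q.d < 2 := by
    have : (Q.d : ℝ) < 2 := lt_of_le_of_lt h1 hT
    exact_mod_cast this
  have h4 : Q.e < 2 := by
    have : (Q.e : ℝ) < 2 := lt_of_le_of_lt h2 hT
    exact_mod_cast this
  have h5 : Q.d = 1 := by omega
  have h6 : Q.e = 1 := by omega
  rw [h5, h6] at hn
  have h7 : Q.n < 2 := by
    by_contra hcon
    have h8 : 2 ≤ Q.n := not_lt.1 hcon
    have h9 : 2 ^ 2 ≤ Q.n ^ 2 := Nat.pow_le_pow_left h8 2
    omega
  interval_cases h10 : Q.n <;> omega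

theorem tt_pos (n i : ℕ) : 0 < tt n i := by
  unfold tt
  positivity

theorem one_le_tt (n i : ℕ) : 1 ≤ tt n i := by
  unfold tt
  exact Real.one_le_rpow (by norm_num) (by positivity)

theorem tt_add (n : ℕ) (hn : 1 ≤ n) (i l : ℕ) : tt n (i + l * n) = 2 ^ l * tt n i := by
  unfold tt
  have hn0 : (n : ℝ) ≠ 0 := by
    have : 0 < n := hn
    positivity
  have h1 : ((i + l * n : ℕ) : ℝ) / (n : ℝ) = (l : ℝ) + (i : ℝ) / (n : ℝ) := by
    push_cast
    field_simp
    ring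
  rw [h1, Real.rpow_add (by norm_num : (0 : ℝ) < 2), Real.rpow_natCast]

theorem tt_le_iff (n : ℕ) (hn : 1 ≤ n) (i j : ℕ) : tt n i ≤ tt n j ↔ i ≤ j := by
  unfold tt
  have hn0 : (0 : ℝ) < n := by exact_mod_cast hn
  rw [Real.rpow_le_rpow_left_iff (by norm_num : (1 : ℝ) < 2), div_le_div_iff_of_pos_right hn0,
    Nat.cast_le]

end

end Pool.Agent.Lib.MP_0b748d_nt.HH
end

section

section

set_option autoImplicit false

/-!
# Divisibility of determinants on squares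
-/

namespace Pool.Agent.Lib.MP_0b748d_nt.HHC

noncomputable section

private theorem sqA_count (r : ℤ) (hr : 0 < r) (x v : ℤ) (H : ℕ) :
    |(((Finset.Ico x (x + H)).filter (fun a => a ≡ v [ZMOD r])).card : ℝ) - (H : ℝ) / r| ≤ 1 := by
  have h := Int.Ico_filter_modEq_card x (x + H) hr v
  have hrq : (0 : ℚ) < r := by exact_mod_cast hr
  have e1 : (((x + (H : ℤ) : ℤ) - v : ℚ)) / r = ((x : ℚ) - v) / r + (H : ℚ) / r := by
    push_cast; ring
  have hH : (0 : ℚ) ≤ (H : ℚ) / r := by positivity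
  have hmono : ⌈((x : ℚ) - v) / r⌉ ≤ ⌈(((x + (H : ℤ) : ℤ) : ℚ) - v) / r⌉ := by
    apply Int.ceil_mono
    rw [e1]; linarith
  rw [max_eq_left (by linarith)] at h
  have h1 := Int.ceil_lt_add_one ((((x + (H : ℤ) : ℤ) : ℚ) - v) / r)
  have h2 := Int.le_ceil ((((x + (H : ℤ) : ℤ) : ℚ) - v) / r)
  have h3 := Int.ceil_lt_add_one (((x : ℚ) - v) / r)
  have h4 := Int.le_ceil (((x : ℚ) - v) / r)
  have h5 : ((((Finset.Ico x (x + H)).filter (fun a => a ≡ v [ZMOD r])).card : ℤ) : ℚ) =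
      (⌈(((x + (H : ℤ) : ℤ) : ℚ) - v) / r⌉ : ℚ) - (⌈((x : ℚ) - v) / r⌉ : ℚ) := by
    rw [h]; push_cast; ring
  have h6 : |((((Finset.Ico x (x + H)).filter (fun a => a ≡ v [ZMOD r])).card : ℕ) : ℚ) -
      (H : ℚ) / r| ≤ 1 := by
    rw [Int.cast_natCast] at h5
    rw [h5, abs_le]
    rw [e1] at h1 h2 ⊢
    constructor <;> linarith
  exact_mod_cast h6

open Classical in
/-- vectors of a square with `D ∣ dt u v`, for primitive `v`.

Proof. `dt u v = u.1 v.2 - u.2 v.1`. Let `g = gcd(v.2, D)` (so `1 ≤ g ≤ D`). Since `v` is primitive,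
`gcd(g, v.1) = 1`; for fixed `u.2` the congruence `u.1 v.2 = u.2 v.1 mod D` is solvable iff
`g ∣ u.2`, and then `u.1` runs over one residue class modulo `D/g`. The number of `u.2` is
`H/g + a`, `|a| ≤ 1`, and for each there are `H g/D + b`, `|b| ≤ 1`, values of `u.1`. The total is
`H²/D + a H g/D + (sum of at most H/g + 1 terms b)`, and `H g/D ≤ H`, `H/g + 1 ≤ H + 1`. -/
theorem sq_div (v : ℤ × ℤ) (hv : Pv v) (x y : ℤ) (H D : ℕ) (hD : 1 ≤ D) :
    |(((sq x y H).filter (fun u => (D : ℤ) ∣ dt u v)).card : ℝ) - (H : ℝ) ^ 2 / D| ≤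
      2 * H + 1 := by
  classical
  obtain ⟨v1, v2⟩ := v
  have hv' : IsCoprime v1 v2 := hv
  obtain ⟨g, hg⟩ : ∃ g : ℕ, g = Int.gcd v2 D := ⟨_, rfl⟩
  have hDz : (D : ℤ) ≠ 0 := by exact_mod_cast (by omega : D ≠ 0)
  have hg0 : 0 < g := by rw [hg]; exact Int.gcd_pos_of_ne_zero_right _ hDz
  obtain ⟨w, hw⟩ : (g : ℤ) ∣ v2 := by rw [hg]; exact Int.gcd_dvd_left _ _
  obtain ⟨E, hE⟩ : (g : ℤ) ∣ (D : ℤ) := by rw [hg]; exact Int.gcd_dvd_right _ _
  have hgz : (0 : ℤ) < g := by exact_mod_cast hg0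
  have hE0 : 0 < E := by
    by_contra h0
    push Not at h0
    have : (D : ℤ) ≤ 0 := by rw [hE]; exact mul_nonpos_of_nonneg_of_nonpos hgz.le h0
    omega
  have hcop : IsCoprime w E := by
    have h1 : (Int.gcd v2 D : ℤ) = v2 * Int.gcdA v2 D + D * Int.gcdB v2 D := Int.gcd_eq_gcd_ab _ _
    rw [← hg, hw, hE] at h1
    refine ⟨Int.gcdA ((g : ℤ) * w) ((g : ℤ) * E), Int.gcdB ((g : ℤ) * w) ((g : ℤ) * E), ?_⟩
    have h2 : (g : ℤ) * 1 = (g : ℤ) * (Int.gcdA ((g : ℤ) * w) ((g : ℤ) * E) * w +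
        Int.gcdB ((g : ℤ) * w) ((g : ℤ) * E) * E) := by linear_combination h1
    exact (mul_left_cancel₀ hgz.ne' h2).symm
  have hcopg : IsCoprime (g : ℤ) v1 := by
    obtain ⟨a, b, hab⟩ := hv'
    refine ⟨b * w, a, ?_⟩
    rw [hw] at hab
    linear_combination hab
  obtain ⟨w', E', hwE⟩ := hcop
  -- the fibres
  have hfib : ∀ b : ℤ, (((Finset.Ico x (x + H)).filter
      (fun a => (D : ℤ) ∣ a * v2 - b * v1)).card : ℝ) =
      if (g : ℤ) ∣ b then (((Finset.Ico x (x + H)).filter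
        (fun a => a ≡ w' * (b / g) * v1 [ZMOD E])).card : ℝ) else 0 := by
    intro b
    split_ifs with hb
    · congr 2
      ext a
      simp only [Finset.mem_filter, and_congr_right_iff]
      intro _
      obtain ⟨b', rfl⟩ := hb
      rw [Int.mul_ediv_cancel_left _ hgz.ne', Int.modEq_iff_dvd, hw, hE]
      constructor
      · rintro ⟨t, ht⟩
        have h1 : (g : ℤ) * (a * w - b' * v1) = (g : ℤ) * (E * t) := by linear_combination ht
        have h2 := mul_left_cancel₀ hgz.ne' h1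
        exact ⟨- w' * t - a * E', by linear_combination (-w') * h2 + a * hwE⟩
      · rintro ⟨t, ht⟩
        refine ⟨- w * t - E' * b' * v1, ?_⟩
        linear_combination (-(g : ℤ) * w) * ht + ((g : ℤ) * b' * v1) * hwE
    · rw [Nat.cast_eq_zero, Finset.card_eq_zero, Finset.filter_eq_empty_iff]
      intro a _ hda
      apply hb
      have h1 : (g : ℤ) ∣ a * v2 - b * v1 := (Dvd.intro E hE.symm).trans hda
      have h2 : (g : ℤ) ∣ b * v1 := by
        have h3 : (g : ℤ) ∣ a * v2 := Dvd.dvd.mul_left (Dvd.intro w hw.symm) a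
        have h4 := dvd_sub h3 h1
        have e : a * v2 - (a * v2 - b * v1) = b * v1 := by ring
        rwa [e] at h4
      exact hcopg.dvd_of_dvd_mul_right h2
  -- the total count
  have htot : (((sq x y H).filter (fun u => (D : ℤ) ∣ dt u (v1, v2))).card : ℝ) =
      ∑ b ∈ (Finset.Ico y (y + H)).filter (fun b => (g : ℤ) ∣ b),
        (((Finset.Ico x (x + H)).filter (fun a => a ≡ w' * (b / g) * v1 [ZMOD E])).card : ℝ) := by
    rw [Finset.sum_filter]
    have h1 : ((sq x y H).filter (fun u => (D : ℤ) ∣ dt u (v1, v2))).card =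
        ∑ b ∈ Finset.Ico y (y + H), ((Finset.Ico x (x + H)).filter
          (fun a => (D : ℤ) ∣ a * v2 - b * v1)).card := by
      rw [Finset.card_eq_sum_card_fiberwise (f := Prod.snd) (t := Finset.Ico y (y + H))]
      · apply Finset.sum_congr rfl
        intro b hb
        refine Finset.card_bij' (fun u _ => u.1) (fun a _ => (a, b)) ?_ ?_ ?_ ?_
        · intro u hu
          obtain ⟨hu1, h4⟩ := Finset.mem_filter.1 hu
          obtain ⟨hu2, h3⟩ := Finset.mem_filter.1 hu1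
          obtain ⟨h1, h2⟩ := Finset.mem_product.1 hu2
          subst h4
          exact Finset.mem_filter.2 ⟨h1, h3⟩
        · intro a ha
          obtain ⟨ha1, ha2⟩ := Finset.mem_filter.1 ha
          exact Finset.mem_filter.2 ⟨Finset.mem_filter.2 ⟨Finset.mem_product.2 ⟨ha1, hb⟩, ha2⟩, rfl⟩
        · intro u hu
          rw [← (Finset.mem_filter.1 hu).2]
        · intro a ha
          rfl
      · intro u hu
        exact (Finset.mem_product.1 (Finset.mem_filter.1 (Finset.mem_coe.1 hu)).1).2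
    rw [h1, Nat.cast_sum]
    exact Finset.sum_congr rfl (fun b _ => hfib b)
  set S := (Finset.Ico y (y + H)).filter (fun b => (g : ℤ) ∣ b) with hS
  have hScard : |((S.card : ℕ) : ℝ) - (H : ℝ) / g| ≤ 1 := by
    have h1 := sqA_count g hgz y 0 H
    have h2 : (Finset.Ico y (y + H)).filter (fun a => a ≡ 0 [ZMOD g]) = S := by
      rw [hS]
      ext a
      simp only [Finset.mem_filter, Int.modEq_zero_iff_dvd]
    rw [h2, Int.cast_natCast] at h1
    exact h1
  have hER : (0 : ℝ) < (E : ℝ) := by exact_mod_cast hE0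
  have hgR : (1 : ℝ) ≤ (g : ℝ) := by exact_mod_cast hg0
  have hE1 : (1 : ℝ) ≤ (E : ℝ) := by exact_mod_cast hE0
  have hDR : (D : ℝ) = g * E := by exact_mod_cast hE
  have hH0 : (0 : ℝ) ≤ (H : ℝ) := by positivity
  have hA : |∑ b ∈ S, (((Finset.Ico x (x + H)).filter
      (fun a => a ≡ w' * (b / g) * v1 [ZMOD E])).card : ℝ) - (S.card : ℝ) * ((H : ℝ) / E)| ≤
      S.card := by
    have h1 : ∑ b ∈ S, (((Finset.Ico x (x + H)).filter
        (fun a => a ≡ w' * (b / g) * v1 [ZMOD E])).card : ℝ) - (S.card : ℝ) * ((H : ℝ) / E) =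
        ∑ b ∈ S, ((((Finset.Ico x (x + H)).filter
        (fun a => a ≡ w' * (b / g) * v1 [ZMOD E])).card : ℝ) - (H : ℝ) / E) := by
      rw [Finset.sum_sub_distrib, Finset.sum_const, nsmul_eq_mul]
    rw [h1]
    calc |∑ b ∈ S, ((((Finset.Ico x (x + H)).filter
        (fun a => a ≡ w' * (b / g) * v1 [ZMOD E])).card : ℝ) - (H : ℝ) / E)|
        ≤ ∑ b ∈ S, |(((Finset.Ico x (x + H)).filter
        (fun a => a ≡ w' * (b / g) * v1 [ZMOD E])).card : ℝ) - (H : ℝ) / E| :=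
          Finset.abs_sum_le_sum_abs _ _
      _ ≤ ∑ b ∈ S, (1 : ℝ) := Finset.sum_le_sum fun b _ => sqA_count E hE0 x _ H
      _ = S.card := by simp
  rw [htot]
  have hB : |(S.card : ℝ) * ((H : ℝ) / E) - (H : ℝ) ^ 2 / D| ≤ H := by
    have e : (S.card : ℝ) * ((H : ℝ) / E) - (H : ℝ) ^ 2 / D =
        ((S.card : ℝ) - (H : ℝ) / g) * ((H : ℝ) / E) := by
      rw [hDR]
      field_simp
    rw [e, abs_mul, abs_of_nonneg (by positivity : (0 : ℝ) ≤ (H : ℝ) / E)]
    calc |(S.card : ℝ) - (H : ℝ) / g| * ((H : ℝ) / E) ≤ 1 * ((H : ℝ) / E) :=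
          mul_le_mul_of_nonneg_right hScard (by positivity)
      _ ≤ H := by rw [one_mul]; exact div_le_self hH0 hE1
  have hC : (S.card : ℝ) ≤ H + 1 := by
    have h1 := (abs_le.1 hScard).2
    have h2 : (H : ℝ) / g ≤ H := div_le_self hH0 hgR
    linarith
  have hA' := abs_le.1 hA
  have hB' := abs_le.1 hB
  rw [abs_le]
  constructor <;> linarith [hA'.1, hA'.2, hB'.1, hB'.2]

end

end Pool.Agent.Lib.MP_0b748d_nt.HHC
end

section

set_option autoImplicit false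

/-!
# Determinants prime to W on squares
-/

namespace Pool.Agent.Lib.MP_0b748d_nt.HHC

noncomputable section

open Classical in
/-- vectors of a square with `dt u v` prime to `W`.

Proof. If `v = 0` the determinant is `0`, which is prime to `W` only for `W = 1`, and then the bound
is `(H + 1)^2`. Otherwise `v = g v0`, `v0` primitive, `dt u v = g * dt u v0`, so `dt u v0` is prime
to `W`; assume `v` primitive. The set of `u` modulo `W` with `dt u v` a unit has `W φ(W)` elements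
(`u ↦ dt u v` is a surjective homomorphism `(ℤ/W)² → ℤ/W`, all fibres have `W` elements). The
square is covered by `⌈H/W⌉²  ≤ (H/W + 1)²` squares of side `W`. -/
theorem sq_cop (v : ℤ × ℤ) (W : ℕ) (hW : 1 ≤ W) (x y : ℤ) (H : ℕ) :
    (((sq x y H).filter (fun u => IsCoprime (dt u v) (W : ℤ))).card : ℝ) ≤
      ((H : ℝ) / W + 1) ^ 2 * W * Nat.totient W := by
  classical
  have hW0 : NeZero W := ⟨by omega⟩
  rcases Finset.eq_empty_or_nonempty
    ((sq x y H).filter (fun u => IsCoprime (dt u v) (W : ℤ))) with he | ⟨u0, hu0⟩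
  · rw [he, Finset.card_empty, Nat.cast_zero]
    positivity
  rw [Finset.mem_filter] at hu0
  have hiff : ∀ n : ℤ, IsCoprime n (W : ℤ) ↔ IsUnit ((n : ℤ) : ZMod W) := fun n => by
    rw [ZMod.coe_int_isUnit_iff_isCoprime, isCoprime_comm]
  obtain ⟨c, hc⟩ := ((hiff _).1 hu0.2).exists_right_inv
  obtain ⟨a, ha⟩ : ∃ a : ZMod W, a = (u0.1 : ZMod W) * c := ⟨_, rfl⟩
  obtain ⟨b, hb⟩ : ∃ b : ZMod W, b = (u0.2 : ZMod W) * c := ⟨_, rfl⟩
  have hab : a * (v.2 : ZMod W) - b * (v.1 : ZMod W) = 1 := by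
    rw [← hc, ha, hb, dt]
    push_cast
    ring
  obtain ⟨k, hk⟩ : ∃ k : ℕ, k = H / W + 1 := ⟨_, rfl⟩
  obtain ⟨UU, hUU⟩ : ∃ UU : Finset (ZMod W),
    UU = Finset.univ.image (fun a : (ZMod W)ˣ => (a : ZMod W)) := ⟨_, rfl⟩
  have hres : ∀ m m' : ℕ, m / W = m' / W → (m : ZMod W) = (m' : ZMod W) → m = m' := by
    intro m m' h1 h2
    rw [ZMod.natCast_eq_natCast_iff'] at h2
    rw [← Nat.div_add_mod m W, ← Nat.div_add_mod m' W, h1, h2]
  have hcard : ((sq x y H).filter (fun u => IsCoprime (dt u v) (W : ℤ))).card ≤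
      ((Finset.range k ×ˢ Finset.range k) ×ˢ (UU ×ˢ (Finset.univ : Finset (ZMod W)))).card := by
    apply Finset.card_le_card_of_injOn (fun u : ℤ × ℤ =>
      (((u.1 - x).toNat / W, (u.2 - y).toNat / W),
        (((dt u v : ℤ) : ZMod W), -b * (u.1 : ZMod W) + a * (u.2 : ZMod W))))
    · intro u hu
      rw [Finset.mem_coe, Finset.mem_filter, sq, Finset.mem_product, Finset.mem_Ico,
        Finset.mem_Ico] at hu
      obtain ⟨⟨⟨h1, h2⟩, ⟨h3, h4⟩⟩, h5⟩ := hu
      rw [Finset.mem_coe, Finset.mem_product, Finset.mem_product, Finset.mem_product,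
        Finset.mem_range, Finset.mem_range]
      refine ⟨⟨?_, ?_⟩, ?_, Finset.mem_univ _⟩
      · rw [hk, Nat.lt_add_one_iff]
        exact Nat.div_le_div_right (by omega)
      · rw [hk, Nat.lt_add_one_iff]
        exact Nat.div_le_div_right (by omega)
      · rw [hUU, Finset.mem_image]
        exact ⟨((hiff _).1 h5).unit, Finset.mem_univ _, rfl⟩
    · intro u hu u' hu' huu
      rw [Finset.mem_coe, Finset.mem_filter, sq, Finset.mem_product, Finset.mem_Ico,
        Finset.mem_Ico] at hu hu'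
      obtain ⟨⟨⟨h1, h2⟩, ⟨h3, h4⟩⟩, -⟩ := hu
      obtain ⟨⟨⟨h1', h2'⟩, ⟨h3', h4'⟩⟩, -⟩ := hu'
      simp only [Prod.mk.injEq, dt] at huu
      obtain ⟨⟨e1, e2⟩, e3, e4⟩ := huu
      push_cast at e3
      have f1 : (u.1 : ZMod W) = (u'.1 : ZMod W) := by
        linear_combination (-(u.1 : ZMod W) + (u'.1 : ZMod W)) * hab + a * e3 + (v.1 : ZMod W) * e4
      have f2 : (u.2 : ZMod W) = (u'.2 : ZMod W) := by
        linear_combination (-(u.2 : ZMod W) + (u'.2 : ZMod W)) * hab + b * e3 + (v.2 : ZMod W) * e4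
      have g1 : ((u.1 - x).toNat : ZMod W) = ((u'.1 - x).toNat : ZMod W) := by
        have k1 : (((u.1 - x).toNat : ℤ) : ZMod W) = (((u'.1 - x).toNat : ℤ) : ZMod W) := by
          rw [Int.toNat_of_nonneg (by omega), Int.toNat_of_nonneg (by omega)]
          push_cast
          rw [f1]
        rwa [Int.cast_natCast, Int.cast_natCast] at k1
      have g2 : ((u.2 - y).toNat : ZMod W) = ((u'.2 - y).toNat : ZMod W) := by
        have k1 : (((u.2 - y).toNat : ℤ) : ZMod W) = (((u'.2 - y).toNat : ℤ) : ZMod W) := by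
          rw [Int.toNat_of_nonneg (by omega), Int.toNat_of_nonneg (by omega)]
          push_cast
          rw [f2]
        rwa [Int.cast_natCast, Int.cast_natCast] at k1
      have i1 := hres _ _ e1 g1
      have i2 := hres _ _ e2 g2
      apply Prod.ext
      · omega
      · omega
  have hUc : UU.card ≤ Nat.totient W := by
    rw [hUU]
    refine Finset.card_image_le.trans ?_
    rw [Finset.card_univ, ZMod.card_units_eq_totient]
  rw [Finset.card_product, Finset.card_product, Finset.card_product, Finset.card_range,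
    Finset.card_univ, ZMod.card] at hcard
  have hk2 : (k : ℝ) ≤ (H : ℝ) / W + 1 := by
    rw [hk]
    push_cast
    linarith [@Nat.cast_div_le ℝ _ _ _ H W]
  calc (((sq x y H).filter (fun u => IsCoprime (dt u v) (W : ℤ))).card : ℝ)
      ≤ ((k * k * (UU.card * W) : ℕ) : ℝ) := by exact_mod_cast hcard
    _ ≤ ((k * k * (Nat.totient W * W) : ℕ) : ℝ) := by
        exact_mod_cast Nat.mul_le_mul_left _ (Nat.mul_le_mul_right _ hUc)
    _ = (k : ℝ) ^ 2 * W * Nat.totient W := by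
        push_cast
        ring
    _ ≤ ((H : ℝ) / W + 1) ^ 2 * W * Nat.totient W := by gcongr

end

end Pool.Agent.Lib.MP_0b748d_nt.HHC
end

section

set_option autoImplicit false

/-!
# The prime coefficients on squares
-/

namespace Pool.Agent.Lib.MP_0b748d_nt.HHC

noncomputable section

private theorem csqC_abs {c : ℕ → ℝ} (hc : ∀ p, |c p| ≤ 1) {N Z : ℕ} {lam : ℕ → ℝ}
    (h : SW Z lam) (hZ : 1 ≤ Z) (hZN : Z < N) (m : ℤ) :
    |kp c N m.toNat| ≤ Real.log N * nu lam Z m := by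
  have hlog : 0 ≤ Real.log (N : ℝ) := Real.log_natCast_nonneg N
  unfold kp
  split_ifs with hp
  · have hm : (m.toNat : ℤ) = m := by
      have := hp.1.pos
      omega
    have h1 : nu lam Z m = 1 := by
      rw [← hm]
      exact nu_prime h hZ hp.1 (lt_of_lt_of_le hZN hp.2.1)
    rw [h1, mul_one, abs_mul, abs_of_nonneg hlog]
    exact mul_le_of_le_one_left hlog (hc _)
  · rw [abs_zero]
    exact mul_nonneg hlog (nu_nonneg _ _ _)

private theorem csqC_zero {c : ℕ → ℝ} {N : ℕ} {v : ℤ × ℤ} (hv : ¬ Pv v) (h1 : |v.1| < N)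
    (h2 : |v.2| < N) (u : ℤ × ℤ) : kp c N (dt u v).toNat = 0 := by
  unfold kp
  rw [if_neg]
  rintro ⟨hp, hN, _⟩
  apply hv
  have hm : ((dt u v).toNat : ℤ) = dt u v := by
    have := hp.pos
    omega
  have hg : ((Int.gcd v.1 v.2 : ℕ) : ℤ) ∣ ((dt u v).toNat : ℤ) := by
    rw [hm, dt]
    exact dvd_sub (Dvd.dvd.mul_left (Int.gcd_dvd_right _ _) _)
      (Dvd.dvd.mul_left (Int.gcd_dvd_left _ _) _)
  have hg' := Int.natCast_dvd_natCast.1 hg
  rcases (Nat.dvd_prime hp).1 hg' with h | h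
  · exact Int.isCoprime_iff_gcd_eq_one.2 h
  · exfalso
    have e1 : v.1 = 0 := by
      refine Int.eq_zero_of_abs_lt_dvd (m := ((dt u v).toNat : ℤ)) ?_ ?_
      · rw [← h]; exact Int.gcd_dvd_left _ _
      · exact lt_of_lt_of_le h1 (by exact_mod_cast hN)
    have e2 : v.2 = 0 := by
      refine Int.eq_zero_of_abs_lt_dvd (m := ((dt u v).toNat : ℤ)) ?_ ?_
      · rw [← h]; exact Int.gcd_dvd_right _ _
      · exact lt_of_lt_of_le h2 (by exact_mod_cast hN)
    rw [e1, e2, Int.gcd_self, Int.natAbs_zero] at h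
    exact hp.ne_zero h.symm

private theorem csqC_large (κ : ℝ) (hκ : 0 < κ) : ∃ N0 : ℕ, ∀ N ≥ N0,
    (2 : ℝ) ^ 72 ≤ (N : ℝ) ∧ 3 * Real.log N * (N : ℝ) ^ (1 / 4 : ℝ) ≤ κ * √N := by
  have h1 := (isLittleO_log_rpow_atTop (show (0 : ℝ) < 1 / 4 by norm_num)).def
    (show (0 : ℝ) < κ / 3 by positivity)
  have h2 := tendsto_natCast_atTop_atTop (R := ℝ) |>.eventually h1
  have h3 := tendsto_natCast_atTop_atTop (R := ℝ) |>.eventually_ge_atTop ((2 : ℝ) ^ 72)
  obtain ⟨N0, hN0⟩ := Filter.eventually_atTop.1 (h2.and h3)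
  refine ⟨N0, fun N hN => ⟨(hN0 N hN).2, ?_⟩⟩
  obtain ⟨h4, h5⟩ := hN0 N hN
  have hN1 : (1 : ℝ) ≤ N := le_trans (by norm_num) h5
  have hN' : (0 : ℝ) < N := by linarith
  rw [Real.norm_of_nonneg (Real.log_nonneg hN1),
    Real.norm_of_nonneg (Real.rpow_nonneg hN'.le _)] at h4
  have h6 : √(N : ℝ) = (N : ℝ) ^ (1 / 4 : ℝ) * (N : ℝ) ^ (1 / 4 : ℝ) := by
    rw [← Real.rpow_add hN', Real.sqrt_eq_rpow]
    norm_num
  rw [h6]
  have h7 : 3 * Real.log N ≤ κ * (N : ℝ) ^ (1 / 4 : ℝ) := by linarith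
  calc 3 * Real.log N * (N : ℝ) ^ (1 / 4 : ℝ)
      ≤ κ * (N : ℝ) ^ (1 / 4 : ℝ) * (N : ℝ) ^ (1 / 4 : ℝ) :=
        mul_le_mul_of_nonneg_right h7 (Real.rpow_nonneg hN'.le _)
    _ = κ * ((N : ℝ) ^ (1 / 4 : ℝ) * (N : ℝ) ^ (1 / 4 : ℝ)) := by ring

/-- the prime coefficients on a square.

Proof. If `v` is not primitive (or `0`), all terms vanish: `dt u v` is divisible by
`g = gcd(v.1, v.2)`, `1 < g < N` (or `v = 0`, `dt = 0`), so it is not a prime `≥ N`. If `v` is
primitive let `Z = ⌊N^(1/8)⌋₊` and `lam` from `sel_exists`. For `N ≥ N0`, `Z ≥ 2`, `Z < N`, and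
`|kp c N m.toNat| ≤ log N * nu lam Z m`, by `nu_prime` (also at negative `m`, where `toNat = 0` and
`kp = 0`). By `sieve_gen` with `X = H²`, `E = 2H + 1 ≤ 3H` (`sq_div`) the sum is at most
`log N (H²/log Z + 3 H Z²)`. For large `N`, `log Z ≥ (log N)/9` and
`3 log N H N^(1/4) ≤ H²` because `H ≥ κ √N`. -/
theorem kp_sq (κ : ℝ) (hκ : 0 < κ) : ∃ N0 : ℕ, ∀ N ≥ N0, ∀ c : ℕ → ℝ, (∀ p, |c p| ≤ 1) →
    ∀ v : ℤ × ℤ, |v.1| < N → |v.2| < N → ∀ (x y : ℤ) (H : ℕ), κ * √N ≤ H →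
    ∑ u ∈ sq x y H, |kp c N (dt u v).toNat| ≤ 10 * (H : ℝ) ^ 2 := by
  obtain ⟨N0, hN0⟩ := csqC_large κ hκ
  refine ⟨N0, fun N hN c hc v hv1 hv2 x y H hH => ?_⟩
  obtain ⟨hbig, hbig2⟩ := hN0 N hN
  by_cases hv : Pv v
  swap
  · rw [Finset.sum_eq_zero fun u _ => by rw [csqC_zero hv hv1 hv2 u, abs_zero]]
    positivity
  have hN1 : (1 : ℝ) < N := lt_of_lt_of_le (by norm_num) hbig
  have hNpos : (0 : ℝ) < N := by linarith
  set t : ℝ := (N : ℝ) ^ (1 / 8 : ℝ) with ht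
  have htpos : 0 < t := Real.rpow_pos_of_pos hNpos _
  have ht9 : (2 : ℝ) ^ 9 ≤ t := by
    have h1 : ((2 : ℝ) ^ 72) ^ (1 / 8 : ℝ) = 2 ^ 9 := by
      rw [← Real.rpow_natCast, ← Real.rpow_natCast, ← Real.rpow_mul (by norm_num)]
      norm_num
    rw [← h1, ht]
    exact Real.rpow_le_rpow (by positivity) hbig (by norm_num)
  have htN : t < N := by
    rw [ht]
    conv_rhs => rw [← Real.rpow_one (N : ℝ)]
    exact Real.rpow_lt_rpow_of_exponent_lt hN1 (by norm_num)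
  set Z : ℕ := ⌊t⌋₊ with hZdef
  have hZt : (Z : ℝ) ≤ t := Nat.floor_le htpos.le
  have hZt' : t < Z + 1 := Nat.lt_floor_add_one t
  have hZ2 : 2 ≤ Z := by
    have h1 : (2 : ℝ) ≤ Z := by
      have : (512 : ℝ) ≤ t := by norm_num at ht9; exact ht9
      linarith
    exact_mod_cast h1
  have hZN : Z < N := by
    have : (Z : ℝ) < N := lt_of_le_of_lt hZt htN
    exact_mod_cast this
  have hZpos : (0 : ℝ) < Z := by exact_mod_cast (by omega : 0 < Z)
  have hlogN : 0 < Real.log (N : ℝ) := Real.log_pos hN1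
  have hlogZ : Real.log N / 9 ≤ Real.log Z := by
    have h1 : t / 2 ≤ Z := by
      have : (512 : ℝ) ≤ t := by norm_num at ht9; exact ht9
      linarith
    have h2 : Real.log (t / 2) ≤ Real.log Z := Real.log_le_log (by positivity) h1
    rw [Real.log_div htpos.ne' (by norm_num), ht, Real.log_rpow hNpos] at h2
    have h3 : Real.log ((2 : ℝ) ^ 72) ≤ Real.log N := Real.log_le_log (by positivity) hbig
    rw [Real.log_pow] at h3
    push_cast at h3
    linarith
  have hHpos : (0 : ℝ) < H := lt_of_lt_of_le (mul_pos hκ (Real.sqrt_pos.2 hNpos)) hH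
  have hH1 : (1 : ℝ) ≤ H := by
    have : 0 < H := by exact_mod_cast hHpos
    exact_mod_cast this
  obtain ⟨lam, hlam⟩ := sel_exists Z hZ2
  have hsieve := sieve_gen (sq x y H) (fun u => dt u v) hlam ((H : ℝ) ^ 2) (2 * H + 1)
    (by positivity) fun D hD _ => sq_div v hv x y H D hD
  have hlogZpos : 0 < Real.log (Z : ℝ) := by linarith [hlogN]
  have h1 : ∑ u ∈ sq x y H, |kp c N (dt u v).toNat| ≤
      Real.log N * ∑ u ∈ sq x y H, nu lam Z (dt u v) := by
    rw [Finset.mul_sum]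
    exact Finset.sum_le_sum fun u _ => csqC_abs hc hlam (by omega) hZN _
  have h2 : Real.log N * ((H : ℝ) ^ 2 / Real.log Z) ≤ 9 * (H : ℝ) ^ 2 := by
    rw [← mul_div_assoc, div_le_iff₀ hlogZpos]
    have : (0 : ℝ) ≤ (H : ℝ) ^ 2 := by positivity
    nlinarith
  have hZ4 : (Z : ℝ) ^ 2 ≤ (N : ℝ) ^ (1 / 4 : ℝ) := by
    have h3 : (N : ℝ) ^ (1 / 4 : ℝ) = t ^ 2 := by
      rw [ht, ← Real.rpow_natCast, ← Real.rpow_mul hNpos.le]
      norm_num
    rw [h3]
    exact pow_le_pow_left₀ hZpos.le hZt 2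
  have h3 : Real.log N * ((Z : ℝ) ^ 2 * (2 * H + 1)) ≤ (H : ℝ) ^ 2 := by
    have h4 : (Z : ℝ) ^ 2 * (2 * H + 1) ≤ (N : ℝ) ^ (1 / 4 : ℝ) * (3 * H) := by
      gcongr
      linarith
    calc Real.log N * ((Z : ℝ) ^ 2 * (2 * H + 1))
        ≤ Real.log N * ((N : ℝ) ^ (1 / 4 : ℝ) * (3 * H)) :=
          mul_le_mul_of_nonneg_left h4 hlogN.le
      _ = (3 * Real.log N * (N : ℝ) ^ (1 / 4 : ℝ)) * H := by ring
      _ ≤ (κ * √N) * H := mul_le_mul_of_nonneg_right hbig2 hHpos.le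
      _ ≤ H * H := mul_le_mul_of_nonneg_right hH hHpos.le
      _ = (H : ℝ) ^ 2 := by ring
  calc ∑ u ∈ sq x y H, |kp c N (dt u v).toNat|
      ≤ Real.log N * ∑ u ∈ sq x y H, nu lam Z (dt u v) := h1
    _ ≤ Real.log N * ((H : ℝ) ^ 2 / Real.log Z + (Z : ℝ) ^ 2 * (2 * H + 1)) :=
        mul_le_mul_of_nonneg_left hsieve hlogN.le
    _ = Real.log N * ((H : ℝ) ^ 2 / Real.log Z) +
        Real.log N * ((Z : ℝ) ^ 2 * (2 * H + 1)) := by ring
    _ ≤ 9 * (H : ℝ) ^ 2 + (H : ℝ) ^ 2 := add_le_add h2 h3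
    _ = 10 * (H : ℝ) ^ 2 := by ring

end

end Pool.Agent.Lib.MP_0b748d_nt.HHC
end

section

set_option autoImplicit false

/-!
# The difference on squares
-/

namespace Pool.Agent.Lib.MP_0b748d_nt.HHC

noncomputable section

/-- Proof. By `km_supp`, `km_le` the sum is at most `2 W/φ(W)` times the number of `u` in the square
with `dt u v` (positive and) prime to `W`, which by `sq_cop` is at most `(H/W + 1)² W φ(W)`. For
`N ≥ N0`, `H ≥ κ √N ≥ 10 W`, `(H/W + 1)² ≤ (11/10)² H²/W²`. So the sum is at most `3 H²`. -/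
theorem km_sq (κ : ℝ) (hκ : 0 < κ) (J W : ℕ) (hJ : 1 ≤ J) (hW : 1 ≤ W) : ∃ N0 : ℕ, ∀ N ≥ N0,
    ∀ c : ℕ → ℝ, (∀ p, |c p| ≤ 1) → ∀ (v : ℤ × ℤ) (x y : ℤ) (H : ℕ), κ * √N ≤ H →
    ∑ u ∈ sq x y H, |km c N J W (dt u v).toNat| ≤ 3 * (H : ℝ) ^ 2 := by
  classical
  obtain ⟨N0, hN0⟩ := km_le J W hJ hW
  refine ⟨N0 + ⌈(10 * W / κ) ^ 2⌉₊ + 1, fun N hN c hc v x y H hH => ?_⟩
  have hW' : (0 : ℝ) < W := by exact_mod_cast hW
  have hφ : 0 < Nat.totient W := Nat.totient_pos.2 (by omega)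
  have hφ' : (0 : ℝ) < Nat.totient W := by exact_mod_cast hφ
  have hHW : 10 * (W : ℝ) ≤ H := by
    have h1 : (10 * W / κ) ^ 2 ≤ (N : ℝ) := (Nat.le_ceil _).trans (by exact_mod_cast (by omega :
      ⌈(10 * W / κ) ^ 2⌉₊ ≤ N))
    have h2 : 10 * W / κ ≤ √N := Real.le_sqrt_of_sq_le h1
    have h3 : 10 * (W : ℝ) ≤ κ * √N := by
      rw [div_le_iff₀ hκ] at h2; linarith
    linarith
  have h1 : ∀ u ∈ sq x y H, |km c N J W (dt u v).toNat| ≤
      if IsCoprime (dt u v) (W : ℤ) then 2 * (W : ℝ) / Nat.totient W else 0 := by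
    intro u _
    by_cases h : km c N J W (dt u v).toNat = 0
    · rw [h, abs_zero]
      split_ifs
      · positivity
      · exact le_refl _
    · obtain ⟨h2, -, h3⟩ := km_supp h
      have h4 : (0 : ℤ) ≤ dt u v := by
        by_contra h5
        rw [not_le] at h5
        rw [Int.toNat_of_nonpos h5.le] at h2
        omega
      have h6 : IsCoprime (dt u v) (W : ℤ) := by
        have := Nat.isCoprime_iff_coprime.2 h3
        rwa [Int.toNat_of_nonneg h4] at this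
      rw [if_pos h6]
      exact hN0 N (by omega) c hc _
  have h2 := sq_cop v W hW x y H
  calc ∑ u ∈ sq x y H, |km c N J W (dt u v).toNat|
      ≤ ∑ u ∈ sq x y H, (if IsCoprime (dt u v) (W : ℤ) then 2 * (W : ℝ) / Nat.totient W else 0) :=
        Finset.sum_le_sum h1
    _ = (((sq x y H).filter (fun u => IsCoprime (dt u v) (W : ℤ))).card : ℝ) *
          (2 * (W : ℝ) / Nat.totient W) := by
        rw [← Finset.sum_filter, Finset.sum_const, nsmul_eq_mul]
    _ ≤ (((H : ℝ) / W + 1) ^ 2 * W * Nat.totient W) * (2 * (W : ℝ) / Nat.totient W) :=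
        mul_le_mul_of_nonneg_right h2 (by positivity)
    _ = 2 * ((H : ℝ) + W) ^ 2 := by field_simp
    _ ≤ 3 * (H : ℝ) ^ 2 := by nlinarith

/-- sum of `kp_sq` and `km_sq` -/
theorem ks_sq (κ : ℝ) (hκ : 0 < κ) (J W : ℕ) (hJ : 1 ≤ J) (hW : 1 ≤ W) : ∃ N0 : ℕ, ∀ N ≥ N0,
    ∀ c : ℕ → ℝ, (∀ p, |c p| ≤ 1) → ∀ v : ℤ × ℤ, |v.1| < N → |v.2| < N → ∀ (x y : ℤ) (H : ℕ),
    κ * √N ≤ H → ∑ u ∈ sq x y H, |ks c N J W (dt u v).toNat| ≤ 13 * (H : ℝ) ^ 2 := by
  obtain ⟨N1, h1⟩ := kp_sq κ hκ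
  obtain ⟨N2, h2⟩ := km_sq κ hκ J W hJ hW
  refine ⟨max N1 N2, fun N hN c hc v hv1 hv2 x y H hH => ?_⟩
  have h3 := h1 N ((le_max_left _ _).trans hN) c hc v hv1 hv2 x y H hH
  have h4 := h2 N ((le_max_right _ _).trans hN) c hc v x y H hH
  calc ∑ u ∈ sq x y H, |ks c N J W (dt u v).toNat|
      ≤ ∑ u ∈ sq x y H, (|kp c N (dt u v).toNat| + |km c N J W (dt u v).toNat|) := by
        refine Finset.sum_le_sum fun u _ => ?_
        unfold ks
        exact abs_sub _ _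
    _ ≤ 13 * (H : ℝ) ^ 2 := by
        rw [Finset.sum_add_distrib]
        linarith

end

end Pool.Agent.Lib.MP_0b748d_nt.HHC
end

section

set_option autoImplicit false

/-!
# Boundary points, squares and the box
-/

namespace Pool.Agent.Lib.MP_0b748d_nt.HHC

noncomputable section

/-- Proof. Each of the four conditions cuts out at most `(s + 1)(L + 1)` points of the box (one
coordinate takes at most `⌊s⌋ + 1` values, the other `L + 1`). -/
theorem bd_card (L : ℕ) {s : ℝ} (hs : 0 ≤ s) : ((bd L s).card : ℝ) ≤ 4 * (s + 1) * (L + 1) := by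
  classical
  set k : ℕ := ⌊s⌋₊ with hk
  have hk1 : (k : ℝ) ≤ s := Nat.floor_le hs
  have hk2 : s < (k : ℝ) + 1 := Nat.lt_floor_add_one s
  set A : Finset ℤ := Finset.Icc (0 : ℤ) k with hA
  set B : Finset ℤ := Finset.Icc ((L : ℤ) - k) L with hB
  set E : Finset ℤ := Finset.Icc (0 : ℤ) L with hE
  have cA : A.card = k + 1 := by
    rw [hA, Int.card_Icc]; omega
  have cB : B.card = k + 1 := by
    rw [hB, Int.card_Icc]; omega
  have cE : E.card = L + 1 := by
    rw [hE, Int.card_Icc]; omega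
  have hsub : bd L s ⊆ ((A ×ˢ E) ∪ (E ×ˢ A)) ∪ ((B ×ˢ E) ∪ (E ×ˢ B)) := by
    intro w hw
    unfold bd bx at hw
    rw [Finset.mem_filter, Finset.mem_product] at hw
    obtain ⟨⟨h1, h2⟩, h3⟩ := hw
    rw [Finset.mem_Icc] at h1 h2
    rw [Finset.mem_union, Finset.mem_union, Finset.mem_union, Finset.mem_product,
      Finset.mem_product, Finset.mem_product, Finset.mem_product, hA, hB, hE, Finset.mem_Icc,
      Finset.mem_Icc, Finset.mem_Icc, Finset.mem_Icc, Finset.mem_Icc, Finset.mem_Icc]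
    rcases h3 with h | h | h | h
    · have h4 : ((w.1 : ℤ) : ℝ) < ((k + 1 : ℤ) : ℝ) := by push_cast; linarith
      have h5 : w.1 < k + 1 := by exact_mod_cast h4
      omega
    · have h4 : ((w.2 : ℤ) : ℝ) < ((k + 1 : ℤ) : ℝ) := by push_cast; linarith
      have h5 : w.2 < k + 1 := by exact_mod_cast h4
      omega
    · have h4 : (((L : ℤ) - w.1 : ℤ) : ℝ) < ((k + 1 : ℤ) : ℝ) := by push_cast; linarith
      have h5 : (L : ℤ) - w.1 < k + 1 := by exact_mod_cast h4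
      omega
    · have h4 : (((L : ℤ) - w.2 : ℤ) : ℝ) < ((k + 1 : ℤ) : ℝ) := by push_cast; linarith
      have h5 : (L : ℤ) - w.2 < k + 1 := by exact_mod_cast h4
      omega
  have hcard : (bd L s).card ≤ 4 * ((k + 1) * (L + 1)) := by
    refine (Finset.card_le_card hsub).trans ?_
    refine (Finset.card_union_le _ _).trans ?_
    have e1 := Finset.card_union_le (A ×ˢ E) (E ×ˢ A)
    have e2 := Finset.card_union_le (B ×ˢ E) (E ×ˢ B)
    rw [Finset.card_product, Finset.card_product, cA, cE] at e1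
    rw [Finset.card_product, Finset.card_product, cB, cE] at e2
    have e3 : (L + 1) * (k + 1) = (k + 1) * (L + 1) := Nat.mul_comm _ _
    rw [e3] at e1 e2
    omega
  have hcard' : ((bd L s).card : ℝ) ≤ 4 * (((k : ℝ) + 1) * (L + 1)) := by exact_mod_cast hcard
  have h6 : ((k : ℝ) + 1) * (L + 1) ≤ (s + 1) * (L + 1) :=
    mul_le_mul_of_nonneg_right (by linarith) (by positivity)
  calc ((bd L s).card : ℝ) ≤ 4 * (((k : ℝ) + 1) * (L + 1)) := hcard'
    _ ≤ 4 * ((s + 1) * (L + 1)) := by linarith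
    _ = 4 * (s + 1) * (L + 1) := by ring

/-- the box is a square of side `L + 1` -/
theorem bx_eq (L : ℕ) : bx L = sq 0 0 (L + 1) := by
  ext w
  unfold bx sq
  rw [Finset.mem_product, Finset.mem_product, Finset.mem_Icc, Finset.mem_Icc, Finset.mem_Ico,
    Finset.mem_Ico]
  push_cast
  constructor <;> intro h <;> omega

/-- the support of `ks` is in `[N, 2N)` -/
theorem ks_supp {c : ℕ → ℝ} {N J W m : ℕ} (h : ks c N J W m ≠ 0) : N ≤ m ∧ m < 2 * N := by
  by_contra hcon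
  apply h
  unfold ks kp km
  rw [if_neg fun h1 => hcon ⟨h1.2.1, h1.2.2⟩, if_neg fun h1 => hcon ⟨h1.1, h1.2.1⟩, sub_zero]

/-- Proof. `ks_sq` with `κ = 1` on the box; `√N ≤ L ≤ L + 1`, and `|w.i| ≤ L < N` because
`L² ≤ C0 N < N²`. -/
theorem ks_box (C0 : ℝ) (hC0 : 1 ≤ C0) (J W : ℕ) (hJ : 1 ≤ J) (hW : 1 ≤ W) : ∃ N0 : ℕ, ∀ N ≥ N0,
    ∀ c : ℕ → ℝ, (∀ p, |c p| ≤ 1) → ∀ L : ℕ, N ≤ L ^ 2 → (L : ℝ) ^ 2 ≤ C0 * N → ∀ w ∈ bx L,
    ∑ u ∈ bx L, |ks c N J W (dt u w).toNat| ≤ 13 * ((L : ℝ) + 1) ^ 2 := by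
  obtain ⟨N1, h1⟩ := ks_sq 1 one_pos J W hJ hW
  refine ⟨max N1 (⌈C0⌉₊ + 1), fun N hN c hc L hL1 hL2 w hw => ?_⟩
  have hN1 : N1 ≤ N := (le_max_left _ _).trans hN
  have hN2 : ⌈C0⌉₊ + 1 ≤ N := (le_max_right _ _).trans hN
  have hC : C0 < N := by
    have e1 : C0 ≤ (⌈C0⌉₊ : ℝ) := Nat.le_ceil _
    have e2 : ((⌈C0⌉₊ + 1 : ℕ) : ℝ) ≤ N := by exact_mod_cast hN2
    push_cast at e2
    linarith
  have hNpos : (0 : ℝ) < N := by linarith
  have hLN : (L : ℝ) < N := by
    have e3 : (L : ℝ) ^ 2 < (N : ℝ) ^ 2 := by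
      have e4 : C0 * (N : ℝ) < N * N := mul_lt_mul_of_pos_right hC hNpos
      nlinarith
    exact lt_of_pow_lt_pow_left₀ 2 hNpos.le e3
  have hLN' : (L : ℤ) < N := by exact_mod_cast hLN
  have hsq : (1 : ℝ) * √N ≤ ((L + 1 : ℕ) : ℝ) := by
    have e5 : √(N : ℝ) ≤ L := by
      apply Real.sqrt_le_iff.2
      exact ⟨Nat.cast_nonneg _, by exact_mod_cast hL1⟩
    push_cast
    linarith
  unfold bx at hw
  rw [Finset.mem_product, Finset.mem_Icc, Finset.mem_Icc] at hw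
  have hw1 : |w.1| < (N : ℤ) := by
    rw [abs_of_nonneg hw.1.1]; omega
  have hw2 : |w.2| < (N : ℤ) := by
    rw [abs_of_nonneg hw.2.1]; omega
  have h2 := h1 N hN1 c hc w hw1 hw2 0 0 (L + 1) hsq
  rw [← bx_eq] at h2
  push_cast at h2
  exact h2

end

end Pool.Agent.Lib.MP_0b748d_nt.HHC
end
end

section

section

set_option autoImplicit false

/-!
# The model on multiples of g
-/

namespace Pool.Agent.Lib.MP_0b748d_nt.HHC

noncomputable section

private theorem cea_blocks (W k q : ℕ) :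
    ((Finset.Ico k (k + q * W)).filter (fun x => W.Coprime x)).card ≤ q * W.totient := by
  induction q with
  | zero => simp
  | succ q ih =>
    have h : Finset.Ico k (k + (q + 1) * W) =
        Finset.Ico k (k + q * W) ∪ Finset.Ico (k + q * W) (k + q * W + W) := by
      rw [Finset.Ico_union_Ico_eq_Ico (by omega) (by omega)]
      congr 1
      ring
    rw [h, Finset.filter_union]
    refine (Finset.card_union_le _ _).trans ?_
    rw [Nat.filter_coprime_Ico_eq_totient, add_mul, one_mul]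
    omega

private theorem cea_count (N W g : ℕ) (hW : 1 ≤ W) (hg : 1 ≤ g) :
    (((Finset.Ico N (2 * N)).filter (fun m => g ∣ m ∧ Nat.Coprime m W)).card : ℝ) ≤
      (N / (g * W) + 1) * W.totient := by
  have hd1 : N ≤ (N + g - 1) / g * g := by
    have h1 := Nat.div_add_mod (N + g - 1) g
    have h2 := Nat.mod_lt (N + g - 1) (by omega : 0 < g)
    rw [mul_comm] at h1
    omega
  have hd2 : (2 * N + g - 1) / g * g ≤ 2 * N + g - 1 := Nat.div_mul_le_self _ _
  have hkk : (N + g - 1) / g ≤ (2 * N + g - 1) / g := Nat.div_le_div_right (by omega)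
  obtain ⟨X, hX⟩ : ∃ X, (2 * N + g - 1) / g = (N + g - 1) / g + X :=
    Nat.exists_eq_add_of_le hkk
  obtain ⟨k, hk⟩ : ∃ k, k = (N + g - 1) / g := ⟨_, rfl⟩
  obtain ⟨q, hq⟩ : ∃ q, q = (X + W - 1) / W := ⟨_, rfl⟩
  rw [← hk] at hX hd1 hkk
  rw [hX] at hd2
  have hq1 : q * W ≤ X + W - 1 := by rw [hq]; exact Nat.div_mul_le_self _ _
  have hq2 : X ≤ q * W := by
    have h1 := Nat.div_add_mod (X + W - 1) W
    have h2 := Nat.mod_lt (X + W - 1) (by omega : 0 < W)
    rw [mul_comm, ← hq] at h1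
    omega
  have hcard : ((Finset.Ico N (2 * N)).filter (fun m => g ∣ m ∧ Nat.Coprime m W)).card ≤
      ((Finset.Ico k (k + q * W)).filter (fun x => W.Coprime x)).card := by
    refine Finset.card_le_card_of_injOn (fun m => m / g) ?_ ?_
    · intro m hm
      simp only [Finset.coe_filter, Finset.mem_Ico, Set.mem_ofPred_eq] at hm ⊢
      obtain ⟨⟨h1, h2⟩, ⟨t, rfl⟩, h3⟩ := hm
      rw [Nat.mul_div_cancel_left _ (by omega : 0 < g)]
      refine ⟨⟨?_, ?_⟩, ?_⟩
      · rw [hk]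
        rw [Nat.div_le_iff_le_mul_add_pred (by omega)]
        omega
      · refine lt_of_lt_of_le ?_ (Nat.add_le_add_left hq2 k)
        rw [← hX]
        rw [Nat.lt_iff_add_one_le, Nat.le_div_iff_mul_le (by omega), add_mul, one_mul,
          mul_comm t g]
        omega
      · exact (Nat.Coprime.coprime_mul_left h3).symm
    · intro m hm m' hm' h
      simp only [Finset.coe_filter, Finset.mem_Ico, Set.mem_ofPred_eq] at hm hm'
      simp only at h
      obtain ⟨-, ⟨t, rfl⟩, -⟩ := hm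
      obtain ⟨-, ⟨t', rfl⟩, -⟩ := hm'
      rw [Nat.mul_div_cancel_left _ (by omega : 0 < g),
        Nat.mul_div_cancel_left _ (by omega : 0 < g)] at h
      rw [h]
  have hc2 := hcard.trans (cea_blocks W k q)
  have hWR : (0 : ℝ) < W := by exact_mod_cast hW
  have hgR : (0 : ℝ) < g := by exact_mod_cast hg
  have hXg : X * g ≤ N + g := by
    have : (k + X) * g ≤ 2 * N + g := by omega
    rw [add_mul] at this
    omega
  have hXg' : (X : ℝ) * g ≤ N + (g - 1) := by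
    have h5 : (k + X) * g + 1 ≤ 2 * N + g := by omega
    rw [add_mul] at h5
    have h6 : X * g + 1 ≤ N + g := by omega
    have h7 : ((X * g + 1 : ℕ) : ℝ) ≤ ((N + g : ℕ) : ℝ) := by exact_mod_cast h6
    push_cast at h7
    linarith
  have hqR : (q : ℝ) * W ≤ X + W - 1 := by
    have h5 : q * W + 1 ≤ X + W := by omega
    have h7 : ((q * W + 1 : ℕ) : ℝ) ≤ ((X + W : ℕ) : ℝ) := by exact_mod_cast h5
    push_cast at h7
    linarith
  have hqf : (q : ℝ) ≤ N / (g * W) + 1 := by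
    have h8 : (q : ℝ) * W * g ≤ N + W * g := by
      have h9 : (q : ℝ) * W * g ≤ (X + W - 1) * g := mul_le_mul_of_nonneg_right hqR hgR.le
      nlinarith
    have h10 : (N : ℝ) / (g * W) + 1 = (N + W * g) / (g * W) := by
      field_simp
    rw [h10, le_div_iff₀ (by positivity)]
    nlinarith
  calc (((Finset.Ico N (2 * N)).filter (fun m => g ∣ m ∧ Nat.Coprime m W)).card : ℝ)
      ≤ ((q * W.totient : ℕ) : ℝ) := by exact_mod_cast hc2
    _ = (q : ℝ) * W.totient := by push_cast; ring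
    _ ≤ (N / (g * W) + 1) * W.totient :=
        mul_le_mul_of_nonneg_right hqf (Nat.cast_nonneg _)

open Classical in
/-- Proof. By `km_le`, `km_supp` the sum is at most `2 W/φ(W)` times the number of `m ∈ [N, 2N)`,
`g ∣ m`, `m` prime to `W`. Write `m = g m'`; `m'` is prime to `W` and lies in an interval with at most
`N/g + 1` integers, which is covered by at most `N/(g W) + 1` blocks of length `W`
(`(X + W - 1)/W` blocks for `X` integers), each containing `φ(W)` numbers prime to `W`. -/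
theorem km_dvd (J W : ℕ) (hJ : 1 ≤ J) (hW : 1 ≤ W) : ∃ N0 : ℕ, ∀ N ≥ N0, ∀ c : ℕ → ℝ,
    (∀ p, |c p| ≤ 1) → ∀ g : ℕ, 1 ≤ g →
    ∑ m ∈ (Finset.Ico N (2 * N)).filter (fun m => g ∣ m), |km c N J W m| ≤
      2 * N / g + 2 * W := by
  obtain ⟨N0, h0⟩ := km_le J W hJ hW
  refine ⟨N0, fun N hN c hc g hg => ?_⟩
  have hφ : 0 < Nat.totient W := Nat.totient_pos.2 (by omega)
  have hφ' : (0 : ℝ) < Nat.totient W := by exact_mod_cast hφ
  have hWR : (0 : ℝ) < W := by exact_mod_cast hW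
  have hgR : (0 : ℝ) < g := by exact_mod_cast hg
  have h1 : ∑ m ∈ (Finset.Ico N (2 * N)).filter (fun m => g ∣ m), |km c N J W m| =
      ∑ m ∈ (Finset.Ico N (2 * N)).filter (fun m => g ∣ m ∧ Nat.Coprime m W),
        |km c N J W m| := by
    symm
    refine Finset.sum_subset ?_ ?_
    · intro m hm
      rw [Finset.mem_filter] at hm ⊢
      exact ⟨hm.1, hm.2.1⟩
    · intro m hm hm'
      by_contra h
      have hne : km c N J W m ≠ 0 := fun h2 => h (by rw [h2, abs_zero])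
      have hs := km_supp hne
      rw [Finset.mem_filter] at hm hm'
      exact hm' ⟨hm.1, hm.2, hs.2.2⟩
  rw [h1]
  calc ∑ m ∈ (Finset.Ico N (2 * N)).filter (fun m => g ∣ m ∧ Nat.Coprime m W), |km c N J W m|
      ≤ ∑ m ∈ (Finset.Ico N (2 * N)).filter (fun m => g ∣ m ∧ Nat.Coprime m W),
        (2 * (W : ℝ) / Nat.totient W) := Finset.sum_le_sum fun m _ => h0 N hN c hc m
    _ = (((Finset.Ico N (2 * N)).filter (fun m => g ∣ m ∧ Nat.Coprime m W)).card : ℝ) *
        (2 * (W : ℝ) / Nat.totient W) := by rw [Finset.sum_const, nsmul_eq_mul]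
    _ ≤ ((N / (g * W) + 1) * W.totient) * (2 * (W : ℝ) / Nat.totient W) := by
        refine mul_le_mul_of_nonneg_right ?_ (by positivity)
        exact cea_count N W g hW hg
    _ = 2 * N / g + 2 * W := by
        field_simp

end

end Pool.Agent.Lib.MP_0b748d_nt.HHC
end

section

set_option autoImplicit false

/-!
# Numbers not prime to the modulus
-/

namespace Pool.Agent.Lib.MP_0b748d_nt.HHC

noncomputable section

/-- `A log N + B ≤ √N` for large `N` -/
private theorem ceB_log (A B : ℝ) (hA : 0 < A) : ∃ N0 : ℕ, ∀ N : ℕ, N0 ≤ N →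
    A * Real.log N + B ≤ √(N : ℝ) := by
  have h1 := isLittleO_log_rpow_atTop (r := 1 / 2) (by norm_num)
  have h2 := h1.def (c := 1 / (2 * A)) (by positivity)
  have h3 : ∀ᶠ x : ℝ in Filter.atTop, 2 * B ≤ x ^ ((1 : ℝ) / 2) :=
    (tendsto_rpow_atTop (by norm_num)).eventually_ge_atTop (2 * B)
  have h4 : ∀ᶠ x : ℝ in Filter.atTop, A * Real.log x + B ≤ √x := by
    filter_upwards [h2, h3, Filter.eventually_ge_atTop (1 : ℝ)] with x h2 h3 hx
    rw [Real.norm_of_nonneg (Real.log_nonneg hx),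
      Real.norm_of_nonneg (Real.rpow_nonneg (by linarith) _)] at h2
    rw [Real.sqrt_eq_rpow]
    have h5 : A * Real.log x ≤ A * (1 / (2 * A) * x ^ ((1 : ℝ) / 2)) :=
      mul_le_mul_of_nonneg_left h2 hA.le
    have h6 : A * (1 / (2 * A) * x ^ ((1 : ℝ) / 2)) = x ^ ((1 : ℝ) / 2) / 2 := by
      field_simp
    rw [h6] at h5
    linarith
  have h5 := tendsto_natCast_atTop_atTop (R := ℝ) |>.eventually h4
  obtain ⟨N0, hN0⟩ := Filter.eventually_atTop.1 h5
  exact ⟨N0, fun N hN => hN0 N hN⟩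

/-- number of prime factors -/
private theorem ceB_card (δ : ℕ) (hδ : 1 ≤ δ) :
    (δ.primeFactors.card : ℝ) * Real.log 2 ≤ Real.log δ := by
  have h1 : 2 ^ δ.primeFactors.card ≤ ∏ l ∈ δ.primeFactors, l :=
    Finset.pow_card_le_prod _ _ _ fun l hl => (Nat.prime_of_mem_primeFactors hl).two_le
  have h2 : 2 ^ δ.primeFactors.card ≤ δ :=
    h1.trans (Nat.le_of_dvd hδ (Nat.prod_primeFactors_dvd δ))
  have h3 : ((2 : ℝ) ^ δ.primeFactors.card) ≤ (δ : ℝ) := by exact_mod_cast h2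
  rw [← Real.log_pow]
  exact Real.log_le_log (by positivity) h3

open Classical in
/-- Proof. Let `m ∈ [N, 2N)` be not prime to `δ`. If `kp c N m ≠ 0` then `m` is a prime dividing `δ`;
there is at most one such `m`, since `δ ≤ C0 N < N²`; so `∑ |kp| ≤ log N`. If `km c N J W m ≠ 0`
then `m` is prime to `W` (`km_supp`); a common prime factor `l` of `m` and `δ` does not divide `W`, so
`l > r^3` (otherwise `l ∣ (r^3)! ∣ W`). So `∑ |km| ≤ ∑_{l} ∑_{m, l ∣ m} |km m| ≤ ∑_l (2 N/l + 2 W)`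
by `km_dvd`, `l` over the prime factors `> r^3` of `δ`, of which there are at most
`log₂ δ ≤ log₂ (C0 N)`. For large `N`, `log N + 2 W log₂ (C0 N) ≤ √N`. -/
theorem e_le (C0 : ℝ) (hC0 : 1 ≤ C0) (r J W : ℕ) (hr : 1 ≤ r) (hJ : 1 ≤ J) (hW : 1 ≤ W)
    (hrW : (r ^ 3).factorial ∣ W) : ∃ N0 : ℕ, ∀ N ≥ N0, ∀ c : ℕ → ℝ, (∀ p, |c p| ≤ 1) →
    ∀ δ : ℕ, 1 ≤ δ → (δ : ℝ) ≤ C0 * N →
    ∑ m ∈ (Finset.Ico N (2 * N)).filter (fun m => ¬ Nat.Coprime m δ), |ks c N J W m| ≤
      2 * N * (∑ l ∈ δ.primeFactors.filter (fun l => r ^ 3 < l), 1 / (l : ℝ)) + √N := by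
  obtain ⟨N1, hN1⟩ := km_dvd J W hJ hW
  obtain ⟨N2, hN2⟩ := ceB_log (1 + 2 * W / Real.log 2) (2 * W / Real.log 2 * Real.log C0) (by
    have : 0 < Real.log 2 := Real.log_pos (by norm_num)
    positivity)
  refine ⟨N1 + N2 + ⌈C0⌉₊ + 1, ?_⟩
  intro N hN c hc δ hδ hδN
  have hC0N : C0 < N := by
    have h1 : C0 ≤ ⌈C0⌉₊ := Nat.le_ceil _
    have h2 : ((⌈C0⌉₊ + 1 : ℕ) : ℝ) ≤ (N : ℝ) := by exact_mod_cast (by omega : ⌈C0⌉₊ + 1 ≤ N)
    push_cast at h2
    linarith
  have hNpos : (0 : ℝ) < N := by linarith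
  have hl2 : 0 < Real.log 2 := Real.log_pos (by norm_num)
  set F := (Finset.Ico N (2 * N)).filter (fun m => ¬ Nat.Coprime m δ) with hF
  set L := δ.primeFactors.filter (fun l => r ^ 3 < l) with hL
  -- the part of the primes
  have hkp : ∑ m ∈ F, |kp c N m| ≤ Real.log N := by
    have hlogN : 0 ≤ Real.log N := Real.log_nonneg (by linarith)
    have hle : ∀ m, |kp c N m| ≤ Real.log N := by
      intro m
      unfold kp
      split_ifs
      · rw [abs_mul, abs_of_nonneg hlogN]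
        calc |c m| * Real.log N ≤ 1 * Real.log N := mul_le_mul_of_nonneg_right (hc m) hlogN
          _ = Real.log N := one_mul _
      · rw [abs_zero]
        exact hlogN
    have hcard : (F.filter (fun m => |kp c N m| ≠ 0)).card ≤ 1 := by
      rw [Finset.card_le_one]
      have hdv : ∀ m ∈ F.filter (fun m => |kp c N m| ≠ 0), m.Prime ∧ m ∣ δ ∧ N ≤ m := by
        intro m hm
        rw [Finset.mem_filter, hF, Finset.mem_filter] at hm
        obtain ⟨⟨-, hm1⟩, hm2⟩ := hm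
        have hm3 : m.Prime ∧ N ≤ m ∧ m < 2 * N := by
          by_contra h
          apply hm2
          unfold kp
          rw [if_neg h, abs_zero]
        refine ⟨hm3.1, ?_, hm3.2.1⟩
        by_contra h
        exact hm1 ((Nat.Prime.coprime_iff_not_dvd hm3.1).2 h)
      intro m hm m' hm'
      obtain ⟨a1, a2, a3⟩ := hdv m hm
      obtain ⟨b1, b2, b3⟩ := hdv m' hm'
      by_contra hne
      have h1 : m * m' ∣ δ := ((Nat.coprime_primes a1 b1).2 hne).mul_dvd_of_dvd_of_dvd a2 b2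
      have h2 : N * N ≤ δ := (Nat.mul_le_mul a3 b3).trans (Nat.le_of_dvd hδ h1)
      have h3 : (N : ℝ) * N ≤ δ := by exact_mod_cast h2
      have h4 : C0 * N < N * N := mul_lt_mul_of_pos_right hC0N hNpos
      linarith
    rw [← Finset.sum_filter_ne_zero]
    calc ∑ m ∈ F.filter (fun m => |kp c N m| ≠ 0), |kp c N m|
        ≤ (F.filter (fun m => |kp c N m| ≠ 0)).card • Real.log N :=
          Finset.sum_le_card_nsmul _ _ _ fun m _ => hle m
      _ ≤ 1 * Real.log N := by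
          rw [nsmul_eq_mul]
          exact mul_le_mul_of_nonneg_right (by exact_mod_cast hcard) hlogN
      _ = Real.log N := one_mul _
  -- the part of the model
  have hkm : ∑ m ∈ F, |km c N J W m| ≤ 2 * N * (∑ l ∈ L, 1 / (l : ℝ)) + L.card * (2 * W) := by
    have h1 : ∀ m ∈ F, |km c N J W m| ≤ ∑ l ∈ L, if l ∣ m then |km c N J W m| else 0 := by
      intro m hm
      rw [hF, Finset.mem_filter] at hm
      by_cases h0 : km c N J W m = 0
      · rw [h0, abs_zero]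
        exact Finset.sum_nonneg fun l _ => by split_ifs <;> simp
      · obtain ⟨-, -, hmW⟩ := km_supp h0
        obtain ⟨l, hl, hlm, hlδ⟩ := Nat.Prime.not_coprime_iff_dvd.1 hm.2
        have hlW : ¬ l ∣ W := by
          intro h
          have h2 := Nat.dvd_gcd hlm h
          rw [hmW] at h2
          exact hl.one_lt.ne' (Nat.dvd_one.1 h2)
        have hlL : l ∈ L := by
          rw [hL, Finset.mem_filter, Nat.mem_primeFactors]
          refine ⟨⟨hl, hlδ, by omega⟩, ?_⟩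
          by_contra h
          apply hlW
          exact (Nat.dvd_factorial hl.pos (not_lt.1 h)).trans hrW
        calc |km c N J W m| = if l ∣ m then |km c N J W m| else 0 := by rw [if_pos hlm]
          _ ≤ ∑ l ∈ L, if l ∣ m then |km c N J W m| else 0 :=
            Finset.single_le_sum (f := fun l => if l ∣ m then |km c N J W m| else 0)
              (fun l _ => by split_ifs <;> simp) hlL
    calc ∑ m ∈ F, |km c N J W m|
        ≤ ∑ m ∈ F, ∑ l ∈ L, (if l ∣ m then |km c N J W m| else 0) := Finset.sum_le_sum h1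
      _ = ∑ l ∈ L, ∑ m ∈ F, (if l ∣ m then |km c N J W m| else 0) := Finset.sum_comm
      _ ≤ ∑ l ∈ L, (2 * N / (l : ℝ) + 2 * W) := by
          refine Finset.sum_le_sum fun l hl => ?_
          rw [hL, Finset.mem_filter] at hl
          have hl1 : 1 ≤ l := (Nat.prime_of_mem_primeFactors hl.1).pos
          rw [← Finset.sum_filter]
          refine le_trans (Finset.sum_le_sum_of_subset_of_nonneg ?_ fun _ _ _ => abs_nonneg _)
            (hN1 N (by omega) c hc l hl1)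
          intro m hm
          rw [hF, Finset.mem_filter, Finset.mem_filter] at hm
          rw [Finset.mem_filter]
          exact ⟨hm.1.1, hm.2⟩
      _ = 2 * N * (∑ l ∈ L, 1 / (l : ℝ)) + L.card * (2 * W) := by
          rw [Finset.sum_add_distrib, Finset.sum_const, nsmul_eq_mul, Finset.mul_sum]
          congr 1
          refine Finset.sum_congr rfl fun l _ => ?_
          ring
  have hLc : (L.card : ℝ) * (2 * W) ≤ 2 * W / Real.log 2 * (Real.log C0 + Real.log N) := by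
    have h1 : (L.card : ℝ) ≤ δ.primeFactors.card := by
      exact_mod_cast Finset.card_filter_le _ _
    have h2 := ceB_card δ hδ
    have h3 : Real.log δ ≤ Real.log C0 + Real.log N := by
      rw [← Real.log_mul (by linarith) hNpos.ne']
      exact Real.log_le_log (by exact_mod_cast hδ) hδN
    have h4 : (L.card : ℝ) * Real.log 2 ≤ Real.log C0 + Real.log N := by nlinarith
    have h5 : (L.card : ℝ) ≤ (Real.log C0 + Real.log N) / Real.log 2 := by
      rw [le_div_iff₀ hl2]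
      exact h4
    calc (L.card : ℝ) * (2 * W) ≤ (Real.log C0 + Real.log N) / Real.log 2 * (2 * W) :=
          mul_le_mul_of_nonneg_right h5 (by positivity)
      _ = 2 * W / Real.log 2 * (Real.log C0 + Real.log N) := by ring
  have hfin := hN2 N (by omega)
  have hsum : ∑ m ∈ F, |ks c N J W m| ≤ ∑ m ∈ F, |kp c N m| + ∑ m ∈ F, |km c N J W m| := by
    rw [← Finset.sum_add_distrib]
    refine Finset.sum_le_sum fun m _ => ?_
    unfold ks
    exact abs_sub _ _
  calc ∑ m ∈ F, |ks c N J W m| ≤ ∑ m ∈ F, |kp c N m| + ∑ m ∈ F, |km c N J W m| := hsum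
    _ ≤ Real.log N + (2 * N * (∑ l ∈ L, 1 / (l : ℝ)) +
        2 * W / Real.log 2 * (Real.log C0 + Real.log N)) := by linarith
    _ = 2 * N * (∑ l ∈ L, 1 / (l : ℝ)) +
        ((1 + 2 * W / Real.log 2) * Real.log N + 2 * W / Real.log 2 * Real.log C0) := by ring
    _ ≤ 2 * N * (∑ l ∈ L, 1 / (l : ℝ)) + √N := by linarith

end

end Pool.Agent.Lib.MP_0b748d_nt.HHC
end

section

set_option autoImplicit false

/-!
# Small conductors
-/

namespace Pool.Agent.Lib.MP_0b748d_nt.HHC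

noncomputable section

/-- the tail of the series; telescoping with `1/n² ≤ 1/(n-1) - 1/n` -/
theorem tail_sq (M K : ℕ) (hM : 1 ≤ M) :
    ∑ n ∈ Finset.Ioc M K, 1 / (n : ℝ) ^ 2 ≤ 1 / (M : ℝ) := by
  rcases le_or_gt M K with h | h
  · have h1 := sum_Ioc_inv_sq_le_sub (α := ℝ) (by omega : M ≠ 0) h
    have h2 : (0 : ℝ) ≤ (K : ℝ)⁻¹ := by positivity
    simp only [one_div]
    linarith
  · rw [Finset.Ioc_eq_empty (by omega), Finset.sum_empty]
    positivity

/-- the trivial bound for a character sum -/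
private theorem cra_triv (f : ℕ → ℝ) (A : Finset ℕ) {D : ℕ} (χ : DirichletCharacter ℂ D) :
    ‖Kc f A χ‖ ≤ ∑ m ∈ A, |f m| := by
  unfold Kc
  refine (norm_sum_le _ _).trans (Finset.sum_le_sum fun m _ => ?_)
  rw [norm_mul, Complex.norm_real, Real.norm_eq_abs]
  calc |f m| * ‖χ (m : ZMod D)‖ ≤ |f m| * 1 :=
        mul_le_mul_of_nonneg_left (χ.norm_le_one _) (abs_nonneg _)
    _ = |f m| := mul_one _

/-- numbers not prime to `k` -/
private theorem cra_e (c : ℕ → ℝ) {N J W D : ℕ} (hW : 1 ≤ W) (hN : W < N) (hD : D ∣ W) (i : ℕ)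
    (χ : DirichletCharacter ℂ D) (δ : ℕ) (k : ℕ) (hk : k ∣ δ) :
    ‖Kc (ks c N J W) ((cell N J i).filter (fun m => Nat.Coprime m k)) χ‖ ≤
      ∑ m ∈ (Finset.Ico N (2 * N)).filter (fun m => ¬ Nat.Coprime m δ), |ks c N J W m| := by
  have h0 := ks_char c (J := J) hW hN hD i χ
  have h1 : Kc (ks c N J W) (cell N J i) χ =
      Kc (ks c N J W) ((cell N J i).filter (fun m => Nat.Coprime m k)) χ +
      Kc (ks c N J W) ((cell N J i).filter (fun m => ¬ Nat.Coprime m k)) χ := by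
    unfold Kc
    rw [Finset.sum_filter_add_sum_filter_not]
  rw [h0] at h1
  have h2 : Kc (ks c N J W) ((cell N J i).filter (fun m => Nat.Coprime m k)) χ =
      - Kc (ks c N J W) ((cell N J i).filter (fun m => ¬ Nat.Coprime m k)) χ :=
    eq_neg_of_add_eq_zero_left h1.symm
  rw [h2, norm_neg]
  refine (cra_triv _ _ _).trans (Finset.sum_le_sum_of_subset_of_nonneg ?_ fun _ _ _ => abs_nonneg _)
  intro m hm
  rw [Finset.mem_filter] at hm
  unfold cell at hm
  rw [Finset.mem_filter] at hm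
  rw [Finset.mem_filter]
  exact ⟨hm.1.1, fun h => hm.2 (Nat.Coprime.coprime_dvd_right hk h)⟩

/-- the trivial bound -/
private theorem cra_T (c : ℕ → ℝ) (N J W D i : ℕ) (P : ℕ → Prop) [DecidablePred P]
    (χ : DirichletCharacter ℂ D) :
    ‖Kc (ks c N J W) ((cell N J i).filter P) χ‖ ≤ ∑ m ∈ Finset.Ico N (2 * N), |ks c N J W m| := by
  refine (cra_triv _ _ _).trans (Finset.sum_le_sum_of_subset_of_nonneg ?_ fun _ _ _ => abs_nonneg _)
  intro m hm
  rw [Finset.mem_filter] at hm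
  unfold cell at hm
  rw [Finset.mem_filter] at hm
  exact hm.1.1

/-- the number of primitive characters of conductor at most `r` -/
private theorem cra_count (δ r : ℕ) (E : ℝ) (hE : 0 ≤ E)
    (F : (D : ℕ) → DirichletCharacter ℂ D → ℝ)
    (hF : ∀ D ∈ δ.divisors.filter (fun D => D ≤ r), ∀ χ ∈ PC D, F D χ ≤ E) :
    ∑ D ∈ δ.divisors.filter (fun D => D ≤ r), ∑ χ ∈ PC D, F D χ ≤ (r : ℝ) ^ 2 * E := by
  have h1 : ∀ D ∈ δ.divisors.filter (fun D => D ≤ r), ∑ χ ∈ PC D, F D χ ≤ (r : ℝ) * E := by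
    intro D hD
    have hD1 : 1 ≤ D := Nat.pos_of_mem_divisors (Finset.mem_filter.1 hD).1
    have hDr : D ≤ r := (Finset.mem_filter.1 hD).2
    calc ∑ χ ∈ PC D, F D χ ≤ (PC D).card • E := Finset.sum_le_card_nsmul _ _ _ (hF D hD)
      _ = ((PC D).card : ℝ) * E := nsmul_eq_mul _ _
      _ ≤ (r : ℝ) * E := by
        refine mul_le_mul_of_nonneg_right ?_ hE
        exact_mod_cast (PC_card hD1).trans hDr
  have h2 : (δ.divisors.filter (fun D => D ≤ r)).card ≤ r := by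
    have h3 : δ.divisors.filter (fun D => D ≤ r) ⊆ Finset.Icc 1 r := by
      intro D hD
      rw [Finset.mem_Icc]
      exact ⟨Nat.pos_of_mem_divisors (Finset.mem_filter.1 hD).1, (Finset.mem_filter.1 hD).2⟩
    have h4 := Finset.card_le_card h3
    rwa [Nat.card_Icc, Nat.add_sub_cancel] at h4
  calc ∑ D ∈ δ.divisors.filter (fun D => D ≤ r), ∑ χ ∈ PC D, F D χ
      ≤ (δ.divisors.filter (fun D => D ≤ r)).card • ((r : ℝ) * E) :=
        Finset.sum_le_card_nsmul _ _ _ h1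
    _ = ((δ.divisors.filter (fun D => D ≤ r)).card : ℝ) * ((r : ℝ) * E) := nsmul_eq_mul _ _
    _ ≤ (r : ℝ) * ((r : ℝ) * E) := by
        refine mul_le_mul_of_nonneg_right ?_ (by positivity)
        exact_mod_cast h2
    _ = (r : ℝ) ^ 2 * E := by ring

/-- the sum over the large prime factors -/
private theorem cra_primes (C1 X : ℝ) (hC1 : 0 ≤ C1) (hX : 0 ≤ X) (s : Finset ℕ) (K M : ℕ)
    (hM : 1 ≤ M) (hsK : ∀ δ ∈ s, 1 ≤ δ ∧ δ ≤ K)
    (hs : ∀ D : ℕ, 1 ≤ D → ∑ δ ∈ s.filter (fun δ => D ∣ δ), 1 / (Nat.totient δ : ℝ) ≤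
      C1 * X / Nat.totient D) :
    ∑ δ ∈ s, (1 / (Nat.totient δ : ℝ)) * ∑ l ∈ δ.primeFactors.filter (fun l => M < l),
      1 / (l : ℝ) ≤ 2 * (C1 * X) / M := by
  have h1 : ∀ δ ∈ s, (1 / (Nat.totient δ : ℝ)) * ∑ l ∈ δ.primeFactors.filter (fun l => M < l),
      1 / (l : ℝ) = ∑ l ∈ (Finset.Ioc M K).filter Nat.Prime,
        if l ∣ δ then 1 / (Nat.totient δ : ℝ) * (1 / (l : ℝ)) else 0 := by
    intro δ hδ
    obtain ⟨h1, h2⟩ := hsK δ hδ
    rw [Finset.mul_sum, ← Finset.sum_filter]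
    refine Finset.sum_congr ?_ fun _ _ => rfl
    ext l
    simp only [Finset.mem_filter, Nat.mem_primeFactors, Finset.mem_Ioc]
    constructor
    · rintro ⟨⟨ha, hb, -⟩, hc⟩
      exact ⟨⟨⟨hc, (Nat.le_of_dvd h1 hb).trans h2⟩, ha⟩, hb⟩
    · rintro ⟨⟨⟨hc, -⟩, ha⟩, hb⟩
      exact ⟨⟨ha, hb, by omega⟩, hc⟩
  rw [Finset.sum_congr rfl h1, Finset.sum_comm]
  have h2 : ∀ l ∈ (Finset.Ioc M K).filter Nat.Prime,
      (∑ δ ∈ s, if l ∣ δ then 1 / (Nat.totient δ : ℝ) * (1 / (l : ℝ)) else 0) ≤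
        2 * (C1 * X) * (1 / (l : ℝ) ^ 2) := by
    intro l hl
    rw [Finset.mem_filter] at hl
    have hl2 : (2 : ℝ) ≤ l := by exact_mod_cast hl.2.two_le
    rw [← Finset.sum_filter, ← Finset.sum_mul]
    have h3 := hs l hl.2.pos
    rw [Nat.totient_prime hl.2, Nat.cast_sub hl.2.one_lt.le, Nat.cast_one] at h3
    have h4 : C1 * X / ((l : ℝ) - 1) ≤ C1 * X * (2 / l) := by
      rw [div_eq_mul_inv]
      refine mul_le_mul_of_nonneg_left ?_ (by positivity)
      rw [inv_eq_one_div, div_le_div_iff₀ (by linarith) (by linarith)]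
      linarith
    calc (∑ δ ∈ s.filter (fun δ => l ∣ δ), 1 / (Nat.totient δ : ℝ)) * (1 / (l : ℝ))
        ≤ (C1 * X * (2 / l)) * (1 / (l : ℝ)) :=
          mul_le_mul_of_nonneg_right (h3.trans h4) (by positivity)
      _ = 2 * (C1 * X) * (1 / (l : ℝ) ^ 2) := by
          field_simp
  calc ∑ l ∈ (Finset.Ioc M K).filter Nat.Prime,
      (∑ δ ∈ s, if l ∣ δ then 1 / (Nat.totient δ : ℝ) * (1 / (l : ℝ)) else 0)
      ≤ ∑ l ∈ (Finset.Ioc M K).filter Nat.Prime, 2 * (C1 * X) * (1 / (l : ℝ) ^ 2) :=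
        Finset.sum_le_sum h2
    _ ≤ ∑ l ∈ Finset.Ioc M K, 2 * (C1 * X) * (1 / (l : ℝ) ^ 2) :=
        Finset.sum_le_sum_of_subset_of_nonneg (Finset.filter_subset _ _)
          fun _ _ _ => by positivity
    _ = 2 * (C1 * X) * ∑ l ∈ Finset.Ioc M K, 1 / (l : ℝ) ^ 2 := by rw [Finset.mul_sum]
    _ ≤ 2 * (C1 * X) * (1 / (M : ℝ)) :=
        mul_le_mul_of_nonneg_left (tail_sq M K hM) (by positivity)
    _ = 2 * (C1 * X) / M := by rw [mul_one_div]

/-- the numerical end -/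
private theorem cra_num (C2 N r : ℝ) (hC2 : 0 ≤ C2) (hr : 1 ≤ r) (hN : r ^ 6 ≤ N) :
    r ^ 2 * ((10 * N) ^ 3 * (2 * N * (2 * C2 / r ^ 3) + √N * C2)) ≤ 5000 * C2 / r * N ^ 4 := by
  have hr0 : 0 < r := by linarith
  have hN0 : 0 < N := lt_of_lt_of_le (by positivity) hN
  have h1 : r ^ 3 ≤ √N := by
    apply Real.le_sqrt_of_sq_le
    calc (r ^ 3) ^ 2 = r ^ 6 := by ring
      _ ≤ N := hN
  have h2 : r ^ 3 * √N ≤ N := by
    calc r ^ 3 * √N ≤ √N * √N := mul_le_mul_of_nonneg_right h1 (Real.sqrt_nonneg _)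
      _ = N := Real.mul_self_sqrt hN0.le
  have h3 : r ^ 2 * √N ≤ N / r := by
    rw [le_div_iff₀ hr0]
    calc r ^ 2 * √N * r = r ^ 3 * √N := by ring
      _ ≤ N := h2
  calc r ^ 2 * ((10 * N) ^ 3 * (2 * N * (2 * C2 / r ^ 3) + √N * C2))
      = 4000 * C2 / r * N ^ 4 + 1000 * N ^ 3 * C2 * (r ^ 2 * √N) := by
        field_simp
        ring
    _ ≤ 4000 * C2 / r * N ^ 4 + 1000 * N ^ 3 * C2 * (N / r) := by
        have := mul_le_mul_of_nonneg_left h3 (by positivity : 0 ≤ 1000 * N ^ 3 * C2)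
        linarith
    _ = 5000 * C2 / r * N ^ 4 := by
        field_simp
        ring

open Classical in
/-- characters of small conductor.

Proof. Let `χ` modulo `δ` have conductor `D ≤ r`, `k = δ/D`, `χ' ∈ PC D`. `D ∣ (r^3)! ∣ W`. By
`cond_sum` we have to bound `‖Kc ks (cell.filter (coprime k)) χ'‖`; by `ks_char` (`N > W`) it equals
the norm of `Kc ks (cell.filter (not coprime k)) χ'`, which is at most `e(δ)`, the sum of `e_le`. It is
also at most `10 N` (`ks_sum`). So each term of the sum over `χ'` is at most `e(δ) (10 N)³`, and there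
are at most `∑_{D ≤ r} #PC D ≤ r²` terms (`PC_card`). Hence the left side is at most
`1000 r² N³ ∑_{δ ∈ DR} e(δ)/φ δ`. By `e_le` and `sum_inv_phi` (constant `C1`; `A = η N`, `B = C0 N`;
`D = l` resp. `D = 1`):
`∑ e(δ)/φ δ ≤ 2 N ∑_{r³ < l ≤ C0 N prime} (1/l) C1 (C0/η)/(l - 1) + √N C1 C0/η
≤ 4 N C1 (C0/η)/r³ + √N C1 C0/η`, using `1/(l (l-1)) ≤ 2/l²`, `tail_sq`. So the left side is at most
`4000 C1 (C0/η) N⁴/r + 1000 r² C1 (C0/η) N^(7/2) ≤ 5000 C1 (C0/η)/r * N⁴` for large `N`. -/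
theorem R1 (C0 η : ℝ) (hC0 : 1 ≤ C0) (hη : 0 < η) (hη1 : η ≤ 1) : ∃ C : ℝ, 1 ≤ C ∧
    ∀ r J W : ℕ, 1 ≤ r → 1 ≤ J → 1 ≤ W → (r ^ 3).factorial ∣ W → ∃ N0 : ℕ, ∀ N ≥ N0,
    ∀ c : ℕ → ℝ, (∀ p, |c p| ≤ 1) → ∀ i j : ℕ,
    ∑ δ ∈ DR C0 η N, (1 / (Nat.totient δ : ℝ)) *
      ∑ χ ∈ (Finset.univ : Finset (DirichletCharacter ℂ δ)).filter (fun χ => χ.conductor ≤ r),
        ‖Kc (ks c N J W) (cell N J i) χ‖ ^ 2 * ‖Kc (ks c N J W) (cell N J j) χ‖ ^ 2 ≤
      C / r * (N : ℝ) ^ 4 := by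
  obtain ⟨C1, hC1, hphi⟩ := sum_inv_phi
  have hX : 1 ≤ C0 / η := by
    rw [le_div_iff₀ hη]
    linarith
  refine ⟨5000 * (C1 * (C0 / η)), by nlinarith, ?_⟩
  intro r J W hr hJ hW hrW
  obtain ⟨N1, hN1⟩ := e_le C0 hC0 r J W hr hJ hW hrW
  obtain ⟨N2, hN2⟩ := ks_sum
  refine ⟨N1 + N2 + W + 1 + r ^ 6, ?_⟩
  intro N hN c hc i j
  have hNW : W < N := by omega
  have hNr : ((r : ℝ)) ^ 6 ≤ N := by exact_mod_cast (by omega : r ^ 6 ≤ N)
  have hr1 : (1 : ℝ) ≤ r := by exact_mod_cast hr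
  have hNpos : (0 : ℝ) < N := by exact_mod_cast (by omega : 0 < N)
  have hDR : ∀ δ ∈ DR C0 η N, 1 ≤ δ ∧ δ ≤ ⌊C0 * N⌋₊ ∧ (δ : ℝ) ≤ C0 * N ∧ η * N ≤ (δ : ℝ) := by
    intro δ hδ
    unfold DR at hδ
    rw [Finset.mem_filter, Finset.mem_Icc] at hδ
    refine ⟨hδ.1.1, hδ.1.2, ?_, hδ.2⟩
    exact (Nat.cast_le.2 hδ.1.2).trans (Nat.floor_le (by positivity))
  have hdvd : ∀ D : ℕ, 1 ≤ D → D ≤ r → D ∣ W := by
    intro D hD hDr
    refine (Nat.dvd_factorial hD ?_).trans hrW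
    calc D ≤ r := hDr
      _ ≤ r ^ 3 := Nat.le_self_pow (by norm_num) r
  have hT := hN2 N (by omega) J W hJ hW c hc
  -- the bound for one `δ`
  have hone : ∀ δ ∈ DR C0 η N, (1 / (Nat.totient δ : ℝ)) *
      ∑ D ∈ δ.divisors.filter (fun D => D ≤ r), ∑ χ ∈ PC D,
        ‖Kc (ks c N J W) ((cell N J i).filter (fun m => Nat.Coprime m (δ / D))) χ‖ ^ 2 *
        ‖Kc (ks c N J W) ((cell N J j).filter (fun m => Nat.Coprime m (δ / D))) χ‖ ^ 2 ≤
      (1 / (Nat.totient δ : ℝ)) * ((r : ℝ) ^ 2 * ((2 * N * (∑ l ∈ δ.primeFactors.filter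
        (fun l => r ^ 3 < l), 1 / (l : ℝ)) + √N) * (10 * N) ^ 3)) := by
    intro δ hδ
    obtain ⟨hδ1, -, hδ2, -⟩ := hDR δ hδ
    refine mul_le_mul_of_nonneg_left ?_ (by positivity)
    have he := hN1 N (by omega) c hc δ hδ1 hδ2
    have hs0 : (0 : ℝ) ≤ ∑ l ∈ δ.primeFactors.filter (fun l => r ^ 3 < l), 1 / (l : ℝ) :=
      Finset.sum_nonneg fun _ _ => by positivity
    refine cra_count δ r _ (by positivity) _ ?_
    intro D hD χ _
    rw [Finset.mem_filter] at hD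
    have hD1 : 1 ≤ D := Nat.pos_of_mem_divisors hD.1
    have hDδ : D ∣ δ := Nat.dvd_of_mem_divisors hD.1
    have hx1 := (cra_e c (J := J) hW hNW (hdvd D hD1 hD.2) i χ δ (δ / D)
      (Nat.div_dvd_of_dvd hDδ)).trans he
    have hx2 := (cra_T c N J W D i (fun m => Nat.Coprime m (δ / D)) χ).trans hT
    have hy2 := (cra_T c N J W D j (fun m => Nat.Coprime m (δ / D)) χ).trans hT
    set x := ‖Kc (ks c N J W) ((cell N J i).filter (fun m => Nat.Coprime m (δ / D))) χ‖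
    set y := ‖Kc (ks c N J W) ((cell N J j).filter (fun m => Nat.Coprime m (δ / D))) χ‖
    have hx0 : 0 ≤ x := norm_nonneg _
    have hy0 : 0 ≤ y := norm_nonneg _
    calc x ^ 2 * y ^ 2 = x * (x * (y * y)) := by ring
      _ ≤ (2 * N * (∑ l ∈ δ.primeFactors.filter (fun l => r ^ 3 < l), 1 / (l : ℝ)) + √N) *
          ((10 * N) * ((10 * N) * (10 * N))) := by gcongr
      _ = _ := by ring
  have hA : ∀ D : ℕ, 1 ≤ D → ∑ δ ∈ (DR C0 η N).filter (fun δ => D ∣ δ),
      1 / (Nat.totient δ : ℝ) ≤ C1 * (C0 / η) / Nat.totient D := by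
    intro D hD
    have h1 := hphi (η * N) (C0 * N) D ((DR C0 η N).filter (fun δ => D ∣ δ)) (by positivity)
      (mul_le_mul_of_nonneg_right (by linarith) hNpos.le) hD (by
        intro δ hδ
        rw [Finset.mem_filter] at hδ
        obtain ⟨-, -, h2, h3⟩ := hDR δ hδ.1
        exact ⟨h3, h2, hδ.2⟩)
    rwa [mul_div_mul_right _ _ hNpos.ne'] at h1
  have hP := cra_primes C1 (C0 / η) (by linarith) (by linarith) (DR C0 η N) ⌊C0 * N⌋₊ (r ^ 3)
    (Nat.one_le_pow _ _ hr) (fun δ hδ => ⟨(hDR δ hδ).1, (hDR δ hδ).2.1⟩) hA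
  have hQ : ∑ δ ∈ DR C0 η N, 1 / (Nat.totient δ : ℝ) ≤ C1 * (C0 / η) := by
    have h1 := hA 1 le_rfl
    rw [Nat.totient_one, Nat.cast_one, div_one, Finset.filter_true_of_mem
      (fun δ _ => one_dvd δ)] at h1
    exact h1
  have hcs := cond_sum (ks c N J W) (cell N J i) (cell N J j) (DR C0 η N)
    (fun δ hδ => (hDR δ hδ).1) (fun D => D ≤ r)
  calc ∑ δ ∈ DR C0 η N, (1 / (Nat.totient δ : ℝ)) *
      ∑ χ ∈ (Finset.univ : Finset (DirichletCharacter ℂ δ)).filter (fun χ => χ.conductor ≤ r),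
        ‖Kc (ks c N J W) (cell N J i) χ‖ ^ 2 * ‖Kc (ks c N J W) (cell N J j) χ‖ ^ 2
      ≤ ∑ δ ∈ DR C0 η N, (1 / (Nat.totient δ : ℝ)) *
      ∑ D ∈ δ.divisors.filter (fun D => D ≤ r), ∑ χ ∈ PC D,
        ‖Kc (ks c N J W) ((cell N J i).filter (fun m => Nat.Coprime m (δ / D))) χ‖ ^ 2 *
        ‖Kc (ks c N J W) ((cell N J j).filter (fun m => Nat.Coprime m (δ / D))) χ‖ ^ 2 := by
        refine le_trans (le_of_eq ?_) (hcs.trans (le_of_eq ?_))
        · refine Finset.sum_congr rfl fun δ _ => ?_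
          congr 1
          refine Finset.sum_congr ?_ fun _ _ => rfl
          ext χ
          simp only [Finset.mem_filter]
        · refine Finset.sum_congr rfl fun δ _ => ?_
          congr 1
          refine Finset.sum_congr ?_ fun _ _ => rfl
          ext χ
          simp only [Finset.mem_filter]
    _ ≤ ∑ δ ∈ DR C0 η N, (1 / (Nat.totient δ : ℝ)) * ((r : ℝ) ^ 2 * ((2 * N *
        (∑ l ∈ δ.primeFactors.filter (fun l => r ^ 3 < l), 1 / (l : ℝ)) + √N) *
        (10 * N) ^ 3)) := Finset.sum_le_sum hone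
    _ = (r : ℝ) ^ 2 * ((10 * N) ^ 3 * (2 * N * (∑ δ ∈ DR C0 η N, (1 / (Nat.totient δ : ℝ)) *
        ∑ l ∈ δ.primeFactors.filter (fun l => r ^ 3 < l), 1 / (l : ℝ)) +
        √N * ∑ δ ∈ DR C0 η N, 1 / (Nat.totient δ : ℝ))) := by
        rw [Finset.mul_sum (DR C0 η N) _ (2 * (N : ℝ)), Finset.mul_sum (DR C0 η N) _ (√(N : ℝ)),
          ← Finset.sum_add_distrib, Finset.mul_sum, Finset.mul_sum]
        refine Finset.sum_congr rfl fun δ _ => ?_
        ring
    _ ≤ (r : ℝ) ^ 2 * ((10 * N) ^ 3 * (2 * N * (2 * (C1 * (C0 / η)) / (r : ℝ) ^ 3) +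
        √N * (C1 * (C0 / η)))) := by
        push_cast at hP
        gcongr
    _ ≤ 5000 * (C1 * (C0 / η)) / r * (N : ℝ) ^ 4 :=
        cra_num (C1 * (C0 / η)) N r (by nlinarith) hr1 hNr

end

end Pool.Agent.Lib.MP_0b748d_nt.HHC
end

section

set_option autoImplicit false

/-!
# Strips
-/

namespace Pool.Agent.Lib.MP_0b748d_nt.HHC

noncomputable section

private theorem cve_int (S : Finset ℤ) (c ρ : ℝ) (hρ : 0 ≤ ρ)
    (h : ∀ x ∈ S, |(x : ℝ) - c| ≤ ρ) : (S.card : ℝ) ≤ 2 * ρ + 1 := by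
  have h1 : S ⊆ Finset.Icc ⌈c - ρ⌉ ⌊c + ρ⌋ := by
    intro x hx
    have h2 := abs_le.1 (h x hx)
    rw [Finset.mem_Icc, Int.ceil_le, Int.le_floor]
    constructor <;> linarith
  have h2 : S.card ≤ (⌊c + ρ⌋ + 1 - ⌈c - ρ⌉).toNat := by
    rw [← Int.card_Icc]
    exact Finset.card_le_card h1
  have h3 : (S.card : ℤ) ≤ max (⌊c + ρ⌋ + 1 - ⌈c - ρ⌉) 0 := by
    rw [← Int.toNat_eq_max]
    exact_mod_cast h2
  have h4 : (S.card : ℝ) ≤ max ((⌊c + ρ⌋ : ℝ) + 1 - ⌈c - ρ⌉) 0 := by exact_mod_cast h3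
  refine h4.trans (max_le ?_ (by linarith))
  have h5 := Int.floor_le (c + ρ)
  have h6 := Int.le_ceil (c - ρ)
  linarith

private theorem cve_count (S : Finset (ℤ × ℤ)) (L : ℕ) (p q : ℤ × ℤ → ℤ)
    (hinj : ∀ u ∈ S, ∀ u' ∈ S, p u = p u' → q u = q u' → u = u')
    (hp : ∀ u ∈ S, 0 ≤ p u ∧ p u ≤ L) (c : ℤ → ℝ) (ρ : ℝ) (hρ : 0 ≤ ρ)
    (hq : ∀ u ∈ S, |(q u : ℝ) - c (p u)| ≤ ρ) : (S.card : ℝ) ≤ (L + 1) * (2 * ρ + 1) := by
  classical
  have h1 : S.card = ∑ y ∈ Finset.Icc (0 : ℤ) L, (S.filter (fun u => p u = y)).card :=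
    Finset.card_eq_sum_card_fiberwise fun u hu => by
      have := hp u (by exact_mod_cast hu)
      rw [Finset.coe_Icc]
      exact this
  have h2 : ∀ y ∈ Finset.Icc (0 : ℤ) L, ((S.filter (fun u => p u = y)).card : ℝ) ≤ 2 * ρ + 1 := by
    intro y _
    have h3 : ((S.filter (fun u => p u = y)).image q).card = (S.filter (fun u => p u = y)).card := by
      apply Finset.card_image_of_injOn
      intro u hu u' hu' he
      have h4 := Finset.mem_filter.1 (Finset.mem_coe.1 hu)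
      have h5 := Finset.mem_filter.1 (Finset.mem_coe.1 hu')
      exact hinj u h4.1 u' h5.1 (h4.2.trans h5.2.symm) he
    rw [← h3]
    refine cve_int _ (c y) ρ hρ fun x hx => ?_
    obtain ⟨u, hu, rfl⟩ := Finset.mem_image.1 hx
    have h4 := Finset.mem_filter.1 hu
    rw [← h4.2]
    exact hq u h4.1
  rw [h1]
  push_cast
  refine (Finset.sum_le_sum h2).trans (le_of_eq ?_)
  rw [Finset.sum_const, nsmul_eq_mul, Int.card_Icc]
  congr 1
  have : ((L : ℤ) + 1 - 0).toNat = L + 1 := by omega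
  rw [this]
  push_cast
  ring

open Classical in
/-- Proof. Let `M = max w.1 w.2 ≥ 1`, say `M = w.2` (the other case is symmetric). For fixed `u.2` the
condition `|u.1 w.2 - u.2 w.1 - t| ≤ s` restricts `u.1` to an interval of length `2 s/M`, which
contains at most `2 s/M + 1` integers; `u.2` takes `L + 1` values. -/
theorem strip_card {w : ℤ × ℤ} {L : ℕ} (hw : w ∈ bx L) (hw0 : w ≠ 0) (t : ℝ) {s : ℝ} (hs : 0 ≤ s) :
    (((bx L).filter (fun u => |(dt u w : ℝ) - t| ≤ s)).card : ℝ) ≤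
      (L + 1) * (2 * s / (max w.1 w.2 : ℤ) + 1) := by
  have hw' := Finset.mem_product.1 hw
  rw [Finset.mem_Icc, Finset.mem_Icc] at hw'
  obtain ⟨⟨ha0, ha1⟩, hb0, hb1⟩ := hw'
  have hbx : ∀ u ∈ (bx L).filter (fun u => |(dt u w : ℝ) - t| ≤ s),
      ((0 ≤ u.1 ∧ u.1 ≤ L) ∧ 0 ≤ u.2 ∧ u.2 ≤ L) ∧
        |(u.1 : ℝ) * w.2 - u.2 * w.1 - t| ≤ s := by
    intro u hu
    rw [Finset.mem_filter, bx, Finset.mem_product, Finset.mem_Icc, Finset.mem_Icc] at hu
    refine ⟨hu.1, ?_⟩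
    have h1 := hu.2
    unfold dt at h1
    push_cast at h1
    exact h1
  rw [mul_div_assoc]
  rcases le_total w.1 w.2 with h | h
  · rw [max_eq_right h]
    have hpos : (0 : ℝ) < w.2 := by
      have : 0 < w.2 := by
        rcases hb0.lt_or_eq with h1 | h1
        · exact h1
        · exfalso
          apply hw0
          have h2 : w.1 = 0 := le_antisymm (h.trans h1.ge) ha0
          exact Prod.ext h2 h1.symm
      exact_mod_cast this
    refine cve_count _ L Prod.snd Prod.fst (fun u _ u' _ h1 h2 => Prod.ext h2 h1)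
      (fun u hu => (hbx u hu).1.2) (fun y => ((y : ℝ) * w.1 + t) / w.2) _ (by positivity)
      fun u hu => ?_
    have h1 := (hbx u hu).2
    have h2 : (u.1 : ℝ) - ((u.2 : ℝ) * w.1 + t) / w.2 =
        ((u.1 : ℝ) * w.2 - u.2 * w.1 - t) / w.2 := by
      field_simp
      ring
    rw [h2, abs_div, abs_of_pos hpos]
    gcongr
  · rw [max_eq_left h]
    have hpos : (0 : ℝ) < w.1 := by
      have : 0 < w.1 := by
        rcases ha0.lt_or_eq with h1 | h1
        · exact h1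
        · exfalso
          apply hw0
          have h2 : w.2 = 0 := le_antisymm (h.trans h1.ge) hb0
          exact Prod.ext h1.symm h2
      exact_mod_cast this
    refine cve_count _ L Prod.fst Prod.snd (fun u _ u' _ h1 h2 => Prod.ext h1 h2)
      (fun u hu => (hbx u hu).1.1) (fun x => ((x : ℝ) * w.2 - t) / w.1) _ (by positivity)
      fun u hu => ?_
    have h1 := (hbx u hu).2
    have h2 : (u.2 : ℝ) - ((u.1 : ℝ) * w.2 - t) / w.1 =
        -(((u.1 : ℝ) * w.2 - u.2 * w.1 - t) / w.1) := by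
      field_simp
      ring
    rw [h2, abs_neg, abs_div, abs_of_pos hpos]
    gcongr

private theorem cve_cover (L H : ℕ) (hH : 1 ≤ H) (θ : ℝ) (hθ0 : 0 ≤ θ) (hθ1 : θ ≤ 1) :
    ∃ T : Finset (ℤ × ℤ), (T.card : ℝ) ≤ 4 * (((L : ℝ) + 1) / H + 1) ∧
      ∀ p q : ℤ, 0 ≤ p → p ≤ L → |(q : ℝ) - θ * p| ≤ H →
        ∃ x ∈ T, (x.1 ≤ p ∧ p < x.1 + H) ∧ x.2 ≤ q ∧ q < x.2 + H := by
  classical
  have hHr : (0 : ℝ) < H := by exact_mod_cast hH
  refine ⟨((Finset.range (L / H + 1)) ×ˢ Finset.range 4).image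
    (fun y => ((y.1 : ℤ) * H, ⌊θ * ((y.1 : ℝ) * H)⌋ - H + (y.2 : ℤ) * H)), ?_, ?_⟩
  · have h1 : (((Finset.range (L / H + 1)) ×ˢ Finset.range 4).image
        (fun y : ℕ × ℕ => ((y.1 : ℤ) * H, ⌊θ * ((y.1 : ℝ) * H)⌋ - H + (y.2 : ℤ) * H))).card ≤
        (L / H + 1) * 4 :=
      Finset.card_image_le.trans (by rw [Finset.card_product, Finset.card_range, Finset.card_range])
    have h2 : ((L / H : ℕ) : ℝ) ≤ (L : ℝ) / H := Nat.cast_div_le
    have h3 : (L : ℝ) / H ≤ ((L : ℝ) + 1) / H := by gcongr; linarith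
    calc _ ≤ (((L / H + 1) * 4 : ℕ) : ℝ) := by exact_mod_cast h1
      _ = 4 * (((L / H : ℕ) : ℝ) + 1) := by push_cast; ring
      _ ≤ _ := by linarith
  · intro p q hp0 hpL hq
    obtain ⟨p', rfl⟩ := Int.eq_ofNat_of_zero_le hp0
    have hp'L : p' ≤ L := by exact_mod_cast hpL
    set a := p' / H with ha
    have ha1 : a * H ≤ p' := Nat.div_mul_le_self p' H
    have ha2 : p' < (a + 1) * H := by
      have := Nat.lt_div_mul_add (a := p') (b := H) (by omega)
      rw [add_mul, one_mul]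
      exact this
    have haL : a ≤ L / H := Nat.div_le_div_right hp'L
    set β : ℝ := θ * ((a : ℝ) * H) with hβ
    have ha1r : (a : ℝ) * H ≤ p' := by exact_mod_cast ha1
    have ha2r : (p' : ℝ) ≤ ((a : ℝ) + 1) * H := by exact_mod_cast ha2.le
    have hq' := abs_le.1 hq
    push_cast at hq'
    have hb1 : β ≤ θ * p' := mul_le_mul_of_nonneg_left ha1r hθ0
    have hb2 : θ * p' ≤ β + H := by
      calc θ * p' ≤ θ * (((a : ℝ) + 1) * H) := mul_le_mul_of_nonneg_left ha2r hθ0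
        _ = β + θ * H := by rw [hβ]; ring
        _ ≤ β + 1 * H := add_le_add le_rfl (mul_le_mul_of_nonneg_right hθ1 hHr.le)
        _ = β + H := by ring
    have hf1 := Int.floor_le β
    have hf2 := Int.lt_floor_add_one β
    set b0 : ℤ := ⌊β⌋ - H with hb0
    have hq1 : b0 ≤ q := by
      have : (b0 : ℝ) ≤ q := by rw [hb0]; push_cast; linarith
      exact_mod_cast this
    have hq2 : q < b0 + 4 * H := by
      have h1 : (q : ℝ) < b0 + 3 * H + 1 := by rw [hb0]; push_cast; linarith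
      have h2 : q < b0 + 3 * H + 1 := by exact_mod_cast h1
      omega
    obtain ⟨d, hd⟩ := Int.eq_ofNat_of_zero_le (sub_nonneg.2 hq1)
    have hd4 : d < 4 * H := by omega
    set j := d / H with hj
    have hj4 : j < 4 := Nat.div_lt_of_lt_mul (by rw [mul_comm]; exact hd4)
    have hj1 : j * H ≤ d := Nat.div_mul_le_self d H
    have hj2 : d < (j + 1) * H := by
      have := Nat.lt_div_mul_add (a := d) (b := H) (by omega)
      rw [add_mul, one_mul]
      exact this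
    refine ⟨((a : ℤ) * H, b0 + (j : ℤ) * H), Finset.mem_image.2 ⟨(a, j), ?_, ?_⟩, ⟨?_, ?_⟩, ?_, ?_⟩
    · rw [Finset.mem_product, Finset.mem_range, Finset.mem_range]
      exact ⟨by omega, hj4⟩
    · simp only [hb0, hβ]
    · have : (a : ℤ) * H ≤ p' := by exact_mod_cast ha1
      simp only
      exact this
    · have : (p' : ℤ) < ((a : ℤ) + 1) * H := by exact_mod_cast ha2
      simp only
      linarith
    · have : (j : ℤ) * H ≤ d := by exact_mod_cast hj1
      simp only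
      linarith
    · have : (d : ℤ) < ((j : ℤ) + 1) * H := by exact_mod_cast hj2
      simp only
      linarith

/-- Proof. Let `M = max u.1 u.2 ≥ H`, say `M = u.1` (the other case is symmetric). Divide the range
`[0, L]` of `v.1` into at most `(L + 1)/H + 1` blocks `[a H, (a + 1) H)`. In a block,
`|v.2 - (u.2/u.1) v.1| ≤ s/M ≤ H`, and `(u.2/u.1) v.1` varies by at most `H`, so `v.2` lies in a real
interval of length `3 H`, which is covered by `4` half open integer intervals of length `H`. -/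
theorem strip_cover {u : ℤ × ℤ} {L H : ℕ} {s : ℝ} (hu : u ∈ bx L) (hH : 1 ≤ H)
    (h1 : (H : ℤ) ≤ max u.1 u.2) (hs : s ≤ (H : ℝ) * (max u.1 u.2 : ℤ)) :
    ∃ T : Finset (ℤ × ℤ), (T.card : ℝ) ≤ 4 * (((L : ℝ) + 1) / H + 1) ∧
      ∀ v ∈ bx L, |(dt u v : ℝ)| ≤ s → ∃ x ∈ T, v ∈ sq x.1 x.2 H := by
  classical
  have hu' := Finset.mem_product.1 hu
  rw [Finset.mem_Icc, Finset.mem_Icc] at hu'
  obtain ⟨⟨ha0, ha1⟩, hb0, hb1⟩ := hu'
  have hbx : ∀ v ∈ bx L, (0 ≤ v.1 ∧ v.1 ≤ L) ∧ 0 ≤ v.2 ∧ v.2 ≤ L := by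
    intro v hv
    rw [bx, Finset.mem_product, Finset.mem_Icc, Finset.mem_Icc] at hv
    exact hv
  have hHz : (0 : ℤ) < H := by exact_mod_cast hH
  have ha0r : (0 : ℝ) ≤ u.1 := by exact_mod_cast ha0
  have hb0r : (0 : ℝ) ≤ u.2 := by exact_mod_cast hb0
  rcases le_total u.2 u.1 with h | h
  · rw [max_eq_left h] at h1 hs
    have hpos : (0 : ℝ) < u.1 := by
      have : 0 < u.1 := hHz.trans_le h1
      exact_mod_cast this
    have hr : (u.2 : ℝ) ≤ u.1 := by exact_mod_cast h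
    obtain ⟨T, hT, hcov⟩ := cve_cover L H hH ((u.2 : ℝ) / u.1) (by positivity)
      (by rw [div_le_one hpos]; exact hr)
    refine ⟨T, hT, fun v hv hvs => ?_⟩
    have hvb := hbx v hv
    obtain ⟨x, hx, hx1, hx2⟩ := hcov v.1 v.2 hvb.1.1 hvb.1.2 (by
      have h2 : (v.2 : ℝ) - (u.2 : ℝ) / u.1 * v.1 = (dt u v : ℝ) / u.1 := by
        unfold dt
        push_cast
        field_simp
      rw [h2, abs_div, abs_of_pos hpos, div_le_iff₀ hpos]
      exact hvs.trans hs)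
    refine ⟨x, hx, ?_⟩
    rw [sq, Finset.mem_product, Finset.mem_Ico, Finset.mem_Ico]
    exact ⟨hx1, hx2⟩
  · rw [max_eq_right h] at h1 hs
    have hpos : (0 : ℝ) < u.2 := by
      have : 0 < u.2 := hHz.trans_le h1
      exact_mod_cast this
    have hr : (u.1 : ℝ) ≤ u.2 := by exact_mod_cast h
    obtain ⟨T, hT, hcov⟩ := cve_cover L H hH ((u.1 : ℝ) / u.2) (by positivity)
      (by rw [div_le_one hpos]; exact hr)
    refine ⟨T.image Prod.swap, ?_, fun v hv hvs => ?_⟩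
    · refine le_trans ?_ hT
      exact_mod_cast Finset.card_image_le
    have hvb := hbx v hv
    obtain ⟨x, hx, hx1, hx2⟩ := hcov v.2 v.1 hvb.2.1 hvb.2.2 (by
      have h2 : (v.1 : ℝ) - (u.1 : ℝ) / u.2 * v.2 = -((dt u v : ℝ) / u.2) := by
        unfold dt
        push_cast
        field_simp
        ring
      rw [h2, abs_neg, abs_div, abs_of_pos hpos, div_le_iff₀ hpos]
      exact hvs.trans hs)
    refine ⟨x.swap, Finset.mem_image_of_mem _ hx, ?_⟩
    rw [sq, Finset.mem_product, Finset.mem_Ico, Finset.mem_Ico]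
    exact ⟨hx2, hx1⟩

end

end Pool.Agent.Lib.MP_0b748d_nt.HHC
end
end
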