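import Pool.Agent.Lib.MP_0b748d_nt.HH.TreeB
import Pool.Agent.Lib.MP_0b748d_nt.HH.CmodC
import Pool.Agent.Lib.MP_0b748d_nt.MR.UnitsA
import Pool.Agent.Lib.MP_0b748d_nt.HH.CvE
import Pool.Agent.Lib.MP_0b748d_nt.MR.ElDvdA
import Pool.Agent.Lib.MP_0b748d_nt.MR.DirsA

section

set_option autoImplicit false

/-!
# Forms and bases of `ℤ[√2]`
-/

namespace Pool.Agent.Lib.MP_0b748d_nt.HH

open Zsqrtd MR

noncomputable section

private theorem frameB_cast_re (a : ℕ) (x : ℤ√2) : ((a : ℤ√2) * x).re = a * x.re := by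
  rw [Zsqrtd.re_mul, Zsqrtd.re_natCast, Zsqrtd.im_natCast]
  ring

private theorem frameB_cast_im (a : ℕ) (x : ℤ√2) : ((a : ℤ√2) * x).im = a * x.im := by
  rw [Zsqrtd.im_mul, Zsqrtd.re_natCast, Zsqrtd.im_natCast]
  ring

private theorem frameB_TP {x y : ℤ√2} (hx : TP x) (hy : TP y) (a c : ℕ) (h : 1 ≤ a ∨ 1 ≤ c) :
    TP ((a : ℤ√2) * x + (c : ℤ√2) * y) := by
  have ha : (0 : ℝ) ≤ a := Nat.cast_nonneg a
  have hc : (0 : ℝ) ≤ c := Nat.cast_nonneg c
  have key : ∀ u v : ℝ, 0 < u → 0 < v → 0 < (a : ℝ) * u + (c : ℝ) * v := by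
    intro u v hu hv
    rcases h with h | h
    · have h1 : (1 : ℝ) ≤ a := by exact_mod_cast h
      have h2 : 0 < (a : ℝ) * u := by positivity
      have h3 : 0 ≤ (c : ℝ) * v := by positivity
      linarith
    · have h1 : (1 : ℝ) ≤ c := by exact_mod_cast h
      have h2 : 0 ≤ (a : ℝ) * u := by positivity
      have h3 : 0 < (c : ℝ) * v := by positivity
      linarith
  constructor
  · have h1 : s1 ((a : ℤ√2) * x + (c : ℤ√2) * y) = (a : ℝ) * s1 x + (c : ℝ) * s1 y := by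
      simp only [s1, Zsqrtd.re_add, Zsqrtd.im_add, frameB_cast_re, frameB_cast_im]
      push_cast
      ring
    rw [h1]
    exact key _ _ hx.1 hy.1
  · have h1 : s2 ((a : ℤ√2) * x + (c : ℤ√2) * y) = (a : ℝ) * s2 x + (c : ℝ) * s2 y := by
      simp only [s2, Zsqrtd.re_add, Zsqrtd.im_add, frameB_cast_re, frameB_cast_im]
      push_cast
      ring
    rw [h1]
    exact key _ _ hx.2 hy.2

private theorem frameB_TP' {x : ℤ√2} (h1 : 0 < x.re) (h2 : 0 < nm x) : TP x :=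
  (TP_iff x).2 ⟨h1, h2⟩

/-- induction with `parent`: the roots are `fm 1 (2 + √2)` and `fm (2 + √2) (3 + 2 √2)`; if
`Q = Q'.lc`, `Q' = fm x y`, take `(x, x + y)` -/
theorem fm_surj {Q : Fm} (hQ : Q.Ok) : ∃ x y : ℤ√2, Fr x y ∧ fm x y = Q := by
  obtain ⟨s, hs⟩ : ∃ s, s = Q.d + Q.n + Q.e := ⟨_, rfl⟩
  induction s using Nat.strong_induction_on generalizing Q with
  | _ s ih =>
  rcases parent hQ with h | h | ⟨Q', hQ', h⟩ | ⟨Q', hQ', h⟩
  · subst h
    exact ⟨1, ⟨2, 1⟩, ⟨frameB_TP' (by decide) (by decide), frameB_TP' (by decide) (by decide),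
      by decide⟩, by
        unfold fm nm B
        norm_num
        rfl⟩
  · subst h
    exact ⟨⟨2, 1⟩, ⟨3, 2⟩, ⟨frameB_TP' (by decide) (by decide),
      frameB_TP' (by decide) (by decide), by decide⟩, by
        unfold fm nm B
        norm_num
        rfl⟩
  · have h0 : 0 < Q'.d := hQ'.1
    have h1 : Q'.d + Q'.n + Q'.e < s := by
      rw [hs, h]
      simp only [Fm.lc]
      omega
    obtain ⟨x, y, hxy, hf⟩ := ih _ h1 hQ' rfl
    obtain ⟨h2, h3⟩ := Fr_l hxy
    exact ⟨x, x + y, h2, by rw [h3, hf, h]⟩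
  · have h0 : 0 < Q'.e := hQ'.2.1
    have h1 : Q'.d + Q'.n + Q'.e < s := by
      rw [hs, h]
      simp only [Fm.rc]
      omega
    obtain ⟨x, y, hxy, hf⟩ := ih _ h1 hQ' rfl
    obtain ⟨h2, h3⟩ := Fr_r hxy
    exact ⟨x + y, y, h2, by rw [h3, hf, h]⟩

/-- the value of the form is the norm -/
theorem fm_val {x y : ℤ√2} (hx : TP x) (hy : TP y) (a b : ℕ) :
    (((fm x y).val a b : ℕ) : ℤ) = nm ((a : ℤ√2) * x + (b : ℤ√2) * y) := by
  have h1 : (((nm x).toNat : ℕ) : ℤ) = nm x := Int.toNat_of_nonneg hx.nm_pos.le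
  have h2 : (((nm y).toNat : ℕ) : ℤ) = nm y := Int.toNat_of_nonneg hy.nm_pos.le
  have h3 : (((B x y).toNat : ℕ) : ℤ) = B x y := Int.toNat_of_nonneg (B_pos hx hy).le
  simp only [Fm.val, fm]
  push_cast
  rw [h1, h2, h3]
  simp only [nm, B, Zsqrtd.re_add, Zsqrtd.im_add, frameB_cast_re, frameB_cast_im]
  ring

theorem fm_un {x y : ℤ√2} (k : ℤ) : fm (un k * x) (un k * y) = fm x y := by
  have h1 : nm (un k) = 1 := (un_spec k).2.1
  have h2 : B (un k * x) (un k * y) = nm (un k) * B x y := by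
    simp only [B, nm, Zsqrtd.re_mul, Zsqrtd.im_mul]
    ring
  unfold fm
  rw [nm_mul, nm_mul, h2, h1, one_mul, one_mul, one_mul]

/-- For natural matrices of positive determinant `m`: the columns are nonzero, so `cx`, `cy` are
totally positive; `det (cx, cy) = m det (x, y)`. -/
theorem Fr_act {x y : ℤ√2} (h : Fr x y) {m : ℕ} (hm : 1 ≤ m) {M : Mt} (hM : M.Dt m) :
    TP (cx M x y) ∧ TP (cy M x y) ∧ det (cx M x y) (cy M x y) = m ∧
      fm (cx M x y) (cy M x y) = (fm x y).act M := by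
  have hM' : M.a * M.d = M.b * M.c + m := hM
  have had : 1 ≤ M.a ∧ 1 ≤ M.d := by
    have h0 : M.a * M.d ≠ 0 := by omega
    rw [mul_ne_zero_iff] at h0
    omega
  have hMz : (M.a : ℤ) * M.d = M.b * M.c + m := by exact_mod_cast hM'
  have hX : TP (cx M x y) := frameB_TP h.tx h.ty _ _ (Or.inl had.1)
  have hY : TP (cy M x y) := frameB_TP h.tx h.ty _ _ (Or.inr had.2)
  have hdet : det (cx M x y) (cy M x y) = m := by
    have h1 : det (cx M x y) (cy M x y) = ((M.a : ℤ) * M.d - M.b * M.c) * det x y := by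
      simp only [det, cx, cy, Zsqrtd.re_add, Zsqrtd.im_add, frameB_cast_re, frameB_cast_im]
      ring
    rw [h1, hMz, h.dt]
    ring
  refine ⟨hX, hY, hdet, ?_⟩
  have v1 := fm_val h.tx h.ty M.a M.c
  have v2 := fm_val h.tx h.ty M.b M.d
  ext
  · change (nm (cx M x y)).toNat = (fm x y).val M.a M.c
    have h1 : (((fm x y).val M.a M.c : ℕ) : ℤ) = nm (cx M x y) := v1
    rw [← h1, Int.toNat_natCast]
  · change (B (cx M x y) (cy M x y)).toNat = (fm x y).d * (M.a * M.b) +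
      (fm x y).n * (M.a * M.d + M.b * M.c) + (fm x y).e * (M.c * M.d)
    have h1 : (((nm x).toNat : ℕ) : ℤ) = nm x := Int.toNat_of_nonneg h.tx.nm_pos.le
    have h2 : (((nm y).toNat : ℕ) : ℤ) = nm y := Int.toNat_of_nonneg h.ty.nm_pos.le
    have h3 : (((B x y).toNat : ℕ) : ℤ) = B x y := Int.toNat_of_nonneg (B_pos h.tx h.ty).le
    have h4 : (((fm x y).d * (M.a * M.b) + (fm x y).n * (M.a * M.d + M.b * M.c) +
        (fm x y).e * (M.c * M.d) : ℕ) : ℤ) = B (cx M x y) (cy M x y) := by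
      simp only [fm]
      push_cast
      rw [h1, h2, h3]
      simp only [nm, B, cx, cy, Zsqrtd.re_add, Zsqrtd.im_add, frameB_cast_re, frameB_cast_im]
      ring
    rw [← h4, Int.toNat_natCast]
  · change (nm (cy M x y)).toNat = (fm x y).val M.b M.d
    have h1 : (((fm x y).val M.b M.d : ℕ) : ℤ) = nm (cy M x y) := v2
    rw [← h1, Int.toNat_natCast]

end

end Pool.Agent.Lib.MP_0b748d_nt.HH
end

section

set_option autoImplicit false

/-!
# Forms and bases of `ℤ[√2]`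
-/

namespace Pool.Agent.Lib.MP_0b748d_nt.HH

open Zsqrtd MR

noncomputable section

/-- coordinates in a basis: `z = det z y * x + det x z * y`, the coordinates are `≥ 0` by
`th_le_iff` -/
theorem cone_coords {x y z : ℤ√2} (h : Fr x y) (hz : TP z) (h1 : th x ≤ th z) (h2 : th z ≤ th y) :
    ∃ a b : ℕ, z = (a : ℤ√2) * x + (b : ℤ√2) * y ∧ (a : ℤ) = det z y ∧ (b : ℤ) = det x z := by
  have ha : 0 ≤ det z y := (th_le_iff hz h.ty).1 h2
  have hb : 0 ≤ det x z := (th_le_iff h.tx hz).1 h1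
  obtain ⟨a, haa⟩ := Int.eq_ofNat_of_zero_le ha
  obtain ⟨b, hbb⟩ := Int.eq_ofNat_of_zero_le hb
  refine ⟨a, b, ?_, haa.symm, hbb.symm⟩
  have hd := h.dt
  have e1 : z.re = (a : ℤ) * x.re + (b : ℤ) * y.re := by
    have h3 : (a : ℤ) = det z y := haa.symm
    have h4 : (b : ℤ) = det x z := hbb.symm
    rw [h3, h4]
    simp only [det] at hd ⊢
    linear_combination (-z.re) * hd
  have e2 : z.im = (a : ℤ) * x.im + (b : ℤ) * y.im := by
    have h3 : (a : ℤ) = det z y := haa.symm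
    have h4 : (b : ℤ) = det x z := hbb.symm
    rw [h3, h4]
    simp only [det] at hd ⊢
    linear_combination (-z.im) * hd
  ext
  · simp only [re_add, re_mul, re_natCast, im_natCast]
    rw [e1]; ring
  · simp only [im_add, im_mul, re_natCast, im_natCast]
    rw [e2]; ring

/-- elements strictly inside a cone have norm at least that of the mediant -/
theorem inside_norm {x y : ℤ√2} (h : Fr x y) {z : ℤ√2} (hz : TP z) (h1 : th x < th z)
    (h2 : th z < th y) : ((fm x y).val 1 1 : ℤ) ≤ nm z := by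
  have ha : 0 < det z y := (th_lt_iff hz h.ty).1 h2
  have hb : 0 < det x z := (th_lt_iff h.tx hz).1 h1
  obtain ⟨a, b, hzz, haa, hbb⟩ := cone_coords h hz h1.le h2.le
  have ha1 : (1 : ℤ) ≤ a := by omega
  have hb1 : (1 : ℤ) ≤ b := by omega
  have hx := h.tx.nm_pos
  have hy := h.ty.nm_pos
  have hB := B_pos h.tx h.ty
  have e : nm z = (a : ℤ) ^ 2 * nm x + 2 * (a : ℤ) * b * B x y + (b : ℤ) ^ 2 * nm y := by
    rw [hzz]
    simp only [nm, B, re_add, re_mul, im_add, im_mul, re_natCast, im_natCast]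
    ring
  have e2 : ((fm x y).val 1 1 : ℤ) = nm x + 2 * B x y + nm y := by
    rw [fm_val h.tx h.ty 1 1]
    simp only [nm, B, re_add, re_mul, im_add, im_mul, re_natCast, im_natCast]
    push_cast
    ring
  rw [e, e2]
  have q1 : (1 : ℤ) ≤ (a : ℤ) ^ 2 := by nlinarith
  have q2 : (1 : ℤ) ≤ (b : ℤ) ^ 2 := by nlinarith
  have q3 : (1 : ℤ) ≤ (a : ℤ) * b := by nlinarith
  nlinarith [mul_le_mul_of_nonneg_right q1 hx.le, mul_le_mul_of_nonneg_right q2 hy.le,
    mul_le_mul_of_nonneg_right q3 hB.le]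

end

end Pool.Agent.Lib.MP_0b748d_nt.HH
end

section

set_option autoImplicit false

/-!
# Forms and bases of `ℤ[√2]`
-/

namespace Pool.Agent.Lib.MP_0b748d_nt.HH

open Zsqrtd MR

noncomputable section

private theorem frameF_inside {T : ℝ} (hT : 0 ≤ T) {x y v : ℤ√2} (h : Fr x y)
    (hc : fm x y ∈ Cl T) (hv : TP v) (hn : (nm v : ℝ) ≤ T) (h1 : th x < th v)
    (h2 : th v < th y) : False := by
  have h3 := inside_norm h hv h1 h2
  have h4 := ((mem_Cl hT).1 hc).2.2.2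
  have h5 : (((fm x y).val 1 1 : ℕ) : ℝ) ≤ (nm v : ℝ) := by exact_mod_cast h3
  linarith

private theorem frameF_norm {T : ℝ} (hT : 0 ≤ T) {x y : ℤ√2} (h : Fr x y)
    (hc : fm x y ∈ Cl T) : (nm x : ℝ) ≤ T ∧ (nm y : ℝ) ≤ T := by
  obtain ⟨-, h1, h2, -⟩ := (mem_Cl hT).1 hc
  have h3 : (((nm x).toNat : ℕ) : ℤ) = nm x := Int.toNat_of_nonneg h.tx.nm_pos.le
  have h4 : (((nm y).toNat : ℕ) : ℤ) = nm y := Int.toNat_of_nonneg h.ty.nm_pos.le
  have h5 : (((nm x).toNat : ℕ) : ℝ) = (nm x : ℝ) := by exact_mod_cast h3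
  have h6 : (((nm y).toNat : ℕ) : ℝ) = (nm y : ℝ) := by exact_mod_cast h4
  exact ⟨by rw [← h5]; exact h1, by rw [← h6]; exact h2⟩

private theorem frameF_det {v w : ℤ√2} (hv : TP v) (hw : TP w) (h : th v = th w) :
    det v w = 0 := by
  have h1 := (th_le_iff hv hw).1 h.le
  have h2 := (th_le_iff hw hv).1 h.ge
  rw [det_neg] at h2
  omega

private theorem frameF_prim {x y : ℤ√2} (h : Fr x y) : Prim x ∧ Prim y := by
  have h1 : x.re * y.im - x.im * y.re = 1 := h.dt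
  refine ⟨⟨y.im, -y.re, ?_⟩, ⟨-x.im, x.re, ?_⟩⟩
  · linear_combination h1
  · linear_combination h1

/-- Cells with overlapping interiors are equal. By `inside_norm` an element strictly inside the cone
of a cell has norm `> T`, but `x, y, x', y'` have norm `≤ T`. So `x'` and `y'` are not strictly inside
`(x, y)` and conversely; as the open intervals `(th x, th y)`, `(th x', th y')` meet (both contain
`(th z, th w)`), `th x = th x'` and `th y = th y'`; `par_eq` (both are primitive). -/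
theorem cell_unique {T : ℝ} (hT : 0 ≤ T) {x y x' y' z w : ℤ√2} (h : Fr x y) (h' : Fr x' y')
    (hc : fm x y ∈ Cl T) (hc' : fm x' y' ∈ Cl T) (hzw : th z < th w) (h1 : th x ≤ th z)
    (h2 : th w ≤ th y) (h3 : th x' ≤ th z) (h4 : th w ≤ th y') : x = x' ∧ y = y' := by
  obtain ⟨n1, n2⟩ := frameF_norm hT h hc
  obtain ⟨n1', n2'⟩ := frameF_norm hT h' hc'
  have e1 : th x = th x' := by
    apply _root_.le_antisymm
    · by_contra hcon
      push Not at hcon
      exact frameF_inside hT h' hc' h.tx n1 hcon (by linarith)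
    · by_contra hcon
      push Not at hcon
      exact frameF_inside hT h hc h'.tx n1' hcon (by linarith)
  have e2 : th y = th y' := by
    apply _root_.le_antisymm
    · by_contra hcon
      push Not at hcon
      exact frameF_inside hT h hc h'.ty n2' (by linarith) hcon
    · by_contra hcon
      push Not at hcon
      exact frameF_inside hT h' hc' h.ty n2 (by linarith) hcon
  exact ⟨par_eq h.tx h'.tx (frameF_prim h).1 (frameF_prim h').1 (frameF_det h.tx h'.tx e1),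
    par_eq h.ty h'.ty (frameF_prim h).2 (frameF_prim h').2 (frameF_det h.ty h'.ty e2)⟩

end

end Pool.Agent.Lib.MP_0b748d_nt.HH
end

section

section

set_option autoImplicit false

/-!
# The prime step
-/

namespace Pool.Agent.Lib.MP_0b748d_nt.HH

open Zsqrtd

noncomputable section

/-- multiple of a form -/
def Fm.sm (p : ℕ) (Q : Fm) : Fm := ⟨p * Q.d, p * Q.n, p * Q.e⟩

open Classical in
/-- the pairs (cell, matrix of determinant `p`) producing `p` times the form `Q` -/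
def Pst (T : ℝ) (p : ℕ) (Q : Fm) : Finset (Fm × Mt) :=
  ((Cl T) ×ˢ (Bx (p * Q.d + p * Q.e))).filter (fun q => q.2.Dt p ∧ q.1.act q.2 = Q.sm p)

private theorem primeA_val_ge {Q : Fm} (hd : 0 < Q.d) (he : 0 < Q.e) (x y : ℕ) :
    x ≤ Q.val x y ∧ y ≤ Q.val x y := by
  have hx : x ≤ x ^ 2 := Nat.le_self_pow (by norm_num) x
  have hy : y ≤ y ^ 2 := Nat.le_self_pow (by norm_num) y
  have h1 : x ^ 2 ≤ Q.d * x ^ 2 := Nat.le_mul_of_pos_left _ hd
  have h2 : y ^ 2 ≤ Q.e * y ^ 2 := Nat.le_mul_of_pos_left _ he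
  have h3 : 0 ≤ 2 * Q.n * (x * y) := Nat.zero_le _
  unfold Fm.val
  constructor <;> omega

theorem mem_Pst {T : ℝ} {p : ℕ} {Q : Fm} {q : Fm × Mt} :
    q ∈ Pst T p Q ↔ q.1 ∈ Cl T ∧ q.2.Dt p ∧ q.1.act q.2 = Q.sm p := by
  classical
  rw [Pst, Finset.mem_filter, Finset.mem_product]
  constructor
  · rintro ⟨⟨h1, _⟩, h2, h3⟩
    exact ⟨h1, h2, h3⟩
  · rintro ⟨h1, h2, h3⟩
    refine ⟨⟨h1, ?_⟩, h2, h3⟩
    have hok : q.1.Ok := (Finset.mem_filter.1 (Finset.mem_filter.1 h1).1).2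
    obtain ⟨hd, he, _⟩ := hok
    have e1 : q.1.val q.2.a q.2.c = p * Q.d := congrArg Fm.d h3
    have e2 : q.1.val q.2.b q.2.d = p * Q.e := congrArg Fm.e h3
    have f1 := primeA_val_ge hd he q.2.a q.2.c
    have f2 := primeA_val_ge hd he q.2.b q.2.d
    rw [e1] at f1
    rw [e2] at f2
    rw [mem_Bx]
    refine ⟨by omega, by omega, by omega, by omega⟩

/-- `disc_act`: `p² n'² = p² d' e' + 2 p²` -/
theorem zr_form {Q : Fm} (hQ : Q.Ok) {p : ℕ} (hp : p.Prime) {M : Mt} (hM : M.Dt p)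
    (hz : zr (res p Q) M) : ∃ Q' : Fm, Q'.Ok ∧ Q.act M = Q'.sm p := by
  obtain ⟨⟨d', hd'⟩, ⟨n', hn'⟩, ⟨e', he'⟩⟩ := (zr_res Q M).1 hz
  have hdisc := disc_act hQ hM
  have hp0 : 0 < p := hp.pos
  obtain ⟨hd, he, _⟩ := hQ
  have hM' : M.a * M.d = M.b * M.c + p := hM
  have ha : 0 < M.a := by
    rcases Nat.eq_zero_or_pos M.a with h | h
    · rw [h, zero_mul] at hM'; omega
    · exact h
  have hdd : 0 < M.d := by
    rcases Nat.eq_zero_or_pos M.d with h | h
    · rw [h, mul_zero] at hM'; omega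
    · exact h
  have f1 := (primeA_val_ge hd he M.a M.c).1
  have f2 := (primeA_val_ge hd he M.b M.d).2
  have g1 : 0 < p * d' := by
    rw [← hd']
    show 0 < Q.val M.a M.c
    omega
  have g2 : 0 < p * e' := by
    rw [← he']
    show 0 < Q.val M.b M.d
    omega
  refine ⟨⟨d', n', e'⟩, ⟨Nat.pos_of_mul_pos_left g1, Nat.pos_of_mul_pos_left g2, ?_⟩, ?_⟩
  · show n' ^ 2 = d' * e' + 2
    rw [hd', hn', he'] at hdisc
    have h1 : p ^ 2 * n' ^ 2 = p ^ 2 * (d' * e' + 2) := by nlinarith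
    exact Nat.eq_of_mul_eq_mul_left (by positivity) h1
  · ext
    · exact hd'
    · exact hn'
    · exact he'

end

end Pool.Agent.Lib.MP_0b748d_nt.HH
end

section

set_option autoImplicit false

/-!
# Forms and bases of `ℤ[√2]`
-/

namespace Pool.Agent.Lib.MP_0b748d_nt.HH

open Zsqrtd MR

noncomputable section

private theorem frameC_toNat {a b : ℤ} (ha : 0 < a) (hb : 0 < b) (h : a.toNat = b.toNat) :
    a = b := by
  have h1 := Int.toNat_of_nonneg ha.le
  have h2 := Int.toNat_of_nonneg hb.le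
  rw [← h1, ← h2, h]

private theorem frameC_cast_re (a : ℤ) (x : ℤ√2) : ((a : ℤ√2) * x).re = a * x.re := by
  rw [Zsqrtd.re_mul, Zsqrtd.re_intCast, Zsqrtd.im_intCast]
  ring

private theorem frameC_cast_im (a : ℤ) (x : ℤ√2) : ((a : ℤ√2) * x).im = a * x.im := by
  rw [Zsqrtd.im_mul, Zsqrtd.re_intCast, Zsqrtd.im_intCast]
  ring

private theorem frameC_cross {x y X Y : ℤ√2} {m : ℤ} (hY : nm Y ≠ 0)
    (h2 : B X Y = m * B x y) (h3 : nm Y = m * nm y) (h4 : det X Y = m) (h5 : det x y = 1) :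
    X * y = Y * x := by
  have e1 : Y.re * X.re - 2 * (Y.im * X.im) = m * (y.re * x.re - 2 * (y.im * x.im)) := by
    simp only [B] at h2
    linear_combination h2
  have e2 : Y.re * X.im - Y.im * X.re = m * (y.re * x.im - y.im * x.re) := by
    simp only [det] at h4 h5
    linear_combination -h4 + m * h5
  have hre : nm Y * ((X * y).re - (Y * x).re) = 0 := by
    simp only [nm, Zsqrtd.re_mul, Zsqrtd.im_mul] at h3 ⊢
    linear_combination (Y.re * y.re + 2 * (Y.im * y.im)) * e1 +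
      2 * (Y.re * y.im + Y.im * y.re) * e2 - (Y.re * x.re + 2 * (Y.im * x.im)) * h3
  have him : nm Y * ((X * y).im - (Y * x).im) = 0 := by
    simp only [nm, Zsqrtd.re_mul, Zsqrtd.im_mul] at h3 ⊢
    linear_combination (Y.re * y.im + Y.im * y.re) * e1 +
      (Y.re * y.re + 2 * (Y.im * y.im)) * e2 - (Y.re * x.im + Y.im * x.re) * h3
  ext
  · rcases mul_eq_zero.1 hre with h | h
    · exact absurd h hY
    · exact sub_eq_zero.1 h
  · rcases mul_eq_zero.1 him with h | h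
    · exact absurd h hY
    · exact sub_eq_zero.1 h

/-- Two pairs with proportional forms. Proof: `X * star Y = m * (x * star y)` (real part `B`, irrational
part `± det`). Multiply by `y`, respectively use `Y * star Y = nm Y = m nm y`, and cancel `star Y ≠ 0`:
`X * y = Y * x`. As `det x y = 1`, `1 = α x + β y` with the integers `α = det 1 y`, `β = det x 1`. Put
`ρ = α X + β Y`; then `ρ x = α X x + β Y x = α X x + β X y = X` and `ρ y = Y` in the same way. -/
theorem rho_exists {x y : ℤ√2} (h : Fr x y) {m : ℕ} (hm : 1 ≤ m) {X Y : ℤ√2} (hX : TP X) (hY : TP Y)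
    (h1 : nm X = m * nm x) (h2 : B X Y = m * B x y) (h3 : nm Y = m * nm y) (h4 : det X Y = m) :
    ∃ ρ : ℤ√2, TP ρ ∧ nm ρ = m ∧ X = ρ * x ∧ Y = ρ * y := by
  have hXY : X * y = Y * x := frameC_cross hY.nm_pos.ne' h2 h3 h4 h.dt
  have hone : ((y.im : ℤ) : ℤ√2) * x + ((-x.im : ℤ) : ℤ√2) * y = 1 := by
    have h5 := h.dt
    simp only [det] at h5
    ext
    · rw [Zsqrtd.re_add, frameC_cast_re, frameC_cast_re, Zsqrtd.re_one]
      linear_combination h5
    · rw [Zsqrtd.im_add, frameC_cast_im, frameC_cast_im, Zsqrtd.im_one]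
      ring
  obtain ⟨α, hα⟩ : ∃ α : ℤ√2, α = ((y.im : ℤ) : ℤ√2) := ⟨_, rfl⟩
  obtain ⟨β, hβ⟩ : ∃ β : ℤ√2, β = ((-x.im : ℤ) : ℤ√2) := ⟨_, rfl⟩
  rw [← hα, ← hβ] at hone
  have hx : (α * X + β * Y) * x = X := by
    linear_combination X * hone - β * hXY
  have hy : (α * X + β * Y) * y = Y := by
    linear_combination Y * hone + α * hXY
  generalize α * X + β * Y = ρ at hx hy
  refine ⟨ρ, ⟨?_, ?_⟩, ?_, hx.symm, hy.symm⟩
  · have h6 : s1 ρ * s1 x = s1 X := by rw [← s1_mul, hx]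
    have h7 : 0 < s1 ρ * s1 x := by rw [h6]; exact hX.1
    exact (pos_iff_pos_of_mul_pos h7).2 h.tx.1
  · have h6 : s2 ρ * s2 x = s2 X := by rw [← s2_mul, hx]
    have h7 : 0 < s2 ρ * s2 x := by rw [h6]; exact hX.2
    exact (pos_iff_pos_of_mul_pos h7).2 h.tx.2
  · have h6 : nm ρ * nm x = m * nm x := by rw [← nm_mul, hx, h1]
    exact mul_right_cancel₀ h.tx.nm_pos.ne' h6

/-- `rho_exists` with `m = 1` and `eq_un` -/
theorem fm_inj {x y x' y' : ℤ√2} (h : Fr x y) (h' : Fr x' y') (he : fm x y = fm x' y') :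
    ∃ k : ℤ, x' = un k * x ∧ y' = un k * y := by
  have e1 : nm x = nm x' :=
    frameC_toNat h.tx.nm_pos h'.tx.nm_pos (congrArg Fm.d he)
  have e2 : B x y = B x' y' :=
    frameC_toNat (B_pos h.tx h.ty) (B_pos h'.tx h'.ty) (congrArg Fm.n he)
  have e3 : nm y = nm y' :=
    frameC_toNat h.ty.nm_pos h'.ty.nm_pos (congrArg Fm.e he)
  obtain ⟨ρ, h1, h2, h3, h4⟩ := rho_exists h (le_refl 1) h'.tx h'.ty
    (by rw [← e1, Nat.cast_one, one_mul]) (by rw [← e2, Nat.cast_one, one_mul])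
    (by rw [← e3, Nat.cast_one, one_mul]) (by rw [h'.dt, Nat.cast_one])
  rw [Nat.cast_one] at h2
  obtain ⟨k, rfl⟩ := eq_un h1 h2
  exact ⟨k, h3, h4⟩

end

end Pool.Agent.Lib.MP_0b748d_nt.HH
end

section

set_option autoImplicit false

/-!
# The prime step
-/

namespace Pool.Agent.Lib.MP_0b748d_nt.HH

open Zsqrtd MR

noncomputable section

private theorem primeB_un {p : ℕ} (hp : Sp p) (s : Bool) {ρ : ℤ√2} (hρ : TP ρ) (hn : nm ρ = p)
    (h : el p s ∣ ρ) : ∃ k : ℤ, ρ = un k * el p s := by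
  obtain ⟨u, rfl⟩ := h
  obtain ⟨h1, h2⟩ := el_spec hp s
  have hpz : (p : ℤ) ≠ 0 := by exact_mod_cast hp.1.ne_zero
  have hu : nm u = 1 := by
    rw [nm_mul, h2] at hn
    exact mul_left_cancel₀ hpz (hn.trans (mul_one _).symm)
  have hTP : TP u := by
    obtain ⟨h3, h4⟩ := hρ
    rw [s1_mul] at h3
    rw [s2_mul] at h4
    exact ⟨(pos_iff_pos_of_mul_pos h3).1 h1.1.1, (pos_iff_pos_of_mul_pos h4).1 h1.1.2⟩
  obtain ⟨k, hk⟩ := eq_un hTP hu
  exact ⟨k, by rw [hk, mul_comm]⟩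

/-- Let `(x0, y0)` be a basis of the cell and `(x, y)` a basis of `Q`. By `Fr_act` the pair
`(cx M x0 y0, cy M x0 y0)` has form `p Q` and determinant `p`; `rho_exists` gives `ρ` with
`nm ρ = p`, and `dvd_nm_iff` shows `ρ = un k * el p s`. -/
theorem Pst_el {T : ℝ} (hT : 0 ≤ T) {p : ℕ} (hp : Sp p) {x y x0 y0 : ℤ√2} (h : Fr x y)
    (h0 : Fr x0 y0) {M : Mt} (hM : M.Dt p) (hq : (fm x0 y0).act M = (fm x y).sm p) :
    ∃ (s : Bool) (k : ℤ), cx M x0 y0 = un k * (el p s * x) ∧ cy M x0 y0 = un k * (el p s * y) := by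
  obtain ⟨h1, h2, h3, h4⟩ := Fr_act h0 hp.1.one_le hM
  rw [hq] at h4
  have key : ∀ u v : ℤ, 0 < u → 0 < v → u.toNat = p * v.toNat → u = p * v := by
    intro u v hu hv huv
    have h5 : ((u.toNat : ℕ) : ℤ) = ((p * v.toNat : ℕ) : ℤ) := by rw [huv]
    rw [Nat.cast_mul, Int.toNat_of_nonneg hu.le, Int.toNat_of_nonneg hv.le] at h5
    exact h5
  have e1 : nm (cx M x0 y0) = p * nm x :=
    key _ _ h1.nm_pos h.tx.nm_pos (congrArg Fm.d h4)
  have e2 : B (cx M x0 y0) (cy M x0 y0) = p * B x y :=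
    key _ _ (B_pos h1 h2) (B_pos h.tx h.ty) (congrArg Fm.n h4)
  have e3 : nm (cy M x0 y0) = p * nm y :=
    key _ _ h2.nm_pos h.ty.nm_pos (congrArg Fm.e h4)
  obtain ⟨ρ, hρ, hn, hx, hy⟩ := rho_exists h hp.1.one_le h1 h2 e1 e2 e3 h3
  have hd : (p : ℤ) ∣ nm ρ := by rw [hn]
  rcases (dvd_nm_iff hp ρ).1 hd with h5 | h5
  · obtain ⟨k, hk⟩ := primeB_un hp true hρ hn h5
    exact ⟨true, k, by rw [hx, hk, mul_assoc], by rw [hy, hk, mul_assoc]⟩
  · obtain ⟨k, hk⟩ := primeB_un hp false hρ hn h5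
    exact ⟨false, k, by rw [hx, hk, mul_assoc], by rw [hy, hk, mul_assoc]⟩

end

end Pool.Agent.Lib.MP_0b748d_nt.HH
end
end

section

section

set_option autoImplicit false

/-!
# Forms and bases of `ℤ[√2]`
-/

namespace Pool.Agent.Lib.MP_0b748d_nt.HH

open Zsqrtd

noncomputable section

/-- a basis inside the cone of a different basis has a larger value -/
private theorem nest {x y x' y' : ℤ√2} (h : Fr x y) (h' : Fr x' y') (hne : (x, y) ≠ (x', y'))
    (h1 : th x ≤ th x') (h2 : th y' ≤ th y) : B x y + min (nm x) (nm y) ≤ B x' y' := by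
  have hd := h.dt
  have hd' := h'.dt
  have hlt : th x' < th y' := (th_lt_iff h'.tx h'.ty).2 (by rw [hd']; norm_num)
  have hc0 : 0 ≤ det x x' := (th_le_iff h.tx h'.tx).1 h1
  have hb0 : 0 ≤ det y' y := (th_le_iff h'.ty h.ty).1 h2
  have ha0 : 0 < det x' y := (th_lt_iff h'.tx h.ty).1 (hlt.trans_le h2)
  have hd0 : 0 < det x y' := (th_lt_iff h.tx h'.ty).1 (h1.trans_lt hlt)
  obtain ⟨a, ha⟩ : ∃ a, a = det x' y := ⟨_, rfl⟩
  obtain ⟨c, hc⟩ : ∃ c, c = det x x' := ⟨_, rfl⟩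
  obtain ⟨b, hb⟩ : ∃ b, b = det y' y := ⟨_, rfl⟩
  obtain ⟨d, hdd⟩ : ∃ d, d = det x y' := ⟨_, rfl⟩
  rw [← hc] at hc0
  rw [← hb] at hb0
  rw [← ha] at ha0
  rw [← hdd] at hd0
  have e1 : x'.re = a * x.re + c * y.re := by
    rw [ha, hc]
    simp only [det] at hd ⊢
    linear_combination (-x'.re) * hd
  have e2 : x'.im = a * x.im + c * y.im := by
    rw [ha, hc]
    simp only [det] at hd ⊢
    linear_combination (-x'.im) * hd
  have e3 : y'.re = b * x.re + d * y.re := by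
    rw [hb, hdd]
    simp only [det] at hd ⊢
    linear_combination (-y'.re) * hd
  have e4 : y'.im = b * x.im + d * y.im := by
    rw [hb, hdd]
    simp only [det] at hd ⊢
    linear_combination (-y'.im) * hd
  have e5 : a * d - b * c = 1 := by
    have e6 : det x' y' = (a * d - b * c) * det x y := by
      simp only [det]
      rw [e1, e2, e3, e4]
      ring
    rw [hd, hd'] at e6
    linarith
  have e7 : B x' y' = a * b * nm x + (a * d + b * c) * B x y + c * d * nm y := by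
    simp only [B, nm]
    rw [e1, e2, e3, e4]
    ring
  have hB := B_pos h.tx h.ty
  have hnx := h.tx.nm_pos
  have hny := h.ty.nm_pos
  have hbc : 0 ≤ b * c := mul_nonneg hb0 hc0
  have h3 : B x y ≤ (a * d + b * c) * B x y := by nlinarith
  have hmx := min_le_left (nm x) (nm y)
  have hmy := min_le_right (nm x) (nm y)
  have hab : 0 ≤ a * b := mul_nonneg ha0.le hb0
  have hcd : 0 ≤ c * d := mul_nonneg hc0 hd0.le
  rcases lt_or_ge 0 b with hb1 | hb1
  · have h4 : 1 ≤ a * b := mul_pos ha0 hb1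
    rw [e7]
    nlinarith [mul_nonneg hcd hny.le]
  · have hb2 : b = 0 := le_antisymm hb1 hb0
    rcases lt_or_ge 0 c with hc1 | hc1
    · have h4 : 1 ≤ c * d := mul_pos hc1 hd0
      rw [e7]
      nlinarith [mul_nonneg hab hnx.le]
    · have hc2 : c = 0 := le_antisymm hc1 hc0
      exfalso
      rw [hb2, zero_mul, sub_zero] at e5
      have ha1 : a = 1 := by
        rcases Int.mul_eq_one_iff_eq_one_or_neg_one.1 e5 with h5 | h5
        · exact h5.1
        · omega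
      have hd1 : d = 1 := by
        rw [ha1, one_mul] at e5
        exact e5
      apply hne
      rw [ha1, hc2, one_mul, zero_mul, add_zero] at e1 e2
      rw [hb2, hd1, one_mul, zero_mul, zero_add] at e3 e4
      rw [Prod.mk.injEq]
      exact ⟨Zsqrtd.ext e1.symm e2.symm, Zsqrtd.ext e3.symm e4.symm⟩

/-- the cones of two bases do not cross -/
private theorem nocross {x y x' y' : ℤ√2} (h : Fr x y) (h' : Fr x' y') (h1 : th x < th x')
    (h2 : th y < th y') (h3 : th x' < th y) : False := by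
  have a1 : 0 < det x x' := (th_lt_iff h.tx h'.tx).1 h1
  have a2 : 0 < det y y' := (th_lt_iff h.ty h'.ty).1 h2
  have a3 : 0 < det x' y := (th_lt_iff h'.tx h.ty).1 h3
  have a4 : 0 < det x y' := (th_lt_iff h.tx h'.ty).1 ((h1.trans h3).trans h2)
  have e : det x y * det x' y' = det x x' * det y y' + det x y' * det x' y := by
    simp only [det]
    ring
  rw [h.dt, h'.dt] at e
  nlinarith

/-- Nested bases. If the open cones of two bases both contain `z` then one cone contains the other,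
and if the bases are different the `B`-value of the inner one exceeds that of the outer one by at
least the minimum of the norms of the outer basis. Proof. Let first `th x < th x'`. Then `x'` is inside `(x, y)`:
`x' = a x + b y`, `a, b ≥ 1` (`th x' < th z < th y`). If `th y < th y'` then `y` is strictly inside
`(x', y')`, `y = u x' + v y'`, `u, v ≥ 1`, and `1 = det x y = u det x x' + v det x y' ≥ 2`,
contradiction; so `th y' ≤ th y`. By symmetry (exchange the two bases) it remains the case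
`th x = th x'`, `x = x'`, and then `y' = y + k x`, nested. So let `(x', y')` be inside `(x, y)`,
different: `x' = a x + c y`, `y' = b x + d y` with natural `a, b, c, d`, `a d - b c = 1`, not the unit
matrix; `B x' y' = a b nm x + (a d + b c) B x y + c d nm y ≥ B x y + min (nm x) (nm y)`, since
`a d + b c ≥ 1` and `a b ≥ 1` or `c d ≥ 1`. -/
theorem nested_gap {x y x' y' z : ℤ√2} (h : Fr x y) (h' : Fr x' y') (hne : (x, y) ≠ (x', y'))
    (h1 : th x < th z) (h2 : th z < th y) (h3 : th x' < th z) (h4 : th z < th y') :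
    B x y + min (nm x) (nm y) ≤ B x' y' ∨ B x' y' + min (nm x') (nm y') ≤ B x y := by
  have h5 : th x' < th y := h3.trans h2
  have h6 : th x < th y' := h1.trans h4
  rcases le_or_gt (th x) (th x') with hx | hx
  · rcases le_or_gt (th y') (th y) with hy | hy
    · exact Or.inl (nest h h' hne hx hy)
    · rcases hx.lt_or_eq with hx' | hx'
      · exact absurd (nocross h h' hx' hy h5) id
      · exact Or.inr (nest h' h (fun e => hne e.symm) hx'.ge hy.le)
  · rcases le_or_gt (th y) (th y') with hy | hy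
    · exact Or.inr (nest h' h (fun e => hne e.symm) hx.le hy)
    · exact absurd (nocross h' h hx hy h6) id

end

end Pool.Agent.Lib.MP_0b748d_nt.HH
end

section

set_option autoImplicit false

/-!
# Forms and bases of `ℤ[√2]`
-/

namespace Pool.Agent.Lib.MP_0b748d_nt.HH

open Zsqrtd

noncomputable section

private theorem le_of_sq_le_sq_aux {u v : ℝ} (h : u ^ 2 ≤ v ^ 2) (hv : 0 ≤ v) : u ≤ v :=
  abs_le_of_sq_le_sq' h hv |>.2

open Classical in
/-- The number of forms `Q` with `a X ≤ d, e ≤ b X` having a basis whose open cone contains a given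
direction: by `nested_gap` their values `n = B x y ∈ [0, b X + 2]` are `a X`-separated. -/
theorem chain_card (a b : ℝ) (ha : 0 < a) (hab : a ≤ b) : ∃ K : ℝ, 1 ≤ K ∧ ∀ (X : ℝ), 1 ≤ X →
    ∀ z : ℤ√2, TP z → (((Qs (b * X)).filter (fun Q => a * X ≤ Q.d ∧ a * X ≤ Q.e ∧
      ∃ x y : ℤ√2, Fr x y ∧ fm x y = Q ∧ th x < th z ∧ th z < th y)).card : ℝ) ≤ K := by
  have hb : 0 < b := ha.trans_le hab
  refine ⟨(b + 2) / a + 1, by have : 0 ≤ (b + 2) / a := by positivity
                              linarith, fun X hX z _ => ?_⟩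
  have hX0 : 0 < X := by linarith
  have haX : 0 < a * X := mul_pos ha hX0
  have hbX : 0 ≤ b * X := by positivity
  obtain ⟨S, hS⟩ : ∃ S, S = (Qs (b * X)).filter (fun Q => a * X ≤ Q.d ∧ a * X ≤ Q.e ∧
      ∃ x y : ℤ√2, Fr x y ∧ fm x y = Q ∧ th x < th z ∧ th z < th y) := ⟨_, rfl⟩
  rw [← hS]
  have hcard : S.card ≤ (Finset.range (⌊(b + 2) / a⌋₊ + 1)).card := by
    apply Finset.card_le_card_of_injOn (fun Q : Fm => ⌊(Q.n : ℝ) / (a * X)⌋₊)
    · intro Q hQ
      rw [hS, Finset.mem_coe, Finset.mem_filter, mem_Qs hbX] at hQ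
      obtain ⟨⟨⟨_, _, hn⟩, hdY, heY⟩, _⟩ := hQ
      rw [Finset.mem_coe, Finset.mem_range, Nat.lt_add_one_iff]
      apply Nat.floor_le_floor
      have hn2 : (Q.n : ℝ) ≤ b * X + 2 := by
        have h1 : (Q.n : ℝ) ^ 2 = Q.d * Q.e + 2 := by exact_mod_cast hn
        have hd0 : (0 : ℝ) ≤ Q.d := Nat.cast_nonneg _
        have he0 : (0 : ℝ) ≤ Q.e := Nat.cast_nonneg _
        apply le_of_sq_le_sq_aux
        · nlinarith [mul_le_mul hdY heY he0 hbX]
        · linarith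
      rw [div_le_div_iff₀ haX ha]
      nlinarith
    · intro Q hQ Q' hQ' hfl
      rw [hS, Finset.mem_coe, Finset.mem_filter] at hQ hQ'
      obtain ⟨_, hd, he, x, y, hf, hfm, hz1, hz2⟩ := hQ
      obtain ⟨_, hd', he', x', y', hf', hfm', hz1', hz2'⟩ := hQ'
      by_contra hne
      have hne' : (x, y) ≠ (x', y') := by
        intro e
        rw [Prod.mk.injEq] at e
        apply hne
        rw [← hfm, ← hfm', e.1, e.2]
      have key : ∀ {u v : ℤ√2} {R : Fm}, Fr u v → fm u v = R → a * X ≤ R.d → a * X ≤ R.e →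
          ((B u v : ℤ) : ℝ) = R.n ∧ a * X ≤ ((min (nm u) (nm v) : ℤ) : ℝ) := by
        rintro u v R hr rfl k1 k2
        have b1 : ((fm u v).n : ℤ) = B u v := Int.toNat_of_nonneg (B_pos hr.tx hr.ty).le
        have b2 : ((fm u v).d : ℤ) = nm u := Int.toNat_of_nonneg hr.tx.nm_pos.le
        have b3 : ((fm u v).e : ℤ) = nm v := Int.toNat_of_nonneg hr.ty.nm_pos.le
        refine ⟨?_, ?_⟩
        · rw [← b1]
          rfl
        · rw [← b2, ← b3]
          push_cast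
          exact le_min k1 k2
      obtain ⟨c1, c2⟩ := key hf hfm hd he
      obtain ⟨c3, c4⟩ := key hf' hfm' hd' he'
      have hgap : a * X ≤ |(Q.n : ℝ) - Q'.n| := by
        rcases nested_gap hf hf' hne' hz1 hz2 hz1' hz2' with h1 | h1
        · have h2 : ((B x y + min (nm x) (nm y) : ℤ) : ℝ) ≤ (B x' y' : ℤ) := by exact_mod_cast h1
          rw [Int.cast_add] at h2
          rw [abs_sub_comm]
          exact le_trans (by linarith) (le_abs_self _)
        · have h2 : ((B x' y' + min (nm x') (nm y') : ℤ) : ℝ) ≤ (B x y : ℤ) := by exact_mod_cast h1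
          rw [Int.cast_add] at h2
          exact le_trans (by linarith) (le_abs_self _)
      have hfl' : ⌊(Q.n : ℝ) / (a * X)⌋₊ = ⌊(Q'.n : ℝ) / (a * X)⌋₊ := hfl
      have g1 := Nat.floor_le (div_nonneg (Nat.cast_nonneg Q.n) haX.le)
      have g2 := Nat.lt_floor_add_one ((Q.n : ℝ) / (a * X))
      have g3 := Nat.floor_le (div_nonneg (Nat.cast_nonneg Q'.n) haX.le)
      have g4 := Nat.lt_floor_add_one ((Q'.n : ℝ) / (a * X))
      rw [hfl'] at g1 g2
      have g5 : |(Q.n : ℝ) / (a * X) - Q'.n / (a * X)| < 1 := by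
        rw [abs_lt]
        constructor <;> linarith
      rw [← sub_div, abs_div, abs_of_pos haX, div_lt_one haX] at g5
      linarith
  rw [Finset.card_range] at hcard
  calc (S.card : ℝ) ≤ ((⌊(b + 2) / a⌋₊ + 1 : ℕ) : ℝ) := by exact_mod_cast hcard
    _ ≤ (b + 2) / a + 1 := by
      push_cast
      have := Nat.floor_le (by positivity : 0 ≤ (b + 2) / a)
      linarith

end

end Pool.Agent.Lib.MP_0b748d_nt.HH
end

section

set_option autoImplicit false

/-!
# Forms and bases of `ℤ[√2]`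
-/

namespace Pool.Agent.Lib.MP_0b748d_nt.HH

open Zsqrtd MR

noncomputable section

open Classical in
/-- the primitive totally positive elements modulo units with norm at most `T` -/
def Zt (T : ℝ) : Finset (ℤ√2) := (AA T).filter (fun z => Prim z ∧ 0 ≤ al z ∧ al z < 1)

theorem mem_Zt {T : ℝ} {z : ℤ√2} : z ∈ Zt T ↔ TP z ∧ (nm z : ℝ) ≤ T ∧ Prim z ∧ 0 ≤ al z ∧ al z < 1 := by
  classical
  rw [Zt, Finset.mem_filter, mem_AA]
  constructor
  · rintro ⟨⟨h1, h2, _⟩, h4, h5, h6⟩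
    exact ⟨h1, h2, h4, h5, h6⟩
  · rintro ⟨h1, h2, h4, h5, h6⟩
    refine ⟨⟨h1, h2, ?_⟩, h4, h5, h6⟩
    obtain ⟨hu1, hu2⟩ := th_uu_bounds
    have hpos : 0 < th uu := by linarith
    have h7 : th z = al z * th uu := by
      unfold al
      field_simp
    rw [h7, abs_of_nonneg (mul_nonneg h5 hpos.le)]
    nlinarith

/-- `AA_card` -/
theorem Zt_card : ∃ C : ℝ, 1 ≤ C ∧ ∀ T : ℝ, 0 ≤ T → ((Zt T).card : ℝ) ≤ C * T := by
  classical
  obtain ⟨C, hC1, hC⟩ := AA_card
  refine ⟨C, hC1, fun T hT => le_trans ?_ (hC T hT)⟩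
  exact_mod_cast Finset.card_filter_le _ _

end

end Pool.Agent.Lib.MP_0b748d_nt.HH
end

section

set_option autoImplicit false

/-!
# Forms and bases of `ℤ[√2]`
-/

namespace Pool.Agent.Lib.MP_0b748d_nt.HH

open Zsqrtd MR

noncomputable section

private theorem frameE_cone {T : ℝ} (hT : 0 ≤ T) {x0 y0 z : ℤ√2} (h : Fr x0 y0)
    (hQ : fm x0 y0 ∈ Qs T) (hz : TP z) (h1 : th x0 ≤ th z) (h2 : th z ≤ th y0) :
    ∃ x y : ℤ√2, Fr x y ∧ fm x y ∈ Cl T ∧ th x ≤ th z ∧ th z ≤ th y := by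
  obtain ⟨a, b, hab, -, -⟩ := cone_coords h hz h1 h2
  obtain ⟨M, hM, x', y', hx', hy'⟩ := cover hT hQ a b
  obtain ⟨hM1, hM2⟩ := (mem_Dn hT ((mem_Qs hT).1 hQ).1).1 hM
  obtain ⟨hcx, hcy, hdt, hfm⟩ := Fr_act h le_rfl hM1
  have hdt1 : det (cx M x0 y0) (cy M x0 y0) = 1 := by
    rw [hdt]
    norm_num
  have hzc : z = (x' : ℤ√2) * cx M x0 y0 + (y' : ℤ√2) * cy M x0 y0 := by
    rw [hab, hx', hy', cx, cy]
    push_cast
    ring
  refine ⟨cx M x0 y0, cy M x0 y0, ⟨hcx, hcy, hdt1⟩, ?_, ?_, ?_⟩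
  · rw [hfm]
    exact hM2
  · rw [th_le_iff hcx hz]
    have h3 : det (cx M x0 y0) z = y' * det (cx M x0 y0) (cy M x0 y0) := by
      rw [hzc]
      simp only [det, re_add, im_add, re_mul, im_mul, re_natCast, im_natCast]
      ring
    rw [h3, hdt1, mul_one]
    exact Int.natCast_nonneg _
  · rw [th_le_iff hz hcy]
    have h3 : det z (cy M x0 y0) = x' * det (cx M x0 y0) (cy M x0 y0) := by
      rw [hzc]
      simp only [det, re_add, im_add, re_mul, im_mul, re_natCast, im_natCast]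
      ring
    rw [h3, hdt1, mul_one]
    exact Int.natCast_nonneg _

/-- Every direction lies in a cell. Multiply `z` by a unit such that its angle lies in
`[0, th uu]`; then it lies in the cone of `(1, 2 + √2)` or of `(2 + √2, 3 + 2 √2)`, whose forms
belong to `Qs T` (`T ≥ 2`). Coordinates of `z` (`cone_coords`), the covering lemma `cover` and
`Fr_act` give a basis `(cx M, cy M)` whose form is in `Cl T` and whose closed cone contains `z`.
Multiply back by the unit. -/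
theorem cell_at {T : ℝ} (hT : 2 ≤ T) {z : ℤ√2} (hz : TP z) :
    ∃ x y : ℤ√2, Fr x y ∧ fm x y ∈ Cl T ∧ th x ≤ th z ∧ th z ≤ th y := by
  have hT0 : 0 ≤ T := by linarith
  have hpos := th_uu_pos
  set n : ℤ := ⌊al z⌋ with hn
  have hz0 : TP (un (-n) * z) := (TP_un (-n)).2 hz
  have hal : al (un (-n) * z) = al z - n := by
    rw [al_un hz]
    push_cast
    ring
  have h0 : 0 ≤ al (un (-n) * z) := by
    rw [hal]
    linarith [Int.floor_le (al z)]
  have h1 : al (un (-n) * z) ≤ 1 := by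
    rw [hal]
    linarith [Int.lt_floor_add_one (al z)]
  have h0' : 0 ≤ th (un (-n) * z) := by
    rw [al, le_div_iff₀ hpos, zero_mul] at h0
    exact h0
  have h1' : th (un (-n) * z) ≤ th uu := by
    rw [al, div_le_iff₀ hpos, one_mul] at h1
    exact h1
  have hTP1 : TP (1 : ℤ√2) := by
    rw [TP_iff]
    simp [nm]
  have hTP2 : TP (⟨2, 1⟩ : ℤ√2) := by
    rw [TP_iff]
    simp [nm]
  have hth1 : th (1 : ℤ√2) = 0 := by
    simp [th, s1, s2]
  have hF1 : Fr 1 ⟨2, 1⟩ := ⟨hTP1, hTP2, by simp [det]⟩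
  have hF2 : Fr ⟨2, 1⟩ uu := ⟨hTP2, TP_uu, by simp [det, uu]⟩
  have hQ1 : fm 1 ⟨2, 1⟩ ∈ Qs T := by
    rw [mem_Qs hT0]
    refine ⟨fm_Ok hF1, ?_, ?_⟩
    · have : (fm 1 ⟨2, 1⟩).d = 1 := by simp [fm, nm]
      rw [this]
      push_cast
      linarith
    · have : (fm 1 ⟨2, 1⟩).e = 2 := by simp [fm, nm]
      rw [this]
      push_cast
      linarith
  have hQ2 : fm ⟨2, 1⟩ uu ∈ Qs T := by
    rw [mem_Qs hT0]
    refine ⟨fm_Ok hF2, ?_, ?_⟩
    · have : (fm ⟨2, 1⟩ uu).d = 2 := by simp [fm, nm]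
      rw [this]
      push_cast
      linarith
    · have : (fm ⟨2, 1⟩ uu).e = 1 := by simp [fm, nm, uu]
      rw [this]
      push_cast
      linarith
  have key : ∃ x y : ℤ√2, Fr x y ∧ fm x y ∈ Cl T ∧ th x ≤ th (un (-n) * z) ∧
      th (un (-n) * z) ≤ th y := by
    rcases le_total (th (un (-n) * z)) (th ⟨2, 1⟩) with h | h
    · exact frameE_cone hT0 hF1 hQ1 hz0 (by rw [hth1]; exact h0') h
    · exact frameE_cone hT0 hF2 hQ2 hz0 h h1'
  obtain ⟨x, y, hF, hC, h3, h4⟩ := key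
  obtain ⟨hu1, hu2, -⟩ := un_spec n
  have hz' : un n * (un (-n) * z) = z := by
    rw [← mul_assoc, ← un_add, add_neg_cancel, un_zero, one_mul]
  refine ⟨un n * x, un n * y, ⟨hu1.mul hF.tx, hu1.mul hF.ty, ?_⟩, ?_, ?_, ?_⟩
  · have h5 : det (un n * x) (un n * y) = nm (un n) * det x y := by
      simp only [det, nm, re_mul, im_mul]
      ring
    rw [h5, hu2, hF.dt, one_mul]
  · rw [fm_un]
    exact hC
  · rw [← hz', th_mul hu1 hF.tx, th_mul hu1 hz0]
    linarith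
  · conv_lhs => rw [← hz']
    rw [th_mul hu1 hF.ty, th_mul hu1 hz0]
    linarith

end

end Pool.Agent.Lib.MP_0b748d_nt.HH
end

section

set_option autoImplicit false

/-!
# The prime step
-/

namespace Pool.Agent.Lib.MP_0b748d_nt.HH

open Zsqrtd MR

noncomputable section

private theorem primeC_det {x0 y0 : ℤ√2} {M : Mt} (h0 : Fr x0 y0) :
    det x0 (cx M x0 y0) = M.c ∧ det (cx M x0 y0) y0 = M.a ∧
      det x0 (cy M x0 y0) = M.d ∧ det (cy M x0 y0) y0 = M.b := by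
  have h : x0.re * y0.im - x0.im * y0.re = 1 := h0.dt
  simp only [det, cx, cy, re_add, im_add, re_mul, im_mul, re_natCast, im_natCast]
  refine ⟨?_, ?_, ?_, ?_⟩
  · linear_combination (M.c : ℤ) * h
  · linear_combination (M.a : ℤ) * h
  · linear_combination (M.d : ℤ) * h
  · linear_combination (M.b : ℤ) * h

private theorem primeC_ex {T : ℝ} (hT : 0 ≤ T) {p : ℕ} (hp : Sp p) {x y : ℤ√2} (h : Fr x y)
    {q : Fm × Mt} (hq : q ∈ Pst T p (fm x y)) : ∃ (s : Bool) (x0 y0 : ℤ√2), Fr x0 y0 ∧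
      fm x0 y0 = q.1 ∧ cx q.2 x0 y0 = el p s * x ∧ cy q.2 x0 y0 = el p s * y := by
  obtain ⟨h1, h2, h3⟩ := mem_Pst.1 hq
  obtain ⟨x1, y1, h4, h5⟩ := fm_surj ((mem_Cl hT).1 h1).1
  rw [← h5] at h3
  obtain ⟨s, k, h6, h7⟩ := Pst_el hT hp h h4 h2 h3
  obtain ⟨hu1, hu2, -⟩ := un_spec (-k)
  have hz : ∀ z : ℤ√2, un (-k) * (un k * z) = z := by
    intro z
    rw [← mul_assoc, ← un_add, neg_add_cancel, un_zero, one_mul]
  refine ⟨s, un (-k) * x1, un (-k) * y1, ⟨hu1.mul h4.tx, hu1.mul h4.ty, ?_⟩, ?_, ?_, ?_⟩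
  · rw [det_mul_left, hu2, h4.dt, one_mul]
  · rw [fm_un, h5]
  · have h8 : cx q.2 (un (-k) * x1) (un (-k) * y1) = un (-k) * cx q.2 x1 y1 := by
      simp only [cx]
      ring
    rw [h8, h6, hz]
  · have h8 : cy q.2 (un (-k) * x1) (un (-k) * y1) = un (-k) * cy q.2 x1 y1 := by
      simp only [cy]
      ring
    rw [h8, h7, hz]

/-- At most one element of `Pst` for each `s`: if two pairs `((x0, y0), M)`, `((x1, y1), M')` have the
same `s`, then after multiplying `(x1, y1)` by a unit both cells contain the directions of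
`el p s * x` and `el p s * y` (`th (el p s * x) < th (el p s * y)`), so they are equal by
`cell_unique`, and `M = M'` (coordinates in a basis are unique). -/
theorem Pst_card_le {T : ℝ} (hT : 0 ≤ T) {p : ℕ} (hp : Sp p) {Q : Fm} (hQ : Q.Ok) :
    (Pst T p Q).card ≤ 2 := by
  classical
  obtain ⟨x, y, h, rfl⟩ := fm_surj hQ
  have hex : ∀ q : Fm × Mt, ∃ s : Bool, q ∈ Pst T p (fm x y) → ∃ x0 y0 : ℤ√2, Fr x0 y0 ∧
      fm x0 y0 = q.1 ∧ cx q.2 x0 y0 = el p s * x ∧ cy q.2 x0 y0 = el p s * y := by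
    intro q
    by_cases hq : q ∈ Pst T p (fm x y)
    · obtain ⟨s, hs⟩ := primeC_ex hT hp h hq
      exact ⟨s, fun _ => hs⟩
    · exact ⟨true, fun h => absurd h hq⟩
  choose s hs using hex
  have hcard : (Finset.univ : Finset Bool).card = 2 := rfl
  rw [← hcard]
  refine Finset.card_le_card_of_injOn s (fun _ _ => Finset.mem_coe.2 (Finset.mem_univ _)) ?_
  intro q hq q' hq' hss
  obtain ⟨x0, y0, hF, hf, hx, hy⟩ := hs q (Finset.mem_coe.1 hq)
  obtain ⟨x1, y1, hF', hf', hx', hy'⟩ := hs q' (Finset.mem_coe.1 hq')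
  have hss' : s q' = s q := hss.symm
  rw [hss'] at hx' hy'
  have hE := el_spec hp (s q)
  have hz : TP (el p (s q) * x) := hE.1.1.mul h.tx
  have hw : TP (el p (s q) * y) := hE.1.1.mul h.ty
  have hc : fm x0 y0 ∈ Cl T := by
    rw [hf]
    exact (mem_Pst.1 (Finset.mem_coe.1 hq)).1
  have hc' : fm x1 y1 ∈ Cl T := by
    rw [hf']
    exact (mem_Pst.1 (Finset.mem_coe.1 hq')).1
  obtain ⟨d1, d2, d3, d4⟩ := primeC_det (M := q.2) hF
  obtain ⟨e1, e2, e3, e4⟩ := primeC_det (M := q'.2) hF'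
  rw [hx] at d1 d2
  rw [hy] at d3 d4
  rw [hx'] at e1 e2
  rw [hy'] at e3 e4
  have hzw : th (el p (s q) * x) < th (el p (s q) * y) := by
    rw [th_lt_iff hz hw, det_mul_left, hE.2, h.dt, mul_one]
    exact_mod_cast hp.1.pos
  obtain ⟨r1, r2⟩ := cell_unique hT hF hF' hc hc' hzw
    ((th_le_iff hF.tx hz).2 (by rw [d1]; exact Int.natCast_nonneg _))
    ((th_le_iff hw hF.ty).2 (by rw [d4]; exact Int.natCast_nonneg _))
    ((th_le_iff hF'.tx hz).2 (by rw [e1]; exact Int.natCast_nonneg _))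
    ((th_le_iff hw hF'.ty).2 (by rw [e4]; exact Int.natCast_nonneg _))
  subst r1 r2
  refine Prod.ext (hf.symm.trans hf') (Mt.ext ?_ ?_ ?_ ?_)
  · exact_mod_cast d2.symm.trans e2
  · exact_mod_cast d4.symm.trans e4
  · exact_mod_cast d1.symm.trans e1
  · exact_mod_cast d3.symm.trans e3

end

end Pool.Agent.Lib.MP_0b748d_nt.HH
end

section

set_option autoImplicit false

/-!
# The prime step
-/

namespace Pool.Agent.Lib.MP_0b748d_nt.HH

open Zsqrtd MR

noncomputable section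

/-- lost forms: some element of norm at most `T` lies strictly between `el p s * x` and
`el p s * y` -/
def Lost (T : ℝ) (p : ℕ) (Q : Fm) : Prop := ∃ (s : Bool) (x y z : ℤ√2), Fr x y ∧ fm x y = Q ∧ TP z ∧
  Prim z ∧ (nm z : ℝ) ≤ T ∧ th (el p s * x) < th z ∧ th z < th (el p s * y)

private theorem primeD_norm {T : ℝ} (hT : 0 ≤ T) {x y : ℤ√2} (h : Fr x y)
    (hc : fm x y ∈ Cl T) : (nm x : ℝ) ≤ T ∧ (nm y : ℝ) ≤ T := by
  obtain ⟨-, h1, h2, -⟩ := (mem_Cl hT).1 hc
  have h3 : (((nm x).toNat : ℕ) : ℤ) = nm x := Int.toNat_of_nonneg h.tx.nm_pos.le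
  have h4 : (((nm y).toNat : ℕ) : ℤ) = nm y := Int.toNat_of_nonneg h.ty.nm_pos.le
  have h5 : (((nm x).toNat : ℕ) : ℝ) = (nm x : ℝ) := by exact_mod_cast h3
  have h6 : (((nm y).toNat : ℕ) : ℝ) = (nm y : ℝ) := by exact_mod_cast h4
  exact ⟨by rw [← h5]; exact h1, by rw [← h6]; exact h2⟩

private theorem primeD_prim {x y : ℤ√2} (h : Fr x y) : Prim x ∧ Prim y := by
  have h1 : x.re * y.im - x.im * y.re = 1 := h.dt
  refine ⟨⟨y.im, -y.re, ?_⟩, ⟨-x.im, x.re, ?_⟩⟩
  · linear_combination h1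
  · linear_combination h1

private theorem primeD_cancel {x u v : ℤ√2} (hx : TP x) (h : u * x = v * x) : u = v := by
  have hn := hx.nm_pos
  have h1 : u * x * star x = v * x * star x := by rw [h]
  have h2 := congrArg Zsqrtd.re h1
  have h3 := congrArg Zsqrtd.im h1
  simp only [re_mul, im_mul, re_star, im_star] at h2 h3
  simp only [nm] at hn
  refine Zsqrtd.ext ?_ ?_
  · apply mul_right_cancel₀ hn.ne'
    linear_combination h2
  · apply mul_right_cancel₀ hn.ne'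
    linear_combination h3

private theorem primeD_ex {T : ℝ} (hT : 2 ≤ T) {p : ℕ} (hp : Sp p) {x y : ℤ√2} (h : Fr x y)
    (hl : ¬ Lost T p (fm x y)) (s : Bool) : ∃ q ∈ Pst T p (fm x y), ∃ x0 y0 : ℤ√2, Fr x0 y0 ∧
      fm x0 y0 = q.1 ∧ cx q.2 x0 y0 = el p s * x ∧ cy q.2 x0 y0 = el p s * y := by
  have hT0 : 0 ≤ T := by linarith
  obtain ⟨hE1, hE2⟩ := el_spec hp s
  have hppos : (0 : ℤ) < p := by exact_mod_cast hp.1.pos
  have hx : TP (el p s * x) := hE1.1.mul h.tx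
  have hy : TP (el p s * y) := hE1.1.mul h.ty
  have hz : TP (el p s * (x + y)) := hE1.1.mul (h.tx.add h.ty)
  have hdt : x.re * y.im - x.im * y.re = 1 := h.dt
  have h1 : th (el p s * x) < th (el p s * (x + y)) := by
    rw [th_lt_iff hx hz, det_mul_left, hE2]
    have : det x (x + y) = 1 := by
      simp only [det, re_add, im_add]
      linear_combination hdt
    rw [this, mul_one]
    exact hppos
  have h2 : th (el p s * (x + y)) < th (el p s * y) := by
    rw [th_lt_iff hz hy, det_mul_left, hE2]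
    have : det (x + y) y = 1 := by
      simp only [det, re_add, im_add]
      linear_combination hdt
    rw [this, mul_one]
    exact hppos
  obtain ⟨x0, y0, h0, hc, h3, h4⟩ := cell_at hT hz
  obtain ⟨n1, n2⟩ := primeD_norm hT0 h0 hc
  have h5 : th x0 ≤ th (el p s * x) := by
    by_contra hcon
    push Not at hcon
    exact hl ⟨s, x, y, x0, h, rfl, h0.tx, (primeD_prim h0).1, n1, hcon, by linarith⟩
  have h6 : th (el p s * y) ≤ th y0 := by
    by_contra hcon
    push Not at hcon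
    exact hl ⟨s, x, y, y0, h, rfl, h0.ty, (primeD_prim h0).2, n2, by linarith, hcon⟩
  obtain ⟨a, c, hac, -, -⟩ := cone_coords h0 hx h5 (by linarith)
  obtain ⟨b, d, hbd, -, -⟩ := cone_coords h0 hy (by linarith) h6
  have hcx : cx ⟨a, b, c, d⟩ x0 y0 = el p s * x := hac.symm
  have hcy : cy ⟨a, b, c, d⟩ x0 y0 = el p s * y := hbd.symm
  have hM : Mt.Dt p ⟨a, b, c, d⟩ := by
    have h7 : det (el p s * x) (el p s * y) = p := by
      rw [det_mul_left, hE2, h.dt, mul_one]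
    have h8 : det (el p s * x) (el p s * y) = (a * d - c * b : ℤ) * det x0 y0 := by
      rw [hac, hbd]
      simp only [det, re_add, im_add, re_mul, im_mul, re_natCast, im_natCast]
      ring
    rw [h7, h0.dt, mul_one] at h8
    show a * d = b * c + p
    zify
    linear_combination -h8
  obtain ⟨-, -, -, hfm⟩ := Fr_act h0 hp.1.one_le hM
  have hB : B (el p s * x) (el p s * y) = p * B x y := by
    rw [← hE2]
    simp only [B, nm, re_mul, im_mul]
    ring
  have key : ∀ u v : ℤ, u = p * v → 0 ≤ v → u.toNat = p * v.toNat := by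
    intro u v huv hv
    zify
    rw [Int.toNat_of_nonneg (by rw [huv]; exact mul_nonneg hppos.le hv), Int.toNat_of_nonneg hv, huv]
  refine ⟨(fm x0 y0, ⟨a, b, c, d⟩), mem_Pst.2 ⟨hc, hM, ?_⟩, x0, y0, h0, rfl, hcx, hcy⟩
  rw [← hfm, hcx, hcy]
  refine Fm.ext ?_ ?_ ?_
  · exact key _ _ (by rw [nm_mul, hE2]) h.tx.nm_pos.le
  · exact key _ _ hB (B_pos h.tx h.ty).le
  · exact key _ _ (by rw [nm_mul, hE2]) h.ty.nm_pos.le

/-- Let `(x, y)` be a basis of `Q` and `s` a sign. By `cell_at` there is a cell `(x0, y0)` whose closed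
cone contains `el p s * (x + y)`. If `th x0 > th (el p s * x)` then `z = x0` shows that `Q` is lost; if
`th y0 < th (el p s * y)` then `z = y0`. Otherwise both `el p s * x`, `el p s * y` lie in the closed cone
and their coordinates (`cone_coords`) give `M` with `M.Dt p` (`det (π x) (π y) = nm π`) and
`((fm x0 y0), M) ∈ Pst`. The two signs give different elements of `Pst`: otherwise
`el p true = un k * el p false`, impossible for a split prime (`el_both`, `prim_not_both`: then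
`el p true` and `el p false` would divide the primitive element `el p true`). -/
theorem Pst_card_eq {T : ℝ} (hT : 2 ≤ T) {p : ℕ} (hp : Sp p) {Q : Fm} (hQ : Q.Ok)
    (hl : ¬ Lost T p Q) : (Pst T p Q).card = 2 := by
  classical
  obtain ⟨x, y, h, rfl⟩ := fm_surj hQ
  refine _root_.le_antisymm (Pst_card_le (by linarith) hp hQ) ?_
  obtain ⟨q, hq, x0, y0, h0, hf0, hx0, -⟩ := primeD_ex hT hp h hl true
  obtain ⟨q', hq', x1, y1, h1, hf1, hx1, -⟩ := primeD_ex hT hp h hl false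
  have hne : q ≠ q' := by
    rintro rfl
    obtain ⟨k, hk1, hk2⟩ := fm_inj h0 h1 (hf0.trans hf1.symm)
    have h2 : cx q.2 x1 y1 = un k * cx q.2 x0 y0 := by
      rw [hk1, hk2]
      simp only [cx]
      ring
    rw [hx0, hx1] at h2
    have h3 : el p false = un k * el p true := by
      apply primeD_cancel h.tx
      rw [h2]
      ring
    have h4 : el p true ∣ el p false * 1 := by
      rw [mul_one, h3]
      exact dvd_mul_left _ _
    have h5 : el p true ∣ 1 := (el_coprime hp hp (by simp) 1).1 h4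
    obtain ⟨u, hu⟩ := h5
    have h6 := congrArg nm hu
    rw [nm_mul, (el_spec hp true).2] at h6
    have h7 : nm (1 : ℤ√2) = 1 := by simp [nm]
    rw [h7] at h6
    have h8 : (p : ℤ) ∣ 1 := ⟨_, h6⟩
    have h9 : p ∣ 1 := by exact_mod_cast h8
    exact hp.1.one_lt.ne' (Nat.dvd_one.1 h9)
  have hsub : ({q, q'} : Finset (Fm × Mt)) ⊆ Pst T p (fm x y) := by
    intro r hr
    rw [Finset.mem_insert, Finset.mem_singleton] at hr
    rcases hr with rfl | rfl
    · exact hq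
    · exact hq'
  calc 2 = ({q, q'} : Finset (Fm × Mt)).card := (Finset.card_pair hne).symm
    _ ≤ _ := Finset.card_le_card hsub

end

end Pool.Agent.Lib.MP_0b748d_nt.HH
end

section

set_option autoImplicit false

/-!
# The prime step
-/

namespace Pool.Agent.Lib.MP_0b748d_nt.HH

open Zsqrtd MR

noncomputable section

/-- normalisation of a lost form: a small element strictly inside the cone of a basis, after
division by the prime element -/
private theorem primeE_norm {T : ℝ} {p : ℕ} (hp : Sp p) {Q : Fm} (hl : Lost T p Q) :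
    ∃ (s : Bool) (z0 : ℤ√2) (j : ℕ) (x y : ℤ√2), z0 ∈ Zt T ∧ j < 5 ∧ Fr x y ∧ fm x y = Q ∧
      th x < th (un (⌊-al (el p (!s) * z0)⌋ + j) * (el p (!s) * z0)) ∧
      th (un (⌊-al (el p (!s) * z0)⌋ + j) * (el p (!s) * z0)) < th y := by
  obtain ⟨s, x, y, z, h, hQ, hz, hzp, hzn, h1, h2⟩ := hl
  have hpos := th_uu_pos
  obtain ⟨hb1, -⟩ := th_uu_bounds
  have hE := (el_spec hp s).1.1
  have hE' := (el_spec hp (!s)).1.1
  have hth : th (el p (!s)) = - th (el p s) := by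
    rw [← el_star, th_star]
  rw [th_mul hE h.tx] at h1
  rw [th_mul hE h.ty] at h2
  -- normalise `x`
  set n : ℤ := ⌊al x⌋ with hn
  obtain ⟨hu1, hu2, hu3⟩ := un_spec (-n)
  have hx' : TP (un (-n) * x) := hu1.mul h.tx
  have hy' : TP (un (-n) * y) := hu1.mul h.ty
  have hF : Fr (un (-n) * x) (un (-n) * y) :=
    ⟨hx', hy', by rw [det_mul_left, hu2, h.dt, one_mul]⟩
  have hfm : fm (un (-n) * x) (un (-n) * y) = Q := by rw [fm_un, hQ]
  have hax : al (un (-n) * x) = al x - n := by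
    rw [al_un h.tx]
    push_cast
    ring
  have hx0 : 0 ≤ th (un (-n) * x) := by
    have h3 : 0 ≤ al (un (-n) * x) := by
      rw [hax]
      linarith [Int.floor_le (al x)]
    rw [al, le_div_iff₀ hpos, zero_mul] at h3
    exact h3
  have hx1 : th (un (-n) * x) ≤ th uu := by
    have h3 : al (un (-n) * x) ≤ 1 := by
      rw [hax]
      linarith [Int.lt_floor_add_one (al x)]
    rw [al, div_le_iff₀ hpos, one_mul] at h3
    exact h3
  have hlen : th (un (-n) * y) - th (un (-n) * x) ≤ 5 / 2 := by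
    have h3 := edge_len_le hF.tx hF.ty hF.dt
    have h4 := B_edge_ge hF.tx hF.ty hF.dt
    have h5 : (2 : ℝ) ≤ (B (un (-n) * x) (un (-n) * y) : ℝ) := by exact_mod_cast h4
    refine h3.trans ?_
    exact div_le_div_of_nonneg_left (by norm_num) (by norm_num) h5
  -- normalise `z`
  set m : ℤ := ⌊al z⌋ with hm
  have hz0 : un (-m) * z ∈ Zt T := by
    rw [mem_Zt]
    have haz : al (un (-m) * z) = al z - m := by
      rw [al_un hz]
      push_cast
      ring
    refine ⟨(TP_un _).2 hz, by rw [nm_un]; exact hzn, (Prim_un _).2 hzp, ?_, ?_⟩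
    · rw [haz]
      linarith [Int.floor_le (al z)]
    · rw [haz]
      linarith [Int.lt_floor_add_one (al z)]
  set z0 : ℤ√2 := un (-m) * z with hz0def
  have hTz0 : TP z0 := (mem_Zt.1 hz0).1
  set w : ℤ√2 := el p (!s) * z0 with hw
  have hTw : TP w := hE'.mul hTz0
  -- the element after all normalisations
  have hun : ∀ k : ℤ, th (un k * w) = th (un k) + (- th (el p s) + (th z - m * th uu)) := by
    intro k
    obtain ⟨k1, -, -⟩ := un_spec k
    obtain ⟨m1, -, m3⟩ := un_spec (-m)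
    rw [th_mul k1 hTw, hw, th_mul hE' hTz0, hth, hz0def, th_mul m1 hz, m3]
    push_cast
    ring
  have hk : th (un (m - n) * w) = - th (el p s) + th z - n * th uu := by
    obtain ⟨-, -, k3⟩ := un_spec (m - n)
    rw [hun, k3]
    push_cast
    ring
  have hlow : th (un (-n) * x) < th (un (m - n) * w) := by
    rw [th_mul hu1 h.tx, hu3, hk]
    push_cast
    linarith
  have hupp : th (un (m - n) * w) < th (un (-n) * y) := by
    rw [th_mul hu1 h.ty, hu3, hk]
    push_cast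
    linarith
  -- the range of `k = m - n`
  have hal1 : 0 < al (un (m - n) * w) := by
    rw [al]
    exact div_pos (by linarith) hpos
  have hal2 : al (un (m - n) * w) < 7 / 2 := by
    rw [al, div_lt_iff₀ hpos]
    nlinarith
  rw [al_un hTw] at hal1 hal2
  have hj0 : 0 ≤ (m - n) - ⌊-al w⌋ := by
    have h3 := Int.floor_le (-al w)
    have h4 : ((⌊-al w⌋ : ℤ) : ℝ) < ((m - n : ℤ) : ℝ) := by linarith
    have h5 : ⌊-al w⌋ < m - n := by exact_mod_cast h4
    omega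
  have hj1 : (m - n) - ⌊-al w⌋ < 5 := by
    have h3 := Int.lt_floor_add_one (-al w)
    have h4 : ((m - n : ℤ) : ℝ) < ((⌊-al w⌋ + 5 : ℤ) : ℝ) := by
      push_cast at hal2 ⊢
      linarith
    have h5 : m - n < ⌊-al w⌋ + 5 := by exact_mod_cast h4
    omega
  refine ⟨s, z0, ((m - n) - ⌊-al w⌋).toNat, un (-n) * x, un (-n) * y, hz0, ?_, hF, hfm, ?_, ?_⟩
  · omega
  · rw [← hw, Int.toNat_of_nonneg hj0, add_sub_cancel]
    exact hlow
  · rw [← hw, Int.toNat_of_nonneg hj0, add_sub_cancel]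
    exact hupp

open Classical in
/-- Number of lost forms. Choose the basis `(x, y)` with `al x ∈ [0, 1)`. The element
`z' = star (el p s) * z` satisfies `th x < th z' < th y` (`th_mul`, `th_star`), and
`th y ≤ th x + 5 / 2 ≤ 5` (`edge_len_le`, `B_edge_ge`). Write `z = un k * z0` with `z0 ∈ Zt T`; for
given `s`, `z0` the condition `0 ≤ th z' ≤ 5` leaves at most `6` values of `k`
(`th uu ≥ 1`). For each `z'` there are at most `K` forms (`chain_card`). Total
`≤ 2 * C T * 6 * K`. -/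
theorem lost_card (a b : ℝ) (ha : 0 < a) (hab : a ≤ b) : ∃ C : ℝ, 1 ≤ C ∧ ∀ T X : ℝ, 0 ≤ T → 1 ≤ X →
    ∀ p : ℕ, Sp p → (((Qs (b * X)).filter (fun Q => a * X ≤ Q.d ∧ a * X ≤ Q.e ∧ Lost T p Q)).card : ℝ)
      ≤ C * T := by
  obtain ⟨K, hK1, hK⟩ := chain_card a b ha hab
  obtain ⟨C, hC1, hC⟩ := Zt_card
  refine ⟨2 * (C * (5 * K)), ?_, fun T X hT hX p hp => ?_⟩
  · nlinarith [mul_le_mul hC1 hK1 (by norm_num) (by linarith : (0 : ℝ) ≤ C)]
  set G : ℤ√2 → Finset Fm := fun z => (Qs (b * X)).filter (fun Q => a * X ≤ Q.d ∧ a * X ≤ Q.e ∧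
      ∃ x y : ℤ√2, Fr x y ∧ fm x y = Q ∧ th x < th z ∧ th z < th y) with hG
  set I : Finset (Bool × ℤ√2 × ℕ) := Finset.univ ×ˢ (Zt T ×ˢ Finset.range 5) with hI
  set φ : Bool × ℤ√2 × ℕ → ℤ√2 := fun i =>
    un (⌊-al (el p (!i.1) * i.2.1)⌋ + i.2.2) * (el p (!i.1) * i.2.1) with hφ
  have hsub : (Qs (b * X)).filter (fun Q => a * X ≤ Q.d ∧ a * X ≤ Q.e ∧ Lost T p Q) ⊆
      I.biUnion (fun i => G (φ i)) := by
    intro Q hQ
    obtain ⟨h1, h2, h3, h4⟩ := Finset.mem_filter.1 hQ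
    obtain ⟨s, z0, j, x, y, hz0, hj, hF, hfm, h5, h6⟩ := primeE_norm hp h4
    rw [Finset.mem_biUnion]
    refine ⟨(s, z0, j), ?_, ?_⟩
    · rw [hI, Finset.mem_product, Finset.mem_product]
      exact ⟨Finset.mem_univ _, hz0, Finset.mem_range.2 hj⟩
    · rw [hG]
      exact Finset.mem_filter.2 ⟨h1, h2, h3, x, y, hF, hfm, h5, h6⟩
  have hcard : ∀ i ∈ I, ((G (φ i)).card : ℝ) ≤ K := by
    intro i hi
    rw [hI, Finset.mem_product, Finset.mem_product] at hi
    apply hK X hX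
    rw [hφ]
    exact (TP_un _).2 ((el_spec hp _).1.1.mul (mem_Zt.1 hi.2.1).1)
  have hIc : (I.card : ℝ) ≤ 2 * (C * T * 5) := by
    rw [hI, Finset.card_product, Finset.card_product, Finset.card_range]
    have h1 : (Finset.univ : Finset Bool).card = 2 := rfl
    rw [h1]
    push_cast
    have h2 := hC T hT
    nlinarith
  calc (((Qs (b * X)).filter (fun Q => a * X ≤ Q.d ∧ a * X ≤ Q.e ∧ Lost T p Q)).card : ℝ)
      ≤ ((I.biUnion (fun i => G (φ i))).card : ℝ) := by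
        exact_mod_cast Finset.card_le_card hsub
    _ ≤ ((∑ i ∈ I, (G (φ i)).card : ℕ) : ℝ) := by
        exact_mod_cast Finset.card_biUnion_le
    _ = ∑ i ∈ I, ((G (φ i)).card : ℝ) := by push_cast; rfl
    _ ≤ ∑ i ∈ I, K := Finset.sum_le_sum hcard
    _ = (I.card : ℝ) * K := by rw [Finset.sum_const, nsmul_eq_mul]
    _ ≤ 2 * (C * T * 5) * K := mul_le_mul_of_nonneg_right hIc (by linarith)
    _ = 2 * (C * (5 * K)) * T := by ring

end

end Pool.Agent.Lib.MP_0b748d_nt.HH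
end

section

set_option autoImplicit false

/-!
# The prime step
-/

namespace Pool.Agent.Lib.MP_0b748d_nt.HH

open Zsqrtd MR

noncomputable section

/-- test weights -/
structure Wt (a b L : ℝ) (W : ℝ → ℝ → ℝ) : Prop where
  bd : ∀ x y, |W x y| ≤ 1
  sp : ∀ x y, W x y ≠ 0 → (a ≤ x ∧ x ≤ b) ∧ (a ≤ y ∧ y ≤ b)
  lip : ∀ x y x' y', |W x y - W x' y'| ≤ L * (|x - x'| + |y - y'|)

/-- the sum over all forms of size `X` -/
def QW (W : ℝ → ℝ → ℝ) (F G : ℕ → ℤ) (b X : ℝ) : ℝ :=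
  ∑ Q ∈ Qs (b * X), W (Q.d / X) (Q.e / X) * ((F Q.d : ℝ) * (G Q.e : ℝ))

open Classical in
/-- the sum over matrices of determinant `p` for one cell -/
def Ph (W : ℝ → ℝ → ℝ) (F G : ℕ → ℤ) (b : ℝ) (p : ℕ) (X : ℝ) (Q : Fm) : ℝ :=
  ∑ M ∈ (Bx ⌊√(b * p * X)⌋₊).filter (fun M => M.Dt p ∧ zr (res p Q) M),
    W (Q.val M.a M.c / (p * X)) (Q.val M.b M.d / (p * X)) *
      ((F (Q.val M.a M.c) : ℝ) * (G (Q.val M.b M.d) : ℝ))

/-- the entries of a matrix are bounded by the values -/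
private theorem primeF_le {Q : Fm} (hQ : Q.Ok) {x y : ℕ} {Y : ℝ} (h : (Q.val x y : ℝ) ≤ Y) :
    x ≤ ⌊√Y⌋₊ ∧ y ≤ ⌊√Y⌋₊ := by
  have hd := hQ.1
  have he := hQ.2.1
  have h1 : x ^ 2 ≤ Q.val x y := by
    unfold Fm.val
    nlinarith [Nat.zero_le (2 * Q.n * (x * y)), Nat.zero_le (Q.e * y ^ 2),
      Nat.mul_le_mul hd (le_refl (x ^ 2))]
  have h2 : y ^ 2 ≤ Q.val x y := by
    unfold Fm.val
    nlinarith [Nat.zero_le (2 * Q.n * (x * y)), Nat.zero_le (Q.d * x ^ 2),
      Nat.mul_le_mul he (le_refl (y ^ 2))]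
  constructor
  · refine Nat.le_floor (Real.le_sqrt_of_sq_le ?_)
    calc (x : ℝ) ^ 2 = ((x ^ 2 : ℕ) : ℝ) := by push_cast; ring
      _ ≤ (Q.val x y : ℝ) := by exact_mod_cast h1
      _ ≤ Y := h
  · refine Nat.le_floor (Real.le_sqrt_of_sq_le ?_)
    calc (y : ℝ) ^ 2 = ((y ^ 2 : ℕ) : ℝ) := by push_cast; ring
      _ ≤ (Q.val x y : ℝ) := by exact_mod_cast h2
      _ ≤ Y := h

private theorem primeF_sm_inj {p : ℕ} (hp : 0 < p) {Q Q' : Fm} (h : Q.sm p = Q'.sm p) : Q = Q' := by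
  unfold Fm.sm at h
  rw [Fm.mk.injEq] at h
  ext
  · exact Nat.eq_of_mul_eq_mul_left hp h.1
  · exact Nat.eq_of_mul_eq_mul_left hp h.2.1
  · exact Nat.eq_of_mul_eq_mul_left hp h.2.2

/-- Regroup by the form `Q'` with `Q.act M = Q'.sm p` (`zr_form`):
`∑_{Q ∈ Cl T} Ph = ∑_{Q' ∈ Qs (b X)} |Pst T p Q'| W (d' / X) (e' / X) F (p d') G (p e')` (the entries of
`M` are at most `√(b p X)` on the support, as `Q.d, Q.e ≥ 1`). -/
theorem Ph_sum {a b L : ℝ} (ha : 0 < a) {W : ℝ → ℝ → ℝ} (hW : Wt a b L W) (F G : ℕ → ℤ) {T X : ℝ}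
    (hT : 0 ≤ T) (hX : 0 < X) {p : ℕ} (hp : p.Prime) :
    ∑ Q ∈ Cl T, Ph W F G b p X Q = ∑ Q ∈ Qs (b * X), ((Pst T p Q).card : ℝ) *
      (W (Q.d / X) (Q.e / X) * ((F (p * Q.d) : ℝ) * (G (p * Q.e) : ℝ))) := by
  classical
  have hp0 : 0 < p := hp.pos
  have hpR : (0 : ℝ) < p := by exact_mod_cast hp0
  have hpX : 0 < (p : ℝ) * X := mul_pos hpR hX
  set w : Fm × Mt → ℝ := fun q =>
    W (q.1.val q.2.a q.2.c / (p * X)) (q.1.val q.2.b q.2.d / (p * X)) *
      ((F (q.1.val q.2.a q.2.c) : ℝ) * (G (q.1.val q.2.b q.2.d) : ℝ)) with hw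
  -- consequences of `w q ≠ 0`
  have hwne : ∀ q : Fm × Mt, w q ≠ 0 → a ≤ b ∧ (q.1.val q.2.a q.2.c : ℝ) ≤ b * p * X ∧
      (q.1.val q.2.b q.2.d : ℝ) ≤ b * p * X := by
    intro q hq
    have h1 : W (q.1.val q.2.a q.2.c / (p * X)) (q.1.val q.2.b q.2.d / (p * X)) ≠ 0 :=
      left_ne_zero_of_mul hq
    obtain ⟨⟨h2, h3⟩, h4, h5⟩ := hW.sp _ _ h1
    refine ⟨h2.trans h3, ?_, ?_⟩
    · rw [div_le_iff₀ hpX] at h3
      linarith
    · rw [div_le_iff₀ hpX] at h5
      linarith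
  -- values on `Pst`
  have hval : ∀ (Q' : Fm) (q : Fm × Mt), q.1.act q.2 = Q'.sm p →
      q.1.val q.2.a q.2.c = p * Q'.d ∧ q.1.val q.2.b q.2.d = p * Q'.e := by
    intro Q' q h
    unfold Fm.act Fm.sm at h
    rw [Fm.mk.injEq] at h
    exact ⟨h.1, h.2.2⟩
  have hwv : ∀ (Q' : Fm) (q : Fm × Mt), q ∈ Pst T p Q' →
      w q = W (Q'.d / X) (Q'.e / X) * ((F (p * Q'.d) : ℝ) * (G (p * Q'.e) : ℝ)) := by
    intro Q' q hq
    obtain ⟨h1, h2⟩ := hval Q' q (mem_Pst.1 hq).2.2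
    simp only [hw, h1, h2]
    push_cast
    rw [mul_div_mul_left _ _ hpR.ne', mul_div_mul_left _ _ hpR.ne']
  have hL : ∑ Q ∈ Cl T, Ph W F G b p X Q = ∑ q ∈ ((Cl T ×ˢ Bx ⌊√(b * p * X)⌋₊).filter
      (fun q => q.2.Dt p ∧ zr (res p q.1) q.2)).filter (fun q => w q ≠ 0), w q := by
    rw [Finset.sum_filter_ne_zero, Finset.sum_filter, Finset.sum_product]
    refine Finset.sum_congr rfl fun Q _ => ?_
    unfold Ph
    rw [Finset.sum_filter]
  have hR : ∑ Q ∈ Qs (b * X), ((Pst T p Q).card : ℝ) *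
      (W (Q.d / X) (Q.e / X) * ((F (p * Q.d) : ℝ) * (G (p * Q.e) : ℝ))) =
      ∑ q ∈ (Qs (b * X)).biUnion (fun Q => (Pst T p Q).filter (fun q => w q ≠ 0)), w q := by
    rw [Finset.sum_biUnion]
    · refine Finset.sum_congr rfl fun Q _ => ?_
      rw [Finset.sum_filter_ne_zero, Finset.sum_congr rfl (hwv Q), Finset.sum_const, nsmul_eq_mul]
    · intro Q₁ _ Q₂ _ hne
      refine Finset.disjoint_left.2 fun q h1 h2 => hne ?_
      have h3 := (mem_Pst.1 (Finset.mem_filter.1 h1).1).2.2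
      have h4 := (mem_Pst.1 (Finset.mem_filter.1 h2).1).2.2
      exact primeF_sm_inj hp0 (h3.symm.trans h4)
  rw [hL, hR]
  refine Finset.sum_congr ?_ fun _ _ => rfl
  ext q
  rw [Finset.mem_filter, Finset.mem_filter, Finset.mem_product, Finset.mem_biUnion]
  constructor
  · rintro ⟨⟨⟨h1, h2⟩, h3, h4⟩, h5⟩
    have hok := ((mem_Cl hT).1 h1).1
    obtain ⟨Q', hQ', hact⟩ := zr_form hok hp h3 h4
    obtain ⟨hab, hb1, hb2⟩ := hwne q h5
    obtain ⟨hv1, hv2⟩ := hval Q' q hact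
    have hbX : 0 ≤ b * X := mul_nonneg (ha.le.trans hab) hX.le
    refine ⟨Q', (mem_Qs hbX).2 ⟨hQ', ?_, ?_⟩, Finset.mem_filter.2 ⟨mem_Pst.2 ⟨h1, h3, hact⟩, h5⟩⟩
    · rw [hv1] at hb1
      push_cast at hb1
      have h6 : (p : ℝ) * Q'.d ≤ p * (b * X) := by linarith
      exact le_of_mul_le_mul_left h6 hpR
    · rw [hv2] at hb2
      push_cast at hb2
      have h6 : (p : ℝ) * Q'.e ≤ p * (b * X) := by linarith
      exact le_of_mul_le_mul_left h6 hpR
  · rintro ⟨Q', hQ', hq⟩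
    obtain ⟨h1, h5⟩ := Finset.mem_filter.1 hq
    obtain ⟨h2, h3, h4⟩ := mem_Pst.1 h1
    have hok := ((mem_Cl hT).1 h2).1
    obtain ⟨hab, hb1, hb2⟩ := hwne q h5
    obtain ⟨e1, e2⟩ := primeF_le hok hb1
    obtain ⟨e3, e4⟩ := primeF_le hok hb2
    refine ⟨⟨⟨h2, mem_Bx.2 ⟨e1, e3, e2, e4⟩⟩, h3, ?_⟩, h5⟩
    rw [zr_res, h4]
    exact ⟨Dvd.intro _ rfl, Dvd.intro _ rfl, Dvd.intro _ rfl⟩

/-- **Prime step.** `Ph_sum`; `F (p d) = -F d`, `G (p e) = γ G e`, `γ² = 1`; the coefficient is `2`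
unless `Q` is lost (`Pst_card_eq`), in which case it lies in `[0, 2]` (`Pst_card_le`); `lost_card`. -/
theorem prime_step (a b : ℝ) (ha : 0 < a) (hab : a ≤ b) : ∃ C : ℝ, 1 ≤ C ∧ ∀ (L : ℝ)
    (W : ℝ → ℝ → ℝ), Wt a b L W → ∀ F G : ℕ → ℤ, (∀ m, |F m| ≤ 1) → (∀ m, |G m| ≤ 1) →
    ∀ T X : ℝ, 2 ≤ T → 1 ≤ X → ∀ p : ℕ, Sp p → ∀ γ : ℤ, γ = 1 ∨ γ = -1 →
    (∀ m, F (p * m) = -F m) → (∀ m, G (p * m) = γ * G m) →
    |2 * QW W F G b X + γ * ∑ Q ∈ Cl T, Ph W F G b p X Q| ≤ C * T := by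
  classical
  obtain ⟨C, hC1, hC⟩ := lost_card a b ha hab
  refine ⟨2 * C, by linarith, ?_⟩
  intro L W hW F G hF hG T X hT hX p hp γ hγ hFp hGp
  have hT0 : 0 ≤ T := by linarith
  have hX0 : 0 < X := by linarith
  have hbX : 0 ≤ b * X := mul_nonneg (ha.le.trans hab) hX0.le
  obtain ⟨S, hS, hScard⟩ : ∃ S : Finset Fm, (∀ Q, Q ∈ S ↔ Q ∈ Qs (b * X) ∧
      (a * X ≤ Q.d ∧ a * X ≤ Q.e ∧ Lost T p Q)) ∧ (S.card : ℝ) ≤ C * T :=
    ⟨_, fun Q => Finset.mem_filter, hC T X hT0 hX p hp⟩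
  have hγ2 : (γ : ℝ) * γ = 1 := by
    rcases hγ with h | h <;> rw [h] <;> norm_num
  -- the combined sum
  set t : Fm → ℝ := fun Q => (2 - ((Pst T p Q).card : ℝ)) *
    (W (Q.d / X) (Q.e / X) * ((F Q.d : ℝ) * (G Q.e : ℝ))) with ht
  have hsum : 2 * QW W F G b X + γ * ∑ Q ∈ Cl T, Ph W F G b p X Q = ∑ Q ∈ Qs (b * X), t Q := by
    rw [Ph_sum ha hW F G hT0 hX0 hp.1, QW, Finset.mul_sum, Finset.mul_sum,
      ← Finset.sum_add_distrib]
    refine Finset.sum_congr rfl fun Q _ => ?_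
    rw [hFp, hGp]
    simp only [ht]
    push_cast
    linear_combination (-((Pst T p Q).card : ℝ) * (W (Q.d / X) (Q.e / X) *
      ((F Q.d : ℝ) * (G Q.e : ℝ)))) * hγ2
  have hzero : ∀ Q ∈ Qs (b * X), Q ∉ S → t Q = 0 := by
    intro Q hQ hQS
    by_contra hne
    have h1 : W (Q.d / X) (Q.e / X) ≠ 0 := left_ne_zero_of_mul (right_ne_zero_of_mul hne)
    have h2 : (2 - ((Pst T p Q).card : ℝ)) ≠ 0 := left_ne_zero_of_mul hne
    obtain ⟨⟨h3, _⟩, h4, _⟩ := hW.sp _ _ h1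
    rw [le_div_iff₀ hX0] at h3 h4
    apply hQS
    refine (hS Q).2 ⟨hQ, h3, h4, ?_⟩
    by_contra hl
    have h5 := Pst_card_eq hT hp ((mem_Qs hbX).1 hQ).1 hl
    rw [h5] at h2
    exact h2 (by norm_num)
  have hsub : S ⊆ Qs (b * X) := fun Q hQ => ((hS Q).1 hQ).1
  rw [hsum, ← Finset.sum_subset hsub hzero]
  have hone : ∀ z : ℤ, |z| ≤ 1 → |(z : ℝ)| ≤ 1 := by
    intro z hz
    have h1 : ((|z| : ℤ) : ℝ) ≤ ((1 : ℤ) : ℝ) := by exact_mod_cast hz
    rwa [Int.cast_abs, Int.cast_one] at h1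
  calc |∑ Q ∈ S, t Q| ≤ ∑ Q ∈ S, |t Q| := Finset.abs_sum_le_sum_abs _ _
    _ ≤ ∑ Q ∈ S, (2 : ℝ) := by
        refine Finset.sum_le_sum fun Q hQ => ?_
        have h1 := Pst_card_le hT0 hp ((mem_Qs hbX).1 (hsub hQ)).1
        have h2 : ((Pst T p Q).card : ℝ) ≤ 2 := by exact_mod_cast h1
        have h3 : |2 - ((Pst T p Q).card : ℝ)| ≤ 2 := by
          rw [abs_le]
          constructor
          · linarith
          · have : (0 : ℝ) ≤ ((Pst T p Q).card : ℝ) := Nat.cast_nonneg _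
            linarith
        simp only [ht, abs_mul]
        have h4 := hW.bd (Q.d / X) (Q.e / X)
        have h5 := hone _ (hF Q.d)
        have h6 := hone _ (hG Q.e)
        calc |2 - ((Pst T p Q).card : ℝ)| * (|W (Q.d / X) (Q.e / X)| *
              (|(F Q.d : ℝ)| * |(G Q.e : ℝ)|)) ≤ 2 * (1 * (1 * 1)) := by
              gcongr
          _ = 2 := by norm_num
    _ = 2 * (S.card : ℝ) := by rw [Finset.sum_const, nsmul_eq_mul, mul_comm]
    _ ≤ 2 * (C * T) := by gcongr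
    _ = 2 * C * T := by ring

end

end Pool.Agent.Lib.MP_0b748d_nt.HH
end
end
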