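import Pool.Agent.Lib.MP_0b748d_nt.HH.Defs
import Pool.Agent.Lib.MP_0b748d_nt.Basic

section

set_option autoImplicit false

/-!
# Residues of forms modulo primes
-/

namespace Pool.Agent.Lib.MP_0b748d_nt.HH

open Filter Topology

noncomputable section

/-- residues of forms modulo `p` -/
abbrev Rp (p : ℕ) : Type := ZMod p × ZMod p × ZMod p

/-- the residue of a form -/
def res (p : ℕ) (Q : Fm) : Rp p := (Q.d, Q.n, Q.e)

/-- left child modulo `p` -/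
def rl (p : ℕ) : Equiv.Perm (Rp p) where
  toFun y := (y.1, y.2.1 + y.1, y.1 + 2 * y.2.1 + y.2.2)
  invFun y := (y.1, y.2.1 - y.1, y.1 - 2 * y.2.1 + y.2.2)
  left_inv y := by ext <;> simp; ring
  right_inv y := by ext <;> simp <;> ring

/-- right child modulo `p` -/
def rr (p : ℕ) : Equiv.Perm (Rp p) where
  toFun y := (y.1 + 2 * y.2.1 + y.2.2, y.2.1 + y.2.2, y.2.2)
  invFun y := (y.1 - 2 * y.2.1 + y.2.2, y.2.1 - y.2.2, y.2.2)
  left_inv y := by ext <;> simp; ring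
  right_inv y := by ext <;> simp <;> ring

/-- the orbit of the root modulo `p` -/
def Orb (p : ℕ) : Set (Rp p) :=
  {y | ∃ g ∈ Subgroup.closure ({rl p, rr p} : Set (Equiv.Perm (Rp p))), g (1, 2, 2) = y}

/-- families of residues -/
abbrev RS (S : Finset ℕ) : Type := (p : {p : ℕ // p ∈ S}) → Rp p

/-- the residues of a form modulo all the elements of `S` -/
def resS (S : Finset ℕ) (Q : Fm) : RS S := fun p => res p Q

/-- the families of residues in the orbits -/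
def OrbS (S : Finset ℕ) : Set (RS S) := {y | ∀ p : {p : ℕ // p ∈ S}, y p ∈ Orb p}

theorem rl_pow (p k : ℕ) (y : Rp p) :
    (rl p ^ k) y = (y.1, y.2.1 + k * y.1, y.2.2 + 2 * k * y.2.1 + k ^ 2 * y.1) := by
  induction k with
  | zero => simp
  | succ k ih =>
    rw [pow_succ', Equiv.Perm.mul_apply, ih]
    simp only [rl, Equiv.coe_fn_mk]
    push_cast
    refine Prod.ext rfl (Prod.ext ?_ ?_)
    · simp only
      ring
    · simp only
      ring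

theorem rr_pow (p k : ℕ) (y : Rp p) :
    (rr p ^ k) y = (y.1 + 2 * k * y.2.1 + k ^ 2 * y.2.2, y.2.1 + k * y.2.2, y.2.2) := by
  induction k with
  | zero => simp
  | succ k ih =>
    rw [pow_succ', Equiv.Perm.mul_apply, ih]
    simp only [rr, Equiv.coe_fn_mk]
    push_cast
    refine Prod.ext ?_ (Prod.ext ?_ rfl)
    · simp only
      ring
    · simp only
      ring

end

end Pool.Agent.Lib.MP_0b748d_nt.HH
end

section

set_option autoImplicit false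

/-!
# The tree of forms and the cells
-/

namespace Pool.Agent.Lib.MP_0b748d_nt.HH

noncomputable section

/-- For `Q.Ok` with `d, e ≤ Y`: `n² = d e + 2 ≤ ⌊Y⌋² + 2 < (⌊Y⌋ + 2)²`, and `Nat.le_floor`,
`Nat.floor_le`. -/
theorem mem_Qs {Y : ℝ} (hY : 0 ≤ Y) {Q : Fm} : Q ∈ Qs Y ↔ Q.Ok ∧ (Q.d : ℝ) ≤ Y ∧ (Q.e : ℝ) ≤ Y := by
  rw [Qs, Finset.mem_filter, Finset.mem_image]
  constructor
  · rintro ⟨⟨⟨x, y, z⟩, hp, rfl⟩, hok⟩
    simp only [Finset.mem_product, Finset.mem_range] at hp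
    refine ⟨hok, (Nat.le_floor_iff hY).1 ?_, (Nat.le_floor_iff hY).1 ?_⟩
    · simp only
      omega
    · simp only
      omega
  · rintro ⟨hok, hd, he⟩
    have h1 : Q.d ≤ ⌊Y⌋₊ := (Nat.le_floor_iff hY).2 hd
    have h2 : Q.e ≤ ⌊Y⌋₊ := (Nat.le_floor_iff hY).2 he
    have h3 : Q.n < ⌊Y⌋₊ + 3 := by
      by_contra hcon
      have h4 : ⌊Y⌋₊ + 3 ≤ Q.n := by omega
      have h5 := hok.2.2
      have h6 : (⌊Y⌋₊ + 3) ^ 2 ≤ Q.n ^ 2 := Nat.pow_le_pow_left h4 2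
      have h7 : Q.d * Q.e ≤ ⌊Y⌋₊ * ⌊Y⌋₊ := Nat.mul_le_mul h1 h2
      nlinarith
    refine ⟨⟨⟨Q.d, Q.n, Q.e⟩, ?_, rfl⟩, hok⟩
    simp only [Finset.mem_product, Finset.mem_range]
    omega

theorem mem_Cl {T : ℝ} (hT : 0 ≤ T) {Q : Fm} :
    Q ∈ Cl T ↔ Q.Ok ∧ (Q.d : ℝ) ≤ T ∧ (Q.e : ℝ) ≤ T ∧ T < (Q.val 1 1 : ℝ) := by
  rw [Cl, Finset.mem_filter, mem_Qs hT]
  tauto

theorem mem_Bx {b : ℕ} {M : Mt} : M ∈ Bx b ↔ M.a ≤ b ∧ M.b ≤ b ∧ M.c ≤ b ∧ M.d ≤ b := by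
  rw [Bx, Finset.mem_image]
  constructor
  · rintro ⟨⟨⟨x, y⟩, ⟨z, w⟩⟩, hp, rfl⟩
    simp only [Finset.mem_product, Finset.mem_range] at hp
    simp only
    omega
  · rintro ⟨h1, h2, h3, h4⟩
    refine ⟨⟨⟨M.a, M.b⟩, ⟨M.c, M.d⟩⟩, ?_, rfl⟩
    simp only [Finset.mem_product, Finset.mem_range]
    omega

/-- `mem_Bx`; if `Q.act M ∈ Cl T` then `M.a ≤ M.a ^ 2 ≤ Q.d * M.a ^ 2 ≤ Q.val M.a M.c ≤ T`, and
similarly for the other entries (`Q.d, Q.e ≥ 1`). -/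
theorem mem_Dn {T : ℝ} (hT : 0 ≤ T) {Q : Fm} (hQ : Q.Ok) {M : Mt} :
    M ∈ Dn T Q ↔ M.Dt 1 ∧ Q.act M ∈ Cl T := by
  rw [Dn, Finset.mem_filter, mem_Bx]
  refine ⟨fun h => h.2, fun h => ⟨?_, h⟩⟩
  have hc := (mem_Cl hT).1 h.2
  have hd : (Q.act M).d ≤ ⌊T⌋₊ := (Nat.le_floor_iff hT).2 hc.2.1
  have he : (Q.act M).e ≤ ⌊T⌋₊ := (Nat.le_floor_iff hT).2 hc.2.2.1
  have hQd := hQ.1
  have hQe := hQ.2.1
  simp only [Fm.act, Fm.val] at hd he
  have key : ∀ x y B : ℕ, 0 < y → y * x ^ 2 ≤ B → x ≤ B := by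
    intro x y B hy h1
    rcases Nat.eq_zero_or_pos x with rfl | hx
    · exact Nat.zero_le _
    · nlinarith [Nat.mul_le_mul hy (Nat.mul_le_mul hx (le_refl x))]
  refine ⟨key M.a Q.d _ hQd ?_, key M.b Q.d _ hQd ?_, key M.c Q.e _ hQe ?_,
    key M.d Q.e _ hQe ?_⟩
  · exact le_trans (by omega) hd
  · exact le_trans (by omega) he
  · exact le_trans (by omega) hd
  · exact le_trans (by omega) he

/-- `Fm.val`, `Fm.act`, `ring`. -/
theorem val_act (Q : Fm) (M : Mt) (x y : ℕ) :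
    (Q.act M).val x y = Q.val (M.a * x + M.b * y) (M.c * x + M.d * y) := by
  simp only [Fm.act, Fm.val]
  ring

theorem act_mul (Q : Fm) (M N : Mt) : (Q.act M).act N = Q.act (M.mul N) := by
  simp only [Fm.act, Fm.val, Mt.mul, Fm.mk.injEq]
  refine ⟨?_, ?_, ?_⟩ <;> ring

theorem act_one (Q : Fm) : Q.act Mt.one = Q := by
  ext <;> simp [Fm.act, Fm.val, Mt.one]

theorem act_l (Q : Fm) : Q.act Mt.l = Q.lc := by
  ext <;> simp [Fm.act, Fm.val, Mt.l, Fm.lc]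
  ring

theorem act_r (Q : Fm) : Q.act Mt.r = Q.rc := by
  ext <;> simp [Fm.act, Fm.val, Mt.r, Fm.rc]

end

end Pool.Agent.Lib.MP_0b748d_nt.HH
end

section

set_option autoImplicit false

/-!
# Forms and bases of `ℤ[√2]`
-/

namespace Pool.Agent.Lib.MP_0b748d_nt.HH

open Zsqrtd

noncomputable section

/-- the form of a pair of elements -/
def fm (x y : ℤ√2) : Fm := ⟨(nm x).toNat, (B x y).toNat, (nm y).toNat⟩

/-- a totally positive basis of determinant one -/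
structure Fr (x y : ℤ√2) : Prop where
  tx : TP x
  ty : TP y
  dt : det x y = 1

/-- the image of a pair under a matrix -/
def cx (M : Mt) (x y : ℤ√2) : ℤ√2 := (M.a : ℤ√2) * x + (M.c : ℤ√2) * y

/-- the image of a pair under a matrix, second vector -/
def cy (M : Mt) (x y : ℤ√2) : ℤ√2 := (M.b : ℤ√2) * x + (M.d : ℤ√2) * y

/-- `B_sq`, `B_pos`, `TP.nm_pos` -/
theorem fm_Ok {x y : ℤ√2} (h : Fr x y) : (fm x y).Ok := by
  have h1 := h.tx.nm_pos
  have h2 := h.ty.nm_pos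
  have h3 := B_pos h.tx h.ty
  have h4 := B_sq x y
  rw [h.dt] at h4
  refine ⟨?_, ?_, ?_⟩
  · show 0 < (nm x).toNat
    omega
  · show 0 < (nm y).toNat
    omega
  · show (B x y).toNat ^ 2 = (nm x).toNat * (nm y).toNat + 2
    zify
    rw [Int.toNat_of_nonneg h1.le, Int.toNat_of_nonneg h2.le, Int.toNat_of_nonneg h3.le]
    linarith

theorem Fr_l {x y : ℤ√2} (h : Fr x y) : Fr x (x + y) ∧ fm x (x + y) = (fm x y).lc := by
  have h1 := h.tx.nm_pos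
  have h2 := h.ty.nm_pos
  have h3 := B_pos h.tx h.ty
  have e1 : nm (x + y) = nm x + 2 * B x y + nm y := by
    simp only [nm, B, Zsqrtd.re_add, Zsqrtd.im_add]
    ring
  have e2 : B x (x + y) = B x y + nm x := by
    simp only [nm, B, Zsqrtd.re_add, Zsqrtd.im_add]
    ring
  have e3 : det x (x + y) = det x y := by
    simp only [det, Zsqrtd.re_add, Zsqrtd.im_add]
    ring
  refine ⟨⟨h.tx, h.tx.add h.ty, by rw [e3, h.dt]⟩, ?_⟩
  simp only [fm, Fm.lc, Fm.mk.injEq]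
  rw [e1, e2]
  refine ⟨trivial, ?_, ?_⟩ <;> omega

theorem Fr_r {x y : ℤ√2} (h : Fr x y) : Fr (x + y) y ∧ fm (x + y) y = (fm x y).rc := by
  have h1 := h.tx.nm_pos
  have h2 := h.ty.nm_pos
  have h3 := B_pos h.tx h.ty
  have e1 : nm (x + y) = nm x + 2 * B x y + nm y := by
    simp only [nm, B, Zsqrtd.re_add, Zsqrtd.im_add]
    ring
  have e2 : B (x + y) y = B x y + nm y := by
    simp only [nm, B, Zsqrtd.re_add, Zsqrtd.im_add]
    ring
  have e3 : det (x + y) y = det x y := by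
    simp only [det, Zsqrtd.re_add, Zsqrtd.im_add]
    ring
  refine ⟨⟨h.tx.add h.ty, h.ty, by rw [e3, h.dt]⟩, ?_⟩
  simp only [fm, Fm.rc, Fm.mk.injEq]
  rw [e1, e2]
  refine ⟨?_, ?_, trivial⟩ <;> omega

end

end Pool.Agent.Lib.MP_0b748d_nt.HH
end

section

set_option autoImplicit false

/-!
# The tree of forms and the cells
-/

namespace Pool.Agent.Lib.MP_0b748d_nt.HH

noncomputable section

/-- The discriminant is multiplied by the square of the determinant. (Pass to integers: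
`a d = b c + m`, `n² = d e + 2`; polynomial identity.) -/
theorem disc_act {Q : Fm} (hQ : Q.Ok) {m : ℕ} {M : Mt} (hM : M.Dt m) :
    (Q.act M).n ^ 2 = (Q.act M).d * (Q.act M).e + 2 * m ^ 2 := by
  obtain ⟨_, _, h⟩ := hQ
  unfold Mt.Dt at hM
  simp only [Fm.act, Fm.val]
  zify at h hM ⊢
  linear_combination ((M.a : ℤ) * M.d - M.b * M.c) ^ 2 * h +
    2 * ((M.a : ℤ) * M.d - M.b * M.c + m) * hM

/-- `disc_act`; the columns of `M` are nonzero as `M.Dt 1`. -/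
theorem act_Ok {Q : Fm} (hQ : Q.Ok) {M : Mt} (hM : M.Dt 1) : (Q.act M).Ok := by
  have h3 := disc_act hQ hM
  obtain ⟨h1, h2, _⟩ := hQ
  unfold Mt.Dt at hM
  refine ⟨?_, ?_, by rw [h3]; ring⟩
  · change 0 < Q.d * M.a ^ 2 + 2 * Q.n * (M.a * M.c) + Q.e * M.c ^ 2
    rcases Nat.eq_zero_or_pos M.a with ha | ha
    · rcases Nat.eq_zero_or_pos M.c with hc | hc
      · rw [ha, hc] at hM
        omega
      · have : 0 < Q.e * M.c ^ 2 := by positivity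
        omega
    · have : 0 < Q.d * M.a ^ 2 := by positivity
      omega
  · change 0 < Q.d * M.b ^ 2 + 2 * Q.n * (M.b * M.d) + Q.e * M.d ^ 2
    rcases Nat.eq_zero_or_pos M.b with ha | ha
    · rcases Nat.eq_zero_or_pos M.d with hc | hc
      · rw [ha, hc] at hM
        omega
      · have : 0 < Q.e * M.d ^ 2 := by positivity
        omega
    · have : 0 < Q.d * M.b ^ 2 := by positivity
      omega

theorem Dt_mul {m k : ℕ} {M N : Mt} (hM : M.Dt m) (hN : N.Dt k) : (M.mul N).Dt (m * k) := by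
  unfold Mt.Dt at hM hN ⊢
  simp only [Mt.mul]
  zify at hM hN ⊢
  linear_combination ((N.a : ℤ) * N.d - N.b * N.c) * hM + (m : ℤ) * hN

theorem lc_Ok {Q : Fm} (hQ : Q.Ok) : Q.lc.Ok := by
  obtain ⟨h1, h2, h⟩ := hQ
  refine ⟨h1, ?_, ?_⟩
  · change 0 < Q.d + 2 * Q.n + Q.e
    omega
  · change (Q.n + Q.d) ^ 2 = Q.d * (Q.d + 2 * Q.n + Q.e) + 2
    zify at h ⊢
    linear_combination h

theorem rc_Ok {Q : Fm} (hQ : Q.Ok) : Q.rc.Ok := by
  obtain ⟨h1, h2, h⟩ := hQ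
  refine ⟨?_, h2, ?_⟩
  · change 0 < Q.d + 2 * Q.n + Q.e
    omega
  · change (Q.n + Q.e) ^ 2 = (Q.d + 2 * Q.n + Q.e) * Q.e + 2
    zify at h ⊢
    linear_combination h

theorem lc_lt {Q : Fm} (hQ : Q.Ok) : Q.lc.d < Q.lc.e := by
  obtain ⟨_, h2, _⟩ := hQ
  change Q.d < Q.d + 2 * Q.n + Q.e
  omega

theorem rc_lt {Q : Fm} (hQ : Q.Ok) : Q.rc.e < Q.rc.d := by
  obtain ⟨h1, _, _⟩ := hQ
  change Q.e < Q.d + 2 * Q.n + Q.e
  omega

theorem lc_inj {Q Q' : Fm} (h : Q.lc = Q'.lc) : Q = Q' := by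
  have h1 : Q.d = Q'.d := (Fm.ext_iff.1 h).1
  have h2 : Q.n + Q.d = Q'.n + Q'.d := (Fm.ext_iff.1 h).2.1
  have h3 : Q.d + 2 * Q.n + Q.e = Q'.d + 2 * Q'.n + Q'.e := (Fm.ext_iff.1 h).2.2
  apply Fm.ext
  · exact h1
  · omega
  · omega

theorem rc_inj {Q Q' : Fm} (h : Q.rc = Q'.rc) : Q = Q' := by
  have h1 : Q.e = Q'.e := (Fm.ext_iff.1 h).2.2
  have h2 : Q.n + Q.e = Q'.n + Q'.e := (Fm.ext_iff.1 h).2.1
  have h3 : Q.d + 2 * Q.n + Q.e = Q'.d + 2 * Q'.n + Q'.e := (Fm.ext_iff.1 h).1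
  apply Fm.ext
  · omega
  · omega
  · exact h1

end

end Pool.Agent.Lib.MP_0b748d_nt.HH
end
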