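import Pool.Agent.Lib.MP_0b748d_nt.HH.DecA
import Pool.Agent.Lib.MP_0b748d_nt.HH.PrimeF
import Pool.Agent.Lib.MP_0b748d_nt.HH.TreeB
import Pool.Agent.Lib.MP_0b748d_nt.MR.DirsA
import Pool.Agent.Lib.MP_0b748d_nt.MR.Sector

section

set_option autoImplicit false

/-!
# Assembly: the averages over forms vanish in the limit
-/

namespace Pool.Agent.Lib.MP_0b748d_nt.HH

open Filter Topology MR

noncomputable section

/-- completely multiplicative functions with values `±1` -/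
structure CMg (g : ℕ → ℤ) : Prop where
  mul : ∀ m n, 1 ≤ m → 1 ≤ n → g (m * n) = g m * g n
  val : ∀ m, 1 ≤ m → g m = 1 ∨ g m = -1

/-- the function `g` on the numbers congruent to `c` modulo `2` -/
def Gg (g : ℕ → ℤ) (c m : ℕ) : ℤ := if m % 2 = c ∧ m ≠ 0 then g m else 0

theorem Fl_mul (c : ℕ) {p : ℕ} (hp : p.Prime) (hp2 : p ≠ 2) (m : ℕ) : Fl c (p * m) = -Fl c m := by
  have hp1 : p % 2 = 1 := (hp.eq_two_or_odd).resolve_left hp2
  unfold Fl
  rcases Nat.eq_zero_or_pos m with rfl | hm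
  · simp
  · have h1 : (p * m) % 2 = m % 2 := by
      rw [Nat.mul_mod, hp1, one_mul, Nat.mod_mod]
    have h2 : p * m ≠ 0 := mul_ne_zero hp.ne_zero hm.ne'
    rw [h1]
    by_cases h3 : m % 2 = c
    · rw [if_pos ⟨h3, h2⟩, if_pos ⟨h3, hm.ne'⟩,
        ArithmeticFunction.cardFactors_mul hp.ne_zero hm.ne',
        ArithmeticFunction.cardFactors_apply_prime hp, pow_add, pow_one, neg_one_mul]
    · rw [if_neg (fun h => h3 h.1), if_neg (fun h => h3 h.1), neg_zero]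

theorem Gg_mul {g : ℕ → ℤ} (hg : CMg g) (c : ℕ) {p : ℕ} (hp : p.Prime) (hp2 : p ≠ 2) (m : ℕ) :
    Gg g c (p * m) = g p * Gg g c m := by
  have hp1 : p % 2 = 1 := (hp.eq_two_or_odd).resolve_left hp2
  unfold Gg
  rcases Nat.eq_zero_or_pos m with rfl | hm
  · simp
  · have h1 : (p * m) % 2 = m % 2 := by
      rw [Nat.mul_mod, hp1, one_mul, Nat.mod_mod]
    have h2 : p * m ≠ 0 := mul_ne_zero hp.ne_zero hm.ne'
    rw [h1]
    by_cases h3 : m % 2 = c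
    · rw [if_pos ⟨h3, h2⟩, if_pos ⟨h3, hm.ne'⟩, hg.mul p m hp.one_lt.le hm]
    · rw [if_neg (fun h => h3 h.1), if_neg (fun h => h3 h.1), mul_zero]

theorem Fl_abs (c m : ℕ) : |Fl c m| ≤ 1 := by
  unfold Fl
  split_ifs
  · rw [abs_neg_one_pow]
  · norm_num

theorem Gg_abs {g : ℕ → ℤ} (hg : CMg g) (c m : ℕ) : |Gg g c m| ≤ 1 := by
  unfold Gg
  split_ifs with h
  · rcases hg.val m (Nat.pos_of_ne_zero h.2) with h1 | h1 <;> rw [h1] <;> norm_num
  · norm_num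

/-- average over the levels, with weights, of the sums over forms -/
def AQ (W : ℝ → ℝ → ℝ) (F G : ℕ → ℤ) (b : ℝ) (w : ℕ → ℝ) (n : ℕ) : ℝ :=
  (1 / (n : ℝ) ^ 2) * ∑ i ∈ Finset.range (n ^ 2), w i * ((1 / tt n i) * QW W F G b (tt n i))

/-- limit average -/
def SW (U : Ultrafilter ℕ) (W : ℝ → ℝ → ℝ) (F G : ℕ → ℕ → ℤ) (b : ℝ) (w : ℕ → ℕ → ℝ) : ℝ :=
  ul U (fun n => AQ W (F n) (G n) b (w n) n)

/-- the sum over matrices for the cell `Q` of level `tt n i` and the size `2 ^ s * tt n i` -/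
def Pn (W : ℝ → ℝ → ℝ) (F G : ℕ → ℕ → ℤ) (b : ℝ) (p s : ℕ) (n i : ℕ) (Q : Fm) : ℝ :=
  Ph W (F n) (G n) b p (2 ^ s * tt n i) Q

end

end Pool.Agent.Lib.MP_0b748d_nt.HH
end

section

section

set_option autoImplicit false

/-!
# Counting cells, forms and vectors
-/

namespace Pool.Agent.Lib.MP_0b748d_nt.HH

open MR

noncomputable section

private lemma cnta_dvd_mod {n m : ℕ} (h : (m : ℤ) ∣ (n : ℤ) ^ 2 - 2) :
    (m : ℤ) ∣ ((n % m : ℕ) : ℤ) ^ 2 - 2 := by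
  have h1 : (m : ℤ) ∣ (n : ℤ) - ((n % m : ℕ) : ℤ) := by
    rw [Int.natCast_mod]
    exact Int.dvd_self_sub_emod
  have h2 : ((n % m : ℕ) : ℤ) ^ 2 - 2 = ((n : ℤ) ^ 2 - 2)
      - ((n : ℤ) - ((n % m : ℕ) : ℤ)) * ((n : ℤ) + ((n % m : ℕ) : ℤ)) := by ring
  rw [h2]
  exact dvd_sub h (Dvd.dvd.mul_right h1 _)

private lemma cnta_gap {n n' m : ℕ} (h : n % m = n' % m) (hlt : n < n') : n + m ≤ n' := by
  have h1 : m ∣ n' - n := (Nat.modEq_iff_dvd' hlt.le).mp h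
  have h2 : m ≤ n' - n := Nat.le_of_dvd (by omega) h1
  omega

private lemma cnta_lt {T : ℝ} {n n' m e e' : ℕ} (hm : 1 ≤ m) (hn : n ^ 2 = m * e + 2)
    (hn' : n' ^ 2 = m * e' + 2) (hT : T < ((m + 2 * n + e : ℕ) : ℝ)) (he' : (e' : ℝ) ≤ T)
    (h : n % m = n' % m) (hlt : n < n') : False := by
  have h1 := cnta_gap h hlt
  have h2 : (n + m) ^ 2 ≤ n' ^ 2 := Nat.pow_le_pow_left h1 2
  have h3 : m * (m + 2 * n + e) ≤ m * e' := by nlinarith
  have h4 : m + 2 * n + e ≤ e' := Nat.le_of_mul_le_mul_left h3 (by omega)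
  have h5 : ((m + 2 * n + e : ℕ) : ℝ) ≤ (e' : ℝ) := by exact_mod_cast h4
  linarith

/-- Map `Q ↦ Q.n % m` into the residues counted by `rho m` (`m ∣ n² - 2` as `m e = n² - 2`). It is
injective: if `n < n'` are congruent mod `m` then `n' ≥ n + m` and
`m e' = n'² - 2 ≥ (n + m)² - 2 = m (e + 2 n + m) = m * Q.val 1 1`, so `e' ≥ Q.val 1 1 > T`. -/
theorem Cl_d_card {T : ℝ} (hT : 0 ≤ T) (m : ℕ) (hm : 1 ≤ m) :
    ((Cl T).filter (fun Q => Q.d = m)).card ≤ rho m := by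
  classical
  refine Finset.card_le_card_of_injOn (fun Q => Q.n % m) ?_ ?_
  · intro Q hQ
    rw [Finset.mem_coe, Finset.mem_filter, mem_Cl hT] at hQ
    obtain ⟨⟨hok, _, _, _⟩, hd⟩ := hQ
    rw [Finset.mem_coe, Finset.mem_filter, Finset.mem_range]
    refine ⟨Nat.mod_lt _ (by omega), cnta_dvd_mod ?_⟩
    refine ⟨(Q.e : ℤ), ?_⟩
    have h := hok.2.2
    rw [hd] at h
    have h' : (Q.n : ℤ) ^ 2 = (m : ℤ) * (Q.e : ℤ) + 2 := by exact_mod_cast h
    linarith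
  · intro Q hQ Q' hQ' hEq
    rw [Finset.mem_coe, Finset.mem_filter, mem_Cl hT] at hQ hQ'
    obtain ⟨⟨hok, _, heT, hv⟩, hd⟩ := hQ
    obtain ⟨⟨hok', _, heT', hv'⟩, hd'⟩ := hQ'
    have hn := hok.2.2
    have hn' := hok'.2.2
    rw [hd] at hn
    rw [hd'] at hn'
    have e1 : Q.val 1 1 = m + 2 * Q.n + Q.e := by
      unfold Fm.val
      rw [hd]
      ring
    have e2 : Q'.val 1 1 = m + 2 * Q'.n + Q'.e := by
      unfold Fm.val
      rw [hd']
      ring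
    rw [e1] at hv
    rw [e2] at hv'
    have hnn : Q.n = Q'.n := by
      rcases lt_trichotomy Q.n Q'.n with h | h | h
      · exact (cnta_lt hm hn hn' hv heT' hEq h).elim
      · exact h
      · exact (cnta_lt hm hn' hn hv' heT hEq.symm h).elim
    have hee : Q.e = Q'.e := by
      rw [hnn, hn'] at hn
      have : m * Q'.e = m * Q.e := by omega
      exact (Nat.eq_of_mul_eq_mul_left (by omega) this).symm
    exact Fm.ext (hd.trans hd'.symm) hnn hee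

/-- symmetric to `Cl_d_card` (swap `d` and `e`) -/
theorem Cl_e_card {T : ℝ} (hT : 0 ≤ T) (m : ℕ) (hm : 1 ≤ m) :
    ((Cl T).filter (fun Q => Q.e = m)).card ≤ rho m := by
  classical
  refine Finset.card_le_card_of_injOn (fun Q => Q.n % m) ?_ ?_
  · intro Q hQ
    rw [Finset.mem_coe, Finset.mem_filter, mem_Cl hT] at hQ
    obtain ⟨⟨hok, _, _, _⟩, hd⟩ := hQ
    rw [Finset.mem_coe, Finset.mem_filter, Finset.mem_range]
    refine ⟨Nat.mod_lt _ (by omega), cnta_dvd_mod ?_⟩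
    refine ⟨(Q.d : ℤ), ?_⟩
    have h := hok.2.2
    rw [hd] at h
    have h' : (Q.n : ℤ) ^ 2 = (Q.d : ℤ) * (m : ℤ) + 2 := by exact_mod_cast h
    linarith
  · intro Q hQ Q' hQ' hEq
    rw [Finset.mem_coe, Finset.mem_filter, mem_Cl hT] at hQ hQ'
    obtain ⟨⟨hok, hdT, _, hv⟩, hd⟩ := hQ
    obtain ⟨⟨hok', hdT', _, hv'⟩, hd'⟩ := hQ'
    have hn := hok.2.2
    have hn' := hok'.2.2
    rw [hd, mul_comm] at hn
    rw [hd', mul_comm] at hn'
    have e1 : Q.val 1 1 = m + 2 * Q.n + Q.d := by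
      unfold Fm.val
      rw [hd]
      ring
    have e2 : Q'.val 1 1 = m + 2 * Q'.n + Q'.d := by
      unfold Fm.val
      rw [hd']
      ring
    rw [e1] at hv
    rw [e2] at hv'
    have hnn : Q.n = Q'.n := by
      rcases lt_trichotomy Q.n Q'.n with h | h | h
      · exact (cnta_lt hm hn hn' hv hdT' hEq h).elim
      · exact h
      · exact (cnta_lt hm hn' hn hv' hdT hEq.symm h).elim
    have hdd : Q.d = Q'.d := by
      rw [hnn, hn'] at hn
      have : m * Q'.d = m * Q.d := by omega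
      exact (Nat.eq_of_mul_eq_mul_left (by omega) this).symm
    exact Fm.ext hdd hnn (hd.trans hd'.symm)

end

end Pool.Agent.Lib.MP_0b748d_nt.HH
end

section

set_option autoImplicit false

/-!
# Counting cells, forms and vectors
-/

namespace Pool.Agent.Lib.MP_0b748d_nt.HH

open MR

noncomputable section

private theorem cntB_ok {T : ℝ} {Q : Fm} (h : Q ∈ Cl T) : Q.Ok ∧ Q.d ≤ ⌊T⌋₊ := by
  classical
  unfold Cl at h
  rw [Finset.mem_filter] at h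
  have h1 := h.1
  unfold Qs at h1
  rw [Finset.mem_filter, Finset.mem_image] at h1
  obtain ⟨⟨q, hq, rfl⟩, hok⟩ := h1
  refine ⟨hok, ?_⟩
  rw [Finset.mem_product, Finset.mem_product, Finset.mem_range, Finset.mem_range] at hq
  exact Nat.lt_succ_iff.1 hq.1

/-- Partial summation from `rho_sum` (or dyadic decomposition). -/
theorem rho_sqrt_sum : ∃ C : ℝ, 1 ≤ C ∧ ∀ Y : ℕ, 1 ≤ Y →
    ∑ m ∈ Finset.Icc 1 Y, (rho m : ℝ) / √(m : ℝ) ≤ C * √(Y : ℝ) := by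
  obtain ⟨C, hC1, hC⟩ := rho_sum
  have hC0 : 0 ≤ C := by linarith
  refine ⟨4 * C, by linarith, ?_⟩
  intro Y
  induction Y using Nat.strong_induction_on with
  | _ Y ih =>
    intro hY
    have hYr : (1 : ℝ) ≤ Y := by exact_mod_cast hY
    have hsY : 0 < √(Y : ℝ) := Real.sqrt_pos.2 (by linarith)
    have hss : √(Y : ℝ) * √(Y : ℝ) = Y := Real.mul_self_sqrt (by linarith)
    have hq4 : Y / 4 < Y := Nat.div_lt_self (by omega) (by norm_num)
    have hsplit : Finset.Icc 1 Y = Finset.Icc 1 (Y / 4) ∪ Finset.Icc (Y / 4 + 1) Y := by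
      ext m
      simp only [Finset.mem_Icc, Finset.mem_union]
      omega
    have hdisj : Disjoint (Finset.Icc 1 (Y / 4)) (Finset.Icc (Y / 4 + 1) Y) := by
      rw [Finset.disjoint_left]
      intro m h1 h2
      rw [Finset.mem_Icc] at h1 h2
      omega
    rw [hsplit, Finset.sum_union hdisj]
    have hhalf : √(Y : ℝ) / 2 = √((Y : ℝ) / 4) := by
      rw [Real.sqrt_div (by linarith)]
      congr 1
      rw [show (4 : ℝ) = 2 ^ 2 by norm_num, Real.sqrt_sq (by norm_num)]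
    have h1 : ∑ m ∈ Finset.Icc 1 (Y / 4), (rho m : ℝ) / √(m : ℝ) ≤ 4 * C * (√(Y : ℝ) / 2) := by
      rcases Nat.eq_zero_or_pos (Y / 4) with h0 | h0
      · rw [h0]
        simp only [Finset.Icc_eq_empty_of_lt Nat.zero_lt_one, Finset.sum_empty]
        positivity
      · refine (ih _ hq4 h0).trans (mul_le_mul_of_nonneg_left ?_ (by positivity))
        rw [hhalf]
        exact Real.sqrt_le_sqrt Nat.cast_div_le
    have h2 : ∑ m ∈ Finset.Icc (Y / 4 + 1) Y, (rho m : ℝ) / √(m : ℝ) ≤ 4 * C * (√(Y : ℝ) / 2) := by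
      have h3 : ∀ m ∈ Finset.Icc (Y / 4 + 1) Y, (rho m : ℝ) / √(m : ℝ) ≤
          (rho m : ℝ) / (√(Y : ℝ) / 2) := by
        intro m hm
        rw [Finset.mem_Icc] at hm
        have h4 : (Y : ℝ) / 4 ≤ m := by
          have h5 : Y < 4 * m := by omega
          have h6 : (Y : ℝ) < 4 * m := by exact_mod_cast h5
          linarith
        refine div_le_div_of_nonneg_left (Nat.cast_nonneg _) (by positivity) ?_
        rw [hhalf]
        exact Real.sqrt_le_sqrt h4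
      refine (Finset.sum_le_sum h3).trans ?_
      rw [← Finset.sum_div, div_le_iff₀ (by positivity)]
      have h7 : ∑ m ∈ Finset.Icc (Y / 4 + 1) Y, (rho m : ℝ) ≤ ∑ m ∈ Finset.Icc 1 Y, (rho m : ℝ) := by
        refine Finset.sum_le_sum_of_subset_of_nonneg ?_ fun _ _ _ => Nat.cast_nonneg _
        intro m hm
        rw [Finset.mem_Icc] at hm ⊢
        omega
      refine (h7.trans (hC Y hY)).trans (le_of_eq ?_)
      calc C * (Y : ℝ) = C * (√(Y : ℝ) * √(Y : ℝ)) := by rw [hss]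
        _ = 4 * C * (√(Y : ℝ) / 2) * (√(Y : ℝ) / 2) := by ring
    calc _ ≤ 4 * C * (√(Y : ℝ) / 2) + 4 * C * (√(Y : ℝ) / 2) := add_le_add h1 h2
      _ = 4 * C * √(Y : ℝ) := by ring

open Classical in
/-- `Cl_d_card`, `Cl_e_card`, `rho_sum`: the number of cells with `d ≤ x` or `e ≤ x` -/
theorem Cl_small : ∃ C : ℝ, 1 ≤ C ∧ ∀ T x : ℝ, 0 ≤ T → 0 ≤ x →
    (((Cl T).filter (fun Q => (Q.d : ℝ) ≤ x ∨ (Q.e : ℝ) ≤ x)).card : ℝ) ≤ C * x := by
  obtain ⟨C, hC1, hC⟩ := rho_sum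
  have hC0 : 0 ≤ C := by linarith
  refine ⟨2 * C, by linarith, ?_⟩
  intro T x hT hx
  have hsub : (Cl T).filter (fun Q => (Q.d : ℝ) ≤ x ∨ (Q.e : ℝ) ≤ x) ⊆
      (Finset.Icc 1 ⌊x⌋₊).biUnion fun m =>
        (Cl T).filter (fun Q => Q.d = m) ∪ (Cl T).filter (fun Q => Q.e = m) := by
    intro Q hQ
    rw [Finset.mem_filter] at hQ
    obtain ⟨hok, -⟩ := cntB_ok hQ.1
    rw [Finset.mem_biUnion]
    rcases hQ.2 with h | h
    · refine ⟨Q.d, Finset.mem_Icc.2 ⟨hok.1, Nat.le_floor h⟩, ?_⟩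
      rw [Finset.mem_union, Finset.mem_filter]
      exact Or.inl ⟨hQ.1, rfl⟩
    · refine ⟨Q.e, Finset.mem_Icc.2 ⟨hok.2.1, Nat.le_floor h⟩, ?_⟩
      rw [Finset.mem_union, Finset.mem_filter, Finset.mem_filter]
      exact Or.inr ⟨hQ.1, rfl⟩
  have h1 : ((Cl T).filter (fun Q => (Q.d : ℝ) ≤ x ∨ (Q.e : ℝ) ≤ x)).card ≤
      ∑ m ∈ Finset.Icc 1 ⌊x⌋₊, 2 * rho m := by
    refine (Finset.card_le_card hsub).trans (Finset.card_biUnion_le.trans ?_)
    refine Finset.sum_le_sum fun m hm => ?_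
    rw [Finset.mem_Icc] at hm
    refine (Finset.card_union_le _ _).trans ?_
    have h2 := Cl_d_card hT m hm.1
    have h3 := Cl_e_card hT m hm.1
    omega
  have h2 : (((Cl T).filter (fun Q => (Q.d : ℝ) ≤ x ∨ (Q.e : ℝ) ≤ x)).card : ℝ) ≤
      2 * ∑ m ∈ Finset.Icc 1 ⌊x⌋₊, (rho m : ℝ) := by
    rw [Finset.mul_sum]
    exact_mod_cast h1
  refine h2.trans ?_
  rcases Nat.eq_zero_or_pos ⌊x⌋₊ with h0 | h0
  · rw [h0]
    simp only [Finset.Icc_eq_empty_of_lt Nat.zero_lt_one, Finset.sum_empty, mul_zero]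
    positivity
  · have h3 := hC _ h0
    have h4 : (⌊x⌋₊ : ℝ) ≤ x := Nat.floor_le hx
    have h5 : C * (⌊x⌋₊ : ℝ) ≤ C * x := mul_le_mul_of_nonneg_left h4 hC0
    linarith

/-- `Cl_small` with `x = T` -/
theorem Cl_card : ∃ C : ℝ, 1 ≤ C ∧ ∀ T : ℝ, 0 ≤ T → ((Cl T).card : ℝ) ≤ C * T := by
  classical
  obtain ⟨C, hC1, hC⟩ := Cl_small
  refine ⟨C, hC1, fun T hT => ?_⟩
  refine le_trans ?_ (hC T T hT hT)
  have h1 : Cl T ⊆ (Cl T).filter (fun Q => (Q.d : ℝ) ≤ T ∨ (Q.e : ℝ) ≤ T) := by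
    intro Q hQ
    rw [Finset.mem_filter]
    refine ⟨hQ, Or.inl ?_⟩
    have h2 : (Q.d : ℝ) ≤ (⌊T⌋₊ : ℝ) := by exact_mod_cast (cntB_ok hQ).2
    exact h2.trans (Nat.floor_le hT)
  exact_mod_cast Finset.card_le_card h1

open Classical in
/-- `Cl_small` with `x = δ T` -/
theorem Cl_bad : ∃ C : ℝ, 1 ≤ C ∧ ∀ T δ : ℝ, 0 ≤ T → 0 < δ →
    (((Cl T).filter (fun Q => ¬ Gc δ T Q)).card : ℝ) ≤ C * δ * T := by
  obtain ⟨C, hC1, hC⟩ := Cl_small
  refine ⟨C, hC1, fun T δ hT hδ => ?_⟩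
  refine le_trans ?_ ((hC T (δ * T) hT (by positivity)).trans (le_of_eq (by ring)))
  have h1 : (Cl T).filter (fun Q => ¬ Gc δ T Q) ⊆
      (Cl T).filter (fun Q => (Q.d : ℝ) ≤ δ * T ∨ (Q.e : ℝ) ≤ δ * T) := by
    intro Q hQ
    rw [Finset.mem_filter] at hQ ⊢
    refine ⟨hQ.1, ?_⟩
    by_contra hcon
    push Not at hcon
    exact hQ.2 ⟨hcon.1.le, hcon.2.le⟩
  exact_mod_cast Finset.card_le_card h1

end

end Pool.Agent.Lib.MP_0b748d_nt.HH
end
end
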