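import Pool.Agent.Lib.MP_0b748d_nt.MR.DirsA
import Pool.Agent.Lib.PNT.Main

section

set_option autoImplicit false

/-!
# Small averages of the Liouville function in angular windows: definitions
-/

namespace Pool.Agent.Lib.MP_0b748d_nt.HH

open Zsqrtd MR MeasureTheory

noncomputable section

/-- the Liouville function on the numbers congruent to `c` modulo `2` -/
def Fl (c m : ℕ) : ℤ := if m % 2 = c ∧ m ≠ 0 then (-1) ^ (ArithmeticFunction.cardFactors m) else 0

open Classical in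
/-- primitive totally positive elements of norm `< Y`, normalised angle in `[θ, θ + h)`, congruent to
`r + s √2` modulo `W` (used for `θ ∈ [0, 1]`, `h ≤ 1`, so that the angles are bounded) -/
def Wz (W : ℕ) (r s : ℤ) (Y θ h : ℝ) : Finset (ℤ√2) :=
  (AA Y).filter (fun z => Prim z ∧ (nm z : ℝ) < Y ∧ θ ≤ al z ∧ al z < θ + h ∧
    (W : ℤ) ∣ z.re - r ∧ (W : ℤ) ∣ z.im - s)

end

end Pool.Agent.Lib.MP_0b748d_nt.HH
end

section

set_option autoImplicit false

/-!
# Block D: definitions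
-/

namespace Pool.Agent.Lib.MP_0b748d_nt.HD

open Zsqrtd MR

noncomputable section

/-- the Liouville function -/
def lio (m : ℕ) : ℤ := (-1) ^ (ArithmeticFunction.cardFactors m)

/-- the Liouville function of the norm -/
def lz (z : ℤ√2) : ℂ := fg lio z

/-- multiplicative functions of period `W` and modulus at most one -/
structure Hc (W : ℕ) (χ : ℤ√2 → ℂ) : Prop where
  mul : ∀ z w, χ (z * w) = χ z * χ w
  one : χ 1 = 1
  per : ∀ z w, ((W : ℕ) : ℤ√2) ∣ z - w → χ z = χ w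
  le : ∀ z, ‖χ z‖ ≤ 1

/-- norm prime to `W` -/
def Cp (W : ℕ) (z : ℤ√2) : Prop := IsCoprime (nm z) (W : ℤ)

/-- a character together with an angular twist which makes it invariant under units; `ν` is a
multiple of the orders -/
structure Tw (W : ℕ) (χ : ℤ√2 → ℂ) (κ0 : ℝ) (ν : ℕ) : Prop where
  hc : Hc W χ
  un : χ uu * ee κ0 = 1
  pos : 1 ≤ ν
  pow : ∀ z, Cp W z → χ z ^ ν = 1
  int : ∃ m : ℤ, (ν : ℝ) * κ0 = m

/-- `λ(nm z) χ(z) e(κ al z)` -/
def fx (χ : ℤ√2 → ℂ) (κ : ℝ) (z : ℤ√2) : ℂ := lz z * χ z * ee (κ * al z)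

/-- duality on sparse sets of frequencies `|k| ≤ X` for sums over elements of norm `< 2 Y` -/
def DualP (α η : ℝ) : Prop := 0 < α ∧ α ≤ 1 / 4 ∧ 0 < η ∧ η ≤ 1 / 8 ∧ ∃ X0 : ℝ, 2 ≤ X0 ∧
  ∀ X : ℝ, X0 ≤ X → ∀ Y : ℝ, X ^ ((7 : ℝ) / 8) ≤ Y → Y ≤ X → ∀ A : ℝ, 0 ≤ A → ∀ 𝒰 : Finset ℤ,
  (∀ k ∈ 𝒰, |(k : ℝ)| ≤ X) → (𝒰.card : ℝ) ≤ X ^ (3 * α) → ∀ a : ℤ√2 → ℂ,
  ∑ k ∈ 𝒰, ‖∑ w ∈ Us A (2 * Y), a w * xi k w‖ ^ 2 ≤
    (((Us A (2 * Y)).card : ℝ) + Y ^ (1 - η)) * ∑ w ∈ Us A (2 * Y), ‖a w‖ ^ 2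

/-- the frequencies `k + κ0 ≠ 0` of a sparse set carry at most `ρ Y²` at all levels
`Y ∈ [X^(1-b), X]` -/
def GoodF (f : ℤ√2 → ℂ) (κ0 α ρ : ℝ) : Prop := ∃ b X0 : ℝ, 0 < b ∧ b ≤ 1 / 8 ∧ 2 ≤ X0 ∧
  ∀ X : ℝ, X0 ≤ X → ∀ Y : ℝ, X ^ (1 - b) ≤ Y → Y ≤ X → ∀ 𝒰 : Finset ℤ,
  (∀ k ∈ 𝒰, |(k : ℝ)| ≤ X ∧ (k : ℝ) + κ0 ≠ 0) → (𝒰.card : ℝ) ≤ X ^ (3 * α) →
  ∑ k ∈ 𝒰, ‖Ap f k Y (2 * Y)‖ ^ 2 ≤ ρ * Y ^ 2

/-- dyadic sums over all odd elements -/
def Vf (f : ℤ√2 → ℂ) (X : ℝ) : ℂ := ∑ z ∈ Vs X (2 * X), f z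

/-- normalised dyadic sums -/
def uf (f : ℤ√2 → ℂ) (X : ℝ) : ℂ := Vf f X / X

/-- weight of a set of split primes -/
def WI (I : Finset ℕ) : ℝ := ∑ p ∈ I, 2 / (p : ℝ)

open Classical in
/-- the split primes below `Q` -/
def SQ (Q : ℕ) : Finset ℕ := (Finset.range Q).filter Sp

/-- sum of `φ` over the odd elements of norm `n` modulo units -/
def an (φ : ℤ√2 → ℂ) (n : ℕ) : ℂ := ∑ z ∈ (Vs 0 ((n : ℝ) + 1)).filter (fun z => nm z = n), φ z

/-- the terms of the Dirichlet series of `an φ` -/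
def fL (φ : ℤ√2 → ℂ) (σ : ℝ) (n : ℕ) : ℂ := an φ n * (((n : ℝ) ^ (-σ) : ℝ) : ℂ)

/-- the local factor -/
def loc (φ : ℤ√2 → ℂ) (σ : ℝ) (p : ℕ) : ℂ := ∑' e : ℕ, fL φ σ (p ^ e)

/-- the sum over the residue classes modulo `M` (`M ≥ 1`) -/
def cs (M : ℕ) (ρ : ZMod M → ℂ) : ℂ := ∑ i ∈ Finset.range M, ρ ((i : ℕ) : ZMod M)

open Classical in
/-- the primes in `[y, z)` -/
def Pr (y z : ℝ) : Finset ℕ := (Finset.range (⌈z⌉₊ + 1)).filter (fun p => p.Prime ∧ y ≤ p ∧ (p : ℝ) < z)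

open Classical in
/-- odd primitive totally positive elements of norm `< Y` with normalised angle in `[θ, θ + h)`
(used for `θ ∈ [-1, 1]`, `h ≤ 1`) -/
def Pz (Y θ h : ℝ) : Finset (ℤ√2) :=
  (AA Y).filter (fun z => OT z ∧ Prim z ∧ (nm z : ℝ) < Y ∧ θ ≤ al z ∧ al z < θ + h)

end

end Pool.Agent.Lib.MP_0b748d_nt.HD
end

section

set_option autoImplicit false

/-!
# Entropy decrement
-/

namespace Pool.Agent.Lib.MP_0b748d_nt.HH

open Filter Topology MR

noncomputable section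

open Classical in
/-- the split primes in `[P, 2 P)` -/
def PP (P : ℕ) : Finset ℕ := (Finset.Ico P (2 * P)).filter Sp

theorem PP_prime (P : ℕ) : ∀ p ∈ PP P, p.Prime := by
  intro p hp
  classical
  unfold PP at hp
  exact (Finset.mem_filter.1 hp).2.1

private theorem deca_mem {P p : ℕ} : p ∈ PP P ↔ (P ≤ p ∧ p < 2 * P) ∧ Sp p := by
  classical
  unfold PP
  rw [Finset.mem_filter, Finset.mem_Ico]

/-- from `pnt_pi` (or Chebyshev's bound) -/
theorem PP_card_le : ∃ C : ℝ, 1 ≤ C ∧ ∀ P : ℕ, 2 ≤ P → ((PP P).card : ℝ) * Real.log P ≤ C * P := by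
  have hlog4 : 1 ≤ Real.log 4 := by
    rw [Real.le_log_iff_exp_le (by norm_num)]
    exact Real.exp_one_lt_d9.le.trans (by norm_num)
  refine ⟨2 * Real.log 4, by linarith, fun P hP => ?_⟩
  have hP0 : (0 : ℝ) < P := by
    have : 0 < P := by omega
    exact_mod_cast this
  calc ((PP P).card : ℝ) * Real.log P = ∑ _p ∈ PP P, Real.log P := by
        rw [Finset.sum_const, nsmul_eq_mul]
    _ ≤ ∑ p ∈ PP P, Real.log p := by
        refine Finset.sum_le_sum fun p hp => ?_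
        have h := deca_mem.1 hp
        exact Real.log_le_log hP0 (by exact_mod_cast h.1.1)
    _ ≤ Chebyshev.theta ((2 * P : ℕ) : ℝ) := by
        unfold Chebyshev.theta
        rw [Nat.floor_natCast]
        refine Finset.sum_le_sum_of_subset_of_nonneg ?_ ?_
        · intro p hp
          have h := deca_mem.1 hp
          rw [Finset.mem_filter, Finset.mem_Ioc]
          exact ⟨⟨h.2.1.pos, h.1.2.le⟩, h.2.1⟩
        · intro p _ _
          exact Real.log_natCast_nonneg p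
    _ ≤ Real.log 4 * ((2 * P : ℕ) : ℝ) := Chebyshev.theta_le_log4_mul_x (Nat.cast_nonneg _)
    _ = 2 * Real.log 4 * P := by push_cast; ring

/-- from `pnt_residueClass` modulo `8` for the class `1`: `∑ Λ (m) ~ x / 4`, the prime powers are
negligible, so `∑_{P ≤ p < 2 P, p ≡ 1 mod 8} log p ≥ P / 5` for large `P` -/
theorem PP_card_ge : ∃ c : ℝ, 0 < c ∧ ∃ P0 : ℕ, ∀ P : ℕ, P0 ≤ P →
    c * P ≤ ((PP P).card : ℝ) * Real.log P := by
  classical
  obtain ⟨C, hC⟩ := Chebyshev.psi_sub_theta_le_mul_sqrt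
  have hpnt := PNT.pnt_residueClass (q := 8) (a := 1) isUnit_one
  have htot : Nat.totient 8 = 4 := by decide
  rw [htot] at hpnt
  set R : ℕ → ℝ := ArithmeticFunction.vonMangoldt.residueClass (1 : ZMod 8) with hR
  set S : ℝ → ℝ := fun x => ∑ k ∈ Finset.Icc 1 ⌊x⌋₊, R k with hS
  -- errors
  have h1 : ∀ᶠ x : ℝ in atTop, |S x / x - 4⁻¹| < 1 / 100 := by
    have := (Metric.tendsto_nhds.1 hpnt) (1 / 100) (by norm_num)
    refine this.mono fun x hx => ?_
    rw [Real.dist_eq] at hx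
    exact_mod_cast hx
  have h2 : ∀ᶠ x : ℝ in atTop, |C| * Real.sqrt x ≤ x / 100 := by
    have ht : Tendsto (fun x : ℝ => Real.sqrt x) atTop atTop := Real.tendsto_sqrt_atTop
    filter_upwards [ht.eventually_ge_atTop (100 * |C|), eventually_gt_atTop (0 : ℝ)] with x hx hx0
    have hsq : Real.sqrt x * Real.sqrt x = x := Real.mul_self_sqrt hx0.le
    have hs0 : 0 ≤ Real.sqrt x := Real.sqrt_nonneg x
    have := mul_le_mul_of_nonneg_right hx hs0
    rw [hsq] at this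
    linarith
  obtain ⟨X, hX⟩ := (h1.and h2).exists_forall_of_atTop
  obtain ⟨X0, hX0⟩ := exists_nat_ge X
  refine ⟨1 / 20, by norm_num, max (X0 + 2) 2, fun P hP => ?_⟩
  have hP2 : X0 + 2 ≤ P := le_trans (le_max_left _ _) hP
  have hP0 : (0 : ℝ) < P := by
    have : 0 < P := by omega
    exact_mod_cast this
  have hP1 : (2 : ℝ) ≤ P := by
    have : 2 ≤ P := by omega
    exact_mod_cast this
  have hXP1 : X ≤ ((P - 1 : ℕ) : ℝ) := by
    refine hX0.trans ?_
    have : X0 ≤ P - 1 := by omega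
    exact_mod_cast this
  have hXP2 : X ≤ ((2 * P - 1 : ℕ) : ℝ) := by
    refine hX0.trans ?_
    have : X0 ≤ 2 * P - 1 := by omega
    exact_mod_cast this
  have hc1 : ((P - 1 : ℕ) : ℝ) = (P : ℝ) - 1 := by
    rw [Nat.cast_sub (by omega)]
    simp
  have hc2 : ((2 * P - 1 : ℕ) : ℝ) = 2 * (P : ℝ) - 1 := by
    rw [Nat.cast_sub (by omega)]
    push_cast
    ring
  have e1 := (hX _ hXP1).1
  have e2 := (hX _ hXP2).1
  have e3 := (hX _ hXP2).2
  have u1 : S ((P - 1 : ℕ) : ℝ) ≤ (4⁻¹ + 1 / 100) * ((P : ℝ) - 1) := by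
    have hpos : (0 : ℝ) < (P : ℝ) - 1 := by linarith
    have := (abs_lt.1 e1).2
    rw [hc1] at this
    rw [hc1]
    have h3 : S ((P : ℝ) - 1) / ((P : ℝ) - 1) ≤ 4⁻¹ + 1 / 100 := by linarith
    rwa [div_le_iff₀ hpos] at h3
  have u2 : (4⁻¹ - 1 / 100) * (2 * (P : ℝ) - 1) ≤ S ((2 * P - 1 : ℕ) : ℝ) := by
    have hpos : (0 : ℝ) < 2 * (P : ℝ) - 1 := by linarith
    have := (abs_lt.1 e2).1
    rw [hc2] at this
    rw [hc2]
    have h3 : 4⁻¹ - 1 / 100 ≤ S (2 * (P : ℝ) - 1) / (2 * (P : ℝ) - 1) := by linarith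
    rwa [le_div_iff₀ hpos] at h3
  -- the difference
  have hsplit : S ((2 * P - 1 : ℕ) : ℝ) = S ((P - 1 : ℕ) : ℝ) + ∑ k ∈ Finset.Ico P (2 * P), R k := by
    simp only [hS, Nat.floor_natCast]
    have hd : Finset.Icc 1 (2 * P - 1) = Finset.Icc 1 (P - 1) ∪ Finset.Ico P (2 * P) := by
      ext k
      simp only [Finset.mem_Icc, Finset.mem_union, Finset.mem_Ico]
      omega
    rw [hd, Finset.sum_union]
    rw [Finset.disjoint_left]
    intro k hk hk2
    simp only [Finset.mem_Icc, Finset.mem_Ico] at hk hk2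
    omega
  have hdiff : (1 / 5) * (P : ℝ) ≤ ∑ k ∈ Finset.Ico P (2 * P), R k := by
    have : (4⁻¹ - 1 / 100) * (2 * (P : ℝ) - 1) - (4⁻¹ + 1 / 100) * ((P : ℝ) - 1) ≤
        ∑ k ∈ Finset.Ico P (2 * P), R k := by linarith
    refine le_trans ?_ this
    norm_num
    nlinarith
  -- primes and non-primes
  have hpr : ∑ k ∈ Finset.Ico P (2 * P), R k ≤
      ∑ p ∈ PP P, Real.log p +
        ∑ k ∈ (Finset.Ico P (2 * P)).filter (fun k => ¬ k.Prime), ArithmeticFunction.vonMangoldt k := by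
    rw [← Finset.sum_filter_add_sum_filter_not (Finset.Ico P (2 * P)) (fun k => k.Prime)]
    refine add_le_add ?_ ?_
    · have hsub : ∑ k ∈ (Finset.Ico P (2 * P)).filter (fun k => k.Prime), R k =
          ∑ k ∈ ((Finset.Ico P (2 * P)).filter (fun k => k.Prime)).filter
            (fun k : ℕ => (k : ZMod 8) = 1), R k := by
        symm
        rw [Finset.sum_filter]
        refine Finset.sum_congr rfl fun k _ => ?_
        split_ifs with h
        · rfl
        · rw [hR]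
          unfold ArithmeticFunction.vonMangoldt.residueClass
          rw [Set.indicator_of_notMem]
          exact h
      rw [hsub]
      refine (Finset.sum_le_sum (g := fun k : ℕ => Real.log (k : ℝ)) fun k hk => ?_).trans
        (Finset.sum_le_sum_of_subset_of_nonneg ?_ ?_)
      · refine (ArithmeticFunction.vonMangoldt.residueClass_le (1 : ZMod 8) k).trans ?_
        have hkp : k.Prime := (Finset.mem_filter.1 (Finset.mem_filter.1 hk).1).2
        rw [ArithmeticFunction.vonMangoldt_apply_prime hkp]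
      · intro k hk
        have hk1 := Finset.mem_filter.1 hk
        have hk2 := Finset.mem_filter.1 hk1.1
        have hk3 := Finset.mem_Ico.1 hk2.1
        have hk4 : k % 8 = 1 := by
          have h8 : ((k : ℕ) : ZMod 8) = ((1 : ℕ) : ZMod 8) := by simpa using hk1.2
          rw [ZMod.natCast_eq_natCast_iff] at h8
          have : k % 8 = 1 % 8 := h8
          simpa using this
        exact deca_mem.2 ⟨⟨hk3.1, hk3.2⟩, hk2.2, Or.inl hk4⟩
      · intro k _ _
        exact Real.log_natCast_nonneg k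
    · refine Finset.sum_le_sum fun k _ => ?_
      exact ArithmeticFunction.vonMangoldt.residueClass_le (1 : ZMod 8) k
  have hnp : ∑ k ∈ (Finset.Ico P (2 * P)).filter (fun k => ¬ k.Prime),
      ArithmeticFunction.vonMangoldt k ≤ (2 * (P : ℝ)) / 100 := by
    have hle : ∑ k ∈ (Finset.Ico P (2 * P)).filter (fun k => ¬ k.Prime),
        ArithmeticFunction.vonMangoldt k ≤
        Chebyshev.psi ((2 * P - 1 : ℕ) : ℝ) - Chebyshev.theta ((2 * P - 1 : ℕ) : ℝ) := by
      unfold Chebyshev.psi Chebyshev.theta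
      rw [Nat.floor_natCast]
      rw [← Finset.sum_filter_add_sum_filter_not (Finset.Ioc 0 (2 * P - 1)) (fun k => k.Prime)]
      have hsame : ∑ k ∈ (Finset.Ioc 0 (2 * P - 1)).filter (fun k => k.Prime),
          ArithmeticFunction.vonMangoldt k =
          ∑ k ∈ (Finset.Ioc 0 (2 * P - 1)).filter (fun k => k.Prime), Real.log (k : ℝ) := by
        refine Finset.sum_congr rfl fun k hk => ?_
        rw [ArithmeticFunction.vonMangoldt_apply_prime (Finset.mem_filter.1 hk).2]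
      rw [hsame, add_sub_cancel_left]
      refine Finset.sum_le_sum_of_subset_of_nonneg ?_ ?_
      · intro k hk
        have hk1 := Finset.mem_filter.1 hk
        have hk2 := Finset.mem_Ico.1 hk1.1
        rw [Finset.mem_filter, Finset.mem_Ioc]
        refine ⟨⟨by omega, by omega⟩, hk1.2⟩
      · intro k _ _
        exact ArithmeticFunction.vonMangoldt_nonneg
    refine hle.trans ((hC _).trans ?_)
    refine (mul_le_mul_of_nonneg_right (le_abs_self C) (Real.sqrt_nonneg _)).trans ?_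
    refine e3.trans ?_
    rw [hc2]
    linarith
  have hlogsum : ∑ p ∈ PP P, Real.log p ≤ ((PP P).card : ℝ) * (2 * Real.log P) := by
    rw [← nsmul_eq_mul, ← Finset.sum_const]
    refine Finset.sum_le_sum fun p hp => ?_
    have h := deca_mem.1 hp
    have hp0 : (0 : ℝ) < p := by exact_mod_cast h.2.1.pos
    have h5 : Real.log p ≤ Real.log (2 * P) :=
      Real.log_le_log hp0 (by exact_mod_cast h.1.2.le)
    refine h5.trans ?_
    rw [Real.log_mul (by norm_num) hP0.ne']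
    have := Real.log_le_log (by norm_num) hP1
    linarith
  have : (1 / 5) * (P : ℝ) ≤ ((PP P).card : ℝ) * (2 * Real.log P) + (2 * (P : ℝ)) / 100 := by
    linarith
  nlinarith

end

end Pool.Agent.Lib.MP_0b748d_nt.HH
end
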