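import Pool.Agent.Lib.MP_0b748d_nt.HH.TreeB
import Pool.Agent.Lib.MP_0b748d_nt.HH.CmodC

section

set_option autoImplicit false

/-!
# Residues of forms modulo primes
-/

namespace Pool.Agent.Lib.MP_0b748d_nt.HH

open Filter Topology

noncomputable section

/-- `(2, 2, 1) = l l l⁻¹ r l⁻¹ (1, 2, 2)`: the steps are `(1, 1, -1)`, `(2, 0, -1)`, `(2, -2, 1)`,
`(2, 0, -1)`, `(2, 2, 1)`. -/
theorem root_mem (p : ℕ) : ((2, 2, 1) : Rp p) ∈ Orb p := by
  have hl : rl p ∈ Subgroup.closure ({rl p, rr p} : Set (Equiv.Perm (Rp p))) :=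
    Subgroup.subset_closure (by simp)
  have hr : rr p ∈ Subgroup.closure ({rl p, rr p} : Set (Equiv.Perm (Rp p))) :=
    Subgroup.subset_closure (by simp)
  refine ⟨rl p * (rl p * ((rl p)⁻¹ * (rr p * (rl p)⁻¹))),
    Subgroup.mul_mem _ hl (Subgroup.mul_mem _ hl (Subgroup.mul_mem _ (Subgroup.inv_mem _ hl)
      (Subgroup.mul_mem _ hr (Subgroup.inv_mem _ hl)))), ?_⟩
  change rl p (rl p ((rl p).symm (rr p ((rl p).symm (1, 2, 2))))) = _
  simp only [rl, rr, Equiv.coe_fn_mk, Equiv.coe_fn_symm_mk]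
  refine Prod.ext ?_ (Prod.ext ?_ ?_)
  · simp only
    ring
  · simp only
    ring
  · simp only
    ring

private lemma orb_stable_aux (p : ℕ) {y : Rp p} (hy : y ∈ Orb p) {g : Equiv.Perm (Rp p)}
    (hg : g ∈ ({rl p, rr p} : Set (Equiv.Perm (Rp p)))) : g y ∈ Orb p := by
  obtain ⟨h, hh, rfl⟩ := hy
  exact ⟨g * h, Subgroup.mul_mem _ (Subgroup.subset_closure hg) hh, rfl⟩

/-- induction with `parent` -/
theorem res_mem {Q : Fm} (hQ : Q.Ok) (p : ℕ) : res p Q ∈ Orb p := by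
  have key : ∀ (m : ℕ) (Q : Fm), Q.d + Q.e ≤ m → Q.Ok → res p Q ∈ Orb p := by
    intro m
    induction m with
    | zero =>
      intro Q hm hQ
      have := hQ.1
      omega
    | succ m ih =>
      intro Q hm hQ
      rcases parent hQ with h | h | ⟨Q', hQ', h⟩ | ⟨Q', hQ', h⟩
      · subst h
        refine ⟨1, Subgroup.one_mem _, ?_⟩
        simp [res]
      · subst h
        have h2 : res p ⟨2, 2, 1⟩ = (2, 2, 1) := by simp [res]
        rw [h2]
        exact root_mem p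
      · subst h
        have h1 : Q'.d + Q'.e ≤ m := by
          have h3 : (Q'.lc).d = Q'.d := rfl
          have h4 : (Q'.lc).e = Q'.d + 2 * Q'.n + Q'.e := rfl
          have := hQ'.1
          omega
        have h2 : res p Q'.lc = rl p (res p Q') := by
          simp [res, rl, Fm.lc]
        rw [h2]
        exact orb_stable_aux p (ih Q' h1 hQ') (by simp)
      · subst h
        have h1 : Q'.d + Q'.e ≤ m := by
          have h3 : (Q'.rc).e = Q'.e := rfl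
          have h4 : (Q'.rc).d = Q'.d + 2 * Q'.n + Q'.e := rfl
          have := hQ'.2.1
          omega
        have h2 : res p Q'.rc = rr p (res p Q') := by
          simp [res, rr, Fm.rc]
        rw [h2]
        exact orb_stable_aux p (ih Q' h1 hQ') (by simp)
  exact key _ Q le_rfl hQ

/-- every residue in the orbit satisfies `n² = d e + 2` -/
theorem Orb_eq (p : ℕ) {y : Rp p} (hy : y ∈ Orb p) : y.2.1 ^ 2 = y.1 * y.2.2 + 2 := by
  obtain ⟨g, hg, rfl⟩ := hy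
  have key : ∀ z : Rp p, (g z).2.1 ^ 2 - (g z).1 * (g z).2.2 = z.2.1 ^ 2 - z.1 * z.2.2 := by
    induction hg using Subgroup.closure_induction with
    | mem g hg =>
      intro z
      rcases hg with rfl | rfl
      · simp only [rl, Equiv.coe_fn_mk]
        ring
      · simp only [rr, Equiv.coe_fn_mk]
        ring
    | one => intro z; rfl
    | mul g h _ _ hg hh =>
      intro z
      rw [Equiv.Perm.mul_apply, hg, hh]
    | inv g _ hg =>
      intro z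
      have h1 := hg (g⁻¹ z)
      have e : g (g⁻¹ z) = z := Equiv.apply_symm_apply g z
      rw [e] at h1
      exact h1.symm
  have h1 := key (1, 2, 2)
  simp only at h1
  linear_combination h1

end

end Pool.Agent.Lib.MP_0b748d_nt.HH
end

section

set_option autoImplicit false

/-!
# The tree of forms and the cells
-/

namespace Pool.Agent.Lib.MP_0b748d_nt.HH

noncomputable section

theorem treeF_two {Q : Fm} (hQ : Q.Ok) : 2 ≤ Q.n := by
  obtain ⟨h1, h2, h3⟩ := hQ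
  by_contra h
  have h4 : Q.n ≤ 1 := by omega
  have h5 : 1 ≤ Q.d * Q.e := Nat.mul_pos h1 h2
  have h6 : Q.n ^ 2 ≤ 1 := by
    calc Q.n ^ 2 ≤ 1 ^ 2 := Nat.pow_le_pow_left h4 2
      _ = 1 := by norm_num
  omega

theorem treeF_sq {Q : Fm} (hQ : Q.Ok) : (Q.n : ℝ) ^ 2 = (Q.d : ℝ) * Q.e + 2 := by
  exact_mod_cast hQ.2.2

/-- `√(d e) ≤ n ≤ √(d e) + 1` -/
theorem n_bounds {Q : Fm} (hQ : Q.Ok) : √((Q.d : ℝ) * Q.e) < Q.n ∧ (Q.n : ℝ) ≤ √((Q.d : ℝ) * Q.e) + 1 := by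
  have h1 := treeF_sq hQ
  have h2 : (2 : ℝ) ≤ Q.n := by exact_mod_cast treeF_two hQ
  constructor
  · rw [Real.sqrt_lt' (by linarith)]
    linarith
  · have h3 : (Q.n : ℝ) - 1 ≤ √((Q.d : ℝ) * Q.e) := by
      apply Real.le_sqrt_of_sq_le
      nlinarith
    linarith

/-- `(√d x + √e y)² ≤ Q.val x y ≤ (√d x + √e y)² + 2 x y` and even
`Q.val x y ≤ (1 + 2 / n ^ 2) (√d x + √e y)²`. Proof: `n² = d e + 2 ≤ 3 d e`, so `√(d e) ≥ n / √3`;
`n - √(d e) = 2 / (n + √(d e)) ≤ 2 / ((1 + 1 / √3) n)`; the error `2 (n - √(d e)) x y` is at most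
`(4 / (1 + 1 / √3)) x y / n` and `x y ≤ (√d x + √e y)² / (4 √(d e)) ≤ √3 (√d x + √e y)² / (4 n)`;
`√3 / (1 + 1 / √3) ≤ 2`. -/
theorem val_bounds {Q : Fm} (hQ : Q.Ok) (x y : ℕ) :
    (√(Q.d : ℝ) * x + √(Q.e : ℝ) * y) ^ 2 ≤ (Q.val x y : ℝ) ∧
    (Q.val x y : ℝ) ≤ (1 + 2 / (Q.n : ℝ) ^ 2) * (√(Q.d : ℝ) * x + √(Q.e : ℝ) * y) ^ 2 := by
  have h1 := treeF_sq hQ
  have h2 : (2 : ℝ) ≤ Q.n := by exact_mod_cast treeF_two hQ
  have hd : (0 : ℝ) < Q.d := by exact_mod_cast hQ.1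
  have he : (0 : ℝ) < Q.e := by exact_mod_cast hQ.2.1
  have hs := (n_bounds hQ).1
  obtain ⟨a, ha⟩ : ∃ a, a = √(Q.d : ℝ) := ⟨_, rfl⟩
  obtain ⟨b, hb⟩ : ∃ b, b = √(Q.e : ℝ) := ⟨_, rfl⟩
  have ha0 : 0 < a := by rw [ha]; exact Real.sqrt_pos.2 hd
  have hb0 : 0 < b := by rw [hb]; exact Real.sqrt_pos.2 he
  have ha2 : a ^ 2 = Q.d := by rw [ha]; exact Real.sq_sqrt hd.le
  have hb2 : b ^ 2 = Q.e := by rw [hb]; exact Real.sq_sqrt he.le
  have hab : √((Q.d : ℝ) * Q.e) = a * b := by rw [ha, hb, Real.sqrt_mul hd.le]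
  rw [hab] at hs
  have hval : (Q.val x y : ℝ) = a ^ 2 * x ^ 2 + 2 * Q.n * (x * y) + b ^ 2 * y ^ 2 := by
    rw [ha2, hb2]
    unfold Fm.val
    push_cast
    ring
  rw [← ha2, ← hb2] at h1
  rw [← ha, ← hb, hval]
  have hx : (0 : ℝ) ≤ x := Nat.cast_nonneg x
  have hy : (0 : ℝ) ≤ y := Nat.cast_nonneg y
  have hxy : (0 : ℝ) ≤ x * y := mul_nonneg hx hy
  have hs0 : 0 < a * b := mul_pos ha0 hb0
  generalize (Q.n : ℝ) = n at *
  generalize (x : ℝ) = x at *
  generalize (y : ℝ) = y at *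
  constructor
  · nlinarith [mul_le_mul_of_nonneg_right hs.le hxy]
  · have h3 : (n - a * b) * (n + a * b) = 2 := by nlinarith
    have h4 : n ≤ 2 * (a * b) := by
      refine (pow_le_pow_iff_left₀ (by linarith) (by positivity) two_ne_zero).1 ?_
      nlinarith
    have h5 : (n - a * b) * n ^ 2 ≤ 4 * (a * b) := by
      have h6 : (n - a * b) * n ^ 2 * (n + a * b) ≤ 4 * (a * b) * (n + a * b) := by
        have h7 : (n - a * b) * n ^ 2 * (n + a * b) = 2 * n ^ 2 := by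
          calc (n - a * b) * n ^ 2 * (n + a * b) = ((n - a * b) * (n + a * b)) * n ^ 2 := by ring
            _ = 2 * n ^ 2 := by rw [h3]
        rw [h7]
        nlinarith
      exact le_of_mul_le_mul_right h6 (by linarith)
    have h8 : 4 * (a * b) * (x * y) ≤ (a * x + b * y) ^ 2 := by
      nlinarith [sq_nonneg (a * x - b * y)]
    have hn2 : 0 < n ^ 2 := by positivity
    have h9 : 2 * (n - a * b) * (x * y) ≤ 2 / n ^ 2 * (a * x + b * y) ^ 2 := by
      rw [div_mul_eq_mul_div, le_div_iff₀ hn2]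
      have h10 := mul_le_mul_of_nonneg_right h5 hxy
      nlinarith
    nlinarith

/-- for a cell, `max (d, e) ≥ T / 6` -/
theorem Cl_max {T : ℝ} (hT : 0 ≤ T) {Q : Fm} (hQ : Q ∈ Cl T) : T ≤ 6 * max (Q.d : ℝ) Q.e := by
  rw [mem_Cl hT] at hQ
  obtain ⟨hO, _, _, h4⟩ := hQ
  have h1 := treeF_sq hO
  have h2 : (2 : ℝ) ≤ Q.n := by exact_mod_cast treeF_two hO
  have hd : (1 : ℝ) ≤ Q.d := by exact_mod_cast hO.1
  have he : (1 : ℝ) ≤ Q.e := by exact_mod_cast hO.2.1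
  have hval : (Q.val 1 1 : ℝ) = Q.d + 2 * Q.n + Q.e := by
    unfold Fm.val
    push_cast
    ring
  rw [hval] at h4
  have h5 : (Q.d : ℝ) ≤ max (Q.d : ℝ) Q.e := le_max_left _ _
  have h6 : (Q.e : ℝ) ≤ max (Q.d : ℝ) Q.e := le_max_right _ _
  have h7 : (Q.n : ℝ) ≤ 2 * max (Q.d : ℝ) Q.e := by
    refine (pow_le_pow_iff_left₀ (by linarith) (by linarith) two_ne_zero).1 ?_
    nlinarith [mul_le_mul h5 h6 (by linarith) (by linarith)]
  linarith

end

end Pool.Agent.Lib.MP_0b748d_nt.HH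
end
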