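import Pool.Agent.Lib.MP_0b748d_nt.HH.CntB
import Pool.Agent.Lib.MP_0b748d_nt.HH.TreeF
import Pool.Agent.Lib.MP_0b748d_nt.HH.DecA
import Pool.Agent.Lib.MP_0b748d_nt.MR.TOp
import Pool.Agent.Lib.MP_0b748d_nt.HH.CvE
import Pool.Agent.Lib.MP_0b748d_nt.HH.CmodC

section

set_option autoImplicit false

/-!
# Counting cells, forms and vectors
-/

namespace Pool.Agent.Lib.MP_0b748d_nt.HH

open MR

noncomputable section

open Classical in
private lemma cntc_sum {C : ℝ} (hC : 1 ≤ C)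
    (h : ∀ Y : ℕ, 1 ≤ Y → ∑ m ∈ Finset.Icc 1 Y, (rho m : ℝ) / √(m : ℝ) ≤ C * √(Y : ℝ))
    {s : Finset Fm} {g : Fm → ℕ} (hg : ∀ Q ∈ s, 1 ≤ g Q)
    (hc : ∀ m : ℕ, 1 ≤ m → (s.filter (fun Q => g Q = m)).card ≤ rho m) {x : ℝ} (hx : 0 ≤ x) :
    ∑ Q ∈ s.filter (fun Q => (g Q : ℝ) < x), 1 / √(g Q : ℝ) ≤ C * √x := by
  have hmaps : ∀ Q ∈ s.filter (fun Q => (g Q : ℝ) < x), g Q ∈ Finset.Icc 1 ⌊x⌋₊ := by
    intro Q hQ
    rw [Finset.mem_filter] at hQ
    rw [Finset.mem_Icc]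
    exact ⟨hg Q hQ.1, Nat.le_floor hQ.2.le⟩
  rw [← Finset.sum_fiberwise_of_maps_to hmaps]
  have h1 : ∀ m ∈ Finset.Icc 1 ⌊x⌋₊,
      ∑ Q ∈ (s.filter (fun Q => (g Q : ℝ) < x)).filter (fun Q => g Q = m), 1 / √(g Q : ℝ)
        ≤ (rho m : ℝ) / √(m : ℝ) := by
    intro m hm
    rw [Finset.mem_Icc] at hm
    have h2 : ∑ Q ∈ (s.filter (fun Q => (g Q : ℝ) < x)).filter (fun Q => g Q = m),
        1 / √(g Q : ℝ)
        = ∑ _Q ∈ (s.filter (fun Q => (g Q : ℝ) < x)).filter (fun Q => g Q = m),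
        1 / √(m : ℝ) := by
      refine Finset.sum_congr rfl (fun Q hQ => ?_)
      rw [Finset.mem_filter] at hQ
      rw [hQ.2]
    rw [h2, Finset.sum_const, nsmul_eq_mul, mul_one_div]
    have h3 : ((s.filter (fun Q => (g Q : ℝ) < x)).filter (fun Q => g Q = m)).card
        ≤ (s.filter (fun Q => g Q = m)).card :=
      Finset.card_le_card (Finset.filter_subset_filter _ (Finset.filter_subset _ _))
    have h4 := h3.trans (hc m hm.1)
    have h5 : ((((s.filter (fun Q => (g Q : ℝ) < x)).filter (fun Q => g Q = m)).card : ℕ) : ℝ)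
        ≤ (rho m : ℝ) := by exact_mod_cast h4
    exact div_le_div_of_nonneg_right h5 (Real.sqrt_nonneg _)
  refine (Finset.sum_le_sum h1).trans ?_
  rcases Nat.eq_zero_or_pos ⌊x⌋₊ with h0 | h0
  · rw [h0]
    have h00 : Finset.Icc 1 0 = (∅ : Finset ℕ) := by decide
    rw [h00, Finset.sum_empty]
    positivity
  · refine (h _ h0).trans ?_
    have h6 : √((⌊x⌋₊ : ℕ) : ℝ) ≤ √x := Real.sqrt_le_sqrt (Nat.floor_le hx)
    exact mul_le_mul_of_nonneg_left h6 (by linarith)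

private lemma cntc_min {T a b : ℝ} (hT : 0 ≤ T) (ha : 0 < a) (hab : a ≤ b) (hb : T ≤ 6 * b) :
    T / √(a * b) ≤ 3 * √T * (1 / √a) := by
  have hb0 : 0 < b := lt_of_lt_of_le ha hab
  have h1 : √T ≤ 3 * √b := by
    rw [show (3 : ℝ) * √b = √(9 * b) by
      rw [Real.sqrt_mul (by norm_num)]
      congr 1
      rw [show (9 : ℝ) = 3 ^ 2 by norm_num, Real.sqrt_sq (by norm_num)]]
    exact Real.sqrt_le_sqrt (by linarith)
  rw [Real.sqrt_mul ha.le, div_le_iff₀ (by positivity)]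
  have hsa : √a ≠ 0 := (Real.sqrt_pos.mpr ha).ne'
  have h2 : 3 * √T * (1 / √a) * (√a * √b) = √T * (3 * √b) := by
    field_simp
  rw [h2]
  calc T = √T * √T := (Real.mul_self_sqrt hT).symm
    _ ≤ √T * (3 * √b) := mul_le_mul_of_nonneg_left h1 (Real.sqrt_nonneg _)

open Classical in
/-- weights of the bad cells. For a cell `max (d, e) ≥ T / 6`, so
`T / √(d e) ≤ √6 √(T / min (d, e))`; if the cell is not `δ`-good then `min (d, e) < δ T`. Sum over the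
cells with `d = m`, `m ≤ δ T` (`Cl_d_card`): `√6 √T ∑ rho m / √m ≤ C √T √(δ T)` by `rho_sqrt_sum`, and
the same for `e`. -/
theorem Cl_wt : ∃ C : ℝ, 1 ≤ C ∧ ∀ T δ : ℝ, 0 ≤ T → 0 < δ →
    ∑ Q ∈ (Cl T).filter (fun Q => ¬ Gc δ T Q), T / √((Q.d : ℝ) * Q.e) ≤ C * √δ * T := by
  obtain ⟨C, hC, h⟩ := rho_sqrt_sum
  refine ⟨6 * C, by linarith, ?_⟩
  intro T δ hT hδ
  have hpt : ∀ Q ∈ (Cl T).filter (fun Q => ¬ Gc δ T Q), T / √((Q.d : ℝ) * Q.e) ≤
      (if (Q.d : ℝ) < δ * T then 3 * √T * (1 / √(Q.d : ℝ)) else 0)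
      + (if (Q.e : ℝ) < δ * T then 3 * √T * (1 / √(Q.e : ℝ)) else 0) := by
    intro Q hQ
    rw [Finset.mem_filter] at hQ
    obtain ⟨hQ, hG⟩ := hQ
    have hmx := Cl_max hT hQ
    rw [mem_Cl hT] at hQ
    obtain ⟨⟨hd, he, _⟩, _⟩ := hQ
    have hd' : (0 : ℝ) < Q.d := by exact_mod_cast hd
    have he' : (0 : ℝ) < Q.e := by exact_mod_cast he
    have hG' : (Q.d : ℝ) < δ * T ∨ (Q.e : ℝ) < δ * T := by
      by_contra hcon
      push Not at hcon
      exact hG ⟨hcon.1, hcon.2⟩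
    have n1 : 0 ≤ (if (Q.d : ℝ) < δ * T then 3 * √T * (1 / √(Q.d : ℝ)) else 0) := by
      split_ifs
      · positivity
      · exact le_refl _
    have n2 : 0 ≤ (if (Q.e : ℝ) < δ * T then 3 * √T * (1 / √(Q.e : ℝ)) else 0) := by
      split_ifs
      · positivity
      · exact le_refl _
    rcases le_total (Q.d : ℝ) (Q.e : ℝ) with hle | hle
    · have hlt : (Q.d : ℝ) < δ * T := by
        rcases hG' with h1 | h1
        · exact h1
        · linarith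
      rw [max_eq_right hle] at hmx
      have h2 := cntc_min hT hd' hle hmx
      rw [if_pos hlt]
      linarith
    · have hlt : (Q.e : ℝ) < δ * T := by
        rcases hG' with h1 | h1
        · linarith
        · exact h1
      rw [max_eq_left hle] at hmx
      have h2 := cntc_min hT he' hle hmx
      rw [if_pos hlt, mul_comm (Q.d : ℝ) (Q.e : ℝ)]
      linarith
  refine (Finset.sum_le_sum hpt).trans ?_
  have hsub : ∑ Q ∈ (Cl T).filter (fun Q => ¬ Gc δ T Q),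
      ((if (Q.d : ℝ) < δ * T then 3 * √T * (1 / √(Q.d : ℝ)) else 0)
      + (if (Q.e : ℝ) < δ * T then 3 * √T * (1 / √(Q.e : ℝ)) else 0)) ≤
      ∑ Q ∈ Cl T,
      ((if (Q.d : ℝ) < δ * T then 3 * √T * (1 / √(Q.d : ℝ)) else 0)
      + (if (Q.e : ℝ) < δ * T then 3 * √T * (1 / √(Q.e : ℝ)) else 0)) := by
    refine Finset.sum_le_sum_of_subset_of_nonneg (Finset.filter_subset _ _) ?_
    intro Q _ _
    refine add_nonneg ?_ ?_
    · split_ifs
      · positivity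
      · exact le_refl _
    · split_ifs
      · positivity
      · exact le_refl _
  refine hsub.trans ?_
  rw [Finset.sum_add_distrib, ← Finset.sum_filter, ← Finset.sum_filter, ← Finset.mul_sum,
    ← Finset.mul_sum]
  have hx : 0 ≤ δ * T := mul_nonneg hδ.le hT
  have hd := cntc_sum hC h (s := Cl T) (g := fun Q => Q.d)
    (fun Q hQ => ((mem_Cl hT).mp hQ).1.1)
    (fun m hm => Cl_d_card hT m hm) hx
  have he := cntc_sum hC h (s := Cl T) (g := fun Q => Q.e)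
    (fun Q hQ => ((mem_Cl hT).mp hQ).1.2.1)
    (fun m hm => Cl_e_card hT m hm) hx
  have h3 : (0 : ℝ) ≤ 3 * √T := by positivity
  have e1 := mul_le_mul_of_nonneg_left hd h3
  have e2 := mul_le_mul_of_nonneg_left he h3
  have e3 : 3 * √T * (C * √(δ * T)) = 3 * C * √δ * T := by
    rw [Real.sqrt_mul hδ.le]
    calc 3 * √T * (C * (√δ * √T)) = 3 * C * √δ * (√T * √T) := by ring
      _ = 3 * C * √δ * T := by rw [Real.mul_self_sqrt hT]
  rw [e3] at e1 e2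

  linarith

/-- all weights: `Cl_wt` with `δ = 2` -/
theorem Cl_wt_all : ∃ C : ℝ, 1 ≤ C ∧ ∀ T : ℝ, 0 ≤ T →
    ∑ Q ∈ Cl T, T / √((Q.d : ℝ) * Q.e) ≤ C * T := by
  classical
  obtain ⟨C, hC, h⟩ := Cl_wt
  refine ⟨2 * C, by linarith, ?_⟩
  intro T hT
  have h1 := h T 2 hT (by norm_num)
  have h2 : (Cl T).filter (fun Q => ¬ Gc 2 T Q) = Cl T := by
    refine Finset.filter_true_of_mem (fun Q hQ => ?_)
    rw [mem_Cl hT] at hQ
    obtain ⟨⟨hd, _, _⟩, hdT, _⟩ := hQ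
    rintro ⟨hG, _⟩
    have hd' : (0 : ℝ) < Q.d := by exact_mod_cast hd
    linarith
  have h1' : ∑ Q ∈ Cl T, T / √((Q.d : ℝ) * Q.e) ≤ C * √2 * T := by
    rw [h2] at h1
    exact h1
  have h3 : √2 ≤ 2 := by
    rw [Real.sqrt_le_left (by norm_num)]
    norm_num
  have h4 : C * √2 * T ≤ 2 * C * T := by
    have h5 : C * √2 ≤ C * 2 := mul_le_mul_of_nonneg_left h3 (by linarith)
    have h6 := mul_le_mul_of_nonneg_right h5 hT
    linarith
  linarith

end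

end Pool.Agent.Lib.MP_0b748d_nt.HH
end

section

set_option autoImplicit false

/-!
# The Liouville function of the norm
-/

namespace Pool.Agent.Lib.MP_0b748d_nt.HD

open Zsqrtd MR

noncomputable section

theorem DA1_mul {m n : ℕ} (hm : m ≠ 0) (hn : n ≠ 0) : lio (m * n) = lio m * lio n := by
  unfold lio
  rw [ArithmeticFunction.cardFactors_mul hm hn, pow_add]

theorem DA1_lz (z : ℤ√2) : lz z = ((lio (nm z).toNat : ℤ) : ℂ) := rfl

theorem CO_lio : CO lio := by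
  refine ⟨fun m n hm hn => DA1_mul (by omega) (by omega), fun n _ => ?_⟩
  exact neg_one_pow_eq_or ℤ _

/-- `lz` is completely multiplicative (norms of totally positive elements are positive;
`cardFactors_mul`) -/
theorem lz_mul {z w : ℤ√2} (hz : TP z) (hw : TP w) : lz (z * w) = lz z * lz w := by
  have h1 := hz.nm_pos
  have h2 := hw.nm_pos
  rw [DA1_lz, DA1_lz, DA1_lz, nm_mul, Int.toNat_mul h1.le h2.le, DA1_mul (by omega) (by omega),
    Int.cast_mul]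

theorem norm_lz (z : ℤ√2) : ‖lz z‖ = 1 := by
  rw [DA1_lz]
  unfold lio
  rw [Int.cast_pow, norm_pow, Int.cast_neg, Int.cast_one, _root_.norm_neg]
  simp

/-- `nm_un` -/
theorem lz_un (n : ℤ) (z : ℤ√2) : lz (un n * z) = lz z := by
  rw [DA1_lz, DA1_lz, nm_un]

/-- split primes: `lz (el p s) = -1` -/
theorem lz_el {p : ℕ} (hp : Sp p) (s : Bool) : lz (el p s) = -1 := by
  rw [DA1_lz, (el_spec hp s).2, Int.toNat_natCast]
  unfold lio
  rw [ArithmeticFunction.cardFactors_apply_prime hp.1]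
  norm_num

/-- integers: `lz c = 1` for `c ≥ 1` (the norm is a square) -/
theorem lz_nat (c : ℕ) (hc : 1 ≤ c) : lz ((c : ℕ) : ℤ√2) = 1 := by
  rw [DA1_lz, nm_nat]
  have h1 : ((c : ℤ) ^ 2).toNat = c ^ 2 := by
    rw [← Nat.cast_pow, Int.toNat_natCast]
  rw [h1]
  unfold lio
  rw [ArithmeticFunction.cardFactors_pow, pow_mul]
  norm_num

end

end Pool.Agent.Lib.MP_0b748d_nt.HD
end

section

set_option autoImplicit false

/-!
# The limit average over cells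
-/

namespace Pool.Agent.Lib.MP_0b748d_nt.HH

open Filter Topology

noncomputable section

theorem Bd_add {φ ψ : ℕ → ℕ → Fm → ℝ} (h : Bd φ) (k : Bd ψ) :
    Bd (fun n i Q => φ n i Q + ψ n i Q) := by
  obtain ⟨C, hC⟩ := h
  obtain ⟨D, hD⟩ := k
  refine ⟨C + D, fun n i hn => ?_⟩
  calc ∑ Q ∈ Cl (tt n i), |φ n i Q + ψ n i Q|
      ≤ ∑ Q ∈ Cl (tt n i), (|φ n i Q| + |ψ n i Q|) :=
        Finset.sum_le_sum fun Q _ => abs_add_le _ _
    _ = ∑ Q ∈ Cl (tt n i), |φ n i Q| + ∑ Q ∈ Cl (tt n i), |ψ n i Q| := Finset.sum_add_distrib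
    _ ≤ C * tt n i + D * tt n i := add_le_add (hC n i hn) (hD n i hn)
    _ = (C + D) * tt n i := by ring

theorem Bd_smul {φ : ℕ → ℕ → Fm → ℝ} (c : ℝ) (h : Bd φ) : Bd (fun n i Q => c * φ n i Q) := by
  obtain ⟨C, hC⟩ := h
  refine ⟨|c| * C, fun n i hn => ?_⟩
  calc ∑ Q ∈ Cl (tt n i), |c * φ n i Q| = |c| * ∑ Q ∈ Cl (tt n i), |φ n i Q| := by
        rw [Finset.mul_sum]
        exact Finset.sum_congr rfl fun Q _ => abs_mul _ _
    _ ≤ |c| * (C * tt n i) := mul_le_mul_of_nonneg_left (hC n i hn) (abs_nonneg c)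
    _ = |c| * C * tt n i := by ring

theorem Bd_sum {ι : Type*} (s : Finset ι) (φ : ι → ℕ → ℕ → Fm → ℝ) (h : ∀ j ∈ s, Bd (φ j)) :
    Bd (fun n i Q => ∑ j ∈ s, φ j n i Q) := by
  classical
  induction s using Finset.induction_on with
  | empty =>
    refine ⟨0, fun n i _ => ?_⟩
    simp
  | insert a s ha ih =>
    simp only [Finset.sum_insert ha]
    exact Bd_add (h a (Finset.mem_insert_self a s))
      (ih fun j hj => h j (Finset.mem_insert_of_mem hj))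

/-- `Cl_card` -/
theorem Bd_of_le {φ : ℕ → ℕ → Fm → ℝ} {C : ℝ} (h : ∀ n i, ∀ Q ∈ Cl (tt n i), |φ n i Q| ≤ C) :
    Bd φ := by
  obtain ⟨D, hD1, hD⟩ := Cl_card
  refine ⟨|C| * D, fun n i _ => ?_⟩
  have hT := (tt_pos n i).le
  calc ∑ Q ∈ Cl (tt n i), |φ n i Q| ≤ ∑ _Q ∈ Cl (tt n i), |C| :=
        Finset.sum_le_sum fun Q hQ => (h n i Q hQ).trans (le_abs_self C)
    _ = ((Cl (tt n i)).card : ℝ) * |C| := by rw [Finset.sum_const, nsmul_eq_mul]
    _ ≤ (D * tt n i) * |C| := mul_le_mul_of_nonneg_right (hD _ hT) (abs_nonneg C)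
    _ = |C| * D * tt n i := by ring

theorem Bd_mono {φ ψ : ℕ → ℕ → Fm → ℝ} (h : ∀ n i, ∀ Q ∈ Cl (tt n i), |φ n i Q| ≤ ψ n i Q)
    (k : Bd ψ) : Bd φ := by
  obtain ⟨C, hC⟩ := k
  refine ⟨C, fun n i hn => ?_⟩
  exact (Finset.sum_le_sum fun Q hQ => (h n i Q hQ).trans (le_abs_self _)).trans (hC n i hn)

/-- the average of the levels is bounded if every level is -/
theorem AvN_abs_le {n : ℕ} {φ : ℕ → Fm → ℝ} {C : ℝ} (hn : 1 ≤ n)
    (h : ∀ i, ∑ Q ∈ Cl (tt n i), |φ i Q| ≤ C * tt n i) : |AvN n φ| ≤ C := by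
  unfold AvN
  have hn0 : (0 : ℝ) < (n : ℝ) ^ 2 := by
    have : (0 : ℝ) < n := by exact_mod_cast hn
    positivity
  have h1 : ∀ i ∈ Finset.range (n ^ 2), |(1 / tt n i) * ∑ Q ∈ Cl (tt n i), φ i Q| ≤ C := by
    intro i _
    have hT := tt_pos n i
    rw [abs_mul, abs_of_pos (by positivity : 0 < 1 / tt n i)]
    calc 1 / tt n i * |∑ Q ∈ Cl (tt n i), φ i Q| ≤ 1 / tt n i * (C * tt n i) :=
          mul_le_mul_of_nonneg_left ((Finset.abs_sum_le_sum_abs _ _).trans (h i)) (by positivity)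
      _ = C := by field_simp
  rw [abs_mul, abs_of_pos (by positivity : 0 < 1 / (n : ℝ) ^ 2)]
  calc 1 / (n : ℝ) ^ 2 * |∑ i ∈ Finset.range (n ^ 2), (1 / tt n i) * ∑ Q ∈ Cl (tt n i), φ i Q|
      ≤ 1 / (n : ℝ) ^ 2 * ∑ i ∈ Finset.range (n ^ 2), C :=
        mul_le_mul_of_nonneg_left ((Finset.abs_sum_le_sum_abs _ _).trans (Finset.sum_le_sum h1))
          (by positivity)
    _ = C := by
      rw [Finset.sum_const, Finset.card_range, nsmul_eq_mul]
      push_cast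
      field_simp

theorem AvN_zero (φ : ℕ → Fm → ℝ) : AvN 0 φ = 0 := by
  unfold AvN
  simp

/-- `|AvN n (φ n)| ≤ C` for `n ≥ 1`; `AvN 0 _ = 0`. -/
theorem AvN_Bs {φ : ℕ → ℕ → Fm → ℝ} (h : Bd φ) : Bs (fun n => AvN n (φ n)) := by
  obtain ⟨C, hC⟩ := h
  refine ⟨|C|, fun n => ?_⟩
  rcases Nat.eq_zero_or_pos n with rfl | hn
  · simp only [AvN_zero, abs_zero]
    exact abs_nonneg C
  · refine AvN_abs_le hn fun i => (hC n i hn).trans ?_
    exact mul_le_mul_of_nonneg_right (le_abs_self C) (tt_pos n i).le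

theorem Av_add {U : Ultrafilter ℕ} {φ ψ : ℕ → ℕ → Fm → ℝ} (h : Bd φ) (k : Bd ψ) :
    Av U (fun n i Q => φ n i Q + ψ n i Q) = Av U φ + Av U ψ := by
  unfold Av
  rw [← ul_add (AvN_Bs h) (AvN_Bs k)]
  congr 1
  funext n
  unfold AvN
  rw [← mul_add, ← Finset.sum_add_distrib]
  congr 1
  refine Finset.sum_congr rfl fun i _ => ?_
  rw [← mul_add, ← Finset.sum_add_distrib]

theorem Av_smul {U : Ultrafilter ℕ} {φ : ℕ → ℕ → Fm → ℝ} (c : ℝ) (h : Bd φ) :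
    Av U (fun n i Q => c * φ n i Q) = c * Av U φ := by
  unfold Av
  rw [← ul_smul c (AvN_Bs h)]
  congr 1
  funext n
  unfold AvN
  simp only [← Finset.mul_sum]
  rw [mul_left_comm]
  congr 1
  rw [Finset.mul_sum]
  refine Finset.sum_congr rfl fun i _ => ?_
  rw [mul_left_comm]

theorem Av_sum {U : Ultrafilter ℕ} {ι : Type*} (s : Finset ι) (φ : ι → ℕ → ℕ → Fm → ℝ)
    (h : ∀ j ∈ s, Bd (φ j)) : Av U (fun n i Q => ∑ j ∈ s, φ j n i Q) = ∑ j ∈ s, Av U (φ j) := by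
  unfold Av
  rw [← ul_sum s (fun j n => AvN n (φ j n)) (fun j hj => AvN_Bs (h j hj))]
  congr 1
  funext n
  unfold AvN
  rw [← Finset.mul_sum, Finset.sum_comm]
  congr 1
  refine Finset.sum_congr rfl fun i _ => ?_
  rw [Finset.sum_comm, Finset.mul_sum]

end

end Pool.Agent.Lib.MP_0b748d_nt.HH
end

section

set_option autoImplicit false

/-!
# Counting cells, forms and vectors
-/

namespace Pool.Agent.Lib.MP_0b748d_nt.HH

open MR

noncomputable section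

private theorem cntE_fib {m : ℕ} (hm : 1 ≤ m) {b X : ℝ} (hb : 0 < b) (hX : 0 ≤ X)
    (S : Finset Fm) (hS : ∀ Q ∈ S, Q.Ok ∧ Q.d = m ∧ (Q.e : ℝ) ≤ b ^ 2 * X) :
    (S.card : ℝ) ≤ (rho m : ℝ) * (b * √X / √(m : ℝ) + 3) := by
  have hm0 : (0 : ℝ) < m := by exact_mod_cast hm
  set N : ℝ := b * √((m : ℝ) * X) + 2 with hN
  have hN0 : 0 ≤ N := by positivity
  set K : ℕ := ⌊N⌋₊ / m with hK
  have h1 : S.card ≤ (((Finset.range m).filter
      (fun r : ℕ => (m : ℤ) ∣ (r : ℤ) ^ 2 - 2)) ×ˢ Finset.range (K + 1)).card := by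
    apply Finset.card_le_card_of_injOn (fun Q => (Q.n % m, Q.n / m))
    · intro Q hQ
      obtain ⟨⟨_, _, hQn⟩, hQd, hQe⟩ := hS Q hQ
      have hn : (Q.n : ℝ) ≤ N := by
        have h2 : (Q.n : ℝ) ^ 2 = m * Q.e + 2 := by
          rw [← hQd]
          exact_mod_cast hQn
        have h3 : (m : ℝ) * Q.e ≤ m * (b ^ 2 * X) := mul_le_mul_of_nonneg_left hQe hm0.le
        have h4 : (b * √((m : ℝ) * X)) ^ 2 = m * (b ^ 2 * X) := by
          rw [mul_pow, Real.sq_sqrt (by positivity)]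
          ring
        have h5 : 0 ≤ b * √((m : ℝ) * X) := by positivity
        have h6 : (Q.n : ℝ) ^ 2 ≤ N ^ 2 := by
          rw [hN]
          nlinarith
        exact (pow_le_pow_iff_left₀ (Nat.cast_nonneg _) hN0 two_ne_zero).mp h6
      rw [Finset.mem_coe, Finset.mem_product, Finset.mem_filter, Finset.mem_range,
        Finset.mem_range]
      refine ⟨⟨Nat.mod_lt _ hm, ?_⟩, ?_⟩
      · have h2 : (m : ℤ) ∣ (Q.n : ℤ) ^ 2 - 2 := by
          refine ⟨Q.e, ?_⟩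
          have h3 : (Q.n : ℤ) ^ 2 = m * Q.e + 2 := by
            rw [← hQd]
            exact_mod_cast hQn
          linarith
        have h4 : (Q.n : ℤ) = m * ((Q.n / m : ℕ) : ℤ) + ((Q.n % m : ℕ) : ℤ) := by
          exact_mod_cast (Nat.div_add_mod Q.n m).symm
        have h5 : ((Q.n % m : ℕ) : ℤ) ^ 2 - 2 = ((Q.n : ℤ) ^ 2 - 2) -
            m * (((Q.n / m : ℕ) : ℤ) * ((Q.n : ℤ) + ((Q.n % m : ℕ) : ℤ))) := by
          rw [h4]
          have h6 : ∀ x y w : ℤ, y ^ 2 - 2 = (w * x + y) ^ 2 - 2 - w * (x * (w * x + y + y)) := by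
            intro x y w
            ring
          have h7 := h6 ((Q.n / m : ℕ) : ℤ) ((Q.n % m : ℕ) : ℤ) (m : ℤ)
          rw [← h4] at h7 ⊢
          exact h7
        change (m : ℤ) ∣ ((Q.n % m : ℕ) : ℤ) ^ 2 - 2
        rw [h5]
        exact dvd_sub h2 (dvd_mul_right _ _)
      · exact Nat.lt_succ_of_le (Nat.div_le_div_right (Nat.le_floor hn))
    · intro Q hQ Q' hQ' hQQ
      obtain ⟨⟨_, _, hQn⟩, hQd, _⟩ := hS Q hQ
      obtain ⟨⟨_, _, hQn'⟩, hQd', _⟩ := hS Q' hQ'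
      simp only [Prod.mk.injEq] at hQQ
      have hn : Q.n = Q'.n := by
        rw [← Nat.div_add_mod Q.n m, ← Nat.div_add_mod Q'.n m, hQQ.1, hQQ.2]
      have he : Q.e = Q'.e := by
        rw [hn, hQn', hQd, hQd'] at hQn
        exact (Nat.eq_of_mul_eq_mul_left hm (Nat.add_right_cancel hQn)).symm
      exact Fm.ext (hQd.trans hQd'.symm) hn he
  rw [Finset.card_product, Finset.card_range] at h1
  have h2 : ((Finset.range m).filter
      (fun r : ℕ => (m : ℤ) ∣ (r : ℤ) ^ 2 - 2)).card = rho m := rfl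
  rw [h2] at h1
  have h3 : (S.card : ℝ) ≤ (rho m : ℝ) * ((K : ℝ) + 1) := by exact_mod_cast h1
  refine h3.trans (mul_le_mul_of_nonneg_left ?_ (Nat.cast_nonneg _))
  have h4 : (K : ℝ) ≤ N / m := by
    refine (Nat.cast_div_le).trans ?_
    exact div_le_div_of_nonneg_right (Nat.floor_le hN0) hm0.le
  have h5 : N / m = b * √X / √(m : ℝ) + 2 / m := by
    rw [hN, add_div, Real.sqrt_mul hm0.le]
    congr 1
    have h6 : √(m : ℝ) * √(m : ℝ) = m := Real.mul_self_sqrt hm0.le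
    have h7 : 0 < √(m : ℝ) := Real.sqrt_pos.mpr hm0
    rw [div_eq_div_iff hm0.ne' h7.ne']
    calc b * (√(m : ℝ) * √X) * √(m : ℝ) = b * √X * (√(m : ℝ) * √(m : ℝ)) := by ring
      _ = b * √X * m := by rw [h6]
  have h6 : (2 : ℝ) / m ≤ 2 := by
    rw [div_le_iff₀ hm0]
    have : (1 : ℝ) ≤ m := by exact_mod_cast hm
    linarith
  linarith

private theorem cntE_core : ∃ C : ℝ, 1 ≤ C ∧ ∀ (a b X : ℝ) (S : Finset Fm), 0 < a → a ≤ b →
    0 ≤ X → (∀ Q ∈ S, Q.Ok ∧ (Q.d : ℝ) ≤ a ^ 2 * X ∧ (Q.e : ℝ) ≤ b ^ 2 * X) →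
    (S.card : ℝ) ≤ C * (a * b * X) := by
  classical
  obtain ⟨C1, hC1, h1⟩ := rho_sqrt_sum
  obtain ⟨C2, hC2, h2⟩ := rho_sum
  refine ⟨C1 + 3 * C2, by linarith, ?_⟩
  intro a b X S ha hab hX hS
  have hb : 0 < b := ha.trans_le hab
  set M : ℕ := ⌊a ^ 2 * X⌋₊ with hM
  have hMle : (M : ℝ) ≤ a ^ 2 * X := Nat.floor_le (by positivity)
  have hmap : ∀ Q ∈ S, Q.d ∈ Finset.Icc 1 M := by
    intro Q hQ
    obtain ⟨hok, hd, _⟩ := hS Q hQ
    rw [Finset.mem_Icc]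
    exact ⟨hok.1, Nat.le_floor hd⟩
  by_cases hM0 : M = 0
  · have hSe : S = ∅ := by
      rw [Finset.eq_empty_iff_forall_notMem]
      intro Q hQ
      have := Finset.mem_Icc.mp (hmap Q hQ)
      omega
    rw [hSe, Finset.card_empty, Nat.cast_zero]
    positivity
  have hM1 : 1 ≤ M := Nat.one_le_iff_ne_zero.mpr hM0
  have h3 : (S.card : ℝ) = ∑ m ∈ Finset.Icc 1 M, ((S.filter (fun Q => Q.d = m)).card : ℝ) := by
    rw [Finset.card_eq_sum_card_fiberwise (f := fun Q : Fm => Q.d) (t := Finset.Icc 1 M) hmap]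
    push_cast
    rfl
  rw [h3]
  have h4 : ∀ m ∈ Finset.Icc 1 M, ((S.filter (fun Q => Q.d = m)).card : ℝ) ≤
      b * √X * ((rho m : ℝ) / √(m : ℝ)) + 3 * (rho m : ℝ) := by
    intro m hm
    have h5 := cntE_fib (Finset.mem_Icc.mp hm).1 hb hX (S.filter (fun Q => Q.d = m)) (by
      intro Q hQ
      rw [Finset.mem_filter] at hQ
      exact ⟨(hS Q hQ.1).1, hQ.2, (hS Q hQ.1).2.2⟩)
    refine h5.trans (le_of_eq ?_)
    ring
  refine (Finset.sum_le_sum h4).trans ?_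
  rw [Finset.sum_add_distrib, ← Finset.mul_sum, ← Finset.mul_sum]
  have h5 := h1 M hM1
  have h6 := h2 M hM1
  have h7 : √(M : ℝ) ≤ a * √X := by
    rw [Real.sqrt_le_left (by positivity), mul_pow, Real.sq_sqrt hX]
    exact hMle
  have h8 : b * √X * ∑ m ∈ Finset.Icc 1 M, (rho m : ℝ) / √(m : ℝ) ≤ C1 * (a * b * X) := by
    calc b * √X * ∑ m ∈ Finset.Icc 1 M, (rho m : ℝ) / √(m : ℝ)
        ≤ b * √X * (C1 * (a * √X)) := by
          apply mul_le_mul_of_nonneg_left _ (by positivity)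
          exact h5.trans (mul_le_mul_of_nonneg_left h7 (by linarith))
      _ = C1 * (a * b * (√X * √X)) := by ring
      _ = C1 * (a * b * X) := by rw [Real.mul_self_sqrt hX]
  have h9 : 3 * ∑ m ∈ Finset.Icc 1 M, (rho m : ℝ) ≤ 3 * C2 * (a * b * X) := by
    have h10 : a ^ 2 * X ≤ a * b * X := by
      apply mul_le_mul_of_nonneg_right _ hX
      nlinarith
    have h11 : C2 * (M : ℝ) ≤ C2 * (a * b * X) :=
      mul_le_mul_of_nonneg_left (hMle.trans h10) (by linarith)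
    linarith
  linarith

open Classical in
/-- forms with `d ≤ a² X`, `e ≤ b² X`. By symmetry let `a ≤ b`. For `d = m ≤ a² X` one has
`n² = m e + 2 ≤ m b² X + 2`, `n ≤ b √(m X) + 2`, `n` in `rho m` classes modulo `m`: at most
`rho m * ((b √(m X) + 2) / m + 1) ≤ rho m * (b √X / √m + 3)` forms. Sum over `m ≤ a² X` with
`rho_sqrt_sum`, `rho_sum`: `≤ b √X * C a √X + 3 C a² X ≤ 4 C a b X`. (If `a² X < 1` the set is
empty.) -/
theorem Qs_ab : ∃ C : ℝ, 1 ≤ C ∧ ∀ a b X : ℝ, 0 < a → 0 < b → 0 ≤ X →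
    (((Qs (max a b ^ 2 * X)).filter (fun Q => (Q.d : ℝ) ≤ a ^ 2 * X ∧ (Q.e : ℝ) ≤ b ^ 2 * X)).card : ℝ)
      ≤ C * (a * b * X) := by
  obtain ⟨C, hC, h⟩ := cntE_core
  refine ⟨C, hC, ?_⟩
  intro a b X ha hb hX
  have hmem : ∀ Q ∈ ((Qs (max a b ^ 2 * X)).filter
      (fun Q => (Q.d : ℝ) ≤ a ^ 2 * X ∧ (Q.e : ℝ) ≤ b ^ 2 * X)),
      Q.Ok ∧ (Q.d : ℝ) ≤ a ^ 2 * X ∧ (Q.e : ℝ) ≤ b ^ 2 * X := by
    intro Q hQ
    rw [Finset.mem_filter, mem_Qs (by positivity)] at hQ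
    exact ⟨hQ.1.1, hQ.2⟩
  rcases le_total a b with hab | hab
  · exact h a b X _ ha hab hX hmem
  · have h1 := h b a X (((Qs (max a b ^ 2 * X)).filter
      (fun Q => (Q.d : ℝ) ≤ a ^ 2 * X ∧ (Q.e : ℝ) ≤ b ^ 2 * X)).image
        (fun Q => (⟨Q.e, Q.n, Q.d⟩ : Fm))) hb hab hX (by
      intro Q hQ
      rw [Finset.mem_image] at hQ
      obtain ⟨Q', hQ', rfl⟩ := hQ
      obtain ⟨⟨h2, h3, h4⟩, h5, h6⟩ := hmem Q' hQ'
      refine ⟨⟨h3, h2, ?_⟩, h6, h5⟩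
      change Q'.n ^ 2 = Q'.e * Q'.d + 2
      rw [h4, mul_comm])
    rw [Finset.card_image_of_injective _ (by
      intro Q Q' hQQ
      rw [Fm.mk.injEq] at hQQ
      exact Fm.ext hQQ.2.2 hQQ.2.1 hQQ.1), mul_comm b a] at h1
    exact h1

end

end Pool.Agent.Lib.MP_0b748d_nt.HH
end
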