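import Pool.Agent.Lib.MP_0b748d_nt.HH.Defs

set_option autoImplicit false

/-!
# Patterns: recursively reached vectors
-/

namespace Pool.Agent.Lib.MP_0b748d_nt.HH

open Filter Topology

noncomputable section

/-- parameters: goodness `δ`, first scale `R0`, steps `l` -/
structure Par where
  δ : ℝ
  R0 : ℕ
  l : ℕ → ℕ

/-- resolution of the shapes -/
def Par.m (P : Par) : ℕ := ⌈2 / P.δ⌉₊

/-- the scales -/
def Par.R (P : Par) (i : ℕ) : ℕ := P.R0 * 2 ^ (∑ s ∈ Finset.range i, P.l s)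

/-- discretised shape -/
def sg (m : ℕ) (T : ℝ) (Q : Fm) : ℕ × ℕ := (⌊(m : ℝ) * Q.d / T⌋₊, ⌊(m : ℝ) * Q.e / T⌋₊)

open Classical in
/-- the vectors of a discretised shape -/
def Vg (R m : ℕ) (g : ℕ × ℕ) : Finset (ℕ × ℕ) :=
  (Finset.range (R * m + 1) ×ˢ Finset.range (R * m + 1)).filter
    (fun v => (√(g.1 : ℝ) * v.1 + √(g.2 : ℝ) * v.2) ^ 2 ≤ (R : ℝ) * m)

/-- image of a vector under a matrix -/
def Mt.im (M : Mt) (w : ℕ × ℕ) : ℕ × ℕ := (M.a * w.1 + M.b * w.2, M.c * w.1 + M.d * w.2)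

open Classical in
/-- good descendants of good cells -/
def Gm (δ : ℝ) (l : ℕ) (n i : ℕ) (Q : Fm) : Finset Mt :=
  if Gc δ (tt n i) Q then
    (Dn (tt n (i + l * n)) Q).filter (fun M => Gc δ (tt n (i + l * n)) (Q.act M)) else ∅

open Classical in
/-- the vectors reached through good cells -/
def reach (P : Par) : ℕ → ℕ → ℕ → Fm → Finset (ℕ × ℕ)
  | 0, n, i, Q => if Gc P.δ (tt n i) Q then Vg P.R0 P.m (sg P.m (tt n i) Q) else ∅
  | k + 1, n, i, Q => (Gm P.δ (P.l k) n i Q).biUnion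
      (fun M => (reach P k n (i + P.l k * n) (Q.act M)).image M.im)

/-- patterns -/
abbrev Pt : Type := Finset ((ℕ × ℕ) × (ℤ × ℤ))

open Classical in
/-- the pattern of two functions of the values of a form on a finite set of vectors -/
def gr (F G : ℕ → ℤ) (Q : Fm) (S : Finset (ℕ × ℕ)) : Pt :=
  S.image (fun v => (v, (F (Q.val v.1 v.2), G (Q.val v.1 v.2))))

/-- the pattern variable of scale `k` -/
def Xp (P : Par) (F G : ℕ → ℕ → ℤ) (k : ℕ) : ℕ → ℕ → Fm → Pt :=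
  fun n i Q => gr (F n) (G n) Q (reach P k n i Q)

/-- functions with values in `{-1, 0, 1}` -/
def V3 (F : ℕ → ℕ → ℤ) : Prop := ∀ n m, F n m = 0 ∨ F n m = 1 ∨ F n m = -1

end

end Pool.Agent.Lib.MP_0b748d_nt.HH
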