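import Pool.Agent.Lib.MP_0b748d_nt.HH.PrimeF
import Pool.Agent.Lib.MP_0b748d_nt.HH.CntE
import Pool.Agent.Lib.MP_0b748d_nt.HH.CntB
import Pool.Agent.Lib.MP_0b748d_nt.HH.PatA
import Pool.Agent.Lib.MP_0b748d_nt.HH.CmodC

section

set_option autoImplicit false

/-!
# The prime step
-/

namespace Pool.Agent.Lib.MP_0b748d_nt.HH

open Zsqrtd MR

noncomputable section

private theorem primeH_det_mul (u z w : ℤ√2) : det (u * z) (u * w) = nm u * det z w := by
  simp only [det, nm, re_mul, im_mul]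
  ring

private theorem primeH_prim {x y : ℤ√2} (h : det x y = 1) : Prim x := by
  refine ⟨y.im, -y.re, ?_⟩
  simp only [det] at h
  linear_combination h

private theorem primeH_coord {x y z : ℤ√2} (h : det x y = 1) :
    z = ((det z y : ℤ) : ℤ√2) * x + ((det x z : ℤ) : ℤ√2) * y := by
  simp only [det] at h ⊢
  ext
  · simp only [re_add, re_mul, re_intCast, im_intCast]
    push_cast
    linear_combination (-z.re) * h
  · simp only [im_add, im_mul, re_intCast, im_intCast]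
    push_cast
    linear_combination (-z.im) * h

/-- number of possible second vectors -/
private theorem primeH_second {a b X : ℝ} (ha : 0 < a) (hab : a ≤ b) (hX : 1 ≤ X) (x : ℤ√2)
    (V : Finset (ℤ√2)) (hV : ∀ y ∈ V, Fr x y ∧ (a * X ≤ nm x ∧ (nm x : ℝ) ≤ b * X) ∧
      (nm y : ℝ) ≤ b * X) : V.card ≤ ⌊(b + 2) / a⌋₊ + 1 := by
  have hb : 0 < b := lt_of_lt_of_le ha hab
  set f : ℤ√2 → ℕ := fun y => (B x y / nm x).toNat with hf
  have hmaps : ∀ y ∈ V, f y ∈ Finset.range (⌊(b + 2) / a⌋₊ + 1) := by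
    intro y hy
    obtain ⟨hfr, ⟨h1, h2⟩, h3⟩ := hV y hy
    rw [Finset.mem_range, Nat.lt_succ_iff]
    apply Nat.le_floor
    have hnx := hfr.tx.nm_pos
    have hny := hfr.ty.nm_pos
    have hB := B_pos hfr.tx hfr.ty
    have hq : 0 ≤ B x y / nm x := Int.ediv_nonneg hB.le hnx.le
    have hcast : ((f y : ℕ) : ℝ) = ((B x y / nm x : ℤ) : ℝ) := by
      have h5 : ((f y : ℕ) : ℤ) = B x y / nm x := Int.toNat_of_nonneg hq
      exact_mod_cast h5
    rw [hcast, le_div_iff₀ ha]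
    have h6 : (B x y / nm x) * nm x ≤ B x y := Int.ediv_mul_le _ hnx.ne'
    have h6' : ((B x y / nm x : ℤ) : ℝ) * nm x ≤ B x y := by exact_mod_cast h6
    have hq' : (0 : ℝ) ≤ ((B x y / nm x : ℤ) : ℝ) := by exact_mod_cast hq
    have h7 := B_sq x y
    rw [hfr.dt] at h7
    have h7' : (nm x : ℝ) * nm y = (B x y : ℝ) ^ 2 - 2 := by
      have h8 : nm x * nm y = B x y ^ 2 - 2 := by rw [h7]; ring
      exact_mod_cast h8
    have hnx' : (0 : ℝ) < nm x := by exact_mod_cast hnx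
    have hny' : (0 : ℝ) < nm y := by exact_mod_cast hny
    have hB' : (0 : ℝ) < B x y := by exact_mod_cast hB
    have h9 : (nm x : ℝ) * nm y ≤ (b * X) * (b * X) :=
      mul_le_mul h2 h3 hny'.le (by positivity)
    have h10 : (B x y : ℝ) ≤ b * X + 2 := by
      have hbx : 0 < b * X := by positivity
      nlinarith
    have h11 : ((B x y / nm x : ℤ) : ℝ) * (a * X) ≤ (b + 2) * X := by
      have h12 : ((B x y / nm x : ℤ) : ℝ) * (a * X) ≤ ((B x y / nm x : ℤ) : ℝ) * nm x :=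
        mul_le_mul_of_nonneg_left h1 hq'
      nlinarith
    have hX0 : 0 < X := by linarith
    have h13 : ((B x y / nm x : ℤ) : ℝ) * a * X ≤ (b + 2) * X := by linarith
    exact le_of_mul_le_mul_right h13 hX0
  have hinj : Set.InjOn f V := by
    intro y hy y' hy' he
    obtain ⟨hfr, -, -⟩ := hV y hy
    obtain ⟨hfr', -, -⟩ := hV y' hy'
    have hnx := hfr.tx.nm_pos
    have hB := B_pos hfr.tx hfr.ty
    have hB' := B_pos hfr'.tx hfr'.ty
    have hq : 0 ≤ B x y / nm x := Int.ediv_nonneg hB.le hnx.le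
    have hq' : 0 ≤ B x y' / nm x := Int.ediv_nonneg hB'.le hnx.le
    have h5 : ((f y : ℕ) : ℤ) = B x y / nm x := Int.toNat_of_nonneg hq
    have h5' : ((f y' : ℕ) : ℤ) = B x y' / nm x := Int.toNat_of_nonneg hq'
    have h6 : B x y / nm x = B x y' / nm x := by rw [← h5, ← h5', he]
    have hc := primeH_coord (z := y') hfr.dt
    rw [hfr'.dt] at hc
    set k : ℤ := det y' y with hk
    have hBk : B x y' = B x y + k * nm x := by
      have hre := congrArg Zsqrtd.re hc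
      have him := congrArg Zsqrtd.im hc
      simp only [re_add, im_add, re_mul, im_mul, re_intCast, im_intCast] at hre him
      simp only [B, nm]
      rw [hre, him]
      push_cast
      ring
    rw [hBk, Int.add_mul_ediv_right _ _ hnx.ne'] at h6
    have hk0 : k = 0 := by omega
    rw [hk0] at hc
    rw [hc]
    simp
  have := Finset.card_le_card_of_injOn f hmaps hinj
  rwa [Finset.card_range] at this

open Classical in
/-- Matrices for one cell. Each matrix `M` gives (`zr_form`,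
`Pst_el`) a sign `s` and a basis `(x, y)` with `cx M x0 y0 = el p s * x`, `cy M x0 y0 = el p s * y`
(absorb the unit), `a X ≤ nm x, nm y ≤ b X`, and `M ↦ (s, x, y)` is injective. -/
private theorem primeH_data {a b : ℝ} (ha : 0 < a) (hab : a ≤ b) {T X : ℝ} (hT : 0 ≤ T)
    (hX : 1 ≤ X) {p : ℕ} (hp : Sp p) {Q : Fm} (hQ : Q ∈ Cl T) {x0 y0 : ℤ√2} (h0 : Fr x0 y0)
    (hf : fm x0 y0 = Q) {M : Mt} (hM : M.Dt p) (hz : zr (res p Q) M)
    (h1 : a * (p * X) ≤ Q.val M.a M.c) (h2 : (Q.val M.a M.c : ℝ) ≤ b * (p * X))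
    (h3 : a * (p * X) ≤ Q.val M.b M.d) (h4 : (Q.val M.b M.d : ℝ) ≤ b * (p * X)) :
    ∃ q : Bool × (ℤ√2 × ℤ√2), Fr q.2.1 q.2.2 ∧ cx M x0 y0 = el p q.1 * q.2.1 ∧
      cy M x0 y0 = el p q.1 * q.2.2 ∧ (a * X ≤ nm q.2.1 ∧ (nm q.2.1 : ℝ) ≤ b * X) ∧
      (nm q.2.2 : ℝ) ≤ b * X ∧ th x0 ≤ th (el p q.1) + th q.2.1 ∧
      th (el p q.1) + th q.2.1 ≤ th y0 := by
  have hok : Q.Ok := by
    rw [← hf]
    exact fm_Ok h0
  obtain ⟨Q', hQ', hact⟩ := zr_form hok hp.1 hM hz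
  obtain ⟨x, y, hxy, hfm⟩ := fm_surj hQ'
  have hq : (fm x0 y0).act M = (fm x y).sm p := by rw [hf, hfm, hact]
  obtain ⟨s, k, hx, hy⟩ := Pst_el hT hp hxy h0 hM hq
  obtain ⟨tu, nu, -⟩ := un_spec k
  obtain ⟨⟨te, -⟩, ne⟩ := el_spec hp s
  have hp1 : 1 ≤ p := hp.1.one_lt.le
  have hp0 : (0 : ℝ) < p := by exact_mod_cast hp1
  obtain ⟨tx, ty, -, -⟩ := Fr_act h0 hp1 hM
  have hx' : cx M x0 y0 = el p s * (un k * x) := by rw [hx]; ring
  have hy' : cy M x0 y0 = el p s * (un k * y) := by rw [hy]; ring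
  have tux : TP (un k * x) := tu.mul hxy.tx
  have tuy : TP (un k * y) := tu.mul hxy.ty
  have e1 : ((Q.val M.a M.c : ℕ) : ℤ) = p * nm (un k * x) := by
    rw [← hf, fm_val h0.tx h0.ty]
    have h5 : ((M.a : ℤ√2) * x0 + (M.c : ℤ√2) * y0) = el p s * (un k * x) := hx'
    rw [h5, nm_mul, ne]
  have e2 : ((Q.val M.b M.d : ℕ) : ℤ) = p * nm (un k * y) := by
    rw [← hf, fm_val h0.tx h0.ty]
    have h5 : ((M.b : ℤ√2) * x0 + (M.d : ℤ√2) * y0) = el p s * (un k * y) := hy'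
    rw [h5, nm_mul, ne]
  have e1' : ((Q.val M.a M.c : ℕ) : ℝ) = p * (nm (un k * x) : ℝ) := by exact_mod_cast e1
  have e2' : ((Q.val M.b M.d : ℕ) : ℝ) = p * (nm (un k * y) : ℝ) := by exact_mod_cast e2
  rw [e1'] at h1 h2
  rw [e2'] at h3 h4
  have hth : th (cx M x0 y0) = th (el p s) + th (un k * x) := by
    rw [hx', th_mul te tux]
  refine ⟨(s, un k * x, un k * y), ⟨tux, tuy, ?_⟩, hx', hy', ⟨?_, ?_⟩, ?_, ?_, ?_⟩
  · rw [primeH_det_mul, nu, hxy.dt, one_mul]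
  · have h6 : p * (a * X) ≤ p * (nm (un k * x) : ℝ) := by linarith
    exact le_of_mul_le_mul_left h6 hp0
  · have h6 : p * (nm (un k * x) : ℝ) ≤ p * (b * X) := by linarith
    exact le_of_mul_le_mul_left h6 hp0
  · have h6 : p * (nm (un k * y) : ℝ) ≤ p * (b * X) := by linarith
    exact le_of_mul_le_mul_left h6 hp0
  · show th x0 ≤ th (el p s) + th (un k * x)
    rw [← hth, th_le_iff h0.tx tx]
    have h7 : det x0 (cx M x0 y0) = (M.c : ℤ) * det x0 y0 := by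
      simp only [det, cx, re_add, im_add, re_mul, im_mul, re_natCast, im_natCast]
      ring
    rw [h7, h0.dt]
    positivity
  · show th (el p s) + th (un k * x) ≤ th y0
    rw [← hth, th_le_iff tx h0.ty]
    have h7 : det (cx M x0 y0) y0 = (M.a : ℤ) * det x0 y0 := by
      simp only [det, cx, re_add, im_add, re_mul, im_mul, re_natCast, im_natCast]
      ring
    rw [h7, h0.dt]
    positivity

private theorem primeH_inj {x0 y0 : ℤ√2} (h0 : Fr x0 y0) {M M' : Mt}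
    (h1 : cx M x0 y0 = cx M' x0 y0) (h2 : cy M x0 y0 = cy M' x0 y0) : M = M' := by
  have a1 : ∀ N : Mt, det x0 (cx N x0 y0) = (N.c : ℤ) := by
    intro N
    have h7 : det x0 (cx N x0 y0) = (N.c : ℤ) * det x0 y0 := by
      simp only [det, cx, re_add, im_add, re_mul, im_mul, re_natCast, im_natCast]
      ring
    rw [h7, h0.dt, mul_one]
  have a2 : ∀ N : Mt, det (cx N x0 y0) y0 = (N.a : ℤ) := by
    intro N
    have h7 : det (cx N x0 y0) y0 = (N.a : ℤ) * det x0 y0 := by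
      simp only [det, cx, re_add, im_add, re_mul, im_mul, re_natCast, im_natCast]
      ring
    rw [h7, h0.dt, mul_one]
  have a3 : ∀ N : Mt, det x0 (cy N x0 y0) = (N.d : ℤ) := by
    intro N
    have h7 : det x0 (cy N x0 y0) = (N.d : ℤ) * det x0 y0 := by
      simp only [det, cy, re_add, im_add, re_mul, im_mul, re_natCast, im_natCast]
      ring
    rw [h7, h0.dt, mul_one]
  have a4 : ∀ N : Mt, det (cy N x0 y0) y0 = (N.b : ℤ) := by
    intro N
    have h7 : det (cy N x0 y0) y0 = (N.b : ℤ) * det x0 y0 := by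
      simp only [det, cy, re_add, im_add, re_mul, im_mul, re_natCast, im_natCast]
      ring
    rw [h7, h0.dt, mul_one]
  ext
  · have := (a2 M).symm.trans ((congrArg (fun z => det z y0) h1).trans (a2 M'))
    exact_mod_cast this
  · have := (a4 M).symm.trans ((congrArg (fun z => det z y0) h2).trans (a4 M'))
    exact_mod_cast this
  · have := (a1 M).symm.trans ((congrArg (fun z => det x0 z) h1).trans (a1 M'))
    exact_mod_cast this
  · have := (a3 M).symm.trans ((congrArg (fun z => det x0 z) h2).trans (a3 M'))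
    exact_mod_cast this

open Classical in
/-- Matrices for one cell. Let `(x0, y0)` be a basis of the cell. Each matrix `M` gives (`zr_form`,
`Pst_el`) a sign `s` and a basis `(x, y)` with `cx M x0 y0 = el p s * x`, `cy M x0 y0 = el p s * y`
(absorb the unit), `a X ≤ nm x, nm y ≤ b X`, and `M ↦ (s, x, y)` is injective. The directions of `x`
lie in an interval of length `th y0 - th x0 ≤ 5 / n0` (`edge_len_le`), and two different primitive
elements of norm `≤ b X` have angles differing by at least `1 / (4 ⌈b X⌉)` (`spacing`): at most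
`1 + 8 b X * 5 / n0` elements `x` for each `s`. For given `x` the elements `y` with `det x y = 1` are
`y1 + k x`, and `√(nm (y + x)) ≥ √(nm y) + √(nm x)`, so at most `√(b / a) + 1` of them have norm
in `[a X, b X]`. -/
theorem cell_card (a b : ℝ) (ha : 0 < a) (hab : a ≤ b) : ∃ C : ℝ, 1 ≤ C ∧ ∀ T X : ℝ, 0 ≤ T → 1 ≤ X →
    ∀ p : ℕ, Sp p → ∀ Q ∈ Cl T, (((Bx ⌊√(b * p * X)⌋₊).filter (fun M => (M.Dt p ∧ zr (res p Q) M) ∧
      (a * (p * X) ≤ Q.val M.a M.c ∧ Q.val M.a M.c ≤ b * (p * X)) ∧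
      (a * (p * X) ≤ Q.val M.b M.d ∧ Q.val M.b M.d ≤ b * (p * X)))).card : ℝ) ≤
      C * (1 + X / √((Q.d : ℝ) * Q.e)) := by
  have hb : 0 < b := lt_of_lt_of_le ha hab
  have hK1 : 1 ≤ (b + 2) / a + 1 := by
    have : 0 ≤ (b + 2) / a := by positivity
    linarith
  refine ⟨((b + 2) / a + 1) * (2 * (20 * (b + 1) + 1)), ?_, ?_⟩
  · nlinarith
  intro T X hT hX p hp Q hQ
  have hX0 : 0 < X := by linarith
  set S : Finset Mt := (Bx ⌊√(b * p * X)⌋₊).filter (fun M => (M.Dt p ∧ zr (res p Q) M) ∧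
      (a * (p * X) ≤ Q.val M.a M.c ∧ Q.val M.a M.c ≤ b * (p * X)) ∧
      (a * (p * X) ≤ Q.val M.b M.d ∧ Q.val M.b M.d ≤ b * (p * X))) with hS
  have hok : Q.Ok := by
    have h1 : Q ∈ Qs T := (Finset.mem_filter.1 hQ).1
    exact (Finset.mem_filter.1 h1).2
  obtain ⟨x0, y0, h0, hf⟩ := fm_surj hok
  have hex : ∀ M : Mt, ∃ q : Bool × (ℤ√2 × ℤ√2), M ∈ S → Fr q.2.1 q.2.2 ∧
      cx M x0 y0 = el p q.1 * q.2.1 ∧
      cy M x0 y0 = el p q.1 * q.2.2 ∧ (a * X ≤ nm q.2.1 ∧ (nm q.2.1 : ℝ) ≤ b * X) ∧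
      (nm q.2.2 : ℝ) ≤ b * X ∧ th x0 ≤ th (el p q.1) + th q.2.1 ∧
      th (el p q.1) + th q.2.1 ≤ th y0 := by
    intro M
    by_cases hM : M ∈ S
    · obtain ⟨-, ⟨hD, hz⟩, ⟨h1, h2⟩, ⟨h3, h4⟩⟩ := Finset.mem_filter.1 hM
      obtain ⟨q, hq⟩ := primeH_data ha hab hT hX hp hQ h0 hf hD hz h1 h2 h3 h4
      exact ⟨q, fun _ => hq⟩
    · exact ⟨(true, 0, 0), fun h => absurd h hM⟩
  choose g hg using hex
  set f : Mt → Bool × ℤ√2 := fun M => ((g M).1, (g M).2.1) with hfdef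
  set K : ℕ := ⌊(b + 2) / a⌋₊ + 1 with hK
  have hcard : S.card ≤ K * (S.image f).card := by
    refine Finset.card_le_mul_card_image S K ?_
    intro c hc
    set R : Finset Mt := S.filter (fun M => f M = c) with hR
    have hRS : ∀ M ∈ R, M ∈ S ∧ f M = c := fun M hM => Finset.mem_filter.1 hM
    have hinj : Set.InjOn (fun M => (g M).2.2) R := by
      intro M hM M' hM' he
      obtain ⟨m1, m2⟩ := hRS M hM
      obtain ⟨m3, m4⟩ := hRS M' hM'
      have m5 : f M = f M' := m2.trans m4.symm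
      have m6 : (g M).1 = (g M').1 := congrArg (fun z : Bool × ℤ√2 => z.1) m5
      have m7 : (g M).2.1 = (g M').2.1 := congrArg (fun z : Bool × ℤ√2 => z.2) m5
      obtain ⟨-, c1, c2, -⟩ := hg M m1
      obtain ⟨-, d1, d2, -⟩ := hg M' m3
      have he' : (g M).2.2 = (g M').2.2 := he
      refine primeH_inj h0 ?_ ?_
      · rw [c1, d1, m6, m7]
      · rw [c2, d2, m6, he']
    rw [← Finset.card_image_of_injOn hinj]
    refine primeH_second ha hab hX c.2 _ ?_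
    intro y hy
    obtain ⟨M, hM, rfl⟩ := Finset.mem_image.1 hy
    obtain ⟨m1, m2⟩ := hRS M hM
    obtain ⟨c0, -, -, c3, c4, -⟩ := hg M m1
    have m3 : (g M).2.1 = c.2 := congrArg (fun z : Bool × ℤ√2 => z.2) m2
    rw [m3] at c0 c3
    exact ⟨c0, c3, c4⟩
  set R : ℝ := X / √((Q.d : ℝ) * Q.e) with hRdef
  have hRnn : 0 ≤ R := by positivity
  have hfib : ∀ s : Bool, ((((S.image f).filter (fun c => c.1 = s)).card : ℕ) : ℝ) ≤
      20 * (b + 1) * R + 1 := by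
    intro s
    set F : Finset (Bool × ℤ√2) := (S.image f).filter (fun c => c.1 = s) with hF
    have hinj : Set.InjOn (fun c : Bool × ℤ√2 => c.2) F := by
      intro c hc c' hc' he
      have h1 := (Finset.mem_filter.1 hc).2
      have h2 := (Finset.mem_filter.1 hc').2
      exact Prod.ext (h1.trans h2.symm) he
    rw [← Finset.card_image_of_injOn hinj]
    have hlen := edge_len_le h0.tx h0.ty h0.dt
    have hord : th x0 ≤ th y0 := by
      rw [th_le_iff h0.tx h0.ty, h0.dt]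
      norm_num
    set H : ℕ := ⌈b * X⌉₊ with hH
    have hH1 : 1 ≤ H := Nat.one_le_ceil_iff.2 (by positivity)
    have hcn := count_near H hH1 ((th x0 + th y0) / 2 - th (el p s)) ((th y0 - th x0) / 2)
      (by linarith) (F.image (fun c : Bool × ℤ√2 => c.2)) ?_
    · refine hcn.trans ?_
      have hBge : (2 : ℝ) ≤ B x0 y0 := by exact_mod_cast B_edge_ge h0.tx h0.ty h0.dt
      have hHle : (H : ℝ) ≤ (b + 1) * X := by
        have := (Nat.ceil_lt_add_one (show 0 ≤ b * X by positivity)).le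
        nlinarith
      have hQd : (Q.d : ℝ) = nm x0 := by
        have h1 : Q.d = (nm x0).toNat := by rw [← hf]; rfl
        have h2 : ((Q.d : ℕ) : ℤ) = nm x0 := by
          rw [h1]
          exact Int.toNat_of_nonneg h0.tx.nm_pos.le
        exact_mod_cast h2
      have hQe : (Q.e : ℝ) = nm y0 := by
        have h1 : Q.e = (nm y0).toNat := by rw [← hf]; rfl
        have h2 : ((Q.e : ℕ) : ℤ) = nm y0 := by
          rw [h1]
          exact Int.toNat_of_nonneg h0.ty.nm_pos.le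
        exact_mod_cast h2
      have hsq : √((Q.d : ℝ) * Q.e) ≤ B x0 y0 := by
        rw [hQd, hQe]
        have h7 := B_sq x0 y0
        rw [h0.dt] at h7
        have h8 : (nm x0 : ℝ) * nm y0 = (B x0 y0 : ℝ) ^ 2 - 2 := by
          have h9 : nm x0 * nm y0 = B x0 y0 ^ 2 - 2 := by rw [h7]; ring
          exact_mod_cast h9
        rw [h8]
        exact Real.sqrt_le_iff.2 ⟨by linarith, by linarith⟩
      have hsp : 0 < √((Q.d : ℝ) * Q.e) := by
        apply Real.sqrt_pos.2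
        have h1 : (0 : ℝ) < Q.d := by exact_mod_cast hok.1
        have h2 : (0 : ℝ) < Q.e := by exact_mod_cast hok.2.1
        positivity
      have hlen2 : th y0 - th x0 ≤ 5 / √((Q.d : ℝ) * Q.e) :=
        hlen.trans (div_le_div_of_nonneg_left (by norm_num) hsp hsq)
      have h10 : 8 * ((th y0 - th x0) / 2) * H ≤ 4 * (5 / √((Q.d : ℝ) * Q.e)) * ((b + 1) * X) := by
        have h11 : 8 * ((th y0 - th x0) / 2) ≤ 4 * (5 / √((Q.d : ℝ) * Q.e)) := by linarith
        exact mul_le_mul h11 hHle (by positivity) (by positivity)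
      have h12 : 4 * (5 / √((Q.d : ℝ) * Q.e)) * ((b + 1) * X) = 20 * (b + 1) * R := by
        rw [hRdef]
        ring
      linarith
    · intro v hv
      obtain ⟨c, hc, rfl⟩ := Finset.mem_image.1 hv
      obtain ⟨hc1, hc2⟩ := Finset.mem_filter.1 hc
      obtain ⟨M, hM, hMc⟩ := Finset.mem_image.1 hc1
      obtain ⟨c0, -, -, c3, -, c5, c6⟩ := hg M hM
      have m1 : (g M).1 = s := by
        rw [← hc2, ← hMc]
      have m2 : (g M).2.1 = c.2 := by
        rw [← hMc]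
      rw [m2] at c0 c3
      rw [m1, m2] at c5 c6
      refine ⟨c0.tx, primeH_prim c0.dt, ?_, ?_⟩
      · have h1 : (nm c.2 : ℝ) ≤ (H : ℝ) := c3.2.trans (Nat.le_ceil _)
        exact_mod_cast h1
      · rw [abs_le]
        constructor <;> linarith
  have himg : (((S.image f).card : ℕ) : ℝ) ≤ 2 * (20 * (b + 1) * R + 1) := by
    have h1 : (S.image f).card = ∑ s : Bool, ((S.image f).filter (fun c => c.1 = s)).card :=
      Finset.card_eq_sum_card_fiberwise (fun c _ => Finset.mem_univ c.1)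
    rw [h1, Fintype.sum_bool]
    push_cast
    have h2 := hfib true
    have h3 := hfib false
    linarith
  have hKle : (K : ℝ) ≤ (b + 2) / a + 1 := by
    rw [hK]
    push_cast
    have := Nat.floor_le (show 0 ≤ (b + 2) / a by positivity)
    linarith
  have hcard' : (S.card : ℝ) ≤ K * ((S.image f).card : ℝ) := by exact_mod_cast hcard
  calc (S.card : ℝ) ≤ K * ((S.image f).card : ℝ) := hcard'
    _ ≤ ((b + 2) / a + 1) * (2 * (20 * (b + 1) * R + 1)) :=
        mul_le_mul hKle himg (by positivity) (by positivity)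
    _ ≤ ((b + 2) / a + 1) * (2 * (20 * (b + 1) + 1)) * (1 + R) := by
        have h1 : 2 * (20 * (b + 1) * R + 1) ≤ 2 * (20 * (b + 1) + 1) * (1 + R) := by nlinarith
        have h2 := mul_le_mul_of_nonneg_left h1 (by linarith : 0 ≤ (b + 2) / a + 1)
        linarith

end

end Pool.Agent.Lib.MP_0b748d_nt.HH
end

section

set_option autoImplicit false

/-!
# The prime step
-/

namespace Pool.Agent.Lib.MP_0b748d_nt.HH

open Zsqrtd MR

noncomputable section

private theorem card_Qs_le (b : ℝ) (hb : 0 < b) : ∃ C : ℝ, 1 ≤ C ∧ ∀ X : ℝ, 0 < X →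
    ((Qs (b * X)).card : ℝ) ≤ C * X := by
  obtain ⟨C, hC, h⟩ := Qs_ab
  refine ⟨max 1 (C * b), le_max_left _ _, ?_⟩
  intro X hX
  have hs : 0 < √b := Real.sqrt_pos.2 hb
  have h1 := h (√b) (√b) X hs hs hX.le
  rw [max_self, Real.sq_sqrt hb.le, Real.mul_self_sqrt hb.le] at h1
  have hbX : 0 ≤ b * X := mul_nonneg hb.le hX.le
  have h2 : (Qs (b * X)).filter (fun Q => (Q.d : ℝ) ≤ b * X ∧ (Q.e : ℝ) ≤ b * X) =
      Qs (b * X) := by
    apply Finset.filter_true_of_mem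
    intro Q hQ
    exact ((mem_Qs hbX).1 hQ).2
  rw [h2] at h1
  calc ((Qs (b * X)).card : ℝ) ≤ C * (b * X) := h1
    _ = (C * b) * X := by ring
    _ ≤ max 1 (C * b) * X := mul_le_mul_of_nonneg_right (le_max_right _ _) hX.le

private theorem Wt_abs {a b L : ℝ} {W : ℝ → ℝ → ℝ} (hW : Wt a b L W) :
    Wt a b L (fun x y => |W x y|) := by
  refine ⟨fun x y => ?_, fun x y h => ?_, fun x y x' y' => ?_⟩
  · rw [abs_abs]
    exact hW.bd x y
  · exact hW.sp x y (fun h0 => h (by simp only [h0, abs_zero]))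
  · exact (abs_abs_sub_abs_le _ _).trans (hW.lip x y x' y')

private theorem abs_term_le (w : ℝ) {f g : ℤ} (hf : |f| ≤ 1) (hg : |g| ≤ 1) :
    |w * ((f : ℝ) * (g : ℝ))| ≤ |w| := by
  have hf' : |(f : ℝ)| ≤ 1 := by exact_mod_cast hf
  have hg' : |(g : ℝ)| ≤ 1 := by exact_mod_cast hg
  rw [abs_mul, abs_mul]
  calc |w| * (|(f : ℝ)| * |(g : ℝ)|) ≤ |w| * (1 * 1) := by
        apply mul_le_mul_of_nonneg_left _ (abs_nonneg w)
        exact mul_le_mul hf' hg' (abs_nonneg _) zero_le_one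
    _ = |w| := by ring

/-- the total number of terms: `|Pst| ≤ 2` and `Qs_ab` -/
theorem Ph_total (a b : ℝ) (ha : 0 < a) (hab : a ≤ b) : ∃ C : ℝ, 1 ≤ C ∧ ∀ (L : ℝ)
    (W : ℝ → ℝ → ℝ), Wt a b L W → ∀ F G : ℕ → ℤ, (∀ m, |F m| ≤ 1) → (∀ m, |G m| ≤ 1) →
    ∀ T X : ℝ, 0 ≤ T → 0 < X → ∀ p : ℕ, Sp p →
    ∑ Q ∈ Cl T, |Ph W F G b p X Q| ≤ C * X := by
  classical
  have hb : 0 < b := ha.trans_le hab
  obtain ⟨C, hC, h⟩ := card_Qs_le b hb
  refine ⟨2 * C, by linarith, ?_⟩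
  intro L W hW F G hF hG T X hT hX p hp
  have h1 : ∀ Q ∈ Cl T, |Ph W F G b p X Q| ≤
      Ph (fun x y => |W x y|) (fun _ => 1) (fun _ => 1) b p X Q := by
    intro Q _
    unfold Ph
    refine (Finset.abs_sum_le_sum_abs _ _).trans (Finset.sum_le_sum fun M _ => ?_)
    refine (abs_term_le _ (hF _) (hG _)).trans (le_of_eq ?_)
    simp
  refine (Finset.sum_le_sum h1).trans ?_
  rw [Ph_sum ha (Wt_abs hW) (fun _ => 1) (fun _ => 1) hT hX hp.1]
  have hbX : 0 ≤ b * X := mul_nonneg hb.le hX.le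
  have h2 : ∀ Q ∈ Qs (b * X), ((Pst T p Q).card : ℝ) *
      (|W (Q.d / X) (Q.e / X)| * (((1 : ℤ) : ℝ) * ((1 : ℤ) : ℝ))) ≤ 2 := by
    intro Q hQ
    have hc : ((Pst T p Q).card : ℝ) ≤ 2 := by
      exact_mod_cast Pst_card_le hT hp ((mem_Qs hbX).1 hQ).1
    have hw := hW.bd (Q.d / X) (Q.e / X)
    have hc0 : (0 : ℝ) ≤ (Pst T p Q).card := Nat.cast_nonneg _
    calc ((Pst T p Q).card : ℝ) *
        (|W (Q.d / X) (Q.e / X)| * (((1 : ℤ) : ℝ) * ((1 : ℤ) : ℝ)))
        = ((Pst T p Q).card : ℝ) * |W (Q.d / X) (Q.e / X)| := by push_cast; ring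
      _ ≤ 2 * 1 := mul_le_mul hc hw (abs_nonneg _) (by norm_num)
      _ = 2 := by norm_num
  refine (Finset.sum_le_sum h2).trans ?_
  rw [Finset.sum_const, nsmul_eq_mul]
  have h3 := h X hX
  linarith

/-- `Qs_ab` -/
theorem QW_le (a b : ℝ) (ha : 0 < a) (hab : a ≤ b) : ∃ C : ℝ, 1 ≤ C ∧ ∀ (L : ℝ)
    (W : ℝ → ℝ → ℝ), Wt a b L W → ∀ F G : ℕ → ℤ, (∀ m, |F m| ≤ 1) → (∀ m, |G m| ≤ 1) →
    ∀ X : ℝ, 0 < X → |QW W F G b X| ≤ C * X := by
  have hb : 0 < b := ha.trans_le hab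
  obtain ⟨C, hC, h⟩ := card_Qs_le b hb
  refine ⟨C, hC, ?_⟩
  intro L W hW F G hF hG X hX
  unfold QW
  refine (Finset.abs_sum_le_sum_abs _ _).trans ?_
  refine (Finset.sum_le_sum fun Q _ =>
    (abs_term_le _ (hF _) (hG _)).trans (hW.bd _ _)).trans ?_
  rw [Finset.sum_const, nsmul_eq_mul, mul_one]
  exact h X hX

end

end Pool.Agent.Lib.MP_0b748d_nt.HH
end

section

set_option autoImplicit false

/-!
# The prime step
-/

namespace Pool.Agent.Lib.MP_0b748d_nt.HH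

open Zsqrtd MR

noncomputable section

open Classical in
/-- Bad cells: `cell_card`, `Cl_bad` and `Cl_wt` (`X / √(d e) = (X / T)(T / √(d e))`), `T ≤ X`,
`δ ≤ √δ`. -/
theorem prime_bad (a b : ℝ) (ha : 0 < a) (hab : a ≤ b) : ∃ C : ℝ, 1 ≤ C ∧ ∀ (L : ℝ)
    (W : ℝ → ℝ → ℝ), Wt a b L W → ∀ F G : ℕ → ℤ, (∀ m, |F m| ≤ 1) → (∀ m, |G m| ≤ 1) →
    ∀ T X δ : ℝ, 1 ≤ T → T ≤ X → 0 < δ → δ ≤ 1 → ∀ p : ℕ, Sp p →
    ∑ Q ∈ (Cl T).filter (fun Q => ¬ Gc δ T Q), |Ph W F G b p X Q| ≤ C * √δ * X := by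
  obtain ⟨C1, hC1, h1⟩ := cell_card a b ha hab
  obtain ⟨C2, hC2, h2⟩ := Cl_bad
  obtain ⟨C3, hC3, h3⟩ := Cl_wt
  refine ⟨C1 * (C2 + C3), by nlinarith, ?_⟩
  intro L W hW F G hF hG T X δ hT hTX hδ hδ1 p hp
  have hT0 : 0 < T := by linarith
  have hX1 : 1 ≤ X := hT.trans hTX
  have hX0 : 0 < X := by linarith
  have hp0 : (0 : ℝ) < p := by exact_mod_cast hp.1.pos
  have hpX : 0 < (p : ℝ) * X := mul_pos hp0 hX0
  have hPh : ∀ Q ∈ Cl T, |Ph W F G b p X Q| ≤ C1 * (1 + X / √((Q.d : ℝ) * Q.e)) := by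
    intro Q hQ
    refine le_trans ?_ (h1 T X hT0.le hX1 p hp Q hQ)
    unfold Ph
    refine (Finset.abs_sum_le_sum_abs _ _).trans ?_
    rw [← Finset.filter_filter (fun M => M.Dt p ∧ zr (res p Q) M), ← Finset.sum_boole]
    refine Finset.sum_le_sum fun M _ => ?_
    have hFa : |(F (Q.val M.a M.c) : ℝ)| ≤ 1 := by exact_mod_cast hF _
    have hGa : |(G (Q.val M.b M.d) : ℝ)| ≤ 1 := by exact_mod_cast hG _
    by_cases hW0 : W (Q.val M.a M.c / (p * X)) (Q.val M.b M.d / (p * X)) = 0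
    · rw [hW0, zero_mul, abs_zero]
      split_ifs
      · exact zero_le_one
      · exact le_rfl
    · obtain ⟨⟨s1, s2⟩, s3, s4⟩ := hW.sp _ _ hW0
      rw [le_div_iff₀ hpX] at s1 s3
      rw [div_le_iff₀ hpX] at s2 s4
      rw [if_pos ⟨⟨s1, s2⟩, s3, s4⟩, abs_mul, abs_mul]
      have hb := hW.bd (Q.val M.a M.c / (p * X)) (Q.val M.b M.d / (p * X))
      have hFG : |(F (Q.val M.a M.c) : ℝ)| * |(G (Q.val M.b M.d) : ℝ)| ≤ 1 :=
        mul_le_one₀ hFa (abs_nonneg _) hGa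
      exact mul_le_one₀ hb (by positivity) hFG
  have hsum : ∑ Q ∈ (Cl T).filter (fun Q => ¬ Gc δ T Q), |Ph W F G b p X Q| ≤
      ∑ Q ∈ (Cl T).filter (fun Q => ¬ Gc δ T Q),
        (C1 + C1 * (X / T) * (T / √((Q.d : ℝ) * Q.e))) := by
    refine Finset.sum_le_sum fun Q hQ => ?_
    refine (hPh Q (Finset.mem_of_mem_filter Q hQ)).trans (le_of_eq ?_)
    have e1 : X / T * (T / √((Q.d : ℝ) * Q.e)) = X / √((Q.d : ℝ) * Q.e) := by
      rw [div_mul_div_comm, mul_comm T, mul_div_mul_right _ _ hT0.ne']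
    rw [mul_assoc, e1]
    ring
  rw [Finset.sum_add_distrib, Finset.sum_const, nsmul_eq_mul, ← Finset.mul_sum] at hsum
  have hbad := h2 T δ hT0.le hδ
  have hwt := h3 T δ hT0.le hδ
  have hsq : δ ≤ √δ := by
    have h4 : √δ ≤ 1 := Real.sqrt_le_one.2 hδ1
    have h5 : √δ * √δ = δ := Real.mul_self_sqrt hδ.le
    nlinarith [Real.sqrt_nonneg δ]
  have k1 : ((((Cl T).filter (fun Q => ¬ Gc δ T Q)).card : ℕ) : ℝ) * C1 ≤ C1 * C2 * √δ * X := by
    have h4 : C2 * δ * T ≤ C2 * √δ * X := by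
      have h5 : δ * T ≤ √δ * X := mul_le_mul hsq hTX hT0.le (Real.sqrt_nonneg δ)
      have h6 := mul_le_mul_of_nonneg_left h5 (by linarith : (0 : ℝ) ≤ C2)
      linarith
    have h5 := mul_le_mul_of_nonneg_left (hbad.trans h4) (by linarith : (0 : ℝ) ≤ C1)
    linarith
  have k2 : C1 * (X / T) * ∑ Q ∈ (Cl T).filter (fun Q => ¬ Gc δ T Q), T / √((Q.d : ℝ) * Q.e) ≤
      C1 * C3 * √δ * X := by
    have h4 := mul_le_mul_of_nonneg_left hwt (by positivity : (0 : ℝ) ≤ C1 * (X / T))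
    refine h4.trans (le_of_eq ?_)
    field_simp
  calc ∑ Q ∈ (Cl T).filter (fun Q => ¬ Gc δ T Q), |Ph W F G b p X Q|
      ≤ C1 * C2 * √δ * X + C1 * C3 * √δ * X := hsum.trans (add_le_add k1 k2)
    _ = C1 * (C2 + C3) * √δ * X := by ring

end

end Pool.Agent.Lib.MP_0b748d_nt.HH
end

section

set_option autoImplicit false

/-!
# Assembly: the averages over forms vanish in the limit
-/

namespace Pool.Agent.Lib.MP_0b748d_nt.HH

open Filter Topology MR

noncomputable section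

private lemma asmB_abs {F : ℕ → ℕ → ℤ} (hF : V3 F) (n m : ℕ) : |F n m| ≤ 1 := by
  rcases hF n m with h | h | h <;> rw [h] <;> norm_num

private lemma asmB_avg {n : ℕ} {f : ℕ → ℝ} {M : ℝ} (hM : 0 ≤ M) (hf : ∀ i, |f i| ≤ M) :
    |(1 / (n : ℝ) ^ 2) * ∑ i ∈ Finset.range (n ^ 2), f i| ≤ M := by
  rcases Nat.eq_zero_or_pos n with rfl | hn
  · simpa using hM
  · have hn0 : (0 : ℝ) < n := by exact_mod_cast hn
    rw [abs_mul, abs_of_pos (by positivity : (0 : ℝ) < 1 / (n : ℝ) ^ 2), div_mul_eq_mul_div,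
      one_mul, div_le_iff₀ (by positivity)]
    refine (Finset.abs_sum_le_sum_abs _ _).trans ((Finset.sum_le_sum fun i _ => hf i).trans ?_)
    rw [Finset.sum_const, Finset.card_range, nsmul_eq_mul]
    push_cast
    linarith

private lemma asmB_shift {q : ℕ → ℝ} {M : ℝ} (hq : ∀ i, |q i| ≤ M) (N m : ℕ) :
    |∑ i ∈ Finset.range N, q i - ∑ i ∈ Finset.range N, q (i + m)| ≤ 2 * (m : ℝ) * M := by
  have h1 : ∑ i ∈ Finset.range m, q i + ∑ i ∈ Finset.range N, q (m + i) =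
      ∑ i ∈ Finset.range N, q i + ∑ i ∈ Finset.range m, q (N + i) := by
    rw [← Finset.sum_range_add, ← Finset.sum_range_add, add_comm]
  have h2 : ∑ i ∈ Finset.range N, q (i + m) = ∑ i ∈ Finset.range N, q (m + i) := by
    simp_rw [add_comm]
  have h3 : ∑ i ∈ Finset.range N, q i - ∑ i ∈ Finset.range N, q (i + m) =
      ∑ i ∈ Finset.range m, q i - ∑ i ∈ Finset.range m, q (N + i) := by
    rw [h2]
    linarith
  have h4 : ∀ f : ℕ → ℝ, (∀ i, |f i| ≤ M) → |∑ i ∈ Finset.range m, f i| ≤ m * M := by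
    intro f hf
    refine (Finset.abs_sum_le_sum_abs _ _).trans ((Finset.sum_le_sum fun i _ => hf i).trans ?_)
    rw [Finset.sum_const, Finset.card_range, nsmul_eq_mul]
  rw [h3]
  refine (abs_sub _ _).trans ?_
  have h5 := h4 q hq
  have h6 := h4 (fun i => q (N + i)) (fun i => hq _)
  linarith

/-- `Ph_total` -/
theorem Pn_Bd {a b L : ℝ} (ha : 0 < a) (hab : a ≤ b) {W : ℝ → ℝ → ℝ} (hW : Wt a b L W)
    {F G : ℕ → ℕ → ℤ} (hF : V3 F) (hG : V3 G) {p : ℕ} (hp : Sp p) (s : ℕ) :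
    Bd (Pn W F G b p s) := by
  obtain ⟨C, hC1, hC⟩ := Ph_total a b ha hab
  refine ⟨C * 2 ^ s, fun n i _ => ?_⟩
  have h1 := hC L W hW (F n) (G n) (asmB_abs hF n) (asmB_abs hG n) (tt n i) (2 ^ s * tt n i)
    (tt_pos n i).le (by have := tt_pos n i; positivity) p hp
  unfold Pn
  rw [mul_assoc]
  exact h1

/-- Apply `prime_step` with `T = tt n i ≥ 2` (`n ≤ i`) and `X = 2 ^ s T = tt n (i + s n)`, multiply by
`w n (i + s n) / (n² X)` and sum:
`|2 AQ_n + γ_n 2 ^ (-s) AvN n (w (i + s n) Pn)| ≤ C 2 ^ (-s) + O(s / n)`, the shift of the index by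
`s n` and the levels `i < n` costing `O(s / n)` (`QW_le`, `Ph_total`). Along `U` the sign `γ_n` is
constant. -/
theorem one_prime (a b : ℝ) (ha : 0 < a) (hab : a ≤ b) : ∃ C : ℝ, 1 ≤ C ∧ ∀ (U : Ultrafilter ℕ),
    (U : Filter ℕ) ≤ atTop → ∀ (L : ℝ) (W : ℝ → ℝ → ℝ), Wt a b L W → ∀ F G : ℕ → ℕ → ℤ, V3 F → V3 G →
    ∀ p : ℕ, Sp p → ∀ γ : ℤ, γ = 1 ∨ γ = -1 →
    (∀ᶠ n in (U : Filter ℕ), (∀ m, F n (p * m) = -F n m) ∧ ∀ m, G n (p * m) = γ * G n m) →
    ∀ w : ℕ → ℕ → ℝ, (∀ n i, |w n i| ≤ 1) → ∀ s : ℕ,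
    |2 * SW U W F G b w + γ * (1 / 2 ^ s) *
      Av U (fun n i Q => w n (i + s * n) * Pn W F G b p s n i Q)| ≤ C / 2 ^ s := by
  obtain ⟨C0, hC01, hC0⟩ := prime_step a b ha hab
  obtain ⟨C1, hC11, hC1⟩ := Ph_total a b ha hab
  obtain ⟨C2, hC21, hC2⟩ := QW_le a b ha hab
  refine ⟨C0, hC01, fun U hU L W hW F G hF hG p hp γ hγ hev w hw s => ?_⟩
  have htt : ∀ n i, 0 < tt n i := tt_pos
  have hps : (0 : ℝ) < 2 ^ s := by positivity
  obtain ⟨q, hq⟩ : ∃ q : ℕ → ℕ → ℝ, q = fun n j =>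
    w n j * ((1 / tt n j) * QW W (F n) (G n) b (tt n j)) := ⟨_, rfl⟩
  obtain ⟨P, hP⟩ : ∃ P : ℕ → ℕ → ℝ, P = fun n i =>
    (1 / tt n i) * ∑ Q ∈ Cl (tt n i), w n (i + s * n) * Pn W F G b p s n i Q := ⟨_, rfl⟩
  have hqb : ∀ n j, |q n j| ≤ C2 := by
    intro n j
    have h1 := hC2 L W hW (F n) (G n) (asmB_abs hF n) (asmB_abs hG n) (tt n j) (htt n j)
    rw [hq]
    simp only
    rw [abs_mul]
    refine (mul_le_of_le_one_left (abs_nonneg _) (hw n j)).trans ?_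
    rw [abs_mul, abs_of_pos (by have := htt n j; positivity : (0 : ℝ) < 1 / tt n j),
      div_mul_eq_mul_div, one_mul, div_le_iff₀ (htt n j)]
    exact h1
  have hPb : ∀ n i, |P n i| ≤ C1 * 2 ^ s := by
    intro n i
    have h1 := hC1 L W hW (F n) (G n) (asmB_abs hF n) (asmB_abs hG n) (tt n i) (2 ^ s * tt n i)
      (htt n i).le (by have := htt n i; positivity) p hp
    rw [hP]
    simp only
    rw [abs_mul, abs_of_pos (by have := htt n i; positivity : (0 : ℝ) < 1 / tt n i),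
      div_mul_eq_mul_div, one_mul, div_le_iff₀ (htt n i), mul_assoc]
    refine (Finset.abs_sum_le_sum_abs _ _).trans ((Finset.sum_le_sum fun Q _ => ?_).trans h1)
    rw [abs_mul]
    exact mul_le_of_le_one_left (abs_nonneg _) (hw n _)
  have hA : ∀ n, AQ W (F n) (G n) b (w n) n = (1 / (n : ℝ) ^ 2) * ∑ i ∈ Finset.range (n ^ 2), q n i := by
    intro n
    rw [hq]
    rfl
  have hB : ∀ n, AvN n (fun i Q => w n (i + s * n) * Pn W F G b p s n i Q) =
      (1 / (n : ℝ) ^ 2) * ∑ i ∈ Finset.range (n ^ 2), P n i := by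
    intro n
    rw [hP]
    rfl
  have hABs : Bs (fun n => AQ W (F n) (G n) b (w n) n) :=
    ⟨C2, fun n => by
      show |AQ W (F n) (G n) b (w n) n| ≤ C2
      rw [hA]
      exact asmB_avg (by linarith) (hqb n)⟩
  have hBBs : Bs (fun n => AvN n (fun i Q => w n (i + s * n) * Pn W F G b p s n i Q)) :=
    ⟨C1 * 2 ^ s, fun n => by
      show |AvN n (fun i Q => w n (i + s * n) * Pn W F G b p s n i Q)| ≤ C1 * 2 ^ s
      rw [hB]
      exact asmB_avg (by positivity) (hPb n)⟩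
  have hγ1 : |(γ : ℝ)| = 1 := by
    rcases hγ with h | h <;> rw [h] <;> norm_num
  -- the bound for one level
  have hr : ∀ n : ℕ, 1 ≤ n → (∀ m, F n (p * m) = -F n m) → (∀ m, G n (p * m) = γ * G n m) →
      ∀ i, n ≤ i → |2 * q n (i + s * n) + γ * (1 / 2 ^ s) * P n i| ≤ C0 / 2 ^ s := by
    intro n hn h1 h2 i hi
    have hT2 : 2 ≤ tt n i := by
      have h3 := tt_add n hn 0 1
      have h4 : tt n 0 = 1 := by
        unfold tt
        simp
      rw [h4, zero_add, one_mul, pow_one, mul_one] at h3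
      rw [← h3]
      exact (tt_le_iff n hn n i).2 hi
    have hX1 : (1 : ℝ) ≤ 2 ^ s * tt n i := by
      have h3 : (1 : ℝ) ≤ 2 ^ s := one_le_pow₀ (by norm_num)
      nlinarith
    have h3 := hC0 L W hW (F n) (G n) (asmB_abs hF n) (asmB_abs hG n) (tt n i) (2 ^ s * tt n i)
      hT2 hX1 p hp γ hγ h1 h2
    have h4 : 2 * q n (i + s * n) + γ * (1 / 2 ^ s) * P n i =
        w n (i + s * n) * ((2 * QW W (F n) (G n) b (2 ^ s * tt n i) +
          γ * ∑ Q ∈ Cl (tt n i), Ph W (F n) (G n) b p (2 ^ s * tt n i) Q) / (2 ^ s * tt n i)) := by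
      rw [hq, hP]
      simp only
      rw [tt_add n hn i s, ← Finset.mul_sum]
      have h5 : ∑ Q ∈ Cl (tt n i), Pn W F G b p s n i Q =
          ∑ Q ∈ Cl (tt n i), Ph W (F n) (G n) b p (2 ^ s * tt n i) Q := rfl
      rw [h5]
      have h6 := (htt n i).ne'
      field_simp
    rw [h4, abs_mul]
    refine (mul_le_of_le_one_left (abs_nonneg _) (hw n _)).trans ?_
    rw [abs_div, abs_of_pos (by linarith : (0 : ℝ) < 2 ^ s * tt n i),
      div_le_div_iff₀ (by linarith) hps]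
    calc _ ≤ (C0 * tt n i) * 2 ^ s := mul_le_mul_of_nonneg_right h3 hps.le
      _ = _ := by ring
  have hr' : ∀ n i, |2 * q n (i + s * n) + γ * (1 / 2 ^ s) * P n i| ≤ 2 * C2 + C1 := by
    intro n i
    have h1 := hqb n (i + s * n)
    have h2 := hPb n i
    have h3 : |γ * (1 / 2 ^ s) * P n i| ≤ C1 := by
      rw [abs_mul, abs_mul, hγ1, one_mul, abs_of_pos (by positivity : (0 : ℝ) < 1 / 2 ^ s),
        div_mul_eq_mul_div, one_mul, div_le_iff₀ hps]
      exact h2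
    refine (abs_add_le _ _).trans ?_
    rw [abs_mul, abs_two]
    linarith
  have hmain : ∀ᶠ n in (U : Filter ℕ), |2 * AQ W (F n) (G n) b (w n) n +
      γ * (1 / 2 ^ s) * AvN n (fun i Q => w n (i + s * n) * Pn W F G b p s n i Q)| ≤
      C0 / 2 ^ s + (2 * C2 + C1 + 4 * s * C2) / n := by
    filter_upwards [hev, hU (eventually_ge_atTop 1)] with n hn hn1
    have hn0 : (0 : ℝ) < n := by exact_mod_cast hn1
    rw [hA, hB]
    have e1 : 2 * ((1 / (n : ℝ) ^ 2) * ∑ i ∈ Finset.range (n ^ 2), q n i) +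
        γ * (1 / 2 ^ s) * ((1 / (n : ℝ) ^ 2) * ∑ i ∈ Finset.range (n ^ 2), P n i) =
        (1 / (n : ℝ) ^ 2) * (∑ i ∈ Finset.range (n ^ 2),
          (2 * q n (i + s * n) + γ * (1 / 2 ^ s) * P n i) +
          2 * (∑ i ∈ Finset.range (n ^ 2), q n i - ∑ i ∈ Finset.range (n ^ 2), q n (i + s * n))) := by
      rw [Finset.sum_add_distrib, ← Finset.mul_sum, ← Finset.mul_sum]
      ring
    rw [e1, abs_mul, abs_of_pos (by positivity : (0 : ℝ) < 1 / (n : ℝ) ^ 2)]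
    have e2 : |∑ i ∈ Finset.range (n ^ 2), (2 * q n (i + s * n) + γ * (1 / 2 ^ s) * P n i)| ≤
        (n : ℝ) ^ 2 * (C0 / 2 ^ s) + n * (2 * C2 + C1) := by
      have h1 : ∀ i ∈ Finset.range (n ^ 2), |2 * q n (i + s * n) + γ * (1 / 2 ^ s) * P n i| ≤
          C0 / 2 ^ s + if i < n then 2 * C2 + C1 else 0 := by
        intro i _
        split_ifs with h
        · have := hr' n i
          have h5 : 0 ≤ C0 / 2 ^ s := by positivity
          linarith
        · rw [add_zero]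
          exact hr n hn1 hn.1 hn.2 i (not_lt.1 h)
      refine (Finset.abs_sum_le_sum_abs _ _).trans ((Finset.sum_le_sum h1).trans ?_)
      rw [Finset.sum_add_distrib, Finset.sum_const, Finset.card_range, nsmul_eq_mul,
        ← Finset.sum_filter, Finset.sum_const, nsmul_eq_mul]
      have h2 : ((Finset.range (n ^ 2)).filter (fun i => i < n)).card ≤ n := by
        calc _ ≤ (Finset.range n).card := Finset.card_le_card (by
              intro i hi
              exact Finset.mem_range.2 (Finset.mem_filter.1 hi).2)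
          _ = n := Finset.card_range n
      have h3 : (((Finset.range (n ^ 2)).filter (fun i => i < n)).card : ℝ) ≤ n := by
        exact_mod_cast h2
      have h4 : (0 : ℝ) ≤ 2 * C2 + C1 := by linarith
      have h5 := mul_le_mul_of_nonneg_right h3 h4
      push_cast
      linarith
    have e3 := asmB_shift (hqb n) (n ^ 2) (s * n)
    have e4 : |∑ i ∈ Finset.range (n ^ 2), (2 * q n (i + s * n) + γ * (1 / 2 ^ s) * P n i) +
          2 * (∑ i ∈ Finset.range (n ^ 2), q n i - ∑ i ∈ Finset.range (n ^ 2), q n (i + s * n))| ≤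
        (n : ℝ) ^ 2 * (C0 / 2 ^ s) + n * (2 * C2 + C1) + 2 * (2 * ((s * n : ℕ) : ℝ) * C2) := by
      refine (abs_add_le _ _).trans (add_le_add e2 ?_)
      rw [abs_mul, abs_two]
      exact mul_le_mul_of_nonneg_left e3 (by norm_num)
    refine (mul_le_mul_of_nonneg_left e4 (by positivity)).trans (le_of_eq ?_)
    push_cast
    field_simp
    ring
  have hx : 2 * SW U W F G b w + γ * (1 / 2 ^ s) *
      Av U (fun n i Q => w n (i + s * n) * Pn W F G b p s n i Q) =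
      ul U (fun n => 2 * AQ W (F n) (G n) b (w n) n + γ * (1 / 2 ^ s) * AvN n (fun i Q => w n (i + s * n) * Pn W F G b p s n i Q)) := by
    rw [ul_add (Bs_smul 2 hABs) (Bs_smul _ hBBs), ul_smul _ hABs, ul_smul _ hBBs]
    rfl
  rw [hx]
  have hBs := Bs_add (Bs_smul 2 hABs) (Bs_smul (γ * (1 / 2 ^ s)) hBBs)
  have t1 := (ul_tendsto U hBs).abs
  have t2 : Tendsto (fun n : ℕ => C0 / 2 ^ s + (2 * C2 + C1 + 4 * s * C2) / (n : ℝ)) U
      (𝓝 (C0 / 2 ^ s)) := by
    have h1 := (tendsto_const_div_atTop_nhds_zero_nat (2 * C2 + C1 + 4 * s * C2)).const_add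
      (C0 / 2 ^ s)
    rw [add_zero] at h1
    exact h1.mono_left hU
  exact le_of_tendsto_of_tendsto t1 t2 hmain

end

end Pool.Agent.Lib.MP_0b748d_nt.HH
end

section

set_option autoImplicit false

/-!
# Assembly: the averages over forms vanish in the limit
-/

namespace Pool.Agent.Lib.MP_0b748d_nt.HH

open Filter Topology MR

noncomputable section

open Classical in
/-- restriction to good cells: `prime_bad` -/
theorem one_prime_good (a b : ℝ) (ha : 0 < a) (hab : a ≤ b) : ∃ C : ℝ, 1 ≤ C ∧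
    ∀ (U : Ultrafilter ℕ), (U : Filter ℕ) ≤ atTop → ∀ (L : ℝ) (W : ℝ → ℝ → ℝ), Wt a b L W →
    ∀ F G : ℕ → ℕ → ℤ, V3 F → V3 G →
    ∀ p : ℕ, Sp p → ∀ γ : ℤ, γ = 1 ∨ γ = -1 →
    (∀ᶠ n in (U : Filter ℕ), (∀ m, F n (p * m) = -F n m) ∧ ∀ m, G n (p * m) = γ * G n m) →
    ∀ w : ℕ → ℕ → ℝ, (∀ n i, |w n i| ≤ 1) → ∀ (s : ℕ) (δ : ℝ), 0 < δ → δ ≤ 1 →
    |2 * SW U W F G b w + γ * (1 / 2 ^ s) *
      Av U (fun n i Q => if Gc δ (tt n i) Q then w n (i + s * n) * Pn W F G b p s n i Q else 0)| ≤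
      C * (1 / 2 ^ s + √δ) := by
  obtain ⟨C₁, hC1, h1⟩ := one_prime a b ha hab
  obtain ⟨C₂, hC2, h2⟩ := prime_bad a b ha hab
  refine ⟨C₁ + C₂, by linarith, fun U hU L W hW F G hF hG p hp γ hγ hev w hw s δ hδ hδ1 => ?_⟩
  have hone := h1 U hU L W hW F G hF hG p hp γ hγ hev w hw s
  have hBd := Pn_Bd ha hab hW hF hG hp s
  obtain ⟨Φ, hΦ⟩ : ∃ Φ : ℕ → ℕ → Fm → ℝ, Φ = fun n i Q => w n (i + s * n) * Pn W F G b p s n i Q :=
    ⟨_, rfl⟩
  obtain ⟨φ, hφ⟩ : ∃ φ : ℕ → ℕ → Fm → ℝ, φ = fun n i Q => if Gc δ (tt n i) Q then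
      w n (i + s * n) * Pn W F G b p s n i Q else 0 := ⟨_, rfl⟩
  obtain ⟨ψ, hψ⟩ : ∃ ψ : ℕ → ℕ → Fm → ℝ, ψ = fun n i Q => if Gc δ (tt n i) Q then 0 else
      w n (i + s * n) * Pn W F G b p s n i Q := ⟨_, rfl⟩
  rw [← hφ]
  rw [← hΦ] at hone
  have hsum : Φ = fun n i Q => φ n i Q + ψ n i Q := by
    funext n i Q
    simp only [hΦ, hφ, hψ]
    split <;> simp
  have hBa : Bd fun n i Q => |Pn W F G b p s n i Q| := by
    obtain ⟨D, hD⟩ := hBd
    exact ⟨D, fun n i hn => by simpa only [abs_abs] using hD n i hn⟩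
  have hw1 : ∀ n i Q, |w n (i + s * n) * Pn W F G b p s n i Q| ≤ |Pn W F G b p s n i Q| := by
    intro n i Q
    rw [abs_mul]
    exact mul_le_of_le_one_left (abs_nonneg _) (hw n _)
  have hBφ : Bd φ := Bd_mono (fun n i Q _ => by
    simp only [hφ]
    split
    · exact hw1 n i Q
    · rw [abs_zero]; exact abs_nonneg _) hBa
  have hBψ : Bd ψ := Bd_mono (fun n i Q _ => by
    simp only [hψ]
    split
    · rw [abs_zero]; exact abs_nonneg _
    · exact hw1 n i Q) hBa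
  have hadd : Av U Φ = Av U φ + Av U ψ := by
    rw [hsum]
    exact Av_add hBφ hBψ
  have hF1 : ∀ n m, |F n m| ≤ 1 := fun n m => by
    rcases hF n m with h | h | h <;> simp [h]
  have hG1 : ∀ n m, |G n m| ≤ 1 := fun n m => by
    rcases hG n m with h | h | h <;> simp [h]
  have hs : (1 : ℝ) ≤ 2 ^ s := one_le_pow₀ (by norm_num)
  have hlev : ∀ n, 1 ≤ n → ∀ i, ∑ Q ∈ Cl (tt n i), |ψ n i Q| ≤ C₂ * √δ * 2 ^ s * tt n i := by
    intro n hn i
    have hT : (1 : ℝ) ≤ tt n i := one_le_tt n i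
    have h3 := h2 L W hW (F n) (G n) (hF1 n) (hG1 n) (tt n i) (2 ^ s * tt n i) δ hT
      (le_mul_of_one_le_left (by linarith) hs) hδ hδ1 p hp
    rw [Finset.sum_filter] at h3
    have h4 : ∑ Q ∈ Cl (tt n i), |ψ n i Q| ≤ ∑ Q ∈ Cl (tt n i), (if ¬ Gc δ (tt n i) Q then
        |Ph W (F n) (G n) b p (2 ^ s * tt n i) Q| else 0) := by
      refine Finset.sum_le_sum fun Q _ => ?_
      simp only [hψ]
      by_cases h5 : Gc δ (tt n i) Q
      · rw [if_pos h5, if_neg (not_not.2 h5), abs_zero]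
      · rw [if_neg h5, if_pos h5]
        exact hw1 n i Q
    refine h4.trans (h3.trans (le_of_eq (by ring)))
  have hAv : |Av U ψ| ≤ C₂ * √δ * 2 ^ s := by
    unfold Av
    refine abs_ul_le fun n => ?_
    rcases Nat.eq_zero_or_pos n with rfl | hn
    · rw [AvN_zero, abs_zero]
      positivity
    · exact AvN_abs_le hn (hlev n hn)
  have hγ1 : |(γ : ℝ)| = 1 := by
    rcases hγ with h | h <;> simp [h]
  have h5 : 2 * SW U W F G b w + γ * (1 / 2 ^ s) * Av U φ =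
      (2 * SW U W F G b w + γ * (1 / 2 ^ s) * Av U Φ) - γ * (1 / 2 ^ s) * Av U ψ := by
    rw [hadd]
    ring
  rw [h5]
  have h6 : |(γ : ℝ) * (1 / 2 ^ s) * Av U ψ| ≤ C₂ * √δ := by
    rw [abs_mul, abs_mul, hγ1, one_mul, abs_of_pos (by positivity : (0 : ℝ) < 1 / 2 ^ s)]
    calc 1 / 2 ^ s * |Av U ψ| ≤ 1 / 2 ^ s * (C₂ * √δ * 2 ^ s) :=
          mul_le_mul_of_nonneg_left hAv (by positivity)
      _ = C₂ * √δ := by
          field_simp
  refine (abs_sub _ _).trans ?_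
  have h7 : 0 ≤ √δ := Real.sqrt_nonneg δ
  have h8 : (0 : ℝ) < 1 / 2 ^ s := by positivity
  have h9 : C₁ / 2 ^ s = C₁ * (1 / 2 ^ s) := by ring
  nlinarith

end

end Pool.Agent.Lib.MP_0b748d_nt.HH
end
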