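import Pool.Agent.Lib.MP_0b748d_nt.HH.TreeF
import Pool.Agent.Lib.MP_0b748d_nt.HH.CvE

section

section

set_option autoImplicit false

/-!
# Residues of forms modulo primes
-/

namespace Pool.Agent.Lib.MP_0b748d_nt.HH

open Filter Topology

noncomputable section

/-- number of forms of the orbit vanishing at `(1, 0)` -/
def nz (p : ℕ) : ℕ := Nat.card {y : Rp p // y ∈ Orb p ∧ qv y 1 0 = 0}

theorem ResF_two_ne (p : ℕ) (hp : p.Prime) (hp2 : p ≠ 2) : (2 : ZMod p) ≠ 0 := by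
  intro h
  have h1 : ((2 : ℕ) : ZMod p) = 0 := by exact_mod_cast h
  rw [ZMod.natCast_eq_zero_iff] at h1
  exact hp2 ((Nat.prime_dvd_prime_iff_eq hp Nat.prime_two).1 h1)

open Classical in
/-- at most `2 (p - 1)` nonzero zeros -/
private theorem ResF_zeros (p : ℕ) [Fact p.Prime] (hp2 : p ≠ 2) (y : Rp p)
    (hy : y.2.1 ^ 2 = y.1 * y.2.2 + 2) :
    ((Finset.univ : Finset (ZMod p × ZMod p)).filter
      (fun v => v ≠ 0 ∧ qv y v.1 v.2 = 0)).card ≤ 2 * (p - 1) := by
  have hp : p.Prime := Fact.out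
  have h2 := ResF_two_ne p hp hp2
  have hU : ((Finset.univ : Finset (ZMod p)).filter (fun z => z ≠ 0)).card = p - 1 := by
    rw [Finset.filter_ne', Finset.card_erase_of_mem (Finset.mem_univ _), Finset.card_univ,
      ZMod.card]
  by_cases hd : y.1 = 0
  · have hn : y.2.1 ≠ 0 := by
      intro hn
      rw [hd, hn] at hy
      apply h2
      linear_combination -hy
    have hsub : (Finset.univ : Finset (ZMod p × ZMod p)).filter
        (fun v => v ≠ 0 ∧ qv y v.1 v.2 = 0) ⊆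
        ((Finset.univ : Finset (ZMod p)).filter (fun z => z ≠ 0)).image (fun x => (x, (0 : ZMod p)))
          ∪ ((Finset.univ : Finset (ZMod p)).filter (fun z => z ≠ 0)).image
            (fun z => (-(y.2.2 * z) / (2 * y.2.1), z)) := by
      rintro ⟨x, z⟩ hv
      rw [Finset.mem_filter] at hv
      obtain ⟨-, hv1, hv2⟩ := hv
      have hv : (x = 0 → ¬ z = 0) ∧ y.1 * x ^ 2 + 2 * y.2.1 * (x * z) + y.2.2 * z ^ 2 = 0 :=
        ⟨fun hx hz => hv1 (by rw [hx, hz]; rfl), hv2⟩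
      rw [Finset.mem_union, Finset.mem_image, Finset.mem_image]
      by_cases hz : z = 0
      · left
        refine ⟨x, ?_, by rw [hz]⟩
        simp only [Finset.mem_filter, Finset.mem_univ, true_and]
        intro hx
        exact hv.1 hx hz
      · right
        refine ⟨z, by simp [hz], ?_⟩
        have h3 : z * (2 * y.2.1 * x + y.2.2 * z) = 0 := by
          have := hv.2
          rw [hd] at this
          linear_combination this
        have h4 : 2 * y.2.1 * x + y.2.2 * z = 0 := (mul_eq_zero.1 h3).resolve_left hz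
        have h5 : -(y.2.2 * z) / (2 * y.2.1) = x := by
          rw [div_eq_iff (mul_ne_zero h2 hn)]
          linear_combination -h4
        rw [h5]
    refine (Finset.card_le_card hsub).trans ((Finset.card_union_le _ _).trans ?_)
    have h3 := Finset.card_image_le (s := (Finset.univ : Finset (ZMod p)).filter (fun z => z ≠ 0))
      (f := fun x => (x, (0 : ZMod p)))
    have h4 := Finset.card_image_le (s := (Finset.univ : Finset (ZMod p)).filter (fun z => z ≠ 0))
      (f := fun z => (-(y.2.2 * z) / (2 * y.2.1), z))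
    rw [hU] at h3 h4
    omega
  · set R : Finset (ZMod p) := Finset.univ.filter
      (fun t => y.1 * t ^ 2 + 2 * y.2.1 * t + y.2.2 = 0) with hR
    have hR2 : R.card ≤ 2 := by
      by_contra hcon
      rw [not_le, Finset.two_lt_card] at hcon
      obtain ⟨a, ha, b, hb, c, hc, hab, hac, hbc⟩ := hcon
      simp only [hR, Finset.mem_filter, Finset.mem_univ, true_and] at ha hb hc
      have e1 : (a - b) * (y.1 * (a + b) + 2 * y.2.1) = 0 := by linear_combination ha - hb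
      have e2 : (a - c) * (y.1 * (a + c) + 2 * y.2.1) = 0 := by linear_combination ha - hc
      have e3 := (mul_eq_zero.1 e1).resolve_left (sub_ne_zero.2 hab)
      have e4 := (mul_eq_zero.1 e2).resolve_left (sub_ne_zero.2 hac)
      have e5 : y.1 * (b - c) = 0 := by linear_combination e3 - e4
      exact (mul_ne_zero hd (sub_ne_zero.2 hbc)) e5
    have hsub : (Finset.univ : Finset (ZMod p × ZMod p)).filter
        (fun v => v ≠ 0 ∧ qv y v.1 v.2 = 0) ⊆
        (R ×ˢ ((Finset.univ : Finset (ZMod p)).filter (fun z => z ≠ 0))).image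
          (fun w => (w.1 * w.2, w.2)) := by
      rintro ⟨x, z⟩ hv
      rw [Finset.mem_filter] at hv
      obtain ⟨-, hv1, hv2⟩ := hv
      have hv : (x = 0 → ¬ z = 0) ∧ y.1 * x ^ 2 + 2 * y.2.1 * (x * z) + y.2.2 * z ^ 2 = 0 :=
        ⟨fun hx hz => hv1 (by rw [hx, hz]; rfl), hv2⟩
      have hz : z ≠ 0 := by
        intro hz
        have h3 : y.1 * x ^ 2 = 0 := by
          have := hv.2
          rw [hz] at this
          linear_combination this
        have h4 : x ^ 2 = 0 := (mul_eq_zero.1 h3).resolve_left hd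
        exact hv.1 (pow_eq_zero_iff (two_ne_zero)|>.1 h4) hz
      rw [Finset.mem_image]
      refine ⟨(x / z, z), ?_, ?_⟩
      · rw [Finset.mem_product]
        refine ⟨?_, by simp [hz]⟩
        simp only [hR, Finset.mem_filter, Finset.mem_univ, true_and]
        have := hv.2
        field_simp
        linear_combination this
      · simp only
        rw [div_mul_cancel₀ _ hz]
    refine (Finset.card_le_card hsub).trans (Finset.card_image_le.trans ?_)
    rw [Finset.card_product, hU]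
    exact Nat.mul_le_mul_right _ hR2

/-- A form `y ∈ Orb p`, `p` odd, is nonzero, so it has at most `2 (p - 1)` nonzero zeros in
`(ZMod p)²`. Double counting with `zeros_card`: `(p² - 1) nz p ≤ 2 (p - 1) |Orb p|`. -/
theorem nz_le (p : ℕ) (hp : p.Prime) (hp2 : p ≠ 2) :
    (nz p : ℝ) * (p + 1) ≤ 2 * Nat.card (Orb p) := by
  classical
  have : Fact p.Prime := ⟨hp⟩
  set O : Finset (Rp p) := Finset.univ.filter (fun y => y ∈ Orb p) with hO
  set V : Finset (ZMod p × ZMod p) := Finset.univ.filter (fun v => v ≠ 0) with hV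
  have hOcard : Nat.card (Orb p) = O.card := by
    rw [Nat.card_eq_fintype_card, Fintype.card_subtype]
  have hVcard : V.card = p ^ 2 - 1 := by
    rw [hV, Finset.filter_ne', Finset.card_erase_of_mem (Finset.mem_univ _), Finset.card_univ,
      Fintype.card_prod, ZMod.card, sq]
  have hcv : ∀ v ∈ V, (O.filter (fun y => qv y v.1 v.2 = 0)).card = nz p := by
    intro v hv
    have hv' : v ≠ 0 := by simpa [hV] using hv
    have h1 := zeros_card p hp v (1, 0) hv' (by simp)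
    rw [nz, ← h1, Nat.card_eq_fintype_card, Fintype.card_subtype, hO, Finset.filter_filter]
  have hdc : ∑ v ∈ V, (O.filter (fun y => qv y v.1 v.2 = 0)).card =
      ∑ y ∈ O, (V.filter (fun v => qv y v.1 v.2 = 0)).card := by
    simp_rw [Finset.card_filter]
    exact Finset.sum_comm
  have h1 : (p ^ 2 - 1) * nz p ≤ O.card * (2 * (p - 1)) := by
    calc (p ^ 2 - 1) * nz p = ∑ v ∈ V, (O.filter (fun y => qv y v.1 v.2 = 0)).card := by
          rw [Finset.sum_congr rfl hcv, Finset.sum_const, hVcard, smul_eq_mul]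
      _ = ∑ y ∈ O, (V.filter (fun v => qv y v.1 v.2 = 0)).card := hdc
      _ ≤ ∑ _y ∈ O, 2 * (p - 1) := by
          refine Finset.sum_le_sum fun y hy => ?_
          rw [hV, Finset.filter_filter]
          have hy' : y ∈ Orb p := by simpa [hO] using hy
          exact ResF_zeros p hp2 y (Orb_eq p hy')
      _ = O.card * (2 * (p - 1)) := by rw [Finset.sum_const, smul_eq_mul]
  have hp1 : 1 ≤ p := hp.one_lt.le
  have h2 : ((p : ℝ) ^ 2 - 1) * nz p ≤ O.card * (2 * ((p : ℝ) - 1)) := by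
    have h3 : (((p ^ 2 - 1) * nz p : ℕ) : ℝ) ≤ ((O.card * (2 * (p - 1)) : ℕ) : ℝ) := by
      exact_mod_cast h1
    rw [Nat.cast_mul, Nat.cast_mul, Nat.cast_mul, Nat.cast_sub hp1,
      Nat.cast_sub (Nat.one_le_pow _ _ (by omega))] at h3
    push_cast at h3
    exact h3
  rw [hOcard]
  have hp0 : (0 : ℝ) < (p : ℝ) - 1 := by
    have : (1 : ℝ) < p := by exact_mod_cast hp.one_lt
    linarith
  have h4 : ((p : ℝ) - 1) * ((nz p : ℝ) * (p + 1)) ≤ ((p : ℝ) - 1) * (2 * O.card) := by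
    nlinarith
  exact le_of_mul_le_mul_left h4 hp0

end

end Pool.Agent.Lib.MP_0b748d_nt.HH
end

section

set_option autoImplicit false

/-!
# Residues of forms modulo primes
-/

namespace Pool.Agent.Lib.MP_0b748d_nt.HH

open Filter Topology

noncomputable section

/-- modulo `p` a matrix of determinant `p` has rank one -/
theorem ResG_rank_one (p : ℕ) [Fact p.Prime] (M : Mt) (hM : M.Dt p) :
    ∃ (v : ZMod p × ZMod p) (s t : ZMod p), v ≠ 0 ∧ (s = 1 ∨ t = 1) ∧
      (M.a : ZMod p) = s * v.1 ∧ (M.c : ZMod p) = s * v.2 ∧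
      (M.b : ZMod p) = t * v.1 ∧ (M.d : ZMod p) = t * v.2 := by
  have hp : p.Prime := Fact.out
  have hdet : (M.a : ZMod p) * M.d = M.b * M.c := by
    have h1 : ((M.a * M.d : ℕ) : ZMod p) = ((M.b * M.c + p : ℕ) : ZMod p) := by
      rw [show M.a * M.d = M.b * M.c + p from hM]
    push_cast at h1
    rw [ZMod.natCast_self, add_zero] at h1
    exact h1
  by_cases h1 : ((M.a : ZMod p), (M.c : ZMod p)) = 0
  · rw [Prod.mk_eq_zero] at h1
    by_cases h2 : ((M.b : ZMod p), (M.d : ZMod p)) = 0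
    · exfalso
      rw [Prod.mk_eq_zero] at h2
      have ha := (ZMod.natCast_eq_zero_iff M.a p).1 h1.1
      have hc := (ZMod.natCast_eq_zero_iff M.c p).1 h1.2
      have hb := (ZMod.natCast_eq_zero_iff M.b p).1 h2.1
      have hd := (ZMod.natCast_eq_zero_iff M.d p).1 h2.2
      have h3 : p * p ∣ M.a * M.d := mul_dvd_mul ha hd
      have h4 : p * p ∣ M.b * M.c := mul_dvd_mul hb hc
      rw [show M.a * M.d = M.b * M.c + p from hM] at h3
      have h5 : p * p ∣ p := (Nat.dvd_add_right h4).1 h3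
      have h6 := Nat.le_of_dvd hp.pos h5
      have h7 := hp.two_le
      nlinarith
    · refine ⟨((M.b : ZMod p), (M.d : ZMod p)), 0, 1, h2, Or.inr rfl, ?_, ?_, ?_, ?_⟩
      · simp [h1.1]
      · simp [h1.2]
      · simp
      · simp
  · by_cases ha : (M.a : ZMod p) = 0
    · have hc : (M.c : ZMod p) ≠ 0 := fun hc => h1 (by rw [ha, hc]; rfl)
      refine ⟨((M.a : ZMod p), (M.c : ZMod p)), 1, M.d / M.c, h1, Or.inl rfl, ?_, ?_, ?_, ?_⟩
      · simp
      · simp
      · simp only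
        rw [div_mul_eq_mul_div, eq_div_iff hc, ← hdet, mul_comm]
      · simp only
        rw [div_mul_cancel₀ _ hc]
    · refine ⟨((M.a : ZMod p), (M.c : ZMod p)), 1, M.b / M.a, h1, Or.inl rfl, ?_, ?_, ?_, ?_⟩
      · simp
      · simp
      · simp only
        rw [div_mul_cancel₀ _ ha]
      · simp only
        rw [div_mul_eq_mul_div, eq_div_iff ha, ← hdet, mul_comm]

theorem ResG_zr_iff {p : ℕ} [Fact p.Prime] (y : Rp p) (M : Mt) (v : ZMod p × ZMod p)
    (s t : ZMod p) (hst : s = 1 ∨ t = 1)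
    (ha : (M.a : ZMod p) = s * v.1) (hc : (M.c : ZMod p) = s * v.2)
    (hb : (M.b : ZMod p) = t * v.1) (hd : (M.d : ZMod p) = t * v.2) :
    zr y M ↔ qv y v.1 v.2 = 0 := by
  unfold zr
  rw [ha, hb, hc, hd]
  have e1 : qv y (s * v.1) (s * v.2) = s ^ 2 * qv y v.1 v.2 := by unfold qv; ring
  have e2 : qv y (t * v.1) (t * v.2) = t ^ 2 * qv y v.1 v.2 := by unfold qv; ring
  have e3 : y.1 * (s * v.1 * (t * v.1)) + y.2.1 * (s * v.1 * (t * v.2) + t * v.1 * (s * v.2)) +
      y.2.2 * (s * v.2 * (t * v.2)) = s * t * qv y v.1 v.2 := by unfold qv; ring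
  rw [e1, e2, e3]
  constructor
  · rintro ⟨h1, -, h3⟩
    rcases hst with h | h
    · rw [h] at h1; simpa using h1
    · rw [h] at h3; simpa using h3
  · intro h
    rw [h]
    simp

/-- Modulo `p` a matrix `M` with `M.Dt p` has rank one: it is nonzero (its determinant `p` is not
divisible by `p²`) and its determinant vanishes; its columns are `s v`, `t v` with `v ≠ 0`,
`(s, t) ≠ 0`, and `zr y M ↔ qv y v.1 v.2 = 0`. Then `zeros_card`. -/
theorem zr_card (p : ℕ) (hp : p.Prime) (hp2 : p ≠ 2) (M : Mt) (hM : M.Dt p) :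
    Nat.card {y : Rp p // y ∈ Orb p ∧ zr y M} = nz p := by
  have : Fact p.Prime := ⟨hp⟩
  obtain ⟨v, s, t, hv, hst, ha, hc, hb, hd⟩ := ResG_rank_one p M hM
  have e : {y : Rp p // y ∈ Orb p ∧ zr y M} = {y : Rp p // y ∈ Orb p ∧ qv y v.1 v.2 = 0} := by
    congr 1
    funext y
    rw [ResG_zr_iff y M v s t hst ha hc hb hd]
  rw [e, nz, zeros_card p hp v (1, 0) hv (by simp)]

end

end Pool.Agent.Lib.MP_0b748d_nt.HH
end

section

set_option autoImplicit false

/-!
# Residues of forms modulo primes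
-/

namespace Pool.Agent.Lib.MP_0b748d_nt.HH

open Filter Topology

noncomputable section

/-- a nonzero binary form has at most two zeros up to scalars -/
private theorem ResH_three (p : ℕ) [Fact p.Prime] (hp2 : p ≠ 2) (y : Rp p)
    (hy : y.2.1 ^ 2 = y.1 * y.2.2 + 2) (u v w : ZMod p × ZMod p)
    (hu : qv y u.1 u.2 = 0) (hv : qv y v.1 v.2 = 0) (hw : qv y w.1 w.2 = 0)
    (huv : u.1 * v.2 - u.2 * v.1 ≠ 0) :
    u.1 * w.2 - u.2 * w.1 = 0 ∨ v.1 * w.2 - v.2 * w.1 = 0 := by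
  have h2 := ResF_two_ne p Fact.out hp2
  unfold qv at hu hv hw
  by_contra hcon
  push Not at hcon
  set B : ZMod p := y.1 * (u.1 * v.1) + y.2.1 * (u.1 * v.2 + u.2 * v.1) + y.2.2 * (u.2 * v.2)
    with hB
  have e1 : 2 * ((u.1 * w.2 - u.2 * w.1) * (v.1 * w.2 - v.2 * w.1)) * B = 0 := by
    rw [hB]
    linear_combination (-(u.1 * v.2 - u.2 * v.1) ^ 2) * hw +
      (v.1 * w.2 - v.2 * w.1) ^ 2 * hu + (u.1 * w.2 - u.2 * w.1) ^ 2 * hv
  have e2 : B = 0 := (mul_eq_zero.1 e1).resolve_left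
    (mul_ne_zero h2 (mul_ne_zero hcon.1 hcon.2))
  have e3 : (u.1 * v.2 - u.2 * v.1) ^ 2 * 2 = 0 := by
    have e4 : B ^ 2 = 0 := by rw [e2]; ring
    rw [hB] at e4
    linear_combination (-(u.1 * v.2 - u.2 * v.1) ^ 2) * hy + e4 -
      (y.1 * v.1 ^ 2 + 2 * y.2.1 * (v.1 * v.2) + y.2.2 * v.2 ^ 2) * hu
  exact (mul_ne_zero (pow_ne_zero 2 huv) h2) e3

/-- the quotient of two matrices -/
private def gq (p : ℕ) (M1 M : Mt) : ℤ × ℤ × ℤ × ℤ :=
  (((M1.d : ℤ) * M.a - M1.b * M.c) / p, ((M1.d : ℤ) * M.b - M1.b * M.d) / p,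
    ((M1.a : ℤ) * M.c - M1.c * M.a) / p, ((M1.a : ℤ) * M.d - M1.c * M.b) / p)

private theorem ResH_bound {p b : ℕ} {C : ℝ} (hp : p.Prime) (hb : (b : ℝ) ^ 2 ≤ C * p)
    {x1 x2 x3 x4 : ℕ} (h1 : x1 ≤ b) (h2 : x2 ≤ b) (h3 : x3 ≤ b) (h4 : x4 ≤ b)
    (hd : (p : ℤ) ∣ (x1 : ℤ) * x2 - x3 * x4) :
    ((x1 : ℤ) * x2 - x3 * x4) / p ∈ Finset.Icc (-⌊C⌋) ⌊C⌋ := by
  obtain ⟨k, hk⟩ := hd
  have hp0 : (0 : ℝ) < p := by exact_mod_cast hp.pos
  have hp0' : (p : ℤ) ≠ 0 := by exact_mod_cast hp.ne_zero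
  rw [hk, Int.mul_ediv_cancel_left _ hp0']
  have h5 : (x1 : ℝ) * x2 ≤ (b : ℝ) ^ 2 := by
    have h1' : (x1 : ℝ) ≤ b := by exact_mod_cast h1
    have h2' : (x2 : ℝ) ≤ b := by exact_mod_cast h2
    nlinarith [Nat.cast_nonneg (α := ℝ) x1, Nat.cast_nonneg (α := ℝ) x2,
      Nat.cast_nonneg (α := ℝ) b]
  have h6 : (x3 : ℝ) * x4 ≤ (b : ℝ) ^ 2 := by
    have h1' : (x3 : ℝ) ≤ b := by exact_mod_cast h3
    have h2' : (x4 : ℝ) ≤ b := by exact_mod_cast h4
    nlinarith [Nat.cast_nonneg (α := ℝ) x3, Nat.cast_nonneg (α := ℝ) x4,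
      Nat.cast_nonneg (α := ℝ) b]
  have h7 : (0 : ℝ) ≤ (x1 : ℝ) * x2 := by positivity
  have h8 : (0 : ℝ) ≤ (x3 : ℝ) * x4 := by positivity
  have hk' : (x1 : ℝ) * x2 - x3 * x4 = p * k := by exact_mod_cast hk
  have h9 : (p : ℝ) * k ≤ C * p := by linarith
  have h10 : -(C * p) ≤ (p : ℝ) * k := by linarith
  have h11 : (k : ℝ) ≤ C := by
    by_contra h; rw [not_le] at h; nlinarith
  have h12 : -C ≤ (k : ℝ) := by
    by_contra h; rw [not_le] at h; nlinarith
  rw [Finset.mem_Icc]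
  constructor
  · rw [neg_le, Int.le_floor]
    push_cast
    linarith
  · rwa [Int.le_floor]

open Classical in
private theorem ResH_line {C : ℝ} {p b : ℕ} [Fact p.Prime] (hb : (b : ℝ) ^ 2 ≤ C * p)
    (F : Finset Mt) (M1 : Mt) (h1 : M1 ∈ Bx b) (hM1 : M1.Dt p)
    (hF : ∀ M ∈ F, M ∈ Bx b ∧ M.Dt p ∧ (p : ℤ) ∣ (M1.d : ℤ) * M.a - M1.b * M.c ∧
      (p : ℤ) ∣ (M1.d : ℤ) * M.b - M1.b * M.d ∧ (p : ℤ) ∣ (M1.a : ℤ) * M.c - M1.c * M.a ∧
      (p : ℤ) ∣ (M1.a : ℤ) * M.d - M1.c * M.b) :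
    F.card ≤ (Finset.Icc (-⌊C⌋) ⌊C⌋).card ^ 4 := by
  have hp : p.Prime := Fact.out
  have hp0 : (p : ℤ) ≠ 0 := by exact_mod_cast hp.ne_zero
  have hBx : ∀ M : Mt, M ∈ Bx b → M.a ≤ b ∧ M.b ≤ b ∧ M.c ≤ b ∧ M.d ≤ b := by
    intro M hM
    unfold Bx at hM
    rw [Finset.mem_image] at hM
    obtain ⟨q, hq, rfl⟩ := hM
    simp only [Finset.mem_product, Finset.mem_range] at hq
    exact ⟨by simp only; omega, by simp only; omega, by simp only; omega, by simp only; omega⟩
  obtain ⟨b1, b2, b3, b4⟩ := hBx M1 h1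
  set I : Finset ℤ := Finset.Icc (-⌊C⌋) ⌊C⌋ with hI
  have hcard : F.card ≤ (I ×ˢ (I ×ˢ (I ×ˢ I))).card := by
    refine Finset.card_le_card_of_injOn (gq p M1) ?_ ?_
    · intro M hM
      obtain ⟨hB, hD, d1, d2, d3, d4⟩ := hF M hM
      obtain ⟨c1, c2, c3, c4⟩ := hBx M hB
      simp only [Finset.coe_product, Set.mem_prod, Finset.mem_coe, gq]
      exact ⟨ResH_bound hp hb b4 c1 b2 c3 d1, ResH_bound hp hb b4 c2 b2 c4 d2,
        ResH_bound hp hb b1 c3 b3 c1 d3, ResH_bound hp hb b1 c4 b3 c2 d4⟩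
    · intro M hM M' hM' h
      obtain ⟨-, -, ⟨k1, d1⟩, ⟨k2, d2⟩, ⟨k3, d3⟩, ⟨k4, d4⟩⟩ := hF M hM
      obtain ⟨-, -, ⟨k1', d1'⟩, ⟨k2', d2'⟩, ⟨k3', d3'⟩, ⟨k4', d4'⟩⟩ := hF M' hM'
      simp only [gq, Prod.mk.injEq] at h
      rw [d1, d2, d3, d4, d1', d2', d3', d4', Int.mul_ediv_cancel_left _ hp0,
        Int.mul_ediv_cancel_left _ hp0, Int.mul_ediv_cancel_left _ hp0,
        Int.mul_ediv_cancel_left _ hp0, Int.mul_ediv_cancel_left _ hp0,
        Int.mul_ediv_cancel_left _ hp0, Int.mul_ediv_cancel_left _ hp0,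
        Int.mul_ediv_cancel_left _ hp0] at h
      obtain ⟨g1, g2, g3, g4⟩ := h
      have hdet : (M1.a : ℤ) * M1.d = M1.b * M1.c + p := by
        exact_mod_cast (show M1.a * M1.d = M1.b * M1.c + p from hM1)
      rw [g1] at d1
      rw [g2] at d2
      rw [g3] at d3
      rw [g4] at d4
      have ea : (p : ℤ) * ((M.a : ℤ) - M'.a) = 0 := by
        linear_combination (M1.a : ℤ) * (d1 - d1') + (M1.b : ℤ) * (d3 - d3') -
          ((M.a : ℤ) - M'.a) * hdet
      have ec : (p : ℤ) * ((M.c : ℤ) - M'.c) = 0 := by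
        linear_combination (M1.c : ℤ) * (d1 - d1') + (M1.d : ℤ) * (d3 - d3') -
          ((M.c : ℤ) - M'.c) * hdet
      have eb : (p : ℤ) * ((M.b : ℤ) - M'.b) = 0 := by
        linear_combination (M1.a : ℤ) * (d2 - d2') + (M1.b : ℤ) * (d4 - d4') -
          ((M.b : ℤ) - M'.b) * hdet
      have ed : (p : ℤ) * ((M.d : ℤ) - M'.d) = 0 := by
        linear_combination (M1.c : ℤ) * (d2 - d2') + (M1.d : ℤ) * (d4 - d4') -
          ((M.d : ℤ) - M'.d) * hdet
      have fa := sub_eq_zero.1 ((mul_eq_zero.1 ea).resolve_left hp0)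
      have fb := sub_eq_zero.1 ((mul_eq_zero.1 eb).resolve_left hp0)
      have fc := sub_eq_zero.1 ((mul_eq_zero.1 ec).resolve_left hp0)
      have fd := sub_eq_zero.1 ((mul_eq_zero.1 ed).resolve_left hp0)
      exact Mt.ext (by exact_mod_cast fa) (by exact_mod_cast fb) (by exact_mod_cast fc)
        (by exact_mod_cast fd)
  refine hcard.trans (le_of_eq ?_)
  rw [Finset.card_product, Finset.card_product, Finset.card_product]
  ring

open Classical in
/-- Bases. Let `y ∈ Orb p`. The columns modulo `p` of a matrix `M` with `M.Dt p`, `zr y M` span a line on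
which `y` vanishes, one of at most two lines. If `M`, `M'` belong to the same line then
`γ = (adjugate M) M' / p` is an integral matrix with `M' = M γ` and entries at most `2 b² / p ≤ 2 C` in
absolute value; so each line has at most `(4 C + 1) ^ 4` matrices. -/
theorem bases_card (C : ℝ) (hC : 1 ≤ C) : ∃ K : ℝ, 1 ≤ K ∧ ∀ p b : ℕ, p.Prime → p ≠ 2 →
    (b : ℝ) ^ 2 ≤ C * p → ∀ y ∈ Orb p, (((Bx b).filter (fun M => M.Dt p ∧ zr y M)).card : ℝ) ≤ K := by
  set K0 : ℕ := (Finset.Icc (-⌊C⌋) ⌊C⌋).card ^ 4 with hK0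
  refine ⟨2 * K0 + 1, by have : (0 : ℝ) ≤ K0 := Nat.cast_nonneg _; linarith, ?_⟩
  intro p b hp hp2 hb y hy
  have hpf : Fact p.Prime := ⟨hp⟩
  set F : Finset Mt := (Bx b).filter (fun M => M.Dt p ∧ zr y M) with hF
  have hFm : ∀ M, M ∈ F ↔ M ∈ Bx b ∧ M.Dt p ∧ zr y M := fun M => by rw [hF, Finset.mem_filter]
  have hch : ∀ M : Mt, ∃ v : ZMod p × ZMod p, M ∈ F → ∃ s t : ZMod p, v ≠ 0 ∧
      (s = 1 ∨ t = 1) ∧ (M.a : ZMod p) = s * v.1 ∧ (M.c : ZMod p) = s * v.2 ∧
      (M.b : ZMod p) = t * v.1 ∧ (M.d : ZMod p) = t * v.2 := by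
    intro M
    by_cases h : M ∈ F
    · obtain ⟨v, s, t, h1⟩ := ResG_rank_one p M ((hFm M).1 h).2.1
      exact ⟨v, fun _ => ⟨s, t, h1⟩⟩
    · exact ⟨0, fun h' => absurd h' h⟩
  choose v hv using hch
  have hq : ∀ M ∈ F, qv y (v M).1 (v M).2 = 0 := by
    intro M hM
    obtain ⟨s, t, -, hst, ha, hc, hb', hd⟩ := hv M hM
    exact (ResG_zr_iff y M (v M) s t hst ha hc hb' hd).1 ((hFm M).1 hM).2.2
  have hdvd : ∀ x : ℤ, ((x : ℤ) : ZMod p) = 0 → (p : ℤ) ∣ x := fun x h =>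
    (ZMod.intCast_zmod_eq_zero_iff_dvd x p).1 h
  have hline : ∀ M1 ∈ F, (F.filter (fun M => (v M1).1 * (v M).2 - (v M1).2 * (v M).1 = 0)).card ≤
      K0 := by
    intro M1 hM1
    have hM1' := (hFm M1).1 hM1
    refine ResH_line hb _ M1 hM1'.1 hM1'.2.1 ?_
    intro M hM
    rw [Finset.mem_filter] at hM
    obtain ⟨hMF, hD⟩ := hM
    have hM' := (hFm M).1 hMF
    obtain ⟨s, t, -, -, ha, hc, hb', hd⟩ := hv M hMF
    obtain ⟨s1, t1, -, -, ha1, hc1, hb1, hd1⟩ := hv M1 hM1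
    refine ⟨hM'.1, hM'.2.1, hdvd _ ?_, hdvd _ ?_, hdvd _ ?_, hdvd _ ?_⟩
    · push_cast
      rw [ha, hc, hb1, hd1]
      linear_combination (-(t1 * s)) * hD
    · push_cast
      rw [hb', hd, hb1, hd1]
      linear_combination (-(t1 * t)) * hD
    · push_cast
      rw [ha, hc, ha1, hc1]
      linear_combination (s1 * s) * hD
    · push_cast
      rw [hb', hd, ha1, hc1]
      linear_combination (s1 * t) * hD
  have hmain : F.card ≤ 2 * K0 := by
    rcases F.eq_empty_or_nonempty with h0 | ⟨M1, hM1⟩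
    · rw [h0]; simp
    · by_cases hall : ∀ M ∈ F, (v M1).1 * (v M).2 - (v M1).2 * (v M).1 = 0
      · have h1 := hline M1 hM1
        rw [Finset.filter_true_of_mem hall] at h1
        omega
      · push Not at hall
        obtain ⟨M2, hM2, h12⟩ := hall
        have hsub : F ⊆ F.filter (fun M => (v M1).1 * (v M).2 - (v M1).2 * (v M).1 = 0) ∪
            F.filter (fun M => (v M2).1 * (v M).2 - (v M2).2 * (v M).1 = 0) := by
          intro M hM
          rw [Finset.mem_union]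
          rcases ResH_three p hp2 y (Orb_eq p hy) (v M1) (v M2) (v M) (hq M1 hM1) (hq M2 hM2)
            (hq M hM) h12 with h | h
          · exact Or.inl (Finset.mem_filter.2 ⟨hM, h⟩)
          · exact Or.inr (Finset.mem_filter.2 ⟨hM, h⟩)
        have h1 := (Finset.card_le_card hsub).trans (Finset.card_union_le _ _)
        have h2 := hline M1 hM1
        have h3 := hline M2 hM2
        omega
  have : (F.card : ℝ) ≤ 2 * K0 := by exact_mod_cast hmain
  linarith

end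

end Pool.Agent.Lib.MP_0b748d_nt.HH
end
end

section

set_option autoImplicit false

/-!
# Assembly: the averages over forms vanish in the limit
-/

namespace Pool.Agent.Lib.MP_0b748d_nt.HH

open Filter Topology

noncomputable section

/-- density of forms vanishing on a line modulo `p` -/
def qp (p : ℕ) : ℝ := (nz p : ℝ) / Nat.card (Orb p)

/-- `nz_le` -/
theorem qp_le {p : ℕ} (hp : p.Prime) (hp2 : p ≠ 2) : 0 ≤ qp p ∧ qp p ≤ 2 / p := by
  have h0 : 0 ≤ qp p := div_nonneg (Nat.cast_nonneg _) (Nat.cast_nonneg _)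
  refine ⟨h0, ?_⟩
  have hp0 : (0 : ℝ) < p := by exact_mod_cast hp.pos
  unfold qp
  rcases Nat.eq_zero_or_pos (Nat.card (Orb p)) with h | h
  · rw [h, Nat.cast_zero, div_zero]
    positivity
  · have h1 : (0 : ℝ) < Nat.card (Orb p) := by exact_mod_cast h
    have h2 := nz_le p hp hp2
    have h3 : (0 : ℝ) ≤ nz p := Nat.cast_nonneg _
    rw [div_le_div_iff₀ h1 hp0]
    nlinarith

open Classical in
/-- Double counting: `∑_{y ∈ Orb p} #{M : zr y M} = #{M} nz p` (`zr_card`) and `bases_card`. -/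
theorem qp_card (C : ℝ) (hC : 1 ≤ C) : ∃ K : ℝ, 1 ≤ K ∧ ∀ p b : ℕ, p.Prime → p ≠ 2 →
    (b : ℝ) ^ 2 ≤ C * p → qp p * ((Bx b).filter (fun M => M.Dt p)).card ≤ K := by
  obtain ⟨K, hK1, hK⟩ := bases_card C hC
  refine ⟨K, hK1, fun p b hp hp2 hb => ?_⟩
  have : NeZero p := ⟨hp.ne_zero⟩
  obtain ⟨O, hO⟩ : ∃ O : Finset (Rp p), O = Finset.univ.filter (fun y => y ∈ Orb p) := ⟨_, rfl⟩
  have hOmem : ∀ y, y ∈ O ↔ y ∈ Orb p := fun y => by
    rw [hO, Finset.mem_filter]
    simp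
  have hOcard : Nat.card (Orb p) = O.card := by
    have h1 : Orb p = (O : Set (Rp p)) := by
      ext y
      rw [Finset.mem_coe, hOmem]
    rw [Nat.card_coe_set_eq, h1, Set.ncard_coe_finset]
  have hzcard : ∀ M : Mt, M.Dt p → (O.filter (fun y => zr y M)).card = nz p := by
    intro M hM
    rw [← zr_card p hp hp2 M hM]
    have h1 : {y : Rp p | y ∈ Orb p ∧ zr y M} = ((O.filter (fun y => zr y M) : Finset (Rp p)) :
        Set (Rp p)) := by
      ext y
      rw [Finset.mem_coe, Finset.mem_filter, hOmem]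
      rfl
    have h2 : Nat.card {y : Rp p // y ∈ Orb p ∧ zr y M} = ({y : Rp p | y ∈ Orb p ∧ zr y M}).ncard :=
      Nat.card_coe_set_eq _
    rw [h2, h1, Set.ncard_coe_finset]
  obtain ⟨S, hS⟩ : ∃ S : Finset Mt, S = (Bx b).filter (fun M => M.Dt p) := ⟨_, rfl⟩
  have hdc : ∑ y ∈ O, (S.filter (fun M => zr y M)).card =
      ∑ M ∈ S, (O.filter (fun y => zr y M)).card :=
    Finset.sum_card_bipartiteAbove_eq_sum_card_bipartiteBelow (fun y M => zr y M)
  have h1 : ∑ M ∈ S, (O.filter (fun y => zr y M)).card = S.card * nz p := by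
    rw [Finset.sum_congr rfl (fun M hM => hzcard M (by
      rw [hS] at hM
      exact (Finset.mem_filter.1 hM).2)), Finset.sum_const, smul_eq_mul]
  have h2 : ((∑ y ∈ O, (S.filter (fun M => zr y M)).card : ℕ) : ℝ) ≤ O.card * K := by
    push_cast
    rw [← nsmul_eq_mul, ← Finset.sum_const]
    apply Finset.sum_le_sum
    intro y hy
    have h3 := hK p b hp hp2 hb y ((hOmem y).1 hy)
    rw [hS, Finset.filter_filter]
    exact h3
  rw [hdc, h1] at h2
  push_cast at h2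
  rw [← hS]
  unfold qp
  rw [hOcard]
  rcases Nat.eq_zero_or_pos O.card with h | h
  · rw [h, Nat.cast_zero, div_zero, zero_mul]
    linarith
  · have h4 : (0 : ℝ) < O.card := by exact_mod_cast h
    rw [div_mul_eq_mul_div, div_le_iff₀ h4]
    linarith

end

end Pool.Agent.Lib.MP_0b748d_nt.HH
end
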