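import Mathlib
import Pool.Agent.Lib.MP_0b748d_nt.HH.CntE
import Pool.Agent.Lib.MP_0b748d_nt.HH.CmodC
import Pool.Agent.Lib.MP_0b748d_nt.HH.TreeB

section

section

set_option autoImplicit false

/-!
# Slopes law: classes of forms are uniformly distributed
-/

namespace Pool.Agent.Lib.MP_0b748d_nt.HH

open Filter Topology

noncomputable section

/-- a class function compatible with the tree -/
structure Cc {α : Type*} (l r : Equiv.Perm α) (c : Fm → α) : Prop where
  hl : ∀ Q : Fm, Q.Ok → c Q.lc = l (c Q)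
  hr : ∀ Q : Fm, Q.Ok → c Q.rc = r (c Q)

open Classical in
/-- the forms in a triangle -/
def Tr (a b X : ℝ) : Finset Fm :=
  (Qs (max a b ^ 2 * X)).filter (fun Q => √(Q.d : ℝ) / a + √(Q.e : ℝ) / b ≤ √X)

private theorem triA_tt_pos (n i : ℕ) : 0 < tt n i := by
  unfold tt
  positivity

private theorem triA_bd {a b X : ℝ} (ha : 0 < a) (hb : 0 < b) (hX : 0 ≤ X) {Q : Fm}
    (h : √(Q.d : ℝ) / a + √(Q.e : ℝ) / b ≤ √X) :
    (Q.d : ℝ) ≤ a ^ 2 * X ∧ (Q.e : ℝ) ≤ b ^ 2 * X := by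
  have h1 : 0 ≤ √(Q.d : ℝ) / a := by positivity
  have h2 : 0 ≤ √(Q.e : ℝ) / b := by positivity
  have h3 : √(Q.d : ℝ) / a ≤ √X := by linarith
  have h4 : √(Q.e : ℝ) / b ≤ √X := by linarith
  rw [div_le_iff₀ ha] at h3
  rw [div_le_iff₀ hb] at h4
  have h5 := Real.sq_sqrt hX
  have h6 := Real.sq_sqrt (Nat.cast_nonneg (α := ℝ) Q.d)
  have h7 := Real.sq_sqrt (Nat.cast_nonneg (α := ℝ) Q.e)
  constructor
  · have h8 := pow_le_pow_left₀ (Real.sqrt_nonneg _) h3 2
    rw [h6, mul_pow, h5] at h8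
    linarith
  · have h8 := pow_le_pow_left₀ (Real.sqrt_nonneg _) h4 2
    rw [h7, mul_pow, h5] at h8
    linarith

theorem mem_Tr {a b X : ℝ} (ha : 0 < a) (hb : 0 < b) (hX : 0 ≤ X) {Q : Fm} :
    Q ∈ Tr a b X ↔ Q.Ok ∧ √(Q.d : ℝ) / a + √(Q.e : ℝ) / b ≤ √X := by
  unfold Tr
  rw [Finset.mem_filter, mem_Qs (by positivity)]
  constructor
  · rintro ⟨⟨h1, _, _⟩, h2⟩
    exact ⟨h1, h2⟩
  · rintro ⟨h1, h2⟩
    obtain ⟨h3, h4⟩ := triA_bd ha hb hX h2
    have h5 : a ^ 2 ≤ max a b ^ 2 := pow_le_pow_left₀ ha.le (le_max_left _ _) 2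
    have h6 : b ^ 2 ≤ max a b ^ 2 := pow_le_pow_left₀ hb.le (le_max_right _ _) 2
    exact ⟨⟨h1, h3.trans (mul_le_mul_of_nonneg_right h5 hX),
      h4.trans (mul_le_mul_of_nonneg_right h6 hX)⟩, h2⟩

open Classical in
/-- number of forms of class `x` in the triangle -/
def nx {α : Type*} (c : Fm → α) (x : α) (a b X : ℝ) : ℝ :=
  (((Tr a b X).filter (fun Q => c Q = x)).card : ℝ)

/-- the average over scales of `nx`, at the `n`-th system -/
def tan' {α : Type*} (c : Fm → α) (x : α) (a b : ℝ) (n : ℕ) : ℝ :=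
  (1 / (n : ℝ) ^ 2) * ∑ i ∈ Finset.range (n ^ 2), (1 / tt n i) * nx c x a b (tt n i)

/-- the limit density of the triangle -/
def ta {α : Type*} (U : Ultrafilter ℕ) (c : Fm → α) (x : α) (a b : ℝ) : ℝ :=
  ul U (fun n => tan' c x a b n)

/-- `Qs_ab` -/
theorem nx_le {α : Type*} (c : Fm → α) : ∃ C : ℝ, 1 ≤ C ∧ ∀ (x : α) (a b X : ℝ), 0 < a → 0 < b →
    0 ≤ X → nx c x a b X ≤ C * (a * b * X) := by
  classical
  obtain ⟨C, hC, h⟩ := Qs_ab
  refine ⟨C, hC, fun x a b X ha hb hX => le_trans ?_ (h a b X ha hb hX)⟩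
  unfold nx
  rw [Nat.cast_le]
  apply Finset.card_le_card
  intro Q hQ
  rw [Finset.mem_filter] at hQ
  obtain ⟨hQ, _⟩ := hQ
  unfold Tr at hQ
  rw [Finset.mem_filter] at hQ
  rw [Finset.mem_filter]
  exact ⟨hQ.1, triA_bd ha hb hX hQ.2⟩

theorem nx_nonneg {α : Type*} (c : Fm → α) (x : α) (a b X : ℝ) : 0 ≤ nx c x a b X := by
  exact Nat.cast_nonneg _

theorem nx_mono {α : Type*} (c : Fm → α) (x : α) {a b X a' b' X' : ℝ} (ha : 0 < a) (hb : 0 < b)
    (hX : 0 ≤ X) (haa : a ≤ a') (hbb : b ≤ b') (hXX : X ≤ X') :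
    nx c x a b X ≤ nx c x a' b' X' := by
  classical
  unfold nx
  rw [Nat.cast_le]
  apply Finset.card_le_card
  intro Q hQ
  rw [Finset.mem_filter, mem_Tr ha hb hX] at hQ
  rw [Finset.mem_filter, mem_Tr (ha.trans_le haa) (hb.trans_le hbb) (hX.trans hXX)]
  obtain ⟨⟨h1, h2⟩, h3⟩ := hQ
  refine ⟨⟨h1, ?_⟩, h3⟩
  have h4 : √(Q.d : ℝ) / a' ≤ √(Q.d : ℝ) / a :=
    div_le_div_of_nonneg_left (Real.sqrt_nonneg _) ha haa
  have h5 : √(Q.e : ℝ) / b' ≤ √(Q.e : ℝ) / b :=
    div_le_div_of_nonneg_left (Real.sqrt_nonneg _) hb hbb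
  have h6 : √X ≤ √X' := Real.sqrt_le_sqrt hXX
  linarith

theorem nx_scale {α : Type*} (c : Fm → α) (x : α) {a b X t : ℝ} (ha : 0 < a) (hb : 0 < b)
    (hX : 0 ≤ X) (ht : 0 < t) : nx c x (t * a) (t * b) X = nx c x a b (t ^ 2 * X) := by
  classical
  unfold nx
  congr 2
  ext Q
  rw [Finset.mem_filter, Finset.mem_filter, mem_Tr (by positivity) (by positivity) hX,
    mem_Tr ha hb (by positivity)]
  have h1 : √(t ^ 2 * X) = t * √X := by
    rw [Real.sqrt_mul (by positivity), Real.sqrt_sq ht.le]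
  have h2 : √(Q.d : ℝ) / (t * a) + √(Q.e : ℝ) / (t * b) =
      (√(Q.d : ℝ) / a + √(Q.e : ℝ) / b) / t := by
    field_simp
  rw [h1, h2, div_le_iff₀ ht, mul_comm (√X) t]

private theorem triA_tan_bd {α : Type*} (c : Fm → α) : ∃ C : ℝ, 1 ≤ C ∧ ∀ (x : α) (a b : ℝ)
    (n : ℕ), 0 < a → 0 < b → 0 ≤ tan' c x a b n ∧ tan' c x a b n ≤ C * (a * b) := by
  obtain ⟨C, hC, h⟩ := nx_le c
  refine ⟨C, hC, fun x a b n ha hb => ⟨?_, ?_⟩⟩
  · unfold tan'
    refine mul_nonneg (by positivity) (Finset.sum_nonneg fun i _ => ?_)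
    exact mul_nonneg (by have := triA_tt_pos n i; positivity) (nx_nonneg _ _ _ _ _)
  · unfold tan'
    have hC0 : 0 ≤ C := by linarith
    have h1 : ∑ i ∈ Finset.range (n ^ 2), (1 / tt n i) * nx c x a b (tt n i) ≤
        (n : ℝ) ^ 2 * (C * (a * b)) := by
      calc ∑ i ∈ Finset.range (n ^ 2), (1 / tt n i) * nx c x a b (tt n i)
          ≤ ∑ i ∈ Finset.range (n ^ 2), C * (a * b) := by
            refine Finset.sum_le_sum fun i _ => ?_
            have h2 := triA_tt_pos n i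
            have h3 := h x a b (tt n i) ha hb h2.le
            rw [one_div, inv_mul_le_iff₀ h2]
            linarith
        _ = (n : ℝ) ^ 2 * (C * (a * b)) := by
            rw [Finset.sum_const, Finset.card_range, nsmul_eq_mul, Nat.cast_pow]
    rcases Nat.eq_zero_or_pos n with rfl | hn
    · simp only [Nat.cast_zero, ne_eq, OfNat.ofNat_ne_zero, not_false_eq_true, zero_pow, div_zero,
        zero_mul]
      positivity
    · have hn' : (0 : ℝ) < (n : ℝ) ^ 2 := by positivity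
      rw [one_div, inv_mul_le_iff₀ hn']
      exact h1

theorem tan_Bs {α : Type*} (c : Fm → α) (x : α) {a b : ℝ} (ha : 0 < a) (hb : 0 < b) :
    Bs (tan' c x a b) := by
  obtain ⟨C, _, h⟩ := triA_tan_bd c
  refine ⟨C * (a * b), fun n => ?_⟩
  obtain ⟨h1, h2⟩ := h x a b n ha hb
  rw [abs_of_nonneg h1]
  exact h2

theorem ta_le {α : Type*} (U : Ultrafilter ℕ) (c : Fm → α) : ∃ C : ℝ, 1 ≤ C ∧ ∀ (x : α) (a b : ℝ),
    0 < a → 0 < b → 0 ≤ ta U c x a b ∧ ta U c x a b ≤ C * (a * b) := by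
  obtain ⟨C, hC, h⟩ := triA_tan_bd c
  refine ⟨C, hC, fun x a b ha hb => ⟨?_, ?_⟩⟩
  · have h1 := ul_mono (U := U) (Bs_const 0) (tan_Bs c x ha hb)
      (Filter.Eventually.of_forall fun n => (h x a b n ha hb).1)
    rwa [ul_const] at h1
  · have h1 := ul_mono (U := U) (tan_Bs c x ha hb) (Bs_const (C * (a * b)))
      (Filter.Eventually.of_forall fun n => (h x a b n ha hb).2)
    rwa [ul_const] at h1

theorem ta_mono {α : Type*} (U : Ultrafilter ℕ) (c : Fm → α) (x : α) {a b a' b' : ℝ} (ha : 0 < a)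
    (hb : 0 < b) (haa : a ≤ a') (hbb : b ≤ b') : ta U c x a b ≤ ta U c x a' b' := by
  refine ul_mono (tan_Bs c x ha hb) (tan_Bs c x (ha.trans_le haa) (hb.trans_le hbb))
    (Filter.Eventually.of_forall fun n => ?_)
  unfold tan'
  refine mul_le_mul_of_nonneg_left (Finset.sum_le_sum fun i _ => ?_) (by positivity)
  have h2 := triA_tt_pos n i
  exact mul_le_mul_of_nonneg_left (nx_mono c x ha hb h2.le haa hbb le_rfl) (by positivity)

end

end Pool.Agent.Lib.MP_0b748d_nt.HH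
end

section

set_option autoImplicit false

/-!
# A maximum principle on the Farey tree
-/

namespace Pool.Agent.Lib.MP_0b748d_nt.HH

noncomputable section

/-- the data of the maximum principle -/
structure Th {α : Type*} (l r : Equiv.Perm α) (θ : α → ℝ → ℝ) (C : ℝ) : Prop where
  nonneg : ∀ x s, 0 < s → 0 ≤ θ x s
  le : ∀ x s, 0 < s → θ x s ≤ C
  lip1 : ∀ x s t, 0 < s → s ≤ t → s / t * θ x s ≤ θ x t
  lip2 : ∀ x s t, 0 < s → s ≤ t → s / t * θ x t ≤ θ x s
  recu : ∀ x s, 0 < s →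
    θ x s = 1 / (1 + s) * θ (l⁻¹ x) (s / (1 + s)) + s / (1 + s) * θ (r⁻¹ x) (1 + s)

/-- the symmetry `s ↦ 1 / s`, exchanging `l` and `r` -/
theorem Th.symm {α : Type*} {l r : Equiv.Perm α} {θ : α → ℝ → ℝ} {C : ℝ} (h : Th l r θ C) :
    Th r l (fun x s => θ x (1 / s)) C := by
  refine ⟨fun x s hs => h.nonneg x _ (by positivity), fun x s hs => h.le x _ (by positivity),
    ?_, ?_, ?_⟩
  · intro x s t hs hst
    have ht : 0 < t := lt_of_lt_of_le hs hst
    have h1 := h.lip2 x (1 / t) (1 / s) (by positivity) (one_div_le_one_div_of_le hs hst)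
    have e : 1 / t / (1 / s) = s / t := by field_simp
    rwa [e] at h1
  · intro x s t hs hst
    have ht : 0 < t := lt_of_lt_of_le hs hst
    have h1 := h.lip1 x (1 / t) (1 / s) (by positivity) (one_div_le_one_div_of_le hs hst)
    have e : 1 / t / (1 / s) = s / t := by field_simp
    rwa [e] at h1
  · intro x s hs
    have h1 := h.recu x (1 / s) (by positivity)
    have hs1 : (1 : ℝ) + s ≠ 0 := by positivity
    have e1 : 1 / (1 + 1 / s) = s / (1 + s) := by field_simp; ring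
    have e2 : 1 / s / (1 + 1 / s) = 1 / (1 + s) := by field_simp; ring
    have e3 : 1 + 1 / s = 1 / (s / (1 + s)) := by field_simp; ring
    rw [e2, e1, e3] at h1
    show θ x (1 / s) = _
    rw [h1, add_comm]

/-- Induction on `J`, using `recu` at `(r⁻¹) ^ J x`, `s + J`. -/
theorem Th.series {α : Type*} {l r : Equiv.Perm α} {θ : α → ℝ → ℝ} {C : ℝ} (h : Th l r θ C)
    (x : α) (s : ℝ) (hs : 0 < s) (J : ℕ) :
    θ x s = ∑ j ∈ Finset.range J, s / ((s + j) * (s + j + 1)) *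
      θ (l⁻¹ ((r⁻¹ ^ j) x)) ((s + j) / (s + j + 1)) + s / (s + J) * θ ((r⁻¹ ^ J) x) (s + J) := by
  induction J with
  | zero => simp [hs.ne']
  | succ J ih =>
    have hJ : (0 : ℝ) ≤ J := Nat.cast_nonneg J
    have hsJ : 0 < s + J := by linarith
    have h1 := h.recu ((r⁻¹ ^ J) x) (s + J) hsJ
    have e1 : (r⁻¹) ((r⁻¹ ^ J) x) = (r⁻¹ ^ (J + 1)) x := by
      rw [pow_succ', Equiv.Perm.mul_apply]
    rw [e1] at h1
    have e2 : 1 + (s + (J : ℝ)) = s + J + 1 := by ring
    have e3 : s + ((J + 1 : ℕ) : ℝ) = s + J + 1 := by push_cast; ring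
    rw [e2] at h1
    rw [ih, Finset.sum_range_succ, h1, e3]
    have hs1 : s + (J : ℝ) + 1 ≠ 0 := by positivity
    have hs2 : s + (J : ℝ) ≠ 0 := hsJ.ne'
    field_simp
    ring

end

end Pool.Agent.Lib.MP_0b748d_nt.HH
end
end

section

set_option autoImplicit false

/-!
# Entropy of limit laws
-/

namespace Pool.Agent.Lib.MP_0b748d_nt.HH

open Filter Topology

noncomputable section

open Classical in
/-- limit law of a variable -/
def l1 {α : Type*} (U : Ultrafilter ℕ) (X : ℕ → ℕ → Fm → α) (a : α) : ℝ :=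
  Av U (fun n i Q => if X n i Q = a then (1 : ℝ) else 0)

open Classical in
/-- limit joint law -/
def l2 {α β : Type*} (U : Ultrafilter ℕ) (X : ℕ → ℕ → Fm → α) (Y : ℕ → ℕ → Fm → β) (a : α) (b : β) :
    ℝ := Av U (fun n i Q => if X n i Q = a ∧ Y n i Q = b then (1 : ℝ) else 0)

/-- the values of `X` on the cells lie in `A` -/
def Rg {α : Type*} (X : ℕ → ℕ → Fm → α) (A : Finset α) : Prop :=
  ∀ n i, ∀ Q ∈ Cl (tt n i), X n i Q ∈ A

/-- total mass of the cells -/
def mass (U : Ultrafilter ℕ) : ℝ := Av U (fun _ _ _ => (1 : ℝ))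

private lemma avEA_congr {U : Ultrafilter ℕ} {φ ψ : ℕ → ℕ → Fm → ℝ}
    (h : ∀ n i, ∀ Q ∈ Cl (tt n i), φ n i Q = ψ n i Q) : Av U φ = Av U ψ := by
  unfold Av AvN
  congr 1
  funext n
  congr 1
  apply Finset.sum_congr rfl
  intro i _
  congr 1
  exact Finset.sum_congr rfl (h n i)

private lemma avEA_nonneg {U : Ultrafilter ℕ} {φ : ℕ → ℕ → Fm → ℝ}
    (h : ∀ n i, ∀ Q ∈ Cl (tt n i), 0 ≤ φ n i Q) (h1 : ∀ n i, ∀ Q ∈ Cl (tt n i), |φ n i Q| ≤ 1) :
    0 ≤ Av U φ := by
  have h2 : Bs (fun n => AvN n (φ n)) := AvN_Bs (Bd_of_le h1)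
  have h3 := ul_mono (U := U) (Bs_const 0) h2 (Filter.Eventually.of_forall fun n => by
    unfold AvN
    apply mul_nonneg (by positivity)
    apply Finset.sum_nonneg
    intro i _
    apply mul_nonneg
    · unfold tt
      positivity
    · exact Finset.sum_nonneg (h n i))
  rw [ul_const] at h3
  exact h3

theorem l1_nonneg {α : Type*} (U : Ultrafilter ℕ) (X : ℕ → ℕ → Fm → α) (a : α) : 0 ≤ l1 U X a := by
  classical
  unfold l1
  apply avEA_nonneg
  · intro n i Q _
    split_ifs <;> norm_num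
  · intro n i Q _
    split_ifs <;> norm_num

theorem l2_nonneg {α β : Type*} (U : Ultrafilter ℕ) (X : ℕ → ℕ → Fm → α) (Y : ℕ → ℕ → Fm → β)
    (a : α) (b : β) : 0 ≤ l2 U X Y a b := by
  classical
  unfold l2
  apply avEA_nonneg
  · intro n i Q _
    split_ifs <;> norm_num
  · intro n i Q _
    split_ifs <;> norm_num

theorem l1_sum {α : Type*} (U : Ultrafilter ℕ) (X : ℕ → ℕ → Fm → α) (A : Finset α) (hA : Rg X A) :
    ∑ a ∈ A, l1 U X a = mass U := by
  classical
  unfold l1 mass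
  rw [← Av_sum]
  · apply avEA_congr
    intro n i Q hQ
    rw [Finset.sum_ite_eq, if_pos (hA n i Q hQ)]
  · intro a _
    apply Bd_of_le (C := 1)
    intro n i Q _
    split_ifs <;> norm_num

theorem l2_sum_left {α β : Type*} (U : Ultrafilter ℕ) (X : ℕ → ℕ → Fm → α) (Y : ℕ → ℕ → Fm → β)
    (A : Finset α) (hA : Rg X A) (b : β) : ∑ a ∈ A, l2 U X Y a b = l1 U Y b := by
  classical
  unfold l1 l2
  rw [← Av_sum]
  · apply avEA_congr
    intro n i Q hQ
    by_cases h : Y n i Q = b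
    · simp only [h, and_true, if_true]
      rw [Finset.sum_ite_eq, if_pos (hA n i Q hQ)]
    · simp only [h, and_false, if_false]
      exact Finset.sum_const_zero
  · intro a _
    apply Bd_of_le (C := 1)
    intro n i Q _
    split_ifs <;> norm_num

theorem l2_sum_right {α β : Type*} (U : Ultrafilter ℕ) (X : ℕ → ℕ → Fm → α) (Y : ℕ → ℕ → Fm → β)
    (B : Finset β) (hB : Rg Y B) (a : α) : ∑ b ∈ B, l2 U X Y a b = l1 U X a := by
  classical
  unfold l1 l2
  rw [← Av_sum]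
  · apply avEA_congr
    intro n i Q hQ
    by_cases h : X n i Q = a
    · simp only [h, true_and, if_true]
      rw [Finset.sum_ite_eq, if_pos (hB n i Q hQ)]
    · simp only [h, false_and, if_false]
      exact Finset.sum_const_zero
  · intro b _
    apply Bd_of_le (C := 1)
    intro n i Q _
    split_ifs <;> norm_num

end

end Pool.Agent.Lib.MP_0b748d_nt.HH
end

section

section

set_option autoImplicit false

/-!
# Entropy for finite weighted sets
-/

namespace Pool.Agent.Lib.MP_0b748d_nt.HH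

noncomputable section

/-- Hoeffding's lemma for the uniform measure on a finite set -/
private theorem entJ_hoeff {κ : Type*} (O : Finset κ) (g : κ → ℝ) (K t : ℝ) (hK : 0 ≤ K)
    (hg : ∀ y ∈ O, |g y| ≤ K) (hg0 : ∑ y ∈ O, g y = 0) :
    ∑ y ∈ O, Real.exp (t * g y) ≤ O.card * Real.exp (t ^ 2 * K ^ 2 / 2) := by
  rcases hK.eq_or_lt with rfl | hK
  · have h1 : ∀ y ∈ O, Real.exp (t * g y) = 1 := by
      intro y hy
      have h2 := abs_nonpos_iff.1 (hg y hy)
      rw [h2, mul_zero, Real.exp_zero]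
    rw [Finset.sum_congr rfl h1]
    simp
  have h1 : ∀ y ∈ O, Real.exp (t * g y) ≤ Real.cosh (t * K) + g y / K * Real.sinh (t * K) := by
    intro y hy
    have h2 := abs_le.1 (hg y hy)
    have ha : (0 : ℝ) ≤ (1 + g y / K) / 2 := by
      have : -1 ≤ g y / K := by rw [le_div_iff₀ hK]; linarith
      linarith
    have hb : (0 : ℝ) ≤ (1 - g y / K) / 2 := by
      have : g y / K ≤ 1 := by rw [div_le_iff₀ hK]; linarith
      linarith
    have hc := convexOn_exp.2 (Set.mem_univ (t * K)) (Set.mem_univ (-(t * K))) ha hb (by ring)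
    simp only [smul_eq_mul] at hc
    have e1 : (1 + g y / K) / 2 * (t * K) + (1 - g y / K) / 2 * -(t * K) = t * g y := by
      field_simp
      ring
    rw [e1] at hc
    refine hc.trans (le_of_eq ?_)
    rw [Real.cosh_eq, Real.sinh_eq]
    ring
  calc ∑ y ∈ O, Real.exp (t * g y)
      ≤ ∑ y ∈ O, (Real.cosh (t * K) + g y / K * Real.sinh (t * K)) := Finset.sum_le_sum h1
    _ = O.card * Real.cosh (t * K) := by
      rw [Finset.sum_add_distrib, ← Finset.sum_mul, ← Finset.sum_div, hg0]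
      simp
    _ ≤ O.card * Real.exp (t ^ 2 * K ^ 2 / 2) := by
      have h3 := Real.cosh_le_exp_half_sq (t * K)
      rw [mul_pow] at h3
      gcongr

/-- Donsker-Varadhan and Hoeffding. `m` has total mass `c > 0`, the marginal in `y` is uniform on the
product of the finite sets `O p`; `f p a` has mean zero on `O p` and is bounded by `K`. Let
`I = ∑ m log (m c / (m_A m_Y))`. Then `|∑ m(a, y) ∑_p f p a (y p)| ≤ K √(2 c I |S|)`. Proof. For
`t > 0`, by `log_sum` (or Jensen) `t ∑ m Φ ≤ I + c log (∑ (m_A m_Y / c²) exp (t Φ))`, where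
`Φ (a, y) = ∑_p f p a (y p)`; for fixed `a` the average over `y` factors,
`∏_p avg exp (t f p a) ≤ ∏_p exp (t² K² / 2)` (Hoeffding's lemma: mean zero, `|f| ≤ K`;
`Real.cosh_le_exp_half_sq` and convexity). So `∑ m Φ ≤ I / t + c t K² |S| / 2`; optimise `t`; the same
for `-f`. -/
theorem decouple {α ι : Type*} [Fintype ι] [DecidableEq ι] {κ : ι → Type*} (A : Finset α)
    (O : (p : ι) → Finset (κ p)) (hO : ∀ p, (O p).Nonempty) (m : α → ((p : ι) → κ p) → ℝ)
    (h0 : ∀ a ∈ A, ∀ y ∈ Fintype.piFinset O, 0 ≤ m a y) (u : ℝ) (hu : 0 < u)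
    (hY : ∀ y ∈ Fintype.piFinset O, ∑ a ∈ A, m a y = u)
    (f : (p : ι) → α → κ p → ℝ) (K : ℝ) (hK : 0 ≤ K) (hf : ∀ p, ∀ a ∈ A, ∀ y ∈ O p, |f p a y| ≤ K)
    (hf0 : ∀ p, ∀ a ∈ A, ∑ y ∈ O p, f p a y = 0) (I : ℝ)
    (hI : I = ∑ a ∈ A, ∑ y ∈ Fintype.piFinset O, m a y *
      Real.log (m a y * (u * (Fintype.piFinset O).card) / ((∑ y' ∈ Fintype.piFinset O, m a y') * u))) :
    |∑ a ∈ A, ∑ y ∈ Fintype.piFinset O, m a y * ∑ p, f p a (y p)| ≤
      K * √(2 * (u * (Fintype.piFinset O).card) * I * Fintype.card ι) := by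
  classical
  set Y := Fintype.piFinset O with hYd
  set mA : α → ℝ := fun a => ∑ y' ∈ Y, m a y' with hmA
  set X := ∑ a ∈ A, ∑ y ∈ Y, m a y * ∑ p, f p a (y p) with hX
  set c : ℝ := u * Y.card with hc
  have hYne : Y.Nonempty := Fintype.piFinset_nonempty.2 hO
  have hN : (0 : ℝ) < Y.card := by exact_mod_cast hYne.card_pos
  have hcpos : 0 < c := mul_pos hu hN
  have hmA0 : ∀ a ∈ A, 0 ≤ mA a := fun a ha => Finset.sum_nonneg fun y hy => h0 a ha y hy
  have htot : ∑ a ∈ A, mA a = c := by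
    rw [hmA]
    simp only
    rw [Finset.sum_comm, Finset.sum_congr rfl hY, Finset.sum_const, nsmul_eq_mul, mul_comm]
  -- the exponential moment
  have hexp : ∀ t : ℝ, ∀ a ∈ A, ∑ y ∈ Y, Real.exp (t * ∑ p, f p a (y p)) ≤
      Y.card * Real.exp (t ^ 2 * K ^ 2 / 2 * Fintype.card ι) := by
    intro t a ha
    have e1 : ∀ y ∈ Y, Real.exp (t * ∑ p, f p a (y p)) = ∏ p, Real.exp (t * f p a (y p)) := by
      intro y _
      rw [Finset.mul_sum, Real.exp_sum]
    rw [Finset.sum_congr rfl e1, hYd, ← Finset.prod_univ_sum O fun p y => Real.exp (t * f p a y),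
      Fintype.card_piFinset]
    push_cast
    rw [mul_comm _ ((Fintype.card ι : ℕ) : ℝ), Real.exp_nat_mul, ← Finset.card_univ,
      ← Finset.prod_const, ← Finset.prod_mul_distrib]
    refine Finset.prod_le_prod (fun p _ => Finset.sum_nonneg fun y _ => (Real.exp_pos _).le)
      fun p _ => ?_
    exact entJ_hoeff (O p) (f p a) K t hK (hf p a ha) (hf0 p a ha)
  -- pointwise inequality
  have hpt : ∀ a ∈ A, ∀ y ∈ Y, ∀ s : ℝ, m a y * s + m a y - mA a / Y.card * Real.exp s ≤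
      m a y * Real.log (m a y * (u * Y.card) / (mA a * u)) := by
    intro a ha y hy s
    rcases (h0 a ha y hy).eq_or_lt with h | h
    · rw [← h]
      have : 0 ≤ mA a / Y.card * Real.exp s :=
        mul_nonneg (div_nonneg (hmA0 a ha) hN.le) (Real.exp_pos _).le
      simp only [zero_mul, zero_add]
      linarith
    · have hmpos : 0 < mA a := lt_of_lt_of_le h
        (Finset.single_le_sum (f := fun y' => m a y') (fun y' hy' => h0 a ha y' hy') hy)
      have hq : 0 < mA a / Y.card := div_pos hmpos hN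
      have e1 : m a y * (u * Y.card) / (mA a * u) = m a y / (mA a / Y.card) := by
        field_simp
      rw [e1, Real.log_div h.ne' hq.ne']
      have h2 := Real.add_one_le_exp (s - (Real.log (m a y) - Real.log (mA a / Y.card)))
      have h3 : Real.exp (s - (Real.log (m a y) - Real.log (mA a / Y.card))) =
          mA a / Y.card * Real.exp s / m a y := by
        rw [Real.exp_sub, Real.exp_sub, Real.exp_log h, Real.exp_log hq]
        field_simp
      rw [h3, le_div_iff₀ h] at h2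
      nlinarith [h2]
  have hquad : ∀ t : ℝ, 0 ≤ (c * K ^ 2 * Fintype.card ι / 2) * (t * t) + (-X) * t + I := by
    intro t
    set L : ℝ := t ^ 2 * K ^ 2 / 2 * Fintype.card ι with hL
    have h1 : ∑ a ∈ A, ∑ y ∈ Y, (m a y * (t * ∑ p, f p a (y p) - L) + m a y -
        mA a / Y.card * Real.exp (t * ∑ p, f p a (y p) - L)) ≤ I := by
      rw [hI]
      exact Finset.sum_le_sum fun a ha => Finset.sum_le_sum fun y hy => hpt a ha y hy _
    have h2 : ∑ a ∈ A, ∑ y ∈ Y, (m a y * (t * ∑ p, f p a (y p) - L) + m a y -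
        mA a / Y.card * Real.exp (t * ∑ p, f p a (y p) - L)) =
        t * X - L * c + c - ∑ a ∈ A, mA a / Y.card *
          (Real.exp (-L) * ∑ y ∈ Y, Real.exp (t * ∑ p, f p a (y p))) := by
      have e1 : ∀ a y, m a y * (t * ∑ p, f p a (y p) - L) + m a y -
        mA a / Y.card * Real.exp (t * ∑ p, f p a (y p) - L) =
        t * (m a y * ∑ p, f p a (y p)) - L * m a y + m a y - mA a / Y.card * (Real.exp (-L) *
          Real.exp (t * ∑ p, f p a (y p))) := by
        intro a y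
        rw [sub_eq_add_neg _ L, Real.exp_add]
        ring
      simp only [e1, Finset.sum_sub_distrib, Finset.sum_add_distrib, ← Finset.mul_sum]
      rw [← hX]
      have e2 : ∑ a ∈ A, ∑ y ∈ Y, m a y = c := htot
      rw [e2]
    have h3 : ∑ a ∈ A, mA a / Y.card *
        (Real.exp (-L) * ∑ y ∈ Y, Real.exp (t * ∑ p, f p a (y p))) ≤ c := by
      rw [← htot]
      refine Finset.sum_le_sum fun a ha => ?_
      have h4 : Real.exp (-L) * ∑ y ∈ Y, Real.exp (t * ∑ p, f p a (y p)) ≤ Y.card := by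
        calc Real.exp (-L) * ∑ y ∈ Y, Real.exp (t * ∑ p, f p a (y p))
            ≤ Real.exp (-L) * (Y.card * Real.exp L) := by
              gcongr
              exact hexp t a ha
          _ = Y.card := by
              rw [mul_left_comm, ← Real.exp_add]
              simp
      calc mA a / Y.card * (Real.exp (-L) * ∑ y ∈ Y, Real.exp (t * ∑ p, f p a (y p)))
          ≤ mA a / Y.card * Y.card := by
            gcongr
            exact div_nonneg (hmA0 a ha) hN.le
        _ = mA a := by field_simp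
    have h5 : L * c = (c * K ^ 2 * Fintype.card ι / 2) * (t * t) := by rw [hL]; ring
    rw [← h5]
    linarith
  have hdisc := discrim_le_zero hquad
  unfold discrim at hdisc
  have hX2 : X ^ 2 ≤ K ^ 2 * (2 * c * I * Fintype.card ι) := by nlinarith [hdisc]
  calc |X| = √(X ^ 2) := (Real.sqrt_sq_eq_abs X).symm
    _ ≤ √(K ^ 2 * (2 * c * I * Fintype.card ι)) := Real.sqrt_le_sqrt hX2
    _ = K * √(2 * c * I * Fintype.card ι) := by
      rw [Real.sqrt_mul (sq_nonneg K), Real.sqrt_sq hK]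

end

end Pool.Agent.Lib.MP_0b748d_nt.HH
end

section

set_option autoImplicit false

/-!
# A maximum principle on the Farey tree
-/

namespace Pool.Agent.Lib.MP_0b748d_nt.HH

noncomputable section

/-- the supremum of `θ` over all classes and all ratios -/
def tsup {α : Type*} (θ : α → ℝ → ℝ) : ℝ := sSup {y : ℝ | ∃ x s, 0 < s ∧ y = θ x s}

private lemma thetaB_sum (s : ℝ) (hs : 0 < s) (J : ℕ) :
    ∑ j ∈ Finset.range J, s / ((s + j) * (s + j + 1)) = 1 - s / (s + J) := by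
  induction J with
  | zero => simp [hs.ne']
  | succ J ih =>
    have hJ : (0 : ℝ) ≤ J := Nat.cast_nonneg J
    have h1 : s + (J : ℝ) ≠ 0 := by positivity
    have h2 : s + (J : ℝ) + 1 ≠ 0 := by positivity
    have e3 : s + ((J + 1 : ℕ) : ℝ) = s + J + 1 := by push_cast; ring
    rw [Finset.sum_range_succ, ih, e3]
    field_simp
    ring

private lemma thetaB_gap {α : Type*} {l r : Equiv.Perm α} {θ : α → ℝ → ℝ} {C : ℝ}
    (h : Th l r θ C) {S m η : ℝ} (hS : ∀ x s, 0 < s → θ x s ≤ S) (hm : ∀ x, θ x 1 ≤ m)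
    (hη : 0 < η) (hη1 : η < 1) (hB : m / (1 - η) < S) {J₀ : ℕ} (hJ₀ : 1 / η ≤ J₀) (x : α) (s : ℝ)
    (hs : 1 ≤ s) : θ x s ≤ S - (S - m / (1 - η)) * (1 / (2 * (1 + J₀))) := by
  have hs0 : 0 < s := by linarith
  have hJ0 : (0 : ℝ) ≤ J₀ := Nat.cast_nonneg J₀
  obtain ⟨J, hJ⟩ : ∃ J : ℕ, J = J₀ + (J₀ + ⌈s⌉₊) := ⟨_, rfl⟩
  have hJJ : J₀ ≤ J := by omega
  have hJr : s + 2 * (J₀ : ℝ) ≤ J := by
    have h1 : s ≤ ⌈s⌉₊ := Nat.le_ceil s
    rw [hJ]
    push_cast
    linarith
  have hJpos : (0 : ℝ) ≤ J := Nat.cast_nonneg J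
  obtain ⟨w, hw⟩ : ∃ w : ℕ → ℝ, ∀ j, w j = s / ((s + j) * (s + j + 1)) := ⟨_, fun j => rfl⟩
  have hw0 : ∀ j, 0 ≤ w j := by
    intro j
    rw [hw]
    positivity
  have hwsum : ∀ J : ℕ, ∑ j ∈ Finset.range J, w j = 1 - s / (s + J) := by
    intro J
    simp only [hw]
    exact thetaB_sum s hs0 J
  obtain ⟨t, ht⟩ : ∃ t : ℕ → ℝ, ∀ j, t j = θ (l⁻¹ ((r⁻¹ ^ j) x)) ((s + j) / (s + j + 1)) :=
    ⟨_, fun j => rfl⟩
  have htS : ∀ j, t j ≤ S := by
    intro j
    rw [ht]
    exact hS _ _ (by positivity)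
  have htB : ∀ j, J₀ ≤ j → t j ≤ m / (1 - η) := by
    intro j hj
    have hj' : (J₀ : ℝ) ≤ j := by exact_mod_cast hj
    have hu0 : 0 < (s + j) / (s + j + 1) := by positivity
    have hu1 : (s + j) / (s + j + 1) ≤ 1 := by
      rw [div_le_one (by positivity)]
      linarith
    have h1 := h.lip1 (l⁻¹ ((r⁻¹ ^ j) x)) _ 1 hu0 hu1
    rw [div_one, ← ht] at h1
    have h2 := hm (l⁻¹ ((r⁻¹ ^ j) x))
    have h3 : 1 - η ≤ (s + j) / (s + j + 1) := by
      rw [le_div_iff₀ (by positivity)]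
      have h4 : 1 ≤ η * (s + j + 1) := by
        have h5 : 1 / η ≤ s + j + 1 := by linarith
        rw [div_le_iff₀ hη] at h5
        linarith
      linarith
    have ht0 : 0 ≤ t j := by
      rw [ht]
      exact h.nonneg _ _ hu0
    rw [le_div_iff₀ (by linarith)]
    calc t j * (1 - η) ≤ t j * ((s + j) / (s + j + 1)) := mul_le_mul_of_nonneg_left h3 ht0
      _ ≤ m := by linarith
  have hser := h.series x s hs0 J
  have hq0 : 0 ≤ s / (s + J) := by positivity
  have hlast : s / (s + J) * θ ((r⁻¹ ^ J) x) (s + J) ≤ s / (s + J) * S :=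
    mul_le_mul_of_nonneg_left (hS _ _ (by positivity)) hq0
  have hser' : θ x s = ∑ j ∈ Finset.range J, w j * t j +
      s / (s + J) * θ ((r⁻¹ ^ J) x) (s + J) := by
    rw [hser]
    congr 1
    refine Finset.sum_congr rfl fun j _ => ?_
    rw [hw, ht]
  have hsplit : ∑ j ∈ Finset.range J, w j * t j ≤
      (∑ j ∈ Finset.range J, w j) * S - (∑ j ∈ Finset.Ico J₀ J, w j) * (S - m / (1 - η)) := by
    have e1 : ∑ j ∈ Finset.range J, w j * t j =
        ∑ j ∈ Finset.range J₀, w j * t j + ∑ j ∈ Finset.Ico J₀ J, w j * t j :=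
      (Finset.sum_range_add_sum_Ico _ hJJ).symm
    have e2 : ∑ j ∈ Finset.range J, w j =
        ∑ j ∈ Finset.range J₀, w j + ∑ j ∈ Finset.Ico J₀ J, w j :=
      (Finset.sum_range_add_sum_Ico _ hJJ).symm
    have h1 : ∑ j ∈ Finset.range J₀, w j * t j ≤ (∑ j ∈ Finset.range J₀, w j) * S := by
      rw [Finset.sum_mul]
      exact Finset.sum_le_sum fun j _ => mul_le_mul_of_nonneg_left (htS j) (hw0 j)
    have h2 : ∑ j ∈ Finset.Ico J₀ J, w j * t j ≤
        (∑ j ∈ Finset.Ico J₀ J, w j) * (m / (1 - η)) := by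
      rw [Finset.sum_mul]
      refine Finset.sum_le_sum fun j hj => mul_le_mul_of_nonneg_left (htB j ?_) (hw0 j)
      exact (Finset.mem_Ico.1 hj).1
    rw [e1, e2]
    linarith
  have hIco : 1 / (2 * (1 + (J₀ : ℝ))) ≤ ∑ j ∈ Finset.Ico J₀ J, w j := by
    rw [Finset.sum_Ico_eq_sub _ hJJ, hwsum, hwsum]
    have h1 : s / (s + J) ≤ 1 / 2 * (s / (s + J₀)) := by
      rw [div_le_iff₀ (by positivity)]
      have h2 : 1 / 2 * (s / (s + J₀)) * (2 * (s + J₀)) ≤ 1 / 2 * (s / (s + J₀)) * (s + J) :=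
        mul_le_mul_of_nonneg_left (by linarith) (by positivity)
      have h3 : 1 / 2 * (s / (s + J₀)) * (2 * (s + J₀)) = s := by field_simp
      linarith
    have h2 : 1 / (1 + (J₀ : ℝ)) ≤ s / (s + J₀) := by
      rw [div_le_div_iff₀ (by positivity) (by positivity)]
      nlinarith
    have h3 : 1 / (2 * (1 + (J₀ : ℝ))) = 1 / 2 * (1 / (1 + J₀)) := by field_simp
    rw [h3]
    linarith
  have hfin : (S - m / (1 - η)) * (1 / (2 * (1 + J₀))) ≤
      (∑ j ∈ Finset.Ico J₀ J, w j) * (S - m / (1 - η)) := by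
    rw [mul_comm]
    exact mul_le_mul_of_nonneg_right hIco (by linarith)
  rw [hser']
  have h5 : (∑ j ∈ Finset.range J, w j) * S + s / (s + J) * S = S := by
    rw [hwsum]
    ring
  linarith

/-- Let `η, ε > 0` be small and `θ x s > S - ε`. By `Th.symm` let `s ≥ 1`.
If `s ≥ 1 / η`: take `J = ⌈s⌉`; the weights `w_j = s / ((s + j)(s + j + 1))`, `j < J`, have sum
`1 - s / (s + J) ≥ 1 / 2`, so by `Th.series` some `j < J` has `θ (l⁻¹ r⁻ʲ x) u > S - 2 ε` with
`u = (s + j) / (s + j + 1) ≥ 1 - η`. If `1 ≤ s < 1 / η`: take `j = ⌈1 / η⌉`, `J = j + 1`; the weight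
`w_j ≥ 1 / ((1 + j)(2 + j)) = c_η`, and `θ (l⁻¹ r⁻ʲ x) u > S - ε / c_η`, `u ≥ 1 - η`. By `lip1`
`θ (…) 1 ≥ (1 - η)(S - ε (2 + 1 / c_η))`. As there are finitely many classes, let `ε → 0`, then
`η → 0`: `max_x θ x 1 ≥ S`. -/
theorem Th.max_one {α : Type*} [Finite α] [Nonempty α] {l r : Equiv.Perm α} {θ : α → ℝ → ℝ} {C : ℝ}
    (h : Th l r θ C) : ∃ x, θ x 1 = tsup θ := by
  classical
  obtain ⟨x₀, hx₀⟩ := Finite.exists_max (fun x => θ x 1)
  refine ⟨x₀, ?_⟩
  have hne : {y : ℝ | ∃ x s, 0 < s ∧ y = θ x s}.Nonempty := ⟨_, x₀, 1, one_pos, rfl⟩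
  have hbd : BddAbove {y : ℝ | ∃ x s, 0 < s ∧ y = θ x s} := by
    refine ⟨C, ?_⟩
    rintro _ ⟨x, s, hs, rfl⟩
    exact h.le x s hs
  have hS : ∀ x s, 0 < s → θ x s ≤ tsup θ := fun x s hs => le_csSup hbd ⟨x, s, hs, rfl⟩
  have hS' : ∀ x s, 0 < s → (fun x s => θ x (1 / s)) x s ≤ tsup θ :=
    fun x s hs => hS x (1 / s) (by positivity)
  have hm0 : 0 ≤ θ x₀ 1 := h.nonneg _ _ one_pos
  have key : ∀ η : ℝ, 0 < η → η < 1 → tsup θ ≤ θ x₀ 1 / (1 - η) := by
    intro η hη hη1
    by_contra hcon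
    push Not at hcon
    obtain ⟨J₀, hJ₀⟩ := exists_nat_ge (1 / η)
    have hc : 0 < (tsup θ - θ x₀ 1 / (1 - η)) * (1 / (2 * (1 + (J₀ : ℝ)))) :=
      mul_pos (by linarith) (by positivity)
    have h1 : ∀ x s, 0 < s →
        θ x s ≤ tsup θ - (tsup θ - θ x₀ 1 / (1 - η)) * (1 / (2 * (1 + (J₀ : ℝ)))) := by
      intro x s hs
      rcases le_total 1 s with h1 | h1
      · exact thetaB_gap h hS hx₀ hη hη1 hcon hJ₀ x s h1
      · have h2 := thetaB_gap h.symm hS' (m := θ x₀ 1) (fun x => by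
          show θ x (1 / 1) ≤ _
          rw [one_div_one]
          exact hx₀ x) hη hη1 hcon hJ₀ x (1 / s) (by rw [le_div_iff₀ hs]; linarith)
        have e : (1 / (1 / s)) = s := one_div_one_div s
        simp only [e] at h2
        exact h2
    have h2 : tsup θ ≤ tsup θ - (tsup θ - θ x₀ 1 / (1 - η)) * (1 / (2 * (1 + (J₀ : ℝ)))) := by
      refine csSup_le hne ?_
      rintro _ ⟨x, s, hs, rfl⟩
      exact h1 x s hs
    linarith
  apply le_antisymm (hS x₀ 1 one_pos)
  by_contra hcon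
  push Not at hcon
  have hpos : 0 < tsup θ := lt_of_le_of_lt hm0 hcon
  have hη : 0 < (tsup θ - θ x₀ 1) / (2 * tsup θ) := div_pos (by linarith) (by linarith)
  have hη1 : (tsup θ - θ x₀ 1) / (2 * tsup θ) < 1 := by
    rw [div_lt_one (by linarith)]
    linarith
  have h1 := key _ hη hη1
  rw [le_div_iff₀ (by linarith)] at h1
  have e : tsup θ * (1 - (tsup θ - θ x₀ 1) / (2 * tsup θ)) = (tsup θ + θ x₀ 1) / 2 := by
    field_simp
    ring
  rw [e] at h1
  linarith

end

end Pool.Agent.Lib.MP_0b748d_nt.HH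
end

section

set_option autoImplicit false

/-!
# A maximum principle on the Farey tree
-/

namespace Pool.Agent.Lib.MP_0b748d_nt.HH

noncomputable section

private theorem thetaC_inv_self {α : Type*} (e : Equiv.Perm α) (x : α) : e⁻¹ (e x) = x :=
  e.symm_apply_apply x

private theorem thetaC_self_inv {α : Type*} (e : Equiv.Perm α) (x : α) : e (e⁻¹ x) = x :=
  e.apply_symm_apply x

private theorem thetaC_le {α : Type*} {l r : Equiv.Perm α} {θ : α → ℝ → ℝ} {C : ℝ}
    (h : Th l r θ C) {x : α} {s : ℝ} (hs : 0 < s) : θ x s ≤ tsup θ := by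
  apply le_csSup
  · refine ⟨C, ?_⟩
    rintro y ⟨x, s, hs, rfl⟩
    exact h.le x s hs
  · exact ⟨x, s, hs, rfl⟩

private theorem thetaC_both {α : Type*} {l r : Equiv.Perm α} {θ : α → ℝ → ℝ} {C : ℝ}
    (h : Th l r θ C) {x : α} {s : ℝ} (hs : 0 < s) (hx : θ x s = tsup θ) :
    θ (l⁻¹ x) (s / (1 + s)) = tsup θ ∧ θ (r⁻¹ x) (1 + s) = tsup θ := by
  have h1 : (0 : ℝ) < 1 + s := by linarith
  have a1 := thetaC_le h (x := l⁻¹ x) (s := s / (1 + s)) (div_pos hs h1)
  have a2 := thetaC_le h (x := r⁻¹ x) (s := 1 + s) h1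
  have h2 := h.recu x s hs
  rw [hx] at h2
  have w1 : (0 : ℝ) < 1 / (1 + s) := by positivity
  have w2 : (0 : ℝ) < s / (1 + s) := by positivity
  have w3 : 1 / (1 + s) + s / (1 + s) = 1 := by
    field_simp
  generalize θ (l⁻¹ x) (s / (1 + s)) = A at a1 h2 ⊢
  generalize θ (r⁻¹ x) (1 + s) = B at a2 h2 ⊢
  generalize 1 / (1 + s) = p at w1 w3 h2
  generalize s / (1 + s) = q at w2 w3 h2
  have e1 : p * (tsup θ - A) + q * (tsup θ - B) = 0 := by
    have : p * (tsup θ - A) + q * (tsup θ - B) = (p + q) * tsup θ - (p * A + q * B) := by ring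
    rw [this, w3, ← h2]
    ring
  have e2 : 0 ≤ p * (tsup θ - A) := mul_nonneg w1.le (by linarith)
  have e3 : 0 ≤ q * (tsup θ - B) := mul_nonneg w2.le (by linarith)
  have e4 : p * (tsup θ - A) = 0 := by linarith
  have e5 : q * (tsup θ - B) = 0 := by linarith
  constructor
  · rcases mul_eq_zero.1 e4 with h3 | h3
    · exact absurd h3 w1.ne'
    · linarith
  · rcases mul_eq_zero.1 e5 with h3 | h3
    · exact absurd h3 w2.ne'
    · linarith

private theorem thetaC_stable {α : Type*} [Finite α] {A : α → Prop} {l : Equiv.Perm α}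
    (h : ∀ x, A x → A (l⁻¹ x)) (x : α) : A (l x) ↔ A x := by
  have hk : ∀ (k : ℕ) x, A x → A ((l⁻¹ ^ k) x) := by
    intro k
    induction k with
    | zero => intro x hx; exact hx
    | succ k ih =>
      intro x hx
      rw [pow_succ', Equiv.Perm.mul_apply]
      exact h _ (ih x hx)
  constructor
  · intro hx
    have := h _ hx
    rwa [thetaC_inv_self] at this
  · intro hx
    have h1 : 0 < orderOf l := orderOf_pos l
    obtain ⟨k, hkk⟩ : ∃ k, orderOf l = k + 1 := ⟨orderOf l - 1, by omega⟩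
    have h2 : l⁻¹ ^ k = l := by
      have h3 : l ^ (k + 1) = 1 := by
        rw [← hkk]
        exact pow_orderOf_eq_one l
      rw [inv_pow, inv_eq_iff_mul_eq_one, ← pow_succ]
      exact h3
    have h3 := hk k x hx
    rwa [h2] at h3

/-- all values are at most `S`, and the right side of `recu` is a convex combination -/
theorem Th.prop_l {α : Type*} {l r : Equiv.Perm α} {θ : α → ℝ → ℝ} {C : ℝ} (h : Th l r θ C) {x : α}
    {s : ℝ} (hs : 0 < s) (hx : θ x s = tsup θ) : θ (l⁻¹ x) (s / (1 + s)) = tsup θ := by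
  exact (thetaC_both h hs hx).1

theorem Th.prop_r {α : Type*} {l r : Equiv.Perm α} {θ : α → ℝ → ℝ} {C : ℝ} (h : Th l r θ C) {x : α}
    {s : ℝ} (hs : 0 < s) (hx : θ x s = tsup θ) : θ (r⁻¹ x) (1 + s) = tsup θ := by
  exact (thetaC_both h hs hx).2

/-- The set of the `y` with `θ y s = S` for some `s > 0` is nonempty (`max_one`) and stable under
`l⁻¹`, `r⁻¹` (`prop_l`, `prop_r`); `α` is finite, so it is stable under the generated group (a subset
of a finite set which is mapped into itself by a permutation is mapped onto itself), hence it is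
everything. -/
theorem Th.all {α : Type*} [Finite α] [Nonempty α] {l r : Equiv.Perm α} {θ : α → ℝ → ℝ} {C : ℝ}
    (h : Th l r θ C)
    (htr : ∀ x y : α, ∃ g ∈ Subgroup.closure ({l, r} : Set (Equiv.Perm α)), g x = y) (y : α) :
    ∃ s, 0 < s ∧ θ y s = tsup θ := by
  obtain ⟨x, hx⟩ := h.max_one
  obtain ⟨g, hg, rfl⟩ := htr x y
  have key : ∀ g ∈ Subgroup.closure ({l, r} : Set (Equiv.Perm α)), ∀ z,
      (∃ s, 0 < s ∧ θ (g z) s = tsup θ) ↔ (∃ s, 0 < s ∧ θ z s = tsup θ) := by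
    intro g hg
    induction hg using Subgroup.closure_induction with
    | mem g hg =>
      intro z
      rcases hg with rfl | hg
      · refine thetaC_stable (A := fun z => ∃ s, 0 < s ∧ θ z s = tsup θ) ?_ z
        rintro z ⟨s, hs, hz⟩
        exact ⟨s / (1 + s), by positivity, h.prop_l hs hz⟩
      · rw [Set.mem_singleton_iff] at hg
        subst hg
        refine thetaC_stable (A := fun z => ∃ s, 0 < s ∧ θ z s = tsup θ) ?_ z
        rintro z ⟨s, hs, hz⟩
        exact ⟨1 + s, by positivity, h.prop_r hs hz⟩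
    | one => intro z; rfl
    | mul a b _ _ ha hb =>
      intro z
      rw [Equiv.Perm.mul_apply, ha, hb]
    | inv a _ ha =>
      intro z
      rw [← ha (a⁻¹ z), thetaC_self_inv]
  exact (key g hg x).2 ⟨1, one_pos, hx⟩

/-- For `j` let `z = r ^ j (l y)`, so `y = l⁻¹ (r⁻ʲ z)`. By `Th.all` there is `s` with `θ z s = S`;
`prop_r` `j` times and `prop_l` give `θ y u = S`, `u = (s + j) / (s + j + 1) ≥ j / (j + 1)`, and `lip1`
gives `θ y 1 ≥ (j / (j + 1)) S`. Let `j → ∞`. -/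
theorem theta_const {α : Type*} [Finite α] [Nonempty α] {l r : Equiv.Perm α} {θ : α → ℝ → ℝ} {C : ℝ}
    (h : Th l r θ C)
    (htr : ∀ x y : α, ∃ g ∈ Subgroup.closure ({l, r} : Set (Equiv.Perm α)), g x = y) (y : α) :
    θ y 1 = tsup θ := by
  have hle : θ y 1 ≤ tsup θ := thetaC_le h one_pos
  have h0 : 0 ≤ tsup θ := (h.nonneg y 1 one_pos).trans hle
  refine le_antisymm hle ?_
  have hpow : ∀ (j : ℕ) (z : α) (s : ℝ), 0 < s → θ ((r ^ j) z) s = tsup θ →
      θ z (s + j) = tsup θ := by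
    intro j
    induction j with
    | zero =>
      intro z s hs hz
      rw [Nat.cast_zero, add_zero]
      exact hz
    | succ j ih =>
      intro z s hs hz
      rw [pow_succ, Equiv.Perm.mul_apply] at hz
      have h1 := ih (r z) s hs hz
      have h2 := h.prop_r (by positivity) h1
      rw [thetaC_inv_self] at h2
      rw [← h2]
      congr 1
      push_cast
      ring
  have hj : ∀ j : ℕ, (j : ℝ) / (j + 1) * tsup θ ≤ θ y 1 := by
    intro j
    obtain ⟨s, hs, hz⟩ := h.all htr ((r ^ j) (l y))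
    have h1 := hpow j (l y) s hs hz
    have h2 := h.prop_l (by positivity) h1
    rw [thetaC_inv_self] at h2
    have hj0 : (0 : ℝ) ≤ j := Nat.cast_nonneg j
    have h3 : (s + j) / (1 + (s + j)) ≤ 1 := by
      rw [div_le_one (by positivity)]
      linarith
    have h4 := h.lip1 y ((s + j) / (1 + (s + j))) 1 (by positivity) h3
    rw [h2, div_one] at h4
    refine le_trans (mul_le_mul_of_nonneg_right ?_ h0) h4
    rw [div_le_div_iff₀ (by positivity) (by positivity)]
    nlinarith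
  by_contra hlt
  push Not at hlt
  have hS : 0 < tsup θ := lt_of_le_of_lt (h.nonneg y 1 one_pos) hlt
  obtain ⟨j, hjj⟩ := exists_nat_gt (tsup θ / (tsup θ - θ y 1))
  have hd : 0 < tsup θ - θ y 1 := sub_pos.2 hlt
  rw [div_lt_iff₀ hd] at hjj
  have h5 := hj j
  have hj1 : (0 : ℝ) < (j : ℝ) + 1 := by positivity
  rw [div_mul_eq_mul_div, div_le_iff₀ hj1] at h5
  nlinarith

end

end Pool.Agent.Lib.MP_0b748d_nt.HH
end

section

set_option autoImplicit false

/-!
# Slopes law: classes of forms are uniformly distributed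
-/

namespace Pool.Agent.Lib.MP_0b748d_nt.HH

open Filter Topology

noncomputable section

private theorem triB_tt_pos (n i : ℕ) : 0 < tt n i := by
  unfold tt
  positivity

private theorem triB_tt_add (n i m : ℕ) : tt n (i + m) = tt n i * tt n m := by
  unfold tt
  rw [← Real.rpow_add two_pos, Nat.cast_add, add_div]

private theorem triB_shift (g : ℕ → ℝ) (D : ℝ) (h0 : ∀ i, 0 ≤ g i) (h1 : ∀ i, g i ≤ D)
    (N m : ℕ) :
    ∑ i ∈ Finset.range N, g i - m * D ≤ ∑ i ∈ Finset.range N, g (i + m) ∧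
      ∑ i ∈ Finset.range N, g (i + m) ≤ ∑ i ∈ Finset.range N, g i + m * D := by
  induction m with
  | zero => simp
  | succ m ih =>
    have h2 : ∑ i ∈ Finset.range N, g (i + (m + 1)) + g m =
        ∑ i ∈ Finset.range N, g (i + m) + g (N + m) := by
      rw [← Finset.sum_range_succ (fun i => g (i + m)) N,
        Finset.sum_range_succ' (fun i => g (i + m)) N]
      congr 1
      · refine Finset.sum_congr rfl fun i _ => ?_
        congr 1
        ring
      · congr 1
        ring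
    have h3 := h0 m
    have h4 := h1 m
    have h5 := h0 (N + m)
    have h6 := h1 (N + m)
    push_cast
    constructor <;> nlinarith [ih.1, ih.2]

private theorem triB_lim (t : ℝ) (ht : 1 ≤ t) (a b : ℝ) (ha : 0 < a) (hb : 0 < b)
    {α : Type*} (c : Fm → α) (x : α) :
    Tendsto (fun n => tan' c x (t * a) (t * b) n - t ^ 2 * tan' c x a b n) atTop (𝓝 0) := by
  obtain ⟨C, hC1, hC⟩ := nx_le c
  have ht0 : 0 < t := by linarith
  set D := C * (a * b) with hD
  have hD0 : 0 ≤ D := by positivity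
  set L := Real.logb 2 (t ^ 2) with hL
  have hL0 : 0 ≤ L := Real.logb_nonneg (by norm_num) (by nlinarith)
  have h2L : (2 : ℝ) ^ L = t ^ 2 := Real.rpow_logb two_pos (by norm_num) (by positivity)
  have hG0 : ∀ n i, 0 ≤ (1 / tt n i) * nx c x a b (tt n i) := fun n i =>
    mul_nonneg (one_div_nonneg.2 (triB_tt_pos n i).le) (nx_nonneg c x a b _)
  have hG1 : ∀ n i, (1 / tt n i) * nx c x a b (tt n i) ≤ D := by
    intro n i
    have h1 := hC x a b (tt n i) ha hb (triB_tt_pos n i).le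
    rw [one_div, inv_mul_le_iff₀ (triB_tt_pos n i)]
    calc nx c x a b (tt n i) ≤ C * (a * b * tt n i) := h1
      _ = tt n i * D := by rw [hD]; ring
  have hA0 : ∀ n, 0 ≤ tan' c x a b n := fun n =>
    mul_nonneg (by positivity) (Finset.sum_nonneg fun i _ => hG0 n i)
  have hA1 : ∀ n, tan' c x a b n ≤ D := by
    intro n
    unfold tan'
    have h1 : ∑ i ∈ Finset.range (n ^ 2), (1 / tt n i) * nx c x a b (tt n i) ≤
        (n : ℝ) ^ 2 * D := by
      refine (Finset.sum_le_sum fun i _ => hG1 n i).trans ?_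
      rw [Finset.sum_const, Finset.card_range, nsmul_eq_mul]
      push_cast
      exact le_rfl
    rcases Nat.eq_zero_or_pos n with rfl | hn
    · simpa using hD0
    · have hn' : (0 : ℝ) < (n : ℝ) ^ 2 := by positivity
      rw [one_div, inv_mul_le_iff₀ hn']
      exact h1
  -- the two bounds
  have key : ∀ n : ℕ, 1 ≤ n →
      -(t ^ 2 * (1 - (2 : ℝ) ^ (-(1 / (n : ℝ)))) * D + t ^ 2 * (L * D / n)) ≤
        tan' c x (t * a) (t * b) n - t ^ 2 * tan' c x a b n ∧
      tan' c x (t * a) (t * b) n - t ^ 2 * tan' c x a b n ≤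
        t ^ 2 * ((2 : ℝ) ^ (1 / (n : ℝ)) - 1) * D +
          t ^ 2 * (2 : ℝ) ^ (1 / (n : ℝ)) * ((L / n + 1 / (n : ℝ) ^ 2) * D) := by
    intro n hn
    have hn0 : (0 : ℝ) < n := by exact_mod_cast hn
    set m := ⌊(n : ℝ) * L⌋₊ with hm
    have hm1 : (m : ℝ) ≤ n * L := Nat.floor_le (by positivity)
    have hm2 : (n : ℝ) * L < m + 1 := Nat.lt_floor_add_one _
    have hone : tt n 1 = (2 : ℝ) ^ (1 / (n : ℝ)) := by
      unfold tt
      rw [Nat.cast_one]
    have hlo : tt n m ≤ t ^ 2 := by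
      rw [← h2L]
      unfold tt
      apply Real.rpow_le_rpow_of_exponent_le (by norm_num)
      rw [div_le_iff₀ hn0]
      linarith
    have hhi : t ^ 2 ≤ tt n (m + 1) := by
      rw [← h2L]
      unfold tt
      apply Real.rpow_le_rpow_of_exponent_le (by norm_num)
      rw [le_div_iff₀ hn0]
      push_cast
      linarith
    have hB : tan' c x (t * a) (t * b) n = (1 / (n : ℝ) ^ 2) *
        ∑ i ∈ Finset.range (n ^ 2), (1 / tt n i) * nx c x a b (t ^ 2 * tt n i) := by
      unfold tan'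
      congr 1
      refine Finset.sum_congr rfl fun i _ => ?_
      rw [nx_scale c x ha hb (triB_tt_pos n i).le ht0]
    have hterm1 : ∀ i, tt n m * ((1 / tt n (i + m)) * nx c x a b (tt n (i + m))) ≤
        (1 / tt n i) * nx c x a b (t ^ 2 * tt n i) := by
      intro i
      have h1 : tt n m * (1 / tt n (i + m)) = 1 / tt n i := by
        rw [triB_tt_add]
        have := (triB_tt_pos n i).ne'
        have := (triB_tt_pos n m).ne'
        field_simp
      rw [← mul_assoc, h1]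
      apply mul_le_mul_of_nonneg_left _ (one_div_nonneg.2 (triB_tt_pos n i).le)
      apply nx_mono c x ha hb (triB_tt_pos n _).le le_rfl le_rfl
      rw [triB_tt_add, mul_comm]
      exact mul_le_mul_of_nonneg_right hlo (triB_tt_pos n i).le
    have hterm2 : ∀ i, (1 / tt n i) * nx c x a b (t ^ 2 * tt n i) ≤
        tt n (m + 1) * ((1 / tt n (i + (m + 1))) * nx c x a b (tt n (i + (m + 1)))) := by
      intro i
      have h1 : tt n (m + 1) * (1 / tt n (i + (m + 1))) = 1 / tt n i := by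
        rw [triB_tt_add n i]
        have := (triB_tt_pos n i).ne'
        have := (triB_tt_pos n (m + 1)).ne'
        field_simp
      rw [← mul_assoc, h1]
      apply mul_le_mul_of_nonneg_left _ (one_div_nonneg.2 (triB_tt_pos n i).le)
      apply nx_mono c x ha hb (mul_nonneg (by positivity) (triB_tt_pos n _).le) le_rfl le_rfl
      rw [triB_tt_add n i, mul_comm]
      exact mul_le_mul_of_nonneg_left hhi (triB_tt_pos n i).le
    have hs1 := triB_shift (fun i => (1 / tt n i) * nx c x a b (tt n i)) D (hG0 n) (hG1 n)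
      (n ^ 2) m
    have hs2 := triB_shift (fun i => (1 / tt n i) * nx c x a b (tt n i)) D (hG0 n) (hG1 n)
      (n ^ 2) (m + 1)
    have hn2 : (0 : ℝ) ≤ 1 / (n : ℝ) ^ 2 := by positivity
    have hBlo : tt n m * (tan' c x a b n - m * D / (n : ℝ) ^ 2) ≤
        tan' c x (t * a) (t * b) n := by
      rw [hB]
      have h1 : ∑ i ∈ Finset.range (n ^ 2), tt n m * ((1 / tt n (i + m)) *
          nx c x a b (tt n (i + m))) ≤
          ∑ i ∈ Finset.range (n ^ 2), (1 / tt n i) * nx c x a b (t ^ 2 * tt n i) :=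
        Finset.sum_le_sum fun i _ => hterm1 i
      rw [← Finset.mul_sum] at h1
      have h2 := mul_le_mul_of_nonneg_left hs1.1 (triB_tt_pos n m).le
      have h3 := mul_le_mul_of_nonneg_left (h2.trans h1) hn2
      refine le_trans (le_of_eq ?_) h3
      unfold tan'
      ring
    have hBhi : tan' c x (t * a) (t * b) n ≤
        tt n (m + 1) * (tan' c x a b n + (m + 1) * D / (n : ℝ) ^ 2) := by
      rw [hB]
      have h1 : ∑ i ∈ Finset.range (n ^ 2), (1 / tt n i) * nx c x a b (t ^ 2 * tt n i) ≤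
          ∑ i ∈ Finset.range (n ^ 2), tt n (m + 1) * ((1 / tt n (i + (m + 1))) *
          nx c x a b (tt n (i + (m + 1)))) :=
        Finset.sum_le_sum fun i _ => hterm2 i
      rw [← Finset.mul_sum] at h1
      have h2 := mul_le_mul_of_nonneg_left hs2.2 (triB_tt_pos n (m + 1)).le
      have h3 := mul_le_mul_of_nonneg_left (h1.trans h2) hn2
      refine le_trans h3 (le_of_eq ?_)
      unfold tan'
      push_cast
      ring
    have hmn : (m : ℝ) * D / (n : ℝ) ^ 2 ≤ L * D / n := by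
      rw [div_le_div_iff₀ (by positivity) hn0]
      have : (m : ℝ) * D ≤ (n * L) * D := mul_le_mul_of_nonneg_right hm1 hD0
      nlinarith
    have hmn0 : 0 ≤ (m : ℝ) * D / (n : ℝ) ^ 2 := by positivity
    have hmn' : ((m : ℝ) + 1) * D / (n : ℝ) ^ 2 ≤ (L / n + 1 / (n : ℝ) ^ 2) * D := by
      have h1 : ((m : ℝ) + 1) * D / (n : ℝ) ^ 2 = (m : ℝ) * D / (n : ℝ) ^ 2 +
        1 / (n : ℝ) ^ 2 * D := by ring
      have h2 : (L / n + 1 / (n : ℝ) ^ 2) * D = L * D / n + 1 / (n : ℝ) ^ 2 * D := by ring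
      rw [h1, h2]
      linarith
    have htm : t ^ 2 * (2 : ℝ) ^ (-(1 / (n : ℝ))) ≤ tt n m := by
      rw [triB_tt_add, hone] at hhi
      rw [Real.rpow_neg two_pos.le, ← div_eq_mul_inv, div_le_iff₀ (by positivity)]
      exact hhi
    have htm' : tt n (m + 1) ≤ t ^ 2 * (2 : ℝ) ^ (1 / (n : ℝ)) := by
      rw [triB_tt_add, hone]
      exact mul_le_mul_of_nonneg_right hlo (by positivity)
    have hA0n := hA0 n
    have hA1n := hA1 n
    set A := tan' c x a b n with hAdef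
    set B := tan' c x (t * a) (t * b) n with hBdef
    constructor
    · -- lower bound
      have h1 : t ^ 2 * (2 : ℝ) ^ (-(1 / (n : ℝ))) * A ≤ tt n m * A :=
        mul_le_mul_of_nonneg_right htm hA0n
      have h2 : tt n m * ((m : ℝ) * D / (n : ℝ) ^ 2) ≤ t ^ 2 * (L * D / n) :=
        mul_le_mul hlo hmn hmn0 (by positivity)
      have h3 : (2 : ℝ) ^ (-(1 / (n : ℝ))) ≤ 1 :=
        Real.rpow_le_one_of_one_le_of_nonpos (by norm_num) (by
          rw [Left.neg_nonpos_iff]; positivity)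
      have h4 : t ^ 2 * (1 - (2 : ℝ) ^ (-(1 / (n : ℝ)))) * A ≤
          t ^ 2 * (1 - (2 : ℝ) ^ (-(1 / (n : ℝ)))) * D :=
        mul_le_mul_of_nonneg_left hA1n (mul_nonneg (by positivity) (by linarith))
      have h5 : tt n m * (A - m * D / (n : ℝ) ^ 2) = tt n m * A -
        tt n m * ((m : ℝ) * D / (n : ℝ) ^ 2) := by ring
      rw [h5] at hBlo
      have h6 : t ^ 2 * (1 - (2 : ℝ) ^ (-(1 / (n : ℝ)))) * A = t ^ 2 * A -
        t ^ 2 * (2 : ℝ) ^ (-(1 / (n : ℝ))) * A := by ring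
      linarith
    · have hm0 : 0 ≤ A + (m + 1) * D / (n : ℝ) ^ 2 := by positivity
      have h1 : tt n (m + 1) * (A + (m + 1) * D / (n : ℝ) ^ 2) ≤
          t ^ 2 * (2 : ℝ) ^ (1 / (n : ℝ)) * (A + (L / n + 1 / (n : ℝ) ^ 2) * D) :=
        mul_le_mul htm' (by linarith) hm0 (by positivity)
      have h3 : 1 ≤ (2 : ℝ) ^ (1 / (n : ℝ)) :=
        Real.one_le_rpow (by norm_num) (by positivity)
      have h4 : t ^ 2 * ((2 : ℝ) ^ (1 / (n : ℝ)) - 1) * A ≤
          t ^ 2 * ((2 : ℝ) ^ (1 / (n : ℝ)) - 1) * D :=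
        mul_le_mul_of_nonneg_left hA1n (mul_nonneg (by positivity) (by linarith))
      have h5 : t ^ 2 * (2 : ℝ) ^ (1 / (n : ℝ)) * (A + (L / n + 1 / (n : ℝ) ^ 2) * D) -
          t ^ 2 * A = t ^ 2 * ((2 : ℝ) ^ (1 / (n : ℝ)) - 1) * A +
          t ^ 2 * (2 : ℝ) ^ (1 / (n : ℝ)) * ((L / n + 1 / (n : ℝ) ^ 2) * D) := by ring
      linarith
  have hinv : Tendsto (fun n : ℕ => 1 / (n : ℝ)) atTop (𝓝 0) := tendsto_one_div_atTop_nhds_zero_nat
  have hp1 : Tendsto (fun n : ℕ => (2 : ℝ) ^ (1 / (n : ℝ))) atTop (𝓝 1) := by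
    have := (Real.continuous_const_rpow (a := 2) two_ne_zero).tendsto 0
    rw [Real.rpow_zero] at this
    exact this.comp hinv
  have hp2 : Tendsto (fun n : ℕ => (2 : ℝ) ^ (-(1 / (n : ℝ)))) atTop (𝓝 1) := by
    have := (Real.continuous_const_rpow (a := 2) two_ne_zero).tendsto (-0)
    rw [neg_zero, Real.rpow_zero] at this
    have h2 := hinv.neg
    rw [neg_zero] at h2
    exact this.comp h2
  have hinv2 : Tendsto (fun n : ℕ => 1 / (n : ℝ) ^ 2) atTop (𝓝 0) := by
    have := hinv.pow 2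
    simpa using this
  refine tendsto_of_tendsto_of_tendsto_of_le_of_le' ?_ ?_
    (eventually_atTop.2 ⟨1, fun n hn => (key n hn).1⟩)
    (eventually_atTop.2 ⟨1, fun n hn => (key n hn).2⟩)
  · have h1 : Tendsto (fun n : ℕ => -(t ^ 2 * (1 - (2 : ℝ) ^ (-(1 / (n : ℝ)))) * D +
        t ^ 2 * (L * D * (1 / (n : ℝ))))) atTop
        (𝓝 (-(t ^ 2 * (1 - 1) * D + t ^ 2 * (L * D * 0)))) :=
      ((((hp2.const_sub 1).const_mul (t ^ 2)).mul_const D).add
        ((hinv.const_mul (L * D)).const_mul (t ^ 2))).neg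
    simpa [div_eq_mul_inv] using h1
  · have h1 : Tendsto (fun n : ℕ => t ^ 2 * ((2 : ℝ) ^ (1 / (n : ℝ)) - 1) * D +
        t ^ 2 * (2 : ℝ) ^ (1 / (n : ℝ)) * ((L * (1 / (n : ℝ)) + 1 / (n : ℝ) ^ 2) * D)) atTop
        (𝓝 (t ^ 2 * (1 - 1) * D + t ^ 2 * 1 * ((L * 0 + 0) * D))) :=
      (((hp1.sub_const 1).const_mul (t ^ 2)).mul_const D).add
        ((hp1.const_mul (t ^ 2)).mul (((hinv.const_mul L).add hinv2).mul_const D))
    simpa [div_eq_mul_inv] using h1

private theorem triB_ge {α : Type*} (U : Ultrafilter ℕ) (hU : (U : Filter ℕ) ≤ atTop)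
    (c : Fm → α) (x : α) {a b t : ℝ} (ha : 0 < a) (hb : 0 < b) (ht : 1 ≤ t) :
    ta U c x (t * a) (t * b) = t ^ 2 * ta U c x a b := by
  have ht0 : 0 < t := by linarith
  unfold ta
  rw [← ul_smul (t ^ 2) (tan_Bs c x ha hb)]
  exact ul_eq_of_sub hU (tan_Bs c x (mul_pos ht0 ha) (mul_pos ht0 hb))
    (Bs_smul _ (tan_Bs c x ha hb)) (triB_lim t ht a b ha hb c x)

/-- Homogeneity. It is enough to treat `t ≥ 1` (for `t < 1` use `1 / t`). Let
`m = ⌊n log₂ (t²)⌋`, so `tt n m ≤ t² ≤ tt n (m + 1)`, `m ≤ C n`. By `nx_scale` and monotonicity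
`nx a b (tt n (i + m)) ≤ nx (t a) (t b) (tt n i) ≤ nx a b (tt n (i + m + 1))`. Multiply by
`1 / tt n i = tt n m / tt n (i + m)` and average over `i < n²`; the shift by `m` (or `m + 1`) changes the
average of the bounded function `nx a b (tt n i) / tt n i` by `O (m / n²) → 0`; and
`tt n m → t²`, `tt n (m + 1) → t²`. -/
theorem ta_scale {α : Type*} (U : Ultrafilter ℕ) (hU : (U : Filter ℕ) ≤ atTop) (c : Fm → α) (x : α)
    {a b t : ℝ} (ha : 0 < a) (hb : 0 < b) (ht : 0 < t) :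
    ta U c x (t * a) (t * b) = t ^ 2 * ta U c x a b := by
  rcases le_total 1 t with h | h
  · exact triB_ge U hU c x ha hb h
  · have h1 : 1 ≤ t⁻¹ := (one_le_inv₀ ht).2 h
    have h2 := triB_ge U hU c x (mul_pos ht ha) (mul_pos ht hb) h1
    rw [← mul_assoc, ← mul_assoc, inv_mul_cancel₀ ht.ne', one_mul, one_mul] at h2
    rw [h2, ← mul_assoc, ← mul_pow, mul_inv_cancel₀ ht.ne', one_pow, one_mul]

end

end Pool.Agent.Lib.MP_0b748d_nt.HH
end

section

set_option autoImplicit false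

/-!
# Residues of forms modulo primes
-/

namespace Pool.Agent.Lib.MP_0b748d_nt.HH

open Filter Topology

noncomputable section

/-- families of permutations as permutations of families -/
def resPhi (S : Finset ℕ) :
    ((p : {p : ℕ // p ∈ S}) → Equiv.Perm (Rp p)) →* Equiv.Perm (RS S) where
  toFun f := Equiv.piCongrRight f
  map_one' := by
    ext y p
    all_goals rfl
  map_mul' f g := by
    ext y p
    all_goals rfl

private lemma res_crt (S : Finset ℕ) (hS : ∀ p ∈ S, p.Prime) {p₀ : ℕ} (h₀ : p₀ ∈ S) :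
    ∃ k : ℕ, (k : ZMod p₀) = 1 ∧ ∀ p ∈ S, p ≠ p₀ → (k : ZMod p) = 0 := by
  classical
  have hp₀ := hS p₀ h₀
  have : Fact p₀.Prime := ⟨hp₀⟩
  set M : ℕ := ∏ p ∈ S.erase p₀, p with hM
  have hM0 : (M : ZMod p₀) ≠ 0 := by
    intro h
    rw [ZMod.natCast_eq_zero_iff, hM] at h
    obtain ⟨q, hq, hpq⟩ := (hp₀.prime.dvd_finsetProd_iff _).mp h
    rw [Finset.mem_erase] at hq
    exact hq.1 ((Nat.prime_dvd_prime_iff_eq hp₀ (hS q hq.2)).mp hpq).symm
  refine ⟨M * ((M : ZMod p₀)⁻¹).val, ?_, fun p hp hne => ?_⟩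
  · rw [Nat.cast_mul, ZMod.natCast_zmod_val, mul_inv_cancel₀ hM0]
  · rw [ZMod.natCast_eq_zero_iff]
    refine Dvd.dvd.mul_right ?_ _
    exact Finset.dvd_prod_of_mem _ (Finset.mem_erase.mpr ⟨hne, hp⟩)

private lemma rl_pow_one {p k : ℕ} (h : (k : ZMod p) = 1) : rl p ^ k = rl p := by
  apply Equiv.ext
  intro y
  rw [rl_pow, h]
  simp only [rl, Equiv.coe_fn_mk]
  refine Prod.ext rfl (Prod.ext ?_ ?_)
  · simp only
    ring
  · simp only
    ring

private lemma rl_pow_zero {p k : ℕ} (h : (k : ZMod p) = 0) : rl p ^ k = 1 := by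
  apply Equiv.ext
  intro y
  rw [rl_pow, h]
  simp

private lemma rr_pow_one {p k : ℕ} (h : (k : ZMod p) = 1) : rr p ^ k = rr p := by
  apply Equiv.ext
  intro y
  rw [rr_pow, h]
  simp only [rr, Equiv.coe_fn_mk]
  refine Prod.ext ?_ (Prod.ext ?_ rfl)
  · simp only
    ring
  · simp only
    ring

private lemma rr_pow_zero {p k : ℕ} (h : (k : ZMod p) = 0) : rr p ^ k = 1 := by
  apply Equiv.ext
  intro y
  rw [rr_pow, h]
  simp

/-- The group generated by the left and right maps on `RS S` acts transitively on the product of the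
orbits: for `p₀ ∈ S` choose `k ≡ 1 mod p₀`, `k ≡ 0 mod p` for the other `p ∈ S` (the elements of `S` are
distinct primes; `Nat.chineseRemainderOfFinset` or a product of the other primes times an inverse); by
`rl_pow` the `k`-th power of the left map is the left map at `p₀` and the identity elsewhere. So the
group contains the product of the groups at the single primes. -/
theorem OrbS_trans (S : Finset ℕ) (hS : ∀ p ∈ S, p.Prime) {y y' : RS S} (hy : y ∈ OrbS S)
    (hy' : y' ∈ OrbS S) : ∃ g ∈ Subgroup.closure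
      ({Equiv.piCongrRight (fun p : {p : ℕ // p ∈ S} => rl p),
        Equiv.piCongrRight (fun p : {p : ℕ // p ∈ S} => rr p)} : Set (Equiv.Perm (RS S))),
      g y = y' := by
  classical
  set G : Subgroup (Equiv.Perm (RS S)) := Subgroup.closure
      ({Equiv.piCongrRight (fun p : {p : ℕ // p ∈ S} => rl p),
        Equiv.piCongrRight (fun p : {p : ℕ // p ∈ S} => rr p)} : Set (Equiv.Perm (RS S))) with hG
  have hL : resPhi S (fun p => rl p) ∈ G := Subgroup.subset_closure (Or.inl rfl)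
  have hR : resPhi S (fun p => rr p) ∈ G := Subgroup.subset_closure (Or.inr rfl)
  have hl1 : ∀ p₀ : {p : ℕ // p ∈ S}, resPhi S (Pi.mulSingle p₀ (rl p₀)) ∈ G := by
    intro p₀
    obtain ⟨k, hk1, hk0⟩ := res_crt S hS p₀.2
    have h1 : (Pi.mulSingle p₀ (rl p₀) : (p : {p : ℕ // p ∈ S}) → Equiv.Perm (Rp p)) =
        (fun p : {p : ℕ // p ∈ S} => rl p) ^ k := by
      funext p
      by_cases hp : p = p₀
      · subst hp
        rw [Pi.mulSingle_eq_same, Pi.pow_apply, rl_pow_one hk1]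
      · rw [Pi.mulSingle_eq_of_ne hp, Pi.pow_apply,
          rl_pow_zero (hk0 p.1 p.2 fun h => hp (Subtype.ext h))]
    rw [h1, map_pow]
    exact Subgroup.pow_mem _ hL k
  have hr1 : ∀ p₀ : {p : ℕ // p ∈ S}, resPhi S (Pi.mulSingle p₀ (rr p₀)) ∈ G := by
    intro p₀
    obtain ⟨k, hk1, hk0⟩ := res_crt S hS p₀.2
    have h1 : (Pi.mulSingle p₀ (rr p₀) : (p : {p : ℕ // p ∈ S}) → Equiv.Perm (Rp p)) =
        (fun p : {p : ℕ // p ∈ S} => rr p) ^ k := by
      funext p
      by_cases hp : p = p₀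
      · subst hp
        rw [Pi.mulSingle_eq_same, Pi.pow_apply, rr_pow_one hk1]
      · rw [Pi.mulSingle_eq_of_ne hp, Pi.pow_apply,
          rr_pow_zero (hk0 p.1 p.2 fun h => hp (Subtype.ext h))]
    rw [h1, map_pow]
    exact Subgroup.pow_mem _ hR k
  have hsingle : ∀ (p₀ : {p : ℕ // p ∈ S}) (h : Equiv.Perm (Rp p₀)),
      h ∈ Subgroup.closure ({rl p₀, rr p₀} : Set (Equiv.Perm (Rp p₀))) →
      resPhi S (Pi.mulSingle p₀ h) ∈ G := by
    intro p₀ h hh
    induction hh using Subgroup.closure_induction with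
    | mem h hh =>
      rcases hh with rfl | rfl
      · exact hl1 p₀
      · exact hr1 p₀
    | one =>
      rw [Pi.mulSingle_one, map_one]
      exact Subgroup.one_mem _
    | mul a b _ _ ha hb =>
      rw [Pi.mulSingle_mul, map_mul]
      exact Subgroup.mul_mem _ ha hb
    | inv a _ ha =>
      rw [Pi.mulSingle_inv, map_inv]
      exact Subgroup.inv_mem _ ha
  have hex : ∀ p : {p : ℕ // p ∈ S}, ∃ h ∈ Subgroup.closure
      ({rl p, rr p} : Set (Equiv.Perm (Rp p))), h (y p) = y' p := by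
    intro p
    obtain ⟨g, hg, hgy⟩ := hy p
    obtain ⟨g', hg', hgy'⟩ := hy' p
    refine ⟨g' * g⁻¹, Subgroup.mul_mem _ hg' (Subgroup.inv_mem _ hg), ?_⟩
    rw [Equiv.Perm.mul_apply, ← hgy, ← hgy']
    exact congrArg g' (Equiv.symm_apply_apply g (1, 2, 2))
  choose f hf hfy using hex
  refine ⟨resPhi S f, ?_, ?_⟩
  · have h2 : f ∈ G.comap (resPhi S) :=
      Subgroup.pi_mem_of_mulSingle_mem f fun p => hsingle p (f p) (hf p)
    exact h2
  · funext p
    exact hfy p

end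

end Pool.Agent.Lib.MP_0b748d_nt.HH
end
end
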