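import Pool.Agent.Lib.MP_0b748d_nt.HH.AvEE
import Pool.Agent.Lib.MP_0b748d_nt.HH.CmodC
import Pool.Agent.Lib.MP_0b748d_nt.HH.ResC
import Pool.Agent.Lib.MP_0b748d_nt.HH.PatA
import Pool.Agent.Lib.MP_0b748d_nt.HH.DecA
import Pool.Agent.Lib.MP_0b748d_nt.HH.TreeF

section

set_option autoImplicit false

/-!
# Entropy for finite weighted sets
-/

namespace Pool.Agent.Lib.MP_0b748d_nt.HH

noncomputable section

private theorem entG_nonneg {Ω α : Type*} (s : Finset Ω) (w : Ω → ℝ)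
    (hw : ∀ ω ∈ s, 0 ≤ w ω) (X : Ω → α) (a : α) : 0 ≤ pw s w X a := by
  classical
  exact Finset.sum_nonneg fun ω hω => hw ω (Finset.mem_of_mem_filter ω hω)

private theorem entG_le {Ω α β : Type*} (s : Finset Ω) (w : Ω → ℝ)
    (hw : ∀ ω ∈ s, 0 ≤ w ω) (X : Ω → α) (Y : Ω → β) (a : α) (b : β)
    (h : ∀ ω ∈ s, X ω = a → Y ω = b) : pw s w X a ≤ pw s w Y b := by
  classical
  unfold pw
  refine Finset.sum_le_sum_of_subset_of_nonneg ?_ ?_
  · intro ω hω
    rw [Finset.mem_filter] at hω ⊢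
    exact ⟨hω.1, h ω hω.1 hω.2⟩
  · intro ω hω _
    exact hw ω (Finset.mem_of_mem_filter ω hω)

private theorem entG_congr {Ω α β : Type*} (s : Finset Ω) (w : Ω → ℝ) (X : Ω → α) (Y : Ω → β)
    (a : α) (b : β) (h : ∀ ω ∈ s, X ω = a ↔ Y ω = b) : pw s w X a = pw s w Y b := by
  classical
  unfold pw
  refine Finset.sum_congr ?_ fun _ _ => rfl
  ext ω
  simp only [Finset.mem_filter]
  constructor
  · rintro ⟨h1, h2⟩
    exact ⟨h1, (h ω h1).1 h2⟩
  · rintro ⟨h1, h2⟩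
    exact ⟨h1, (h ω h1).2 h2⟩

private theorem entG_filter {Ω α β : Type*} (s : Finset Ω) (w : Ω → ℝ) (p : Ω → Prop)
    [DecidablePred p] (X : Ω → α) (Y : Ω → β)
    (a : α) (b : β) (h : ∀ ω ∈ s, X ω = a ↔ (p ω ∧ Y ω = b)) :
    pw s w X a = pw (s.filter p) w Y b := by
  classical
  unfold pw
  refine Finset.sum_congr ?_ fun _ _ => rfl
  ext ω
  simp only [Finset.mem_filter]
  constructor
  · rintro ⟨h1, h2⟩
    exact ⟨⟨h1, ((h ω h1).1 h2).1⟩, ((h ω h1).1 h2).2⟩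
  · rintro ⟨⟨h1, h2⟩, h3⟩
    exact ⟨h1, (h ω h1).2 ⟨h2, h3⟩⟩

open Classical in
/-- a variable which is constant off a set that is measurable for the conditioning -/
theorem Hc_restrict {Ω α γ : Type*} (s : Finset Ω) (w : Ω → ℝ) (hw : ∀ ω ∈ s, 0 ≤ w ω)
    (p : Ω → Prop) (x : Ω → α) (a0 : α) (Z : Ω → γ) :
    Hc s w (fun ω => if p ω then x ω else a0) (fun ω => (p ω, Z ω)) =
      Hc (s.filter p) w x Z := by
  unfold Hc
  rw [Finset.sum_filter]
  refine Finset.sum_congr rfl fun ω hω => ?_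
  by_cases hp : p ω
  · rw [if_pos hp]
    have e1 : pw s w (fun ω => (p ω, Z ω)) (p ω, Z ω) = pw (s.filter p) w Z (Z ω) := by
      refine entG_filter s w p _ _ _ _ ?_
      intro ω' _
      simp only [Prod.mk.injEq, hp, eq_iff_iff, iff_true]
    have e2 : pw s w (fun ω => ((if p ω then x ω else a0), (p ω, Z ω)))
        ((if p ω then x ω else a0), (p ω, Z ω)) =
        pw (s.filter p) w (fun ω => (x ω, Z ω)) (x ω, Z ω) := by
      refine entG_filter s w p _ _ _ _ ?_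
      intro ω' _
      simp only [Prod.mk.injEq, hp, eq_iff_iff, iff_true, if_true]
      constructor
      · rintro ⟨h1, h2, h3⟩
        rw [if_pos h2] at h1
        exact ⟨h2, h1, h3⟩
      · rintro ⟨h2, h1, h3⟩
        rw [if_pos h2]
        exact ⟨h1, h2, h3⟩
    simp only [e1, e2]
  · rw [if_neg hp]
    have e1 : pw s w (fun ω => ((if p ω then x ω else a0), (p ω, Z ω)))
        ((if p ω then x ω else a0), (p ω, Z ω)) =
        pw s w (fun ω => (p ω, Z ω)) (p ω, Z ω) := by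
      refine entG_congr s w _ _ _ _ ?_
      intro ω' _
      simp only [Prod.mk.injEq, hp, eq_iff_iff, iff_false, if_false]
      constructor
      · rintro ⟨_, h2, h3⟩
        exact ⟨h2, h3⟩
      · rintro ⟨h2, h3⟩
        rw [if_neg h2]
        exact ⟨rfl, h2, h3⟩
    simp only [e1]
    rcases eq_or_ne (pw s w (fun ω => (p ω, Z ω)) (p ω, Z ω)) 0 with h | h
    · simp [h]
    · simp [div_self h]

/-- injective changes of the conditioning variable -/
theorem Hc_inj {Ω α β γ : Type*} (s : Finset Ω) (w : Ω → ℝ) (X : Ω → α) (Y : Ω → β) (f : β → γ)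
    (hf : Function.Injective f) : Hc s w X (fun ω => f (Y ω)) = Hc s w X Y := by
  unfold Hc
  refine Finset.sum_congr rfl fun ω hω => ?_
  have e1 : pw s w (fun ω => f (Y ω)) (f (Y ω)) = pw s w Y (Y ω) := by
    refine entG_congr s w _ _ _ _ ?_
    intro ω' _
    exact hf.eq_iff
  have e2 : pw s w (fun ω => (X ω, f (Y ω))) (X ω, f (Y ω)) =
      pw s w (fun ω => (X ω, Y ω)) (X ω, Y ω) := by
    refine entG_congr s w _ _ _ _ ?_
    intro ω' _
    simp only [Prod.mk.injEq, hf.eq_iff]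
  rw [e1, e2]

private theorem entG_sigma {Ω ι α : Type*} (S : Finset ι) (s : ι → Finset Ω) (w : Ω → ℝ)
    (x : ι → Ω → α) (a : α) :
    pw (S.sigma s) (fun p => w p.2) (fun p => x p.1 p.2) a = ∑ j ∈ S, pw (s j) w (x j) a := by
  classical
  unfold pw
  rw [Finset.sum_filter, Finset.sum_sigma]
  refine Finset.sum_congr rfl fun j _ => ?_
  rw [Finset.sum_filter]

/-- superadditivity under disjoint unions: `log_sum` for each pair of values -/
theorem Hc_sigma {Ω ι α β : Type*} (S : Finset ι) (s : ι → Finset Ω) (w : Ω → ℝ)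
    (hw : ∀ j ∈ S, ∀ ω ∈ s j, 0 ≤ w ω) (x : ι → Ω → α) (y : ι → Ω → β) :
    ∑ j ∈ S, Hc (s j) w (x j) (y j) ≤ Hc (S.sigma s) (fun p => w p.2) (fun p => x p.1 p.2)
      (fun p => y p.1 p.2) := by
  classical
  have hA : ∀ j ∈ S, ∀ ω ∈ s j, x j ω ∈ S.biUnion (fun j => (s j).image (x j)) := by
    intro j hj ω hω
    rw [Finset.mem_biUnion]
    exact ⟨j, hj, Finset.mem_image_of_mem _ hω⟩
  have hB : ∀ j ∈ S, ∀ ω ∈ s j, y j ω ∈ S.biUnion (fun j => (s j).image (y j)) := by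
    intro j hj ω hω
    rw [Finset.mem_biUnion]
    exact ⟨j, hj, Finset.mem_image_of_mem _ hω⟩
  have hw' : ∀ p ∈ S.sigma s, 0 ≤ (fun p : (Σ _ : ι, Ω) => w p.2) p := by
    intro p hp
    rw [Finset.mem_sigma] at hp
    exact hw p.1 hp.1 p.2 hp.2
  rw [Hc_eq (S.sigma s) (fun p => w p.2) hw' (fun p => x p.1 p.2) (fun p => y p.1 p.2)
    (S.biUnion (fun j => (s j).image (x j))) (S.biUnion (fun j => (s j).image (y j)))
    (fun p hp => hA p.1 (Finset.mem_sigma.1 hp).1 p.2 (Finset.mem_sigma.1 hp).2)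
    (fun p hp => hB p.1 (Finset.mem_sigma.1 hp).1 p.2 (Finset.mem_sigma.1 hp).2)]
  rw [Finset.sum_congr rfl fun j hj => Hc_eq (s j) w (hw j hj) (x j) (y j)
    (S.biUnion (fun j => (s j).image (x j))) (S.biUnion (fun j => (s j).image (y j)))
    (hA j hj) (hB j hj)]
  rw [Finset.sum_comm]
  refine Finset.sum_le_sum fun a _ => ?_
  rw [Finset.sum_comm]
  refine Finset.sum_le_sum fun b _ => ?_
  have e1 := entG_sigma S s w (fun j ω => (x j ω, y j ω)) (a, b)
  have e2 := entG_sigma S s w y b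
  rw [e1, e2]
  refine log_sum S _ _ (fun j hj => entG_nonneg _ w (hw j hj) _ _)
    (fun j hj => entG_nonneg _ w (hw j hj) _ _) ?_
  intro j hj h
  refine le_antisymm ?_ (entG_nonneg _ w (hw j hj) _ _)
  rw [← h]
  exact entG_le _ w (hw j hj) _ _ _ _ (fun ω _ h1 => (Prod.ext_iff.1 h1).2)

end

end Pool.Agent.Lib.MP_0b748d_nt.HH
end

section

set_option autoImplicit false

/-!
# Entropy of limit laws
-/

namespace Pool.Agent.Lib.MP_0b748d_nt.HH

open Filter Topology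

noncomputable section

private theorem avec_term {x S : ℝ} (hx : 0 ≤ x) (hS : x ≤ S) :
    x * Real.log (S / x) = x * Real.log S + Real.negMulLog x := by
  rcases hx.eq_or_lt with h | h
  · rw [← h]
    simp
  · rw [Real.log_div (h.trans_le hS).ne' h.ne', Real.negMulLog]
    ring

private theorem avec_bs {x : ℕ → ℝ} (hx : Bs x) {f : ℝ → ℝ} (hf : Continuous f) :
    Bs (fun n => f (x n)) := by
  obtain ⟨C, hC⟩ := hx
  obtain ⟨K, hK⟩ := (isCompact_Icc (a := -C) (b := C)).exists_bound_of_continuousOn hf.continuousOn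
  exact ⟨K, fun n => hK _ (abs_le.1 (hC n))⟩

private theorem avec_nonneg (U : Ultrafilter ℕ) {x : ℕ → ℝ} (hx : Bs x) (h : ∀ n, 0 ≤ x n) :
    0 ≤ ul U x := ge_of_tendsto' (ul_tendsto U hx) h

/-- `x log (S / x) = x log S + negMulLog x` -/
theorem hc_eq_negMulLog {α β : Type*} (A : Finset α) (B : Finset β) (m : α → β → ℝ)
    (h0 : ∀ a ∈ A, ∀ b ∈ B, 0 ≤ m a b) :
    hc A B m = ∑ b ∈ B, (∑ a ∈ A, Real.negMulLog (m a b) - Real.negMulLog (∑ a ∈ A, m a b)) := by
  unfold hc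
  rw [Finset.sum_comm]
  refine Finset.sum_congr rfl fun b hb => ?_
  rw [Finset.sum_congr rfl fun a ha => avec_term (h0 a ha b hb)
    (Finset.single_le_sum (f := fun a => m a b) (fun a' ha' => h0 a' ha' b hb) ha),
    Finset.sum_add_distrib, ← Finset.sum_mul, Real.negMulLog]
  ring

theorem he_eq_negMulLog {α : Type*} (A : Finset α) (m : α → ℝ) (h0 : ∀ a ∈ A, 0 ≤ m a) :
    he A m = ∑ a ∈ A, Real.negMulLog (m a) - Real.negMulLog (∑ a ∈ A, m a) := by
  unfold he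
  rw [Finset.sum_congr rfl fun a ha => avec_term (h0 a ha)
    (Finset.single_le_sum (f := fun a => m a) (fun a' ha' => h0 a' ha') ha),
    Finset.sum_add_distrib, ← Finset.sum_mul, Real.negMulLog]
  ring

/-- `hc` commutes with the limit (`hc_eq_negMulLog`, `Real.continuous_negMulLog`, `ul_comp`,
`ul_sum`) -/
theorem ul_hc {α β : Type*} (U : Ultrafilter ℕ) (A : Finset α) (B : Finset β) (m : ℕ → α → β → ℝ)
    (h0 : ∀ n, ∀ a ∈ A, ∀ b ∈ B, 0 ≤ m n a b) (hb : ∀ a ∈ A, ∀ b ∈ B, Bs (fun n => m n a b)) :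
    Bs (fun n => hc A B (m n)) ∧
      ul U (fun n => hc A B (m n)) = hc A B (fun a b => ul U (fun n => m n a b)) := by
  have hc := Real.continuous_negMulLog
  have hs : ∀ b ∈ B, Bs (fun n => ∑ a ∈ A, m n a b) := fun b hb' =>
    Bs_sum A (fun a n => m n a b) fun a ha => hb a ha b hb'
  have e1 : (fun n => HH.hc A B (m n)) = fun n => ∑ b ∈ B,
      (∑ a ∈ A, Real.negMulLog (m n a b) + (-1) * Real.negMulLog (∑ a ∈ A, m n a b)) := by
    funext n
    rw [hc_eq_negMulLog A B (m n) (h0 n)]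
    exact Finset.sum_congr rfl fun b _ => by ring
  have hB : Bs (fun n => HH.hc A B (m n)) := by
    rw [e1]
    refine Bs_sum B _ fun b hb' => Bs_add (Bs_sum A (fun a n => Real.negMulLog (m n a b)) fun a ha =>
      avec_bs (hb a ha b hb') hc) (Bs_smul (-1) (avec_bs (hs b hb') hc))
  refine ⟨hB, ul_eq ?_⟩
  rw [hc_eq_negMulLog A B _ fun a ha b hb' => avec_nonneg U (hb a ha b hb') fun n => h0 n a ha b hb']
  have e2 : (fun n => HH.hc A B (m n)) = fun n => ∑ b ∈ B,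
      (∑ a ∈ A, Real.negMulLog (m n a b) - Real.negMulLog (∑ a ∈ A, m n a b)) :=
    funext fun n => hc_eq_negMulLog A B (m n) (h0 n)
  rw [e2]
  refine tendsto_finsetSum B fun b hb' => Tendsto.sub (tendsto_finsetSum A fun a ha => ?_) ?_
  · exact (hc.tendsto _).comp (ul_tendsto U (hb a ha b hb'))
  · exact (hc.tendsto _).comp (tendsto_finsetSum A fun a ha => ul_tendsto U (hb a ha b hb'))

theorem ul_he {α : Type*} (U : Ultrafilter ℕ) (A : Finset α) (m : ℕ → α → ℝ)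
    (h0 : ∀ n, ∀ a ∈ A, 0 ≤ m n a) (hb : ∀ a ∈ A, Bs (fun n => m n a)) :
    Bs (fun n => he A (m n)) ∧
      ul U (fun n => he A (m n)) = he A (fun a => ul U (fun n => m n a)) := by
  have hc := Real.continuous_negMulLog
  have hs : Bs (fun n => ∑ a ∈ A, m n a) := Bs_sum A (fun a n => m n a) hb
  have e1 : (fun n => he A (m n)) = fun n =>
      (∑ a ∈ A, Real.negMulLog (m n a) + (-1) * Real.negMulLog (∑ a ∈ A, m n a)) := by
    funext n
    rw [he_eq_negMulLog A (m n) (h0 n)]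
    ring
  have hB : Bs (fun n => he A (m n)) := by
    rw [e1]
    exact Bs_add (Bs_sum A (fun a n => Real.negMulLog (m n a)) fun a ha =>
      avec_bs (hb a ha) hc) (Bs_smul (-1) (avec_bs hs hc))
  refine ⟨hB, ul_eq ?_⟩
  rw [he_eq_negMulLog A _ fun a ha => avec_nonneg U (hb a ha) fun n => h0 n a ha]
  have e2 : (fun n => he A (m n)) = fun n =>
      (∑ a ∈ A, Real.negMulLog (m n a) - Real.negMulLog (∑ a ∈ A, m n a)) :=
    funext fun n => he_eq_negMulLog A (m n) (h0 n)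
  rw [e2]
  refine Tendsto.sub (tendsto_finsetSum A fun a ha => ?_) ?_
  · exact (hc.tendsto _).comp (ul_tendsto U (hb a ha))
  · exact (hc.tendsto _).comp (tendsto_finsetSum A fun a ha => ul_tendsto U (hb a ha))

end

end Pool.Agent.Lib.MP_0b748d_nt.HH
end

section

set_option autoImplicit false

/-!
# Entropy for finite weighted sets
-/

namespace Pool.Agent.Lib.MP_0b748d_nt.HH

noncomputable section

private theorem entF_subsingleton {Ω α γ : Type*} [Subsingleton α] (s : Finset Ω) (w : Ω → ℝ)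
    (X : Ω → α) (Z : Ω → γ) : Hc s w X Z = 0 := by
  classical
  unfold Hc
  refine Finset.sum_eq_zero fun ω _ => ?_
  have e : pw s w (fun ω => (X ω, Z ω)) (X ω, Z ω) = pw s w Z (Z ω) := by
    unfold pw
    refine Finset.sum_congr ?_ fun _ _ => rfl
    ext ω'
    simp only [Finset.mem_filter, Prod.mk.injEq]
    constructor
    · rintro ⟨h1, _, h2⟩
      exact ⟨h1, h2⟩
    · rintro ⟨h1, h2⟩
      exact ⟨h1, Subsingleton.elim _ _, h2⟩
  rw [e]
  rcases eq_or_ne (pw s w Z (Z ω)) 0 with h | h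
  · rw [h]; simp
  · rw [div_self h]; simp

/-- subadditivity over a finite family (induction on `S` with `Hc_pair`, `Hc_anti`, `Hc_mono`) -/
theorem Hc_family {Ω ι α γ : Type*} (s : Finset Ω) (w : Ω → ℝ) (hw : ∀ ω ∈ s, 0 ≤ w ω)
    (S : Finset ι) (x : ι → Ω → α) (Z : Ω → γ) :
    Hc s w (fun ω => fun j : S => x j ω) Z ≤ ∑ j ∈ S, Hc s w (x j) Z := by
  classical
  induction S using Finset.induction_on with
  | empty =>
    rw [Finset.sum_empty]
    exact le_of_eq (entF_subsingleton s w _ Z)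
  | insert i S hi ih =>
    rw [Finset.sum_insert hi]
    have h1 : Hc s w (fun ω => fun j : (insert i S : Finset ι) => x j ω) Z ≤
        Hc s w (fun ω => (x i ω, fun j : S => x j ω)) Z := by
      refine Hc_mono s w hw _ _ _ ?_
      intro ω _ ω' _ h _
      have h2 := Prod.ext_iff.1 h
      funext j
      rcases Finset.mem_insert.1 j.2 with h3 | h3
      · rw [h3]
        exact h2.1
      · exact congrFun h2.2 ⟨j, h3⟩
    have h2 := Hc_pair s w hw (x i) (fun ω => fun j : S => x j ω) Z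
    have h3 : Hc s w (x i) (fun ω => ((fun j : S => x j ω), Z ω)) ≤ Hc s w (x i) Z := by
      refine Hc_anti s w hw _ _ _ ?_
      intro ω _ ω' _ h
      exact (Prod.ext_iff.1 h).2
    linarith

end

end Pool.Agent.Lib.MP_0b748d_nt.HH
end

section

set_option autoImplicit false

/-!
# Entropy for finite weighted sets
-/

namespace Pool.Agent.Lib.MP_0b748d_nt.HH

noncomputable section

private theorem entH_pw_map {Ω Ω' α : Type*} (e : Ω ≃ Ω') (s : Finset Ω) (w : Ω' → ℝ)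
    (X : Ω' → α) (a : α) :
    pw (s.map e.toEmbedding) w X a = pw s (fun ω => w (e ω)) (fun ω => X (e ω)) a := by
  classical
  unfold pw
  rw [Finset.sum_filter, Finset.sum_map, Finset.sum_filter]
  rfl

private theorem entH_map {Ω Ω' α β : Type*} (e : Ω ≃ Ω') (s : Finset Ω) (w : Ω' → ℝ)
    (X : Ω' → α) (Y : Ω' → β) :
    Hc (s.map e.toEmbedding) w X Y =
      Hc s (fun ω => w (e ω)) (fun ω => X (e ω)) (fun ω => Y (e ω)) := by
  unfold Hc
  rw [Finset.sum_map]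
  refine Finset.sum_congr rfl fun ω _ => ?_
  rw [entH_pw_map, entH_pw_map]
  rfl

open Classical in
/-- **The entropy step.** `X'` is determined by the finite set `Γ` and the variables `x m`, `m ∈ Γ`.
Proof. Let `S` be the union of the sets `Γ ω`, `ω ∈ s`, and `x* m ω = some (x m ω)` if `m ∈ Γ ω`,
`none` otherwise. `Hc X' Y ≤ Hc (Γ, (x* m)_{m ∈ S}) Y = Hc Γ Y + Hc ((x* m)_m | Γ, Y) ≤
He Γ + ∑_{m ∈ S} Hc (x* m | Γ, Y)` (`Hc_mono`, `Hc_pair`, `Hc_le_He`, `Hc_family`),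
`Hc (x* m | Γ, Y) ≤ Hc (x* m | [m ∈ Γ], Y)` (`Hc_anti`) `= Hc (s.filter (m ∈ Γ ·)) (x m | Y)`
(`Hc_restrict`) and the conditioning variable may be replaced by `τ m Y` (`Hc_inj`). Sum over `m ∈ S`
with `Hc_sigma`, and identify the sigma type over `S` with that over `s` (a bijection preserving
weights and variables). -/
theorem ent_step {Ω ι α α' β : Type*} (s : Finset Ω) (w : Ω → ℝ) (hw : ∀ ω ∈ s, 0 ≤ w ω)
    (Γ : Ω → Finset ι) (x : ι → Ω → α) (Y : Ω → β) (τ : ι → β → β)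
    (hτ : ∀ m, Function.Injective (τ m)) (X' : Ω → α')
    (hX : ∀ ω ∈ s, ∀ ω' ∈ s, Γ ω = Γ ω' → (∀ m ∈ Γ ω, x m ω = x m ω') → X' ω = X' ω') :
    Hc s w X' Y ≤ He s w Γ +
      Hc (s.sigma (fun ω => Γ ω)) (fun p => w p.1) (fun p => x p.2 p.1) (fun p => τ p.2 (Y p.1)) := by
  set S : Finset ι := s.biUnion Γ with hS
  set xs : ι → Ω → Option α := fun m ω =>
    @ite _ (m ∈ Γ ω) (Classical.propDecidable _) (some (x m ω)) none with hxs
  set F : ι → Finset Ω := fun m =>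
    @Finset.filter Ω (fun ω => m ∈ Γ ω) (fun ω => Classical.propDecidable _) s with hF
  have hmF : ∀ m ω, ω ∈ F m ↔ (ω ∈ s ∧ m ∈ Γ ω) := fun m ω =>
    @Finset.mem_filter Ω (fun ω => m ∈ Γ ω) (fun ω => Classical.propDecidable _) s ω
  have h1 : Hc s w X' Y ≤ Hc s w (fun ω => ((fun j : S => xs j ω), Γ ω)) Y := by
    refine Hc_mono s w hw _ _ _ ?_
    intro ω hω ω' hω' h _
    have h2 := Prod.ext_iff.1 h
    refine hX ω hω ω' hω' h2.2 ?_
    intro m hm
    have hmS : m ∈ S := by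
      rw [hS, Finset.mem_biUnion]
      exact ⟨ω, hω, hm⟩
    have hm' : m ∈ Γ ω' := by
      have h3 : Γ ω = Γ ω' := h2.2
      rw [← h3]
      exact hm
    have h3 : xs m ω = xs m ω' := congrFun h2.1 ⟨m, hmS⟩
    simp only [hxs, if_pos hm, if_pos hm'] at h3
    exact Option.some.inj h3
  have h2 := Hc_pair s w hw (fun ω => fun j : S => xs j ω) Γ Y
  have h3 := Hc_le_He s w hw Γ Y
  have h4 := Hc_family s w hw S xs (fun ω => (Γ ω, Y ω))
  have h5 : ∀ m ∈ S, Hc s w (xs m) (fun ω => (Γ ω, Y ω)) ≤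
      Hc (F m) w (x m) (fun ω => τ m (Y ω)) := by
    intro m _
    have h6 : Hc s w (xs m) (fun ω => (Γ ω, Y ω)) ≤ Hc s w (xs m) (fun ω => (m ∈ Γ ω, Y ω)) := by
      refine Hc_anti s w hw _ _ _ ?_
      intro ω _ ω' _ h
      have h7 := Prod.ext_iff.1 h
      have h8 : Γ ω = Γ ω' := h7.1
      refine Prod.ext ?_ h7.2
      simp only [h8]
    have h7 := Hc_restrict s w hw (fun ω => m ∈ Γ ω) (fun ω => some (x m ω)) none Y
    have h8 : Hc (F m) w (fun ω => some (x m ω)) Y ≤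
        Hc (F m) w (x m) Y := by
      refine Hc_mono _ w (fun ω hω => hw ω ((hmF m ω).1 hω).1) _ _ _ ?_
      intro ω _ ω' _ h _
      rw [h]
    have h9 := Hc_inj (F m) w (x m) Y (τ m) (hτ m)
    rw [h9]
    exact (h6.trans (le_of_eq h7)).trans h8
  have h6 := Finset.sum_le_sum h5
  have h7 := Hc_sigma S F w
    (fun m _ ω hω => hw ω ((hmF m ω).1 hω).1) x (fun m ω => τ m (Y ω))
  let e : (Σ _ : Ω, ι) ≃ (Σ _ : ι, Ω) :=
    ⟨fun p => ⟨p.2, p.1⟩, fun p => ⟨p.2, p.1⟩, fun _ => rfl, fun _ => rfl⟩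
  have h8 : S.sigma F =
      (s.sigma (fun ω => Γ ω)).map e.toEmbedding := by
    ext ⟨m, ω⟩
    rw [Finset.mem_map_equiv]
    simp only [Finset.mem_sigma, hmF]
    change (m ∈ S ∧ ω ∈ s ∧ m ∈ Γ ω) ↔ (ω ∈ s ∧ m ∈ Γ ω)
    constructor
    · exact fun h => h.2
    · intro h
      refine ⟨?_, h⟩
      rw [hS, Finset.mem_biUnion]
      exact ⟨ω, h.1, h.2⟩
  rw [h8, entH_map] at h7
  have h9 : Hc (s.sigma (fun ω => Γ ω)) (fun p => w (e p).2) (fun p => x (e p).1 (e p).2)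
      (fun p => τ (e p).1 (Y (e p).2)) =
      Hc (s.sigma (fun ω => Γ ω)) (fun p => w p.1) (fun p => x p.2 p.1)
        (fun p => τ p.2 (Y p.1)) := rfl
  rw [h9] at h7
  linarith

end

end Pool.Agent.Lib.MP_0b748d_nt.HH
end

section

set_option autoImplicit false

/-!
# Patterns: recursively reached vectors
-/

namespace Pool.Agent.Lib.MP_0b748d_nt.HH

open Filter Topology

noncomputable section

private theorem patB_tt (l n i : ℕ) : tt n (i + l * n) ≤ 2 ^ l * tt n i := by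
  rcases Nat.eq_zero_or_pos n with h | h
  · subst h
    have h1 : (1 : ℝ) ≤ 2 ^ l := one_le_pow₀ (by norm_num)
    have h2 := tt_pos 0 i
    simp only [Nat.mul_zero, Nat.add_zero]
    nlinarith
  · exact (tt_add n h i l).le

private theorem patB_bd {δ T T' D : ℝ} {l : ℕ} (hδ : 0 < δ) (hT : 0 < T) (hTT : T' ≤ 2 ^ l * T)
    (hD : δ * T ≤ D) {a : ℕ} (h : D * (a : ℝ) ^ 2 ≤ T') : a ≤ ⌊√(2 ^ l / δ)⌋₊ := by
  apply Nat.le_floor
  apply Real.le_sqrt_of_sq_le
  rw [le_div_iff₀ hδ]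
  have h1 : δ * T * (a : ℝ) ^ 2 ≤ D * (a : ℝ) ^ 2 := mul_le_mul_of_nonneg_right hD (by positivity)
  have h2 : ((a : ℝ) ^ 2 * δ) * T ≤ 2 ^ l * T := by nlinarith
  exact le_of_mul_le_mul_right h2 hT

/-- `M.Dt 1`, `Q.act M ∈ Cl (2 ^ l T)` and `Q` good: `Q.d * M.a ^ 2 ≤ 2 ^ l T` and `Q.d ≥ δ T`, so
`M.a ≤ √(2 ^ l / δ)`, and similarly for the other entries. -/
theorem Gm_box {δ : ℝ} (hδ : 0 < δ) (l n i : ℕ) {Q : Fm} (hQ : Q ∈ Cl (tt n i)) :
    Gm δ l n i Q ⊆ Bx ⌊√(2 ^ l / δ)⌋₊ := by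
  classical
  have hT := tt_pos n i
  have hQ' := (mem_Cl hT.le).1 hQ
  intro M hM
  unfold Gm at hM
  split_ifs at hM with hg
  · have hM1 := (Finset.mem_filter.1 hM).1
    have hM2 := (mem_Dn (tt_pos n (i + l * n)).le hQ'.1).1 hM1
    have hM3 := (mem_Cl (tt_pos n (i + l * n)).le).1 hM2.2
    have hTT := patB_tt l n i
    have hd : (Q.d : ℝ) * (M.a : ℝ) ^ 2 + 2 * Q.n * ((M.a : ℝ) * M.c) + Q.e * (M.c : ℝ) ^ 2 ≤
        tt n (i + l * n) := by
      have := hM3.2.1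
      simp only [Fm.act, Fm.val] at this
      push_cast at this
      exact this
    have he : (Q.d : ℝ) * (M.b : ℝ) ^ 2 + 2 * Q.n * ((M.b : ℝ) * M.d) + Q.e * (M.d : ℝ) ^ 2 ≤
        tt n (i + l * n) := by
      have := hM3.2.2.1
      simp only [Fm.act, Fm.val] at this
      push_cast at this
      exact this
    have p1 : (0 : ℝ) ≤ 2 * Q.n * ((M.a : ℝ) * M.c) := by positivity
    have p2 : (0 : ℝ) ≤ 2 * Q.n * ((M.b : ℝ) * M.d) := by positivity
    have p3 : (0 : ℝ) ≤ (Q.d : ℝ) * (M.a : ℝ) ^ 2 := by positivity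
    have p4 : (0 : ℝ) ≤ (Q.e : ℝ) * (M.c : ℝ) ^ 2 := by positivity
    have p5 : (0 : ℝ) ≤ (Q.d : ℝ) * (M.b : ℝ) ^ 2 := by positivity
    have p6 : (0 : ℝ) ≤ (Q.e : ℝ) * (M.d : ℝ) ^ 2 := by positivity
    exact mem_Bx.2 ⟨patB_bd hδ hT hTT hg.1 (by linarith), patB_bd hδ hT hTT hg.1 (by linarith),
      patB_bd hδ hT hTT hg.2 (by linarith), patB_bd hδ hT hTT hg.2 (by linarith)⟩
  · simp at hM

theorem Gm_Dn (δ : ℝ) (l n i : ℕ) (Q : Fm) : Gm δ l n i Q ⊆ Dn (tt n (i + l * n)) Q := by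
  classical
  intro M hM
  unfold Gm at hM
  split_ifs at hM with hg
  · exact (Finset.mem_filter.1 hM).1
  · simp at hM

/-- `Gm_box`: the values of `Gm` lie in the powerset of a box with at most
`(√(2 ^ l / δ) + 1) ^ 4 ≤ 16 * 4 ^ l / δ ^ 2` elements (`δ ≤ 1`) -/
theorem Gm_range {δ : ℝ} (hδ : 0 < δ) (hδ1 : δ ≤ 1) (l : ℕ) : ∃ G : Finset (Finset Mt),
    Rg (Gm δ l) G ∧ Real.log G.card ≤ 16 * 4 ^ l / δ ^ 2 := by
  classical
  refine ⟨(Bx ⌊√(2 ^ l / δ)⌋₊).powerset, ?_, ?_⟩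
  · intro n i Q hQ
    exact Finset.mem_powerset.2 (Gm_box hδ l n i hQ)
  · have hx1 : (1 : ℝ) ≤ 2 ^ l / δ := by
      rw [le_div_iff₀ hδ]
      have : (1 : ℝ) ≤ 2 ^ l := one_le_pow₀ (by norm_num)
      linarith
    have hs1 : (1 : ℝ) ≤ √(2 ^ l / δ) := by
      rw [Real.one_le_sqrt]; exact hx1
    have hb : ((⌊√(2 ^ l / δ)⌋₊ : ℕ) : ℝ) ≤ √(2 ^ l / δ) := Nat.floor_le (Real.sqrt_nonneg _)
    have hsq : √(2 ^ l / δ) ^ 2 = 2 ^ l / δ := Real.sq_sqrt (by linarith)
    set b := ⌊√(2 ^ l / δ)⌋₊ with hbdef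
    set s := √(2 ^ l / δ) with hsdef
    have hcard : (Bx b).card ≤ (b + 1) ^ 4 := by
      unfold Bx
      refine Finset.card_image_le.trans ?_
      rw [Finset.card_product, Finset.card_product, Finset.card_range]
      exact le_of_eq (by ring)
    have hlog2 : Real.log 2 ≤ 1 := by
      have := Real.log_le_sub_one_of_pos (show (0 : ℝ) < 2 by norm_num)
      linarith
    rw [Finset.card_powerset]
    push_cast
    rw [Real.log_pow]
    have h1 : ((Bx b).card : ℝ) ≤ ((b : ℝ) + 1) ^ 4 := by exact_mod_cast hcard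
    have h2 : ((b : ℝ) + 1) ^ 4 ≤ (2 * s) ^ 4 := by
      apply pow_le_pow_left₀ (by positivity)
      linarith
    have h3 : (2 * s) ^ 4 = 16 * 4 ^ l / δ ^ 2 := by
      have : (2 * s) ^ 4 = 16 * (s ^ 2) ^ 2 := by ring
      rw [this, hsq, div_pow, ← pow_mul, mul_comm l 2, pow_mul]
      norm_num
      ring
    have h4 : ((Bx b).card : ℝ) * Real.log 2 ≤ (Bx b).card * 1 :=
      mul_le_mul_of_nonneg_left hlog2 (by positivity)
    linarith

end

end Pool.Agent.Lib.MP_0b748d_nt.HH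
end

section

set_option autoImplicit false

/-!
# Patterns: recursively reached vectors
-/

namespace Pool.Agent.Lib.MP_0b748d_nt.HH

open Filter Topology

noncomputable section

/-- the reached vectors are bounded: induction on `k` with `Gm_box` -/
theorem reach_box (P : Par) (hδ : 0 < P.δ) (hδ1 : P.δ ≤ 1) (k : ℕ) : ∃ b : ℕ, ∀ n i,
    ∀ Q ∈ Cl (tt n i), reach P k n i Q ⊆ Finset.range b ×ˢ Finset.range b := by
  classical
  induction k with
  | zero =>
    refine ⟨P.R0 * P.m + 1, ?_⟩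
    intro n i Q _ v hv
    unfold reach at hv
    split_ifs at hv with hg
    · exact (Finset.mem_filter.1 hv).1
    · simp at hv
  | succ k ih =>
    obtain ⟨b, hb⟩ := ih
    refine ⟨2 * ⌊√(2 ^ (P.l k) / P.δ)⌋₊ * b + 1, ?_⟩
    intro n i Q hQ v hv
    unfold reach at hv
    rw [Finset.mem_biUnion] at hv
    obtain ⟨M, hM, hv⟩ := hv
    obtain ⟨w, hw, rfl⟩ := Finset.mem_image.1 hv
    have hB := mem_Bx.1 (Gm_box hδ (P.l k) n i hQ hM)
    have hQok := ((mem_Cl (tt_pos n i).le).1 hQ).1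
    have hQM := ((mem_Dn (tt_pos n (i + P.l k * n)).le hQok).1 (Gm_Dn P.δ (P.l k) n i Q hM)).2
    have hw2 := Finset.mem_product.1 (hb n (i + P.l k * n) _ hQM hw)
    have hw3 := Finset.mem_range.1 hw2.1
    have hw4 := Finset.mem_range.1 hw2.2
    set B := ⌊√(2 ^ (P.l k) / P.δ)⌋₊
    have e1 : M.a * w.1 + M.b * w.2 ≤ B * b + B * b :=
      Nat.add_le_add (Nat.mul_le_mul hB.1 hw3.le) (Nat.mul_le_mul hB.2.1 hw4.le)
    have e2 : M.c * w.1 + M.d * w.2 ≤ B * b + B * b :=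
      Nat.add_le_add (Nat.mul_le_mul hB.2.2.1 hw3.le) (Nat.mul_le_mul hB.2.2.2 hw4.le)
    have e3 : 2 * B * b = B * b + B * b := by ring
    rw [Finset.mem_product, Finset.mem_range, Finset.mem_range]
    constructor
    · simp only [Mt.im]
      omega
    · simp only [Mt.im]
      omega

/-- `reach_box`, `V3` -/
theorem Xp_range (P : Par) (hδ : 0 < P.δ) (hδ1 : P.δ ≤ 1) {F G : ℕ → ℕ → ℤ} (hF : V3 F) (hG : V3 G)
    (k : ℕ) : ∃ A : Finset Pt, Rg (Xp P F G k) A := by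
  classical
  obtain ⟨b, hb⟩ := reach_box P hδ hδ1 k
  have hV : ∀ (H : ℕ → ℕ → ℤ), V3 H → ∀ n m, H n m ∈ ({0, 1, -1} : Finset ℤ) := by
    intro H hH n m
    rcases hH n m with h | h | h <;> rw [h] <;> decide
  refine ⟨((Finset.range b ×ˢ Finset.range b) ×ˢ
    (({0, 1, -1} : Finset ℤ) ×ˢ ({0, 1, -1} : Finset ℤ))).powerset, ?_⟩
  intro n i Q hQ
  rw [Finset.mem_powerset]
  intro x hx
  unfold Xp gr at hx
  obtain ⟨v, hv, rfl⟩ := Finset.mem_image.1 hx
  exact Finset.mem_product.2 ⟨hb n i Q hQ hv,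
    Finset.mem_product.2 ⟨hV F hF n _, hV G hG n _⟩⟩

private theorem patC_succ (P : Par) (F G : ℕ → ℕ → ℤ) (k n i : ℕ) (Q : Fm) (x : (ℕ × ℕ) × (ℤ × ℤ)) :
    x ∈ Xp P F G (k + 1) n i Q ↔ ∃ M ∈ Gm P.δ (P.l k) n i Q,
      ∃ y ∈ Xp P F G k n (i + P.l k * n) (Q.act M), x = (M.im y.1, y.2) := by
  classical
  constructor
  · intro hx
    unfold Xp gr at hx
    obtain ⟨v, hv, rfl⟩ := Finset.mem_image.1 hx
    unfold reach at hv
    rw [Finset.mem_biUnion] at hv
    obtain ⟨M, hM, hv⟩ := hv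
    obtain ⟨w, hw, rfl⟩ := Finset.mem_image.1 hv
    refine ⟨M, hM, (w, (F n ((Q.act M).val w.1 w.2), G n ((Q.act M).val w.1 w.2))), ?_, ?_⟩
    · unfold Xp gr
      exact Finset.mem_image.2 ⟨w, hw, rfl⟩
    · simp only [val_act, Mt.im]
  · rintro ⟨M, hM, y, hy, rfl⟩
    unfold Xp gr at hy
    obtain ⟨w, hw, rfl⟩ := Finset.mem_image.1 hy
    unfold Xp gr
    refine Finset.mem_image.2 ⟨M.im w, ?_, ?_⟩
    · unfold reach
      exact Finset.mem_biUnion.2 ⟨M, hM, Finset.mem_image.2 ⟨w, hw, rfl⟩⟩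
    · simp only [val_act, Mt.im]

/-- the pattern of scale `k + 1` is the union over `M ∈ Gm` of the images of the patterns of scale `k`
of `Q.act M` under `(w, x) ↦ (M.im w, x)` (`val_act`) -/
theorem Xp_succ (P : Par) (F G : ℕ → ℕ → ℤ) (k n i i' : ℕ) (Q Q' : Fm)
    (h : Gm P.δ (P.l k) n i Q = Gm P.δ (P.l k) n i' Q')
    (h' : ∀ M ∈ Gm P.δ (P.l k) n i Q,
      Xp P F G k n (i + P.l k * n) (Q.act M) = Xp P F G k n (i' + P.l k * n) (Q'.act M)) :
    Xp P F G (k + 1) n i Q = Xp P F G (k + 1) n i' Q' := by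
  ext x
  rw [patC_succ, patC_succ]
  constructor
  · rintro ⟨M, hM, y, hy, hx⟩
    refine ⟨M, h ▸ hM, y, ?_, hx⟩
    rw [← h' M hM]
    exact hy
  · rintro ⟨M, hM, y, hy, hx⟩
    have hM' : M ∈ Gm P.δ (P.l k) n i Q := by rw [h]; exact hM
    refine ⟨M, hM', y, ?_, hx⟩
    rw [h' M hM']
    exact hy

end

end Pool.Agent.Lib.MP_0b748d_nt.HH
end

section

set_option autoImplicit false

/-!
# Entropy decrement
-/

namespace Pool.Agent.Lib.MP_0b748d_nt.HH

open Filter Topology MR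

noncomputable section

private theorem RS_finite (S : Finset ℕ) (hS : ∀ p ∈ S, p.Prime) : Finite (RS S) := by
  have h : ∀ p : {p : ℕ // p ∈ S}, Finite (Rp p) := fun p => by
    have : NeZero (p : ℕ) := ⟨(hS p p.2).ne_zero⟩
    infer_instance
  infer_instance

theorem OrbS_finite (S : Finset ℕ) (hS : ∀ p ∈ S, p.Prime) : (OrbS S).Finite := by
  have := RS_finite S hS
  exact Set.toFinite _

open Classical in
/-- the finite set of families of residues -/
def OF (S : Finset ℕ) : Finset (RS S) := if h : (OrbS S).Finite then h.toFinset else ∅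

theorem mem_OF {S : Finset ℕ} (hS : ∀ p ∈ S, p.Prime) {y : RS S} : y ∈ OF S ↔ y ∈ OrbS S := by
  unfold OF
  rw [dif_pos (OrbS_finite S hS), Set.Finite.mem_toFinset]

theorem OF_card (S : Finset ℕ) (hS : ∀ p ∈ S, p.Prime) (N : ℕ) (hN : ∀ p ∈ S, p ≤ N) :
    Real.log (OF S).card ≤ 3 * S.card * Real.log N := by
  have := RS_finite S hS
  have h1 : (OF S).card ≤ Nat.card (RS S) := by
    have := Fintype.ofFinite (RS S)
    rw [Nat.card_eq_fintype_card]
    exact Finset.card_le_univ _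
  have h2 : Nat.card (RS S) ≤ (N ^ 3) ^ S.card := by
    rw [Nat.card_pi]
    calc ∏ p : {p : ℕ // p ∈ S}, Nat.card (Rp p) ≤ ∏ _p : {p : ℕ // p ∈ S}, N ^ 3 := by
          refine Finset.prod_le_prod' fun p _ => ?_
          rw [Nat.card_prod, Nat.card_prod, Nat.card_zmod]
          have := hN p p.2
          calc (p : ℕ) * (p * p) = (p : ℕ) ^ 3 := by ring
            _ ≤ N ^ 3 := Nat.pow_le_pow_left this 3
      _ = (N ^ 3) ^ S.card := by
          rw [Finset.prod_const, Finset.card_univ, Fintype.card_coe]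
  have hN0 : 0 ≤ Real.log N := Real.log_natCast_nonneg N
  rcases Nat.eq_zero_or_pos (OF S).card with h0 | h0
  · rw [h0]
    simp only [Nat.cast_zero, Real.log_zero]
    positivity
  · have h3 : ((OF S).card : ℝ) ≤ ((N : ℝ) ^ 3) ^ S.card := by
      exact_mod_cast h1.trans h2
    have h4 := Real.log_le_log (by exact_mod_cast h0) h3
    rw [Real.log_pow, Real.log_pow] at h4
    refine h4.trans (le_of_eq ?_)
    push_cast
    ring

/-- the residue variable -/
def Yv (S : Finset ℕ) : ℕ → ℕ → Fm → RS S := fun _ _ Q => resS S Q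

theorem Yv_range (S : Finset ℕ) (hS : ∀ p ∈ S, p.Prime) : Rg (Yv S) (OF S) := by
  intro n i Q hQ
  rw [mem_OF hS]
  intro p
  have h0 : 0 ≤ tt n i := by
    unfold tt
    positivity
  exact res_mem ((mem_Cl h0).1 hQ).1 p

/-- `OF_card`, `PP_card_le` -/
theorem OF_PP : ∃ C : ℝ, 1 ≤ C ∧ ∀ P : ℕ, 2 ≤ P → Real.log (OF (PP P)).card ≤ C * P := by
  obtain ⟨C, hC1, hC⟩ := PP_card_le
  refine ⟨6 * C, by linarith, fun P hP => ?_⟩
  have h1 := OF_card (PP P) (PP_prime P) (2 * P) (fun p hp => by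
    classical
    unfold PP at hp
    have := (Finset.mem_Ico.1 (Finset.mem_filter.1 hp).1).2
    omega)
  have h2 := hC P hP
  have hP0 : (0 : ℝ) < P := by
    have : 0 < P := by omega
    exact_mod_cast this
  have h3 : Real.log ((2 * P : ℕ) : ℝ) ≤ 2 * Real.log P := by
    rw [Nat.cast_mul, Real.log_mul (by norm_num) hP0.ne']
    have : Real.log ((2 : ℕ) : ℝ) ≤ Real.log P :=
      Real.log_le_log (by norm_num) (by exact_mod_cast hP)
    linarith
  have h4 : (0 : ℝ) ≤ 3 * (PP P).card := by positivity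
  have h5 := mul_le_mul_of_nonneg_left h3 h4
  calc Real.log (OF (PP P)).card ≤ 3 * (PP P).card * Real.log ((2 * P : ℕ) : ℝ) := h1
    _ ≤ 3 * (PP P).card * (2 * Real.log P) := h5
    _ = 6 * (((PP P).card : ℝ) * Real.log P) := by ring
    _ ≤ 6 * (C * P) := by linarith
    _ = 6 * C * P := by ring

end

end Pool.Agent.Lib.MP_0b748d_nt.HH
end

section

set_option autoImplicit false

/-!
# Entropy of limit laws
-/

namespace Pool.Agent.Lib.MP_0b748d_nt.HH

open Filter Topology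

noncomputable section

private theorem aved_pw_nonneg {Ω α : Type*} (s : Finset Ω) (w : Ω → ℝ)
    (hw : ∀ ω ∈ s, 0 ≤ w ω) (X : Ω → α) (a : α) : 0 ≤ pw s w X a := by
  classical
  exact Finset.sum_nonneg fun ω hω => hw ω (Finset.mem_of_mem_filter ω hω)

open Classical in
private theorem aved_pw_eq {Ω α : Type*} (s : Finset Ω) (w : Ω → ℝ) (X : Ω → α) (a : α) :
    pw s w X a = ∑ ω ∈ s, w ω * (if X ω = a then (1 : ℝ) else 0) := by
  unfold pw
  rw [Finset.sum_filter]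
  refine Finset.sum_congr rfl fun ω _ => ?_
  by_cases h : X ω = a
  · rw [if_pos h, if_pos h, mul_one]
  · rw [if_neg h, if_neg h, mul_zero]

/-- marginals -/
private theorem aved_marg {Ω α β : Type*} (s : Finset Ω) (w : Ω → ℝ) (X : Ω → α) (Y : Ω → β)
    (A : Finset α) (hA : ∀ ω ∈ s, X ω ∈ A) (b : β) :
    ∑ a ∈ A, pw s w (fun ω => (X ω, Y ω)) (a, b) = pw s w Y b := by
  classical
  simp only [aved_pw_eq]
  rw [Finset.sum_comm]
  refine Finset.sum_congr rfl fun ω hω => ?_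
  rw [← Finset.mul_sum]
  congr 1
  by_cases h : Y ω = b
  · rw [if_pos h, Finset.sum_eq_single (X ω)]
    · rw [if_pos (Prod.ext rfl h : ((X ω, Y ω) : α × β) = (X ω, b))]
    · intro a _ hne
      rw [if_neg]
      intro h1
      exact hne (Prod.ext_iff.1 h1).1.symm
    · intro h1
      exact absurd (hA ω hω) h1
  · rw [if_neg h]
    refine Finset.sum_eq_zero fun a _ => ?_
    rw [if_neg]
    intro h1
    exact h (Prod.ext_iff.1 h1).2

private theorem aved_marg1 {Ω α : Type*} (s : Finset Ω) (w : Ω → ℝ) (X : Ω → α)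
    (A : Finset α) (hA : ∀ ω ∈ s, X ω ∈ A) :
    ∑ a ∈ A, pw s w X a = ∑ ω ∈ s, w ω := by
  classical
  simp only [aved_pw_eq]
  rw [Finset.sum_comm]
  refine Finset.sum_congr rfl fun ω hω => ?_
  rw [← Finset.mul_sum, Finset.sum_ite_eq, if_pos (hA ω hω), mul_one]

private theorem aved_Hc {Ω α β : Type*} (s : Finset Ω) (w : Ω → ℝ) (hw : ∀ ω ∈ s, 0 ≤ w ω)
    (X : Ω → α) (Y : Ω → β) (A : Finset α) (B : Finset β) (hA : ∀ ω ∈ s, X ω ∈ A)
    (hB : ∀ ω ∈ s, Y ω ∈ B) :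
    Hc s w X Y = hc A B (fun a b => pw s w (fun ω => (X ω, Y ω)) (a, b)) := by
  rw [Hc_eq s w hw X Y A B hA hB]
  unfold hc
  refine Finset.sum_congr rfl fun a _ => Finset.sum_congr rfl fun b _ => ?_
  rw [aved_marg s w X Y A hA b]

private theorem aved_He {Ω α : Type*} (s : Finset Ω) (w : Ω → ℝ) (hw : ∀ ω ∈ s, 0 ≤ w ω)
    (X : Ω → α) (A : Finset α) (hA : ∀ ω ∈ s, X ω ∈ A) :
    He s w X = he A (fun a => pw s w X a) := by
  rw [He_eq s w hw X A hA]
  unfold he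
  refine Finset.sum_congr rfl fun a _ => ?_
  rw [aved_marg1 s w X A hA]

private theorem aved_Hc_congr {Ω α β : Type*} (s : Finset Ω) (w : Ω → ℝ) (X : Ω → α)
    (Y Y' : Ω → β) (h : ∀ ω ∈ s, Y ω = Y' ω) : Hc s w X Y = Hc s w X Y' := by
  classical
  unfold Hc
  refine Finset.sum_congr rfl fun ω hω => ?_
  have e1 : pw s w Y (Y ω) = pw s w Y' (Y' ω) := by
    rw [aved_pw_eq, aved_pw_eq]
    refine Finset.sum_congr rfl fun ω' hω' => ?_
    rw [h ω hω, h ω' hω']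
  have e2 : pw s w (fun ω => (X ω, Y ω)) (X ω, Y ω) = pw s w (fun ω => (X ω, Y' ω)) (X ω, Y' ω) := by
    rw [aved_pw_eq, aved_pw_eq]
    refine Finset.sum_congr rfl fun ω' hω' => ?_
    rw [h ω hω, h ω' hω']
  rw [e1, e2]

open Classical in
/-- the indicator of a value -/
private def avedI {α : Type*} (X : ℕ → Fm → α) (a : α) (i : ℕ) (Q : Fm) : ℝ :=
  if X i Q = a then (1 : ℝ) else 0

private theorem avedI_nonneg {α : Type*} (X : ℕ → Fm → α) (a : α) (i : ℕ) (Q : Fm) :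
    0 ≤ avedI X a i Q := by
  unfold avedI
  split_ifs <;> norm_num

private theorem avedI_abs {α : Type*} (X : ℕ → Fm → α) (a : α) (i : ℕ) (Q : Fm) :
    |avedI X a i Q| ≤ 1 := by
  unfold avedI
  split_ifs <;> simp

/-- the weighted set of all cells of the `n`-th system -/
private def avedS (n : ℕ) : Finset (Σ _ : ℕ, Fm) :=
  (Finset.range (n ^ 2)).sigma (fun i => Cl (tt n i))

private def avedW (n : ℕ) (p : Σ _ : ℕ, Fm) : ℝ := 1 / (n : ℝ) ^ 2 * (1 / tt n p.1)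

private theorem avedW_nonneg (n : ℕ) (p : Σ _ : ℕ, Fm) : 0 ≤ avedW n p := by
  have := tt_pos n p.1
  unfold avedW
  positivity

private theorem aved_AvN (n : ℕ) (φ : ℕ → Fm → ℝ) :
    AvN n φ = ∑ p ∈ avedS n, avedW n p * φ p.1 p.2 := by
  unfold AvN avedS avedW
  rw [Finset.sum_sigma, Finset.mul_sum]
  refine Finset.sum_congr rfl fun i _ => ?_
  rw [Finset.mul_sum, Finset.mul_sum]
  refine Finset.sum_congr rfl fun Q _ => ?_
  simp only
  rw [mul_assoc]

private theorem aved_mem {n : ℕ} {p : Σ _ : ℕ, Fm} (h : p ∈ avedS n) : p.2 ∈ Cl (tt n p.1) :=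
  (Finset.mem_sigma.1 h).2

private theorem aved_AvN_mono (n : ℕ) (φ ψ : ℕ → Fm → ℝ)
    (h : ∀ i, ∀ Q ∈ Cl (tt n i), φ i Q ≤ ψ i Q) : AvN n φ ≤ AvN n ψ := by
  rw [aved_AvN, aved_AvN]
  exact Finset.sum_le_sum fun p hp =>
    mul_le_mul_of_nonneg_left (h p.1 p.2 (aved_mem hp)) (avedW_nonneg n p)

private theorem aved_AvN_nonneg (n : ℕ) (φ : ℕ → Fm → ℝ)
    (h : ∀ i, ∀ Q ∈ Cl (tt n i), 0 ≤ φ i Q) : 0 ≤ AvN n φ := by
  rw [aved_AvN]
  exact Finset.sum_nonneg fun p hp => mul_nonneg (avedW_nonneg n p) (h p.1 p.2 (aved_mem hp))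

open Classical in
/-- the entropy step at the system `n` -/
private theorem aved_step (n l : ℕ) {α α' β : Type*}
    (X : ℕ → Fm → α) (X' : ℕ → Fm → α') (Y : ℕ → Fm → β)
    (Γ : ℕ → Fm → Finset Mt) (τ : Mt → β → β) (A : Finset α) (A' : Finset α') (B : Finset β)
    (G : Finset (Finset Mt)) (hA : ∀ i, ∀ Q ∈ Cl (tt n i), X i Q ∈ A)
    (hA' : ∀ i, ∀ Q ∈ Cl (tt n i), X' i Q ∈ A') (hB : ∀ i, ∀ Q ∈ Cl (tt n i), Y i Q ∈ B)
    (hG : ∀ i, ∀ Q ∈ Cl (tt n i), Γ i Q ∈ G)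
    (hτ : ∀ M, Function.Injective (τ M))
    (hΓ : ∀ i, ∀ Q ∈ Cl (tt n i), Γ i Q ⊆ Dn (tt n (i + l * n)) Q)
    (hY : ∀ i, ∀ Q ∈ Cl (tt n i), ∀ M ∈ Γ i Q, Y (i + l * n) (Q.act M) = τ M (Y i Q))
    (hX : ∀ i i', ∀ Q ∈ Cl (tt n i), ∀ Q' ∈ Cl (tt n i'), Γ i Q = Γ i' Q' →
      (∀ M ∈ Γ i Q, X (i + l * n) (Q.act M) = X (i' + l * n) (Q'.act M)) →
      X' i Q = X' i' Q') :
    hc A' B (fun a b => AvN n (fun i Q => if X' i Q = a ∧ Y i Q = b then (1 : ℝ) else 0)) ≤
      he G (fun g => AvN n (avedI Γ g)) +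
        hc A B (fun a b => AvN n (fun i Q => ∑ M ∈ Dn (tt n (i + l * n)) Q,
          if X (i + l * n) (Q.act M) = a ∧ Y (i + l * n) (Q.act M) = b then (1 : ℝ) else 0)) := by
  have hw : ∀ p ∈ avedS n, 0 ≤ avedW n p := fun p _ => avedW_nonneg n p
  have h1 := ent_step (avedS n) (avedW n) hw (fun p => Γ p.1 p.2)
    (fun M p => X (p.1 + l * n) (p.2.act M)) (fun p => Y p.1 p.2) τ hτ (fun p => X' p.1 p.2)
    (fun p hp p' hp' h2 h3 => hX p.1 p'.1 p.2 (aved_mem hp) p'.2 (aved_mem hp') h2 h3)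
  have hmem : ∀ q ∈ (avedS n).sigma (fun p => Γ p.1 p.2),
      q.1.2.act q.2 ∈ Cl (tt n (q.1.1 + l * n)) := by
    intro q hq
    rw [Finset.mem_sigma] at hq
    have h2 := hΓ q.1.1 q.1.2 (aved_mem hq.1) hq.2
    unfold Dn at h2
    exact (Finset.mem_filter.1 h2).2.2
  have h2 : Hc ((avedS n).sigma (fun p => Γ p.1 p.2)) (fun q => avedW n q.1)
      (fun q => X (q.1.1 + l * n) (q.1.2.act q.2)) (fun q => τ q.2 (Y q.1.1 q.1.2)) =
      Hc ((avedS n).sigma (fun p => Γ p.1 p.2)) (fun q => avedW n q.1)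
      (fun q => X (q.1.1 + l * n) (q.1.2.act q.2)) (fun q => Y (q.1.1 + l * n) (q.1.2.act q.2)) := by
    refine aved_Hc_congr _ _ _ _ _ ?_
    intro q hq
    rw [Finset.mem_sigma] at hq
    exact (hY q.1.1 q.1.2 (aved_mem hq.1) q.2 hq.2).symm
  have hw' : ∀ q ∈ (avedS n).sigma (fun p => Γ p.1 p.2), 0 ≤ avedW n q.1 :=
    fun q _ => avedW_nonneg n q.1
  have h3 := aved_Hc ((avedS n).sigma (fun p => Γ p.1 p.2)) (fun q => avedW n q.1) hw'
    (fun q => X (q.1.1 + l * n) (q.1.2.act q.2)) (fun q => Y (q.1.1 + l * n) (q.1.2.act q.2)) A B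
    (fun q hq => hA _ _ (hmem q hq)) (fun q hq => hB _ _ (hmem q hq))
  have h4 := aved_Hc (avedS n) (avedW n) hw (fun p => X' p.1 p.2) (fun p => Y p.1 p.2) A' B
    (fun p hp => hA' _ _ (aved_mem hp)) (fun p hp => hB _ _ (aved_mem hp))
  have h5 := aved_He (avedS n) (avedW n) hw (fun p => Γ p.1 p.2) G
    (fun p hp => hG _ _ (aved_mem hp))
  rw [h2, h3, h4, h5] at h1
  have e1 : (fun a b => pw (avedS n) (avedW n) (fun p => (X' p.1 p.2, Y p.1 p.2)) (a, b)) =
      (fun a b => AvN n (fun i Q => if X' i Q = a ∧ Y i Q = b then (1 : ℝ) else 0)) := by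
    funext a b
    rw [aved_pw_eq, aved_AvN]
    refine Finset.sum_congr rfl fun p _ => ?_
    simp only [Prod.mk.injEq]
  have e2 : (fun g => pw (avedS n) (avedW n) (fun p => Γ p.1 p.2) g) =
      (fun g => AvN n (avedI Γ g)) := by
    funext g
    rw [aved_pw_eq, aved_AvN]
    rfl
  rw [e1, e2] at h1
  refine h1.trans (add_le_add le_rfl (hc_mono A B _ _ ?_ ?_))
  · intro a _ b _
    exact aved_pw_nonneg _ _ hw' _ _
  · intro a _ b _
    rw [aved_pw_eq, aved_AvN, Finset.sum_sigma]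
    refine Finset.sum_le_sum fun p hp => ?_
    simp only
    rw [← Finset.mul_sum]
    refine mul_le_mul_of_nonneg_left ?_ (avedW_nonneg n p)
    refine (Finset.sum_le_sum_of_subset_of_nonneg (hΓ p.1 p.2 (aved_mem hp)) ?_).trans (le_of_eq ?_)
    · intro M _ _
      split_ifs <;> norm_num
    · refine Finset.sum_congr rfl fun M _ => ?_
      simp only [Prod.mk.injEq]

open Classical in
/-- **The entropy step in the limit.** At the `n`-th system let `s` be the set of pairs `(i, Q)`,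
`i < n²`, `Q ∈ Cl (tt n i)`, `w (i, Q) = 1 / (n² tt n i)`, so that `AvN n φ = ∑_s w φ`. `ent_step` with
`x M (i, Q) = X n (i + l n) (Q.act M)`, and `Hc_eq`, `He_eq` (all variables have values in the finite
sets) give `hc A' B (law of (X', Y)) ≤ he G (law of Γ) + hc A B m̃ₙ` where `m̃ₙ (a, b) =
AvN n (∑_{M ∈ Γ} [X = a, Y = b] (Q.act M)) ≤ AvN n (∑_{M ∈ Dn} …)` (use `hY`). In the limit
(`ul_hc`, `ul_he`) `m̃ (a, b) ≤ 2 ^ l * l2 U X Y a b` by `Av_shift`; `hc_mono`, `hc_smul`. -/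
theorem lim_step {α α' β : Type*} (U : Ultrafilter ℕ) (hU : (U : Filter ℕ) ≤ atTop) (l : ℕ)
    (X : ℕ → ℕ → Fm → α) (X' : ℕ → ℕ → Fm → α') (Y : ℕ → ℕ → Fm → β)
    (Γ : ℕ → ℕ → Fm → Finset Mt) (τ : Mt → β → β) (A : Finset α) (A' : Finset α') (B : Finset β)
    (G : Finset (Finset Mt)) (hA : Rg X A) (hA' : Rg X' A') (hB : Rg Y B) (hG : Rg Γ G)
    (hτ : ∀ M, Function.Injective (τ M))
    (hΓ : ∀ n i, ∀ Q ∈ Cl (tt n i), Γ n i Q ⊆ Dn (tt n (i + l * n)) Q)
    (hY : ∀ n i, ∀ Q ∈ Cl (tt n i), ∀ M ∈ Γ n i Q, Y n (i + l * n) (Q.act M) = τ M (Y n i Q))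
    (hX : ∀ n i i', ∀ Q ∈ Cl (tt n i), ∀ Q' ∈ Cl (tt n i'), Γ n i Q = Γ n i' Q' →
      (∀ M ∈ Γ n i Q, X n (i + l * n) (Q.act M) = X n (i' + l * n) (Q'.act M)) →
      X' n i Q = X' n i' Q') :
    hc A' B (l2 U X' Y) ≤ he G (l1 U Γ) + 2 ^ l * hc A B (l2 U X Y) := by
  have hb1 : ∀ a b, Bd (fun n i Q => if X' n i Q = a ∧ Y n i Q = b then (1 : ℝ) else 0) := by
    intro a b
    refine Bd_of_le (C := 1) fun n i Q _ => ?_
    split_ifs <;> simp
  have hb2 : ∀ g, Bd (fun n => avedI (Γ n) g) := fun g =>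
    Bd_of_le (C := 1) fun n i Q _ => avedI_abs (Γ n) g i Q
  have hb3 : ∀ a b, Bd (fun n i Q => if X n i Q = a ∧ Y n i Q = b then (1 : ℝ) else 0) := by
    intro a b
    refine Bd_of_le (C := 1) fun n i Q _ => ?_
    split_ifs <;> simp
  have hb4 := fun a b => Bd_desc l (hb3 a b)
  obtain ⟨k1, k2⟩ := ul_hc U A' B
    (fun n a b => AvN n (fun i Q => if X' n i Q = a ∧ Y n i Q = b then (1 : ℝ) else 0))
    (fun n a _ b _ => aved_AvN_nonneg n _ fun i Q _ => by split_ifs <;> norm_num)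
    (fun a _ b _ => AvN_Bs (hb1 a b))
  obtain ⟨k3, k4⟩ := ul_he U G
    (fun n g => AvN n (avedI (Γ n) g))
    (fun n g _ => aved_AvN_nonneg n _ fun i Q _ => avedI_nonneg (Γ n) g i Q)
    (fun g _ => AvN_Bs (hb2 g))
  obtain ⟨k5, k6⟩ := ul_hc U A B
    (fun n a b => AvN n (fun i Q => ∑ M ∈ Dn (tt n (i + l * n)) Q,
      if X n (i + l * n) (Q.act M) = a ∧ Y n (i + l * n) (Q.act M) = b then (1 : ℝ) else 0))
    (fun n a _ b _ => aved_AvN_nonneg n _ fun i Q _ =>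
      Finset.sum_nonneg fun M _ => by split_ifs <;> norm_num)
    (fun a _ b _ => AvN_Bs (hb4 a b))
  have h1 := ul_mono (U := U) k1 (Bs_add k3 k5) (Filter.Eventually.of_forall fun n =>
    aved_step n l (X n) (X' n) (Y n) (Γ n) τ A A' B G (hA n) (hA' n) (hB n) (hG n) hτ (hΓ n) (hY n)
      (hX n))
  rw [ul_add k3 k5, k2, k4, k6] at h1
  have e1 : (fun a b => ul U (fun n => AvN n (fun i Q => ∑ M ∈ Dn (tt n (i + l * n)) Q,
      if X n (i + l * n) (Q.act M) = a ∧ Y n (i + l * n) (Q.act M) = b then (1 : ℝ) else 0))) =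
      fun a b => 2 ^ l * l2 U X Y a b := by
    funext a b
    have e2 := Av_shift hU l (hb3 a b)
    exact e2
  rw [e1, hc_smul A B (l2 U X Y) (2 ^ l) (by positivity)] at h1
  exact h1

end

end Pool.Agent.Lib.MP_0b748d_nt.HH
end

section

set_option autoImplicit false

/-!
# Entropy decrement
-/

namespace Pool.Agent.Lib.MP_0b748d_nt.HH

open Filter Topology MR

noncomputable section

/-- mutual information of a pattern and the residues -/
def Inf (U : Ultrafilter ℕ) {α : Type*} (X : ℕ → ℕ → Fm → α) (A : Finset α) (S : Finset ℕ) : ℝ :=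
  he A (l1 U X) - hc A (OF S) (l2 U X (Yv S))

/-- action of a matrix on residues -/
private def decc_act (p : ℕ) (M : Mt) (y : Rp p) : Rp p :=
  (y.1 * (M.a : ZMod p) ^ 2 + 2 * y.2.1 * (M.a * M.c) + y.2.2 * (M.c : ZMod p) ^ 2,
    y.1 * (M.a * M.b) + y.2.1 * (M.a * M.d + M.b * M.c) + y.2.2 * (M.c * M.d),
    y.1 * (M.b : ZMod p) ^ 2 + 2 * y.2.1 * (M.b * M.d) + y.2.2 * (M.d : ZMod p) ^ 2)

private theorem decc_act_inj (p : ℕ) {M : Mt} (hM : M.Dt 1) :
    Function.Injective (decc_act p M) := by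
  have h : (M.a : ZMod p) * M.d = M.b * M.c + 1 := by
    have h1 : M.a * M.d = M.b * M.c + 1 := hM
    have h2 := congrArg (fun t : ℕ => (t : ZMod p)) h1
    push_cast at h2
    exact h2
  have hl : Function.LeftInverse (fun y : Rp p =>
      ((y.1 * (M.d : ZMod p) ^ 2 - 2 * y.2.1 * (M.d * M.c) + y.2.2 * (M.c : ZMod p) ^ 2,
        -(y.1 * (M.d * M.b)) + y.2.1 * (M.a * M.d + M.b * M.c) - y.2.2 * (M.c * M.a),
        y.1 * (M.b : ZMod p) ^ 2 - 2 * y.2.1 * (M.b * M.a) + y.2.2 * (M.a : ZMod p) ^ 2) : Rp p))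
      (decc_act p M) := by
    rintro ⟨x, y, z⟩
    unfold decc_act
    refine Prod.ext ?_ (Prod.ext ?_ ?_)
    · show (x * (M.a : ZMod p) ^ 2 + 2 * y * (M.a * M.c) + z * (M.c : ZMod p) ^ 2) *
        (M.d : ZMod p) ^ 2 -
        2 * (x * (M.a * M.b) + y * (M.a * M.d + M.b * M.c) + z * (M.c * M.d)) * (M.d * M.c) +
        (x * (M.b : ZMod p) ^ 2 + 2 * y * (M.b * M.d) + z * (M.d : ZMod p) ^ 2) *
          (M.c : ZMod p) ^ 2 = x
      linear_combination (x * ((M.a : ZMod p) * M.d - M.b * M.c + 1)) * h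
    · show -((x * (M.a : ZMod p) ^ 2 + 2 * y * (M.a * M.c) + z * (M.c : ZMod p) ^ 2) *
        (M.d * M.b)) +
        (x * (M.a * M.b) + y * (M.a * M.d + M.b * M.c) + z * (M.c * M.d)) *
          (M.a * M.d + M.b * M.c) -
        (x * (M.b : ZMod p) ^ 2 + 2 * y * (M.b * M.d) + z * (M.d : ZMod p) ^ 2) *
          (M.c * M.a) = y
      linear_combination (y * ((M.a : ZMod p) * M.d - M.b * M.c + 1)) * h
    · show (x * (M.a : ZMod p) ^ 2 + 2 * y * (M.a * M.c) + z * (M.c : ZMod p) ^ 2) *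
        (M.b : ZMod p) ^ 2 -
        2 * (x * (M.a * M.b) + y * (M.a * M.d + M.b * M.c) + z * (M.c * M.d)) * (M.b * M.a) +
        (x * (M.b : ZMod p) ^ 2 + 2 * y * (M.b * M.d) + z * (M.d : ZMod p) ^ 2) *
          (M.a : ZMod p) ^ 2 = z
      linear_combination (z * ((M.a : ZMod p) * M.d - M.b * M.c + 1)) * h
  exact hl.injective

private theorem decc_res (p : ℕ) (M : Mt) (Q : Fm) :
    res p (Q.act M) = decc_act p M (res p Q) := by
  unfold res decc_act Fm.act Fm.val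
  refine Prod.ext ?_ (Prod.ext ?_ ?_)
  · show ((Q.d * M.a ^ 2 + 2 * Q.n * (M.a * M.c) + Q.e * M.c ^ 2 : ℕ) : ZMod p) = _
    push_cast
    ring
  · show ((Q.d * (M.a * M.b) + Q.n * (M.a * M.d + M.b * M.c) + Q.e * (M.c * M.d) : ℕ) : ZMod p) = _
    push_cast
    ring
  · show ((Q.d * M.b ^ 2 + 2 * Q.n * (M.b * M.d) + Q.e * M.d ^ 2 : ℕ) : ZMod p) = _
    push_cast
    ring

open Classical in
/-- action of a matrix on families of residues, the identity for other determinants -/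
private def decc_tau (S : Finset ℕ) (M : Mt) (y : RS S) : RS S :=
  if M.Dt 1 then fun p => decc_act p M (y p) else y

private theorem decc_tau_inj (S : Finset ℕ) (M : Mt) : Function.Injective (decc_tau S M) := by
  intro y y' hy
  unfold decc_tau at hy
  by_cases h : M.Dt 1
  · rw [if_pos h, if_pos h] at hy
    funext p
    exact decc_act_inj p h (congrFun hy p)
  · rw [if_neg h, if_neg h] at hy
    exact hy

private theorem decc_mass (U : Ultrafilter ℕ) (S : Finset ℕ) (hS : ∀ p ∈ S, p.Prime) :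
    0 ≤ mass U := by
  rw [← l1_sum U (Yv S) (OF S) (Yv_range S hS)]
  exact Finset.sum_nonneg fun a _ => l1_nonneg U _ a

/-- `lim_step` with `Γ = Gm`, `τ M y = y ∘ M` for `M.Dt 1` (a product of the maps `rl`, `rr` by
`SL_cases`, hence injective) and the identity otherwise; `Xp_succ`; `lim_chain`, `lim_card` for `Yv`,
`Gm_range`. -/
theorem dec_step (U : Ultrafilter ℕ) (hU : (U : Filter ℕ) ≤ atTop) (P : Par) (hδ : 0 < P.δ)
    (hδ1 : P.δ ≤ 1) {F G : ℕ → ℕ → ℤ} (hF : V3 F) (hG : V3 G) (k : ℕ) (A A' : Finset Pt)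
    (hA : Rg (Xp P F G k) A) (hA' : Rg (Xp P F G (k + 1)) A') (S : Finset ℕ)
    (hS : ∀ p ∈ S, p.Prime) :
    he A' (l1 U (Xp P F G (k + 1))) ≤ mass U * (16 * 4 ^ P.l k / P.δ ^ 2) +
      2 ^ P.l k * (he A (l1 U (Xp P F G k)) - Inf U (Xp P F G k) A S) +
      mass U * Real.log (OF S).card := by
  obtain ⟨Gs, hGs, hGl⟩ := Gm_range hδ hδ1 (P.l k)
  have hm := decc_mass U S hS
  have h1 := lim_chain U (Xp P F G (k + 1)) (Yv S) A' (OF S) hA' (Yv_range S hS)
  have h2 := lim_card U (Yv S) (OF S) (Yv_range S hS)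
  have h3 : hc A' (OF S) (l2 U (Xp P F G (k + 1)) (Yv S)) ≤
      he Gs (l1 U (Gm P.δ (P.l k))) + 2 ^ P.l k * hc A (OF S) (l2 U (Xp P F G k) (Yv S)) := by
    refine lim_step U hU (P.l k) (Xp P F G k) (Xp P F G (k + 1)) (Yv S) (Gm P.δ (P.l k))
      (decc_tau S) A A' (OF S) Gs hA hA' (Yv_range S hS) hGs (decc_tau_inj S)
      (fun n i Q _ => Gm_Dn P.δ (P.l k) n i Q) ?_ ?_
    · intro n i Q _ M hM
      have hD : M.Dt 1 := by
        have h4 := Gm_Dn P.δ (P.l k) n i Q hM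
        unfold Dn at h4
        exact (Finset.mem_filter.1 h4).2.1
      unfold decc_tau
      rw [if_pos hD]
      funext p
      exact decc_res p M Q
    · intro n i i' Q _ Q' _ hΓ hX
      exact Xp_succ P F G k n i i' Q Q' hΓ hX
  have h4 := lim_card U (Gm P.δ (P.l k)) Gs hGs
  have h5 : mass U * Real.log Gs.card ≤ mass U * (16 * 4 ^ P.l k / P.δ ^ 2) :=
    mul_le_mul_of_nonneg_left hGl hm
  unfold Inf
  linarith

end

end Pool.Agent.Lib.MP_0b748d_nt.HH
end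

section

set_option autoImplicit false

/-!
# Entropy of limit laws
-/

namespace Pool.Agent.Lib.MP_0b748d_nt.HH

open Filter Topology

noncomputable section

theorem mass_le : ∃ C : ℝ, 1 ≤ C ∧ ∀ U : Ultrafilter ℕ, mass U ≤ C := by
  obtain ⟨C, hC1, hC⟩ := Cl_card
  refine ⟨C, hC1, fun U => (le_abs_self _).trans (abs_ul_le (fun n => ?_))⟩
  have hterm : ∀ i : ℕ, (1 / tt n i) * ∑ Q ∈ Cl (tt n i), (1 : ℝ) ≤ C := by
    intro i
    have h0 : 0 < tt n i := tt_pos n i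
    rw [Finset.sum_const, nsmul_eq_mul, mul_one, one_div, inv_mul_le_iff₀ h0]
    have := hC (tt n i) h0.le
    linarith [mul_comm C (tt n i)]
  have hterm0 : ∀ i : ℕ, 0 ≤ (1 / tt n i) * ∑ Q ∈ Cl (tt n i), (1 : ℝ) := by
    intro i
    have h0 : 0 < tt n i := tt_pos n i
    have : 0 ≤ ∑ Q ∈ Cl (tt n i), (1 : ℝ) := Finset.sum_nonneg fun _ _ => zero_le_one
    positivity
  unfold AvN
  have hs0 : 0 ≤ ∑ i ∈ Finset.range (n ^ 2), (1 / tt n i) * ∑ Q ∈ Cl (tt n i), (1 : ℝ) :=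
    Finset.sum_nonneg fun i _ => hterm0 i
  rw [abs_of_nonneg (by positivity)]
  rcases Nat.eq_zero_or_pos n with h | h
  · subst h
    simp only [ne_eq, OfNat.ofNat_ne_zero, not_false_eq_true, zero_pow, Finset.range_zero,
      Finset.sum_empty, mul_zero]
    linarith
  · have hn : (0 : ℝ) < (n : ℝ) ^ 2 := by positivity
    rw [one_div, inv_mul_le_iff₀ hn]
    calc ∑ i ∈ Finset.range (n ^ 2), (1 / tt n i) * ∑ Q ∈ Cl (tt n i), (1 : ℝ)
        ≤ ∑ _i ∈ Finset.range (n ^ 2), C := Finset.sum_le_sum fun i _ => hterm i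
      _ = (n : ℝ) ^ 2 * C := by
        rw [Finset.sum_const, Finset.card_range, nsmul_eq_mul]
        push_cast
        ring

/-- averages depend only on the values on the cells -/
private theorem aveb_congr {U : Ultrafilter ℕ} {φ ψ : ℕ → ℕ → Fm → ℝ}
    (h : ∀ n i, ∀ Q ∈ Cl (tt n i), φ n i Q = ψ n i Q) : Av U φ = Av U ψ := by
  unfold Av
  congr 1
  funext n
  unfold AvN
  congr 1
  refine Finset.sum_congr rfl fun i _ => ?_
  congr 1
  exact Finset.sum_congr rfl fun Q hQ => h n i Q hQ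

/-- averages of functions of a finite-valued variable -/
theorem Av_comp {α : Type*} (U : Ultrafilter ℕ) (X : ℕ → ℕ → Fm → α) (A : Finset α) (hA : Rg X A)
    (f : α → ℝ) : Av U (fun n i Q => f (X n i Q)) = ∑ a ∈ A, l1 U X a * f a := by
  classical
  have hb : ∀ a : α, Bd (fun n i Q => if X n i Q = a then (1 : ℝ) else 0) := by
    intro a
    refine Bd_of_le (C := 1) fun n i Q _ => ?_
    split_ifs <;> simp
  have h1 : Av U (fun n i Q => f (X n i Q)) =
      Av U (fun n i Q => ∑ a ∈ A, f a * (if X n i Q = a then (1 : ℝ) else 0)) := by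
    refine aveb_congr fun n i Q hQ => ?_
    simp only [mul_ite, mul_one, mul_zero]
    rw [Finset.sum_ite_eq]
    rw [if_pos (hA n i Q hQ)]
  rw [h1, Av_sum A (fun a n i Q => f a * (if X n i Q = a then (1 : ℝ) else 0))
    (fun a _ => Bd_smul (f a) (hb a))]
  refine Finset.sum_congr rfl fun a _ => ?_
  rw [Av_smul (f a) (hb a), mul_comm]
  rfl

/-- averages of functions of two finite-valued variables -/
theorem Av_comp2 {α β : Type*} (U : Ultrafilter ℕ) (X : ℕ → ℕ → Fm → α) (Y : ℕ → ℕ → Fm → β)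
    (A : Finset α) (hA : Rg X A) (B : Finset β) (hB : Rg Y B) (f : α → β → ℝ) :
    Av U (fun n i Q => f (X n i Q) (Y n i Q)) = ∑ a ∈ A, ∑ b ∈ B, l2 U X Y a b * f a b := by
  classical
  have hb : ∀ (a : α) (b : β), Bd (fun n i Q => if X n i Q = a ∧ Y n i Q = b then (1 : ℝ) else 0) := by
    intro a b
    refine Bd_of_le (C := 1) fun n i Q _ => ?_
    split_ifs <;> simp
  have h1 : Av U (fun n i Q => f (X n i Q) (Y n i Q)) =
      Av U (fun n i Q => ∑ a ∈ A, ∑ b ∈ B,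
        f a b * (if X n i Q = a ∧ Y n i Q = b then (1 : ℝ) else 0)) := by
    refine aveb_congr fun n i Q hQ => ?_
    rw [Finset.sum_eq_single (X n i Q), Finset.sum_eq_single (Y n i Q)]
    · simp
    · intro b _ hne
      rw [if_neg (fun h => hne h.2.symm), mul_zero]
    · intro h
      exact absurd (hB n i Q hQ) h
    · intro a _ hne
      refine Finset.sum_eq_zero fun b _ => ?_
      rw [if_neg (fun h => hne h.1.symm), mul_zero]
    · intro h
      exact absurd (hA n i Q hQ) h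
  rw [h1, Av_sum A (fun a n i Q => ∑ b ∈ B, f a b * (if X n i Q = a ∧ Y n i Q = b then (1 : ℝ) else 0))
    (fun a _ => Bd_sum B (fun b n i Q => f a b * (if X n i Q = a ∧ Y n i Q = b then (1 : ℝ) else 0))
      (fun b _ => Bd_smul (f a b) (hb a b)))]
  refine Finset.sum_congr rfl fun a _ => ?_
  rw [Av_sum B (fun b n i Q => f a b * (if X n i Q = a ∧ Y n i Q = b then (1 : ℝ) else 0))
      (fun b _ => Bd_smul (f a b) (hb a b))]
  refine Finset.sum_congr rfl fun b _ => ?_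
  rw [Av_smul (f a b) (hb a b), mul_comm]
  rfl

end

end Pool.Agent.Lib.MP_0b748d_nt.HH
end
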