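import Pool.Agent.Lib.MP_0b748d_nt.HH.TreeB
import Pool.Agent.Lib.MP_0b748d_nt.HH.CmodC
import Pool.Agent.Lib.MP_0b748d_nt.HH.TreeF
import Pool.Agent.Lib.MP_0b748d_nt.HH.ResC
import Pool.Agent.Lib.MP_0b748d_nt.HH.CvE
import Pool.Agent.Lib.MP_0b748d_nt.HH.AsmD
import Pool.Agent.Lib.MP_0b748d_nt.HH.AvEB

section

set_option autoImplicit false

/-!
# Slopes law: classes of forms are uniformly distributed
-/

namespace Pool.Agent.Lib.MP_0b748d_nt.HH

open Filter Topology

noncomputable section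

/-- there are finitely many forms with `n < n0` (`d e = n² - 2`) -/
theorem few_small (n0 : ℕ) : ∃ S : Finset Fm, ∀ Q : Fm, Q.Ok → Q.n < n0 → Q ∈ S := by
  classical
  refine ⟨((Finset.range (n0 ^ 2) ×ˢ (Finset.range n0 ×ˢ Finset.range (n0 ^ 2))).image
    (fun p => (⟨p.1, p.2.1, p.2.2⟩ : Fm))), fun Q hQ hn => ?_⟩
  obtain ⟨hd, he, hne⟩ := hQ
  have h1 : Q.n ^ 2 < n0 ^ 2 := Nat.pow_lt_pow_left hn (by norm_num)
  have h2 : Q.d ≤ Q.d * Q.e := Nat.le_mul_of_pos_right _ he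
  have h3 : Q.e ≤ Q.d * Q.e := Nat.le_mul_of_pos_left _ hd
  rw [Finset.mem_image]
  refine ⟨(Q.d, Q.n, Q.e), ?_, rfl⟩
  simp only [Finset.mem_product, Finset.mem_range]
  omega

private theorem tric_key1 {a b s t u v X : ℝ} (ha : 0 < a) (hb : 0 < b) (h : s + t ≤ v)
    (hX : s / a + v / b ≤ X) (hu : u = s) : u / (a * b / (a + b)) + t / b ≤ X := by
  subst hu
  have e : u / (a * b / (a + b)) + t / b = u / a + (u + t) / b := by
    field_simp
    ring
  rw [e]
  have : (u + t) / b ≤ v / b := div_le_div_of_nonneg_right h hb.le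
  linarith

private theorem tric_key2 {a b s t u v X : ℝ} (ha : 0 < a) (hb : 0 < b) (h : t + s ≤ v)
    (hX : v / a + s / b ≤ X) (hu : u = s) : t / a + u / (a * b / (a + b)) ≤ X := by
  subst hu
  have e : t / a + u / (a * b / (a + b)) = (t + u) / a + u / b := by
    field_simp
    ring
  rw [e]
  have : (t + u) / a ≤ v / a := div_le_div_of_nonneg_right h ha.le
  linarith

private theorem tric_sqrt_val {Q : Fm} (hQ : Q.Ok) :
    √(Q.d : ℝ) + √(Q.e : ℝ) ≤ √((Q.val 1 1 : ℕ) : ℝ) := by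
  have h := (val_bounds hQ 1 1).1
  rw [Nat.cast_one, mul_one, mul_one] at h
  exact Real.le_sqrt_of_sq_le h

private theorem tric_sqrt_val' {Q : Fm} (hQ : Q.Ok) {ε : ℝ} (hε : 0 < ε)
    (hn : 1 ≤ ε * (Q.n : ℝ) ^ 2) :
    √((Q.val 1 1 : ℕ) : ℝ) ≤ (1 + ε) * (√(Q.d : ℝ) + √(Q.e : ℝ)) := by
  have h := (val_bounds hQ 1 1).2
  rw [Nat.cast_one, mul_one, mul_one] at h
  have hn0 : 0 < (Q.n : ℝ) ^ 2 := by
    by_contra h0
    have : (Q.n : ℝ) ^ 2 = 0 := le_antisymm (not_lt.1 h0) (sq_nonneg _)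
    rw [this] at hn
    linarith
  have h1 : 1 + 2 / (Q.n : ℝ) ^ 2 ≤ (1 + ε) ^ 2 := by
    have : 2 / (Q.n : ℝ) ^ 2 ≤ 2 * ε := by
      rw [div_le_iff₀ hn0]
      linarith
    nlinarith
  refine Real.sqrt_le_iff.2 ⟨by positivity, h.trans ?_⟩
  rw [mul_pow]
  exact mul_le_mul_of_nonneg_right h1 (by positivity)

private theorem tric_val (Q : Fm) : Q.val 1 1 = Q.d + 2 * Q.n + Q.e := by
  simp [Fm.val]

private theorem tric_low1 {a b s t v X Y ε : ℝ} (ha : 0 < a) (hb : 0 < b) (hε : 0 < ε)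
    (hs : 0 ≤ s) (h : v ≤ (1 + ε) * (s + t)) (hX : s / (a * b / (a + b)) + t / b ≤ X)
    (hY : (1 + ε) * X ≤ Y) : s / a + v / b ≤ Y := by
  have e : s / (a * b / (a + b)) + t / b = s / a + (s + t) / b := by
    field_simp
    ring
  rw [e] at hX
  have h1 : v / b ≤ (1 + ε) * ((s + t) / b) := by
    rw [← mul_div_assoc]
    exact div_le_div_of_nonneg_right h hb.le
  have h2 : 0 ≤ s / a := by positivity
  nlinarith

private theorem tric_low2 {a b s t v X Y ε : ℝ} (ha : 0 < a) (hb : 0 < b) (hε : 0 < ε)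
    (hs : 0 ≤ s) (h : v ≤ (1 + ε) * (t + s)) (hX : t / a + s / (a * b / (a + b)) ≤ X)
    (hY : (1 + ε) * X ≤ Y) : v / a + s / b ≤ Y := by
  have e : t / a + s / (a * b / (a + b)) = (t + s) / a + s / b := by
    field_simp
    ring
  rw [e] at hX
  have h1 : v / a ≤ (1 + ε) * ((t + s) / a) := by
    rw [← mul_div_assoc]
    exact div_le_div_of_nonneg_right h ha.le
  have h2 : 0 ≤ s / b := by positivity
  nlinarith

/-- By `parent` a form of class `x` in the triangle is a root (at most `2`), or `Q'.lc` with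
`c Q' = l⁻¹ x` and `√d / a + √(Q'.val 1 1) / b ≤ √X`, or `Q'.rc` (`lc_inj`, `rc_inj`). As
`√d + √e ≤ √(Q'.val 1 1)` (`val_bounds`) one gets the upper bound; for the lower bound, for `n ≥ n0`
`√(Q'.val 1 1) ≤ (1 + ε) (√d + √e)`, and `few_small` for `n < n0`. -/
theorem nx_rec {α : Type*} {l r : Equiv.Perm α} {c : Fm → α} (hc : Cc l r c) (ε : ℝ) (hε : 0 < ε) :
    ∃ K : ℝ, 0 ≤ K ∧ ∀ (x : α) (a b X : ℝ), 0 < a → 0 < b → 0 ≤ X →
      nx c x a b X ≤ nx c (l⁻¹ x) (a * b / (a + b)) b X + nx c (r⁻¹ x) a (a * b / (a + b)) X + 2 ∧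
      nx c (l⁻¹ x) (a * b / (a + b)) b (X / (1 + ε) ^ 2) +
        nx c (r⁻¹ x) a (a * b / (a + b)) (X / (1 + ε) ^ 2) - K ≤ nx c x a b X := by
  classical
  obtain ⟨n0, hn0⟩ := exists_nat_gt (1 / ε)
  obtain ⟨S0, hS0⟩ := few_small (n0 + 1)
  have hbig : ∀ Q : Fm, Q.Ok → Q ∉ S0 → 1 ≤ ε * (Q.n : ℝ) ^ 2 := by
    intro Q hQ hQS
    have h1 : n0 + 1 ≤ Q.n := by
      by_contra h
      exact hQS (hS0 Q hQ (by omega))
    have h2 : (n0 : ℝ) + 1 ≤ Q.n := by exact_mod_cast h1
    have h3 : (0 : ℝ) ≤ n0 := Nat.cast_nonneg _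
    have h4 : 1 / ε ≤ (Q.n : ℝ) ^ 2 := by nlinarith
    rwa [div_le_iff₀ hε, mul_comm] at h4
  refine ⟨2 * (S0.card : ℝ), by positivity, fun x a b X ha hb hX => ?_⟩
  have hm : 0 < a * b / (a + b) := by positivity
  constructor
  · have hsub : (Tr a b X).filter (fun Q => c Q = x) ⊆
        (({⟨1, 2, 2⟩, ⟨2, 2, 1⟩} : Finset Fm) ∪
          ((Tr (a * b / (a + b)) b X).filter (fun Q => c Q = l⁻¹ x)).image Fm.lc) ∪
          ((Tr a (a * b / (a + b)) X).filter (fun Q => c Q = r⁻¹ x)).image Fm.rc := by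
      intro Q hQ
      rw [Finset.mem_filter, mem_Tr ha hb hX] at hQ
      obtain ⟨⟨hOk, hle⟩, hcQ⟩ := hQ
      rw [Finset.mem_union, Finset.mem_union, Finset.mem_insert, Finset.mem_singleton,
        Finset.mem_image, Finset.mem_image]
      rcases parent hOk with h | h | ⟨Q', hQ', h⟩ | ⟨Q', hQ', h⟩
      · exact Or.inl (Or.inl (Or.inl h))
      · exact Or.inl (Or.inl (Or.inr h))
      · refine Or.inl (Or.inr ⟨Q', ?_, h.symm⟩)
        rw [Finset.mem_filter, mem_Tr hm hb hX]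
        refine ⟨⟨hQ', ?_⟩, ?_⟩
        · rw [h] at hle
          have h2 := tric_sqrt_val hQ'
          rw [tric_val] at h2
          exact tric_key1 ha hb h2 hle rfl
        · rw [Equiv.Perm.eq_inv_iff_eq, ← hc.hl Q' hQ', ← h, hcQ]
      · refine Or.inr ⟨Q', ?_, h.symm⟩
        rw [Finset.mem_filter, mem_Tr ha hm hX]
        refine ⟨⟨hQ', ?_⟩, ?_⟩
        · rw [h] at hle
          have h2 := tric_sqrt_val hQ'
          rw [tric_val] at h2
          exact tric_key2 ha hb h2 hle rfl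
        · rw [Equiv.Perm.eq_inv_iff_eq, ← hc.hr Q' hQ', ← h, hcQ]
    have h1 := Finset.card_le_card hsub
    have h2 := Finset.card_union_le
      (({⟨1, 2, 2⟩, ⟨2, 2, 1⟩} : Finset Fm) ∪
          ((Tr (a * b / (a + b)) b X).filter (fun Q => c Q = l⁻¹ x)).image Fm.lc)
      (((Tr a (a * b / (a + b)) X).filter (fun Q => c Q = r⁻¹ x)).image Fm.rc)
    have h3 := Finset.card_union_le ({⟨1, 2, 2⟩, ⟨2, 2, 1⟩} : Finset Fm)
      (((Tr (a * b / (a + b)) b X).filter (fun Q => c Q = l⁻¹ x)).image Fm.lc)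
    have h4 : ({⟨1, 2, 2⟩, ⟨2, 2, 1⟩} : Finset Fm).card ≤ 2 := Finset.card_le_two
    have h5 : (((Tr (a * b / (a + b)) b X).filter (fun Q => c Q = l⁻¹ x)).image Fm.lc).card ≤
      ((Tr (a * b / (a + b)) b X).filter (fun Q => c Q = l⁻¹ x)).card := Finset.card_image_le
    have h6 : (((Tr a (a * b / (a + b)) X).filter (fun Q => c Q = r⁻¹ x)).image Fm.rc).card ≤
      ((Tr a (a * b / (a + b)) X).filter (fun Q => c Q = r⁻¹ x)).card := Finset.card_image_le
    have h7 : ((Tr a b X).filter (fun Q => c Q = x)).card ≤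
        ((Tr (a * b / (a + b)) b X).filter (fun Q => c Q = l⁻¹ x)).card +
        ((Tr a (a * b / (a + b)) X).filter (fun Q => c Q = r⁻¹ x)).card + 2 := by omega
    unfold nx
    exact_mod_cast h7
  · have hX' : 0 ≤ X / (1 + ε) ^ 2 := by positivity
    have hYX : (1 + ε) * √(X / (1 + ε) ^ 2) ≤ √X := by
      rw [Real.sqrt_div hX, Real.sqrt_sq (by positivity)]
      rw [mul_div_cancel₀ _ (by positivity : (1 + ε) ≠ 0)]
    have hsub : (((Tr (a * b / (a + b)) b (X / (1 + ε) ^ 2)).filter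
          (fun Q => c Q = l⁻¹ x)) \ S0).image Fm.lc ∪
        (((Tr a (a * b / (a + b)) (X / (1 + ε) ^ 2)).filter
          (fun Q => c Q = r⁻¹ x)) \ S0).image Fm.rc ⊆ (Tr a b X).filter (fun Q => c Q = x) := by
      intro Q hQ
      rw [Finset.mem_union, Finset.mem_image, Finset.mem_image] at hQ
      rw [Finset.mem_filter, mem_Tr ha hb hX]
      rcases hQ with ⟨Q', hQ', rfl⟩ | ⟨Q', hQ', rfl⟩
      · rw [Finset.mem_sdiff, Finset.mem_filter, mem_Tr hm hb hX'] at hQ'
        obtain ⟨⟨⟨hOk, hle⟩, hcQ⟩, hS⟩ := hQ'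
        refine ⟨⟨lc_Ok hOk, ?_⟩, ?_⟩
        · have h2 := tric_sqrt_val' hOk hε (hbig _ hOk hS)
          rw [tric_val] at h2
          exact tric_low1 ha hb hε (Real.sqrt_nonneg _) h2 hle hYX
        · rw [hc.hl _ hOk, hcQ]
          exact l.apply_symm_apply x
      · rw [Finset.mem_sdiff, Finset.mem_filter, mem_Tr ha hm hX'] at hQ'
        obtain ⟨⟨⟨hOk, hle⟩, hcQ⟩, hS⟩ := hQ'
        refine ⟨⟨rc_Ok hOk, ?_⟩, ?_⟩
        · have h2 := tric_sqrt_val' hOk hε (hbig _ hOk hS)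
          rw [tric_val] at h2
          exact tric_low2 ha hb hε (Real.sqrt_nonneg _) h2 hle hYX
        · rw [hc.hr _ hOk, hcQ]
          exact r.apply_symm_apply x
    have hdisj : Disjoint ((((Tr (a * b / (a + b)) b (X / (1 + ε) ^ 2)).filter
          (fun Q => c Q = l⁻¹ x)) \ S0).image Fm.lc)
        ((((Tr a (a * b / (a + b)) (X / (1 + ε) ^ 2)).filter
          (fun Q => c Q = r⁻¹ x)) \ S0).image Fm.rc) := by
      rw [Finset.disjoint_left]
      intro Q h1 h2
      rw [Finset.mem_image] at h1 h2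
      obtain ⟨Q1, hQ1, e1⟩ := h1
      obtain ⟨Q2, hQ2, e2⟩ := h2
      rw [Finset.mem_sdiff, Finset.mem_filter, mem_Tr hm hb hX'] at hQ1
      rw [Finset.mem_sdiff, Finset.mem_filter, mem_Tr ha hm hX'] at hQ2
      have h3 := lc_lt hQ1.1.1.1
      have h4 := rc_lt hQ2.1.1.1
      rw [e1] at h3
      rw [e2] at h4
      omega
    have h1 := Finset.card_le_card hsub
    rw [Finset.card_union_of_disjoint hdisj, Finset.card_image_of_injective _ fun _ _ h => lc_inj h,
      Finset.card_image_of_injective _ fun _ _ h => rc_inj h] at h1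
    have h2 := Finset.le_card_sdiff S0 ((Tr (a * b / (a + b)) b (X / (1 + ε) ^ 2)).filter
          (fun Q => c Q = l⁻¹ x))
    have h3 := Finset.le_card_sdiff S0 ((Tr a (a * b / (a + b)) (X / (1 + ε) ^ 2)).filter
          (fun Q => c Q = r⁻¹ x))
    have h4 : ((Tr (a * b / (a + b)) b (X / (1 + ε) ^ 2)).filter (fun Q => c Q = l⁻¹ x)).card +
        ((Tr a (a * b / (a + b)) (X / (1 + ε) ^ 2)).filter (fun Q => c Q = r⁻¹ x)).card ≤
        ((Tr a b X).filter (fun Q => c Q = x)).card + 2 * S0.card := by omega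
    have h5 : (((Tr (a * b / (a + b)) b (X / (1 + ε) ^ 2)).filter
        (fun Q => c Q = l⁻¹ x)).card : ℝ) +
        ((Tr a (a * b / (a + b)) (X / (1 + ε) ^ 2)).filter (fun Q => c Q = r⁻¹ x)).card ≤
        ((Tr a b X).filter (fun Q => c Q = x)).card + 2 * S0.card := by exact_mod_cast h4
    unfold nx
    linarith

end

end Pool.Agent.Lib.MP_0b748d_nt.HH
end

section

set_option autoImplicit false

/-!
# Slopes law: classes of forms are uniformly distributed
-/

namespace Pool.Agent.Lib.MP_0b748d_nt.HH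

open Filter Topology

noncomputable section

open Classical in
/-- the number of forms of class `x` with `Q.val 1 1 ≤ T` -/
def inx {α : Type*} (c : Fm → α) (x : α) (T : ℝ) : ℝ :=
  (((Qs T).filter (fun Q => (Q.val 1 1 : ℝ) ≤ T ∧ c Q = x)).card : ℝ)

private theorem triF_d_le (Q : Fm) : (Q.d : ℝ) ≤ (Q.val 1 1 : ℝ) := by
  have : Q.d ≤ Q.val 1 1 := by
    unfold Fm.val
    omega
  exact_mod_cast this

private theorem triF_e_le (Q : Fm) : (Q.e : ℝ) ≤ (Q.val 1 1 : ℝ) := by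
  have : Q.e ≤ Q.val 1 1 := by
    unfold Fm.val
    omega
  exact_mod_cast this

/-- `val_bounds`, `few_small` (as in `nx_rec`) -/
theorem inx_bounds {α : Type*} (c : Fm → α) (ε : ℝ) (hε : 0 < ε) : ∃ K : ℝ, 0 ≤ K ∧
    ∀ (x : α) (T : ℝ), 0 ≤ T → inx c x T ≤ nx c x 1 1 T ∧
      nx c x 1 1 (T / (1 + ε) ^ 2) - K ≤ inx c x T := by
  classical
  obtain ⟨n0, hn0⟩ := exists_nat_gt (1 / ε)
  obtain ⟨S, hS⟩ := few_small (n0 + 1)
  refine ⟨(S.card : ℝ), Nat.cast_nonneg _, fun x T hT => ⟨?_, ?_⟩⟩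
  · unfold inx nx
    have hsub : (Qs T).filter (fun Q => (Q.val 1 1 : ℝ) ≤ T ∧ c Q = x) ⊆
        (Tr 1 1 T).filter (fun Q => c Q = x) := by
      intro Q hQ
      rw [Finset.mem_filter] at hQ ⊢
      have h := (mem_Qs hT).1 hQ.1
      refine ⟨(mem_Tr one_pos one_pos hT).2 ⟨h.1, ?_⟩, hQ.2.2⟩
      rw [div_one, div_one]
      apply Real.le_sqrt_of_sq_le
      have h2 := (val_bounds h.1 1 1).1
      simp only [Nat.cast_one, mul_one] at h2
      linarith [hQ.2.1]
    have h := Finset.card_le_card hsub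
    exact_mod_cast (by convert h)
  · have hε1 : (0 : ℝ) < (1 + ε) ^ 2 := by positivity
    have hT' : 0 ≤ T / (1 + ε) ^ 2 := div_nonneg hT hε1.le
    have hsub : (Tr 1 1 (T / (1 + ε) ^ 2)).filter (fun Q => c Q = x) ⊆
        (Qs T).filter (fun Q => (Q.val 1 1 : ℝ) ≤ T ∧ c Q = x) ∪ S := by
      intro Q hQ
      rw [Finset.mem_filter] at hQ
      obtain ⟨hOk, hle⟩ := (mem_Tr one_pos one_pos hT').1 hQ.1
      rw [Finset.mem_union]
      by_cases hn : Q.n < n0 + 1
      · exact Or.inr (hS Q hOk hn)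
      · left
        rw [div_one, div_one] at hle
        have h1 : (√(Q.d : ℝ) + √(Q.e : ℝ)) ^ 2 ≤ T / (1 + ε) ^ 2 := by
          have h2 := pow_le_pow_left₀ (by positivity) hle 2
          rwa [Real.sq_sqrt hT'] at h2
        have h2 := (val_bounds hOk 1 1).2
        simp only [Nat.cast_one, mul_one] at h2
        have hn1 : (n0 : ℝ) + 1 ≤ (Q.n : ℝ) := by
          exact_mod_cast not_lt.1 hn
        have hn0' : (0 : ℝ) ≤ n0 := Nat.cast_nonneg _
        have h3 : 2 / (Q.n : ℝ) ^ 2 ≤ 2 * ε := by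
          rw [div_le_iff₀ (by nlinarith)]
          have h4 : 1 < ε * (n0 : ℝ) := by
            rw [div_lt_iff₀ hε] at hn0
            linarith
          nlinarith
        have h4 : (Q.val 1 1 : ℝ) ≤ T := by
          calc (Q.val 1 1 : ℝ) ≤ (1 + 2 / (Q.n : ℝ) ^ 2) * (√(Q.d : ℝ) + √(Q.e : ℝ)) ^ 2 := h2
            _ ≤ (1 + ε) ^ 2 * (T / (1 + ε) ^ 2) := by
                refine mul_le_mul (by nlinarith [sq_nonneg ε]) h1 (by positivity) hε1.le
            _ = T := by field_simp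
        rw [Finset.mem_filter]
        exact ⟨(mem_Qs hT).2 ⟨hOk, (triF_d_le Q).trans h4, (triF_e_le Q).trans h4⟩, h4, hQ.2⟩
    have h := (Finset.card_le_card hsub).trans (Finset.card_union_le _ _)
    unfold inx nx
    have h' : (((Tr 1 1 (T / (1 + ε) ^ 2)).filter (fun Q => c Q = x)).card : ℝ) ≤
        (((Qs T).filter (fun Q => (Q.val 1 1 : ℝ) ≤ T ∧ c Q = x)).card : ℝ) + (S.card : ℝ) := by
      exact_mod_cast h
    have e1 : (((Tr 1 1 (T / (1 + ε) ^ 2)).filter (fun Q => c Q = x)).card : ℝ) - (S.card : ℝ) ≤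
        (((Qs T).filter (fun Q => (Q.val 1 1 : ℝ) ≤ T ∧ c Q = x)).card : ℝ) := by linarith
    convert e1

open Classical in
/-- `Qs T` is the disjoint union of `Cl T` and the forms with `Q.val 1 1 ≤ T`; a form of `Qs T` is a
root or a child of a form with `Q'.val 1 1 ≤ T`. -/
theorem Cl_inx {α : Type*} {l r : Equiv.Perm α} {c : Fm → α} (hc : Cc l r c) (x : α) (T : ℝ)
    (hT : 0 ≤ T) : |(((Cl T).filter (fun Q => c Q = x)).card : ℝ) -
      (inx c (l⁻¹ x) T + inx c (r⁻¹ x) T - inx c x T)| ≤ 2 := by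
  set A := (Qs T).filter (fun Q => c Q = x) with hA
  set In : α → Finset Fm := fun y => (Qs T).filter (fun Q => (Q.val 1 1 : ℝ) ≤ T ∧ c Q = y)
    with hIn
  have hmem : ∀ y Q, Q ∈ In y ↔ Q.Ok ∧ (Q.val 1 1 : ℝ) ≤ T ∧ c Q = y := by
    intro y Q
    simp only [hIn, Finset.mem_filter, mem_Qs hT]
    constructor
    · rintro ⟨⟨h1, -, -⟩, h2, h3⟩
      exact ⟨h1, h2, h3⟩
    · rintro ⟨h1, h2, h3⟩
      exact ⟨⟨h1, (triF_d_le Q).trans h2, (triF_e_le Q).trans h2⟩, h2, h3⟩
  -- the first decomposition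
  have hA1 : A.card = ((Cl T).filter (fun Q => c Q = x)).card + (In x).card := by
    have h1 := Finset.card_filter_add_card_filter_not (s := A) (fun Q => T < (Q.val 1 1 : ℝ))
    have h2 : A.filter (fun Q => T < (Q.val 1 1 : ℝ)) = (Cl T).filter (fun Q => c Q = x) := by
      ext Q
      simp only [hA, Cl, Finset.mem_filter]
      tauto
    have h3 : A.filter (fun Q => ¬ T < (Q.val 1 1 : ℝ)) = In x := by
      ext Q
      simp only [hA, hIn, Finset.mem_filter, not_lt]
      tauto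
    rw [h2, h3] at h1
    exact h1.symm
  -- the second decomposition
  set L := (In (l⁻¹ x)).image Fm.lc with hL
  set R := (In (r⁻¹ x)).image Fm.rc with hR
  have hLc : L.card = (In (l⁻¹ x)).card := Finset.card_image_of_injective _ fun _ _ h => lc_inj h
  have hRc : R.card = (In (r⁻¹ x)).card := Finset.card_image_of_injective _ fun _ _ h => rc_inj h
  have hle : ∀ Q : Fm, Q.lc.e = Q.val 1 1 := fun Q => by simp [Fm.lc, Fm.val]
  have hrd : ∀ Q : Fm, Q.rc.d = Q.val 1 1 := fun Q => by simp [Fm.rc, Fm.val]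
  have hdis : Disjoint L R := by
    rw [Finset.disjoint_left]
    intro Q h1 h2
    obtain ⟨P, hP, rfl⟩ := Finset.mem_image.1 h1
    obtain ⟨P', hP', h3⟩ := Finset.mem_image.1 h2
    have h4 := lc_lt ((hmem _ _).1 hP).1
    have h5 := rc_lt ((hmem _ _).1 hP').1
    rw [h3] at h5
    omega
  have hsub1 : L ∪ R ⊆ A := by
    intro Q hQ
    rw [hA, Finset.mem_filter, mem_Qs hT]
    rcases Finset.mem_union.1 hQ with h1 | h1
    · obtain ⟨P, hP, rfl⟩ := Finset.mem_image.1 h1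
      obtain ⟨h2, h3, h4⟩ := (hmem _ _).1 hP
      refine ⟨⟨lc_Ok h2, (triF_d_le P).trans h3, by rw [hle]; exact h3⟩, ?_⟩
      rw [hc.hl P h2, h4]
      exact l.apply_symm_apply x
    · obtain ⟨P, hP, rfl⟩ := Finset.mem_image.1 h1
      obtain ⟨h2, h3, h4⟩ := (hmem _ _).1 hP
      refine ⟨⟨rc_Ok h2, by rw [hrd]; exact h3, (triF_e_le P).trans h3⟩, ?_⟩
      rw [hc.hr P h2, h4]
      exact r.apply_symm_apply x
  have hsub2 : A ⊆ (L ∪ R) ∪ {(⟨1, 2, 2⟩ : Fm), ⟨2, 2, 1⟩} := by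
    intro Q hQ
    rw [hA, Finset.mem_filter, mem_Qs hT] at hQ
    obtain ⟨⟨hOk, hd, he⟩, hcx⟩ := hQ
    rw [Finset.mem_union, Finset.mem_union]
    rcases parent hOk with h1 | h1 | ⟨P, hP, h1⟩ | ⟨P, hP, h1⟩
    · right
      rw [h1]
      simp
    · right
      rw [h1]
      simp
    · left; left
      rw [hL, Finset.mem_image]
      refine ⟨P, (hmem _ _).2 ⟨hP, ?_, ?_⟩, h1.symm⟩
      · rw [← hle, ← h1]
        exact he
      · rw [h1, hc.hl P hP] at hcx
        rw [← hcx]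
        exact (l.symm_apply_apply _).symm
    · left; right
      rw [hR, Finset.mem_image]
      refine ⟨P, (hmem _ _).2 ⟨hP, ?_, ?_⟩, h1.symm⟩
      · rw [← hrd, ← h1]
        exact hd
      · rw [h1, hc.hr P hP] at hcx
        rw [← hcx]
        exact (r.symm_apply_apply _).symm
  have h1 := Finset.card_le_card hsub1
  rw [Finset.card_union_of_disjoint hdis, hLc, hRc] at h1
  have h2 := (Finset.card_le_card hsub2).trans (Finset.card_union_le _ _)
  rw [Finset.card_union_of_disjoint hdis, hLc, hRc] at h2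
  have h3 : ({(⟨1, 2, 2⟩ : Fm), ⟨2, 2, 1⟩} : Finset Fm).card ≤ 2 := Finset.card_le_two
  have h4 : A.card ≤ (In (l⁻¹ x)).card + (In (r⁻¹ x)).card + 2 := by omega
  have e1 : inx c (l⁻¹ x) T = ((In (l⁻¹ x)).card : ℝ) := by
    unfold inx
    rfl
  have e2 : inx c (r⁻¹ x) T = ((In (r⁻¹ x)).card : ℝ) := by
    unfold inx
    rfl
  have e3 : inx c x T = ((In x).card : ℝ) := by
    unfold inx
    rfl
  rw [e1, e2, e3]
  have f1 : (A.card : ℝ) = (((Cl T).filter (fun Q => c Q = x)).card : ℝ) + ((In x).card : ℝ) := by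
    exact_mod_cast hA1
  have f2 : ((In (l⁻¹ x)).card : ℝ) + ((In (r⁻¹ x)).card : ℝ) ≤ (A.card : ℝ) := by
    exact_mod_cast h1
  have f3 : (A.card : ℝ) ≤ ((In (l⁻¹ x)).card : ℝ) + ((In (r⁻¹ x)).card : ℝ) + 2 := by
    exact_mod_cast h4
  rw [abs_le]
  constructor <;> linarith

end

end Pool.Agent.Lib.MP_0b748d_nt.HH
end

section

set_option autoImplicit false

/-!
# Slopes law: classes of forms are uniformly distributed
-/

namespace Pool.Agent.Lib.MP_0b748d_nt.HH

open Filter Topology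

noncomputable section

/-- the average of the inverse levels -/
private def triD_e (n : ℕ) : ℝ := (1 / (n : ℝ) ^ 2) * ∑ i ∈ Finset.range (n ^ 2), (1 / tt n i)

private theorem triD_tt {n : ℕ} (i : ℕ) : tt n i = ((2 : ℝ) ^ (1 / (n : ℝ))) ^ i := by
  unfold tt
  rw [← Real.rpow_natCast, ← Real.rpow_mul (by norm_num)]
  congr 1
  ring

private theorem triD_tt_pos (n i : ℕ) : 0 < tt n i := by
  unfold tt
  positivity

private theorem triD_sum_le {n : ℕ} (hn : 1 ≤ n) (N : ℕ) :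
    ∑ i ∈ Finset.range N, (1 / tt n i) ≤ 4 * n := by
  have hn0 : (0 : ℝ) < n := by exact_mod_cast hn
  obtain ⟨q, hq⟩ : ∃ q : ℝ, (2 : ℝ) ^ (1 / (n : ℝ)) = q := ⟨_, rfl⟩
  have hq1 : 1 + 1 / (2 * (n : ℝ)) ≤ q := by
    rw [← hq, Real.rpow_def_of_pos (by norm_num)]
    have h1 : Real.log 2 * (1 / (n : ℝ)) + 1 ≤ Real.exp (Real.log 2 * (1 / (n : ℝ))) :=
      Real.add_one_le_exp _
    have h2 : (1 : ℝ) / 2 ≤ Real.log 2 := by
      have := Real.log_two_gt_d9
      linarith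
    have h3 : 1 / (2 * (n : ℝ)) ≤ Real.log 2 * (1 / (n : ℝ)) := by
      have h4 : 1 / (2 * (n : ℝ)) = 1 / 2 * (1 / (n : ℝ)) := by
        field_simp
      rw [h4]
      exact mul_le_mul_of_nonneg_right h2 (by positivity)
    linarith
  have hq2 : q ≤ 2 := by
    rw [← hq]
    have h1 : (2 : ℝ) ^ (1 / (n : ℝ)) ≤ (2 : ℝ) ^ (1 : ℝ) := by
      apply Real.rpow_le_rpow_of_exponent_le (by norm_num)
      rw [div_le_one hn0]
      exact_mod_cast hn
    rwa [Real.rpow_one] at h1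
  have h5 : (0 : ℝ) < 1 / (2 * (n : ℝ)) := by positivity
  have hq0 : 1 < q := by linarith
  have hq00 : 0 < q := by linarith
  have h6 : ∀ i, 1 / tt n i = (q⁻¹) ^ i := by
    intro i
    rw [triD_tt, hq, inv_pow, one_div]
  simp only [h6]
  have h7 : q⁻¹ < 1 := inv_lt_one_of_one_lt₀ hq0
  have h8 : ∑ i ∈ Finset.range N, (q⁻¹) ^ i ≤ (1 - q⁻¹)⁻¹ := by
    have h9 : Summable (fun i : ℕ => (q⁻¹) ^ i) :=
      summable_geometric_of_lt_one (inv_pos.2 hq00).le h7
    rw [← tsum_geometric_of_lt_one (inv_pos.2 hq00).le h7]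
    exact h9.sum_le_tsum _ (fun i _ => pow_nonneg (inv_pos.2 hq00).le i)
  refine h8.trans ?_
  have h10 : (1 - q⁻¹)⁻¹ = q / (q - 1) := by
    have : q - 1 ≠ 0 := by linarith
    field_simp
  rw [h10, div_le_iff₀ (by linarith)]
  have h11 : 4 * (n : ℝ) * (1 / (2 * (n : ℝ))) = 2 := by field_simp; norm_num
  calc q ≤ 2 := hq2
    _ = 4 * (n : ℝ) * (1 / (2 * (n : ℝ))) := h11.symm
    _ ≤ 4 * (n : ℝ) * (q - 1) := mul_le_mul_of_nonneg_left (by linarith) (by positivity)

private theorem triD_e_tendsto : Tendsto triD_e atTop (𝓝 0) := by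
  have h1 : Tendsto (fun n : ℕ => 4 / (n : ℝ)) atTop (𝓝 0) :=
    tendsto_const_div_atTop_nhds_zero_nat 4
  refine squeeze_zero' ?_ ?_ h1
  · filter_upwards with n
    unfold triD_e
    exact mul_nonneg (by positivity)
      (Finset.sum_nonneg fun i _ => (one_div_pos.2 (triD_tt_pos n i)).le)
  · filter_upwards [eventually_ge_atTop 1] with n hn
    have hn0 : (0 : ℝ) < n := by exact_mod_cast hn
    unfold triD_e
    calc (1 / (n : ℝ) ^ 2) * ∑ i ∈ Finset.range (n ^ 2), (1 / tt n i)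
        ≤ (1 / (n : ℝ) ^ 2) * (4 * n) :=
          mul_le_mul_of_nonneg_left (triD_sum_le hn _) (by positivity)
      _ = 4 / (n : ℝ) := by field_simp

/-- averaging an inequality between three counting functions -/
private theorem triD_avg {n : ℕ} {f g h : ℕ → ℝ} {K : ℝ}
    (hfg : ∀ i, f i ≤ g i + h i + K) :
    (1 / (n : ℝ) ^ 2) * ∑ i ∈ Finset.range (n ^ 2), (1 / tt n i) * f i ≤
      (1 / (n : ℝ) ^ 2) * ∑ i ∈ Finset.range (n ^ 2), (1 / tt n i) * g i +
      (1 / (n : ℝ) ^ 2) * ∑ i ∈ Finset.range (n ^ 2), (1 / tt n i) * h i + K * triD_e n := by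
  have h1 : K * triD_e n =
      (1 / (n : ℝ) ^ 2) * ∑ i ∈ Finset.range (n ^ 2), (1 / tt n i) * K := by
    unfold triD_e
    rw [← Finset.sum_mul]
    ring
  rw [h1, ← mul_add, ← mul_add, ← Finset.sum_add_distrib, ← Finset.sum_add_distrib]
  refine mul_le_mul_of_nonneg_left (Finset.sum_le_sum fun i _ => ?_) (by positivity)
  rw [← mul_add, ← mul_add]
  exact mul_le_mul_of_nonneg_left (hfg i) (one_div_pos.2 (triD_tt_pos n i)).le

/-- Average `nx_rec` over the levels (`∑ 1 / tt n i / n² → 0`), use `nx_scale` and `ta_scale` with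
`t = 1 / (1 + ε)`, and let `ε → 0`. -/
theorem ta_rec {α : Type*} (U : Ultrafilter ℕ) (hU : (U : Filter ℕ) ≤ atTop) {l r : Equiv.Perm α}
    {c : Fm → α} (hc : Cc l r c) (x : α) {a b : ℝ} (ha : 0 < a) (hb : 0 < b) :
    ta U c x a b = ta U c (l⁻¹ x) (a * b / (a + b)) b + ta U c (r⁻¹ x) a (a * b / (a + b)) := by
  obtain ⟨A, hA⟩ : ∃ A, a * b / (a + b) = A := ⟨_, rfl⟩
  have hA0 : 0 < A := by rw [← hA]; positivity
  rw [hA]
  have htd : ∀ (y : α) {a' b' : ℝ}, 0 < a' → 0 < b' →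
      Tendsto (tan' c y a' b') U (𝓝 (ta U c y a' b')) :=
    fun y a' b' ha' hb' => ul_tendsto U (tan_Bs c y ha' hb')
  have he : Tendsto triD_e U (𝓝 0) := triD_e_tendsto.mono_left hU
  have hpos : ∀ n i, 0 ≤ tt n i := fun n i => (triD_tt_pos n i).le
  apply le_antisymm
  · obtain ⟨K, _, hK⟩ := nx_rec hc 1 one_pos
    have h1 : ∀ n, tan' c x a b n ≤
        tan' c (l⁻¹ x) A b n + tan' c (r⁻¹ x) a A n + 2 * triD_e n := by
      intro n
      unfold tan'
      refine triD_avg fun i => ?_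
      have h2 := (hK x a b (tt n i) ha hb (hpos n i)).1
      rw [hA] at h2
      exact h2
    have h3 := le_of_tendsto_of_tendsto (htd x ha hb)
      (((htd (l⁻¹ x) hA0 hb).add (htd (r⁻¹ x) ha hA0)).add (he.const_mul 2))
      (Eventually.of_forall h1)
    rwa [mul_zero, add_zero] at h3
  · obtain ⟨S, hS⟩ : ∃ S, ta U c (l⁻¹ x) A b + ta U c (r⁻¹ x) a A = S := ⟨_, rfl⟩
    rw [hS]
    have key : ∀ ε : ℝ, 0 < ε → (1 / (1 + ε)) ^ 2 * S ≤ ta U c x a b := by
      intro ε hε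
      obtain ⟨t, ht⟩ : ∃ t, 1 / (1 + ε) = t := ⟨_, rfl⟩
      have ht0 : 0 < t := by rw [← ht]; positivity
      obtain ⟨K, _, hK⟩ := nx_rec hc ε hε
      have h1 : ∀ n, tan' c (l⁻¹ x) (t * A) (t * b) n ≤
          tan' c x a b n + (fun m => -tan' c (r⁻¹ x) (t * a) (t * A) m) n + K * triD_e n := by
        intro n
        have h2 : (fun m => -tan' c (r⁻¹ x) (t * a) (t * A) m) n =
            (1 / (n : ℝ) ^ 2) * ∑ i ∈ Finset.range (n ^ 2), (1 / tt n i) *
              (-nx c (r⁻¹ x) (t * a) (t * A) (tt n i)) := by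
          simp only [tan', mul_neg, Finset.sum_neg_distrib]
        rw [h2]
        unfold tan'
        refine triD_avg fun i => ?_
        have h2 := (hK x a b (tt n i) ha hb (hpos n i)).2
        have h4 : tt n i / (1 + ε) ^ 2 = t ^ 2 * tt n i := by
          rw [← ht]
          field_simp
        rw [hA, h4, ← nx_scale c _ hA0 hb (hpos n i) ht0,
          ← nx_scale c _ ha hA0 (hpos n i) ht0] at h2
        linarith
      have h3 := le_of_tendsto_of_tendsto
        (htd (l⁻¹ x) (mul_pos ht0 hA0) (mul_pos ht0 hb))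
        (((htd x ha hb).add ((htd (r⁻¹ x) (mul_pos ht0 ha) (mul_pos ht0 hA0)).neg)).add
          (he.const_mul K)) (Eventually.of_forall h1)
      rw [mul_zero, add_zero, ta_scale U hU c _ hA0 hb ht0, ta_scale U hU c _ ha hA0 ht0] at h3
      rw [ht, ← hS]
      linarith
    have hlim : Tendsto (fun ε : ℝ => (1 / (1 + ε)) ^ 2 * S) (𝓝[>] 0) (𝓝 S) := by
      have h1 : ContinuousAt (fun ε : ℝ => (1 / (1 + ε)) ^ 2 * S) 0 := by
        apply ContinuousAt.mul _ continuousAt_const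
        apply ContinuousAt.pow
        apply ContinuousAt.div continuousAt_const (by fun_prop)
        norm_num
      have h2 : (1 / (1 + (0 : ℝ))) ^ 2 * S = S := by norm_num
      have h3 := h1.tendsto
      rw [h2] at h3
      exact h3.mono_left nhdsWithin_le_nhds
    exact le_of_tendsto hlim (by filter_upwards [self_mem_nhdsWithin] with ε hε using key ε hε)

end

end Pool.Agent.Lib.MP_0b748d_nt.HH
end

section

set_option autoImplicit false

/-!
# Slopes law: classes of forms are uniformly distributed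
-/

namespace Pool.Agent.Lib.MP_0b748d_nt.HH

open Filter Topology

noncomputable section

/-- `θ x s = ta x s 1 / s`, so `ta x a b = a b θ x (a / b)` by `ta_scale`; `ta_le`, `ta_mono`,
`ta_rec`. -/
theorem Th_ta {α : Type*} (U : Ultrafilter ℕ) (hU : (U : Filter ℕ) ≤ atTop) {l r : Equiv.Perm α}
    {c : Fm → α} (hc : Cc l r c) : ∃ C : ℝ, Th l r (fun x s => ta U c x s 1 / s) C := by
  obtain ⟨C, hC1, hC⟩ := ta_le U c
  refine ⟨C, ?_, ?_, ?_, ?_, ?_⟩
  · intro x s hs
    exact div_nonneg (hC x s 1 hs one_pos).1 hs.le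
  · intro x s hs
    have h1 := (hC x s 1 hs one_pos).2
    rw [mul_one] at h1
    exact (div_le_iff₀ hs).2 h1
  · intro x s t hs hst
    have ht : 0 < t := hs.trans_le hst
    have h1 := ta_mono U c x hs one_pos hst (le_refl (1 : ℝ))
    have h2 : s / t * (ta U c x s 1 / s) = ta U c x s 1 / t := by
      field_simp
    rw [h2]
    exact div_le_div_of_nonneg_right h1 ht.le
  · intro x s t hs hst
    have ht : 0 < t := hs.trans_le hst
    have hst' : 0 < s / t := div_pos hs ht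
    have h1 := ta_scale U hU c x (t := s / t) ht one_pos hst'
    have h2 : s / t * t = s := div_mul_cancel₀ s ht.ne'
    rw [h2, mul_one] at h1
    have h3 := ta_mono U c x hs hst' (le_refl s) ((div_le_one ht).2 hst)
    rw [h1] at h3
    have h4 : s / t * (ta U c x t 1 / t) = (s / t) ^ 2 * ta U c x t 1 / s := by
      field_simp
    rw [h4]
    exact div_le_div_of_nonneg_right h3 hs.le
  · intro x s hs
    have h1s : 0 < 1 + s := by linarith
    have h1 := ta_rec U hU hc x hs one_pos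
    have hq : 0 < s / (1 + s) := div_pos hs h1s
    have e1 : s * 1 / (s + 1) = s / (1 + s) := by rw [mul_one, add_comm]
    rw [e1] at h1
    have h2 := ta_scale U hU c (r⁻¹ x) (t := s / (1 + s)) h1s one_pos hq
    have e2 : s / (1 + s) * (1 + s) = s := div_mul_cancel₀ s h1s.ne'
    rw [e2, mul_one] at h2
    rw [h2] at h1
    change ta U c x s 1 / s = 1 / (1 + s) * (ta U c (l⁻¹ x) (s / (1 + s)) 1 / (s / (1 + s))) +
      s / (1 + s) * (ta U c (r⁻¹ x) (1 + s) 1 / (1 + s))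
    rw [h1]
    field_simp

end

end Pool.Agent.Lib.MP_0b748d_nt.HH
end

section

set_option autoImplicit false

/-!
# Slopes law: classes of forms are uniformly distributed
-/

namespace Pool.Agent.Lib.MP_0b748d_nt.HH

open Filter Topology

noncomputable section

/-- average over the levels of a function of the level -/
private def tgA (g : ℝ → ℝ) (n : ℕ) : ℝ :=
  (1 / (n : ℝ) ^ 2) * ∑ i ∈ Finset.range (n ^ 2), (1 / tt n i) * g (tt n i)

private theorem tgA_add (g h : ℝ → ℝ) (n : ℕ) :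
    tgA (fun T => g T + h T) n = tgA g n + tgA h n := by
  unfold tgA
  rw [← mul_add, ← Finset.sum_add_distrib]
  congr 1
  exact Finset.sum_congr rfl fun i _ => by ring

private theorem tgA_smul (c : ℝ) (g : ℝ → ℝ) (n : ℕ) :
    tgA (fun T => c * g T) n = c * tgA g n := by
  have h1 : ∑ i ∈ Finset.range (n ^ 2), (1 / tt n i) * (c * g (tt n i)) =
      c * ∑ i ∈ Finset.range (n ^ 2), (1 / tt n i) * g (tt n i) := by
    rw [Finset.mul_sum]
    exact Finset.sum_congr rfl fun i _ => by ring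
  show (1 / (n : ℝ) ^ 2) * ∑ i ∈ Finset.range (n ^ 2), (1 / tt n i) * (c * g (tt n i)) =
    c * ((1 / (n : ℝ) ^ 2) * ∑ i ∈ Finset.range (n ^ 2), (1 / tt n i) * g (tt n i))
  rw [h1]
  ring

private theorem tgA_mono {g h : ℝ → ℝ} (hgh : ∀ T, 0 ≤ T → g T ≤ h T) (n : ℕ) :
    tgA g n ≤ tgA h n := by
  unfold tgA
  refine mul_le_mul_of_nonneg_left (Finset.sum_le_sum fun i _ => ?_) (by positivity)
  have h1 := tt_pos n i
  exact mul_le_mul_of_nonneg_left (hgh _ h1.le) (by positivity)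

private theorem tgA_Bs {g : ℝ → ℝ} {C : ℝ} (hg : ∀ T, 0 ≤ T → |g T| ≤ C * T) : Bs (tgA g) := by
  refine ⟨|C|, fun n => ?_⟩
  unfold tgA
  rw [abs_mul]
  rcases Nat.eq_zero_or_pos n with h0 | h0
  · rw [h0]
    simp
  · have hn : (0 : ℝ) < (n : ℝ) ^ 2 := by positivity
    have h1 : |∑ i ∈ Finset.range (n ^ 2), (1 / tt n i) * g (tt n i)| ≤
        ∑ _i ∈ Finset.range (n ^ 2), |C| := by
      refine (Finset.abs_sum_le_sum_abs _ _).trans (Finset.sum_le_sum fun i _ => ?_)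
      have h2 := tt_pos n i
      rw [abs_mul, abs_of_pos (by positivity : 0 < 1 / tt n i), one_div, inv_mul_le_iff₀ h2]
      refine (hg _ h2.le).trans ?_
      rw [mul_comm]
      exact mul_le_mul_of_nonneg_left (le_abs_self C) h2.le
    rw [Finset.sum_const, Finset.card_range, nsmul_eq_mul] at h1
    push_cast at h1
    rw [abs_of_pos (by positivity : 0 < 1 / (n : ℝ) ^ 2), one_div, inv_mul_le_iff₀ hn]
    exact h1

private theorem tgA_one_le (n : ℕ) (hn : 1 ≤ n) : tgA (fun _ => 1) n ≤ 4 * (1 / (n : ℝ)) := by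
  have hn' : (1 : ℝ) ≤ n := by exact_mod_cast hn
  have hn0 : (0 : ℝ) < n := by linarith
  obtain ⟨q, hq⟩ : ∃ q : ℝ, q = (2 : ℝ) ^ (1 / (n : ℝ)) := ⟨_, rfl⟩
  have hq1 : 1 + 1 / (2 * (n : ℝ)) ≤ q := by
    have h1 : q = Real.exp (Real.log 2 * (1 / (n : ℝ))) := by
      rw [hq, Real.rpow_def_of_pos (by norm_num)]
    have h2 := Real.add_one_le_exp (Real.log 2 * (1 / (n : ℝ)))
    have h3 : (1 : ℝ) / 2 ≤ Real.log 2 := by
      have := Real.log_two_gt_d9
      linarith
    have h4 : 1 / (2 * (n : ℝ)) ≤ Real.log 2 * (1 / (n : ℝ)) := by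
      have h5 : 1 / (2 * (n : ℝ)) = 1 / 2 * (1 / (n : ℝ)) := by field_simp
      rw [h5]
      exact mul_le_mul_of_nonneg_right h3 (by positivity)
    rw [h1]
    linarith
  have hq2 : q ≤ 2 := by
    rw [hq]
    calc (2 : ℝ) ^ (1 / (n : ℝ)) ≤ (2 : ℝ) ^ (1 : ℝ) := by
          refine Real.rpow_le_rpow_of_exponent_le (by norm_num) ?_
          rw [div_le_one hn0]
          exact hn'
      _ = 2 := Real.rpow_one 2
  have hq0 : 0 < q := by linarith [show 0 < 1 / (2 * (n : ℝ)) by positivity]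
  have htt : ∀ i, 1 / tt n i * (fun _ : ℝ => (1 : ℝ)) (tt n i) = (q⁻¹) ^ i := by
    intro i
    show 1 / tt n i * 1 = (q⁻¹) ^ i
    rw [mul_one, one_div, inv_pow, hq, ← Real.rpow_natCast, ← Real.rpow_mul (by norm_num)]
    unfold tt
    congr 2
    ring
  unfold tgA
  rw [Finset.sum_congr rfl (fun i _ => htt i)]
  have hgeo : (1 - q⁻¹) * ∑ i ∈ Finset.range (n ^ 2), (q⁻¹) ^ i ≤ 1 := by
    rw [mul_neg_geom_sum]
    have : 0 ≤ (q⁻¹) ^ (n ^ 2) := by positivity
    linarith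
  have h1 : 1 / (4 * (n : ℝ)) ≤ 1 - q⁻¹ := by
    have h2 : q⁻¹ ≤ 1 - 1 / (4 * (n : ℝ)) := by
      rw [inv_le_iff_one_le_mul₀ hq0]
      have h3 : 1 / (4 * (n : ℝ)) * q ≤ 1 / (2 * (n : ℝ)) := by
        have h4 : 1 / (4 * (n : ℝ)) * q ≤ 1 / (4 * (n : ℝ)) * 2 :=
          mul_le_mul_of_nonneg_left hq2 (by positivity)
        have h5 : 1 / (4 * (n : ℝ)) * 2 = 1 / (2 * (n : ℝ)) := by field_simp; norm_num
        linarith
      nlinarith
    linarith
  have hS : 0 ≤ ∑ i ∈ Finset.range (n ^ 2), (q⁻¹) ^ i :=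
    Finset.sum_nonneg fun i _ => by positivity
  have h2 : 1 / (4 * (n : ℝ)) * ∑ i ∈ Finset.range (n ^ 2), (q⁻¹) ^ i ≤ 1 :=
    (mul_le_mul_of_nonneg_right h1 hS).trans hgeo
  have h3 : ∑ i ∈ Finset.range (n ^ 2), (q⁻¹) ^ i ≤ 4 * n := by
    rw [one_div, inv_mul_le_iff₀ (by positivity)] at h2
    linarith
  have h4 : 1 / (n : ℝ) ^ 2 * ∑ i ∈ Finset.range (n ^ 2), (q⁻¹) ^ i ≤ 1 / (n : ℝ) ^ 2 * (4 * n) :=
    mul_le_mul_of_nonneg_left h3 (by positivity)
  refine h4.trans (le_of_eq ?_)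
  field_simp

private theorem tgA_one_tendsto : Tendsto (tgA (fun _ => 1)) atTop (𝓝 0) := by
  refine squeeze_zero' (f := tgA (fun _ => 1)) (g := fun n : ℕ => 4 * (1 / (n : ℝ))) ?_ ?_ ?_
  · refine Filter.Eventually.of_forall fun n => ?_
    unfold tgA
    refine mul_nonneg (by positivity) (Finset.sum_nonneg fun i _ => ?_)
    have := tt_pos n i
    positivity
  · filter_upwards [eventually_ge_atTop 1] with n hn
    exact tgA_one_le n hn
  · have h := (tendsto_const_div_atTop_nhds_zero_nat (1 : ℝ)).const_mul 4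
    rwa [mul_zero] at h

private theorem tg_inx_nonneg {α : Type*} (c : Fm → α) (x : α) (T : ℝ) : 0 ≤ inx c x T := by
  unfold inx
  positivity

private theorem tg_inx_Bs {α : Type*} (c : Fm → α) (x : α) : Bs (tgA (inx c x)) := by
  obtain ⟨C, -, hC⟩ := nx_le c
  obtain ⟨K, -, hK⟩ := inx_bounds c 1 one_pos
  refine tgA_Bs (C := C) fun T hT => ?_
  rw [abs_of_nonneg (tg_inx_nonneg c x T)]
  refine ((hK x T hT).1).trans ((hC x 1 1 T one_pos one_pos hT).trans ?_)
  rw [one_mul, one_mul]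

private theorem tg_inx {α : Type*} (U : Ultrafilter ℕ) (hU : (U : Filter ℕ) ≤ atTop)
    (c : Fm → α) (x : α) : ul U (tgA (inx c x)) = ta U c x 1 1 := by
  have hB := tg_inx_Bs c x
  have hta : ta U c x 1 1 = ul U (fun n => tan' c x 1 1 n) := rfl
  obtain ⟨C, hC1, hC⟩ := nx_le c
  have h1B : Bs (tgA (fun _ => 1)) := by
    obtain ⟨D, hD⟩ := tgA_one_tendsto.bddAbove_range
    refine ⟨D, fun n => ?_⟩
    rw [abs_of_nonneg]
    · exact hD ⟨n, rfl⟩
    · unfold tgA
      refine mul_nonneg (by positivity) (Finset.sum_nonneg fun i _ => ?_)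
      have := tt_pos n i
      positivity
  have h10 : ul U (tgA (fun _ => 1)) = 0 := ul_eq (tgA_one_tendsto.mono_left hU)
  have hlow : ∀ ε : ℝ, 0 < ε → ta U c x 1 1 ≤ (1 + ε) ^ 2 * ul U (tgA (inx c x)) := by
    intro ε hε
    obtain ⟨K, hK0, hK⟩ := inx_bounds c ε hε
    obtain ⟨t, ht⟩ : ∃ t : ℝ, t = 1 / (1 + ε) := ⟨_, rfl⟩
    have ht0 : 0 < t := by rw [ht]; positivity
    have ht1 : t ^ 2 * (1 + ε) ^ 2 = 1 := by
      rw [ht]
      field_simp
    have h2 : ∀ n, tan' c x (t * 1) (t * 1) n + (-K) * tgA (fun _ => 1) n ≤ tgA (inx c x) n := by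
      intro n
      have h3 : tan' c x (t * 1) (t * 1) n = tgA (nx c x (t * 1) (t * 1)) n := rfl
      rw [h3, ← tgA_smul, ← tgA_add]
      refine tgA_mono (fun T hT => ?_) n
      have h4 := (hK x T hT).2
      have h5 := nx_scale c x (a := 1) (b := 1) (X := T) (t := t) one_pos one_pos hT ht0
      have h6 : t ^ 2 * T = T / (1 + ε) ^ 2 := by
        rw [eq_div_iff (by positivity), mul_right_comm, ht1, one_mul]
      rw [h6] at h5
      rw [h5]
      linarith
    have h3 : ul U (fun n => tan' c x (t * 1) (t * 1) n + (-K) * tgA (fun _ => 1) n) ≤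
        ul U (tgA (inx c x)) :=
      ul_mono (Bs_add (tan_Bs c x (by positivity) (by positivity)) (Bs_smul _ h1B)) hB
        (Filter.Eventually.of_forall h2)
    rw [ul_add (tan_Bs c x (by positivity) (by positivity)) (Bs_smul _ h1B), ul_smul _ h1B, h10,
      mul_zero, add_zero] at h3
    have h4 : ta U c x (t * 1) (t * 1) = t ^ 2 * ta U c x 1 1 :=
      ta_scale U hU c x one_pos one_pos ht0
    have h5 : ul U (fun n => tan' c x (t * 1) (t * 1) n) = ta U c x (t * 1) (t * 1) := rfl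
    rw [h5, h4] at h3
    calc ta U c x 1 1 = (1 + ε) ^ 2 * (t ^ 2 * ta U c x 1 1) := by
          rw [← mul_assoc, mul_comm ((1 + ε) ^ 2), ht1, one_mul]
      _ ≤ (1 + ε) ^ 2 * ul U (tgA (inx c x)) := mul_le_mul_of_nonneg_left h3 (by positivity)
  refine le_antisymm ?_ ?_
  · rw [hta]
    refine ul_mono hB (tan_Bs c x one_pos one_pos) (Filter.Eventually.of_forall fun n => ?_)
    have h3 : tan' c x 1 1 n = tgA (nx c x 1 1) n := rfl
    rw [h3]
    obtain ⟨K, -, hK⟩ := inx_bounds c 1 one_pos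
    exact tgA_mono (fun T hT => (hK x T hT).1) n
  · have h2 : Tendsto (fun k : ℕ => (1 + 1 / ((k : ℝ) + 1)) ^ 2 * ul U (tgA (inx c x))) atTop
        (𝓝 ((1 + 0) ^ 2 * ul U (tgA (inx c x)))) :=
      (((tendsto_one_div_add_atTop_nhds_zero_nat (𝕜 := ℝ)).const_add 1).pow 2).mul_const _
    rw [add_zero, one_pow, one_mul] at h2
    exact ge_of_tendsto' h2 fun k => hlow _ (by positivity)

open Classical in
/-- `Cl_inx`, `inx_bounds`, `ta_scale`, `ε → 0` -/
theorem Av_class {α : Type*} (U : Ultrafilter ℕ) (hU : (U : Filter ℕ) ≤ atTop)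
    {l r : Equiv.Perm α} {c : Fm → α} (hc : Cc l r c) (x : α) :
    Av U (fun _ _ Q => if c Q = x then (1 : ℝ) else 0) =
      ta U c (l⁻¹ x) 1 1 + ta U c (r⁻¹ x) 1 1 - ta U c x 1 1 := by
  obtain ⟨g, hg⟩ : ∃ g : ℝ → ℝ, g = fun T => (((Cl T).filter (fun Q => c Q = x)).card : ℝ) :=
    ⟨_, rfl⟩
  have h1 : Av U (fun _ _ Q => if c Q = x then (1 : ℝ) else 0) = ul U (tgA g) := by
    unfold Av
    congr 1
    funext n
    unfold AvN tgA
    congr 1
    refine Finset.sum_congr rfl fun i _ => ?_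
    rw [hg]
    show 1 / tt n i * ∑ Q ∈ Cl (tt n i), (if c Q = x then (1 : ℝ) else 0) =
      1 / tt n i * (((Cl (tt n i)).filter (fun Q => c Q = x)).card : ℝ)
    rw [Finset.sum_boole]
  have hgB : Bs (tgA g) := by
    obtain ⟨C, -, hC⟩ := Cl_card
    refine tgA_Bs (C := C) fun T hT => ?_
    have h2 : (0 : ℝ) ≤ g T := by rw [hg]; exact Nat.cast_nonneg _
    rw [abs_of_nonneg h2, hg]
    refine le_trans ?_ (hC T hT)
    show (((Cl T).filter (fun Q => c Q = x)).card : ℝ) ≤ ((Cl T).card : ℝ)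
    exact_mod_cast Finset.card_filter_le _ _
  have b1 := tg_inx_Bs c (l⁻¹ x)
  have b2 := tg_inx_Bs c (r⁻¹ x)
  have b3 := tg_inx_Bs c x
  have hsum : ∀ n, tgA (fun T => inx c (l⁻¹ x) T + inx c (r⁻¹ x) T + -1 * inx c x T) n =
      tgA (inx c (l⁻¹ x)) n + tgA (inx c (r⁻¹ x)) n + -1 * tgA (inx c x) n := by
    intro n
    rw [tgA_add (fun T => inx c (l⁻¹ x) T + inx c (r⁻¹ x) T) (fun T => -1 * inx c x T),
      tgA_add (inx c (l⁻¹ x)) (inx c (r⁻¹ x)), tgA_smul]
  have h2 : ul U (tgA g) =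
      ul U (fun n => tgA (inx c (l⁻¹ x)) n + tgA (inx c (r⁻¹ x)) n + -1 * tgA (inx c x) n) := by
    refine ul_eq_of_sub hU hgB (Bs_add (Bs_add b1 b2) (Bs_smul _ b3)) ?_
    have h3 : Tendsto (fun n => 2 * tgA (fun _ => 1) n) atTop (𝓝 0) := by
      have := tgA_one_tendsto.const_mul 2
      rwa [mul_zero] at this
    refine squeeze_zero_norm (fun n => ?_) h3
    rw [Real.norm_eq_abs, ← hsum, abs_le]
    have h4 : ∀ T, 0 ≤ T → |g T - (inx c (l⁻¹ x) T + inx c (r⁻¹ x) T + -1 * inx c x T)| ≤ 2 := by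
      intro T hT
      have h5 := Cl_inx hc x T hT
      rw [hg]
      have h6 : inx c (l⁻¹ x) T + inx c (r⁻¹ x) T + -1 * inx c x T =
        inx c (l⁻¹ x) T + inx c (r⁻¹ x) T - inx c x T := by ring
      rw [h6]
      exact h5
    constructor
    · have h5 : tgA (fun T => inx c (l⁻¹ x) T + inx c (r⁻¹ x) T + -1 * inx c x T) n ≤
          tgA (fun T => g T + 2 * (fun _ : ℝ => (1 : ℝ)) T) n :=
        tgA_mono (fun T hT => by
          have h6 := (abs_le.1 (h4 T hT)).1
          show _ ≤ g T + 2 * 1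
          linarith) n
      rw [tgA_add g (fun T => 2 * (fun _ : ℝ => (1 : ℝ)) T), tgA_smul 2 (fun _ => 1)] at h5
      linarith
    · have h5 : tgA g n ≤ tgA (fun T => (inx c (l⁻¹ x) T + inx c (r⁻¹ x) T + -1 * inx c x T) +
          2 * (fun _ : ℝ => (1 : ℝ)) T) n :=
        tgA_mono (fun T hT => by
          have h6 := (abs_le.1 (h4 T hT)).2
          show _ ≤ _ + 2 * 1
          linarith) n
      rw [tgA_add (fun T => inx c (l⁻¹ x) T + inx c (r⁻¹ x) T + -1 * inx c x T)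
        (fun T => 2 * (fun _ : ℝ => (1 : ℝ)) T), tgA_smul 2 (fun _ => 1)] at h5
      linarith
  rw [h1, h2, ul_add (Bs_add b1 b2) (Bs_smul _ b3), ul_add b1 b2, ul_smul _ b3, tg_inx U hU,
    tg_inx U hU, tg_inx U hU]
  ring

open Classical in
/-- **Slopes law.** `theta_const` applied to `Th_ta`, and `Av_class`. -/
theorem slopes {α : Type*} [Finite α] [Nonempty α] (U : Ultrafilter ℕ) (hU : (U : Filter ℕ) ≤ atTop)
    {l r : Equiv.Perm α} {c : Fm → α} (hc : Cc l r c)
    (htr : ∀ x y : α, ∃ g ∈ Subgroup.closure ({l, r} : Set (Equiv.Perm α)), g x = y) (x y : α) :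
    Av U (fun _ _ Q => if c Q = x then (1 : ℝ) else 0) =
      Av U (fun _ _ Q => if c Q = y then (1 : ℝ) else 0) := by
  obtain ⟨C, hC⟩ := Th_ta U hU hc
  have h1 : ∀ z : α, ta U c z 1 1 = tsup (fun x s => ta U c x s 1 / s) := by
    intro z
    have h2 := theta_const hC htr z
    rw [div_one] at h2
    exact h2
  rw [Av_class U hU hc x, Av_class U hU hc y, h1, h1, h1, h1, h1, h1]

end

end Pool.Agent.Lib.MP_0b748d_nt.HH
end

section

set_option autoImplicit false

/-!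
# Residues of forms modulo primes
-/

namespace Pool.Agent.Lib.MP_0b748d_nt.HH

open Filter Topology

noncomputable section

private lemma resD_orb {p : ℕ} {g : Equiv.Perm (Rp p)}
    (hg : g ∈ ({rl p, rr p} : Set (Equiv.Perm (Rp p)))) (y : Rp p) : g y ∈ Orb p ↔ y ∈ Orb p := by
  constructor
  · rintro ⟨h, hh, hy⟩
    refine ⟨g⁻¹ * h, Subgroup.mul_mem _ (Subgroup.inv_mem _ (Subgroup.subset_closure hg)) hh, ?_⟩
    rw [Equiv.Perm.mul_apply, hy]
    exact Equiv.symm_apply_apply g y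
  · rintro ⟨h, hh, hy⟩
    refine ⟨g * h, Subgroup.mul_mem _ (Subgroup.subset_closure hg) hh, ?_⟩
    rw [Equiv.Perm.mul_apply, hy]

private lemma resD_l (S : Finset ℕ) (y : RS S) :
    Equiv.piCongrRight (fun p : {p : ℕ // p ∈ S} => rl p) y ∈ OrbS S ↔ y ∈ OrbS S :=
  forall_congr' fun p => resD_orb (Or.inl rfl) (y p)

private lemma resD_r (S : Finset ℕ) (y : RS S) :
    Equiv.piCongrRight (fun p : {p : ℕ // p ∈ S} => rr p) y ∈ OrbS S ↔ y ∈ OrbS S :=
  forall_congr' fun p => resD_orb (Or.inr rfl) (y p)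

open Classical in
/-- **Uniform distribution of residues.** `slopes` for the finite type `OrbS S` (nonempty; it is stable
under both maps and their inverses), with `c Q = resS S Q` for `Ok` forms (`res_mem`) and the root
otherwise. -/
theorem resS_unif (U : Ultrafilter ℕ) (hU : (U : Filter ℕ) ≤ atTop) (S : Finset ℕ)
    (hS : ∀ p ∈ S, p.Prime) {y y' : RS S} (hy : y ∈ OrbS S) (hy' : y' ∈ OrbS S) :
    Av U (fun _ _ Q => if resS S Q = y then (1 : ℝ) else 0) =
      Av U (fun _ _ Q => if resS S Q = y' then (1 : ℝ) else 0) := by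
  set L : Equiv.Perm (RS S) := Equiv.piCongrRight (fun p : {p : ℕ // p ∈ S} => rl p) with hL
  set R : Equiv.Perm (RS S) := Equiv.piCongrRight (fun p : {p : ℕ // p ∈ S} => rr p) with hR
  let α : Type := {y : RS S // y ∈ OrbS S}
  let l : Equiv.Perm α := L.subtypePerm (resD_l S)
  let r : Equiv.Perm α := R.subtypePerm (resD_r S)
  have hne : ∀ p : {p : ℕ // p ∈ S}, NeZero (p : ℕ) := fun p => ⟨(hS p.1 p.2).ne_zero⟩
  have hfinR : ∀ p : {p : ℕ // p ∈ S}, Finite (Rp p) := fun p => by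
    have := hne p
    infer_instance
  have : Finite (RS S) := by
    have := hfinR
    exact Pi.finite
  have : Finite α := Subtype.finite
  have : Nonempty α := ⟨⟨y, hy⟩⟩
  have hres : ∀ Q : Fm, Q.Ok → resS S Q ∈ OrbS S := fun Q hQ p => res_mem hQ p
  let c : Fm → α := fun Q => if h : resS S Q ∈ OrbS S then ⟨resS S Q, h⟩ else ⟨y, hy⟩
  have hc : ∀ Q : Fm, Q.Ok → (c Q).1 = resS S Q := by
    intro Q hQ
    simp only [c]
    rw [dif_pos (hres Q hQ)]
  have hlcOk : ∀ Q : Fm, Q.Ok → Q.lc.Ok := by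
    rintro Q ⟨h1, h2, h3⟩
    refine ⟨h1, by simp only [Fm.lc]; omega, ?_⟩
    simp only [Fm.lc]
    nlinarith
  have hrcOk : ∀ Q : Fm, Q.Ok → Q.rc.Ok := by
    rintro Q ⟨h1, h2, h3⟩
    refine ⟨by simp only [Fm.rc]; omega, h2, ?_⟩
    simp only [Fm.rc]
    nlinarith
  have hCc : Cc l r c := by
    constructor
    · intro Q hQ
      apply Subtype.ext
      rw [hc _ (hlcOk Q hQ)]
      change resS S Q.lc = L (c Q).1
      rw [hc Q hQ]
      funext p
      change res p Q.lc = rl p (res p Q)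
      simp [res, rl, Fm.lc]
    · intro Q hQ
      apply Subtype.ext
      rw [hc _ (hrcOk Q hQ)]
      change resS S Q.rc = R (c Q).1
      rw [hc Q hQ]
      funext p
      change res p Q.rc = rr p (res p Q)
      simp [res, rr, Fm.rc]
  have hlift : ∀ g ∈ Subgroup.closure ({L, R} : Set (Equiv.Perm (RS S))),
      ∃ g' ∈ Subgroup.closure ({l, r} : Set (Equiv.Perm α)), ∀ z : α, (g' z).1 = g z.1 := by
    intro g hg
    induction hg using Subgroup.closure_induction with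
    | mem g hg =>
      rcases hg with rfl | rfl
      · exact ⟨l, Subgroup.subset_closure (by simp), fun z => rfl⟩
      · exact ⟨r, Subgroup.subset_closure (by simp), fun z => rfl⟩
    | one => exact ⟨1, Subgroup.one_mem _, fun z => rfl⟩
    | mul a b _ _ ha hb =>
      obtain ⟨a', ha', ha1⟩ := ha
      obtain ⟨b', hb', hb1⟩ := hb
      refine ⟨a' * b', Subgroup.mul_mem _ ha' hb', fun z => ?_⟩
      rw [Equiv.Perm.mul_apply, Equiv.Perm.mul_apply, ha1, hb1]
    | inv a _ ha =>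
      obtain ⟨a', ha', ha1⟩ := ha
      refine ⟨a'⁻¹, Subgroup.inv_mem _ ha', fun z => ?_⟩
      have h1 := ha1 (a'⁻¹ z)
      have h2 : a' (a'⁻¹ z) = z := Equiv.apply_symm_apply a' z
      rw [h2] at h1
      rw [h1]
      exact (Equiv.symm_apply_apply a _).symm
  have htr : ∀ u v : α, ∃ g ∈ Subgroup.closure ({l, r} : Set (Equiv.Perm α)), g u = v := by
    intro u v
    obtain ⟨g, hg, hguv⟩ := OrbS_trans S hS u.2 v.2
    obtain ⟨g', hg', h1⟩ := hlift g hg
    exact ⟨g', hg', Subtype.ext ((h1 u).trans hguv)⟩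
  have hAv : ∀ (u : RS S) (hu : u ∈ OrbS S),
      Av U (fun _ _ Q => if resS S Q = u then (1 : ℝ) else 0) =
        Av U (fun _ _ Q => @ite ℝ (c Q = ⟨u, hu⟩) (Classical.propDecidable _) (1 : ℝ) 0) := by
    intro u hu
    unfold Av
    congr 1
    funext n
    unfold AvN
    congr 1
    refine Finset.sum_congr rfl fun i _ => ?_
    congr 1
    refine Finset.sum_congr rfl fun Q hQ => ?_
    have hQok : Q.Ok := by
      unfold Cl Qs at hQ
      exact (Finset.mem_filter.mp (Finset.mem_filter.mp hQ).1).2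
    have h1 : (c Q = ⟨u, hu⟩) ↔ resS S Q = u := by
      rw [← hc Q hQok]
      exact Subtype.ext_iff
    simp only [h1]
  rw [hAv y hy, hAv y' hy']
  exact slopes U hU hCc htr ⟨y, hy⟩ ⟨y', hy'⟩

end

end Pool.Agent.Lib.MP_0b748d_nt.HH
end

section

set_option autoImplicit false

/-!
# Assembly: the averages over forms vanish in the limit
-/

namespace Pool.Agent.Lib.MP_0b748d_nt.HH

open Filter Topology MR

noncomputable section

private theorem asmE_fin {p : ℕ} (hp : p.Prime) : (Orb p).Finite := by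
  have : NeZero p := ⟨hp.ne_zero⟩
  exact Set.toFinite _

private theorem asmE_nat {p : ℕ} (hp : p.Prime) :
    Nat.card (Orb p) = (asmE_fin hp).toFinset.card :=
  Nat.subtype_card _ fun _ => (asmE_fin hp).mem_toFinset

private theorem asmE_pos {p : ℕ} (hp : p.Prime) : 0 < (asmE_fin hp).toFinset.card :=
  Finset.card_pos.2 ⟨(2, 2, 1), (asmE_fin hp).mem_toFinset.2 (root_mem p)⟩

open Classical in
private theorem asmE_ind {p : ℕ} (hp : p.Prime) (hp2 : p ≠ 2) (M : Mt) (hM : M.Dt p) :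
    ∑ y ∈ (asmE_fin hp).toFinset, ((if zr y M then (1 : ℝ) else 0) - qp p) = 0 := by
  have h1 := zr_card p hp hp2 M hM
  rw [Nat.subtype_card ((asmE_fin hp).toFinset.filter (fun y => zr y M)) (fun x => by
    rw [Finset.mem_filter, (asmE_fin hp).mem_toFinset])] at h1
  rw [Finset.sum_sub_distrib, Finset.sum_boole, Finset.sum_const, nsmul_eq_mul, h1]
  unfold qp
  rw [asmE_nat hp]
  have h2 : (((asmE_fin hp).toFinset.card : ℕ) : ℝ) ≠ 0 := by
    exact_mod_cast (asmE_pos hp).ne'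
  rw [mul_div_cancel₀ _ h2, sub_self]

open Classical in
/-- **Decoupled averages.** `decouple` for the index type `{p // p ∈ S}`, the finite sets of residues
`Orb p`, `m a y = l2 U X (Yv S) a y` (the marginal in `y` is constant by `resS_unif`; if `mass U = 0`
everything vanishes), `f p a y = ∑_M κ p a M ([zr y M] - qp p)`: mean zero by `zr_card`, bounded by
`2 K` by `bases_card` and `qp_card`. The mutual information in `decouple` is
`he A (l1 U X) - hc A (OF S) (l2 U X (Yv S))`. -/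
theorem dec_avg (C : ℝ) (hC : 1 ≤ C) : ∃ K : ℝ, 1 ≤ K ∧ ∀ (U : Ultrafilter ℕ),
    (U : Filter ℕ) ≤ atTop → ∀ (S : Finset ℕ) (b : ℕ), (∀ p ∈ S, p.Prime ∧ p ≠ 2 ∧
      (b : ℝ) ^ 2 ≤ C * p) → ∀ {α : Type} (X : ℕ → ℕ → Fm → α) (A : Finset α), Rg X A →
    ∀ κ : ℕ → α → Mt → ℝ, (∀ p x M, |κ p x M| ≤ 1) →
    |Av U (fun n i Q => ∑ p ∈ S, ∑ M ∈ (Bx b).filter (fun M => M.Dt p),
      κ p (X n i Q) M * ((if zr (res p Q) M then (1 : ℝ) else 0) - qp p))| ≤
      K * √(Inf U X A S * S.card) := by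
  obtain ⟨K0, hK0, hb0⟩ := bases_card C hC
  obtain ⟨K1, hK1, hb1⟩ := qp_card C hC
  obtain ⟨Cm, hCm, hmass⟩ := mass_le
  have hsq : 1 ≤ √(2 * Cm) := by
    rw [Real.one_le_sqrt]
    linarith
  refine ⟨(K0 + K1) * √(2 * Cm), by nlinarith, ?_⟩
  intro U hU S b hS α X A hA κ hκ
  have hSp : ∀ p ∈ S, p.Prime := fun p hp => (hS p hp).1
  obtain ⟨O, hOdef⟩ : ∃ O : (p : {p : ℕ // p ∈ S}) → Finset (Rp p),
      ∀ p, O p = (asmE_fin (hSp p p.2)).toFinset := ⟨_, fun _ => rfl⟩
  have hOmem : ∀ (p : {p : ℕ // p ∈ S}) (y : Rp p), y ∈ O p ↔ y ∈ Orb p := by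
    intro p y
    rw [hOdef, Set.Finite.mem_toFinset]
  have hOne : ∀ p, (O p).Nonempty := fun p => ⟨(2, 2, 1), (hOmem p _).2 (root_mem p)⟩
  have hOF : OF S = Fintype.piFinset O := by
    ext y
    rw [mem_OF hSp, Fintype.mem_piFinset]
    constructor
    · intro h p
      exact (hOmem p _).2 (h p)
    · intro h p
      exact (hOmem p _).1 (h p)
  obtain ⟨f, hfdef⟩ : ∃ f : (p : {p : ℕ // p ∈ S}) → α → Rp p → ℝ, ∀ p a y, f p a y =
      ∑ M ∈ (Bx b).filter (fun M => M.Dt p), κ p a M * ((if zr y M then (1 : ℝ) else 0) - qp p) :=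
    ⟨_, fun _ _ _ => rfl⟩
  have hav : Av U (fun n i Q => ∑ p ∈ S, ∑ M ∈ (Bx b).filter (fun M => M.Dt p),
      κ p (X n i Q) M * ((if zr (res p Q) M then (1 : ℝ) else 0) - qp p)) =
      ∑ a ∈ A, ∑ y ∈ OF S, l2 U X (Yv S) a y * ∑ p, f p a (y p) := by
    rw [← Av_comp2 U X (Yv S) A hA (OF S) (Yv_range S hSp) (fun a y => ∑ p, f p a (y p))]
    congr 1
    funext n i Q
    rw [← Finset.sum_coe_sort S]
    refine Finset.sum_congr rfl fun p _ => ?_
    rw [hfdef]
    rfl
  rw [hav]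
  -- the marginals
  obtain ⟨y0, hy0⟩ : ∃ y0 : RS S, y0 ∈ OrbS S := ⟨fun p => (2, 2, 1), fun p => root_mem p⟩
  obtain ⟨u, hu⟩ : ∃ u, u = l1 U (Yv S) y0 := ⟨_, rfl⟩
  have hunif : ∀ y ∈ OF S, l1 U (Yv S) y = u := by
    intro y hy
    rw [hu]
    have h1 := resS_unif U hU S hSp ((mem_OF hSp).1 hy) hy0
    unfold l1 Yv
    convert h1
  have hYm : ∀ y ∈ OF S, ∑ a ∈ A, l2 U X (Yv S) a y = u := by
    intro y hy
    rw [l2_sum_left U X (Yv S) A hA y, hunif y hy]
  have hXm : ∀ a, ∑ y ∈ OF S, l2 U X (Yv S) a y = l1 U X a := fun a =>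
    l2_sum_right U X (Yv S) (OF S) (Yv_range S hSp) a
  have hmassu : u * (OF S).card = mass U := by
    rw [← l1_sum U (Yv S) (OF S) (Yv_range S hSp), Finset.sum_congr rfl hunif, Finset.sum_const,
      nsmul_eq_mul, mul_comm]
  have hXsum : ∑ a ∈ A, l1 U X a = mass U := l1_sum U X A hA
  have hu0 : 0 ≤ u := by
    rw [hu]
    exact l1_nonneg U _ _
  rcases hu0.eq_or_lt with hu1 | hu1
  · -- no mass
    have h0 : ∀ a ∈ A, ∀ y ∈ OF S, l2 U X (Yv S) a y = 0 := by
      intro a ha y hy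
      have h1 := hYm y hy
      rw [← hu1] at h1
      exact (Finset.sum_eq_zero_iff_of_nonneg (fun a _ => l2_nonneg U X (Yv S) a y)).1 h1 a ha
    rw [Finset.sum_eq_zero fun a ha => Finset.sum_eq_zero fun y hy => by
      rw [h0 a ha y hy, zero_mul]]
    rw [abs_zero]
    positivity
  · have hfK : ∀ p, ∀ a ∈ A, ∀ y ∈ O p, |f p a y| ≤ K0 + K1 := by
      intro p a _ y hy
      obtain ⟨hp, hp2, hpb⟩ := hS p p.2
      have hq0 : 0 ≤ qp p := by
        unfold qp
        positivity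
      rw [hfdef]
      refine (Finset.abs_sum_le_sum_abs _ _).trans ?_
      have h1 : ∀ M ∈ (Bx b).filter (fun M => M.Dt p),
          |κ p a M * ((if zr y M then (1 : ℝ) else 0) - qp p)| ≤
            (if zr y M then (1 : ℝ) else 0) + qp p := by
        intro M _
        rw [abs_mul]
        have h2 : |(if zr y M then (1 : ℝ) else 0) - qp p| ≤
            (if zr y M then (1 : ℝ) else 0) + qp p := by
          split_ifs
          · rw [abs_le]
            constructor <;> linarith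
          · rw [abs_le]
            constructor <;> linarith
        calc |κ p a M| * |(if zr y M then (1 : ℝ) else 0) - qp p|
            ≤ 1 * |(if zr y M then (1 : ℝ) else 0) - qp p| :=
              mul_le_mul_of_nonneg_right (hκ p a M) (abs_nonneg _)
          _ ≤ _ := by rw [one_mul]; exact h2
      refine (Finset.sum_le_sum h1).trans ?_
      rw [Finset.sum_add_distrib, Finset.sum_boole, Finset.sum_const, nsmul_eq_mul,
        Finset.filter_filter]
      have h3 := hb0 p b hp hp2 hpb y ((hOmem p y).1 hy)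
      have h4 := hb1 p b hp hp2 hpb
      rw [mul_comm] at h4
      exact add_le_add h3 h4
    have hf0 : ∀ p, ∀ a ∈ A, ∑ y ∈ O p, f p a y = 0 := by
      intro p a _
      obtain ⟨hp, hp2, hpb⟩ := hS p p.2
      simp only [hfdef]
      rw [Finset.sum_comm]
      refine Finset.sum_eq_zero fun M hM => ?_
      rw [← Finset.mul_sum, hOdef, asmE_ind hp hp2 M (Finset.mem_filter.1 hM).2, mul_zero]
    obtain ⟨I, hI⟩ : ∃ I, I = ∑ a ∈ A, ∑ y ∈ Fintype.piFinset O, l2 U X (Yv S) a y *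
        Real.log (l2 U X (Yv S) a y * (u * (Fintype.piFinset O).card) /
          ((∑ y' ∈ Fintype.piFinset O, l2 U X (Yv S) a y') * u)) := ⟨_, rfl⟩
    have hdec := decouple A O hOne (fun a y => l2 U X (Yv S) a y)
      (fun a _ y _ => l2_nonneg U X (Yv S) a y) u hu1
      (fun y hy => hYm y (by rw [hOF]; exact hy)) f (K0 + K1) (by linarith) hfK hf0 I hI
    rw [← hOF] at hdec hI
    have hIInf : I = Inf U X A S := by
      rw [hI]
      unfold Inf he hc
      rw [hXsum, ← Finset.sum_sub_distrib]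
      refine Finset.sum_congr rfl fun a _ => ?_
      have h1 : l1 U X a * Real.log (mass U / l1 U X a) =
          ∑ y ∈ OF S, l2 U X (Yv S) a y * Real.log (mass U / l1 U X a) := by
        rw [← Finset.sum_mul, hXm]
      rw [h1, ← Finset.sum_sub_distrib]
      refine Finset.sum_congr rfl fun y hy => ?_
      rw [hYm y hy, hXm, hmassu, ← mul_sub]
      rcases (l2_nonneg U X (Yv S) a y).eq_or_lt with h2 | h2
      · rw [← h2, zero_mul, zero_mul]
      · have h3 : l2 U X (Yv S) a y ≤ l1 U X a := by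
          rw [← hXm a]
          exact Finset.single_le_sum (f := fun y => l2 U X (Yv S) a y)
            (fun y _ => l2_nonneg U X (Yv S) a y) hy
        have h4 : 0 < l1 U X a := lt_of_lt_of_le h2 h3
        have h5 : 0 < mass U := by
          rw [← hmassu]
          have h6 : 0 < (OF S).card := Finset.card_pos.2 ⟨y, hy⟩
          have h7 : (0 : ℝ) < ((OF S).card : ℝ) := by exact_mod_cast h6
          exact mul_pos hu1 h7
        congr 1
        rw [Real.log_div (mul_pos h2 h5).ne' (mul_pos h4 hu1).ne', Real.log_mul h2.ne' h5.ne',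
          Real.log_mul h4.ne' hu1.ne', Real.log_div h5.ne' h4.ne', Real.log_div hu1.ne' h2.ne']
        ring
    refine hdec.trans ?_
    rw [hmassu, hIInf, Fintype.card_coe]
    have hK : 0 ≤ K0 + K1 := by linarith
    rw [mul_assoc (K0 + K1)]
    refine mul_le_mul_of_nonneg_left ?_ hK
    rcases le_total 0 (Inf U X A S * S.card) with h1 | h1
    · rw [← Real.sqrt_mul (by linarith)]
      apply Real.sqrt_le_sqrt
      have h2 := mul_le_mul_of_nonneg_right (hmass U) h1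
      nlinarith
    · have hmass0 : 0 ≤ mass U := by
        rw [← hmassu]
        positivity
      have h2 : 2 * mass U * Inf U X A S * S.card ≤ 0 := by
        have h3 := mul_nonpos_of_nonneg_of_nonpos hmass0 h1
        nlinarith
      rw [Real.sqrt_eq_zero_of_nonpos h2]
      positivity

end

end Pool.Agent.Lib.MP_0b748d_nt.HH
end
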