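import Pool.Agent.Lib.MP_0b748d_nt.HH.DecA
import Pool.Agent.Lib.MP_0b748d_nt.MR.Cheb

set_option autoImplicit false

/-!
# Functions of period W
-/

namespace Pool.Agent.Lib.MP_0b748d_nt.HD

open Zsqrtd MR

noncomputable section

private theorem DA2_star (z : ℤ√2) : z * star z = ((nm z : ℤ) : ℤ√2) := by
  rw [Zsqrtd.ext_iff]
  simp only [nm, Zsqrtd.re_mul, Zsqrtd.im_mul, Zsqrtd.re_star, Zsqrtd.im_star, Zsqrtd.re_intCast,
    Zsqrtd.im_intCast]
  constructor <;> ring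

private theorem DA2_nm_star (z : ℤ√2) : nm (star z) = nm z := by
  simp only [nm, Zsqrtd.re_star, Zsqrtd.im_star]
  ring

private theorem DA2_pow {W : ℕ} {χ : ℤ√2 → ℂ} (h : Hc W χ) (z : ℤ√2) (n : ℕ) :
    χ (z ^ n) = χ z ^ n := by
  induction n with
  | zero => rw [pow_zero, pow_zero, h.one]
  | succ n ih => rw [pow_succ, pow_succ, h.mul, ih]

/-- Proof. There is `n` with `nm z * n ≡ 1 mod W` (`Cp W z`), so `z * (star z * n) ≡ 1 mod W` and
`χ z * χ (star z * n) = χ 1 = 1`, both factors of modulus `≤ 1`. -/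
theorem Hc.norm_one {W : ℕ} {χ : ℤ√2 → ℂ} (h : Hc W χ) {z : ℤ√2} (hz : Cp W z) : ‖χ z‖ = 1 := by
  obtain ⟨a, b, hab⟩ := hz
  have h1 : χ z * χ (star z * ((a : ℤ) : ℤ√2)) = 1 := by
    rw [← h.mul, ← h.one]
    refine h.per _ _ ⟨((-b : ℤ) : ℤ√2), ?_⟩
    have h2 : ((1 : ℤ) : ℤ√2) = ((a * nm z + b * (W : ℤ) : ℤ) : ℤ√2) := by rw [hab]
    rw [← mul_assoc, DA2_star]
    push_cast at h2 ⊢
    linear_combination -h2
  have h2 : ‖χ z‖ * ‖χ (star z * ((a : ℤ) : ℤ√2))‖ = 1 := by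
    rw [← _root_.norm_mul, h1, NormOneClass.norm_one]
  have h3 := h.le z
  have h4 := h.le (star z * ((a : ℤ) : ℤ√2))
  have h5 := norm_nonneg (χ z)
  refine _root_.le_antisymm h3 ?_
  nlinarith

/-- Proof. Among `z ^ i`, `i ≤ W²`, two are congruent modulo `W` (both coordinates modulo `W`), so
`χ z ^ i = χ z ^ j`, `i < j ≤ W²`, and `χ z ≠ 0` gives `χ z ^ (j - i) = 1`; take `ν = (W²)!`. -/
theorem Hc.pow {W : ℕ} (hW : 1 ≤ W) {χ : ℤ√2 → ℂ} (h : Hc W χ) :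
    ∃ ν : ℕ, 1 ≤ ν ∧ ∀ z, Cp W z → χ z ^ ν = 1 := by
  have : NeZero W := ⟨by omega⟩
  refine ⟨(W ^ 2).factorial, Nat.factorial_pos _, fun z hz => ?_⟩
  have hmaps : ∀ i ∈ Finset.range (W ^ 2 + 1),
      ((((z ^ i).re : ℤ) : ZMod W), (((z ^ i).im : ℤ) : ZMod W)) ∈
        (Finset.univ : Finset (ZMod W × ZMod W)) := fun i _ => Finset.mem_univ _
  have hcard : (Finset.univ : Finset (ZMod W × ZMod W)).card < (Finset.range (W ^ 2 + 1)).card := by
    rw [Finset.card_univ, Fintype.card_prod, ZMod.card, Finset.card_range, sq]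
    exact Nat.lt_succ_self _
  obtain ⟨i, hi, j, hj, hij, he⟩ := Finset.exists_ne_map_eq_of_card_lt_of_maps_to hcard hmaps
  have key : ∀ i j : ℕ, i < j → j < W ^ 2 + 1 →
      ((((z ^ i).re : ℤ) : ZMod W), (((z ^ i).im : ℤ) : ZMod W)) =
        ((((z ^ j).re : ℤ) : ZMod W), (((z ^ j).im : ℤ) : ZMod W)) →
      χ z ^ (W ^ 2).factorial = 1 := by
    intro i j hij hj he
    have h1 : ((W : ℕ) : ℤ√2) ∣ z ^ j - z ^ i := by
      have h2 : ((W : ℕ) : ℤ√2) = ((W : ℤ) : ℤ√2) := by push_cast; rfl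
      rw [h2, Zsqrtd.intCast_dvd]
      simp only [Prod.mk.injEq] at he
      constructor
      · rw [Zsqrtd.re_sub]
        exact (ZMod.intCast_eq_intCast_iff_dvd_sub _ _ _).1 he.1
      · rw [Zsqrtd.im_sub]
        exact (ZMod.intCast_eq_intCast_iff_dvd_sub _ _ _).1 he.2
    have h2 := h.per _ _ h1
    rw [DA2_pow h, DA2_pow h] at h2
    have h3 : χ z ≠ 0 := by
      intro h4
      have h5 := h.norm_one hz
      rw [h4, _root_.norm_zero] at h5
      exact zero_ne_one h5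
    have h4 : χ z ^ (j - i) = 1 := by
      have h5 : χ z ^ j = χ z ^ (j - i) * χ z ^ i := by
        rw [← pow_add]
        congr 1
        omega
      rw [h5] at h2
      exact mul_right_cancel₀ (pow_ne_zero i h3) (h2.trans (_root_.one_mul _).symm)
    obtain ⟨k, hk⟩ := Nat.dvd_factorial (show 0 < j - i by omega) (show j - i ≤ W ^ 2 by omega)
    rw [hk, pow_mul, h4, one_pow]
  rw [Finset.mem_range] at hi hj
  rcases lt_or_gt_of_ne hij with h1 | h1
  · exact key i j h1 hj he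
  · exact key j i h1 hi he.symm

theorem Hc.mono {W W' : ℕ} (hd : W ∣ W') {χ : ℤ√2 → ℂ} (h : Hc W χ) : Hc W' χ :=
  ⟨h.mul, h.one, fun z w hzw => h.per z w ((Nat.cast_dvd_cast hd).trans hzw), h.le⟩

theorem Cp_mul {W : ℕ} {z w : ℤ√2} (hz : Cp W z) (hw : Cp W w) : Cp W (z * w) := by
  unfold Cp at *
  rw [nm_mul]
  exact IsCoprime.mul_left hz hw

theorem Cp_star {W : ℕ} {z : ℤ√2} (hz : Cp W z) : Cp W (star z) := by
  unfold Cp at *
  rw [DA2_nm_star]
  exact hz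

/-- `nm (un n) = 1` -/
theorem Cp_un (W : ℕ) (n : ℤ) : Cp W (un n) := by
  unfold Cp
  rw [(un_spec n).2.1]
  exact isCoprime_one_left

theorem Cp_el {W p : ℕ} (hp : Sp p) (s : Bool) : Cp W (el p s) ↔ ¬ p ∣ W := by
  unfold Cp
  rw [(el_spec hp s).2, Nat.isCoprime_iff_coprime, hp.1.coprime_iff_not_dvd]

/-- Proof. Put `η z = χ (star z) * conj (χ z)`. -/
theorem Hc.eta {W : ℕ} {χ : ℤ√2 → ℂ} (h : Hc W χ) :
    Hc W (fun z => χ (star z) * (starRingEnd ℂ) (χ z)) := by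
  refine ⟨fun z w => ?_, ?_, fun z w hzw => ?_, fun z => ?_⟩
  · rw [star_mul, h.mul, h.mul, map_mul]
    ring
  · rw [star_one, h.one, map_one, _root_.one_mul]
  · have h1 : ((W : ℕ) : ℤ√2) ∣ star z - star w := by
      obtain ⟨c, hc⟩ := hzw
      refine ⟨star c, ?_⟩
      rw [← star_sub, hc, star_mul, star_natCast, _root_.mul_comm]
    rw [h.per z w hzw, h.per _ _ h1]
  · rw [_root_.norm_mul, RCLike.norm_conj]
    exact mul_le_one₀ (h.le _) (norm_nonneg _) (h.le _)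

end

end Pool.Agent.Lib.MP_0b748d_nt.HD
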