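import Mathlib.NumberTheory.MulChar.Duality
import Mathlib
import Pool.Agent.Lib.MP_0b748d_nt.HH.DecA
import Pool.Agent.Lib.MP_0b748d_nt.MR.Cheb
import Pool.Agent.Lib.MP_0b748d_nt.MR.VExp
import Pool.Agent.Lib.MP_0b748d_nt.MR.Parseval
import Pool.Agent.Lib.MP_0b748d_nt.MR.UnitsA
import Pool.Agent.Lib.MP_0b748d_nt.MR.Corr
import Pool.Agent.Lib.MP_0b748d_nt.HH.CntE
import Pool.Agent.Lib.MP_0b748d_nt.HH.DA2
import Pool.Agent.Lib.MP_0b748d_nt.MR.PrimeSector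

section

set_option autoImplicit false

/-!
# Detecting a residue class by characters
-/

namespace Pool.Agent.Lib.MP_0b748d_nt.HD

open Zsqrtd MR

noncomputable section

private theorem DE3_finite {W : ℕ} (hW : 1 ≤ W) {ω : ℤ√2} (hω : ω ∣ ((W : ℕ) : ℤ√2)) :
    Finite (ℤ√2 ⧸ Ideal.span {ω}) := by
  have hW0 : (0 : ℤ) < W := by exact_mod_cast hW
  refine Finite.of_surjective (α := Fin W × Fin W)
    (fun p => Ideal.Quotient.mk (Ideal.span {ω}) (⟨(p.1 : ℕ), (p.2 : ℕ)⟩ : ℤ√2)) ?_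
  intro y
  obtain ⟨z, rfl⟩ := Ideal.Quotient.mk_surjective y
  have h1 : 0 ≤ z.re % W := Int.emod_nonneg _ hW0.ne'
  have h2 : z.re % W < W := Int.emod_lt_of_pos _ hW0
  have h3 : 0 ≤ z.im % W := Int.emod_nonneg _ hW0.ne'
  have h4 : z.im % W < W := Int.emod_lt_of_pos _ hW0
  refine ⟨(⟨(z.re % W).toNat, by omega⟩, ⟨(z.im % W).toNat, by omega⟩), ?_⟩
  simp only
  rw [Ideal.Quotient.eq, Ideal.mem_span_singleton]
  refine hω.trans ⟨⟨-(z.re / W), -(z.im / W)⟩, ?_⟩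
  have e1 : (((z.re % W).toNat : ℕ) : ℤ) = z.re % W := Int.toNat_of_nonneg h1
  have e2 : (((z.im % W).toNat : ℕ) : ℤ) = z.im % W := Int.toNat_of_nonneg h3
  have e3 := Int.emod_add_mul_ediv z.re W
  have e4 := Int.emod_add_mul_ediv z.im W
  ext
  · simp only [Zsqrtd.re_sub, Zsqrtd.re_mul, Zsqrtd.re_natCast, Zsqrtd.im_natCast]
    rw [e1]
    linarith
  · simp only [Zsqrtd.im_sub, Zsqrtd.im_mul, Zsqrtd.re_natCast, Zsqrtd.im_natCast]
    rw [e2]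
    linarith

private theorem DE3_norm {R : Type*} [CommRing R] [Finite R] (ψ : MulChar R ℂ) (a : R) :
    ‖ψ a‖ ≤ 1 := by
  by_cases ha : IsUnit a
  · obtain ⟨u, rfl⟩ := ha
    have h1 : u ^ Nat.card Rˣ = 1 := pow_card_eq_one'
    have h2 : ψ (u : R) ^ Nat.card Rˣ = 1 := by
      rw [← map_pow, ← Units.val_pow_eq_pow_val, h1, Units.val_one, map_one]
    exact (Complex.norm_eq_one_of_pow_eq_one h2 Nat.card_pos.ne').le
  · rw [MulChar.map_nonunit _ ha, _root_.norm_zero]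
    exact zero_le_one

/-- Proof. Let `R = ℤ√2 ⧸ Ideal.span {ω}`, a finite commutative ring (`ω ∣ W`). The class of `a1` is a
unit. For the finitely many `ψ : MulChar R ℂ` put `χ z = ψ (mk z)`, `c = ψ (a1)⁻¹`. If `z` is a unit
modulo `ω`, `∑_ψ ψ(z/a1)` is the number of characters if `z ≡ a1` and `0` otherwise
(`MulChar.exists_apply_ne_one_of_hasEnoughRootsOfUnity` and the usual shift); if `z` is not a unit
modulo `ω` both sides vanish. -/
theorem chars (W : ℕ) (hW : 1 ≤ W) (ω a1 : ℤ√2) (hω : ω ∣ ((W : ℕ) : ℤ√2))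
    (h : ∃ x y : ℤ√2, x * a1 + y * ω = 1) : ∃ (n : ℕ) (χ : Fin n → ℤ√2 → ℂ) (c : Fin n → ℂ),
    1 ≤ n ∧ (∀ i, Hc W (χ i)) ∧ (∀ i, ‖c i‖ ≤ 1) ∧
    ∀ z : ℤ√2, ((1 / (n : ℂ)) * ∑ i, c i * χ i z = 1 ∧ ω ∣ z - a1) ∨
      ((1 / (n : ℂ)) * ∑ i, c i * χ i z = 0 ∧ ¬ ω ∣ z - a1) := by
  classical
  obtain ⟨x, y, hxy⟩ := h
  obtain ⟨mk, hmk⟩ : ∃ mk : ℤ√2 →+* (ℤ√2 ⧸ Ideal.span {ω}), mk = Ideal.Quotient.mk _ := ⟨_, rfl⟩
  have hfin : Finite (ℤ√2 ⧸ Ideal.span {ω}) := DE3_finite hW hω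
  have hmk0 : ∀ z w : ℤ√2, mk z = mk w ↔ ω ∣ z - w := by
    intro z w
    rw [hmk, Ideal.Quotient.eq, Ideal.mem_span_singleton]
  have hx : mk x * mk a1 = 1 := by
    have h1 : mk (y * ω) = 0 := by
      rw [← map_zero mk, hmk0, sub_zero]
      exact Dvd.intro_left y rfl
    rw [← map_mul, ← map_one mk, ← hxy, map_add, h1, add_zero]
  have hft : Fintype (MulChar (ℤ√2 ⧸ Ideal.span {ω}) ℂ) := Fintype.ofFinite _
  obtain ⟨n, hn⟩ : ∃ n : ℕ, n = Fintype.card (MulChar (ℤ√2 ⧸ Ideal.span {ω}) ℂ) := ⟨_, rfl⟩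
  have e : Fin n ≃ MulChar (ℤ√2 ⧸ Ideal.span {ω}) ℂ := by
    rw [hn]
    exact (Fintype.equivFin _).symm
  have hn1 : 1 ≤ n := by
    rw [hn]
    exact Fintype.card_pos
  have hn0 : (n : ℂ) ≠ 0 := by
    have : n ≠ 0 := by omega
    exact_mod_cast this
  refine ⟨n, fun i z => e i (mk z), fun i => e i (mk x), hn1, fun i => ⟨?_, ?_, ?_, ?_⟩,
    fun i => DE3_norm _ _, fun z => ?_⟩
  · intro z w
    beta_reduce
    rw [map_mul, map_mul]
  · beta_reduce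
    rw [map_one, map_one]
  · intro z w hzw
    beta_reduce
    rw [(hmk0 z w).2 (hω.trans hzw)]
  · intro z
    exact DE3_norm _ _
  · have h1 : ∑ i, e i (mk x) * e i (mk z) =
        ∑ ψ : MulChar (ℤ√2 ⧸ Ideal.span {ω}) ℂ, ψ (mk x * mk z) := by
      rw [← Equiv.sum_comp e]
      refine Finset.sum_congr rfl fun i _ => ?_
      rw [map_mul]
    rw [h1]
    by_cases ht : mk x * mk z = 1
    · left
      refine ⟨?_, ?_⟩
      · rw [ht]
        simp only [map_one, Finset.sum_const, Finset.card_univ, nsmul_eq_mul, mul_one]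
        rw [← hn, one_div, inv_mul_cancel₀ hn0]
      · rw [← hmk0]
        calc mk z = mk a1 * (mk x * mk z) := by rw [← mul_assoc, mul_comm (mk a1), hx, one_mul]
          _ = mk a1 := by rw [ht, mul_one]
    · right
      refine ⟨?_, ?_⟩
      · obtain ⟨χ, hχ⟩ := MulChar.exists_apply_ne_one_of_hasEnoughRootsOfUnity
          (ℤ√2 ⧸ Ideal.span {ω}) ℂ ht
        have h2 : χ (mk x * mk z) * ∑ ψ : MulChar (ℤ√2 ⧸ Ideal.span {ω}) ℂ, ψ (mk x * mk z) =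
            ∑ ψ : MulChar (ℤ√2 ⧸ Ideal.span {ω}) ℂ, ψ (mk x * mk z) := by
          rw [Finset.mul_sum]
          refine Fintype.sum_equiv (Equiv.mulLeft χ) _ _ fun ψ => ?_
          rw [Equiv.coe_mulLeft, MulChar.mul_apply]
        have h3 : ∑ ψ : MulChar (ℤ√2 ⧸ Ideal.span {ω}) ℂ, ψ (mk x * mk z) = 0 := by
          by_contra h4
          exact hχ (mul_right_cancel₀ h4 (h2.trans (one_mul _).symm))
        rw [h3, mul_zero]
      · rw [← hmk0]
        intro h2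
        rw [h2] at ht
        exact ht hx

end

end Pool.Agent.Lib.MP_0b748d_nt.HD
end

section

set_option autoImplicit false

/-!
# The blocks
-/

namespace Pool.Agent.Lib.MP_0b748d_nt.HD

open Zsqrtd MR

noncomputable section

private lemma DB7_n (X b c lam : ℝ) (hX : 1 < X) (hc : c ≤ b / 4) (hb : 0 < b) (hl : 1 < lam)
    (hX2 : lam ≤ X ^ (b / 4)) : ∃ n : ℕ,
    X ^ c * lam ^ n ≤ X ^ (b / 2) ∧ X ^ (b / 4) ≤ X ^ c * lam ^ n := by
  have hX0 : 0 < X := by linarith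
  have hlX : 0 < Real.log X := Real.log_pos hX
  have hll : 0 < Real.log lam := Real.log_pos hl
  set t : ℝ := (b / 2 - c) * Real.log X / Real.log lam with ht
  have ht0 : 0 ≤ t := by
    apply div_nonneg (mul_nonneg (by linarith) hlX.le) hll.le
  refine ⟨⌊t⌋₊, ?_, ?_⟩
  · have h1 : (⌊t⌋₊ : ℝ) ≤ t := Nat.floor_le ht0
    have h2 : lam ^ ⌊t⌋₊ ≤ X ^ (b / 2 - c) := by
      rw [← Real.rpow_natCast, Real.rpow_def_of_pos (by linarith), Real.rpow_def_of_pos hX0]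
      apply Real.exp_le_exp.2
      have h3 : Real.log lam * t = (b / 2 - c) * Real.log X := by
        rw [ht]; field_simp
      calc Real.log lam * (⌊t⌋₊ : ℝ) ≤ Real.log lam * t := by gcongr
        _ = Real.log X * (b / 2 - c) := by rw [h3]; ring
    calc X ^ c * lam ^ ⌊t⌋₊ ≤ X ^ c * X ^ (b / 2 - c) := by gcongr
      _ = X ^ (b / 2) := by rw [← Real.rpow_add hX0]; congr 1; ring
  · have h1 : t < (⌊t⌋₊ : ℝ) + 1 := Nat.lt_floor_add_one t
    have h2 : X ^ (b / 2 - c) ≤ lam ^ (⌊t⌋₊ + 1) := by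
      rw [← Real.rpow_natCast, Real.rpow_def_of_pos (show 0 < lam by linarith),
        Real.rpow_def_of_pos hX0]
      apply Real.exp_le_exp.2
      have h3 : Real.log lam * t = (b / 2 - c) * Real.log X := by
        rw [ht]; field_simp
      push_cast
      calc Real.log X * (b / 2 - c) = Real.log lam * t := by rw [h3]; ring
        _ ≤ Real.log lam * ((⌊t⌋₊ : ℝ) + 1) := by gcongr
    have h3 : X ^ (b / 2) ≤ (X ^ c * lam ^ ⌊t⌋₊) * lam := by
      calc X ^ (b / 2) = X ^ c * X ^ (b / 2 - c) := by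
            rw [← Real.rpow_add hX0]; congr 1; ring
        _ ≤ X ^ c * lam ^ (⌊t⌋₊ + 1) := by gcongr
        _ = (X ^ c * lam ^ ⌊t⌋₊) * lam := by rw [pow_succ]; ring
    have h4 : X ^ (b / 2) = X ^ (b / 4) * X ^ (b / 4) := by
      rw [← Real.rpow_add hX0]; congr 1; ring
    have h5 : 0 < X ^ (b / 4) := by positivity
    have h6 : 0 < X ^ c * lam ^ ⌊t⌋₊ := by positivity
    have h7 : X ^ (b / 4) * X ^ (b / 4) ≤ (X ^ c * lam ^ ⌊t⌋₊) * X ^ (b / 4) := by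
      rw [← h4]
      refine h3.trans ?_
      gcongr
    exact le_of_mul_le_mul_right h7 h5

/-- Proof. Let `c0, K` be those of `M_low`. Take
`c = (b/4) min (1/t0) (exp (-(W0 + K)/c0))`. For given `lam` and `X` large let
`n = ⌊(b/2 - c) log X/log lam⌋` (see `FL_n` in `MR/FinalLevel.lean`), so
`X^(b/2)/lam ≤ X^c lam^n ≤ X^(b/2)` and `X^c lam^n ≥ X^(b/4)` for large `X`. Then
`(X^c)^t0 ≤ X^(b/4)`, and `log (X^c lam^n)/log (X^c) ≥ (b/4)/c ≥ exp ((W0 + K)/c0)`. -/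
theorem blocks (b t0 W0 : ℝ) (hb : 0 < b) (hb1 : b ≤ 1 / 8) (ht : 1 < t0) (hW0 : 1 ≤ W0) :
    ∃ c : ℝ, 0 < c ∧ c ≤ b / 4 ∧ ∀ lam : ℝ, 1 < lam → lam ≤ 2 → ∃ X0 : ℝ, 2 ≤ X0 ∧
    ∀ X : ℝ, X0 ≤ X → ∃ n : ℕ, 2 ≤ X ^ c ∧ X ^ c * lam ^ n ≤ X ^ (b / 2) ∧
      (X ^ c) ^ t0 ≤ X ^ c * lam ^ n ∧ W0 ≤ Wp (X ^ c) (X ^ c * lam ^ n) := by
  obtain ⟨c0, K, hc0, hK, hM⟩ := M_low
  have ht0 : 0 < t0 := by linarith
  set m : ℝ := min (1 / t0) (Real.exp (-(W0 + K) / c0)) with hm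
  have hm0 : 0 < m := lt_min (by positivity) (Real.exp_pos _)
  have hm1 : m ≤ 1 / t0 := min_le_left _ _
  have hm2 : m ≤ Real.exp (-(W0 + K) / c0) := min_le_right _ _
  have hm3 : m ≤ 1 := hm1.trans (by rw [div_le_one ht0]; exact ht.le)
  set c : ℝ := b / 4 * m with hc
  have hcp : 0 < c := by positivity
  have hcb : c ≤ b / 4 := by
    rw [hc]
    nlinarith
  have hct : c * t0 ≤ b / 4 := by
    rw [hc]
    have h1 : m * t0 ≤ 1 := by
      rw [le_div_iff₀ ht0] at hm1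
      exact hm1
    nlinarith
  refine ⟨c, hcp, hcb, ?_⟩
  intro lam hl1 hl2
  have h1 := (tendsto_rpow_atTop hcp).eventually_ge_atTop 2
  have h2 := (tendsto_rpow_atTop (show (0 : ℝ) < b / 4 by positivity)).eventually_ge_atTop 2
  obtain ⟨X1, hX1⟩ := Filter.eventually_atTop.1 (h1.and h2)
  refine ⟨max 2 X1, le_max_left _ _, ?_⟩
  intro X hX
  have hX2 : 2 ≤ X := (le_max_left _ _).trans hX
  obtain ⟨h3, h4⟩ := hX1 X ((le_max_right _ _).trans hX)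
  have hX0 : 0 < X := by linarith
  have hX1' : 1 < X := by linarith
  obtain ⟨n, hn1, hn2⟩ := DB7_n X b c lam hX1' hcb hb hl1 (hl2.trans h4)
  refine ⟨n, h3, hn1, ?_, ?_⟩
  · refine le_trans ?_ hn2
    rw [← Real.rpow_mul hX0.le]
    exact Real.rpow_le_rpow_of_exponent_le hX1'.le hct
  · have hPQ : X ^ c ≤ X ^ c * lam ^ n := by
      have h5 : 1 ≤ lam ^ n := one_le_pow₀ hl1.le
      have h6 : 0 < X ^ c := by positivity
      nlinarith
    refine le_trans ?_ (hM _ _ h3 hPQ)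
    have hlX : 0 < Real.log X := Real.log_pos hX1'
    have hlP : Real.log (X ^ c) = c * Real.log X := Real.log_rpow hX0 c
    have h7 : (b / 4) * Real.log X ≤ Real.log (X ^ c * lam ^ n) := by
      rw [← Real.log_rpow hX0]
      exact Real.log_le_log (by positivity) hn2
    have h8 : Real.exp ((W0 + K) / c0) ≤ Real.log (X ^ c * lam ^ n) / Real.log (X ^ c) := by
      rw [hlP, le_div_iff₀ (by positivity)]
      refine le_trans ?_ h7
      have h9 : Real.exp ((W0 + K) / c0) * m ≤ 1 := by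
        calc Real.exp ((W0 + K) / c0) * m
            ≤ Real.exp ((W0 + K) / c0) * Real.exp (-(W0 + K) / c0) :=
              mul_le_mul_of_nonneg_left hm2 (Real.exp_pos _).le
          _ = 1 := by
              rw [← Real.exp_add]
              have : (W0 + K) / c0 + -(W0 + K) / c0 = 0 := by ring
              rw [this, Real.exp_zero]
      calc Real.exp ((W0 + K) / c0) * (c * Real.log X)
          = (Real.exp ((W0 + K) / c0) * m) * (b / 4 * Real.log X) := by rw [hc]; ring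
        _ ≤ 1 * (b / 4 * Real.log X) := mul_le_mul_of_nonneg_right h9 (by positivity)
        _ = b / 4 * Real.log X := one_mul _
    have h10 : (W0 + K) / c0 ≤ Real.log (Real.log (X ^ c * lam ^ n) / Real.log (X ^ c)) := by
      rw [Real.le_log_iff_exp_le (lt_of_lt_of_le (Real.exp_pos _) h8)]
      exact h8
    rw [div_le_iff₀ hc0] at h10
    linarith

end

end Pool.Agent.Lib.MP_0b748d_nt.HD
end

section

set_option autoImplicit false

/-!
# Trivial bounds from duality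
-/

namespace Pool.Agent.Lib.MP_0b748d_nt.HD

open Zsqrtd MR

noncomputable section

private theorem DB5_sum {f : ℤ√2 → ℂ} (hf : MF f) (a b : ℝ) :
    ∑ w ∈ Us a b, ‖f w‖ ^ 2 ≤ ((Us a b).card : ℝ) := by
  calc ∑ w ∈ Us a b, ‖f w‖ ^ 2 ≤ ∑ _w ∈ Us a b, (1 : ℝ) := by
        refine Finset.sum_le_sum fun w hw => ?_
        have h1 := hf.le w (mem_Us.1 hw).1.1
        exact pow_le_one₀ (norm_nonneg _) h1
    _ = _ := by rw [Finset.sum_const, nsmul_eq_mul, mul_one]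

/-- Proof. `DualP` with `A = Y`, `a = f`; `#Us ≤ C Y`, `‖f w‖ ≤ 1`. -/
theorem dual_base {α η : ℝ} (hD : DualP α η) : ∃ C : ℝ, 1 ≤ C ∧ ∃ X0 : ℝ, 2 ≤ X0 ∧
    ∀ X : ℝ, X0 ≤ X → ∀ Y : ℝ, X ^ ((7 : ℝ) / 8) ≤ Y → Y ≤ X → ∀ 𝒰 : Finset ℤ,
    (∀ k ∈ 𝒰, |(k : ℝ)| ≤ X) → (𝒰.card : ℝ) ≤ X ^ (3 * α) → ∀ f : ℤ√2 → ℂ, MF f →
    ∑ k ∈ 𝒰, ‖Ap f k Y (2 * Y)‖ ^ 2 ≤ C * Y ^ 2 := by
  obtain ⟨_, _, hη, _, X0, hX0, hdual⟩ := hD
  obtain ⟨C2, hC2, hU⟩ := U_le
  refine ⟨(2 * C2 + 1) * (2 * C2), by nlinarith, X0, hX0, ?_⟩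
  intro X hX Y hY1 hY2 𝒰 h𝒰 hcard f hf
  have hX2 : 2 ≤ X := hX0.trans hX
  have hY : 1 ≤ Y := (Real.one_le_rpow (by linarith) (by norm_num)).trans hY1
  have hY0 : 0 < Y := by linarith
  have h1 := hdual X hX Y hY1 hY2 Y hY0.le 𝒰 h𝒰 hcard f
  have h3 := hU Y (2 * Y) hY0.le (by linarith)
  have h4 : Y ^ (1 - η) ≤ Y := by
    calc Y ^ (1 - η) ≤ Y ^ (1 : ℝ) := Real.rpow_le_rpow_of_exponent_le hY (by linarith)
      _ = Y := Real.rpow_one Y
  have h5 : ((Us Y (2 * Y)).card : ℝ) + Y ^ (1 - η) ≤ (2 * C2 + 1) * Y := by linarith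
  have h6 : 0 ≤ ∑ w ∈ Us Y (2 * Y), ‖f w‖ ^ 2 := Finset.sum_nonneg fun w _ => sq_nonneg _
  have h7 : ∑ w ∈ Us Y (2 * Y), ‖f w‖ ^ 2 ≤ 2 * C2 * Y := (DB5_sum hf _ _).trans (by linarith)
  unfold Ap
  refine h1.trans ?_
  calc (((Us Y (2 * Y)).card : ℝ) + Y ^ (1 - η)) * ∑ w ∈ Us Y (2 * Y), ‖f w‖ ^ 2 ≤
        ((2 * C2 + 1) * Y) * (2 * C2 * Y) := mul_le_mul h5 h7 h6 (by positivity)
    _ = _ := by ring

/-- Proof. `DualP` with `A = 2 Y/lam`. By `U_count` the set `Us (2Y/lam) (2Y)` has at most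
`kap1 2 Y (1 - 1/lam) + C (2Y)^(3/4) ≤ 3 kap1 (lam - 1) Y` elements for `X ≥ X0(lam)`, and
`Y^(1-η) ≤ (lam - 1) Y` for `X ≥ X0(lam)`. -/
theorem dual_shell {α η : ℝ} (hD : DualP α η) : ∃ C : ℝ, 1 ≤ C ∧ ∀ lam : ℝ, 1 < lam → lam ≤ 2 →
    ∃ X0 : ℝ, 2 ≤ X0 ∧
    ∀ X : ℝ, X0 ≤ X → ∀ Y : ℝ, X ^ ((7 : ℝ) / 8) ≤ Y → Y ≤ X → ∀ 𝒰 : Finset ℤ,
    (∀ k ∈ 𝒰, |(k : ℝ)| ≤ X) → (𝒰.card : ℝ) ≤ X ^ (3 * α) → ∀ f : ℤ√2 → ℂ, MF f →
    ∑ k ∈ 𝒰, ‖Ap f k (2 * Y / lam) (2 * Y)‖ ^ 2 ≤ C * (lam - 1) ^ 2 * Y ^ 2 := by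
  obtain ⟨_, _, hη, _, X0, hX0, hdual⟩ := hD
  obtain ⟨C0, hC0, hU⟩ := U_count
  have hk := kap1_pos
  refine ⟨(3 * kap1 + 1) * (3 * kap1 + 1), by nlinarith, ?_⟩
  intro lam hl hl2
  have hl0 : 0 < lam - 1 := by linarith
  have hlam0 : 0 < lam := by linarith
  set M : ℝ := max 1 (max ((2 * C0 / (kap1 * (lam - 1))) ^ 4) ((1 / (lam - 1)) ^ (1 / η))) with hM
  have hM1 : 1 ≤ M := le_max_left _ _
  have hM2 : (2 * C0 / (kap1 * (lam - 1))) ^ 4 ≤ M := (le_max_left _ _).trans (le_max_right _ _)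
  have hM3 : (1 / (lam - 1)) ^ (1 / η) ≤ M := (le_max_right _ _).trans (le_max_right _ _)
  refine ⟨max X0 (M ^ 2), hX0.trans (le_max_left _ _), ?_⟩
  intro X hX Y hY1 hY2 𝒰 h𝒰 hcard f hf
  have hX' : X0 ≤ X := (le_max_left _ _).trans hX
  have hX2 : 2 ≤ X := hX0.trans hX'
  have hXM : M ^ 2 ≤ X := (le_max_right _ _).trans hX
  have hYM : M ≤ Y := by
    refine le_trans ?_ hY1
    calc M = (M ^ 2) ^ ((1 : ℝ) / 2) := by
          rw [← Real.sqrt_eq_rpow, Real.sqrt_sq (by linarith)]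
      _ ≤ X ^ ((1 : ℝ) / 2) := Real.rpow_le_rpow (by positivity) hXM (by norm_num)
      _ ≤ X ^ ((7 : ℝ) / 8) := Real.rpow_le_rpow_of_exponent_le (by linarith) (by norm_num)
  have hY : 1 ≤ Y := hM1.trans hYM
  have hY0 : 0 < Y := by linarith
  have h1 := hdual X hX' Y hY1 hY2 (2 * Y / lam) (by positivity) 𝒰 h𝒰 hcard f
  have h3 := (abs_le.1 (hU (2 * Y / lam) (2 * Y) (by positivity) (by
    rw [div_le_iff₀ hlam0]
    nlinarith))).2
  have h34 : C0 * (2 * Y) ^ ((3 : ℝ) / 4) ≤ kap1 * (lam - 1) * Y := by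
    have e1 : (2 * Y) ^ ((3 : ℝ) / 4) ≤ 2 * Y ^ ((3 : ℝ) / 4) := by
      rw [Real.mul_rpow (by norm_num) hY0.le]
      refine mul_le_mul_of_nonneg_right ?_ (Real.rpow_nonneg hY0.le _)
      calc (2 : ℝ) ^ ((3 : ℝ) / 4) ≤ 2 ^ (1 : ℝ) :=
            Real.rpow_le_rpow_of_exponent_le (by norm_num) (by norm_num)
        _ = 2 := Real.rpow_one 2
    have e2 : 2 * C0 / (kap1 * (lam - 1)) ≤ Y ^ ((1 : ℝ) / 4) := by
      have e3 : ((2 * C0 / (kap1 * (lam - 1))) ^ 4) ^ ((1 : ℝ) / 4) ≤ Y ^ ((1 : ℝ) / 4) :=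
        Real.rpow_le_rpow (by positivity) (hM2.trans hYM) (by norm_num)
      refine le_trans (le_of_eq ?_) e3
      rw [← Real.rpow_natCast, ← Real.rpow_mul (by positivity)]
      norm_num
    rw [div_le_iff₀ (by positivity)] at e2
    have e4 : Y ^ ((1 : ℝ) / 4) * Y ^ ((3 : ℝ) / 4) = Y := by
      rw [← Real.rpow_add hY0]
      norm_num
    have e5 : 0 ≤ Y ^ ((3 : ℝ) / 4) := Real.rpow_nonneg hY0.le _
    calc C0 * (2 * Y) ^ ((3 : ℝ) / 4) ≤ C0 * (2 * Y ^ ((3 : ℝ) / 4)) :=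
          mul_le_mul_of_nonneg_left e1 hC0.le
      _ = (2 * C0) * Y ^ ((3 : ℝ) / 4) := by ring
      _ ≤ (Y ^ ((1 : ℝ) / 4) * (kap1 * (lam - 1))) * Y ^ ((3 : ℝ) / 4) :=
          mul_le_mul_of_nonneg_right e2 e5
      _ = kap1 * (lam - 1) * (Y ^ ((1 : ℝ) / 4) * Y ^ ((3 : ℝ) / 4)) := by ring
      _ = kap1 * (lam - 1) * Y := by rw [e4]
  have hcardU : ((Us (2 * Y / lam) (2 * Y)).card : ℝ) ≤ 3 * kap1 * (lam - 1) * Y := by
    have e3 : 2 * Y - 2 * Y / lam ≤ 2 * ((lam - 1) * Y) := by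
      have e4 : 2 * Y / lam = 2 * Y * (1 / lam) := by ring
      have e5 : 1 - 1 / lam ≤ lam - 1 := by
        have e6 : 0 < 1 / lam := by positivity
        have e7 : lam * (1 / lam) = 1 := by field_simp
        nlinarith
      rw [e4]
      nlinarith
    have e4 := mul_le_mul_of_nonneg_left e3 hk.le
    linarith
  have h4 : Y ^ (1 - η) ≤ (lam - 1) * Y := by
    have e1 : 1 / (lam - 1) ≤ Y ^ η := by
      have e2 : ((1 / (lam - 1)) ^ (1 / η)) ^ η ≤ Y ^ η :=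
        Real.rpow_le_rpow (by positivity) (hM3.trans hYM) hη.le
      refine le_trans (le_of_eq ?_) e2
      rw [← Real.rpow_mul (by positivity), one_div_mul_cancel hη.ne', Real.rpow_one]
    have e3 : Y ^ (1 - η) = Y / Y ^ η := by
      rw [Real.rpow_sub hY0, Real.rpow_one]
    have e4 : 0 < Y ^ η := Real.rpow_pos_of_pos hY0 _
    rw [e3, div_le_iff₀ e4]
    rw [div_le_iff₀ hl0] at e1
    nlinarith
  have h5 : ((Us (2 * Y / lam) (2 * Y)).card : ℝ) + Y ^ (1 - η) ≤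
      (3 * kap1 + 1) * ((lam - 1) * Y) := by
    have : (3 * kap1 + 1) * ((lam - 1) * Y) = 3 * kap1 * (lam - 1) * Y + (lam - 1) * Y := by ring
    rw [this]
    linarith
  have h6 : 0 ≤ ∑ w ∈ Us (2 * Y / lam) (2 * Y), ‖f w‖ ^ 2 :=
    Finset.sum_nonneg fun w _ => sq_nonneg _
  have h7 : ∑ w ∈ Us (2 * Y / lam) (2 * Y), ‖f w‖ ^ 2 ≤ (3 * kap1 + 1) * ((lam - 1) * Y) := by
    refine (DB5_sum hf _ _).trans ?_
    have h8 : 0 ≤ Y ^ (1 - η) := Real.rpow_nonneg hY0.le _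
    linarith
  unfold Ap
  refine h1.trans ?_
  calc (((Us (2 * Y / lam) (2 * Y)).card : ℝ) + Y ^ (1 - η)) *
        ∑ w ∈ Us (2 * Y / lam) (2 * Y), ‖f w‖ ^ 2 ≤
        ((3 * kap1 + 1) * ((lam - 1) * Y)) * ((3 * kap1 + 1) * ((lam - 1) * Y)) :=
        mul_le_mul h5 h7 h6 (by positivity)
    _ = _ := by ring

/-- `Us_split` -/
theorem Ap_shell (f : ℤ√2 → ℂ) (k : ℤ) {Y lam : ℝ} (hY : 0 < Y) (hl : 1 < lam) (hl2 : lam ≤ 2) :
    Ap f k Y (2 * Y / lam) = Ap f k Y (2 * Y) - Ap f k (2 * Y / lam) (2 * Y) := by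
  have hlam0 : 0 < lam := by linarith
  unfold Ap
  rw [Us_split (fun w => f w * xi k w) (a := Y) (b := 2 * Y / lam) (c := 2 * Y)]
  · ring
  · rw [le_div_iff₀ hlam0]
    nlinarith
  · rw [div_le_iff₀ hlam0]
    nlinarith

end

end Pool.Agent.Lib.MP_0b748d_nt.HD
end

section

set_option autoImplicit false

/-!
# Windows in mean square
-/

namespace Pool.Agent.Lib.MP_0b748d_nt.HD

open Zsqrtd MR

noncomputable section

open Classical in
private lemma DE4_sum (T : Finset (ℤ√2)) (h : ℝ) (φ : ℤ√2 → ℂ) (θ : ℝ) :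
    ∑ z ∈ T.filter (Win θ h), φ z = ∑ z ∈ T, if Int.fract (al z - θ) < h then φ z else 0 := by
  rw [Finset.sum_filter]
  rfl

open Classical in
private lemma DE4_meas (T : Finset (ℤ√2)) (h : ℝ) (φ : ℤ√2 → ℂ) :
    Measurable fun θ : ℝ => ∑ z ∈ T.filter (Win θ h), φ z := by
  simp only [DE4_sum]
  refine Finset.measurable_fun_sum _ fun z _ => ?_
  refine Measurable.ite ?_ measurable_const measurable_const
  exact measurableSet_lt (measurable_fract.comp (measurable_const.sub measurable_id))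
    measurable_const

open Classical in
private lemma DE4_bd (T : Finset (ℤ√2)) (h : ℝ) (φ : ℤ√2 → ℂ) (θ : ℝ) :
    ‖∑ z ∈ T.filter (Win θ h), φ z‖ ≤ ∑ z ∈ T, ‖φ z‖ :=
  (norm_sum_le _ _).trans
    (Finset.sum_le_sum_of_subset_of_nonneg (Finset.filter_subset _ _) fun _ _ _ => norm_nonneg _)

private lemma DE4_ii {g : ℝ → ℝ} (hg : Measurable g) {C : ℝ} (hC : ∀ θ, ‖g θ‖ ≤ C) (a b : ℝ) :
    IntervalIntegrable g MeasureTheory.volume a b := by
  rw [intervalIntegrable_iff]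
  have : MeasureTheory.IsFiniteMeasure
      (MeasureTheory.volume.restrict (Set.uIoc a b) : MeasureTheory.Measure ℝ) :=
    ⟨by
      rw [MeasureTheory.Measure.restrict_apply MeasurableSet.univ, Set.univ_inter]
      unfold Set.uIoc
      exact measure_Ioc_lt_top⟩
  exact MeasureTheory.Integrable.of_bound (C := C) hg.aestronglyMeasurable
    (Filter.Eventually.of_forall hC)

open Classical in
/-- measurable and bounded -/
theorem int_Win (T : Finset (ℤ√2)) (h : ℝ) (φ : ℤ√2 → ℂ) (a b : ℝ) :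
    IntervalIntegrable (fun θ => ‖∑ z ∈ T.filter (Win θ h), φ z‖) MeasureTheory.volume a b ∧
    IntervalIntegrable (fun θ => ‖∑ z ∈ T.filter (Win θ h), φ z‖ ^ 2) MeasureTheory.volume a b := by
  refine ⟨DE4_ii (DE4_meas T h φ).norm (C := ∑ z ∈ T, ‖φ z‖) (fun θ => ?_) a b,
    DE4_ii ((DE4_meas T h φ).norm.pow_const 2) (C := (∑ z ∈ T, ‖φ z‖) ^ 2) (fun θ => ?_) a b⟩
  · rw [norm_norm]
    exact DE4_bd T h φ θ
  · rw [norm_pow, norm_norm]
    exact pow_le_pow_left₀ (norm_nonneg _) (DE4_bd T h φ θ) 2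

/-- the parallelogram law -/
private lemma DE4_par (A B : ℂ) : ‖(A + (starRingEnd ℂ) B) / 2‖ ^ 2 +
    ‖(A - (starRingEnd ℂ) B) / (2 * Complex.I)‖ ^ 2 = (‖A‖ ^ 2 + ‖B‖ ^ 2) / 2 := by
  rw [norm_div, norm_div, _root_.norm_mul, Complex.norm_I, mul_one, Complex.norm_ofNat, div_pow, div_pow,
    ← Complex.normSq_eq_norm_sq, ← Complex.normSq_eq_norm_sq, ← Complex.normSq_eq_norm_sq,
    ← Complex.normSq_eq_norm_sq]
  simp only [Complex.normSq_apply, Complex.add_re, Complex.add_im, Complex.sub_re, Complex.sub_im,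
    Complex.conj_re, Complex.conj_im]
  ring

private lemma DE4_xi (k : ℤ) (z : ℤ√2) : (starRingEnd ℂ) (xi (-k) z) = xi k z := by
  rw [xi, xi, ← ee_neg]
  congr 1
  push_cast
  ring

open Classical in
/-- Proof. `window_bound` (`MR/Parseval.lean`) for the real and imaginary parts of `f` (put `0` outside
the odd totally positive elements, so that they are bounded by `1` everywhere): with
`S k = ∑ Re f(z) xi k z = (Ap f k + conj (Ap f (-k)))/2`, `‖S k‖² ≤ (‖Ap f k‖² + ‖Ap f (-k)‖²)/2` and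
`Ik K` is symmetric. -/
theorem win_sq : ∃ C : ℝ, 1 ≤ C ∧ ∀ f : ℤ√2 → ℂ, MF f → ∀ (X : ℝ) (K : ℕ) (h : ℝ), 1 ≤ X →
    1 ≤ K → 0 < h → h ≤ 1 →
    ∫ θ in (0 : ℝ)..1, ‖∑ z ∈ (Us X (2 * X)).filter (Win θ h), f z‖ ^ 2 ≤
      2 * h ^ 2 * ∑ k ∈ Ik K, ‖Ap f k X (2 * X)‖ ^ 2 + C * (1 / K + X / K ^ 2) * X := by
  obtain ⟨C, hC1, hC⟩ := window_bound
  refine ⟨2 * C, by linarith, fun f hf X K h hX hK h0 h1 => ?_⟩
  set a₁ : ℤ√2 → ℝ := fun z => if OT z then (f z).re else 0 with ha₁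
  set a₂ : ℤ√2 → ℝ := fun z => if OT z then (f z).im else 0 with ha₂
  have hb₁ : ∀ z, |a₁ z| ≤ 1 := fun z => by
    simp only [ha₁]
    split_ifs with hz
    · exact (Complex.abs_re_le_norm _).trans (hf.le z hz)
    · simp
  have hb₂ : ∀ z, |a₂ z| ≤ 1 := fun z => by
    simp only [ha₂]
    split_ifs with hz
    · exact (Complex.abs_im_le_norm _).trans (hf.le z hz)
    · simp
  have hOT : ∀ z ∈ Us X (2 * X), OT z := fun z hz => (mem_Us.1 hz).1.1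
  have e₁ : ∀ z ∈ Us X (2 * X), a₁ z = (f z).re := fun z hz => by
    simp only [ha₁, if_pos (hOT z hz)]
  have e₂ : ∀ z ∈ Us X (2 * X), a₂ z = (f z).im := fun z hz => by
    simp only [ha₂, if_pos (hOT z hz)]
  -- splitting of the square
  have hsq : ∀ θ, ‖∑ z ∈ (Us X (2 * X)).filter (Win θ h), f z‖ ^ 2 =
      (∑ z ∈ (Us X (2 * X)).filter (Win θ h), a₁ z) ^ 2 +
      (∑ z ∈ (Us X (2 * X)).filter (Win θ h), a₂ z) ^ 2 := fun θ => by
    rw [← Complex.normSq_eq_norm_sq, Complex.normSq_apply, Complex.re_sum, Complex.im_sum,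
      ← pow_two, ← pow_two]
    congr 2
    · exact Finset.sum_congr rfl fun z hz => (e₁ z (Finset.mem_filter.1 hz).1).symm
    · exact Finset.sum_congr rfl fun z hz => (e₂ z (Finset.mem_filter.1 hz).1).symm
  have hii : ∀ a : ℤ√2 → ℝ, IntervalIntegrable
      (fun θ => (∑ z ∈ (Us X (2 * X)).filter (Win θ h), a z) ^ 2) MeasureTheory.volume 0 1 := by
    intro a
    have h2 := (int_Win (Us X (2 * X)) h (fun z => (a z : ℂ)) 0 1).2
    refine h2.congr ?_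
    intro θ _
    simp only []
    rw [← Complex.ofReal_sum, Complex.norm_real, Real.norm_eq_abs, sq_abs]
  simp only [hsq]
  rw [intervalIntegral.integral_add (hii a₁) (hii a₂)]
  have hw₁ := hC X K a₁ h hX hK hb₁ h0 h1
  have hw₂ := hC X K a₂ h hX hK hb₂ h0 h1
  -- the coefficients
  have hA : ∀ k, (starRingEnd ℂ) (Ap f (-k) X (2 * X)) =
      ∑ z ∈ Us X (2 * X), (starRingEnd ℂ) (f z) * xi k z := fun k => by
    rw [Ap, map_sum]
    refine Finset.sum_congr rfl fun z _ => ?_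
    rw [map_mul, DE4_xi]
  have hS₁ : ∀ k, ∑ z ∈ Us X (2 * X), (a₁ z : ℂ) * xi k z =
      (Ap f k X (2 * X) + (starRingEnd ℂ) (Ap f (-k) X (2 * X))) / 2 := fun k => by
    rw [hA, Ap, ← Finset.sum_add_distrib, Finset.sum_div]
    refine Finset.sum_congr rfl fun z hz => ?_
    rw [e₁ z hz, Complex.re_eq_add_conj]
    ring
  have hS₂ : ∀ k, ∑ z ∈ Us X (2 * X), (a₂ z : ℂ) * xi k z =
      (Ap f k X (2 * X) - (starRingEnd ℂ) (Ap f (-k) X (2 * X))) / (2 * Complex.I) := fun k => by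
    rw [hA, Ap, ← Finset.sum_sub_distrib, Finset.sum_div]
    refine Finset.sum_congr rfl fun z hz => ?_
    rw [e₂ z hz, Complex.im_eq_sub_conj]
    ring
  have hk : ∀ k, ‖∑ z ∈ Us X (2 * X), (a₁ z : ℂ) * xi k z‖ ^ 2 +
      ‖∑ z ∈ Us X (2 * X), (a₂ z : ℂ) * xi k z‖ ^ 2 =
      (‖Ap f k X (2 * X)‖ ^ 2 + ‖Ap f (-k) X (2 * X)‖ ^ 2) / 2 := fun k => by
    rw [hS₁, hS₂, DE4_par]
  have hsym : ∑ k ∈ Ik K, ‖Ap f (-k) X (2 * X)‖ ^ 2 = ∑ k ∈ Ik K, ‖Ap f k X (2 * X)‖ ^ 2 := by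
    refine Finset.sum_nbij' (fun k => -k) (fun k => -k) ?_ ?_ ?_ ?_ ?_
    · intro k hk
      unfold Ik at hk ⊢
      rw [Finset.mem_Icc] at hk ⊢
      omega
    · intro k hk
      unfold Ik at hk ⊢
      rw [Finset.mem_Icc] at hk ⊢
      omega
    · intro k _
      exact neg_neg k
    · intro k _
      exact neg_neg k
    · intro k _
      rfl
  have htot : ∑ k ∈ Ik K, ‖∑ z ∈ Us X (2 * X), (a₁ z : ℂ) * xi k z‖ ^ 2 +
      ∑ k ∈ Ik K, ‖∑ z ∈ Us X (2 * X), (a₂ z : ℂ) * xi k z‖ ^ 2 =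
      ∑ k ∈ Ik K, ‖Ap f k X (2 * X)‖ ^ 2 := by
    rw [← Finset.sum_add_distrib, Finset.sum_congr rfl fun k _ => hk k, ← Finset.sum_div,
      Finset.sum_add_distrib, hsym]
    ring
  have hnn : 0 ≤ ∑ k ∈ Ik K, ‖Ap f k X (2 * X)‖ ^ 2 := Finset.sum_nonneg fun k _ => by positivity
  have hh : 0 ≤ h ^ 2 * ∑ k ∈ Ik K, ‖Ap f k X (2 * X)‖ ^ 2 := by positivity
  calc _ ≤ _ := add_le_add hw₁ hw₂
    _ = h ^ 2 * (∑ k ∈ Ik K, ‖∑ z ∈ Us X (2 * X), (a₁ z : ℂ) * xi k z‖ ^ 2 +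
          ∑ k ∈ Ik K, ‖∑ z ∈ Us X (2 * X), (a₂ z : ℂ) * xi k z‖ ^ 2) +
          2 * C * (1 / K + X / K ^ 2) * X := by ring
    _ = h ^ 2 * ∑ k ∈ Ik K, ‖Ap f k X (2 * X)‖ ^ 2 + 2 * C * (1 / K + X / K ^ 2) * X := by
          rw [htot]
    _ ≤ _ := by linarith

end

end Pool.Agent.Lib.MP_0b748d_nt.HD
end

section

set_option autoImplicit false

/-!
# One step of the iteration
-/

namespace Pool.Agent.Lib.MP_0b748d_nt.HD

open Zsqrtd MR

noncomputable section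

/-- from `dual_base` (`b = 1/8`) -/
theorem good_base {α η : ℝ} (hD : DualP α η) {f : ℤ√2 → ℂ} (hf : MF f) (κ0 : ℝ) :
    ∃ ρ : ℝ, 0 < ρ ∧ GoodF f κ0 α ρ := by
  obtain ⟨C, hC, X0, hX0, h⟩ := dual_base hD
  refine ⟨C, by linarith, 1 / 8, X0, by norm_num, le_rfl, hX0, ?_⟩
  intro X hX Y hY hYX 𝒰 hU hUc
  rw [show (1 : ℝ) - 1 / 8 = 7 / 8 by norm_num] at hY
  exact h X hX Y hY hYX 𝒰 (fun k hk => (hU k hk).1) hUc f hf

/-- the prime polynomials of the blocks.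

Proof. `‖Qp f k (P lam^v) (P lam^(v+1))‖ ≤ ∑_{p ∈ Ip (P lam^v) (P lam^(v+1))} ‖∑_s f (el p s) xi k
(el p s)‖` and `1/(P lam^v) ≤ lam/p`; the inner norm is at most `2` (`MF.le`, `norm_xi`). Sum over `v`
with `Ip_split`. -/
theorem Qp_block {f : ℤ√2 → ℂ} (hf : MF f) (k : ℤ) {P lam : ℝ} (hP : 0 < P) (hl : 1 < lam) (n : ℕ) :
    (∀ v : ℕ, ‖Qp f k (P * lam ^ v) (P * lam ^ (v + 1))‖ / (P * lam ^ v) ≤
      lam * ∑ p ∈ Ip (P * lam ^ v) (P * lam ^ (v + 1)), 2 / (p : ℝ)) ∧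
    ∑ v ∈ Finset.range n, ‖Qp f k (P * lam ^ v) (P * lam ^ (v + 1))‖ / (P * lam ^ v) ≤
      lam * ∑ p ∈ Ip P (P * lam ^ n), (1 / (p : ℝ)) * ‖∑ s : Bool, f (el p s) * xi k (el p s)‖ := by
  have hl0 : 0 < lam := by linarith
  have hS : ∀ v : ℕ, ∀ p ∈ Ip (P * lam ^ v) (P * lam ^ (v + 1)),
      ‖∑ s : Bool, f (el p s) * xi k (el p s)‖ ≤ 2 := by
    intro v p hp
    obtain ⟨h1, h2, -, -⟩ := mem_Ip.1 hp
    have h3 : ∀ s : Bool, ‖f (el p s) * xi k (el p s)‖ ≤ 1 := by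
      intro s
      rw [_root_.norm_mul, norm_xi, mul_one]
      exact hf.le _ (el_spec ⟨h1, Or.inl h2⟩ s).1
    refine (norm_sum_le _ _).trans ((Finset.sum_le_sum fun s _ => h3 s).trans ?_)
    simp
  have hkey : ∀ v : ℕ, ‖Qp f k (P * lam ^ v) (P * lam ^ (v + 1))‖ / (P * lam ^ v) ≤
      lam * ∑ p ∈ Ip (P * lam ^ v) (P * lam ^ (v + 1)),
        (1 / (p : ℝ)) * ‖∑ s : Bool, f (el p s) * xi k (el p s)‖ := by
    intro v
    have hPv : 0 < P * lam ^ v := by positivity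
    unfold Qp
    calc ‖∑ p ∈ Ip (P * lam ^ v) (P * lam ^ (v + 1)), ∑ s : Bool, f (el p s) * xi k (el p s)‖ /
          (P * lam ^ v)
        ≤ (∑ p ∈ Ip (P * lam ^ v) (P * lam ^ (v + 1)),
          ‖∑ s : Bool, f (el p s) * xi k (el p s)‖) / (P * lam ^ v) :=
          div_le_div_of_nonneg_right (norm_sum_le _ _) hPv.le
      _ = ∑ p ∈ Ip (P * lam ^ v) (P * lam ^ (v + 1)),
          ‖∑ s : Bool, f (el p s) * xi k (el p s)‖ / (P * lam ^ v) := Finset.sum_div _ _ _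
      _ ≤ ∑ p ∈ Ip (P * lam ^ v) (P * lam ^ (v + 1)),
          lam * ((1 / (p : ℝ)) * ‖∑ s : Bool, f (el p s) * xi k (el p s)‖) := by
          refine Finset.sum_le_sum fun p hp => ?_
          obtain ⟨h1, -, -, h2⟩ := mem_Ip.1 hp
          have hp0 : (0 : ℝ) < p := by exact_mod_cast h1.pos
          rw [div_le_iff₀ hPv]
          have h3 : (1 : ℝ) ≤ lam * (1 / p) * (P * lam ^ v) := by
            rw [pow_succ, ← mul_assoc] at h2
            have h4 : lam * (1 / (p : ℝ)) * (P * lam ^ v) = P * lam ^ v * lam / p := by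
              field_simp
            rw [h4, le_div_iff₀ hp0]
            linarith
          have h5 := mul_le_mul_of_nonneg_right h3
            (norm_nonneg (∑ s : Bool, f (el p s) * xi k (el p s)))
          linarith
      _ = _ := (Finset.mul_sum _ _ _).symm
  refine ⟨fun v => (hkey v).trans ?_, ?_⟩
  · refine mul_le_mul_of_nonneg_left (Finset.sum_le_sum fun p hp => ?_) hl0.le
    have h1 := mul_le_mul_of_nonneg_left (hS v p hp) (by positivity : (0 : ℝ) ≤ 1 / (p : ℝ))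
    calc 1 / (p : ℝ) * ‖∑ s : Bool, f (el p s) * xi k (el p s)‖ ≤ 1 / (p : ℝ) * 2 := h1
      _ = 2 / (p : ℝ) := by ring
  · refine (Finset.sum_le_sum fun v _ => hkey v).trans (le_of_eq ?_)
    rw [Ip_split _ P lam hP hl n, Finset.mul_sum]

end

end Pool.Agent.Lib.MP_0b748d_nt.HD
end

section

set_option autoImplicit false

/-!
# The coefficients of the error of the decomposition
-/

namespace Pool.Agent.Lib.MP_0b748d_nt.HD

open Zsqrtd MR

noncomputable section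

private theorem DB3_Wp_le {P Y : ℝ} (hY : 0 ≤ Y) : Wp P Y ≤ Y := by
  have h1 : ∀ p ∈ Ip P Y, (2 : ℝ) / p ≤ 1 := by
    intro p hp
    have h2 := (mem_Ip.1 hp).1.two_le
    have h3 : (2 : ℝ) ≤ p := by exact_mod_cast h2
    rw [div_le_one (by linarith)]
    exact h3
  have h4 : Ip P Y ⊆ Finset.Icc 1 ⌊Y⌋₊ := by
    intro p hp
    obtain ⟨h5, -, -, h6⟩ := mem_Ip.1 hp
    exact Finset.mem_Icc.2 ⟨h5.one_lt.le, Nat.le_floor h6.le⟩
  have h7 : ((Ip P Y).card : ℝ) ≤ ⌊Y⌋₊ := by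
    have := Finset.card_le_card h4
    rw [Nat.card_Icc, Nat.add_sub_cancel] at this
    exact_mod_cast this
  unfold Wp
  calc ∑ p ∈ Ip P Y, (2 : ℝ) / p ≤ ∑ _p ∈ Ip P Y, (1 : ℝ) := Finset.sum_le_sum h1
    _ = (Ip P Y).card := by rw [Finset.sum_const, nsmul_eq_mul, mul_one]
    _ ≤ ⌊Y⌋₊ := h7
    _ ≤ Y := Nat.floor_le hY

/-- Proof. This is the middle part of the proof of `decomp` (`MR/Decomp.lean`): copy it without the
mean value theorem. -/
theorem coef_sq : ∃ C : ℝ, 1 ≤ C ∧ ∀ f : ℤ√2 → ℂ, MF f → ∀ (X P lam : ℝ) (n : ℕ), 1 ≤ X →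
    2 ≤ P → 1 < lam → lam ≤ 2 → (P * lam ^ n) ^ 8 ≤ X → 1 ≤ Wp P (P * lam ^ n) →
    ∃ c : ℤ√2 → ℂ, (∀ k : ℤ, Ap f k X (2 * X) - (1 / (Wp P (P * lam ^ n) : ℂ)) *
        ∑ v ∈ Finset.range n, Qp f k (P * lam ^ v) (P * lam ^ (v + 1)) *
          Ap f k (X / (P * lam ^ v)) (2 * X / (P * lam ^ (v + 1))) =
        ∑ w ∈ Us 0 (2 * X), c w * xi k w) ∧
      ∑ w ∈ Us 0 (2 * X), ‖c w‖ ^ 2 ≤
        C * X * (1 / Wp P (P * lam ^ n) + (lam - 1) + 1 / Real.log P) := by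
  classical
  obtain ⟨C1, hC1, hTK⟩ := turan_kubilius
  obtain ⟨C2, hC2, hU⟩ := U_count
  obtain ⟨C3, hC3, hcorr⟩ := corr
  have hk := kap1_pos
  refine ⟨3 * (2 * C1 + 12 * kap1 + 16 * C2 + C3), by linarith, ?_⟩
  intro f _hf X P lam n hX hP hl hl2 hPX hW
  obtain ⟨c, hc, hcb⟩ := decomp_coef f _hf X P lam n hX hP hl hl2 hW
  obtain ⟨Y, hY⟩ : ∃ Y : ℝ, Y = P * lam ^ n := ⟨_, rfl⟩
  obtain ⟨W, hWd⟩ : ∃ W : ℝ, W = Wp P (P * lam ^ n) := ⟨_, rfl⟩
  have hX0 : 0 < X := by linarith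
  have hln : 1 ≤ lam ^ n := one_le_pow₀ hl.le
  have hPY : P ≤ Y := by rw [hY]; nlinarith only [hP, hln]
  have hY1 : 1 ≤ Y := by linarith
  have hW0 : 0 < W := by rw [hWd]; linarith
  have hW1 : 1 ≤ W := by rw [hWd]; exact hW
  have hWY : W ≤ Y := by
    rw [hWd, ← hY]
    exact DB3_Wp_le (by linarith)
  have hlogP : 0 < Real.log P := Real.log_pos (by linarith)
  refine ⟨c, hc, ?_⟩
  rw [← hWd] at hcb ⊢
  obtain ⟨S1, hS1⟩ : ∃ S1 : ℝ, S1 = ∑ w ∈ Us 0 (2 * X),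
      (if X ≤ nm w then |om (Ip P (P * lam ^ n)) w / W - 1| else 0) ^ 2 := ⟨_, rfl⟩
  obtain ⟨S2, hS2⟩ : ∃ S2 : ℝ, S2 = ∑ w ∈ Us 0 (2 * X),
      (if (X ≤ nm w ∧ (nm w : ℝ) < lam * X) ∨ 2 * X / lam ≤ nm w then (2 : ℝ) else 0) ^ 2 :=
    ⟨_, rfl⟩
  obtain ⟨S3, hS3⟩ : ∃ S3 : ℝ, S3 = ∑ w ∈ Us 0 (2 * X), om2 X P lam n w ^ 2 := ⟨_, rfl⟩
  have hsum : ∑ w ∈ Us 0 (2 * X), ‖c w‖ ^ 2 ≤ 3 * (S1 + S2 + S3) := by
    rw [hS1, hS2, hS3, ← Finset.sum_add_distrib, ← Finset.sum_add_distrib, Finset.mul_sum]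
    refine Finset.sum_le_sum fun w hw => ?_
    have h1 := pow_le_pow_left₀ (norm_nonneg _) (hcb w hw) 2
    refine h1.trans ?_
    generalize (if X ≤ nm w then |om (Ip P (P * lam ^ n)) w / W - 1| else 0) = a
    generalize (if (X ≤ nm w ∧ (nm w : ℝ) < lam * X) ∨ 2 * X / lam ≤ nm w then (2 : ℝ) else 0) = b
    generalize om2 X P lam n w = d
    linarith only [sq_nonneg (a - b), sq_nonneg (a - d), sq_nonneg (b - d)]
  -- first part
  have hB1 : S1 ≤ 2 * C1 * (X * (1 / W)) := by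
    have h1 : S1 = ∑ w ∈ (Us 0 (2 * X)).filter (fun w => X ≤ nm w),
        (om (Ip P (P * lam ^ n)) w / W - 1) ^ 2 := by
      rw [hS1, Finset.sum_filter]
      refine Finset.sum_congr rfl fun w _ => ?_
      split_ifs with h
      · exact sq_abs _
      · norm_num
    have h2 : (Us 0 (2 * X)).filter (fun w => X ≤ nm w) ⊆ Vs X (2 * X) := by
      intro w hw
      obtain ⟨h3, h4⟩ := Finset.mem_filter.1 hw
      obtain ⟨h5, -, h6⟩ := mem_Us.1 h3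
      exact Us_sub _ _ (mem_Us.2 ⟨h5, h4, h6⟩)
    have h3 : S1 ≤ ∑ w ∈ Vs X (2 * X), (om (Ip P (P * lam ^ n)) w / W - 1) ^ 2 := by
      rw [h1]
      exact Finset.sum_le_sum_of_subset_of_nonneg h2 fun w _ _ => sq_nonneg _
    have h4 : ∑ w ∈ Vs X (2 * X), (om (Ip P (P * lam ^ n)) w / W - 1) ^ 2 =
        (∑ w ∈ Vs X (2 * X), (om (Ip P (P * lam ^ n)) w - W) ^ 2) / W ^ 2 := by
      rw [Finset.sum_div]
      refine Finset.sum_congr rfl fun w _ => ?_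
      field_simp
    have h5 := hTK X P (P * lam ^ n) hX hP (by rw [← hY]; exact hPY) hPX
    rw [← hWd] at h5
    rw [h4] at h3
    refine h3.trans ?_
    rw [div_le_iff₀ (by positivity)]
    refine h5.trans ?_
    have h6 : 2 * C1 * (X * (1 / W)) * W ^ 2 = C1 * X * (2 * W) := by
      field_simp
    rw [h6]
    apply mul_le_mul_of_nonneg_left _ (by positivity)
    linarith
  -- second part
  have h34 : (2 * X) ^ ((3 : ℝ) / 4) ≤ 2 * (X * (1 / W)) := by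
    have h1 : (2 * X) ^ ((3 : ℝ) / 4) = 2 ^ ((3 : ℝ) / 4) * X ^ ((3 : ℝ) / 4) :=
      Real.mul_rpow (by norm_num) hX0.le
    have h2 : (2 : ℝ) ^ ((3 : ℝ) / 4) ≤ 2 := by
      have := Real.rpow_le_rpow_of_exponent_le (show (1 : ℝ) ≤ 2 by norm_num)
        (show (3 : ℝ) / 4 ≤ 1 by norm_num)
      rwa [Real.rpow_one] at this
    have h3 : Y ≤ X ^ ((1 : ℝ) / 4) := by
      have h4 : Y ^ 4 ≤ X := by
        refine le_trans ?_ hPX
        rw [← hY]
        exact pow_le_pow_right₀ hY1 (by norm_num)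
      have h5 := Real.rpow_le_rpow (by positivity) h4 (show (0 : ℝ) ≤ 1 / 4 by norm_num)
      rw [← Real.rpow_natCast, ← Real.rpow_mul (by linarith)] at h5
      norm_num at h5
      norm_num
      exact h5
    have h6 : X ^ ((3 : ℝ) / 4) * X ^ ((1 : ℝ) / 4) = X := by
      rw [← Real.rpow_add hX0]
      norm_num
    have h7 : 0 ≤ X ^ ((3 : ℝ) / 4) := Real.rpow_nonneg hX0.le _
    have h8 : X ^ ((3 : ℝ) / 4) ≤ X * (1 / W) := by
      rw [mul_one_div, le_div_iff₀ hW0]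
      calc X ^ ((3 : ℝ) / 4) * W ≤ X ^ ((3 : ℝ) / 4) * X ^ ((1 : ℝ) / 4) :=
            mul_le_mul_of_nonneg_left (hWY.trans h3) h7
        _ = X := h6
    rw [h1]
    exact mul_le_mul h2 h8 h7 (by norm_num)
  have hB2 : S2 ≤ 12 * kap1 * (X * (lam - 1)) + 16 * C2 * (X * (1 / W)) := by
    have h1 : S2 = ∑ w ∈ (Us 0 (2 * X)).filter (fun w =>
        (X ≤ nm w ∧ (nm w : ℝ) < lam * X) ∨ 2 * X / lam ≤ nm w), (4 : ℝ) := by
      rw [hS2, Finset.sum_filter]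
      refine Finset.sum_congr rfl fun w _ => ?_
      split_ifs with h
      · norm_num
      · norm_num
    have h2 : (Us 0 (2 * X)).filter (fun w =>
        (X ≤ nm w ∧ (nm w : ℝ) < lam * X) ∨ 2 * X / lam ≤ nm w) ⊆
        Us X (lam * X) ∪ Us (2 * X / lam) (2 * X) := by
      intro w hw
      obtain ⟨h3, h4⟩ := Finset.mem_filter.1 hw
      obtain ⟨h5, -, h6⟩ := mem_Us.1 h3
      rw [Finset.mem_union]
      rcases h4 with h4 | h4
      · exact Or.inl (mem_Us.2 ⟨h5, h4.1, h4.2⟩)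
      · exact Or.inr (mem_Us.2 ⟨h5, h4, h6⟩)
    have h3 : S2 ≤ 4 * (((Us X (lam * X)).card : ℝ) + ((Us (2 * X / lam) (2 * X)).card : ℝ)) := by
      rw [h1, Finset.sum_const, nsmul_eq_mul, mul_comm]
      apply mul_le_mul_of_nonneg_left _ (by norm_num)
      have := (Finset.card_le_card h2).trans (Finset.card_union_le _ _)
      exact_mod_cast this
    have hlam0 : 0 < lam := by linarith
    have h4 := hU X (lam * X) hX0.le (by nlinarith only [hX, hl])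
    have h5 := hU (2 * X / lam) (2 * X) (by positivity) (by
      rw [div_le_iff₀ hlam0]
      nlinarith only [hX, hl])
    have h6 : (lam * X) ^ ((3 : ℝ) / 4) ≤ (2 * X) ^ ((3 : ℝ) / 4) :=
      Real.rpow_le_rpow (by positivity) (by nlinarith only [hX, hl2]) (by norm_num)
    have h7 : ((Us X (lam * X)).card : ℝ) ≤ kap1 * (X * (lam - 1)) + C2 * (2 * (X * (1 / W))) := by
      have e1 := (abs_le.1 h4).2
      have e2 : C2 * (lam * X) ^ ((3 : ℝ) / 4) ≤ C2 * (2 * (X * (1 / W))) :=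
        mul_le_mul_of_nonneg_left (h6.trans h34) hC2.le
      have e3 : kap1 * (lam * X - X) = kap1 * (X * (lam - 1)) := by ring
      linarith only [e1, e2]
    have h8 : ((Us (2 * X / lam) (2 * X)).card : ℝ) ≤
        2 * kap1 * (X * (lam - 1)) + C2 * (2 * (X * (1 / W))) := by
      have e1 := (abs_le.1 h5).2
      have e2 : C2 * (2 * X) ^ ((3 : ℝ) / 4) ≤ C2 * (2 * (X * (1 / W))) :=
        mul_le_mul_of_nonneg_left h34 hC2.le
      have e3 : 2 * X - 2 * X / lam ≤ 2 * (X * (lam - 1)) := by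
        have e4 : 2 * X / lam = 2 * X * (1 / lam) := by ring
        have e5 : 1 - 1 / lam ≤ lam - 1 := by
          have e6 : 0 < 1 / lam := by positivity
          have e7 : lam * (1 / lam) = 1 := by field_simp
          nlinarith only [hl, e7]
        rw [e4]
        nlinarith only [hX0, e5]
      have e4 := mul_le_mul_of_nonneg_left e3 hk.le
      linarith only [e1, e2, e4]
    have h9 : 0 ≤ X * (1 / W) := by positivity
    have h10 : 0 ≤ X * (lam - 1) := mul_nonneg hX0.le (by linarith only [hl])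
    linarith only [h3, h7, h8]
  -- third part
  have hB3 : S3 ≤ C3 * (X * (1 / Real.log P)) := by
    rw [hS3]
    refine (hcorr X P lam n hX hP hl).trans (le_of_eq ?_)
    ring
  refine hsum.trans ?_
  obtain ⟨A1, hA1⟩ : ∃ A1 : ℝ, A1 = X * (1 / W) := ⟨_, rfl⟩
  obtain ⟨A2, hA2⟩ : ∃ A2 : ℝ, A2 = X * (lam - 1) := ⟨_, rfl⟩
  obtain ⟨A3, hA3⟩ : ∃ A3 : ℝ, A3 = X * (1 / Real.log P) := ⟨_, rfl⟩
  have hA10 : 0 ≤ A1 := by rw [hA1]; positivity
  have hA20 : 0 ≤ A2 := by rw [hA2]; exact mul_nonneg hX0.le (by linarith)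
  have hA30 : 0 ≤ A3 := by rw [hA3]; positivity
  rw [← hA1] at hB1 hB2
  rw [← hA2] at hB2
  rw [← hA3] at hB3
  have hall : S1 + S2 + S3 ≤ (2 * C1 + 12 * kap1 + 16 * C2 + C3) * (A1 + A2 + A3) := by
    have e1 : (2 * C1 + 12 * kap1 + 16 * C2 + C3) * (A1 + A2 + A3) =
        (2 * C1 * A1 + (12 * kap1 * A2 + 16 * C2 * A1) + C3 * A3) +
        (12 * kap1 + C3) * A1 + (2 * C1 + 16 * C2 + C3) * A2 +
        (2 * C1 + 12 * kap1 + 16 * C2) * A3 := by ring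
    have e2 : 0 ≤ (12 * kap1 + C3) * A1 := by positivity
    have e3 : 0 ≤ (2 * C1 + 16 * C2 + C3) * A2 := by positivity
    have e4 : 0 ≤ (2 * C1 + 12 * kap1 + 16 * C2) * A3 := by positivity
    linarith
  have hXsum : X * (1 / W + (lam - 1) + 1 / Real.log P) = A1 + A2 + A3 := by
    rw [hA1, hA2, hA3]
    ring
  rw [mul_assoc (3 * (2 * C1 + 12 * kap1 + 16 * C2 + C3)), hXsum]
  linarith

end

end Pool.Agent.Lib.MP_0b748d_nt.HD
end

section

set_option autoImplicit false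

/-!
# The decomposition on a sparse set of frequencies
-/

namespace Pool.Agent.Lib.MP_0b748d_nt.HD

open Zsqrtd MR

noncomputable section

/-- Proof. `coef_sq` at level `Y`, `DualP` with `A = 0` for the coefficients `c`; `#Us 0 (2Y) ≤ C' Y`
(`U_le`), `Y^(1-η) ≤ Y`. -/
theorem decomp_dual {α η : ℝ} (hD : DualP α η) : ∃ C : ℝ, 1 ≤ C ∧ ∃ X0 : ℝ, 2 ≤ X0 ∧
    ∀ X : ℝ, X0 ≤ X → ∀ Y : ℝ, X ^ ((7 : ℝ) / 8) ≤ Y → Y ≤ X → ∀ 𝒰 : Finset ℤ,
    (∀ k ∈ 𝒰, |(k : ℝ)| ≤ X) → (𝒰.card : ℝ) ≤ X ^ (3 * α) → ∀ f : ℤ√2 → ℂ, MF f →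
    ∀ (P lam : ℝ) (n : ℕ), 2 ≤ P → 1 < lam → lam ≤ 2 → (P * lam ^ n) ^ 8 ≤ Y →
    1 ≤ Wp P (P * lam ^ n) →
    ∑ k ∈ 𝒰, ‖Ap f k Y (2 * Y) - (1 / (Wp P (P * lam ^ n) : ℂ)) *
        ∑ v ∈ Finset.range n, Qp f k (P * lam ^ v) (P * lam ^ (v + 1)) *
          Ap f k (Y / (P * lam ^ v)) (2 * Y / (P * lam ^ (v + 1)))‖ ^ 2 ≤
      C * Y ^ 2 * (1 / Wp P (P * lam ^ n) + (lam - 1) + 1 / Real.log P) := by
  obtain ⟨_, _, hη, _, X0, hX0, hdual⟩ := hD
  obtain ⟨C1, hC1, hcoef⟩ := coef_sq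
  obtain ⟨C2, hC2, hU⟩ := U_le
  refine ⟨(2 * C2 + 1) * C1, by nlinarith, X0, hX0, ?_⟩
  intro X hX Y hY1 hY2 𝒰 h𝒰 hcard f hf P lam n hP hl hl2 hPY hW
  have hX2 : 2 ≤ X := hX0.trans hX
  have hY : 1 ≤ Y := (Real.one_le_rpow (by linarith) (by norm_num)).trans hY1
  have hY0 : 0 < Y := by linarith
  obtain ⟨c, hc, hcs⟩ := hcoef f hf Y P lam n hY hP hl hl2 hPY hW
  have h1 := hdual X hX Y hY1 hY2 0 le_rfl 𝒰 h𝒰 hcard c
  have h2 : ∑ k ∈ 𝒰, ‖Ap f k Y (2 * Y) - (1 / (Wp P (P * lam ^ n) : ℂ)) *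
        ∑ v ∈ Finset.range n, Qp f k (P * lam ^ v) (P * lam ^ (v + 1)) *
          Ap f k (Y / (P * lam ^ v)) (2 * Y / (P * lam ^ (v + 1)))‖ ^ 2 =
      ∑ k ∈ 𝒰, ‖∑ w ∈ Us 0 (2 * Y), c w * xi k w‖ ^ 2 :=
    Finset.sum_congr rfl fun k _ => by rw [hc k]
  rw [h2]
  refine h1.trans ?_
  have h3 := hU 0 (2 * Y) le_rfl (by linarith)
  have h4 : Y ^ (1 - η) ≤ Y := by
    calc Y ^ (1 - η) ≤ Y ^ (1 : ℝ) := Real.rpow_le_rpow_of_exponent_le hY (by linarith)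
      _ = Y := Real.rpow_one Y
  have h5 : ((Us 0 (2 * Y)).card : ℝ) + Y ^ (1 - η) ≤ (2 * C2 + 1) * Y := by linarith
  have h6 : 0 ≤ ∑ w ∈ Us 0 (2 * Y), ‖c w‖ ^ 2 := Finset.sum_nonneg fun w _ => sq_nonneg _
  calc (((Us 0 (2 * Y)).card : ℝ) + Y ^ (1 - η)) * ∑ w ∈ Us 0 (2 * Y), ‖c w‖ ^ 2 ≤
        ((2 * C2 + 1) * Y) * (C1 * Y * (1 / Wp P (P * lam ^ n) + (lam - 1) + 1 / Real.log P)) :=
        mul_le_mul h5 hcs h6 (by positivity)
    _ = _ := by ring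

end

end Pool.Agent.Lib.MP_0b748d_nt.HD
end

section

set_option autoImplicit false

/-!
# Prime polynomials with characters
-/

namespace Pool.Agent.Lib.MP_0b748d_nt.HD

open Zsqrtd MR

noncomputable section

private lemma DB1_cos {J : ℕ} (hJ : 1 ≤ J) {a : ℝ} (h : ∀ m : ℤ, 1 / (2 * (J : ℝ)) < |2 * a - m|) :
    |Real.cos (2 * Real.pi * a)| ≤ 1 - 1 / (2 * (J : ℝ) ^ 2) := by
  have hJ0 : (0 : ℝ) < J := by exact_mod_cast hJ
  set m : ℤ := round (2 * a) with hm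
  set t : ℝ := 2 * a - m with ht
  have h1 : |t| ≤ 1 / 2 := abs_sub_round (2 * a)
  have h2 := h m
  rw [← ht] at h2
  have h3 : |Real.cos (2 * Real.pi * a)| = |Real.cos (Real.pi * t)| := by
    have e1 : Real.pi * t = 2 * Real.pi * a - m * Real.pi := by
      rw [ht]
      ring
    rw [e1, Real.cos_sub_int_mul_pi, abs_mul, abs_zpow, abs_neg, abs_one, one_zpow, one_mul]
  have h4 : |Real.pi * t| ≤ Real.pi / 2 := by
    rw [abs_mul, abs_of_pos Real.pi_pos]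
    have := mul_le_mul_of_nonneg_left h1 Real.pi_pos.le
    linarith only [this]
  have h5 : 0 ≤ Real.cos (Real.pi * t) := by
    have := abs_le.1 h4
    exact Real.cos_nonneg_of_mem_Icc ⟨by linarith only [this.1], this.2⟩
  have h7 : Real.cos (Real.pi * t) ≤ 1 - 2 / Real.pi ^ 2 * (Real.pi * t) ^ 2 :=
    Real.cos_le_one_sub_mul_cos_sq (h4.trans (by linarith only [Real.pi_pos]))
  have h8 : 2 / Real.pi ^ 2 * (Real.pi * t) ^ 2 = 2 * t ^ 2 := by
    have := Real.pi_pos.ne'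
    field_simp
  have h9 : (1 / (2 * (J : ℝ))) ^ 2 ≤ t ^ 2 := by
    rw [← sq_abs t]
    exact pow_le_pow_left₀ (by positivity) h2.le 2
  have h10 : (1 / (2 * (J : ℝ))) ^ 2 = 1 / (2 * (J : ℝ) ^ 2) / 2 := by
    field_simp
  rw [h3, abs_of_nonneg h5]
  rw [h8] at h7
  rw [h10] at h9
  linarith only [h7, h9]

open Classical in
private lemma DB1_bad {C : ℝ} {J M : ℕ} {P0 : ℝ} (hJ : 1 ≤ J) (hP0 : 2 ≤ P0)
    (h : ∀ P : ℝ, P0 ≤ P → ∀ k : ℤ, k ≠ 0 → |(k : ℝ)| ≤ P ^ M → ∀ T : Finset ℕ,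
      (∀ p ∈ T, p ∈ Ip P (2 * P) ∧ ∃ m : ℤ, |2 * k * al (pe p) - m| ≤ 1 / (2 * J)) →
      (T.card : ℝ) ≤ C / J * (P / Real.log P)) {P Q : ℝ} (hP : P0 ≤ P) (hPQ : P ≤ Q) {k : ℤ}
    (hk : k ≠ 0) (hkP : |(k : ℝ)| ≤ P ^ M) (hC : 0 ≤ C) :
    ∑ p ∈ Ip P Q, (if ∃ m : ℤ, |2 * k * al (pe p) - m| ≤ 1 / (2 * J) then 2 / (p : ℝ) else 0) ≤
      2 * C / J * (2 + 2 * Real.log (2 * Real.log Q / Real.log P)) := by
  have hJ0 : (0 : ℝ) < J := by exact_mod_cast hJ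
  have hP2 : 2 ≤ P := hP0.trans hP
  have hP0' : 0 < P := by linarith only [hP2]
  have hQ0 : 0 < Q := by linarith
  have hlogP : 0 < Real.log P := Real.log_pos (by linarith)
  -- the number of dyadic blocks
  have hex : ∃ N : ℕ, Q ≤ P * 2 ^ N := by
    obtain ⟨N, hN⟩ := pow_unbounded_of_one_lt (Q / P) (one_lt_two : (1 : ℝ) < 2)
    refine ⟨N, ?_⟩
    rw [div_lt_iff₀ hP0'] at hN
    linarith
  set N : ℕ := Nat.find hex with hN
  have hN1 : Q ≤ P * 2 ^ N := Nat.find_spec hex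
  have hN2 : P * 2 ^ N ≤ 2 * Q := by
    rcases Nat.eq_zero_or_pos N with h0 | h0
    · rw [h0, pow_zero]
      linarith
    · obtain ⟨N', hN'⟩ : ∃ N', N = N' + 1 := ⟨N - 1, by omega⟩
      have h1 : ¬ Q ≤ P * 2 ^ N' := Nat.find_min hex (by omega)
      rw [hN', pow_succ]
      linarith [not_le.1 h1]
  set φ : ℕ → ℝ := fun p => if ∃ m : ℤ, |2 * k * al (pe p) - m| ≤ 1 / (2 * J) then
    2 / (p : ℝ) else 0 with hφ
  have hφ0 : ∀ p, 0 ≤ φ p := by
    intro p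
    rw [hφ]
    simp only
    split_ifs
    · positivity
    · exact le_rfl
  have h1 : ∑ p ∈ Ip P Q, φ p ≤ ∑ p ∈ Ip P (P * 2 ^ N), φ p := by
    refine Finset.sum_le_sum_of_subset_of_nonneg ?_ fun p _ _ => hφ0 p
    intro p hp
    rw [mem_Ip] at hp ⊢
    exact ⟨hp.1, hp.2.1, hp.2.2.1, lt_of_lt_of_le hp.2.2.2 hN1⟩
  have h2 : ∀ v ∈ Finset.range N, ∑ p ∈ Ip (P * 2 ^ v) (P * 2 ^ (v + 1)), φ p ≤
      2 * C / J * (1 / Real.log (2 ^ v * P)) := by
    intro v _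
    set R : ℝ := 2 ^ v * P with hR
    have hPR : P ≤ R := by
      rw [hR]
      exact le_mul_of_one_le_left hP0'.le (one_le_pow₀ (by norm_num))
    have e1 : P * 2 ^ v = R := by rw [hR]; ring
    have e2 : P * 2 ^ (v + 1) = 2 * R := by rw [hR]; ring
    rw [e1, e2]
    have hR0 : 0 < R := by linarith only [hP0', hPR]
    have h3 := h R (hP.trans hPR) k hk (hkP.trans (pow_le_pow_left₀ hP0'.le hPR M))
      ((Ip R (2 * R)).filter (fun p => ∃ m : ℤ, |2 * k * al (pe p) - m| ≤ 1 / (2 * J)))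
      (fun p hp => Finset.mem_filter.1 hp)
    have h4 : ∑ p ∈ Ip R (2 * R), φ p =
        ∑ p ∈ (Ip R (2 * R)).filter (fun p => ∃ m : ℤ, |2 * k * al (pe p) - m| ≤ 1 / (2 * J)),
          2 / (p : ℝ) := by
      rw [Finset.sum_filter]
    rw [h4]
    have h5 : ∀ p ∈ (Ip R (2 * R)).filter
        (fun p => ∃ m : ℤ, |2 * k * al (pe p) - m| ≤ 1 / (2 * J)), 2 / (p : ℝ) ≤ 2 / R := by
      intro p hp
      have h6 := (mem_Ip.1 (Finset.mem_filter.1 hp).1).2.2.1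
      exact div_le_div_of_nonneg_left (by norm_num) hR0 h6
    have h6 := Finset.sum_le_sum h5
    rw [Finset.sum_const, nsmul_eq_mul] at h6
    refine h6.trans ?_
    calc _ ≤ C / J * (R / Real.log R) * (2 / R) :=
          mul_le_mul_of_nonneg_right h3 (by positivity)
      _ = 2 * C / J * (1 / Real.log R) := by
          have hlogR : 0 < Real.log R := Real.log_pos (by linarith only [hP2, hPR])
          field_simp
  have h3 := sum_inv_log P hP2 N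
  calc ∑ p ∈ Ip P Q, φ p ≤ ∑ p ∈ Ip P (P * 2 ^ N), φ p := h1
    _ = ∑ v ∈ Finset.range N, ∑ p ∈ Ip (P * 2 ^ v) (P * 2 ^ (v + 1)), φ p :=
        Ip_split φ P 2 hP0' one_lt_two N
    _ ≤ ∑ v ∈ Finset.range N, 2 * C / J * (1 / Real.log (2 ^ v * P)) := Finset.sum_le_sum h2
    _ = 2 * C / J * ∑ v ∈ Finset.range N, 1 / Real.log (2 ^ v * P) := by rw [Finset.mul_sum]
    _ ≤ 2 * C / J * (2 + 2 * Real.log (Real.log (2 ^ N * P) / Real.log P)) :=
        mul_le_mul_of_nonneg_left h3 (by positivity)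
    _ ≤ 2 * C / J * (2 + 2 * Real.log (2 * Real.log Q / Real.log P)) := by
        refine mul_le_mul_of_nonneg_left ?_ (by positivity)
        have h4 : Real.log (2 ^ N * P) ≤ 2 * Real.log Q := by
          have h5 : 2 ^ N * P ≤ Q ^ 2 := by
            rw [mul_comm]
            refine hN2.trans ?_
            rw [sq]
            exact mul_le_mul_of_nonneg_right (by linarith) hQ0.le
          have h6 := Real.log_le_log (by positivity) h5
          rw [Real.log_pow] at h6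
          exact_mod_cast h6
        have h5 : 0 < Real.log (2 ^ N * P) := by
          refine Real.log_pos ?_
          have : (1 : ℝ) ≤ 2 ^ N := one_le_pow₀ (by norm_num)
          linarith only [hP0, hP, hPQ, hN1]
        have h6 : Real.log (Real.log (2 ^ N * P) / Real.log P) ≤
            Real.log (2 * Real.log Q / Real.log P) := by
          refine Real.log_le_log (by positivity) ?_
          exact div_le_div_of_nonneg_right h4 hlogP.le
        linarith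

private lemma DB1_exists_ee {u : ℂ} (hu : ‖u‖ = 1) : ∃ s : ℝ, u = ee s := by
  refine ⟨u.arg / (2 * Real.pi), ?_⟩
  have h1 := Complex.norm_mul_exp_arg_mul_I u
  rw [hu, Complex.ofReal_one, one_mul] at h1
  rw [ee]
  conv_lhs => rw [← h1]
  congr 1
  have hpi : (Real.pi : ℂ) ≠ 0 := Complex.ofReal_ne_zero.2 Real.pi_ne_zero
  push_cast
  field_simp

private lemma DB1_norm_add (A B : ℝ) : ‖ee A + ee B‖ = 2 * |Real.cos (Real.pi * (B - A))| := by
  have h1 : ee A + ee B = ee ((A + B) / 2) * (ee ((B - A) / 2) + ee (-((B - A) / 2))) := by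
    rw [mul_add, ← ee_add, ← ee_add, add_comm]
    congr 2 <;> ring
  have h2 : ee ((B - A) / 2) + ee (-((B - A) / 2)) =
      ((2 * Real.cos (Real.pi * (B - A)) : ℝ) : ℂ) := by
    rw [ee_neg, Complex.add_conj, ee_re]
    congr 3
    ring
  rw [h1, _root_.norm_mul, norm_ee, one_mul, h2, Complex.norm_real, Real.norm_eq_abs, abs_mul]
  norm_num

private lemma DB1_norm {u v : ℂ} (hu : ‖u‖ = 1) (hv : ‖v‖ = 1) {ν : ℕ} (hun : u ^ ν = 1)
    (hvn : v ^ ν = 1) (x : ℝ) : ∃ (y : ℝ) (n : ℤ),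
    ‖u * ee x + v * ee (-x)‖ = 2 * |Real.cos (Real.pi * y)| ∧ (ν : ℝ) * y = n - 2 * (ν * x) := by
  obtain ⟨s, hs⟩ := DB1_exists_ee hu
  obtain ⟨t, ht⟩ := DB1_exists_ee hv
  rw [hs, ← FourierCore.ee_nat] at hun
  rw [ht, ← FourierCore.ee_nat] at hvn
  obtain ⟨m, hm⟩ := FourierCore.ee_eq_one hun
  obtain ⟨n, hn⟩ := FourierCore.ee_eq_one hvn
  refine ⟨t - x - (s + x), n - m, ?_, ?_⟩
  · rw [hs, ht, ← ee_add, ← ee_add, DB1_norm_add]
    congr 4
  · push_cast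
    rw [← hm, ← hn]
    ring

/-- the prime polynomial at the frequencies `k + κ0 ≠ 0`.

Proof. Modify `cos_sum` (`MR/PSector.lean`, copy its private lemmas). Let `κ = k + κ0 ≠ 0`,
`k' = ν κ`, a nonzero integer (`Tw.int`), `|k'| ≤ ν (|k| + |κ0|) ≤ P ^ M` for large `X`. Let
`p ∈ Ip P Q`, `p > W` (true for large `X`), so `Cp W (el p s)`, `π = pe p = el p true`,
`el p false = star π`, `al (star π) = - al π`, `a = al π`. Then
`‖∑_s fx χ κ0 (el p s) * xi k (el p s)‖ = ‖χ π ee (κ a) + χ (star π) ee (-κ a)‖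
= ‖1 + χ (star π) conj (χ π) ee (-2 κ a)‖ = 2 |cos (π y)|`, `y = β - 2 κ a`, where
`χ (star π) conj (χ π) = ee β` with `ν β` an integer. If `|y - m| ≤ 1/(2 J ν)` for some integer `m`
then `|2 k' a - m'| ≤ 1/(2 J)` for the integer `m' = ν β - ν m`: `p` is bad for `k'` in the sense of
`P_sector`. For the other `p`: `|cos (π y)| ≤ 1 - 1/(2 J² ν²)` (as in `psec_cos`). The weight of the
bad primes is at most `W/2` exactly as in `cos_sum` (choice of `J`, `t0`). So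
`∑ ≤ Wp - (1/(2 J² ν²)) Wp/2` (note `(1/p) * 2 = 2/p`). -/
theorem cos_chi {W : ℕ} (hW : 1 ≤ W) {χ : ℤ√2 → ℂ} {κ0 : ℝ} {ν : ℕ} (h : Tw W χ κ0 ν) :
    ∃ δ0 t0 : ℝ, 0 < δ0 ∧ δ0 ≤ 1 / 4 ∧ 1 < t0 ∧ ∀ c1 : ℝ, 0 < c1 → ∃ X0 : ℝ, 2 ≤ X0 ∧
    ∀ X : ℝ, X0 ≤ X → ∀ P Q : ℝ, X ^ c1 ≤ P → P ^ t0 ≤ Q → Q ≤ X → ∀ k : ℤ, (k : ℝ) + κ0 ≠ 0 →
    |(k : ℝ)| ≤ X →
    ∑ p ∈ Ip P Q, (1 / (p : ℝ)) * ‖∑ s : Bool, fx χ κ0 (el p s) * xi k (el p s)‖ ≤
      (1 - δ0) * Wp P Q := by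
  classical
  obtain ⟨C, hC1, hC⟩ := P_sector
  obtain ⟨c, K, hc, hK, hM⟩ := M_low
  obtain ⟨J, hJ⟩ := exists_nat_ge (160 * C / c)
  have hJ0 : (0 : ℝ) < J := lt_of_lt_of_le (by positivity) hJ
  have hJ1 : 1 ≤ J := by
    have : 0 < J := by exact_mod_cast hJ0
    omega
  have hJ1' : (1 : ℝ) ≤ J := by exact_mod_cast hJ1
  have hCJ : C / J ≤ c / 160 := by
    rw [div_le_iff₀ hc] at hJ
    rw [div_le_div_iff₀ hJ0 (by norm_num)]
    linarith
  set l0 : ℝ := max 1 (4 * K / c) with hl0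
  have hl01 : 1 ≤ l0 := le_max_left _ _
  have hl02 : 4 * K / c ≤ l0 := le_max_right _ _
  have hν1 : 1 ≤ ν := h.pos
  have hν1' : (1 : ℝ) ≤ ν := by exact_mod_cast hν1
  have hν0 : (0 : ℝ) < ν := by linarith
  have hJν : (1 : ℝ) ≤ (J : ℝ) * ν := one_le_mul_of_one_le_of_one_le hJ1' hν1'
  have hJν0 : (0 : ℝ) < (J : ℝ) * ν := by linarith only [hJν]
  refine ⟨1 / (4 * ((J : ℝ) * ν) ^ 2), Real.exp l0, by positivity, ?_, ?_, fun c1 hc1 => ?_⟩
  · refine one_div_le_one_div_of_le (by norm_num) ?_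
    have : (1 : ℝ) ≤ ((J : ℝ) * ν) ^ 2 := one_le_pow₀ hJν
    linarith
  · exact Real.one_lt_exp_iff.2 (by linarith)
  set M : ℕ := ⌈2 / c1⌉₊ with hMdef
  obtain ⟨P1, hP1, hsec1⟩ := hC J M hJ1
  obtain ⟨P0, hP0d⟩ : ∃ P0 : ℝ, P0 = max P1 (W + 1) := ⟨_, rfl⟩
  have hP0 : 2 ≤ P0 := by rw [hP0d]; exact hP1.trans (le_max_left _ _)
  have hP0W : (W : ℝ) + 1 ≤ P0 := by rw [hP0d]; exact le_max_right _ _
  have hsec := fun P (hP : P0 ≤ P) => hsec1 P ((le_max_left _ _).trans (hP0d ▸ hP))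
  refine ⟨max (max 2 (P0 ^ (1 / c1))) (max (2 * ν) |κ0|), (le_max_left _ _).trans (le_max_left _ _),
    fun X hX' P Q hXP hPQ hQX k' hk' hkX' => ?_⟩
  have hX : max 2 (P0 ^ (1 / c1)) ≤ X := (le_max_left _ _).trans hX'
  have hXν : 2 * (ν : ℝ) ≤ X := ((le_max_left _ _).trans (le_max_right _ _)).trans hX'
  have hXκ : |κ0| ≤ X := ((le_max_right _ _).trans (le_max_right _ _)).trans hX'
  have hX2 : 2 ≤ X := (le_max_left _ _).trans hX
  obtain ⟨m0, hm0⟩ := h.int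
  obtain ⟨k, hkd⟩ : ∃ k : ℤ, k = ν * k' + m0 := ⟨_, rfl⟩
  have hkr : (k : ℝ) = ν * (k' + κ0) := by
    rw [hkd]
    push_cast
    rw [← hm0]
    ring
  have hk : k ≠ 0 := by
    intro h0
    rw [h0, Int.cast_zero] at hkr
    rcases mul_eq_zero.1 hkr.symm with h1 | h1
    · linarith only [hν0, h1]
    · exact hk' h1
  have hX0 : 0 < X := by linarith only [hX2]
  have hP00 : 0 < P0 := by linarith only [hP0W]
  have hXc : P0 ≤ X ^ c1 := by
    have h1 : P0 ^ (1 / c1) ≤ X := (le_max_right _ _).trans hX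
    have h2 := Real.rpow_le_rpow (by positivity) h1 hc1.le
    rw [← Real.rpow_mul hP00.le, one_div_mul_cancel hc1.ne', Real.rpow_one] at h2
    exact h2
  have hPP0 : P0 ≤ P := hXc.trans hXP
  have hP2 : 2 ≤ P := hP0.trans hPP0
  have hP0' : 0 < P := by linarith only [hP2]
  have hlogP : 0 < Real.log P := Real.log_pos (by linarith only [hP2])
  have hkP : |(k : ℝ)| ≤ P ^ M := by
    have h0 : |(k : ℝ)| ≤ X ^ 2 := by
      rw [hkr, abs_mul, abs_of_pos hν0]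
      have h1 : |(k' : ℝ) + κ0| ≤ 2 * X := (abs_add_le _ _).trans (by linarith only [hkX', hXκ])
      calc (ν : ℝ) * |(k' : ℝ) + κ0| ≤ ν * (2 * X) := mul_le_mul_of_nonneg_left h1 hν0.le
        _ = 2 * ν * X := by ring
        _ ≤ X * X := mul_le_mul_of_nonneg_right hXν hX0.le
        _ = X ^ 2 := by ring
    have h1 : X ^ 2 ≤ P ^ (2 / c1) := by
      have h2 := Real.rpow_le_rpow (by positivity) hXP (by positivity : 0 ≤ 2 / c1)
      rw [← Real.rpow_mul hX0.le, show c1 * (2 / c1) = ((2 : ℕ) : ℝ) by field_simp; norm_num,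
        Real.rpow_natCast] at h2
      exact h2
    have h3 : P ^ (2 / c1) ≤ P ^ (M : ℝ) :=
      Real.rpow_le_rpow_of_exponent_le (by linarith only [hP2]) (Nat.le_ceil _)
    rw [Real.rpow_natCast] at h3
    exact h0.trans (h1.trans h3)
  have hexp1 : 1 ≤ Real.exp l0 := Real.one_le_exp (by linarith only [hl01])
  have hPQ' : P ≤ Q := by
    refine le_trans ?_ hPQ
    calc P = P ^ (1 : ℝ) := (Real.rpow_one P).symm
      _ ≤ P ^ Real.exp l0 := Real.rpow_le_rpow_of_exponent_le (by linarith) hexp1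
  have hQ0 : 0 < Q := by linarith
  have hlogQ : Real.exp l0 * Real.log P ≤ Real.log Q := by
    rw [← Real.log_rpow hP0']
    exact Real.log_le_log (by positivity) hPQ
  set L : ℝ := Real.log (Real.log Q / Real.log P) with hL
  have hLl : l0 ≤ L := by
    rw [hL, Real.le_log_iff_exp_le (by
      refine div_pos (lt_of_lt_of_le (by positivity) hlogQ) hlogP), le_div_iff₀ hlogP]
    exact hlogQ
  have hWp : 3 / 4 * (c * L) ≤ Wp P Q := by
    have h1 := hM P Q hP2 hPQ'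
    have h2 : 4 * K ≤ c * L := by
      have h3 := hl02.trans hLl
      rw [div_le_iff₀ hc] at h3
      linarith
    rw [← hL] at h1
    linarith
  have hbad := DB1_bad hJ1 hP0 hsec hPP0 hPQ' hk hkP (by linarith : (0 : ℝ) ≤ C)
  have hbad2 : 2 * C / J * (2 + 2 * Real.log (2 * Real.log Q / Real.log P)) ≤ Wp P Q / 2 := by
    have h1 : Real.log (2 * Real.log Q / Real.log P) = Real.log 2 + L := by
      rw [mul_div_assoc, Real.log_mul two_ne_zero, hL]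
      have h2 : 0 < Real.log Q := lt_of_lt_of_le (by positivity) hlogQ
      exact (div_pos h2 hlogP).ne'
    have h2 : Real.log 2 ≤ 1 := by
      have := Real.log_two_lt_d9
      linarith only [this]
    rw [h1]
    have h3 : 2 + 2 * (Real.log 2 + L) ≤ 6 * L := by
      have : 1 ≤ L := hl01.trans hLl
      linarith only [h2, this]
    have h4 : 0 ≤ 2 * C / (J : ℝ) := by positivity
    calc 2 * C / J * (2 + 2 * (Real.log 2 + L)) ≤ 2 * C / J * (6 * L) :=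
          mul_le_mul_of_nonneg_left h3 h4
      _ = 12 * L * (C / J) := by ring
      _ ≤ 12 * L * (c / 160) := by
          refine mul_le_mul_of_nonneg_left hCJ ?_
          have : 1 ≤ L := hl01.trans hLl
          linarith only [this]
      _ ≤ 3 / 4 * (c * L) / 2 := by
          have : 0 < c * L := mul_pos hc (by linarith only [hl01, hLl])
          linarith only [this]
      _ ≤ Wp P Q / 2 := by linarith
  set B : ℝ := ∑ p ∈ Ip P Q,
    (if ∃ m : ℤ, |2 * k * al (pe p) - m| ≤ 1 / (2 * J) then 2 / (p : ℝ) else 0) with hB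
  set ε : ℝ := 1 / (2 * ((J : ℝ) * ν) ^ 2) with hε
  have hε0 : 0 < ε := by positivity
  have hterm : ∀ p ∈ Ip P Q, (1 / (p : ℝ)) *
      ‖∑ s : Bool, fx χ κ0 (el p s) * xi k' (el p s)‖ ≤
      2 / (p : ℝ) - ε * (2 / (p : ℝ)) +
        ε * (if ∃ m : ℤ, |2 * k * al (pe p) - m| ≤ 1 / (2 * J) then 2 / (p : ℝ) else 0) := by
    intro p hp
    have hp0 : (0 : ℝ) ≤ 2 / (p : ℝ) := by positivity
    have hpI := mem_Ip.1 hp
    have hSp : Sp p := ⟨hpI.1, Or.inl hpI.2.1⟩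
    have hpW : ¬ p ∣ W := by
      intro hd
      have h1 : p ≤ W := Nat.le_of_dvd (by omega) hd
      have h2 : (p : ℝ) ≤ W := by exact_mod_cast h1
      have h3 : P ≤ p := hpI.2.2.1
      linarith only [hP0W, hPP0, h2, h3]
    have hct : Cp W (el p true) := (Cp_el hSp true).2 hpW
    have hcf : Cp W (el p false) := (Cp_el hSp false).2 hpW
    obtain ⟨y, n, hy1, hy2⟩ := DB1_norm (h.hc.norm_one hct) (h.hc.norm_one hcf)
      (h.pow _ hct) (h.pow _ hcf) (((k' : ℝ) + κ0) * al (pe p))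
    have hS : ‖∑ s : Bool, fx χ κ0 (el p s) * xi k' (el p s)‖ = 2 * |Real.cos (Real.pi * y)| := by
      rw [← hy1, Fintype.sum_bool]
      have e1 : fx χ κ0 (el p true) * xi k' (el p true) =
          -(χ (el p true) * ee (((k' : ℝ) + κ0) * al (pe p))) := by
        unfold fx xi
        rw [lz_el hSp, show ((k' : ℝ) + κ0) * al (pe p) = κ0 * al (pe p) + k' * al (pe p) by ring,
          ee_add]
        have : el p true = pe p := rfl
        rw [this]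
        ring
      have e2 : fx χ κ0 (el p false) * xi k' (el p false) =
          -(χ (el p false) * ee (-(((k' : ℝ) + κ0) * al (pe p)))) := by
        unfold fx xi
        have : al (el p false) = - al (pe p) := al_star (pe p)
        rw [lz_el hSp, this, show -(((k' : ℝ) + κ0) * al (pe p)) =
          κ0 * -al (pe p) + k' * -al (pe p) by ring, ee_add]
        ring
      rw [e1, e2, ← neg_add, _root_.norm_neg]
    rw [hS]
    have hcast : (1 / (p : ℝ)) * (2 * |Real.cos (Real.pi * y)|) =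
        2 / (p : ℝ) * |Real.cos (Real.pi * y)| := by ring
    rw [hcast]
    split_ifs with hb
    · have h1 := mul_le_mul_of_nonneg_left (Real.abs_cos_le_one (Real.pi * y)) hp0
      linarith only [h1]
    · push Not at hb
      have hJν1 : 1 ≤ J * ν := Nat.one_le_iff_ne_zero.2 (Nat.mul_ne_zero (by omega) (by omega))
      have h1 := DB1_cos hJν1 (a := y / 2) (by
        intro m
        have h2 := hb (n - ν * m)
        have h3 : 2 * (k : ℝ) * al (pe p) - ((n - ν * m : ℤ) : ℝ) = -(ν * (y - m)) := by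
          push_cast
          rw [hkr]
          linarith only [hy2]
        rw [h3, abs_neg, abs_mul, abs_of_pos hν0] at h2
        have h4 : 2 * (y / 2) - (m : ℝ) = y - m := by ring
        rw [h4]
        push_cast
        rw [div_lt_iff₀ (by positivity)] at h2 ⊢
        linarith only [h2])
      have h5 : 2 * Real.pi * (y / 2) = Real.pi * y := by ring
      rw [h5] at h1
      push_cast at h1
      have h2 := mul_le_mul_of_nonneg_left h1 hp0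
      rw [← hε] at h2
      linarith only [h2]
  calc ∑ p ∈ Ip P Q, (1 / (p : ℝ)) * ‖∑ s : Bool, fx χ κ0 (el p s) * xi k' (el p s)‖
      ≤ ∑ p ∈ Ip P Q, (2 / (p : ℝ) - ε * (2 / (p : ℝ)) +
        ε * (if ∃ m : ℤ, |2 * k * al (pe p) - m| ≤ 1 / (2 * J) then 2 / (p : ℝ) else 0)) :=
        Finset.sum_le_sum hterm
    _ = Wp P Q - ε * Wp P Q + ε * B := by
        rw [Finset.sum_add_distrib, Finset.sum_sub_distrib, ← Finset.mul_sum, ← Finset.mul_sum]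
        rfl
    _ ≤ Wp P Q - ε * Wp P Q + ε * (Wp P Q / 2) := by
        have := mul_le_mul_of_nonneg_left (hbad.trans hbad2) hε0.le
        linarith only [this]
    _ = (1 - 1 / (4 * ((J : ℝ) * ν) ^ 2)) * Wp P Q := by
        rw [hε]
        field_simp
        ring

end

end Pool.Agent.Lib.MP_0b748d_nt.HD
end

section

set_option autoImplicit false

/-!
# A weighted Cauchy inequality
-/

namespace Pool.Agent.Lib.MP_0b748d_nt.HD

open Zsqrtd

noncomputable section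

/-- Proof. For `k ∈ 𝒰`: `((1/W) ∑ q a)² ≤ (1/W²) (∑ q) (∑ q a²) ≤ (Λ (1-δ)/W) ∑_v q_v a_v²
≤ (Λ (1-δ)/W) ∑_v Λ w_v a_v²`; sum over `k`. -/
theorem step_cs (n : ℕ) (𝒰 : Finset ℤ) (w : ℕ → ℝ) (q a : ℕ → ℤ → ℝ) (W Λ δ S : ℝ) (hW : 0 < W)
    (hΛ : 0 ≤ Λ) (hδ : δ ≤ 1) (hS : 0 ≤ S) (hw : ∀ v, 0 ≤ w v)
    (hwW : ∑ v ∈ Finset.range n, w v ≤ W) (hq0 : ∀ v k, 0 ≤ q v k) (ha0 : ∀ v k, 0 ≤ a v k)
    (hqw : ∀ v k, q v k ≤ Λ * w v)
    (hq : ∀ k ∈ 𝒰, ∑ v ∈ Finset.range n, q v k ≤ Λ * (1 - δ) * W)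
    (ha : ∀ v ∈ Finset.range n, ∑ k ∈ 𝒰, a v k ^ 2 ≤ S) :
    ∑ k ∈ 𝒰, ((1 / W) * ∑ v ∈ Finset.range n, q v k * a v k) ^ 2 ≤ Λ ^ 2 * (1 - δ) * S := by
  have hδ0 : 0 ≤ 1 - δ := by linarith
  have h1 : ∀ k ∈ 𝒰, ((1 / W) * ∑ v ∈ Finset.range n, q v k * a v k) ^ 2 ≤
      (Λ ^ 2 * (1 - δ) / W) * ∑ v ∈ Finset.range n, w v * a v k ^ 2 := by
    intro k hk
    have h2 : (∑ v ∈ Finset.range n, q v k * a v k) ^ 2 ≤
        (∑ v ∈ Finset.range n, q v k) * ∑ v ∈ Finset.range n, q v k * a v k ^ 2 :=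
      Finset.sum_sq_le_sum_mul_sum_of_sq_le_mul _ (fun v _ => hq0 v k)
        (fun v _ => mul_nonneg (hq0 v k) (sq_nonneg _)) (fun v _ => le_of_eq (by ring))
    have h3 : ∑ v ∈ Finset.range n, q v k * a v k ^ 2 ≤
        Λ * ∑ v ∈ Finset.range n, w v * a v k ^ 2 := by
      rw [Finset.mul_sum]
      refine Finset.sum_le_sum fun v _ => ?_
      rw [← mul_assoc]
      exact mul_le_mul_of_nonneg_right (hqw v k) (sq_nonneg _)
    have h4 : 0 ≤ ∑ v ∈ Finset.range n, q v k * a v k ^ 2 :=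
      Finset.sum_nonneg fun v _ => mul_nonneg (hq0 v k) (sq_nonneg _)
    have h5 : (∑ v ∈ Finset.range n, q v k * a v k) ^ 2 ≤
        (Λ * (1 - δ) * W) * (Λ * ∑ v ∈ Finset.range n, w v * a v k ^ 2) :=
      h2.trans (mul_le_mul (hq k hk) h3 h4 (by positivity))
    rw [mul_pow, one_div, inv_pow, inv_mul_le_iff₀ (by positivity)]
    refine h5.trans (le_of_eq ?_)
    field_simp
  refine (Finset.sum_le_sum h1).trans ?_
  rw [← Finset.mul_sum, Finset.sum_comm]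
  have h6 : ∑ v ∈ Finset.range n, ∑ k ∈ 𝒰, w v * a v k ^ 2 ≤ W * S := by
    calc ∑ v ∈ Finset.range n, ∑ k ∈ 𝒰, w v * a v k ^ 2 ≤ ∑ v ∈ Finset.range n, w v * S := by
          refine Finset.sum_le_sum fun v hv => ?_
          rw [← Finset.mul_sum]
          exact mul_le_mul_of_nonneg_left (ha v hv) (hw v)
      _ = (∑ v ∈ Finset.range n, w v) * S := by rw [Finset.sum_mul]
      _ ≤ W * S := mul_le_mul_of_nonneg_right hwW hS
  calc Λ ^ 2 * (1 - δ) / W * ∑ v ∈ Finset.range n, ∑ k ∈ 𝒰, w v * a v k ^ 2 ≤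
        Λ ^ 2 * (1 - δ) / W * (W * S) := mul_le_mul_of_nonneg_left h6 (by positivity)
    _ = Λ ^ 2 * (1 - δ) * S := by field_simp

end

end Pool.Agent.Lib.MP_0b748d_nt.HD
end
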