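import Mathlib
import Pool.Agent.Lib.MP_0b748d_nt.HH.DA2
import Pool.Agent.Lib.MP_0b748d_nt.HH.DecA
import Pool.Agent.Lib.MP_0b748d_nt.MR.TOp
import Pool.Agent.Lib.MP_0b748d_nt.MR.Sector
import Pool.Agent.Lib.PNT.Main

section

section

set_option autoImplicit false

/-!
# A Tauberian argument
-/

namespace Pool.Agent.Lib.MP_0b748d_nt.HD

open Zsqrtd

noncomputable section

/-- summation by parts for decreasing weights -/
private theorem DC8_parts (e w : ℕ → ℝ) (B : ℝ) (hE : ∀ N, ∑ n ∈ Finset.range N, e n ≤ B)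
    (hw : ∀ n, w (n + 1) ≤ w n) (hw0 : ∀ n, 0 ≤ w n) (N : ℕ) :
    ∑ n ∈ Finset.range N, e n * w n ≤ B * w 0 := by
  have key : ∀ N : ℕ, ∑ n ∈ Finset.range N, e n * w n - (∑ n ∈ Finset.range N, e n) * w N ≤
      B * (w 0 - w N) := by
    intro N
    induction N with
    | zero => simp
    | succ N ih =>
      have h1 := hE (N + 1)
      rw [Finset.sum_range_succ (fun n => e n * w n)]
      rw [Finset.sum_range_succ e] at h1 ⊢
      have h2 := hw N
      nlinarith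
  have h1 := key N
  have h2 := hE N
  have h3 := hw0 N
  nlinarith

/-- Proof. Suppose not: there is `W0` (we may take `W0 ≥ 1`) with `G N < D N/2` whenever
`D N ≥ W0` (`G N = ∑_{n<N} c n`, `D N = ∑_{n<N} d n`). As `G ≤ 2 D`, `G N ≤ D N/2 + 2 W0` for all
`N`. The weights `n^(-s)` (weight of `n ≥ 1`; `c 0 = d 0 = 0`) are decreasing and `≤ 1`, so by summation by parts
`∑_{n<N} c n n^(-s) ≤ (1/2) ∑_{n<N} d n n^(-s) + 2 W0`. With the hypothesis `h`, for
`0 < s ≤ 1` and `N ≥ N0(s)`: `∑_{n<N} d n n^(-s) ≤ 2 C + 4 W0`. The left-hand side is increasing in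
`N`, so this holds for all `N`; let `s → 0`: `D N ≤ 2 C + 4 W0` for all `N`, a contradiction. -/
theorem exists_block (c d : ℕ → ℝ) (h0 : c 0 = 0) (h0' : d 0 = 0) (hd : ∀ n, 0 ≤ d n)
    (hc : ∀ n, 0 ≤ c n ∧ c n ≤ 2 * d n)
    (hD : Filter.Tendsto (fun N : ℕ => ∑ n ∈ Finset.range N, d n) Filter.atTop Filter.atTop)
    (h : ∃ C : ℝ, ∀ s : ℝ, 0 < s → s ≤ 1 → ∃ N0 : ℕ, ∀ N : ℕ, N0 ≤ N →
      ∑ n ∈ Finset.range N, (d n - c n) * (n : ℝ) ^ (-s) ≤ C) (W0 : ℝ) :
    ∃ N : ℕ, W0 ≤ ∑ n ∈ Finset.range N, d n ∧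
      (1 / 2) * ∑ n ∈ Finset.range N, d n ≤ ∑ n ∈ Finset.range N, c n := by
  by_contra hcon
  push Not at hcon
  obtain ⟨C, hC⟩ := h
  set W1 : ℝ := max W0 1 with hW1
  have hW1a : W0 ≤ W1 := le_max_left _ _
  have hW1b : 1 ≤ W1 := le_max_right _ _
  have hD0 : ∀ N : ℕ, 0 ≤ ∑ n ∈ Finset.range N, d n := fun N => Finset.sum_nonneg fun n _ => hd n
  have hG : ∀ N : ℕ, ∑ n ∈ Finset.range N, (c n - d n / 2) ≤ 2 * W1 := by
    intro N
    have h1 : ∑ n ∈ Finset.range N, c n ≤ 2 * ∑ n ∈ Finset.range N, d n := by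
      rw [Finset.mul_sum]
      exact Finset.sum_le_sum fun n _ => (hc n).2
    have h2 := hD0 N
    rw [Finset.sum_sub_distrib, ← Finset.sum_div]
    rcases le_or_gt W0 (∑ n ∈ Finset.range N, d n) with h3 | h3
    · have h4 := hcon N h3
      linarith
    · linarith
  -- the bound for the weighted sums
  have key : ∀ s : ℝ, 0 < s → s ≤ 1 → ∀ N : ℕ,
      ∑ n ∈ Finset.range N, d n * (n : ℝ) ^ (-s) ≤ 2 * C + 4 * W1 := by
    intro s hs hs1 N
    obtain ⟨N0, hN0⟩ := hC s hs hs1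
    set M : ℕ := max N N0 with hM
    have g1 := hN0 M (le_max_right _ _)
    have g2 : ∑ n ∈ Finset.range N, d n * (n : ℝ) ^ (-s) ≤
        ∑ n ∈ Finset.range M, d n * (n : ℝ) ^ (-s) := by
      refine Finset.sum_le_sum_of_subset_of_nonneg (Finset.range_mono (le_max_left _ _)) ?_
      intro n _ _
      exact mul_nonneg (hd n) (Real.rpow_nonneg (Nat.cast_nonneg n) _)
    have g3 : ∑ n ∈ Finset.range M, (c n - d n / 2) * (n : ℝ) ^ (-s) ≤ 2 * W1 := by
      have t1 := DC8_parts (fun n => c n - d n / 2)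
        (fun n => if n = 0 then 1 else (n : ℝ) ^ (-s)) (2 * W1) hG ?_ ?_ M
      · simp only [if_true, mul_one] at t1
        refine le_trans (le_of_eq (Finset.sum_congr rfl fun n _ => ?_)) t1
        rcases Nat.eq_zero_or_pos n with hn | hn
        · subst hn
          rw [h0, h0']
          simp
        · rw [if_neg hn.ne']
      · intro n
        simp only [Nat.succ_ne_zero, if_false]
        rcases Nat.eq_zero_or_pos n with hn | hn
        · subst hn
          simp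
        · rw [if_neg hn.ne']
          have hn' : (0 : ℝ) < n := by exact_mod_cast hn
          exact Real.rpow_le_rpow_of_nonpos hn' (by push_cast; linarith) (by linarith)
      · intro n
        split_ifs
        · exact zero_le_one
        · exact Real.rpow_nonneg (Nat.cast_nonneg n) _
    have g4 : ∑ n ∈ Finset.range M, (c n - d n / 2) * (n : ℝ) ^ (-s) +
        ∑ n ∈ Finset.range M, (d n - c n) * (n : ℝ) ^ (-s) =
        (1 / 2) * ∑ n ∈ Finset.range M, d n * (n : ℝ) ^ (-s) := by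
      rw [← Finset.sum_add_distrib, Finset.mul_sum]
      exact Finset.sum_congr rfl fun n _ => by ring
    linarith
  -- the unweighted sums
  have key2 : ∀ N : ℕ, ∑ n ∈ Finset.range N, d n ≤ 2 * (2 * C + 4 * W1) := by
    intro N
    have hN : (0 : ℝ) < ((N + 1 : ℕ) : ℝ) := by exact_mod_cast Nat.succ_pos N
    have h1 := key (((N + 1 : ℕ) : ℝ)⁻¹) (inv_pos.2 hN)
      (inv_le_one_of_one_le₀ (by push_cast; linarith [(Nat.cast_nonneg N : (0 : ℝ) ≤ N)])) N
    have h2 : ∑ n ∈ Finset.range N, d n ≤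
        2 * ∑ n ∈ Finset.range N, d n * (n : ℝ) ^ (-(((N + 1 : ℕ) : ℝ)⁻¹)) := by
      rw [Finset.mul_sum]
      refine Finset.sum_le_sum fun n hn => ?_
      rcases Nat.eq_zero_or_pos n with hn0 | hn0
      · subst hn0
        rw [h0']
        simp
      · have hn' : (0 : ℝ) < n := by exact_mod_cast hn0
        have hnN : n < N := Finset.mem_range.1 hn
        have t1 : (n : ℝ) ^ (((N + 1 : ℕ) : ℝ)⁻¹) ≤ 2 := by
          calc (n : ℝ) ^ (((N + 1 : ℕ) : ℝ)⁻¹) ≤ ((2 : ℝ) ^ (N + 1)) ^ (((N + 1 : ℕ) : ℝ)⁻¹) := by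
                refine Real.rpow_le_rpow hn'.le ?_ (inv_pos.2 hN).le
                have t2 : n < 2 ^ (N + 1) := lt_trans (by omega) (Nat.lt_two_pow_self (n := N + 1))
                exact_mod_cast t2.le
            _ = 2 := Real.pow_rpow_inv_natCast (by norm_num) (Nat.succ_ne_zero N)
        have t3 : 0 < (n : ℝ) ^ (((N + 1 : ℕ) : ℝ)⁻¹) := Real.rpow_pos_of_pos hn' _
        have t4 : 1 ≤ 2 * (n : ℝ) ^ (-(((N + 1 : ℕ) : ℝ)⁻¹)) := by
          rw [Real.rpow_neg hn'.le, ← div_eq_mul_inv, le_div_iff₀ t3]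
          linarith
        have t5 := hd n
        nlinarith
    linarith
  obtain ⟨N, hN⟩ := (hD.eventually_gt_atTop (2 * (2 * C + 4 * W1))).exists
  exact absurd (key2 N) (not_le.2 hN)

end

end Pool.Agent.Lib.MP_0b748d_nt.HD
end

section

set_option autoImplicit false

/-!
# Symmetric characters depend on the norm
-/

namespace Pool.Agent.Lib.MP_0b748d_nt.HD

open Zsqrtd MR

noncomputable section

/-- the product of the odd primes dividing `W` with a property -/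
private lemma DC14_prod (W : ℕ) (hW : 1 ≤ W) (P : ℕ → Prop) : ∃ α : ℤ, α % 2 = 1 ∧
    ∀ l : ℕ, l.Prime → l ≠ 2 → l ∣ W → (P l ↔ (l : ℤ) ∣ α) := by
  classical
  refine ⟨((∏ l ∈ W.primeFactors.filter (fun l => l ≠ 2 ∧ P l), l : ℕ) : ℤ), ?_, ?_⟩
  · have h2 : ¬ 2 ∣ ∏ l ∈ W.primeFactors.filter (fun l => l ≠ 2 ∧ P l), l := by
      intro h
      rw [Prime.dvd_finsetProd_iff Nat.prime_two.prime] at h
      obtain ⟨l, hl, hd⟩ := h
      rw [Finset.mem_filter] at hl
      have := (Nat.prime_dvd_prime_iff_eq Nat.prime_two (Nat.prime_of_mem_primeFactors hl.1)).1 hd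
      exact hl.2.1 this.symm
    omega
  · intro l hl hl2 hlW
    rw [Int.natCast_dvd_natCast, Prime.dvd_finsetProd_iff hl.prime]
    constructor
    · intro hP
      exact ⟨l, Finset.mem_filter.2 ⟨Nat.mem_primeFactors.2 ⟨hl, hlW, by omega⟩, hl2, hP⟩,
        dvd_rfl⟩
    · rintro ⟨q, hq, hd⟩
      rw [Finset.mem_filter] at hq
      have := (Nat.prime_dvd_prime_iff_eq hl (Nat.prime_of_mem_primeFactors hq.1)).1 hd
      rw [this]
      exact hq.2.2

private lemma DC14_cast (W : ℕ) (z : ℤ√2) :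
    ((W : ℕ) : ℤ√2) ∣ z ↔ (W : ℤ) ∣ z.re ∧ (W : ℤ) ∣ z.im := by
  have := Zsqrtd.intCast_dvd (d := 2) (W : ℤ) z
  rwa [Int.cast_natCast] at this

/-- coprimality from the primes -/
private lemma DC14_cop (W : ℕ) (hW : 1 ≤ W) (n : ℤ)
    (h : ∀ l : ℕ, l.Prime → l ∣ W → ¬ (l : ℤ) ∣ n) : IsCoprime n (W : ℤ) := by
  rw [Int.isCoprime_iff_gcd_eq_one]
  by_contra hg
  obtain ⟨l, hl, hd⟩ := Nat.exists_prime_and_dvd hg
  have h1 : (l : ℤ) ∣ n := (Int.natCast_dvd_natCast.2 hd).trans (Int.gcd_dvd_left _ _)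
  have h2 : (l : ℤ) ∣ (W : ℤ) := (Int.natCast_dvd_natCast.2 hd).trans (Int.gcd_dvd_right _ _)
  exact h l hl (Int.natCast_dvd_natCast.1 h2) h1

private lemma DC14_key {W : ℕ} (hW : 1 ≤ W) (hW2 : W % 2 = 0) {χ : ℤ√2 → ℂ} (h : Hc W χ)
    (hsym : ∀ z, Cp W z → χ (star z) = χ z) {t : ℤ√2} (ht : ((8 * W : ℕ) : ℤ) ∣ nm t - 1)
    (ha : t.re % 4 = 1) (hb : t.im % 2 = 0) : χ t = 1 := by
  obtain ⟨α, hα, hαl⟩ := DC14_prod W hW (fun l => (l : ℤ) ∣ 1 + t.re)
  obtain ⟨β, hβ, hβl⟩ := DC14_prod W hW (fun l => ¬ (l : ℤ) ∣ 1 + t.re)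
  obtain ⟨a', ha'⟩ : ∃ a', t.re = 4 * a' + 1 := ⟨t.re / 4, by omega⟩
  obtain ⟨b', hb'⟩ : ∃ b', t.im = 2 * b' := ⟨t.im / 2, by omega⟩
  -- y
  obtain ⟨y, hyr, hyi⟩ : ∃ y : ℤ√2, y.re = α * (2 * a' + 1) - β * t.im ∧
      y.im = α * b' - β * (2 * a') := ⟨⟨_, _⟩, rfl, rfl⟩
  have hxr : 2 * y.re = α * (1 + t.re) - 2 * β * t.im := by
    rw [hyr, ha']; ring
  have hxi : 2 * y.im = α * t.im + β * (1 - t.re) := by
    rw [hyi, ha', hb']; ring
  have hnmt : nm t = t.re ^ 2 - 2 * t.im ^ 2 := rfl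
  have hnmy : nm y = y.re ^ 2 - 2 * y.im ^ 2 := rfl
  obtain ⟨c, hc⟩ := ht
  -- norm of y
  have h4 : 4 * nm y = 2 * (1 + t.re) * α ^ 2 - 8 * t.im * α * β - 4 * (1 - t.re) * β ^ 2 +
      (nm t - 1) * (α ^ 2 - 2 * β ^ 2) := by
    have : 4 * nm y = (2 * y.re) ^ 2 - 2 * (2 * y.im) ^ 2 := by rw [hnmy]; ring
    rw [this, hxr, hxi, hnmt]
    ring
  have hyodd : y.re % 2 = 1 := by
    have h5 : y.re = 2 * (α * a' - β * b') + α := by rw [hyr, hb']; ring
    omega
  have hCp : Cp W y := by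
    refine DC14_cop W hW (nm y) ?_
    intro l hl hlW hd
    by_cases hl2 : l = 2
    · subst hl2
      have h6 : (2 : ℤ) ∣ y.re ^ 2 := by
        have h7 : y.re ^ 2 = nm y + 2 * y.im ^ 2 := by rw [hnmy]; ring
        rw [h7]
        exact dvd_add hd (Dvd.intro _ rfl)
      have h8 := Int.prime_two.dvd_of_dvd_pow h6
      omega
    · have hlp : Prime (l : ℤ) := Nat.prime_iff_prime_int.1 hl
      have hln2 : ¬ (l : ℤ) ∣ 2 := by
        intro h9
        have h10 : l ∣ 2 := by exact_mod_cast h9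
        exact hl2 ((Nat.prime_dvd_prime_iff_eq hl Nat.prime_two).1 h10)
      have hlt : (l : ℤ) ∣ nm t - 1 := by
        rw [hc]
        refine Dvd.dvd.mul_right ?_ c
        push_cast
        exact Dvd.dvd.mul_left (Int.natCast_dvd_natCast.2 hlW) 8
      have h11 : (l : ℤ) ∣ 2 * (1 + t.re) * α ^ 2 - 8 * t.im * α * β - 4 * (1 - t.re) * β ^ 2 := by
        have h12 : 2 * (1 + t.re) * α ^ 2 - 8 * t.im * α * β - 4 * (1 - t.re) * β ^ 2 =
            4 * nm y - (nm t - 1) * (α ^ 2 - 2 * β ^ 2) := by rw [h4]; ring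
        rw [h12]
        exact dvd_sub (hd.mul_left 4) (hlt.mul_right _)
      have hA := hαl l hl hl2 hlW
      have hB := hβl l hl hl2 hlW
      by_cases hla : (l : ℤ) ∣ 1 + t.re
      · have hα' := hA.1 hla
        have hβ' : ¬ (l : ℤ) ∣ β := fun h13 => (hB.2 h13) hla
        have h14 : (l : ℤ) ∣ 2 ^ 3 * β ^ 2 := by
          have h15 : 2 ^ 3 * β ^ 2 = -(2 * (1 + t.re) * α ^ 2 - 8 * t.im * α * β -
              4 * (1 - t.re) * β ^ 2) + α * (2 * (1 + t.re) * α - 8 * t.im * β) +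
              (1 + t.re) * (4 * β ^ 2) := by ring
          rw [h15]
          exact dvd_add (dvd_add (dvd_neg.2 h11) (hα'.mul_right _)) (hla.mul_right _)
        rcases hlp.dvd_or_dvd h14 with h15 | h15
        · exact hln2 (hlp.dvd_of_dvd_pow h15)
        · exact hβ' (hlp.dvd_of_dvd_pow h15)
      · have hβ' := hB.1 hla
        have hα' : ¬ (l : ℤ) ∣ α := fun h13 => hla (hA.2 h13)
        have h14 : (l : ℤ) ∣ 2 * (1 + t.re) * α ^ 2 := by
          have h15 : 2 * (1 + t.re) * α ^ 2 = (2 * (1 + t.re) * α ^ 2 - 8 * t.im * α * β -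
              4 * (1 - t.re) * β ^ 2) + β * (8 * t.im * α + 4 * (1 - t.re) * β) := by ring
          rw [h15]
          exact dvd_add h11 (hβ'.mul_right _)
        rcases hlp.dvd_or_dvd h14 with h15 | h15
        · rcases hlp.dvd_or_dvd h15 with h16 | h16
          · exact hln2 h16
          · exact hla h16
        · exact hα' (hlp.dvd_of_dvd_pow h15)
  -- t * star y = y mod W
  have hmod : ((W : ℕ) : ℤ√2) ∣ t * star y - y := by
    have h16 : 2 * (t * star y - y).re = (nm t - 1) * α := by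
      simp only [re_sub, re_mul, Zsqrtd.re_star, Zsqrtd.im_star]
      have h17 : 2 * (t.re * y.re + 2 * t.im * -y.im - y.re) =
          t.re * (2 * y.re) - 2 * t.im * (2 * y.im) - 2 * y.re := by ring
      rw [h17, hxr, hxi, hnmt]
      ring
    have h18 : 2 * (t * star y - y).im = (nm t - 1) * β := by
      simp only [im_sub, im_mul, Zsqrtd.re_star, Zsqrtd.im_star]
      have h19 : 2 * (t.re * -y.im + t.im * y.re - y.im) =
          -t.re * (2 * y.im) + t.im * (2 * y.re) - 2 * y.im := by ring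
      rw [h19, hxr, hxi, hnmt]
      ring
    rw [DC14_cast]
    constructor
    · refine ⟨4 * c * α, ?_⟩
      have h20 : 2 * (t * star y - y).re = 2 * (W * (4 * c * α)) := by
        rw [h16, hc]; push_cast; ring
      linarith
    · refine ⟨4 * c * β, ?_⟩
      have h20 : 2 * (t * star y - y).im = 2 * (W * (4 * c * β)) := by
        rw [h18, hc]; push_cast; ring
      linarith
  have h21 := h.per _ _ hmod
  rw [h.mul, hsym y hCp] at h21
  have h22 : χ y ≠ 0 := by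
    intro h23
    have h24 := h.norm_one hCp
    rw [h23, _root_.norm_zero] at h24
    exact zero_ne_one h24
  exact mul_right_cancel₀ h22 (by rw [h21, one_mul])

/-- an explicit Hilbert 90.

Proof. `t = a + b √2`, `a² - 2 b² ≡ 1 mod 8 W`. So `a` is odd, `a² ≡ 1 mod 8`, `b` is even. `χ (-1) = 1`:
with `ε = 1 + √2`, `ε * star ε = -1`, `ε² = uu`, `χ (star ε) = χ ε` (`Cp W ε`), so
`χ (-1) = χ ε² = χ uu = 1`. Replacing `t` by `-t` we may assume `a ≡ 1 mod 4`. Let `α` be the product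
of the odd primes `l ∣ W` with `l ∣ 1 + a`, `β` the product of the odd primes `l ∣ W` with
`l ∤ 1 + a` (both odd), and `x = α (1 + t) + β √2 (1 - t)`. Then `t * star x ≡ x mod 8 W` (use
`t * star t ≡ 1`). `re x = α (1+a) - 2 β b ≡ 2 α ≡ 2 mod 4`, `im x = α b + β (1-a)` is even: `x = 2 y`
with `re y` odd, so `nm y` is odd; and `t * star y ≡ y mod 4 W`, in particular modulo `W`. For an odd
prime `l ∣ W`: `nm x ≡ 2 (1+a) α² - 8 b α β - 4 (1-a) β² mod l` (from `(1+a)² - 2b² ≡ 2(1+a)`,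
`(1-a)² - 2 b² ≡ 2 (1-a)`); if `l ∤ 1 + a` then `l ∣ β`, `l ∤ α`, so `nm x ≢ 0`; if `l ∣ 1 + a` then
`l ∣ α`, `l ∤ β` and `1 - a ≡ 2`, so `nm x ≡ -8 β² ≢ 0`. So `Cp W y` and
`χ t * χ (star y) = χ y = χ (star y) ≠ 0`: `χ t = 1`. -/
theorem h90 {W : ℕ} (hW : 1 ≤ W) (hW2 : W % 2 = 0) {χ : ℤ√2 → ℂ} (h : Hc W χ) (hu : χ uu = 1)
    (hsym : ∀ z, Cp W z → χ (star z) = χ z) {t : ℤ√2} (ht : ((8 * W : ℕ) : ℤ) ∣ nm t - 1) :
    χ t = 1 := by
  have hm1 : χ (-1) = 1 := by
    have h1 : (⟨1, 1⟩ : ℤ√2) * star ⟨1, 1⟩ = -1 := by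
      ext <;> simp
    have h2 : (⟨1, 1⟩ : ℤ√2) * ⟨1, 1⟩ = uu := by
      ext <;> simp [uu]
    have h3 : Cp W (⟨1, 1⟩ : ℤ√2) := by
      have h4 : nm (⟨1, 1⟩ : ℤ√2) = -1 := by simp [nm]
      unfold Cp
      rw [h4]
      exact (isCoprime_one_left).neg_left
    rw [← h1, h.mul, hsym _ h3, ← h.mul, h2, hu]
  obtain ⟨c, hc⟩ := ht
  have hnmt : nm t = t.re ^ 2 - 2 * t.im ^ 2 := rfl
  obtain ⟨W', hW'⟩ : ∃ W', W = 2 * W' := ⟨W / 2, by omega⟩
  have h16 : t.re ^ 2 - 2 * t.im ^ 2 - 1 = 16 * (W' * c) := by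
    rw [← hnmt, hc, hW']; push_cast; ring
  have hodd : t.re % 2 = 1 := by
    by_contra hev
    obtain ⟨k, hk⟩ : ∃ k, t.re = 2 * k := ⟨t.re / 2, by omega⟩
    rw [hk] at h16
    ring_nf at h16
    omega
  have heven : t.im % 2 = 0 := by
    by_contra hod
    obtain ⟨k, hk⟩ : ∃ k, t.im = 2 * k + 1 := ⟨t.im / 2, by omega⟩
    obtain ⟨k', hk'⟩ : ∃ k', t.re = 2 * k' + 1 := ⟨t.re / 2, by omega⟩
    rw [hk, hk'] at h16
    have h17 : 4 * (k' ^ 2 + k') - 8 * (k ^ 2 + k) - 2 = 16 * (W' * c) := by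
      rw [← h16]; ring
    omega
  by_cases ha : t.re % 4 = 1
  · exact DC14_key hW hW2 h hsym ⟨c, hc⟩ ha heven
  · have h1 : χ (-t) = 1 := by
      refine DC14_key hW hW2 h hsym ⟨c, ?_⟩ ?_ ?_
      · rw [← hc]
        simp [nm]
      · simp only [Zsqrtd.re_neg]
        omega
      · simp only [Zsqrtd.im_neg]
        omega
    have h2 : t = -1 * -t := by ring
    rw [h2, h.mul, hm1, h1, one_mul]

/-- Proof. Let `n * nm w ≡ 1 mod 8 W` (`nm w` is prime to `8 W`), `t = z * star w * n`; then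
`nm t = nm z nm w n² ≡ (nm w n)² ≡ 1`, so `χ t = 1` by `h90`; and `χ w χ (star w) χ n = χ (nm w n) = 1`. So
`χ z = χ w`. -/
theorem chi_norm {W : ℕ} (hW : 1 ≤ W) (hW2 : W % 2 = 0) {χ : ℤ√2 → ℂ} (h : Hc W χ) (hu : χ uu = 1)
    (hsym : ∀ z, Cp W z → χ (star z) = χ z) {z w : ℤ√2} (hw : Cp W w)
    (hzw : ((8 * W : ℕ) : ℤ) ∣ nm z - nm w) : χ z = χ w := by
  have hcop : IsCoprime (nm w) ((8 * W : ℕ) : ℤ) := by
    push_cast
    refine IsCoprime.mul_right ?_ hw
    have h2 : IsCoprime (nm w) 2 := by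
      refine IsCoprime.of_isCoprime_of_dvd_right hw ?_
      exact ⟨(W / 2 : ℕ), by omega⟩
    have h3 := h2.pow_right (n := 3)
    norm_num at h3
    exact h3
  obtain ⟨n, m, hnm⟩ := hcop
  -- n * nm w + m * (8 W) = 1
  have h1 : ((8 * W : ℕ) : ℤ) ∣ nm w * n - 1 := ⟨-m, by linarith⟩
  have h2 : nm (z * star w * (n : ℤ√2)) = nm z * nm w * n ^ 2 := by
    rw [nm_mul, nm_mul, nm_star]
    congr 1
    simp [nm]
  have h3 : ((8 * W : ℕ) : ℤ) ∣ nm (z * star w * (n : ℤ√2)) - 1 := by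
    have h4 : nm (z * star w * (n : ℤ√2)) - 1 = (nm z - nm w) * (nm w * n ^ 2) +
        (nm w * n - 1) * (nm w * n + 1) := by
      rw [h2]; ring
    rw [h4]
    exact dvd_add (hzw.mul_right _) (h1.mul_right _)
  have h5 := h90 hW hW2 h hu hsym h3
  have h6 : χ (w * star w * (n : ℤ√2)) = 1 := by
    rw [← h.one]
    refine h.per _ _ ?_
    have h7 : w * star w * (n : ℤ√2) - 1 = ((nm w * n - 1 : ℤ) : ℤ√2) := by
      have h70 : Zsqrtd.norm w = nm w := by
        rw [Zsqrtd.norm_def]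
        simp only [nm]
        ring
      rw [← Zsqrtd.norm_eq_mul_conj, h70]
      push_cast
      rfl
    rw [h7]
    have h8 : ((W : ℕ) : ℤ) ∣ nm w * n - 1 := by
      refine dvd_trans ?_ h1
      push_cast
      exact Dvd.intro_left _ rfl
    obtain ⟨k, hk⟩ := h8
    refine ⟨(k : ℤ√2), ?_⟩
    rw [hk]
    push_cast
    rfl
  rw [h.mul, h.mul] at h5 h6
  have h9 : χ (star w) ≠ 0 := by
    intro h0
    rw [h0] at h5
    simp at h5
  have h10 : χ (n : ℤ√2) ≠ 0 := by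
    intro h0
    rw [h0] at h5
    simp at h5
  have h11 : χ z * (χ (star w) * χ (n : ℤ√2)) = χ w * (χ (star w) * χ (n : ℤ√2)) := by
    rw [← mul_assoc, ← mul_assoc, h5, h6]
  exact mul_right_cancel₀ (mul_ne_zero h9 h10) h11

end

end Pool.Agent.Lib.MP_0b748d_nt.HD
end

section

set_option autoImplicit false

/-!
# The associated function modulo 8W
-/

namespace Pool.Agent.Lib.MP_0b748d_nt.HD

open Zsqrtd MR

noncomputable section

/-- the split unit classes modulo `8 W` -/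
def SpC (W : ℕ) (a : ZMod (8 * W)) : Prop := IsUnit a ∧ (a.val % 8 = 1 ∨ a.val % 8 = 7)

/-- a split prime not dividing `W` lies in a split unit class -/
theorem DC15_prime {W : ℕ} (hW : 1 ≤ W) {p : ℕ} (hp : Sp p) (hpW : ¬ p ∣ W) :
    SpC W ((p : ℕ) : ZMod (8 * W)) := by
  haveI : NeZero (8 * W) := ⟨by omega⟩
  refine ⟨?_, ?_⟩
  · rw [ZMod.isUnit_iff_coprime]
    rw [(hp.1.coprime_iff_not_dvd)]
    intro hd
    rcases (Nat.Prime.dvd_mul hp.1).1 hd with h8 | h8
    · have h2 : p ∣ 2 ^ 3 := by simpa using h8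
      have h3 := (Nat.prime_dvd_prime_iff_eq hp.1 Nat.prime_two).1 (hp.1.dvd_of_dvd_pow h2)
      have := hp.2
      omega
    · exact hpW h8
  · rw [ZMod.val_natCast, Nat.mod_mod_of_dvd _ (Dvd.intro W rfl)]
    exact hp.2

/-- every split unit class contains a split prime not dividing `W` -/
private theorem DC15_exists {W : ℕ} (hW : 1 ≤ W) {a : ZMod (8 * W)} (ha : SpC W a) :
    ∃ p : ℕ, Sp p ∧ ¬ p ∣ W ∧ ((p : ℕ) : ZMod (8 * W)) = a := by
  haveI : NeZero (8 * W) := ⟨by omega⟩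
  obtain ⟨p, hpW, hp, hpa⟩ := Nat.forall_exists_prime_gt_and_eq_mod ha.1 W
  refine ⟨p, ⟨hp, ?_⟩, ?_, hpa⟩
  · have h1 := ha.2
    rw [← hpa, ZMod.val_natCast, Nat.mod_mod_of_dvd _ (Dvd.intro W rfl)] at h1
    exact h1
  · intro hd
    have := Nat.le_of_dvd (by omega) hd
    omega

private theorem DC15_mul {W : ℕ} (a : ZMod (8 * W)) {b : ZMod (8 * W)} (hb : SpC W b) :
    SpC W (a * b) ↔ SpC W a := by
  have hv : (a * b).val % 8 = ((a.val % 8) * (b.val % 8)) % 8 := by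
    rw [ZMod.val_mul, Nat.mod_mod_of_dvd _ (Dvd.intro W rfl), Nat.mul_mod]
  have hr : a.val % 8 < 8 := Nat.mod_lt _ (by norm_num)
  unfold SpC
  rw [hv]
  constructor
  · rintro ⟨h1, h2⟩
    refine ⟨isUnit_of_mul_isUnit_left h1, ?_⟩
    rcases hb.2 with h3 | h3 <;> rw [h3] at h2 <;> omega
  · rintro ⟨h1, h2⟩
    refine ⟨h1.mul hb.1, ?_⟩
    rcases hb.2 with h3 | h3 <;> rcases h2 with h4 | h4 <;> rw [h3, h4] <;> norm_num

private theorem DC15_cs {M : ℕ} (hM : 1 ≤ M) [NeZero M] (ρ : ZMod M → ℂ) :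
    cs M ρ = ∑ a : ZMod M, ρ a := by
  unfold cs
  refine Finset.sum_nbij' (fun i => ((i : ℕ) : ZMod M)) (fun a => a.val) ?_ ?_ ?_ ?_ ?_
  · intro i _
    exact Finset.mem_univ _
  · intro a _
    exact Finset.mem_range.2 (ZMod.val_lt a)
  · intro i hi
    exact ZMod.val_cast_of_lt (Finset.mem_range.1 hi)
  · intro a _
    exact ZMod.natCast_zmod_val a
  · intro i _
    rfl

/-- Proof. For a split unit class `a` choose a prime `p ≡ a` (Dirichlet:
`Nat.forall_exists_prime_gt_and_eq_mod`), `p` is split and `p ∤ W`; `ρ a = χ (el p true)`; `ρ a = 0` for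
the other classes. It does not depend on `p`, `s` by `chi_norm` (`nm (el p s) = p`). If
`p ≡ a, q ≡ b, r ≡ a b` then `nm (el p true * el q true) = p q ≡ r`, so `ρ (a b) = ρ a ρ b`. If `ρ b ≠ 1`
for some split unit class `b`, then `∑ ρ a = ∑ ρ (a b) = ρ b ∑ ρ a`, so the sum is `0`. -/
theorem rho_exists {W : ℕ} (hW : 1 ≤ W) (hW2 : W % 2 = 0) {χ : ℤ√2 → ℂ} (h : Hc W χ) (hu : χ uu = 1)
    (hsym : ∀ z, Cp W z → χ (star z) = χ z) : ∃ ρ : ZMod (8 * W) → ℂ, (∀ a, ‖ρ a‖ ≤ 1) ∧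
    (∀ a, ¬ SpC W a → ρ a = 0) ∧
    (∀ p : ℕ, Sp p → ¬ p ∣ W → ∀ s, χ (el p s) = ρ ((p : ℕ) : ZMod (8 * W))) ∧
    ((cs (8 * W) ρ = 0) ∨ ∀ a, SpC W a → ρ a = 1) := by
  classical
  haveI : NeZero (8 * W) := ⟨by omega⟩
  choose P hP using fun (a : ZMod (8 * W)) (ha : SpC W a) => DC15_exists hW ha
  obtain ⟨ρ, hρ⟩ : ∃ ρ : ZMod (8 * W) → ℂ, ρ = fun a => if ha : SpC W a then
    χ (el (P a ha) true) else 0 := ⟨_, rfl⟩
  have hρ0 : ∀ a, ¬ SpC W a → ρ a = 0 := by
    intro a ha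
    rw [hρ]
    exact dif_neg ha
  have hρ1 : ∀ a (ha : SpC W a), ρ a = χ (el (P a ha) true) := by
    intro a ha
    rw [hρ]
    exact dif_pos ha
  have hdvd : ∀ p q : ℤ, ((p : ℤ) : ZMod (8 * W)) = ((q : ℤ) : ZMod (8 * W)) →
      ((8 * W : ℕ) : ℤ) ∣ p - q := by
    intro p q hpq
    rw [← ZMod.intCast_zmod_eq_zero_iff_dvd, Int.cast_sub, hpq, sub_self]
  have hind : ∀ p : ℕ, Sp p → ¬ p ∣ W → ∀ s, χ (el p s) = ρ ((p : ℕ) : ZMod (8 * W)) := by
    intro p hp hpW s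
    have ha := DC15_prime hW hp hpW
    rw [hρ1 _ ha]
    obtain ⟨q1, q2, q3⟩ := hP _ ha
    refine chi_norm hW hW2 h hu hsym ((Cp_el q1 true).2 q2) ?_
    rw [(el_spec hp s).2, (el_spec q1 true).2]
    apply hdvd
    rw [Int.cast_natCast, Int.cast_natCast]
    exact q3.symm
  refine ⟨ρ, ?_, hρ0, hind, ?_⟩
  · intro a
    by_cases ha : SpC W a
    · rw [hρ1 a ha]
      exact h.le _
    · rw [hρ0 a ha, _root_.norm_zero]
      exact zero_le_one
  · by_cases hall : ∀ a, SpC W a → ρ a = 1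
    · exact Or.inr hall
    · left
      push Not at hall
      obtain ⟨b, hb, hb1⟩ := hall
      have hmul : ∀ a, ρ (a * b) = ρ b * ρ a := by
        intro a
        by_cases ha : SpC W a
        · have hab := (DC15_mul a hb).2 ha
          rw [hρ1 _ hab, hρ1 _ ha, hρ1 _ hb, ← h.mul]
          obtain ⟨a1, a2, a3⟩ := hP _ ha
          obtain ⟨b1, b2, b3⟩ := hP _ hb
          obtain ⟨c1, c2, c3⟩ := hP _ hab
          symm
          refine chi_norm hW hW2 h hu hsym ((Cp_el c1 true).2 c2) ?_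
          rw [nm_mul, (el_spec a1 true).2, (el_spec b1 true).2, (el_spec c1 true).2]
          apply hdvd
          rw [Int.cast_mul, Int.cast_natCast, Int.cast_natCast, Int.cast_natCast, a3, b3, c3]
          exact mul_comm b a
        · have hab : ¬ SpC W (a * b) := fun hc => ha ((DC15_mul a hb).1 hc)
          rw [hρ0 _ hab, hρ0 _ ha, mul_zero]
      rw [DC15_cs (by omega)]
      have hsum : ∑ a : ZMod (8 * W), ρ (a * b) = ∑ a : ZMod (8 * W), ρ a :=
        Fintype.sum_equiv (hb.1.unit.mulRight) _ _ (fun a => by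
          rw [Units.mulRight_apply, IsUnit.unit_spec])
      rw [Finset.sum_congr rfl (fun a _ => hmul a), ← Finset.mul_sum] at hsum
      have h2 : (ρ b - 1) * ∑ a : ZMod (8 * W), ρ a = 0 := by
        rw [sub_mul, one_mul, hsum, sub_self]
      rcases mul_eq_zero.1 h2 with h3 | h3
      · exact absurd (sub_eq_zero.1 h3) hb1
      · exact h3

end

end Pool.Agent.Lib.MP_0b748d_nt.HD
end

section

set_option autoImplicit false

/-!
# Turan-Kubilius for a fixed set of split primes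
-/

namespace Pool.Agent.Lib.MP_0b748d_nt.HD

open Zsqrtd MR

noncomputable section

open Classical in
private def dtkf (a : ℕ × Bool) (w : ℤ√2) : ℝ := if el a.1 a.2 ∣ w then (1 : ℝ) else 0

private theorem dtkf_inv (a : ℕ × Bool) : Inv (dtkf a) := by
  intro n z _
  have h := dvd_un n (el a.1 a.2) z
  by_cases hd : el a.1 a.2 ∣ z
  · have h2 := h.2 hd
    simp [dtkf, hd, h2]
  · have h2 : ¬ el a.1 a.2 ∣ un n * z := fun h3 => hd (h.1 h3)
    simp [dtkf, hd, h2]

private theorem dtkf_nonneg (a : ℕ × Bool) (w : ℤ√2) : 0 ≤ dtkf a w := by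
  unfold dtkf
  split_ifs
  · exact zero_le_one
  · exact le_rfl

private theorem dtkf_sq (a : ℕ × Bool) (w : ℤ√2) : dtkf a w * dtkf a w = dtkf a w := by
  unfold dtkf
  split_ifs <;> simp

private theorem dtk_one {a : ℕ × Bool} (hp : Sp a.1) (x y : ℝ) :
    ∑ w ∈ Vs x y, dtkf a w = ((Vs (x / a.1) (y / a.1)).card : ℝ) := by
  classical
  have h := sum_dvd (el a.1 a.2) (el_spec hp a.2).1 x y (fun _ => (1 : ℝ)) (fun _ _ _ => rfl)
  have hn : ((nm (el a.1 a.2) : ℤ) : ℝ) = (a.1 : ℝ) := by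
    rw [(el_spec hp a.2).2]
    simp
  rw [hn, Finset.sum_filter] at h
  simp only [Finset.sum_const, nsmul_eq_mul, mul_one] at h
  rw [← h]
  refine Finset.sum_congr rfl fun w _ => ?_
  unfold dtkf
  congr

private theorem dtk_two {a b : ℕ × Bool} (hp : Sp a.1) (hq : Sp b.1) (hab : a ≠ b) (x y : ℝ) :
    ∑ w ∈ Vs x y, dtkf a w * dtkf b w =
      ((Vs (x / a.1 / b.1) (y / a.1 / b.1)).card : ℝ) := by
  classical
  have h := sum_dvd (el a.1 a.2) (el_spec hp a.2).1 x y (dtkf b) (dtkf_inv b)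
  have hn : ((nm (el a.1 a.2) : ℤ) : ℝ) = (a.1 : ℝ) := by
    rw [(el_spec hp a.2).2]
    simp
  rw [hn, Finset.sum_filter] at h
  have h1 : ∑ w ∈ Vs x y, dtkf a w * dtkf b w =
      ∑ m ∈ Vs (x / a.1) (y / a.1), dtkf b (el a.1 a.2 * m) := by
    rw [← h]
    refine Finset.sum_congr rfl fun w _ => ?_
    unfold dtkf
    by_cases hd : el a.1 a.2 ∣ w
    · simp [hd]
    · simp [hd]
  rw [h1, ← dtk_one hq]
  refine Finset.sum_congr rfl fun m _ => ?_
  unfold dtkf
  have hne : (b.1, b.2) ≠ (a.1, a.2) := by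
    intro h
    exact hab (by ext <;> simp_all)
  rw [el_coprime hq hp hne m]

/-- Proof. As `turan_kubilius` (`MR/TK.lean`) with `Ip P Q` replaced by a fixed finite set `I` of split
primes: the error terms are `O_I(√X)`, at most `X` for `X ≥ X0(I)`. -/
theorem TK_gen : ∃ C : ℝ, 1 ≤ C ∧ ∀ I : Finset ℕ, (∀ p ∈ I, Sp p) → ∃ X0 : ℝ, 1 ≤ X0 ∧
    ∀ X : ℝ, X0 ≤ X → ∑ w ∈ Vs X (2 * X), (om I w - WI I) ^ 2 ≤ C * X * (WI I + 1) := by
  classical
  obtain ⟨C, hC, hV⟩ := V_count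
  have hk := kap_pos
  refine ⟨kap + 22 * C + 1, by linarith, ?_⟩
  intro I hIS
  refine ⟨max 1 ((I.card : ℝ) ^ 4), le_max_left _ _, ?_⟩
  intro X hX0
  have hX : 1 ≤ X := (le_max_left _ _).trans hX0
  have hX4 : (I.card : ℝ) ^ 4 ≤ X := (le_max_right _ _).trans hX0
  set W := WI I with hW
  set J : Finset (ℕ × Bool) := I ×ˢ Finset.univ with hJ
  set M : ℝ := √(2 * X) with hM
  have hM0 : 0 ≤ M := Real.sqrt_nonneg _
  have hSp : ∀ a ∈ J, Sp a.1 := by
    intro a ha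
    rw [hJ, Finset.mem_product] at ha
    exact hIS a.1 ha.1
  have hp1 : ∀ a ∈ J, (1 : ℝ) ≤ a.1 := by
    intro a ha
    rw [hJ, Finset.mem_product] at ha
    have := (hIS a.1 ha.1).1.one_le
    exact_mod_cast this
  have hom : ∀ w, om I w = ∑ a ∈ J, dtkf a w := by
    intro w
    rw [hJ, Finset.sum_product]
    rfl
  have hWJ : W = ∑ a ∈ J, 1 / (a.1 : ℝ) := by
    rw [hJ, Finset.sum_product, hW, WI]
    refine Finset.sum_congr rfl fun p _ => ?_
    simp
    ring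
  have hW0 : 0 ≤ W := by
    rw [hWJ]
    exact Finset.sum_nonneg fun a _ => by positivity
  have hWI : W ≤ (I.card : ℝ) := by
    rw [hW, WI, Finset.card_eq_sum_ones]
    push_cast
    refine Finset.sum_le_sum fun p hp => ?_
    have h2 : (2 : ℝ) ≤ p := by exact_mod_cast (hIS p hp).1.two_le
    rw [div_le_one (by linarith)]
    linarith
  have hJc : (J.card : ℝ) = 2 * I.card := by
    rw [hJ, Finset.card_product]
    simp
    ring
  -- counts
  have hsq : ∀ r : ℝ, 1 ≤ r → √(2 * X / r) ≤ M := by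
    intro r hr
    apply Real.sqrt_le_sqrt
    exact div_le_self (by linarith) hr
  have b0 : ((Vs X (2 * X)).card : ℝ) ≤ kap * X + C * M := by
    have h := hV X (2 * X) (by linarith) (by linarith)
    have := (abs_le.1 h).2
    linarith [this]
  have b1 : ∀ a ∈ J, |∑ w ∈ Vs X (2 * X), dtkf a w - kap * X * (1 / (a.1 : ℝ))| ≤ C * M := by
    intro a ha
    have hpa := hp1 a ha
    rw [dtk_one (hSp a ha)]
    have h := hV (X / a.1) (2 * X / a.1) (by positivity)
      (div_le_div_of_nonneg_right (by linarith) (by linarith))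
    have h1 : kap * (2 * X / a.1 - X / a.1) = kap * X * (1 / (a.1 : ℝ)) := by ring
    rw [h1] at h
    exact h.trans (mul_le_mul_of_nonneg_left (hsq _ hpa) hC.le)
  have b2 : ∀ a ∈ J, ∀ b ∈ J, a ≠ b → ∑ w ∈ Vs X (2 * X), dtkf a w * dtkf b w ≤
      kap * X * (1 / (a.1 : ℝ) * (1 / (b.1 : ℝ))) + C * M := by
    intro a ha b hb hab
    have hpa := hp1 a ha
    have hpb := hp1 b hb
    rw [dtk_two (hSp a ha) (hSp b hb) hab]
    have h := hV (X / a.1 / b.1) (2 * X / a.1 / b.1) (by positivity)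
      (div_le_div_of_nonneg_right (div_le_div_of_nonneg_right (by linarith) (by linarith))
        (by linarith))
    have h1 : kap * (2 * X / a.1 / b.1 - X / a.1 / b.1) =
        kap * X * (1 / (a.1 : ℝ) * (1 / (b.1 : ℝ))) := by
      field_simp
      ring
    have h2 : 2 * X / (a.1 : ℝ) / b.1 = 2 * X / ((a.1 : ℝ) * b.1) := by
      rw [div_div]
    rw [h1] at h
    have h3 : C * √(2 * X / (a.1 : ℝ) / b.1) ≤ C * M := by
      rw [h2]
      exact mul_le_mul_of_nonneg_left (hsq _ (by nlinarith)) hC.le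
    have := (abs_le.1 h).2
    linarith
  -- first moment
  have m1 : kap * X * W - J.card * (C * M) ≤ ∑ w ∈ Vs X (2 * X), om I w := by
    have h1 : ∑ w ∈ Vs X (2 * X), om I w = ∑ a ∈ J, ∑ w ∈ Vs X (2 * X), dtkf a w := by
      simp_rw [hom]
      rw [Finset.sum_comm]
    rw [h1, hWJ, Finset.mul_sum, ← nsmul_eq_mul, ← Finset.sum_const, ← Finset.sum_sub_distrib]
    refine Finset.sum_le_sum fun a ha => ?_
    have := (abs_le.1 (b1 a ha)).1
    linarith
  -- second moment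
  have m2 : ∑ w ∈ Vs X (2 * X), om I w ^ 2 ≤
      kap * X * W + J.card * (C * M) + (kap * X * W ^ 2 + (J.card : ℝ) ^ 2 * (C * M)) := by
    have h1 : ∑ w ∈ Vs X (2 * X), om I w ^ 2 =
        ∑ a ∈ J, ∑ b ∈ J, ∑ w ∈ Vs X (2 * X), dtkf a w * dtkf b w := by
      have : ∀ w, om I w ^ 2 = ∑ a ∈ J, ∑ b ∈ J, dtkf a w * dtkf b w := by
        intro w
        rw [hom, sq, Finset.sum_mul_sum]
      simp_rw [this]
      rw [Finset.sum_comm]
      refine Finset.sum_congr rfl fun a _ => ?_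
      rw [Finset.sum_comm]
    rw [h1]
    have h2 : ∀ a ∈ J, ∀ b ∈ J, ∑ w ∈ Vs X (2 * X), dtkf a w * dtkf b w ≤
        (if a = b then kap * X * (1 / (a.1 : ℝ)) + C * M else 0) +
        (kap * X * (1 / (a.1 : ℝ) * (1 / (b.1 : ℝ))) + C * M) := by
      intro a ha b hb
      by_cases hab : a = b
      · subst hab
        rw [if_pos rfl]
        simp_rw [dtkf_sq]
        have := (abs_le.1 (b1 a ha)).2
        have h3 : 0 ≤ kap * X * (1 / (a.1 : ℝ) * (1 / (a.1 : ℝ))) := by positivity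
        have h4 : 0 ≤ C * M := by positivity
        linarith
      · rw [if_neg hab, zero_add]
        exact b2 a ha b hb hab
    calc ∑ a ∈ J, ∑ b ∈ J, ∑ w ∈ Vs X (2 * X), dtkf a w * dtkf b w
        ≤ ∑ a ∈ J, ∑ b ∈ J, ((if a = b then kap * X * (1 / (a.1 : ℝ)) + C * M else 0) +
          (kap * X * (1 / (a.1 : ℝ) * (1 / (b.1 : ℝ))) + C * M)) :=
          Finset.sum_le_sum fun a ha => Finset.sum_le_sum fun b hb => h2 a ha b hb
      _ = kap * X * W + J.card * (C * M) + (kap * X * W ^ 2 + (J.card : ℝ) ^ 2 * (C * M)) := by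
          simp_rw [Finset.sum_add_distrib]
          have e1 : ∑ a ∈ J, ∑ b ∈ J,
              (if a = b then kap * X * (1 / (a.1 : ℝ)) + C * M else 0) =
              kap * X * W + J.card * (C * M) := by
            have : ∀ a ∈ J, ∑ b ∈ J, (if a = b then kap * X * (1 / (a.1 : ℝ)) + C * M else 0) =
                kap * X * (1 / (a.1 : ℝ)) + C * M := by
              intro a ha
              rw [Finset.sum_ite_eq, if_pos ha]
            rw [Finset.sum_congr rfl this, Finset.sum_add_distrib, ← Finset.mul_sum, ← hWJ,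
              Finset.sum_const, nsmul_eq_mul]
          have e2 : ∑ a ∈ J, ∑ b ∈ J, kap * X * (1 / (a.1 : ℝ) * (1 / (b.1 : ℝ))) =
              kap * X * W ^ 2 := by
            rw [hWJ, sq, Finset.sum_mul_sum, Finset.mul_sum]
            refine Finset.sum_congr rfl fun a _ => ?_
            rw [Finset.mul_sum]
          have e3 : ∑ a ∈ J, ∑ b ∈ J, C * M = (J.card : ℝ) ^ 2 * (C * M) := by
            simp only [Finset.sum_const, nsmul_eq_mul]
            ring
          rw [e1, e2, e3]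
  -- expansion
  have hexp : ∑ w ∈ Vs X (2 * X), (om I w - W) ^ 2 =
      ∑ w ∈ Vs X (2 * X), om I w ^ 2 - 2 * W * ∑ w ∈ Vs X (2 * X), om I w +
        W ^ 2 * (Vs X (2 * X)).card := by
    have : ∀ w, (om I w - W) ^ 2 = om I w ^ 2 - 2 * W * om I w + W ^ 2 := by
      intro w
      ring
    simp_rw [this]
    rw [Finset.sum_add_distrib, Finset.sum_sub_distrib, ← Finset.mul_sum, Finset.sum_const,
      nsmul_eq_mul]
    ring
  rw [hexp]
  set N : ℝ := (I.card : ℝ) with hN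
  have hN0 : 0 ≤ N := Nat.cast_nonneg _
  have hNN : N ≤ N ^ 2 := by
    rw [hN]
    have : I.card ≤ I.card ^ 2 := Nat.le_self_pow (by norm_num) _
    exact_mod_cast this
  rw [hJc] at m1 m2
  have hCM : 0 ≤ C * M := by positivity
  have key : ∑ w ∈ Vs X (2 * X), om I w ^ 2 - 2 * W * ∑ w ∈ Vs X (2 * X), om I w +
        W ^ 2 * (Vs X (2 * X)).card ≤ kap * X * W + C * M * (11 * N ^ 2) := by
    have k1 : 2 * W * (kap * X * W - 2 * N * (C * M)) ≤
        2 * W * ∑ w ∈ Vs X (2 * X), om I w := mul_le_mul_of_nonneg_left m1 (by positivity)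
    have k2 : W ^ 2 * ((Vs X (2 * X)).card : ℝ) ≤ W ^ 2 * (kap * X + C * M) :=
      mul_le_mul_of_nonneg_left b0 (by positivity)
    have k3 : C * M * (2 * N + 4 * N ^ 2 + 4 * W * N + W ^ 2) ≤ C * M * (11 * N ^ 2) := by
      apply mul_le_mul_of_nonneg_left _ hCM
      nlinarith
    nlinarith
  refine key.trans ?_
  have hQ2 : N ^ 2 ≤ √X := by
    apply Real.le_sqrt_of_sq_le
    calc (N ^ 2) ^ 2 = N ^ 4 := by ring
      _ ≤ X := hX4
  have hMX : M ≤ 2 * √X := by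
    rw [hM, Real.sqrt_mul (by norm_num)]
    apply mul_le_mul_of_nonneg_right _ (Real.sqrt_nonneg _)
    rw [Real.sqrt_le_left (by norm_num)]
    norm_num
  have hMN : M * N ^ 2 ≤ 2 * X := by
    calc M * N ^ 2 ≤ (2 * √X) * √X :=
          mul_le_mul hMX hQ2 (by positivity) (by positivity)
      _ = 2 * X := by
          rw [mul_assoc, Real.mul_self_sqrt (by linarith)]
  have : C * M * (11 * N ^ 2) ≤ 22 * C * X := by
    have : C * (M * N ^ 2) ≤ C * (2 * X) := mul_le_mul_of_nonneg_left hMN hC.le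
    nlinarith
  have hXW : 0 ≤ X * W := by positivity
  nlinarith [mul_nonneg hC.le hXW, mul_nonneg hk.le (by linarith : (0 : ℝ) ≤ X)]

end

end Pool.Agent.Lib.MP_0b748d_nt.HD
end

section

set_option autoImplicit false

/-!
# The basic relation
-/

namespace Pool.Agent.Lib.MP_0b748d_nt.HD

open Zsqrtd MR

noncomputable section

open Classical in
private theorem DC11_sum {f : ℤ√2 → ℂ} (hf : MF f) {I : Finset ℕ} (hI : ∀ p ∈ I, Sp p) (X : ℝ) :
    ∑ w ∈ Vs X (2 * X), f w * (om I w : ℂ) =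
      ∑ p ∈ I, ∑ s : Bool, f (el p s) * Vf f (X / p) := by
  have h1 : ∀ w, f w * (om I w : ℂ) =
      ∑ p ∈ I, ∑ s : Bool, if el p s ∣ w then f w else 0 := by
    intro w
    unfold om
    push_cast
    rw [Finset.mul_sum]
    refine Finset.sum_congr rfl fun p _ => ?_
    rw [Finset.mul_sum]
    refine Finset.sum_congr rfl fun s _ => ?_
    split_ifs <;> simp
  simp_rw [h1]
  rw [Finset.sum_comm]
  refine Finset.sum_congr rfl fun p hp => ?_
  rw [Finset.sum_comm]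
  refine Finset.sum_congr rfl fun s _ => ?_
  have hs := el_spec (hI p hp) s
  have h2 := sum_dvd (el p s) hs.1 X (2 * X) f hf.inv
  rw [← Finset.sum_filter, h2, hs.2]
  have h3 : (((p : ℕ) : ℤ) : ℝ) = (p : ℝ) := by simp
  rw [h3, Vf, Finset.mul_sum, mul_div_assoc]
  refine Finset.sum_congr rfl fun m hm => ?_
  exact hf.mul _ _ hs.1 (mem_Vs.1 hm).1

/-- Proof. `∑_{w ∈ Vs X 2X} f w om I w = ∑_{p ∈ I} ∑_s f (el p s) Vf f (X/p)` by `sum_dvd`
(`φ = f`, `ρ = el p s`, `nm ρ = p`; `f (ρ m) = f ρ f m` for odd `m`). The difference with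
`WI I * Vf f X` is at most `∑ |om I w - WI I| ≤ (#Vs ∑ (om - WI)²)^(1/2) ≤ C X (WI I + 1)^(1/2)`
(`V_le`, `TK_gen`). Divide by `X WI I`; `Vf f (X/p)/X = uf f (X/p)/p`. -/
theorem u_rel : ∃ C : ℝ, 1 ≤ C ∧ ∀ I : Finset ℕ, (∀ p ∈ I, Sp p) → 1 ≤ WI I → ∃ X0 : ℝ, 1 ≤ X0 ∧
    ∀ X : ℝ, X0 ≤ X → ∀ f : ℤ√2 → ℂ, MF f →
    ‖uf f X - (1 / (WI I : ℂ)) * ∑ p ∈ I, ∑ s : Bool, f (el p s) / (p : ℂ) * uf f (X / p)‖ ≤
      C / √(WI I) := by
  obtain ⟨C1, hC1, hTK⟩ := TK_gen
  obtain ⟨C2, hC2, hV⟩ := V_le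
  refine ⟨√(4 * C1 * C2) + 1, by linarith [Real.sqrt_nonneg (4 * C1 * C2)], ?_⟩
  intro I hI hW
  obtain ⟨X0, hX0, hX⟩ := hTK I hI
  refine ⟨X0, hX0, fun X hXX f hf => ?_⟩
  have hX1 : 1 ≤ X := hX0.trans hXX
  have hXp : 0 < X := by linarith
  have hTKX := hX X hXX
  obtain ⟨W, hWd⟩ : ∃ W : ℝ, W = WI I := ⟨_, rfl⟩
  rw [← hWd] at hW hTKX ⊢
  have hW0 : 0 < W := by linarith
  have hWc : (W : ℂ) ≠ 0 := Complex.ofReal_ne_zero.2 hW0.ne'
  have hXc : (X : ℂ) ≠ 0 := Complex.ofReal_ne_zero.2 hXp.ne'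
  -- the identity
  have hid : uf f X - (1 / (W : ℂ)) * ∑ p ∈ I, ∑ s : Bool, f (el p s) / (p : ℂ) * uf f (X / p) =
      (1 / ((X : ℂ) * W)) * ∑ w ∈ Vs X (2 * X), f w * ((W : ℂ) - (om I w : ℂ)) := by
    have h1 : ∑ w ∈ Vs X (2 * X), f w * ((W : ℂ) - (om I w : ℂ)) =
        W * Vf f X - ∑ p ∈ I, ∑ s : Bool, f (el p s) * Vf f (X / p) := by
      rw [← DC11_sum hf hI X, Vf, Finset.mul_sum, ← Finset.sum_sub_distrib]
      refine Finset.sum_congr rfl fun w _ => ?_
      ring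
    have h2 : ∑ p ∈ I, ∑ s : Bool, f (el p s) / (p : ℂ) * uf f (X / p) =
        (1 / (X : ℂ)) * ∑ p ∈ I, ∑ s : Bool, f (el p s) * Vf f (X / p) := by
      rw [Finset.mul_sum]
      refine Finset.sum_congr rfl fun p hp => ?_
      rw [Finset.mul_sum]
      refine Finset.sum_congr rfl fun s _ => ?_
      have hp0 : (p : ℂ) ≠ 0 := by
        have := (hI p hp).1.pos
        exact_mod_cast this.ne'
      rw [uf]
      push_cast
      field_simp
    rw [h1, h2, uf]
    field_simp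
  rw [hid, _root_.norm_mul]
  have h1 : ‖(1 / ((X : ℂ) * W))‖ = 1 / (X * W) := by
    rw [norm_div, NormOneClass.norm_one, _root_.norm_mul, Complex.norm_real, Complex.norm_real,
      Real.norm_of_nonneg hXp.le, Real.norm_of_nonneg hW0.le]
  rw [h1]
  have h2 : ‖∑ w ∈ Vs X (2 * X), f w * ((W : ℂ) - (om I w : ℂ))‖ ≤
      ∑ w ∈ Vs X (2 * X), |om I w - W| := by
    refine (norm_sum_le _ _).trans (Finset.sum_le_sum fun w hw => ?_)
    rw [_root_.norm_mul, ← Complex.ofReal_sub, Complex.norm_real, Real.norm_eq_abs, abs_sub_comm]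
    have h3 := hf.le w (mem_Vs.1 hw).1
    calc ‖f w‖ * |om I w - W| ≤ 1 * |om I w - W| :=
          mul_le_mul_of_nonneg_right h3 (abs_nonneg _)
      _ = _ := one_mul _
  have h3 : (∑ w ∈ Vs X (2 * X), |om I w - W|) ^ 2 ≤ 4 * C1 * C2 * X ^ 2 * W := by
    have h4 := Finset.sum_mul_sq_le_sq_mul_sq (Vs X (2 * X)) (fun _ => (1 : ℝ))
      (fun w => |om I w - W|)
    simp only [one_mul, one_pow, Finset.sum_const, nsmul_eq_mul, mul_one, sq_abs] at h4
    have h5 : ((Vs X (2 * X)).card : ℝ) ≤ C2 * (2 * X) := hV X (2 * X) hXp.le (by linarith)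
    calc (∑ w ∈ Vs X (2 * X), |om I w - W|) ^ 2
        ≤ ((Vs X (2 * X)).card : ℝ) * ∑ w ∈ Vs X (2 * X), (om I w - W) ^ 2 := h4
      _ ≤ (C2 * (2 * X)) * (C1 * X * (W + 1)) :=
          mul_le_mul h5 hTKX (Finset.sum_nonneg fun _ _ => sq_nonneg _) (by positivity)
      _ ≤ (C2 * (2 * X)) * (C1 * X * (2 * W)) := by
          refine mul_le_mul_of_nonneg_left ?_ (by positivity)
          exact mul_le_mul_of_nonneg_left (by linarith) (by positivity)
      _ = 4 * C1 * C2 * X ^ 2 * W := by ring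
  have h4 : ∑ w ∈ Vs X (2 * X), |om I w - W| ≤ √(4 * C1 * C2) * X * √W := by
    refine Real.le_sqrt_of_sq_le h3 |>.trans (le_of_eq ?_)
    rw [Real.sqrt_mul (by positivity), Real.sqrt_mul (by positivity), Real.sqrt_sq hXp.le]
  have hsW : 0 < √W := Real.sqrt_pos.2 hW0
  calc 1 / (X * W) * ‖∑ w ∈ Vs X (2 * X), f w * ((W : ℂ) - (om I w : ℂ))‖
      ≤ 1 / (X * W) * (√(4 * C1 * C2) * X * √W) :=
        mul_le_mul_of_nonneg_left (h2.trans h4) (by positivity)
    _ = √(4 * C1 * C2) / √W := by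
        have hWW : W = √W * √W := (Real.mul_self_sqrt hW0.le).symm
        rw [eq_div_iff hsW.ne']
        have : 1 / (X * W) * (√(4 * C1 * C2) * X * √W) * √W =
          √(4 * C1 * C2) * (X * (√W * √W) / (X * W)) := by ring
        rw [this, ← hWW, div_self (by positivity), mul_one]
    _ ≤ (√(4 * C1 * C2) + 1) / √W := by
        gcongr
        linarith

end

end Pool.Agent.Lib.MP_0b748d_nt.HD
end

section

set_option autoImplicit false

/-!
# The function uf is bounded and slowly varying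
-/

namespace Pool.Agent.Lib.MP_0b748d_nt.HD

open Zsqrtd MR

noncomputable section

private theorem DC12_sum_le {f : ℤ√2 → ℂ} (hf : MF f) (a b : ℝ) :
    ‖∑ z ∈ Vs a b, f z‖ ≤ ((Vs a b).card : ℝ) := by
  refine (norm_sum_le _ _).trans ?_
  calc ∑ z ∈ Vs a b, ‖f z‖ ≤ ∑ z ∈ Vs a b, (1 : ℝ) :=
        Finset.sum_le_sum fun z hz => hf.le z (mem_Vs.1 hz).1
    _ = ((Vs a b).card : ℝ) := by rw [Finset.sum_const, nsmul_eq_mul, mul_one]

private theorem DC12_V_bdd : ∃ C : ℝ, 1 ≤ C ∧ ∀ X : ℝ, 0 ≤ X → ∀ f : ℤ√2 → ℂ, MF f →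
    ‖Vf f X‖ ≤ C * X := by
  obtain ⟨C, hC, h⟩ := V_le
  refine ⟨2 * C, by linarith, fun X hX f hf => ?_⟩
  have h1 := h X (2 * X) hX (by linarith)
  have h2 := DC12_sum_le hf X (2 * X)
  unfold Vf
  linarith

/-- `V_le` -/
theorem u_bdd : ∃ C : ℝ, 1 ≤ C ∧ ∀ X : ℝ, 0 < X → ∀ f : ℤ√2 → ℂ, MF f → ‖uf f X‖ ≤ C := by
  obtain ⟨C, hC, h⟩ := DC12_V_bdd
  refine ⟨C, hC, fun X hX f hf => ?_⟩
  unfold uf
  rw [norm_div, Complex.norm_real, Real.norm_of_nonneg hX.le, div_le_iff₀ hX]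
  exact h X hX.le f hf

/-- Proof. For `X ≤ X' ≤ (1+δ) X`: `Vf f X' - Vf f X` is a sum over `[2X, 2X')` minus a sum over
`[X, X')` (`Vs_split`), at most `3 kap (X' - X) + 4 C √X ≤ (3 kap + 1) δ X` elements for
`X ≥ X0(δ)` (`V_count`); and `|1/X - 1/X'| ≤ δ/X`. -/
theorem u_slow : ∃ C : ℝ, 1 ≤ C ∧ ∀ δ : ℝ, 0 < δ → δ ≤ 1 → ∃ X0 : ℝ, 1 ≤ X0 ∧ ∀ X : ℝ, X0 ≤ X →
    ∀ X' : ℝ, X ≤ X' → X' ≤ (1 + δ) * X → ∀ f : ℤ√2 → ℂ, MF f → ‖uf f X' - uf f X‖ ≤ C * δ := by
  obtain ⟨C, hC, h⟩ := V_count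
  obtain ⟨B, hB, hB'⟩ := DC12_V_bdd
  have hk := kap_pos
  refine ⟨3 * kap + 1 + B, by linarith, fun δ hδ hδ1 => ⟨max 1 ((4 * C / δ) ^ 2), le_max_left _ _,
    fun X hX X' hXX' hX' f hf => ?_⟩⟩
  have hX1 : 1 ≤ X := (le_max_left _ _).trans hX
  have hX2 : (4 * C / δ) ^ 2 ≤ X := (le_max_right _ _).trans hX
  have hX0 : 0 < X := by linarith
  have hX'0 : 0 < X' := by linarith
  have hX2X : X' ≤ 2 * X := by nlinarith
  -- the square roots
  have e1 : √(2 * X') ≤ 2 * √X := by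
    have : √(2 * X') ≤ √(4 * X) := Real.sqrt_le_sqrt (by linarith)
    have e : √(4 * X) = 2 * √X := by
      rw [Real.sqrt_mul (by norm_num : (0 : ℝ) ≤ 4)]
      congr 1
      rw [show (4 : ℝ) = 2 ^ 2 by norm_num, Real.sqrt_sq (by norm_num)]
    rw [e] at this
    exact this
  have e2 : √X' ≤ 2 * √X := (Real.sqrt_le_sqrt (by linarith)).trans e1
  have e3 : 4 * C * √X ≤ δ * X := by
    have g1 : 4 * C / δ ≤ √X := Real.le_sqrt_of_sq_le hX2
    rw [div_le_iff₀ hδ] at g1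
    have g2 : √X * √X = X := Real.mul_self_sqrt hX0.le
    have g3 : 0 ≤ √X := Real.sqrt_nonneg _
    nlinarith
  -- the difference of the sums
  have s1 : ∑ z ∈ Vs X (2 * X'), f z = ∑ z ∈ Vs X X', f z + ∑ z ∈ Vs X' (2 * X'), f z :=
    Vs_split f hXX' (by linarith)
  have s2 : ∑ z ∈ Vs X (2 * X'), f z = ∑ z ∈ Vs X (2 * X), f z + ∑ z ∈ Vs (2 * X) (2 * X'), f z :=
    Vs_split f (by linarith) (by linarith)
  have s3 : Vf f X' - Vf f X = ∑ z ∈ Vs (2 * X) (2 * X'), f z - ∑ z ∈ Vs X X', f z := by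
    unfold Vf
    rw [sub_eq_sub_iff_add_eq_add, add_comm, ← s1, s2, add_comm]
  have s4 : ‖Vf f X' - Vf f X‖ ≤ (3 * kap + 1) * δ * X := by
    rw [s3]
    have t1 := DC12_sum_le hf (2 * X) (2 * X')
    have t2 := DC12_sum_le hf X X'
    have t3 := (abs_le.1 (h (2 * X) (2 * X') (by linarith) (by linarith))).2
    have t4 := (abs_le.1 (h X X' hX0.le hXX')).2
    have t5 : X' - X ≤ δ * X := by linarith
    have t6 : kap * (X' - X) ≤ kap * (δ * X) := mul_le_mul_of_nonneg_left t5 hk.le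
    have t7 : C * √(2 * X') ≤ C * (2 * √X) := mul_le_mul_of_nonneg_left e1 hC.le
    have t8 : C * √X' ≤ C * (2 * √X) := mul_le_mul_of_nonneg_left e2 hC.le
    refine (norm_sub_le _ _).trans ?_
    nlinarith
  -- the quotient
  have q1 : uf f X' - uf f X = (Vf f X' - Vf f X) / X' - Vf f X * ((X' - X : ℝ) : ℂ) / (X * X') := by
    unfold uf
    have n1 : (X : ℂ) ≠ 0 := by exact_mod_cast hX0.ne'
    have n2 : (X' : ℂ) ≠ 0 := by exact_mod_cast hX'0.ne'
    push_cast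
    field_simp
    ring
  rw [q1]
  refine (norm_sub_le _ _).trans ?_
  have q2 : ‖(Vf f X' - Vf f X) / (X' : ℂ)‖ ≤ (3 * kap + 1) * δ := by
    rw [norm_div, Complex.norm_real, Real.norm_of_nonneg hX'0.le, div_le_iff₀ hX'0]
    refine s4.trans (mul_le_mul_of_nonneg_left hXX' ?_)
    positivity
  have q3 : ‖Vf f X * ((X' - X : ℝ) : ℂ) / ((X : ℂ) * X')‖ ≤ B * δ := by
    rw [norm_div, _root_.norm_mul, _root_.norm_mul, Complex.norm_real, Complex.norm_real, Complex.norm_real,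
      Real.norm_of_nonneg hX'0.le, Real.norm_of_nonneg hX0.le,
      Real.norm_of_nonneg (by linarith : 0 ≤ X' - X), div_le_iff₀ (by positivity)]
    have g1 := hB' X hX0.le f hf
    have g2 : X' - X ≤ δ * X' := by nlinarith
    calc ‖Vf f X‖ * (X' - X) ≤ (B * X) * (δ * X') :=
          mul_le_mul g1 g2 (by linarith) (by positivity)
      _ = B * δ * (X * X') := by ring
  calc ‖(Vf f X' - Vf f X) / (X' : ℂ)‖ + ‖Vf f X * ((X' - X : ℝ) : ℂ) / ((X : ℂ) * X')‖
      ≤ (3 * kap + 1) * δ + B * δ := add_le_add q2 q3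
    _ = (3 * kap + 1 + B) * δ := by ring

/-- limit superior. Proof: `v = limsup`, or the infimum of the `v ≥ 0` such that eventually
`‖uf f X‖ ≤ v`. -/
theorem u_limsup {f : ℤ√2 → ℂ} (hf : MF f) : ∃ v : ℝ, 0 ≤ v ∧
    (∀ ε : ℝ, 0 < ε → ∃ X0 : ℝ, ∀ X : ℝ, X0 ≤ X → ‖uf f X‖ ≤ v + ε) ∧
    (∀ ε : ℝ, 0 < ε → ∀ X0 : ℝ, ∃ X : ℝ, X0 ≤ X ∧ v - ε ≤ ‖uf f X‖) := by
  obtain ⟨C, hC, h⟩ := u_bdd
  set S : Set ℝ := {v : ℝ | 0 ≤ v ∧ ∃ X0 : ℝ, ∀ X : ℝ, X0 ≤ X → ‖uf f X‖ ≤ v} with hS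
  have hne : S.Nonempty := ⟨C, by linarith, 1, fun X hX => h X (by linarith) f hf⟩
  have hbd : BddBelow S := ⟨0, fun v hv => hv.1⟩
  refine ⟨sInf S, le_csInf hne fun v hv => hv.1, fun ε hε => ?_, fun ε hε X0 => ?_⟩
  · obtain ⟨w, hw, hw'⟩ := exists_lt_of_csInf_lt hne (by linarith : sInf S < sInf S + ε)
    obtain ⟨_, X0, hX0⟩ := hw
    exact ⟨X0, fun X hX => (hX0 X hX).trans hw'.le⟩
  · by_contra hcon
    push Not at hcon
    have h0 : 0 ≤ sInf S - ε := (_root_.norm_nonneg _).trans (hcon X0 le_rfl).le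
    have h1 : sInf S - ε ∈ S := ⟨h0, X0, fun X hX => (hcon X hX).le⟩
    have h2 := csInf_le hbd h1
    linarith

end

end Pool.Agent.Lib.MP_0b748d_nt.HD
end
end

section

section

set_option autoImplicit false

/-!
# Primes in residue classes in short intervals
-/

namespace Pool.Agent.Lib.MP_0b748d_nt.HD

open Zsqrtd MR

noncomputable section

/-- sum of the logarithms of the primes `< x` in a class -/
private def DC16_G (M : ℕ) (a : ZMod M) (x : ℝ) : ℝ :=
  ∑ p ∈ (Finset.range ⌈x⌉₊).filter (fun p : ℕ => p.Prime ∧ ((p : ℕ) : ZMod M) = a), Real.log p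

private theorem DC16_split {M : ℕ} (a : ZMod M) {y z : ℝ} (hyz : y ≤ z) :
    ∑ p ∈ (Pr y z).filter (fun p : ℕ => ((p : ℕ) : ZMod M) = a), Real.log p =
      DC16_G M a z - DC16_G M a y := by
  have hd : (Finset.range ⌈z⌉₊).filter (fun p : ℕ => p.Prime ∧ ((p : ℕ) : ZMod M) = a) =
      (Finset.range ⌈y⌉₊).filter (fun p : ℕ => p.Prime ∧ ((p : ℕ) : ZMod M) = a) ∪
        (Pr y z).filter (fun p : ℕ => ((p : ℕ) : ZMod M) = a) := by
    ext p
    unfold Pr
    simp only [Finset.mem_filter, Finset.mem_range, Finset.mem_union, Nat.lt_ceil]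
    constructor
    · rintro ⟨h1, h2, h3⟩
      by_cases h : (p : ℝ) < y
      · exact Or.inl ⟨h, h2, h3⟩
      · refine Or.inr ⟨⟨?_, h2, not_lt.1 h, h1⟩, h3⟩
        have := Nat.lt_ceil.2 h1
        omega
    · rintro (⟨h1, h2, h3⟩ | ⟨⟨-, h2, -, h1⟩, h3⟩)
      · exact ⟨h1.trans_le hyz, h2, h3⟩
      · exact ⟨h1, h2, h3⟩
  have hdis : Disjoint ((Finset.range ⌈y⌉₊).filter
      (fun p : ℕ => p.Prime ∧ ((p : ℕ) : ZMod M) = a))
      ((Pr y z).filter (fun p : ℕ => ((p : ℕ) : ZMod M) = a)) := by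
    rw [Finset.disjoint_left]
    intro p hp hp2
    unfold Pr at hp2
    simp only [Finset.mem_filter, Finset.mem_range, Nat.lt_ceil] at hp hp2
    exact absurd hp.1 (not_lt.2 hp2.1.2.2.1)
  unfold DC16_G
  rw [hd, Finset.sum_union hdis]
  ring

private theorem DC16_ev {M : ℕ} (hM : 1 ≤ M) {a : ZMod M} (ha : IsUnit a) {ε : ℝ} (hε : 0 < ε) :
    ∀ᶠ x : ℝ in Filter.atTop, |DC16_G M a x - x / (M.totient : ℝ)| ≤ ε * x := by
  have : NeZero M := ⟨by omega⟩
  obtain ⟨C, hC⟩ := Chebyshev.psi_sub_theta_le_mul_sqrt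
  have hpnt := PNT.pnt_residueClass (q := M) (a := a) ha
  set R : ℕ → ℝ := ArithmeticFunction.vonMangoldt.residueClass a with hR
  set S : ℝ → ℝ := fun x => ∑ k ∈ Finset.Icc 1 ⌊x⌋₊, R k with hS
  have h1 : ∀ᶠ x : ℝ in Filter.atTop, |S x / x - (M.totient : ℝ)⁻¹| < ε / 2 := by
    have := (Metric.tendsto_nhds.1 hpnt) (ε / 2) (by positivity)
    refine this.mono fun x hx => ?_
    rwa [Real.dist_eq] at hx
  have ht : Filter.Tendsto (fun x : ℝ => Real.sqrt x) Filter.atTop Filter.atTop :=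
    Real.tendsto_sqrt_atTop
  filter_upwards [h1, ht.eventually_ge_atTop (2 * (|C| + 2) / ε), Filter.eventually_ge_atTop
    (1 : ℝ)] with x hx1 hx2 hx3
  have hx0 : 0 < x := by linarith
  have hsq : Real.sqrt x * Real.sqrt x = x := Real.mul_self_sqrt hx0.le
  have hs0 : 0 < Real.sqrt x := Real.sqrt_pos.2 hx0
  have hlog : Real.log x ≤ 2 * Real.sqrt x := by
    have h2 : Real.log x = 2 * Real.log (Real.sqrt x) := by
      rw [Real.log_sqrt hx0.le]; ring
    have h3 := Real.log_le_sub_one_of_pos hs0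
    linarith
  have herr : |C| * Real.sqrt x + Real.log x ≤ ε / 2 * x := by
    rw [div_le_iff₀ hε] at hx2
    have : (|C| + 2) * Real.sqrt x ≤ ε / 2 * x := by
      calc (|C| + 2) * Real.sqrt x ≤ (Real.sqrt x * ε / 2) * Real.sqrt x := by
            apply mul_le_mul_of_nonneg_right _ hs0.le
            linarith
        _ = ε / 2 * (Real.sqrt x * Real.sqrt x) := by ring
        _ = ε / 2 * x := by rw [hsq]
    linarith
  -- lower bound for S
  have hRp : ∀ p : ℕ, p.Prime → ((p : ℕ) : ZMod M) = a → R p = Real.log p := by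
    intro p hp hpa
    rw [hR]
    unfold ArithmeticFunction.vonMangoldt.residueClass
    rw [Set.indicator_of_mem (by exact hpa), ArithmeticFunction.vonMangoldt_apply_prime hp]
  have hR0 : ∀ p : ℕ, ((p : ℕ) : ZMod M) ≠ a → R p = 0 := by
    intro p hpa
    rw [hR]
    unfold ArithmeticFunction.vonMangoldt.residueClass
    rw [Set.indicator_of_notMem (by exact hpa)]
  have hGS : DC16_G M a x ≤ S x := by
    unfold DC16_G
    have e1 : ∑ p ∈ (Finset.range ⌈x⌉₊).filter (fun p : ℕ => p.Prime ∧ ((p : ℕ) : ZMod M) = a),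
        Real.log p = ∑ p ∈ (Finset.range ⌈x⌉₊).filter
          (fun p : ℕ => p.Prime ∧ ((p : ℕ) : ZMod M) = a), R p := by
      refine Finset.sum_congr rfl fun p hp => ?_
      rw [Finset.mem_filter] at hp
      exact (hRp p hp.2.1 hp.2.2).symm
    rw [e1]
    refine Finset.sum_le_sum_of_subset_of_nonneg ?_ fun k _ _ =>
      ArithmeticFunction.vonMangoldt.residueClass_nonneg a k
    intro p hp
    rw [Finset.mem_filter, Finset.mem_range, Nat.lt_ceil] at hp
    rw [Finset.mem_Icc]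
    exact ⟨hp.2.1.one_lt.le, Nat.le_floor hp.1.le⟩
  have hSG : S x ≤ DC16_G M a x + (|C| * Real.sqrt x + Real.log x) := by
    have e1 : S x = ∑ p ∈ (Finset.Icc 1 ⌊x⌋₊).filter
        (fun p : ℕ => p.Prime ∧ ((p : ℕ) : ZMod M) = a), R p +
        ∑ p ∈ (Finset.Icc 1 ⌊x⌋₊).filter
        (fun p : ℕ => ¬ (p.Prime ∧ ((p : ℕ) : ZMod M) = a)), R p := by
      rw [Finset.sum_filter_add_sum_filter_not]
    have e2 : ∑ p ∈ (Finset.Icc 1 ⌊x⌋₊).filter
        (fun p : ℕ => p.Prime ∧ ((p : ℕ) : ZMod M) = a), R p ≤ DC16_G M a x + Real.log x := by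
      calc ∑ p ∈ (Finset.Icc 1 ⌊x⌋₊).filter
            (fun p : ℕ => p.Prime ∧ ((p : ℕ) : ZMod M) = a), R p
          = ∑ p ∈ (Finset.Icc 1 ⌊x⌋₊).filter
            (fun p : ℕ => p.Prime ∧ ((p : ℕ) : ZMod M) = a), Real.log p := by
            refine Finset.sum_congr rfl fun p hp => ?_
            rw [Finset.mem_filter] at hp
            exact hRp p hp.2.1 hp.2.2
        _ ≤ ∑ p ∈ ((Finset.range ⌈x⌉₊).filter
            (fun p : ℕ => p.Prime ∧ ((p : ℕ) : ZMod M) = a)) ∪ {⌊x⌋₊}, Real.log p := by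
            refine Finset.sum_le_sum_of_subset_of_nonneg ?_ fun k _ _ => Real.log_natCast_nonneg k
            intro p hp
            rw [Finset.mem_filter, Finset.mem_Icc] at hp
            rw [Finset.mem_union, Finset.mem_filter, Finset.mem_range, Nat.lt_ceil,
              Finset.mem_singleton]
            by_cases h : (p : ℝ) < x
            · exact Or.inl ⟨h, hp.2⟩
            · right
              rw [not_lt] at h
              have : ⌊x⌋₊ ≤ p := by
                have := Nat.floor_le_floor h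
                rwa [Nat.floor_natCast] at this
              omega
        _ ≤ _ := by
            have hui := Finset.sum_union_inter (s₁ := (Finset.range ⌈x⌉₊).filter
              (fun p : ℕ => p.Prime ∧ ((p : ℕ) : ZMod M) = a)) (s₂ := {⌊x⌋₊})
              (f := fun p : ℕ => Real.log (p : ℝ))
            have hnn : 0 ≤ ∑ p ∈ ((Finset.range ⌈x⌉₊).filter
              (fun p : ℕ => p.Prime ∧ ((p : ℕ) : ZMod M) = a)) ∩ {⌊x⌋₊}, Real.log (p : ℝ) :=
              Finset.sum_nonneg fun k _ => Real.log_natCast_nonneg k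
            rw [Finset.sum_singleton] at hui
            unfold DC16_G
            have h4 : Real.log (⌊x⌋₊ : ℝ) ≤ Real.log x := by
              refine Real.log_le_log ?_ (Nat.floor_le hx0.le)
              have : 0 < ⌊x⌋₊ := Nat.floor_pos.2 hx3
              exact_mod_cast this
            linarith
    have e3 : ∑ p ∈ (Finset.Icc 1 ⌊x⌋₊).filter
        (fun p : ℕ => ¬ (p.Prime ∧ ((p : ℕ) : ZMod M) = a)), R p ≤ |C| * Real.sqrt x := by
      have hle : ∑ p ∈ (Finset.Icc 1 ⌊x⌋₊).filter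
          (fun p : ℕ => ¬ (p.Prime ∧ ((p : ℕ) : ZMod M) = a)), R p ≤
          Chebyshev.psi x - Chebyshev.theta x := by
        unfold Chebyshev.psi Chebyshev.theta
        rw [← Finset.sum_filter_add_sum_filter_not (Finset.Ioc 0 ⌊x⌋₊) (fun k => k.Prime)]
        have hsame : ∑ k ∈ (Finset.Ioc 0 ⌊x⌋₊).filter (fun k => k.Prime),
            ArithmeticFunction.vonMangoldt k =
            ∑ k ∈ (Finset.Ioc 0 ⌊x⌋₊).filter (fun k => k.Prime), Real.log (k : ℝ) := by
          refine Finset.sum_congr rfl fun k hk => ?_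
          rw [ArithmeticFunction.vonMangoldt_apply_prime (Finset.mem_filter.1 hk).2]
        rw [hsame, add_sub_cancel_left]
        calc ∑ p ∈ (Finset.Icc 1 ⌊x⌋₊).filter
              (fun p : ℕ => ¬ (p.Prime ∧ ((p : ℕ) : ZMod M) = a)), R p
            = ∑ p ∈ (Finset.Icc 1 ⌊x⌋₊).filter
              (fun p : ℕ => ¬ p.Prime ∧ ((p : ℕ) : ZMod M) = a), R p := by
              rw [Finset.sum_filter, Finset.sum_filter]
              refine Finset.sum_congr rfl fun p _ => ?_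
              by_cases hp1 : p.Prime <;> by_cases hp2 : ((p : ℕ) : ZMod M) = a
              · simp [hp1, hp2]
              · simp [hp1, hp2, hR0 p hp2]
              · simp [hp1, hp2]
              · simp [hp1, hp2, hR0 p hp2]
          _ ≤ ∑ p ∈ (Finset.Icc 1 ⌊x⌋₊).filter
              (fun p : ℕ => ¬ p.Prime ∧ ((p : ℕ) : ZMod M) = a),
              ArithmeticFunction.vonMangoldt p := Finset.sum_le_sum fun p _ =>
                ArithmeticFunction.vonMangoldt.residueClass_le a p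
          _ ≤ _ := by
              refine Finset.sum_le_sum_of_subset_of_nonneg ?_ fun k _ _ =>
                ArithmeticFunction.vonMangoldt_nonneg
              intro k hk
              rw [Finset.mem_filter, Finset.mem_Icc] at hk
              rw [Finset.mem_filter, Finset.mem_Ioc]
              exact ⟨⟨by omega, hk.1.2⟩, hk.2.1⟩
      exact hle.trans ((hC _).trans
        (mul_le_mul_of_nonneg_right (le_abs_self C) (Real.sqrt_nonneg _)))
    rw [e1]
    linarith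
  have hSx : |S x - x / (M.totient : ℝ)| ≤ ε / 2 * x := by
    have e1 : S x - x / (M.totient : ℝ) = (S x / x - (M.totient : ℝ)⁻¹) * x := by
      field_simp
    rw [e1, abs_mul, abs_of_pos hx0]
    exact mul_le_mul_of_nonneg_right hx1.le hx0.le
  rw [abs_le] at hSx ⊢
  constructor <;> linarith

/-- Proof. `PNT.pnt_residueClass` (the sum of `vonMangoldt.residueClass` up to `x` is `x/φ(M) + o(x)`) at
`(1+δ) y` and `y`; the prime powers contribute `O(√y)` (`Chebyshev.psi_sub_theta_le_mul_sqrt`; see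
the proof of `PP_card_ge` in `HH/DecA.lean`). -/
theorem pnt_log (M : ℕ) (hM : 1 ≤ M) (δ : ℝ) (hδ : 0 < δ) (hδ1 : δ ≤ 1) : ∃ y0 : ℝ, 2 ≤ y0 ∧
    ∀ y : ℝ, y0 ≤ y → ∀ a : ZMod M, IsUnit a →
    |∑ p ∈ (Pr y ((1 + δ) * y)).filter (fun p : ℕ => ((p : ℕ) : ZMod M) = a), Real.log p -
      δ * y / (M.totient : ℝ)| ≤ δ ^ 2 * y / (M.totient : ℝ) := by
  have : NeZero M := ⟨by omega⟩
  have hφ : (0 : ℝ) < (M.totient : ℝ) := by
    exact_mod_cast Nat.totient_pos.2 (by omega)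
  have hev : ∀ᶠ x : ℝ in Filter.atTop, ∀ a : ZMod M, IsUnit a →
      |DC16_G M a x - x / (M.totient : ℝ)| ≤ δ ^ 2 / (3 * M.totient) * x := by
    rw [Filter.eventually_all]
    intro a
    by_cases ha : IsUnit a
    · filter_upwards [DC16_ev hM ha (show 0 < δ ^ 2 / (3 * (M.totient : ℝ)) by positivity)]
        with x hx _ using hx
    · exact Filter.Eventually.of_forall fun x h => absurd h ha
  obtain ⟨y0, hy0⟩ := Filter.eventually_atTop.1 hev
  refine ⟨max y0 2, le_max_right _ _, fun y hy a ha => ?_⟩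
  have hy1 : y0 ≤ y := (le_max_left _ _).trans hy
  have hy2 : 2 ≤ y := (le_max_right _ _).trans hy
  have hyz : y ≤ (1 + δ) * y := by nlinarith
  rw [DC16_split a hyz]
  have h1 := hy0 y hy1 a ha
  have h2 := hy0 ((1 + δ) * y) (hy1.trans hyz) a ha
  have e1 : DC16_G M a ((1 + δ) * y) - DC16_G M a y - δ * y / (M.totient : ℝ) =
      (DC16_G M a ((1 + δ) * y) - (1 + δ) * y / (M.totient : ℝ)) -
        (DC16_G M a y - y / (M.totient : ℝ)) := by ring
  rw [e1]
  refine (abs_sub _ _).trans ((add_le_add h2 h1).trans ?_)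
  have e2 : δ ^ 2 / (3 * (M.totient : ℝ)) * ((1 + δ) * y) + δ ^ 2 / (3 * (M.totient : ℝ)) * y =
      (δ ^ 2 * y / (M.totient : ℝ)) * ((2 + δ) / 3) := by
    field_simp; ring
  rw [e2]
  have h3 : 0 ≤ δ ^ 2 * y / (M.totient : ℝ) := by positivity
  have h4 : (2 + δ) / 3 ≤ 1 := by linarith
  nlinarith

end

end Pool.Agent.Lib.MP_0b748d_nt.HD
end

section

set_option autoImplicit false

/-!
# Primes in short intervals, weighted by a class function
-/

namespace Pool.Agent.Lib.MP_0b748d_nt.HD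

open Zsqrtd MR

noncomputable section

private theorem DC17_mem {y z : ℝ} {p : ℕ} (hp : p ∈ Pr y z) : p.Prime ∧ y ≤ p ∧ (p : ℝ) < z := by
  unfold Pr at hp
  exact (Finset.mem_filter.1 hp).2

/-- comparison of the weights -/
private theorem DC17_w {y δ : ℝ} (hy : Real.exp 1 ≤ y) {x : ℝ} (h1 : y ≤ x)
    (h2 : x < (1 + δ) * y) :
    |1 / x - Real.log x / (y * Real.log y)| ≤ 2 * δ * (Real.log x / (y * Real.log y)) := by
  have hy0 : 0 < y := (Real.exp_pos 1).trans_le hy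
  have hx0 : 0 < x := hy0.trans_le h1
  have hly : 1 ≤ Real.log y := by rwa [Real.le_log_iff_exp_le hy0]
  have hlx : Real.log y ≤ Real.log x := Real.log_le_log hy0 h1
  have hδ : 0 < δ := by
    by_contra h
    rw [not_lt] at h
    nlinarith
  set t : ℝ := x / y - 1 with ht
  have ht0 : 0 ≤ t := by
    rw [ht, sub_nonneg, le_div_iff₀ hy0]; linarith
  have htδ : t ≤ δ := by
    rw [ht, sub_le_iff_le_add, div_le_iff₀ hy0]; linarith
  have hx : x = (1 + t) * y := by rw [ht]; field_simp; ring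
  have hlog : Real.log x = Real.log y + Real.log (1 + t) := by
    rw [hx, Real.log_mul (by linarith) hy0.ne']; ring
  have hl1 : 0 ≤ Real.log (1 + t) := Real.log_nonneg (by linarith)
  have hl2 : Real.log (1 + t) ≤ t := by
    have := Real.log_le_sub_one_of_pos (show 0 < 1 + t by linarith)
    linarith
  -- 1/x between (1-t)/y and 1/y
  have a1 : 1 / x ≤ 1 / y := one_div_le_one_div_of_le hy0 h1
  have a2 : (1 - t) / y ≤ 1 / x := by
    rw [div_le_div_iff₀ hy0 hx0, hx]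
    nlinarith [mul_nonneg (mul_nonneg ht0 ht0) hy0.le]
  have b1 : 1 / y ≤ Real.log x / (y * Real.log y) := by
    rw [div_le_div_iff₀ hy0 (by positivity)]
    nlinarith
  have b2 : Real.log x / (y * Real.log y) ≤ (1 + t) / y := by
    rw [div_le_div_iff₀ (by positivity) hy0]
    have : Real.log x ≤ (1 + t) * Real.log y := by
      rw [hlog]; nlinarith
    nlinarith
  have c1 : (1 + t) / y - (1 - t) / y = 2 * t * (1 / y) := by field_simp; ring
  have c2 : 2 * t * (1 / y) ≤ 2 * δ * (Real.log x / (y * Real.log y)) := by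
    have : 0 < 1 / y := by positivity
    calc 2 * t * (1 / y) ≤ 2 * δ * (1 / y) := by nlinarith
      _ ≤ _ := by
        apply mul_le_mul_of_nonneg_left b1 (by linarith)
  rw [abs_le]
  constructor
  · linarith
  · have : 1 / x - Real.log x / (y * Real.log y) ≤ 0 := by linarith
    have h3 : 0 ≤ 2 * δ * (Real.log x / (y * Real.log y)) := by
      have : 0 < 1 / y := by positivity
      have : 0 ≤ Real.log x / (y * Real.log y) := by linarith
      positivity
    linarith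

/-- Proof. For `p ∈ [y, (1+δ) y)`: `|1/p - log p/(y log y)| ≤ 3 δ log p/(y log y)` if
`log y ≥ 1`. Sum over the classes with `pnt_log`:
`∑_p ρ(p)/p = ∑_a ρ a (δ/(φ(M) log y)) + O(δ²/log y)`, where primes dividing `M` do not occur
(`y0 > M`) and `∑_p log p ≤ 2 δ y`. The constant is absolute. -/
theorem pnt_short : ∃ C : ℝ, 1 ≤ C ∧ ∀ M : ℕ, 1 ≤ M → ∀ δ : ℝ, 0 < δ → δ ≤ 1 → ∃ y0 : ℝ, 3 ≤ y0 ∧
    ∀ y : ℝ, y0 ≤ y → ∀ ρ : ZMod M → ℂ, (∀ a, ‖ρ a‖ ≤ 1) → (∀ a, ¬ IsUnit a → ρ a = 0) →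
    ‖∑ p ∈ Pr y ((1 + δ) * y), ρ ((p : ℕ) : ZMod M) / (p : ℂ) -
      (1 / (M.totient : ℂ)) * cs M ρ *
        ((δ / Real.log y : ℝ) : ℂ)‖ ≤ C * δ ^ 2 / Real.log y := by
  refine ⟨5, by norm_num, fun M hM δ hδ hδ1 => ?_⟩
  obtain ⟨y0, hy02, hy0⟩ := pnt_log M hM δ hδ hδ1
  have : NeZero M := ⟨by omega⟩
  have hφ : (0 : ℝ) < (M.totient : ℝ) := by
    exact_mod_cast Nat.totient_pos.2 (by omega)
  refine ⟨max y0 3, le_max_right _ _, fun y hy ρ hρ hρ0 => ?_⟩
  have hyy : y0 ≤ y := (le_max_left _ _).trans hy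
  have hy3 : 3 ≤ y := (le_max_right _ _).trans hy
  have hye : Real.exp 1 ≤ y := by
    have := Real.exp_one_lt_d9
    linarith
  have hy0' : 0 < y := by linarith
  have hly : 1 ≤ Real.log y := by rwa [Real.le_log_iff_exp_le hy0']
  set P := Pr y ((1 + δ) * y) with hP
  -- split into classes
  set A : ℕ → ℝ := fun i => ∑ p ∈ P.filter (fun p : ℕ => ((p : ℕ) : ZMod M) = ((i : ℕ) : ZMod M)),
    1 / (p : ℝ) with hA
  set L : ℕ → ℝ := fun i => ∑ p ∈ P.filter (fun p : ℕ => ((p : ℕ) : ZMod M) = ((i : ℕ) : ZMod M)),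
    Real.log p with hL
  have e1 : ∑ p ∈ P, ρ ((p : ℕ) : ZMod M) / (p : ℂ) =
      ∑ i ∈ Finset.range M, ρ ((i : ℕ) : ZMod M) * (A i : ℂ) := by
    rw [← Finset.sum_fiberwise_of_maps_to (s := P) (t := Finset.range M) (g := fun p => p % M)
      (fun p _ => Finset.mem_range.2 (Nat.mod_lt _ (by omega)))]
    refine Finset.sum_congr rfl fun i hi => ?_
    rw [Finset.mem_range] at hi
    have hf : P.filter (fun p => p % M = i) =
        P.filter (fun p : ℕ => ((p : ℕ) : ZMod M) = ((i : ℕ) : ZMod M)) := by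
      refine Finset.filter_congr fun p _ => ?_
      rw [ZMod.natCast_eq_natCast_iff', Nat.mod_eq_of_lt hi]
    rw [hf, hA]
    simp only
    push_cast
    rw [Finset.mul_sum]
    refine Finset.sum_congr rfl fun p hp => ?_
    rw [(Finset.mem_filter.1 hp).2]
    ring
  have e2 : (1 / (M.totient : ℂ)) * cs M ρ * ((δ / Real.log y : ℝ) : ℂ) =
      ∑ i ∈ Finset.range M, ρ ((i : ℕ) : ZMod M) *
        ((δ / Real.log y / (M.totient : ℝ) : ℝ) : ℂ) := by
    unfold cs
    rw [Finset.mul_sum, Finset.sum_mul]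
    refine Finset.sum_congr rfl fun i _ => ?_
    push_cast
    ring
  rw [e1, e2, ← Finset.sum_sub_distrib]
  refine (norm_sum_le _ _).trans ?_
  have hterm : ∀ i ∈ Finset.range M, ‖ρ ((i : ℕ) : ZMod M) * (A i : ℂ) - ρ ((i : ℕ) : ZMod M) *
      ((δ / Real.log y / (M.totient : ℝ) : ℝ) : ℂ)‖ ≤
      if M.Coprime i then 5 * δ ^ 2 / Real.log y / (M.totient : ℝ) else 0 := by
    intro i _
    by_cases hi : M.Coprime i
    · rw [if_pos hi]
      have hu : IsUnit ((i : ℕ) : ZMod M) := (ZMod.isUnit_iff_coprime i M).2 hi.symm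
      have h1 : |L i - δ * y / (M.totient : ℝ)| ≤ δ ^ 2 * y / (M.totient : ℝ) :=
        hy0 y hyy _ hu
      have h2 : |A i - L i / (y * Real.log y)| ≤ 2 * δ * (L i / (y * Real.log y)) := by
        have ee : A i - L i / (y * Real.log y) =
            ∑ p ∈ P.filter (fun p : ℕ => ((p : ℕ) : ZMod M) = ((i : ℕ) : ZMod M)),
              (1 / (p : ℝ) - Real.log p / (y * Real.log y)) := by
          rw [Finset.sum_sub_distrib, ← Finset.sum_div]
        have ee2 : 2 * δ * (L i / (y * Real.log y)) =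
            ∑ p ∈ P.filter (fun p : ℕ => ((p : ℕ) : ZMod M) = ((i : ℕ) : ZMod M)),
              2 * δ * (Real.log p / (y * Real.log y)) := by
          rw [← Finset.mul_sum, ← Finset.sum_div]
        rw [ee, ee2]
        refine (Finset.abs_sum_le_sum_abs _ _).trans (Finset.sum_le_sum fun p hp => ?_)
        obtain ⟨-, h3, h4⟩ := DC17_mem (Finset.mem_filter.1 hp).1
        exact DC17_w hye h3 h4
      have hyl : 0 < y * Real.log y := by positivity
      have h3 : |A i - δ / Real.log y / (M.totient : ℝ)| ≤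
          5 * δ ^ 2 / Real.log y / (M.totient : ℝ) := by
        have g1 : |L i / (y * Real.log y) - δ / Real.log y / (M.totient : ℝ)| ≤
            δ ^ 2 / Real.log y / (M.totient : ℝ) := by
          have : L i / (y * Real.log y) - δ / Real.log y / (M.totient : ℝ) =
              (L i - δ * y / (M.totient : ℝ)) / (y * Real.log y) := by
            field_simp
          rw [this, abs_div, abs_of_pos hyl, div_le_iff₀ hyl]
          refine h1.trans (le_of_eq ?_)
          field_simp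
        have g2 : L i / (y * Real.log y) ≤ 2 * δ / Real.log y / (M.totient : ℝ) := by
          have g3 := (abs_le.1 g1).2
          have g4 : δ ^ 2 / Real.log y / (M.totient : ℝ) ≤ δ / Real.log y / (M.totient : ℝ) := by
            have : δ ^ 2 ≤ δ := by nlinarith
            gcongr
          have g5 : 2 * δ / Real.log y / (M.totient : ℝ) =
              δ / Real.log y / (M.totient : ℝ) + δ / Real.log y / (M.totient : ℝ) := by ring
          rw [g5]
          linarith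
        have g6 : 2 * δ * (L i / (y * Real.log y)) ≤
            4 * δ ^ 2 / Real.log y / (M.totient : ℝ) := by
          calc 2 * δ * (L i / (y * Real.log y))
              ≤ 2 * δ * (2 * δ / Real.log y / (M.totient : ℝ)) :=
                mul_le_mul_of_nonneg_left g2 (by linarith)
            _ = 4 * δ ^ 2 / Real.log y / (M.totient : ℝ) := by ring
        calc |A i - δ / Real.log y / (M.totient : ℝ)|
            = |(A i - L i / (y * Real.log y)) +
                (L i / (y * Real.log y) - δ / Real.log y / (M.totient : ℝ))| := by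
              congr 1; ring
          _ ≤ 4 * δ ^ 2 / Real.log y / (M.totient : ℝ) + δ ^ 2 / Real.log y / (M.totient : ℝ) :=
              (abs_add_le _ _).trans (add_le_add (h2.trans g6) g1)
          _ = 5 * δ ^ 2 / Real.log y / (M.totient : ℝ) := by ring
      rw [← mul_sub, _root_.norm_mul, ← Complex.ofReal_sub, Complex.norm_real, Real.norm_eq_abs]
      calc ‖ρ ((i : ℕ) : ZMod M)‖ * |A i - δ / Real.log y / (M.totient : ℝ)|
          ≤ 1 * (5 * δ ^ 2 / Real.log y / (M.totient : ℝ)) :=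
            mul_le_mul (hρ _) h3 (abs_nonneg _) zero_le_one
        _ = _ := one_mul _
    · rw [if_neg hi]
      have hu : ¬ IsUnit ((i : ℕ) : ZMod M) := fun h =>
        hi ((ZMod.isUnit_iff_coprime i M).1 h).symm
      rw [hρ0 _ hu, zero_mul, zero_mul, sub_zero, _root_.norm_zero]
  refine (Finset.sum_le_sum hterm).trans (le_of_eq ?_)
  rw [← Finset.sum_filter, Finset.sum_const, nsmul_eq_mul, ← Nat.totient_eq_card_coprime]
  field_simp

end

end Pool.Agent.Lib.MP_0b748d_nt.HD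
end

section

set_option autoImplicit false

/-!
# Blocks of short intervals
-/

namespace Pool.Agent.Lib.MP_0b748d_nt.HD

open Zsqrtd MR

noncomputable section

/-- the end points -/
def yi (y0 δ : ℝ) (i : ℕ) : ℝ := y0 * (1 + δ) ^ i

/-- the total weight of the block -/
def Ln (y0 δ : ℝ) (n : ℕ) : ℝ := ∑ i ∈ Finset.range n, δ / Real.log (yi y0 δ i)

/-- Proof. `log (yi i) = log y0 + i log (1+δ)`: harmonic series. -/
theorem Ln_tendsto (y0 δ : ℝ) (hy : 3 ≤ y0) (hδ : 0 < δ) :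
    Filter.Tendsto (fun n => Ln y0 δ n) Filter.atTop Filter.atTop := by
  have hl0 : 0 < Real.log y0 := Real.log_pos (by linarith)
  have hl1 : 0 < Real.log (1 + δ) := Real.log_pos (by linarith)
  set K : ℝ := Real.log y0 + Real.log (1 + δ) with hK
  have hK0 : 0 < K := by linarith
  have h1 : Filter.Tendsto (fun n : ℕ => δ / K * ∑ i ∈ Finset.range n, 1 / ((i : ℝ) + 1))
      Filter.atTop Filter.atTop :=
    Real.tendsto_sum_range_one_div_nat_succ_atTop.const_mul_atTop (by positivity)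
  refine Filter.tendsto_atTop_mono (fun n => ?_) h1
  unfold Ln
  rw [Finset.mul_sum]
  refine Finset.sum_le_sum fun i _ => ?_
  have hlog : Real.log (yi y0 δ i) = Real.log y0 + i * Real.log (1 + δ) := by
    unfold yi
    rw [Real.log_mul (by linarith) (by positivity), Real.log_pow]
  rw [hlog]
  have hi : (0 : ℝ) ≤ i := Nat.cast_nonneg i
  have h2 : Real.log y0 + i * Real.log (1 + δ) ≤ K * (i + 1) := by
    rw [hK]; nlinarith
  have h3 : 0 < Real.log y0 + i * Real.log (1 + δ) := by positivity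
  calc δ / K * (1 / ((i : ℝ) + 1)) = δ / (K * (i + 1)) := by field_simp
    _ ≤ δ / (Real.log y0 + i * Real.log (1 + δ)) := by gcongr

private theorem DC18_split {x y z : ℝ} (hxy : x ≤ y) (hyz : y ≤ z) (F : ℕ → ℂ) :
    ∑ p ∈ Pr x z, F p = ∑ p ∈ Pr x y, F p + ∑ p ∈ Pr y z, F p := by
  classical
  have hmem : ∀ (a b : ℝ) (p : ℕ), p ∈ Pr a b ↔ (p.Prime ∧ a ≤ p ∧ (p : ℝ) < b) := by
    intro a b p
    unfold Pr
    rw [Finset.mem_filter, Finset.mem_range]
    constructor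
    · exact fun h => h.2
    · intro h
      refine ⟨?_, h⟩
      have := Nat.lt_ceil.2 h.2.2
      omega
  have hd : Pr x z = Pr x y ∪ Pr y z := by
    ext p
    rw [Finset.mem_union, hmem, hmem, hmem]
    constructor
    · rintro ⟨h1, h2, h3⟩
      by_cases h : (p : ℝ) < y
      · exact Or.inl ⟨h1, h2, h⟩
      · exact Or.inr ⟨h1, not_lt.1 h, h3⟩
    · rintro (⟨h1, h2, h3⟩ | ⟨h1, h2, h3⟩)
      · exact ⟨h1, h2, h3.trans_le hyz⟩
      · exact ⟨h1, hxy.trans h2, h3⟩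
  rw [hd, Finset.sum_union]
  rw [Finset.disjoint_left]
  intro p hp hp2
  rw [hmem] at hp hp2
  exact absurd hp.2.2 (not_lt.2 hp2.2.1)

/-- Proof. `Pr y0 (yi n)` is the disjoint union of `Pr (yi i) (yi (i+1))`. On each of them replace
`φ p` by `Φ i` (error `L δ ∑ 1/p ≤ L δ C δ/log (yi i)`) and use `pnt_short` (error
`B C δ²/log (yi i)`). The sum of `1/p` over `Pr (yi i) (yi (i+1))` is at most `C δ/log (yi i)` (from
`pnt_short` with `ρ = 1` on units; `p > M`). -/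
theorem block_sum : ∃ C : ℝ, 1 ≤ C ∧ ∀ M : ℕ, 1 ≤ M → ∀ δ : ℝ, 0 < δ → δ ≤ 1 → ∃ y1 : ℝ, 3 ≤ y1 ∧
    ∀ y0 : ℝ, y1 ≤ y0 → ∀ ρ : ZMod M → ℂ, (∀ a, ‖ρ a‖ ≤ 1) → (∀ a, ¬ IsUnit a → ρ a = 0) →
    ∀ (n : ℕ) (φ Φ : ℕ → ℂ) (B L : ℝ), 0 ≤ B → 0 ≤ L → (∀ i, i < n → ‖Φ i‖ ≤ B) →
    (∀ i, i < n → ∀ p ∈ Pr (yi y0 δ i) (yi y0 δ (i + 1)), ‖φ p - Φ i‖ ≤ L * δ) →
    ‖∑ p ∈ Pr y0 (yi y0 δ n), ρ ((p : ℕ) : ZMod M) / (p : ℂ) * φ p -
      (1 / (M.totient : ℂ)) * cs M ρ *
        ∑ i ∈ Finset.range n, Φ i * ((δ / Real.log (yi y0 δ i) : ℝ) : ℂ)‖ ≤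
      C * (B + L) * δ * Ln y0 δ n := by
  classical
  obtain ⟨C1, hC1, hmain⟩ := pnt_short
  refine ⟨1 + C1, by linarith, fun M hM δ hδ hδ1 => ?_⟩
  obtain ⟨y1, hy1, hmain⟩ := hmain M hM δ hδ hδ1
  refine ⟨y1, hy1, fun y0 hy0 ρ hρ hρ0 n φ Φ B L hB hL hΦ hφ => ?_⟩
  have hM0 : NeZero M := ⟨by omega⟩
  have hyi : ∀ i, y0 ≤ yi y0 δ i := by
    intro i
    unfold yi
    have : 1 ≤ (1 + δ) ^ i := one_le_pow₀ (by linarith)
    nlinarith
  have hyis : ∀ i, yi y0 δ (i + 1) = (1 + δ) * yi y0 δ i := by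
    intro i
    unfold yi
    rw [pow_succ]; ring
  have hyi0 : yi y0 δ 0 = y0 := by unfold yi; simp
  have hlogi : ∀ i, 0 < Real.log (yi y0 δ i) := fun i =>
    Real.log_pos (by linarith [hyi i])
  -- the sum of the reciprocals
  set ρ1 : ZMod M → ℂ := fun a => if IsUnit a then 1 else 0 with hρ1
  have hcs : cs M ρ1 = (M.totient : ℂ) := by
    unfold cs
    rw [Nat.totient_eq_card_coprime, hρ1]
    simp only
    rw [← Finset.sum_filter, Finset.sum_const, nsmul_eq_mul, mul_one]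
    congr 2
    refine Finset.filter_congr fun i _ => ?_
    rw [ZMod.isUnit_iff_coprime]
    exact Nat.coprime_comm
  have hφM : (M.totient : ℂ) ≠ 0 := by
    have : 0 < M.totient := Nat.totient_pos.2 (by omega)
    exact_mod_cast this.ne'
  have hrec : ∀ i, ∑ p ∈ Pr (yi y0 δ i) (yi y0 δ (i + 1)), ‖ρ ((p : ℕ) : ZMod M)‖ / (p : ℝ) ≤
      (1 + C1) * (δ / Real.log (yi y0 δ i)) := by
    intro i
    have h1 := hmain (yi y0 δ i) (hy0.trans (hyi i)) ρ1 (by
      intro a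
      rw [hρ1]
      simp only
      split_ifs <;> simp) (by
      intro a ha
      rw [hρ1]
      simp only
      rw [if_neg ha])
    rw [← hyis, hcs, one_div, inv_mul_cancel₀ hφM, one_mul] at h1
    set X : ℝ := ∑ p ∈ Pr (yi y0 δ i) (yi y0 δ (i + 1)),
      (if IsUnit ((p : ℕ) : ZMod M) then (1 : ℝ) else 0) / (p : ℝ) with hX
    have h2 : ∑ p ∈ Pr (yi y0 δ i) (yi y0 δ (i + 1)), ρ1 ((p : ℕ) : ZMod M) / (p : ℂ) =
        (X : ℂ) := by
      rw [hX, hρ1]
      push_cast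
      refine Finset.sum_congr rfl fun p _ => ?_
      split_ifs <;> simp
    rw [h2, ← Complex.ofReal_sub, Complex.norm_real, Real.norm_eq_abs] at h1
    have h3 := (abs_le.1 h1).2
    have h4 : C1 * δ ^ 2 / Real.log (yi y0 δ i) ≤ C1 * (δ / Real.log (yi y0 δ i)) := by
      have : C1 * (δ / Real.log (yi y0 δ i)) = C1 * δ / Real.log (yi y0 δ i) := by ring
      rw [this]
      have h6 : δ ^ 2 ≤ δ := by nlinarith
      have h5 : C1 * δ ^ 2 ≤ C1 * δ := mul_le_mul_of_nonneg_left h6 (by linarith)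
      exact div_le_div_of_nonneg_right h5 (hlogi i).le
    calc ∑ p ∈ Pr (yi y0 δ i) (yi y0 δ (i + 1)), ‖ρ ((p : ℕ) : ZMod M)‖ / (p : ℝ)
        ≤ X := by
          rw [hX]
          refine Finset.sum_le_sum fun p _ => ?_
          refine div_le_div_of_nonneg_right ?_ (Nat.cast_nonneg p)
          split_ifs with hu
          · exact hρ _
          · rw [hρ0 _ hu, _root_.norm_zero]
      _ ≤ (1 + C1) * (δ / Real.log (yi y0 δ i)) := by linarith
  -- one interval
  have hone : ∀ i, i < n → ‖∑ p ∈ Pr (yi y0 δ i) (yi y0 δ (i + 1)),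
      ρ ((p : ℕ) : ZMod M) / (p : ℂ) * φ p -
      (1 / (M.totient : ℂ)) * cs M ρ * (Φ i * ((δ / Real.log (yi y0 δ i) : ℝ) : ℂ))‖ ≤
      (1 + C1) * (B + L) * δ * (δ / Real.log (yi y0 δ i)) := by
    intro i hi
    have h1 := hmain (yi y0 δ i) (hy0.trans (hyi i)) ρ hρ hρ0
    rw [← hyis] at h1
    have e1 : ∑ p ∈ Pr (yi y0 δ i) (yi y0 δ (i + 1)), ρ ((p : ℕ) : ZMod M) / (p : ℂ) * φ p -
        (1 / (M.totient : ℂ)) * cs M ρ * (Φ i * ((δ / Real.log (yi y0 δ i) : ℝ) : ℂ)) =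
        ∑ p ∈ Pr (yi y0 δ i) (yi y0 δ (i + 1)), ρ ((p : ℕ) : ZMod M) / (p : ℂ) * (φ p - Φ i) +
        Φ i * (∑ p ∈ Pr (yi y0 δ i) (yi y0 δ (i + 1)), ρ ((p : ℕ) : ZMod M) / (p : ℂ) -
        (1 / (M.totient : ℂ)) * cs M ρ * ((δ / Real.log (yi y0 δ i) : ℝ) : ℂ)) := by
      rw [mul_sub, Finset.mul_sum]
      have : ∑ p ∈ Pr (yi y0 δ i) (yi y0 δ (i + 1)), ρ ((p : ℕ) : ZMod M) / (p : ℂ) * (φ p - Φ i) =
          ∑ p ∈ Pr (yi y0 δ i) (yi y0 δ (i + 1)), ρ ((p : ℕ) : ZMod M) / (p : ℂ) * φ p -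
          ∑ p ∈ Pr (yi y0 δ i) (yi y0 δ (i + 1)), Φ i * (ρ ((p : ℕ) : ZMod M) / (p : ℂ)) := by
        rw [← Finset.sum_sub_distrib]
        refine Finset.sum_congr rfl fun p _ => by ring
      rw [this]
      ring
    rw [e1]
    have a1 : ‖∑ p ∈ Pr (yi y0 δ i) (yi y0 δ (i + 1)),
        ρ ((p : ℕ) : ZMod M) / (p : ℂ) * (φ p - Φ i)‖ ≤
        L * δ * ((1 + C1) * (δ / Real.log (yi y0 δ i))) := by
      refine (norm_sum_le _ _).trans ?_
      calc ∑ p ∈ Pr (yi y0 δ i) (yi y0 δ (i + 1)), ‖ρ ((p : ℕ) : ZMod M) / (p : ℂ) * (φ p - Φ i)‖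
          ≤ ∑ p ∈ Pr (yi y0 δ i) (yi y0 δ (i + 1)),
            L * δ * (‖ρ ((p : ℕ) : ZMod M)‖ / (p : ℝ)) := by
            refine Finset.sum_le_sum fun p hp => ?_
            rw [_root_.norm_mul, norm_div, Complex.norm_natCast, mul_comm]
            exact mul_le_mul_of_nonneg_right (hφ i hi p hp) (by positivity)
        _ = L * δ * ∑ p ∈ Pr (yi y0 δ i) (yi y0 δ (i + 1)),
            (‖ρ ((p : ℕ) : ZMod M)‖ / (p : ℝ)) := by rw [Finset.mul_sum]
        _ ≤ _ := mul_le_mul_of_nonneg_left (hrec i) (by positivity)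
    have a2 : ‖Φ i * (∑ p ∈ Pr (yi y0 δ i) (yi y0 δ (i + 1)), ρ ((p : ℕ) : ZMod M) / (p : ℂ) -
        (1 / (M.totient : ℂ)) * cs M ρ * ((δ / Real.log (yi y0 δ i) : ℝ) : ℂ))‖ ≤
        B * (C1 * δ ^ 2 / Real.log (yi y0 δ i)) := by
      rw [_root_.norm_mul]
      exact mul_le_mul (hΦ i hi) h1 (_root_.norm_nonneg _) hB
    refine (norm_add_le _ _).trans ((add_le_add a1 a2).trans ?_)
    have e2 : L * δ * ((1 + C1) * (δ / Real.log (yi y0 δ i))) +
        B * (C1 * δ ^ 2 / Real.log (yi y0 δ i)) =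
        ((1 + C1) * L + C1 * B) * (δ * (δ / Real.log (yi y0 δ i))) := by ring
    have e3 : (1 + C1) * (B + L) * δ * (δ / Real.log (yi y0 δ i)) =
        ((1 + C1) * (B + L)) * (δ * (δ / Real.log (yi y0 δ i))) := by ring
    rw [e2, e3]
    refine mul_le_mul_of_nonneg_right (by nlinarith) ?_
    have := (hlogi i).le
    positivity
  -- induction
  have hind : ∀ m, m ≤ n → ‖∑ p ∈ Pr y0 (yi y0 δ m), ρ ((p : ℕ) : ZMod M) / (p : ℂ) * φ p -
      (1 / (M.totient : ℂ)) * cs M ρ *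
        ∑ i ∈ Finset.range m, Φ i * ((δ / Real.log (yi y0 δ i) : ℝ) : ℂ)‖ ≤
      (1 + C1) * (B + L) * δ * Ln y0 δ m := by
    intro m
    induction m with
    | zero =>
      intro _
      have : Pr y0 (yi y0 δ 0) = ∅ := by
        rw [hyi0]
        unfold Pr
        rw [Finset.filter_eq_empty_iff]
        rintro p - ⟨-, h1, h2⟩
        exact absurd h2 (not_lt.2 h1)
      rw [this]
      unfold Ln
      simp
    | succ m ih =>
      intro hm
      have h1 := ih (by omega)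
      have h2 := hone m (by omega)
      have hle : yi y0 δ m ≤ yi y0 δ (m + 1) := by
        rw [hyis]
        nlinarith [hyi m]
      rw [DC18_split (hyi m) hle, Finset.sum_range_succ]
      unfold Ln
      rw [Finset.sum_range_succ]
      have e4 : ∑ p ∈ Pr y0 (yi y0 δ m), ρ ((p : ℕ) : ZMod M) / (p : ℂ) * φ p +
          ∑ p ∈ Pr (yi y0 δ m) (yi y0 δ (m + 1)), ρ ((p : ℕ) : ZMod M) / (p : ℂ) * φ p -
          (1 / (M.totient : ℂ)) * cs M ρ *
          (∑ i ∈ Finset.range m, Φ i * ((δ / Real.log (yi y0 δ i) : ℝ) : ℂ) +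
            Φ m * ((δ / Real.log (yi y0 δ m) : ℝ) : ℂ)) =
          (∑ p ∈ Pr y0 (yi y0 δ m), ρ ((p : ℕ) : ZMod M) / (p : ℂ) * φ p -
          (1 / (M.totient : ℂ)) * cs M ρ *
          ∑ i ∈ Finset.range m, Φ i * ((δ / Real.log (yi y0 δ i) : ℝ) : ℂ)) +
          (∑ p ∈ Pr (yi y0 δ m) (yi y0 δ (m + 1)), ρ ((p : ℕ) : ZMod M) / (p : ℂ) * φ p -
          (1 / (M.totient : ℂ)) * cs M ρ * (Φ m * ((δ / Real.log (yi y0 δ m) : ℝ) : ℂ))) := by
        ring
      rw [e4, mul_add]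
      unfold Ln at h1
      exact (norm_add_le _ _).trans (add_le_add h1 h2)
  exact hind n le_rfl

end

end Pool.Agent.Lib.MP_0b748d_nt.HD
end
end
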