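import Pool.Agent.Lib.MP_0b748d_nt.HH.DC7
import Pool.Agent.Lib.MP_0b748d_nt.HH.DC18
import Pool.Agent.Lib.MP_0b748d_nt.MR.Cheb
import Pool.Agent.Lib.MP_0b748d_nt.MR.ParamsX

section

set_option autoImplicit false

/-!
# Blocks for nontrivial characters
-/

namespace Pool.Agent.Lib.MP_0b748d_nt.HD

open Zsqrtd MR

noncomputable section

/-- Proof. `M_low` (primes `≡ 1 mod 8`). -/
theorem SQ_tendsto : Filter.Tendsto (fun Q : ℕ => WI (SQ Q)) Filter.atTop Filter.atTop := by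
  classical
  obtain ⟨c, K, hc, hK, hM⟩ := M_low
  have h1 : Filter.Tendsto (fun Q : ℕ => c * Real.log (Real.log (Q : ℝ) / Real.log 2) - K)
      Filter.atTop Filter.atTop := by
    have h2 : Filter.Tendsto (fun Q : ℕ => Real.log (Q : ℝ)) Filter.atTop Filter.atTop :=
      Real.tendsto_log_atTop.comp tendsto_natCast_atTop_atTop
    have h3 : Filter.Tendsto (fun Q : ℕ => Real.log (Q : ℝ) / Real.log 2)
        Filter.atTop Filter.atTop :=
      h2.atTop_div_const (Real.log_pos (by norm_num))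
    have h4 : Filter.Tendsto (fun Q : ℕ => c * Real.log (Real.log (Q : ℝ) / Real.log 2))
        Filter.atTop Filter.atTop :=
      (Real.tendsto_log_atTop.comp h3).const_mul_atTop hc
    exact Filter.tendsto_atTop_add_const_right _ (-K) h4
  refine Filter.tendsto_atTop_mono' _ ?_ h1
  filter_upwards [Filter.eventually_ge_atTop 2] with Q hQ
  refine (hM 2 Q le_rfl (by exact_mod_cast hQ)).trans ?_
  unfold Wp WI
  refine Finset.sum_le_sum_of_subset_of_nonneg ?_ fun p _ _ => by positivity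
  intro p hp
  rw [mem_Ip] at hp
  unfold SQ
  rw [Finset.mem_filter, Finset.mem_range]
  exact ⟨by exact_mod_cast hp.2.2.2, hp.1, Or.inl hp.2.1⟩

/-- Proof. `exists_block` with `d p = 2/p`, `c p = (2 - Re (η (el p true) + η (el p false)))/p` for
split `p`, both `0` otherwise, and `prime_upper` with `σ = 1 + s`. -/
theorem eta_block {W : ℕ} (hW : 1 ≤ W) (hW2 : W % 2 = 0) {η : ℤ√2 → ℂ} (h : Hc W η)
    (hu : η uu = 1) {z0 : ℤ√2} (hz0 : Cp W z0) (hne : η z0 ≠ 1) (W0 : ℝ) : ∃ Q : ℕ,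
    W0 ≤ WI (SQ Q) ∧
    (1 / 2) * WI (SQ Q) ≤ ∑ p ∈ SQ Q, (2 - (η (el p true) + η (el p false)).re) / (p : ℝ) := by
  classical
  obtain ⟨C, hC1, hC⟩ := prime_upper hW hW2 h hu hz0 hne
  let d : ℕ → ℝ := fun n => if Sp n then 2 / (n : ℝ) else 0
  let c : ℕ → ℝ := fun n => if Sp n then (2 - (η (el n true) + η (el n false)).re) / (n : ℝ) else 0
  have hsum : ∀ (F : ℕ → ℝ) (N : ℕ),
      ∑ n ∈ Finset.range N, (if Sp n then F n else 0) = ∑ p ∈ SQ N, F p := by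
    intro F N
    unfold SQ
    rw [Finset.sum_filter]
  have h0 : ¬ Sp 0 := fun h0 => Nat.not_prime_zero h0.1
  have hre : ∀ z : ℤ√2, |(η z).re| ≤ 1 := fun z => (Complex.abs_re_le_norm _).trans (h.le z)
  obtain ⟨N, hN1, hN2⟩ := exists_block c d (by simp [c, h0]) (by simp [d, h0]) (by
      intro n
      simp only [d]
      split_ifs <;> positivity) (by
      intro n
      simp only [c, d]
      split_ifs with hn
      · have hn0 : (0 : ℝ) < n := by exact_mod_cast hn.1.pos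
        have e1 := abs_le.mp (hre (el n true))
        have e2 := abs_le.mp (hre (el n false))
        rw [Complex.add_re]
        constructor
        · apply div_nonneg _ hn0.le
          linarith [e1.2, e2.2]
        · rw [← mul_div_assoc]
          apply div_le_div_of_nonneg_right _ hn0.le
          linarith [e1.1, e2.1]
      · simp) (by
      have : (fun N : ℕ => ∑ n ∈ Finset.range N, d n) = fun Q : ℕ => WI (SQ Q) := by
        funext N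
        exact hsum (fun n => 2 / (n : ℝ)) N
      rw [this]
      exact SQ_tendsto) ⟨C, by
      intro s hs hs1
      obtain ⟨N0, hN0⟩ := hC (1 + s) (by linarith) (by linarith)
      refine ⟨N0, fun N hN => ?_⟩
      refine le_trans (le_of_eq ?_) (hN0 N hN)
      rw [← hsum (fun p => (η (el p true) + η (el p false)).re * (p : ℝ) ^ (-(1 + s))) N]
      apply Finset.sum_congr rfl
      intro n _
      simp only [c, d]
      split_ifs with hn
      · have hn0 : (0 : ℝ) < n := by exact_mod_cast hn.1.pos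
        rw [show -(1 + s) = -1 + -s by ring, Real.rpow_add hn0, Real.rpow_neg_one]
        field_simp
        ring
      · simp⟩ W0
  refine ⟨N, ?_, ?_⟩
  · rw [hsum (fun n => 2 / (n : ℝ)) N] at hN1
    exact hN1
  · rw [hsum (fun n => 2 / (n : ℝ)) N,
      hsum (fun n => (2 - (η (el n true) + η (el n false)).re) / (n : ℝ)) N] at hN2
    exact hN2

end

end Pool.Agent.Lib.MP_0b748d_nt.HD
end

section

set_option autoImplicit false

/-!
# Symmetric characters which are not trivial on split primes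
-/

namespace Pool.Agent.Lib.MP_0b748d_nt.HD

open Zsqrtd MR

noncomputable section

open Classical in
/-- the split primes of the block -/
def Ib (y0 δ : ℝ) (n : ℕ) : Finset ℕ := (Pr y0 (yi y0 δ n)).filter Sp

/-- the indicator of the classes `1` and `7` modulo `8` -/
def DC19_r (a : ZMod 8) : ℂ := if a = 1 ∨ a = 7 then 1 else 0

theorem DC19_r_le (a : ZMod 8) : ‖DC19_r a‖ ≤ 1 := by
  unfold DC19_r
  split_ifs <;> simp

theorem DC19_r_unit (a : ZMod 8) (ha : ¬ IsUnit a) : DC19_r a = 0 := by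
  unfold DC19_r
  rw [if_neg]
  rintro (h | h)
  · exact ha (h ▸ isUnit_one)
  · exact ha (h ▸ IsUnit.of_mul_eq_one (7 : ZMod 8) (by decide))

theorem DC19_cs : cs 8 DC19_r = 2 := by
  unfold cs DC19_r
  simp only [Finset.sum_range_succ, Finset.sum_range_zero]
  have h0 : ¬ (((0 : ℕ) : ZMod 8) = 1 ∨ ((0 : ℕ) : ZMod 8) = 7) := by decide
  have h1 : (((1 : ℕ) : ZMod 8) = 1 ∨ ((1 : ℕ) : ZMod 8) = 7) := by decide
  have h2 : ¬ (((2 : ℕ) : ZMod 8) = 1 ∨ ((2 : ℕ) : ZMod 8) = 7) := by decide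
  have h3 : ¬ (((3 : ℕ) : ZMod 8) = 1 ∨ ((3 : ℕ) : ZMod 8) = 7) := by decide
  have h4 : ¬ (((4 : ℕ) : ZMod 8) = 1 ∨ ((4 : ℕ) : ZMod 8) = 7) := by decide
  have h5 : ¬ (((5 : ℕ) : ZMod 8) = 1 ∨ ((5 : ℕ) : ZMod 8) = 7) := by decide
  have h6 : ¬ (((6 : ℕ) : ZMod 8) = 1 ∨ ((6 : ℕ) : ZMod 8) = 7) := by decide
  have h7 : (((7 : ℕ) : ZMod 8) = 1 ∨ ((7 : ℕ) : ZMod 8) = 7) := by decide
  rw [if_neg h0, if_pos h1, if_neg h2, if_neg h3, if_neg h4, if_neg h5, if_neg h6, if_pos h7]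
  norm_num

theorem DC19_r_prime {p : ℕ} (hp : p.Prime) [Decidable (Sp p)] :
    DC19_r ((p : ℕ) : ZMod 8) = if Sp p then 1 else 0 := by
  have e1 : ((p : ℕ) : ZMod 8) = 1 ↔ p % 8 = 1 := by
    have := ZMod.natCast_eq_natCast_iff' p 1 8
    simpa using this
  have e7 : ((p : ℕ) : ZMod 8) = 7 ↔ p % 8 = 7 := by
    have := ZMod.natCast_eq_natCast_iff' p 7 8
    simpa using this
  unfold DC19_r
  by_cases h : Sp p
  · rw [if_pos h, if_pos]
    rw [e1, e7]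
    exact h.2
  · rw [if_neg h, if_neg]
    rw [e1, e7]
    exact fun h2 => h ⟨hp, h2⟩

theorem DC19_Pr {y z : ℝ} {p : ℕ} (hp : p ∈ Pr y z) : p.Prime ∧ y ≤ p ∧ (p : ℝ) < z := by
  unfold Pr at hp
  rw [Finset.mem_filter] at hp
  exact hp.2

theorem DC19_tot : (Nat.totient 8 : ℂ) = 4 := by
  have : Nat.totient 8 = 4 := by decide
  rw [this]
  norm_num

/-- the weight of a block as a sum over all primes of the block -/
theorem DC19_WI (y0 δ : ℝ) (n : ℕ) (φ : ℕ → ℂ) :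
    ∑ p ∈ Ib y0 δ n, (2 / (p : ℂ)) * φ p =
      2 * ∑ p ∈ Pr y0 (yi y0 δ n), DC19_r ((p : ℕ) : ZMod 8) / (p : ℂ) * φ p := by
  classical
  unfold Ib
  rw [Finset.sum_filter, Finset.mul_sum]
  refine Finset.sum_congr rfl (fun p hp => ?_)
  rw [DC19_r_prime (DC19_Pr hp).1]
  by_cases h : Sp p
  · rw [if_pos h, if_pos h]
    ring
  · rw [if_neg h, if_neg h]
    ring

theorem DC19_Ln0 {y0 δ : ℝ} (hy : 3 ≤ y0) (hδ : 0 < δ) (n : ℕ) : 0 ≤ Ln y0 δ n := by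
  unfold Ln
  apply Finset.sum_nonneg
  intro i _
  apply div_nonneg hδ.le
  apply Real.log_nonneg
  unfold yi
  have : 1 ≤ (1 + δ) ^ i := one_le_pow₀ (by linarith)
  nlinarith

/-- Proof. `block_sum` with `φ = Φ = 1` and `ρ` the indicator of the split unit classes (half of the
unit classes: `a ↦ 3 a`.. modulo `8`): `WI = 2 ∑ 1/p = Ln (1 + O(δ))`, here only a lower bound with
some constant is needed. -/
theorem WI_block (W : ℕ) (hW : 1 ≤ W) : ∃ C : ℝ, 1 ≤ C ∧ ∀ δ : ℝ, 0 < δ → δ ≤ 1 → ∃ y1 : ℝ,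
    3 ≤ y1 ∧ (W : ℝ) < y1 ∧ ∀ y0 : ℝ, y1 ≤ y0 → ∀ n : ℕ,
    |WI (Ib y0 δ n) - Ln y0 δ n| ≤ C * δ * Ln y0 δ n := by
  obtain ⟨C, hC1, hC⟩ := block_sum
  refine ⟨2 * C, by linarith, fun δ hδ hδ1 => ?_⟩
  obtain ⟨y1, hy1, hb⟩ := hC 8 (by norm_num) δ hδ hδ1
  refine ⟨max y1 ((W : ℝ) + 1), hy1.trans (le_max_left _ _), ?_, ?_⟩
  · exact lt_of_lt_of_le (lt_add_one _) (le_max_right _ _)
  · intro y0 hy0 n
    have h := hb y0 ((le_max_left _ _).trans hy0) DC19_r DC19_r_le DC19_r_unit n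
      (fun _ => 1) (fun _ => 1) 1 0 zero_le_one le_rfl (fun _ _ => by simp)
      (fun _ _ _ _ => by simp)
    have e1 : ((WI (Ib y0 δ n) : ℝ) : ℂ) = ∑ p ∈ Ib y0 δ n, (2 / (p : ℂ)) * 1 := by
      unfold WI
      push_cast
      exact Finset.sum_congr rfl (fun p _ => (mul_one _).symm)
    rw [DC19_WI y0 δ n (fun _ => 1)] at e1
    have e2 : ((Ln y0 δ n : ℝ) : ℂ) = ∑ i ∈ Finset.range n, 1 *
        ((δ / Real.log (yi y0 δ i) : ℝ) : ℂ) := by
      unfold Ln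
      push_cast
      exact Finset.sum_congr rfl (fun p _ => (one_mul _).symm)
    rw [DC19_cs, DC19_tot, ← e2] at h
    have e3 : ((WI (Ib y0 δ n) - Ln y0 δ n : ℝ) : ℂ) =
        2 * (∑ p ∈ Pr y0 (yi y0 δ n), DC19_r ((p : ℕ) : ZMod 8) / (p : ℂ) * 1 -
          1 / 4 * 2 * ((Ln y0 δ n : ℝ) : ℂ)) := by
      push_cast
      rw [e1]
      ring
    rw [← Real.norm_eq_abs, ← Complex.norm_real, e3, _root_.norm_mul]
    have e4 : ‖(2 : ℂ)‖ = 2 := by norm_num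
    rw [e4]
    have e5 : 2 * (C * (1 + 0) * δ * Ln y0 δ n) = 2 * C * δ * Ln y0 δ n := by ring
    linarith

theorem DC19_yi_pos {y0 δ : ℝ} (hy : 3 ≤ y0) (hδ : 0 < δ) (i : ℕ) : 0 < yi y0 δ i := by
  unfold yi
  positivity

theorem DC19_yi_mono {y0 δ : ℝ} (hy : 3 ≤ y0) (hδ : 0 < δ) {i j : ℕ} (hij : i ≤ j) :
    yi y0 δ i ≤ yi y0 δ j := by
  unfold yi
  apply mul_le_mul_of_nonneg_left _ (by linarith)
  exact pow_le_pow_right₀ (by linarith) hij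

theorem DC19_yi_succ (y0 δ : ℝ) (i : ℕ) : yi y0 δ (i + 1) = (1 + δ) * yi y0 δ i := by
  unfold yi
  rw [pow_succ]
  ring

/-- slow variation on the intervals of a block -/
theorem DC19_slow {C3 δ Xs : ℝ} (hδ : 0 < δ) {f : ℤ√2 → ℂ} (hf : MF f)
    (hs : ∀ X : ℝ, Xs ≤ X → ∀ X' : ℝ, X ≤ X' → X' ≤ (1 + δ) * X → ∀ f : ℤ√2 → ℂ, MF f →
      ‖uf f X' - uf f X‖ ≤ C3 * δ) (hXs : 0 < Xs) {y0 : ℝ} (hy : 3 ≤ y0) (n : ℕ) {X : ℝ}
    (hX : Xs * yi y0 δ n ≤ X) (i : ℕ) (hi : i < n) (p : ℕ)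
    (hp : p ∈ Pr (yi y0 δ i) (yi y0 δ (i + 1))) :
    ‖uf f (X / p) - uf f (X / yi y0 δ i)‖ ≤ C3 * δ := by
  obtain ⟨-, h1, h2⟩ := DC19_Pr hp
  have hyi := DC19_yi_pos hy hδ i
  have hp0 : (0 : ℝ) < p := by linarith
  have hyn := DC19_yi_pos hy hδ n
  have hX0 : 0 < X := lt_of_lt_of_le (by positivity) hX
  have h3 : (p : ℝ) ≤ yi y0 δ n := h2.le.trans (DC19_yi_mono hy hδ (by omega))
  rw [norm_sub_rev]
  apply hs (X / p) _ (X / yi y0 δ i) _ _ f hf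
  · rw [le_div_iff₀ hp0]
    exact (mul_le_mul_of_nonneg_left h3 hXs.le).trans hX
  · exact div_le_div_of_nonneg_left hX0.le hyi h1
  · rw [DC19_yi_succ] at h2
    rw [div_le_iff₀ hyi]
    have : (1 + δ) * (X / p) * yi y0 δ i = X / p * ((1 + δ) * yi y0 δ i) := by ring
    rw [this]
    have h4 : X / p * p ≤ X / p * ((1 + δ) * yi y0 δ i) :=
      mul_le_mul_of_nonneg_left h2.le (by positivity)
    rwa [div_mul_cancel₀ _ hp0.ne'] at h4

/-- Proof. `f = fx χ 0`; `ρ` from `rho_exists`, `∑ ρ = 0`, and `f (el p s) = - ρ p` for `p > W`. `u_rel` for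
`I = Ib y0 δ n`: `uf f X = -(1/WI) ∑_{p ∈ I} (2 ρ(p)/p) uf f (X/p) + O(WI^(-1/2))`; by `block_sum`
(`φ p = uf f (X/p)`, `Φ i = uf f (X/yi i)`, `u_slow`, `u_bdd`) the main part is
`≤ C δ Ln/WI ≤ 2 C δ`. First `δ` small, then `n` large, then `X` large. -/
theorem case_b {W : ℕ} (hW : 1 ≤ W) (hW2 : W % 2 = 0) {χ : ℤ√2 → ℂ} {ν : ℕ} (h : Tw W χ 0 ν)
    {ρ : ZMod (8 * W) → ℂ} (h1 : ∀ a, ‖ρ a‖ ≤ 1) (h0 : ∀ a, ¬ SpC W a → ρ a = 0)
    (hχ : ∀ p : ℕ, Sp p → ¬ p ∣ W → ∀ s, χ (el p s) = ρ ((p : ℕ) : ZMod (8 * W)))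
    (hs : cs (8 * W) ρ = 0)
    (ε : ℝ) (hε : 0 < ε) : ∃ X0 : ℝ, 1 ≤ X0 ∧ ∀ X : ℝ, X0 ≤ X → ‖uf (fx χ 0) X‖ ≤ ε := by
  classical
  have hMF := MF_fx h
  obtain ⟨f, hf⟩ : ∃ f, f = fx χ 0 := ⟨_, rfl⟩
  rw [← hf] at hMF ⊢
  obtain ⟨C1, hC1, hu⟩ := u_rel
  obtain ⟨C2, hC2, hb⟩ := u_bdd
  obtain ⟨C3, hC3, hsl⟩ := u_slow
  obtain ⟨C4, hC4, hbl⟩ := block_sum
  obtain ⟨C5, hC5, hWI⟩ := WI_block W hW
  obtain ⟨δ, hδd⟩ : ∃ δ : ℝ, δ = min (1 / (2 * C5)) (ε / (8 * (C4 * (C2 + C3)))) := ⟨_, rfl⟩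
  have hδ : 0 < δ := by
    rw [hδd]
    exact lt_min (by positivity) (by positivity)
  have hδ5 : C5 * δ ≤ 1 / 2 := by
    have : δ ≤ 1 / (2 * C5) := by rw [hδd]; exact min_le_left _ _
    rw [le_div_iff₀ (by positivity)] at this
    linarith
  have hδε : 4 * (C4 * (C2 + C3)) * δ ≤ ε / 2 := by
    have : δ ≤ ε / (8 * (C4 * (C2 + C3))) := by rw [hδd]; exact min_le_right _ _
    rw [le_div_iff₀ (by positivity)] at this
    linarith
  have hδ1 : δ ≤ 1 := by nlinarith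
  obtain ⟨Xs, hXs1, hXs⟩ := hsl δ hδ hδ1
  obtain ⟨y1, hy1, hbl1⟩ := hbl (8 * W) (by omega) δ hδ hδ1
  obtain ⟨y2, hy2, hWy2, hWI2⟩ := hWI δ hδ hδ1
  obtain ⟨y0, hy0⟩ : ∃ y0, y0 = max y1 y2 := ⟨_, rfl⟩
  have hy01 : y1 ≤ y0 := by rw [hy0]; exact le_max_left _ _
  have hy02 : y2 ≤ y0 := by rw [hy0]; exact le_max_right _ _
  have hy3 : 3 ≤ y0 := hy1.trans hy01
  obtain ⟨n, hn⟩ := ((Ln_tendsto y0 δ hy3 hδ).eventually_ge_atTop
    (max 2 (8 * C1 ^ 2 / ε ^ 2))).exists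
  have hLn2 : 2 ≤ Ln y0 δ n := (le_max_left _ _).trans hn
  have hLn3 : 8 * C1 ^ 2 / ε ^ 2 ≤ Ln y0 δ n := (le_max_right _ _).trans hn
  have hWIn := hWI2 y0 hy02 n
  obtain ⟨Wt, hWt⟩ : ∃ Wt, Wt = WI (Ib y0 δ n) := ⟨_, rfl⟩
  obtain ⟨L, hL⟩ : ∃ L, L = Ln y0 δ n := ⟨_, rfl⟩
  rw [← hWt, ← hL] at hWIn
  rw [← hL] at hLn2 hLn3
  have hWt2 : L / 2 ≤ Wt := by
    have h5 := (abs_le.1 hWIn).1
    have h6 : C5 * δ * L ≤ 1 / 2 * L := mul_le_mul_of_nonneg_right hδ5 (by linarith)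
    linarith
  have hWt1 : 1 ≤ Wt := by linarith
  have hISp : ∀ p ∈ Ib y0 δ n, Sp p := by
    intro p hp
    unfold Ib at hp
    exact (Finset.mem_filter.1 hp).2
  obtain ⟨X1, hX11, hX1⟩ := hu (Ib y0 δ n) hISp (by rw [← hWt]; exact hWt1)
  refine ⟨max X1 (Xs * yi y0 δ n), hX11.trans (le_max_left _ _), fun X hX => ?_⟩
  have hXX1 : X1 ≤ X := (le_max_left _ _).trans hX
  have hXXs : Xs * yi y0 δ n ≤ X := (le_max_right _ _).trans hX
  have hX0 : 0 < X := by linarith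
  have hrel := hX1 X hXX1 f hMF
  rw [← hWt] at hrel
  have hval : ∀ p ∈ Ib y0 δ n, ∀ s, f (el p s) = - ρ ((p : ℕ) : ZMod (8 * W)) := by
    intro p hp s
    have hSp := hISp p hp
    have hpy : y0 ≤ (p : ℝ) := by
      unfold Ib at hp
      exact (DC19_Pr (Finset.mem_filter.1 hp).1).2.1
    have hpW : ¬ p ∣ W := by
      intro hd
      have h7 := Nat.le_of_dvd (by omega) hd
      have h8 : (p : ℝ) ≤ W := by exact_mod_cast h7
      linarith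
    rw [hf]
    unfold fx
    rw [lz_el hSp, hχ p hSp hpW, zero_mul, ee_zero]
    ring
  have hsum : ∑ p ∈ Ib y0 δ n, ∑ s : Bool, f (el p s) / (p : ℂ) * uf f (X / p) =
      -2 * ∑ p ∈ Pr y0 (yi y0 δ n), ρ ((p : ℕ) : ZMod (8 * W)) / (p : ℂ) * uf f (X / p) := by
    have e1 : ∑ p ∈ Ib y0 δ n, ∑ s : Bool, f (el p s) / (p : ℂ) * uf f (X / p) =
        ∑ p ∈ Ib y0 δ n, -2 * (ρ ((p : ℕ) : ZMod (8 * W)) / (p : ℂ) * uf f (X / p)) := by
      refine Finset.sum_congr rfl (fun p hp => ?_)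
      rw [Fintype.sum_bool, hval p hp, hval p hp]
      ring
    rw [e1, ← Finset.mul_sum]
    congr 1
    unfold Ib
    rw [Finset.sum_filter]
    refine Finset.sum_congr rfl (fun p hp => ?_)
    by_cases hSp : Sp p
    · rw [if_pos hSp]
    · rw [if_neg hSp, h0, zero_div, zero_mul]
      intro hc
      apply hSp
      refine ⟨(DC19_Pr hp).1, ?_⟩
      have h9 := hc.2
      haveI : NeZero (8 * W) := ⟨by omega⟩
      rw [ZMod.val_natCast, Nat.mod_mod_of_dvd _ (Dvd.intro W rfl)] at h9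
      exact h9
  have hblock := hbl1 y0 hy01 ρ h1 (fun a ha => h0 a (fun hc => ha hc.1)) n
    (fun p => uf f (X / p)) (fun i => uf f (X / yi y0 δ i)) C2 C3 (by linarith) (by linarith)
    (fun i _ => hb _ (div_pos hX0 (DC19_yi_pos hy3 hδ i)) f hMF)
    (fun i hi p hp => DC19_slow hδ hMF hXs (by linarith) hy3 n hXXs i hi p hp)
  rw [hs, mul_zero, zero_mul, sub_zero, ← hL] at hblock
  rw [hsum] at hrel
  have hWt0 : 0 < Wt := by linarith
  have hL0 : 0 < L := by linarith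
  obtain ⟨S, hS⟩ : ∃ S, S = ∑ p ∈ Pr y0 (yi y0 δ n),
    ρ ((p : ℕ) : ZMod (8 * W)) / (p : ℂ) * uf f (X / p) := ⟨_, rfl⟩
  rw [← hS] at hrel hblock
  have hmain : ‖(1 / (Wt : ℂ)) * (-2 * S)‖ ≤ ε / 2 := by
    rw [_root_.norm_mul, _root_.norm_mul, norm_div, NormOneClass.norm_one, _root_.norm_neg, Complex.norm_real, Real.norm_eq_abs,
      abs_of_pos hWt0]
    have e4 : ‖(2 : ℂ)‖ = 2 := by norm_num
    rw [e4]
    have e5 : 1 / Wt * (2 * ‖S‖) ≤ 1 / Wt * (2 * (C4 * (C2 + C3) * δ * L)) := by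
      apply mul_le_mul_of_nonneg_left _ (by positivity)
      linarith
    refine e5.trans ?_
    rw [one_div, ← div_eq_inv_mul, div_le_iff₀ hWt0]
    have e6 : 2 * (C4 * (C2 + C3) * δ * L) = (4 * (C4 * (C2 + C3)) * δ) * (L / 2) := by ring
    rw [e6]
    exact mul_le_mul hδε hWt2 (by positivity) (by positivity)
  have hsq : C1 / √Wt ≤ ε / 2 := by
    have hsW : 0 < √Wt := Real.sqrt_pos.2 hWt0
    rw [div_le_iff₀ hsW]
    have h10 : (2 * C1 / ε) ^ 2 ≤ Wt := by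
      have : (2 * C1 / ε) ^ 2 = (8 * C1 ^ 2 / ε ^ 2) / 2 := by
        field_simp
        ring
      rw [this]
      linarith
    have h11 : 2 * C1 / ε ≤ √Wt := Real.le_sqrt_of_sq_le h10
    rw [div_le_iff₀ hε] at h11
    linarith
  have hfin : uf f X = (uf f X - (1 / (Wt : ℂ)) * (-2 * S)) + (1 / (Wt : ℂ)) * (-2 * S) := by ring
  rw [hfin]
  refine (norm_add_le _ _).trans ?_
  linarith

end

end Pool.Agent.Lib.MP_0b748d_nt.HD
end

section

set_option autoImplicit false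

/-!
# Characters trivial on split primes
-/

namespace Pool.Agent.Lib.MP_0b748d_nt.HD

open Zsqrtd MR

noncomputable section

/-- shifting a weighted sum with decreasing weights by one -/
theorem DC20_shift1 (w : ℕ → ℝ) (hw : Antitone w) (h0 : ∀ i, 0 ≤ w i) (Φ : ℕ → ℂ) (B : ℝ)
    (hB : ∀ i, ‖Φ i‖ ≤ B) (n : ℕ) :
    ‖∑ i ∈ Finset.range n, Φ i * ((w i : ℝ) : ℂ) -
      ∑ i ∈ Finset.range n, Φ (i + 1) * ((w i : ℝ) : ℂ)‖ ≤ 2 * B * w 0 := by
  have e1 : ∑ i ∈ Finset.range n, Φ i * ((w i : ℝ) : ℂ) =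
      ∑ i ∈ Finset.range n, Φ (i + 1) * ((w (i + 1) : ℝ) : ℂ) + Φ 0 * ((w 0 : ℝ) : ℂ) -
        Φ n * ((w n : ℝ) : ℂ) := by
    have h1 := Finset.sum_range_succ (fun i => Φ i * ((w i : ℝ) : ℂ)) n
    have h2 := Finset.sum_range_succ' (fun i => Φ i * ((w i : ℝ) : ℂ)) n
    rw [h1] at h2
    rw [← h2]
    ring
  have e2 : ∑ i ∈ Finset.range n, Φ i * ((w i : ℝ) : ℂ) -
      ∑ i ∈ Finset.range n, Φ (i + 1) * ((w i : ℝ) : ℂ) =
      Φ 0 * ((w 0 : ℝ) : ℂ) - Φ n * ((w n : ℝ) : ℂ) -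
        ∑ i ∈ Finset.range n, Φ (i + 1) * ((w i - w (i + 1) : ℝ) : ℂ) := by
    rw [e1]
    have h3 : ∑ i ∈ Finset.range n, Φ (i + 1) * ((w i - w (i + 1) : ℝ) : ℂ) =
        ∑ i ∈ Finset.range n, Φ (i + 1) * ((w i : ℝ) : ℂ) -
          ∑ i ∈ Finset.range n, Φ (i + 1) * ((w (i + 1) : ℝ) : ℂ) := by
      rw [← Finset.sum_sub_distrib]
      refine Finset.sum_congr rfl (fun i _ => ?_)
      push_cast
      ring
    rw [h3]
    ring
  rw [e2]
  have h4 : ‖∑ i ∈ Finset.range n, Φ (i + 1) * ((w i - w (i + 1) : ℝ) : ℂ)‖ ≤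
      B * (w 0 - w n) := by
    refine (norm_sum_le _ _).trans ?_
    rw [← Finset.sum_range_sub' w n, Finset.mul_sum]
    refine Finset.sum_le_sum (fun i _ => ?_)
    rw [_root_.norm_mul, Complex.norm_real, Real.norm_eq_abs,
      abs_of_nonneg (sub_nonneg.2 (hw (Nat.le_succ i)))]
    exact mul_le_mul_of_nonneg_right (hB _) (sub_nonneg.2 (hw (Nat.le_succ i)))
  have h5 : ‖Φ 0 * ((w 0 : ℝ) : ℂ)‖ ≤ B * w 0 := by
    rw [_root_.norm_mul, Complex.norm_real, Real.norm_eq_abs, abs_of_nonneg (h0 0)]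
    exact mul_le_mul_of_nonneg_right (hB _) (h0 0)
  have h6 : ‖Φ n * ((w n : ℝ) : ℂ)‖ ≤ B * w n := by
    rw [_root_.norm_mul, Complex.norm_real, Real.norm_eq_abs, abs_of_nonneg (h0 n)]
    exact mul_le_mul_of_nonneg_right (hB _) (h0 n)
  refine (norm_sub_le _ _).trans ?_
  have h7 := norm_sub_le (Φ 0 * ((w 0 : ℝ) : ℂ)) (Φ n * ((w n : ℝ) : ℂ))
  linarith

/-- shifting a weighted sum with decreasing weights -/
theorem DC20_shift (w : ℕ → ℝ) (hw : Antitone w) (h0 : ∀ i, 0 ≤ w i) (Φ : ℕ → ℂ) (B : ℝ)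
    (hB : ∀ i, ‖Φ i‖ ≤ B) (n k : ℕ) :
    ‖∑ i ∈ Finset.range n, Φ i * ((w i : ℝ) : ℂ) -
      ∑ i ∈ Finset.range n, Φ (i + k) * ((w i : ℝ) : ℂ)‖ ≤ 2 * k * B * w 0 := by
  induction k with
  | zero => simp
  | succ k ih =>
    have h := DC20_shift1 w hw h0 (fun i => Φ (i + k)) B (fun i => hB _) n
    have e0 : ∀ i, i + 1 + k = i + (k + 1) := fun i => by omega
    simp only [e0] at h
    have e : ∑ i ∈ Finset.range n, Φ i * ((w i : ℝ) : ℂ) -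
        ∑ i ∈ Finset.range n, Φ (i + (k + 1)) * ((w i : ℝ) : ℂ) =
        (∑ i ∈ Finset.range n, Φ i * ((w i : ℝ) : ℂ) -
          ∑ i ∈ Finset.range n, Φ (i + k) * ((w i : ℝ) : ℂ)) +
        (∑ i ∈ Finset.range n, Φ (i + k) * ((w i : ℝ) : ℂ) -
          ∑ i ∈ Finset.range n, Φ (i + (k + 1)) * ((w i : ℝ) : ℂ)) := by ring
    rw [e]
    refine (norm_add_le _ _).trans ?_
    push_cast
    have e3 : 2 * ((k : ℝ) + 1) * B * w 0 = 2 * k * B * w 0 + 2 * B * w 0 := by ring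
    rw [e3]
    exact add_le_add ih h

/-- slow variation on the dilated intervals of a block -/
theorem DC20_slow {C3 δ Xt : ℝ} (hδ : 0 < δ) (hδ1 : δ ≤ 1) {f : ℤ√2 → ℂ} (hf : MF f)
    (hs : ∀ X : ℝ, Xt ≤ X → ∀ X' : ℝ, X ≤ X' → X' ≤ (1 + 3 * δ) * X → ∀ f : ℤ√2 → ℂ, MF f →
      ‖uf f X' - uf f X‖ ≤ C3 * (3 * δ)) (hXt : 0 < Xt) {y0 : ℝ} (hy : 3 ≤ y0) (n : ℕ) {X : ℝ}
    {p0 k : ℕ} (hk1 : (1 + δ) ^ k ≤ (p0 : ℝ)) (hk2 : (p0 : ℝ) < (1 + δ) ^ (k + 1))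
    (hX : Xt * (p0 * yi y0 δ n) ≤ X) (i : ℕ) (hi : i < n) (p : ℕ)
    (hp : p ∈ Pr (yi y0 δ i) (yi y0 δ (i + 1))) :
    ‖uf f (X / (p0 * p)) - uf f (X / yi y0 δ (i + k))‖ ≤ 3 * C3 * δ := by
  obtain ⟨-, h1, h2⟩ := DC19_Pr hp
  have hyi := DC19_yi_pos hy hδ i
  have hyik := DC19_yi_pos hy hδ (i + k)
  have hp1 : (0 : ℝ) < p := by linarith
  have hp00 : (0 : ℝ) < p0 := lt_of_lt_of_le (by positivity) hk1
  have hpp : (0 : ℝ) < p0 * p := mul_pos hp00 hp1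
  have hyn := DC19_yi_pos hy hδ n
  have hX0 : 0 < X := lt_of_lt_of_le (by positivity) hX
  have h3 : (p : ℝ) ≤ yi y0 δ n := h2.le.trans (DC19_yi_mono hy hδ (by omega))
  have e1 : yi y0 δ (i + k) = (1 + δ) ^ k * yi y0 δ i := by
    unfold yi
    rw [pow_add]
    ring
  have h4 : yi y0 δ (i + k) ≤ p0 * p := by
    rw [e1]
    exact mul_le_mul hk1 h1 hyi.le hp00.le
  have h5 : (p0 : ℝ) * p ≤ (1 + 3 * δ) * yi y0 δ (i + k) := by
    have h6 : (p0 : ℝ) * p ≤ (1 + δ) ^ (k + 1) * yi y0 δ (i + 1) :=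
      mul_le_mul hk2.le h2.le hp1.le (by positivity)
    have h7 : (1 + δ) ^ (k + 1) * yi y0 δ (i + 1) = (1 + δ) ^ 2 * yi y0 δ (i + k) := by
      rw [e1, DC19_yi_succ]
      ring
    have h8 : (1 + δ) ^ 2 ≤ 1 + 3 * δ := by nlinarith only [hδ, hδ1]
    rw [h7] at h6
    exact h6.trans (mul_le_mul_of_nonneg_right h8 hyik.le)
  have q1 : Xt ≤ X / (p0 * p) := by
    rw [le_div_iff₀ hpp]
    refine le_trans ?_ hX
    apply mul_le_mul_of_nonneg_left _ hXt.le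
    exact mul_le_mul_of_nonneg_left h3 hp00.le
  have q2 : X / (p0 * p) ≤ X / yi y0 δ (i + k) := div_le_div_of_nonneg_left hX0.le hyik h4
  have q3 : X / yi y0 δ (i + k) ≤ (1 + 3 * δ) * (X / (p0 * p)) := by
    rw [div_le_iff₀ hyik]
    have e2 : (1 + 3 * δ) * (X / (p0 * p)) * yi y0 δ (i + k) =
        X / (p0 * p) * ((1 + 3 * δ) * yi y0 δ (i + k)) := by ring
    rw [e2]
    have h10 : X / (p0 * p) * (p0 * p) ≤ X / (p0 * p) * ((1 + 3 * δ) * yi y0 δ (i + k)) :=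
      mul_le_mul_of_nonneg_left h5 (by positivity)
    rwa [div_mul_cancel₀ _ hpp.ne'] at h10
  rw [norm_sub_rev]
  have h9 := hs _ q1 _ q2 q3 f hf
  have e3 : C3 * (3 * δ) = 3 * C3 * δ := by ring
  rwa [e3] at h9

/-- the average over a block of short intervals hardly changes under a fixed dilation.

Proof. Let `k` be with `(1+δ)^k ≤ p0 < (1+δ)^(k+1)`. With `Φ i = uf f (X/yi i)`,
`uf f (X/(p0 p))` is within `3 C δ` of `Φ (i+k)` for `p` in the interval number `i` (`u_slow` with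
`(1+δ)² ≤ 1 + 3 δ`), so by `block_sum` (`M = 8`, `ρ` the indicator of the classes `1, 7`; primes `p > 8`)
both averages are, up to `C δ Ln`, equal to `∑_{i<n} Φ i w i` and `∑_{i<n} Φ (i+k) w i`,
`w i = δ/log (yi i)`. Their difference is `∑_{k≤j<n} Φ j (w j - w (j-k))` plus at most `2 k` terms
bounded by `B w 0`; as `w` is decreasing, `∑_{k≤j<n} (w (j-k) - w j) ≤ k w 0` (telescoping). So the
difference is at most `3 k B δ/log y0 ≤ δ Ln` for large `n` (`Ln_tendsto`). Finally `Ln ≤ 2 WI` or so by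
`WI_block` when `C δ ≤ 1/2`; for larger `δ` use the trivial bound (`C` is at our disposal). -/
theorem dilate_avg : ∃ C : ℝ, 1 ≤ C ∧ ∀ δ : ℝ, 0 < δ → δ ≤ 1 / 4 → ∀ p0 : ℕ, 1 ≤ p0 → ∃ y1 : ℝ,
    3 ≤ y1 ∧ ∀ y0 : ℝ, y1 ≤ y0 → ∃ n0 : ℕ, ∀ n : ℕ, n0 ≤ n → ∃ X0 : ℝ, 1 ≤ X0 ∧ ∀ X : ℝ, X0 ≤ X →
    ∀ f : ℤ√2 → ℂ, MF f →
    ‖∑ p ∈ Ib y0 δ n, (2 / (p : ℂ)) * (uf f (X / p) - uf f (X / (p0 * p)))‖ ≤
      C * δ * WI (Ib y0 δ n) := by
  classical
  obtain ⟨C2, hC2, hb⟩ := u_bdd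
  obtain ⟨C3, hC3, hsl⟩ := u_slow
  obtain ⟨C4, hC4, hbl⟩ := block_sum
  obtain ⟨C5, hC5, hWI⟩ := WI_block 1 le_rfl
  obtain ⟨K1, hK1⟩ : ∃ K1, K1 = 4 * C2 * C5 := ⟨_, rfl⟩
  obtain ⟨K2, hK2⟩ : ∃ K2, K2 = 2 * (C4 * (2 * C2 + 4 * C3)) + 1 := ⟨_, rfl⟩
  have hK10 : 0 ≤ K1 := by rw [hK1]; positivity
  have hK21 : 1 ≤ K2 := by
    rw [hK2]
    have : 0 ≤ C4 * (2 * C2 + 4 * C3) := by positivity
    linarith
  have hWI0 : ∀ I : Finset ℕ, 0 ≤ WI I := fun I => by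
    unfold WI
    exact Finset.sum_nonneg (fun p _ => by positivity)
  refine ⟨K1 + 2 * K2, by linarith, ?_⟩
  intro δ hδ hδ4 p0 hp0
  have hp00 : (0 : ℝ) < p0 := by exact_mod_cast hp0
  by_cases h5 : C5 * δ ≤ 1 / 2
  · obtain ⟨k, hk1, hk2⟩ := exists_nat_pow_near (x := (p0 : ℝ)) (y := 1 + δ)
      (by exact_mod_cast hp0) (by linarith only [hδ])
    obtain ⟨y1, hy1, hbl1⟩ := hbl 8 (by norm_num) δ hδ (by linarith only [hδ4])
    obtain ⟨y2, hy2, hWy2, hWI2⟩ := hWI δ hδ (by linarith)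
    obtain ⟨Xs, hXs1, hXs⟩ := hsl δ hδ (by linarith)
    obtain ⟨Xt, hXt1, hXt⟩ := hsl (3 * δ) (by linarith) (by linarith)
    refine ⟨max y1 y2, hy1.trans (le_max_left _ _), fun y0 hy0 => ?_⟩
    have hy01 : y1 ≤ y0 := (le_max_left _ _).trans hy0
    have hy02 : y2 ≤ y0 := (le_max_right _ _).trans hy0
    have hy3 : 3 ≤ y0 := hy1.trans hy01
    obtain ⟨n0, hn0⟩ := Filter.eventually_atTop.1
      ((Ln_tendsto y0 δ hy3 hδ).eventually_ge_atTop (2 * k * C2))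
    refine ⟨n0, fun n hn => ?_⟩
    have hLn : 2 * k * C2 ≤ Ln y0 δ n := hn0 n hn
    refine ⟨max 1 (max (Xs * yi y0 δ n) (Xt * (p0 * yi y0 δ n))), le_max_left _ _,
      fun X hX f hMF => ?_⟩
    have hX1 : 1 ≤ X := (le_max_left _ _).trans hX
    have hXXs : Xs * yi y0 δ n ≤ X := (le_max_left _ _).trans ((le_max_right _ _).trans hX)
    have hXXt : Xt * (p0 * yi y0 δ n) ≤ X :=
      (le_max_right _ _).trans ((le_max_right _ _).trans hX)
    have hX0 : 0 < X := by linarith only [hX1]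
    have hA := hbl1 y0 hy01 DC19_r DC19_r_le DC19_r_unit n
      (fun p => uf f (X / p)) (fun i => uf f (X / yi y0 δ i)) C2 C3 (by linarith only [hC2]) (by linarith only [hC3])
      (fun i _ => hb _ (div_pos hX0 (DC19_yi_pos hy3 hδ i)) f hMF)
      (fun i hi p hp => DC19_slow hδ hMF hXs (by linarith only [hXs1]) hy3 n hXXs i hi p hp)
    have hB := hbl1 y0 hy01 DC19_r DC19_r_le DC19_r_unit n
      (fun p => uf f (X / (p0 * p))) (fun i => uf f (X / yi y0 δ (i + k))) C2 (3 * C3)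
      (by linarith only [hC2]) (by linarith only [hC3])
      (fun i _ => hb _ (div_pos hX0 (DC19_yi_pos hy3 hδ _)) f hMF)
      (fun i hi p hp => DC20_slow hδ (by linarith only [hδ4]) hMF hXt (by linarith only [hXt1]) hy3 n hk1 hk2 hXXt i hi
        p hp)
    rw [DC19_cs, DC19_tot] at hA hB
    have hWIn := hWI2 y0 hy02 n
    have hlog : ∀ i, 1 ≤ Real.log (yi y0 δ i) := by
      intro i
      have h1 : Real.exp 1 ≤ yi y0 δ i := by
        have h2 := DC19_yi_mono hy3 hδ (Nat.zero_le i)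
        have h3 : yi y0 δ 0 = y0 := by unfold yi; simp
        have h4 := Real.exp_one_lt_d9
        rw [h3] at h2
        linarith only [hy3, h2, h4]
      have h5 := Real.log_le_log (Real.exp_pos 1) h1
      rwa [Real.log_exp] at h5
    have hanti : Antitone (fun i => δ / Real.log (yi y0 δ i)) := by
      intro i j hij
      apply div_le_div_of_nonneg_left hδ.le (by linarith only [hlog i])
      exact Real.log_le_log (DC19_yi_pos hy3 hδ i) (DC19_yi_mono hy3 hδ hij)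
    have hsh := DC20_shift (fun i => δ / Real.log (yi y0 δ i)) hanti
      (fun i => div_nonneg hδ.le (by linarith only [hlog i])) (fun i => uf f (X / yi y0 δ i)) C2
      (fun i => hb _ (div_pos hX0 (DC19_yi_pos hy3 hδ i)) f hMF) n k
    have hw0 : δ / Real.log (yi y0 δ 0) ≤ δ := div_le_self hδ.le (hlog 0)
    have hsh2 : 2 * k * C2 * (δ / Real.log (yi y0 δ 0)) ≤ δ * Ln y0 δ n := by
      have h6 : 2 * k * C2 * (δ / Real.log (yi y0 δ 0)) ≤ 2 * k * C2 * δ :=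
        mul_le_mul_of_nonneg_left hw0 (by positivity)
      have h7 : 2 * k * C2 * δ ≤ Ln y0 δ n * δ := mul_le_mul_of_nonneg_right hLn hδ.le
      linarith only [h6, h7]
    have e1 : ∑ p ∈ Ib y0 δ n, (2 / (p : ℂ)) * (uf f (X / p) - uf f (X / (p0 * p))) =
        2 * ∑ p ∈ Pr y0 (yi y0 δ n), DC19_r ((p : ℕ) : ZMod 8) / (p : ℂ) * uf f (X / p) -
        2 * ∑ p ∈ Pr y0 (yi y0 δ n), DC19_r ((p : ℕ) : ZMod 8) / (p : ℂ) *
          uf f (X / (p0 * p)) := by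
      rw [← DC19_WI y0 δ n (fun p => uf f (X / p)), ← DC19_WI y0 δ n (fun p => uf f (X / (p0 * p))),
        ← Finset.sum_sub_distrib]
      exact Finset.sum_congr rfl (fun p _ => by ring)
    rw [e1]
    obtain ⟨SA, hSA⟩ : ∃ S, S = ∑ p ∈ Pr y0 (yi y0 δ n),
      DC19_r ((p : ℕ) : ZMod 8) / (p : ℂ) * uf f (X / p) := ⟨_, rfl⟩
    obtain ⟨SB, hSB⟩ : ∃ S, S = ∑ p ∈ Pr y0 (yi y0 δ n),
      DC19_r ((p : ℕ) : ZMod 8) / (p : ℂ) * uf f (X / (p0 * p)) := ⟨_, rfl⟩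
    obtain ⟨TA, hTA⟩ : ∃ S, S = ∑ i ∈ Finset.range n, uf f (X / yi y0 δ i) *
      ((δ / Real.log (yi y0 δ i) : ℝ) : ℂ) := ⟨_, rfl⟩
    obtain ⟨TB, hTB⟩ : ∃ S, S = ∑ i ∈ Finset.range n, uf f (X / yi y0 δ (i + k)) *
      ((δ / Real.log (yi y0 δ i) : ℝ) : ℂ) := ⟨_, rfl⟩
    rw [← hSA, ← hTA] at hA
    rw [← hSB, ← hTB] at hB
    rw [← hTA, ← hTB] at hsh
    rw [← hSA, ← hSB]
    have e2 : 2 * SA - 2 * SB = 2 * (SA - 1 / 4 * 2 * TA) - 2 * (SB - 1 / 4 * 2 * TB) +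
        (TA - TB) := by ring
    have e4 : ‖(2 : ℂ)‖ = 2 := by norm_num
    have h8 : ‖2 * SA - 2 * SB‖ ≤ 2 * ‖SA - 1 / 4 * 2 * TA‖ + 2 * ‖SB - 1 / 4 * 2 * TB‖ +
        ‖TA - TB‖ := by
      rw [e2]
      refine (norm_add_le _ _).trans (add_le_add ((norm_sub_le _ _).trans ?_) le_rfl)
      rw [_root_.norm_mul, _root_.norm_mul, e4]
    obtain ⟨L, hL⟩ : ∃ L, L = Ln y0 δ n := ⟨_, rfl⟩
    obtain ⟨Wt, hWt⟩ : ∃ Wt, Wt = WI (Ib y0 δ n) := ⟨_, rfl⟩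
    rw [← hL] at hA hB hsh2 hWIn
    rw [← hWt] at hWIn ⊢
    have hL0 : 0 ≤ L := by rw [hL]; exact DC19_Ln0 hy3 hδ n
    have h9 : ‖2 * SA - 2 * SB‖ ≤ K2 * (δ * L) := by
      have e5 : K2 * (δ * L) = 2 * (C4 * (C2 + C3) * δ * L) + 2 * (C4 * (C2 + 3 * C3) * δ * L) +
          δ * L := by
        rw [hK2]
        ring
      rw [e5]
      linarith only [hsh, h8, hsh2, hB, hA]
    have hLW : L ≤ 2 * Wt := by
      have h10 := (abs_le.1 hWIn).1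
      have h11 : C5 * δ * L ≤ 1 / 2 * L := mul_le_mul_of_nonneg_right h5 hL0
      linarith only [h10, h11]
    have hWt0 : 0 ≤ Wt := by linarith only [hL0, hLW]
    have h12 : K2 * (δ * L) ≤ K2 * (δ * (2 * Wt)) := by
      apply mul_le_mul_of_nonneg_left _ (by linarith only [hK21])
      exact mul_le_mul_of_nonneg_left hLW hδ.le
    have h13 : 0 ≤ K1 * δ * Wt := by positivity
    have e6 : (K1 + 2 * K2) * δ * Wt = K1 * δ * Wt + K2 * (δ * (2 * Wt)) := by ring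
    rw [e6]
    linarith only [h9, h12, h13]
  · push Not at h5
    refine ⟨3, le_rfl, fun y0 _ => ⟨0, fun n _ => ⟨1, le_rfl, fun X hX f hMF => ?_⟩⟩⟩
    have hX0 : 0 < X := by linarith
    have h1 : ‖∑ p ∈ Ib y0 δ n, (2 / (p : ℂ)) * (uf f (X / p) - uf f (X / (p0 * p)))‖ ≤
        2 * C2 * WI (Ib y0 δ n) := by
      unfold WI
      rw [Finset.mul_sum]
      refine (norm_sum_le _ _).trans (Finset.sum_le_sum (fun p hp => ?_))
      have hpp : 0 < p := by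
        unfold Ib at hp
        exact (DC19_Pr (Finset.mem_filter.1 hp).1).1.pos
      have hp1 : (0 : ℝ) < p := by exact_mod_cast hpp
      have h2 := hb (X / p) (div_pos hX0 hp1) f hMF
      have h3 := hb (X / (p0 * p)) (div_pos hX0 (mul_pos hp00 hp1)) f hMF
      have h4 := norm_sub_le (uf f (X / p)) (uf f (X / (p0 * p)))
      have e4 : ‖(2 : ℂ)‖ = 2 := by norm_num
      rw [_root_.norm_mul, norm_div, e4, Complex.norm_natCast, mul_comm]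
      exact mul_le_mul_of_nonneg_right (by linarith) (by positivity)
    refine h1.trans ?_
    apply mul_le_mul_of_nonneg_right _ (hWI0 _)
    have h6 : 2 * C2 ≤ K1 * δ := by
      rw [hK1]
      have h7 : C2 * (1 / 2) ≤ C2 * (C5 * δ) := mul_le_mul_of_nonneg_left h5.le (by linarith)
      linarith
    have h8 : 0 ≤ K2 * δ := by positivity
    have e7 : (K1 + 2 * K2) * δ = K1 * δ + 2 * (K2 * δ) := by ring
    rw [e7]
    linarith

/-- the weight of a block is at least half of its model -/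
theorem DC20_WI {C5 δ L Wt : ℝ} (h5 : C5 * δ ≤ 1 / 2) (hL : 0 ≤ L)
    (h : |Wt - L| ≤ C5 * δ * L) : L / 2 ≤ Wt := by
  have h10 := (abs_le.1 h).1
  have h11 : C5 * δ * L ≤ 1 / 2 * L := mul_le_mul_of_nonneg_right h5 hL
  linarith

theorem DC20_mem {W : ℕ} (hW : 1 ≤ W) {y0 δ : ℝ} {n p : ℕ} (hy : (W : ℝ) < y0)
    (hp : p ∈ Ib y0 δ n) : Sp p ∧ ¬ p ∣ W := by
  classical
  unfold Ib at hp
  obtain ⟨h1, h2⟩ := Finset.mem_filter.1 hp
  refine ⟨h2, fun hd => ?_⟩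
  have h7 := Nat.le_of_dvd (by omega) hd
  have h8 : (p : ℝ) ≤ W := by exact_mod_cast h7
  linarith [(DC19_Pr h1).2.1]

/-- the basic relation in case (c) -/
theorem DC20_rel {W : ℕ} {χ : ℤ√2 → ℂ}
    (hχ : ∀ p : ℕ, Sp p → ¬ p ∣ W → ∀ s, χ (el p s) = 1) {I : Finset ℕ}
    (hI : ∀ p ∈ I, Sp p ∧ ¬ p ∣ W) (X : ℝ) :
    ∑ p ∈ I, ∑ s : Bool, fx χ 0 (el p s) / (p : ℂ) * uf (fx χ 0) (X / p) =
      - ∑ p ∈ I, (2 / (p : ℂ)) * uf (fx χ 0) (X / p) := by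
  rw [← Finset.sum_neg_distrib]
  refine Finset.sum_congr rfl (fun p hp => ?_)
  obtain ⟨hSp, hpW⟩ := hI p hp
  have hval : ∀ s, fx χ 0 (el p s) = -1 := by
    intro s
    unfold fx
    rw [lz_el hSp, hχ p hSp hpW, zero_mul, ee_zero]
    ring
  rw [Fintype.sum_bool, hval, hval]
  ring

/-- invariance under a fixed dilation -/
theorem DC20_dil {W : ℕ} (hW : 1 ≤ W) {χ : ℤ√2 → ℂ} {ν : ℕ} (h : Tw W χ 0 ν)
    (hχ : ∀ p : ℕ, Sp p → ¬ p ∣ W → ∀ s, χ (el p s) = 1) (p0 : ℕ) (hp0 : 1 ≤ p0)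
    (ε : ℝ) (hε : 0 < ε) : ∃ X0 : ℝ, 1 ≤ X0 ∧ ∀ X : ℝ, X0 ≤ X →
      ‖uf (fx χ 0) X - uf (fx χ 0) (X / p0)‖ ≤ ε := by
  classical
  have hMF := MF_fx h
  obtain ⟨C1, hC1, hu⟩ := u_rel
  obtain ⟨Cd, hCd, hd⟩ := dilate_avg
  obtain ⟨C5, hC5, hWI⟩ := WI_block W hW
  obtain ⟨δ, hδd⟩ : ∃ δ : ℝ, δ = min (1 / 4) (min (1 / (2 * C5)) (ε / (2 * Cd))) := ⟨_, rfl⟩
  have hδ : 0 < δ := by
    rw [hδd]
    exact lt_min (by norm_num) (lt_min (by positivity) (by positivity))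
  have hδ4 : δ ≤ 1 / 4 := by rw [hδd]; exact min_le_left _ _
  have hδ5 : C5 * δ ≤ 1 / 2 := by
    have h1 : δ ≤ 1 / (2 * C5) := by
      rw [hδd]
      exact (min_le_right _ _).trans (min_le_left _ _)
    rw [le_div_iff₀ (by positivity)] at h1
    linarith only [h1]
  have hδε : Cd * δ ≤ ε / 2 := by
    have h1 : δ ≤ ε / (2 * Cd) := by
      rw [hδd]
      exact (min_le_right _ _).trans (min_le_right _ _)
    rw [le_div_iff₀ (by positivity)] at h1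
    linarith only [h1]
  obtain ⟨y1, hy1, hd1⟩ := hd δ hδ hδ4 p0 hp0
  obtain ⟨y2, hy2, hWy2, hWI2⟩ := hWI δ hδ (by linarith)
  obtain ⟨y0, hy0⟩ : ∃ y0, y0 = max y1 y2 := ⟨_, rfl⟩
  have hy01 : y1 ≤ y0 := by rw [hy0]; exact le_max_left _ _
  have hy02 : y2 ≤ y0 := by rw [hy0]; exact le_max_right _ _
  have hy3 : 3 ≤ y0 := hy1.trans hy01
  obtain ⟨n0, hn0⟩ := hd1 y0 hy01
  obtain ⟨n, hn, hnn⟩ := (((Ln_tendsto y0 δ hy3 hδ).eventually_ge_atTop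
    (max 2 (32 * C1 ^ 2 / ε ^ 2))).and (Filter.eventually_ge_atTop n0)).exists
  have hLn2 : 2 ≤ Ln y0 δ n := (le_max_left _ _).trans hn
  have hLn3 : 32 * C1 ^ 2 / ε ^ 2 ≤ Ln y0 δ n := (le_max_right _ _).trans hn
  have hWt2 := DC20_WI hδ5 (DC19_Ln0 hy3 hδ n) (hWI2 y0 hy02 n)
  obtain ⟨X2, hX21, hX2⟩ := hn0 n hnn
  have hI : ∀ p ∈ Ib y0 δ n, Sp p ∧ ¬ p ∣ W := fun p hp => DC20_mem hW (by linarith) hp
  obtain ⟨X1, hX11, hX1⟩ := hu (Ib y0 δ n) (fun p hp => (hI p hp).1) (by linarith only [hLn2, hWt2])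
  have hp00 : (1 : ℝ) ≤ p0 := by exact_mod_cast hp0
  refine ⟨max (X1 * p0) X2, hX21.trans (le_max_right _ _), fun X hX => ?_⟩
  have hXX1 : X1 * p0 ≤ X := (le_max_left _ _).trans hX
  have hXX2 : X2 ≤ X := (le_max_right _ _).trans hX
  have hXX3 : X1 ≤ X / p0 := by
    rw [le_div_iff₀ (by linarith only [hp00])]
    exact hXX1
  have hXX4 : X1 ≤ X := by nlinarith only [hX11, hp00, hXX1]
  have hr1 := hX1 X hXX4 _ hMF
  have hr2 := hX1 (X / p0) hXX3 _ hMF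
  have hr3 := hX2 X hXX2 _ hMF
  rw [DC20_rel hχ hI] at hr1 hr2
  obtain ⟨Wt, hWt⟩ : ∃ Wt, Wt = WI (Ib y0 δ n) := ⟨_, rfl⟩
  rw [← hWt] at hr1 hr2 hr3 hWt2
  have hWt0 : 0 < Wt := by linarith only [hLn2, hWt2]
  have hsq : C1 / √Wt ≤ ε / 4 := by
    have hsW : 0 < √Wt := Real.sqrt_pos.2 hWt0
    rw [div_le_iff₀ hsW]
    have h10 : (4 * C1 / ε) ^ 2 ≤ Wt := by
      have : (4 * C1 / ε) ^ 2 = (32 * C1 ^ 2 / ε ^ 2) / 2 := by
        field_simp
        ring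
      rw [this]
      linarith only [hLn3, hWt2]
    have h11 : 4 * C1 / ε ≤ √Wt := Real.le_sqrt_of_sq_le h10
    rw [div_le_iff₀ hε] at h11
    linarith only [h11]
  obtain ⟨S1, hS1⟩ : ∃ S, S = ∑ p ∈ Ib y0 δ n, (2 / (p : ℂ)) * uf (fx χ 0) (X / p) := ⟨_, rfl⟩
  obtain ⟨S2, hS2⟩ : ∃ S, S = ∑ p ∈ Ib y0 δ n, (2 / (p : ℂ)) * uf (fx χ 0) (X / p0 / p) :=
    ⟨_, rfl⟩
  have e1 : ∑ p ∈ Ib y0 δ n, (2 / (p : ℂ)) * (uf (fx χ 0) (X / p) - uf (fx χ 0) (X / (p0 * p))) =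
      S1 - S2 := by
    rw [hS1, hS2, ← Finset.sum_sub_distrib]
    refine Finset.sum_congr rfl (fun p _ => ?_)
    rw [div_div]
    ring
  rw [e1] at hr3
  rw [← hS1] at hr1
  rw [← hS2] at hr2
  have e2 : uf (fx χ 0) X - uf (fx χ 0) (X / p0) =
      (uf (fx χ 0) X - 1 / (Wt : ℂ) * -S1) - (uf (fx χ 0) (X / p0) - 1 / (Wt : ℂ) * -S2) -
        1 / (Wt : ℂ) * (S1 - S2) := by ring
  have h3 : ‖1 / (Wt : ℂ) * (S1 - S2)‖ ≤ ε / 2 := by
    rw [_root_.norm_mul, norm_div, NormOneClass.norm_one, Complex.norm_real, Real.norm_eq_abs, abs_of_pos hWt0,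
      one_div, ← div_eq_inv_mul, div_le_iff₀ hWt0]
    exact hr3.trans (mul_le_mul_of_nonneg_right hδε hWt0.le)
  rw [e2]
  refine (norm_sub_le _ _).trans ?_
  have h4 := norm_sub_le (uf (fx χ 0) X - 1 / (Wt : ℂ) * -S1)
    (uf (fx χ 0) (X / p0) - 1 / (Wt : ℂ) * -S2)
  linarith only [hsq, hr1, hr2, h3, h4]

/-- Proof. `f = fx χ 0`, `f (el p s) = -1` for `p > W`. By `u_rel` for `I = Ib y0 δ n` (all primes
`> W`): `uf f X = -(1/WI) ∑ (2/p) uf f (X/p) + O(WI^(-1/2))`, the same at `X/p0`; with `dilate_avg`: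
`‖uf f X - uf f (X/p0)‖ ≤ C δ + 2 C WI^(-1/2)`. So for every fixed `p0`, `uf f X - uf f (X/p0) → 0`. Now
take a fixed finite set `I0` of split primes `> W` with `WI I0` large (`SQ_tendsto`): by `u_rel`
`uf f X = -(1/WI) ∑_{p ∈ I0} (2/p) uf f (X/p) + O(WI^(-1/2)) = - uf f X + o(1) + O(WI^(-1/2))`. -/
theorem case_c {W : ℕ} (hW : 1 ≤ W) {χ : ℤ√2 → ℂ} {ν : ℕ} (h : Tw W χ 0 ν)
    (hχ : ∀ p : ℕ, Sp p → ¬ p ∣ W → ∀ s, χ (el p s) = 1)
    (ε : ℝ) (hε : 0 < ε) : ∃ X0 : ℝ, 1 ≤ X0 ∧ ∀ X : ℝ, X0 ≤ X → ‖uf (fx χ 0) X‖ ≤ ε := by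
  classical
  have hMF := MF_fx h
  obtain ⟨C1, hC1, hu⟩ := u_rel
  obtain ⟨C5, hC5, hWI⟩ := WI_block W hW
  obtain ⟨δ, hδd⟩ : ∃ δ : ℝ, δ = 1 / (2 * C5) := ⟨_, rfl⟩
  have hδ : 0 < δ := by
    rw [hδd]
    positivity
  have hδ5 : C5 * δ ≤ 1 / 2 := by
    have h1 : δ ≤ 1 / (2 * C5) := by rw [hδd]
    rw [le_div_iff₀ (by positivity)] at h1
    linarith only [h1]
  have hδ1 : δ ≤ 1 := by nlinarith only [hC5, hδ5]
  obtain ⟨y0, hy3, hWy0, hWI2⟩ := hWI δ hδ hδ1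
  obtain ⟨n, hn⟩ := ((Ln_tendsto y0 δ hy3 hδ).eventually_ge_atTop
    (max 2 (2 * C1 ^ 2 / ε ^ 2))).exists
  have hLn2 : 2 ≤ Ln y0 δ n := (le_max_left _ _).trans hn
  have hLn3 : 2 * C1 ^ 2 / ε ^ 2 ≤ Ln y0 δ n := (le_max_right _ _).trans hn
  have hWt2 := DC20_WI hδ5 (DC19_Ln0 hy3 hδ n) (hWI2 y0 le_rfl n)
  have hI : ∀ p ∈ Ib y0 δ n, Sp p ∧ ¬ p ∣ W := fun p hp => DC20_mem hW hWy0 hp
  obtain ⟨X1, hX11, hX1⟩ := hu (Ib y0 δ n) (fun p hp => (hI p hp).1) (by linarith only [hLn2, hWt2])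
  choose Y hY1 hY2 using fun (p : ℕ) => DC20_dil hW h hχ (p + 1) (by omega) ε hε
  obtain ⟨M, hM⟩ : ∃ M : ℝ, ∀ p ∈ Ib y0 δ n, Y (p - 1) ≤ M := by
    obtain ⟨M, hM⟩ := ((Ib y0 δ n).image (fun p => Y (p - 1))).bddAbove
    exact ⟨M, fun p hp => hM (Finset.mem_coe.2 (Finset.mem_image_of_mem _ hp))⟩
  refine ⟨max X1 M, hX11.trans (le_max_left _ _), fun X hX => ?_⟩
  have hXX1 : X1 ≤ X := (le_max_left _ _).trans hX
  have hXXM : M ≤ X := (le_max_right _ _).trans hX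
  have hr := hX1 X hXX1 _ hMF
  rw [DC20_rel hχ hI] at hr
  obtain ⟨Wt, hWt⟩ : ∃ Wt, Wt = WI (Ib y0 δ n) := ⟨_, rfl⟩
  rw [← hWt] at hr hWt2
  have hWt0 : 0 < Wt := by linarith only [hLn2, hWt2]
  have hsq : C1 / √Wt ≤ ε := by
    have hsW : 0 < √Wt := Real.sqrt_pos.2 hWt0
    rw [div_le_iff₀ hsW]
    have h10 : (C1 / ε) ^ 2 ≤ Wt := by
      have : (C1 / ε) ^ 2 = (2 * C1 ^ 2 / ε ^ 2) / 2 := by
        field_simp
      rw [this]
      linarith only [hLn3, hWt2]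
    have h11 : C1 / ε ≤ √Wt := Real.le_sqrt_of_sq_le h10
    rw [div_le_iff₀ hε] at h11
    linarith only [h11]
  have e1 : ∑ p ∈ Ib y0 δ n, (2 / (p : ℂ)) * uf (fx χ 0) (X / p) = (Wt : ℂ) * uf (fx χ 0) X -
      ∑ p ∈ Ib y0 δ n, (2 / (p : ℂ)) * (uf (fx χ 0) X - uf (fx χ 0) (X / p)) := by
    have e2 : (Wt : ℂ) * uf (fx χ 0) X = ∑ p ∈ Ib y0 δ n, (2 / (p : ℂ)) * uf (fx χ 0) X := by
      rw [← Finset.sum_mul, hWt]
      unfold WI
      push_cast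
      rfl
    rw [e2, ← Finset.sum_sub_distrib]
    exact Finset.sum_congr rfl (fun p _ => by ring)
  have h3 : ‖∑ p ∈ Ib y0 δ n, (2 / (p : ℂ)) * (uf (fx χ 0) X - uf (fx χ 0) (X / p))‖ ≤
      Wt * ε := by
    rw [hWt]
    unfold WI
    rw [Finset.sum_mul]
    refine (norm_sum_le _ _).trans (Finset.sum_le_sum (fun p hp => ?_))
    have hp1 : 1 ≤ p := (hI p hp).1.1.pos
    have h4 := hY2 (p - 1) X ((hM p hp).trans hXXM)
    have e3 : p - 1 + 1 = p := by omega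
    rw [e3] at h4
    have e4 : ‖(2 : ℂ)‖ = 2 := by norm_num
    rw [_root_.norm_mul, norm_div, e4, Complex.norm_natCast]
    exact mul_le_mul_of_nonneg_left h4 (by positivity)
  obtain ⟨D, hD⟩ : ∃ D, D = ∑ p ∈ Ib y0 δ n, (2 / (p : ℂ)) *
    (uf (fx χ 0) X - uf (fx χ 0) (X / p)) := ⟨_, rfl⟩
  rw [e1, ← hD] at hr
  rw [← hD] at h3
  have hWc : (Wt : ℂ) ≠ 0 := by exact_mod_cast hWt0.ne'
  have e5 : 2 * uf (fx χ 0) X = (uf (fx χ 0) X - 1 / (Wt : ℂ) * -((Wt : ℂ) * uf (fx χ 0) X - D)) +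
      1 / (Wt : ℂ) * D := by
    field_simp
    ring
  have h6 : ‖1 / (Wt : ℂ) * D‖ ≤ ε := by
    rw [_root_.norm_mul, norm_div, NormOneClass.norm_one, Complex.norm_real, Real.norm_eq_abs, abs_of_pos hWt0,
      one_div, ← div_eq_inv_mul, div_le_iff₀ hWt0, mul_comm]
    exact h3
  have h7 : ‖2 * uf (fx χ 0) X‖ ≤ 2 * ε := by
    rw [e5]
    refine (norm_add_le _ _).trans ?_
    linarith only [hsq, hr, h6]
  have e6 : ‖(2 : ℂ)‖ = 2 := by norm_num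
  rw [_root_.norm_mul, e6] at h7
  linarith only [h7]

end

end Pool.Agent.Lib.MP_0b748d_nt.HD
end

section

set_option autoImplicit false

/-!
# Characters which are not symmetric
-/

namespace Pool.Agent.Lib.MP_0b748d_nt.HD

open Zsqrtd MR

noncomputable section

private theorem DC13_mem {Q p : ℕ} (hp : p ∈ SQ Q) : p < Q ∧ Sp p := by
  simp only [SQ, Finset.mem_filter, Finset.mem_range] at hp
  exact hp

private theorem DC13_half {W : ℕ} {χ : ℤ√2 → ℂ} (h : Hc W χ) {p : ℕ} (hp : Sp p) :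
    ‖χ (el p true) + χ (el p false)‖ ≤
      2 - (2 - (χ (star (el p true)) * (starRingEnd ℂ) (χ (el p true)) +
        χ (star (el p false)) * (starRingEnd ℂ) (χ (el p false))).re) / 4 +
        (if p ∣ W then 1 else 0) := by
  have e1 : star (el p true) = el p false := el_star p true
  have e2 : star (el p false) = el p true := el_star p false
  rw [e1, e2]
  obtain ⟨a, ha⟩ : ∃ a, χ (el p true) = a := ⟨_, rfl⟩
  obtain ⟨b, hb⟩ : ∃ b, χ (el p false) = b := ⟨_, rfl⟩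
  have key : (b * (starRingEnd ℂ) a + a * (starRingEnd ℂ) b).re =
      ‖a + b‖ ^ 2 - ‖a‖ ^ 2 - ‖b‖ ^ 2 := by
    rw [Complex.sq_norm, Complex.sq_norm, Complex.sq_norm, Complex.normSq_add]
    simp only [Complex.add_re, Complex.mul_re, Complex.conj_re, Complex.conj_im]
    ring
  have h1 : ‖a‖ ≤ 1 := by rw [← ha]; exact h.le _
  have h2 : ‖b‖ ≤ 1 := by rw [← hb]; exact h.le _
  have h0 : ‖a + b‖ ≤ 2 := (norm_add_le _ _).trans (by linarith)
  rw [ha, hb, key]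
  have n1 := norm_nonneg a
  have n2 := norm_nonneg b
  have n3 := norm_nonneg (a + b)
  by_cases hpW : p ∣ W
  · rw [if_pos hpW]
    nlinarith
  · rw [if_neg hpW]
    have h3 : ‖a‖ = 1 := by
      rw [← ha]
      exact h.norm_one ((Cp_el hp true).2 hpW)
    have h4 : ‖b‖ = 1 := by
      rw [← hb]
      exact h.norm_one ((Cp_el hp false).2 hpW)
    rw [h3, h4]
    nlinarith [sq_nonneg (‖a + b‖ - 2)]

private theorem DC13_sum {W : ℕ} (hW : 1 ≤ W) {χ : ℤ√2 → ℂ} (h : Hc W χ) {Q : ℕ}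
    (hQ : (1 / 2) * WI (SQ Q) ≤ ∑ p ∈ SQ Q, (2 - (χ (star (el p true)) *
      (starRingEnd ℂ) (χ (el p true)) + χ (star (el p false)) *
      (starRingEnd ℂ) (χ (el p false))).re) / (p : ℝ)) :
    ∑ p ∈ SQ Q, ‖χ (el p true) + χ (el p false)‖ / (p : ℝ) ≤ 7 / 8 * WI (SQ Q) + W := by
  have hSp : ∀ p ∈ SQ Q, Sp p := by
    intro p hp
    exact (DC13_mem hp).2
  have hpt : ∀ p ∈ SQ Q, ‖χ (el p true) + χ (el p false)‖ / (p : ℝ) ≤
      2 / (p : ℝ) - 1 / 4 * ((2 - (χ (star (el p true)) *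
      (starRingEnd ℂ) (χ (el p true)) + χ (star (el p false)) *
      (starRingEnd ℂ) (χ (el p false))).re) / (p : ℝ)) + (if p ∣ W then 1 else 0) := by
    intro p hp
    have hp1 : 1 ≤ p := (hSp p hp).1.one_lt.le
    have hpr : (1 : ℝ) ≤ p := by exact_mod_cast hp1
    have h1 := DC13_half h (hSp p hp)
    have h2 : ‖χ (el p true) + χ (el p false)‖ / (p : ℝ) ≤
        (2 - (2 - (χ (star (el p true)) * (starRingEnd ℂ) (χ (el p true)) +
        χ (star (el p false)) * (starRingEnd ℂ) (χ (el p false))).re) / 4 +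
        (if p ∣ W then 1 else 0)) / (p : ℝ) := div_le_div_of_nonneg_right h1 (by linarith)
    refine h2.trans ?_
    have h3 : (if p ∣ W then (1 : ℝ) else 0) / (p : ℝ) ≤ (if p ∣ W then 1 else 0) := by
      split_ifs
      · rw [div_le_one (by linarith)]
        exact hpr
      · simp
    have h4 : ∀ x y z : ℝ, (2 - (2 - x) / 4 + y) / z = 2 / z - 1 / 4 * ((2 - x) / z) + y / z := by
      intro x y z
      ring
    rw [h4]
    linarith
  refine (Finset.sum_le_sum hpt).trans ?_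
  rw [Finset.sum_add_distrib, Finset.sum_sub_distrib, ← Finset.mul_sum]
  have h5 : ∑ p ∈ SQ Q, (if p ∣ W then (1 : ℝ) else 0) ≤ W := by
    rw [Finset.sum_ite, Finset.sum_const_zero, add_zero, Finset.sum_const, nsmul_eq_mul, mul_one]
    have h6 : (SQ Q).filter (fun p => p ∣ W) ⊆ Finset.Icc 1 W := by
      intro p hp
      rw [Finset.mem_filter] at hp
      rw [Finset.mem_Icc]
      exact ⟨(hSp p hp.1).1.one_lt.le, Nat.le_of_dvd (by omega) hp.2⟩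
    have h7 := Finset.card_le_card h6
    rw [Nat.card_Icc] at h7
    have h8 : ((SQ Q).filter (fun p => p ∣ W)).card ≤ W := by omega
    exact_mod_cast h8
  have h9 : ∑ p ∈ SQ Q, 2 / (p : ℝ) = WI (SQ Q) := rfl
  rw [h9]
  linarith

/-- Proof. `η z = χ (star z) conj (χ z)` (`Hc.eta`), `η uu = 1` (`uu * star uu = 1`), and
`η z0 = χ (star z0)/χ z0 ≠ 1` (`Hc.norm_one`). For split `p ∤ W`, with `π = el p true`:
`|f (el p true) + f (el p false)| = |χ π + χ (star π)| = |1 + η π|` and `η (star π) = conj (η π)`, so it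
is `≤ 2 - (2 - Re (η π + η (star π)))/4` (`|1 + η| = √(2 + 2 Re η) ≤ 2 - (1 - Re η)/2`). For `p ∣ W`
it is `≤ 2`. So for `I = SQ Q` from `eta_block`:
`∑_{p ∈ I} (1/p) |f (el p true) + f (el p false)| ≤ WI I - WI I/8 + ∑_{p ∣ W} 1/p
≤ (7/8) WI I + W`. By `u_rel` and `u_limsup`: `v ≤ (7/8 + W/WI I) v + C/√(WI I)` and `WI I` is as
large as we like, so `v ≤ (7/8) v`, `v = 0`. Here `f = fx χ 0`, `f z = lz z χ z`. -/
theorem case_a {W : ℕ} (hW : 1 ≤ W) (hW2 : W % 2 = 0) {χ : ℤ√2 → ℂ} {ν : ℕ} (h : Tw W χ 0 ν)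
    {z0 : ℤ√2} (hz0 : Cp W z0) (hne : χ (star z0) ≠ χ z0) (ε : ℝ) (hε : 0 < ε) :
    ∃ X0 : ℝ, 1 ≤ X0 ∧ ∀ X : ℝ, X0 ≤ X → ‖uf (fx χ 0) X‖ ≤ ε := by
  have hu : χ uu = 1 := by
    have h1 := h.un
    have h2 : ee 0 = 1 := by
      unfold ee
      simp
    rw [h2, mul_one] at h1
    exact h1
  have hus : χ (star uu) = 1 := by
    have h1 : uu * star uu = 1 := by decide
    have h2 := h.hc.mul uu (star uu)
    rw [h1, h.hc.one, hu, one_mul] at h2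
    exact h2.symm
  have hη := h.hc.eta
  have hηu : (fun z => χ (star z) * (starRingEnd ℂ) (χ z)) uu = 1 := by
    simp only [hu, hus, map_one, mul_one]
  have hηne : (fun z => χ (star z) * (starRingEnd ℂ) (χ z)) z0 ≠ 1 := by
    intro h1
    apply hne
    have h2 : ‖χ z0‖ = 1 := h.hc.norm_one hz0
    have h3 : (starRingEnd ℂ) (χ z0) * χ z0 = 1 := by
      rw [mul_comm, Complex.mul_conj, ← Complex.sq_norm, h2]
      norm_num
    have h4 : χ (star z0) * (starRingEnd ℂ) (χ z0) = 1 := h1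
    calc χ (star z0) = χ (star z0) * ((starRingEnd ℂ) (χ z0) * χ z0) := by rw [h3, mul_one]
      _ = (χ (star z0) * (starRingEnd ℂ) (χ z0)) * χ z0 := by ring
      _ = χ z0 := by rw [h4, one_mul]
  have hf : MF (fx χ 0) := MF_fx h
  obtain ⟨v, hv0, hv1, hv2⟩ := u_limsup hf
  obtain ⟨C, hC1, hC⟩ := u_rel
  have hv : v ≤ 0 := by
    by_contra hcon
    push Not at hcon
    obtain ⟨Q, hQ1, hQ2⟩ := eta_block hW hW2 hη hηu hz0 hηne
      (max 1 (max (32 * W) ((64 * C / v) ^ 2)))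
    obtain ⟨M, hM⟩ : ∃ M, WI (SQ Q) = M := ⟨_, rfl⟩
    have hM1 : 1 ≤ M := by rw [← hM]; exact (le_max_left _ _).trans hQ1
    have hM2 : 32 * (W : ℝ) ≤ M := by
      rw [← hM]
      exact ((le_max_left _ _).trans (le_max_right _ _)).trans hQ1
    have hM3 : (64 * C / v) ^ 2 ≤ M := by
      rw [← hM]
      exact ((le_max_right _ _).trans (le_max_right _ _)).trans hQ1
    have hsum := DC13_sum hW h.hc hQ2
    have hSp : ∀ p ∈ SQ Q, Sp p := by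
      intro p hp
      exact (DC13_mem hp).2
    have hlt : ∀ p ∈ SQ Q, p < Q := by
      intro p hp
      exact (DC13_mem hp).1
    obtain ⟨X0, hX0, hX⟩ := hC (SQ Q) hSp (by rw [hM]; exact hM1)
    obtain ⟨X1, hX1⟩ := hv1 (v / 64) (by linarith)
    obtain ⟨X, hXl, hXv⟩ := hv2 (v / 64) (by linarith) (max X0 (Q * max X1 1))
    have hXa : X0 ≤ X := (le_max_left _ _).trans hXl
    have hXb : Q * max X1 1 ≤ X := (le_max_right _ _).trans hXl
    have hX00 : 0 < X := by linarith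
    have hmain := hX X hXa (fx χ 0) hf
    have hterm : ∀ p ∈ SQ Q, ‖∑ s : Bool, fx χ 0 (el p s) / (p : ℂ) * uf (fx χ 0) (X / p)‖ ≤
        ‖χ (el p true) + χ (el p false)‖ / (p : ℝ) * (v + v / 64) := by
      intro p hp
      have hp1 : 1 ≤ p := (hSp p hp).1.one_lt.le
      have hpr : (1 : ℝ) ≤ p := by exact_mod_cast hp1
      have hpr0 : (0 : ℝ) < p := by linarith
      have hfe : ∀ s : Bool, fx χ 0 (el p s) = -χ (el p s) := by
        intro s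
        unfold fx
        rw [lz_el (hSp p hp) s]
        have h2 : ee (0 * al (el p s)) = 1 := by
          unfold ee
          simp
        rw [h2]
        ring
      rw [Fintype.sum_bool, hfe, hfe]
      have h3 : -χ (el p true) / (p : ℂ) * uf (fx χ 0) (X / p) +
          -χ (el p false) / (p : ℂ) * uf (fx χ 0) (X / p) =
          -((χ (el p true) + χ (el p false)) / (p : ℂ) * uf (fx χ 0) (X / p)) := by ring
      rw [h3, _root_.norm_neg, _root_.norm_mul, norm_div, Complex.norm_natCast]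
      refine mul_le_mul_of_nonneg_left (hX1 _ ?_) (by positivity)
      rw [le_div_iff₀ hpr0]
      have h4 : (p : ℝ) ≤ Q := by exact_mod_cast (hlt p hp).le
      have h5 : (1 : ℝ) ≤ max X1 1 := le_max_right _ _
      have h6 : X1 ≤ max X1 1 := le_max_left _ _
      calc X1 * p ≤ max X1 1 * p := mul_le_mul_of_nonneg_right h6 hpr0.le
        _ ≤ max X1 1 * Q := mul_le_mul_of_nonneg_left h4 (by linarith)
        _ = Q * max X1 1 := mul_comm _ _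
        _ ≤ X := hXb
    have hMpos : 0 < M := by linarith
    have hbig : ‖(1 / (WI (SQ Q) : ℂ)) * ∑ p ∈ SQ Q, ∑ s : Bool,
        fx χ 0 (el p s) / (p : ℂ) * uf (fx χ 0) (X / p)‖ ≤ 1 / M * ((7 / 8 * M + W) *
          (v + v / 64)) := by
      rw [_root_.norm_mul, hM]
      have h1 : ‖(1 / (M : ℂ))‖ = 1 / M := by
        rw [norm_div, NormOneClass.norm_one, Complex.norm_real, Real.norm_eq_abs, abs_of_pos hMpos]
      rw [h1]
      refine mul_le_mul_of_nonneg_left ?_ (by positivity)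
      refine (norm_sum_le _ _).trans ((Finset.sum_le_sum hterm).trans ?_)
      rw [← Finset.sum_mul]
      rw [hM] at hsum
      exact mul_le_mul_of_nonneg_right hsum (by linarith)
    have htri : ‖uf (fx χ 0) X‖ ≤ C / √(WI (SQ Q)) + 1 / M * ((7 / 8 * M + W) * (v + v / 64)) := by
      have h1 := norm_sub_norm_le (uf (fx χ 0) X) ((1 / (WI (SQ Q) : ℂ)) * ∑ p ∈ SQ Q, ∑ s : Bool,
        fx χ 0 (el p s) / (p : ℂ) * uf (fx χ 0) (X / p))
      linarith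
    have hCM : C / √(WI (SQ Q)) ≤ v / 64 := by
      rw [hM]
      have h1 : 64 * C / v ≤ √M := Real.le_sqrt_of_sq_le hM3
      have h2 : 0 < √M := Real.sqrt_pos.2 hMpos
      rw [div_le_iff₀ h2]
      rw [div_le_iff₀ hcon] at h1
      linarith
    have h3 : 1 / M * ((7 / 8 * M + W) * (v + v / 64)) ≤ (7 / 8 + 1 / 32) * (v + v / 64) := by
      rw [← mul_assoc]
      refine mul_le_mul_of_nonneg_right ?_ (by linarith)
      rw [one_div, inv_mul_le_iff₀ hMpos]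
      linarith
    linarith
  obtain ⟨X0, hX0⟩ := hv1 ε hε
  refine ⟨max 1 X0, le_max_left _ _, fun X hX => ?_⟩
  exact (hX0 X ((le_max_right _ _).trans hX)).trans (by linarith)

end

end Pool.Agent.Lib.MP_0b748d_nt.HD
end

section

set_option autoImplicit false

/-!
# Frequency zero
-/

namespace Pool.Agent.Lib.MP_0b748d_nt.HD

open Zsqrtd MR

noncomputable section

/-- Proof. `case_a` if `χ (star z0) ≠ χ z0` for some `z0` prime to `W`; otherwise `rho_exists` and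
`case_b` or `case_c` (a split prime not dividing `W` is in a split unit class). -/
theorem V_zero {W : ℕ} (hW : 1 ≤ W) (hW2 : W % 2 = 0) {χ : ℤ√2 → ℂ} {ν : ℕ} (h : Tw W χ 0 ν)
    (ε : ℝ) (hε : 0 < ε) : ∃ X0 : ℝ, 1 ≤ X0 ∧ ∀ X : ℝ, X0 ≤ X → ‖uf (fx χ 0) X‖ ≤ ε := by
  by_cases hs : ∀ z, Cp W z → χ (star z) = χ z
  · have hu : χ uu = 1 := by
      have h1 := h.un
      rwa [ee_zero, mul_one] at h1
    obtain ⟨ρ, h1, h0, hχ, h2⟩ := rho_exists hW hW2 h.hc hu hs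
    rcases h2 with h2 | h2
    · exact case_b hW hW2 h h1 h0 hχ h2 ε hε
    · refine case_c hW h (fun p hp hpW s => ?_) ε hε
      rw [hχ p hp hpW s]
      exact h2 _ (DC15_prime hW hp hpW)
  · push Not at hs
    obtain ⟨z0, hz0, hne⟩ := hs
    exact case_a hW hW2 h hz0 hne ε hε

end

end Pool.Agent.Lib.MP_0b748d_nt.HD
end

section

set_option autoImplicit false

/-!
# Frequency zero, primitive elements
-/

namespace Pool.Agent.Lib.MP_0b748d_nt.HD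

open Zsqrtd MR

noncomputable section

open Classical in
/-- Moebius inversion.

Proof. As `sum_Us_moebius` (`MR/Moebius.lean`, `moebius_ind`), with `sum_dvd` for `ρ = c`,
`nm c = c²`. -/
theorem Us_moebius (φ : ℤ√2 → ℂ) (hφ : Inv φ) (a b : ℝ) (T : ℕ) (hT : √b ≤ T) :
    ∑ w ∈ Us a b, φ w = ∑ c ∈ (Finset.Icc 1 T).filter (fun c => c % 2 = 1),
      ((ArithmeticFunction.moebius c : ℤ) : ℂ) *
        ∑ w ∈ Vs (a / (c : ℝ) ^ 2) (b / (c : ℝ) ^ 2), φ (((c : ℕ) : ℤ√2) * w) := by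
  classical
  have h1 : ∀ c ∈ (Finset.Icc 1 T).filter (fun c => c % 2 = 1),
      ((ArithmeticFunction.moebius c : ℤ) : ℂ) *
        ∑ w ∈ Vs (a / (c : ℝ) ^ 2) (b / (c : ℝ) ^ 2), φ (((c : ℕ) : ℤ√2) * w) =
      ∑ w ∈ Vs a b, if ((c : ℕ) : ℤ√2) ∣ w then
        ((ArithmeticFunction.moebius c : ℤ) : ℂ) * φ w else 0 := by
    intro c hc
    rw [Finset.mem_filter] at hc
    have h2 := sum_dvd ((c : ℕ) : ℤ√2) (OT_nat c hc.2) a b φ hφ
    have h3 : ((nm ((c : ℕ) : ℤ√2) : ℤ) : ℝ) = (c : ℝ) ^ 2 := by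
      rw [nm_nat]
      push_cast
      rfl
    rw [h3] at h2
    rw [← h2, Finset.mul_sum, Finset.sum_filter]
  rw [Finset.sum_congr rfl h1, Finset.sum_comm]
  have h2 : ∀ w ∈ Vs a b, (∑ c ∈ (Finset.Icc 1 T).filter (fun c => c % 2 = 1),
      if ((c : ℕ) : ℤ√2) ∣ w then ((ArithmeticFunction.moebius c : ℤ) : ℂ) * φ w else 0) =
      if Prim w then φ w else 0 := by
    intro w hw
    rw [← Finset.sum_filter, ← Finset.sum_mul, ← Int.cast_sum, moebius_ind hT hw]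
    have h3 : Prim w ↔ Int.gcd w.re w.im = 1 := Int.isCoprime_iff_gcd_eq_one
    by_cases h : Int.gcd w.re w.im = 1
    · rw [if_pos h, if_pos (h3.2 h)]
      simp
    · rw [if_neg h, if_neg (fun h' => h (h3.1 h'))]
      simp
  rw [Finset.sum_congr rfl h2, ← Finset.sum_filter]
  rfl

private theorem DC22_Vf {f : ℤ√2 → ℂ} {Y : ℝ} (hY : 0 < Y) : ‖Vf f Y‖ = Y * ‖uf f Y‖ := by
  unfold uf
  rw [norm_div, Complex.norm_real, Real.norm_eq_abs, abs_of_pos hY]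
  field_simp

/-- Proof. `Us_moebius` with `φ = fx χ 0` (`MF_fx`, so `Inv`), `T = ⌈√(2X)⌉`; `φ (c z) = χ c φ z`
(`lz_nat`, `al_nat_mul`), so `‖∑_{Us} φ‖ ≤ ∑_c ‖Vf φ (X/c²)‖ ≤ ∑_{c ≤ √(X/Y0)} ε X/c² +
∑_{c > √(X/Y0)} 2 C X/c²` where `‖uf φ Y‖ ≤ ε` for `Y ≥ Y0` (`V_zero`, `u_bdd`). -/
theorem U_zero {W : ℕ} (hW : 1 ≤ W) (hW2 : W % 2 = 0) {χ : ℤ√2 → ℂ} {ν : ℕ} (h : Tw W χ 0 ν)
    (ε : ℝ) (hε : 0 < ε) : ∃ X0 : ℝ, 1 ≤ X0 ∧ ∀ X : ℝ, X0 ≤ X →
    ‖∑ z ∈ Us X (2 * X), fx χ 0 z‖ ≤ ε * X := by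
  classical
  have hMF := MF_fx h
  obtain ⟨C, hC1, hC⟩ := u_bdd
  obtain ⟨Y0, hY01, hY0⟩ := V_zero hW hW2 h (ε / 4) (by positivity)
  obtain ⟨M, hM⟩ := exists_nat_gt (4 * C / ε)
  have hM0 : (0 : ℝ) < M := lt_of_le_of_lt (by positivity) hM
  rw [div_lt_iff₀ hε] at hM
  refine ⟨max 1 (Y0 * (M : ℝ) ^ 2), le_max_left _ _, fun X hX => ?_⟩
  have hX1 : 1 ≤ X := (le_max_left _ _).trans hX
  have hX2 : Y0 * (M : ℝ) ^ 2 ≤ X := (le_max_right _ _).trans hX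
  have hX0 : 0 < X := by linarith
  rw [Us_moebius (fx χ 0) hMF.inv X (2 * X) ⌈√(2 * X)⌉₊ (Nat.le_ceil _)]
  obtain ⟨T, hT⟩ : ∃ T : ℕ, T = ⌈√(2 * X)⌉₊ := ⟨_, rfl⟩
  rw [← hT]
  have hterm : ∀ c ∈ (Finset.Icc 1 T).filter (fun c => c % 2 = 1),
      ‖((ArithmeticFunction.moebius c : ℤ) : ℂ) *
        ∑ w ∈ Vs (X / (c : ℝ) ^ 2) (2 * X / (c : ℝ) ^ 2), fx χ 0 (((c : ℕ) : ℤ√2) * w)‖ ≤
      ε / 4 * X * ((c : ℝ) ^ 2)⁻¹ + (if M < c then C * X * ((c : ℝ) ^ 2)⁻¹ else 0) := by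
    intro c hc
    rw [Finset.mem_filter, Finset.mem_Icc] at hc
    have hc0 : (0 : ℝ) < (c : ℝ) ^ 2 := by
      have : (1 : ℝ) ≤ c := by exact_mod_cast hc.1.1
      positivity
    have e1 : ∀ w ∈ Vs (X / (c : ℝ) ^ 2) (2 * X / (c : ℝ) ^ 2),
        fx χ 0 (((c : ℕ) : ℤ√2) * w) = χ ((c : ℕ) : ℤ√2) * fx χ 0 w := by
      intro w hw
      rw [mem_Vs] at hw
      unfold fx
      rw [lz_mul (OT_nat c hc.2).1 hw.1.1, lz_nat c hc.1.1, h.hc.mul]
      rw [zero_mul, zero_mul]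
      ring
    rw [Finset.sum_congr rfl e1, ← Finset.mul_sum]
    have e2 : ∑ w ∈ Vs (X / (c : ℝ) ^ 2) (2 * X / (c : ℝ) ^ 2), fx χ 0 w =
        Vf (fx χ 0) (X / (c : ℝ) ^ 2) := by
      unfold Vf
      rw [mul_div_assoc]
    rw [e2, _root_.norm_mul, _root_.norm_mul]
    have e3 : ‖((ArithmeticFunction.moebius c : ℤ) : ℂ)‖ ≤ 1 := by
      rw [Complex.norm_intCast]
      have := ArithmeticFunction.abs_moebius_le_one (n := c)
      exact_mod_cast this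
    have hY : 0 < X / (c : ℝ) ^ 2 := by positivity
    have e4 : ‖Vf (fx χ 0) (X / (c : ℝ) ^ 2)‖ ≤
        ε / 4 * X * ((c : ℝ) ^ 2)⁻¹ + (if M < c then C * X * ((c : ℝ) ^ 2)⁻¹ else 0) := by
      rw [DC22_Vf hY]
      by_cases hcM : M < c
      · rw [if_pos hcM]
        have h5 := mul_le_mul_of_nonneg_left (hC _ hY _ hMF) hY.le
        have h6 : X / (c : ℝ) ^ 2 * C = C * X * ((c : ℝ) ^ 2)⁻¹ := by ring
        have h7 : 0 ≤ ε / 4 * X * ((c : ℝ) ^ 2)⁻¹ := by positivity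
        linarith
      · rw [if_neg hcM, add_zero]
        push Not at hcM
        have h8 : Y0 ≤ X / (c : ℝ) ^ 2 := by
          rw [le_div_iff₀ hc0]
          refine le_trans ?_ hX2
          apply mul_le_mul_of_nonneg_left _ (by linarith)
          have : (c : ℝ) ≤ M := by exact_mod_cast hcM
          exact pow_le_pow_left₀ (Nat.cast_nonneg _) this 2
        have h5 := mul_le_mul_of_nonneg_left (hY0 _ h8) hY.le
        have h6 : X / (c : ℝ) ^ 2 * (ε / 4) = ε / 4 * X * ((c : ℝ) ^ 2)⁻¹ := by ring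
        linarith
    calc _ ≤ 1 * (1 * ‖Vf (fx χ 0) (X / (c : ℝ) ^ 2)‖) := by
          apply mul_le_mul e3 _ (by positivity) zero_le_one
          exact mul_le_mul_of_nonneg_right (h.hc.le _) (_root_.norm_nonneg _)
      _ ≤ _ := by rw [one_mul, one_mul]; exact e4
  have hs1 := sum_Ioo_inv_sq_le (α := ℝ) 0 (T + 1)
  have hs2 := sum_Ioo_inv_sq_le (α := ℝ) M (T + 1)
  calc _ ≤ ∑ c ∈ (Finset.Icc 1 T).filter (fun c => c % 2 = 1),
        (ε / 4 * X * ((c : ℝ) ^ 2)⁻¹ + (if M < c then C * X * ((c : ℝ) ^ 2)⁻¹ else 0)) :=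
        (norm_sum_le _ _).trans (Finset.sum_le_sum hterm)
    _ ≤ ∑ c ∈ Finset.Icc 1 T,
        (ε / 4 * X * ((c : ℝ) ^ 2)⁻¹ + (if M < c then C * X * ((c : ℝ) ^ 2)⁻¹ else 0)) := by
        apply Finset.sum_le_sum_of_subset_of_nonneg (Finset.filter_subset _ _)
        intro c _ _
        split_ifs <;> positivity
    _ = ε / 4 * X * ∑ c ∈ Finset.Ioo 0 (T + 1), ((c : ℝ) ^ 2)⁻¹ +
        C * X * ∑ c ∈ Finset.Ioo M (T + 1), ((c : ℝ) ^ 2)⁻¹ := by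
        rw [Finset.sum_add_distrib, ← Finset.sum_filter, Finset.mul_sum, Finset.mul_sum]
        have q1 : Finset.Icc 1 T = Finset.Ioo 0 (T + 1) := by
          ext c
          simp only [Finset.mem_Icc, Finset.mem_Ioo]
          omega
        have q2 : (Finset.Icc 1 T).filter (fun c => M < c) = Finset.Ioo M (T + 1) := by
          ext c
          simp only [Finset.mem_filter, Finset.mem_Icc, Finset.mem_Ioo]
          omega
        rw [q2, q1]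
    _ ≤ ε / 4 * X * 2 + C * X * (2 / (M : ℝ)) := by
        apply add_le_add
        · apply mul_le_mul_of_nonneg_left _ (by positivity)
          refine hs1.trans ?_
          norm_num
        · apply mul_le_mul_of_nonneg_left _ (by positivity)
          refine hs2.trans ?_
          exact div_le_div_of_nonneg_left (by norm_num) hM0 (by linarith)
    _ ≤ ε * X := by
        have h1 : C * X * (2 / (M : ℝ)) ≤ ε / 2 * X := by
          have h2 : C * X * (2 / (M : ℝ)) = (2 * C / M) * X := by ring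
          rw [h2]
          apply mul_le_mul_of_nonneg_right _ hX0.le
          rw [div_le_iff₀ hM0]
          linarith
        linarith

end

end Pool.Agent.Lib.MP_0b748d_nt.HD
end
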