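import Pool.Agent.Lib.MP_0b748d_nt.HH.CntE
import Pool.Agent.Lib.MP_0b748d_nt.HH.DA2
import Pool.Agent.Lib.MP_0b748d_nt.P.FourierCore
import Pool.Agent.Lib.MP_0b748d_nt.MR.ElDvdA
import Pool.Agent.Lib.MP_0b748d_nt.HH.DecA
import Pool.Agent.Lib.MP_0b748d_nt.MR.TOp
import Pool.Agent.Lib.MP_0b748d_nt.MR.Sector

section

set_option autoImplicit false

/-!
# Twists
-/

namespace Pool.Agent.Lib.MP_0b748d_nt.HD

open Zsqrtd MR

noncomputable section

private lemma DA3_un {W : ℕ} {χ : ℤ√2 → ℂ} (h : Hc W χ) {κ0 : ℝ} (hu : χ uu * ee κ0 = 1) (n : ℤ) :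
    χ (un n) * ee (κ0 * n) = 1 := by
  induction n using Int.induction_on with
  | zero => rw [un_zero, h.one, Int.cast_zero, mul_zero, ee_zero, one_mul]
  | succ i ih =>
    have e : κ0 * (((i : ℤ) + 1 : ℤ) : ℝ) = κ0 * ((i : ℤ) : ℝ) + κ0 := by push_cast; ring
    rw [un_add, un_one, h.mul, e, ee_add]
    calc χ (un i) * χ uu * (ee (κ0 * ((i : ℤ) : ℝ)) * ee κ0)
        = (χ (un i) * ee (κ0 * ((i : ℤ) : ℝ))) * (χ uu * ee κ0) := by ring
      _ = 1 := by rw [ih, hu, one_mul]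
  | pred i ih =>
    have e : κ0 * ((-(i : ℤ) : ℤ) : ℝ) = κ0 * ((-(i : ℤ) - 1 : ℤ) : ℝ) + κ0 := by push_cast; ring
    have e2 : un (-(i : ℤ)) = un (-(i : ℤ) - 1) * uu := by
      rw [← un_one, ← un_add]; congr 1; ring
    rw [e2, h.mul, e, ee_add] at ih
    calc χ (un (-(i : ℤ) - 1)) * ee (κ0 * ((-(i : ℤ) - 1 : ℤ) : ℝ))
        = (χ (un (-(i : ℤ) - 1)) * ee (κ0 * ((-(i : ℤ) - 1 : ℤ) : ℝ))) * (χ uu * ee κ0) := by
          rw [hu, mul_one]
      _ = χ (un (-(i : ℤ) - 1)) * χ uu * (ee (κ0 * ((-(i : ℤ) - 1 : ℤ) : ℝ)) * ee κ0) := by ring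
      _ = 1 := ih

/-- Proof. `‖χ uu‖ = 1` (`nm uu = 1`), so `χ uu = ee (-κ0)` with `κ0 ∈ [0, 1)`; `ν` from `Hc.pow`;
`χ uu ^ ν = 1` gives `ee (ν κ0) = 1`, so `ν κ0` is an integer (`ee_eq_one` in `P/FourierCore`, applied
to a nonnegative number; its conclusion). -/
theorem exists_Tw {W : ℕ} (hW : 1 ≤ W) {χ : ℤ√2 → ℂ} (h : Hc W χ) :
    ∃ (κ0 : ℝ) (ν : ℕ), 0 ≤ κ0 ∧ κ0 < 1 ∧ Tw W χ κ0 ν := by
  have hc : Cp W uu := by
    unfold Cp
    rw [nm_uu]
    exact isCoprime_one_left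
  have hn := h.norm_one hc
  obtain ⟨ν, hν1, hν⟩ := h.pow hW
  have hpi : (2 * Real.pi : ℝ) ≠ 0 := by positivity
  have hk : ee (Int.fract (-(Complex.arg (χ uu)) / (2 * Real.pi)))
      = Complex.exp (-(Complex.arg (χ uu)) * Complex.I) := by
    have e1 : Int.fract (-(Complex.arg (χ uu)) / (2 * Real.pi))
        = -(Complex.arg (χ uu)) / (2 * Real.pi)
          + ((-⌊-(Complex.arg (χ uu)) / (2 * Real.pi)⌋ : ℤ) : ℝ) := by
      push_cast
      rw [← Int.self_sub_floor]; ring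
    rw [e1, ee_add, ee_int, mul_one]
    simp only [ee]
    congr 1
    push_cast
    have hpi' : (Real.pi : ℂ) ≠ 0 := by exact_mod_cast Real.pi_ne_zero
    field_simp
  have hu : χ uu * ee (Int.fract (-(Complex.arg (χ uu)) / (2 * Real.pi))) = 1 := by
    rw [hk]
    have e2 := Complex.norm_mul_exp_arg_mul_I (χ uu)
    rw [hn, Complex.ofReal_one, one_mul] at e2
    nth_rw 1 [← e2]
    rw [← Complex.exp_add]
    have e3 : (Complex.arg (χ uu) : ℂ) * Complex.I + -(Complex.arg (χ uu) : ℂ) * Complex.I = 0 := by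
      ring
    rw [e3, Complex.exp_zero]
  refine ⟨Int.fract (-(Complex.arg (χ uu)) / (2 * Real.pi)), ν, Int.fract_nonneg _,
    Int.fract_lt_one _, h, hu, hν1, hν, ?_⟩
  apply FourierCore.ee_eq_one
  rw [FourierCore.ee_nat]
  have h1 := congrArg (fun x => x ^ ν) hu
  simp only [mul_pow, hν uu hc, one_mul, one_pow] at h1
  exact h1

/-- Proof. `un n = uu ^ n` for `n ≥ 0` (`un_one`, `un_add`), `un (-n) * un n = 1`. -/
theorem Tw_un_pow {W : ℕ} {χ : ℤ√2 → ℂ} {κ0 : ℝ} {ν : ℕ} (h : Tw W χ κ0 ν) (n : ℤ) :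
    χ (un n) * ee (κ0 * n) = 1 := by
  exact DA3_un h.hc h.un n

/-- Proof. `al_mul`, `ee_add`, `lz_mul`; the modulus is at most one; invariance: `al_un`, `Tw_un_pow`,
`lz_un`. -/
theorem MF_fx {W : ℕ} {χ : ℤ√2 → ℂ} {κ0 : ℝ} {ν : ℕ} (h : Tw W χ κ0 ν) : MF (fx χ κ0) := by
  refine ⟨?_, ?_, ?_⟩
  · intro z w hz hw
    have e : κ0 * (al z + al w) = κ0 * al z + κ0 * al w := by ring
    simp only [fx]
    rw [lz_mul hz.1 hw.1, h.hc.mul, al_mul hz.1 hw.1, e, ee_add]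
    ring
  · intro z _
    simp only [fx]
    rw [_root_.norm_mul, _root_.norm_mul, norm_lz, norm_ee, one_mul, mul_one]
    exact h.hc.le z
  · intro n z hz
    have e : κ0 * (al z + n) = κ0 * al z + κ0 * n := by ring
    simp only [fx]
    rw [lz_un, h.hc.mul, al_un hz, e, ee_add]
    calc lz z * (χ (un n) * χ z) * (ee (κ0 * al z) * ee (κ0 * n))
        = lz z * χ z * ee (κ0 * al z) * (χ (un n) * ee (κ0 * n)) := by ring
      _ = _ := by rw [DA3_un h.hc h.un n, mul_one]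

/-- if `χ uu = 1` then `χ` itself is invariant -/
theorem Hc.inv {W : ℕ} {χ : ℤ√2 → ℂ} (h : Hc W χ) (hu : χ uu = 1) : Inv χ := by
  intro n z _
  have h1 := DA3_un h (κ0 := 0) (by rw [hu, ee_zero, one_mul]) n
  rw [zero_mul, ee_zero, mul_one] at h1
  rw [h.mul, h1, one_mul]

/-- at frequency `-κ0`, an integer, only the character remains -/
theorem fx_xi {χ : ℤ√2 → ℂ} {κ0 : ℝ} {k : ℤ} (hk : (k : ℝ) + κ0 = 0) (z : ℤ√2) :
    fx χ κ0 z * xi k z = lz z * χ z := by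
  simp only [fx, xi]
  rw [mul_assoc, ← ee_add]
  have e : κ0 * al z + k * al z = 0 := by
    rw [← add_mul, add_comm, hk, zero_mul]
  rw [e, ee_zero, mul_one]

end

end Pool.Agent.Lib.MP_0b748d_nt.HD
end

section

section

set_option autoImplicit false

/-!
# Elements in residue classes
-/

namespace Pool.Agent.Lib.MP_0b748d_nt.HD

open Zsqrtd MR

noncomputable section

open Classical in
/-- odd elements modulo units in a residue class modulo `W` -/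
def Cs (W : ℕ) (a b : ℤ) (X : ℝ) : Finset (ℤ√2) :=
  (Vs 0 X).filter (fun z => (W : ℤ) ∣ z.re - a ∧ (W : ℤ) ∣ z.im - b)

theorem DC1_conv (S : Finset ℤ) (hS : ∀ x ∈ S, ∀ y ∈ S, ∀ z, x ≤ z → z ≤ y → z ∈ S) (W : ℕ)
    (hW : 1 ≤ W) (v v' : ℤ) :
    |((S.filter (fun u => (W : ℤ) ∣ u - v)).card : ℤ) -
      ((S.filter (fun u => (W : ℤ) ∣ u - v')).card : ℤ)| ≤ 1 := by
  rcases S.eq_empty_or_nonempty with rfl | hne
  · simp
  have hr : (0 : ℤ) < (W : ℤ) := by exact_mod_cast hW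
  have hrq : (0 : ℚ) < ((W : ℤ) : ℚ) := by exact_mod_cast hr
  have hI : S = Finset.Ico (S.min' hne) (S.max' hne + 1) := by
    ext z
    rw [Finset.mem_Ico, Int.lt_add_one_iff]
    exact ⟨fun h => ⟨S.min'_le z h, S.le_max' z h⟩,
      fun h => hS _ (S.min'_mem hne) _ (S.max'_mem hne) z h.1 h.2⟩
  have key : ∀ v : ℤ, ((S.filter (fun u => (W : ℤ) ∣ u - v)).card : ℤ) =
      max (⌈(((S.max' hne + 1 : ℤ) : ℚ) - v) / ((W : ℤ) : ℚ)⌉ -
        ⌈(((S.min' hne : ℤ) : ℚ) - v) / ((W : ℤ) : ℚ)⌉) 0 := by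
    intro v
    rw [← Int.Ico_filter_modEq_card (S.min' hne) (S.max' hne + 1) hr v, ← hI]
    congr 2
    refine Finset.filter_congr fun u _ => ?_
    rw [Int.modEq_comm, Int.modEq_iff_dvd]
  rw [key, key]
  refine (abs_max_sub_max_le_abs _ _ _).trans ?_
  have e : ∀ v : ℤ, (((S.max' hne + 1 : ℤ) : ℚ) - v) / ((W : ℤ) : ℚ) =
      (((S.min' hne : ℤ) : ℚ) - v) / ((W : ℤ) : ℚ) +
        (((S.max' hne + 1 : ℤ) : ℚ) - ((S.min' hne : ℤ) : ℚ)) / ((W : ℤ) : ℚ) := by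
    intro v
    field_simp
    ring
  have h1 := Int.le_ceil ((((S.max' hne + 1 : ℤ) : ℚ) - v) / ((W : ℤ) : ℚ))
  have h2 := Int.ceil_lt_add_one ((((S.max' hne + 1 : ℤ) : ℚ) - v) / ((W : ℤ) : ℚ))
  have h3 := Int.le_ceil ((((S.max' hne + 1 : ℤ) : ℚ) - v') / ((W : ℤ) : ℚ))
  have h4 := Int.ceil_lt_add_one ((((S.max' hne + 1 : ℤ) : ℚ) - v') / ((W : ℤ) : ℚ))
  have h5 := Int.le_ceil ((((S.min' hne : ℤ) : ℚ) - v) / ((W : ℤ) : ℚ))
  have h6 := Int.ceil_lt_add_one ((((S.min' hne : ℤ) : ℚ) - v) / ((W : ℤ) : ℚ))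
  have h7 := Int.le_ceil ((((S.min' hne : ℤ) : ℚ) - v') / ((W : ℤ) : ℚ))
  have h8 := Int.ceil_lt_add_one ((((S.min' hne : ℤ) : ℚ) - v') / ((W : ℤ) : ℚ))
  have ev := e v
  have ev' := e v'
  set A := ⌈(((S.max' hne + 1 : ℤ) : ℚ) - v) / ((W : ℤ) : ℚ)⌉
  set B := ⌈(((S.max' hne + 1 : ℤ) : ℚ) - v') / ((W : ℤ) : ℚ)⌉
  set C := ⌈(((S.min' hne : ℤ) : ℚ) - v) / ((W : ℤ) : ℚ)⌉
  set D := ⌈(((S.min' hne : ℤ) : ℚ) - v') / ((W : ℤ) : ℚ)⌉
  have h9 : (A - C - (B - D) : ℤ) < 2 := by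
    have : ((A - C - (B - D) : ℤ) : ℚ) < 2 := by
      push_cast
      linarith
    exact_mod_cast this
  have h10 : (-2 : ℤ) < A - C - (B - D) := by
    have : (-2 : ℚ) < ((A - C - (B - D) : ℤ) : ℚ) := by
      push_cast
      linarith
    exact_mod_cast this
  rw [abs_le]
  omega

theorem DC1_mem {W : ℕ} (hW2 : W % 2 = 0) {X : ℝ} {a b : ℤ} (ha : a % 2 = 1) {z : ℤ√2} :
    z ∈ Cs W a b X ↔ (W : ℤ) ∣ z.re - a ∧ (W : ℤ) ∣ z.im - b ∧ 0 ≤ z.im ∧ 3 * z.im < 2 * z.re ∧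
      ((nm z : ℤ) : ℝ) < X := by
  unfold Cs
  rw [Finset.mem_filter, mem_Vs]
  constructor
  · rintro ⟨⟨h1, -, h3, h4⟩, h5, h6⟩
    obtain ⟨h7, h8⟩ := (al_range h1.1).1 h4
    exact ⟨h5, h6, h7, h8, h3⟩
  · rintro ⟨h1, h2, h3, h4, h5⟩
    have hre : 0 < z.re := by linarith
    have hnm : 0 < nm z := by
      simp only [nm]
      nlinarith
    have hTP : TP z := (TP_iff z).2 ⟨hre, hnm⟩
    refine ⟨⟨⟨hTP, ?_⟩, by exact_mod_cast hnm.le, h5, (al_range hTP).2 ⟨h3, h4⟩⟩, h1, h2⟩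
    have h2W : (2 : ℤ) ∣ (W : ℤ) := by omega
    have := h2W.trans h1
    omega

theorem DC1_bd {X : ℝ} (hX : 1 ≤ X) {u v : ℤ} (hv : 0 ≤ v) (h : 3 * v < 2 * u)
    (hn : ((u ^ 2 - 2 * v ^ 2 : ℤ) : ℝ) < X) : u ≤ ⌊3 * √X⌋ ∧ v ≤ ⌊3 * √X⌋ ∧ 0 ≤ u := by
  have hu : 0 ≤ u := by linarith
  have h1 : (u : ℝ) ≤ 3 * √X := by
    have h2 : u ^ 2 ≤ 9 * (u ^ 2 - 2 * v ^ 2) := by nlinarith
    have h3 : ((u : ℝ)) ^ 2 ≤ 9 * ((u ^ 2 - 2 * v ^ 2 : ℤ) : ℝ) := by exact_mod_cast h2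
    have h4 : ((u : ℝ)) ^ 2 ≤ 9 * X := by linarith
    have h5 : (3 * √X) ^ 2 = 9 * X := by
      rw [mul_pow, Real.sq_sqrt (by linarith)]
      norm_num
    rw [← h5] at h4
    exact le_of_sq_le_sq h4 (by positivity)
  have h2 : u ≤ ⌊3 * √X⌋ := Int.le_floor.2 h1
  exact ⟨h2, by linarith, hu⟩

/-- all odd classes have the same number of elements up to `O(√X)`.

Proof. By `mem_Vs`, `al_range`: `z ∈ Vs 0 X` iff `re z` is odd, `0 ≤ im z`, `3 im z < 2 re z`,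
`re² - 2 im² < X` (these imply `TP z` by `TP_iff`). So `im² < 4 X`, `re² < 9 X`. For given `im z = v`
the possible `re z` are the odd integers of an interval `3 v < 2 u`, `u² < X + 2 v²`; as `W` is even
and `a` odd, the condition `re z ≡ a mod W` implies that `re z` is odd; the numbers of integers
`≡ a` and `≡ a' mod W` in an interval differ by at most `1` (`Int.Ico_filter_modEq_card` or
`Int.Ioc_filter_modEq_card`). There are at most `2 √X + 1` values of `v`: so `(a, b)` and `(a', b)`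
differ by at most `3 √X`. In the same way for given `re z = u` (at most `3 √X + 1` values) the
possible `im z` form an interval, and `(a', b)`, `(a', b')` differ by at most `4 √X`. -/
theorem cls_count (W : ℕ) (hW : 1 ≤ W) (hW2 : W % 2 = 0) (X : ℝ) (hX : 1 ≤ X) (a b a' b' : ℤ)
    (ha : a % 2 = 1) (ha' : a' % 2 = 1) :
    |((Cs W a b X).card : ℝ) - ((Cs W a' b' X).card : ℝ)| ≤ 16 * √X := by
  classical
  set M : ℤ := ⌊3 * √X⌋ with hM
  have hs1 : 1 ≤ √X := by rw [Real.one_le_sqrt]; exact hX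
  have hM0 : 0 ≤ M := by
    rw [hM, Int.floor_nonneg]
    positivity
  have hMle : (M : ℝ) ≤ 3 * √X := Int.floor_le _
  have hcardI : ((Finset.Icc 0 M).card : ℤ) = M + 1 := by
    rw [Int.card_Icc]
    omega
  have hcardR : ((Finset.Icc 0 M).card : ℝ) ≤ 4 * √X := by
    have : ((Finset.Icc 0 M).card : ℝ) = (M : ℝ) + 1 := by exact_mod_cast hcardI
    rw [this]
    linarith
  -- fibres over the imaginary part
  have fim : ∀ a b : ℤ, a % 2 = 1 → ((Cs W a b X).card : ℤ) =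
      ∑ v ∈ Finset.Icc 0 M, if (W : ℤ) ∣ v - b then
        ((((Finset.Icc 0 M).filter (fun u => 3 * v < 2 * u ∧
          ((u ^ 2 - 2 * v ^ 2 : ℤ) : ℝ) < X)).filter (fun u => (W : ℤ) ∣ u - a)).card : ℤ)
        else 0 := by
    intro a b ha
    rw [Finset.card_eq_sum_card_fiberwise (f := fun z : ℤ√2 => z.im) (t := Finset.Icc 0 M)]
    · rw [Nat.cast_sum]
      refine Finset.sum_congr rfl fun v hv => ?_
      split_ifs with hvb
      · congr 1
        refine Finset.card_bij (fun z _ => z.re) ?_ ?_ ?_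
        · intro z hz
          rw [Finset.mem_filter, DC1_mem hW2 ha] at hz
          obtain ⟨⟨h1, h2, h3, h4, h5⟩, h6⟩ := hz
          have h6' : z.im = v := h6
          have h7 := DC1_bd hX h3 h4 h5
          rw [Finset.mem_filter, Finset.mem_filter, Finset.mem_Icc]
          refine ⟨⟨⟨h7.2.2, h7.1⟩, ?_, ?_⟩, h1⟩
          · rw [← h6']; exact h4
          · rw [← h6']; exact h5
        · intro z hz z' hz' he
          rw [Finset.mem_filter] at hz hz'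
          have h1 : z.im = v := hz.2
          have h2 : z'.im = v := hz'.2
          exact Zsqrtd.ext he (h1.trans h2.symm)
        · intro u hu
          rw [Finset.mem_filter, Finset.mem_filter, Finset.mem_Icc] at hu
          rw [Finset.mem_Icc] at hv
          refine ⟨⟨u, v⟩, ?_, rfl⟩
          rw [Finset.mem_filter, DC1_mem hW2 ha]
          exact ⟨⟨hu.2, hvb, hv.1, hu.1.2.1, hu.1.2.2⟩, rfl⟩
      · rw [Nat.cast_eq_zero, Finset.card_eq_zero, Finset.filter_eq_empty_iff]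
        intro z hz he
        rw [DC1_mem hW2 ha] at hz
        apply hvb
        rw [← he]
        exact hz.2.1
    · intro z hz
      rw [Finset.mem_coe, DC1_mem hW2 ha] at hz
      have h7 := DC1_bd hX hz.2.2.1 hz.2.2.2.1 hz.2.2.2.2
      rw [Finset.mem_coe, Finset.mem_Icc]
      exact ⟨hz.2.2.1, h7.2.1⟩
  have fre : ∀ a b : ℤ, a % 2 = 1 → ((Cs W a b X).card : ℤ) =
      ∑ u ∈ Finset.Icc 0 M, if (W : ℤ) ∣ u - a then
        ((((Finset.Icc 0 M).filter (fun v => 3 * v < 2 * u ∧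
          ((u ^ 2 - 2 * v ^ 2 : ℤ) : ℝ) < X)).filter (fun v => (W : ℤ) ∣ v - b)).card : ℤ)
        else 0 := by
    intro a b ha
    rw [Finset.card_eq_sum_card_fiberwise (f := fun z : ℤ√2 => z.re) (t := Finset.Icc 0 M)]
    · rw [Nat.cast_sum]
      refine Finset.sum_congr rfl fun u hu => ?_
      split_ifs with hvb
      · congr 1
        refine Finset.card_bij (fun z _ => z.im) ?_ ?_ ?_
        · intro z hz
          rw [Finset.mem_filter, DC1_mem hW2 ha] at hz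
          obtain ⟨⟨h1, h2, h3, h4, h5⟩, h6⟩ := hz
          have h6' : z.re = u := h6
          have h7 := DC1_bd hX h3 h4 h5
          rw [Finset.mem_filter, Finset.mem_filter, Finset.mem_Icc]
          refine ⟨⟨⟨h3, h7.2.1⟩, ?_, ?_⟩, h2⟩
          · rw [← h6']; exact h4
          · rw [← h6']; exact h5
        · intro z hz z' hz' he
          rw [Finset.mem_filter] at hz hz'
          have h1 : z.re = u := hz.2
          have h2 : z'.re = u := hz'.2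
          exact Zsqrtd.ext (h1.trans h2.symm) he
        · intro v hv
          rw [Finset.mem_filter, Finset.mem_filter, Finset.mem_Icc] at hv
          refine ⟨⟨u, v⟩, ?_, rfl⟩
          rw [Finset.mem_filter, DC1_mem hW2 ha]
          exact ⟨⟨hvb, hv.2, hv.1.1.1, hv.1.2.1, hv.1.2.2⟩, rfl⟩
      · rw [Nat.cast_eq_zero, Finset.card_eq_zero, Finset.filter_eq_empty_iff]
        intro z hz he
        rw [DC1_mem hW2 ha] at hz
        apply hvb
        rw [← he]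
        exact hz.1
    · intro z hz
      rw [Finset.mem_coe, DC1_mem hW2 ha] at hz
      have h7 := DC1_bd hX hz.2.2.1 hz.2.2.2.1 hz.2.2.2.2
      rw [Finset.mem_coe, Finset.mem_Icc]
      exact ⟨h7.2.2, h7.1⟩
  have d1 : |((Cs W a b X).card : ℤ) - ((Cs W a' b X).card : ℤ)| ≤
      ((Finset.Icc 0 M).card : ℤ) := by
    rw [fim a b ha, fim a' b ha', ← Finset.sum_sub_distrib]
    refine (Finset.abs_sum_le_sum_abs _ _).trans ?_
    refine (Finset.sum_le_card_nsmul _ _ 1 fun v hv => ?_).trans (by simp)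
    split_ifs with h
    · refine DC1_conv _ ?_ W hW a a'
      intro x hx y hy z hxz hzy
      rw [Finset.mem_filter, Finset.mem_Icc] at hx hy ⊢
      refine ⟨⟨hx.1.1.trans hxz, hzy.trans hy.1.2⟩, by linarith [hx.2.1], ?_⟩
      have h1 : z ^ 2 - 2 * v ^ 2 ≤ y ^ 2 - 2 * v ^ 2 := by nlinarith [hx.1.1]
      have h2 : ((z ^ 2 - 2 * v ^ 2 : ℤ) : ℝ) ≤ ((y ^ 2 - 2 * v ^ 2 : ℤ) : ℝ) := by
        exact_mod_cast h1
      exact h2.trans_lt hy.2.2
    · simp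
  have d2 : |((Cs W a' b X).card : ℤ) - ((Cs W a' b' X).card : ℤ)| ≤
      ((Finset.Icc 0 M).card : ℤ) := by
    rw [fre a' b ha', fre a' b' ha', ← Finset.sum_sub_distrib]
    refine (Finset.abs_sum_le_sum_abs _ _).trans ?_
    refine (Finset.sum_le_card_nsmul _ _ 1 fun u hu => ?_).trans (by simp)
    split_ifs with h
    · refine DC1_conv _ ?_ W hW b b'
      intro x hx y hy z hxz hzy
      rw [Finset.mem_filter, Finset.mem_Icc] at hx hy ⊢
      refine ⟨⟨hx.1.1.trans hxz, hzy.trans hy.1.2⟩, by linarith [hy.2.1], ?_⟩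
      have h1 : u ^ 2 - 2 * z ^ 2 ≤ u ^ 2 - 2 * x ^ 2 := by nlinarith [hx.1.1]
      have h2 : ((u ^ 2 - 2 * z ^ 2 : ℤ) : ℝ) ≤ ((u ^ 2 - 2 * x ^ 2 : ℤ) : ℝ) := by
        exact_mod_cast h1
      exact h2.trans_lt hx.2.2
    · simp
  have d1' : |((Cs W a b X).card : ℝ) - ((Cs W a' b X).card : ℝ)| ≤
      ((Finset.Icc 0 M).card : ℝ) := by exact_mod_cast d1
  have d2' : |((Cs W a' b X).card : ℝ) - ((Cs W a' b' X).card : ℝ)| ≤
      ((Finset.Icc 0 M).card : ℝ) := by exact_mod_cast d2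
  have := abs_sub_le ((Cs W a b X).card : ℝ) ((Cs W a' b X).card : ℝ) ((Cs W a' b' X).card : ℝ)
  linarith

end

end Pool.Agent.Lib.MP_0b748d_nt.HD
end

section

set_option autoImplicit false

/-!
# Sums of nontrivial characters
-/

namespace Pool.Agent.Lib.MP_0b748d_nt.HD

open Zsqrtd MR

noncomputable section

/-- residue classes with odd real part -/
def DC2S (W : ℕ) : Finset (ℕ × ℕ) :=
  (Finset.range W).filter (fun a => a % 2 = 1) ×ˢ Finset.range W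

/-- the class of an element -/
def DC2c (W : ℕ) (z : ℤ√2) : ℕ × ℕ := ((z.re % (W : ℤ)).toNat, (z.im % (W : ℤ)).toNat)

theorem DC2_mem {W : ℕ} {x : ℕ × ℕ} : x ∈ DC2S W ↔ (x.1 < W ∧ x.1 % 2 = 1) ∧ x.2 < W := by
  unfold DC2S
  rw [Finset.mem_product, Finset.mem_filter, Finset.mem_range, Finset.mem_range]

theorem DC2_cast {W : ℕ} (hW : 1 ≤ W) (z : ℤ√2) :
    ((DC2c W z).1 : ℤ) = z.re % (W : ℤ) ∧ ((DC2c W z).2 : ℤ) = z.im % (W : ℤ) := by
  have hW0 : (W : ℤ) ≠ 0 := by omega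
  unfold DC2c
  exact ⟨Int.toNat_of_nonneg (Int.emod_nonneg _ hW0), Int.toNat_of_nonneg (Int.emod_nonneg _ hW0)⟩

theorem DC2_maps {W : ℕ} (hW : 1 ≤ W) (hW2 : W % 2 = 0) {z : ℤ√2} (hz : z.re % 2 = 1) :
    DC2c W z ∈ DC2S W := by
  have hW0 : (0 : ℤ) < (W : ℤ) := by omega
  obtain ⟨h1, h2⟩ := DC2_cast hW z
  have h3 := Int.emod_lt_of_pos z.re hW0
  have h4 := Int.emod_lt_of_pos z.im hW0
  have h5 : (z.re % (W : ℤ)) % 2 = z.re % 2 := Int.emod_emod_of_dvd _ (by omega)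
  rw [DC2_mem]
  refine ⟨⟨?_, ?_⟩, ?_⟩ <;> omega

theorem DC2_dvd {W : ℕ} (hW : 1 ≤ W) (z : ℤ√2) :
    ((W : ℕ) : ℤ√2) ∣ ⟨((DC2c W z).1 : ℤ), ((DC2c W z).2 : ℤ)⟩ - z := by
  have h2 : ((W : ℕ) : ℤ√2) = ((W : ℤ) : ℤ√2) := by push_cast; rfl
  obtain ⟨h3, h4⟩ := DC2_cast hW z
  rw [h2, Zsqrtd.intCast_dvd, Zsqrtd.re_sub, Zsqrtd.im_sub]
  simp only
  rw [h3, h4]
  exact ⟨Int.dvd_emod_sub_self, Int.dvd_emod_sub_self⟩

theorem DC2_eq {W : ℕ} {x y : ℕ × ℕ} (hx : x ∈ DC2S W) (hy : y ∈ DC2S W)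
    (h : ((W : ℕ) : ℤ√2) ∣ (⟨(x.1 : ℤ), (x.2 : ℤ)⟩ : ℤ√2) - ⟨(y.1 : ℤ), (y.2 : ℤ)⟩) : x = y := by
  have h2 : ((W : ℕ) : ℤ√2) = ((W : ℤ) : ℤ√2) := by push_cast; rfl
  rw [h2, Zsqrtd.intCast_dvd, Zsqrtd.re_sub, Zsqrtd.im_sub] at h
  simp only at h
  rw [DC2_mem] at hx hy
  have key : ∀ a b : ℕ, a < W → b < W → (W : ℤ) ∣ (a : ℤ) - b → a = b := by
    intro a b ha hb hab
    have h3 : (a : ℤ) - b = 0 := by
      refine Int.eq_zero_of_abs_lt_dvd hab ?_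
      rw [abs_lt]
      omega
    omega
  exact Prod.ext (key _ _ hx.1.1 hy.1.1 h.1) (key _ _ hx.2 hy.2 h.2)

/-- Proof. `z0` is invertible modulo `W` (`Cp`), so multiplication by `z0` permutes the residue
classes with odd real part (`nm z0` is odd, `W` even), and `∑ η = η z0 ∑ η`. -/
theorem eta_cls {W : ℕ} (hW : 1 ≤ W) (hW2 : W % 2 = 0) {η : ℤ√2 → ℂ} (h : Hc W η) {z0 : ℤ√2}
    (hz0 : Cp W z0) (hne : η z0 ≠ 1) :
    ∑ a ∈ (Finset.range W).filter (fun a => a % 2 = 1), ∑ b ∈ Finset.range W,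
      η ⟨(a : ℤ), (b : ℤ)⟩ = 0 := by
  classical
  rw [← Finset.sum_product']
  change ∑ x ∈ DC2S W, η ⟨(x.1 : ℤ), (x.2 : ℤ)⟩ = 0
  have hre0 : z0.re % 2 = 1 := by
    obtain ⟨c, d, hcd⟩ := hz0
    by_contra h1
    have h2 : (2 : ℤ) ∣ z0.re := by omega
    have h3 : (2 : ℤ) ∣ nm z0 := by
      simp only [nm]
      exact dvd_sub (h2.trans (dvd_pow_self _ two_ne_zero)) (dvd_mul_right _ _)
    have h4 : (2 : ℤ) ∣ (W : ℤ) := by omega
    have h5 : (2 : ℤ) ∣ 1 := by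
      rw [← hcd]
      exact dvd_add (h3.mul_left c) (h4.mul_left d)
    omega
  have hTre : ∀ x ∈ DC2S W, (z0 * ⟨(x.1 : ℤ), (x.2 : ℤ)⟩ : ℤ√2).re % 2 = 1 := by
    intro x hx
    rw [DC2_mem] at hx
    rw [Zsqrtd.re_mul]
    simp only
    have h1 : ((x.1 : ℤ)) % 2 = 1 := by omega
    have h2 : (z0.re * (x.1 : ℤ)) % 2 = 1 := by
      rw [Int.mul_emod, hre0, h1]
      norm_num
    have h3 : (2 : ℤ) * z0.im * (x.2 : ℤ) = 2 * (z0.im * (x.2 : ℤ)) := by ring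
    rw [h3]
    omega
  have himg : (DC2S W).image (fun x => DC2c W (z0 * ⟨(x.1 : ℤ), (x.2 : ℤ)⟩)) = DC2S W := by
    refine Finset.eq_of_subset_of_card_le ?_ ?_
    · intro y hy
      obtain ⟨x, hx, rfl⟩ := Finset.mem_image.1 hy
      exact DC2_maps hW hW2 (hTre x hx)
    · rw [Finset.card_image_of_injOn]
      intro x hx y hy hxy
      simp only at hxy
      have h1 := DC2_dvd hW (z0 * ⟨(x.1 : ℤ), (x.2 : ℤ)⟩)
      have h2 := DC2_dvd hW (z0 * ⟨(y.1 : ℤ), (y.2 : ℤ)⟩)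
      rw [hxy] at h1
      have h3 : ((W : ℕ) : ℤ√2) ∣ z0 * (⟨(x.1 : ℤ), (x.2 : ℤ)⟩ - ⟨(y.1 : ℤ), (y.2 : ℤ)⟩) := by
        have h4 := dvd_sub h2 h1
        rw [sub_sub_sub_cancel_left] at h4
        rw [mul_sub]
        exact h4
      refine DC2_eq hx hy ?_
      obtain ⟨c, d, hcd⟩ := hz0
      have h5 : (⟨(x.1 : ℤ), (x.2 : ℤ)⟩ - ⟨(y.1 : ℤ), (y.2 : ℤ)⟩ : ℤ√2) =
          (star z0 * ((c : ℤ) : ℤ√2)) * (z0 * (⟨(x.1 : ℤ), (x.2 : ℤ)⟩ - ⟨(y.1 : ℤ), (y.2 : ℤ)⟩)) +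
          ((W : ℕ) : ℤ√2) * (((d : ℤ) : ℤ√2) * (⟨(x.1 : ℤ), (x.2 : ℤ)⟩ - ⟨(y.1 : ℤ), (y.2 : ℤ)⟩)) := by
        have h6 : z0 * star z0 = ((nm z0 : ℤ) : ℤ√2) := by
          rw [Zsqrtd.ext_iff]
          simp only [nm, Zsqrtd.re_mul, Zsqrtd.im_mul, Zsqrtd.re_star, Zsqrtd.im_star,
            Zsqrtd.re_intCast, Zsqrtd.im_intCast]
          constructor <;> ring
        have h7 : ((1 : ℤ) : ℤ√2) = ((c * nm z0 + d * (W : ℤ) : ℤ) : ℤ√2) := by rw [hcd]
        push_cast at h7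
        generalize (⟨(x.1 : ℤ), (x.2 : ℤ)⟩ - ⟨(y.1 : ℤ), (y.2 : ℤ)⟩ : ℤ√2) = w at *
        linear_combination w * h7 - (c : ℤ√2) * w * h6
      rw [h5]
      exact dvd_add (h3.mul_left _) (dvd_mul_right _ _)
  have hsum : ∑ x ∈ DC2S W, η ⟨(x.1 : ℤ), (x.2 : ℤ)⟩ =
      η z0 * ∑ x ∈ DC2S W, η ⟨(x.1 : ℤ), (x.2 : ℤ)⟩ := by
    conv_lhs => rw [← himg]
    rw [Finset.sum_image, Finset.mul_sum]
    · refine Finset.sum_congr rfl fun x hx => ?_
      rw [← h.mul]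
      exact h.per _ _ (DC2_dvd hW _)
    · have hc : ((DC2S W).image (fun x => DC2c W (z0 * ⟨(x.1 : ℤ), (x.2 : ℤ)⟩))).card =
          (DC2S W).card := by rw [himg]
      exact Finset.card_image_iff.1 hc
  have h8 : (η z0 - 1) * ∑ x ∈ DC2S W, η ⟨(x.1 : ℤ), (x.2 : ℤ)⟩ = 0 := by
    rw [sub_mul, ← hsum, _root_.one_mul, sub_self]
  exact (mul_eq_zero.1 h8).resolve_left (sub_ne_zero.2 hne)

/-- Proof. Group `Vs 0 X` by the class modulo `W`: the sum is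
`∑_{a odd, b} η ⟨a, b⟩ #Cs W a b X`, and `#Cs W a b X = #Cs W 1 0 X + O(16 √X)` (`cls_count`); use
`eta_cls`. `C = 16 W²`. For `X ≤ 1` the set is empty. -/
theorem eta_sum {W : ℕ} (hW : 1 ≤ W) (hW2 : W % 2 = 0) {η : ℤ√2 → ℂ} (h : Hc W η) {z0 : ℤ√2}
    (hz0 : Cp W z0) (hne : η z0 ≠ 1) : ∃ C : ℝ, 1 ≤ C ∧ ∀ X : ℝ, 0 ≤ X →
    ‖∑ z ∈ Vs 0 X, η z‖ ≤ C * √X := by
  classical
  have hWr : (1 : ℝ) ≤ (W : ℝ) := by exact_mod_cast hW
  refine ⟨16 * (W : ℝ) ^ 2, by nlinarith, fun X hX => ?_⟩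
  rcases lt_or_ge X 1 with hX1 | hX1
  · have he : Vs 0 X = ∅ := by
      rw [Finset.eq_empty_iff_forall_notMem]
      intro z hz
      rw [mem_Vs] at hz
      have h1 : 0 < nm z := hz.1.1.nm_pos
      have h2 : (1 : ℝ) ≤ ((nm z : ℤ) : ℝ) := by exact_mod_cast h1
      linarith [hz.2.2.1]
    rw [he, Finset.sum_empty, _root_.norm_zero]
    positivity
  have hmaps : ∀ z ∈ Vs 0 X, DC2c W z ∈ DC2S W := fun z hz =>
    DC2_maps hW hW2 (mem_Vs.1 hz).1.2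
  rw [← Finset.sum_fiberwise_of_maps_to hmaps]
  have hfib : ∀ x ∈ DC2S W, ∑ z ∈ (Vs 0 X).filter (fun z => DC2c W z = x), η z =
      η ⟨(x.1 : ℤ), (x.2 : ℤ)⟩ * ((Cs W x.1 x.2 X).card : ℂ) := by
    intro x hx
    have h1 : (Vs 0 X).filter (fun z => DC2c W z = x) = Cs W x.1 x.2 X := by
      unfold Cs
      refine Finset.filter_congr fun z hz => ?_
      have h2 : ((W : ℕ) : ℤ√2) = ((W : ℤ) : ℤ√2) := by push_cast; rfl
      constructor
      · rintro rfl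
        have h3 := DC2_dvd hW z
        rw [h2, Zsqrtd.intCast_dvd, Zsqrtd.re_sub, Zsqrtd.im_sub] at h3
        exact ⟨(dvd_sub_comm).1 h3.1, (dvd_sub_comm).1 h3.2⟩
      · rintro ⟨h3, h4⟩
        refine DC2_eq (hmaps z hz) hx ?_
        have h5 := DC2_dvd hW z
        have h6 : ((W : ℕ) : ℤ√2) ∣ z - ⟨(x.1 : ℤ), (x.2 : ℤ)⟩ := by
          rw [h2, Zsqrtd.intCast_dvd, Zsqrtd.re_sub, Zsqrtd.im_sub]
          exact ⟨h3, h4⟩
        have h7 := dvd_add h5 h6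
        rwa [sub_add_sub_cancel] at h7
    rw [h1, Finset.sum_congr rfl (g := fun _ => η ⟨(x.1 : ℤ), (x.2 : ℤ)⟩), Finset.sum_const,
      nsmul_eq_mul, _root_.mul_comm]
    intro z hz
    unfold Cs at hz
    rw [Finset.mem_filter] at hz
    have h2 : ((W : ℕ) : ℤ√2) = ((W : ℤ) : ℤ√2) := by push_cast; rfl
    refine h.per _ _ ?_
    rw [h2, Zsqrtd.intCast_dvd, Zsqrtd.re_sub, Zsqrtd.im_sub]
    exact hz.2
  rw [Finset.sum_congr rfl hfib]
  have hcls := eta_cls hW hW2 h hz0 hne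
  rw [← Finset.sum_product'] at hcls
  change ∑ x ∈ DC2S W, η ⟨(x.1 : ℤ), (x.2 : ℤ)⟩ = 0 at hcls
  have hsub : ∑ x ∈ DC2S W, η ⟨(x.1 : ℤ), (x.2 : ℤ)⟩ * ((Cs W x.1 x.2 X).card : ℂ) =
      ∑ x ∈ DC2S W, η ⟨(x.1 : ℤ), (x.2 : ℤ)⟩ *
        (((Cs W x.1 x.2 X).card : ℂ) - ((Cs W 1 0 X).card : ℂ)) := by
    simp only [mul_sub]
    rw [Finset.sum_sub_distrib, ← Finset.sum_mul, hcls, zero_mul, sub_zero]
  rw [hsub]
  refine (norm_sum_le _ _).trans ?_
  have hb : ∀ x ∈ DC2S W, ‖η ⟨(x.1 : ℤ), (x.2 : ℤ)⟩ *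
      (((Cs W x.1 x.2 X).card : ℂ) - ((Cs W 1 0 X).card : ℂ))‖ ≤ 16 * √X := by
    intro x hx
    rw [_root_.norm_mul]
    have h1 := cls_count W hW hW2 X hX1 x.1 x.2 1 0 (by have := (DC2_mem.1 hx).1.2; omega)
      (by norm_num)
    have h2 : ‖(((Cs W x.1 x.2 X).card : ℂ) - ((Cs W 1 0 X).card : ℂ))‖ =
        |((Cs W x.1 x.2 X).card : ℝ) - ((Cs W 1 0 X).card : ℝ)| := by
      rw [← Real.norm_eq_abs, ← Complex.norm_real]
      push_cast
      rfl
    rw [h2]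
    calc ‖η ⟨(x.1 : ℤ), (x.2 : ℤ)⟩‖ * |((Cs W x.1 x.2 X).card : ℝ) - ((Cs W 1 0 X).card : ℝ)|
        ≤ 1 * |((Cs W x.1 x.2 X).card : ℝ) - ((Cs W 1 0 X).card : ℝ)| :=
          mul_le_mul_of_nonneg_right (h.le _) (abs_nonneg _)
      _ ≤ 16 * √X := by rw [_root_.one_mul]; exact h1
  refine (Finset.sum_le_card_nsmul _ _ _ hb).trans ?_
  rw [nsmul_eq_mul]
  have hcard : ((DC2S W).card : ℝ) ≤ (W : ℝ) ^ 2 := by
    have h1 : (DC2S W).card ≤ W * W := by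
      unfold DC2S
      rw [Finset.card_product, Finset.card_range]
      exact Nat.mul_le_mul_right _ ((Finset.card_filter_le _ _).trans (by rw [Finset.card_range]))
    rw [sq]
    exact_mod_cast h1
  have h9 : 0 ≤ √X := Real.sqrt_nonneg X
  calc ((DC2S W).card : ℝ) * (16 * √X) ≤ (W : ℝ) ^ 2 * (16 * √X) :=
        mul_le_mul_of_nonneg_right hcard (by positivity)
    _ = 16 * (W : ℝ) ^ 2 * √X := by ring

end

end Pool.Agent.Lib.MP_0b748d_nt.HD
end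

section

set_option autoImplicit false

/-!
# The function an
-/

namespace Pool.Agent.Lib.MP_0b748d_nt.HD

open Zsqrtd MR

noncomputable section

open Classical in
/-- the function restricted to the elements of norm `N` -/
private def DC3_ps (φ : ℤ√2 → ℂ) (N : ℕ) (w : ℤ√2) : ℂ := if nm w = (N : ℤ) then φ w else 0

private theorem DC3_inv {φ : ℤ√2 → ℂ} (hφ : Inv φ) (N : ℕ) : Inv (DC3_ps φ N) := by
  intro n z hz
  unfold DC3_ps
  rw [nm_un, hφ n z hz]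

private theorem DC3_an {φ : ℤ√2 → ℂ} {N : ℕ} {a b : ℝ} (ha : a ≤ N) (hb : (N : ℝ) < b) :
    ∑ w ∈ Vs a b, DC3_ps φ N w = an φ N := by
  classical
  unfold an DC3_ps
  rw [← Finset.sum_filter]
  refine Finset.sum_congr ?_ fun _ _ => rfl
  ext w
  rw [Finset.mem_filter, Finset.mem_filter, mem_Vs, mem_Vs]
  constructor
  · rintro ⟨⟨h1, h2, h3, h4⟩, h5⟩
    have h6 : (nm w : ℝ) = N := by rw [h5]; push_cast; rfl
    refine ⟨⟨h1, ?_, ?_, h4⟩, h5⟩
    · rw [h6]; exact Nat.cast_nonneg _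
    · rw [h6]; linarith
  · rintro ⟨⟨h1, h2, h3, h4⟩, h5⟩
    have h6 : (nm w : ℝ) = N := by rw [h5]; push_cast; rfl
    exact ⟨⟨h1, by rw [h6]; exact ha, by rw [h6]; exact hb, h4⟩, h5⟩

open Classical in
/-- sums over the elements of norm `M` divisible by `ρ` -/
private theorem DC3_dvd {φ : ℤ√2 → ℂ} (hφ : Inv φ) (hm : ∀ z w, φ (z * w) = φ z * φ w)
    {ρ : ℤ√2} (hρ : OT ρ) {q N : ℕ} (hq : nm ρ = (q : ℤ)) :
    ∑ w ∈ (Vs 0 (((q * N : ℕ) : ℝ) + 1)).filter (fun w => ρ ∣ w), DC3_ps φ (q * N) w =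
      φ ρ * an φ N := by
  have hq0 : 0 < q := by
    have := hρ.1.nm_pos
    rw [hq] at this
    exact_mod_cast this
  have hq' : (0 : ℝ) < q := by exact_mod_cast hq0
  rw [sum_dvd ρ hρ _ _ _ (DC3_inv hφ _), hq]
  have h1 : ∀ m ∈ Vs (0 / ((q : ℤ) : ℝ)) ((((q * N : ℕ) : ℝ) + 1) / ((q : ℤ) : ℝ)),
      DC3_ps φ (q * N) (ρ * m) = φ ρ * DC3_ps φ N m := by
    intro m _
    unfold DC3_ps
    rw [nm_mul, hq, hm]
    have h2 : ((q : ℤ) * nm m = ((q * N : ℕ) : ℤ)) ↔ nm m = (N : ℤ) := by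
      push_cast
      constructor
      · intro h
        exact mul_left_cancel₀ (by exact_mod_cast hq0.ne') h
      · intro h
        rw [h]
    by_cases h3 : nm m = (N : ℤ)
    · rw [if_pos (h2.2 h3), if_pos h3]
    · rw [if_neg (fun h => h3 (h2.1 h)), if_neg h3, mul_zero]
  rw [Finset.sum_congr rfl h1, ← Finset.mul_sum, DC3_an]
  · rw [zero_div]; exact Nat.cast_nonneg _
  · rw [Int.cast_natCast, lt_div_iff₀ hq']
    push_cast
    nlinarith

open Classical in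
/-- sums over the elements of norm `p N` divisible by the integer `p` -/
private theorem DC3_nat {φ : ℤ√2 → ℂ} (hφ : Inv φ) (hm : ∀ z w, φ (z * w) = φ z * φ w)
    {p N : ℕ} (hp : p.Prime) (h2 : p % 2 = 1) :
    ∑ w ∈ (Vs 0 (((p * N : ℕ) : ℝ) + 1)).filter (fun w => ((p : ℕ) : ℤ√2) ∣ w),
      DC3_ps φ (p * N) w = if p ∣ N then φ ((p : ℕ) : ℤ√2) * an φ (N / p) else 0 := by
  have hp0 : 0 < p := hp.pos
  split_ifs with h
  · obtain ⟨M, rfl⟩ := h
    rw [Nat.mul_div_cancel_left _ hp0]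
    have h3 := DC3_dvd hφ hm (OT_nat p h2) (q := p ^ 2) (N := M) (by rw [nm_nat]; push_cast; rfl)
    have h4 : p * (p * M) = p ^ 2 * M := by ring
    rw [h4]
    exact h3
  · refine Finset.sum_eq_zero fun w hw => ?_
    rw [Finset.mem_filter] at hw
    obtain ⟨-, y, rfl⟩ := hw
    unfold DC3_ps
    rw [if_neg]
    intro h5
    rw [nm_mul, nm_nat] at h5
    push_cast at h5
    have h6 : (p : ℤ) * ((p : ℤ) * nm y) = (p : ℤ) * N := by rw [← h5]; ring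
    have h7 : (p : ℤ) * nm y = N := mul_left_cancel₀ (by exact_mod_cast hp0.ne') h6
    exact h (by exact_mod_cast (Dvd.intro _ h7 : (p : ℤ) ∣ (N : ℤ)))

private theorem DC3_inert {p : ℕ} (hp : p.Prime) (h2 : p ≠ 2) (hs : ¬ Sp p) {w : ℤ√2}
    (h : (p : ℤ) ∣ nm w) : ((p : ℕ) : ℤ√2) ∣ w := by
  have hpp : Fact p.Prime := ⟨hp⟩
  have hpi : Prime (p : ℤ) := Nat.prime_iff_prime_int.mp hp
  by_cases h1 : (p : ℤ) ∣ w.im
  · have h3 : (p : ℤ) ∣ w.re ^ 2 := by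
      have h4 : w.re ^ 2 = nm w + w.im * (2 * w.im) := by simp only [nm]; ring
      rw [h4]
      exact dvd_add h (h1.mul_right _)
    exact (nat_dvd p w).mpr ⟨hpi.dvd_of_dvd_pow h3, h1⟩
  · exfalso
    have h3 : (w.im : ZMod p) ≠ 0 := fun h4 => h1 ((ZMod.intCast_zmod_eq_zero_iff_dvd _ _).mp h4)
    have h4 : ((nm w : ℤ) : ZMod p) = 0 := (ZMod.intCast_zmod_eq_zero_iff_dvd _ _).mpr h
    have h5 : IsSquare (2 : ZMod p) := by
      refine ⟨(w.re : ZMod p) / w.im, ?_⟩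
      simp only [nm] at h4
      push_cast at h4
      field_simp
      linear_combination -h4
    exact hs ⟨hp, (ZMod.exists_sq_eq_two_iff h2).mp h5⟩

/-- Proof. A totally positive element of norm one is `un n` (`eq_un`), and `0 ≤ al < 1` forces
`n = 0`. -/
theorem an_one {φ : ℤ√2 → ℂ} (h1 : φ 1 = 1) : an φ 1 = 1 := by
  unfold an
  have hTP1 : TP (1 : ℤ√2) := by
    unfold TP s1 s2
    simp
  have hal1 : al (1 : ℤ√2) = 0 := by
    unfold al th s1 s2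
    simp
  have h2 : (Vs 0 (((1 : ℕ) : ℝ) + 1)).filter (fun z => nm z = ((1 : ℕ) : ℤ)) = {1} := by
    ext z
    rw [Finset.mem_filter, mem_Vs, Finset.mem_singleton]
    constructor
    · rintro ⟨⟨h3, -, -, h4, h5⟩, h6⟩
      obtain ⟨n, rfl⟩ := eq_un h3.1 (by rw [h6]; rfl)
      have h7 : al (un n) = n := by
        have := al_un hTP1 n
        rwa [mul_one, hal1, zero_add] at this
      rw [h7] at h4 h5
      have h8 : n = 0 := by
        have h9 : (0 : ℤ) ≤ n := by exact_mod_cast h4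
        have h10 : n < 1 := by exact_mod_cast h5
        omega
      rw [h8, un_zero]
    · rintro rfl
      refine ⟨⟨⟨hTP1, by simp⟩, ?_, ?_, ?_, ?_⟩, ?_⟩
      · simp [nm]
      · simp [nm]
      · rw [hal1]
      · rw [hal1]; norm_num
      · simp [nm]
  rw [h2, Finset.sum_singleton, h1]

/-- odd norms only -/
theorem an_two (φ : ℤ√2 → ℂ) (N : ℕ) : an φ (2 * N) = 0 := by
  unfold an
  rw [Finset.filter_false_of_mem, Finset.sum_empty]
  intro z hz h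
  have h1 := (mem_Vs.1 hz).1.2
  unfold nm at h
  push_cast at h
  have h2 : z.re ^ 2 % 2 = 1 := by
    obtain ⟨k, hk⟩ : ∃ k, z.re = 2 * k + 1 := ⟨z.re / 2, by omega⟩
    rw [hk]
    have : (2 * k + 1) ^ 2 = 2 * (2 * k ^ 2 + 2 * k) + 1 := by ring
    rw [this]
    omega
  omega

/-- recursion at a split prime.

Proof. As `SD_insert` (`MR/SieveRec.lean`): for `w` of norm `p N`, `el p true ∣ w` or
`el p false ∣ w` (`dvd_nm_iff`), both iff `p ∣ w` (`el_both`). Inclusion-exclusion and `sum_dvd`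
(`a = 0`, `b = p N + 1`... or directly with the function `φ` times the indicator of `nm w = p N`,
which is invariant) for `ρ = el p true, el p false, p`: `w = ρ m`, `nm m = N`, resp. `nm m = N/p`. -/
theorem an_split {φ : ℤ√2 → ℂ} (hφ : Inv φ) (hm : ∀ z w, φ (z * w) = φ z * φ w) {p : ℕ} (hp : Sp p)
    {N : ℕ} (hN : 1 ≤ N) :
    an φ (p * N) = (φ (el p true) + φ (el p false)) * an φ N -
      φ ((p : ℕ) : ℤ√2) * (if p ∣ N then an φ (N / p) else 0) := by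
  classical
  have hodd : p % 2 = 1 := by
    rcases hp.2 with h | h <;> omega
  have e1 := DC3_dvd hφ hm (el_spec hp true).1 (N := N) (el_spec hp true).2
  have e2 := DC3_dvd hφ hm (el_spec hp false).1 (N := N) (el_spec hp false).2
  have e3 := DC3_nat hφ hm (N := N) hp.1 hodd
  have h1 : an φ (p * N) =
      ∑ w ∈ (Vs 0 (((p * N : ℕ) : ℝ) + 1)).filter (fun w => el p true ∣ w) ∪
        (Vs 0 (((p * N : ℕ) : ℝ) + 1)).filter (fun w => el p false ∣ w),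
        DC3_ps φ (p * N) w := by
    rw [← Finset.filter_or, Finset.sum_filter,
      ← DC3_an (φ := φ) (N := p * N) (a := 0) (b := ((p * N : ℕ) : ℝ) + 1) (Nat.cast_nonneg _)
        (by linarith)]
    refine Finset.sum_congr rfl fun w _ => ?_
    by_cases h3 : nm w = ((p * N : ℕ) : ℤ)
    · rw [if_pos]
      refine (dvd_nm_iff hp w).1 ?_
      rw [h3]
      push_cast
      exact dvd_mul_right _ _
    · unfold DC3_ps
      rw [if_neg h3, ite_self]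
  have h2 : (Vs 0 (((p * N : ℕ) : ℝ) + 1)).filter (fun w => ((p : ℕ) : ℤ√2) ∣ w) =
      (Vs 0 (((p * N : ℕ) : ℝ) + 1)).filter (fun w => el p true ∣ w) ∩
        (Vs 0 (((p * N : ℕ) : ℝ) + 1)).filter (fun w => el p false ∣ w) := by
    rw [← Finset.filter_and]
    exact Finset.filter_congr fun w _ => (el_both hp w).symm
  rw [h2] at e3
  have h3 := Finset.sum_union_inter
    (s₁ := (Vs 0 (((p * N : ℕ) : ℝ) + 1)).filter (fun w => el p true ∣ w))
    (s₂ := (Vs 0 (((p * N : ℕ) : ℝ) + 1)).filter (fun w => el p false ∣ w))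
    (f := DC3_ps φ (p * N))
  rw [← h1, e1, e2, e3] at h3
  rw [mul_ite, mul_zero]
  linear_combination h3

/-- recursion at an inert prime.

Proof. If an inert `p` divides `nm w` then `p ∣ w` (write `w` as an integer times a primitive
element and use `Sp_of_dvd`: a prime dividing the norm of a primitive odd element is split). Then
`sum_dvd` with `ρ = p`, `nm ρ = p²`. -/
theorem an_inert {φ : ℤ√2 → ℂ} (hφ : Inv φ) (hm : ∀ z w, φ (z * w) = φ z * φ w) {p : ℕ}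
    (hp : p.Prime) (h2 : p ≠ 2) (hs : ¬ Sp p) {N : ℕ} (hN : 1 ≤ N) :
    an φ (p * N) = if p ∣ N then φ ((p : ℕ) : ℤ√2) * an φ (N / p) else 0 := by
  classical
  have hodd : p % 2 = 1 := hp.eq_two_or_odd.resolve_left h2
  rw [← DC3_nat hφ hm (N := N) hp hodd, Finset.sum_filter,
    ← DC3_an (φ := φ) (N := p * N) (a := 0) (b := ((p * N : ℕ) : ℝ) + 1) (Nat.cast_nonneg _)
      (by linarith)]
  refine Finset.sum_congr rfl fun w _ => ?_
  by_cases h3 : nm w = ((p * N : ℕ) : ℤ)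
  · rw [if_pos]
    refine DC3_inert hp h2 hs ?_
    rw [h3]
    push_cast
    exact dvd_mul_right _ _
  · unfold DC3_ps
    rw [if_neg h3, ite_self]

end

end Pool.Agent.Lib.MP_0b748d_nt.HD
end

section

set_option autoImplicit false

/-!
# Multiplicativity
-/

namespace Pool.Agent.Lib.MP_0b748d_nt.HD

open Zsqrtd MR

noncomputable section

private def DC4_S (x y : ℂ) (e : ℕ) : ℂ := ∑ i ∈ Finset.range (e + 1), x ^ i * y ^ (e - i)

private theorem DC4_S_succ (x y : ℂ) (e : ℕ) : DC4_S x y (e + 1) = x * DC4_S x y e + y ^ (e + 1) := by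
  unfold DC4_S
  rw [Finset.sum_range_succ', pow_zero, one_mul, Nat.sub_zero, Finset.mul_sum]
  congr 1
  refine Finset.sum_congr rfl fun i _ => ?_
  rw [Nat.add_sub_add_right]
  ring

/-- Proof. Induction on `e` with `an_split`: for `p ∤ n`, `b_e = an φ (p^e n)` satisfies
`b_{e+1} = (x + y) b_e - x y b_{e-1}`, `x = φ (el p true)`, `y = φ (el p false)`,
`φ p = x y` (`el_mul`). -/
theorem an_pow_split {φ : ℤ√2 → ℂ} (hφ : Inv φ) (hm : ∀ z w, φ (z * w) = φ z * φ w) {p : ℕ}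
    (hp : Sp p) {n : ℕ} (hn : 1 ≤ n) (hpn : ¬ p ∣ n) (e : ℕ) :
    an φ (p ^ e * n) = (∑ i ∈ Finset.range (e + 1), φ (el p true) ^ i * φ (el p false) ^ (e - i)) *
      an φ n := by
  change an φ (p ^ e * n) = DC4_S (φ (el p true)) (φ (el p false)) e * an φ n
  have hp0 : 0 < p := hp.1.pos
  have hxy : φ ((p : ℕ) : ℤ√2) = φ (el p true) * φ (el p false) := by
    rw [← hm, ← el_mul hp true]
    rfl
  have h0 : DC4_S (φ (el p true)) (φ (el p false)) 0 = 1 := by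
    unfold DC4_S
    simp
  induction e using Nat.strong_induction_on with
  | _ e ih =>
    rcases e with _ | _ | e
    · rw [pow_zero, one_mul, h0, one_mul]
    · rw [zero_add, pow_one, an_split hφ hm hp hn, if_neg hpn, mul_zero, sub_zero]
      have h1 := DC4_S_succ (φ (el p true)) (φ (el p false)) 0
      rw [zero_add, h0] at h1
      rw [h1]
      ring
    · have e1 : p ^ (e + 1 + 1) * n = p * (p ^ (e + 1) * n) := by ring
      have e2 : p ^ (e + 1) * n = p * (p ^ e * n) := by ring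
      have hpos : 1 ≤ p ^ (e + 1) * n := Nat.one_le_iff_ne_zero.2 (by positivity)
      rw [e1, an_split hφ hm hp hpos, if_pos (Dvd.intro _ e2.symm)]
      have e3 : p ^ (e + 1) * n / p = p ^ e * n := by
        rw [e2, Nat.mul_div_cancel_left _ hp0]
      rw [e3, ih (e + 1) (by omega), ih e (by omega), hxy, DC4_S_succ _ _ (e + 1),
        DC4_S_succ _ _ e]
      ring

/-- Proof. Induction on `e` (two steps) with `an_inert`. -/
theorem an_pow_inert {φ : ℤ√2 → ℂ} (hφ : Inv φ) (hm : ∀ z w, φ (z * w) = φ z * φ w) {p : ℕ}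
    (hp : p.Prime) (h2 : p ≠ 2) (hs : ¬ Sp p) {n : ℕ} (hn : 1 ≤ n) (hpn : ¬ p ∣ n) (e : ℕ) :
    an φ (p ^ e * n) = (if e % 2 = 0 then φ ((p : ℕ) : ℤ√2) ^ (e / 2) else 0) * an φ n := by
  have hp0 : 0 < p := hp.pos
  induction e using Nat.strong_induction_on with
  | _ e ih =>
    rcases e with _ | _ | e
    · simp
    · rw [zero_add, pow_one, an_inert hφ hm hp h2 hs hn, if_neg hpn, if_neg (by norm_num),
        zero_mul]
    · have e1 : p ^ (e + 1 + 1) * n = p * (p ^ (e + 1) * n) := by ring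
      have e2 : p ^ (e + 1) * n = p * (p ^ e * n) := by ring
      have hpos : 1 ≤ p ^ (e + 1) * n := Nat.one_le_iff_ne_zero.2 (by positivity)
      rw [e1, an_inert hφ hm hp h2 hs hpos, if_pos (Dvd.intro _ e2.symm)]
      have e3 : p ^ (e + 1) * n / p = p ^ e * n := by
        rw [e2, Nat.mul_div_cancel_left _ hp0]
      have e4 : (e + 1 + 1) % 2 = e % 2 := by omega
      have e5 : (e + 1 + 1) / 2 = e / 2 + 1 := by omega
      rw [e3, ih e (by omega), e4, e5]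
      by_cases h : e % 2 = 0
      · rw [if_pos h, if_pos h]
        ring
      · rw [if_neg h, if_neg h]
        ring

/-- Proof. `Nat.recOnPosPrimePosCoprime` (or induction on the prime powers of `m`) with
`an_pow_split`, `an_pow_inert`, `an_two`: they give `an φ (p^e n) = an φ (p^e) an φ n` for
`p ∤ n`. -/
theorem an_mul {φ : ℤ√2 → ℂ} (hφ : Inv φ) (hm : ∀ z w, φ (z * w) = φ z * φ w) (h1 : φ 1 = 1)
    {m n : ℕ} (hmn : Nat.Coprime m n) : an φ (m * n) = an φ m * an φ n := by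
  induction m using Nat.recOnPosPrimePosCoprime generalizing n with
  | prime_pow p k hp hk =>
    have hp0 : 0 < p := hp.pos
    have hcop : Nat.Coprime p n := Nat.Coprime.coprime_dvd_left (dvd_pow_self p hk.ne') hmn
    have hpn : ¬ p ∣ n := fun h => hp.one_lt.ne' (Nat.eq_one_of_dvd_coprimes hcop dvd_rfl h)
    have hn : 1 ≤ n := by
      rcases Nat.eq_zero_or_pos n with h | h
      · exact absurd (h ▸ dvd_zero p) hpn
      · exact h
    have hp1 : ¬ p ∣ 1 := fun h => hp.one_lt.ne' (Nat.dvd_one.1 h)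
    by_cases hsp : Sp p
    · rw [an_pow_split hφ hm hsp hn hpn]
      have h3 := an_pow_split hφ hm hsp le_rfl hp1 k
      rw [mul_one, an_one h1, mul_one] at h3
      rw [h3]
    · by_cases h2 : p = 2
      · subst h2
        obtain ⟨j, rfl⟩ : ∃ j, k = j + 1 := ⟨k - 1, by omega⟩
        have e1 : 2 ^ (j + 1) * n = 2 * (2 ^ j * n) := by ring
        have e2 : 2 ^ (j + 1) = 2 * 2 ^ j := by ring
        rw [e1, an_two, e2, an_two, zero_mul]
      · rw [an_pow_inert hφ hm hp h2 hsp hn hpn]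
        have h3 := an_pow_inert hφ hm hp h2 hsp le_rfl hp1 k
        rw [mul_one, an_one h1, mul_one] at h3
        rw [h3]
  | zero =>
    rw [Nat.coprime_zero_left] at hmn
    subst hmn
    rw [mul_one, an_one h1, mul_one]
  | one => rw [one_mul, an_one h1, one_mul]
  | coprime a b ha hb hab iha ihb =>
    have h2 : Nat.Coprime b n := Nat.Coprime.coprime_mul_left hmn
    have h3 : Nat.Coprime a n := Nat.Coprime.coprime_mul_right hmn
    rw [mul_assoc, iha (Nat.Coprime.mul_right hab h3), ihb h2, iha hab, mul_assoc]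

end

end Pool.Agent.Lib.MP_0b748d_nt.HD
end

section

set_option autoImplicit false

/-!
# The Dirichlet series near one
-/

namespace Pool.Agent.Lib.MP_0b748d_nt.HD

open Zsqrtd MR

noncomputable section

/-- Proof. `∑_{1 ≤ k ≤ n} an φ k = ∑_{z ∈ Vs 0 (n+1)} φ z` (norms of elements of `Vs` are positive
integers). -/
theorem an_sum (φ : ℤ√2 → ℂ) (n : ℕ) :
    ∑ k ∈ Finset.Icc 1 n, an φ k = ∑ z ∈ Vs 0 ((n : ℝ) + 1), φ z := by
  classical
  have h1 : ∀ z ∈ Vs 0 ((n : ℝ) + 1), (nm z).toNat ∈ Finset.Icc 1 n := by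
    intro z hz
    rw [mem_Vs] at hz
    obtain ⟨⟨h1, -⟩, -, h2, -, -⟩ := hz
    have h3 := h1.nm_pos
    have h4 : nm z < (n : ℤ) + 1 := by exact_mod_cast h2
    rw [Finset.mem_Icc]
    omega
  rw [← Finset.sum_fiberwise_of_maps_to h1]
  refine Finset.sum_congr rfl fun k hk => ?_
  rw [Finset.mem_Icc] at hk
  unfold an
  refine Finset.sum_congr ?_ fun _ _ => rfl
  ext z
  rw [Finset.mem_filter, Finset.mem_filter, mem_Vs, mem_Vs]
  constructor
  · rintro ⟨⟨h2, h3, h4, h5⟩, h6⟩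
    have h7 : (k : ℝ) ≤ n := by exact_mod_cast hk.2
    exact ⟨⟨h2, h3, by linarith, h5⟩, by omega⟩
  · rintro ⟨⟨h2, h3, h4, h5⟩, h6⟩
    have h7 := h2.1.nm_pos
    have h8 : nm z = (k : ℤ) := by omega
    refine ⟨⟨h2, h3, ?_, h5⟩, h8⟩
    rw [h8]
    push_cast
    linarith

private lemma DC5_an_zero (φ : ℤ√2 → ℂ) : an φ 0 = 0 := by
  unfold an
  refine Finset.sum_eq_zero fun z hz => ?_
  rw [Finset.mem_filter, mem_Vs] at hz
  have h1 := hz.1.1.1.nm_pos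
  have h2 := hz.2
  simp only [Nat.cast_zero] at h2
  omega

private lemma DC5_norm_an {φ : ℤ√2 → ℂ} (hle : ∀ z, ‖φ z‖ ≤ 1) (n : ℕ) :
    ‖an φ n‖ ≤ (an (fun _ => (1 : ℂ)) n).re := by
  unfold an
  refine (norm_sum_le _ _).trans ?_
  rw [Complex.re_sum]
  refine Finset.sum_le_sum fun z _ => ?_
  simpa using hle z

private lemma DC5_sum_norm : ∃ C : ℝ, 1 ≤ C ∧ ∀ {φ : ℤ√2 → ℂ}, (∀ z, ‖φ z‖ ≤ 1) → ∀ n : ℕ,
    ∑ k ∈ Finset.Icc 1 n, ‖an φ k‖ ≤ C * ((n : ℝ) + 1) := by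
  obtain ⟨C, hC1, hC⟩ := V_le
  refine ⟨C, hC1, fun {φ} hle n => ?_⟩
  calc ∑ k ∈ Finset.Icc 1 n, ‖an φ k‖
      ≤ ∑ k ∈ Finset.Icc 1 n, (an (fun _ => (1 : ℂ)) k).re :=
        Finset.sum_le_sum fun k _ => DC5_norm_an hle k
    _ = (∑ k ∈ Finset.Icc 1 n, an (fun _ => (1 : ℂ)) k).re := by rw [Complex.re_sum]
    _ = ((Vs 0 ((n : ℝ) + 1)).card : ℝ) := by
        rw [an_sum]
        simp
    _ ≤ C * ((n : ℝ) + 1) := hC 0 _ le_rfl (by positivity)

/-- Proof. `‖an φ k‖ ≤ an 1 k` and `∑_{k ≤ n} an 1 k = #Vs 0 (n+1) ≤ C (n+1)` (`V_le`): summation by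
parts (Mathlib: `LSeriesSummable_of_sum_norm_bigO`, then `fL` is the norm of the term up to the
rewriting of the power). -/
theorem fL_summable {φ : ℤ√2 → ℂ} (hle : ∀ z, ‖φ z‖ ≤ 1) {σ : ℝ} (hσ : 1 < σ) :
    Summable (fun n => ‖fL φ σ n‖) := by
  obtain ⟨C, hC1, hC⟩ := DC5_sum_norm
  have h1 : LSeriesSummable (an φ) (σ : ℂ) := by
    refine LSeriesSummable_of_sum_norm_bigO (r := 1) ?_ zero_le_one (by simpa using hσ)
    refine Asymptotics.IsBigO.of_bound (2 * C) ?_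
    filter_upwards [Filter.eventually_ge_atTop 1] with n hn
    have hn' : (1 : ℝ) ≤ n := by exact_mod_cast hn
    rw [Real.norm_of_nonneg (Finset.sum_nonneg fun _ _ => norm_nonneg _), Real.rpow_one,
      Real.norm_of_nonneg (by positivity)]
    refine (hC hle n).trans ?_
    nlinarith
  refine h1.norm.congr fun n => ?_
  rw [LSeries.norm_term_eq]
  rcases Nat.eq_zero_or_pos n with rfl | hn
  · rw [if_pos rfl]
    unfold fL
    rw [DC5_an_zero, zero_mul, _root_.norm_zero]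
  · rw [if_neg hn.ne']
    unfold fL
    rw [_root_.norm_mul, Complex.norm_real, Real.norm_of_nonneg (by positivity),
      Real.rpow_neg (by positivity), Complex.ofReal_re, div_eq_mul_inv]

private lemma DC5_step {σ : ℝ} (h1 : 1 < σ) (h2 : σ ≤ 2) {i : ℕ} (hi : 0 < i) {C t : ℝ}
    (hC : 0 ≤ C) (ht : 0 ≤ t) (hle : t ≤ C * √((i + 1 : ℕ) : ℝ)) :
    |(((i + 1 : ℕ) : ℝ)) ^ (-σ) - (i : ℝ) ^ (-σ)| * t ≤
      C * (2 * (1 / (i : ℝ) ^ ((3 : ℝ) / 2))) := by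
  have hi' : (1 : ℝ) ≤ i := by exact_mod_cast hi
  obtain ⟨x, hx⟩ : ∃ x : ℝ, x = i := ⟨_, rfl⟩
  have hx1 : 1 ≤ x := by rw [hx]; exact hi'
  have hx0 : 0 < x := by linarith
  push_cast at hle ⊢
  rw [← hx] at hle ⊢
  have hx10 : (0 : ℝ) < x + 1 := by linarith
  -- monotone
  have h3 : (x + 1) ^ (-σ) ≤ x ^ (-σ) :=
    Real.rpow_le_rpow_of_nonpos hx0 (by linarith) (by linarith)
  rw [abs_sub_comm, abs_of_nonneg (by linarith)]
  -- Bernoulli
  have h4 : 1 + σ * (-(1 / (x + 1))) ≤ (1 + (-(1 / (x + 1)))) ^ σ := by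
    refine one_add_mul_self_le_rpow_one_add ?_ h1.le
    have : 1 / (x + 1) ≤ 1 := by
      rw [div_le_one hx10]; linarith
    linarith
  have h5 : 1 + (-(1 / (x + 1))) = x / (x + 1) := by field_simp; ring
  rw [h5, Real.div_rpow hx0.le hx10.le] at h4
  have h6 : 0 < x ^ σ := by positivity
  have h7 : 0 < (x + 1) ^ σ := by positivity
  have h8 : x ^ (-σ) - (x + 1) ^ (-σ) ≤ x ^ (-σ) * (σ / (x + 1)) := by
    rw [Real.rpow_neg hx0.le, Real.rpow_neg hx10.le]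
    have h9 : (x ^ σ)⁻¹ * (1 + σ * (-(1 / (x + 1)))) ≤ (x ^ σ)⁻¹ * (x ^ σ / (x + 1) ^ σ) :=
      mul_le_mul_of_nonneg_left h4 (by positivity)
    have h10 : (x ^ σ)⁻¹ * (x ^ σ / (x + 1) ^ σ) = ((x + 1) ^ σ)⁻¹ := by
      field_simp
    rw [h10] at h9
    have h11 : (x ^ σ)⁻¹ * (1 + σ * (-(1 / (x + 1)))) =
        (x ^ σ)⁻¹ - (x ^ σ)⁻¹ * (σ / (x + 1)) := by ring
    rw [h11] at h9
    linarith
  have h12 : x ^ (-σ) ≤ x⁻¹ := by
    rw [← Real.rpow_neg_one]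
    exact Real.rpow_le_rpow_of_exponent_le hx1 (by linarith)
  have hs : 0 < √(x + 1) := Real.sqrt_pos.mpr hx10
  have hsq : √(x + 1) * √(x + 1) = x + 1 := Real.mul_self_sqrt hx10.le
  have h13 : √x ≤ √(x + 1) := Real.sqrt_le_sqrt (by linarith)
  have hs0 : 0 < √x := Real.sqrt_pos.mpr hx0
  have h14 : x ^ ((3 : ℝ) / 2) = x * √x := by
    rw [Real.sqrt_eq_rpow, show (3 : ℝ) / 2 = 1 + 1 / 2 by norm_num, Real.rpow_add hx0,
      Real.rpow_one]
  calc (x ^ (-σ) - (x + 1) ^ (-σ)) * t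
      ≤ (x⁻¹ * (2 / (x + 1))) * (C * √(x + 1)) := by
        refine mul_le_mul (h8.trans ?_) hle ht (by positivity)
        gcongr
    _ = C * (2 * (x⁻¹ * (√(x + 1) / (x + 1)))) := by ring
    _ = C * (2 * (x⁻¹ * (1 / √(x + 1)))) := by
        congr 3
        rw [div_eq_div_iff hx10.ne' hs.ne', hsq, one_mul]
    _ ≤ C * (2 * (x⁻¹ * (1 / √x))) := by gcongr
    _ = C * (2 * (1 / x ^ ((3 : ℝ) / 2))) := by
        rw [h14]
        field_simp

/-- Proof. `‖∑_{k ≤ n} an η k‖ ≤ C √(n+1)` (`an_sum`, `eta_sum`). Abel summation: for every `N`,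
`‖∑_{n ≤ N} an η n n^(-σ)‖ ≤ C √(N+1) N^(-σ) + ∑_{n ≤ N} C √(n+1) (n^(-σ) - (n+1)^(-σ))` and
`n^(-σ) - (n+1)^(-σ) ≤ 2/n²` for `1 ≤ σ ≤ 2`. So the partial sums are bounded by a constant
independent of `σ` and `N`. -/
theorem L_eta {W : ℕ} (hW : 1 ≤ W) (hW2 : W % 2 = 0) {η : ℤ√2 → ℂ} (h : Hc W η) {z0 : ℤ√2}
    (hz0 : Cp W z0) (hne : η z0 ≠ 1) : ∃ C : ℝ, 1 ≤ C ∧ ∀ σ : ℝ, 1 < σ → σ ≤ 2 →
    ‖∑' n : ℕ, fL η σ n‖ ≤ C := by
  obtain ⟨C, hC1, hC⟩ := eta_sum hW hW2 h hz0 hne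
  have hsum : Summable (fun n : ℕ => 2 * (1 / (n : ℝ) ^ ((3 : ℝ) / 2))) :=
    (Real.summable_one_div_nat_rpow.mpr (by norm_num)).mul_left 2
  set T : ℝ := ∑' n : ℕ, 2 * (1 / (n : ℝ) ^ ((3 : ℝ) / 2)) with hT
  have hT0 : 0 ≤ T := tsum_nonneg fun n => by positivity
  refine ⟨C * 2 + C * T, by nlinarith [mul_nonneg (zero_le_one.trans hC1) hT0], ?_⟩
  intro σ hσ1 hσ2
  -- partial sums of the coefficients
  have hG : ∀ n : ℕ, ‖∑ i ∈ Finset.range n, an η i‖ ≤ C * √(n : ℝ) := by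
    intro n
    rcases Nat.eq_zero_or_pos n with rfl | hn
    · simp
    · obtain ⟨m, rfl⟩ := Nat.exists_eq_add_of_lt hn
      have h1 : ∑ i ∈ Finset.range (0 + m + 1), an η i = ∑ k ∈ Finset.Icc 1 m, an η k := by
        rw [zero_add, Finset.sum_range_succ', DC5_an_zero, add_zero,
          Finset.range_eq_Ico, Finset.sum_Ico_add' (fun k => an η k) 0 m 1]
        refine Finset.sum_congr ?_ fun _ _ => rfl
        ext k
        simp only [Finset.mem_Ico, Finset.mem_Icc]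
        omega
      rw [h1, an_sum]
      refine (hC _ (by positivity)).trans (le_of_eq ?_)
      push_cast
      rw [zero_add]
  have hpart : ∀ N : ℕ, ‖∑ i ∈ Finset.range N, fL η σ i‖ ≤ C * 2 + C * T := by
    intro N
    have h1 : ∑ i ∈ Finset.range N, fL η σ i =
        ∑ i ∈ Finset.range N, ((((i : ℝ) ^ (-σ) : ℝ)) : ℂ) • an η i := by
      refine Finset.sum_congr rfl fun i _ => ?_
      unfold fL
      rw [smul_eq_mul, mul_comm]
    rw [h1, Finset.sum_range_by_parts]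
    refine (norm_sub_le _ _).trans (add_le_add ?_ ?_)
    · rw [norm_smul, Complex.norm_real, Real.norm_of_nonneg (by positivity)]
      rcases Nat.lt_or_ge N 2 with hN | hN
      · have h2 : ‖∑ i ∈ Finset.range N, an η i‖ = 0 := by
          interval_cases N
          · simp
          · simp [DC5_an_zero]
        rw [h2, mul_zero]
        positivity
      · obtain ⟨M, rfl⟩ : ∃ M, N = M + 2 := ⟨N - 2, by omega⟩
        have h3 : M + 2 - 1 = M + 1 := by omega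
        rw [h3]
        have h4 := hG (M + 2)
        have h5 : (((M + 1 : ℕ) : ℝ)) ^ (-σ) ≤ (((M + 1 : ℕ) : ℝ)) ^ (-(1 : ℝ)) := by
          apply Real.rpow_le_rpow_of_exponent_le
          · push_cast
            have : (0 : ℝ) ≤ M := by positivity
            linarith
          · linarith
        rw [Real.rpow_neg_one] at h5
        have h6 : √((M + 2 : ℕ) : ℝ) ≤ 2 * ((M + 1 : ℕ) : ℝ) := by
          rw [Real.sqrt_le_left (by positivity)]
          push_cast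
          have : (0 : ℝ) ≤ M := by positivity
          nlinarith
        have h7 : (0 : ℝ) < ((M + 1 : ℕ) : ℝ) := by positivity
        calc (((M + 1 : ℕ) : ℝ)) ^ (-σ) * ‖∑ i ∈ Finset.range (M + 2), an η i‖
            ≤ (((M + 1 : ℕ) : ℝ))⁻¹ * (C * √((M + 2 : ℕ) : ℝ)) := by gcongr
          _ ≤ (((M + 1 : ℕ) : ℝ))⁻¹ * (C * (2 * ((M + 1 : ℕ) : ℝ))) := by gcongr
          _ = C * 2 := by field_simp
    · refine (norm_sum_le _ _).trans ?_
      have h2 : ∀ i ∈ Finset.range (N - 1),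
          ‖((((((i + 1 : ℕ) : ℝ)) ^ (-σ) : ℝ) : ℂ) - (((i : ℝ) ^ (-σ) : ℝ) : ℂ)) •
            ∑ j ∈ Finset.range (i + 1), an η j‖ ≤ C * (2 * (1 / (i : ℝ) ^ ((3 : ℝ) / 2))) := by
        intro i _
        rcases Nat.eq_zero_or_pos i with rfl | hi
        · rw [zero_add, Finset.sum_range_one, DC5_an_zero, smul_zero, _root_.norm_zero]
          positivity
        · rw [norm_smul, ← Complex.ofReal_sub, Complex.norm_real, Real.norm_eq_abs]
          exact DC5_step hσ1 hσ2 hi (zero_le_one.trans hC1) (norm_nonneg _) (hG (i + 1))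
      refine (Finset.sum_le_sum h2).trans ?_
      rw [← Finset.mul_sum]
      refine mul_le_mul_of_nonneg_left ?_ (zero_le_one.trans hC1)
      exact hsum.sum_le_tsum _ fun i _ => by positivity
  have hs : Summable (fL η σ) := (fL_summable h.le hσ1).of_norm
  exact le_of_tendsto hs.hasSum.tendsto_sum_nat.norm (Filter.Eventually.of_forall hpart)

end

end Pool.Agent.Lib.MP_0b748d_nt.HD
end

section

set_option autoImplicit false

/-!
# Local factors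
-/

namespace Pool.Agent.Lib.MP_0b748d_nt.HD

open Zsqrtd MR

noncomputable section

theorem DC6_log {w : ℂ} (hw : ‖w‖ ≤ 1 / 2) :
    1 + w ≠ 0 ∧ w.re - ‖w‖ ^ 2 ≤ Real.log ‖1 + w‖ := by
  constructor
  · intro h
    have h1 : w = -1 := by linear_combination h
    rw [h1, _root_.norm_neg, NormOneClass.norm_one] at hw
    norm_num at hw
  · have h1 := Complex.norm_log_one_add_sub_self_le (z := w) (by linarith)
    have h2 : ‖w‖ ^ 2 * (1 - ‖w‖)⁻¹ / 2 ≤ ‖w‖ ^ 2 := by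
      have h3 : (1 - ‖w‖)⁻¹ ≤ 2 := by
        rw [inv_le_comm₀ (by linarith) (by norm_num)]
        linarith
      nlinarith [sq_nonneg ‖w‖]
    have h3 := Complex.abs_re_le_norm (Complex.log (1 + w) - w)
    rw [Complex.sub_re, Complex.log_re] at h3
    have h4 := (abs_le.1 (h3.trans (h1.trans h2))).1
    linarith

/-- the tail of the local factor at a split prime -/
theorem DC6_tail {t : ℕ → ℂ} {q : ℝ} (hq0 : 0 ≤ q) (hq : q ≤ 1 / 7)
    (ht : ∀ e : ℕ, ‖t e‖ ≤ ((e : ℝ) + 1) * q ^ e) :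
    Summable t ∧ ‖∑' e, t (e + 2)‖ ≤ 4 * q ^ 2 := by
  have hq1 : q < 1 := by linarith
  have g1 : HasSum (fun e : ℕ => q ^ e) (1 - q)⁻¹ := hasSum_geometric_of_lt_one hq0 hq1
  have g2 : HasSum (fun e : ℕ => (e : ℝ) * q ^ e) (q / (1 - q) ^ 2) :=
    hasSum_coe_mul_geometric_of_norm_lt_one (by rw [Real.norm_eq_abs, abs_of_nonneg hq0]; exact hq1)
  have g3 : HasSum (fun e : ℕ => ((e : ℝ) + 1) * q ^ e) (q / (1 - q) ^ 2 + (1 - q)⁻¹) := by
    have h := g2.add g1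
    have he : (fun e : ℕ => ((e : ℝ) + 1) * q ^ e) = fun e : ℕ => (e : ℝ) * q ^ e + q ^ e := by
      funext e
      ring
    rw [he]
    exact h
  have g4 : HasSum (fun e : ℕ => (((e + 2 : ℕ) : ℝ) + 1) * q ^ (e + 2))
      (q ^ 2 * (q / (1 - q) ^ 2 + 3 * (1 - q)⁻¹)) := by
    have h := (g2.add (g1.mul_left 3)).mul_left (q ^ 2)
    have he : (fun e : ℕ => (((e + 2 : ℕ) : ℝ) + 1) * q ^ (e + 2)) =
        fun e : ℕ => q ^ 2 * ((e : ℝ) * q ^ e + 3 * q ^ e) := by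
      funext e
      push_cast
      ring
    rw [he]
    exact h
  refine ⟨Summable.of_norm_bounded g3.summable ht, ?_⟩
  refine (tsum_of_norm_bounded g4 fun e => ht (e + 2)).trans ?_
  have h1 : (1 - q)⁻¹ ≤ 7 / 6 := by
    rw [inv_le_comm₀ (by linarith) (by norm_num)]
    linarith
  have h2 : 0 ≤ (1 - q)⁻¹ := inv_nonneg.2 (by linarith)
  have h3 : q / (1 - q) ^ 2 ≤ 1 / 7 * (49 / 36) := by
    rw [div_eq_mul_inv, ← inv_pow]
    have h4 : ((1 - q)⁻¹) ^ 2 ≤ 49 / 36 := by nlinarith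
    exact mul_le_mul hq h4 (by positivity) (by norm_num)
  have h4 : 0 ≤ q ^ 2 := sq_nonneg q
  nlinarith

theorem DC6_tail' {t : ℕ → ℂ} {q : ℝ} (hq0 : 0 ≤ q) (hq : q ≤ 1 / 3)
    (ht : ∀ e : ℕ, ‖t e‖ ≤ q ^ e) :
    Summable t ∧ ‖∑' e, t (e + 2)‖ ≤ 3 / 2 * q ^ 2 := by
  have hq1 : q < 1 := by linarith
  have g1 : HasSum (fun e : ℕ => q ^ e) (1 - q)⁻¹ := hasSum_geometric_of_lt_one hq0 hq1
  have g4 : HasSum (fun e : ℕ => q ^ (e + 2)) (q ^ 2 * (1 - q)⁻¹) := by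
    have h := g1.mul_left (q ^ 2)
    have he : (fun e : ℕ => q ^ (e + 2)) = fun e : ℕ => q ^ 2 * q ^ e := by
      funext e
      ring
    rw [he]
    exact h
  refine ⟨Summable.of_norm_bounded g1.summable ht, ?_⟩
  refine (tsum_of_norm_bounded g4 fun e => ht (e + 2)).trans ?_
  have h1 : (1 - q)⁻¹ ≤ 3 / 2 := by
    rw [inv_le_comm₀ (by linarith) (by norm_num)]
    linarith
  have h4 : 0 ≤ q ^ 2 := sq_nonneg q
  nlinarith

theorem DC6_norm {φ : ℤ√2 → ℂ} {σ : ℝ} (hσ : 1 ≤ σ) {p : ℕ} (hp : 1 ≤ p) {e : ℕ} {B : ℝ}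
    (hB : ‖an φ (p ^ e)‖ ≤ B) : ‖fL φ σ (p ^ e)‖ ≤ B * (1 / (p : ℝ)) ^ e := by
  have hp1 : (1 : ℝ) ≤ ((p ^ e : ℕ) : ℝ) := by
    exact_mod_cast Nat.one_le_pow e p hp
  have h1 : ((p ^ e : ℕ) : ℝ) ^ (-σ) ≤ (1 / (p : ℝ)) ^ e := by
    calc ((p ^ e : ℕ) : ℝ) ^ (-σ) ≤ ((p ^ e : ℕ) : ℝ) ^ (-1 : ℝ) :=
          Real.rpow_le_rpow_of_exponent_le hp1 (by linarith)
      _ = (1 / (p : ℝ)) ^ e := by
          rw [Real.rpow_neg_one]
          push_cast
          rw [one_div, inv_pow]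
  have h2 : 0 ≤ ((p ^ e : ℕ) : ℝ) ^ (-σ) := Real.rpow_nonneg (by positivity) _
  unfold fL
  rw [_root_.norm_mul, Complex.norm_real, Real.norm_eq_abs, abs_of_nonneg h2]
  exact mul_le_mul hB h1 h2 ((_root_.norm_nonneg _).trans hB)

/-- Proof. `an φ (p^e) = ∑_{i ≤ e} x^i y^(e-i)` (`an_pow_split` with `n = 1`, `an_one`), of modulus
`≤ e + 1`. So `loc = 1 + w` with `w = (x + y) p^(-σ) + R`, `|R| ≤ ∑_{e ≥ 2} (e+1) p^(-e) ≤ 6/p²`,
`|w| ≤ ∑_{e ≥ 1} (e+1) p^(-e) ≤ 1/2` (`p ≥ 7`), `|w|² ≤ 9/p²`... ; and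
`log ‖1 + w‖ = Re log (1 + w) ≥ Re w - |w|²` for `|w| ≤ 1/2`
(`Complex.norm_log_one_add_sub_self_le`). -/
theorem loc_split {φ : ℤ√2 → ℂ} (hφ : Inv φ) (hm : ∀ z w, φ (z * w) = φ z * φ w) (h1 : φ 1 = 1)
    (hle : ∀ z, ‖φ z‖ ≤ 1) {σ : ℝ} (hσ : 1 ≤ σ) {p : ℕ} (hp : Sp p) :
    loc φ σ p ≠ 0 ∧ (φ (el p true) + φ (el p false)).re * (p : ℝ) ^ (-σ) - 20 / (p : ℝ) ^ 2 ≤
      Real.log ‖loc φ σ p‖ := by
  have hp7 : 7 ≤ p := by
    have h2 := hp.1.two_le
    rcases hp.2 with h | h <;> omega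
  have hpr : (7 : ℝ) ≤ (p : ℝ) := by exact_mod_cast hp7
  have han : ∀ e : ℕ, an φ (p ^ e) =
      ∑ i ∈ Finset.range (e + 1), φ (el p true) ^ i * φ (el p false) ^ (e - i) := by
    intro e
    have h3 := an_pow_split hφ hm hp (le_refl 1)
      (fun h => by have := Nat.le_of_dvd one_pos h; omega) e
    rw [_root_.mul_one, an_one h1, _root_.mul_one] at h3
    exact h3
  have hnorm : ∀ e : ℕ, ‖an φ (p ^ e)‖ ≤ (e : ℝ) + 1 := by
    intro e
    rw [han]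
    refine (norm_sum_le _ _).trans ?_
    have h4 : ∀ i ∈ Finset.range (e + 1),
        ‖φ (el p true) ^ i * φ (el p false) ^ (e - i)‖ ≤ 1 := by
      intro i _
      rw [_root_.norm_mul, norm_pow, norm_pow]
      exact mul_le_one₀ (pow_le_one₀ (_root_.norm_nonneg _) (hle _)) (by positivity)
        (pow_le_one₀ (_root_.norm_nonneg _) (hle _))
    refine (Finset.sum_le_card_nsmul _ _ _ h4).trans ?_
    rw [Finset.card_range, nsmul_eq_mul]
    push_cast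
    linarith
  set q : ℝ := 1 / (p : ℝ) with hq
  have hq0 : 0 ≤ q := by positivity
  have hq7 : q ≤ 1 / 7 := one_div_le_one_div_of_le (by norm_num) hpr
  have ht : ∀ e : ℕ, ‖fL φ σ (p ^ e)‖ ≤ ((e : ℝ) + 1) * q ^ e := fun e =>
    DC6_norm hσ (by omega) (hnorm e)
  obtain ⟨hs, htail⟩ := DC6_tail hq0 hq7 ht
  have h0 : fL φ σ (p ^ 0) = 1 := by
    unfold fL
    rw [pow_zero, an_one h1]
    simp
  have h1' : fL φ σ (p ^ 1) = (φ (el p true) + φ (el p false)) * ((((p : ℝ) ^ (-σ) : ℝ)) : ℂ) := by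
    unfold fL
    rw [han 1]
    simp [Finset.sum_range_succ]
    left
    ring
  set R := ∑' e, fL φ σ (p ^ (e + 2)) with hR
  have hloc : loc φ σ p = 1 + (fL φ σ (p ^ 1) + R) := by
    unfold loc
    rw [← hs.sum_add_tsum_nat_add 2, Finset.sum_range_succ, Finset.sum_range_one, h0, hR]
    ring
  have ht1 := ht 1
  rw [pow_one (a := q)] at ht1
  have hw : ‖fL φ σ (p ^ 1) + R‖ ≤ 18 / 7 * q := by
    refine (_root_.norm_add_le _ _).trans ?_
    push_cast at ht1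
    nlinarith
  have hw2 : ‖fL φ σ (p ^ 1) + R‖ ≤ 1 / 2 := by linarith
  obtain ⟨hne, hlog⟩ := DC6_log hw2
  rw [hloc]
  refine ⟨hne, le_trans ?_ hlog⟩
  rw [Complex.add_re (fL φ σ (p ^ 1)) R, h1', Complex.re_mul_ofReal]
  have hR1 : -(4 * q ^ 2) ≤ R.re := by
    have h5 := Complex.abs_re_le_norm R
    exact (abs_le.1 (h5.trans htail)).1
  have hw3 : ‖fL φ σ (p ^ 1) + R‖ ^ 2 ≤ (18 / 7 * q) ^ 2 :=
    pow_le_pow_left₀ (_root_.norm_nonneg _) hw 2
  rw [h1'] at hw3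
  have h20 : 20 / (p : ℝ) ^ 2 = 20 * q ^ 2 := by
    rw [hq]
    field_simp
  rw [h20]
  nlinarith [sq_nonneg q]

/-- Proof. `p = 2`: `loc = 1` (`an_two`). Inert `p ≥ 3`: `loc = 1 + w`, `|w| ≤ ∑_{j ≥ 1} p^(-2j)
≤ 2/p² ≤ 1/4`, `log ‖1 + w‖ ≥ -2 |w|`. -/
theorem loc_other {φ : ℤ√2 → ℂ} (hφ : Inv φ) (hm : ∀ z w, φ (z * w) = φ z * φ w) (h1 : φ 1 = 1)
    (hle : ∀ z, ‖φ z‖ ≤ 1) {σ : ℝ} (hσ : 1 ≤ σ) {p : ℕ} (hp : p.Prime) (hs : ¬ Sp p) :
    loc φ σ p ≠ 0 ∧ - (20 / (p : ℝ) ^ 2) ≤ Real.log ‖loc φ σ p‖ := by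
  have h0 : fL φ σ (p ^ 0) = 1 := by
    unfold fL
    rw [pow_zero, an_one h1]
    simp
  by_cases h2 : p = 2
  · have hloc : loc φ σ p = 1 := by
      unfold loc
      rw [tsum_eq_single 0, h0]
      intro e he
      obtain ⟨k, rfl⟩ := Nat.exists_eq_succ_of_ne_zero he
      unfold fL
      rw [h2, Nat.succ_eq_add_one, pow_succ', an_two, zero_mul]
    rw [hloc, NormOneClass.norm_one, Real.log_one]
    refine ⟨one_ne_zero, ?_⟩
    have : 0 ≤ 20 / (p : ℝ) ^ 2 := by positivity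
    linarith
  have hp3 : 3 ≤ p := by
    have := hp.two_le
    omega
  have hpr : (3 : ℝ) ≤ (p : ℝ) := by exact_mod_cast hp3
  have han : ∀ e : ℕ, an φ (p ^ e) = if e % 2 = 0 then φ ((p : ℕ) : ℤ√2) ^ (e / 2) else 0 := by
    intro e
    have h3 := an_pow_inert hφ hm hp h2 hs (le_refl 1)
      (fun h => by have := Nat.le_of_dvd one_pos h; omega) e
    rw [_root_.mul_one, an_one h1, _root_.mul_one] at h3
    exact h3
  have hnorm : ∀ e : ℕ, ‖an φ (p ^ e)‖ ≤ 1 := by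
    intro e
    rw [han]
    split_ifs
    · rw [norm_pow]
      exact pow_le_one₀ (_root_.norm_nonneg _) (hle _)
    · rw [_root_.norm_zero]
      exact zero_le_one
  set q : ℝ := 1 / (p : ℝ) with hq
  have hq0 : 0 ≤ q := by positivity
  have hq3 : q ≤ 1 / 3 := one_div_le_one_div_of_le (by norm_num) hpr
  have ht : ∀ e : ℕ, ‖fL φ σ (p ^ e)‖ ≤ q ^ e := fun e => by
    have := DC6_norm (φ := φ) hσ (show 1 ≤ p by omega) (hnorm e)
    rwa [_root_.one_mul] at this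
  obtain ⟨hsum, htail⟩ := DC6_tail' hq0 hq3 ht
  have h1' : fL φ σ (p ^ 1) = 0 := by
    unfold fL
    rw [han 1]
    simp
  set R := ∑' e, fL φ σ (p ^ (e + 2)) with hR
  have hloc : loc φ σ p = 1 + R := by
    unfold loc
    rw [← hsum.sum_add_tsum_nat_add 2, Finset.sum_range_succ, Finset.sum_range_one, h0, h1', hR]
    ring
  have hR2 : ‖R‖ ≤ 1 / 2 := by nlinarith
  obtain ⟨hne, hlog⟩ := DC6_log hR2
  rw [hloc]
  refine ⟨hne, le_trans ?_ hlog⟩
  have hR1 : -(3 / 2 * q ^ 2) ≤ R.re := by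
    have h5 := Complex.abs_re_le_norm R
    exact (abs_le.1 (h5.trans htail)).1
  have hR3 : ‖R‖ ^ 2 ≤ 1 / 2 * (3 / 2 * q ^ 2) := by
    rw [sq]
    exact mul_le_mul hR2 htail (_root_.norm_nonneg _) (by norm_num)
  have h20 : 20 / (p : ℝ) ^ 2 = 20 * q ^ 2 := by
    rw [hq]
    field_simp
  rw [h20]
  nlinarith [sq_nonneg q]

end

end Pool.Agent.Lib.MP_0b748d_nt.HD
end

section

set_option autoImplicit false

/-!
# An upper bound for sums over primes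
-/

namespace Pool.Agent.Lib.MP_0b748d_nt.HD

open Zsqrtd MR

noncomputable section

/-- Proof. `EulerProduct.eulerProduct` for `fL η σ` (`an_mul`, `an_one`, `fL_summable`; `fL η σ 0 = 0`;
`Hc.inv` gives `Inv η`): `∏_{p < Q} loc η σ p → ∑' fL η σ`, of modulus `≤ C`. So for large `Q` the
product has modulus `≤ C + 1`; take logarithms (`loc_split`, `loc_other`):
`∑_{p ∈ SQ Q} Re (η (el p true) + η (el p false)) p^(-σ) ≤ log (C+1) + 20 ∑ 1/p²`. -/
theorem prime_upper {W : ℕ} (hW : 1 ≤ W) (hW2 : W % 2 = 0) {η : ℤ√2 → ℂ} (h : Hc W η)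
    (hu : η uu = 1) {z0 : ℤ√2} (hz0 : Cp W z0) (hne : η z0 ≠ 1) : ∃ C : ℝ, 1 ≤ C ∧
    ∀ σ : ℝ, 1 < σ → σ ≤ 2 → ∃ Q0 : ℕ, ∀ Q : ℕ, Q0 ≤ Q →
    ∑ p ∈ SQ Q, (η (el p true) + η (el p false)).re * (p : ℝ) ^ (-σ) ≤ C := by
  classical
  obtain ⟨C0, hC0, hL⟩ := L_eta hW hW2 h hz0 hne
  have hInv : Inv η := h.inv hu
  have hs2 : Summable (fun n : ℕ => 1 / (n : ℝ) ^ 2) :=
    Real.summable_one_div_nat_pow.2 (by norm_num)
  obtain ⟨T, hT⟩ : ∃ T : ℝ, T = ∑' n : ℕ, 1 / (n : ℝ) ^ 2 := ⟨_, rfl⟩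
  have hT0 : 0 ≤ T := by
    rw [hT]
    exact tsum_nonneg fun n => by positivity
  refine ⟨1 + Real.log (C0 + 1) + 20 * T, ?_, fun σ hσ1 hσ2 => ?_⟩
  · have h1 : 0 ≤ Real.log (C0 + 1) := Real.log_nonneg (by linarith)
    linarith
  have hsum := fL_summable (φ := η) h.le hσ1
  have hf1 : fL η σ 1 = 1 := by
    unfold fL
    rw [an_one h.one, Nat.cast_one, Real.one_rpow]
    simp
  have hf0 : fL η σ 0 = 0 := by
    unfold fL
    rw [Nat.cast_zero, Real.zero_rpow (by linarith)]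
    simp
  have hfm : ∀ {m n : ℕ}, Nat.Coprime m n → fL η σ (m * n) = fL η σ m * fL η σ n := by
    intro m n hmn
    unfold fL
    rw [an_mul hInv h.mul h.one hmn, Nat.cast_mul,
      Real.mul_rpow (Nat.cast_nonneg _) (Nat.cast_nonneg _)]
    push_cast
    ring
  have hE := (EulerProduct.eulerProduct hf1 hfm hsum hf0).norm
  have hlt : ‖∑' n, fL η σ n‖ < C0 + 1 := by linarith [hL σ hσ1 hσ2]
  obtain ⟨Q0, hQ0⟩ := Filter.eventually_atTop.1 (hE.eventually (gt_mem_nhds hlt))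
  refine ⟨Q0, fun Q hQ => ?_⟩
  have h1 := hQ0 Q hQ
  have hloc : ∀ p ∈ Nat.primesBelow Q, loc η σ p ≠ 0 := by
    intro p hp
    have hpp := Nat.prime_of_mem_primesBelow hp
    by_cases hs : Sp p
    · exact (loc_split hInv h.mul h.one h.le hσ1.le hs).1
    · exact (loc_other hInv h.mul h.one h.le hσ1.le hpp hs).1
  have h2 : ∑ p ∈ Nat.primesBelow Q, Real.log ‖loc η σ p‖ ≤ Real.log (C0 + 1) := by
    rw [← Real.log_prod (fun p hp => norm_ne_zero_iff.2 (hloc p hp)), ← norm_prod]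
    apply Real.log_le_log
    · rw [norm_pos_iff]
      exact Finset.prod_ne_zero_iff.2 hloc
    · exact le_of_lt h1
  have h3 : ∑ p ∈ Nat.primesBelow Q, ((if Sp p then
      (η (el p true) + η (el p false)).re * (p : ℝ) ^ (-σ) else 0) - 20 / (p : ℝ) ^ 2) ≤
      ∑ p ∈ Nat.primesBelow Q, Real.log ‖loc η σ p‖ := by
    apply Finset.sum_le_sum
    intro p hp
    have hpp := Nat.prime_of_mem_primesBelow hp
    by_cases hs : Sp p
    · rw [if_pos hs]
      exact (loc_split hInv h.mul h.one h.le hσ1.le hs).2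
    · rw [if_neg hs, zero_sub]
      exact (loc_other hInv h.mul h.one h.le hσ1.le hpp hs).2
  rw [Finset.sum_sub_distrib] at h3
  have h4 : ∑ p ∈ Nat.primesBelow Q, 20 / (p : ℝ) ^ 2 ≤ 20 * T := by
    have h5 : ∀ p ∈ Nat.primesBelow Q, 20 / (p : ℝ) ^ 2 = 20 * (1 / (p : ℝ) ^ 2) := by
      intro p _
      ring
    rw [Finset.sum_congr rfl h5, ← Finset.mul_sum]
    apply mul_le_mul_of_nonneg_left _ (by norm_num)
    rw [hT]
    exact hs2.sum_le_tsum _ (fun n _ => by positivity)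
  have h5 : ∑ p ∈ SQ Q, (η (el p true) + η (el p false)).re * (p : ℝ) ^ (-σ) =
      ∑ p ∈ Nat.primesBelow Q, if Sp p then
        (η (el p true) + η (el p false)).re * (p : ℝ) ^ (-σ) else 0 := by
    rw [← Finset.sum_filter]
    apply Finset.sum_congr _ (fun _ _ => rfl)
    ext p
    unfold SQ Nat.primesBelow
    simp only [Finset.mem_filter, Finset.mem_range]
    constructor
    · rintro ⟨a, b⟩
      exact ⟨⟨a, b.1⟩, b⟩
    · rintro ⟨⟨a, _⟩, b⟩
      exact ⟨a, b⟩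
  rw [h5]
  linarith

end

end Pool.Agent.Lib.MP_0b748d_nt.HD
end
end
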