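import Pool.Agent.Lib.MP_0b748d_nt.HH.DecA
import Pool.Agent.Lib.MP_0b748d_nt.MR.ElDvdA
import Pool.Agent.Lib.MP_0b748d_nt.Basic
import Pool.Agent.Lib.MP_0b748d_nt.MR.UnitsA
import Pool.Agent.Lib.MP_0b748d_nt.HH.CntE
import Pool.Agent.Lib.MP_0b748d_nt.HH.TreeF
import Pool.Agent.Lib.MP_0b748d_nt.HH.TreeB
import Pool.Agent.Lib.MP_0b748d_nt.HH.CmodC
import Pool.Agent.Lib.MP_0b748d_nt.HH.PrimeF

section

set_option autoImplicit false

/-!
# Windows of elements
-/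

namespace Pool.Agent.Lib.MP_0b748d_nt.HD

open Zsqrtd MR

noncomputable section

/-- Proof. `mem_AA`; `th z = al z * th uu`, `th uu ≤ 2` (`th_uu_bounds`), `-1 ≤ al z < 2`, so
`|th z| ≤ 4`. -/
theorem mem_Pz {Y θ h : ℝ} (h0 : -1 ≤ θ) (h1 : θ ≤ 1) (hh : h ≤ 1) {z : ℤ√2} :
    z ∈ Pz Y θ h ↔ OT z ∧ Prim z ∧ (nm z : ℝ) < Y ∧ θ ≤ al z ∧ al z < θ + h := by
  classical
  unfold Pz
  rw [Finset.mem_filter]
  constructor
  · exact fun h => h.2
  · intro hz
    refine ⟨?_, hz⟩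
    rw [mem_AA]
    obtain ⟨hOT, _, hn, ha, hb⟩ := hz
    refine ⟨hOT.1, hn.le, ?_⟩
    have hu := th_uu_bounds
    have h3 : th z = al z * th uu := by
      unfold al
      rw [div_mul_cancel₀]
      linarith [hu.1]
    rw [h3, abs_le]
    have h4 : -1 ≤ al z := h0.trans ha
    have h5 : al z ≤ 2 := by linarith
    constructor
    · nlinarith [hu.1, hu.2]
    · nlinarith [hu.1, hu.2]

open Classical in
/-- Proof. `z ↦ rp z` is a bijection from `Pz Y θ h` onto the `w ∈ Us 0 Y` with `Win θ h w`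
(`0 < h ≤ 1`): the inverse maps `w` to `un (-⌊al w - θ⌋) * w`, of angle `θ + fract (al w - θ)`. -/
theorem Pz_sum (φ : ℤ√2 → ℂ) (hφ : Inv φ) {Y θ h : ℝ} (h0 : -1 ≤ θ) (h1 : θ ≤ 1) (hh0 : 0 < h)
    (hh : h ≤ 1) : ∑ z ∈ Pz Y θ h, φ z = ∑ z ∈ (Us 0 Y).filter (Win θ h), φ z := by
  have key : ∀ z, OT z → θ ≤ al z → al z < θ + h → ⌊al z - θ⌋ = 0 := by
    intro z _ ha hb
    rw [Int.floor_eq_zero_iff]
    exact ⟨by linarith, by linarith⟩
  have hrp : ∀ z, TP z → al (rp z) = al z - ⌊al z⌋ := by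
    intro z hz
    unfold rp
    rw [al_un hz]
    push_cast
    ring
  refine Finset.sum_bij' (fun z _ => rp z) (fun w _ => un (-⌊al w - θ⌋) * w) ?_ ?_ ?_ ?_ ?_
  · intro z hz
    rw [mem_Pz h0 h1 hh] at hz
    obtain ⟨hOT, hP, hn, ha, hb⟩ := hz
    rw [Finset.mem_filter]
    refine ⟨rp_mem_Us hOT hP ?_ hn, ?_⟩
    · exact_mod_cast hOT.1.nm_pos.le
    · unfold Win
      rw [hrp z hOT.1]
      have h2 : al z - ⌊al z⌋ - θ = al z - θ - ⌊al z⌋ := by ring
      rw [h2, Int.fract_sub_intCast, Int.fract, key z hOT ha hb]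
      push_cast
      linarith
  · intro w hw
    rw [Finset.mem_filter, mem_Us] at hw
    obtain ⟨⟨⟨hOT, hP, _, _⟩, _, hn⟩, hwin⟩ := hw
    rw [mem_Pz h0 h1 hh, OT_un, Prim_un, nm_un, al_un hOT.1]
    have h2 : al w + ((-⌊al w - θ⌋ : ℤ) : ℝ) = θ + Int.fract (al w - θ) := by
      rw [Int.fract]
      push_cast
      ring
    rw [h2]
    exact ⟨hOT, hP, hn, by linarith [Int.fract_nonneg (al w - θ)], by
      have : Int.fract (al w - θ) < h := hwin
      linarith⟩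
  · intro z hz
    rw [mem_Pz h0 h1 hh] at hz
    obtain ⟨hOT, hP, hn, ha, hb⟩ := hz
    show un (-⌊al (rp z) - θ⌋) * rp z = z
    rw [hrp z hOT.1]
    have h2 : al z - ⌊al z⌋ - θ = al z - θ - ⌊al z⌋ := by ring
    rw [h2, Int.floor_sub_intCast, key z hOT ha hb]
    unfold rp
    rw [← mul_assoc, ← un_add]
    have h3 : -(0 - ⌊al z⌋) + -⌊al z⌋ = 0 := by ring
    rw [h3, un_zero, one_mul]
  · intro w hw
    rw [Finset.mem_filter, mem_Us] at hw
    obtain ⟨⟨⟨hOT, hP, h2, h3⟩, _, hn⟩, hwin⟩ := hw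
    show rp (un (-⌊al w - θ⌋) * w) = w
    rw [rp_un hOT.1, rp_eq h2 h3]
  · intro z hz
    rw [mem_Pz h0 h1 hh] at hz
    exact (Inv.rp hφ hz.1.1).symm

open Classical in
private lemma DE8_sum {M : Type*} [AddCommMonoid M] (φ : ℤ√2 → M) (Y θ s h : ℝ) :
    ∑ z ∈ Pz Y (θ - s) h, φ z = ∑ z ∈ (AA Y).filter (fun z => OT z ∧ Prim z ∧ (nm z : ℝ) < Y),
      (Set.Ioc (al z + s - h) (al z + s)).indicator (fun _ => φ z) θ := by
  unfold Pz
  rw [Finset.sum_filter, Finset.sum_filter]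
  apply Finset.sum_congr rfl
  intro z _
  by_cases h1 : OT z ∧ Prim z ∧ (nm z : ℝ) < Y
  · rw [if_pos h1]
    by_cases h2 : θ ∈ Set.Ioc (al z + s - h) (al z + s)
    · rw [Set.indicator_of_mem h2, if_pos]
      exact ⟨h1.1, h1.2.1, h1.2.2, by linarith [h2.2], by linarith [h2.1]⟩
    · rw [Set.indicator_of_notMem h2, if_neg]
      rintro ⟨_, _, _, h3, h4⟩
      exact h2 ⟨by linarith, by linarith⟩
  · rw [if_neg h1, if_neg]
    rintro ⟨h3, h4, h5, _⟩
    exact h1 ⟨h3, h4, h5⟩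

/-- measurable (finite sums of indicators of intervals) and bounded -/
theorem int_Pz (φ : ℝ → ℤ√2 → ℂ) (hφ : ∀ z, Continuous (fun θ => φ θ z)) (Y s h a b : ℝ) :
    IntervalIntegrable (fun θ => ‖∑ z ∈ Pz Y (θ - s) h, φ θ z‖) MeasureTheory.volume a b := by
  classical
  apply IntervalIntegrable.norm
  have h1 : (fun θ => ∑ z ∈ Pz Y (θ - s) h, φ θ z) = fun θ =>
      ∑ z ∈ (AA Y).filter (fun z => OT z ∧ Prim z ∧ (nm z : ℝ) < Y),
        (Set.Ioc (al z + s - h) (al z + s)).indicator (fun θ => φ θ z) θ := by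
    funext θ
    rw [DE8_sum]
    apply Finset.sum_congr rfl
    intro z _
    rfl
  have h3 := IntervalIntegrable.sum (μ := MeasureTheory.volume) (a := a) (b := b)
    ((AA Y).filter (fun z => OT z ∧ Prim z ∧ (nm z : ℝ) < Y))
    (f := fun z => (Set.Ioc (al z + s - h) (al z + s)).indicator (fun θ => φ θ z)) (by
      intro z _
      have h2 := (hφ z).intervalIntegrable (μ := MeasureTheory.volume) a b
      exact ⟨h2.1.indicator measurableSet_Ioc, h2.2.indicator measurableSet_Ioc⟩)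
  have h4 : (∑ z ∈ (AA Y).filter (fun z => OT z ∧ Prim z ∧ (nm z : ℝ) < Y),
      (Set.Ioc (al z + s - h) (al z + s)).indicator (fun θ => φ θ z)) = fun θ =>
      ∑ z ∈ (AA Y).filter (fun z => OT z ∧ Prim z ∧ (nm z : ℝ) < Y),
        (Set.Ioc (al z + s - h) (al z + s)).indicator (fun θ => φ θ z) θ := by
    funext θ
    rw [Finset.sum_apply]
  rw [h1, ← h4]
  exact h3

/-- Proof. The integral over `θ` of the indicator of `θ - s ≤ al z < θ - s + h` is at most `h`, and only the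
elements of `AA Y` occur (`AA_card`). -/
theorem Pz_card : ∃ C : ℝ, 1 ≤ C ∧ ∀ Y s h : ℝ, 0 ≤ Y → 0 ≤ h →
    ∫ θ in (0 : ℝ)..1, ((Pz Y (θ - s) h).card : ℝ) ≤ C * h * Y := by
  classical
  obtain ⟨C, hC1, hC⟩ := AA_card
  refine ⟨C, hC1, fun Y s h hY hh => ?_⟩
  have h1 : (fun θ : ℝ => ((Pz Y (θ - s) h).card : ℝ)) = fun θ =>
      ∑ z ∈ (AA Y).filter (fun z => OT z ∧ Prim z ∧ (nm z : ℝ) < Y),
        (Set.Ioc (al z + s - h) (al z + s)).indicator (fun _ => (1 : ℝ)) θ := by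
    funext θ
    rw [Finset.card_eq_sum_ones]
    push_cast
    rw [DE8_sum (fun _ => (1 : ℝ))]
  have hint : ∀ z : ℤ√2, IntervalIntegrable
      ((Set.Ioc (al z + s - h) (al z + s)).indicator (fun _ => (1 : ℝ)))
      MeasureTheory.volume 0 1 := by
    intro z
    have h2 := (continuous_const (y := (1 : ℝ))).intervalIntegrable
      (μ := MeasureTheory.volume) 0 1
    exact ⟨h2.1.indicator measurableSet_Ioc, h2.2.indicator measurableSet_Ioc⟩
  rw [h1, intervalIntegral.integral_finsetSum (fun z _ => hint z)]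
  have h3 : ∀ z : ℤ√2, ∫ θ in (0 : ℝ)..1,
      (Set.Ioc (al z + s - h) (al z + s)).indicator (fun _ => (1 : ℝ)) θ ≤ h := by
    intro z
    rw [intervalIntegral.integral_of_le zero_le_one,
      MeasureTheory.integral_indicator measurableSet_Ioc,
      MeasureTheory.Measure.restrict_restrict measurableSet_Ioc]
    rw [MeasureTheory.setIntegral_const, smul_eq_mul, mul_one]
    have h4 : MeasureTheory.volume.real (Set.Ioc (al z + s - h) (al z + s) ∩ Set.Ioc (0 : ℝ) 1) ≤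
        MeasureTheory.volume.real (Set.Ioc (al z + s - h) (al z + s)) :=
      MeasureTheory.measureReal_mono Set.inter_subset_left (by simp)
    refine h4.trans ?_
    rw [Real.volume_real_Ioc_of_le (by linarith)]
    linarith
  calc ∑ z ∈ (AA Y).filter (fun z => OT z ∧ Prim z ∧ (nm z : ℝ) < Y), ∫ θ in (0 : ℝ)..1,
      (Set.Ioc (al z + s - h) (al z + s)).indicator (fun _ => (1 : ℝ)) θ
      ≤ ∑ z ∈ (AA Y).filter (fun z => OT z ∧ Prim z ∧ (nm z : ℝ) < Y), h :=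
        Finset.sum_le_sum (fun z _ => h3 z)
    _ = ((AA Y).filter (fun z => OT z ∧ Prim z ∧ (nm z : ℝ) < Y)).card * h := by
        rw [Finset.sum_const, nsmul_eq_mul]
    _ ≤ (AA Y).card * h := by
        apply mul_le_mul_of_nonneg_right _ hh
        exact_mod_cast Finset.card_filter_le _ _
    _ ≤ C * Y * h := mul_le_mul_of_nonneg_right (hC Y hY) hh
    _ = C * h * Y := by ring

end

end Pool.Agent.Lib.MP_0b748d_nt.HD
end

section

section

set_option autoImplicit false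

/-!
# Greatest common divisors
-/

namespace Pool.Agent.Lib.MP_0b748d_nt.HD

open Zsqrtd

noncomputable section

private lemma DE1_nm_ne {b : ℤ√2} (h : b ≠ 0) : nm b ≠ 0 := by
  intro h0
  apply h
  rw [← Zsqrtd.norm_eq_zero (d := 2) ?_ b]
  · rw [Zsqrtd.norm_def]
    have : nm b = b.re ^ 2 - 2 * b.im ^ 2 := rfl
    rw [this] at h0
    linarith
  · intro n hn
    have h1 : n * n ≤ 2 := by omega
    have h2 : -2 < n := by nlinarith
    have h3 : n < 2 := by nlinarith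
    interval_cases n <;> omega

private lemma DE1_round (m N : ℤ) (hN : N ≠ 0) : ∃ q : ℤ, 4 * (m - N * q) ^ 2 ≤ N ^ 2 := by
  refine ⟨round ((m : ℚ) / N), ?_⟩
  have hN' : (N : ℚ) ≠ 0 := by exact_mod_cast hN
  have h1 := abs_sub_round ((m : ℚ) / N)
  have h2 : ((m : ℚ) / N - round ((m : ℚ) / N)) ^ 2 ≤ (1 / 2) ^ 2 := by
    rw [← sq_abs]
    exact pow_le_pow_left₀ (abs_nonneg _) h1 2
  have h3 : (4 * (m - N * round ((m : ℚ) / N)) ^ 2 : ℚ) ≤ N ^ 2 := by
    have h4 : (4 * (m - N * round ((m : ℚ) / N)) ^ 2 : ℚ) =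
        4 * ((m : ℚ) / N - round ((m : ℚ) / N)) ^ 2 * N ^ 2 := by
      field_simp
    rw [h4]
    nlinarith [sq_nonneg (N : ℚ)]
  exact_mod_cast h3

private lemma DE1_abs (X Y M : ℤ) (hX : 0 ≤ X) (hY : 0 ≤ Y) (h1 : 4 * X ≤ M) (h2 : 4 * Y ≤ M) :
    |X - 2 * Y| * 2 ≤ M := by
  rcases abs_cases (X - 2 * Y) with h | h <;> omega

private lemma DE1_div (a b : ℤ√2) (h : b ≠ 0) : ∃ q : ℤ√2,
    (nm (a - b * q)).natAbs < (nm b).natAbs := by
  have hN := DE1_nm_ne h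
  obtain ⟨q1, h1⟩ := DE1_round (a * star b).re (nm b) hN
  obtain ⟨q2, h2⟩ := DE1_round (a * star b).im (nm b) hN
  refine ⟨⟨q1, q2⟩, ?_⟩
  have h3 : nm (a - b * ⟨q1, q2⟩) * nm b =
      ((a * star b).re - nm b * q1) ^ 2 - 2 * ((a * star b).im - nm b * q2) ^ 2 := by
    simp only [nm, re_sub, im_sub, re_mul, im_mul, Zsqrtd.re_star, Zsqrtd.im_star]
    ring
  have h4 : |nm (a - b * ⟨q1, q2⟩)| * |nm b| * 2 ≤ |nm b| * |nm b| := by
    rw [← abs_mul, h3, abs_mul_abs_self]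
    have h5 := DE1_abs _ _ _ (sq_nonneg ((a * star b).re - nm b * q1))
      (sq_nonneg ((a * star b).im - nm b * q2)) h1 h2
    rw [← sq]
    linarith
  have h5 : 0 < |nm b| := abs_pos.2 hN
  have h6 : |nm (a - b * ⟨q1, q2⟩)| * 2 ≤ |nm b| := by
    have h7 : |nm (a - b * ⟨q1, q2⟩)| * 2 * |nm b| ≤ |nm b| * |nm b| := by linarith
    exact le_of_mul_le_mul_right h7 h5
  rw [← Int.natCast_natAbs, ← Int.natCast_natAbs] at h6
  rw [← Int.natCast_natAbs] at h5
  omega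

/-- Proof. Euclid: for `b ≠ 0` write `a * star b = m + n √2`, `N = nm b`, and take `q` with real and
imaginary parts the nearest integers to `m/N`, `n/N`; then `|nm (a - b q)| ≤ |nm b|/2`
(`|x² - 2 y²| ≤ 1/2` for `|x|, |y| ≤ 1/2`). Strong induction on `(nm b).natAbs`, using the pair
`(b, a - b q)`; if `a - b q = 0` take `g = b`. -/
theorem exists_gcd (a b : ℤ√2) (h : b ≠ 0) : ∃ g x y u v : ℤ√2, g ≠ 0 ∧ g = x * a + y * b ∧
    a = g * u ∧ b = g * v := by
  suffices H : ∀ n : ℕ, ∀ a b : ℤ√2, b ≠ 0 → (nm b).natAbs ≤ n → ∃ g x y u v : ℤ√2, g ≠ 0 ∧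
      g = x * a + y * b ∧ a = g * u ∧ b = g * v from H _ a b h le_rfl
  intro n
  induction n with
  | zero =>
    intro a b hb hn
    exact absurd (Int.natAbs_eq_zero.1 (Nat.le_zero.1 hn)) (DE1_nm_ne hb)
  | succ n ih =>
    intro a b hb hn
    obtain ⟨q, hq⟩ := DE1_div a b hb
    by_cases hr : a - b * q = 0
    · refine ⟨b, 0, 1, q, 1, hb, by ring, ?_, by ring⟩
      exact sub_eq_zero.1 hr
    · obtain ⟨g, x, y, u, v, hg, h1, h2, h3⟩ := ih b (a - b * q) hr (by omega)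
      refine ⟨g, y, x - y * q, u * q + v, u, hg, ?_, ?_, h2⟩
      · rw [h1]; ring
      · have h4 : a = b * q + (a - b * q) := by ring
        rw [h3] at h4
        rw [h4]
        nth_rewrite 1 [h2]
        ring

end

end Pool.Agent.Lib.MP_0b748d_nt.HD
end

section

set_option autoImplicit false

/-!
# Totally positive greatest common divisors
-/

namespace Pool.Agent.Lib.MP_0b748d_nt.HD

open Zsqrtd MR

noncomputable section

private theorem de2_s1_ne {z : ℤ√2} (hz : z ≠ 0) : s1 z ≠ 0 := by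
  intro h
  apply hz
  have h1 : (z.re : ℝ) = -(z.im : ℝ) * √2 := by
    unfold s1 at h
    linarith
  have h2 : z.im = 0 := by
    by_contra h3
    have h4 : (z.im : ℝ) ≠ 0 := by exact_mod_cast h3
    apply irrational_sqrt_two
    refine ⟨-(z.re : ℚ) / z.im, ?_⟩
    push_cast
    rw [h1]
    field_simp
  rw [h2] at h1
  have h3 : z.re = 0 := by
    have h4 : (z.re : ℝ) = 0 := by
      rw [h1]
      simp
    exact_mod_cast h4
  exact Zsqrtd.ext h3 h2

private theorem de2_s2_ne {z : ℤ√2} (hz : z ≠ 0) : s2 z ≠ 0 := by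
  rw [← s1_star]
  exact de2_s1_ne (fun h => hz (by rw [← star_star z, h, star_zero]))

private theorem de2_cancel {g t : ℤ√2} (hg : g ≠ 0) (h : g * t = g) : t = 1 := by
  have h1 : s1 g * s1 t = s1 g := by rw [← s1_mul, h]
  have h2 : s1 t = 1 := mul_left_cancel₀ (de2_s1_ne hg) (by rw [h1, mul_one])
  by_contra h3
  have h4 := de2_s1_ne (sub_ne_zero.2 h3)
  apply h4
  have h5 : s1 (t - 1) + s1 1 = s1 t := by rw [← s1_add, sub_add_cancel]
  have h6 : s1 1 = 1 := by simp [s1]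
  rw [h6, h2] at h5
  linarith

/-- some unit makes a nonzero element totally positive -/
private theorem de2_sign {g : ℤ√2} (hg : g ≠ 0) : ∃ e e' : ℤ√2, e * e' = 1 ∧ TP (e * g) := by
  have hs1 := de2_s1_ne hg
  have hs2 := de2_s2_ne hg
  have hr := lt_sqrt2
  have e1 : s1 (⟨1, 1⟩ : ℤ√2) = 1 + √2 := by simp [s1]
  have e2 : s2 (⟨1, 1⟩ : ℤ√2) = 1 - √2 := by simp [s2]
  have e3 : s1 (⟨-1, -1⟩ : ℤ√2) = -(1 + √2) := by simp [s1]; ring
  have e4 : s2 (⟨-1, -1⟩ : ℤ√2) = -(1 - √2) := by simp [s2]; ring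
  have e5 : s1 (-1 : ℤ√2) = -1 := by simp [s1]
  have e6 : s2 (-1 : ℤ√2) = -1 := by simp [s2]
  rcases lt_or_gt_of_ne hs1 with h1 | h1 <;> rcases lt_or_gt_of_ne hs2 with h2 | h2
  · refine ⟨-1, -1, by ring, ?_, ?_⟩
    · rw [s1_mul, e5]
      linarith
    · rw [s2_mul, e6]
      linarith
  · refine ⟨⟨-1, -1⟩, ⟨1, -1⟩, by ext <;> simp, ?_, ?_⟩
    · rw [s1_mul, e3]
      nlinarith
    · rw [s2_mul, e4]
      nlinarith
  · refine ⟨⟨1, 1⟩, ⟨-1, 1⟩, by ext <;> simp, ?_, ?_⟩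
    · rw [s1_mul, e1]
      nlinarith
    · rw [s2_mul, e2]
      nlinarith
  · refine ⟨1, 1, by ring, ?_⟩
    rw [one_mul]
    exact ⟨h1, h2⟩

/-- Proof. `exists_gcd z0 W`. Multiply `g` by one of the units `1, -1, ε, -ε` (`ε = 1 + √2`,
`ε (√2 - 1) = 1`) to make it totally positive (look at the signs of `s1 g`, `s2 g`, both nonzero), then
by `un n` to have `0 ≤ al g < 1`. -/
theorem gcd_TP (W : ℕ) (hW : 1 ≤ W) (z0 : ℤ√2) : ∃ g z1 ω x y : ℤ√2, TP g ∧
    0 ≤ al g ∧ al g < 1 ∧ z0 = g * z1 ∧ ((W : ℕ) : ℤ√2) = g * ω ∧ x * z1 + y * ω = 1 := by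
  have hW0 : ((W : ℕ) : ℤ√2) ≠ 0 := by
    intro h
    have h1 : ((W : ℕ) : ℤ√2).re = 0 := by
      rw [h]
      rfl
    rw [Zsqrtd.re_natCast] at h1
    omega
  obtain ⟨g, x, y, u, v, hg, hxy, hu, hv⟩ := exists_gcd z0 W hW0
  have h1 : x * u + y * v = 1 := by
    apply de2_cancel hg
    calc g * (x * u + y * v) = x * (g * u) + y * (g * v) := by ring
      _ = x * z0 + y * (W : ℤ√2) := by rw [← hu, ← hv]
      _ = g := hxy.symm
  obtain ⟨e, e', he, hTP⟩ := de2_sign hg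
  obtain ⟨n, hn⟩ : ∃ n : ℤ, n = ⌊al (e * g)⌋ := ⟨_, rfl⟩
  have hun : un (-n) * un n = 1 := by rw [← un_add, neg_add_cancel, un_zero]
  have hal : al (un (-n) * (e * g)) = al (e * g) - n := by
    rw [al_un hTP]
    push_cast
    ring
  refine ⟨un (-n) * (e * g), un n * (e' * u), un n * (e' * v), un (-n) * (e * x),
    un (-n) * (e * y), (TP_un _).2 hTP, ?_, ?_, ?_, ?_, ?_⟩
  · rw [hal, hn]
    linarith [Int.floor_le (al (e * g))]
  · rw [hal, hn]
    linarith [Int.lt_floor_add_one (al (e * g))]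
  · calc z0 = (un (-n) * un n) * (e * e') * (g * u) := by rw [hun, he, ← hu]; ring
      _ = _ := by ring
  · calc ((W : ℕ) : ℤ√2) = (un (-n) * un n) * (e * e') * (g * v) := by rw [hun, he, ← hv]; ring
      _ = _ := by ring
  · calc un (-n) * (e * x) * (un n * (e' * u)) + un (-n) * (e * y) * (un n * (e' * v))
        = (un (-n) * un n) * (e * e') * (x * u + y * v) := by ring
      _ = 1 := by rw [hun, he, h1]; ring

end

end Pool.Agent.Lib.MP_0b748d_nt.HD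
end

section

set_option autoImplicit false

/-!
# Reduction to classes prime to the modulus
-/

namespace Pool.Agent.Lib.MP_0b748d_nt.HD

open Zsqrtd MR HH

noncomputable section

private theorem de11_cancel {ρ u v : ℤ√2} (hρ : TP ρ) (h : ρ * u = ρ * v) : u = v := by
  have h1 := congrArg s1 h
  have h2 := congrArg s2 h
  rw [s1_mul, s1_mul] at h1
  rw [s2_mul, s2_mul] at h2
  have h3 := mul_left_cancel₀ hρ.1.ne' h1
  have h4 := mul_left_cancel₀ hρ.2.ne' h2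
  unfold s1 at h3
  unfold s2 at h4
  have h5 : (u.re : ℝ) = v.re := by linarith
  have h6 : (u.im : ℝ) * √2 = v.im * √2 := by linarith
  have h7 : (u.im : ℝ) = v.im := mul_right_cancel₀ (by positivity : (√2 : ℝ) ≠ 0) h6
  exact Zsqrtd.ext (by exact_mod_cast h5) (by exact_mod_cast h7)

open Classical in
/-- Proof. If no primitive totally positive element is congruent to `r + s √2` modulo `W` the first
alternative holds. Otherwise let `z0` be one, and `g, z1, ω, x, y` from `gcd_TP W z0`. For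
`z ∈ Wz W r s Y θ h`: `z ≡ z0 mod W` and `g ∣ W` give `z = g w`, `W ∣ g (w - z1)` so `ω ∣ w - z1`.
`w` is totally positive, primitive (`prim_right`), `nm w = nm z/nm g < Y/nm g`,
`al w = al z - al g ∈ [θ - al g, θ - al g + h)`. `w` is odd: if `r` is odd then `z` is odd (`W` even); if
`r` is even then `√2 ∣ z0` and `√2 ∣ W`, so `√2 ∣ g`; if `w` were even, `√2 ∣ w` and `2 ∣ z`,
contradiction. Conversely, if `w` is odd, totally positive, primitive and `w ≡ z1 mod ω` then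
`z = g w ≡ z0 mod W`, and `z` is primitive: let a prime number `q` divide `g w`. If `q ∣ W` then
`q ∣ z0` (as `z ≡ z0 mod W`), contradiction. If `q ∤ W`, `q a + W b = 1` in `ℤ`, and
`w = q a w + ω b (g w)` is divisible by `q`, contradiction. So `z ↦ w` is a bijection onto
`(Pz (Y/nm g) (θ - al g) h).filter (ω ∣ · - z1)`; `lz z = lz g lz w`; and
`Fl c (nm z).toNat` is `lz z` for all `z` in the class or `0` for all of them (`nm z ≡ r mod 2`). -/
theorem red (W : ℕ) (hW : 1 ≤ W) (hW2 : W % 2 = 0) (c : ℕ) (r s : ℤ) :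
    (∀ Y θ h : ℝ, Wz W r s Y θ h = ∅) ∨
    ∃ g z1 ω : ℤ√2, TP g ∧ 0 ≤ al g ∧ al g < 1 ∧ ω ∣ ((W : ℕ) : ℤ√2) ∧
      (∃ x y : ℤ√2, x * z1 + y * ω = 1) ∧ ∀ Y θ h : ℝ, 0 ≤ θ → θ ≤ 1 → 0 < h → h ≤ 1 →
      |∑ z ∈ Wz W r s Y θ h, (Fl c (nm z).toNat : ℝ)| ≤
        ‖∑ z ∈ (Pz (Y / nm g) (θ - al g) h).filter (fun z => ω ∣ z - z1), lz z‖ := by
  classical
  by_cases hex : ∃ z0 : ℤ√2, TP z0 ∧ Prim z0 ∧ (W : ℤ) ∣ z0.re - r ∧ (W : ℤ) ∣ z0.im - s
  swap
  · left
    intro Y θ h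
    unfold Wz
    rw [Finset.filter_eq_empty_iff]
    rintro z hz ⟨h1, -, -, -, h2, h3⟩
    exact hex ⟨z, (mem_AA.1 hz).1, h1, h2, h3⟩
  right
  obtain ⟨z0, hz0T, hz0P, hz0r, hz0s⟩ := hex
  obtain ⟨g, z1, ω, x, y, hg, hg0, hg1, hgz, hgW, hxy⟩ := gcd_TP W hW z0
  refine ⟨g, z1, ω, hg, hg0, hg1, ⟨g, by rw [hgW, mul_comm]⟩, ⟨x, y, hxy⟩, ?_⟩
  intro Y θ h hθ0 hθ1 hh0 hh1
  have hnmg : (0 : ℝ) < nm g := by exact_mod_cast hg.nm_pos
  have hWI : (0 : ℤ) < (W : ℤ) := by exact_mod_cast hW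
  have h2W : (2 : ℤ) ∣ (W : ℤ) := by omega
  -- congruences
  have hcong : ∀ z : ℤ√2, ((W : ℤ) ∣ z.re - r ∧ (W : ℤ) ∣ z.im - s) ↔
      ((W : ℕ) : ℤ√2) ∣ z - z0 := by
    intro z
    rw [nat_dvd, Zsqrtd.re_sub, Zsqrtd.im_sub]
    constructor
    · rintro ⟨h1, h2⟩
      refine ⟨?_, ?_⟩
      · have := dvd_sub h1 hz0r
        rwa [sub_sub_sub_cancel_right] at this
      · have := dvd_sub h2 hz0s
        rwa [sub_sub_sub_cancel_right] at this
    · rintro ⟨h1, h2⟩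
      refine ⟨?_, ?_⟩
      · have := dvd_add h1 hz0r
        rwa [sub_add_sub_cancel] at this
      · have := dvd_add h2 hz0s
        rwa [sub_add_sub_cancel] at this
  have hmem : ∀ z : ℤ√2, z ∈ Wz W r s Y θ h ↔ TP z ∧ Prim z ∧ (nm z : ℝ) < Y ∧ θ ≤ al z ∧
      al z < θ + h ∧ ((W : ℕ) : ℤ√2) ∣ z - z0 := by
    intro z
    unfold Wz
    rw [Finset.mem_filter, mem_AA, ← hcong]
    constructor
    · rintro ⟨⟨h1, -, -⟩, h2, h3, h4, h5, h6, h7⟩
      exact ⟨h1, h2, h3, h4, h5, h6, h7⟩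
    · rintro ⟨h1, h2, h3, h4, h5, h6, h7⟩
      refine ⟨⟨h1, h3.le, ?_⟩, h2, h3, h4, h5, h6, h7⟩
      obtain ⟨hu1, hu2⟩ := th_uu_bounds
      have h8 : th z = al z * th uu := by
        unfold al
        rw [div_mul_cancel₀]
        linarith
      rw [h8, abs_mul, abs_of_nonneg (by linarith : 0 ≤ al z), abs_of_nonneg (by linarith)]
      nlinarith
  -- the parity argument
  have hodd : ∀ w : ℤ√2, Prim (g * w) → ((W : ℕ) : ℤ√2) ∣ g * w - z0 → w.re % 2 = 1 := by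
    intro w hP hd
    rw [nat_dvd, Zsqrtd.re_sub, Zsqrtd.im_sub] at hd
    have h1 : (2 : ℤ) ∣ (g * w).re - z0.re := h2W.trans hd.1
    have hre : (g * w).re = g.re * w.re + 2 * g.im * w.im := by
      rw [Zsqrtd.re_mul]
    have him : (g * w).im = g.re * w.im + g.im * w.re := by
      rw [Zsqrtd.im_mul]
    by_contra hw
    obtain ⟨w', hw'⟩ : ∃ w', w.re = 2 * w' := ⟨w.re / 2, by omega⟩
    have h2 : (2 : ℤ) ∣ (g * w).re := by
      rw [hre, hw']
      exact ⟨g.re * w' + g.im * w.im, by ring⟩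
    have h3 : (2 : ℤ) ∣ z0.re := by
      have := dvd_sub h2 h1
      rwa [sub_sub_cancel] at this
    have h4 : (2 : ℤ) ∣ g.re := by
      have h5 : g = x * z0 + y * ((W : ℕ) : ℤ√2) := by
        rw [hgz, hgW]
        calc g = g * (x * z1 + y * ω) := by rw [hxy, mul_one]
          _ = x * (g * z1) + y * (g * ω) := by ring
      have h6 : g.re = x.re * z0.re + 2 * x.im * z0.im + y.re * W := by
        conv_lhs => rw [h5]
        rw [Zsqrtd.re_add, Zsqrtd.re_mul, Zsqrtd.re_mul, Zsqrtd.re_natCast, Zsqrtd.im_natCast]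
        ring
      rw [h6]
      exact dvd_add (dvd_add (h3.mul_left _) ⟨x.im * z0.im, by ring⟩) (h2W.mul_left _)
    have h5 : (2 : ℤ) ∣ (g * w).im := by
      rw [him, hw']
      exact dvd_add (h4.mul_right _) ⟨g.im * w', by ring⟩
    rw [prim_iff_prime] at hP
    refine hP 2 Nat.prime_two ?_
    rw [nat_dvd]
    exact ⟨h2, h5⟩
  -- the bijection
  have hbij : ∑ z ∈ Wz W r s Y θ h, lz z =
      ∑ w ∈ (Pz (Y / nm g) (θ - al g) h).filter (fun z => ω ∣ z - z1), lz (g * w) := by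
    symm
    refine Finset.sum_nbij (fun w => g * w) ?_ ?_ ?_ (fun _ _ => rfl)
    · intro w hw
      rw [Finset.mem_filter, mem_Pz (by linarith) (by linarith) hh1] at hw
      obtain ⟨⟨hO, hP, hn, ha1, ha2⟩, hd⟩ := hw
      have hdz : ((W : ℕ) : ℤ√2) ∣ g * w - z0 := by
        rw [hgW, hgz, ← mul_sub]
        exact mul_dvd_mul_left g hd
      rw [hmem]
      refine ⟨hg.mul hO.1, ?_, ?_, ?_, ?_, hdz⟩
      · rw [prim_iff_prime] at hP hz0P ⊢
        intro q hq hqz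
        by_cases hqW : (q : ℤ) ∣ (W : ℤ)
        · apply hz0P q hq
          have h1 : ((q : ℕ) : ℤ√2) ∣ ((W : ℕ) : ℤ√2) := by
            rw [nat_dvd, Zsqrtd.re_natCast, Zsqrtd.im_natCast]
            exact ⟨hqW, dvd_zero _⟩
          have h2 := dvd_sub hqz (h1.trans hdz)
          rwa [sub_sub_cancel] at h2
        · apply hP q hq
          have hqi : Prime (q : ℤ) := Nat.prime_iff_prime_int.mp hq
          obtain ⟨a, b, hab⟩ : IsCoprime (q : ℤ) (W : ℤ) :=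
            (Int.prime_iff_natAbs_prime.2 (by simpa using hq)).coprime_iff_not_dvd.2 hqW
          have h1 : ((a : ℤ) : ℤ√2) * ((q : ℕ) : ℤ√2) + ((b : ℤ) : ℤ√2) * ((W : ℕ) : ℤ√2) = 1 := by
            have := congrArg (fun t : ℤ => (t : ℤ√2)) hab
            push_cast at this
            exact this
          have h2 : w = ((q : ℕ) : ℤ√2) * (((a : ℤ) : ℤ√2) * w) +
              ((b : ℤ) : ℤ√2) * ω * (g * w) := by
            calc w = (((a : ℤ) : ℤ√2) * ((q : ℕ) : ℤ√2) +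
                ((b : ℤ) : ℤ√2) * ((W : ℕ) : ℤ√2)) * w := by rw [h1, one_mul]
              _ = _ := by rw [hgW]; ring
          rw [h2]
          exact dvd_add (Dvd.intro _ rfl) (hqz.mul_left _)
      · rw [nm_mul]
        push_cast
        rw [lt_div_iff₀ hnmg] at hn
        linarith
      · rw [al_mul hg hO.1]
        linarith
      · rw [al_mul hg hO.1]
        linarith
    · intro w _ w' _ hww
      exact de11_cancel hg hww
    · intro z hz
      have hz' := (hmem z).1 hz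
      obtain ⟨hT, hP, hn, ha1, ha2, hd⟩ := hz'
      have hgd : g ∣ z := by
        have h1 : g ∣ z - z0 := Dvd.dvd.trans ⟨ω, hgW⟩ hd
        have h2 := dvd_add h1 (⟨z1, hgz⟩ : g ∣ z0)
        rwa [sub_add_cancel] at h2
      obtain ⟨w, rfl⟩ := hgd
      have hTw : TP w := by
        obtain ⟨h1, h2⟩ := hT
        rw [s1_mul] at h1
        rw [s2_mul] at h2
        exact ⟨(pos_iff_pos_of_mul_pos h1).mp hg.1, (pos_iff_pos_of_mul_pos h2).mp hg.2⟩
      refine ⟨w, ?_, rfl⟩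
      rw [Finset.mem_coe, Finset.mem_filter, mem_Pz (by linarith) (by linarith) hh1]
      rw [al_mul hg hTw] at ha1 ha2
      refine ⟨⟨⟨hTw, hodd w hP hd⟩, prim_right hP, ?_, by linarith, by linarith⟩, ?_⟩
      · rw [lt_div_iff₀ hnmg]
        rw [nm_mul] at hn
        push_cast at hn
        linarith
      · rw [hgW, hgz, ← mul_sub] at hd
        obtain ⟨t, ht⟩ := hd
        rw [mul_assoc] at ht
        exact ⟨t, de11_cancel hg ht⟩
  have hlg : ‖∑ z ∈ Wz W r s Y θ h, lz z‖ =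
      ‖∑ z ∈ (Pz (Y / nm g) (θ - al g) h).filter (fun z => ω ∣ z - z1), lz z‖ := by
    have h1 : ∑ w ∈ (Pz (Y / nm g) (θ - al g) h).filter (fun z => ω ∣ z - z1), lz (g * w) =
        lz g * ∑ w ∈ (Pz (Y / nm g) (θ - al g) h).filter (fun z => ω ∣ z - z1), lz w := by
      rw [Finset.mul_sum]
      refine Finset.sum_congr rfl fun w hw => ?_
      rw [Finset.mem_filter, mem_Pz (by linarith) (by linarith) hh1] at hw
      exact lz_mul hg hw.1.1.1
    rw [hbij, h1, _root_.norm_mul, norm_lz, one_mul]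
  rw [← hlg]
  -- the parity of the norm
  have hpar : ∀ z ∈ Wz W r s Y θ h, ((nm z).toNat : ℤ) % 2 = r % 2 ∧ (nm z).toNat ≠ 0 := by
    intro z hz
    have hz' := (hmem z).1 hz
    obtain ⟨hT, -, -, -, -, hd⟩ := hz'
    have h1 := ((hcong z).2 hd).1
    have h2 := h2W.trans h1
    have h3 := hT.nm_pos
    refine ⟨?_, by omega⟩
    rw [Int.toNat_of_nonneg h3.le]
    have h4 : nm z % 2 = z.re % 2 := by
      have h5 : nm z = z.re ^ 2 - 2 * z.im ^ 2 := rfl
      rcases Int.even_or_odd z.re with ⟨k, hk⟩ | ⟨k, hk⟩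
      · have h6 : nm z = 2 * (2 * k ^ 2 - z.im ^ 2) := by rw [h5, hk]; ring
        omega
      · have h6 : nm z = 2 * (2 * k ^ 2 + 2 * k - z.im ^ 2) + 1 := by rw [h5, hk]; ring
        omega
    omega
  by_cases hc : (c : ℤ) = r % 2
  · have h1 : (((∑ z ∈ Wz W r s Y θ h, (Fl c (nm z).toNat : ℝ)) : ℝ) : ℂ) =
        ∑ z ∈ Wz W r s Y θ h, lz z := by
      push_cast
      refine Finset.sum_congr rfl fun z hz => ?_
      obtain ⟨h2, h3⟩ := hpar z hz
      have h4 : (nm z).toNat % 2 = c ∧ (nm z).toNat ≠ 0 := ⟨by omega, h3⟩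
      unfold Fl
      rw [if_pos h4]
      unfold lz fg F lio
      rfl
    rw [← h1, Complex.norm_real, Real.norm_eq_abs]
  · have h1 : ∑ z ∈ Wz W r s Y θ h, (Fl c (nm z).toNat : ℝ) = 0 := by
      refine Finset.sum_eq_zero fun z hz => ?_
      obtain ⟨h2, h3⟩ := hpar z hz
      have h4 : ¬ ((nm z).toNat % 2 = c ∧ (nm z).toNat ≠ 0) := fun h5 => hc (by omega)
      unfold Fl
      rw [if_neg h4, Int.cast_zero]
    rw [h1, abs_zero]
    exact norm_nonneg _

end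

end Pool.Agent.Lib.MP_0b748d_nt.HD
end
end

section

section

set_option autoImplicit false

/-!
# Forms with ratio in a short interval
-/

namespace Pool.Agent.Lib.MP_0b748d_nt.HH

noncomputable section

private theorem narC_real {a b c d x y s D E ε : ℝ} (ha : 0 ≤ a) (hb : 0 < b) (hc : 0 ≤ c)
    (hd : 0 < d) (hx : 0 < x) (hy : 0 < y) (hdet : b * c ≤ a * d) (hs1 : 1 ≤ s) (hsε : s ≤ 1 + ε)
    (hE0 : 0 < E) (hD1 : a * x + c * y ≤ D) (hD2 : D ≤ s * (a * x + c * y))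
    (hE1 : b * x + d * y ≤ E) (hE2 : E ≤ s * (b * x + d * y)) :
    (1 - ε) * (c / d) ≤ D / E ∧ D / E ≤ (1 + ε) * (a / b) := by
  have hV : 0 < b * x + d * y := by positivity
  have hε : 0 ≤ ε := by linarith
  constructor
  · rw [le_div_iff₀ hE0]
    have h1 : (1 - ε) * (c / d) * E ≤ a * x + c * y := by
      have h2 : c / d * (b * x + d * y) ≤ a * x + c * y := by
        rw [div_mul_eq_mul_div, div_le_iff₀ hd]
        nlinarith [mul_le_mul_of_nonneg_right hdet hx.le]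
      by_cases h3 : 1 - ε ≤ 0
      · have h4 : (1 - ε) * (c / d) * E ≤ 0 := by
          have : 0 ≤ (c / d) * E := by positivity
          nlinarith
        have h5 : 0 ≤ a * x + c * y := by positivity
        linarith
      · push Not at h3
        have h4 : (1 - ε) * E ≤ b * x + d * y := by
          calc (1 - ε) * E ≤ (1 - ε) * (s * (b * x + d * y)) := mul_le_mul_of_nonneg_left hE2 h3.le
            _ = ((1 - ε) * s) * (b * x + d * y) := by ring
            _ ≤ 1 * (b * x + d * y) := by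
                apply mul_le_mul_of_nonneg_right _ hV.le
                nlinarith
            _ = _ := one_mul _
        calc (1 - ε) * (c / d) * E = c / d * ((1 - ε) * E) := by ring
          _ ≤ c / d * (b * x + d * y) := mul_le_mul_of_nonneg_left h4 (by positivity)
          _ ≤ _ := h2
    exact h1.trans hD1
  · rw [div_le_iff₀ hE0]
    have h2 : a * x + c * y ≤ a / b * (b * x + d * y) := by
      rw [div_mul_eq_mul_div, le_div_iff₀ hb]
      nlinarith [mul_le_mul_of_nonneg_right hdet hy.le]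
    calc D ≤ s * (a * x + c * y) := hD2
      _ ≤ (1 + ε) * (a * x + c * y) := mul_le_mul_of_nonneg_right hsε (by positivity)
      _ ≤ (1 + ε) * (a / b * (b * x + d * y)) := mul_le_mul_of_nonneg_left h2 (by linarith)
      _ = (1 + ε) * (a / b) * (b * x + d * y) := by ring
      _ ≤ (1 + ε) * (a / b) * E := mul_le_mul_of_nonneg_left hE1 (by positivity)

/-- The ratio of `Q'.act M` lies in `[c / d, a / b]` up to a factor `1 ± ε` if `n` is large: by
`val_bounds` `√(Q.d) = (1 + O(1 / n'²))(a √d' + c √e')`, `√(Q.e) = (1 + O(1 / n'²))(b √d' + d √e')`; the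
forms with `n' < n0` are finitely many (`n' ` small and `M ∈ Bx b`). -/
theorem suffix_ratio (b : ℕ) (ε : ℝ) (hε : 0 < ε) : ∃ S : Finset Fm, ∀ M ∈ Bx b, M.Dt 1 →
    1 ≤ M.b → 1 ≤ M.d → ∀ Q' : Fm, Q'.Ok → Q'.act M ∈ S ∨
    ((1 - ε) * ((M.c : ℝ) / M.d) ≤ √((Q'.act M).d : ℝ) / √((Q'.act M).e : ℝ) ∧
      √((Q'.act M).d : ℝ) / √((Q'.act M).e : ℝ) ≤ (1 + ε) * ((M.a : ℝ) / M.b)) := by
  classical
  set N : ℕ := ⌈2 / ε⌉₊ with hN
  set F : Finset Fm := ((Finset.range (N ^ 2 + 1) ×ˢ (Finset.range (N + 1) ×ˢ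
    Finset.range (N ^ 2 + 1))).image (fun p => (⟨p.1, p.2.1, p.2.2⟩ : Fm))) with hF
  refine ⟨(Bx b ×ˢ F).image (fun p => p.2.act p.1), ?_⟩
  intro M hM hDt hb hd Q' hQ'
  by_cases hn : Q'.n ≤ N
  · left
    rw [Finset.mem_image]
    refine ⟨(M, Q'), ?_, rfl⟩
    rw [Finset.mem_product]
    refine ⟨hM, ?_⟩
    rw [hF, Finset.mem_image]
    refine ⟨(Q'.d, Q'.n, Q'.e), ?_, rfl⟩
    obtain ⟨h1, h2, h3⟩ := hQ'
    have h4 : Q'.n ^ 2 ≤ N ^ 2 := Nat.pow_le_pow_left hn 2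
    have h5 : Q'.d ≤ Q'.d * Q'.e := Nat.le_mul_of_pos_right _ h2
    have h6 : Q'.e ≤ Q'.d * Q'.e := Nat.le_mul_of_pos_left _ h1
    simp only [Finset.mem_product, Finset.mem_range]
    omega
  · right
    push Not at hn
    have hnN : 2 / ε ≤ (Q'.n : ℝ) := by
      have h1 : 2 / ε ≤ (N : ℝ) := Nat.le_ceil _
      have h2 : (N : ℝ) ≤ Q'.n := by exact_mod_cast hn.le
      linarith
    have hn1 : (1 : ℝ) ≤ (Q'.n : ℝ) := by
      have : 1 ≤ Q'.n := by omega
      exact_mod_cast this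
    have h2n : 2 / (Q'.n : ℝ) ^ 2 ≤ ε := by
      rw [div_le_iff₀ (by positivity)]
      rw [div_le_iff₀ hε] at hnN
      nlinarith
    have hx : 0 < √(Q'.d : ℝ) := Real.sqrt_pos.2 (by exact_mod_cast hQ'.1)
    have hy : 0 < √(Q'.e : ℝ) := Real.sqrt_pos.2 (by exact_mod_cast hQ'.2.1)
    have hb' : (0 : ℝ) < M.b := by exact_mod_cast hb
    have hd' : (0 : ℝ) < M.d := by exact_mod_cast hd
    have hDt' : (M.a : ℝ) * M.d = M.b * M.c + 1 := by
      unfold Mt.Dt at hDt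
      exact_mod_cast hDt
    have hD := val_bounds hQ' M.a M.c
    have hE := val_bounds hQ' M.b M.d
    have e1 : ((Q'.act M).d : ℝ) = (Q'.val M.a M.c : ℝ) := rfl
    have e2 : ((Q'.act M).e : ℝ) = (Q'.val M.b M.d : ℝ) := rfl
    rw [e1, e2]
    have hs0 : (0 : ℝ) ≤ 2 / (Q'.n : ℝ) ^ 2 := by positivity
    have hsq : √(1 + 2 / (Q'.n : ℝ) ^ 2) ≤ 1 + ε := by
      rw [Real.sqrt_le_left (by linarith)]
      nlinarith
    have hs1 : 1 ≤ √(1 + 2 / (Q'.n : ℝ) ^ 2) := by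
      rw [Real.one_le_sqrt]
      linarith
    have hVpos : 0 < (M.b : ℝ) * √(Q'.d : ℝ) + M.d * √(Q'.e : ℝ) := by positivity
    have hE1 : (M.b : ℝ) * √(Q'.d : ℝ) + M.d * √(Q'.e : ℝ) ≤ √(Q'.val M.b M.d : ℝ) := by
      apply Real.le_sqrt_of_sq_le
      have := hE.1
      have h7 : (M.b : ℝ) * √(Q'.d : ℝ) + M.d * √(Q'.e : ℝ)
        = √(Q'.d : ℝ) * M.b + √(Q'.e : ℝ) * M.d := by ring
      rw [h7]; exact this
    have hD1 : (M.a : ℝ) * √(Q'.d : ℝ) + M.c * √(Q'.e : ℝ) ≤ √(Q'.val M.a M.c : ℝ) := by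
      apply Real.le_sqrt_of_sq_le
      have := hD.1
      have h7 : (M.a : ℝ) * √(Q'.d : ℝ) + M.c * √(Q'.e : ℝ)
        = √(Q'.d : ℝ) * M.a + √(Q'.e : ℝ) * M.c := by ring
      rw [h7]; exact this
    have hE2 : √(Q'.val M.b M.d : ℝ) ≤ √(1 + 2 / (Q'.n : ℝ) ^ 2) *
        ((M.b : ℝ) * √(Q'.d : ℝ) + M.d * √(Q'.e : ℝ)) := by
      have h7 : (M.b : ℝ) * √(Q'.d : ℝ) + M.d * √(Q'.e : ℝ)
        = √((√(Q'.d : ℝ) * M.b + √(Q'.e : ℝ) * M.d) ^ 2) := by
        rw [Real.sqrt_sq (by positivity)]; ring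
      rw [h7, ← Real.sqrt_mul (by linarith)]
      exact Real.sqrt_le_sqrt hE.2
    have hD2 : √(Q'.val M.a M.c : ℝ) ≤ √(1 + 2 / (Q'.n : ℝ) ^ 2) *
        ((M.a : ℝ) * √(Q'.d : ℝ) + M.c * √(Q'.e : ℝ)) := by
      have h7 : (M.a : ℝ) * √(Q'.d : ℝ) + M.c * √(Q'.e : ℝ)
        = √((√(Q'.d : ℝ) * M.a + √(Q'.e : ℝ) * M.c) ^ 2) := by
        rw [Real.sqrt_sq (by positivity)]; ring
      rw [h7, ← Real.sqrt_mul (by linarith)]
      exact Real.sqrt_le_sqrt hD.2
    exact narC_real (Nat.cast_nonneg _) hb' (Nat.cast_nonneg _) hd' hx hy (by linarith) hs1 hsq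
      (lt_of_lt_of_le hVpos hE1) hD1 hD2 hE1 hE2

end

end Pool.Agent.Lib.MP_0b748d_nt.HH
end

section

set_option autoImplicit false

/-!
# Forms with ratio in a short interval
-/

namespace Pool.Agent.Lib.MP_0b748d_nt.HH

noncomputable section

/-- suffix matrices of level `K` -/
def Sf (K : ℕ) (M : Mt) : Prop := M.Dt 1 ∧ 1 ≤ M.b ∧ 1 ≤ M.d ∧ M.b ≤ K ∧ M.d ≤ K ∧ K < M.b + M.d

private def SufOut (K b : ℕ) (Q : Fm) : Prop :=
  (∃ M ∈ Bx b, Q = (⟨1, 2, 2⟩ : Fm).act M ∨ Q = (⟨2, 2, 1⟩ : Fm).act M) ∨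
    ∃ M ∈ Bx b, Sf K M ∧ ∃ Q' : Fm, Q'.Ok ∧ Q = Q'.act M

private theorem suf_mono {K b b' : ℕ} (h : b ≤ b') {Q : Fm} (hQ : SufOut K b Q) : SufOut K b' Q := by
  have hB : ∀ M ∈ Bx b, M ∈ Bx b' := by
    intro M hM
    rw [mem_Bx] at hM ⊢
    omega
  rcases hQ with ⟨M, hM, h1⟩ | ⟨M, hM, h1⟩
  · exact Or.inl ⟨M, hB M hM, h1⟩
  · exact Or.inr ⟨M, hB M hM, h1⟩

private theorem suf_two (K : ℕ) : ∀ (s B : ℕ) (P : Fm) (M : Mt), P.Ok → M.Dt 1 → 1 ≤ M.b → 1 ≤ M.d →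
    M.b ≤ K → M.d ≤ K → K + 1 ≤ M.b + M.d + s → M ∈ Bx B → SufOut K (2 ^ s * B) (P.act M) := by
  intro s
  induction s with
  | zero =>
    intro B P M hP hM hb hd hbK hdK hs hB
    refine Or.inr ⟨M, ?_, ⟨hM, hb, hd, hbK, hdK, by omega⟩, P, hP, rfl⟩
    simpa using hB
  | succ s ih =>
    intro B P M hP hM hb hd hbK hdK hs hB
    have hpow : B ≤ 2 ^ (s + 1) * B := by
      have : 1 ≤ 2 ^ (s + 1) := Nat.one_le_two_pow
      nlinarith
    have hBx := mem_Bx.1 hB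
    by_cases hK : K < M.b + M.d
    · refine Or.inr ⟨M, ?_, ⟨hM, hb, hd, hbK, hdK, hK⟩, P, hP, rfl⟩
      rw [mem_Bx]
      omega
    · have hpe : 2 ^ (s + 1) * B = 2 ^ s * (2 * B) := by rw [pow_succ]; ring
      rcases parent hP with h1 | h1 | ⟨P', hP', h1⟩ | ⟨P', hP', h1⟩
      · refine Or.inl ⟨M, ?_, Or.inl (by rw [h1])⟩
        rw [mem_Bx]
        omega
      · refine Or.inl ⟨M, ?_, Or.inr (by rw [h1])⟩
        rw [mem_Bx]
        omega
      · rw [h1, ← act_l, act_mul, hpe]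
        refine ih (2 * B) P' (Mt.l.mul M) hP' ?_ ?_ ?_ ?_ ?_ ?_ ?_
        · exact Dt_mul (m := 1) (k := 1) (by simp [Mt.Dt, Mt.l]) hM
        · simp only [Mt.mul, Mt.l]; omega
        · simp only [Mt.mul, Mt.l]; omega
        · simp only [Mt.mul, Mt.l]; omega
        · simp only [Mt.mul, Mt.l]; omega
        · simp only [Mt.mul, Mt.l]; omega
        · rw [mem_Bx]
          simp only [Mt.mul, Mt.l]; omega
      · rw [h1, ← act_r, act_mul, hpe]
        refine ih (2 * B) P' (Mt.r.mul M) hP' ?_ ?_ ?_ ?_ ?_ ?_ ?_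
        · exact Dt_mul (m := 1) (k := 1) (by simp [Mt.Dt, Mt.r]) hM
        · simp only [Mt.mul, Mt.r]; omega
        · simp only [Mt.mul, Mt.r]; omega
        · simp only [Mt.mul, Mt.r]; omega
        · simp only [Mt.mul, Mt.r]; omega
        · simp only [Mt.mul, Mt.r]; omega
        · rw [mem_Bx]
          simp only [Mt.mul, Mt.r]; omega

private theorem suf_one (K r : ℕ) (hK : 1 ≤ K) : ∀ (j k : ℕ) (P : Fm), P.Ok → k ≤ r → r ≤ k + j →
    √(((P.act ⟨1, 0, k, 1⟩).d : ℕ) : ℝ) ≤ r * √(((P.act ⟨1, 0, k, 1⟩).e : ℕ) : ℝ) →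
    SufOut K (2 ^ K * (r + 1)) (P.act ⟨1, 0, k, 1⟩) := by
  have hlt : ∀ (k : ℕ) (P : Fm), P.Ok →
      √(((P.act ⟨1, 0, k, 1⟩).d : ℕ) : ℝ) ≤ r * √(((P.act ⟨1, 0, k, 1⟩).e : ℕ) : ℝ) → k < r := by
    intro k P hP h
    have h1 := (val_bounds hP 1 k).1
    have hd : 0 < √(P.d : ℝ) := Real.sqrt_pos.2 (by exact_mod_cast hP.1)
    have he : 0 < √(P.e : ℝ) := Real.sqrt_pos.2 (by exact_mod_cast hP.2.1)
    have h2 : (P.act ⟨1, 0, k, 1⟩).d = P.val 1 k := rfl
    have h3 : (P.act ⟨1, 0, k, 1⟩).e = P.e := by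
      simp [Fm.act, Fm.val]
    rw [h2, h3] at h
    have h4 : √(P.d : ℝ) * (1 : ℕ) + √(P.e : ℝ) * k ≤ √((P.val 1 k : ℕ) : ℝ) :=
      Real.le_sqrt_of_sq_le h1
    push_cast at h4
    have h5 : (k : ℝ) * √(P.e : ℝ) < r * √(P.e : ℝ) := by
      calc (k : ℝ) * √(P.e : ℝ) < √(P.d : ℝ) * 1 + √(P.e : ℝ) * k := by nlinarith
        _ ≤ _ := h4.trans h
    have h6 := lt_of_mul_lt_mul_right h5 he.le
    exact_mod_cast h6
  intro j
  induction j with
  | zero =>
    intro k P hP hk hr h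
    have := hlt k P hP h
    omega
  | succ j ih =>
    intro k P hP hk hr h
    have hkr := hlt k P hP h
    have hpow : r + 1 ≤ 2 ^ K * (r + 1) := by
      have : 1 ≤ 2 ^ K := Nat.one_le_two_pow
      nlinarith
    rcases parent hP with h1 | h1 | ⟨P', hP', h1⟩ | ⟨P', hP', h1⟩
    · refine Or.inl ⟨⟨1, 0, k, 1⟩, ?_, Or.inl (by rw [h1])⟩
      rw [mem_Bx]
      simp only
      omega
    · refine Or.inl ⟨⟨1, 0, k, 1⟩, ?_, Or.inr (by rw [h1])⟩
      rw [mem_Bx]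
      simp only
      omega
    · have h2 : P.act ⟨1, 0, k, 1⟩ = P'.act ⟨1 + k, 1, k, 1⟩ := by
        rw [h1, ← act_l, act_mul]
        congr 1
        simp [Mt.mul, Mt.l]
      rw [h2]
      refine suf_two K K (r + 1) P' ⟨1 + k, 1, k, 1⟩ hP' ?_ (le_refl _) (le_refl _) hK hK ?_ ?_
      · unfold Mt.Dt
        simp only
        omega
      · simp only
        omega
      · rw [mem_Bx]
        simp only
        omega
    · have h2 : P.act ⟨1, 0, k, 1⟩ = P'.act ⟨1, 0, k + 1, 1⟩ := by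
        rw [h1, ← act_r, act_mul]
        congr 1
        simp [Mt.mul, Mt.r, add_comm]
      rw [h2] at h ⊢
      exact ih (k + 1) P' hP' (by omega) (by omega) h

/-- Suffixes. Let `Q` be a form with `√d ≤ r √e`. Starting with `Q = Q.act one` and using `parent`
write `Q = P.act M` and replace `(P, M)` by `(P', l M)` or `(P', r M)` as long as `P` is not a root and
not (`1 ≤ M.b` and `K < M.b + M.d`). The pair `(M.b, M.d)` starts with `(0, 1)` and becomes
`(M.b + M.d, M.d)` for `l` and `(M.b, M.b + M.d)` for `r`; so `M.b, M.d ≤ K` always (`1 ≤ K`), and once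
`M.b ≥ 1` also `M.d ≥ 1`, at most `2 K` more steps. While `M.b = 0`, `M = (1, 0; k, 1)` and
`√d ≥ √(P.d) + k √(P.e)`, `e = P.e`, so `k ≤ r`. Hence the process stops after at most `r + 2 K + 1`
steps: either with `Sf K M` (and `M.a, M.c ≤ 2 ^ (r + 2 K + 2)`), or at a root, and then `Q` is one of
finitely many forms. -/
theorem suffix_exists (K r : ℕ) (hK : 1 ≤ K) : ∃ (S : Finset Fm) (b : ℕ), ∀ Q : Fm, Q.Ok →
    √(Q.d : ℝ) ≤ r * √(Q.e : ℝ) → Q ∈ S ∨
    ∃ M ∈ Bx b, Sf K M ∧ ∃ Q' : Fm, Q'.Ok ∧ Q = Q'.act M := by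
  classical
  refine ⟨(Bx (2 ^ K * (r + 1))).image (fun M => (⟨1, 2, 2⟩ : Fm).act M) ∪
    (Bx (2 ^ K * (r + 1))).image (fun M => (⟨2, 2, 1⟩ : Fm).act M), 2 ^ K * (r + 1), ?_⟩
  intro Q hQ h
  have h0 : Q.act ⟨1, 0, 0, 1⟩ = Q := act_one Q
  have h1 := suf_one K r hK r 0 Q hQ (Nat.zero_le _) (by omega) (by rw [h0]; exact h)
  rw [h0] at h1
  rcases h1 with ⟨M, hM, h2 | h2⟩ | h2
  · left
    exact Finset.mem_union_left _ (Finset.mem_image.2 ⟨M, hM, h2.symm⟩)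
  · left
    exact Finset.mem_union_right _ (Finset.mem_image.2 ⟨M, hM, h2.symm⟩)
  · right
    exact h2

end

end Pool.Agent.Lib.MP_0b748d_nt.HH
end

section

set_option autoImplicit false

/-!
# Forms with ratio in a short interval
-/

namespace Pool.Agent.Lib.MP_0b748d_nt.HH

noncomputable section

private theorem narD_den {K : ℕ} {M : Mt} (hM : Sf K M) {p q : ℕ} (hq : 1 ≤ q) (hqK : q ≤ K)
    (h1 : (M.c : ℝ) / M.d < (p : ℝ) / q) (h2 : (p : ℝ) / q < (M.a : ℝ) / M.b) : False := by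
  obtain ⟨hDt, hb, hd, -, -, hK⟩ := hM
  have hb' : (0 : ℝ) < M.b := by exact_mod_cast hb
  have hd' : (0 : ℝ) < M.d := by exact_mod_cast hd
  have hq' : (0 : ℝ) < q := by exact_mod_cast hq
  rw [div_lt_div_iff₀ hd' hq'] at h1
  rw [div_lt_div_iff₀ hq' hb'] at h2
  have h3 : M.c * q + 1 ≤ p * M.d := by exact_mod_cast h1
  have h4 : p * M.b + 1 ≤ M.a * q := by exact_mod_cast h2
  unfold Mt.Dt at hDt
  have h5 : M.b + M.d ≤ q := by
    zify at h3 h4 hDt hb hd ⊢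
    nlinarith [mul_le_mul_of_nonneg_left h3 (show (0 : ℤ) ≤ M.b by omega),
      mul_le_mul_of_nonneg_left h4 (show (0 : ℤ) ≤ M.d by omega), hDt,
      congrArg (fun z => z * (q : ℤ)) hDt]
  omega

private theorem narD_eq {M M' : Mt} (h : M.Dt 1) (h' : M'.Dt 1)
    (e1 : M.c * M'.d = M'.c * M.d) (e2 : M.a * M'.b = M'.a * M.b)
    (hb : 1 ≤ M.b) (hd : 1 ≤ M.d) : M = M' := by
  unfold Mt.Dt at h h'
  have hd1 : M.d = M'.d := by
    apply Nat.dvd_antisymm
    · zify at h e1 ⊢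
      exact ⟨M.a * M'.d - M.b * M'.c, by linear_combination (-(M'.d : ℤ)) * h + (-(M.b : ℤ)) * e1⟩
    · zify at h' e1 ⊢
      exact ⟨M'.a * M.d - M'.b * M.c, by linear_combination (-(M.d : ℤ)) * h' + (M'.b : ℤ) * e1⟩
  have hb1 : M.b = M'.b := by
    apply Nat.dvd_antisymm
    · zify at h e2 ⊢
      exact ⟨M'.a * M.d - M'.b * M.c, by linear_combination (-(M'.b : ℤ)) * h + (M.d : ℤ) * e2⟩
    · zify at h' e2 ⊢
      exact ⟨M.a * M'.d - M.b * M'.c, by linear_combination (-(M.b : ℤ)) * h' - (M'.d : ℤ) * e2⟩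
  rw [← hd1] at e1
  rw [← hb1] at e2
  have hc1 : M.c = M'.c := Nat.eq_of_mul_eq_mul_right hd e1
  have ha1 : M.a = M'.a := Nat.eq_of_mul_eq_mul_right hb e2
  exact Mt.ext ha1 hb1 hc1 hd1

/-- The intervals `(c / d, a / b)` of the matrices of level `K` have length `1 / (b d)` and are
pairwise disjoint: a fraction strictly between `c / d` and `a / b` has denominator at least
`b + d > K`, while the end points of the other intervals have denominators at most `K`. Each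
length is at most `2 / K`. So the total length of those meeting `[s, t]` is at most
`t - s + 4 / K`. -/
theorem suffix_length (K b : ℕ) (hK : 1 ≤ K) (s t : ℝ) (hst : s ≤ t) (G : Finset Mt)
    (hG : ∀ M ∈ G, Sf K M ∧ (M.c : ℝ) / M.d ≤ t ∧ s ≤ (M.a : ℝ) / M.b) :
    ∑ M ∈ G, 1 / ((M.b : ℝ) * M.d) ≤ t - s + 4 / K := by
  have hK' : (0 : ℝ) < K := by exact_mod_cast hK
  have hlen : ∀ M ∈ G, (M.a : ℝ) / M.b - (M.c : ℝ) / M.d = 1 / ((M.b : ℝ) * M.d) := by
    intro M hM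
    obtain ⟨⟨hDt, hb, hd, -, -, -⟩, -⟩ := hG M hM
    have hb' : (0 : ℝ) < M.b := by exact_mod_cast hb
    have hd' : (0 : ℝ) < M.d := by exact_mod_cast hd
    have hDt' : (M.a : ℝ) * M.d = M.b * M.c + 1 := by
      unfold Mt.Dt at hDt
      exact_mod_cast hDt
    rw [div_sub_div _ _ hb'.ne' hd'.ne']
    congr 1
    linarith
  have hsmall : ∀ M ∈ G, 1 / ((M.b : ℝ) * M.d) ≤ 2 / K := by
    intro M hM
    obtain ⟨⟨hDt, hb, hd, -, -, hKK⟩, -⟩ := hG M hM
    have hb' : (1 : ℝ) ≤ M.b := by exact_mod_cast hb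
    have hd' : (1 : ℝ) ≤ M.d := by exact_mod_cast hd
    have hKK' : (K : ℝ) ≤ M.b + M.d := by exact_mod_cast hKK.le
    rw [div_le_div_iff₀ (by positivity) hK']
    nlinarith
  have hdisj : (G : Set Mt).PairwiseDisjoint (fun M => Set.Ioo ((M.c : ℝ) / M.d) ((M.a : ℝ) / M.b)) := by
    intro M hM M' hM' hne
    rw [Function.onFun, Set.disjoint_left]
    rintro z ⟨hz1, hz2⟩ ⟨hz1', hz2'⟩
    apply hne
    have hS := (hG M hM).1
    have hS' := (hG M' hM').1
    obtain ⟨hDt, hb, hd, hbK, hdK, -⟩ := (hG M hM).1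
    obtain ⟨hDt', hb', hd', hbK', hdK', -⟩ := (hG M' hM').1
    have f1 : (M.c : ℝ) / M.d = (M'.c : ℝ) / M'.d := by
      apply le_antisymm
      · by_contra hcon
        push Not at hcon
        exact narD_den hS' hd hdK hcon (hz1.trans hz2')
      · by_contra hcon
        push Not at hcon
        exact narD_den hS hd' hdK' hcon (hz1'.trans hz2)
    have f2 : (M.a : ℝ) / M.b = (M'.a : ℝ) / M'.b := by
      apply le_antisymm
      · by_contra hcon
        push Not at hcon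
        exact narD_den hS hb' hbK' (hz1.trans hz2') hcon
      · by_contra hcon
        push Not at hcon
        exact narD_den hS' hb hbK (hz1'.trans hz2) hcon
    have p1 : (M.d : ℝ) ≠ 0 := by positivity
    have p2 : (M'.d : ℝ) ≠ 0 := by positivity
    have p3 : (M.b : ℝ) ≠ 0 := by positivity
    have p4 : (M'.b : ℝ) ≠ 0 := by positivity
    rw [div_eq_div_iff p1 p2] at f1
    rw [div_eq_div_iff p3 p4] at f2
    exact narD_eq hDt hDt' (by exact_mod_cast f1) (by exact_mod_cast f2) hb hd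
  have hsub : (⋃ M ∈ G, Set.Ioo ((M.c : ℝ) / M.d) ((M.a : ℝ) / M.b))
      ⊆ Set.Icc (s - 2 / K) (t + 2 / K) := by
    intro z hz
    rw [Set.mem_iUnion₂] at hz
    obtain ⟨M, hM, hz1, hz2⟩ := hz
    have h1 := hlen M hM
    have h2 := hsmall M hM
    obtain ⟨-, h3, h4⟩ := hG M hM
    constructor
    · linarith
    · linarith
  have hmeas := MeasureTheory.measure_mono (μ := MeasureTheory.volume) hsub
  rw [MeasureTheory.measure_biUnion_finset hdisj (fun M _ => measurableSet_Ioo), Real.volume_Icc] at hmeas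
  have h1 : ∑ M ∈ G, MeasureTheory.volume (Set.Ioo ((M.c : ℝ) / M.d) ((M.a : ℝ) / M.b))
      = ENNReal.ofReal (∑ M ∈ G, 1 / ((M.b : ℝ) * M.d)) := by
    rw [ENNReal.ofReal_sum_of_nonneg (fun M _ => by positivity)]
    refine Finset.sum_congr rfl fun M hM => ?_
    rw [Real.volume_Ioo, hlen M hM]
  rw [h1] at hmeas
  have h2 : 0 ≤ t + 2 / (K : ℝ) - (s - 2 / K) := by
    have : 0 ≤ 2 / (K : ℝ) := by positivity
    linarith
  rw [ENNReal.ofReal_le_ofReal_iff h2] at hmeas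
  have h3 : t + 2 / (K : ℝ) - (s - 2 / K) = t - s + 4 / K := by ring
  linarith

end

end Pool.Agent.Lib.MP_0b748d_nt.HH
end

section

set_option autoImplicit false

/-!
# Forms with ratio in a short interval
-/

namespace Pool.Agent.Lib.MP_0b748d_nt.HH

noncomputable section

/-- `Qs_ab` with `a = 1 / M.b`, `b = 1 / M.d`: if `Q = Q'.act M` and `Q.e ≤ Y` then
`(M.b √(Q'.d) + M.d √(Q'.e))² ≤ Y` (`val_bounds`). -/
theorem suffix_card : ∃ C : ℝ, 1 ≤ C ∧ ∀ (M : Mt) (Y : ℝ), M.Dt 1 → 1 ≤ M.b → 1 ≤ M.d → 0 ≤ Y →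
    ∀ S : Finset Fm, (∀ Q ∈ S, (Q.e : ℝ) ≤ Y ∧ ∃ Q' : Fm, Q'.Ok ∧ Q = Q'.act M) →
    (S.card : ℝ) ≤ C * (Y / (M.b * M.d)) := by
  classical
  obtain ⟨C, hC, h⟩ := Qs_ab
  refine ⟨C, hC, ?_⟩
  intro M Y hM hb hd hY S hS
  have hb' : (0 : ℝ) < M.b := by exact_mod_cast hb
  have hd' : (0 : ℝ) < M.d := by exact_mod_cast hd
  have h1 := h (1 / (M.b : ℝ)) (1 / (M.d : ℝ)) Y (by positivity) (by positivity) hY
  have h2 : C * (1 / (M.b : ℝ) * (1 / (M.d : ℝ)) * Y) = C * (Y / (M.b * M.d)) := by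
    field_simp
  rw [h2] at h1
  refine le_trans ?_ h1
  have h3 : S ⊆ ((Qs (max (1 / (M.b : ℝ)) (1 / (M.d : ℝ)) ^ 2 * Y)).filter
      (fun Q => (Q.d : ℝ) ≤ (1 / (M.b : ℝ)) ^ 2 * Y ∧ (Q.e : ℝ) ≤ (1 / (M.d : ℝ)) ^ 2 * Y)).image
      (fun Q => Q.act M) := by
    intro Q hQ
    obtain ⟨hQY, Q', hQ', rfl⟩ := hS Q hQ
    rw [Finset.mem_image]
    refine ⟨Q', ?_, rfl⟩
    have h4 : (√(Q'.d : ℝ) * M.b + √(Q'.e : ℝ) * M.d) ^ 2 ≤ Y :=
      ((val_bounds hQ' M.b M.d).1).trans hQY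
    have h5 : 0 ≤ √(Q'.d : ℝ) * M.b := by positivity
    have h6 : 0 ≤ √(Q'.e : ℝ) * M.d := by positivity
    have h7 : (Q'.d : ℝ) * (M.b : ℝ) ^ 2 ≤ Y := by
      have : (√(Q'.d : ℝ) * M.b) ^ 2 ≤ Y := by nlinarith
      rwa [mul_pow, Real.sq_sqrt (Nat.cast_nonneg _)] at this
    have h8 : (Q'.e : ℝ) * (M.d : ℝ) ^ 2 ≤ Y := by
      have : (√(Q'.e : ℝ) * M.d) ^ 2 ≤ Y := by nlinarith
      rwa [mul_pow, Real.sq_sqrt (Nat.cast_nonneg _)] at this
    have h9 : (Q'.d : ℝ) ≤ (1 / (M.b : ℝ)) ^ 2 * Y := by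
      rw [div_pow, one_pow, one_div_mul_eq_div, le_div_iff₀ (by positivity)]
      exact h7
    have h10 : (Q'.e : ℝ) ≤ (1 / (M.d : ℝ)) ^ 2 * Y := by
      rw [div_pow, one_pow, one_div_mul_eq_div, le_div_iff₀ (by positivity)]
      exact h8
    rw [Finset.mem_filter, mem_Qs (by positivity)]
    refine ⟨⟨hQ', h9.trans ?_, h10.trans ?_⟩, h9, h10⟩
    · exact mul_le_mul_of_nonneg_right
        (pow_le_pow_left₀ (by positivity) (le_max_left _ _) 2) hY
    · exact mul_le_mul_of_nonneg_right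
        (pow_le_pow_left₀ (by positivity) (le_max_right _ _) 2) hY
  exact_mod_cast (Finset.card_le_card h3).trans Finset.card_image_le

end

end Pool.Agent.Lib.MP_0b748d_nt.HH
end

section

set_option autoImplicit false

/-!
# Forms with ratio in a short interval
-/

namespace Pool.Agent.Lib.MP_0b748d_nt.HH

noncomputable section

private theorem narE_len {R η ρ ε : ℝ} (hR : 1 ≤ R) (hη : 0 < η) (hη1 : η ≤ 1) (hρ0 : 0 < ρ)
    (hρR : ρ ≤ R) (hε : ε = η / (8 * R)) :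
    ρ / (1 + ε) ≤ ρ * (1 + η) / (1 - ε) ∧
    ρ * (1 + η) / (1 - ε) - ρ / (1 + ε) ≤ 2 * R * η := by
  have hR0 : 0 < R := by linarith
  have hε0 : 0 < ε := by rw [hε]; positivity
  have hεη : ε * (8 * R) = η := by rw [hε]; field_simp
  have hε8 : 8 * ε ≤ η := by nlinarith
  have h1 : 0 < 1 - ε := by linarith
  have h2 : 0 < 1 + ε := by linarith
  have hA : ρ * (1 + η) / (1 - ε) ≤ ρ * ((1 + η) * (1 + 2 * ε)) := by
    rw [mul_div_assoc]
    apply mul_le_mul_of_nonneg_left _ hρ0.le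
    rw [div_le_iff₀ h1]
    have : 1 ≤ (1 + 2 * ε) * (1 - ε) := by nlinarith
    nlinarith
  have hB : ρ * (1 - ε) ≤ ρ / (1 + ε) := by
    rw [le_div_iff₀ h2]
    nlinarith [mul_pos hρ0 (mul_pos hε0 hε0)]
  have hC : ρ / (1 + ε) ≤ ρ := by
    rw [div_le_iff₀ h2]
    nlinarith
  have hD : ρ ≤ ρ * (1 + η) / (1 - ε) := by
    rw [le_div_iff₀ h1]
    nlinarith [mul_pos hρ0 hη, mul_pos hρ0 hε0]
  refine ⟨hC.trans hD, ?_⟩
  have hE : ρ * ((1 + η) * (1 + 2 * ε)) - ρ * (1 - ε) = ρ * (η + 3 * ε + 2 * ε * η) := by ring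
  have hF : ρ * (η + 3 * ε + 2 * ε * η) ≤ R * (2 * η) := by
    apply mul_le_mul hρR _ (by positivity) hR0.le
    nlinarith
  linarith

open Classical in
/-- **Narrow sectors.** Take `K = ⌈4 / η⌉`, `r = ⌈2 R⌉`, `ε = η / (8 R)` and the suffixes
(`suffix_exists`, all but finitely many forms; `suffix_ratio`): the intervals meet
`[ρ (1 - 2 ε), ρ (1 + η)(1 + 2 ε)]`, of length `≤ 4 R η`; `suffix_length` and `suffix_card` give
`C Y (4 R η + 4 / K) + O(1)`. -/
theorem narrow (R : ℝ) (hR : 1 ≤ R) : ∃ C : ℝ, 1 ≤ C ∧ ∀ η ρ : ℝ, 0 < η → η ≤ 1 → 1 / R ≤ ρ → ρ ≤ R →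
    ∃ Y0 : ℝ, 1 ≤ Y0 ∧ ∀ Y : ℝ, Y0 ≤ Y →
    (((Qs Y).filter (fun Q => ρ ≤ √(Q.d : ℝ) / √(Q.e : ℝ) ∧
      √(Q.d : ℝ) / √(Q.e : ℝ) ≤ ρ * (1 + η))).card : ℝ) ≤ C * η * Y := by
  obtain ⟨C₁, hC₁, hcard⟩ := suffix_card
  refine ⟨3 * R * C₁ + 1, by nlinarith [mul_nonneg (by linarith : (0:ℝ) ≤ R) (by linarith : (0:ℝ) ≤ C₁)], ?_⟩
  intro η ρ hη hη1 hρ1 hρR
  have hR0 : 0 < R := by linarith
  have hρ0 : 0 < ρ := lt_of_lt_of_le (by positivity) hρ1
  set K : ℕ := ⌈4 / η⌉₊ with hKdef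
  have hK4 : 4 / η ≤ (K : ℝ) := Nat.le_ceil _
  have hK1' : (4 : ℝ) ≤ K := by
    refine le_trans ?_ hK4
    rw [le_div_iff₀ hη]
    linarith
  have hK1 : 1 ≤ K := by
    have : (1 : ℝ) ≤ K := by linarith
    exact_mod_cast this
  set r : ℕ := ⌈2 * R⌉₊ with hrdef
  have hr : 2 * R ≤ (r : ℝ) := Nat.le_ceil _
  set ε : ℝ := η / (8 * R) with hεdef
  have hε0 : 0 < ε := by positivity
  have hεη : ε * (8 * R) = η := by rw [hεdef]; field_simp
  have hε8 : 8 * ε ≤ η := by nlinarith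
  obtain ⟨hst, hlen⟩ := narE_len hR hη hη1 hρ0 hρR hεdef
  set t : ℝ := ρ * (1 + η) / (1 - ε) with htdef
  set s : ℝ := ρ / (1 + ε) with hsdef
  obtain ⟨S₁, b, hS₁⟩ := suffix_exists K r hK1
  obtain ⟨S₂, hS₂⟩ := suffix_ratio b ε hε0
  set G : Finset Mt := (Bx b).filter (fun M => Sf K M ∧ (M.c : ℝ) / M.d ≤ t ∧ s ≤ (M.a : ℝ) / M.b)
    with hG
  have hGl := suffix_length K b hK1 s t hst G (fun M hM => (Finset.mem_filter.1 hM).2)
  refine ⟨max 1 (((S₁.card : ℝ) + S₂.card) / η), le_max_left _ _, ?_⟩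
  intro Y hY
  have hY1 : 1 ≤ Y := (le_max_left _ _).trans hY
  have hYS : (S₁.card : ℝ) + S₂.card ≤ η * Y := by
    have := (le_max_right _ _).trans hY
    rw [div_le_iff₀ hη] at this
    linarith
  set F := (Qs Y).filter (fun Q => ρ ≤ √(Q.d : ℝ) / √(Q.e : ℝ) ∧
      √(Q.d : ℝ) / √(Q.e : ℝ) ≤ ρ * (1 + η)) with hF
  have hsub : F ⊆ (S₁ ∪ S₂) ∪ G.biUnion (fun M => F.filter (fun Q => ∃ Q' : Fm, Q'.Ok ∧ Q = Q'.act M)) := by
    intro Q hQ
    have hQF := hQ
    rw [hF, Finset.mem_filter, mem_Qs (by linarith)] at hQ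
    obtain ⟨⟨hok, hdY, heY⟩, hq1, hq2⟩ := hQ
    have he : 0 < √(Q.e : ℝ) := Real.sqrt_pos.2 (by exact_mod_cast hok.2.1)
    have hle : √(Q.d : ℝ) ≤ r * √(Q.e : ℝ) := by
      rw [← div_le_iff₀ he]
      calc _ ≤ ρ * (1 + η) := hq2
        _ ≤ R * 2 := mul_le_mul hρR (by linarith) (by linarith) hR0.le
        _ ≤ r := by linarith
    rcases hS₁ Q hok hle with h1 | ⟨M, hM, hSf, Q', hQ', hQQ⟩
    · exact Finset.mem_union_left _ (Finset.mem_union_left _ h1)
    · rcases hS₂ M hM hSf.1 hSf.2.1 hSf.2.2.1 Q' hQ' with h2 | ⟨h2, h3⟩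
      · rw [← hQQ] at h2
        exact Finset.mem_union_left _ (Finset.mem_union_right _ h2)
      · rw [← hQQ] at h2 h3
        apply Finset.mem_union_right
        rw [Finset.mem_biUnion]
        refine ⟨M, ?_, ?_⟩
        · rw [hG, Finset.mem_filter]
          refine ⟨hM, hSf, ?_, ?_⟩
          · rw [htdef, le_div_iff₀ (by linarith)]
            have := h2.trans hq2
            linarith
          · rw [hsdef, div_le_iff₀ (by linarith)]
            have := hq1.trans h3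
            linarith
        · rw [Finset.mem_filter]
          exact ⟨hQF, Q', hQ', hQQ⟩
  have hc1 : (F.card : ℝ) ≤ (S₁.card : ℝ) + S₂.card + ∑ M ∈ G, C₁ * (Y / (M.b * M.d)) := by
    have h1 : F.card ≤ S₁.card + S₂.card + ∑ M ∈ G, (F.filter (fun Q => ∃ Q' : Fm, Q'.Ok ∧ Q = Q'.act M)).card := by
      refine (Finset.card_le_card hsub).trans ((Finset.card_union_le _ _).trans ?_)
      exact add_le_add (Finset.card_union_le _ _) Finset.card_biUnion_le
    have h2 : ((∑ M ∈ G, (F.filter (fun Q => ∃ Q' : Fm, Q'.Ok ∧ Q = Q'.act M)).card : ℕ) : ℝ)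
        ≤ ∑ M ∈ G, C₁ * (Y / (M.b * M.d)) := by
      push_cast
      refine Finset.sum_le_sum fun M hM => ?_
      have hSf := (Finset.mem_filter.1 hM).2.1
      refine hcard M Y hSf.1 hSf.2.1 hSf.2.2.1 (by linarith) _ ?_
      intro Q hQ
      rw [Finset.mem_filter] at hQ
      refine ⟨?_, hQ.2⟩
      have := hQ.1
      rw [hF, Finset.mem_filter, mem_Qs (by linarith)] at this
      exact this.1.2.2
    have h3 : (F.card : ℝ) ≤ ((S₁.card + S₂.card + ∑ M ∈ G, (F.filter (fun Q => ∃ Q' : Fm, Q'.Ok ∧ Q = Q'.act M)).card : ℕ) : ℝ) := by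
      exact_mod_cast h1
    rw [Nat.cast_add, Nat.cast_add] at h3
    linarith
  have hc2 : ∑ M ∈ G, C₁ * (Y / ((M.b : ℝ) * M.d)) = C₁ * Y * ∑ M ∈ G, 1 / ((M.b : ℝ) * M.d) := by
    rw [Finset.mul_sum]
    exact Finset.sum_congr rfl fun M _ => by ring
  rw [hc2] at hc1
  have h4K : 4 / (K : ℝ) ≤ η := by
    rw [div_le_iff₀ (by linarith)]
    rw [div_le_iff₀ hη] at hK4
    linarith
  have hc3 : ∑ M ∈ G, 1 / ((M.b : ℝ) * M.d) ≤ 3 * R * η := by
    have : η ≤ R * η := by nlinarith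
    linarith
  have hc4 : C₁ * Y * ∑ M ∈ G, 1 / ((M.b : ℝ) * M.d) ≤ C₁ * Y * (3 * R * η) :=
    mul_le_mul_of_nonneg_left hc3 (by positivity)
  calc (F.card : ℝ) ≤ _ := hc1
    _ ≤ η * Y + C₁ * Y * (3 * R * η) := by linarith
    _ = (3 * R * C₁ + 1) * η * Y := by ring

end

end Pool.Agent.Lib.MP_0b748d_nt.HH
end

section

set_option autoImplicit false

/-!
# From the limit averages to the theorem
-/

namespace Pool.Agent.Lib.MP_0b748d_nt.HH

open Filter Topology MR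

noncomputable section

/-- plateau function: `1` for `|v| ≤ A`, `0` for `|v| ≥ A + η` -/
def plat (A η v : ℝ) : ℝ := max 0 (min 1 ((A + η - |v|) / η))

/-- the test weight: `1` for `1 ≤ √(x y) ≤ 2`, `|log √(x / y)| ≤ A` -/
def Wf (A η : ℝ) (x y : ℝ) : ℝ :=
  if 0 < x ∧ 0 < y then
    plat (Real.log 2 / 2) η (Real.log (x * y) / 2 - Real.log 2 / 2) *
      plat A η (Real.log (x / y) / 2) else 0

private theorem plat_nonneg (A η v : ℝ) : 0 ≤ plat A η v := le_max_left _ _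

private theorem plat_le_one (A η v : ℝ) : plat A η v ≤ 1 :=
  max_le zero_le_one (min_le_left _ _)

private theorem plat_eq_zero {A η v : ℝ} (hη : 0 < η) (h : A + η ≤ |v|) : plat A η v = 0 := by
  unfold plat
  apply max_eq_left
  refine (min_le_right _ _).trans ?_
  exact div_nonpos_of_nonpos_of_nonneg (by linarith) hη.le

private theorem plat_lip {A η : ℝ} (hη : 0 < η) (u v : ℝ) :
    |plat A η u - plat A η v| ≤ |u - v| / η := by
  unfold plat
  have h1 := abs_max_sub_max_le_abs (min 1 ((A + η - |u|) / η)) (min 1 ((A + η - |v|) / η)) 0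
  rw [max_comm (min 1 ((A + η - |u|) / η)), max_comm (min 1 ((A + η - |v|) / η))] at h1
  refine h1.trans ?_
  have h2 : |min 1 ((A + η - |u|) / η) - min 1 ((A + η - |v|) / η)| ≤
      |(A + η - |u|) / η - (A + η - |v|) / η| := by
    have h3 := abs_min_sub_min_le_max (1 : ℝ) ((A + η - |u|) / η) 1 ((A + η - |v|) / η)
    rw [sub_self, abs_zero, max_eq_right (abs_nonneg _)] at h3
    exact h3
  refine h2.trans ?_
  have h3 : (A + η - |u|) / η - (A + η - |v|) / η = (|v| - |u|) / η := by ring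
  rw [h3, abs_div, abs_of_pos hη, abs_sub_comm u v]
  exact div_le_div_of_nonneg_right (abs_abs_sub_abs_le v u) hη.le

/-- the factor for the size, in logarithmic coordinates -/
private def Ef (η t : ℝ) : ℝ := plat (Real.log 2 / 2) η (t - Real.log 2 / 2)

private theorem Ef_nonneg (η t : ℝ) : 0 ≤ Ef η t := plat_nonneg _ _ _

private theorem Ef_le (η t : ℝ) : Ef η t ≤ 1 := plat_le_one _ _ _

private theorem Ef_zero {η t : ℝ} (hη : 0 < η) (hη1 : η ≤ 1 / 4) (h : 1 ≤ |t|) : Ef η t = 0 := by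
  unfold Ef
  apply plat_eq_zero hη
  have h1 : Real.log 2 < 0.6931471808 := Real.log_two_lt_d9
  have h2 : 0 < Real.log 2 := Real.log_pos (by norm_num)
  have h3 : |t| ≤ |t - Real.log 2 / 2| + |Real.log 2 / 2| := by
    have h4 := abs_add_le (t - Real.log 2 / 2) (Real.log 2 / 2)
    rwa [sub_add_cancel] at h4
  rw [abs_of_pos (by linarith : (0 : ℝ) < Real.log 2 / 2)] at h3
  norm_num at h1
  linarith

private theorem Ef_lip {η : ℝ} (hη : 0 < η) (t s : ℝ) : |Ef η t - Ef η s| ≤ |t - s| / η := by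
  unfold Ef
  refine (plat_lip hη _ _).trans (le_of_eq ?_)
  congr 2
  ring

/-- the test weight in logarithmic coordinates -/
private def Pf (A η u v : ℝ) : ℝ := Ef η ((u + v) / 2) * plat A η ((u - v) / 2)

private theorem Pf_bd (A η u v : ℝ) : |Pf A η u v| ≤ 1 := by
  unfold Pf
  have h1 := Ef_nonneg η ((u + v) / 2)
  have h2 := Ef_le η ((u + v) / 2)
  have h3 := plat_nonneg A η ((u - v) / 2)
  have h4 := plat_le_one A η ((u - v) / 2)
  rw [abs_of_nonneg (mul_nonneg h1 h3)]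
  have h5 : Ef η ((u + v) / 2) * plat A η ((u - v) / 2) ≤ 1 * 1 :=
    mul_le_mul h2 h4 h3 (by norm_num)
  linarith

private theorem Pf_lip {A η : ℝ} (hη : 0 < η) (u v u' v' : ℝ) :
    |Pf A η u v - Pf A η u' v'| ≤ (2 / η) * (|u - u'| + |v - v'|) := by
  unfold Pf
  set e := Ef η ((u + v) / 2)
  set e' := Ef η ((u' + v') / 2)
  set p := plat A η ((u - v) / 2)
  set p' := plat A η ((u' - v') / 2)
  have h1 : e * p - e' * p' = (e - e') * p + e' * (p - p') := by ring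
  rw [h1]
  have h3' := abs_nonneg (u - u')
  have h4' := abs_nonneg (v - v')
  have he : |e - e'| ≤ (|u - u'| + |v - v'|) / η := by
    refine (Ef_lip hη _ _).trans ?_
    apply div_le_div_of_nonneg_right _ hη.le
    have h2 : (u + v) / 2 - (u' + v') / 2 = ((u - u') + (v - v')) / 2 := by ring
    rw [h2, abs_div, abs_of_pos (by norm_num : (0 : ℝ) < 2)]
    have h3 := abs_add_le (u - u') (v - v')
    linarith
  have hp : |p - p'| ≤ (|u - u'| + |v - v'|) / η := by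
    refine (plat_lip hη _ _).trans ?_
    apply div_le_div_of_nonneg_right _ hη.le
    have h2 : (u - v) / 2 - (u' - v') / 2 = ((u - u') + -(v - v')) / 2 := by ring
    rw [h2, abs_div, abs_of_pos (by norm_num : (0 : ℝ) < 2)]
    have h3 := abs_add_le (u - u') (-(v - v'))
    rw [abs_neg] at h3
    linarith
  have hp1 : |p| ≤ 1 := by
    rw [abs_of_nonneg (plat_nonneg _ _ _)]
    exact plat_le_one _ _ _
  have he1 : |e'| ≤ 1 := by
    rw [abs_of_nonneg (Ef_nonneg _ _)]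
    exact Ef_le _ _
  refine (abs_add_le _ _).trans ?_
  rw [abs_mul, abs_mul]
  calc |e - e'| * |p| + |e'| * |p - p'| ≤
      (|u - u'| + |v - v'|) / η * 1 + 1 * ((|u - u'| + |v - v'|) / η) := by
        refine add_le_add ?_ ?_
        · exact mul_le_mul he hp1 (abs_nonneg _) (by positivity)
        · exact mul_le_mul he1 hp (abs_nonneg _) (by norm_num)
    _ = (2 / η) * (|u - u'| + |v - v'|) := by ring

private theorem Pf_zero {A η u v : ℝ} (hη : 0 < η) (hη1 : η ≤ 1 / 4)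
    (h : A + 2 ≤ |u| ∨ A + 2 ≤ |v|) : Pf A η u v = 0 := by
  unfold Pf
  by_cases h1 : 1 ≤ |(u + v) / 2|
  · rw [Ef_zero hη hη1 h1, zero_mul]
  by_cases h2 : A + η ≤ |(u - v) / 2|
  · rw [plat_eq_zero hη h2, mul_zero]
  exfalso
  push Not at h1 h2
  rcases h with h | h
  · have h3 : |u| ≤ |(u + v) / 2| + |(u - v) / 2| := by
      have h4 := abs_add_le ((u + v) / 2) ((u - v) / 2)
      have h5 : (u + v) / 2 + (u - v) / 2 = u := by ring
      rwa [h5] at h4
    linarith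
  · have h3 : |v| ≤ |(u + v) / 2| + |(u - v) / 2| := by
      have h4 := abs_add_le ((u + v) / 2) (-((u - v) / 2))
      have h5 : (u + v) / 2 + -((u - v) / 2) = v := by ring
      rw [h5, abs_neg] at h4
      exact h4
    linarith

private theorem Wf_eq {A η : ℝ} (hA : 0 ≤ A) (hη : 0 < η) (hη1 : η ≤ 1 / 4) (x y : ℝ) :
    Wf A η x y = Pf A η (Real.log (max x (Real.exp (-(A + 2)))))
      (Real.log (max y (Real.exp (-(A + 2))))) := by
  have hm : 0 < Real.exp (-(A + 2)) := Real.exp_pos _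
  have habs : |Real.log (Real.exp (-(A + 2)))| = A + 2 := by
    rw [Real.log_exp, abs_neg, abs_of_pos (by linarith)]
  by_cases h : 0 < x ∧ 0 < y
  · obtain ⟨hx, hy⟩ := h
    have hxy : Wf A η x y = Pf A η (Real.log x) (Real.log y) := by
      unfold Wf Pf Ef
      rw [if_pos ⟨hx, hy⟩, Real.log_mul hx.ne' hy.ne', Real.log_div hx.ne' hy.ne']
    by_cases h1 : Real.exp (-(A + 2)) ≤ x
    · by_cases h2 : Real.exp (-(A + 2)) ≤ y
      · rw [max_eq_left h1, max_eq_left h2, hxy]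
      · push Not at h2
        rw [hxy, max_eq_right h2.le, Pf_zero hη hη1 (Or.inr habs.ge)]
        apply Pf_zero hη hη1
        right
        have h3 : Real.log y < -(A + 2) := (Real.log_lt_iff_lt_exp hy).2 h2
        rw [abs_of_neg (by linarith)]
        linarith
    · push Not at h1
      rw [hxy, max_eq_right h1.le, Pf_zero hη hη1 (Or.inl habs.ge)]
      apply Pf_zero hη hη1
      left
      have h3 : Real.log x < -(A + 2) := (Real.log_lt_iff_lt_exp hx).2 h1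
      rw [abs_of_neg (by linarith)]
      linarith
  · unfold Wf
    rw [if_neg h]
    by_cases hx : 0 < x
    · have hy : y ≤ 0 := by
        by_contra hcon
        push Not at hcon
        exact h ⟨hx, hcon⟩
      rw [max_eq_right (hy.trans hm.le), Pf_zero hη hη1 (Or.inr habs.ge)]
    · push Not at hx
      rw [max_eq_right (hx.trans hm.le), Pf_zero hη hη1 (Or.inl habs.ge)]

private theorem log_max_lip {m : ℝ} (hm : 0 < m) (x x' : ℝ) :
    |Real.log (max x m) - Real.log (max x' m)| ≤ |x - x'| / m := by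
  have aux : ∀ a b : ℝ, m ≤ a → a ≤ b → |Real.log a - Real.log b| ≤ |a - b| / m := by
    intro a b ha hab
    have ha0 : 0 < a := hm.trans_le ha
    have hb0 : 0 < b := ha0.trans_le hab
    have h1 : Real.log a ≤ Real.log b := Real.log_le_log ha0 hab
    rw [abs_of_nonpos (by linarith), abs_of_nonpos (by linarith)]
    have h2 : Real.log b - Real.log a = Real.log (b / a) := (Real.log_div hb0.ne' ha0.ne').symm
    have h3 : Real.log (b / a) ≤ b / a - 1 := Real.log_le_sub_one_of_pos (div_pos hb0 ha0)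
    have h4 : b / a - 1 = (b - a) / a := by
      rw [sub_div, div_self ha0.ne']
    have h5 : (b - a) / a ≤ (b - a) / m := div_le_div_of_nonneg_left (by linarith) hm ha
    have h6 : -(a - b) = b - a := by ring
    rw [h6]
    linarith
  have h1 : |max x m - max x' m| ≤ |x - x'| := abs_max_sub_max_le_abs x x' m
  have h2 : |Real.log (max x m) - Real.log (max x' m)| ≤ |max x m - max x' m| / m := by
    rcases le_total (max x m) (max x' m) with h | h
    · exact aux _ _ (le_max_right _ _) h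
    · rw [abs_sub_comm, abs_sub_comm (max x m)]
      exact aux _ _ (le_max_right _ _) h
  exact h2.trans (div_le_div_of_nonneg_right h1 hm.le)

/-- Support: `log √(x y) ∈ [-η, log 2 + η]`, `|log √(x / y)| ≤ A + η`, so `x, y` lie in
`[exp (-(A + 2)), exp (A + 2)]` (`η ≤ 1 / 4`), in the interior; there `log` is Lipschitz. -/
theorem Wf_Wt (A η : ℝ) (hA : 0 ≤ A) (hη : 0 < η) (hη1 : η ≤ 1 / 4) : ∃ L : ℝ, 0 ≤ L ∧
    Wt (Real.exp (-(A + 2))) (Real.exp (A + 2)) L (Wf A η) := by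
  have hm : 0 < Real.exp (-(A + 2)) := Real.exp_pos _
  refine ⟨(2 / η) / Real.exp (-(A + 2)), by positivity, ?_, ?_, ?_⟩
  · intro x y
    rw [Wf_eq hA hη hη1]
    exact Pf_bd _ _ _ _
  · intro x y h
    have hpos : 0 < x ∧ 0 < y := by
      by_contra hcon
      apply h
      unfold Wf
      rw [if_neg hcon]
    obtain ⟨hx, hy⟩ := hpos
    rw [Wf_eq hA hη hη1] at h
    have h1 : ¬ (A + 2 ≤ |Real.log (max x (Real.exp (-(A + 2))))| ∨
        A + 2 ≤ |Real.log (max y (Real.exp (-(A + 2))))|) :=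
      fun h0 => h (Pf_zero hη hη1 h0)
    push Not at h1
    have key : ∀ z : ℝ, 0 < z → |Real.log (max z (Real.exp (-(A + 2))))| < A + 2 →
        Real.exp (-(A + 2)) ≤ z ∧ z ≤ Real.exp (A + 2) := by
      intro z hz hz1
      have h2 : Real.exp (-(A + 2)) ≤ z := by
        by_contra hcon
        push Not at hcon
        rw [max_eq_right hcon.le, Real.log_exp, abs_neg, abs_of_pos (by linarith)] at hz1
        exact lt_irrefl _ hz1
      refine ⟨h2, ?_⟩
      rw [max_eq_left h2] at hz1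
      exact ((Real.log_lt_iff_lt_exp hz).1 (abs_lt.1 hz1).2).le
    exact ⟨key x hx h1.1, key y hy h1.2⟩
  · intro x y x' y'
    rw [Wf_eq hA hη hη1, Wf_eq hA hη hη1]
    refine (Pf_lip hη _ _ _ _).trans ?_
    have h1 := log_max_lip hm x x'
    have h2 := log_max_lip hm y y'
    have h3 : (0 : ℝ) ≤ 2 / η := by positivity
    calc (2 / η) * (|Real.log (max x (Real.exp (-(A + 2)))) -
          Real.log (max x' (Real.exp (-(A + 2))))| +
          |Real.log (max y (Real.exp (-(A + 2)))) - Real.log (max y' (Real.exp (-(A + 2))))|)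
        ≤ (2 / η) * (|x - x'| / Real.exp (-(A + 2)) + |y - y'| / Real.exp (-(A + 2))) :=
          mul_le_mul_of_nonneg_left (add_le_add h1 h2) h3
      _ = (2 / η) / Real.exp (-(A + 2)) * (|x - x'| + |y - y'|) := by ring

end

end Pool.Agent.Lib.MP_0b748d_nt.HH
end

section

set_option autoImplicit false

/-!
# From the limit averages to the theorem
-/

namespace Pool.Agent.Lib.MP_0b748d_nt.HH

open Filter Topology MR

noncomputable section

private lemma finE_floor {r : ℝ} (hr : 1 ≤ r) :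
    (2 : ℝ) ^ ⌊Real.logb 2 r⌋₊ ≤ r ∧ r < 2 ^ (⌊Real.logb 2 r⌋₊ + 1) := by
  have h0 : 0 < r := by linarith
  have h1 : 0 ≤ Real.logb 2 r := Real.logb_nonneg (by norm_num) hr
  constructor
  · have h2 := Nat.floor_le h1
    rw [Real.le_logb_iff_rpow_le (by norm_num) h0, Real.rpow_natCast] at h2
    exact h2
  · have h2 := Nat.lt_floor_add_one (Real.logb 2 r)
    rw [Real.logb_lt_iff_lt_rpow (by norm_num) h0] at h2
    have h3 : (2 : ℝ) ^ ((⌊Real.logb 2 r⌋₊ : ℝ) + 1) = 2 ^ (⌊Real.logb 2 r⌋₊ + 1) := by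
      rw [← Real.rpow_natCast]
      push_cast
      rfl
    rw [h3] at h2
    exact h2

open Classical in
private lemma finE_dy {S : Finset Fm} {r : Fm → ℝ} {Z : ℝ} (hZ : 1 ≤ Z)
    (h1 : ∀ Q ∈ S, 1 ≤ r Q ∧ r Q ≤ Z) {w : Fm → ℝ} (hw : ∀ Q ∈ S, 0 ≤ w Q) {M : ℝ} (hM : 0 ≤ M)
    (hf : ∀ j : ℕ, ∑ Q ∈ S.filter (fun Q => (2 : ℝ) ^ j ≤ r Q ∧ r Q < 2 ^ (j + 1)), w Q ≤ M) :
    ∑ Q ∈ S, w Q ≤ M * (1 + 2 * Real.log Z) := by
  have hmaps : ∀ Q ∈ S, ⌊Real.logb 2 (r Q)⌋₊ ∈ Finset.range (⌊Real.logb 2 Z⌋₊ + 1) := by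
    intro Q hQ
    obtain ⟨h2, h3⟩ := h1 Q hQ
    rw [Finset.mem_range, Nat.lt_succ_iff]
    apply Nat.floor_mono
    exact Real.logb_le_logb_of_le (by norm_num) (by linarith) h3
  rw [← Finset.sum_fiberwise_of_maps_to hmaps]
  have hfib : ∀ j ∈ Finset.range (⌊Real.logb 2 Z⌋₊ + 1),
      ∑ Q ∈ S.filter (fun Q => ⌊Real.logb 2 (r Q)⌋₊ = j), w Q ≤ M := by
    intro j _
    refine le_trans ?_ (hf j)
    apply Finset.sum_le_sum_of_subset_of_nonneg
    · intro Q hQ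
      rw [Finset.mem_filter] at hQ ⊢
      refine ⟨hQ.1, ?_⟩
      have h2 := finE_floor (h1 Q hQ.1).1
      rw [hQ.2] at h2
      exact h2
    · intro Q hQ _
      exact hw Q (Finset.mem_filter.1 hQ).1
  refine (Finset.sum_le_sum hfib).trans ?_
  rw [Finset.sum_const, Finset.card_range, nsmul_eq_mul, mul_comm]
  apply mul_le_mul_of_nonneg_left _ hM
  push_cast
  have h2 : (⌊Real.logb 2 Z⌋₊ : ℝ) ≤ Real.logb 2 Z :=
    Nat.floor_le (Real.logb_nonneg (by norm_num) hZ)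
  have h3 : Real.logb 2 Z ≤ 2 * Real.log Z := by
    unfold Real.logb
    rw [div_le_iff₀ (Real.log_pos (by norm_num))]
    have h4 := Real.log_two_gt_d9
    have h5 := Real.log_nonneg hZ
    nlinarith
  linarith

private lemma finE_le {R d e : ℝ} (hR : 0 ≤ R) (hd : 0 ≤ d) (h : d ≤ R ^ 2 * e) :
    d ≤ R * √(d * e) := by
  have h1 : R * √(d * e) = √(R ^ 2 * (d * e)) := by
    rw [Real.sqrt_mul (by positivity : (0 : ℝ) ≤ R ^ 2), Real.sqrt_sq hR]
  rw [h1]
  apply Real.le_sqrt_of_sq_le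
  nlinarith

open Classical in
/-- sums of `1 / √(d e)` over forms of bounded ratio: dyadic decomposition and `Qs_ab` -/
theorem sum_inv (R : ℝ) (hR : 1 ≤ R) : ∃ C : ℝ, 1 ≤ C ∧ ∀ Y Y' : ℝ, 1 ≤ Y → Y ≤ Y' →
    ∑ Q ∈ (Qs (R * Y')).filter (fun Q => (Q.d : ℝ) ≤ R ^ 2 * Q.e ∧ (Q.e : ℝ) ≤ R ^ 2 * Q.d ∧
      Y ≤ √((Q.d : ℝ) * Q.e) ∧ √((Q.d : ℝ) * Q.e) ≤ Y'), 1 / √((Q.d : ℝ) * Q.e) ≤
      C * (1 + Real.log (Y' / Y)) := by
  obtain ⟨C0, hC01, hC0⟩ := Qs_ab
  refine ⟨4 * C0 * R, by nlinarith, fun Y Y' hY hYY => ?_⟩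
  have hY0 : 0 < Y := by linarith
  have hZ : 1 ≤ Y' / Y := by
    rw [one_le_div hY0]
    exact hYY
  obtain ⟨S, hS⟩ : ∃ S, S = (Qs (R * Y')).filter (fun Q => (Q.d : ℝ) ≤ R ^ 2 * Q.e ∧
      (Q.e : ℝ) ≤ R ^ 2 * Q.d ∧ Y ≤ √((Q.d : ℝ) * Q.e) ∧ √((Q.d : ℝ) * Q.e) ≤ Y') := ⟨_, rfl⟩
  rw [← hS]
  have hRY : 0 ≤ R * Y' := by nlinarith
  have hSm : ∀ Q ∈ S, Q.Ok ∧ (Q.d : ℝ) ≤ R ^ 2 * Q.e ∧ (Q.e : ℝ) ≤ R ^ 2 * Q.d ∧
      Y ≤ √((Q.d : ℝ) * Q.e) ∧ √((Q.d : ℝ) * Q.e) ≤ Y' := by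
    intro Q hQ
    rw [hS, Finset.mem_filter, mem_Qs hRY] at hQ
    exact ⟨hQ.1.1, hQ.2⟩
  have h1 := finE_dy (S := S) (r := fun Q => √((Q.d : ℝ) * Q.e) / Y) (Z := Y' / Y) hZ
    (fun Q hQ => by
      obtain ⟨-, -, -, h2, h3⟩ := hSm Q hQ
      exact ⟨(one_le_div hY0).2 h2, div_le_div_of_nonneg_right h3 hY0.le⟩)
    (w := fun Q => 1 / √((Q.d : ℝ) * Q.e)) (fun Q _ => by positivity) (M := 2 * C0 * R)
    (by positivity) (by
      intro j
      obtain ⟨X, hX⟩ : ∃ X, X = R * 2 ^ (j + 1) * Y := ⟨_, rfl⟩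
      have hX0 : 0 ≤ X := by rw [hX]; positivity
      have h2 := hC0 1 1 X one_pos one_pos hX0
      have h3 : (max (1 : ℝ) 1) ^ 2 * X = X := by norm_num
      rw [h3, one_pow, one_mul, one_mul, one_mul] at h2
      have h4 : S.filter (fun Q => (2 : ℝ) ^ j ≤ √((Q.d : ℝ) * Q.e) / Y ∧
          √((Q.d : ℝ) * Q.e) / Y < 2 ^ (j + 1)) ⊆
          (Qs X).filter (fun Q => (Q.d : ℝ) ≤ X ∧ (Q.e : ℝ) ≤ X) := by
        intro Q hQ
        rw [Finset.mem_filter] at hQ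
        obtain ⟨hQS, -, h5⟩ := hQ
        obtain ⟨hOk, h6, h7, -, -⟩ := hSm Q hQS
        rw [div_lt_iff₀ hY0] at h5
        have h8 : (Q.d : ℝ) ≤ X := by
          refine (finE_le (by linarith) (by positivity) h6).trans ?_
          rw [hX, mul_assoc]
          exact mul_le_mul_of_nonneg_left h5.le (by linarith)
        have h9 : (Q.e : ℝ) ≤ X := by
          refine (finE_le (by linarith) (by positivity) h7).trans ?_
          rw [hX, mul_assoc, mul_comm (Q.e : ℝ)]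
          exact mul_le_mul_of_nonneg_left h5.le (by linarith)
        rw [Finset.mem_filter, mem_Qs hX0]
        exact ⟨⟨hOk, h8, h9⟩, h8, h9⟩
      have h10 : ∀ Q ∈ S.filter (fun Q => (2 : ℝ) ^ j ≤ √((Q.d : ℝ) * Q.e) / Y ∧
          √((Q.d : ℝ) * Q.e) / Y < 2 ^ (j + 1)), 1 / √((Q.d : ℝ) * Q.e) ≤ 1 / (2 ^ j * Y) := by
        intro Q hQ
        rw [Finset.mem_filter] at hQ
        obtain ⟨hQS, h5, -⟩ := hQ
        rw [le_div_iff₀ hY0] at h5
        exact one_div_le_one_div_of_le (by positivity) h5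
      refine (Finset.sum_le_sum h10).trans ?_
      rw [Finset.sum_const, nsmul_eq_mul]
      have h11 : ((S.filter (fun Q => (2 : ℝ) ^ j ≤ √((Q.d : ℝ) * Q.e) / Y ∧
          √((Q.d : ℝ) * Q.e) / Y < 2 ^ (j + 1))).card : ℝ) ≤ C0 * X := by
        refine le_trans ?_ h2
        exact_mod_cast Finset.card_le_card h4
      refine (mul_le_mul_of_nonneg_right h11 (by positivity)).trans (le_of_eq ?_)
      rw [hX, pow_succ]
      field_simp)
  refine h1.trans ?_
  have h12 : 0 ≤ Real.log (Y' / Y) := Real.log_nonneg hZ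
  have h13 : 0 < C0 * R := by positivity
  nlinarith

end

end Pool.Agent.Lib.MP_0b748d_nt.HH
end
end
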