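import Pool.Agent.Lib.MP_0b748d_nt.HH.DecA
import Pool.Agent.Lib.MP_0b748d_nt.MR.ElDvdA
import Pool.Agent.Lib.MP_0b748d_nt.MR.VExp
import Pool.Agent.Lib.MP_0b748d_nt.HH.DC7
import Pool.Agent.Lib.MP_0b748d_nt.HH.DB6
import Pool.Agent.Lib.MP_0b748d_nt.HH.DC22
import Pool.Agent.Lib.MP_0b748d_nt.MR.Lower
import Pool.Agent.Lib.MP_0b748d_nt.HH.FinD

section

set_option autoImplicit false

/-!
# Duality
-/

namespace Pool.Agent.Lib.MP_0b748d_nt.HD

open Zsqrtd MR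

noncomputable section

/-- Proof. As in `MR/DualLevel.lean`. Let `C, η0` be those of `U_exp 2` (`η0 ≤ 1/8`). Take
`α = η0/12`, `η = η0/2`. `dual` with `T = Us A (2 Y)`, `J = ⌊2 X⌋`, `M = C (2Y)^(1-η0)`: for
`0 < |j| ≤ 2 X` one has `|j| ≤ (2Y)^2` because `Y ≥ X^(7/8)`. Finally
`#𝒰 M ≤ X^(η0/4) C (2Y)^(1-η0) ≤ 2 C Y^(1 - η0 + 2 η0/7) ≤ Y^(1 - η0/2)` for large `X`, because
`X ≤ Y^(8/7)`. -/
theorem dual_gen : ∃ α η : ℝ, DualP α η := by
  obtain ⟨C2, η0, hC2, hη0, hη8, hU⟩ := U_exp 2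
  refine ⟨η0 / 12, η0 / 2, by positivity, by linarith, by positivity, by linarith,
    max 2 ((2 * C2) ^ (16 / (3 * η0))), le_max_left _ _, ?_⟩
  intro X hX Y hY1 hY2 A hA 𝒰 h𝒰 hcard a
  have hX2 : 2 ≤ X := (le_max_left _ _).trans hX
  have hXC : (2 * C2) ^ (16 / (3 * η0)) ≤ X := (le_max_right _ _).trans hX
  have hX0 : 0 < X := by linarith
  have hX1 : 1 ≤ X := by linarith
  have hX78 : 0 < X ^ ((7 : ℝ) / 8) := Real.rpow_pos_of_pos hX0 _
  have hX78one : 1 ≤ X ^ ((7 : ℝ) / 8) := Real.one_le_rpow hX1 (by norm_num)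
  have hY0 : 0 < Y := by linarith
  have hY1' : 1 ≤ Y := by linarith
  have hC20 : 0 < 2 * C2 := by linarith
  -- `2 X ≤ (2 Y) ^ 2`
  have hb2 : 2 * X ≤ (2 * Y) ^ 2 := by
    have h6 : X ≤ (X ^ ((7 : ℝ) / 8)) ^ 2 := by
      rw [← Real.rpow_natCast, ← Real.rpow_mul hX0.le]
      calc X = X ^ (1 : ℝ) := (Real.rpow_one X).symm
        _ ≤ _ := Real.rpow_le_rpow_of_exponent_le hX1 (by norm_num)
    have h7 : (X ^ ((7 : ℝ) / 8)) ^ 2 ≤ Y ^ 2 := pow_le_pow_left₀ hX78.le hY1 2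
    nlinarith
  set M : ℝ := C2 * (2 * Y) ^ (1 - η0) with hM
  have hM0 : 0 ≤ M := by positivity
  have hdual := dual (Us A (2 * Y)) M hM0 ⌊2 * X⌋ (by
    intro j hj0 hj
    refine hU A (2 * Y) hA (by linarith) j hj0 ?_
    have h5 : ((|j| : ℤ) : ℝ) ≤ 2 * X := (Int.cast_le.mpr hj).trans (Int.floor_le _)
    rw [Int.cast_abs] at h5
    exact h5.trans hb2) 𝒰 (by
    intro k hk l hl
    rw [Int.le_floor]
    have h5 := h𝒰 k hk
    have h6 := h𝒰 l hl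
    push_cast
    have h7 := abs_sub (k : ℝ) (l : ℝ)
    linarith) a
  refine hdual.trans ?_
  refine mul_le_mul_of_nonneg_right ?_ (Finset.sum_nonneg fun w _ => by positivity)
  have e1 : X ^ (3 * (η0 / 12)) ≤ Y ^ (2 * η0 / 7) := by
    calc X ^ (3 * (η0 / 12)) = (X ^ ((7 : ℝ) / 8)) ^ (2 * η0 / 7) := by
          rw [← Real.rpow_mul hX0.le]
          congr 1
          ring
      _ ≤ Y ^ (2 * η0 / 7) := Real.rpow_le_rpow hX78.le hY1 (by positivity)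
  have e2 : (2 * Y) ^ (1 - η0) ≤ 2 * Y ^ (1 - η0) := by
    rw [Real.mul_rpow (by norm_num) hY0.le]
    refine mul_le_mul_of_nonneg_right ?_ (Real.rpow_nonneg hY0.le _)
    calc (2 : ℝ) ^ (1 - η0) ≤ 2 ^ (1 : ℝ) :=
          Real.rpow_le_rpow_of_exponent_le (by norm_num) (by linarith)
      _ = 2 := Real.rpow_one 2
  have e3 : 2 * C2 ≤ Y ^ (3 * η0 / 14) := by
    calc 2 * C2 = ((2 * C2) ^ (16 / (3 * η0))) ^ (3 * η0 / 16) := by
          rw [← Real.rpow_mul hC20.le]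
          rw [show 16 / (3 * η0) * (3 * η0 / 16) = 1 by field_simp]
          rw [Real.rpow_one]
      _ ≤ X ^ (3 * η0 / 16) :=
          Real.rpow_le_rpow (Real.rpow_nonneg hC20.le _) hXC (by positivity)
      _ = (X ^ ((7 : ℝ) / 8)) ^ (3 * η0 / 14) := by
          rw [← Real.rpow_mul hX0.le]
          congr 1
          ring
      _ ≤ Y ^ (3 * η0 / 14) := Real.rpow_le_rpow hX78.le hY1 (by positivity)
  have e4 : (𝒰.card : ℝ) * M ≤ Y ^ (1 - η0 / 2) := by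
    have h1 : 0 ≤ Y ^ (1 - η0) := Real.rpow_nonneg hY0.le _
    have h2 : 0 ≤ Y ^ (2 * η0 / 7) := Real.rpow_nonneg hY0.le _
    calc (𝒰.card : ℝ) * M ≤ Y ^ (2 * η0 / 7) * (C2 * (2 * Y ^ (1 - η0))) := by
          rw [hM]
          refine mul_le_mul (hcard.trans e1) (mul_le_mul_of_nonneg_left e2 (by linarith))
            (by positivity) h2
      _ = (2 * C2) * (Y ^ (2 * η0 / 7) * Y ^ (1 - η0)) := by ring
      _ ≤ Y ^ (3 * η0 / 14) * (Y ^ (2 * η0 / 7) * Y ^ (1 - η0)) :=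
          mul_le_mul_of_nonneg_right e3 (by positivity)
      _ = Y ^ (1 - η0 / 2) := by
          rw [← Real.rpow_add hY0, ← Real.rpow_add hY0]
          congr 1
          ring
  linarith

end

end Pool.Agent.Lib.MP_0b748d_nt.HD
end

section

set_option autoImplicit false

/-!
# The iteration
-/

namespace Pool.Agent.Lib.MP_0b748d_nt.HD

open Zsqrtd MR

noncomputable section

private theorem DB9_sq {x y : ℂ} {τ : ℝ} (hτ : 0 < τ) :
    ‖x + y‖ ^ 2 ≤ (1 + τ) * ‖x‖ ^ 2 + (1 + 1 / τ) * ‖y‖ ^ 2 := by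
  have h1 : ‖x + y‖ ≤ ‖x‖ + ‖y‖ := norm_add_le x y
  have h2 : ‖x + y‖ ^ 2 ≤ (‖x‖ + ‖y‖) ^ 2 := pow_le_pow_left₀ (norm_nonneg _) h1 2
  have h3 : 0 ≤ (τ * ‖x‖ - ‖y‖) ^ 2 / τ := by positivity
  have h4 : (τ * ‖x‖ - ‖y‖) ^ 2 / τ = τ * ‖x‖ ^ 2 - 2 * (‖x‖ * ‖y‖) + 1 / τ * ‖y‖ ^ 2 := by
    field_simp
    ring
  linarith only [h2, h3, h4]

private theorem DB9_core {f : ℤ√2 → ℂ} (hf : MF f) {Y P lam τ ρ R E δ : ℝ} {n : ℕ}
    {𝒰 : Finset ℤ} (hτ : 0 < τ) (hP : 2 ≤ P) (hl : 1 < lam) (hl2 : lam ≤ 2) (hY : 0 < Y)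
    (hδ1 : δ ≤ 1) (hρ : 0 ≤ ρ) (hR : 0 ≤ R) (hW : 1 ≤ Wp P (P * lam ^ n))
    (hcos : ∀ k ∈ 𝒰, ∑ p ∈ Ip P (P * lam ^ n), (1 / (p : ℝ)) *
      ‖∑ s : Bool, f (el p s) * xi k (el p s)‖ ≤ (1 - δ) * Wp P (P * lam ^ n))
    (hdec : ∑ k ∈ 𝒰, ‖Ap f k Y (2 * Y) - (1 / (Wp P (P * lam ^ n) : ℂ)) *
        ∑ v ∈ Finset.range n, Qp f k (P * lam ^ v) (P * lam ^ (v + 1)) *
          Ap f k (Y / (P * lam ^ v)) (2 * Y / (P * lam ^ (v + 1)))‖ ^ 2 ≤ E)
    (hgood : ∀ v ∈ Finset.range n, ∑ k ∈ 𝒰,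
      ‖Ap f k (Y / (P * lam ^ v)) (2 * (Y / (P * lam ^ v)))‖ ^ 2 ≤ ρ * (Y / (P * lam ^ v)) ^ 2)
    (hshell : ∀ v ∈ Finset.range n, ∑ k ∈ 𝒰,
      ‖Ap f k (2 * (Y / (P * lam ^ v)) / lam) (2 * (Y / (P * lam ^ v)))‖ ^ 2 ≤
        R * (Y / (P * lam ^ v)) ^ 2) :
    ∑ k ∈ 𝒰, ‖Ap f k Y (2 * Y)‖ ^ 2 ≤
      (1 + τ) * (lam ^ 2 * (1 - δ) * (((1 + τ) * ρ + (1 + 1 / τ) * R) * Y ^ 2)) +
        (1 + 1 / τ) * E := by
  have hP0 : 0 < P := by linarith
  have hl0 : 0 < lam := by linarith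
  have hW0 : 0 < Wp P (P * lam ^ n) := by linarith
  have hPv : ∀ v : ℕ, 0 < P * lam ^ v := fun v => by positivity
  have hK : 0 < 1 + 1 / τ := by positivity
  have hends : ∀ v : ℕ, 2 * Y / (P * lam ^ (v + 1)) = 2 * (Y / (P * lam ^ v)) / lam := by
    intro v
    rw [pow_succ]
    field_simp
  have hcs := step_cs n 𝒰 (fun v => ∑ p ∈ Ip (P * lam ^ v) (P * lam ^ (v + 1)), 2 / (p : ℝ))
    (fun v k => ‖Qp f k (P * lam ^ v) (P * lam ^ (v + 1))‖ / (P * lam ^ v))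
    (fun v k => (P * lam ^ v) *
      ‖Ap f k (Y / (P * lam ^ v)) (2 * Y / (P * lam ^ (v + 1)))‖)
    (Wp P (P * lam ^ n)) lam δ (((1 + τ) * ρ + (1 + 1 / τ) * R) * Y ^ 2) hW0 hl0.le hδ1
    (by positivity)
    (fun v => Finset.sum_nonneg fun p _ => by positivity)
    (le_of_eq (Ip_split (fun p : ℕ => 2 / (p : ℝ)) P lam hP0 hl n).symm)
    (fun v k => div_nonneg (norm_nonneg _) (hPv v).le)
    (fun v k => mul_nonneg (hPv v).le (norm_nonneg _))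
    (fun v k => (Qp_block hf k hP0 hl n).1 v)
    (fun k hk => by
      refine (Qp_block hf k hP0 hl n).2.trans ?_
      have h1 := mul_le_mul_of_nonneg_left (hcos k hk) hl0.le
      refine h1.trans (le_of_eq ?_)
      ring)
    (fun v hv => by
      have hYv : 0 < Y / (P * lam ^ v) := div_pos hY (hPv v)
      have h1 : ∀ k ∈ 𝒰, ((P * lam ^ v) *
          ‖Ap f k (Y / (P * lam ^ v)) (2 * Y / (P * lam ^ (v + 1)))‖) ^ 2 ≤
          (P * lam ^ v) ^ 2 * ((1 + τ) *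
            ‖Ap f k (Y / (P * lam ^ v)) (2 * (Y / (P * lam ^ v)))‖ ^ 2 + (1 + 1 / τ) *
            ‖Ap f k (2 * (Y / (P * lam ^ v)) / lam) (2 * (Y / (P * lam ^ v)))‖ ^ 2) := by
        intro k _
        rw [mul_pow, hends, Ap_shell f k hYv hl hl2, sub_eq_add_neg]
        refine mul_le_mul_of_nonneg_left ?_ (by positivity)
        refine (DB9_sq hτ).trans (le_of_eq ?_)
        rw [_root_.norm_neg]
      refine (Finset.sum_le_sum h1).trans ?_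
      rw [← Finset.mul_sum, Finset.sum_add_distrib, ← Finset.mul_sum, ← Finset.mul_sum]
      have h2 := hgood v hv
      have h3 := hshell v hv
      have h4 : (P * lam ^ v) ^ 2 * (Y / (P * lam ^ v)) ^ 2 = Y ^ 2 := by
        rw [← mul_pow, mul_div_cancel₀ _ (hPv v).ne']
      calc (P * lam ^ v) ^ 2 * ((1 + τ) * ∑ k ∈ 𝒰,
              ‖Ap f k (Y / (P * lam ^ v)) (2 * (Y / (P * lam ^ v)))‖ ^ 2 + (1 + 1 / τ) *
              ∑ k ∈ 𝒰, ‖Ap f k (2 * (Y / (P * lam ^ v)) / lam) (2 * (Y / (P * lam ^ v)))‖ ^ 2)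
          ≤ (P * lam ^ v) ^ 2 * ((1 + τ) * (ρ * (Y / (P * lam ^ v)) ^ 2) + (1 + 1 / τ) *
              (R * (Y / (P * lam ^ v)) ^ 2)) := by
            refine mul_le_mul_of_nonneg_left (add_le_add ?_ ?_) (by positivity)
            · exact mul_le_mul_of_nonneg_left h2 (by positivity)
            · exact mul_le_mul_of_nonneg_left h3 hK.le
        _ = ((1 + τ) * ρ + (1 + 1 / τ) * R) * ((P * lam ^ v) ^ 2 * (Y / (P * lam ^ v)) ^ 2) := by
            ring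
        _ = ((1 + τ) * ρ + (1 + 1 / τ) * R) * Y ^ 2 := by rw [h4])
  set M : ℤ → ℂ := fun k => (1 / (Wp P (P * lam ^ n) : ℂ)) *
        ∑ v ∈ Finset.range n, Qp f k (P * lam ^ v) (P * lam ^ (v + 1)) *
          Ap f k (Y / (P * lam ^ v)) (2 * Y / (P * lam ^ (v + 1))) with hM
  have hMn : ∀ k, ‖M k‖ ≤ (1 / Wp P (P * lam ^ n)) * ∑ v ∈ Finset.range n,
      (‖Qp f k (P * lam ^ v) (P * lam ^ (v + 1))‖ / (P * lam ^ v)) * ((P * lam ^ v) *
      ‖Ap f k (Y / (P * lam ^ v)) (2 * Y / (P * lam ^ (v + 1)))‖) := by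
    intro k
    rw [hM]
    simp only
    rw [_root_.norm_mul]
    have h1 : ‖(1 / (Wp P (P * lam ^ n) : ℂ))‖ = 1 / Wp P (P * lam ^ n) := by
      rw [norm_div, NormOneClass.norm_one, Complex.norm_real, Real.norm_of_nonneg hW0.le]
    rw [h1]
    refine mul_le_mul_of_nonneg_left ?_ (by positivity)
    refine (norm_sum_le _ _).trans (Finset.sum_le_sum fun v _ => le_of_eq ?_)
    rw [_root_.norm_mul, ← mul_assoc, div_mul_cancel₀ _ (hPv v).ne']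
  have hsum : ∑ k ∈ 𝒰, ‖M k‖ ^ 2 ≤
      lam ^ 2 * (1 - δ) * (((1 + τ) * ρ + (1 + 1 / τ) * R) * Y ^ 2) := by
    refine le_trans (Finset.sum_le_sum fun k _ => ?_) hcs
    exact pow_le_pow_left₀ (norm_nonneg _) (hMn k) 2
  calc ∑ k ∈ 𝒰, ‖Ap f k Y (2 * Y)‖ ^ 2
      ≤ ∑ k ∈ 𝒰, ((1 + τ) * ‖M k‖ ^ 2 + (1 + 1 / τ) * ‖Ap f k Y (2 * Y) - M k‖ ^ 2) := by
        refine Finset.sum_le_sum fun k _ => ?_
        have h1 : Ap f k Y (2 * Y) = M k + (Ap f k Y (2 * Y) - M k) := by ring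
        have h2 := DB9_sq (x := M k) (y := Ap f k Y (2 * Y) - M k) hτ
        rwa [← h1] at h2
    _ = (1 + τ) * ∑ k ∈ 𝒰, ‖M k‖ ^ 2 +
        (1 + 1 / τ) * ∑ k ∈ 𝒰, ‖Ap f k Y (2 * Y) - M k‖ ^ 2 := by
        rw [Finset.sum_add_distrib, ← Finset.mul_sum, ← Finset.mul_sum]
    _ ≤ _ := add_le_add (mul_le_mul_of_nonneg_left hsum (by positivity))
        (mul_le_mul_of_nonneg_left hdec hK.le)

private theorem DB9_par {ρ ε C1 C2 δ : ℝ} (hρ : 0 ≤ ρ) (hε : 0 < ε) (hC1 : 1 ≤ C1)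
    (hC2 : 1 ≤ C2) (hδ0 : 0 ≤ δ) (hδ1 : δ ≤ 1) : ∃ τ lam W0 L0 : ℝ, 0 < τ ∧ 1 < lam ∧ lam ≤ 2 ∧
    1 ≤ W0 ∧ 0 < L0 ∧ ∀ Wn L : ℝ, W0 ≤ Wn → L0 ≤ L →
    (1 + τ) * (lam ^ 2 * (1 - δ) * ((1 + τ) * ρ + (1 + 1 / τ) * (C2 * (lam - 1) ^ 2))) +
      (1 + 1 / τ) * (C1 * (1 / Wn + (lam - 1) + 1 / L)) ≤ (1 - δ) * ρ + ε := by
  set τ : ℝ := min 1 (ε / (24 * (ρ + 1))) with hτd
  have hτ : 0 < τ := lt_min one_pos (by positivity)
  have hτ1 : τ ≤ 1 := min_le_left _ _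
  have hτρ : 24 * τ * ρ ≤ ε := by
    have h1 : τ ≤ ε / (24 * (ρ + 1)) := min_le_right _ _
    rw [le_div_iff₀ (by positivity)] at h1
    nlinarith
  set K : ℝ := 1 + 1 / τ with hKd
  have hK1 : 1 ≤ K := by
    have : 0 < 1 / τ := by positivity
    linarith
  have hK0 : 0 < K := by linarith
  set μ : ℝ := min 1 (ε / (96 * (ρ + 1 + K * (C1 + C2)))) with hμd
  have hden : 0 < 96 * (ρ + 1 + K * (C1 + C2)) := by positivity
  have hμ : 0 < μ := lt_min one_pos (by positivity)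
  have hμ1 : μ ≤ 1 := min_le_left _ _
  have hμK : μ * (96 * (ρ + 1 + K * (C1 + C2))) ≤ ε := by
    have h1 : μ ≤ ε / (96 * (ρ + 1 + K * (C1 + C2))) := min_le_right _ _
    rwa [le_div_iff₀ hden] at h1
  have a1 : 0 ≤ μ * ρ := by positivity
  have a2 : 0 ≤ μ * (K * C1) := by positivity
  have a3 : 0 ≤ μ * (K * C2) := by positivity
  have b1 : 96 * (μ * ρ) ≤ ε := by linarith only [hμ, hμK, a2, a3]
  have b2 : 96 * (μ * (K * C1)) ≤ ε := by linarith only [hμ, hμK, a1, a3]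
  have b3 : 96 * (μ * (K * C2)) ≤ ε := by linarith only [hμ, hμK, a1, a2]
  refine ⟨τ, 1 + μ, max 1 (8 * K * C1 / ε), 8 * K * C1 / ε, hτ, by linarith, by linarith,
    le_max_left _ _, by positivity, ?_⟩
  intro Wn L hWn hL
  have hWn1 : 1 ≤ Wn := (le_max_left _ _).trans hWn
  have hWn2 : 8 * K * C1 / ε ≤ Wn := (le_max_right _ _).trans hWn
  have hL0 : 0 < L := lt_of_lt_of_le (by positivity) hL
  have c1 : K * C1 * (1 / Wn) ≤ ε / 8 := by
    rw [div_le_iff₀ hε] at hWn2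
    rw [mul_one_div, div_le_iff₀ (by linarith)]
    linarith
  have c2 : K * C1 * (1 / L) ≤ ε / 8 := by
    rw [div_le_iff₀ hε] at hL
    rw [mul_one_div, div_le_iff₀ hL0]
    linarith
  have hδ' : 0 ≤ 1 - δ := by linarith
  have hlam : (1 + μ) ^ 2 ≤ 1 + 3 * μ := by nlinarith only [hμ, hμ1]
  have hlam4 : (1 + μ) ^ 2 ≤ 4 := by linarith only [hμ1, hlam]
  have htau : (1 + τ) ^ 2 ≤ 1 + 3 * τ := by nlinarith only [hτ, hτ1]
  have htau4 : (1 + τ) ^ 2 ≤ 4 := by linarith only [hτ1, htau]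
  -- the main term
  have d1 : (1 + τ) ^ 2 * (1 + μ) ^ 2 ≤ 1 + 3 * τ + 12 * μ := by
    calc (1 + τ) ^ 2 * (1 + μ) ^ 2 ≤ (1 + τ) ^ 2 * (1 + 3 * μ) :=
          mul_le_mul_of_nonneg_left hlam (by positivity)
      _ = (1 + τ) ^ 2 + (1 + τ) ^ 2 * (3 * μ) := by ring
      _ ≤ (1 + 3 * τ) + 4 * (3 * μ) :=
          add_le_add htau (mul_le_mul_of_nonneg_right htau4 (by positivity))
      _ = 1 + 3 * τ + 12 * μ := by ring
  have d2 : (1 - δ) * ρ * ((1 + τ) ^ 2 * (1 + μ) ^ 2) ≤ (1 - δ) * ρ + ε / 4 := by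
    have e1 : (1 - δ) * ρ * ((1 + τ) ^ 2 * (1 + μ) ^ 2) ≤
        (1 - δ) * ρ * (1 + 3 * τ + 12 * μ) :=
      mul_le_mul_of_nonneg_left d1 (mul_nonneg hδ' hρ)
    have e2 : (1 - δ) * (ρ * (3 * τ + 12 * μ)) ≤ ρ * (3 * τ + 12 * μ) :=
      mul_le_of_le_one_left (by positivity) (by linarith)
    linarith only [hτρ, b1, e1, e2]
  have d3 : (1 + τ) * ((1 + μ) ^ 2 * (1 - δ) * (K * (C2 * μ ^ 2))) ≤ ε / 8 := by
    have e1 : (1 + τ) * ((1 + μ) ^ 2 * (1 - δ) * (K * (C2 * μ ^ 2))) =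
        ((1 + τ) * (1 + μ) ^ 2 * (1 - δ) * μ) * (μ * (K * C2)) := by ring
    have e2 : (1 + τ) * (1 + μ) ^ 2 * (1 - δ) * μ ≤ 8 := by
      calc (1 + τ) * (1 + μ) ^ 2 * (1 - δ) * μ ≤ 2 * 4 * 1 * 1 := by
            refine mul_le_mul (mul_le_mul (mul_le_mul (by linarith) hlam4 (by positivity)
              (by norm_num)) (by linarith) hδ' (by norm_num)) hμ1 hμ.le (by norm_num)
        _ = 8 := by norm_num
    rw [e1]
    calc ((1 + τ) * (1 + μ) ^ 2 * (1 - δ) * μ) * (μ * (K * C2)) ≤ 8 * (μ * (K * C2)) :=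
          mul_le_mul_of_nonneg_right e2 a3
      _ ≤ ε / 8 := by linarith only [a3, b3]
  have e0 : (1 + μ - 1) = μ := by ring
  rw [e0]
  have e1 : (1 + τ) * ((1 + μ) ^ 2 * (1 - δ) * ((1 + τ) * ρ + K * (C2 * μ ^ 2))) +
      K * (C1 * (1 / Wn + μ + 1 / L)) =
      (1 - δ) * ρ * ((1 + τ) ^ 2 * (1 + μ) ^ 2) +
      (1 + τ) * ((1 + μ) ^ 2 * (1 - δ) * (K * (C2 * μ ^ 2))) +
      (K * C1 * (1 / Wn) + μ * (K * C1) + K * C1 * (1 / L)) := by ring
  rw [e1]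
  linarith only [a3, b2, b3, c1, c2, d2, d3]

/-- one step.

Proof. `δ = δ0` of `cos_chi`. Let `b, X1` be those of `GoodF` at `ρ`, `C1` of `decomp_dual`, `C2` of
`dual_shell`. Choose `τ ∈ (0, 1]`, then `lam ∈ (1, 2]` close to `1`, then `W0` large such that
`(1+τ)² lam² (1-δ) ρ + (1+τ) lam² (1+1/τ) C2 (lam-1)² + (1+1/τ) C1 (1/W0 + (lam-1)) ≤ (1-δ) ρ + ε/2`.
`c` from `blocks b t0 W0`; new `b' = b/2`. Let `X` be large, `n` from `blocks`, `P = X^c`,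
`X^(1-b/2) ≤ Y ≤ X`, `𝒰` as in `GoodF`. Let `Wn = Wp P (P lam^n) ≥ W0`, `Y_v = Y/(P lam^v)`,
`X^(1-b) ≤ Y_v ≤ X`, `A_v = Ap f k Y_v (2 Y_v/lam)`, `E_k` the expression of `decomp_dual`:
`∑_𝒰 ‖E_k‖² ≤ C1 Y² (1/W0 + (lam-1) + 1/log P)` (`(P lam^n)^8 ≤ X^(4b) ≤ Y`). By `Ap_shell`,
`dual_shell` and `GoodF`: `∑_𝒰 ((P lam^v) ‖A_v‖)² ≤ S := (1+τ) ρ Y² + (1+1/τ) C2 (lam-1)² Y²`.
`step_cs` with `q v k = ‖Qp ..‖/(P lam^v)`, `a v k = (P lam^v) ‖A_v‖`, `w v = ∑_{p ∈ Ip ..} 2/p`,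
`Λ = lam` (`Qp_block`, `cos_chi`, `Ip_split`): the main part is `≤ lam² (1-δ) S`. Conclude by
`‖x + y‖² ≤ (1+τ) ‖x‖² + (1+1/τ) ‖y‖²`. -/
theorem good_step {α η : ℝ} (hD : DualP α η) {W : ℕ} (hW : 1 ≤ W) {χ : ℤ√2 → ℂ} {κ0 : ℝ} {ν : ℕ}
    (h : Tw W χ κ0 ν) : ∃ δ : ℝ, 0 < δ ∧ δ ≤ 1 / 4 ∧ ∀ ρ ε : ℝ, 0 ≤ ρ → 0 < ε →
    GoodF (fx χ κ0) κ0 α ρ → GoodF (fx χ κ0) κ0 α ((1 - δ) * ρ + ε) := by
  have hf := MF_fx h
  obtain ⟨δ, t0, hδ, hδ4, ht0, hcos⟩ := cos_chi hW h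
  refine ⟨δ, hδ, hδ4, ?_⟩
  intro ρ ε hρ hε hG
  obtain ⟨b, Xg, hb, hb8, hXg2, hG⟩ := hG
  obtain ⟨C1, hC1, Xd, hXd2, hdec⟩ := decomp_dual hD
  obtain ⟨C2, hC2, hsh⟩ := dual_shell hD
  obtain ⟨τ, lam, W0, L0, hτ, hl, hl2, hW0, hL0, hpar⟩ :=
    DB9_par hρ hε hC1 hC2 hδ.le (by linarith : δ ≤ 1)
  obtain ⟨c, hc, hcb, hbl⟩ := blocks b t0 W0 hb hb8 ht0 hW0
  obtain ⟨Xb, hXb2, hbl⟩ := hbl lam hl hl2
  obtain ⟨Xs, hXs2, hsh⟩ := hsh lam hl hl2
  obtain ⟨Xc, hXc2, hcos⟩ := hcos c hc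
  refine ⟨b / 2, max (max (max Xg Xd) (max Xb Xs)) (max Xc (Real.exp (L0 / c))), by positivity,
    by linarith only [hb8], (hXg2.trans (le_max_left _ _)).trans ((le_max_left _ _).trans
      (le_max_left _ _)), ?_⟩
  intro X hX Y hY1 hY2 𝒰 h𝒰 hcard
  have gX : Xg ≤ X := ((le_max_left _ _).trans ((le_max_left _ _).trans (le_max_left _ _))).trans hX
  have dX : Xd ≤ X :=
    ((le_max_right _ _).trans ((le_max_left _ _).trans (le_max_left _ _))).trans hX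
  have bX : Xb ≤ X :=
    ((le_max_left _ _).trans ((le_max_right _ _).trans (le_max_left _ _))).trans hX
  have sX : Xs ≤ X :=
    ((le_max_right _ _).trans ((le_max_right _ _).trans (le_max_left _ _))).trans hX
  have cX : Xc ≤ X := ((le_max_left _ _).trans (le_max_right _ _)).trans hX
  have eX : Real.exp (L0 / c) ≤ X := ((le_max_right _ _).trans (le_max_right _ _)).trans hX
  have hX2 : 2 ≤ X := hXg2.trans gX
  have hX1 : 1 ≤ X := by linarith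
  have hX0 : 0 < X := by linarith
  obtain ⟨n, hP2, hPn, hPt, hWn⟩ := hbl X bX
  set P : ℝ := X ^ c with hPd
  have hP0 : 0 < P := by linarith
  have hl0 : 0 < lam := by linarith
  have hYb : X ^ (1 - b / 2) ≤ Y := hY1
  have hY0 : 0 < Y := lt_of_lt_of_le (Real.rpow_pos_of_pos hX0 _) hYb
  have hlog : L0 ≤ Real.log P := by
    rw [hPd, Real.log_rpow hX0]
    have h1 : L0 / c ≤ Real.log X := by
      rw [← Real.log_exp (L0 / c)]
      exact Real.log_le_log (Real.exp_pos _) eX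
    rwa [div_le_iff₀' hc] at h1
  have hW1 : 1 ≤ Wp P (P * lam ^ n) := hW0.trans hWn
  have hY78 : X ^ ((7 : ℝ) / 8) ≤ Y :=
    (Real.rpow_le_rpow_of_exponent_le hX1 (by linarith)).trans hYb
  have hPnX : P * lam ^ n ≤ X := hPn.trans (by
    calc X ^ (b / 2) ≤ X ^ (1 : ℝ) := Real.rpow_le_rpow_of_exponent_le hX1 (by linarith)
      _ = X := Real.rpow_one X)
  have hP8 : (P * lam ^ n) ^ 8 ≤ Y := by
    calc (P * lam ^ n) ^ 8 ≤ (X ^ (b / 2)) ^ 8 := pow_le_pow_left₀ (by positivity) hPn 8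
      _ = X ^ (b / 2 * 8) := by
          rw [← Real.rpow_natCast, ← Real.rpow_mul hX0.le]
          norm_num
      _ ≤ X ^ (1 - b / 2) := Real.rpow_le_rpow_of_exponent_le hX1 (by linarith)
      _ ≤ Y := hYb
  have hU1 : ∀ k ∈ 𝒰, |(k : ℝ)| ≤ X := fun k hk => (h𝒰 k hk).1
  have hlev : ∀ v ∈ Finset.range n, X ^ (1 - b) ≤ Y / (P * lam ^ v) ∧ Y / (P * lam ^ v) ≤ X := by
    intro v hv
    have hPv0 : 0 < P * lam ^ v := by positivity
    have hPv : P * lam ^ v ≤ X ^ (b / 2) :=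
      le_trans (mul_le_mul_of_nonneg_left (pow_le_pow_right₀ hl.le (Finset.mem_range.1 hv).le)
        hP0.le) hPn
    have hPv1 : 1 ≤ P * lam ^ v :=
      one_le_mul_of_one_le_of_one_le (by linarith) (one_le_pow₀ hl.le)
    constructor
    · rw [le_div_iff₀ hPv0]
      calc X ^ (1 - b) * (P * lam ^ v) ≤ X ^ (1 - b) * X ^ (b / 2) :=
            mul_le_mul_of_nonneg_left hPv (Real.rpow_nonneg hX0.le _)
        _ = X ^ (1 - b / 2) := by
            rw [← Real.rpow_add hX0]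
            congr 1
            ring
        _ ≤ Y := hYb
    · exact (div_le_self hY0.le hPv1).trans hY2
  have hmain := DB9_core (E := C1 * Y ^ 2 * (1 / Wp P (P * lam ^ n) + (lam - 1) +
      1 / Real.log P)) (R := C2 * (lam - 1) ^ 2) (δ := δ) (ρ := ρ) (Y := Y) (n := n)
      (𝒰 := 𝒰) hf hτ hP2 hl hl2 hY0 (by linarith) hρ (by positivity) hW1
    (fun k hk => hcos X cX P (P * lam ^ n) le_rfl hPt hPnX k (h𝒰 k hk).2 (h𝒰 k hk).1)
    (hdec X dX Y hY78 hY2 𝒰 hU1 hcard (fx χ κ0) hf P lam n hP2 hl hl2 hP8 hW1)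
    (fun v hv => hG X gX _ (hlev v hv).1 (hlev v hv).2 𝒰 h𝒰 hcard)
    (fun v hv => by
      refine hsh X sX _ ?_ (hlev v hv).2 𝒰 hU1 hcard (fx χ κ0) hf
      exact (Real.rpow_le_rpow_of_exponent_le hX1 (by linarith)).trans (hlev v hv).1)
  refine hmain.trans ?_
  have h1 := hpar (Wp P (P * lam ^ n)) (Real.log P) hWn hlog
  have h2 := mul_le_mul_of_nonneg_right h1 (by positivity : (0 : ℝ) ≤ Y ^ 2)
  refine le_trans (le_of_eq ?_) h2
  ring

end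

end Pool.Agent.Lib.MP_0b748d_nt.HD
end

section

set_option autoImplicit false

/-!
# All frequencies different from zero
-/

namespace Pool.Agent.Lib.MP_0b748d_nt.HD

open Zsqrtd MR

noncomputable section

private theorem DB10_mono {f : ℤ√2 → ℂ} {κ0 α r ρ : ℝ} (hr : r ≤ ρ) (h : GoodF f κ0 α r) :
    GoodF f κ0 α ρ := by
  obtain ⟨b, X0, hb, hb8, hX0, H⟩ := h
  exact ⟨b, X0, hb, hb8, hX0, fun X hX Y hY hYX 𝒰 h1 h2 =>
    (H X hX Y hY hYX 𝒰 h1 h2).trans (mul_le_mul_of_nonneg_right hr (sq_nonneg Y))⟩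

/-- Proof. `good_base`, then iterate `good_step` with `ε' = δ ρ/2`: the numbers
`ρ_{i+1} = (1-δ) ρ_i + δ ρ/2` tend to `ρ/2`. (`GoodF` is monotone in `ρ`.) -/
theorem good_all {α η : ℝ} (hD : DualP α η) {W : ℕ} (hW : 1 ≤ W) {χ : ℤ√2 → ℂ} {κ0 : ℝ} {ν : ℕ}
    (h : Tw W χ κ0 ν) (ρ : ℝ) (hρ : 0 < ρ) : GoodF (fx χ κ0) κ0 α ρ := by
  obtain ⟨ρ0, hρ0, h0⟩ := good_base hD (MF_fx h) κ0
  obtain ⟨δ, hδ0, hδ1, hstep⟩ := good_step hD hW h
  have key : ∀ i : ℕ, ∃ r : ℝ, 0 ≤ r ∧ r ≤ ρ / 2 + (1 - δ) ^ i * ρ0 ∧ GoodF (fx χ κ0) κ0 α r := by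
    intro i
    induction i with
    | zero => exact ⟨ρ0, hρ0.le, by rw [pow_zero]; linarith, h0⟩
    | succ i ih =>
      obtain ⟨r, hr0, hr1, hr2⟩ := ih
      refine ⟨(1 - δ) * r + δ * ρ / 2, ?_, ?_, hstep r (δ * ρ / 2) hr0 (by positivity) hr2⟩
      · have : 0 ≤ (1 - δ) * r := mul_nonneg (by linarith) hr0
        positivity
      · have h1 : (1 - δ) * r ≤ (1 - δ) * (ρ / 2 + (1 - δ) ^ i * ρ0) :=
          mul_le_mul_of_nonneg_left hr1 (by linarith)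
        rw [pow_succ]
        linarith
  have h2 : 0 < ρ / (2 * ρ0) := by positivity
  obtain ⟨i, hi⟩ := exists_pow_lt_of_lt_one h2 (show 1 - δ < 1 by linarith)
  obtain ⟨r, hr0, hr1, hr2⟩ := key i
  refine DB10_mono (hr1.trans ?_) hr2
  have h3 : (1 - δ) ^ i * ρ0 < ρ / (2 * ρ0) * ρ0 := mul_lt_mul_of_pos_right hi hρ0
  have h4 : ρ / (2 * ρ0) * ρ0 = ρ / 2 := by
    field_simp
  linarith

end

end Pool.Agent.Lib.MP_0b748d_nt.HD
end

section

set_option autoImplicit false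

/-!
# The mean square over all frequencies
-/

namespace Pool.Agent.Lib.MP_0b748d_nt.HD

open Zsqrtd MR

noncomputable section

/-- Proof. `dual_gen` gives `α, η`; `lower_levels α R (ε/3)` for `f = fx χ κ0` (`MF_fx`) gives `𝒰`; for
`ℓ ≥ max ℓ0 R` all `k ∈ 𝒰` satisfy `|k| ≤ K ≤ X`. The `k ∈ 𝒰` with `k + κ0 ≠ 0` carry at most
`(ε/3) X²` by `good_all` (`Y = X`). If `k + κ0 = 0` (at most one `k`) then `κ0` is an integer,
`χ uu = 1`, `Ap f k X (2X) = ∑_{Us} fx χ 0` (`fx_xi`), at most `√(ε/3) X` by `U_zero` for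
`Tw W χ 0 ν`. -/
theorem mr_chi {W : ℕ} (hW : 1 ≤ W) (hW2 : W % 2 = 0) {χ : ℤ√2 → ℂ} {κ0 : ℝ} {ν : ℕ}
    (h : Tw W χ κ0 ν) (R ε : ℝ) (hR : 1 ≤ R) (hε : 0 < ε) : ∃ l0 : ℝ, 1 ≤ l0 ∧ ∀ l : ℝ, l0 ≤ l →
    ∃ X0 : ℝ, 1 ≤ X0 ∧ ∀ X : ℝ, X0 ≤ X → ∀ K : ℕ, (K : ℝ) ≤ R * X / l →
    ∑ k ∈ Ik K, ‖Ap (fx χ κ0) k X (2 * X)‖ ^ 2 ≤ ε * X ^ 2 := by
  classical
  obtain ⟨α, η, hD⟩ := dual_gen
  have hα : 0 < α := hD.1
  have hα1 : α ≤ 1 / 4 := hD.2.1
  obtain ⟨b, X1, hb, hb8, hX1, hgood⟩ := good_all hD hW h (ε / 3) (by positivity)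
  obtain ⟨l0, hl0, hlow⟩ := lower_levels α R (ε / 3) hα hα1 hR (by positivity)
  -- the exceptional frequency
  have hzero : ∃ X2 : ℝ, 1 ≤ X2 ∧ ∀ X : ℝ, X2 ≤ X → ∀ k : ℤ, (k : ℝ) + κ0 = 0 →
      ‖Ap (fx χ κ0) k X (2 * X)‖ ^ 2 ≤ ε / 3 * X ^ 2 := by
    by_cases hk : ∃ k0 : ℤ, (k0 : ℝ) + κ0 = 0
    · obtain ⟨k0, hk0⟩ := hk
      have hκ : κ0 = ((-k0 : ℤ) : ℝ) := by
        push_cast
        linarith
      have hee : ee κ0 = 1 := by
        rw [hκ]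
        exact ee_int _
      have hTw : Tw W χ 0 ν := by
        refine ⟨h.hc, ?_, h.pos, h.pow, 0, by simp⟩
        have h1 := h.un
        rw [hee] at h1
        rw [ee_zero]
        exact h1
      obtain ⟨X2, hX2, hU⟩ := U_zero hW hW2 hTw (√(ε / 3)) (Real.sqrt_pos.2 (by positivity))
      refine ⟨X2, hX2, fun X hX k hk => ?_⟩
      have h1 : Ap (fx χ κ0) k X (2 * X) = ∑ z ∈ Us X (2 * X), fx χ 0 z := by
        unfold Ap
        refine Finset.sum_congr rfl fun z _ => ?_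
        rw [fx_xi hk z]
        unfold fx
        rw [zero_mul, ee_zero, mul_one]
      have h2 := hU X hX
      rw [h1]
      have h3 : (0 : ℝ) ≤ ε / 3 := by positivity
      calc ‖∑ z ∈ Us X (2 * X), fx χ 0 z‖ ^ 2 ≤ (√(ε / 3) * X) ^ 2 :=
            pow_le_pow_left₀ (norm_nonneg _) h2 2
        _ = ε / 3 * X ^ 2 := by rw [mul_pow, Real.sq_sqrt h3]
    · exact ⟨1, le_rfl, fun X _ k hk' => absurd ⟨k, hk'⟩ hk⟩
  obtain ⟨X2, hX2, hzero⟩ := hzero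
  refine ⟨max l0 R, hl0.trans (le_max_left _ _), fun l hl => ?_⟩
  have hl1 : l0 ≤ l := (le_max_left _ _).trans hl
  have hl2 : R ≤ l := (le_max_right _ _).trans hl
  have hl0' : 0 < l := by linarith
  obtain ⟨X3, hX3, hlow⟩ := hlow l hl1
  refine ⟨max X1 (max X2 X3), hX2.trans ((le_max_left _ _).trans (le_max_right _ _)),
    fun X hX K hK => ?_⟩
  have hXX1 : X1 ≤ X := (le_max_left _ _).trans hX
  have hXX2 : X2 ≤ X := (le_max_left _ _).trans ((le_max_right _ _).trans hX)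
  have hXX3 : X3 ≤ X := (le_max_right _ _).trans ((le_max_right _ _).trans hX)
  have hXone : 1 ≤ X := hX2.trans hXX2
  have hX0 : 0 < X := by linarith
  obtain ⟨𝒰, h𝒰, hcard, hsum⟩ := hlow X hXX3 (fx χ κ0) (MF_fx h) K hK
  have hKX : (K : ℝ) ≤ X := by
    refine hK.trans ?_
    rw [div_le_iff₀ hl0']
    nlinarith
  have hY : X ^ (1 - b) ≤ X := by
    calc X ^ (1 - b) ≤ X ^ (1 : ℝ) := Real.rpow_le_rpow_of_exponent_le hXone (by linarith)
      _ = X := Real.rpow_one X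
  have hg := hgood X hXX1 X hY le_rfl (𝒰.filter (fun k : ℤ => (k : ℝ) + κ0 ≠ 0)) (by
    intro k hk
    rw [Finset.mem_filter] at hk
    refine ⟨?_, hk.2⟩
    have h1 := h𝒰 hk.1
    rw [Ik, Finset.mem_Icc] at h1
    have h2 : |k| ≤ (K : ℤ) := abs_le.2 h1
    have h3 : |(k : ℝ)| ≤ (K : ℝ) := by exact_mod_cast h2
    exact h3.trans hKX) (le_trans (by
      exact_mod_cast Finset.card_le_card (Finset.filter_subset _ _)) hcard)
  have hz : ∑ k ∈ 𝒰.filter (fun k : ℤ => ¬ ((k : ℝ) + κ0 ≠ 0)),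
      ‖Ap (fx χ κ0) k X (2 * X)‖ ^ 2 ≤ ε / 3 * X ^ 2 := by
    have h1 : (𝒰.filter (fun k : ℤ => ¬ ((k : ℝ) + κ0 ≠ 0))).card ≤ 1 := by
      rw [Finset.card_le_one]
      intro k hk k' hk'
      rw [Finset.mem_filter, not_not] at hk hk'
      have : (k : ℝ) = k' := by linarith [hk.2, hk'.2]
      exact_mod_cast this
    have h1' : ((𝒰.filter (fun k : ℤ => ¬ ((k : ℝ) + κ0 ≠ 0))).card : ℝ) ≤ 1 := by
      exact_mod_cast h1
    calc _ ≤ ∑ k ∈ 𝒰.filter (fun k : ℤ => ¬ ((k : ℝ) + κ0 ≠ 0)), ε / 3 * X ^ 2 := by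
          refine Finset.sum_le_sum fun k hk => ?_
          rw [Finset.mem_filter, not_not] at hk
          exact hzero X hXX2 k hk.2
      _ = ((𝒰.filter (fun k : ℤ => ¬ ((k : ℝ) + κ0 ≠ 0))).card : ℝ) * (ε / 3 * X ^ 2) := by
          rw [Finset.sum_const, nsmul_eq_mul]
      _ ≤ 1 * (ε / 3 * X ^ 2) := mul_le_mul_of_nonneg_right h1' (by positivity)
      _ = _ := one_mul _
  have hsplit : ∑ k ∈ Ik K, ‖Ap (fx χ κ0) k X (2 * X)‖ ^ 2 =
      ∑ k ∈ Ik K \ 𝒰, ‖Ap (fx χ κ0) k X (2 * X)‖ ^ 2 +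
      ∑ k ∈ 𝒰, ‖Ap (fx χ κ0) k X (2 * X)‖ ^ 2 := (Finset.sum_sdiff h𝒰).symm
  have hsplit2 := Finset.sum_filter_add_sum_filter_not 𝒰 (fun k : ℤ => (k : ℝ) + κ0 ≠ 0)
    (fun k => ‖Ap (fx χ κ0) k X (2 * X)‖ ^ 2)
  linarith

end

end Pool.Agent.Lib.MP_0b748d_nt.HD
end

section

set_option autoImplicit false

/-!
# Windows, dyadic norms
-/

namespace Pool.Agent.Lib.MP_0b748d_nt.HD

open Zsqrtd MR

noncomputable section

open Classical in
/-- Proof. `win_sq` with `h = l/X`, `K = ⌊R X/l⌋ ≥ R X/(2 l)`, `R` large, and `mr_chi R (ε/4)`: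
`≤ 2 (l/X)² (ε/4) X² + C (2 l/(R X) + 4 l²/(R² X)) X ≤ ε l²` if `R ≥ 32 C/ε`, `R ≥ 1`, `l ≥ 1`. -/
theorem win_l2 {W : ℕ} (hW : 1 ≤ W) (hW2 : W % 2 = 0) {χ : ℤ√2 → ℂ} {κ0 : ℝ} {ν : ℕ}
    (h : Tw W χ κ0 ν) (ε : ℝ) (hε : 0 < ε) : ∃ l0 : ℝ, 1 ≤ l0 ∧ ∀ l : ℝ, l0 ≤ l →
    ∃ X0 : ℝ, l ≤ X0 ∧ ∀ X : ℝ, X0 ≤ X →
    ∫ θ in (0 : ℝ)..1, ‖∑ z ∈ (Us X (2 * X)).filter (Win θ (l / X)), fx χ κ0 z‖ ^ 2 ≤
      ε * l ^ 2 := by
  obtain ⟨C, hC1, hC⟩ := win_sq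
  obtain ⟨R, hR1, hR⟩ : ∃ R : ℝ, 1 ≤ R ∧ 12 * C ≤ ε * R := by
    refine ⟨max 1 (12 * C / ε), le_max_left _ _, ?_⟩
    have h1 : 12 * C / ε ≤ max 1 (12 * C / ε) := le_max_right _ _
    rw [div_le_iff₀ hε] at h1
    linarith
  obtain ⟨l0, hl0, hl⟩ := mr_chi hW hW2 h R (ε / 4) hR1 (by linarith)
  refine ⟨l0, hl0, fun l hll => ?_⟩
  obtain ⟨X0, hX0, hX⟩ := hl l hll
  refine ⟨max l X0, le_max_left _ _, fun X hXX => ?_⟩
  have hl1 : 1 ≤ l := hl0.trans hll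
  have hlX : l ≤ X := (le_max_left _ _).trans hXX
  have hX1 : 1 ≤ X := hl1.trans hlX
  have hXpos : 0 < X := by linarith
  have hlpos : 0 < l := by linarith
  have hRpos : 0 < R := by linarith
  have hx1 : 1 ≤ R * X / l := by
    rw [le_div_iff₀ hlpos]
    nlinarith
  have hK1 : 1 ≤ ⌊R * X / l⌋₊ := by
    rw [Nat.one_le_floor_iff]
    exact hx1
  have hKle : ((⌊R * X / l⌋₊ : ℕ) : ℝ) ≤ R * X / l := Nat.floor_le (by linarith)
  have hKge : R * X / (2 * l) ≤ ((⌊R * X / l⌋₊ : ℕ) : ℝ) := by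
    have h1 : R * X / l < ((⌊R * X / l⌋₊ : ℕ) : ℝ) + 1 := Nat.lt_floor_add_one _
    have h2 : (1 : ℝ) ≤ ((⌊R * X / l⌋₊ : ℕ) : ℝ) := by exact_mod_cast hK1
    have h3 : R * X / (2 * l) = R * X / l / 2 := by
      field_simp
    rw [h3]
    linarith
  have h4 := hC (fx χ κ0) (MF_fx h) X ⌊R * X / l⌋₊ (l / X) hX1 hK1 (div_pos hlpos hXpos)
    ((div_le_one hXpos).2 hlX)
  have h5 := hX X ((le_max_right _ _).trans hXX) ⌊R * X / l⌋₊ hKle
  refine h4.trans ?_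
  have h6 : 2 * (l / X) ^ 2 * ∑ k ∈ Ik ⌊R * X / l⌋₊, ‖Ap (fx χ κ0) k X (2 * X)‖ ^ 2 ≤
      ε / 2 * l ^ 2 := by
    calc 2 * (l / X) ^ 2 * ∑ k ∈ Ik ⌊R * X / l⌋₊, ‖Ap (fx χ κ0) k X (2 * X)‖ ^ 2
        ≤ 2 * (l / X) ^ 2 * (ε / 4 * X ^ 2) :=
          mul_le_mul_of_nonneg_left h5 (by positivity)
      _ = ε / 2 * l ^ 2 := by
          field_simp
          ring
  have hKpos : 0 < R * X / (2 * l) := by positivity
  have h7 : 1 / ((⌊R * X / l⌋₊ : ℕ) : ℝ) ≤ 2 * l / (R * X) := by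
    have h8 := one_div_le_one_div_of_le hKpos hKge
    rwa [one_div_div] at h8
  have h8 : X / ((⌊R * X / l⌋₊ : ℕ) : ℝ) ^ 2 ≤ X * (2 * l / (R * X)) ^ 2 := by
    have h9 : X / ((⌊R * X / l⌋₊ : ℕ) : ℝ) ^ 2 = X * (1 / ((⌊R * X / l⌋₊ : ℕ) : ℝ)) ^ 2 := by
      field_simp
    rw [h9]
    exact mul_le_mul_of_nonneg_left (pow_le_pow_left₀ (by positivity) h7 2) hXpos.le
  have h9 : C * (1 / ((⌊R * X / l⌋₊ : ℕ) : ℝ) + X / ((⌊R * X / l⌋₊ : ℕ) : ℝ) ^ 2) * X ≤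
      ε / 2 * l ^ 2 := by
    calc C * (1 / ((⌊R * X / l⌋₊ : ℕ) : ℝ) + X / ((⌊R * X / l⌋₊ : ℕ) : ℝ) ^ 2) * X
        ≤ C * (2 * l / (R * X) + X * (2 * l / (R * X)) ^ 2) * X := by
          apply mul_le_mul_of_nonneg_right _ hXpos.le
          apply mul_le_mul_of_nonneg_left _ (by linarith)
          linarith
      _ = C * (2 * l / R + 4 * l ^ 2 / R ^ 2) := by
          field_simp
          ring
      _ ≤ C * (6 * l ^ 2 / R) := by
          apply mul_le_mul_of_nonneg_left _ (by linarith)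
          have h10 : 2 * l / R ≤ 2 * l ^ 2 / R := by
            apply div_le_div_of_nonneg_right _ hRpos.le
            nlinarith
          have h11 : 4 * l ^ 2 / R ^ 2 ≤ 4 * l ^ 2 / R := by
            apply div_le_div_of_nonneg_left (by positivity) hRpos
            nlinarith
          have h12 : 6 * l ^ 2 / R = 2 * l ^ 2 / R + 4 * l ^ 2 / R := by ring
          rw [h12]
          linarith
      _ ≤ ε / 2 * l ^ 2 := by
          have h13 : C * (6 * l ^ 2 / R) = 12 * C * (l ^ 2 / 2) / R := by ring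
          rw [h13, div_le_iff₀ hRpos]
          have h14 : 0 ≤ l ^ 2 / 2 := by positivity
          nlinarith [mul_le_mul_of_nonneg_right hR h14]
  linarith

end

end Pool.Agent.Lib.MP_0b748d_nt.HD
end

section

set_option autoImplicit false

/-!
# Windows, all norms
-/

namespace Pool.Agent.Lib.MP_0b748d_nt.HD

open Zsqrtd MR

noncomputable section

open Classical in
/-- mean of the modulus of the sum over a window -/
private def mI (φ : ℤ√2 → ℂ) (h a b : ℝ) : ℝ :=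
  ∫ θ in (0 : ℝ)..1, ‖∑ z ∈ (Us a b).filter (Win θ h), φ z‖

open Classical in
private theorem mI_split (φ : ℤ√2 → ℂ) (h : ℝ) {a b : ℝ} (h0 : 0 ≤ a) (h1 : a ≤ b) :
    mI φ h 0 b ≤ mI φ h 0 a + mI φ h a b := by
  have e1 := (int_Win (Us 0 a) h φ 0 1).1
  have e2 := (int_Win (Us a b) h φ 0 1).1
  have e3 := (int_Win (Us 0 b) h φ 0 1).1
  unfold mI
  rw [← intervalIntegral.integral_add e1 e2]
  refine intervalIntegral.integral_mono_on zero_le_one e3 (e1.add e2) fun θ _ => ?_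
  have e4 := Us_split (fun z => if Win θ h z then φ z else 0) h0 h1
  simp only [Finset.sum_filter]
  rw [e4]
  exact norm_add_le _ _

private theorem mI_iter (φ : ℤ√2 → ℂ) (h : ℝ) {X : ℝ} (hX : 0 ≤ X) (J : ℕ) :
    mI φ h 0 X ≤ ∑ j ∈ Finset.range J, mI φ h (X / 2 ^ (j + 1)) (2 * (X / 2 ^ (j + 1))) +
      mI φ h 0 (X / 2 ^ J) := by
  induction J with
  | zero => simp
  | succ J ih =>
    have e0 : (0 : ℝ) ≤ X / 2 ^ (J + 1) := by positivity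
    have e1 : X / 2 ^ J = 2 * (X / 2 ^ (J + 1)) := by
      rw [pow_succ]
      field_simp
    have e2 := mI_split φ h e0 (show X / 2 ^ (J + 1) ≤ 2 * (X / 2 ^ (J + 1)) by linarith)
    rw [Finset.sum_range_succ]
    rw [← e1] at e2 ⊢
    linarith

open Classical in
private theorem mI_sq (φ : ℤ√2 → ℂ) (h a b A : ℝ) (hA : 0 < A)
    (H : ∫ θ in (0 : ℝ)..1, ‖∑ z ∈ (Us a b).filter (Win θ h), φ z‖ ^ 2 ≤ A ^ 2) :
    mI φ h a b ≤ A := by
  obtain ⟨e1, e2⟩ := int_Win (Us a b) h φ 0 1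
  have e3 : mI φ h a b ≤ ∫ θ in (0 : ℝ)..1,
      ((1 / (2 * A)) * ‖∑ z ∈ (Us a b).filter (Win θ h), φ z‖ ^ 2 + A / 2) := by
    unfold mI
    refine intervalIntegral.integral_mono_on zero_le_one e1
      ((e2.const_mul _).add intervalIntegrable_const) fun θ _ => ?_
    set x : ℝ := ‖∑ z ∈ (Us a b).filter (Win θ h), φ z‖ with hx
    have e4 : (1 / (2 * A)) * x ^ 2 + A / 2 - x = (x - A) ^ 2 / (2 * A) := by
      field_simp
      ring
    have e5 : 0 ≤ (x - A) ^ 2 / (2 * A) := by positivity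
    have e6 : x ≤ (1 / (2 * A)) * x ^ 2 + A / 2 := by linarith
    exact e6
  rw [intervalIntegral.integral_add (e2.const_mul _) intervalIntegrable_const,
    intervalIntegral.integral_const_mul] at e3
  have e7 := H
  have e8 : (1 / (2 * A)) * ∫ θ in (0 : ℝ)..1, ‖∑ z ∈ (Us a b).filter (Win θ h), φ z‖ ^ 2 ≤
      A / 2 := by
    calc _ ≤ (1 / (2 * A)) * A ^ 2 := mul_le_mul_of_nonneg_left e7 (by positivity)
      _ = A / 2 := by field_simp
  simp only [intervalIntegral.integral_const, sub_zero, smul_eq_mul, one_mul] at e3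
  linarith

open Classical in
private theorem mI_triv (φ : ℤ√2 → ℂ) (hφ : ∀ z, OT z → ‖φ z‖ ≤ 1) (C : ℝ)
    (hC : ∀ a b : ℝ, 0 ≤ a → 0 ≤ b → ((Us a b).card : ℝ) ≤ C * b) (h Y : ℝ) (h0 : 0 < h)
    (h1 : h ≤ 1) (hY : 0 ≤ Y) : mI φ h 0 Y ≤ h * (C * Y) := by
  have e1 := (int_Win (Us 0 Y) h φ 0 1).1
  have e2 := (int_Win (Us 0 Y) h (fun _ => 1) 0 1).1
  have e3 : mI φ h 0 Y ≤ ∫ θ in (0 : ℝ)..1, (((Us 0 Y).filter (Win θ h)).card : ℝ) := by
    unfold mI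
    refine intervalIntegral.integral_mono_on zero_le_one e1 ?_ fun θ _ => ?_
    · refine e2.congr ?_
      intro θ _
      simp
    · have e4 : ‖∑ z ∈ (Us 0 Y).filter (Win θ h), φ z‖ ≤
          (((Us 0 Y).filter (Win θ h)).card : ℝ) := by
        refine (norm_sum_le_of_le (f := fun z => φ z) (n := fun _ => (1 : ℝ)) _ fun z hz => ?_).trans
          (le_of_eq ?_)
        · rw [Finset.mem_filter, mem_Us] at hz
          exact hφ z hz.1.1.1
        · simp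
      exact e4
  rw [window_mean (Us 0 Y) h h0 h1] at e3
  exact e3.trans (mul_le_mul_of_nonneg_left (hC 0 Y le_rfl hY) h0.le)

open Classical in
/-- Proof. `Us 0 X` is the union of `Us (X/2^(j+1)) (X/2^j)`, `j < J`, and `Us 0 (X/2^J)` (`Us_split`).
With `X_j = X/2^(j+1)`, `l_j = l/2^(j+1)`, `l/X = l_j/X_j`: for `l ≥ 2^J l0'` the piece `j` is at most
`√ε' l_j` in mean (Cauchy-Schwarz and `win_l2` with `ε'`), total `≤ √ε' l`. The rest is at most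
`∫ #{z ∈ Us 0 (X/2^J) : Win θ (l/X) z} dθ ≤ (l/X) #Us 0 (X/2^J) ≤ C l/2^J` (the measure of
`{θ ∈ [0,1] : Win θ h z}` is `h`; see `window_card` in `MR`, `U_le`). Take `2^J ≥ 2 C/ε`,
`√ε' ≤ ε/2`. -/
theorem win_l1 {W : ℕ} (hW : 1 ≤ W) (hW2 : W % 2 = 0) {χ : ℤ√2 → ℂ} {κ0 : ℝ} {ν : ℕ}
    (h : Tw W χ κ0 ν) (ε : ℝ) (hε : 0 < ε) : ∃ l0 : ℝ, 1 ≤ l0 ∧ ∀ l : ℝ, l0 ≤ l →
    ∃ X0 : ℝ, l ≤ X0 ∧ ∀ X : ℝ, X0 ≤ X →
    ∫ θ in (0 : ℝ)..1, ‖∑ z ∈ (Us 0 X).filter (Win θ (l / X)), fx χ κ0 z‖ ≤ ε * l := by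
  obtain ⟨C, hC1, hC⟩ := U_le
  obtain ⟨l1, hl1, H⟩ := win_l2 hW hW2 h ((ε / 2) ^ 2) (by positivity)
  obtain ⟨J, hJ⟩ := pow_unbounded_of_one_lt (2 * C / ε) (one_lt_two : (1 : ℝ) < 2)
  choose! X1 hX1 H1 using H
  refine ⟨2 ^ J * l1, ?_, fun l hl => ?_⟩
  · have : (1 : ℝ) ≤ 2 ^ J := one_le_pow₀ one_le_two
    nlinarith
  have hl0 : 0 < l := by
    have : (0 : ℝ) < 2 ^ J := by positivity
    nlinarith
  have hlj : ∀ j ∈ Finset.range J, l1 ≤ l / 2 ^ (j + 1) := by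
    intro j hj
    rw [Finset.mem_range] at hj
    rw [le_div_iff₀ (by positivity)]
    have e1 : (2 : ℝ) ^ (j + 1) ≤ 2 ^ J := pow_le_pow_right₀ one_le_two hj
    nlinarith
  refine ⟨l + ∑ j ∈ Finset.range J, 2 ^ (j + 1) * X1 (l / 2 ^ (j + 1)), ?_, fun X hX => ?_⟩
  · have : 0 ≤ ∑ j ∈ Finset.range J, 2 ^ (j + 1) * X1 (l / 2 ^ (j + 1)) := by
      refine Finset.sum_nonneg fun j hj => ?_
      have e1 := hlj j hj
      have e2 := hX1 _ e1
      have : 0 ≤ X1 (l / 2 ^ (j + 1)) := by linarith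
      positivity
    linarith
  have hnn : ∀ j ∈ Finset.range J, 0 ≤ 2 ^ (j + 1) * X1 (l / 2 ^ (j + 1)) := by
    intro j hj
    have e1 := hlj j hj
    have e2 := hX1 _ e1
    have : 0 ≤ X1 (l / 2 ^ (j + 1)) := by linarith
    positivity
  have hXl : l ≤ X := by
    have := Finset.sum_nonneg hnn
    linarith
  have hX0 : 0 < X := hl0.trans_le hXl
  have hh0 : 0 < l / X := by positivity
  have hh1 : l / X ≤ 1 := (div_le_one hX0).2 hXl
  have hXj : ∀ j ∈ Finset.range J, X1 (l / 2 ^ (j + 1)) ≤ X / 2 ^ (j + 1) := by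
    intro j hj
    rw [le_div_iff₀ (by positivity)]
    have e1 := Finset.single_le_sum hnn hj
    linarith
  have hpiece : ∀ j ∈ Finset.range J,
      mI (fx χ κ0) (l / X) (X / 2 ^ (j + 1)) (2 * (X / 2 ^ (j + 1))) ≤
        ε / 2 * (l / 2 ^ (j + 1)) := by
    intro j hj
    have e1 := H1 _ (hlj j hj) _ (hXj j hj)
    have e2 : l / 2 ^ (j + 1) / (X / 2 ^ (j + 1)) = l / X := by
      field_simp
    rw [e2, ← mul_pow] at e1
    exact mI_sq _ _ _ _ _ (by positivity) e1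
  have hrest := mI_triv (fx χ κ0) (MF_fx h).le C hC (l / X) (X / 2 ^ J) hh0 hh1 (by positivity)
  have hall := mI_iter (fx χ κ0) (l / X) hX0.le J
  have hsum : ∑ j ∈ Finset.range J, ε / 2 * (l / 2 ^ (j + 1)) ≤ ε / 2 * l := by
    have e1 : ∀ K : ℕ, ∑ j ∈ Finset.range K, ε / 2 * (l / 2 ^ (j + 1)) =
        ε / 2 * l * (1 - 1 / 2 ^ K) := by
      intro K
      induction K with
      | zero => simp
      | succ K ih =>
        rw [Finset.sum_range_succ, ih, pow_succ]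
        field_simp
        ring
    rw [e1 J]
    have e2 : (0 : ℝ) < 1 / 2 ^ J := by positivity
    have e3 : 0 < ε / 2 * l := by positivity
    nlinarith
  have e5 : l / X * (C * (X / 2 ^ J)) ≤ ε / 2 * l := by
    have e6 : l / X * (C * (X / 2 ^ J)) = l * (C / 2 ^ J) := by
      field_simp
    rw [e6]
    have e7 : C / 2 ^ J ≤ ε / 2 := by
      rw [div_le_iff₀ (by positivity)]
      rw [div_lt_iff₀ hε] at hJ
      nlinarith
    nlinarith
  have e8 := Finset.sum_le_sum hpiece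
  have e9 : ∫ θ in (0 : ℝ)..1, ‖∑ z ∈ (Us 0 X).filter (Win θ (l / X)), fx χ κ0 z‖ =
      mI (fx χ κ0) (l / X) 0 X := by
    unfold mI
    rfl
  rw [e9]
  linarith

end

end Pool.Agent.Lib.MP_0b748d_nt.HD
end

section

set_option autoImplicit false

/-!
# Windows, characters
-/

namespace Pool.Agent.Lib.MP_0b748d_nt.HD

open Zsqrtd MR

noncomputable section

private theorem de9_ee_sub_le (x y : ℝ) : ‖ee x - ee y‖ ≤ 8 * |x - y| := by
  have h1 : ee x - ee y = ee y * (ee (x - y) - 1) := by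
    rw [mul_sub, mul_one, ← ee_add]
    congr 2
    ring
  have h2 : ‖ee y‖ = 1 := by
    unfold ee
    have : (2 * Real.pi * (y : ℂ) * Complex.I) = ((2 * Real.pi * y : ℝ) : ℂ) * Complex.I := by
      push_cast
      ring
    rw [this, Complex.norm_exp_ofReal_mul_I]
  have h3 : ‖ee (x - y) - 1‖ ≤ |2 * Real.pi * (x - y)| := by
    unfold ee
    have : (2 * Real.pi * ((x - y : ℝ) : ℂ) * Complex.I) =
        Complex.I * ((2 * Real.pi * (x - y) : ℝ) : ℂ) := by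
      push_cast
      ring
    rw [this]
    have := Real.norm_exp_I_mul_ofReal_sub_one_le (x := 2 * Real.pi * (x - y))
    rwa [Real.norm_eq_abs] at this
  rw [h1, _root_.norm_mul, h2, one_mul]
  refine h3.trans ?_
  rw [abs_mul, abs_of_nonneg (by positivity)]
  have h4 : 2 * Real.pi ≤ 8 := by
    have := Real.pi_lt_four
    linarith
  exact mul_le_mul_of_nonneg_right h4 (abs_nonneg _)

/-- Proof. `exists_Tw` gives `κ0 ∈ [0, 1)`, `f = fx χ κ0`. For `z ∈ Pz X (θ - s) h`: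
`lz z χ z = f z ee (-κ0 al z)` and `‖ee (-κ0 al z) - ee (-κ0 (θ - s))‖ ≤ 2 π h`. So the norm of the sum is
at most `‖∑_{Pz} f‖ + 2 π h #Pz`. The first term is, by `Pz_sum`, a function of `θ - s` of period `1`
(`Win` depends only on `θ` modulo `1`), so its integral over `[0, 1]` does not depend on `s`
(`Function.Periodic.intervalIntegral_add_eq`) and is `≤ (ε/2) l` by `win_l1`. The second one is
`≤ 2 π h C h X = 2 π C l²/X` in mean (`Pz_card`). -/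
theorem win_chi {W : ℕ} (hW : 1 ≤ W) (hW2 : W % 2 = 0) {χ : ℤ√2 → ℂ} (h : Hc W χ) (ε : ℝ)
    (hε : 0 < ε) : ∃ l0 : ℝ, 1 ≤ l0 ∧ ∀ l : ℝ, l0 ≤ l → ∃ X0 : ℝ, l ≤ X0 ∧ ∀ X : ℝ, X0 ≤ X →
    ∀ s : ℝ, 0 ≤ s → s ≤ 1 →
    ∫ θ in (0 : ℝ)..1, ‖∑ z ∈ Pz X (θ - s) (l / X), lz z * χ z‖ ≤ ε * l := by
  classical
  obtain ⟨κ0, ν, hκ0, hκ1, hT⟩ := exists_Tw hW h
  have hMF : MF (fx χ κ0) := MF_fx hT
  obtain ⟨C, hC1, hC⟩ := Pz_card
  obtain ⟨l0, hl0, H⟩ := win_l1 hW hW2 hT (ε / 2) (by positivity)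
  refine ⟨l0, hl0, fun l hl => ?_⟩
  obtain ⟨X1, hX1, H1⟩ := H l hl
  have hl1 : 0 < l := by linarith
  refine ⟨max X1 (16 * C * l / ε), hX1.trans (le_max_left _ _), fun X hX s hs0 hs1 => ?_⟩
  have hXX1 : X1 ≤ X := (le_max_left _ _).trans hX
  have hXX2 : 16 * C * l / ε ≤ X := (le_max_right _ _).trans hX
  have hlX : l ≤ X := hX1.trans hXX1
  have hX0 : 0 < X := by linarith
  obtain ⟨η, hη⟩ : ∃ η : ℝ, η = l / X := ⟨_, rfl⟩
  have hη0 : 0 < η := by rw [hη]; positivity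
  have hη1 : η ≤ 1 := by rw [hη]; exact (div_le_one hX0).2 hlX
  rw [← hη]
  -- pointwise bound
  have hpt : ∀ θ : ℝ, 0 ≤ θ → θ ≤ 1 → ‖∑ z ∈ Pz X (θ - s) η, lz z * χ z‖ ≤
      ‖∑ z ∈ Pz X (θ - s) η, fx χ κ0 z‖ + 8 * η * ((Pz X (θ - s) η).card : ℝ) := by
    intro θ hθ0 hθ1
    have h1 : ∑ z ∈ Pz X (θ - s) η, lz z * χ z =
        ee (-κ0 * (θ - s)) * ∑ z ∈ Pz X (θ - s) η, fx χ κ0 z +
        ∑ z ∈ Pz X (θ - s) η, fx χ κ0 z * (ee (-κ0 * al z) - ee (-κ0 * (θ - s))) := by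
      rw [Finset.mul_sum, ← Finset.sum_add_distrib]
      refine Finset.sum_congr rfl fun z _ => ?_
      have h2 : lz z * χ z = fx χ κ0 z * ee (-κ0 * al z) := by
        unfold fx
        rw [mul_assoc (lz z * χ z), ← ee_add]
        have h3 : κ0 * al z + -κ0 * al z = 0 := by ring
        rw [h3, ee_zero, mul_one]
      rw [h2]
      ring
    have hn : ‖ee (-κ0 * (θ - s))‖ = 1 := by
      unfold ee
      have : (2 * Real.pi * ((-κ0 * (θ - s) : ℝ) : ℂ) * Complex.I) =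
          ((2 * Real.pi * (-κ0 * (θ - s)) : ℝ) : ℂ) * Complex.I := by
        push_cast
        ring
      rw [this, Complex.norm_exp_ofReal_mul_I]
    have h4 : ‖∑ z ∈ Pz X (θ - s) η, fx χ κ0 z * (ee (-κ0 * al z) - ee (-κ0 * (θ - s)))‖ ≤
        8 * η * ((Pz X (θ - s) η).card : ℝ) := by
      refine (norm_sum_le_of_le (n := fun _ => 8 * η) _ fun z hz => ?_).trans (le_of_eq ?_)
      · rw [mem_Pz (by linarith) (by linarith) hη1] at hz
        obtain ⟨hO, -, -, ha1, ha2⟩ := hz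
        rw [_root_.norm_mul]
        have h5 := hMF.le z hO
        have h6 := de9_ee_sub_le (-κ0 * al z) (-κ0 * (θ - s))
        have h7 : |-κ0 * al z - -κ0 * (θ - s)| ≤ η := by
          have h8 : -κ0 * al z - -κ0 * (θ - s) = -(κ0 * (al z - (θ - s))) := by ring
          rw [h8, abs_neg, abs_mul, abs_of_nonneg hκ0, abs_of_nonneg (by linarith)]
          calc κ0 * (al z - (θ - s)) ≤ 1 * η :=
                mul_le_mul hκ1.le (by linarith) (by linarith) zero_le_one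
            _ = η := one_mul η
        calc ‖fx χ κ0 z‖ * ‖ee (-κ0 * al z) - ee (-κ0 * (θ - s))‖
            ≤ 1 * (8 * η) := mul_le_mul h5 (h6.trans (by linarith)) (norm_nonneg _) zero_le_one
          _ = 8 * η := one_mul _
      · rw [Finset.sum_const, nsmul_eq_mul]
        ring
    rw [h1]
    refine (norm_add_le _ _).trans ?_
    rw [_root_.norm_mul, hn, one_mul]
    linarith
  have i1 : IntervalIntegrable (fun θ => ‖∑ z ∈ Pz X (θ - s) η, lz z * χ z‖)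
      MeasureTheory.volume 0 1 :=
    int_Pz (fun _ z => lz z * χ z) (fun _ => continuous_const) X s η 0 1
  have i2 : IntervalIntegrable (fun θ => ‖∑ z ∈ Pz X (θ - s) η, fx χ κ0 z‖)
      MeasureTheory.volume 0 1 :=
    int_Pz (fun _ z => fx χ κ0 z) (fun _ => continuous_const) X s η 0 1
  have i3 : IntervalIntegrable (fun θ => ((Pz X (θ - s) η).card : ℝ))
      MeasureTheory.volume 0 1 := by
    have h1 := int_Pz (fun _ _ => (1 : ℂ)) (fun _ => continuous_const) X s η 0 1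
    refine h1.congr ?_
    intro θ _
    simp
  have i4 := i3.const_mul (8 * η)
  have e1 : ∫ θ in (0 : ℝ)..1, ‖∑ z ∈ Pz X (θ - s) η, lz z * χ z‖ ≤
      (∫ θ in (0 : ℝ)..1, ‖∑ z ∈ Pz X (θ - s) η, fx χ κ0 z‖) +
      8 * η * ∫ θ in (0 : ℝ)..1, ((Pz X (θ - s) η).card : ℝ) := by
    rw [← intervalIntegral.integral_const_mul, ← intervalIntegral.integral_add i2 i4]
    exact intervalIntegral.integral_mono_on zero_le_one i1 (i2.add i4) fun θ hθ =>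
      hpt θ hθ.1 hθ.2
  -- the first integral
  set g : ℝ → ℝ := fun θ => ‖∑ z ∈ (Us 0 X).filter (Win θ η), fx χ κ0 z‖ with hg
  have hper : Function.Periodic g 1 := by
    intro θ
    have h1 : ∀ z, Win (θ + 1) η z ↔ Win θ η z := by
      intro z
      unfold Win
      have : al z - (θ + 1) = al z - θ - (1 : ℤ) := by
        push_cast
        ring
      rw [this, Int.fract_sub_intCast]
    simp only [hg]
    congr 2
    exact Finset.filter_congr fun z _ => h1 z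
  have e2 : ∫ θ in (0 : ℝ)..1, ‖∑ z ∈ Pz X (θ - s) η, fx χ κ0 z‖ = ∫ θ in (0 : ℝ)..1, g θ := by
    have h1 : ∫ θ in (0 : ℝ)..1, ‖∑ z ∈ Pz X (θ - s) η, fx χ κ0 z‖ =
        ∫ θ in (0 : ℝ)..1, g (θ - s) := by
      refine intervalIntegral.integral_congr fun θ hθ => ?_
      rw [Set.uIcc_of_le zero_le_one] at hθ
      simp only [hg]
      rw [Pz_sum (fx χ κ0) hMF.inv (by linarith [hθ.1]) (by linarith [hθ.2]) hη0 hη1]
    rw [h1, intervalIntegral.integral_comp_sub_right]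
    have h2 := hper.intervalIntegral_add_eq (0 - s) 0
    have h3 : (0 : ℝ) - s + 1 = 1 - s := by ring
    rw [h3, zero_add] at h2
    exact h2
  have e3 : ∫ θ in (0 : ℝ)..1, g θ ≤ ε / 2 * l := by
    have := H1 X hXX1
    rw [← hη] at this
    exact this
  have e4 := hC X s η hX0.le hη0.le
  have e5 : 8 * η * ∫ θ in (0 : ℝ)..1, ((Pz X (θ - s) η).card : ℝ) ≤ ε / 2 * l := by
    calc _ ≤ 8 * η * (C * η * X) := mul_le_mul_of_nonneg_left e4 (by positivity)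
      _ = 8 * C * l / X * l := by rw [hη]; field_simp
      _ ≤ ε / 2 * l := by
          refine mul_le_mul_of_nonneg_right ?_ hl1.le
          rw [div_le_iff₀ hε] at hXX2
          rw [div_le_iff₀ hX0]
          linarith
  rw [e2] at e1
  linarith

end

end Pool.Agent.Lib.MP_0b748d_nt.HD
end

section

set_option autoImplicit false

/-!
# Windows, residue classes prime to the modulus
-/

namespace Pool.Agent.Lib.MP_0b748d_nt.HD

open Zsqrtd MR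

noncomputable section

open Classical in
/-- Proof. `chars`: the sum is `(1/n) ∑_i c_i ∑_{Pz} lz z χ_i z`; `win_chi` for each of the `n`
characters (take the largest `l0` and `X0`). -/
theorem win_class (W : ℕ) (hW : 1 ≤ W) (hW2 : W % 2 = 0) (ω a1 : ℤ√2)
    (hω : ω ∣ ((W : ℕ) : ℤ√2)) (h : ∃ x y : ℤ√2, x * a1 + y * ω = 1) (ε : ℝ) (hε : 0 < ε) :
    ∃ l0 : ℝ, 1 ≤ l0 ∧ ∀ l : ℝ, l0 ≤ l → ∃ X0 : ℝ, l ≤ X0 ∧ ∀ X : ℝ, X0 ≤ X →
    ∀ s : ℝ, 0 ≤ s → s ≤ 1 →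
    ∫ θ in (0 : ℝ)..1, ‖∑ z ∈ (Pz X (θ - s) (l / X)).filter (fun z => ω ∣ z - a1), lz z‖ ≤
      ε * l := by
  obtain ⟨n, χ, c, hn, hHc, hc, hdet⟩ := chars W hW ω a1 hω h
  have hn0 : (0 : ℝ) < n := by exact_mod_cast hn
  have hwc := fun i => win_chi hW hW2 (hHc i) ε hε
  choose L hL H using hwc
  obtain ⟨M, hM⟩ := Finite.exists_le L
  refine ⟨max M 1, le_max_right _ _, fun l hl => ?_⟩
  have hlL : ∀ i, L i ≤ l := fun i => (hM i).trans ((le_max_left _ _).trans hl)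
  have hl1 : 1 ≤ l := (le_max_right _ _).trans hl
  have hH := fun i => H i l (hlL i)
  choose Y hY H2 using hH
  obtain ⟨M2, hM2⟩ := Finite.exists_le Y
  refine ⟨max M2 l, le_max_right _ _, fun X hX s hs0 hs1 => ?_⟩
  have hXY : ∀ i, Y i ≤ X := fun i => (hM2 i).trans ((le_max_left _ _).trans hX)
  have hbd : ∀ θ : ℝ, ‖∑ z ∈ (Pz X (θ - s) (l / X)).filter (fun z => ω ∣ z - a1), lz z‖ ≤
      (1 / (n : ℝ)) * ∑ i, ‖∑ z ∈ Pz X (θ - s) (l / X), lz z * χ i z‖ := by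
    intro θ
    have h1 : ∑ z ∈ (Pz X (θ - s) (l / X)).filter (fun z => ω ∣ z - a1), lz z =
        (1 / (n : ℂ)) * ∑ i, c i * ∑ z ∈ Pz X (θ - s) (l / X), lz z * χ i z := by
      rw [Finset.sum_filter]
      have h2 : ∀ z ∈ Pz X (θ - s) (l / X), (if ω ∣ z - a1 then lz z else 0) =
          ∑ i, (1 / (n : ℂ)) * (c i * (lz z * χ i z)) := by
        intro z _
        have h3 : ∑ i, (1 / (n : ℂ)) * (c i * (lz z * χ i z)) =
            lz z * ((1 / (n : ℂ)) * ∑ i, c i * χ i z) := by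
          rw [Finset.mul_sum, Finset.mul_sum]
          exact Finset.sum_congr rfl fun i _ => by ring
        rw [h3]
        rcases hdet z with ⟨h4, h5⟩ | ⟨h4, h5⟩
        · rw [h4, if_pos h5, mul_one]
        · rw [h4, if_neg h5, mul_zero]
      rw [Finset.sum_congr rfl h2, Finset.sum_comm, Finset.mul_sum]
      refine Finset.sum_congr rfl fun i _ => ?_
      rw [Finset.mul_sum, Finset.mul_sum]
    rw [h1, _root_.norm_mul]
    have h5 : ‖(1 / (n : ℂ))‖ = 1 / (n : ℝ) := by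
      rw [norm_div, NormOneClass.norm_one, Complex.norm_natCast]
    rw [h5]
    refine mul_le_mul_of_nonneg_left ?_ (by positivity)
    refine norm_sum_le_of_le _ fun i _ => ?_
    rw [_root_.norm_mul]
    calc ‖c i‖ * ‖∑ z ∈ Pz X (θ - s) (l / X), lz z * χ i z‖
        ≤ 1 * ‖∑ z ∈ Pz X (θ - s) (l / X), lz z * χ i z‖ :=
          mul_le_mul_of_nonneg_right (hc i) (norm_nonneg _)
      _ = _ := one_mul _
  have i1 : ∀ i, IntervalIntegrable (fun θ => ‖∑ z ∈ Pz X (θ - s) (l / X), lz z * χ i z‖)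
      MeasureTheory.volume 0 1 := fun i =>
    int_Pz (fun _ z => lz z * χ i z) (fun _ => continuous_const) X s (l / X) 0 1
  have i2 : IntervalIntegrable (fun θ => ∑ i, ‖∑ z ∈ Pz X (θ - s) (l / X), lz z * χ i z‖)
      MeasureTheory.volume 0 1 := by
    have := IntervalIntegrable.sum Finset.univ (f := fun i θ =>
      ‖∑ z ∈ Pz X (θ - s) (l / X), lz z * χ i z‖) (fun i _ => i1 i)
    refine this.congr ?_
    intro θ _
    simp only [Finset.sum_apply]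
  have i3 : IntervalIntegrable (fun θ =>
      ‖∑ z ∈ (Pz X (θ - s) (l / X)).filter (fun z => ω ∣ z - a1), lz z‖)
      MeasureTheory.volume 0 1 := by
    have h1 := int_Pz (fun _ z => if ω ∣ z - a1 then lz z else 0) (fun _ => continuous_const)
      X s (l / X) 0 1
    refine h1.congr ?_
    intro θ _
    simp only [Finset.sum_filter]
  calc _ ≤ ∫ θ in (0 : ℝ)..1, (1 / (n : ℝ)) * ∑ i, ‖∑ z ∈ Pz X (θ - s) (l / X), lz z * χ i z‖ :=
        intervalIntegral.integral_mono_on zero_le_one i3 (i2.const_mul _) fun θ _ => hbd θ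
    _ = (1 / (n : ℝ)) * ∑ i, ∫ θ in (0 : ℝ)..1, ‖∑ z ∈ Pz X (θ - s) (l / X), lz z * χ i z‖ := by
        rw [intervalIntegral.integral_const_mul,
          intervalIntegral.integral_finsetSum fun i _ => i1 i]
    _ ≤ (1 / (n : ℝ)) * ∑ i : Fin n, ε * l := by
        refine mul_le_mul_of_nonneg_left (Finset.sum_le_sum fun i _ => ?_) (by positivity)
        exact H2 i X (hXY i) s hs0 hs1
    _ = ε * l := by
        rw [Finset.sum_const, Finset.card_univ, Fintype.card_fin, nsmul_eq_mul]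
        field_simp

end

end Pool.Agent.Lib.MP_0b748d_nt.HD
end

section

set_option autoImplicit false

/-!
# Windows, one class modulo an even number
-/

namespace Pool.Agent.Lib.MP_0b748d_nt.HD

open Zsqrtd MR HH

noncomputable section

/-- Proof. `red`. In the second case put `N = nm g ≥ 1`, `l' = l/N`, `X' = X/N`, `l/X = l'/X'`, and apply
`win_class` with `ε`, `s = al g`: the integral is `≤ ε l' ≤ ε l` for `l ≥ N l0`. (Compare the
integrands; if the left-hand side is not integrable its integral is `0`.) -/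
theorem win_even (W : ℕ) (hW : 1 ≤ W) (hW2 : W % 2 = 0) (c : ℕ) (r s : ℤ) (ε : ℝ) (hε : 0 < ε) :
    ∃ l0 : ℝ, 1 ≤ l0 ∧ ∀ l : ℝ, l0 ≤ l → ∃ X0 : ℝ, l ≤ X0 ∧ ∀ X : ℝ, X0 ≤ X →
    ∫ θ in (0 : ℝ)..1, |∑ z ∈ Wz W r s X θ (l / X), (Fl c (nm z).toNat : ℝ)| ≤ ε * l := by
  classical
  rcases red W hW hW2 c r s with hred | ⟨g, z1, ω, hg, hg0, hg1, hω, hxy, hred⟩
  · refine ⟨1, le_rfl, fun l hl => ⟨l, le_rfl, fun X hX => ?_⟩⟩
    have h1 : ∫ θ in (0 : ℝ)..1, |∑ z ∈ Wz W r s X θ (l / X), (Fl c (nm z).toNat : ℝ)| =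
        ∫ _ in (0 : ℝ)..1, (0 : ℝ) := by
      refine intervalIntegral.integral_congr fun θ _ => ?_
      rw [hred X θ (l / X), Finset.sum_empty, abs_zero]
    rw [h1, intervalIntegral.integral_zero]
    have : 0 < l := by linarith
    positivity
  · have hN : (1 : ℝ) ≤ nm g := by
      have := hg.nm_pos
      exact_mod_cast this
    have hN0 : (0 : ℝ) < nm g := by linarith
    obtain ⟨l0, hl0, H⟩ := win_class W hW hW2 ω z1 hω hxy ε hε
    refine ⟨nm g * l0, by nlinarith, fun l hl => ?_⟩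
    have hl1 : l0 ≤ l / nm g := by
      rw [le_div_iff₀ hN0]
      linarith
    have hl0' : 0 < l := by nlinarith
    obtain ⟨X0, hX0, H1⟩ := H (l / nm g) hl1
    refine ⟨nm g * X0, ?_, fun X hX => ?_⟩
    · rw [div_le_iff₀ hN0] at hX0
      linarith
    have hXl : l ≤ X := by
      rw [div_le_iff₀ hN0] at hX0
      linarith
    have hXpos : 0 < X := by linarith
    have hX' : X0 ≤ X / nm g := by
      rw [le_div_iff₀ hN0]
      linarith
    have h1 := H1 (X / nm g) hX' (al g) hg0 hg1.le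
    have h2 : l / nm g / (X / nm g) = l / X := by
      field_simp
    rw [h2] at h1
    have h3 : ε * (l / nm g) ≤ ε * l :=
      mul_le_mul_of_nonneg_left (div_le_self hl0'.le hN) hε.le
    by_cases hint : IntervalIntegrable
        (fun θ => |∑ z ∈ Wz W r s X θ (l / X), (Fl c (nm z).toNat : ℝ)|)
        MeasureTheory.volume 0 1
    · have i2 : IntervalIntegrable (fun θ =>
          ‖∑ z ∈ (Pz (X / nm g) (θ - al g) (l / X)).filter (fun z => ω ∣ z - z1), lz z‖)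
          MeasureTheory.volume 0 1 := by
        have h4 := int_Pz (fun _ z => if ω ∣ z - z1 then lz z else 0)
          (fun _ => continuous_const) (X / nm g) (al g) (l / X) 0 1
        refine h4.congr ?_
        intro θ _
        simp only [Finset.sum_filter]
      refine (intervalIntegral.integral_mono_on zero_le_one hint i2 fun θ hθ => ?_).trans
        (le_trans (le_of_eq ?_) (h1.trans h3))
      · exact hred X θ (l / X) hθ.1 hθ.2 (by positivity) ((div_le_one hXpos).2 hXl)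
      · rfl
    · rw [intervalIntegral.integral_undef hint]
      positivity

end

end Pool.Agent.Lib.MP_0b748d_nt.HD
end

section

set_option autoImplicit false

/-!
# Windows, all classes
-/

namespace Pool.Agent.Lib.MP_0b748d_nt.HD

open Zsqrtd MR HH

noncomputable section

open Classical in
private theorem DE13_sum (f : ℤ√2 → ℝ) (W : ℕ) (r s : ℤ) (Y θ h : ℝ) :
    ∑ z ∈ Wz W r s Y θ h, f z =
      ∑ z ∈ (AA Y).filter (fun z => Prim z ∧ (nm z : ℝ) < Y ∧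
        (W : ℤ) ∣ z.re - r ∧ (W : ℤ) ∣ z.im - s),
        Set.indicator (Set.Ioc (al z - h) (al z)) (fun _ => f z) θ := by
  unfold Wz
  rw [Finset.sum_filter, Finset.sum_filter]
  refine Finset.sum_congr rfl fun z _ => ?_
  by_cases h1 : θ ≤ al z ∧ al z < θ + h
  · have h2 : θ ∈ Set.Ioc (al z - h) (al z) := ⟨by linarith [h1.2], h1.1⟩
    rw [Set.indicator_of_mem h2]
    congr 1
    rw [eq_iff_iff]
    tauto
  · have h2 : θ ∉ Set.Ioc (al z - h) (al z) := fun h3 => h1 ⟨h3.2, by linarith [h3.1]⟩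
    rw [Set.indicator_of_notMem h2, ite_self, if_neg]
    tauto

private theorem DE13_int (f : ℤ√2 → ℝ) (W : ℕ) (r s : ℤ) (Y h : ℝ) :
    IntervalIntegrable (fun θ => |∑ z ∈ Wz W r s Y θ h, f z|) MeasureTheory.volume 0 1 := by
  classical
  rw [intervalIntegrable_iff_integrableOn_Ioc_of_le (by norm_num)]
  refine MeasureTheory.Integrable.abs ?_
  simp_rw [DE13_sum]
  refine MeasureTheory.integrable_finsetSum _ fun z _ => ?_
  exact (MeasureTheory.integrable_const (f z)).indicator measurableSet_Ioc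

private theorem DE13_class {W : ℕ} (hW : 1 ≤ W) (x r : ℤ) :
    ((W : ℤ) ∣ x - r ↔ (((2 * W : ℕ) : ℤ) ∣ x - ((r % ((2 * W : ℕ) : ℤ)).toNat : ℤ) ∨
      ((2 * W : ℕ) : ℤ) ∣ x - (((r + W) % ((2 * W : ℕ) : ℤ)).toNat : ℤ))) ∧
    ¬ (((2 * W : ℕ) : ℤ) ∣ x - ((r % ((2 * W : ℕ) : ℤ)).toNat : ℤ) ∧
      ((2 * W : ℕ) : ℤ) ∣ x - (((r + W) % ((2 * W : ℕ) : ℤ)).toNat : ℤ)) := by
  have hW' : (0 : ℤ) < W := by exact_mod_cast hW
  have h2W : (0 : ℤ) < ((2 * W : ℕ) : ℤ) := by push_cast; omega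
  have key : ∀ t : ℤ, (((2 * W : ℕ) : ℤ) ∣ x - ((t % ((2 * W : ℕ) : ℤ)).toNat : ℤ) ↔
      (2 * W : ℤ) ∣ x - t) := by
    intro t
    rw [Int.toNat_of_nonneg (Int.emod_nonneg _ h2W.ne')]
    have h1 : x - t % ((2 * W : ℕ) : ℤ) = (x - t) + ((2 * W : ℕ) : ℤ) * (t / ((2 * W : ℕ) : ℤ)) := by
      have := Int.emod_add_mul_ediv t ((2 * W : ℕ) : ℤ)
      linarith
    rw [h1]
    have h2 : (2 * (W : ℤ)) = ((2 * W : ℕ) : ℤ) := by push_cast; rfl
    rw [h2]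
    constructor
    · intro h
      exact (dvd_add_left (dvd_mul_right _ _)).1 h
    · intro h
      exact dvd_add h (dvd_mul_right _ _)
  rw [key, key]
  constructor
  · constructor
    · rintro ⟨k, hk⟩
      rcases Int.even_or_odd k with ⟨m, hm⟩ | ⟨m, hm⟩
      · left
        exact ⟨m, by rw [hk, hm]; ring⟩
      · right
        exact ⟨m, by
          have : x - (r + W) = (x - r) - W := by ring
          rw [this, hk, hm]; ring⟩
    · rintro (⟨k, hk⟩ | ⟨k, hk⟩)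
      · exact ⟨2 * k, by rw [hk]; ring⟩
      · refine ⟨2 * k + 1, ?_⟩
        have : x - r = (x - (r + W)) + W := by ring
        rw [this, hk]
        ring
  · rintro ⟨⟨k, hk⟩, ⟨m, hm⟩⟩
    have h3 : (W : ℤ) * 1 = W * (2 * (k - m)) := by
      linear_combination hk - hm
    have h4 := mul_left_cancel₀ hW'.ne' h3
    omega

open Classical in
private theorem DE13_ite {P A B A1 A2 B1 B2 : Prop} (h1 : A ↔ A1 ∨ A2) (h2 : ¬ (A1 ∧ A2))
    (h3 : B ↔ B1 ∨ B2) (h4 : ¬ (B1 ∧ B2)) (x : ℝ) :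
    (if (P ∧ A) ∧ B then x else 0) =
      (if (P ∧ A1) ∧ B1 then x else 0) + (if (P ∧ A1) ∧ B2 then x else 0) +
        ((if (P ∧ A2) ∧ B1 then x else 0) + (if (P ∧ A2) ∧ B2 then x else 0)) := by
  by_cases p : P <;> by_cases a1 : A1 <;> by_cases a2 : A2 <;> by_cases b1 : B1 <;>
    by_cases b2 : B2 <;> simp_all

private theorem DE13_isum (S : Finset ℤ) (F : ℤ → ℝ → ℝ)
    (h : ∀ a ∈ S, IntervalIntegrable (F a) MeasureTheory.volume 0 1) :
    IntervalIntegrable (fun θ => ∑ a ∈ S, F a θ) MeasureTheory.volume 0 1 := by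
  have h1 := IntervalIntegrable.sum S h
  have e : (∑ a ∈ S, F a) = fun θ => ∑ a ∈ S, F a θ := by
    funext θ
    rw [Finset.sum_apply]
  rwa [e] at h1

open Classical in
private theorem DE13_split {W : ℕ} (hW : 1 ≤ W) (f : ℤ√2 → ℝ) (r s : ℤ) (Y θ h : ℝ) :
    ∑ z ∈ Wz W r s Y θ h, f z =
      ∑ a ∈ ({r, r + W} : Finset ℤ), ∑ b ∈ ({s, s + W} : Finset ℤ),
        ∑ z ∈ Wz (2 * W) ((a % ((2 * W : ℕ) : ℤ)).toNat : ℤ)
          ((b % ((2 * W : ℕ) : ℤ)).toNat : ℤ) Y θ h, f z := by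
  have hW' : (0 : ℤ) < W := by exact_mod_cast hW
  have hr : r ∉ ({r + W} : Finset ℤ) := by
    rw [Finset.mem_singleton]; omega
  have hs : s ∉ ({s + W} : Finset ℤ) := by
    rw [Finset.mem_singleton]; omega
  rw [Finset.sum_insert hr, Finset.sum_singleton, Finset.sum_insert hs, Finset.sum_insert hs,
    Finset.sum_singleton, Finset.sum_singleton]
  simp only [Wz, Finset.sum_filter]
  rw [← Finset.sum_add_distrib, ← Finset.sum_add_distrib, ← Finset.sum_add_distrib]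
  refine Finset.sum_congr rfl fun z _ => ?_
  obtain ⟨h1, h2⟩ := DE13_class hW z.re r
  obtain ⟨h3, h4⟩ := DE13_class hW z.im s
  simp only [← and_assoc]
  convert DE13_ite h1 h2 h3 h4 (f z) using 4

/-- Proof. `Wz W r s` is the disjoint union of the four `Wz (2W) r' s'`, `r' ∈ {r, r + W}`,
`s' ∈ {s, s + W}`, and `Wz (2W) r' s'` depends only on `r', s'` modulo `2 W`. Apply `win_even` with
`2 W`, `ε/4`, to the finitely many classes and take the largest `l0`, `X0`. (Integrability: as in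
`int_Pz`.) -/
theorem window_main (c W : ℕ) (hW : 1 ≤ W) (ε : ℝ) (hε : 0 < ε) : ∃ l0 : ℝ, 1 ≤ l0 ∧
    ∀ l : ℝ, l0 ≤ l → ∃ X0 : ℝ, l ≤ X0 ∧ ∀ X : ℝ, X0 ≤ X → ∀ r s : ℤ,
    ∫ θ in (0 : ℝ)..1, |∑ z ∈ Wz W r s X θ (l / X), (Fl c (nm z).toNat : ℝ)| ≤ ε * l := by
  classical
  have hε4 : 0 < ε / 4 := by linarith
  have H : ∀ i j : ℕ, ∃ l0 : ℝ, 1 ≤ l0 ∧ ∀ l : ℝ, l0 ≤ l → ∃ X0 : ℝ, l ≤ X0 ∧ ∀ X : ℝ, X0 ≤ X →
      ∫ θ in (0 : ℝ)..1, |∑ z ∈ Wz (2 * W) (i : ℤ) (j : ℤ) X θ (l / X),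
        (Fl c (nm z).toNat : ℝ)| ≤ ε / 4 * l := fun i j =>
    win_even (2 * W) (by omega) (by omega) c i j (ε / 4) hε4
  choose l0 hl1 hl2 using H
  have hsum : ∀ (F : ℕ → ℕ → ℝ), (∀ i j, 0 ≤ F i j) → ∀ i < 2 * W, ∀ j < 2 * W,
      F i j ≤ ∑ i ∈ Finset.range (2 * W), ∑ j ∈ Finset.range (2 * W), F i j := by
    intro F hF i hi j hj
    calc F i j ≤ ∑ j ∈ Finset.range (2 * W), F i j :=
          Finset.single_le_sum (f := fun j => F i j) (fun j _ => hF i j) (Finset.mem_range.2 hj)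
      _ ≤ _ := Finset.single_le_sum (f := fun i => ∑ j ∈ Finset.range (2 * W), F i j)
          (fun i _ => Finset.sum_nonneg fun j _ => hF i j) (Finset.mem_range.2 hi)
  have hl0 : ∀ i j, 0 ≤ l0 i j := fun i j => by linarith [hl1 i j]
  refine ⟨1 + ∑ i ∈ Finset.range (2 * W), ∑ j ∈ Finset.range (2 * W), l0 i j, ?_,
    fun l hl => ?_⟩
  · have : 0 ≤ ∑ i ∈ Finset.range (2 * W), ∑ j ∈ Finset.range (2 * W), l0 i j :=
      Finset.sum_nonneg fun i _ => Finset.sum_nonneg fun j _ => hl0 i j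
    linarith
  have hlpos : 0 ≤ l := by
    have : 0 ≤ ∑ i ∈ Finset.range (2 * W), ∑ j ∈ Finset.range (2 * W), l0 i j :=
      Finset.sum_nonneg fun i _ => Finset.sum_nonneg fun j _ => hl0 i j
    linarith
  have HX : ∀ i j : ℕ, ∃ X0 : ℝ, l ≤ X0 ∧ (i < 2 * W → j < 2 * W → ∀ X : ℝ, X0 ≤ X →
      ∫ θ in (0 : ℝ)..1, |∑ z ∈ Wz (2 * W) (i : ℤ) (j : ℤ) X θ (l / X),
        (Fl c (nm z).toNat : ℝ)| ≤ ε / 4 * l) := by
    intro i j
    by_cases h : i < 2 * W ∧ j < 2 * W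
    · obtain ⟨X0, h1, h2⟩ := hl2 i j l (by
        have := hsum l0 hl0 i h.1 j h.2
        linarith)
      exact ⟨X0, h1, fun _ _ => h2⟩
    · exact ⟨l, le_rfl, fun h1 h2 => absurd ⟨h1, h2⟩ h⟩
  choose X0 hX1 hX2 using HX
  have hX0 : ∀ i j, 0 ≤ X0 i j := fun i j => hlpos.trans (hX1 i j)
  refine ⟨l + ∑ i ∈ Finset.range (2 * W), ∑ j ∈ Finset.range (2 * W), X0 i j, ?_,
    fun X hX r s => ?_⟩
  · have : 0 ≤ ∑ i ∈ Finset.range (2 * W), ∑ j ∈ Finset.range (2 * W), X0 i j :=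
      Finset.sum_nonneg fun i _ => Finset.sum_nonneg fun j _ => hX0 i j
    linarith
  have h2W : (0 : ℤ) < ((2 * W : ℕ) : ℤ) := by push_cast; omega
  have hlt : ∀ t : ℤ, (t % ((2 * W : ℕ) : ℤ)).toNat < 2 * W := by
    intro t
    have h1 := Int.emod_lt_of_pos t h2W
    have h2 := Int.emod_nonneg t h2W.ne'
    omega
  have hbd : ∀ a b : ℤ, ∫ θ in (0 : ℝ)..1,
      |∑ z ∈ Wz (2 * W) ((a % ((2 * W : ℕ) : ℤ)).toNat : ℤ)
        ((b % ((2 * W : ℕ) : ℤ)).toNat : ℤ) X θ (l / X), (Fl c (nm z).toNat : ℝ)| ≤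
      ε / 4 * l := by
    intro a b
    refine hX2 _ _ (hlt a) (hlt b) X ?_
    have := hsum X0 hX0 _ (hlt a) _ (hlt b)
    linarith
  have hii : ∀ a b : ℤ, IntervalIntegrable (fun θ =>
      |∑ z ∈ Wz (2 * W) ((a % ((2 * W : ℕ) : ℤ)).toNat : ℤ)
        ((b % ((2 * W : ℕ) : ℤ)).toNat : ℤ) X θ (l / X), (Fl c (nm z).toNat : ℝ)|)
      MeasureTheory.volume 0 1 := fun a b => DE13_int _ _ _ _ _ _
  calc ∫ θ in (0 : ℝ)..1, |∑ z ∈ Wz W r s X θ (l / X), (Fl c (nm z).toNat : ℝ)|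
      ≤ ∫ θ in (0 : ℝ)..1, ∑ a ∈ ({r, r + W} : Finset ℤ), ∑ b ∈ ({s, s + W} : Finset ℤ),
        |∑ z ∈ Wz (2 * W) ((a % ((2 * W : ℕ) : ℤ)).toNat : ℤ)
          ((b % ((2 * W : ℕ) : ℤ)).toNat : ℤ) X θ (l / X), (Fl c (nm z).toNat : ℝ)| := by
        refine intervalIntegral.integral_mono_on (by norm_num) (DE13_int _ _ _ _ _ _) ?_ ?_
        · exact DE13_isum _ _ fun a _ => DE13_isum _ _ fun b _ => hii a b
        · intro θ _
          rw [DE13_split hW]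
          refine (Finset.abs_sum_le_sum_abs _ _).trans (Finset.sum_le_sum fun a _ => ?_)
          exact Finset.abs_sum_le_sum_abs _ _
    _ = ∑ a ∈ ({r, r + W} : Finset ℤ), ∑ b ∈ ({s, s + W} : Finset ℤ),
        ∫ θ in (0 : ℝ)..1, |∑ z ∈ Wz (2 * W) ((a % ((2 * W : ℕ) : ℤ)).toNat : ℤ)
          ((b % ((2 * W : ℕ) : ℤ)).toNat : ℤ) X θ (l / X), (Fl c (nm z).toNat : ℝ)| := by
        rw [intervalIntegral.integral_finsetSum]
        · refine Finset.sum_congr rfl fun a _ => ?_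
          rw [intervalIntegral.integral_finsetSum]
          exact fun b _ => hii a b
        · exact fun a _ => DE13_isum _ _ fun b _ => hii a b
    _ ≤ ∑ a ∈ ({r, r + W} : Finset ℤ), ∑ b ∈ ({s, s + W} : Finset ℤ), ε / 4 * l :=
        Finset.sum_le_sum fun a _ => Finset.sum_le_sum fun b _ => hbd a b
    _ ≤ ε * l := by
        rw [Finset.sum_const, Finset.sum_const, nsmul_eq_mul, nsmul_eq_mul]
        have hc1 : ((({r, r + W} : Finset ℤ).card : ℕ) : ℝ) ≤ 2 := by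
          exact_mod_cast Finset.card_le_two
        have hc2 : ((({s, s + W} : Finset ℤ).card : ℕ) : ℝ) ≤ 2 := by
          exact_mod_cast Finset.card_le_two
        have hpos : 0 ≤ ε / 4 * l := by positivity
        have hc3 : (0 : ℝ) ≤ (({r, r + W} : Finset ℤ).card : ℕ) := Nat.cast_nonneg _
        calc _ ≤ (2 : ℝ) * (2 * (ε / 4 * l)) :=
              mul_le_mul hc1 (mul_le_mul_of_nonneg_right hc2 hpos)
                (mul_nonneg (Nat.cast_nonneg _) hpos) (by norm_num)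
          _ = ε * l := by ring

end

end Pool.Agent.Lib.MP_0b748d_nt.HD
end
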