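import Mathlib
import Pool.Agent.Lib.MP_0b748d_nt.HH.TreeB
import Pool.Agent.Lib.MP_0b748d_nt.HH.CmodC
import Pool.Agent.Lib.MP_0b748d_nt.HH.CntE
import Pool.Agent.Lib.MP_0b748d_nt.HH.ResC

section

set_option autoImplicit false

/-!
# Entropy for finite weighted sets
-/

namespace Pool.Agent.Lib.MP_0b748d_nt.HH

noncomputable section

open Classical in
/-- weight of the fibre -/
def pw {Ω α : Type*} (s : Finset Ω) (w : Ω → ℝ) (X : Ω → α) (a : α) : ℝ :=
  ∑ ω ∈ s.filter (fun ω => X ω = a), w ω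

/-- entropy (not normalised) -/
def He {Ω α : Type*} (s : Finset Ω) (w : Ω → ℝ) (X : Ω → α) : ℝ :=
  ∑ ω ∈ s, w ω * Real.log ((∑ ω' ∈ s, w ω') / pw s w X (X ω))

/-- conditional entropy (not normalised) -/
def Hc {Ω α β : Type*} (s : Finset Ω) (w : Ω → ℝ) (X : Ω → α) (Y : Ω → β) : ℝ :=
  ∑ ω ∈ s, w ω * Real.log (pw s w Y (Y ω) / pw s w (fun ω => (X ω, Y ω)) (X ω, Y ω))

/-- the log sum inequality -/
theorem log_sum {ι : Type*} (s : Finset ι) (a b : ι → ℝ) (ha : ∀ j ∈ s, 0 ≤ a j)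
    (hb : ∀ j ∈ s, 0 ≤ b j) (hab : ∀ j ∈ s, b j = 0 → a j = 0) :
    ∑ j ∈ s, a j * Real.log (b j / a j) ≤
      (∑ j ∈ s, a j) * Real.log ((∑ j ∈ s, b j) / ∑ j ∈ s, a j) := by
  rcases (Finset.sum_nonneg ha).eq_or_lt with h0 | h0
  · have h1 : ∀ j ∈ s, a j = 0 := (Finset.sum_eq_zero_iff_of_nonneg ha).1 h0.symm
    rw [← h0, zero_mul]
    apply le_of_eq
    apply Finset.sum_eq_zero
    intro j hj
    rw [h1 j hj, zero_mul]
  · obtain ⟨A, hA⟩ : ∃ A, A = ∑ j ∈ s, a j := ⟨_, rfl⟩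
    obtain ⟨B, hB⟩ : ∃ B, B = ∑ j ∈ s, b j := ⟨_, rfl⟩
    rw [← hA] at h0
    have hB0 : 0 < B := by
      rw [hB]
      refine lt_of_le_of_ne (Finset.sum_nonneg hb) fun h => ?_
      have h1 : ∀ j ∈ s, b j = 0 := (Finset.sum_eq_zero_iff_of_nonneg hb).1 h.symm
      have h2 : A = 0 := by
        rw [hA]
        exact Finset.sum_eq_zero fun j hj => hab j hj (h1 j hj)
      exact h0.ne' h2
    rw [← hA, ← hB]
    have key : ∀ j ∈ s, a j * Real.log (b j / a j) ≤
        a j * Real.log (B / A) + (b j * (A / B) - a j) := by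
      intro j hj
      rcases (ha j hj).eq_or_lt with h1 | h1
      · rw [← h1, zero_mul, zero_mul, zero_add, sub_zero]
        exact mul_nonneg (hb j hj) (div_nonneg h0.le hB0.le)
      · have hbj : 0 < b j := lt_of_le_of_ne (hb j hj) fun h => h1.ne' (hab j hj h.symm)
        have h2 : Real.log (b j / a j) - Real.log (B / A) ≤ b j * (A / B) / a j - 1 := by
          have h3 : Real.log (b j / a j) - Real.log (B / A) = Real.log (b j * (A / B) / a j) := by
            rw [← Real.log_div (div_pos hbj h1).ne' (div_pos hB0 h0).ne']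
            congr 1
            field_simp
          rw [h3]
          exact Real.log_le_sub_one_of_pos (by positivity)
        have h4 : a j * (b j * (A / B) / a j - 1) = b j * (A / B) - a j := by
          field_simp
        have h5 := mul_le_mul_of_nonneg_left h2 h1.le
        rw [h4, mul_sub] at h5
        linarith
    refine (Finset.sum_le_sum key).trans (le_of_eq ?_)
    rw [Finset.sum_add_distrib, Finset.sum_sub_distrib, ← Finset.sum_mul, ← Finset.sum_mul, ← hA,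
      ← hB]
    field_simp
    ring

end

end Pool.Agent.Lib.MP_0b748d_nt.HH
end

section

section

set_option autoImplicit false

/-!
# Entropy for finite weighted sets
-/

namespace Pool.Agent.Lib.MP_0b748d_nt.HH

noncomputable section

/-- conditional entropy of a function on a product -/
def hc {α β : Type*} (A : Finset α) (B : Finset β) (m : α → β → ℝ) : ℝ :=
  ∑ a ∈ A, ∑ b ∈ B, m a b * Real.log ((∑ a' ∈ A, m a' b) / m a b)

/-- entropy of a function -/
def he {α : Type*} (A : Finset α) (m : α → ℝ) : ℝ :=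
  ∑ a ∈ A, m a * Real.log ((∑ a' ∈ A, m a') / m a)

/-- monotone in the weights: superadditivity (`log_sum`) and nonnegativity -/
theorem hc_mono {α β : Type*} (A : Finset α) (B : Finset β) (m m' : α → β → ℝ)
    (h0 : ∀ a ∈ A, ∀ b ∈ B, 0 ≤ m a b) (h : ∀ a ∈ A, ∀ b ∈ B, m a b ≤ m' a b) :
    hc A B m ≤ hc A B m' := by
  unfold hc
  rw [Finset.sum_comm, Finset.sum_comm (s := A)]
  apply Finset.sum_le_sum
  intro b hb
  have key : ∀ a ∈ A, m a b * Real.log ((∑ a' ∈ A, m a' b) / m a b) ≤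
      m' a b * Real.log ((∑ a' ∈ A, m' a' b) / m' a b) := by
    intro a ha
    have hr : ∀ a ∈ A, 0 ≤ m' a b - m a b := fun a ha => sub_nonneg.2 (h a ha b hb)
    obtain ⟨M, hM⟩ : ∃ M, M = ∑ a' ∈ A, m a' b := ⟨_, rfl⟩
    obtain ⟨R, hR⟩ : ∃ R, R = ∑ a' ∈ A, (m' a' b - m a' b) := ⟨_, rfl⟩
    have hM' : ∑ a' ∈ A, m' a' b = M + R := by
      rw [hM, hR, ← Finset.sum_add_distrib]
      apply Finset.sum_congr rfl
      intro a' _
      ring
    have hma : m a b ≤ M := by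
      rw [hM]
      exact Finset.single_le_sum (f := fun a => m a b) (fun a ha => h0 a ha b hb) ha
    have hra : m' a b - m a b ≤ R := by
      rw [hR]
      exact Finset.single_le_sum (f := fun a => m' a b - m a b) hr ha
    have h1 := log_sum (Finset.univ : Finset (Fin 2)) ![m a b, m' a b - m a b] ![M, R]
      (by
        intro j _
        fin_cases j
        · exact h0 a ha b hb
        · exact hr a ha)
      (by
        intro j _
        fin_cases j
        · exact (h0 a ha b hb).trans hma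
        · exact (hr a ha).trans hra)
      (by
        intro j _
        fin_cases j
        · intro h2
          exact le_antisymm (hma.trans (le_of_eq h2)) (h0 a ha b hb)
        · intro h2
          exact le_antisymm (hra.trans (le_of_eq h2)) (hr a ha))
    simp only [Fin.sum_univ_two, Matrix.cons_val_zero, Matrix.cons_val_one] at h1
    rw [add_sub_cancel] at h1
    rw [hM', ← hM]
    have h2 : 0 ≤ (m' a b - m a b) * Real.log (R / (m' a b - m a b)) := by
      rcases (hr a ha).eq_or_lt with h3 | h3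
      · rw [← h3, zero_mul]
      · apply mul_nonneg h3.le
        apply Real.log_nonneg
        rw [one_le_div h3]
        exact hra
    linarith
  exact Finset.sum_le_sum key

theorem hc_smul {α β : Type*} (A : Finset α) (B : Finset β) (m : α → β → ℝ) (t : ℝ) (ht : 0 ≤ t) :
    hc A B (fun a b => t * m a b) = t * hc A B m := by
  unfold hc
  rw [Finset.mul_sum]
  apply Finset.sum_congr rfl
  intro a _
  rw [Finset.mul_sum]
  apply Finset.sum_congr rfl
  intro b _
  rw [← Finset.mul_sum]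
  rcases ht.eq_or_lt with h | h
  · rw [← h]
    ring
  · rw [mul_div_mul_left _ _ h.ne', mul_assoc]

end

end Pool.Agent.Lib.MP_0b748d_nt.HH
end

section

set_option autoImplicit false

/-!
# Entropy for finite weighted sets
-/

namespace Pool.Agent.Lib.MP_0b748d_nt.HH

noncomputable section

private lemma entB_fib {Ω α : Type*} (s : Finset Ω) (w : Ω → ℝ) (X : Ω → α) (A : Finset α)
    (hA : ∀ ω ∈ s, X ω ∈ A) (f : α → ℝ) :
    ∑ ω ∈ s, w ω * f (X ω) = ∑ a ∈ A, pw s w X a * f a := by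
  classical
  rw [← Finset.sum_fiberwise_of_maps_to hA]
  apply Finset.sum_congr rfl
  intro a _
  unfold pw
  rw [Finset.sum_mul]
  apply Finset.sum_congr
  · ext ω
    simp
  · intro ω hω
    rw [(Finset.mem_filter.1 hω).2]

/-- `Hc` as a sum over values. `A`, `B` contain the values of `X`, `Y` on `s`. -/
theorem Hc_eq {Ω α β : Type*} (s : Finset Ω) (w : Ω → ℝ) (hw : ∀ ω ∈ s, 0 ≤ w ω) (X : Ω → α)
    (Y : Ω → β) (A : Finset α) (B : Finset β) (hA : ∀ ω ∈ s, X ω ∈ A) (hB : ∀ ω ∈ s, Y ω ∈ B) :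
    Hc s w X Y = ∑ a ∈ A, ∑ b ∈ B, pw s w (fun ω => (X ω, Y ω)) (a, b) *
      Real.log (pw s w Y b / pw s w (fun ω => (X ω, Y ω)) (a, b)) := by
  have h := entB_fib s w (fun ω => (X ω, Y ω)) (A ×ˢ B)
    (fun ω hω => Finset.mem_product.2 ⟨hA ω hω, hB ω hω⟩)
    (fun p => Real.log (pw s w Y p.2 / pw s w (fun ω => (X ω, Y ω)) p))
  rw [Finset.sum_product] at h
  exact h

theorem He_eq {Ω α : Type*} (s : Finset Ω) (w : Ω → ℝ) (hw : ∀ ω ∈ s, 0 ≤ w ω) (X : Ω → α)
    (A : Finset α) (hA : ∀ ω ∈ s, X ω ∈ A) :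
    He s w X = ∑ a ∈ A, pw s w X a * Real.log ((∑ ω ∈ s, w ω) / pw s w X a) := by
  exact entB_fib s w X A hA (fun a => Real.log ((∑ ω ∈ s, w ω) / pw s w X a))

end

end Pool.Agent.Lib.MP_0b748d_nt.HH
end
end

section

section

set_option autoImplicit false

/-!
# Entropy for finite weighted sets
-/

namespace Pool.Agent.Lib.MP_0b748d_nt.HH

noncomputable section

private lemma entC_pos {Ω α : Type*} (s : Finset Ω) (w : Ω → ℝ) (hw : ∀ ω ∈ s, 0 ≤ w ω)
    (X : Ω → α) {ω : Ω} (hω : ω ∈ s) (h : 0 < w ω) : 0 < pw s w X (X ω) := by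
  classical
  refine lt_of_lt_of_le h ?_
  unfold pw
  apply Finset.single_le_sum (f := w)
  · intro ω' hω'
    exact hw ω' (Finset.mem_filter.1 hω').1
  · exact Finset.mem_filter.2 ⟨hω, rfl⟩

private lemma entC_pair_le {Ω α β : Type*} (s : Finset Ω) (w : Ω → ℝ) (hw : ∀ ω ∈ s, 0 ≤ w ω)
    (X : Ω → α) (Y : Ω → β) (a : α) (b : β) :
    pw s w (fun ω => (X ω, Y ω)) (a, b) ≤ pw s w Y b := by
  classical
  unfold pw
  apply Finset.sum_le_sum_of_subset_of_nonneg
  · intro ω hω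
    simp only [Finset.mem_filter, Prod.mk.injEq] at hω ⊢
    exact ⟨hω.1, hω.2.2⟩
  · intro ω hω _
    simp only [Finset.mem_filter] at hω
    exact hw ω hω.1

theorem Hc_nonneg {Ω α β : Type*} (s : Finset Ω) (w : Ω → ℝ) (hw : ∀ ω ∈ s, 0 ≤ w ω) (X : Ω → α)
    (Y : Ω → β) : 0 ≤ Hc s w X Y := by
  apply Finset.sum_nonneg
  intro ω hω
  rcases (hw ω hω).eq_or_lt with h | h
  · rw [← h, zero_mul]
  · have h1 := entC_pos s w hw (fun ω => (X ω, Y ω)) hω h
    apply mul_nonneg h.le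
    apply Real.log_nonneg
    rw [one_le_div h1]
    exact entC_pair_le s w hw X Y _ _

/-- chain rule -/
theorem He_pair {Ω α β : Type*} (s : Finset Ω) (w : Ω → ℝ) (hw : ∀ ω ∈ s, 0 ≤ w ω) (X : Ω → α)
    (Y : Ω → β) : He s w (fun ω => (X ω, Y ω)) = He s w Y + Hc s w X Y := by
  unfold He Hc
  rw [← Finset.sum_add_distrib]
  apply Finset.sum_congr rfl
  intro ω hω
  rcases (hw ω hω).eq_or_lt with h | h
  · rw [← h, zero_mul, zero_mul, zero_mul, zero_add]
  · have h1 := entC_pos s w hw (fun ω => (X ω, Y ω)) hω h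
    have h2 := entC_pos s w hw Y hω h
    have h3 : 0 < ∑ ω ∈ s, w ω := lt_of_lt_of_le h (Finset.single_le_sum hw hω)
    rw [← mul_add, Real.log_div h3.ne' h1.ne', Real.log_div h3.ne' h2.ne',
      Real.log_div h2.ne' h1.ne']
    ring

/-- chain rule, conditional -/
theorem Hc_pair {Ω α β γ : Type*} (s : Finset Ω) (w : Ω → ℝ) (hw : ∀ ω ∈ s, 0 ≤ w ω) (X : Ω → α)
    (Y : Ω → β) (Z : Ω → γ) : Hc s w (fun ω => (X ω, Y ω)) Z =
      Hc s w Y Z + Hc s w X (fun ω => (Y ω, Z ω)) := by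
  unfold Hc
  rw [← Finset.sum_add_distrib]
  apply Finset.sum_congr rfl
  intro ω hω
  rcases (hw ω hω).eq_or_lt with h | h
  · rw [← h, zero_mul, zero_mul, zero_mul, zero_add]
  · have h1 := entC_pos s w hw (fun ω => (X ω, (Y ω, Z ω))) hω h
    have h2 := entC_pos s w hw (fun ω => (Y ω, Z ω)) hω h
    have h3 := entC_pos s w hw Z hω h
    have h4 : pw s w (fun ω => ((X ω, Y ω), Z ω)) ((X ω, Y ω), Z ω) =
        pw s w (fun ω => (X ω, (Y ω, Z ω))) (X ω, (Y ω, Z ω)) := by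
      unfold pw
      apply Finset.sum_congr _ fun _ _ => rfl
      ext ω'
      simp only [Finset.mem_filter, Prod.mk.injEq, and_assoc]
    rw [h4, ← mul_add, Real.log_div h3.ne' h1.ne', Real.log_div h3.ne' h2.ne',
      Real.log_div h2.ne' h1.ne']
    ring

end

end Pool.Agent.Lib.MP_0b748d_nt.HH
end

section

set_option autoImplicit false

/-!
# Entropy for finite weighted sets
-/

namespace Pool.Agent.Lib.MP_0b748d_nt.HH

noncomputable section

private theorem entD_pw_nonneg {Ω α : Type*} (s : Finset Ω) (w : Ω → ℝ)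
    (hw : ∀ ω ∈ s, 0 ≤ w ω) (X : Ω → α) (a : α) : 0 ≤ pw s w X a := by
  classical
  exact Finset.sum_nonneg fun ω hω => hw ω (Finset.mem_of_mem_filter ω hω)

private theorem entD_pos {Ω α : Type*} (s : Finset Ω) (w : Ω → ℝ)
    (hw : ∀ ω ∈ s, 0 ≤ w ω) (V : Ω → α) (a : α) (ω : Ω) (hω : ω ∈ s) (h : 0 < w ω)
    (ha : V ω = a) : 0 < pw s w V a := by
  classical
  refine h.trans_le ?_
  unfold pw
  exact Finset.single_le_sum (f := w)
    (fun ω' hω' => hw ω' (Finset.mem_of_mem_filter ω' hω'))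
    (Finset.mem_filter.2 ⟨hω, ha⟩)

private theorem entD_pw_le {Ω α β : Type*} (s : Finset Ω) (w : Ω → ℝ)
    (hw : ∀ ω ∈ s, 0 ≤ w ω) (X : Ω → α) (Y : Ω → β) (a : α) (b : β)
    (h : ∀ ω ∈ s, X ω = a → Y ω = b) : pw s w X a ≤ pw s w Y b := by
  classical
  unfold pw
  refine Finset.sum_le_sum_of_subset_of_nonneg ?_ ?_
  · intro ω hω
    rw [Finset.mem_filter] at hω ⊢
    exact ⟨hω.1, h ω hω.1 hω.2⟩
  · intro ω hω _
    exact hw ω (Finset.mem_of_mem_filter ω hω)

/-- summing the weights of fibres of a finer variable -/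
private theorem entD_fiber {Ω α β γ : Type*} [DecidableEq γ] (s : Finset Ω) (w : Ω → ℝ)
    (V : Ω → α) (U : Ω → β) (Y : Ω → γ) (B : Finset γ) (e : γ → α) (u : β)
    (h1 : ∀ ω ∈ s, U ω = u → Y ω ∈ B)
    (h2 : ∀ b ∈ B, ∀ ω ∈ s, V ω = e b ↔ (U ω = u ∧ Y ω = b)) :
    ∑ b ∈ B, pw s w V (e b) = pw s w U u := by
  classical
  unfold pw
  have h3 := Finset.sum_fiberwise_of_maps_to (s := s.filter (fun ω => U ω = u)) (t := B)
    (g := Y) (fun ω hω => h1 ω (Finset.mem_filter.1 hω).1 (Finset.mem_filter.1 hω).2) w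
  rw [← h3]
  refine Finset.sum_congr rfl fun b hb => Finset.sum_congr ?_ fun _ _ => rfl
  ext ω
  simp only [Finset.mem_filter]
  constructor
  · rintro ⟨h4, h5⟩
    have h6 := (h2 b hb ω h4).1 h5
    exact ⟨⟨h4, h6.1⟩, h6.2⟩
  · rintro ⟨⟨h4, h5⟩, h6⟩
    exact ⟨h4, (h2 b hb ω h4).2 ⟨h5, h6⟩⟩

/-- conditioning on more decreases the entropy: `log_sum` -/
theorem Hc_anti {Ω α β γ : Type*} (s : Finset Ω) (w : Ω → ℝ) (hw : ∀ ω ∈ s, 0 ≤ w ω) (X : Ω → α)
    (Y : Ω → β) (Z : Ω → γ) (hZ : ∀ ω ∈ s, ∀ ω' ∈ s, Y ω = Y ω' → Z ω = Z ω') :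
    Hc s w X Y ≤ Hc s w X Z := by
  classical
  rcases s.eq_empty_or_nonempty with rfl | hs
  · simp [Hc]
  obtain ⟨ω0, hω0⟩ := hs
  have hg : ∃ g : β → γ, ∀ ω ∈ s, g (Y ω) = Z ω := by
    refine ⟨fun b => if h : ∃ ω ∈ s, Y ω = b then Z h.choose else Z ω0, ?_⟩
    intro ω hω
    have h : ∃ ω' ∈ s, Y ω' = Y ω := ⟨ω, hω, rfl⟩
    simp only [dif_pos h]
    exact hZ _ h.choose_spec.1 _ hω h.choose_spec.2
  obtain ⟨g, hg⟩ := hg
  rw [Hc_eq s w hw X Y (s.image X) (s.image Y) (fun ω hω => Finset.mem_image_of_mem _ hω)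
    (fun ω hω => Finset.mem_image_of_mem _ hω),
    Hc_eq s w hw X Z (s.image X) (s.image Z) (fun ω hω => Finset.mem_image_of_mem _ hω)
    (fun ω hω => Finset.mem_image_of_mem _ hω)]
  refine Finset.sum_le_sum fun a _ => ?_
  have hmap : ∀ b ∈ s.image Y, g b ∈ s.image Z := by
    intro b hb
    obtain ⟨ω, hω, rfl⟩ := Finset.mem_image.1 hb
    rw [hg ω hω]
    exact Finset.mem_image_of_mem _ hω
  rw [← Finset.sum_fiberwise_of_maps_to hmap]
  refine Finset.sum_le_sum fun c _ => ?_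
  refine (log_sum _ _ _ (fun b _ => entD_pw_nonneg s w hw _ _)
    (fun b _ => entD_pw_nonneg s w hw _ _) ?_).trans (le_of_eq ?_)
  · intro b _ hb
    refine le_antisymm (hb ▸ entD_pw_le s w hw _ _ _ _ ?_) (entD_pw_nonneg s w hw _ _)
    intro ω _ h
    exact (Prod.ext_iff.1 h).2
  · have e1 : ∑ b ∈ (s.image Y).filter (fun b => g b = c), pw s w Y b = pw s w Z c := by
      refine entD_fiber s w Y Z Y _ (fun b => b) c ?_ ?_
      · intro ω hω h
        rw [Finset.mem_filter]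
        exact ⟨Finset.mem_image_of_mem _ hω, (hg ω hω).trans h⟩
      · intro b hb ω hω
        rw [Finset.mem_filter] at hb
        constructor
        · intro h
          refine ⟨?_, h⟩
          rw [← hg ω hω, h]
          exact hb.2
        · intro h
          exact h.2
    have e2 : ∑ b ∈ (s.image Y).filter (fun b => g b = c), pw s w (fun ω => (X ω, Y ω)) (a, b) =
        pw s w (fun ω => (X ω, Z ω)) (a, c) := by
      refine entD_fiber s w (fun ω => (X ω, Y ω)) (fun ω => (X ω, Z ω)) Y _ (fun b => (a, b))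
        (a, c) ?_ ?_
      · intro ω hω h
        rw [Finset.mem_filter]
        exact ⟨Finset.mem_image_of_mem _ hω, (hg ω hω).trans (Prod.ext_iff.1 h).2⟩
      · intro b hb ω hω
        rw [Finset.mem_filter] at hb
        simp only [Prod.mk.injEq]
        constructor
        · rintro ⟨h3, h4⟩
          refine ⟨⟨h3, ?_⟩, h4⟩
          rw [← hg ω hω, h4]
          exact hb.2
        · rintro ⟨⟨h3, _⟩, h4⟩
          exact ⟨h3, h4⟩
    rw [e1, e2]

/-- monotone in the first variable: if, given `Z`, the variable `X` is a function of `X'` -/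
theorem Hc_mono {Ω α α' γ : Type*} (s : Finset Ω) (w : Ω → ℝ) (hw : ∀ ω ∈ s, 0 ≤ w ω) (X : Ω → α)
    (X' : Ω → α') (Z : Ω → γ)
    (hX : ∀ ω ∈ s, ∀ ω' ∈ s, X' ω = X' ω' → Z ω = Z ω' → X ω = X ω') :
    Hc s w X Z ≤ Hc s w X' Z := by
  classical
  refine Finset.sum_le_sum fun ω hω => ?_
  rcases (hw ω hω).eq_or_lt with h | h
  · rw [← h, zero_mul, zero_mul]
  refine mul_le_mul_of_nonneg_left ?_ h.le
  have h1 : 0 < pw s w (fun ω => (X ω, Z ω)) (X ω, Z ω) := entD_pos s w hw _ _ ω hω h rfl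
  have h2 : 0 < pw s w (fun ω => (X' ω, Z ω)) (X' ω, Z ω) := entD_pos s w hw _ _ ω hω h rfl
  have h3 : 0 < pw s w Z (Z ω) := entD_pos s w hw _ _ ω hω h rfl
  have h4 : pw s w (fun ω => (X' ω, Z ω)) (X' ω, Z ω) ≤
      pw s w (fun ω => (X ω, Z ω)) (X ω, Z ω) := by
    refine entD_pw_le s w hw _ _ _ _ ?_
    intro ω' hω' h5
    have h6 := Prod.ext_iff.1 h5
    simp only at h6
    exact Prod.ext (hX ω' hω' ω hω h6.1 h6.2) h6.2
  exact Real.log_le_log (div_pos h3 h1) (div_le_div_of_nonneg_left h3.le h2 h4)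

private theorem entD_const {Ω α : Type*} (s : Finset Ω) (w : Ω → ℝ) (X : Ω → α) :
    Hc s w X (fun _ => ()) = He s w X := by
  classical
  unfold Hc He
  refine Finset.sum_congr rfl fun ω _ => ?_
  have e1 : pw s w (fun _ : Ω => ()) () = ∑ ω' ∈ s, w ω' := by
    unfold pw
    simp
  have e2 : pw s w (fun ω => (X ω, ())) (X ω, ()) = pw s w X (X ω) := by
    unfold pw
    simp
  rw [e1, e2]

theorem Hc_le_He {Ω α β : Type*} (s : Finset Ω) (w : Ω → ℝ) (hw : ∀ ω ∈ s, 0 ≤ w ω) (X : Ω → α)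
    (Y : Ω → β) : Hc s w X Y ≤ He s w X := by
  rw [← entD_const]
  exact Hc_anti s w hw X Y _ (fun _ _ _ _ _ => rfl)

/-- `He X ≤ He Y + Hc X Y` -/
theorem He_le {Ω α β : Type*} (s : Finset Ω) (w : Ω → ℝ) (hw : ∀ ω ∈ s, 0 ≤ w ω) (X : Ω → α)
    (Y : Ω → β) : He s w X ≤ He s w Y + Hc s w X Y := by
  rw [← He_pair s w hw X Y, ← entD_const s w X, ← entD_const s w (fun ω => (X ω, Y ω))]
  refine Hc_mono s w hw _ _ _ ?_
  intro ω _ ω' _ h _
  exact (Prod.ext_iff.1 h).1

end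

end Pool.Agent.Lib.MP_0b748d_nt.HH
end

section

set_option autoImplicit false

/-!
# The tree of forms and the cells
-/

namespace Pool.Agent.Lib.MP_0b748d_nt.HH

noncomputable section

private theorem l_Dt : Mt.l.Dt 1 := by simp [Mt.Dt, Mt.l]

private theorem r_Dt : Mt.r.Dt 1 := by simp [Mt.Dt, Mt.r]

private theorem mul_l_Dt {M : Mt} (hM : M.Dt 1) : (M.mul Mt.l).Dt 1 := Dt_mul hM l_Dt

private theorem mul_r_Dt {M : Mt} (hM : M.Dt 1) : (M.mul Mt.r).Dt 1 := Dt_mul hM r_Dt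

private theorem act_mul_l (Q : Fm) (M : Mt) : Q.act (M.mul Mt.l) = (Q.act M).lc := by
  rw [← act_mul, act_l]

private theorem act_mul_r (Q : Fm) (M : Mt) : Q.act (M.mul Mt.r) = (Q.act M).rc := by
  rw [← act_mul, act_r]

private theorem lc_e (Q : Fm) : Q.lc.e = Q.val 1 1 := by
  simp [Fm.lc, Fm.val]

private theorem rc_d (Q : Fm) : Q.rc.d = Q.val 1 1 := by
  simp [Fm.rc, Fm.val]

private theorem val_ge {Q : Fm} {M : Mt} (hM : M.Dt 1) : Q.val 1 1 ≤ (Q.act M).val 1 1 := by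
  rw [val_act]
  have h1 : 1 ≤ M.a * 1 + M.b * 1 := by
    by_contra h
    have ha : M.a = 0 := by omega
    have hb : M.b = 0 := by omega
    unfold Mt.Dt at hM
    rw [ha, hb] at hM
    omega
  have h2 : 1 ≤ M.c * 1 + M.d * 1 := by
    by_contra h
    have ha : M.c = 0 := by omega
    have hb : M.d = 0 := by omega
    unfold Mt.Dt at hM
    rw [ha, hb] at hM
    omega
  generalize M.a * 1 + M.b * 1 = x at *
  generalize M.c * 1 + M.d * 1 = y at *
  unfold Fm.val
  have e1 : 1 ^ 2 ≤ x ^ 2 := Nat.pow_le_pow_left h1 2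
  have e2 : 1 ^ 2 ≤ y ^ 2 := Nat.pow_le_pow_left h2 2
  have e3 : 1 * 1 ≤ x * y := Nat.mul_le_mul h1 h2
  have f1 := Nat.mul_le_mul_left Q.d e1
  have f2 := Nat.mul_le_mul_left Q.e e2
  have f3 := Nat.mul_le_mul_left (2 * Q.n) e3
  omega

/-- Strong induction on `Q'.d + Q'.e`. If `Q'.d, Q'.e ≤ T` then `Q' ∈ Cl T` and `M = one`. Otherwise
`max (Q'.d, Q'.e) > T ≥ 2`, so `Q'` is not a root and by `parent` it is `P.lc` or `P.rc`, and then
`P.val 1 1 = max (Q'.d, Q'.e) > T`; apply the induction hypothesis to `P` and multiply the matrix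
by `l` or `r` (`act_mul`, `act_l`, `act_r`). -/
theorem exists_anc {T : ℝ} (hT : 2 ≤ T) {Q' : Fm} (hQ : Q'.Ok) (h : T < (Q'.val 1 1 : ℝ)) :
    ∃ Q ∈ Cl T, ∃ M : Mt, M.Dt 1 ∧ Q' = Q.act M := by
  have hT0 : 0 ≤ T := by linarith
  have key : ∀ s : ℕ, ∀ Q' : Fm, Q'.d + Q'.e = s → Q'.Ok → T < (Q'.val 1 1 : ℝ) →
      ∃ Q ∈ Cl T, ∃ M : Mt, M.Dt 1 ∧ Q' = Q.act M := by
    intro s
    induction s using Nat.strong_induction_on with
    | _ s ih =>
      intro Q' hs hQ h
      by_cases hsmall : (Q'.d : ℝ) ≤ T ∧ (Q'.e : ℝ) ≤ T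
      · exact ⟨Q', (mem_Cl hT0).2 ⟨hQ, hsmall.1, hsmall.2, h⟩, Mt.one,
          by simp [Mt.Dt, Mt.one], (act_one Q').symm⟩
      · rcases parent hQ with h1 | h1 | ⟨P, hP, h1⟩ | ⟨P, hP, h1⟩
        · exfalso
          apply hsmall
          subst h1
          constructor
          · norm_num
            linarith
          · norm_num
            linarith
        · exfalso
          apply hsmall
          subst h1
          constructor
          · norm_num
            linarith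
          · norm_num
            linarith
        · have hlt := lc_lt hP
          rw [← h1] at hlt
          have he : Q'.e = P.val 1 1 := by rw [h1, lc_e]
          have hTe : T < (Q'.e : ℝ) := by
            by_contra hcon
            push Not at hcon
            apply hsmall
            refine ⟨?_, hcon⟩
            have : (Q'.d : ℝ) ≤ (Q'.e : ℝ) := by exact_mod_cast hlt.le
            linarith
          have hPs : P.d + P.e < s := by
            rw [← hs, h1]
            have := hP.1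
            simp only [Fm.lc]
            omega
          obtain ⟨Q, hQC, M, hM, hPM⟩ := ih _ hPs P rfl hP (by rw [← he]; exact hTe)
          exact ⟨Q, hQC, M.mul Mt.l, mul_l_Dt hM, by rw [act_mul_l, ← hPM, h1]⟩
        · have hlt := rc_lt hP
          rw [← h1] at hlt
          have he : Q'.d = P.val 1 1 := by rw [h1, rc_d]
          have hTe : T < (Q'.d : ℝ) := by
            by_contra hcon
            push Not at hcon
            apply hsmall
            refine ⟨hcon, ?_⟩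
            have : (Q'.e : ℝ) ≤ (Q'.d : ℝ) := by exact_mod_cast hlt.le
            linarith
          have hPs : P.d + P.e < s := by
            rw [← hs, h1]
            have := hP.2.1
            simp only [Fm.rc]
            omega
          obtain ⟨Q, hQC, M, hM, hPM⟩ := ih _ hPs P rfl hP (by rw [← he]; exact hTe)
          exact ⟨Q, hQC, M.mul Mt.r, mul_r_Dt hM, by rw [act_mul_r, ← hPM, h1]⟩
  exact key _ Q' rfl hQ h

private theorem anc_aux {T : ℝ} (hT : 0 ≤ T) {Q₁ Q₂ : Fm} (h₁ : Q₁ ∈ Cl T) (h₂ : Q₂ ∈ Cl T)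
    {M₂ : Mt} (k₂ : M₂.Dt 1) (h : Q₁ = Q₂.act M₂) : Q₁ = Q₂ ∧ Mt.one = M₂ := by
  have h1 := (mem_Cl hT).1 h₁
  have h2 := (mem_Cl hT).1 h₂
  rcases SL_cases k₂ with hM | ⟨M', hM', hM, -⟩ | ⟨M', hM', hM, -⟩
  · rw [hM, act_one] at h
    exact ⟨h, hM.symm⟩
  · exfalso
    rw [hM, act_mul_l] at h
    have h3 : Q₁.e = (Q₂.act M').val 1 1 := by rw [h, lc_e]
    have h4 : ((Q₂.val 1 1 : ℕ) : ℝ) ≤ (((Q₂.act M').val 1 1 : ℕ) : ℝ) := by
      exact_mod_cast val_ge hM'
    rw [← h3] at h4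
    linarith [h1.2.2.1, h2.2.2.2]
  · exfalso
    rw [hM, act_mul_r] at h
    have h3 : Q₁.d = (Q₂.act M').val 1 1 := by rw [h, rc_d]
    have h4 : ((Q₂.val 1 1 : ℕ) : ℝ) ≤ (((Q₂.act M').val 1 1 : ℕ) : ℝ) := by
      exact_mod_cast val_ge hM'
    rw [← h3] at h4
    linarith [h1.2.1, h2.2.2.2]

/-- Induction on the sum of the entries of `M₁` and `M₂` with `SL_cases`. If `M₁ = one` and
`M₂ ≠ one` then `Q₁ = Q₂.act M₂` has an entry `Q.d` or `Q.e` equal to `(Q₂.act M').val 1 1 ≥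
Q₂.val 1 1 > T`, contradiction (values of `Q₂.act M'` at `(1, 1)` are values `Q₂.val x y` with
`x, y ≥ 1`). If both are not `one`, the last letters agree by `lc_lt`, `rc_lt`, and one cancels them by
`lc_inj`, `rc_inj`. -/
theorem anc_unique {T : ℝ} (hT : 0 ≤ T) {Q₁ Q₂ : Fm} (h₁ : Q₁ ∈ Cl T) (h₂ : Q₂ ∈ Cl T) {M₁ M₂ : Mt}
    (k₁ : M₁.Dt 1) (k₂ : M₂.Dt 1) (h : Q₁.act M₁ = Q₂.act M₂) : Q₁ = Q₂ ∧ M₁ = M₂ := by
  have hQ1 := ((mem_Cl hT).1 h₁).1
  have hQ2 := ((mem_Cl hT).1 h₂).1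
  have key : ∀ s : ℕ, ∀ M₁ M₂ : Mt, M₁.a + M₁.b + M₁.c + M₁.d = s → M₁.Dt 1 → M₂.Dt 1 →
      Q₁.act M₁ = Q₂.act M₂ → Q₁ = Q₂ ∧ M₁ = M₂ := by
    intro s
    induction s using Nat.strong_induction_on with
    | _ s ih =>
      intro M₁ M₂ hs k₁ k₂ h
      rcases SL_cases k₁ with hM | ⟨N₁, hN₁, hM, hlt⟩ | ⟨N₁, hN₁, hM, hlt⟩
      · rw [hM, act_one] at h
        rw [hM]
        exact anc_aux hT h₁ h₂ k₂ h
      · rcases SL_cases k₂ with hM2 | ⟨N₂, hN₂, hM2, -⟩ | ⟨N₂, hN₂, hM2, -⟩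
        · rw [hM2, act_one] at h
          have := anc_aux hT h₂ h₁ k₁ h.symm
          exact ⟨this.1.symm, by rw [hM2]; exact this.2.symm⟩
        · rw [hM, hM2, act_mul_l, act_mul_l] at h
          have h3 := ih _ (by rw [← hs]; exact hlt) N₁ N₂ rfl hN₁ hN₂ (lc_inj h)
          exact ⟨h3.1, by rw [hM, hM2, h3.2]⟩
        · exfalso
          rw [hM, hM2, act_mul_l, act_mul_r] at h
          have h3 := lc_lt (act_Ok hQ1 hN₁)
          have h4 := rc_lt (act_Ok hQ2 hN₂)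
          rw [h] at h3
          omega
      · rcases SL_cases k₂ with hM2 | ⟨N₂, hN₂, hM2, -⟩ | ⟨N₂, hN₂, hM2, -⟩
        · rw [hM2, act_one] at h
          have := anc_aux hT h₂ h₁ k₁ h.symm
          exact ⟨this.1.symm, by rw [hM2]; exact this.2.symm⟩
        · exfalso
          rw [hM, hM2, act_mul_r, act_mul_l] at h
          have h3 := rc_lt (act_Ok hQ1 hN₁)
          have h4 := lc_lt (act_Ok hQ2 hN₂)
          rw [h] at h3
          omega
        · rw [hM, hM2, act_mul_r, act_mul_r] at h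
          have h3 := ih _ (by rw [← hs]; exact hlt) N₁ N₂ rfl hN₁ hN₂ (rc_inj h)
          exact ⟨h3.1, by rw [hM, hM2, h3.2]⟩
  exact key _ M₁ M₂ rfl k₁ k₂ h

/-- `Finset.sum_sigma'`, `Finset.sum_bij'`-type argument with `(Q, M) ↦ Q.act M`; `exists_anc`
(`T ≤ T' < Q'.val 1 1`), `anc_unique`, `mem_Dn`. -/
theorem refine_sum {T T' : ℝ} (hT : 2 ≤ T) (hTT : T ≤ T') (φ : Fm → ℝ) :
    ∑ Q' ∈ Cl T', φ Q' = ∑ Q ∈ Cl T, ∑ M ∈ Dn T' Q, φ (Q.act M) := by
  have hT0 : 0 ≤ T := by linarith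
  have hT0' : 0 ≤ T' := by linarith
  rw [Finset.sum_sigma']
  symm
  refine Finset.sum_bij (fun x _ => x.1.act x.2) ?_ ?_ ?_ ?_
  · intro x hx
    rw [Finset.mem_sigma] at hx
    have hQ := ((mem_Cl hT0).1 hx.1).1
    exact ((mem_Dn hT0' hQ).1 hx.2).2
  · intro x hx y hy hxy
    rw [Finset.mem_sigma] at hx hy
    have hQ := ((mem_Cl hT0).1 hx.1).1
    have hQ' := ((mem_Cl hT0).1 hy.1).1
    have h1 := ((mem_Dn hT0' hQ).1 hx.2).1
    have h2 := ((mem_Dn hT0' hQ').1 hy.2).1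
    have h3 := anc_unique hT0 hx.1 hy.1 h1 h2 hxy
    rcases x with ⟨Q, M⟩
    rcases y with ⟨Q', M'⟩
    obtain ⟨h4, h5⟩ := h3
    simp only at h4 h5
    subst h4
    subst h5
    rfl
  · intro Q' hQ'
    have h1 := (mem_Cl hT0').1 hQ'
    obtain ⟨Q, hQ, M, hM, h2⟩ := exists_anc hT h1.1 (lt_of_le_of_lt hTT h1.2.2.2)
    refine ⟨⟨Q, M⟩, ?_, h2.symm⟩
    rw [Finset.mem_sigma]
    refine ⟨hQ, (mem_Dn hT0' ((mem_Cl hT0).1 hQ).1).2 ⟨hM, ?_⟩⟩
    rw [← h2]
    exact hQ'
  · intro x _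
    rfl

end

end Pool.Agent.Lib.MP_0b748d_nt.HH
end

section

set_option autoImplicit false

/-!
# The limit average over cells
-/

namespace Pool.Agent.Lib.MP_0b748d_nt.HH

open Filter Topology

noncomputable section

theorem tt_le_shift {n : ℕ} (hn : 1 ≤ n) (i l : ℕ) : tt n i ≤ tt n (i + l * n) :=
  (tt_le_iff n hn _ _).2 (Nat.le_add_right _ _)

theorem two_le_tt {n : ℕ} (hn : 1 ≤ n) (i : ℕ) : 2 ≤ tt n i ↔ n ≤ i := by
  have h0 : tt n (0 + 1 * n) = 2 := by
    rw [tt_add n hn]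
    simp [tt]
  rw [← h0, tt_le_iff n hn]
  omega

/-- the sum over the cells of a level of the sums over descendants -/
theorem sum_desc {n : ℕ} (hn : 1 ≤ n) (i l : ℕ) (φ : Fm → ℝ) :
    ∑ Q ∈ Cl (tt n i), ∑ M ∈ Dn (tt n (i + l * n)) Q, φ (Q.act M) =
      if n ≤ i then ∑ Q' ∈ Cl (tt n (i + l * n)), φ Q' else 0 := by
  by_cases hi : n ≤ i
  · rw [if_pos hi]
    exact (refine_sum ((two_le_tt hn i).2 hi) (tt_le_shift hn i l) φ).symm
  · rw [if_neg hi, Cl_empty (tt_pos n i).le (lt_of_not_ge fun h => hi ((two_le_tt hn i).1 h))]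
    rfl

/-- sums over descendants of a `Bd` function are `Bd`: `refine_sum` for levels `≥ 2`, and there are no
cells of level `< 2` -/
theorem Bd_desc {φ : ℕ → ℕ → Fm → ℝ} (l : ℕ) (h : Bd φ) :
    Bd (fun n i Q => ∑ M ∈ Dn (tt n (i + l * n)) Q, φ n (i + l * n) (Q.act M)) := by
  obtain ⟨C, hC⟩ := h
  refine ⟨|C| * 2 ^ l, fun n i hn => ?_⟩
  have hT := tt_pos n i
  have h1 : ∑ Q ∈ Cl (tt n i), |∑ M ∈ Dn (tt n (i + l * n)) Q, φ n (i + l * n) (Q.act M)| ≤
      ∑ Q ∈ Cl (tt n i), ∑ M ∈ Dn (tt n (i + l * n)) Q, |φ n (i + l * n) (Q.act M)| :=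
    Finset.sum_le_sum fun Q _ => Finset.abs_sum_le_sum_abs _ _
  refine h1.trans ?_
  rw [sum_desc hn i l (fun Q => |φ n (i + l * n) Q|)]
  split_ifs with hi
  · refine (hC n (i + l * n) hn).trans ?_
    rw [tt_add n hn, mul_assoc]
    exact mul_le_mul_of_nonneg_right (le_abs_self C) (by positivity)
  · positivity

/-- Invariance. Put `ψ i = (1 / tt n i) ∑_{Q ∈ Cl (tt n i)} φ n i Q`, `|ψ i| ≤ C`. For `i ≥ n`
(`tt n i ≥ 2`) the inner sum over `Cl (tt n i)` is `∑_{Q' ∈ Cl (tt n (i + l n))} φ n (i + l n) Q'` by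
`refine_sum`, and `1 / tt n i = 2 ^ l / tt n (i + l n)` (`tt_add`). For `i < n` there are no cells. So
`AvN n (…) = 2 ^ l (1 / n²) ∑_{n ≤ i < n²} ψ (i + l n)`, which differs from `2 ^ l AvN n (φ n)` by
at most `2 ^ l C (n + 2 l n) / n² → 0`; `ul_eq_of_sub`, `ul_smul`. -/
theorem Av_shift {U : Ultrafilter ℕ} (hU : (U : Filter ℕ) ≤ atTop) {φ : ℕ → ℕ → Fm → ℝ} (l : ℕ)
    (h : Bd φ) :
    Av U (fun n i Q => ∑ M ∈ Dn (tt n (i + l * n)) Q, φ n (i + l * n) (Q.act M)) =
      2 ^ l * Av U φ := by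
  have hb := Bd_desc l h
  unfold Av
  rw [← ul_smul (2 ^ l) (AvN_Bs h)]
  refine ul_eq_of_sub hU (AvN_Bs hb) (Bs_smul _ (AvN_Bs h)) ?_
  obtain ⟨C0, hC0⟩ := h
  obtain ⟨C, hCdef⟩ : ∃ C : ℝ, C = |C0| := ⟨_, rfl⟩
  have hC : 0 ≤ C := by
    rw [hCdef]
    exact abs_nonneg _
  -- the bound of the difference
  have key : ∀ n : ℕ, 1 ≤ n →
      |AvN n (fun i Q => ∑ M ∈ Dn (tt n (i + l * n)) Q, φ n (i + l * n) (Q.act M)) -
        2 ^ l * AvN n (φ n)| ≤ 2 ^ l * (C * (1 + 2 * l)) / (n : ℝ) := by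
    intro n hn
    have hn1 : (0 : ℝ) < n := by exact_mod_cast hn
    obtain ⟨ψ, hψ⟩ : ∃ ψ : ℕ → ℝ, ∀ i, ψ i = (1 / tt n i) * ∑ Q ∈ Cl (tt n i), φ n i Q :=
      ⟨_, fun _ => rfl⟩
    have hψC : ∀ i, |ψ i| ≤ C := by
      intro i
      have hT := tt_pos n i
      rw [hψ, abs_mul, abs_of_pos (by positivity : 0 < 1 / tt n i)]
      calc 1 / tt n i * |∑ Q ∈ Cl (tt n i), φ n i Q| ≤ 1 / tt n i * (C0 * tt n i) :=
            mul_le_mul_of_nonneg_left ((Finset.abs_sum_le_sum_abs _ _).trans (hC0 n i hn))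
              (by positivity)
        _ = C0 := by field_simp
        _ ≤ C := by
          rw [hCdef]
          exact le_abs_self _
    have e1 : AvN n (fun i Q => ∑ M ∈ Dn (tt n (i + l * n)) Q, φ n (i + l * n) (Q.act M)) =
        (1 / (n : ℝ) ^ 2) * ∑ i ∈ Finset.range (n ^ 2),
          (2 ^ l * (ψ (l * n + i) - if i < n then ψ (l * n + i) else 0)) := by
      unfold AvN
      congr 1
      refine Finset.sum_congr rfl fun i _ => ?_
      rw [sum_desc hn i l (fun Q => φ n (i + l * n) Q)]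
      by_cases hi : n ≤ i
      · rw [if_pos hi, if_neg (not_lt.2 hi), sub_zero, hψ, add_comm (l * n) i, tt_add n hn]
        have hT := tt_pos n i
        have h2 : (0 : ℝ) < 2 ^ l := by positivity
        field_simp
      · rw [if_neg hi, if_pos (not_le.1 hi), sub_self, mul_zero, mul_zero]
    have e2 : AvN n (φ n) = (1 / (n : ℝ) ^ 2) * ∑ i ∈ Finset.range (n ^ 2), ψ i := by
      unfold AvN
      congr 1
      exact Finset.sum_congr rfl fun i _ => (hψ i).symm
    have e3 : ∑ i ∈ Finset.range (n ^ 2), ψ (l * n + i) - ∑ i ∈ Finset.range (n ^ 2), ψ i =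
        ∑ i ∈ Finset.range (l * n), ψ (n ^ 2 + i) - ∑ i ∈ Finset.range (l * n), ψ i := by
      have h1 := Finset.sum_range_add ψ (l * n) (n ^ 2)
      have h2 := Finset.sum_range_add ψ (n ^ 2) (l * n)
      rw [add_comm (l * n) (n ^ 2), h2] at h1
      linarith
    have hs : ∀ (s : Finset ℕ) (g : ℕ → ℕ), |∑ i ∈ s, ψ (g i)| ≤ (s.card : ℝ) * C := by
      intro s g
      calc |∑ i ∈ s, ψ (g i)| ≤ ∑ i ∈ s, |ψ (g i)| := Finset.abs_sum_le_sum_abs _ _
        _ ≤ ∑ _i ∈ s, C := Finset.sum_le_sum fun i _ => hψC _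
        _ = (s.card : ℝ) * C := by rw [Finset.sum_const, nsmul_eq_mul]
    have b1 : |∑ i ∈ Finset.range (n ^ 2), (if i < n then ψ (l * n + i) else 0)| ≤ n * C := by
      rw [← Finset.sum_filter]
      refine (hs _ (fun i => l * n + i)).trans ?_
      refine mul_le_mul_of_nonneg_right ?_ hC
      have h3 : ((Finset.range (n ^ 2)).filter (fun i => i < n)).card ≤ n := by
        calc ((Finset.range (n ^ 2)).filter (fun i => i < n)).card
            ≤ (Finset.range n).card := by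
              apply Finset.card_le_card
              intro i hi
              rw [Finset.mem_filter] at hi
              exact Finset.mem_range.2 hi.2
          _ = n := Finset.card_range _
      exact_mod_cast h3
    have b2 : |∑ i ∈ Finset.range (l * n), ψ (n ^ 2 + i)| ≤ (l * n) * C := by
      have h4 := hs (Finset.range (l * n)) (fun i => n ^ 2 + i)
      rw [Finset.card_range] at h4
      push_cast at h4
      exact h4
    have b3 : |∑ i ∈ Finset.range (l * n), ψ i| ≤ (l * n) * C := by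
      have h4 := hs (Finset.range (l * n)) (fun i => i)
      rw [Finset.card_range] at h4
      push_cast at h4
      exact h4
    have e4 : AvN n (fun i Q => ∑ M ∈ Dn (tt n (i + l * n)) Q, φ n (i + l * n) (Q.act M)) -
        2 ^ l * AvN n (φ n) = (1 / (n : ℝ) ^ 2) * (2 ^ l *
          ((∑ i ∈ Finset.range (l * n), ψ (n ^ 2 + i) - ∑ i ∈ Finset.range (l * n), ψ i) -
            ∑ i ∈ Finset.range (n ^ 2), (if i < n then ψ (l * n + i) else 0))) := by
      rw [e1, e2, ← e3, ← Finset.mul_sum, Finset.sum_sub_distrib]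
      ring
    rw [e4, abs_mul, abs_mul, abs_of_pos (by positivity : 0 < 1 / (n : ℝ) ^ 2),
      abs_of_pos (by positivity : (0 : ℝ) < 2 ^ l)]
    have b4 : |(∑ i ∈ Finset.range (l * n), ψ (n ^ 2 + i) - ∑ i ∈ Finset.range (l * n), ψ i) -
        ∑ i ∈ Finset.range (n ^ 2), (if i < n then ψ (l * n + i) else 0)| ≤
          (l * n) * C + (l * n) * C + n * C :=
      (abs_sub _ _).trans (add_le_add ((abs_sub _ _).trans (add_le_add b2 b3)) b1)
    calc 1 / (n : ℝ) ^ 2 * (2 ^ l *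
        |(∑ i ∈ Finset.range (l * n), ψ (n ^ 2 + i) - ∑ i ∈ Finset.range (l * n), ψ i) -
        ∑ i ∈ Finset.range (n ^ 2), (if i < n then ψ (l * n + i) else 0)|)
        ≤ 1 / (n : ℝ) ^ 2 * (2 ^ l * ((l * n) * C + (l * n) * C + n * C)) := by gcongr
      _ = 2 ^ l * (C * (1 + 2 * l)) / (n : ℝ) := by
        field_simp
        ring
  refine squeeze_zero_norm' ?_ (tendsto_const_div_atTop_nhds_zero_nat (2 ^ l * (C * (1 + 2 * l))))
  filter_upwards [eventually_ge_atTop 1] with n hn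
  rw [Real.norm_eq_abs]
  exact key n hn

end

end Pool.Agent.Lib.MP_0b748d_nt.HH
end

section

set_option autoImplicit false

/-!
# Entropy of limit laws
-/

namespace Pool.Agent.Lib.MP_0b748d_nt.HH

open Filter Topology

noncomputable section

/-- chain rule inequality in the limit -/
theorem lim_chain {α β : Type*} (U : Ultrafilter ℕ) (X : ℕ → ℕ → Fm → α) (Y : ℕ → ℕ → Fm → β)
    (A : Finset α) (B : Finset β) (hA : Rg X A) (hB : Rg Y B) :
    he A (l1 U X) ≤ he B (l1 U Y) + hc A B (l2 U X Y) := by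
  have hp : ∀ a, ∑ b ∈ B, l2 U X Y a b = l1 U X a := l2_sum_right U X Y B hB
  have hr : ∀ b, ∑ a ∈ A, l2 U X Y a b = l1 U Y b := l2_sum_left U X Y A hA
  have hS1 := l1_sum U X A hA
  have hS2 := l1_sum U Y B hB
  unfold he hc
  rw [hS1, hS2]
  simp only [hr]
  have e1 : ∑ a ∈ A, l1 U X a * Real.log (mass U / l1 U X a) =
      ∑ a ∈ A, ∑ b ∈ B, l2 U X Y a b * Real.log (mass U / l1 U X a) := by
    refine Finset.sum_congr rfl fun a _ => ?_
    rw [← Finset.sum_mul, hp]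
  have e2 : ∑ b ∈ B, l1 U Y b * Real.log (mass U / l1 U Y b) =
      ∑ a ∈ A, ∑ b ∈ B, l2 U X Y a b * Real.log (mass U / l1 U Y b) := by
    rw [Finset.sum_comm]
    refine Finset.sum_congr rfl fun b _ => ?_
    rw [← Finset.sum_mul, hr]
  rw [e1, e2, ← Finset.sum_add_distrib]
  refine Finset.sum_le_sum fun a ha => ?_
  rw [← Finset.sum_add_distrib]
  refine Finset.sum_le_sum fun b hb => ?_
  rcases (l2_nonneg U X Y a b).eq_or_lt with h0 | h0
  · rw [← h0]
    simp
  · have h1 : l2 U X Y a b ≤ l1 U X a := by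
      rw [← hp a]
      exact Finset.single_le_sum (fun b _ => l2_nonneg U X Y a b) hb
    have h2 : l2 U X Y a b ≤ l1 U Y b := by
      rw [← hr b]
      exact Finset.single_le_sum (f := fun a => l2 U X Y a b) (fun a _ => l2_nonneg U X Y a b) ha
    have h3 : l1 U X a ≤ mass U := by
      rw [← hS1]
      exact Finset.single_le_sum (fun a _ => l1_nonneg U X a) ha
    have p1 : 0 < l1 U X a := lt_of_lt_of_le h0 h1
    have p2 : 0 < l1 U Y b := lt_of_lt_of_le h0 h2
    have p3 : 0 < mass U := lt_of_lt_of_le p1 h3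
    rw [← mul_add]
    refine mul_le_mul_of_nonneg_left ?_ h0.le
    rw [Real.log_div p3.ne' p1.ne', Real.log_div p3.ne' p2.ne', Real.log_div p2.ne' h0.ne']
    have := Real.log_le_log h0 h1
    linarith

/-- at most `N` values -/
theorem lim_card {α : Type*} (U : Ultrafilter ℕ) (X : ℕ → ℕ → Fm → α) (A : Finset α) (hA : Rg X A) :
    he A (l1 U X) ≤ mass U * Real.log A.card := by
  have hS1 := l1_sum U X A hA
  have hle : ∀ a ∈ A, l1 U X a ≤ mass U := fun a ha => by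
    rw [← hS1]
    exact Finset.single_le_sum (fun a _ => l1_nonneg U X a) ha
  have h0 : 0 ≤ mass U := by
    rw [← hS1]
    exact Finset.sum_nonneg fun a _ => l1_nonneg U X a
  have h := log_sum A (l1 U X) (fun _ => mass U) (fun a _ => l1_nonneg U X a) (fun _ _ => h0)
    (fun a ha hz => le_antisymm ((hle a ha).trans hz.le) (l1_nonneg U X a))
  unfold he
  rw [hS1]
  refine h.trans ?_
  rw [hS1, Finset.sum_const, nsmul_eq_mul]
  rcases h0.eq_or_lt with h1 | h1
  · rw [← h1]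
    simp
  · rw [mul_div_cancel_right₀ _ h1.ne']

end

end Pool.Agent.Lib.MP_0b748d_nt.HH
end
end
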