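import Mathlib
import Pool.Agent.Lib.MP_0b748d_nt.HH.Defs
import Pool.Agent.Lib.MP_0b748d_nt.HH.PatA
import Pool.Agent.Lib.MP_0b748d_nt.HH.AvEE
import Pool.Agent.Lib.MP_0b748d_nt.HH.TreeF
import Pool.Agent.Lib.MP_0b748d_nt.HH.CntE
import Pool.Agent.Lib.MP_0b748d_nt.HH.CvE
import Pool.Agent.Lib.MP_0b748d_nt.HH.AvEB

section

section

set_option autoImplicit false

/-!
# Counting cells, forms and vectors
-/

namespace Pool.Agent.Lib.MP_0b748d_nt.HH



noncomputable section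

/-- the vectors with `Q.val x y ≤ Y` -/
def Vt (Q : Fm) (Y : ℝ) : Finset (ℕ × ℕ) := by
  classical
  exact (Finset.range (⌊Y⌋₊ + 1) ×ˢ Finset.range (⌊Y⌋₊ + 1)).filter
    (fun v => (Q.val v.1 v.2 : ℝ) ≤ Y)

theorem mem_Vt {Q : Fm} (hQ : Q.Ok) {Y : ℝ} (hY : 0 ≤ Y) {v : ℕ × ℕ} :
    v ∈ Vt Q Y ↔ (Q.val v.1 v.2 : ℝ) ≤ Y := by
  classical
  unfold Vt
  rw [Finset.mem_filter, Finset.mem_product, Finset.mem_range, Finset.mem_range]
  refine ⟨fun h => h.2, fun h => ⟨⟨?_, ?_⟩, h⟩⟩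
  · refine Nat.lt_succ_of_le (Nat.le_floor (le_trans ?_ h))
    have h1 : v.1 ≤ Q.val v.1 v.2 := by
      unfold Fm.val
      have h2 : v.1 ≤ v.1 ^ 2 := Nat.le_self_pow two_ne_zero _
      have h3 : 1 * v.1 ^ 2 ≤ Q.d * v.1 ^ 2 := Nat.mul_le_mul_right _ hQ.1
      omega
    exact_mod_cast h1
  · refine Nat.lt_succ_of_le (Nat.le_floor (le_trans ?_ h))
    have h1 : v.2 ≤ Q.val v.1 v.2 := by
      unfold Fm.val
      have h2 : v.2 ≤ v.2 ^ 2 := Nat.le_self_pow two_ne_zero _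
      have h3 : 1 * v.2 ^ 2 ≤ Q.e * v.2 ^ 2 := Nat.mul_le_mul_right _ hQ.2.1
      omega
    exact_mod_cast h1

/-- `x ≤ √(Y / d)`, `y ≤ √(Y / e)`, and `√(Y / d) + 1 ≤ 2 √(Y / d)` as `d ≤ Y`. -/
theorem Vt_card {Q : Fm} (hQ : Q.Ok) {Y : ℝ} (hd : (Q.d : ℝ) ≤ Y) (he : (Q.e : ℝ) ≤ Y) :
    ((Vt Q Y).card : ℝ) ≤ 4 * Y / √((Q.d : ℝ) * Q.e) := by
  classical
  have hd0 : (0 : ℝ) < Q.d := by exact_mod_cast hQ.1
  have he0 : (0 : ℝ) < Q.e := by exact_mod_cast hQ.2.1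
  have hY : 0 < Y := hd0.trans_le hd
  have h1 : Vt Q Y ⊆ Finset.range (⌊√(Y / Q.d)⌋₊ + 1) ×ˢ Finset.range (⌊√(Y / Q.e)⌋₊ + 1) := by
    intro v hv
    rw [mem_Vt hQ hY.le] at hv
    have hval : (Q.val v.1 v.2 : ℝ) = Q.d * (v.1 : ℝ) ^ 2 + 2 * Q.n * (v.1 * v.2) +
        Q.e * (v.2 : ℝ) ^ 2 := by
      unfold Fm.val
      push_cast
      ring
    rw [hval] at hv
    have e1 : (0 : ℝ) ≤ 2 * Q.n * (v.1 * v.2) := by positivity
    have e2 : (0 : ℝ) ≤ Q.d * (v.1 : ℝ) ^ 2 := by positivity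
    have e3 : (0 : ℝ) ≤ Q.e * (v.2 : ℝ) ^ 2 := by positivity
    rw [Finset.mem_product, Finset.mem_range, Finset.mem_range]
    refine ⟨Nat.lt_succ_of_le (Nat.le_floor ?_), Nat.lt_succ_of_le (Nat.le_floor ?_)⟩
    · apply Real.le_sqrt_of_sq_le
      rw [le_div_iff₀ hd0]
      linarith
    · apply Real.le_sqrt_of_sq_le
      rw [le_div_iff₀ he0]
      linarith
  have h2 := Finset.card_le_card h1
  rw [Finset.card_product, Finset.card_range, Finset.card_range] at h2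
  have h3 : ((Vt Q Y).card : ℝ) ≤ ((⌊√(Y / Q.d)⌋₊ : ℝ) + 1) * ((⌊√(Y / Q.e)⌋₊ : ℝ) + 1) := by
    exact_mod_cast h2
  have h4 : 1 ≤ √(Y / Q.d) := by
    rw [Real.one_le_sqrt, one_le_div hd0]
    exact hd
  have h5 : 1 ≤ √(Y / Q.e) := by
    rw [Real.one_le_sqrt, one_le_div he0]
    exact he
  have h6 : (⌊√(Y / Q.d)⌋₊ : ℝ) ≤ √(Y / Q.d) := Nat.floor_le (Real.sqrt_nonneg _)
  have h7 : (⌊√(Y / Q.e)⌋₊ : ℝ) ≤ √(Y / Q.e) := Nat.floor_le (Real.sqrt_nonneg _)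
  have h8 : √(Y / Q.d) * √(Y / Q.e) = Y / √((Q.d : ℝ) * Q.e) := by
    rw [Real.sqrt_div hY.le, Real.sqrt_div hY.le, div_mul_div_comm, Real.mul_self_sqrt hY.le,
      Real.sqrt_mul hd0.le]
  calc ((Vt Q Y).card : ℝ) ≤ ((⌊√(Y / Q.d)⌋₊ : ℝ) + 1) * ((⌊√(Y / Q.e)⌋₊ : ℝ) + 1) := h3
    _ ≤ (2 * √(Y / Q.d)) * (2 * √(Y / Q.e)) :=
      mul_le_mul (by linarith) (by linarith) (by positivity) (by positivity)
    _ = 4 * (√(Y / Q.d) * √(Y / Q.e)) := by ring
    _ = 4 * Y / √((Q.d : ℝ) * Q.e) := by rw [h8, mul_div_assoc]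

end

end Pool.Agent.Lib.MP_0b748d_nt.HH
end

section

set_option autoImplicit false

/-!
# Entropy decrement
-/

namespace Pool.Agent.Lib.MP_0b748d_nt.HH

open Filter Topology

noncomputable section

/-- the step sizes: `(k + 2)² ≤ 2 ^ l ≤ 4 (k + 2)²` -/
def ls (k : ℕ) : ℕ := 2 * Nat.clog 2 (k + 2)

theorem ls_bounds (k : ℕ) : ((k : ℝ) + 2) ^ 2 ≤ 2 ^ ls k ∧ (2 : ℝ) ^ ls k ≤ 4 * ((k : ℝ) + 2) ^ 2 := by
  have h1 : k + 2 ≤ 2 ^ Nat.clog 2 (k + 2) := Nat.le_pow_clog (by norm_num) _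
  have hk2 : 1 < k + 2 := by omega
  have h2 : 2 ^ (Nat.clog 2 (k + 2) - 1) < k + 2 :=
    Nat.pow_pred_clog_lt_self (b := 2) (by norm_num) hk2
  have hc : 0 < Nat.clog 2 (k + 2) := Nat.clog_pos (by norm_num) hk2
  have h3 : 2 ^ Nat.clog 2 (k + 2) ≤ 2 * (k + 2) := by
    have : 2 ^ Nat.clog 2 (k + 2) = 2 * 2 ^ (Nat.clog 2 (k + 2) - 1) := by
      rw [← pow_succ', Nat.sub_add_cancel hc]
    omega
  have h1' : (k : ℝ) + 2 ≤ 2 ^ Nat.clog 2 (k + 2) := by exact_mod_cast h1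
  have h3' : (2 : ℝ) ^ Nat.clog 2 (k + 2) ≤ 2 * ((k : ℝ) + 2) := by exact_mod_cast h3
  have e : (2 : ℝ) ^ ls k = (2 ^ Nat.clog 2 (k + 2)) ^ 2 := by
    rw [ls, mul_comm, pow_mul]
  rw [e]
  constructor
  · exact pow_le_pow_left₀ (by positivity) h1' 2
  · calc ((2 : ℝ) ^ Nat.clog 2 (k + 2)) ^ 2 ≤ (2 * ((k : ℝ) + 2)) ^ 2 :=
          pow_le_pow_left₀ (by positivity) h3' 2
      _ = 4 * ((k : ℝ) + 2) ^ 2 := by ring

/-- `∑_{s < k} log (2 ^ l_s) ≤ 2 k log (2 (k + 1))` -/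
theorem R_log (P : Par) (hl : P.l = ls) (hR : 1 ≤ P.R0) (k : ℕ) :
    Real.log (P.R k) ≤ Real.log P.R0 + 2 * (k + 1) * Real.log (2 * (k + 2)) := by
  have hR0 : (0 : ℝ) < P.R0 := by exact_mod_cast hR
  unfold Par.R
  rw [hl]
  push_cast
  rw [Real.log_mul hR0.ne' (by positivity), Real.log_pow]
  have h1 : ∀ s ∈ Finset.range k, (ls s : ℝ) * Real.log 2 ≤ 2 * Real.log (2 * (k + 2)) := by
    intro s hs
    have hs' := Finset.mem_range.1 hs
    have h2 := (ls_bounds s).2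
    have h3 : (2 : ℝ) ^ ls s ≤ (2 * ((k : ℝ) + 2)) ^ 2 := by
      refine h2.trans ?_
      have h4 : (s : ℝ) + 2 ≤ (k : ℝ) + 2 := by
        have : (s : ℝ) ≤ k := by exact_mod_cast hs'.le
        linarith
      calc 4 * ((s : ℝ) + 2) ^ 2 ≤ 4 * ((k : ℝ) + 2) ^ 2 := by gcongr
        _ = (2 * ((k : ℝ) + 2)) ^ 2 := by ring
    have h5 := Real.log_le_log (by positivity) h3
    rw [Real.log_pow, Real.log_pow] at h5
    exact_mod_cast h5
  have hlog : 0 ≤ Real.log (2 * ((k : ℝ) + 2)) := Real.log_nonneg (by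
    have : (0 : ℝ) ≤ k := Nat.cast_nonneg k
    linarith)
  have h6 : ((∑ s ∈ Finset.range k, ls s : ℕ) : ℝ) * Real.log 2 ≤
      k * (2 * Real.log (2 * (k + 2))) := by
    push_cast
    rw [Finset.sum_mul]
    calc ∑ s ∈ Finset.range k, (ls s : ℝ) * Real.log 2
        ≤ ∑ _s ∈ Finset.range k, 2 * Real.log (2 * ((k : ℝ) + 2)) := Finset.sum_le_sum h1
      _ = _ := by rw [Finset.sum_const, Finset.card_range, nsmul_eq_mul]
  push_cast at h6
  have h7 : (k : ℝ) * (2 * Real.log (2 * (k + 2))) ≤ 2 * (k + 1) * Real.log (2 * (k + 2)) := by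
    nlinarith
  push_cast
  linarith

private theorem loglog_step (k : ℕ) :
    Real.log (Real.log ((k : ℝ) + 3)) - Real.log (Real.log ((k : ℝ) + 2)) ≤
      1 / (((k : ℝ) + 2) * Real.log ((k : ℝ) + 2)) := by
  have hk : (0 : ℝ) ≤ k := Nat.cast_nonneg k
  have h2 : 0 < Real.log ((k : ℝ) + 2) := Real.log_pos (by linarith)
  have h3 : 0 < Real.log ((k : ℝ) + 3) := Real.log_pos (by linarith)
  rw [← Real.log_div h3.ne' h2.ne']
  have h4 : Real.log (Real.log ((k : ℝ) + 3) / Real.log ((k : ℝ) + 2)) ≤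
      Real.log ((k : ℝ) + 3) / Real.log ((k : ℝ) + 2) - 1 :=
    Real.log_le_sub_one_of_pos (div_pos h3 h2)
  refine h4.trans ?_
  have h5 : Real.log ((k : ℝ) + 3) - Real.log ((k : ℝ) + 2) ≤ 1 / ((k : ℝ) + 2) := by
    rw [← Real.log_div (by linarith) (by linarith)]
    have h6 := Real.log_le_sub_one_of_pos (x := ((k : ℝ) + 3) / ((k : ℝ) + 2)) (by positivity)
    refine h6.trans (le_of_eq ?_)
    field_simp
    ring
  have e : Real.log ((k : ℝ) + 3) / Real.log ((k : ℝ) + 2) - 1 =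
      (Real.log ((k : ℝ) + 3) - Real.log ((k : ℝ) + 2)) / Real.log ((k : ℝ) + 2) := by
    field_simp
  rw [e, div_le_iff₀ h2]
  refine h5.trans (le_of_eq ?_)
  field_simp

private theorem sum_loglog (k0 K : ℕ) (h : k0 ≤ K) :
    Real.log (Real.log ((K : ℝ) + 2)) - Real.log (Real.log ((k0 : ℝ) + 2)) ≤
      ∑ k ∈ Finset.Ico k0 K, 1 / (((k : ℝ) + 2) * Real.log ((k : ℝ) + 2)) := by
  induction K, h using Nat.le_induction with
  | base => simp
  | succ K hK ih =>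
    rw [Finset.sum_Ico_succ_top hK]
    have h1 := loglog_step K
    have e : ((K + 1 : ℕ) : ℝ) + 2 = (K : ℝ) + 3 := by push_cast; ring
    rw [e]
    linarith

private theorem asym (A : ℝ) : ∀ᶠ L : ℝ in atTop, 20 * Real.exp (8 * A) * Real.log (L + 3) ≤ L := by
  have h1 : ∀ᶠ x : ℝ in atTop, ‖Real.log x‖ ≤ (1 / (40 * Real.exp (8 * A))) * ‖id x‖ :=
    Real.isLittleO_log_id_atTop.def (by positivity)
  have h2 : Tendsto (fun L : ℝ => L + 3) atTop atTop := tendsto_atTop_add_const_right _ _ tendsto_id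
  filter_upwards [h2.eventually h1, eventually_ge_atTop (3 : ℝ)] with L hL hL3
  have h3 : Real.log (L + 3) ≤ (1 / (40 * Real.exp (8 * A))) * (L + 3) := by
    have h4 := (le_abs_self _).trans hL
    rwa [id, Real.norm_of_nonneg (by linarith)] at h4
  have hE : 0 < Real.exp (8 * A) := Real.exp_pos _
  calc 20 * Real.exp (8 * A) * Real.log (L + 3)
      ≤ 20 * Real.exp (8 * A) * ((1 / (40 * Real.exp (8 * A))) * (L + 3)) :=
        mul_le_mul_of_nonneg_left h3 (by positivity)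
    _ = (L + 3) / 2 := by field_simp; ring
    _ ≤ L := by linarith

/-- For `k ≥ log R0` the `k`-th term is at least `1 / (c (k + 2) log (k + 2))`; the sum over
`log R0 ≤ k < R0 ^ (1 / 20)` is at least `(1 / c)(log log (R0 ^ (1 / 20)) - log log (log R0)) - 1`, which
tends to infinity. -/
theorem sum_inv_log (A : ℝ) : ∃ N0 : ℕ, ∀ R : ℕ, N0 ≤ R →
    A ≤ ∑ k ∈ Finset.range ⌊(R : ℝ) ^ ((1 : ℝ) / 20)⌋₊,
      1 / (Real.log R + 2 * (k + 1) * Real.log (2 * (k + 2))) := by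
  have hT : Tendsto (fun R : ℕ => Real.log (R : ℝ)) atTop atTop :=
    Real.tendsto_log_atTop.comp tendsto_natCast_atTop_atTop
  have hev := hT.eventually ((asym (max A 0)).and (eventually_ge_atTop (20 : ℝ)))
  obtain ⟨N0, hN0⟩ := eventually_atTop.1 (hev.and (eventually_ge_atTop 1))
  refine ⟨N0, fun R hR => ?_⟩
  obtain ⟨⟨h1, hL20⟩, hR1⟩ := hN0 R hR
  set L : ℝ := Real.log (R : ℝ) with hL
  set K : ℕ := ⌊(R : ℝ) ^ ((1 : ℝ) / 20)⌋₊ with hK
  set k0 : ℕ := ⌈L⌉₊ with hk0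
  have hRpos : (0 : ℝ) < R := by exact_mod_cast hR1
  have hterm0 : ∀ k : ℕ, 0 ≤ 1 / (L + 2 * ((k : ℝ) + 1) * Real.log (2 * ((k : ℝ) + 2))) := by
    intro k
    have hk : (0 : ℝ) ≤ k := Nat.cast_nonneg k
    have : 0 ≤ Real.log (2 * ((k : ℝ) + 2)) := Real.log_nonneg (by linarith)
    positivity
  -- asymptotics
  have hk0L : (k0 : ℝ) + 2 ≤ L + 3 := by
    have := Nat.ceil_lt_add_one (a := L) (by linarith)
    linarith
  have hK2 : L / 20 ≤ Real.log ((K : ℝ) + 2) := by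
    have h2 : (R : ℝ) ^ ((1 : ℝ) / 20) ≤ (K : ℝ) + 2 := by
      have := Nat.lt_floor_add_one ((R : ℝ) ^ ((1 : ℝ) / 20))
      rw [← hK] at this
      linarith
    have h3 := Real.log_le_log (Real.rpow_pos_of_pos hRpos _) h2
    rw [Real.log_rpow hRpos] at h3
    linarith
  have hlk0 : 0 < Real.log ((k0 : ℝ) + 2) := Real.log_pos (by
    have : (0 : ℝ) ≤ k0 := Nat.cast_nonneg k0
    linarith)
  have hmain : 8 * A ≤ Real.log (Real.log ((K : ℝ) + 2)) - Real.log (Real.log ((k0 : ℝ) + 2)) := by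
    have hA : 8 * A ≤ 8 * max A 0 := by
      have := le_max_left A 0
      linarith
    refine hA.trans ?_
    have hlL : 0 < Real.log (L + 3) := Real.log_pos (by linarith)
    have h4 : Real.log (Real.log ((k0 : ℝ) + 2)) ≤ Real.log (Real.log (L + 3)) :=
      Real.log_le_log hlk0 (Real.log_le_log (by
        have : (0 : ℝ) ≤ k0 := Nat.cast_nonneg k0
        linarith) hk0L)
    have h5 : Real.log (L / 20) ≤ Real.log (Real.log ((K : ℝ) + 2)) :=
      Real.log_le_log (by linarith) hK2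
    have h6 : Real.log (Real.exp (8 * max A 0) * Real.log (L + 3)) ≤ Real.log (L / 20) := by
      refine Real.log_le_log (by positivity) ?_
      rw [le_div_iff₀ (by norm_num)]
      linarith
    rw [Real.log_mul (Real.exp_pos _).ne' hlL.ne', Real.log_exp] at h6
    linarith
  rcases le_total k0 K with hle | hle
  · have hsub : Finset.Ico k0 K ⊆ Finset.range K := by
      intro k hk
      exact Finset.mem_range.2 (Finset.mem_Ico.1 hk).2
    have hge : ∀ k ∈ Finset.Ico k0 K, (1 / 8) * (1 / (((k : ℝ) + 2) * Real.log ((k : ℝ) + 2))) ≤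
        1 / (L + 2 * ((k : ℝ) + 1) * Real.log (2 * ((k : ℝ) + 2))) := by
      intro k hk
      have hk1 : L ≤ k := (Nat.le_ceil L).trans (by exact_mod_cast (Finset.mem_Ico.1 hk).1)
      have hk' : (0 : ℝ) ≤ k := Nat.cast_nonneg k
      have hl2 : 0 < Real.log ((k : ℝ) + 2) := Real.log_pos (by linarith)
      have hl3 : Real.log (2 * ((k : ℝ) + 2)) ≤ 2 * Real.log ((k : ℝ) + 2) := by
        rw [Real.log_mul (by norm_num) (by linarith)]
        have : Real.log 2 ≤ Real.log ((k : ℝ) + 2) := Real.log_le_log (by norm_num) (by linarith)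
        linarith
      have hl4 : 1 / 2 ≤ Real.log ((k : ℝ) + 2) := by
        have h7 : Real.log 2 ≤ Real.log ((k : ℝ) + 2) :=
          Real.log_le_log (by norm_num) (by linarith)
        have h8 := Real.log_two_gt_d9
        linarith
      have hl5 : 0 < Real.log (2 * ((k : ℝ) + 2)) := Real.log_pos (by linarith)
      have hden : L + 2 * ((k : ℝ) + 1) * Real.log (2 * ((k : ℝ) + 2)) ≤
          8 * (((k : ℝ) + 2) * Real.log ((k : ℝ) + 2)) := by
        have h9 : 2 * ((k : ℝ) + 1) * Real.log (2 * ((k : ℝ) + 2)) ≤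
            2 * ((k : ℝ) + 1) * (2 * Real.log ((k : ℝ) + 2)) :=
          mul_le_mul_of_nonneg_left hl3 (by positivity)
        have h10 : (k : ℝ) ≤ 2 * ((k : ℝ) * Real.log ((k : ℝ) + 2)) := by nlinarith
        nlinarith
      have hpos : 0 < L + 2 * ((k : ℝ) + 1) * Real.log (2 * ((k : ℝ) + 2)) := by
        have : 0 < 2 * ((k : ℝ) + 1) * Real.log (2 * ((k : ℝ) + 2)) := by positivity
        linarith
      rw [one_div_mul_one_div]
      exact one_div_le_one_div_of_le hpos hden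
    calc A ≤ (1 / 8) * (Real.log (Real.log ((K : ℝ) + 2)) -
          Real.log (Real.log ((k0 : ℝ) + 2))) := by linarith
      _ ≤ (1 / 8) * ∑ k ∈ Finset.Ico k0 K, 1 / (((k : ℝ) + 2) * Real.log ((k : ℝ) + 2)) := by
          have := sum_loglog k0 K hle
          linarith
      _ = ∑ k ∈ Finset.Ico k0 K, (1 / 8) * (1 / (((k : ℝ) + 2) * Real.log ((k : ℝ) + 2))) :=
          Finset.mul_sum _ _ _
      _ ≤ ∑ k ∈ Finset.Ico k0 K, 1 / (L + 2 * ((k : ℝ) + 1) * Real.log (2 * ((k : ℝ) + 2))) :=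
          Finset.sum_le_sum hge
      _ ≤ ∑ k ∈ Finset.range K, 1 / (L + 2 * ((k : ℝ) + 1) * Real.log (2 * ((k : ℝ) + 2))) :=
          Finset.sum_le_sum_of_subset_of_nonneg hsub fun k _ _ => hterm0 k
  · have h11 : Real.log (Real.log ((K : ℝ) + 2)) ≤ Real.log (Real.log ((k0 : ℝ) + 2)) := by
      have hKk : (K : ℝ) ≤ k0 := by exact_mod_cast hle
      have hK0 : (0 : ℝ) ≤ K := Nat.cast_nonneg K
      exact Real.log_le_log (Real.log_pos (by linarith)) (Real.log_le_log (by linarith)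
        (by linarith))
    have h12 : A ≤ 0 := by linarith
    exact h12.trans (Finset.sum_nonneg fun k _ => hterm0 k)

end

end Pool.Agent.Lib.MP_0b748d_nt.HH
end

section

set_option autoImplicit false

/-!
# Entropy decrement
-/

namespace Pool.Agent.Lib.MP_0b748d_nt.HH

open Filter Topology

noncomputable section

/-- telescoping: if `h (k + 1) / R (k + 1) ≤ h k / R k - I k / R k + e k` then
`∑ I k / R k ≤ h 0 / R 0 + ∑ e k` -/
theorem telescope (h R I e : ℕ → ℝ) (K : ℕ) (hR : ∀ k, 0 < R k) (h0 : ∀ k, 0 ≤ h k)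
    (hs : ∀ k < K, h (k + 1) / R (k + 1) ≤ h k / R k - I k / R k + e k) :
    ∑ k ∈ Finset.range K, I k / R k ≤ h 0 / R 0 + ∑ k ∈ Finset.range K, e k := by
  have key : ∀ k ≤ K, ∑ j ∈ Finset.range k, I j / R j ≤
      h 0 / R 0 - h k / R k + ∑ j ∈ Finset.range k, e j := by
    intro k
    induction k with
    | zero => intro _; simp
    | succ k ih =>
      intro hk
      have h1 := ih (by omega)
      have h2 := hs k (by omega)
      rw [Finset.sum_range_succ, Finset.sum_range_succ]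
      linarith
  have h1 := key K le_rfl
  have h2 : 0 ≤ h K / R K := div_nonneg (h0 K) (hR K).le
  linarith

end

end Pool.Agent.Lib.MP_0b748d_nt.HH
end
end

section

section

set_option autoImplicit false

/-!
# Entropy for finite weighted sets
-/

namespace Pool.Agent.Lib.MP_0b748d_nt.HH

noncomputable section

private lemma He_eq_aux {Ω α : Type*} (s : Finset Ω) (w : Ω → ℝ) (X : Ω → α) (A : Finset α)
    (hA : ∀ ω ∈ s, X ω ∈ A) : ∑ ω ∈ s, w ω = ∑ a ∈ A, pw s w X a := by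
  classical
  rw [← Finset.sum_fiberwise_of_maps_to hA]
  apply Finset.sum_congr rfl
  intro a _
  unfold pw
  apply Finset.sum_congr _ fun _ _ => rfl
  ext ω
  simp

/-- at most `N` values: `log_sum` -/
theorem He_le_card {Ω α : Type*} (s : Finset Ω) (w : Ω → ℝ) (hw : ∀ ω ∈ s, 0 ≤ w ω) (X : Ω → α)
    (A : Finset α) (hA : ∀ ω ∈ s, X ω ∈ A) :
    He s w X ≤ (∑ ω ∈ s, w ω) * Real.log A.card := by
  classical
  rw [He_eq s w hw X A hA]
  have hp0 : ∀ a, 0 ≤ pw s w X a := fun a =>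
    Finset.sum_nonneg fun ω hω => hw ω (Finset.mem_filter.1 hω).1
  have hple : ∀ a, pw s w X a ≤ ∑ ω ∈ s, w ω := fun a =>
    Finset.sum_le_sum_of_subset_of_nonneg (Finset.filter_subset _ _) fun ω hω _ => hw ω hω
  have hsum : ∑ a ∈ A, pw s w X a = ∑ ω ∈ s, w ω := by
    have h := He_eq_aux s w X A hA
    exact h.symm
  have h1 := log_sum A (fun a => pw s w X a) (fun _ => ∑ ω ∈ s, w ω) (fun a _ => hp0 a)
    (fun _ _ => Finset.sum_nonneg hw) (fun a _ h => le_antisymm ((hple a).trans h.le) (hp0 a))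
  rw [hsum] at h1
  refine h1.trans (le_of_eq ?_)
  rcases (Finset.sum_nonneg hw).eq_or_lt with h | h
  · rw [← h, zero_mul, zero_mul]
  · rw [Finset.sum_const, nsmul_eq_mul, mul_div_assoc, div_self h.ne', mul_one]

/-- for each value `Y = y` the variable `X` takes at most `N y` values (in the finite set `A y`) -/
theorem Hc_le_card {Ω α β : Type*} (s : Finset Ω) (w : Ω → ℝ) (hw : ∀ ω ∈ s, 0 ≤ w ω) (X : Ω → α)
    (Y : Ω → β) (A : β → Finset α) (hA : ∀ ω ∈ s, X ω ∈ A (Y ω)) :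
    Hc s w X Y ≤ ∑ ω ∈ s, w ω * Real.log (A (Y ω)).card := by
  classical
  obtain ⟨B, hB⟩ : ∃ B : Finset β, B = s.image Y := ⟨_, rfl⟩
  have hBm : ∀ ω ∈ s, Y ω ∈ B := fun ω hω => by
    rw [hB]
    exact Finset.mem_image_of_mem _ hω
  unfold Hc
  rw [← Finset.sum_fiberwise_of_maps_to hBm, ← Finset.sum_fiberwise_of_maps_to hBm]
  apply Finset.sum_le_sum
  intro y _
  have h1 := He_le_card (s.filter (fun ω => Y ω = y)) w
    (fun ω hω => hw ω (Finset.mem_filter.1 hω).1) X (A y) (fun ω hω => by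
      have h2 := Finset.mem_filter.1 hω
      rw [← h2.2]
      exact hA ω h2.1)
  have e1 : ∑ ω ∈ s.filter (fun ω => Y ω = y), w ω *
      Real.log (pw s w Y (Y ω) / pw s w (fun ω => (X ω, Y ω)) (X ω, Y ω)) =
      He (s.filter (fun ω => Y ω = y)) w X := by
    unfold He
    apply Finset.sum_congr rfl
    intro ω hω
    have h2 := Finset.mem_filter.1 hω
    rw [h2.2]
    have e2 : pw s w Y y = ∑ ω' ∈ s.filter (fun ω => Y ω = y), w ω' := by
      unfold pw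
      apply Finset.sum_congr _ fun _ _ => rfl
      ext ω'
      simp only [Finset.mem_filter]
    have e3 : pw s w (fun ω => (X ω, Y ω)) (X ω, y) =
        pw (s.filter (fun ω => Y ω = y)) w X (X ω) := by
      unfold pw
      apply Finset.sum_congr _ fun _ _ => rfl
      ext ω'
      simp only [Finset.mem_filter, Prod.mk.injEq]
      tauto
    rw [e2, e3]
  rw [e1]
  refine h1.trans (le_of_eq ?_)
  rw [Finset.sum_mul]
  apply Finset.sum_congr rfl
  intro ω hω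
  rw [(Finset.mem_filter.1 hω).2]

end

end Pool.Agent.Lib.MP_0b748d_nt.HH
end

section

set_option autoImplicit false

/-!
# Entropy decrement: the error terms
-/

namespace Pool.Agent.Lib.MP_0b748d_nt.HH

open Filter Topology

noncomputable section

private theorem decF_sum_sq (K : ℕ) :
    ∑ k ∈ Finset.range K, 1 / ((k : ℝ) + 2) ^ 2 ≤ 1 - 1 / ((K : ℝ) + 1) := by
  induction K with
  | zero => simp
  | succ K ih =>
    rw [Finset.sum_range_succ]
    have h1 : (0 : ℝ) < (K : ℝ) + 1 := by positivity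
    have h2 : (0 : ℝ) < (K : ℝ) + 2 := by positivity
    have h3 : 1 / ((K : ℝ) + 2) ^ 2 ≤ 1 / ((K : ℝ) + 1) - 1 / ((K : ℝ) + 2) := by
      rw [div_sub_div _ _ h1.ne' h2.ne', div_le_div_iff₀ (by positivity) (by positivity)]
      have h4 : (1 * ((K : ℝ) + 2) - (K + 1) * 1) * (K + 2) ^ 2 - 1 * (((K : ℝ) + 1) * (K + 2)) =
          K + 2 := by ring
      linarith
    push_cast
    have e : (K : ℝ) + 1 + 1 = K + 2 := by ring
    rw [e]
    linarith

/-- the first error term -/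
theorem decF_e1 {R0 Rk δ : ℝ} {k : ℕ} (hR0 : 0 < R0) (hRk : R0 ≤ Rk)
    (hk : (k : ℝ) + 2 ≤ 2 * R0 ^ ((1 : ℝ) / 20)) (hδ2 : (δ ^ 2)⁻¹ = R0 ^ ((2 : ℝ) / 5)) :
    16 * 2 ^ ls k / δ ^ 2 / Rk ≤ 256 * R0 ^ (-(1 : ℝ) / 2) := by
  obtain ⟨-, hl2⟩ := ls_bounds k
  have h0 : (0 : ℝ) ≤ (k : ℝ) + 2 := by positivity
  have h7 : (2 : ℝ) ^ ls k ≤ 4 * (2 * R0 ^ ((1 : ℝ) / 20)) ^ 2 :=
    hl2.trans (mul_le_mul_of_nonneg_left (pow_le_pow_left₀ h0 hk 2) (by norm_num))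
  have h8 : Rk⁻¹ ≤ R0⁻¹ := inv_anti₀ hR0 hRk
  have h9 : (0 : ℝ) ≤ R0 ^ ((2 : ℝ) / 5) := Real.rpow_nonneg hR0.le _
  have h10 : (0 : ℝ) ≤ Rk⁻¹ := inv_nonneg.2 (hR0.le.trans hRk)
  have h11 : (0 : ℝ) ≤ (4 * (2 * R0 ^ ((1 : ℝ) / 20)) ^ 2) :=
    mul_nonneg (by norm_num) (sq_nonneg _)
  calc 16 * 2 ^ ls k / δ ^ 2 / Rk = 16 * 2 ^ ls k * (δ ^ 2)⁻¹ * Rk⁻¹ := by
        rw [div_eq_mul_inv, div_eq_mul_inv]
    _ ≤ 16 * (4 * (2 * R0 ^ ((1 : ℝ) / 20)) ^ 2) * R0 ^ ((2 : ℝ) / 5) * R0⁻¹ := by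
        rw [hδ2]
        exact mul_le_mul (mul_le_mul_of_nonneg_right (mul_le_mul_of_nonneg_left h7 (by norm_num))
          h9) h8 h10 (mul_nonneg (mul_nonneg (by norm_num) h11) h9)
    _ = 256 * ((R0 ^ ((1 : ℝ) / 20)) ^ 2 * R0 ^ ((2 : ℝ) / 5) * R0⁻¹) := by ring
    _ = 256 * R0 ^ (-(1 : ℝ) / 2) := by
        rw [← Real.rpow_natCast, ← Real.rpow_mul hR0.le, ← Real.rpow_neg_one,
          ← Real.rpow_add hR0, ← Real.rpow_add hR0]
        norm_num

/-- the second error term -/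
theorem decF_e2 {C2 lg pk Rk : ℝ} {k : ℕ} (hC2 : 0 ≤ C2) (hlg : lg ≤ C2 * pk) (hpk : 0 < pk)
    (hRk : pk ≤ Rk) : lg / (2 ^ ls k * Rk) ≤ C2 * (1 / ((k : ℝ) + 2) ^ 2) := by
  obtain ⟨hl1, -⟩ := ls_bounds k
  have hk4 : (0 : ℝ) < ((k : ℝ) + 2) ^ 2 := by positivity
  have hl0 : (0 : ℝ) < 2 ^ ls k := by positivity
  have hR : 0 < Rk := hpk.trans_le hRk
  rw [mul_one_div, div_le_div_iff₀ (mul_pos hl0 hR) hk4]
  have h1 : 0 ≤ C2 * pk := mul_nonneg hC2 hpk.le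
  calc lg * ((k : ℝ) + 2) ^ 2 ≤ (C2 * pk) * ((k : ℝ) + 2) ^ 2 :=
        mul_le_mul_of_nonneg_right hlg hk4.le
    _ ≤ (C2 * pk) * 2 ^ ls k := mul_le_mul_of_nonneg_left hl1 h1
    _ ≤ (C2 * Rk) * 2 ^ ls k :=
        mul_le_mul_of_nonneg_right (mul_le_mul_of_nonneg_left hRk hC2) hl0.le
    _ = C2 * (2 ^ ls k * Rk) := by ring

/-- the sum of the error terms -/
theorem decF_sum {R0 M0 C2 : ℝ} {K : ℕ} (hR0 : 1 ≤ R0) (hM0 : 0 ≤ M0) (hC2 : 0 ≤ C2)
    (hK : (K : ℝ) ≤ R0 ^ ((1 : ℝ) / 20)) {e : ℕ → ℝ}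
    (he : ∀ k ∈ Finset.range K, e k ≤ M0 * (256 * R0 ^ (-(1 : ℝ) / 2)) +
      M0 * (C2 * (1 / ((k : ℝ) + 2) ^ 2))) :
    ∑ k ∈ Finset.range K, e k ≤ 512 * M0 + M0 * C2 := by
  have hR0p : 0 < R0 := by linarith
  refine (Finset.sum_le_sum he).trans ?_
  rw [Finset.sum_add_distrib, Finset.sum_const, Finset.card_range, nsmul_eq_mul,
    ← Finset.mul_sum, ← Finset.mul_sum]
  have hs1 : ∑ k ∈ Finset.range K, 1 / ((k : ℝ) + 2) ^ 2 ≤ 1 := by
    have := decF_sum_sq K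
    have h13 : (0 : ℝ) ≤ 1 / ((K : ℝ) + 1) := by positivity
    linarith
  have hs2 : (K : ℝ) * (M0 * (256 * R0 ^ (-(1 : ℝ) / 2))) ≤ 512 * M0 := by
    have h14 : (K : ℝ) * R0 ^ (-(1 : ℝ) / 2) ≤ 1 := by
      calc (K : ℝ) * R0 ^ (-(1 : ℝ) / 2)
          ≤ R0 ^ ((1 : ℝ) / 20) * R0 ^ (-(1 : ℝ) / 2) :=
            mul_le_mul_of_nonneg_right hK (Real.rpow_nonneg hR0p.le _)
        _ = R0 ^ ((1 : ℝ) / 20 + -(1 : ℝ) / 2) := (Real.rpow_add hR0p _ _).symm
        _ ≤ 1 := Real.rpow_le_one_of_one_le_of_nonpos hR0 (by norm_num)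
    calc (K : ℝ) * (M0 * (256 * R0 ^ (-(1 : ℝ) / 2)))
        = 256 * M0 * ((K : ℝ) * R0 ^ (-(1 : ℝ) / 2)) := by ring
      _ ≤ 256 * M0 * 1 := mul_le_mul_of_nonneg_left h14 (by linarith)
      _ ≤ 512 * M0 := by linarith
  have hs3 : M0 * (C2 * ∑ k ∈ Finset.range K, 1 / ((k : ℝ) + 2) ^ 2) ≤ M0 * C2 :=
    mul_le_mul_of_nonneg_left (mul_le_of_le_one_right hC2 hs1) hM0
  linarith

end

end Pool.Agent.Lib.MP_0b748d_nt.HH
end

section

set_option autoImplicit false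

/-!
# Entropy decrement: numerical estimates
-/

namespace Pool.Agent.Lib.MP_0b748d_nt.HH

open Filter Topology

noncomputable section

theorem decF_he_nonneg {α : Type*} (A : Finset α) (m : α → ℝ) (h0 : ∀ a ∈ A, 0 ≤ m a) :
    0 ≤ he A m := by
  unfold he
  refine Finset.sum_nonneg fun a ha => ?_
  rcases (h0 a ha).eq_or_lt with h | h
  · rw [← h, zero_mul]
  · refine mul_nonneg h.le (Real.log_nonneg ?_)
    rw [one_le_div h]
    exact Finset.single_le_sum h0 ha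

/-- the logarithm of the inverse of `δ` -/
theorem decF_log {R0 δ : ℝ} (hR0 : 1 ≤ R0) (hδ : δ = R0 ^ (-(1 : ℝ) / 5)) :
    Real.log (1 / δ) ≤ R0 := by
  have hR0p : 0 < R0 := by linarith
  rw [hδ, one_div, Real.log_inv, Real.log_rpow hR0p]
  have := Real.log_le_sub_one_of_pos hR0p
  have h4 : 0 ≤ Real.log R0 := Real.log_nonneg hR0
  have h5 : -(-(1 : ℝ) / 5 * Real.log R0) = (1 / 5) * Real.log R0 := by ring
  rw [h5]
  linarith

/-- one term of the lower bound -/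
theorem decF_low {η Cs pk D I : ℝ} (hη : 0 < η) (hCs : 1 ≤ Cs) (hpk : 2 ≤ pk)
    (hD : Real.log pk ≤ D) (hI : η * pk / Real.log pk ≤ I) :
    η / Cs * (1 / D) ≤ I / (Cs * pk) := by
  have h0 : 0 < pk := by linarith
  have hC : 0 < Cs := by linarith
  have h5 : 0 < Real.log pk := Real.log_pos (by linarith)
  rw [mul_one_div]
  calc η / Cs / D ≤ η / Cs / Real.log pk :=
        div_le_div_of_nonneg_left (div_pos hη hC).le h5 hD
    _ = (η * pk / Real.log pk) / (Cs * pk) := by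
        field_simp
    _ ≤ I / (Cs * pk) := div_le_div_of_nonneg_right hI (mul_pos hC h0).le

/-- the missing vectors -/
theorem decF_fin {R0 δ ε C4 Cs : ℝ} {k : ℕ} (hR0 : 1 ≤ R0) (hδ : δ = R0 ^ (-(1 : ℝ) / 5))
    (hε : 0 < ε) (hC : 0 ≤ C4 * Cs) (h2 : (k : ℝ) + 1 ≤ R0 ^ ((1 : ℝ) / 20))
    (h4 : (C4 * Cs / ε) ^ 20 ≤ R0) : √δ * (k + 1) * (C4 * Cs) ≤ ε := by
  have hR0p : 0 < R0 := by linarith
  have h1 : √δ = R0 ^ (-(1 : ℝ) / 10) := by
    rw [hδ, Real.sqrt_eq_rpow, ← Real.rpow_mul hR0p.le]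
    norm_num
  have hr : 0 ≤ R0 ^ ((1 : ℝ) / 20) := Real.rpow_nonneg hR0p.le _
  have h5 : (0 : ℝ) ≤ C4 * Cs / ε := div_nonneg hC hε.le
  have h3 : C4 * Cs / ε ≤ R0 ^ ((1 : ℝ) / 20) := by
    calc C4 * Cs / ε = ((C4 * Cs / ε) ^ 20) ^ ((1 : ℝ) / 20) := by
          rw [← Real.rpow_natCast, ← Real.rpow_mul h5]
          norm_num
      _ ≤ R0 ^ ((1 : ℝ) / 20) := Real.rpow_le_rpow (pow_nonneg h5 _) h4 (by norm_num)
  have h6 : √δ * (k + 1) * R0 ^ ((1 : ℝ) / 20) ≤ 1 := by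
    calc √δ * (k + 1) * R0 ^ ((1 : ℝ) / 20)
        ≤ √δ * R0 ^ ((1 : ℝ) / 20) * R0 ^ ((1 : ℝ) / 20) :=
          mul_le_mul_of_nonneg_right (mul_le_mul_of_nonneg_left h2 (Real.sqrt_nonneg _)) hr
      _ = 1 := by
          rw [h1, ← Real.rpow_add hR0p, ← Real.rpow_add hR0p]
          norm_num
  have h8 : C4 * Cs ≤ ε * R0 ^ ((1 : ℝ) / 20) := by
    rw [div_le_iff₀ hε] at h3
    linarith
  have h9 : 0 ≤ √δ * (k + 1) := mul_nonneg (Real.sqrt_nonneg _) (by positivity)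
  calc √δ * (k + 1) * (C4 * Cs)
      ≤ √δ * (k + 1) * (ε * R0 ^ ((1 : ℝ) / 20)) := mul_le_mul_of_nonneg_left h8 h9
    _ = ε * (√δ * (k + 1) * R0 ^ ((1 : ℝ) / 20)) := by ring
    _ ≤ ε * 1 := mul_le_mul_of_nonneg_left h6 hε.le
    _ = ε := mul_one _

end

end Pool.Agent.Lib.MP_0b748d_nt.HH
end

section

set_option autoImplicit false

/-!
# Patterns: recursively reached vectors
-/

namespace Pool.Agent.Lib.MP_0b748d_nt.HH

open Filter Topology

noncomputable section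

theorem patD_pos {δ T : ℝ} (hδ : 0 < δ) (hT : 0 < T) {m : ℕ} (hm : 2 / δ ≤ m) {d : ℕ}
    (hd : δ * T ≤ d) :
    (m : ℝ) * d / (2 * T) ≤ (⌊(m : ℝ) * d / T⌋₊ : ℝ) ∧ (1 : ℝ) ≤ (⌊(m : ℝ) * d / T⌋₊ : ℝ) := by
  have h1 : 2 ≤ (m : ℝ) * δ := by rwa [div_le_iff₀ hδ] at hm
  have h2 : 2 ≤ (m : ℝ) * d / T := by
    rw [le_div_iff₀ hT]
    have hm0 : (0 : ℝ) ≤ m := Nat.cast_nonneg m
    nlinarith [mul_le_mul_of_nonneg_left hd hm0]
  have h3 := Nat.lt_floor_add_one ((m : ℝ) * d / T)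
  have h4 : (m : ℝ) * d / (2 * T) = ((m : ℝ) * d / T) / 2 := by
    rw [div_div, mul_comm T 2]
  rw [h4]
  constructor
  · linarith
  · linarith

theorem patD_sq (g1 g2 x y : ℕ) : (g1 : ℝ) * (x : ℝ) ^ 2 ≤ (√(g1 : ℝ) * x + √(g2 : ℝ) * y) ^ 2 ∧
    (g2 : ℝ) * (y : ℝ) ^ 2 ≤ (√(g1 : ℝ) * x + √(g2 : ℝ) * y) ^ 2 := by
  have h1 : √(g1 : ℝ) ^ 2 = g1 := Real.sq_sqrt (Nat.cast_nonneg _)
  have h2 : √(g2 : ℝ) ^ 2 = g2 := Real.sq_sqrt (Nat.cast_nonneg _)
  have h3 : 0 ≤ (√(g1 : ℝ) * x) * (√(g2 : ℝ) * y) := by positivity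
  have h4 : (√(g1 : ℝ) * x + √(g2 : ℝ) * y) ^ 2 = g1 * (x : ℝ) ^ 2 +
      2 * ((√(g1 : ℝ) * x) * (√(g2 : ℝ) * y)) + g2 * (y : ℝ) ^ 2 := by
    rw [add_sq, mul_pow, mul_pow, h1, h2]
    ring
  have h5 : (0 : ℝ) ≤ g1 * (x : ℝ) ^ 2 := by positivity
  have h6 : (0 : ℝ) ≤ g2 * (y : ℝ) ^ 2 := by positivity
  rw [h4]
  constructor
  · linarith
  · linarith

theorem patD_bound {T : ℝ} (hT : 0 < T) {R m : ℕ} (hm : 0 < (m : ℝ)) {d : ℕ} (hd : 0 < (d : ℝ))
    {g x : ℕ} (h : (m : ℝ) * d / (2 * T) ≤ g) (hx : (g : ℝ) * (x : ℝ) ^ 2 ≤ R * m) :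
    (x : ℝ) ≤ √(2 * R * T / d) := by
  apply Real.le_sqrt_of_sq_le
  rw [le_div_iff₀ hd]
  have h1 : (m : ℝ) * d / (2 * T) * (x : ℝ) ^ 2 ≤ R * m :=
    (mul_le_mul_of_nonneg_right h (sq_nonneg _)).trans hx
  rw [div_mul_eq_mul_div, div_le_iff₀ (by positivity)] at h1
  have h2 : (m : ℝ) * ((x : ℝ) ^ 2 * d) ≤ m * (2 * R * T) := by linarith
  exact le_of_mul_le_mul_left h2 hm

theorem patD_sqrt {T : ℝ} (hT : 0 < T) (d : ℕ) (m : ℕ) :
    √((⌊(m : ℝ) * d / T⌋₊ : ℕ) : ℝ) ≤ √((m : ℝ) / T) * √(d : ℝ) := by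
  rw [← Real.sqrt_mul (by positivity)]
  apply Real.sqrt_le_sqrt
  refine (Nat.floor_le (by positivity)).trans (le_of_eq ?_)
  ring

/-- For a good cell and `m ≥ 2 / δ`: `⌊m d / T⌋ ≥ m d / (2 T)` (as `m d / T ≥ 2`), so the vectors of
`Vg` satisfy `x ≤ √(2 R T / d)`, `y ≤ √(2 R T / e)`; there are at most
`(√(2 R T / d) + 1)(√(2 R T / e) + 1) ≤ 8 R T / √(d e)` (`R ≥ 1`, `d, e ≤ T`). -/
theorem Vg_card {δ T : ℝ} (hδ : 0 < δ) (hT : 0 < T) {R m : ℕ} (hR : 1 ≤ R) (hm : 2 / δ ≤ m) {Q : Fm}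
    (hQ : Q ∈ Cl T) (hg : Gc δ T Q) :
    ((Vg R m (sg m T Q)).card : ℝ) ≤ 8 * R * T / √((Q.d : ℝ) * Q.e) := by
  classical
  rw [mem_Cl hT.le] at hQ
  obtain ⟨hO, hdT, heT, _⟩ := hQ
  have hd0 : (0 : ℝ) < Q.d := by exact_mod_cast hO.1
  have he0 : (0 : ℝ) < Q.e := by exact_mod_cast hO.2.1
  have hm0 : (0 : ℝ) < m := lt_of_lt_of_le (by positivity) hm
  have hR1 : (1 : ℝ) ≤ R := by exact_mod_cast hR
  have h1 := patD_pos hδ hT hm hg.1
  have h2 := patD_pos hδ hT hm hg.2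
  have hsub : Vg R m (sg m T Q) ⊆ Finset.range (⌊√(2 * R * T / Q.d)⌋₊ + 1) ×ˢ
      Finset.range (⌊√(2 * R * T / Q.e)⌋₊ + 1) := by
    intro v hv
    unfold Vg at hv
    rw [Finset.mem_filter] at hv
    have h3 := patD_sq (sg m T Q).1 (sg m T Q).2 v.1 v.2
    rw [Finset.mem_product, Finset.mem_range, Finset.mem_range]
    exact ⟨Nat.lt_succ_of_le (Nat.le_floor (patD_bound hT hm0 hd0 h1.1 (h3.1.trans hv.2))),
      Nat.lt_succ_of_le (Nat.le_floor (patD_bound hT hm0 he0 h2.1 (h3.2.trans hv.2)))⟩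
  have h3 := Finset.card_le_card hsub
  rw [Finset.card_product, Finset.card_range, Finset.card_range] at h3
  have h4 : ((Vg R m (sg m T Q)).card : ℝ) ≤
      ((⌊√(2 * R * T / Q.d)⌋₊ : ℝ) + 1) * ((⌊√(2 * R * T / Q.e)⌋₊ : ℝ) + 1) := by
    exact_mod_cast h3
  have hY : 0 < 2 * (R : ℝ) * T := by positivity
  have hYd : (Q.d : ℝ) ≤ 2 * (R : ℝ) * T := by nlinarith
  have hYe : (Q.e : ℝ) ≤ 2 * (R : ℝ) * T := by nlinarith
  have h5 : 1 ≤ √(2 * R * T / Q.d) := by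
    rw [Real.one_le_sqrt, one_le_div hd0]
    exact hYd
  have h6 : 1 ≤ √(2 * R * T / Q.e) := by
    rw [Real.one_le_sqrt, one_le_div he0]
    exact hYe
  have h7 : (⌊√(2 * R * T / Q.d)⌋₊ : ℝ) ≤ √(2 * R * T / Q.d) := Nat.floor_le (Real.sqrt_nonneg _)
  have h8 : (⌊√(2 * R * T / Q.e)⌋₊ : ℝ) ≤ √(2 * R * T / Q.e) := Nat.floor_le (Real.sqrt_nonneg _)
  have h9 : √(2 * R * T / Q.d) * √(2 * R * T / Q.e) = 2 * R * T / √((Q.d : ℝ) * Q.e) := by
    rw [Real.sqrt_div hY.le, Real.sqrt_div hY.le, div_mul_div_comm, Real.mul_self_sqrt hY.le,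
      Real.sqrt_mul hd0.le]
  calc ((Vg R m (sg m T Q)).card : ℝ) ≤
      ((⌊√(2 * R * T / Q.d)⌋₊ : ℝ) + 1) * ((⌊√(2 * R * T / Q.e)⌋₊ : ℝ) + 1) := h4
    _ ≤ (2 * √(2 * R * T / Q.d)) * (2 * √(2 * R * T / Q.e)) :=
      mul_le_mul (by linarith) (by linarith) (by positivity) (by positivity)
    _ = 4 * (√(2 * R * T / Q.d) * √(2 * R * T / Q.e)) := by ring
    _ = 8 * R * T / √((Q.d : ℝ) * Q.e) := by
      rw [h9]
      ring

/-- `(√d x + √e y)² ≤ Q.val x y ≤ R T` (`val_bounds`), `⌊m d / T⌋ ≤ m d / T`; and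
`⌊m d / T⌋ ≥ 1` gives `x² ≤ R m`. -/
theorem Vt_sub_Vg {δ T : ℝ} (hδ : 0 < δ) (hT : 0 < T) {R m : ℕ} (hm : 2 / δ ≤ m) {Q : Fm}
    (hQ : Q ∈ Cl T) (hg : Gc δ T Q) : Vt Q (R * T) ⊆ Vg R m (sg m T Q) := by
  classical
  rw [mem_Cl hT.le] at hQ
  obtain ⟨hO, hdT, heT, _⟩ := hQ
  have h1 := (patD_pos hδ hT hm hg.1).2
  have h2 := (patD_pos hδ hT hm hg.2).2
  intro v hv
  rw [mem_Vt hO (by positivity)] at hv
  have h3 := (val_bounds hO v.1 v.2).1.trans hv
  have h4 : (√((sg m T Q).1 : ℝ) * v.1 + √((sg m T Q).2 : ℝ) * v.2) ^ 2 ≤ (R : ℝ) * m := by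
    have h5 : √((sg m T Q).1 : ℝ) * v.1 + √((sg m T Q).2 : ℝ) * v.2 ≤
        √((m : ℝ) / T) * (√(Q.d : ℝ) * v.1 + √(Q.e : ℝ) * v.2) := by
      rw [mul_add, ← mul_assoc, ← mul_assoc]
      exact add_le_add (mul_le_mul_of_nonneg_right (patD_sqrt hT Q.d m) (Nat.cast_nonneg _))
        (mul_le_mul_of_nonneg_right (patD_sqrt hT Q.e m) (Nat.cast_nonneg _))
    calc (√((sg m T Q).1 : ℝ) * v.1 + √((sg m T Q).2 : ℝ) * v.2) ^ 2
        ≤ (√((m : ℝ) / T) * (√(Q.d : ℝ) * v.1 + √(Q.e : ℝ) * v.2)) ^ 2 :=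
          pow_le_pow_left₀ (by positivity) h5 2
      _ = (m : ℝ) / T * (√(Q.d : ℝ) * v.1 + √(Q.e : ℝ) * v.2) ^ 2 := by
          rw [mul_pow, Real.sq_sqrt (by positivity)]
      _ ≤ (m : ℝ) / T * (R * T) := mul_le_mul_of_nonneg_left h3 (by positivity)
      _ = (R : ℝ) * m := by
          field_simp
  have h6 := patD_sq (sg m T Q).1 (sg m T Q).2 v.1 v.2
  have h7 : ∀ g x : ℕ, (1 : ℝ) ≤ g → (g : ℝ) * (x : ℝ) ^ 2 ≤ (R : ℝ) * m → x ≤ R * m := by
    intro g x hg1 hx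
    have h8 : (x : ℝ) ^ 2 ≤ (R : ℝ) * m := by nlinarith [sq_nonneg (x : ℝ)]
    have h9 : x ^ 2 ≤ R * m := by exact_mod_cast h8
    exact (Nat.le_self_pow two_ne_zero x).trans h9
  unfold Vg
  rw [Finset.mem_filter, Finset.mem_product, Finset.mem_range, Finset.mem_range]
  exact ⟨⟨Nat.lt_succ_of_le (h7 _ _ h1 (h6.1.trans h4)),
    Nat.lt_succ_of_le (h7 _ _ h2 (h6.2.trans h4))⟩, h4⟩

end

end Pool.Agent.Lib.MP_0b748d_nt.HH
end

section

set_option autoImplicit false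

/-!
# The limit average over cells
-/

namespace Pool.Agent.Lib.MP_0b748d_nt.HH

open Filter Topology

noncomputable section

/-- the levels below a fixed one are few, so the average is bounded by the bound of the others -/
theorem AvN_le_aux {n : ℕ} (hn : 1 ≤ n) {φ : ℕ → Fm → ℝ} {B C T0 : ℝ} {K : ℕ}
    (hK : T0 ≤ (2 : ℝ) ^ K) (hB : ∀ i, ∑ Q ∈ Cl (tt n i), |φ i Q| ≤ B * tt n i)
    (h : ∀ i, T0 ≤ tt n i → ∑ Q ∈ Cl (tt n i), φ i Q ≤ C * tt n i) :
    AvN n φ ≤ C + (|B| + |C|) * K / n := by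
  unfold AvN
  have hn1 : (0 : ℝ) < n := by exact_mod_cast hn
  have h1 : ∀ i ∈ Finset.range (n ^ 2), (1 / tt n i) * ∑ Q ∈ Cl (tt n i), φ i Q ≤
      C + (if i < K * n then |B| + |C| else 0) := by
    intro i _
    have hT := tt_pos n i
    by_cases hi : i < K * n
    · rw [if_pos hi]
      have h2 : (1 / tt n i) * ∑ Q ∈ Cl (tt n i), φ i Q ≤ B := by
        calc (1 / tt n i) * ∑ Q ∈ Cl (tt n i), φ i Q ≤ 1 / tt n i * (B * tt n i) := by
              refine mul_le_mul_of_nonneg_left ?_ (by positivity)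
              exact (Finset.sum_le_sum fun Q _ => le_abs_self _).trans (hB i)
          _ = B := by field_simp
      linarith [le_abs_self B, neg_abs_le C]
    · rw [if_neg hi, add_zero]
      have h3 : T0 ≤ tt n i := by
        refine hK.trans ?_
        have h4 : tt n (0 + K * n) ≤ tt n i := (tt_le_iff n hn _ _).2 (by omega)
        rw [tt_add n hn] at h4
        refine le_trans ?_ h4
        have h5 := one_le_tt n 0
        have h6 : (0 : ℝ) < 2 ^ K := by positivity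
        nlinarith
      calc (1 / tt n i) * ∑ Q ∈ Cl (tt n i), φ i Q ≤ 1 / tt n i * (C * tt n i) :=
            mul_le_mul_of_nonneg_left (h i h3) (by positivity)
        _ = C := by field_simp
  have h7 : ∑ i ∈ Finset.range (n ^ 2), (if i < K * n then |B| + |C| else 0) ≤
      (|B| + |C|) * (K * n) := by
    rw [← Finset.sum_filter, Finset.sum_const, nsmul_eq_mul, mul_comm]
    refine mul_le_mul_of_nonneg_left ?_ (by positivity)
    have h8 : ((Finset.range (n ^ 2)).filter (fun i => i < K * n)).card ≤ K * n := by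
      calc ((Finset.range (n ^ 2)).filter (fun i => i < K * n)).card
          ≤ (Finset.range (K * n)).card := by
            apply Finset.card_le_card
            intro i hi
            rw [Finset.mem_filter] at hi
            exact Finset.mem_range.2 hi.2
        _ = K * n := Finset.card_range _
    exact_mod_cast h8
  calc 1 / (n : ℝ) ^ 2 * ∑ i ∈ Finset.range (n ^ 2), (1 / tt n i) * ∑ Q ∈ Cl (tt n i), φ i Q
      ≤ 1 / (n : ℝ) ^ 2 * ∑ i ∈ Finset.range (n ^ 2),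
          (C + (if i < K * n then |B| + |C| else 0)) :=
        mul_le_mul_of_nonneg_left (Finset.sum_le_sum h1) (by positivity)
    _ = 1 / (n : ℝ) ^ 2 * ((n : ℝ) ^ 2 * C +
          ∑ i ∈ Finset.range (n ^ 2), (if i < K * n then |B| + |C| else 0)) := by
        rw [Finset.sum_add_distrib, Finset.sum_const, Finset.card_range, nsmul_eq_mul]
        push_cast
        ring
    _ ≤ 1 / (n : ℝ) ^ 2 * ((n : ℝ) ^ 2 * C + (|B| + |C|) * (K * n)) :=
        mul_le_mul_of_nonneg_left (by linarith) (by positivity)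
    _ = C + (|B| + |C|) * K / n := by
        field_simp

private theorem Av_le_aux {U : Ultrafilter ℕ} (hU : (U : Filter ℕ) ≤ atTop)
    {φ : ℕ → ℕ → Fm → ℝ} (h : Bd φ) (T0 C : ℝ)
    (hle : ∀ n i, 1 ≤ n → T0 ≤ tt n i → ∑ Q ∈ Cl (tt n i), φ n i Q ≤ C * tt n i) :
    Av U φ ≤ C := by
  obtain ⟨K, hK⟩ := pow_unbounded_of_one_lt T0 (one_lt_two : (1 : ℝ) < 2)
  have h' := h
  obtain ⟨B, hB⟩ := h'
  have hlim0 : Tendsto (fun n : ℕ => C + (|B| + |C|) * K / (n : ℝ)) atTop (𝓝 (C + 0)) :=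
    tendsto_const_nhds.add (tendsto_const_div_atTop_nhds_zero_nat _)
  rw [add_zero] at hlim0
  have hlim := hlim0.mono_left hU
  have hle1 : ∀ᶠ n in (U : Filter ℕ), AvN n (φ n) ≤ C + (|B| + |C|) * K / (n : ℝ) := by
    refine (Filter.Eventually.filter_mono hU) ?_
    filter_upwards [eventually_ge_atTop 1] with n hn
    exact AvN_le_aux hn hK.le (fun i => hB n i hn) (fun i hi => hle n i hn hi)
  exact le_of_tendsto_of_tendsto (ul_tendsto U (AvN_Bs h)) hlim hle1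

/-- monotone; it is enough to compare on the cells of the levels `tt n i ≥ T0` for a fixed `T0`
(the levels below are a proportion `O(1 / n)` of all levels) -/
theorem Av_mono {U : Ultrafilter ℕ} (hU : (U : Filter ℕ) ≤ atTop) {φ ψ : ℕ → ℕ → Fm → ℝ} (h : Bd φ)
    (k : Bd ψ) (T0 : ℝ)
    (hle : ∀ n i, T0 ≤ tt n i → ∀ Q ∈ Cl (tt n i), φ n i Q ≤ ψ n i Q) : Av U φ ≤ Av U ψ := by
  have h1 : Bd (fun n i Q => φ n i Q + (-1) * ψ n i Q) := Bd_add h (Bd_smul (-1) k)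
  have h2 : Av U (fun n i Q => φ n i Q + (-1) * ψ n i Q) ≤ 0 := by
    refine Av_le_aux hU h1 T0 0 fun n i _ hT => ?_
    rw [zero_mul]
    refine Finset.sum_nonpos fun Q hQ => ?_
    linarith [hle n i hT Q hQ]
  rw [Av_add h (Bd_smul (-1) k), Av_smul (-1) k] at h2
  linarith

/-- if the level averages are at most `C` for the levels `≥ T0` then so is the limit -/
theorem Av_le {U : Ultrafilter ℕ} (hU : (U : Filter ℕ) ≤ atTop) {φ : ℕ → ℕ → Fm → ℝ} (h : Bd φ)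
    (T0 C : ℝ) (hle : ∀ n i, 1 ≤ n → T0 ≤ tt n i → ∑ Q ∈ Cl (tt n i), φ n i Q ≤ C * tt n i) :
    Av U φ ≤ C := by
  exact Av_le_aux hU h T0 C hle

theorem Av_abs_le {U : Ultrafilter ℕ} (hU : (U : Filter ℕ) ≤ atTop) {φ ψ : ℕ → ℕ → Fm → ℝ}
    (k : Bd ψ) (T0 : ℝ)
    (hle : ∀ n i, T0 ≤ tt n i → ∀ Q ∈ Cl (tt n i), |φ n i Q| ≤ ψ n i Q) (h : Bd φ) :
    |Av U φ| ≤ Av U ψ := by
  rw [abs_le]
  constructor
  · have h1 : Av U (fun n i Q => (-1) * φ n i Q) ≤ Av U ψ := by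
      refine Av_mono hU (Bd_smul (-1) h) k T0 fun n i hT Q hQ => ?_
      have := hle n i hT Q hQ
      linarith [neg_abs_le (φ n i Q)]
    rw [Av_smul (-1) h] at h1
    linarith
  · exact Av_mono hU h k T0 fun n i hT Q hQ => (le_abs_self _).trans (hle n i hT Q hQ)

end

end Pool.Agent.Lib.MP_0b748d_nt.HH
end

section

set_option autoImplicit false

/-!
# Patterns: recursively reached vectors
-/

namespace Pool.Agent.Lib.MP_0b748d_nt.HH

open Filter Topology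

noncomputable section

open Classical in
/-- the number of missing vectors -/
def Mi (P : Par) (k n i : ℕ) (Q : Fm) : ℝ :=
  (((Vt Q (P.R k * tt n i)).filter (fun v => v ∉ reach P k n i Q)).card : ℝ)

private theorem patF_R_pos (P : Par) (hR : 1 ≤ P.R0) (k : ℕ) : 1 ≤ P.R k := by
  unfold Par.R
  exact Nat.mul_pos hR (by positivity)

private theorem patF_R_succ (P : Par) (k : ℕ) : P.R (k + 1) = P.R k * 2 ^ P.l k := by
  unfold Par.R
  rw [Finset.sum_range_succ, pow_add, mul_assoc]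

private theorem patF_reach_Gc (P : Par) (k n i : ℕ) (Q : Fm) {w : ℕ × ℕ}
    (hw : w ∈ reach P k n i Q) : Gc P.δ (tt n i) Q := by
  classical
  by_contra hcon
  cases k with
  | zero =>
    rw [reach, if_neg hcon] at hw
    exact absurd hw (Finset.notMem_empty _)
  | succ k =>
    rw [reach, Finset.mem_biUnion] at hw
    obtain ⟨M, hM, _⟩ := hw
    rw [Gm, if_neg hcon] at hM
    exact absurd hM (Finset.notMem_empty _)

/-- bad cells: `Vt_card` with `Y = R_k T ≥ T` (`R_k ≥ 1`) -/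
theorem Mi_le (P : Par) (hR : 1 ≤ P.R0) (k n i : ℕ) {Q : Fm} (hQ : Q ∈ Cl (tt n i)) :
    Mi P k n i Q ≤ 4 * P.R k * tt n i / √((Q.d : ℝ) * Q.e) := by
  classical
  have hT := tt_pos n i
  obtain ⟨hOk, hd, he, _⟩ := (mem_Cl hT.le).1 hQ
  have hR1 : (1 : ℝ) ≤ P.R k := by exact_mod_cast patF_R_pos P hR k
  have hTY : tt n i ≤ P.R k * tt n i := by nlinarith
  have h1 : Mi P k n i Q ≤ ((Vt Q (P.R k * tt n i)).card : ℝ) := by
    unfold Mi
    exact_mod_cast Finset.card_filter_le _ _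
  have h2 := Vt_card hOk (hd.trans hTY) (he.trans hTY)
  have h3 : 4 * (P.R k : ℝ) * tt n i = 4 * (P.R k * tt n i) := by ring
  rw [h3]
  exact h1.trans h2

/-- `Vt_sub_Vg` -/
theorem Mi_zero (P : Par) (hδ : 0 < P.δ) (n i : ℕ) {Q : Fm} (hQ : Q ∈ Cl (tt n i))
    (hg : Gc P.δ (tt n i) Q) : Mi P 0 n i Q = 0 := by
  classical
  have hm : 2 / P.δ ≤ P.m := Nat.le_ceil _
  have hR : P.R 0 = P.R0 := by simp [Par.R]
  have h1 := Vt_sub_Vg (R := P.R0) hδ (tt_pos n i) hm hQ hg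
  unfold Mi
  rw [Nat.cast_eq_zero, Finset.card_eq_zero, Finset.filter_eq_empty_iff]
  intro v hv
  rw [hR] at hv
  rw [not_not, reach, if_pos hg]
  exact h1 hv

/-- Let `v ∈ Vt Q (R_{k+1} T)` be missing, `T' = 2 ^ l_k T`. By `cover` (`d, e ≤ T ≤ T'`) `v = M.im w`
with `M ∈ Dn T' Q`, and `(Q.act M).val w = Q.val v ≤ R_{k+1} T = R_k T'` (`val_act`). If `Q.act M` is
good then `M ∈ Gm`, so `w ∉ reach k (Q.act M)`; if it is bad then `reach k (Q.act M) = ∅` (for `k = 0`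
and for `k + 1` by definition). So `w` is missing for `Q.act M`. -/
theorem Mi_succ (P : Par) (k n i : ℕ) (hn : 1 ≤ n) {Q : Fm} (hQ : Q ∈ Cl (tt n i))
    (hg : Gc P.δ (tt n i) Q) :
    Mi P (k + 1) n i Q ≤ ∑ M ∈ Dn (tt n (i + P.l k * n)) Q, Mi P k n (i + P.l k * n) (Q.act M) := by
  classical
  have hT := tt_pos n i
  have hT' := tt_pos n (i + P.l k * n)
  have hadd := tt_add n hn i (P.l k)
  obtain ⟨hOk, hd, he, _⟩ := (mem_Cl hT.le).1 hQ
  have hTT : tt n i ≤ tt n (i + P.l k * n) := by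
    rw [hadd]
    have h1 : (1 : ℝ) ≤ 2 ^ P.l k := one_le_pow₀ (by norm_num)
    nlinarith
  have hQs : Q ∈ Qs (tt n (i + P.l k * n)) := (mem_Qs hT'.le).2 ⟨hOk, hd.trans hTT, he.trans hTT⟩
  have hY : (P.R (k + 1) : ℝ) * tt n i = P.R k * tt n (i + P.l k * n) := by
    rw [patF_R_succ, hadd]
    push_cast
    ring
  have hYn : 0 ≤ (P.R k : ℝ) * tt n (i + P.l k * n) := by positivity
  have hsub : (Vt Q (P.R (k + 1) * tt n i)).filter (fun v => v ∉ reach P (k + 1) n i Q) ⊆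
      (Dn (tt n (i + P.l k * n)) Q).biUnion (fun M =>
        ((Vt (Q.act M) (P.R k * tt n (i + P.l k * n))).filter
          (fun v => v ∉ reach P k n (i + P.l k * n) (Q.act M))).image M.im) := by
    intro v hv
    rw [Finset.mem_filter, hY, mem_Vt hOk hYn] at hv
    obtain ⟨hv1, hv2⟩ := hv
    obtain ⟨M, hM, x', y', hx, hy⟩ := cover hT'.le hQs v.1 v.2
    have hMD := (mem_Dn hT'.le hOk).1 hM
    have hOk' : (Q.act M).Ok := ((mem_Cl hT'.le).1 hMD.2).1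
    have him : M.im (x', y') = v := by
      unfold Mt.im
      exact Prod.ext hx.symm hy.symm
    rw [Finset.mem_biUnion]
    refine ⟨M, hM, ?_⟩
    rw [Finset.mem_image]
    refine ⟨(x', y'), ?_, him⟩
    rw [Finset.mem_filter, mem_Vt hOk' hYn]
    refine ⟨?_, ?_⟩
    · rw [val_act]
      show (Q.val (M.a * x' + M.b * y') (M.c * x' + M.d * y') : ℝ) ≤ _
      rw [← hx, ← hy]
      exact hv1
    · intro hw
      apply hv2
      have hgM := patF_reach_Gc P k n _ _ hw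
      rw [reach, Finset.mem_biUnion]
      refine ⟨M, ?_, ?_⟩
      · rw [Gm, if_pos hg, Finset.mem_filter]
        exact ⟨hM, hgM⟩
      · rw [Finset.mem_image]
        exact ⟨_, hw, him⟩
  have h1 := Finset.card_le_card hsub
  have h2 : ((Dn (tt n (i + P.l k * n)) Q).biUnion (fun M =>
        ((Vt (Q.act M) (P.R k * tt n (i + P.l k * n))).filter
          (fun v => v ∉ reach P k n (i + P.l k * n) (Q.act M))).image M.im)).card ≤
      ∑ M ∈ Dn (tt n (i + P.l k * n)) Q,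
        ((Vt (Q.act M) (P.R k * tt n (i + P.l k * n))).filter
          (fun v => v ∉ reach P k n (i + P.l k * n) (Q.act M))).card :=
    Finset.card_biUnion_le.trans (Finset.sum_le_sum fun M _ => Finset.card_image_le)
  unfold Mi
  exact_mod_cast h1.trans h2

/-- `Mi_le`, `Cl_wt_all` -/
theorem Mi_Bd (P : Par) (hR : 1 ≤ P.R0) (k : ℕ) : Bd (fun n i Q => Mi P k n i Q) := by
  obtain ⟨C, hC1, hC⟩ := Cl_wt_all
  refine ⟨4 * P.R k * C, fun n i hn => ?_⟩
  have hT := tt_pos n i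
  have h1 : ∑ Q ∈ Cl (tt n i), |Mi P k n i Q| ≤
      ∑ Q ∈ Cl (tt n i), 4 * (P.R k : ℝ) * (tt n i / √((Q.d : ℝ) * Q.e)) := by
    refine Finset.sum_le_sum fun Q hQ => ?_
    have h2 : 0 ≤ Mi P k n i Q := by
      unfold Mi
      positivity
    rw [abs_of_nonneg h2]
    refine (Mi_le P hR k n i hQ).trans (le_of_eq ?_)
    rw [mul_div_assoc]
  rw [← Finset.mul_sum] at h1
  have h3 := mul_le_mul_of_nonneg_left (hC (tt n i) hT.le) (by positivity : (0 : ℝ) ≤ 4 * (P.R k : ℝ))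
  calc ∑ Q ∈ Cl (tt n i), |Mi P k n i Q| ≤ 4 * (P.R k : ℝ) * (C * tt n i) := h1.trans h3
    _ = 4 * P.R k * C * tt n i := by ring

end

end Pool.Agent.Lib.MP_0b748d_nt.HH
end

section

set_option autoImplicit false

/-!
# Entropy of limit laws
-/

namespace Pool.Agent.Lib.MP_0b748d_nt.HH

open Filter Topology

noncomputable section

private theorem ef_pw {ω α : Type*} (U : Ultrafilter ℕ) (W : ℕ → ℕ → Fm → ω) (S : Finset ω)
    (hS : Rg W S) (g : ω → α) (a : α) :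
    pw S (l1 U W) g a = l1 U (fun n i Q => g (W n i Q)) a := by
  classical
  have h1 := Av_comp U W S hS (fun t => if g t = a then (1 : ℝ) else 0)
  have h2 : l1 U (fun n i Q => g (W n i Q)) a =
      Av U (fun n i Q => (fun t => if g t = a then (1 : ℝ) else 0) (W n i Q)) := by
    rfl
  rw [h2, h1]
  unfold pw
  rw [Finset.sum_filter]
  refine Finset.sum_congr rfl fun t _ => ?_
  split_ifs
  · rw [mul_one]
  · rw [mul_zero]

private theorem ef_l2 {α β : Type*} (U : Ultrafilter ℕ) (X : ℕ → ℕ → Fm → α) (Y : ℕ → ℕ → Fm → β)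
    (a : α) (b : β) : l2 U X Y a b = l1 U (fun n i Q => (X n i Q, Y n i Q)) (a, b) := by
  classical
  unfold l2 l1
  congr 1
  funext n i Q
  by_cases hc : X n i Q = a ∧ Y n i Q = b
  · have hd : (X n i Q, Y n i Q) = (a, b) := Prod.ext hc.1 hc.2
    exact (if_pos hc).trans (if_pos hd).symm
  · have hd : ¬ (X n i Q, Y n i Q) = (a, b) := fun h =>
      hc ⟨(Prod.ext_iff.1 h).1, (Prod.ext_iff.1 h).2⟩
    exact (if_neg hc).trans (if_neg hd).symm

private theorem ef_he {ω α : Type*} (U : Ultrafilter ℕ) (W : ℕ → ℕ → Fm → ω) (S : Finset ω)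
    (hS : Rg W S) (g : ω → α) (A : Finset α) (hA : ∀ t ∈ S, g t ∈ A) :
    he A (l1 U (fun n i Q => g (W n i Q))) = He S (l1 U W) g := by
  rw [He_eq S _ (fun t _ => l1_nonneg U W t) g A hA]
  unfold he
  have h1 : ∑ a' ∈ A, l1 U (fun n i Q => g (W n i Q)) a' = ∑ t ∈ S, l1 U W t := by
    rw [l1_sum U W S hS, l1_sum U _ A (fun n i Q hQ => hA _ (hS n i Q hQ))]
  rw [h1]
  refine Finset.sum_congr rfl fun a _ => ?_
  rw [ef_pw U W S hS g a]

private theorem ef_hc {ω α β : Type*} (U : Ultrafilter ℕ) (W : ℕ → ℕ → Fm → ω) (S : Finset ω)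
    (hS : Rg W S) (g : ω → α) (h : ω → β) (A : Finset α) (hA : ∀ t ∈ S, g t ∈ A) (B : Finset β)
    (hB : ∀ t ∈ S, h t ∈ B) :
    hc A B (l2 U (fun n i Q => g (W n i Q)) (fun n i Q => h (W n i Q))) =
      Hc S (l1 U W) g h := by
  rw [Hc_eq S _ (fun t _ => l1_nonneg U W t) g h A B hA hB]
  unfold hc
  refine Finset.sum_congr rfl fun a _ => Finset.sum_congr rfl fun b _ => ?_
  rw [l2_sum_left U _ _ A (fun n i Q hQ => hA _ (hS n i Q hQ)), ef_pw U W S hS h b,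
    ef_pw U W S hS (fun t => (g t, h t)) (a, b), ef_l2]

/-- for each value of `Y` the variable `X` takes at most `N Y` values -/
theorem lim_card_cond {α β : Type*} (U : Ultrafilter ℕ) (X : ℕ → ℕ → Fm → α) (Y : ℕ → ℕ → Fm → β)
    (A : Finset α) (B : Finset β) (hA : Rg X A) (hB : Rg Y B) (A' : β → Finset α)
    (hA' : ∀ n i, ∀ Q ∈ Cl (tt n i), X n i Q ∈ A' (Y n i Q)) :
    hc A B (l2 U X Y) ≤ Av U (fun n i Q => Real.log (A' (Y n i Q)).card) := by
  classical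
  obtain ⟨W, hW⟩ : ∃ W : ℕ → ℕ → Fm → α × β, W = fun n i Q => (X n i Q, Y n i Q) := ⟨_, rfl⟩
  obtain ⟨S, hSe⟩ : ∃ S : Finset (α × β), S = (A ×ˢ B).filter (fun t => t.1 ∈ A' t.2) := ⟨_, rfl⟩
  have hS : Rg W S := by
    intro n i Q hQ
    rw [hSe, hW]
    exact Finset.mem_filter.2 ⟨Finset.mem_product.2 ⟨hA n i Q hQ, hB n i Q hQ⟩, hA' n i Q hQ⟩
  have hS1 : ∀ t ∈ S, t.1 ∈ A := by
    intro t ht
    rw [hSe] at ht
    exact (Finset.mem_product.1 (Finset.mem_filter.1 ht).1).1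
  have hS2 : ∀ t ∈ S, t.2 ∈ B := by
    intro t ht
    rw [hSe] at ht
    exact (Finset.mem_product.1 (Finset.mem_filter.1 ht).1).2
  have hS3 : ∀ t ∈ S, t.1 ∈ A' t.2 := by
    intro t ht
    rw [hSe] at ht
    exact (Finset.mem_filter.1 ht).2
  have h1 := ef_hc U W S hS Prod.fst Prod.snd A hS1 B hS2
  have h2 : (fun n i Q => (W n i Q).1) = X := by rw [hW]
  have h3 : (fun n i Q => (W n i Q).2) = Y := by rw [hW]
  rw [h2, h3] at h1
  rw [h1]
  refine (Hc_le_card S (l1 U W) (fun t _ => l1_nonneg U W t) Prod.fst Prod.snd A' hS3).trans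
    (le_of_eq ?_)
  have h4 := Av_comp U W S hS (fun t => Real.log (A' t.2).card)
  rw [← h4, hW]

/-- mutual information does not exceed the sum after adjoining a variable with at most `N` values:
`I(X, Z; Y) ≤ I(X; Y) + H(Z)`; indeed `H(X, Z) ≤ H(X) + H(Z)` and `H(X, Z | Y) ≥ H(X | Y)` -/
theorem lim_info_pair {α β γ : Type*} [DecidableEq α] [DecidableEq γ] (U : Ultrafilter ℕ)
    (X : ℕ → ℕ → Fm → α) (Y : ℕ → ℕ → Fm → β) (Z : ℕ → ℕ → Fm → γ) (A : Finset α) (B : Finset β)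
    (D : Finset γ) (hA : Rg X A) (hB : Rg Y B) (hD : Rg Z D) :
    he (A ×ˢ D) (l1 U (fun n i Q => (X n i Q, Z n i Q))) -
      hc (A ×ˢ D) B (l2 U (fun n i Q => (X n i Q, Z n i Q)) Y) ≤
    he A (l1 U X) - hc A B (l2 U X Y) + mass U * Real.log D.card := by
  obtain ⟨W, hW⟩ : ∃ W : ℕ → ℕ → Fm → α × γ × β, W = fun n i Q => (X n i Q, Z n i Q, Y n i Q) :=
    ⟨_, rfl⟩
  obtain ⟨S, hSe⟩ : ∃ S : Finset (α × γ × β), S = A ×ˢ (D ×ˢ B) := ⟨_, rfl⟩
  have hS : Rg W S := by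
    intro n i Q hQ
    rw [hSe, hW]
    exact Finset.mem_product.2 ⟨hA n i Q hQ, Finset.mem_product.2 ⟨hD n i Q hQ, hB n i Q hQ⟩⟩
  have hS1 : ∀ t ∈ S, t.1 ∈ A := by
    intro t ht
    rw [hSe] at ht
    exact (Finset.mem_product.1 ht).1
  have hS2 : ∀ t ∈ S, t.2.1 ∈ D := by
    intro t ht
    rw [hSe] at ht
    exact (Finset.mem_product.1 (Finset.mem_product.1 ht).2).1
  have hS3 : ∀ t ∈ S, t.2.2 ∈ B := by
    intro t ht
    rw [hSe] at ht
    exact (Finset.mem_product.1 (Finset.mem_product.1 ht).2).2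
  have hw : ∀ t ∈ S, 0 ≤ l1 U W t := fun t _ => l1_nonneg U W t
  have hS12 : ∀ t ∈ S, (t.1, t.2.1) ∈ A ×ˢ D := fun t ht =>
    Finset.mem_product.2 ⟨hS1 t ht, hS2 t ht⟩
  have e1 := ef_he U W S hS (fun t => t.1) A hS1
  have e2 := ef_he U W S hS (fun t => (t.1, t.2.1)) (A ×ˢ D) hS12
  have e3 := ef_hc U W S hS (fun t => t.1) (fun t => t.2.2) A hS1 B hS3
  have e4 := ef_hc U W S hS (fun t => (t.1, t.2.1)) (fun t => t.2.2) (A ×ˢ D) hS12 B hS3
  have f1 : (fun n i Q => (W n i Q).1) = X := by rw [hW]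
  have f2 : (fun n i Q => (W n i Q).2.2) = Y := by rw [hW]
  have f3 : (fun n i Q => ((W n i Q).1, (W n i Q).2.1)) = fun n i Q => (X n i Q, Z n i Q) := by
    rw [hW]
  rw [f1] at e1
  rw [f3] at e2
  rw [f1, f2] at e3
  rw [f3, f2] at e4
  rw [e1, e2, e3, e4]
  have g1 := He_pair S (l1 U W) hw (fun t => t.1) (fun t => t.2.1)
  have g2 := Hc_le_He S (l1 U W) hw (fun t => t.1) (fun t => t.2.1)
  have g3 := He_le_card S (l1 U W) hw (fun t => t.2.1) D hS2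
  have g4 := Hc_mono S (l1 U W) hw (fun t => t.1) (fun t => (t.1, t.2.1)) (fun t => t.2.2)
    (fun t _ t' _ h _ => (Prod.ext_iff.1 h).1)
  rw [l1_sum U W S hS] at g3
  linarith

end

end Pool.Agent.Lib.MP_0b748d_nt.HH
end

section

set_option autoImplicit false

/-!
# Patterns: recursively reached vectors
-/

namespace Pool.Agent.Lib.MP_0b748d_nt.HH

open Filter Topology

noncomputable section

private theorem tt_pos' (n i : ℕ) : 0 < tt n i := by
  unfold tt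
  positivity

private theorem tt_zero' (i : ℕ) : tt 0 i = 1 := by
  unfold tt
  simp

private theorem Par_R_succ (P : Par) (k : ℕ) : (P.R (k + 1) : ℝ) = 2 ^ P.l k * P.R k := by
  unfold Par.R
  rw [Finset.sum_range_succ, pow_add]
  push_cast
  ring

private theorem Mi_nonneg (P : Par) (k n i : ℕ) (Q : Fm) : 0 ≤ Mi P k n i Q := by
  unfold Mi
  positivity

open Classical in
/-- the contribution of the bad cells -/
private def Bb (P : Par) (k : ℕ) : ℕ → ℕ → Fm → ℝ := fun n i Q =>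
  if Gc P.δ (tt n i) Q then 0 else 4 * P.R k * (tt n i / √((Q.d : ℝ) * Q.e))

private theorem Bb_nonneg (P : Par) (k n i : ℕ) (Q : Fm) : 0 ≤ Bb P k n i Q := by
  unfold Bb
  have := (tt_pos' n i).le
  split_ifs
  · exact le_rfl
  · positivity

open Classical in
private theorem Bb_sum {C : ℝ} (hC : ∀ T δ : ℝ, 0 ≤ T → 0 < δ →
    ∑ Q ∈ (Cl T).filter (fun Q => ¬ Gc δ T Q), T / √((Q.d : ℝ) * Q.e) ≤ C * √δ * T)
    (P : Par) (hδ : 0 < P.δ) (k n i : ℕ) :
    ∑ Q ∈ Cl (tt n i), Bb P k n i Q ≤ 4 * P.R k * (C * √P.δ) * tt n i := by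
  have h1 : ∑ Q ∈ Cl (tt n i), Bb P k n i Q =
      4 * P.R k * ∑ Q ∈ (Cl (tt n i)).filter (fun Q => ¬ Gc P.δ (tt n i) Q),
        tt n i / √((Q.d : ℝ) * Q.e) := by
    rw [Finset.mul_sum, Finset.sum_filter]
    refine Finset.sum_congr rfl fun Q _ => ?_
    unfold Bb
    by_cases h : Gc P.δ (tt n i) Q
    · simp [h]
    · simp [h]
  rw [h1]
  have h2 := hC (tt n i) P.δ (tt_pos' n i).le hδ
  calc 4 * P.R k * ∑ Q ∈ (Cl (tt n i)).filter (fun Q => ¬ Gc P.δ (tt n i) Q),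
        tt n i / √((Q.d : ℝ) * Q.e) ≤ 4 * P.R k * (C * √P.δ * tt n i) :=
        mul_le_mul_of_nonneg_left h2 (by positivity)
    _ = _ := by ring

open Classical in
private theorem Bb_Bd {C : ℝ} (hC : ∀ T δ : ℝ, 0 ≤ T → 0 < δ →
    ∑ Q ∈ (Cl T).filter (fun Q => ¬ Gc δ T Q), T / √((Q.d : ℝ) * Q.e) ≤ C * √δ * T)
    (P : Par) (hδ : 0 < P.δ) (k : ℕ) : Bd (Bb P k) := by
  refine ⟨4 * P.R k * (C * √P.δ), fun n i _ => ?_⟩
  have h1 : ∑ Q ∈ Cl (tt n i), |Bb P k n i Q| = ∑ Q ∈ Cl (tt n i), Bb P k n i Q :=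
    Finset.sum_congr rfl fun Q _ => abs_of_nonneg (Bb_nonneg P k n i Q)
  rw [h1]
  exact Bb_sum hC P hδ k n i

open Classical in
private theorem Bb_Av {C : ℝ} (hC : ∀ T δ : ℝ, 0 ≤ T → 0 < δ →
    ∑ Q ∈ (Cl T).filter (fun Q => ¬ Gc δ T Q), T / √((Q.d : ℝ) * Q.e) ≤ C * √δ * T)
    {U : Ultrafilter ℕ} (hU : (U : Filter ℕ) ≤ atTop)
    (P : Par) (hδ : 0 < P.δ) (k : ℕ) : Av U (Bb P k) ≤ 4 * P.R k * (C * √P.δ) :=
  Av_le hU (Bb_Bd hC P hδ k) 0 _ fun n i _ _ => Bb_sum hC P hδ k n i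

/-- Induction on `k`: `Av Mi_{k+1} ≤ 2 ^ l_k Av Mi_k + 4 R_{k+1} C √δ` by `Mi_succ` on good cells,
`Av_shift`, and `Mi_le`, `Cl_wt` on bad cells; `R_{k+1} = 2 ^ l_k R_k`. -/
theorem Av_Mi : ∃ C : ℝ, 1 ≤ C ∧ ∀ (U : Ultrafilter ℕ), (U : Filter ℕ) ≤ atTop → ∀ (P : Par),
    0 < P.δ → P.δ ≤ 1 → 1 ≤ P.R0 → ∀ k : ℕ,
    Av U (fun n i Q => Mi P k n i Q) ≤ C * √P.δ * (k + 1) * P.R k := by
  obtain ⟨C, hC1, hC⟩ := Cl_wt
  refine ⟨4 * C, by linarith, fun U hU P hδ hδ1 hR k => ?_⟩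
  have hbad : ∀ (k n i : ℕ) (Q : Fm), Q ∈ Cl (tt n i) → ¬ Gc P.δ (tt n i) Q →
      Mi P k n i Q ≤ Bb P k n i Q := by
    intro k n i Q hQ hg
    have h1 := Mi_le P hR k n i hQ
    unfold Bb
    rw [if_neg hg, ← mul_div_assoc]
    exact h1
  induction k with
  | zero =>
    have h1 : Av U (fun n i Q => Mi P 0 n i Q) ≤ Av U (Bb P 0) := by
      refine Av_mono hU (Mi_Bd P hR 0) (Bb_Bd hC P hδ 0) 0 fun n i _ Q hQ => ?_
      by_cases hg : Gc P.δ (tt n i) Q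
      · rw [Mi_zero P hδ n i hQ hg]
        exact Bb_nonneg P 0 n i Q
      · exact hbad 0 n i Q hQ hg
    refine (h1.trans (Bb_Av hC hU P hδ 0)).trans (le_of_eq ?_)
    push_cast
    ring
  | succ k ih =>
    have hD : Bd (fun n i Q => ∑ M ∈ Dn (tt n (i + P.l k * n)) Q,
        Mi P k n (i + P.l k * n) (Q.act M)) := Bd_desc (P.l k) (Mi_Bd P hR k)
    have h1 : Av U (fun n i Q => Mi P (k + 1) n i Q) ≤
        Av U (fun n i Q => (∑ M ∈ Dn (tt n (i + P.l k * n)) Q,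
          Mi P k n (i + P.l k * n) (Q.act M)) + Bb P (k + 1) n i Q) := by
      refine Av_mono hU (Mi_Bd P hR (k + 1)) (Bd_add hD (Bb_Bd hC P hδ (k + 1))) 2
        fun n i hT Q hQ => ?_
      have hn : 1 ≤ n := by
        rcases Nat.eq_zero_or_pos n with h0 | h0
        · rw [h0, tt_zero'] at hT
          norm_num at hT
        · exact h0
      by_cases hg : Gc P.δ (tt n i) Q
      · have h2 := Mi_succ P k n i hn hQ hg
        have h3 := Bb_nonneg P (k + 1) n i Q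
        linarith
      · have h2 := hbad (k + 1) n i Q hQ hg
        have h3 : 0 ≤ ∑ M ∈ Dn (tt n (i + P.l k * n)) Q,
            Mi P k n (i + P.l k * n) (Q.act M) :=
          Finset.sum_nonneg fun M _ => Mi_nonneg P k _ _ _
        linarith
    rw [Av_add hD (Bb_Bd hC P hδ (k + 1)), Av_shift hU (P.l k) (Mi_Bd P hR k)] at h1
    have h4 := Bb_Av hC hU P hδ (k + 1)
    have h5 : (2 : ℝ) ^ P.l k * Av U (fun n i Q => Mi P k n i Q) ≤
        2 ^ P.l k * (4 * C * √P.δ * (k + 1) * P.R k) :=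
      mul_le_mul_of_nonneg_left ih (by positivity)
    have h6 := Par_R_succ P k
    calc Av U (fun n i Q => Mi P (k + 1) n i Q)
        ≤ 2 ^ P.l k * (4 * C * √P.δ * (k + 1) * P.R k) + 4 * P.R (k + 1) * (C * √P.δ) := by
          linarith
      _ = 4 * C * √P.δ * (((k + 1 : ℕ) : ℝ) + 1) * P.R (k + 1) := by
          rw [h6]
          push_cast
          ring

end

end Pool.Agent.Lib.MP_0b748d_nt.HH
end

section

set_option autoImplicit false

/-!
# Patterns: recursively reached vectors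
-/

namespace Pool.Agent.Lib.MP_0b748d_nt.HH

open Filter Topology

noncomputable section

open Classical in
/-- the discretised shape of the good cells -/
private def patE_Z (P : Par) (n i : ℕ) (Q : Fm) : Option (ℕ × ℕ) :=
  if Gc P.δ (tt n i) Q then some (sg P.m (tt n i) Q) else none

/-- the pairs of values -/
private def patE_V : Finset (ℤ × ℤ) := ({0, 1, -1} : Finset ℤ) ×ˢ ({0, 1, -1} : Finset ℤ)

private theorem patE_V_card : patE_V.card = 9 := by decide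

/-- the patterns of a discretised shape -/
private def patE_A (P : Par) : Option (ℕ × ℕ) → Finset Pt
  | none => {∅}
  | some g => ((Vg P.R0 P.m g) ×ˢ patE_V).powerset

private theorem patE_mem (P : Par) {F G : ℕ → ℕ → ℤ} (hF : V3 F) (hG : V3 G) (n i : ℕ) (Q : Fm) :
    Xp P F G 0 n i Q ∈ patE_A P (patE_Z P n i Q) := by
  classical
  unfold Xp
  rw [reach]
  unfold patE_Z
  by_cases hg : Gc P.δ (tt n i) Q
  · rw [if_pos hg, if_pos hg]
    show _ ∈ ((Vg P.R0 P.m (sg P.m (tt n i) Q)) ×ˢ patE_V).powerset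
    rw [Finset.mem_powerset]
    intro p hp
    rw [gr, Finset.mem_image] at hp
    obtain ⟨v, hv, rfl⟩ := hp
    rw [Finset.mem_product]
    refine ⟨hv, ?_⟩
    unfold patE_V
    rw [Finset.mem_product]
    constructor
    · rcases hF n (Q.val v.1 v.2) with h | h | h
      · simp [h]
      · simp [h]
      · simp [h]
    · rcases hG n (Q.val v.1 v.2) with h | h | h
      · simp [h]
      · simp [h]
      · simp [h]
  · rw [if_neg hg, if_neg hg]
    show _ ∈ ({∅} : Finset Pt)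
    rw [gr, Finset.image_empty]
    exact Finset.mem_singleton_self _

private theorem patE_range (P : Par) : Rg (patE_Z P)
    (insert none (((Finset.range (P.m + 1)) ×ˢ (Finset.range (P.m + 1))).image some)) := by
  classical
  intro n i Q hQ
  have hT := tt_pos n i
  obtain ⟨hOk, hd, he, _⟩ := (mem_Cl hT.le).1 hQ
  unfold patE_Z
  by_cases hg : Gc P.δ (tt n i) Q
  · rw [if_pos hg]
    refine Finset.mem_insert_of_mem ?_
    rw [Finset.mem_image]
    refine ⟨_, ?_, rfl⟩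
    rw [Finset.mem_product, Finset.mem_range, Finset.mem_range]
    have key : ∀ x : ℕ, (x : ℝ) ≤ tt n i → ⌊(P.m : ℝ) * x / tt n i⌋₊ < P.m + 1 := by
      intro x hx
      refine Nat.lt_succ_of_le ?_
      have h1 : (P.m : ℝ) * x / tt n i ≤ P.m := by
        rw [div_le_iff₀ hT]
        exact mul_le_mul_of_nonneg_left hx (by positivity)
      have h2 := Nat.floor_le_floor h1
      rwa [Nat.floor_natCast] at h2
    exact ⟨key _ hd, key _ he⟩
  · rw [if_neg hg]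
    exact Finset.mem_insert_self _ _

private theorem patE_log (P : Par) (n i : ℕ) (Q : Fm) [Decidable (Gc P.δ (tt n i) Q)] :
    Real.log ((patE_A P (patE_Z P n i Q)).card : ℝ) =
      if Gc P.δ (tt n i) Q then 9 * Real.log 2 * (Vg P.R0 P.m (sg P.m (tt n i) Q)).card else 0 := by
  unfold patE_Z
  by_cases hg : Gc P.δ (tt n i) Q
  · rw [if_pos hg, if_pos hg]
    show Real.log (((((Vg P.R0 P.m (sg P.m (tt n i) Q)) ×ˢ patE_V).powerset).card : ℕ) : ℝ) = _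
    rw [Finset.card_powerset, Finset.card_product, patE_V_card]
    push_cast
    rw [Real.log_pow]
    push_cast
    ring
  · rw [if_neg hg, if_neg hg]
    show Real.log ((({∅} : Finset Pt).card : ℕ) : ℝ) = 0
    rw [Finset.card_singleton, Nat.cast_one, Real.log_one]

private theorem patE_numeric {δ : ℝ} (hδ : 0 < δ) (hδ1 : δ ≤ 1) {m : ℕ} (hm : (m : ℝ) ≤ 3 / δ) :
    Real.log (((m : ℝ) + 1) ^ 2 + 1) ≤ 16 + 2 * Real.log (1 / δ) := by
  have h1 : 1 ≤ 1 / δ := by rw [le_div_iff₀ hδ]; linarith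
  have h2 : (m : ℝ) + 1 ≤ 4 * (1 / δ) := by
    have : 3 / δ = 3 * (1 / δ) := by ring
    linarith
  have h3 : ((m : ℝ) + 1) ^ 2 + 1 ≤ 17 * (1 / δ) ^ 2 := by
    have h4 : ((m : ℝ) + 1) ^ 2 ≤ (4 * (1 / δ)) ^ 2 := pow_le_pow_left₀ (by positivity) h2 2
    have h5 : (1 : ℝ) ≤ (1 / δ) ^ 2 := one_le_pow₀ h1
    nlinarith
  have h6 : Real.log (17 * (1 / δ) ^ 2) = Real.log 17 + 2 * Real.log (1 / δ) := by
    rw [Real.log_mul (by norm_num) (by positivity), Real.log_pow]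
    push_cast
    ring
  have h7 : Real.log 17 ≤ 16 := by
    have := Real.log_le_sub_one_of_pos (show (0 : ℝ) < 17 by norm_num)
    linarith
  have h8 := Real.log_le_log (by positivity) h3
  linarith

open Classical in
/-- **First scale.** Let `Z = some (sg m T Q)` for good cells and `none` otherwise; it has at most
`(m + 1)² + 1` values (`d, e ≤ T`). Given `Z = some g` the pattern `Xp 0` is the graph of a function on
`Vg R0 m g` with values in a set of nine elements: at most `9 ^ |Vg|` patterns; given `Z = none` it is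
empty. By `lim_chain`, `lim_card`, `lim_card_cond`:
`he ≤ mass log ((m + 1)² + 1) + log 9 Av (|Vg| 1_good)`, and `Vg_card`, `Cl_wt_all`, `Av_le` bound the
last average by `8 C R0`. Finally `m ≤ 3 / δ`. -/
theorem he_first : ∃ C : ℝ, 1 ≤ C ∧ ∀ (U : Ultrafilter ℕ), (U : Filter ℕ) ≤ atTop → ∀ (P : Par),
    0 < P.δ → P.δ ≤ 1 → 1 ≤ P.R0 → ∀ (F G : ℕ → ℕ → ℤ), V3 F → V3 G → ∀ A : Finset Pt,
    Rg (Xp P F G 0) A → he A (l1 U (Xp P F G 0)) ≤ C * (P.R0 + Real.log (1 / P.δ)) := by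
  obtain ⟨C1, hC1, hmass⟩ := mass_le
  obtain ⟨C2, hC2, hwt⟩ := Cl_wt_all
  refine ⟨16 * C1 + 2 * C1 + 72 * C2, by linarith, ?_⟩
  intro U hU P hδ hδ1 hR0 F G hF hG A hA
  have hlog0 : 0 ≤ Real.log (1 / P.δ) := Real.log_nonneg (by rw [le_div_iff₀ hδ]; linarith)
  have hR : (1 : ℝ) ≤ P.R0 := by exact_mod_cast hR0
  have h1 := lim_chain U (Xp P F G 0) (patE_Z P) A _ hA (patE_range P)
  have h2 := lim_card U (patE_Z P) _ (patE_range P)
  have h3 := lim_card_cond U (Xp P F G 0) (patE_Z P) A _ hA (patE_range P) (patE_A P)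
    (fun n i Q _ => patE_mem P hF hG n i Q)
  -- the number of shapes
  have hm : (P.m : ℝ) ≤ 3 / P.δ := by
    have h4 : (P.m : ℝ) ≤ 2 / P.δ + 1 := (Nat.ceil_lt_add_one (by positivity)).le
    have h5 : 1 ≤ 1 / P.δ := by rw [le_div_iff₀ hδ]; linarith
    have h6 : 3 / P.δ = 2 / P.δ + 1 / P.δ := by ring
    linarith
  have hcard : ((insert none (((Finset.range (P.m + 1)) ×ˢ (Finset.range (P.m + 1))).image some) :
      Finset (Option (ℕ × ℕ))).card : ℝ) ≤ ((P.m : ℝ) + 1) ^ 2 + 1 := by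
    have h4 := Finset.card_insert_le (none : Option (ℕ × ℕ))
      (((Finset.range (P.m + 1)) ×ˢ (Finset.range (P.m + 1))).image some)
    have h5 := Finset.card_image_le (s := (Finset.range (P.m + 1)) ×ˢ (Finset.range (P.m + 1)))
      (f := (some : ℕ × ℕ → Option (ℕ × ℕ)))
    rw [Finset.card_product, Finset.card_range] at h5
    have h6 : ((insert none (((Finset.range (P.m + 1)) ×ˢ (Finset.range (P.m + 1))).image some) :
      Finset (Option (ℕ × ℕ))).card : ℝ) ≤ (((P.m + 1) * (P.m + 1) + 1 : ℕ) : ℝ) := by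
      exact_mod_cast h4.trans (Nat.add_le_add_right h5 1)
    refine h6.trans (le_of_eq ?_)
    push_cast
    ring
  have hcpos : 0 < ((insert none (((Finset.range (P.m + 1)) ×ˢ (Finset.range (P.m + 1))).image some) :
      Finset (Option (ℕ × ℕ))).card : ℝ) := by
    exact_mod_cast Finset.card_pos.2 ⟨none, Finset.mem_insert_self _ _⟩
  have hlogc : 0 ≤ Real.log ((insert none (((Finset.range (P.m + 1)) ×ˢ
      (Finset.range (P.m + 1))).image some) : Finset (Option (ℕ × ℕ))).card : ℝ) := by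
    apply Real.log_nonneg
    have h4 : 1 ≤ (insert none (((Finset.range (P.m + 1)) ×ˢ
      (Finset.range (P.m + 1))).image some) : Finset (Option (ℕ × ℕ))).card :=
      Finset.card_pos.2 ⟨none, Finset.mem_insert_self _ _⟩
    exact_mod_cast h4
  have h4 : he (insert none (((Finset.range (P.m + 1)) ×ˢ (Finset.range (P.m + 1))).image some))
      (l1 U (patE_Z P)) ≤ C1 * (16 + 2 * Real.log (1 / P.δ)) := by
    refine h2.trans ((mul_le_mul_of_nonneg_right (hmass U) hlogc).trans ?_)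
    refine mul_le_mul_of_nonneg_left ?_ (by linarith)
    exact (Real.log_le_log hcpos hcard).trans (patE_numeric hδ hδ1 hm)
  -- the conditional entropy
  have hlog2 : Real.log 2 ≤ 1 := by
    have := Real.log_le_sub_one_of_pos (show (0 : ℝ) < 2 by norm_num)
    linarith
  have hlog2' : 0 ≤ Real.log 2 := Real.log_nonneg (by norm_num)
  have hpt : ∀ n i, ∀ Q ∈ Cl (tt n i),
      0 ≤ Real.log ((patE_A P (patE_Z P n i Q)).card : ℝ) ∧
      Real.log ((patE_A P (patE_Z P n i Q)).card : ℝ) ≤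
        72 * P.R0 * (tt n i / √((Q.d : ℝ) * Q.e)) := by
    intro n i Q hQ
    have hT := tt_pos n i
    rw [patE_log]
    split_ifs with hg
    · have h5 := Vg_card (R := P.R0) (m := P.m) hδ hT hR0 (Nat.le_ceil _) hQ hg
      refine ⟨by positivity, ?_⟩
      have h6 : 0 ≤ ((Vg P.R0 P.m (sg P.m (tt n i) Q)).card : ℝ) := by positivity
      calc 9 * Real.log 2 * ((Vg P.R0 P.m (sg P.m (tt n i) Q)).card : ℝ)
          ≤ 9 * ((Vg P.R0 P.m (sg P.m (tt n i) Q)).card : ℝ) := by nlinarith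
        _ ≤ 9 * (8 * P.R0 * tt n i / √((Q.d : ℝ) * Q.e)) := by linarith
        _ = 72 * P.R0 * (tt n i / √((Q.d : ℝ) * Q.e)) := by ring
    · exact ⟨le_rfl, by positivity⟩
  have hsum : ∀ n i, 1 ≤ n → ∑ Q ∈ Cl (tt n i), Real.log ((patE_A P (patE_Z P n i Q)).card : ℝ) ≤
      72 * P.R0 * C2 * tt n i := by
    intro n i _
    have h5 : ∑ Q ∈ Cl (tt n i), Real.log ((patE_A P (patE_Z P n i Q)).card : ℝ) ≤
        ∑ Q ∈ Cl (tt n i), 72 * (P.R0 : ℝ) * (tt n i / √((Q.d : ℝ) * Q.e)) :=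
      Finset.sum_le_sum fun Q hQ => (hpt n i Q hQ).2
    rw [← Finset.mul_sum] at h5
    have h6 := mul_le_mul_of_nonneg_left (hwt (tt n i) (tt_pos n i).le)
      (by positivity : (0 : ℝ) ≤ 72 * (P.R0 : ℝ))
    calc ∑ Q ∈ Cl (tt n i), Real.log ((patE_A P (patE_Z P n i Q)).card : ℝ)
        ≤ 72 * (P.R0 : ℝ) * (C2 * tt n i) := h5.trans h6
      _ = 72 * P.R0 * C2 * tt n i := by ring
  have hBd : Bd (fun n i Q => Real.log ((patE_A P (patE_Z P n i Q)).card : ℝ)) := by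
    refine ⟨72 * P.R0 * C2, fun n i hn => ?_⟩
    refine le_trans (le_of_eq ?_) (hsum n i hn)
    exact Finset.sum_congr rfl fun Q hQ => abs_of_nonneg (hpt n i Q hQ).1
  have h5 : Av U (fun n i Q => Real.log ((patE_A P (patE_Z P n i Q)).card : ℝ)) ≤
      72 * P.R0 * C2 :=
    Av_le hU hBd 0 _ (fun n i hn _ => hsum n i hn)
  have h6 := h1.trans (add_le_add h4 (h3.trans h5))
  refine h6.trans ?_
  have e1 : 0 ≤ C1 * Real.log (1 / P.δ) := by positivity
  have e2 : 0 ≤ C2 * Real.log (1 / P.δ) := by positivity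
  have e3 : 0 ≤ C1 * ((P.R0 : ℝ) - 1) := mul_nonneg (by linarith) (by linarith)
  nlinarith

end

end Pool.Agent.Lib.MP_0b748d_nt.HH
end

section

set_option autoImplicit false

/-!
# Entropy decrement
-/

namespace Pool.Agent.Lib.MP_0b748d_nt.HH

open Filter Topology

noncomputable section

open Classical in
/-- **Entropy decrement.** Parameters: `R0 = Cs P'` with `P' → ∞`, `δ = R0 ^ (-1 / 5)`,
`K = ⌊R0 ^ (1 / 20)⌋`, `l = ls`, `P_k = R_k / Cs = P' 2 ^ …`. Suppose `I_k > η P_k / log P_k` for all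
`k < K` (`I_k` for `S = PP P_k`). By `dec_step` divided by `R_{k+1} = 2 ^ l_k R_k` and `telescope`,
`∑ I_k / R_k ≤ he_0 / R0 + ∑_k mass (16 * 2 ^ l_k / (δ² R_k)) + ∑_k mass C P_k / (2 ^ l_k R_k)`. By
`he_first` the first term is `≤ C (1 + log (1 / δ) / R0) ≤ 2 C`; the second sum is
`≤ C K (K + 2)² R0 ^ (2 / 5) / R0 ≤ 1` for large `R0`; the third (`OF_PP`) `≤ C ∑ 1 / (k + 2)² ≤ C`. But
`I_k / R_k ≥ (η / Cs) / log R_k` and `∑ 1 / log R_k ≥ A` (`R_log`, `sum_inv_log`), a contradiction for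
large `A`. So some `k < K` is good; take `S = reach`, `P = P_k ≥ P'`, and by `Av_Mi` the missing vectors
are at most `C √δ (k + 1) R_k ≤ C R0 ^ (-1 / 10) (R0 ^ (1 / 20) + 1) Cs P_k ≤ ε P_k`. -/
theorem ent_dec (U : Ultrafilter ℕ) (hU : (U : Filter ℕ) ≤ atTop) {F G : ℕ → ℕ → ℤ} (hF : V3 F)
    (hG : V3 G) (Cs : ℕ) (hCs : 1 ≤ Cs) (η ε : ℝ) (hη : 0 < η) (hε : 0 < ε) (P0 : ℕ) :
    ∃ P : ℕ, P0 ≤ P ∧ 2 ≤ P ∧ ∃ S : ℕ → ℕ → Fm → Finset (ℕ × ℕ), ∃ A : Finset Pt,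
      Rg (fun n i Q => gr (F n) (G n) Q (S n i Q)) A ∧
      Bd (fun n i Q => (((Vt Q (Cs * P * tt n i)).filter (fun v => v ∉ S n i Q)).card : ℝ)) ∧
      Av U (fun n i Q => (((Vt Q (Cs * P * tt n i)).filter (fun v => v ∉ S n i Q)).card : ℝ)) ≤
        ε * P ∧
      Inf U (fun n i Q => gr (F n) (G n) Q (S n i Q)) A (PP P) ≤ η * P / Real.log P := by
  obtain ⟨C1, hC1, hfirst⟩ := he_first
  obtain ⟨C2, hC2, hOF⟩ := OF_PP
  obtain ⟨C4, hC4, hAv⟩ := Av_Mi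
  obtain ⟨M0, hM0, hmass⟩ := mass_le
  set B : ℝ := 2 * C1 + 512 * M0 + M0 * C2 with hB
  obtain ⟨N0, hN0⟩ := sum_inv_log ((B + 1) * Cs / η)
  set P' : ℕ := max (max P0 2) (max N0 ⌈(C4 * Cs / ε) ^ 20⌉₊) with hP'
  have hP'1 : P0 ≤ P' := (le_max_left _ _).trans (le_max_left _ _)
  have hP'2 : 2 ≤ P' := (le_max_right _ _).trans (le_max_left _ _)
  have hP'3 : N0 ≤ P' := (le_max_left _ _).trans (le_max_right _ _)
  have hP'4 : ⌈(C4 * Cs / ε) ^ 20⌉₊ ≤ P' := (le_max_right _ _).trans (le_max_right _ _)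
  set R0 : ℕ := Cs * P' with hR0
  have hPR : P' ≤ R0 := Nat.le_mul_of_pos_left _ hCs
  have hCsr : (1 : ℝ) ≤ Cs := by exact_mod_cast hCs
  have hR0r : (2 : ℝ) ≤ R0 := by exact_mod_cast hP'2.trans hPR
  have hR0p : (0 : ℝ) < R0 := by linarith
  set δ : ℝ := (R0 : ℝ) ^ (-(1 : ℝ) / 5) with hδd
  have hδ : 0 < δ := Real.rpow_pos_of_pos hR0p _
  have hδ1 : δ ≤ 1 := Real.rpow_le_one_of_one_le_of_nonpos (by linarith) (by norm_num)
  set K : ℕ := ⌊(R0 : ℝ) ^ ((1 : ℝ) / 20)⌋₊ with hK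
  have hKle : (K : ℝ) ≤ (R0 : ℝ) ^ ((1 : ℝ) / 20) := Nat.floor_le (by positivity)
  have hr1 : (1 : ℝ) ≤ (R0 : ℝ) ^ ((1 : ℝ) / 20) :=
    Real.one_le_rpow (by linarith) (by norm_num)
  set P : Par := ⟨δ, R0, ls⟩ with hPar
  have hPR0 : 1 ≤ P.R0 := by
    change 1 ≤ R0
    omega
  set pk : ℕ → ℕ := fun k => P' * 2 ^ (∑ s ∈ Finset.range k, ls s) with hpk
  have hRk : ∀ k, P.R k = Cs * pk k := fun k => by
    change R0 * 2 ^ _ = _
    rw [hR0, hpk, mul_assoc]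
  have hRkr : ∀ k, (P.R k : ℝ) = Cs * pk k := fun k => by rw [hRk]; push_cast; ring
  have hpk1 : ∀ k, P' ≤ pk k := fun k => Nat.le_mul_of_pos_right _ (by positivity)
  have hpk2 : ∀ k, (2 : ℝ) ≤ pk k := fun k => by exact_mod_cast hP'2.trans (hpk1 k)
  have hRR0 : ∀ k, (R0 : ℝ) ≤ P.R k := fun k => by
    rw [hRkr, hR0]
    push_cast
    have : (P' : ℝ) ≤ pk k := by exact_mod_cast hpk1 k
    gcongr
  have hRpos : ∀ k, (0 : ℝ) < P.R k := fun k => hR0p.trans_le (hRR0 k)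
  choose A hA using fun k => Xp_range P hδ hδ1 hF hG k
  have hm0 : 0 ≤ mass U := by
    rw [← l1_sum U (Xp P F G 0) (A 0) (hA 0)]
    exact Finset.sum_nonneg fun a _ => l1_nonneg U _ a
  have hmM : mass U ≤ M0 := hmass U
  -- some scale is good
  have hgood : ∃ k < K, Inf U (Xp P F G k) (A k) (PP (pk k)) ≤ η * pk k / Real.log (pk k) := by
    by_contra hcon
    push Not at hcon
    set h : ℕ → ℝ := fun k => he (A k) (l1 U (Xp P F G k)) with hh
    set I : ℕ → ℝ := fun k => Inf U (Xp P F G k) (A k) (PP (pk k)) with hI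
    set e : ℕ → ℝ := fun k => mass U * (16 * 2 ^ ls k / δ ^ 2 / P.R k) +
      mass U * Real.log (OF (PP (pk k))).card / (2 ^ ls k * P.R k) with he'
    have hstep : ∀ k < K, h (k + 1) / P.R (k + 1) ≤ h k / P.R k - I k / P.R k + e k := by
      intro k _
      have h1 := dec_step U hU P hδ hδ1 hF hG k (A k) (A (k + 1)) (hA k) (hA (k + 1))
        (PP (pk k)) (PP_prime _)
      have h2 : (P.R (k + 1) : ℝ) = 2 ^ ls k * P.R k := by
        have : P.R (k + 1) = 2 ^ ls k * P.R k := by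
          change R0 * 2 ^ _ = 2 ^ ls k * (R0 * 2 ^ _)
          rw [Finset.sum_range_succ, pow_add]
          ring
        rw [this]
        push_cast
        ring
      have h3 : (0 : ℝ) < 2 ^ ls k := by positivity
      have h4 := hRpos k
      rw [h2, div_le_iff₀ (by positivity)]
      refine h1.trans (le_of_eq ?_)
      have h5 : (4 : ℝ) ^ P.l k = 2 ^ ls k * 2 ^ ls k := by
        change (4 : ℝ) ^ ls k = _
        rw [← mul_pow]
        norm_num
      have h6 : (2 : ℝ) ^ P.l k = 2 ^ ls k := rfl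
      rw [h5, h6]
      simp only [hh, hI, he']
      change mass U * (16 * (2 ^ ls k * 2 ^ ls k) / δ ^ 2) + _ + _ = _
      field_simp
      ring
    have htel := telescope h (fun k => (P.R k : ℝ)) I e K hRpos
      (fun k => decF_he_nonneg _ _ fun a _ => l1_nonneg U _ a) hstep
    -- the first term
    have hf : h 0 / P.R 0 ≤ 2 * C1 := by
      have h1 := hfirst U hU P hδ hδ1 hPR0 F G hF hG (A 0) (hA 0)
      have h2 : P.R 0 = R0 := by
        change R0 * 2 ^ _ = _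
        simp
      rw [h2, div_le_iff₀ hR0p]
      refine h1.trans ?_
      change C1 * ((R0 : ℝ) + Real.log (1 / δ)) ≤ _
      have h3 : Real.log (1 / δ) ≤ R0 := decF_log (by linarith) hδd
      calc C1 * ((R0 : ℝ) + Real.log (1 / δ)) ≤ C1 * (R0 + R0) :=
            mul_le_mul_of_nonneg_left (by linarith) (by linarith)
        _ = 2 * C1 * R0 := by ring
    -- the second sum
    have hδ2 : (δ ^ 2)⁻¹ = (R0 : ℝ) ^ ((2 : ℝ) / 5) := by
      rw [hδd, ← Real.rpow_natCast, ← Real.rpow_mul hR0p.le, ← Real.rpow_neg hR0p.le]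
      congr 1
      norm_num
    have hesum : ∑ k ∈ Finset.range K, e k ≤ 512 * M0 + M0 * C2 := by
      refine decF_sum (by linarith) (by linarith) (by linarith) hKle fun k hk => ?_
      have hkK : k < K := Finset.mem_range.1 hk
      have hk2 : (k : ℝ) + 1 ≤ (R0 : ℝ) ^ ((1 : ℝ) / 20) := by
        have : ((k + 1 : ℕ) : ℝ) ≤ K := by exact_mod_cast hkK
        push_cast at this
        linarith
      have hk3 : (k : ℝ) + 2 ≤ 2 * (R0 : ℝ) ^ ((1 : ℝ) / 20) := by linarith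
      have h10 : (0 : ℝ) < pk k := by linarith [hpk2 k]
      refine add_le_add ?_ ?_
      · exact mul_le_mul hmM (decF_e1 hR0p (hRR0 k) hk3 hδ2)
          (div_nonneg (div_nonneg (by positivity) (sq_nonneg _)) (hRpos k).le) (by linarith)
      · have h9 := hOF (pk k) (by exact_mod_cast hpk2 k)
        have h12 : (pk k : ℝ) ≤ P.R k := by
          rw [hRkr]
          exact le_mul_of_one_le_left h10.le hCsr
        rw [mul_div_assoc]
        exact mul_le_mul hmM (decF_e2 (by linarith) h9 h10 h12)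
          (div_nonneg (Real.log_natCast_nonneg _) (mul_nonneg (by positivity) (hRpos k).le))
          (by linarith)
    -- the lower bound
    have hlow : (B + 1) ≤ ∑ k ∈ Finset.range K, I k / P.R k := by
      have h1 := hN0 R0 (hP'3.trans hPR)
      have h2 : (B + 1) = η / Cs * ((B + 1) * Cs / η) := by
        field_simp
      rw [h2]
      refine (mul_le_mul_of_nonneg_left h1 (by positivity)).trans ?_
      rw [Finset.mul_sum]
      refine Finset.sum_le_sum fun k hk => ?_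
      have hkK : k < K := Finset.mem_range.1 hk
      have h3 := hcon k hkK
      have h4 : (2 : ℝ) ≤ pk k := hpk2 k
      have h6 := R_log P rfl hPR0 k
      have h7 : Real.log (pk k) ≤ Real.log R0 + 2 * (k + 1) * Real.log (2 * (k + 2)) := by
        refine le_trans ?_ h6
        refine Real.log_le_log (by linarith) ?_
        rw [hRkr]
        exact le_mul_of_one_le_left (by linarith) hCsr
      have h8 : I k / P.R k = I k / (Cs * pk k) := by rw [hRkr]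
      rw [h8]
      exact decF_low hη hCsr h4 h7 h3.le
    linarith
  obtain ⟨k, hkK, hI⟩ := hgood
  have hfun : (fun n i Q => (((Vt Q (Cs * (pk k : ℕ) * tt n i)).filter
      (fun v => v ∉ reach P k n i Q)).card : ℝ)) = fun n i Q => Mi P k n i Q := by
    funext n i Q
    unfold Mi
    rw [hRkr]
  refine ⟨pk k, hP'1.trans (hpk1 k), hP'2.trans (hpk1 k), reach P k, A k, hA k, ?_, ?_, hI⟩
  · rw [hfun]
    exact Mi_Bd P hPR0 k
  · rw [hfun]
    refine (hAv U hU P hδ hδ1 hPR0 k).trans ?_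
    rw [hRkr]
    have h2 : (k : ℝ) + 1 ≤ (R0 : ℝ) ^ ((1 : ℝ) / 20) := by
      have : ((k + 1 : ℕ) : ℝ) ≤ K := by exact_mod_cast hkK
      push_cast at this
      linarith
    have h4 : (C4 * Cs / ε) ^ 20 ≤ (R0 : ℝ) :=
      (Nat.le_ceil _).trans (by exact_mod_cast hP'4.trans hPR)
    have h7 : √δ * (k + 1) * (C4 * Cs) ≤ ε :=
      decF_fin (by linarith) hδd hε (by positivity) h2 h4
    calc C4 * √δ * (k + 1) * (Cs * pk k) = (√δ * (k + 1) * (C4 * Cs)) * pk k := by ring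
      _ ≤ ε * pk k := by gcongr

end

end Pool.Agent.Lib.MP_0b748d_nt.HH
end
end
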