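import Pool.Agent.Lib.MP_0b748d_nt.P.Defs
import Pool.Agent.Lib.MP_0b748d_nt.HH.CselJ

section

set_option autoImplicit false

/-!
# Gauss sums of primitive characters
-/

namespace Pool.Agent.Lib.MP_0b748d_nt.HHC

noncomputable section

/-- the Gauss sum -/
def tau {D : ℕ} (χ : DirichletCharacter ℂ D) : ℂ :=
  ∑ a ∈ Finset.range D, χ (a : ZMod D) * ee ((a : ℝ) / D)

theorem clsC_sum_range {D : ℕ} [NeZero D] {A : Type} [AddCommMonoid A] (f : ZMod D → A) :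
    ∑ a ∈ Finset.range D, f (a : ZMod D) = ∑ x : ZMod D, f x := by
  refine Finset.sum_nbij' (fun a => (a : ZMod D)) (fun x => x.val) ?_ ?_ ?_ ?_ ?_
  · intro a _; exact Finset.mem_univ _
  · intro x _; exact Finset.mem_range.2 (ZMod.val_lt x)
  · intro a ha; exact ZMod.val_natCast_of_lt (Finset.mem_range.1 ha)
  · intro x _; exact ZMod.natCast_zmod_val x
  · intro a _; rfl

theorem clsC_ee {D : ℕ} [NeZero D] (n a : ℕ) :
    ee ((n : ℝ) * ((a : ℝ) / D)) = ZMod.stdAddChar ((n : ZMod D) * (a : ZMod D)) := by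
  have h : ((n : ZMod D) * (a : ZMod D)) = (((n * a : ℕ) : ℤ) : ZMod D) := by push_cast; rfl
  rw [h, ZMod.stdAddChar_coe]
  unfold ee
  congr 1
  push_cast
  ring

theorem clsC_ee_one {D : ℕ} [NeZero D] (a : ℕ) :
    ee ((a : ℝ) / D) = ZMod.stdAddChar (a : ZMod D) := by
  have h := clsC_ee (D := D) 1 a
  rw [Nat.cast_one, one_mul, Nat.cast_one, one_mul] at h
  exact h

theorem clsC_inv_prim {D : ℕ} (χ : DirichletCharacter ℂ D) (hχ : χ.IsPrimitive) :
    (χ⁻¹).IsPrimitive := by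
  unfold DirichletCharacter.IsPrimitive at hχ ⊢
  rwa [DirichletCharacter.conductor_inv]

/-- The sum in `tau_mul` as a sum over `ZMod D`. -/
theorem clsC_S {D : ℕ} [NeZero D] (χ : DirichletCharacter ℂ D) (n : ℕ) :
    ∑ a ∈ Finset.range D, χ (a : ZMod D) * ee ((n : ℝ) * ((a : ℝ) / D)) =
      ∑ x : ZMod D, χ x * ZMod.stdAddChar ((n : ZMod D) * x) := by
  rw [← clsC_sum_range]
  refine Finset.sum_congr rfl (fun a _ => ?_)
  rw [clsC_ee]

/-- Proof. `gaussSum_mulShift_of_isPrimitive` for `χ⁻¹` (primitive, `conductor_inv`) and the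
standard additive character `ZMod.stdAddChar`, `stdAddChar (a : ZMod D) = ee (a / D)`. -/
theorem tau_mul {D : ℕ} (hD : 1 ≤ D) (χ : DirichletCharacter ℂ D) (hχ : χ.IsPrimitive) (n : ℕ) :
    ∑ a ∈ Finset.range D, χ⁻¹ (a : ZMod D) * ee ((n : ℝ) * ((a : ℝ) / D)) =
      χ (n : ZMod D) * tau χ⁻¹ := by
  have : NeZero D := ⟨by omega⟩
  rw [clsC_S]
  have h1 := gaussSum_mulShift_of_isPrimitive (ZMod.stdAddChar (N := D))
    (clsC_inv_prim χ hχ) (n : ZMod D)
  rw [inv_inv] at h1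
  unfold gaussSum at h1
  have h2 : tau χ⁻¹ = ∑ a : ZMod D, χ⁻¹ a * ZMod.stdAddChar a := by
    unfold tau
    rw [← clsC_sum_range]
    refine Finset.sum_congr rfl (fun a _ => ?_)
    rw [clsC_ee_one]
  rw [h2, ← h1]
  rfl

theorem clsC_norm_sum {D : ℕ} [NeZero D] (χ : DirichletCharacter ℂ D) :
    ∑ x : ZMod D, χ x * χ⁻¹ x = (Nat.totient D : ℂ) := by
  have h1 : ∀ x : ZMod D, χ x * χ⁻¹ x = (1 : MulChar (ZMod D) ℂ) x := by
    intro x
    rw [← MulChar.mul_apply, mul_inv_cancel]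
  rw [Finset.sum_congr rfl (fun x _ => h1 x), MulChar.sum_one_eq_card_units,
    ZMod.card_units_eq_totient]

theorem clsC_conj_std {D : ℕ} [NeZero D] (x : ZMod D) :
    (starRingEnd ℂ) (ZMod.stdAddChar x) = ZMod.stdAddChar (-x) := by
  rw [AddChar.map_neg_eq_conj]

theorem clsC_parseval {D : ℕ} [NeZero D] (f : ZMod D → ℂ) :
    ∑ n : ZMod D, (∑ x : ZMod D, f x * ZMod.stdAddChar (n * x)) *
      (starRingEnd ℂ) (∑ x : ZMod D, f x * ZMod.stdAddChar (n * x)) =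
      (D : ℂ) * ∑ x : ZMod D, f x * (starRingEnd ℂ) (f x) := by
  have h1 : ∀ n : ZMod D, (∑ x : ZMod D, f x * ZMod.stdAddChar (n * x)) *
      (starRingEnd ℂ) (∑ x : ZMod D, f x * ZMod.stdAddChar (n * x)) =
      ∑ x : ZMod D, ∑ y : ZMod D, (f x * (starRingEnd ℂ) (f y)) *
        ZMod.stdAddChar (n * (x - y)) := by
    intro n
    rw [map_sum, Finset.sum_mul_sum]
    refine Finset.sum_congr rfl (fun x _ => Finset.sum_congr rfl (fun y _ => ?_))
    rw [map_mul (starRingEnd ℂ), clsC_conj_std, mul_sub, sub_eq_add_neg, AddChar.map_add_eq_mul]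
    ring
  rw [Finset.sum_congr rfl (fun n _ => h1 n), Finset.sum_comm]
  rw [Finset.mul_sum]
  refine Finset.sum_congr rfl (fun x _ => ?_)
  rw [Finset.sum_comm]
  have h2 : ∀ y : ZMod D, ∑ n : ZMod D, (f x * (starRingEnd ℂ) (f y)) *
      ZMod.stdAddChar (n * (x - y)) =
      if y = x then (D : ℂ) * (f x * (starRingEnd ℂ) (f x)) else 0 := by
    intro y
    rw [← Finset.mul_sum, AddChar.sum_mulShift (x - y) (ZMod.isPrimitive_stdAddChar D)]
    by_cases h : y = x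
    · subst h
      rw [if_pos rfl, if_pos (sub_self y), ZMod.card]
      ring
    · rw [if_neg h, if_neg (sub_ne_zero.2 (Ne.symm h))]
      simp
  rw [Finset.sum_congr rfl (fun y _ => h2 y), Finset.sum_ite_eq' Finset.univ x]
  simp

/-- Proof. Sum the squared norms of `tau_mul` over `n ∈ range D`: the right side gives
`φ(D) ‖tau χ⁻¹‖²`; the left side, by orthogonality of additive characters, `D φ(D)`. -/
theorem tau_sq {D : ℕ} (hD : 1 ≤ D) (χ : DirichletCharacter ℂ D) (hχ : χ.IsPrimitive) :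
    ‖tau χ⁻¹‖ ^ 2 = D := by
  have : NeZero D := ⟨by omega⟩
  have h1 := clsC_parseval (D := D) (fun x => χ⁻¹ x)
  have h2 : ∀ n : ZMod D, ∑ x : ZMod D, χ⁻¹ x * ZMod.stdAddChar (n * x) = χ n * tau χ⁻¹ := by
    intro n
    have h3 := tau_mul hD χ hχ n.val
    rw [clsC_S, ZMod.natCast_zmod_val] at h3
    exact h3
  have hstar : ∀ (ψ : DirichletCharacter ℂ D) (x : ZMod D), (starRingEnd ℂ) (ψ x) = ψ⁻¹ x :=
    fun ψ x => MulChar.star_apply' ψ x
  have h4 : ∑ x : ZMod D, χ⁻¹ x * (starRingEnd ℂ) (χ⁻¹ x) = (Nat.totient D : ℂ) := by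
    rw [← clsC_norm_sum χ⁻¹]
    exact Finset.sum_congr rfl (fun x _ => by rw [hstar])
  have h5 : ∑ n : ZMod D, (∑ x : ZMod D, χ⁻¹ x * ZMod.stdAddChar (n * x)) *
      (starRingEnd ℂ) (∑ x : ZMod D, χ⁻¹ x * ZMod.stdAddChar (n * x)) =
      (Nat.totient D : ℂ) * (tau χ⁻¹ * (starRingEnd ℂ) (tau χ⁻¹)) := by
    rw [← clsC_norm_sum χ, Finset.sum_mul]
    refine Finset.sum_congr rfl (fun n _ => ?_)
    rw [h2, map_mul (starRingEnd ℂ), hstar]
    ring
  rw [h4, h5, mul_comm (D : ℂ)] at h1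
  have h6 : (Nat.totient D : ℂ) ≠ 0 := by
    exact_mod_cast (Nat.totient_pos.2 (by omega)).ne'
  have h7 := mul_left_cancel₀ h6 h1
  rw [Complex.mul_conj, Complex.normSq_eq_norm_sq] at h7
  exact_mod_cast h7

end

end Pool.Agent.Lib.MP_0b748d_nt.HHC
end

section

set_option autoImplicit false

/-!
# From additive to multiplicative characters
-/

namespace Pool.Agent.Lib.MP_0b748d_nt.HHC

noncomputable section

/-- Orthogonality in the form used below (also used for the Plancherel formula). -/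
theorem clsD_orth {D : ℕ} [NeZero D] (g : ZMod D → ℂ) :
    ∑ χ : DirichletCharacter ℂ D, ‖∑ x : ZMod D, χ x * g x‖ ^ 2 =
      (Nat.totient D : ℝ) * ∑ x : ZMod D, if IsUnit x then ‖g x‖ ^ 2 else 0 := by
  classical
  have hstar : ∀ (ψ : DirichletCharacter ℂ D) (x : ZMod D), (starRingEnd ℂ) (ψ x) = ψ⁻¹ x :=
    fun ψ x => MulChar.star_apply' ψ x
  have h1 : ∀ χ : DirichletCharacter ℂ D, (((‖∑ x : ZMod D, χ x * g x‖ ^ 2 : ℝ)) : ℂ) =
      ∑ x : ZMod D, ∑ y : ZMod D, (g x * (starRingEnd ℂ) (g y)) * (χ x * χ⁻¹ y) := by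
    intro χ
    rw [← Complex.normSq_eq_norm_sq, ← Complex.mul_conj, map_sum, Finset.sum_mul_sum]
    refine Finset.sum_congr rfl (fun x _ => Finset.sum_congr rfl (fun y _ => ?_))
    rw [map_mul (starRingEnd ℂ), hstar]
    ring
  have h2 : ((∑ χ : DirichletCharacter ℂ D, ‖∑ x : ZMod D, χ x * g x‖ ^ 2 : ℝ) : ℂ) =
      (((Nat.totient D : ℝ) * ∑ x : ZMod D, if IsUnit x then ‖g x‖ ^ 2 else 0 : ℝ) : ℂ) := by
    rw [Complex.ofReal_sum, Finset.sum_congr rfl (fun χ _ => h1 χ), Finset.sum_comm]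
    rw [Complex.ofReal_mul, Complex.ofReal_sum, Finset.mul_sum]
    refine Finset.sum_congr rfl (fun x _ => ?_)
    rw [Finset.sum_comm]
    have h3 : ∀ y : ZMod D, ∑ χ : DirichletCharacter ℂ D,
        (g x * (starRingEnd ℂ) (g y)) * (χ x * χ⁻¹ y) =
        if y = x then (if IsUnit x then ((Nat.totient D : ℕ) : ℂ) * (g x * (starRingEnd ℂ) (g x))
          else 0) else 0 := by
      intro y
      rw [← Finset.mul_sum]
      by_cases hy : IsUnit y
      · have h4 := DirichletCharacter.sum_char_inv_mul_char_eq ℂ hy x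
        have h5 : ∀ χ : DirichletCharacter ℂ D, χ x * χ⁻¹ y = χ y⁻¹ * χ x := by
          intro χ
          rw [MulChar.inv_apply_eq_inv', mul_comm]
          congr 1
          obtain ⟨u, rfl⟩ := hy
          rw [ZMod.inv_coe_unit u]
          exact (eq_inv_of_mul_eq_one_left (by rw [← map_mul, Units.inv_mul, map_one])).symm
        rw [Finset.sum_congr rfl (fun χ _ => h5 χ), h4]
        by_cases hxy : y = x
        · subst hxy
          simp [hy]
          ring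
        · simp [hxy]
      · have h5 : ∀ χ : DirichletCharacter ℂ D, χ x * χ⁻¹ y = 0 := by
          intro χ
          rw [MulChar.map_nonunit _ hy, mul_zero]
        rw [Finset.sum_congr rfl (fun χ _ => h5 χ)]
        by_cases hxy : y = x
        · subst hxy
          simp [hy]
        · simp [hxy]
    rw [Finset.sum_congr rfl (fun y _ => h3 y), Finset.sum_ite_eq' Finset.univ x]
    simp only [Finset.mem_univ, if_true]
    by_cases hx : IsUnit x
    · rw [if_pos hx, if_pos hx, Complex.mul_conj, Complex.normSq_eq_norm_sq]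
      push_cast
      rfl
    · rw [if_neg hx, if_neg hx]
      simp
  exact_mod_cast h2

theorem clsD_ur {D : ℕ} [NeZero D] (f : ZMod D → ℝ) :
    (∑ x : ZMod D, if IsUnit x then f x else 0) = ∑ a ∈ ur D, f (a : ZMod D) := by
  classical
  unfold ur
  rw [Finset.sum_filter, ← clsC_sum_range]
  refine Finset.sum_congr rfl (fun a _ => ?_)
  by_cases h : Nat.Coprime a D
  · rw [if_pos h, if_pos ((ZMod.isUnit_iff_coprime a D).2 h)]
  · rw [if_neg h, if_neg (fun h' => h ((ZMod.isUnit_iff_coprime a D).1 h'))]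

/-- Proof. For primitive `χ`, with `S a = ∑ c n ee(n a/D)`: `D ‖∑ c n χ n‖² = ‖∑ c n χ n tau χ⁻¹‖²
= ‖∑_{a ∈ range D} χ⁻¹ a S a‖²` (`tau_mul`, `tau_sq`). Extend the sum to all characters `χ` modulo
`D`; by orthogonality (`DirichletCharacter.sum_char_inv_mul_char_eq`)
`∑_χ ‖∑_a χ⁻¹ a S a‖² = φ(D) ∑_{a ∈ ur D} ‖S a‖² ≤ D ∑_{a ∈ ur D} ‖S a‖²`. -/
theorem ls_char {D : ℕ} (hD : 1 ≤ D) (M : ℕ) (c : ℕ → ℂ) :
    ∑ χ ∈ PC D, ‖∑ n ∈ Finset.Icc 1 M, c n * χ (n : ZMod D)‖ ^ 2 ≤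
      ∑ a ∈ ur D, ‖∑ n ∈ Finset.Icc 1 M, c n * ee ((n : ℝ) * ((a : ℝ) / D))‖ ^ 2 := by
  classical
  have : NeZero D := ⟨by omega⟩
  let g : ZMod D → ℂ := fun x => ∑ n ∈ Finset.Icc 1 M, c n * ZMod.stdAddChar ((n : ZMod D) * x)
  have hT : ∀ χ : DirichletCharacter ℂ D, χ.IsPrimitive →
      ‖∑ x : ZMod D, χ⁻¹ x * g x‖ ^ 2 =
        (D : ℝ) * ‖∑ n ∈ Finset.Icc 1 M, c n * χ (n : ZMod D)‖ ^ 2 := by
    intro χ hχ
    have h1 : ∑ x : ZMod D, χ⁻¹ x * g x =
        (∑ n ∈ Finset.Icc 1 M, c n * χ (n : ZMod D)) * tau χ⁻¹ := by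
      have h2 : ∀ x : ZMod D, χ⁻¹ x * g x = ∑ n ∈ Finset.Icc 1 M,
          c n * (χ⁻¹ x * ZMod.stdAddChar ((n : ZMod D) * x)) := by
        intro x
        rw [Finset.mul_sum]
        refine Finset.sum_congr rfl (fun n _ => ?_)
        ring
      rw [Finset.sum_congr rfl (fun x _ => h2 x), Finset.sum_comm, Finset.sum_mul]
      refine Finset.sum_congr rfl (fun n _ => ?_)
      rw [← Finset.mul_sum, ← clsC_S, tau_mul hD χ hχ]
      ring
    rw [h1, norm_mul, mul_pow, tau_sq hD χ hχ]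
    ring
  have hD0 : (0 : ℝ) < D := by exact_mod_cast hD
  refine le_of_mul_le_mul_left ?_ hD0
  rw [Finset.mul_sum]
  have h3 : ∑ χ ∈ PC D, (D : ℝ) * ‖∑ n ∈ Finset.Icc 1 M, c n * χ (n : ZMod D)‖ ^ 2 =
      ∑ χ ∈ PC D, ‖∑ x : ZMod D, χ⁻¹ x * g x‖ ^ 2 := by
    refine Finset.sum_congr rfl (fun χ hχ => ?_)
    rw [hT χ]
    unfold PC at hχ
    exact (Finset.mem_filter.1 hχ).2
  rw [h3]
  have h4 : ∑ χ ∈ PC D, ‖∑ x : ZMod D, χ⁻¹ x * g x‖ ^ 2 ≤
      ∑ χ : DirichletCharacter ℂ D, ‖∑ x : ZMod D, χ⁻¹ x * g x‖ ^ 2 :=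
    Finset.sum_le_sum_of_subset_of_nonneg (Finset.subset_univ _) (fun _ _ _ => by positivity)
  have h5 : ∑ χ : DirichletCharacter ℂ D, ‖∑ x : ZMod D, χ⁻¹ x * g x‖ ^ 2 =
      ∑ χ : DirichletCharacter ℂ D, ‖∑ x : ZMod D, χ x * g x‖ ^ 2 :=
    Fintype.sum_equiv (Equiv.inv _) _ _ (fun χ => rfl)
  rw [h5, clsD_orth, clsD_ur] at h4
  refine h4.trans ?_
  have h6 : ∑ a ∈ ur D, ‖g (a : ZMod D)‖ ^ 2 =
      ∑ a ∈ ur D, ‖∑ n ∈ Finset.Icc 1 M, c n * ee ((n : ℝ) * ((a : ℝ) / D))‖ ^ 2 := by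
    refine Finset.sum_congr rfl (fun a _ => ?_)
    congr 2
    refine Finset.sum_congr rfl (fun n _ => ?_)
    rw [clsC_ee]
  rw [h6]
  refine mul_le_mul_of_nonneg_right ?_ (Finset.sum_nonneg (fun _ _ => by positivity))
  exact_mod_cast Nat.totient_le D

end

end Pool.Agent.Lib.MP_0b748d_nt.HHC
end
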