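import Pool.Agent.Lib.MP_0b748d_nt.HH.CmodC
import Pool.Agent.Lib.MP_0b748d_nt.HH.CvE
import Pool.Agent.Lib.MP_0b748d_nt.HH.ClsD

section

set_option autoImplicit false

/-!
# Determinants and residues
-/

namespace Pool.Agent.Lib.MP_0b748d_nt.HHC

noncomputable section

/-- the three term identity `dt u v • w = dt u w • v - dt v w • u` -/
theorem dt_id (u v w : ℤ × ℤ) :
    dt u v * w.1 = dt u w * v.1 - dt v w * u.1 ∧ dt u v * w.2 = dt u w * v.2 - dt v w * u.2 := by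
  unfold dt
  constructor <;> ring

/-- Proof. Let `x u.1 + y u.2 = 1`, `r0 = x v.1 + y v.2`, `δ = |dt u v|`. Then
`v.1 - r0 u.1 = v.1 (x u.1 + y u.2) - (x v.1 + y v.2) u.1 = y (v.1 u.2 - v.2 u.1)` is divisible by
`δ`, likewise `v.2 - r0 u.2`. `r0` is prime to `δ`: a common divisor divides `v.1` and `v.2`. Let
`r = r0 mod δ` in `[0, δ)`. -/
theorem rz_exists {u v : ℤ × ℤ} (hu : Pv u) (hv : Pv v) (h : dt u v ≠ 0) : ∃ r : ℕ, Rz u v r := by
  obtain ⟨x, y, hxy⟩ := hu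
  obtain ⟨x', y', hxy'⟩ := hv
  obtain ⟨D, hD⟩ : ∃ D : ℤ, D = dt u v := ⟨_, rfl⟩
  obtain ⟨δ, hδ⟩ : ∃ δ : ℕ, δ = (dt u v).natAbs := ⟨_, rfl⟩
  have hδ0 : 0 < δ := by
    rw [hδ]
    exact Int.natAbs_pos.2 h
  have hδ0' : (0 : ℤ) < δ := by exact_mod_cast hδ0
  have hδD : (δ : ℤ) ∣ D := by
    rw [hδ, hD]
    exact Int.natAbs_dvd.2 (dvd_refl _)
  obtain ⟨r0, hr0⟩ : ∃ r0 : ℤ, r0 = x * v.1 + y * v.2 := ⟨_, rfl⟩
  have hDe : D = u.1 * v.2 - u.2 * v.1 := hD
  have e1 : v.1 - r0 * u.1 = -y * D := by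
    rw [hr0, hDe]
    linear_combination (-v.1) * hxy
  have e2 : v.2 - r0 * u.2 = x * D := by
    rw [hr0, hDe]
    linear_combination (-v.2) * hxy
  obtain ⟨r, hr⟩ : ∃ r : ℕ, (r : ℤ) = r0 % δ :=
    ⟨(r0 % δ).toNat, Int.toNat_of_nonneg (Int.emod_nonneg _ hδ0'.ne')⟩
  have hrlt : r < δ := by
    have := Int.emod_lt_of_pos r0 hδ0'
    rw [← hr] at this
    exact_mod_cast this
  have hrr : (δ : ℤ) ∣ r0 - r := by
    rw [hr]
    exact Int.dvd_self_sub_emod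
  have f1 : (δ : ℤ) ∣ v.1 - r * u.1 := by
    have : v.1 - r * u.1 = (v.1 - r0 * u.1) + (r0 - r) * u.1 := by ring
    rw [this, e1]
    exact dvd_add (hδD.mul_left _) (hrr.mul_right _)
  have f2 : (δ : ℤ) ∣ v.2 - r * u.2 := by
    have : v.2 - r * u.2 = (v.2 - r0 * u.2) + (r0 - r) * u.2 := by ring
    rw [this, e2]
    exact dvd_add (hδD.mul_left _) (hrr.mul_right _)
  refine ⟨r, ?_, ?_, ?_⟩
  · rw [← hδ]
    unfold ur
    rw [Finset.mem_filter, Finset.mem_range]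
    refine ⟨hrlt, ?_⟩
    rw [← Nat.isCoprime_iff_coprime]
    obtain ⟨a, ha⟩ := f1
    obtain ⟨b, hb⟩ := f2
    refine ⟨x' * u.1 + y' * u.2, x' * a + y' * b, ?_⟩
    linear_combination hxy' - x' * ha - y' * hb
  · rw [← hδ]
    exact f1
  · rw [← hδ]
    exact f2

/-- Proof. By `dt_id`, `w = (h v - k u)/dt u v` if it exists (uniqueness). Since `v ≡ r u`,
`h v - k u ≡ (h r - k) u` modulo `δ = |dt u v|`, which is `0` iff `δ ∣ k - r h`, as `u` is
primitive. If so, `w` is an integer vector with `dt u w = h`, `dt v w = k`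
(`dt u (h v - k u) = h dt u v`, `dt v (h v - k u) = -k dt v u = k dt u v`). Conversely `dt u w = h`,
`dt v w = k` give `δ ∣ h v - k u` by `dt_id`. -/
theorem rep_iff {u v : ℤ × ℤ} (hu : Pv u) {r : ℕ} (hr : Rz u v r) (h : dt u v ≠ 0) (a b : ℤ) :
    (∃ w : ℤ × ℤ, dt u w = a ∧ dt v w = b) ↔ ((dt u v).natAbs : ℤ) ∣ b - r * a := by
  obtain ⟨hr0, hr1, hr2⟩ := hr
  obtain ⟨x, y, hxy⟩ := hu
  have hD : (((dt u v).natAbs : ℕ) : ℤ) ∣ dt u v := Int.natAbs_dvd.2 (dvd_refl _)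
  constructor
  · rintro ⟨w, rfl, rfl⟩
    obtain ⟨h1, h2⟩ := dt_id u v w
    have e1 : (((dt u v).natAbs : ℕ) : ℤ) ∣ (dt v w - r * dt u w) * u.1 := by
      have : (dt v w - r * dt u w) * u.1 =
          dt u w * (v.1 - r * u.1) - dt u v * w.1 := by
        rw [h1]
        ring
      rw [this]
      exact dvd_sub (hr1.mul_left _) (hD.mul_right _)
    have e2 : (((dt u v).natAbs : ℕ) : ℤ) ∣ (dt v w - r * dt u w) * u.2 := by
      have : (dt v w - r * dt u w) * u.2 =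
          dt u w * (v.2 - r * u.2) - dt u v * w.2 := by
        rw [h2]
        ring
      rw [this]
      exact dvd_sub (hr2.mul_left _) (hD.mul_right _)
    have e3 : dt v w - r * dt u w = x * ((dt v w - r * dt u w) * u.1) +
        y * ((dt v w - r * dt u w) * u.2) := by
      linear_combination (-(dt v w - r * dt u w)) * hxy
    rw [e3]
    exact dvd_add (e1.mul_left _) (e2.mul_left _)
  · intro hab
    have e1 : dt u v ∣ a * v.1 - b * u.1 := by
      rw [← Int.natAbs_dvd]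
      have : a * v.1 - b * u.1 = a * (v.1 - r * u.1) - (b - r * a) * u.1 := by ring
      rw [this]
      exact dvd_sub (hr1.mul_left _) (hab.mul_right _)
    have e2 : dt u v ∣ a * v.2 - b * u.2 := by
      rw [← Int.natAbs_dvd]
      have : a * v.2 - b * u.2 = a * (v.2 - r * u.2) - (b - r * a) * u.2 := by ring
      rw [this]
      exact dvd_sub (hr2.mul_left _) (hab.mul_right _)
    obtain ⟨w1, hw1⟩ := e1
    obtain ⟨w2, hw2⟩ := e2
    refine ⟨(w1, w2), ?_, ?_⟩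
    · apply mul_left_cancel₀ h
      simp only [dt] at hw1 hw2 ⊢
      linear_combination u.2 * hw1 - u.1 * hw2
    · apply mul_left_cancel₀ h
      simp only [dt] at hw1 hw2 ⊢
      linear_combination v.2 * hw1 - v.1 * hw2

/-- uniqueness, from `dt_id` -/
theorem rep_unique {u v w w' : ℤ × ℤ} (h : dt u v ≠ 0) (h1 : dt u w = dt u w')
    (h2 : dt v w = dt v w') : w = w' := by
  obtain ⟨e1, e2⟩ := dt_id u v w
  obtain ⟨e3, e4⟩ := dt_id u v w'
  apply Prod.ext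
  · apply mul_left_cancel₀ h
    rw [e1, e3, h1, h2]
  · apply mul_left_cancel₀ h
    rw [e2, e4, h1, h2]

end

end Pool.Agent.Lib.MP_0b748d_nt.HHC
end

section

set_option autoImplicit false

/-!
# Multiplicity of a determinant and a residue
-/

namespace Pool.Agent.Lib.MP_0b748d_nt.HHC

noncomputable section

private theorem qb {L δ : ℕ} (hδ : 1 ≤ δ) {a b c e : ℤ} (ha : a ∈ Finset.Icc (0 : ℤ) L)
    (hb : b ∈ Finset.Icc (0 : ℤ) L) (hc : c ∈ Finset.Icc (0 : ℤ) L)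
    (he : e ∈ Finset.Icc (0 : ℤ) L) (h : (δ : ℤ) ∣ a * b - c * e) :
    (a * b - c * e) / (δ : ℤ) ∈ Finset.Icc (-((L ^ 2 / δ : ℕ) : ℤ)) ((L ^ 2 / δ : ℕ) : ℤ) := by
  obtain ⟨q, hq⟩ := h
  rw [Finset.mem_Icc] at ha hb hc he
  have hδ' : (δ : ℤ) ≠ 0 := by positivity
  rw [hq, Int.mul_ediv_cancel_left _ hδ']
  have h1 : a * b ≤ (L : ℤ) * L := mul_le_mul ha.2 hb.2 hb.1 (by positivity)
  have h2 : c * e ≤ (L : ℤ) * L := mul_le_mul hc.2 he.2 he.1 (by positivity)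
  have h3 : 0 ≤ a * b := mul_nonneg ha.1 hb.1
  have h4 : 0 ≤ c * e := mul_nonneg hc.1 he.1
  have h5 : |(δ : ℤ) * q| ≤ (L : ℤ) * L := by
    rw [← hq, abs_le]
    constructor <;> linarith
  have h6 : q.natAbs ≤ L ^ 2 / δ := by
    rw [Nat.le_div_iff_mul_le (by omega)]
    zify
    rw [abs_mul, Nat.abs_cast] at h5
    nlinarith [h5]
  rw [Finset.mem_Icc]
  omega

open Classical in
/-- Proof. If the set is empty there is nothing to prove; otherwise fix an element `(u0, v0)`,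
`d = dt u0 v0`, `|d| = δ`. For an element `(u, v)` the four numbers
`u.i v0.2 - v.i u0.2`, `- u.i v0.1 + v.i u0.1` (`i = 1, 2`) are divisible by `δ`, because
`v ≡ r u`, `v0 ≡ r u0` modulo `δ`; they are differences of two numbers of `[0, L²]`, hence of absolute
value at most `L²`. Divided by `d` they are the entries of the matrix `g` with `g u0 = u`, `g v0 = v`
(Cramer's rule: `(u.1 v0.2 - v.1 u0.2) u0.1 + (- u.1 v0.1 + v.1 u0.1) u0.2 = u.1 d`, etc.), so they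
determine `(u, v)`, and each takes at most `2 L²/δ + 1` values. -/
theorem mult_le {L δ : ℕ} (hδ : 1 ≤ δ) (r : ℤ) :
    ((((bx L) ×ˢ (bx L)).filter (fun x => (dt x.1 x.2).natAbs = δ ∧
      (δ : ℤ) ∣ x.2.1 - r * x.1.1 ∧ (δ : ℤ) ∣ x.2.2 - r * x.1.2)).card : ℝ) ≤
      (2 * (L : ℝ) ^ 2 / δ + 1) ^ 4 := by
  set S := ((bx L) ×ˢ (bx L)).filter (fun x => (dt x.1 x.2).natAbs = δ ∧
      (δ : ℤ) ∣ x.2.1 - r * x.1.1 ∧ (δ : ℤ) ∣ x.2.2 - r * x.1.2) with hS
  rcases S.eq_empty_or_nonempty with he | ⟨⟨u0, v0⟩, h0⟩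
  · rw [he]
    simp only [Finset.card_empty, Nat.cast_zero]
    positivity
  have hδ' : (δ : ℤ) ≠ 0 := by positivity
  set k : ℕ := L ^ 2 / δ with hk
  set I : Finset ℤ := Finset.Icc (-(k : ℤ)) (k : ℤ) with hI
  have mem : ∀ x, x ∈ S → (x.1.1 ∈ Finset.Icc (0 : ℤ) L ∧ x.1.2 ∈ Finset.Icc (0 : ℤ) L) ∧
      (x.2.1 ∈ Finset.Icc (0 : ℤ) L ∧ x.2.2 ∈ Finset.Icc (0 : ℤ) L) ∧
      (dt x.1 x.2).natAbs = δ ∧ (δ : ℤ) ∣ x.2.1 - r * x.1.1 ∧ (δ : ℤ) ∣ x.2.2 - r * x.1.2 := by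
    intro x hx
    rw [hS, Finset.mem_filter, Finset.mem_product] at hx
    simp only [bx, Finset.mem_product] at hx
    exact ⟨hx.1.1, hx.1.2, hx.2⟩
  obtain ⟨⟨hu1, hu2⟩, ⟨hv1, hv2⟩, hd0, hr1, hr2⟩ := mem _ h0
  simp only at hu1 hu2 hv1 hv2 hd0 hr1 hr2
  have hdne : dt u0 v0 ≠ 0 := by
    intro h
    rw [h] at hd0
    simp at hd0
    omega
  -- divisibilities
  have dv : ∀ x, x ∈ S → ((δ : ℤ) ∣ x.1.1 * v0.2 - x.2.1 * u0.2 ∧
      (δ : ℤ) ∣ x.2.1 * u0.1 - x.1.1 * v0.1) ∧ ((δ : ℤ) ∣ x.1.2 * v0.2 - x.2.2 * u0.2 ∧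
      (δ : ℤ) ∣ x.2.2 * u0.1 - x.1.2 * v0.1) := by
    intro x hx
    obtain ⟨-, -, -, hx1, hx2⟩ := mem x hx
    obtain ⟨p1, hp1⟩ := hx1
    obtain ⟨p2, hp2⟩ := hx2
    obtain ⟨q1, hq1⟩ := hr1
    obtain ⟨q2, hq2⟩ := hr2
    refine ⟨⟨⟨x.1.1 * q2 - p1 * u0.2, ?_⟩, ⟨p1 * u0.1 - x.1.1 * q1, ?_⟩⟩,
      ⟨⟨x.1.2 * q2 - p2 * u0.2, ?_⟩, ⟨p2 * u0.1 - x.1.2 * q1, ?_⟩⟩⟩
    · linear_combination x.1.1 * hq2 - u0.2 * hp1
    · linear_combination u0.1 * hp1 - x.1.1 * hq1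
    · linear_combination x.1.2 * hq2 - u0.2 * hp2
    · linear_combination u0.1 * hp2 - x.1.2 * hq1
  set G : (ℤ × ℤ) × (ℤ × ℤ) → (ℤ × ℤ) × (ℤ × ℤ) := fun x =>
    (((x.1.1 * v0.2 - x.2.1 * u0.2) / (δ : ℤ), (x.2.1 * u0.1 - x.1.1 * v0.1) / (δ : ℤ)),
      ((x.1.2 * v0.2 - x.2.2 * u0.2) / (δ : ℤ), (x.2.2 * u0.1 - x.1.2 * v0.1) / (δ : ℤ))) with hG
  have hmaps : ∀ x ∈ S, G x ∈ (I ×ˢ I) ×ˢ (I ×ˢ I) := by
    intro x hx
    obtain ⟨⟨a1, a2⟩, ⟨b1, b2⟩, -⟩ := mem x hx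
    obtain ⟨⟨d1, d2⟩, ⟨d3, d4⟩⟩ := dv x hx
    rw [hG]
    simp only [Finset.mem_product]
    exact ⟨⟨qb hδ a1 hv2 b1 hu2 d1, qb hδ b1 hu1 a1 hv1 d2⟩,
      ⟨qb hδ a2 hv2 b2 hu2 d3, qb hδ b2 hu1 a2 hv1 d4⟩⟩
  have hinj : Set.InjOn G S := by
    intro x hx y hy hxy
    have hx' := dv x hx
    have hy' := dv y hy
    rw [hG] at hxy
    simp only [Prod.mk.injEq] at hxy
    obtain ⟨⟨e1, e2⟩, ⟨e3, e4⟩⟩ := hxy
    have E1 := (Int.ediv_left_inj hx'.1.1 hy'.1.1).mp e1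
    have E2 := (Int.ediv_left_inj hx'.1.2 hy'.1.2).mp e2
    have E3 := (Int.ediv_left_inj hx'.2.1 hy'.2.1).mp e3
    have E4 := (Int.ediv_left_inj hx'.2.2 hy'.2.2).mp e4
    have hd : dt u0 v0 = u0.1 * v0.2 - u0.2 * v0.1 := rfl
    have F1 : x.1.1 = y.1.1 := mul_right_cancel₀ hdne (by
      rw [hd]; linear_combination u0.1 * E1 + u0.2 * E2)
    have F2 : x.2.1 = y.2.1 := mul_right_cancel₀ hdne (by
      rw [hd]; linear_combination v0.1 * E1 + v0.2 * E2)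
    have F3 : x.1.2 = y.1.2 := mul_right_cancel₀ hdne (by
      rw [hd]; linear_combination u0.1 * E3 + u0.2 * E4)
    have F4 : x.2.2 = y.2.2 := mul_right_cancel₀ hdne (by
      rw [hd]; linear_combination v0.1 * E3 + v0.2 * E4)
    exact Prod.ext (Prod.ext F1 F3) (Prod.ext F2 F4)
  have hcard : S.card ≤ ((I ×ˢ I) ×ˢ (I ×ˢ I)).card :=
    Finset.card_le_card_of_injOn G hmaps hinj
  have hIc : I.card = 2 * k + 1 := by
    rw [hI, Int.card_Icc]
    omega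
  rw [Finset.card_product, Finset.card_product, hIc] at hcard
  have hk2 : (k : ℝ) ≤ (L : ℝ) ^ 2 / δ := by
    have : ((L ^ 2 / δ : ℕ) : ℝ) ≤ ((L ^ 2 : ℕ) : ℝ) / (δ : ℝ) := Nat.cast_div_le
    rw [hk]
    push_cast at this ⊢
    exact this
  calc (S.card : ℝ) ≤ (((2 * k + 1) * (2 * k + 1) * ((2 * k + 1) * (2 * k + 1)) : ℕ) : ℝ) := by
        exact_mod_cast hcard
    _ = (2 * (k : ℝ) + 1) ^ 4 := by push_cast; ring
    _ ≤ (2 * (L : ℝ) ^ 2 / δ + 1) ^ 4 := by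
        have : 2 * (k : ℝ) ≤ 2 * (L : ℝ) ^ 2 / δ := by
          rw [mul_div_assoc]
          linarith
        gcongr

open Classical in
/-- Proof. Group the elements `x` of `T` by `δ = |dt x.1 x.2|` and `r = rs x.1 x.2`; `δ ∈ DR C0 η N`
(`1 ≤ η N ≤ δ ≤ L² ≤ C0 N`: `|u.1 v.2 - u.2 v.1| ≤ L²`), `r ∈ ur δ`, and by `mult_le` each pair
`(δ, r)` occurs at most `(2 L²/δ + 1)^4 ≤ (2 C0/η + 1)^4` times. -/
theorem vp_sum (F : ℕ → ℕ → ℝ) (hF : ∀ δ r, 0 ≤ F δ r) {C0 η : ℝ} (hC0 : 1 ≤ C0) (hη : 0 < η)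
    {N L : ℕ} (hN : 1 ≤ η * N) (hL : (L : ℝ) ^ 2 ≤ C0 * N) (rs : ℤ × ℤ → ℤ × ℤ → ℕ)
    (T : Finset ((ℤ × ℤ) × (ℤ × ℤ))) (hT : ∀ x ∈ T, x.1 ∈ bx L ∧ x.2 ∈ bx L ∧
      η * N ≤ |(dt x.1 x.2 : ℝ)| ∧ Rz x.1 x.2 (rs x.1 x.2)) :
    ∑ x ∈ T, F (dt x.1 x.2).natAbs (rs x.1 x.2) ≤
      (2 * C0 / η + 1) ^ 4 * ∑ δ ∈ DR C0 η N, ∑ r ∈ ur δ, F δ r := by
  have hNpos : (0 : ℝ) < N := by
    by_contra h
    push Not at h
    nlinarith
  rw [Finset.sum_sigma']
  set D : Finset (Σ _ : ℕ, ℕ) := (DR C0 η N).sigma (fun δ => ur δ) with hD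
  set g : (ℤ × ℤ) × (ℤ × ℤ) → (Σ _ : ℕ, ℕ) := fun x =>
    ⟨(dt x.1 x.2).natAbs, rs x.1 x.2⟩ with hg
  have hgm : ∀ x ∈ T, g x ∈ D := by
    intro x hx
    obtain ⟨h1, h2, h3, h4⟩ := hT x hx
    rw [hD, Finset.mem_sigma]
    refine ⟨?_, h4.1⟩
    have hnat : ((dt x.1 x.2).natAbs : ℝ) = |(dt x.1 x.2 : ℝ)| := by
      rw [Nat.cast_natAbs, Int.cast_abs]
    simp only [bx, Finset.mem_product, Finset.mem_Icc] at h1 h2
    have hle : |(dt x.1 x.2 : ℝ)| ≤ (L : ℝ) ^ 2 := by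
      have h5 : x.1.1 * x.2.2 ≤ (L : ℤ) * L := mul_le_mul h1.1.2 h2.2.2 h2.2.1 (by positivity)
      have h6 : x.1.2 * x.2.1 ≤ (L : ℤ) * L := mul_le_mul h1.2.2 h2.1.2 h2.1.1 (by positivity)
      have h7 : 0 ≤ x.1.1 * x.2.2 := mul_nonneg h1.1.1 h2.2.1
      have h8 : 0 ≤ x.1.2 * x.2.1 := mul_nonneg h1.2.1 h2.1.1
      have h9 : |dt x.1 x.2| ≤ (L : ℤ) * L := by
        rw [dt, abs_le]
        constructor <;> linarith
      have h10 : ((|dt x.1 x.2| : ℤ) : ℝ) ≤ (((L : ℤ) * L : ℤ) : ℝ) := by exact_mod_cast h9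
      rw [Int.cast_abs] at h10
      push_cast at h10
      rw [pow_two]
      exact h10
    rw [DR, Finset.mem_filter, Finset.mem_Icc]
    refine ⟨⟨?_, ?_⟩, ?_⟩
    · have : (1 : ℝ) ≤ ((dt x.1 x.2).natAbs : ℝ) := by rw [hnat]; linarith
      exact_mod_cast this
    · apply Nat.le_floor
      rw [hg]
      simp only
      rw [hnat]
      linarith
    · rw [hg]
      simp only
      rw [hnat]
      exact h3
  rw [← Finset.sum_fiberwise_of_maps_to hgm, Finset.mul_sum]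
  refine Finset.sum_le_sum fun y hy => ?_
  have hy1 : y.1 ∈ DR C0 η N := (Finset.mem_sigma.mp hy).1
  rw [DR, Finset.mem_filter, Finset.mem_Icc] at hy1
  have hsum : ∑ x ∈ T with g x = y, F (dt x.1 x.2).natAbs (rs x.1 x.2) =
      ((T.filter (fun x => g x = y)).card : ℝ) * F y.1 y.2 := by
    rw [← nsmul_eq_mul, ← Finset.sum_const]
    refine Finset.sum_congr rfl fun x hx => ?_
    have := (Finset.mem_filter.mp hx).2
    rw [← this]
  rw [hsum]
  refine mul_le_mul_of_nonneg_right ?_ (hF _ _)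
  have hsub : T.filter (fun x => g x = y) ⊆ ((bx L) ×ˢ (bx L)).filter
      (fun x => (dt x.1 x.2).natAbs = y.1 ∧
      (y.1 : ℤ) ∣ x.2.1 - (y.2 : ℤ) * x.1.1 ∧ (y.1 : ℤ) ∣ x.2.2 - (y.2 : ℤ) * x.1.2) := by
    intro x hx
    rw [Finset.mem_filter] at hx
    obtain ⟨h1, h2, h3, h4⟩ := hT x hx.1
    rw [Finset.mem_filter, Finset.mem_product]
    rw [← hx.2]
    exact ⟨⟨h1, h2⟩, rfl, h4.2.1, h4.2.2⟩
  refine ((Nat.cast_le.mpr (Finset.card_le_card hsub)).trans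
    (mult_le hy1.1.1 (y.2 : ℤ))).trans ?_
  have hy3 : (0 : ℝ) < y.1 := by
    have : (1 : ℝ) ≤ (y.1 : ℝ) := by exact_mod_cast hy1.1.1
    linarith
  have hbound : 2 * (L : ℝ) ^ 2 / y.1 ≤ 2 * C0 / η := by
    rw [div_le_div_iff₀ hy3 hη]
    have := hy1.2
    nlinarith [mul_le_mul_of_nonneg_left this (by linarith : (0 : ℝ) ≤ C0)]
  gcongr

end

end Pool.Agent.Lib.MP_0b748d_nt.HHC
end

section

set_option autoImplicit false

/-!
# The correlation of two vectors in terms of cells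
-/

namespace Pool.Agent.Lib.MP_0b748d_nt.HHC

noncomputable section

/-- closeness of two vectors whose determinants lie in the same cells -/
private theorem cvc_close {N J L : ℕ} {η : ℝ} (hN : 1 ≤ N) (hJ : 1 ≤ J) (hη : 0 < η)
    {D a a' b b' x x' p q : ℝ} (hp0 : 0 ≤ p) (hp : p ≤ L) (hq0 : 0 ≤ q) (hq : q ≤ L)
    (hd : η * N ≤ |D|) (h1 : D * x = a * p - b * q) (h2 : D * x' = a' * p - b' * q)
    (ha : |a - a'| ≤ (N : ℝ) / J) (hb : |b - b'| ≤ (N : ℝ) / J) :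
    |x - x'| ≤ 2 * L / (J * η) := by
  have hN' : (0 : ℝ) < N := by exact_mod_cast hN
  have hJ' : (0 : ℝ) < J := by exact_mod_cast hJ
  have hL' : (0 : ℝ) ≤ L := by positivity
  have h3 : D * (x - x') = (a - a') * p - (b - b') * q := by
    rw [mul_sub, h1, h2]
    ring
  have h4 : |D| * |x - x'| ≤ 2 * ((N : ℝ) / J) * L := by
    rw [← abs_mul, h3]
    calc |(a - a') * p - (b - b') * q| ≤ |(a - a') * p| + |(b - b') * q| := abs_sub _ _
      _ = |a - a'| * p + |b - b'| * q := by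
          rw [abs_mul, abs_mul, abs_of_nonneg hp0, abs_of_nonneg hq0]
      _ ≤ ((N : ℝ) / J) * L + ((N : ℝ) / J) * L :=
          add_le_add (mul_le_mul ha hp hp0 (by positivity)) (mul_le_mul hb hq hq0 (by positivity))
      _ = _ := by ring
  have h5 : (η * N) * |x - x'| ≤ 2 * ((N : ℝ) / J) * L :=
    (mul_le_mul_of_nonneg_right hd (abs_nonneg _)).trans h4
  rw [le_div_iff₀ (by positivity)]
  have h6 : (η * N) * |x - x'| * J ≤ 2 * N * L := by
    calc (η * N) * |x - x'| * J ≤ 2 * ((N : ℝ) / J) * L * J :=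
          mul_le_mul_of_nonneg_right h5 hJ'.le
      _ = 2 * N * L := by field_simp
  have h7 : N * (|x - x'| * (J * η)) ≤ N * (2 * L) := by
    calc N * (|x - x'| * (J * η)) = (η * N) * |x - x'| * J := by ring
      _ ≤ 2 * N * L := h6
      _ = N * (2 * L) := by ring
  exact le_of_mul_le_mul_left h7 hN'

/-- Proof. Let `δ = |dt u v| ≥ η N > 0`. By `rep_iff`, `rep_unique` the map `w ↦ (dt u w, dt v w)` is a
bijection of `ℤ²` onto `{(h, k) : k ≡ r h mod δ}`. The terms with `f ≠ 0` have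
`h = dt u w, k = dt v w ∈ [N, 2N)` and lie in exactly one product of cells `(i, j)`, `i, j < J`
(`ci_lt`). Fix `(i, j)` and let `E` be the set of `(h, k)` in the product of the cells with
`k ≡ r h mod δ`; `Sr f (cell i) (cell j) δ r = ∑_{(h, k) ∈ E} f h * f k`. If all the corresponding
`w` are in the box, the contribution of `(i, j)` to the left side is `Sr`. If none is, it is `0`.
Otherwise there are `w` in the box and `w'` not in the box; for two such, by `dt_id`,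
`|w.1 - w'.1| ≤ (|h - h'| |v.1| + |k - k'| |u.1|)/δ ≤ 2 (N/J) L/(η N) = 2 L/(J η)` (`cell_close`),
and the same for the second coordinate; since `w'.1 < 0` or `w'.1 > L` or the same for `w'.2`, we get
`w ∈ bd L (2 L/(J η))`. So all the `w` of the box of this `(i, j)` are in `bd`, and the contribution
is at most the sum of `|f| |f|` over them. Sum over `(i, j)`. -/
theorem A_cells {N J L : ℕ} {η : ℝ} (hN : 1 ≤ N) (hJ : 1 ≤ J) (hη : 0 < η) {u v : ℤ × ℤ}
    (hu : u ∈ bx L) (hv : v ∈ bx L) (hu' : Pv u) {r : ℕ} (hr : Rz u v r)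
    (hd : η * N ≤ |(dt u v : ℝ)|) (f : ℕ → ℝ) (hf : ∀ m, f m ≠ 0 → N ≤ m ∧ m < 2 * N) :
    |∑ w ∈ bx L, f (dt u w).toNat * f (dt v w).toNat| ≤
      ∑ i ∈ Finset.range J, ∑ j ∈ Finset.range J,
        |Sr f (cell N J i) (cell N J j) (dt u v).natAbs r| +
      ∑ w ∈ bd L (2 * L / (J * η)), |f (dt u w).toNat| * |f (dt v w).toNat| := by
  classical
  have hN' : (0 : ℝ) < N := by exact_mod_cast hN
  have hJ' : (0 : ℝ) < J := by exact_mod_cast hJ
  have hD0 : dt u v ≠ 0 := by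
    intro h
    rw [h, Int.cast_zero, abs_zero] at hd
    have : 0 < η * N := by positivity
    linarith
  have hu2 := hu
  rw [bx, Finset.mem_product, Finset.mem_Icc, Finset.mem_Icc] at hu2
  have hv2 := hv
  rw [bx, Finset.mem_product, Finset.mem_Icc, Finset.mem_Icc] at hv2
  have hu10 : (0 : ℝ) ≤ u.1 := by exact_mod_cast hu2.1.1
  have hu1L : (u.1 : ℝ) ≤ L := by exact_mod_cast hu2.1.2
  have hu20 : (0 : ℝ) ≤ u.2 := by exact_mod_cast hu2.2.1
  have hu2L : (u.2 : ℝ) ≤ L := by exact_mod_cast hu2.2.2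
  have hv10 : (0 : ℝ) ≤ v.1 := by exact_mod_cast hv2.1.1
  have hv1L : (v.1 : ℝ) ≤ L := by exact_mod_cast hv2.1.2
  have hv20 : (0 : ℝ) ≤ v.2 := by exact_mod_cast hv2.2.1
  have hv2L : (v.2 : ℝ) ≤ L := by exact_mod_cast hv2.2.2
  -- membership in a cell
  have hcell : ∀ i (z : ℤ), z.toNat ∈ cell N J i → ((z.toNat : ℕ) : ℤ) = z := by
    intro i z hz
    rw [cell, Finset.mem_filter, Finset.mem_Ico] at hz
    refine Int.toNat_of_nonneg ?_
    by_contra h
    rw [not_le] at h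
    rw [Int.toNat_of_nonpos h.le] at hz
    omega
  have hcell2 : ∀ i m, m ∈ cell N J i → ci N J m = i := by
    intro i m hm
    rw [cell, Finset.mem_filter] at hm
    exact hm.2
  set P := Finset.range J ×ˢ Finset.range J with hP
  set G : ℤ × ℤ → ℝ := fun w => f (dt u w).toNat * f (dt v w).toNat with hG
  set C : ℕ × ℕ → ℤ × ℤ → Prop := fun p w =>
    (dt u w).toNat ∈ cell N J p.1 ∧ (dt v w).toNat ∈ cell N J p.2 with hC
  -- step 1
  have hs1 : ∑ w ∈ bx L, G w = ∑ p ∈ P, ∑ w ∈ (bx L).filter (C p), G w := by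
    have h1 : ∀ w, G w = ∑ p ∈ P, if C p w then G w else 0 := by
      intro w
      by_cases h : G w = 0
      · rw [h]
        simp
      · have h2 : f (dt u w).toNat ≠ 0 := left_ne_zero_of_mul h
        have h3 : f (dt v w).toNat ≠ 0 := right_ne_zero_of_mul h
        have h4 := hf _ h2
        have h5 := hf _ h3
        rw [Finset.sum_eq_single (ci N J (dt u w).toNat, ci N J (dt v w).toNat)]
        · rw [if_pos]
          refine ⟨?_, ?_⟩
          · rw [cell, Finset.mem_filter, Finset.mem_Ico]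
            exact ⟨h4, rfl⟩
          · rw [cell, Finset.mem_filter, Finset.mem_Ico]
            exact ⟨h5, rfl⟩
        · intro p _ hp
          rw [if_neg]
          rintro ⟨h6, h7⟩
          apply hp
          rw [hcell2 _ _ h6, hcell2 _ _ h7]
        · intro h6
          exfalso
          apply h6
          rw [hP, Finset.mem_product, Finset.mem_range, Finset.mem_range]
          exact ⟨ci_lt hJ h4.1 h4.2, ci_lt hJ h5.1 h5.2⟩
    calc ∑ w ∈ bx L, G w = ∑ w ∈ bx L, ∑ p ∈ P, (if C p w then G w else 0) :=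
          Finset.sum_congr rfl fun w _ => h1 w
      _ = ∑ p ∈ P, ∑ w ∈ bx L, (if C p w then G w else 0) := Finset.sum_comm
      _ = _ := by
          refine Finset.sum_congr rfl fun p _ => ?_
          rw [Finset.sum_filter]
  -- step 2
  have hs2 : ∀ p ∈ P, |∑ w ∈ (bx L).filter (C p), G w| ≤
      |Sr f (cell N J p.1) (cell N J p.2) (dt u v).natAbs r| +
      ∑ w ∈ (bd L (2 * L / (J * η))).filter (C p),
        |f (dt u w).toNat| * |f (dt v w).toNat| := by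
    intro p _
    by_cases hcase : ∃ w', w' ∉ bx L ∧ C p w'
    · obtain ⟨w', hw', hCw'⟩ := hcase
      have h1 : (bx L).filter (C p) ⊆ (bd L (2 * L / (J * η))).filter (C p) := by
        intro w hw
        rw [Finset.mem_filter] at hw ⊢
        refine ⟨?_, hw.2⟩
        obtain ⟨hwb, hCw⟩ := hw
        have c1 := cell_close hJ hCw.1 hCw'.1
        have c2 := cell_close hJ hCw.2 hCw'.2
        have e1 := hcell _ _ hCw.1
        have e2 := hcell _ _ hCw.2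
        have e3 := hcell _ _ hCw'.1
        have e4 := hcell _ _ hCw'.2
        have f1 : (((dt u w).toNat : ℕ) : ℝ) = ((dt u w : ℤ) : ℝ) := by
          exact_mod_cast congrArg (fun z : ℤ => (z : ℝ)) e1
        have f2 : (((dt v w).toNat : ℕ) : ℝ) = ((dt v w : ℤ) : ℝ) := by
          exact_mod_cast congrArg (fun z : ℤ => (z : ℝ)) e2
        have f3 : (((dt u w').toNat : ℕ) : ℝ) = ((dt u w' : ℤ) : ℝ) := by
          exact_mod_cast congrArg (fun z : ℤ => (z : ℝ)) e3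
        have f4 : (((dt v w').toNat : ℕ) : ℝ) = ((dt v w' : ℤ) : ℝ) := by
          exact_mod_cast congrArg (fun z : ℤ => (z : ℝ)) e4
        rw [f1, f3] at c1
        rw [f2, f4] at c2
        obtain ⟨i1, i2⟩ := dt_id u v w
        obtain ⟨i3, i4⟩ := dt_id u v w'
        have j1 : ((dt u v : ℤ) : ℝ) * w.1 = (dt u w : ℤ) * (v.1 : ℝ) - (dt v w : ℤ) * u.1 := by
          exact_mod_cast i1
        have j2 : ((dt u v : ℤ) : ℝ) * w.2 = (dt u w : ℤ) * (v.2 : ℝ) - (dt v w : ℤ) * u.2 := by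
          exact_mod_cast i2
        have j3 : ((dt u v : ℤ) : ℝ) * w'.1 = (dt u w' : ℤ) * (v.1 : ℝ) - (dt v w' : ℤ) * u.1 := by
          exact_mod_cast i3
        have j4 : ((dt u v : ℤ) : ℝ) * w'.2 = (dt u w' : ℤ) * (v.2 : ℝ) - (dt v w' : ℤ) * u.2 := by
          exact_mod_cast i4
        have k1 := cvc_close hN hJ hη hv10 hv1L hu10 hu1L hd j1 j3 c1 c2
        have k2 := cvc_close hN hJ hη hv20 hv2L hu20 hu2L hd j2 j4 c1 c2
        rw [abs_le] at k1 k2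
        unfold bd
        rw [Finset.mem_filter]
        refine ⟨hwb, ?_⟩
        have l1 : w'.1 < 0 ∨ (L : ℤ) < w'.1 ∨ w'.2 < 0 ∨ (L : ℤ) < w'.2 := by
          by_contra hcon
          apply hw'
          rw [bx, Finset.mem_product, Finset.mem_Icc, Finset.mem_Icc]
          omega
        rcases l1 with l1 | l1 | l1 | l1
        · left
          have : (w'.1 : ℝ) < 0 := by exact_mod_cast l1
          linarith
        · right; right; left
          have : (L : ℝ) < w'.1 := by exact_mod_cast l1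
          linarith
        · right; left
          have : (w'.2 : ℝ) < 0 := by exact_mod_cast l1
          linarith
        · right; right; right
          have : (L : ℝ) < w'.2 := by exact_mod_cast l1
          linarith
      calc |∑ w ∈ (bx L).filter (C p), G w| ≤ ∑ w ∈ (bx L).filter (C p), |G w| :=
            Finset.abs_sum_le_sum_abs _ _
        _ = ∑ w ∈ (bx L).filter (C p), |f (dt u w).toNat| * |f (dt v w).toNat| :=
            Finset.sum_congr rfl fun w _ => abs_mul _ _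
        _ ≤ ∑ w ∈ (bd L (2 * L / (J * η))).filter (C p),
              |f (dt u w).toNat| * |f (dt v w).toNat| :=
            Finset.sum_le_sum_of_subset_of_nonneg h1 fun _ _ _ => by positivity
        _ ≤ _ := le_add_of_nonneg_left (abs_nonneg _)
    · have hcase' : ∀ w', C p w' → w' ∈ bx L := by
        intro w' hw'
        by_contra h
        exact hcase ⟨w', h, hw'⟩
      have h1 : ∑ w ∈ (bx L).filter (C p), G w =
          Sr f (cell N J p.1) (cell N J p.2) (dt u v).natAbs r := by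
        unfold Sr
        rw [← Finset.sum_product', ← Finset.sum_filter]
        refine Finset.sum_bij (fun w _ => ((dt u w).toNat, (dt v w).toNat)) ?_ ?_ ?_ ?_
        · intro w hw
          rw [Finset.mem_filter] at hw
          rw [Finset.mem_filter, Finset.mem_product]
          refine ⟨hw.2, ?_⟩
          have e1 := hcell _ _ hw.2.1
          have e2 := hcell _ _ hw.2.2
          have h2 := (rep_iff hu' hr hD0 (dt u w) (dt v w)).1 ⟨w, rfl, rfl⟩
          rw [Nat.modEq_iff_dvd]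
          rw [Nat.cast_mul, e1, e2, dvd_sub_comm]
          exact h2
        · intro w hw w' hw' h2
          rw [Finset.mem_filter] at hw hw'
          have e1 := hcell _ _ hw.2.1
          have e2 := hcell _ _ hw.2.2
          have e3 := hcell _ _ hw'.2.1
          have e4 := hcell _ _ hw'.2.2
          have h3 := (Prod.ext_iff.1 h2).1
          have h4 := (Prod.ext_iff.1 h2).2
          simp only at h3 h4
          refine rep_unique hD0 ?_ ?_
          · rw [← e1, ← e3, h3]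
          · rw [← e2, ← e4, h4]
        · intro x hx
          rw [Finset.mem_filter, Finset.mem_product] at hx
          obtain ⟨⟨hx1, hx2⟩, hx3⟩ := hx
          have h2 : (((dt u v).natAbs : ℕ) : ℤ) ∣ (x.2 : ℤ) - r * (x.1 : ℤ) := by
            rw [Nat.modEq_iff_dvd] at hx3
            push_cast at hx3
            rw [dvd_sub_comm]
            exact_mod_cast hx3
          obtain ⟨w, hw1, hw2⟩ := (rep_iff hu' hr hD0 (x.1 : ℤ) (x.2 : ℤ)).2 h2
          have h3 : (dt u w).toNat = x.1 := by rw [hw1, Int.toNat_natCast]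
          have h4 : (dt v w).toNat = x.2 := by rw [hw2, Int.toNat_natCast]
          have h5 : C p w := by
            refine ⟨?_, ?_⟩
            · rw [h3]; exact hx1
            · rw [h4]; exact hx2
          refine ⟨w, Finset.mem_filter.2 ⟨hcase' w h5, h5⟩, ?_⟩
          exact Prod.ext h3 h4
        · intro w hw
          rfl
      rw [h1]
      exact le_add_of_nonneg_right (Finset.sum_nonneg fun _ _ => by positivity)
  -- step 3
  have hs3 : ∑ p ∈ P, ∑ w ∈ (bd L (2 * L / (J * η))).filter (C p),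
        |f (dt u w).toNat| * |f (dt v w).toNat| ≤
      ∑ w ∈ bd L (2 * L / (J * η)), |f (dt u w).toNat| * |f (dt v w).toNat| := by
    calc ∑ p ∈ P, ∑ w ∈ (bd L (2 * L / (J * η))).filter (C p),
          |f (dt u w).toNat| * |f (dt v w).toNat|
        = ∑ p ∈ P, ∑ w ∈ bd L (2 * L / (J * η)),
          (if C p w then |f (dt u w).toNat| * |f (dt v w).toNat| else 0) := by
          refine Finset.sum_congr rfl fun p _ => ?_
          rw [Finset.sum_filter]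
      _ = ∑ w ∈ bd L (2 * L / (J * η)), ∑ p ∈ P,
          (if C p w then |f (dt u w).toNat| * |f (dt v w).toNat| else 0) := Finset.sum_comm
      _ ≤ _ := by
          refine Finset.sum_le_sum fun w _ => ?_
          rw [← Finset.sum_filter, Finset.sum_const, nsmul_eq_mul]
          have h1 : (P.filter (fun p => C p w)).card ≤ 1 := by
            rw [Finset.card_le_one]
            intro p hp q hq
            rw [Finset.mem_filter] at hp hq
            refine Prod.ext ?_ ?_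
            · rw [← hcell2 _ _ hp.2.1, hcell2 _ _ hq.2.1]
            · rw [← hcell2 _ _ hp.2.2, hcell2 _ _ hq.2.2]
          have h2 : ((P.filter (fun p => C p w)).card : ℝ) ≤ 1 := by exact_mod_cast h1
          calc _ ≤ 1 * (|f (dt u w).toNat| * |f (dt v w).toNat|) :=
                mul_le_mul_of_nonneg_right h2 (by positivity)
            _ = _ := one_mul _
  rw [hs1]
  calc |∑ p ∈ P, ∑ w ∈ (bx L).filter (C p), G w|
      ≤ ∑ p ∈ P, |∑ w ∈ (bx L).filter (C p), G w| := Finset.abs_sum_le_sum_abs _ _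
    _ ≤ ∑ p ∈ P, (|Sr f (cell N J p.1) (cell N J p.2) (dt u v).natAbs r| +
          ∑ w ∈ (bd L (2 * L / (J * η))).filter (C p),
            |f (dt u w).toNat| * |f (dt v w).toNat|) := Finset.sum_le_sum hs2
    _ = ∑ p ∈ P, |Sr f (cell N J p.1) (cell N J p.2) (dt u v).natAbs r| +
          ∑ p ∈ P, ∑ w ∈ (bd L (2 * L / (J * η))).filter (C p),
            |f (dt u w).toNat| * |f (dt v w).toNat| := Finset.sum_add_distrib
    _ ≤ _ := by
        refine add_le_add (le_of_eq ?_) hs3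
        rw [hP, Finset.sum_product]

end

end Pool.Agent.Lib.MP_0b748d_nt.HHC
end

section

set_option autoImplicit false

/-!
# Nearly parallel vectors
-/

namespace Pool.Agent.Lib.MP_0b748d_nt.HHC

noncomputable section

private theorem cvf_biUnion {α β : Type*} [DecidableEq α] [DecidableEq β] (T : Finset α)
    (t : α → Finset β) (f : β → ℝ) (hf : ∀ v, 0 ≤ f v) :
    ∑ v ∈ T.biUnion t, f v ≤ ∑ x ∈ T, ∑ v ∈ t x, f v := by
  induction T using Finset.induction_on with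
  | empty => simp
  | insert a T ha ih =>
    rw [Finset.biUnion_insert, Finset.sum_insert ha]
    have h1 := Finset.sum_union_inter (s₁ := t a) (s₂ := T.biUnion t) (f := f)
    have h2 : 0 ≤ ∑ v ∈ t a ∩ T.biUnion t, f v := Finset.sum_nonneg fun v _ => hf v
    linarith

open Classical in
/-- Proof. Let `H = ⌈√η √N⌉₊`; for large `N`, `√η √N ≤ H ≤ 2 √η √N` and `H ≤ √N + 1 ≤ L + 1`. By
`ks_sq` with `κ = √η`, all squares of side `H` satisfy `∑_{v ∈ sq} |ks (dt v w)| ≤ 13 H²`, and the box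
satisfies `ks_box`. Note `L + 1 ≤ 2 √(C0 N)`.
(1) `max u.1 u.2 < H`: then `u ∈ sq 0 0 H`; drop the condition on `v`: at most
`(L+1)² * 13 H² * 13 (L+1)² ≤ 169 * 4 η N * 16 C0² N²`.
(2) `max u.1 u.2 ≥ H`: `strip_cover` with `s = η N ≤ H² ≤ H max`; the sum over `v` is at most
`4 ((L+1)/H + 1) * 13 H² ≤ 104 (L+1) H`; in total at most
`(L+1)² * 13 (L+1)² * 104 (L+1) H ≤ 1352 (2 √(C0 N))^5 * 2 √η √N`.
The sum is at most `10^5 C0³ √η N³`. -/
theorem near (C0 η : ℝ) (hC0 : 1 ≤ C0) (hη : 0 < η) (hη1 : η ≤ 1) (J W : ℕ) (hJ : 1 ≤ J)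
    (hW : 1 ≤ W) : ∃ N0 : ℕ, ∀ N ≥ N0, ∀ c : ℕ → ℝ, (∀ p, |c p| ≤ 1) → ∀ L : ℕ, N ≤ L ^ 2 →
    (L : ℝ) ^ 2 ≤ C0 * N →
    ∑ w ∈ bx L, ∑ u ∈ bx L, ∑ v ∈ (bx L).filter (fun v => |(dt u v : ℝ)| < η * N),
      |ks c N J W (dt u w).toNat| * |ks c N J W (dt v w).toNat| ≤
      100000 * C0 ^ 3 * √η * (N : ℝ) ^ 3 := by
  classical
  obtain ⟨N1, h1⟩ := ks_sq (√η) (Real.sqrt_pos.2 hη) J W hJ hW
  obtain ⟨N2, h2⟩ := ks_box C0 hC0 J W hJ hW
  refine ⟨N1 + N2 + ⌈1 / η⌉₊ + ⌈C0⌉₊ + 1, fun N hN c hc L hNL hLC => ?_⟩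
  have hN1 : N1 ≤ N := by omega
  have hN2 : N2 ≤ N := by omega
  have hNη : 1 / η ≤ N := (Nat.le_ceil _).trans (by
    exact_mod_cast (by omega : ⌈1 / η⌉₊ ≤ N))
  have hNC : C0 < N := by
    have h3 : C0 ≤ ⌈C0⌉₊ := Nat.le_ceil _
    have h4 : ((⌈C0⌉₊ : ℕ) : ℝ) + 1 ≤ N := by
      exact_mod_cast (by omega : ⌈C0⌉₊ + 1 ≤ N)
    linarith only [h3, h4]
  have hN0 : (1 : ℝ) ≤ N := by linarith
  have hηN1 : 1 ≤ η * N := by
    rw [div_le_iff₀ hη] at hNη
    linarith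
  have hsη : 0 < √η := Real.sqrt_pos.2 hη
  have hsη1 : √η ≤ 1 := by
    rw [← Real.sqrt_one]
    exact Real.sqrt_le_sqrt hη1
  have hsη2 : √η * √η = η := Real.mul_self_sqrt hη.le
  have hsN2 : √(N : ℝ) * √(N : ℝ) = N := Real.mul_self_sqrt (by linarith)
  have hsN : 0 < √(N : ℝ) := Real.sqrt_pos.2 (by linarith)
  have hsC2 : √C0 * √C0 = C0 := Real.mul_self_sqrt (by linarith)
  have hsC1 : 1 ≤ √C0 := Real.one_le_sqrt.2 hC0
  have hsNL : √(N : ℝ) ≤ L := by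
    rw [Real.sqrt_le_left (by positivity)]
    exact_mod_cast hNL
  have hL1 : (1 : ℝ) ≤ L := le_trans (Real.one_le_sqrt.2 hN0) hsNL
  have hLsq : (L : ℝ) ≤ √C0 * √(N : ℝ) := by
    rw [← Real.sqrt_mul (by linarith)]
    exact Real.le_sqrt_of_sq_le hLC
  set H : ℕ := ⌈√η * √(N : ℝ)⌉₊ with hHdef
  have hpr : 1 ≤ √η * √(N : ℝ) := by
    rw [← Real.sqrt_mul hη.le]
    exact Real.one_le_sqrt.2 hηN1
  have hH1 : √η * √(N : ℝ) ≤ H := Nat.le_ceil _
  have hH2 : (H : ℝ) ≤ 2 * (√η * √(N : ℝ)) := by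
    have := Nat.ceil_lt_add_one (a := √η * √(N : ℝ)) (by positivity)
    rw [← hHdef] at this
    linarith
  have hH3 : 1 ≤ H := by
    have : (1 : ℝ) ≤ H := hpr.trans hH1
    exact_mod_cast this
  have hH0 : (1 : ℝ) ≤ H := by exact_mod_cast hH3
  have hH4 : H ≤ L := by
    refine Nat.ceil_le.2 ?_
    calc √η * √(N : ℝ) ≤ 1 * √(N : ℝ) := mul_le_mul_of_nonneg_right hsη1 hsN.le
      _ ≤ L := by rw [one_mul]; exact hsNL
  have hH5 : (H : ℝ) ≤ L := by exact_mod_cast hH4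
  have hH6 : η * N ≤ (H : ℝ) * H := by
    calc η * N = (√η * √(N : ℝ)) * (√η * √(N : ℝ)) := by
          rw [mul_mul_mul_comm, hsη2, hsN2]
      _ ≤ (H : ℝ) * H := mul_le_mul hH1 hH1 (by positivity) (by positivity)
  have hLN : (L : ℝ) < N := by
    by_contra h
    rw [not_lt] at h
    have h3 : (N : ℝ) * N ≤ L * L := mul_le_mul h h (by linarith) (by linarith)
    nlinarith only [hNC, hsN2, hsC2, hLsq, h3]
  have hbx : ∀ w ∈ bx L, |w.1| < N ∧ |w.2| < N := by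
    intro w hw
    rw [bx, Finset.mem_product, Finset.mem_Icc, Finset.mem_Icc] at hw
    have hLN' : (L : ℤ) < N := by exact_mod_cast hLN
    constructor
    · rw [abs_of_nonneg hw.1.1]; omega
    · rw [abs_of_nonneg hw.2.1]; omega
  have hsq : ∀ w ∈ bx L, ∀ x y : ℤ, ∑ u ∈ sq x y H, |ks c N J W (dt u w).toNat| ≤
      13 * (H : ℝ) ^ 2 := fun w hw x y => h1 N hN1 c hc w (hbx w hw).1 (hbx w hw).2 x y H hH1
  have hbox : ∀ w ∈ bx L, ∑ u ∈ bx L, |ks c N J W (dt u w).toNat| ≤ 13 * ((L : ℝ) + 1) ^ 2 :=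
    fun w hw => h2 N hN2 c hc L hNL hLC w hw
  -- the strip
  have hstrip : ∀ w ∈ bx L, ∀ u ∈ bx L, (H : ℤ) ≤ max u.1 u.2 →
      ∑ v ∈ (bx L).filter (fun v => |(dt u v : ℝ)| < η * N), |ks c N J W (dt v w).toNat| ≤
      104 * ((L : ℝ) + 1) * H := by
    intro w hw u hu hmax
    have hmaxr : (H : ℝ) ≤ (max u.1 u.2 : ℤ) := by exact_mod_cast hmax
    obtain ⟨T, hT, hcov⟩ := strip_cover (s := η * N) hu hH3 hmax (hH6.trans
      (mul_le_mul_of_nonneg_left hmaxr (by positivity)))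
    have h3 : (bx L).filter (fun v => |(dt u v : ℝ)| < η * N) ⊆
        T.biUnion (fun x => sq x.1 x.2 H) := by
      intro v hv
      rw [Finset.mem_filter] at hv
      obtain ⟨x, hx, hx2⟩ := hcov v hv.1 hv.2.le
      exact Finset.mem_biUnion.2 ⟨x, hx, hx2⟩
    calc ∑ v ∈ (bx L).filter (fun v => |(dt u v : ℝ)| < η * N), |ks c N J W (dt v w).toNat|
        ≤ ∑ v ∈ T.biUnion (fun x => sq x.1 x.2 H), |ks c N J W (dt v w).toNat| :=
          Finset.sum_le_sum_of_subset_of_nonneg h3 fun _ _ _ => abs_nonneg _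
      _ ≤ ∑ x ∈ T, ∑ v ∈ sq x.1 x.2 H, |ks c N J W (dt v w).toNat| :=
          cvf_biUnion _ _ _ fun _ => abs_nonneg _
      _ ≤ ∑ x ∈ T, 13 * (H : ℝ) ^ 2 := Finset.sum_le_sum fun x _ => hsq w hw x.1 x.2
      _ = (T.card : ℝ) * (13 * (H : ℝ) ^ 2) := by rw [Finset.sum_const, nsmul_eq_mul]
      _ ≤ (4 * (((L : ℝ) + 1) / H + 1)) * (13 * (H : ℝ) ^ 2) :=
          mul_le_mul_of_nonneg_right hT (by positivity)
      _ = 52 * (((L : ℝ) + 1) * H + H * H) := by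
          field_simp
          ring
      _ ≤ 104 * ((L : ℝ) + 1) * H := by nlinarith only [hH5]
  have hinner : ∀ w ∈ bx L, ∀ u ∈ bx L,
      ∑ v ∈ (bx L).filter (fun v => |(dt u v : ℝ)| < η * N),
        |ks c N J W (dt u w).toNat| * |ks c N J W (dt v w).toNat| ≤
      (if u ∈ sq 0 0 H then |ks c N J W (dt u w).toNat| * (13 * ((L : ℝ) + 1) ^ 2) else 0) +
        |ks c N J W (dt u w).toNat| * (104 * ((L : ℝ) + 1) * H) := by
    intro w hw u hu
    rw [← Finset.mul_sum]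
    have hu' := hu
    rw [bx, Finset.mem_product, Finset.mem_Icc, Finset.mem_Icc] at hu'
    by_cases h3 : (H : ℤ) ≤ max u.1 u.2
    · have h4 := mul_le_mul_of_nonneg_left (hstrip w hw u hu h3)
        (abs_nonneg (ks c N J W (dt u w).toNat))
      have h5 : (0 : ℝ) ≤ if u ∈ sq 0 0 H then
          |ks c N J W (dt u w).toNat| * (13 * ((L : ℝ) + 1) ^ 2) else 0 := by
        split_ifs
        · positivity
        · exact le_rfl
      linarith only [h4, h5]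
    · rw [not_le, max_lt_iff] at h3
      have h4 : u ∈ sq 0 0 H := by
        rw [sq, Finset.mem_product, Finset.mem_Ico, Finset.mem_Ico]
        exact ⟨⟨hu'.1.1, by omega⟩, hu'.2.1, by omega⟩
      rw [if_pos h4]
      have h5 : ∑ v ∈ (bx L).filter (fun v => |(dt u v : ℝ)| < η * N),
          |ks c N J W (dt v w).toNat| ≤ 13 * ((L : ℝ) + 1) ^ 2 :=
        (Finset.sum_le_sum_of_subset_of_nonneg (Finset.filter_subset _ _)
          fun _ _ _ => abs_nonneg _).trans (hbox w hw)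
      have h6 := mul_le_mul_of_nonneg_left h5 (abs_nonneg (ks c N J W (dt u w).toNat))
      have h7 : 0 ≤ |ks c N J W (dt u w).toNat| * (104 * ((L : ℝ) + 1) * H) := by positivity
      linarith only [h6, h7]
  have hcard : ((bx L).card : ℝ) = ((L : ℝ) + 1) ^ 2 := by
    rw [bx, Finset.card_product, Int.card_Icc]
    have : ((L : ℤ) + 1 - 0).toNat = L + 1 := by omega
    rw [this]
    push_cast
    ring
  have hw : ∀ w ∈ bx L, ∑ u ∈ bx L, ∑ v ∈ (bx L).filter (fun v => |(dt u v : ℝ)| < η * N),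
        |ks c N J W (dt u w).toNat| * |ks c N J W (dt v w).toNat| ≤
      169 * (H : ℝ) ^ 2 * ((L : ℝ) + 1) ^ 2 + 1352 * ((L : ℝ) + 1) ^ 3 * H := by
    intro w hw
    calc _ ≤ ∑ u ∈ bx L,
          ((if u ∈ sq 0 0 H then |ks c N J W (dt u w).toNat| * (13 * ((L : ℝ) + 1) ^ 2) else 0) +
          |ks c N J W (dt u w).toNat| * (104 * ((L : ℝ) + 1) * H)) :=
          Finset.sum_le_sum fun u hu => hinner w hw u hu
      _ = (∑ u ∈ (bx L).filter (fun u => u ∈ sq 0 0 H), |ks c N J W (dt u w).toNat|) *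
            (13 * ((L : ℝ) + 1) ^ 2) +
          (∑ u ∈ bx L, |ks c N J W (dt u w).toNat|) * (104 * ((L : ℝ) + 1) * H) := by
          rw [Finset.sum_add_distrib, ← Finset.sum_filter, ← Finset.sum_mul, ← Finset.sum_mul]
      _ ≤ (13 * (H : ℝ) ^ 2) * (13 * ((L : ℝ) + 1) ^ 2) +
          (13 * ((L : ℝ) + 1) ^ 2) * (104 * ((L : ℝ) + 1) * H) := by
          refine add_le_add (mul_le_mul_of_nonneg_right ?_ (by positivity))
            (mul_le_mul_of_nonneg_right (hbox w hw) (by positivity))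
          refine le_trans (Finset.sum_le_sum_of_subset_of_nonneg (t := sq 0 0 H) ?_
            fun _ _ _ => abs_nonneg _) (hsq w hw 0 0)
          intro u hu
          exact (Finset.mem_filter.1 hu).2
      _ = _ := by ring
  have hL2 : ((L : ℝ) + 1) ≤ 2 * (√C0 * √(N : ℝ)) := by linarith only [hL1, hLsq]
  have hL4 : ((L : ℝ) + 1) ^ 4 ≤ 16 * C0 ^ 2 * (N : ℝ) ^ 2 := by
    calc ((L : ℝ) + 1) ^ 4 ≤ (2 * (√C0 * √(N : ℝ))) ^ 4 :=
          pow_le_pow_left₀ (by positivity) hL2 4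
      _ = 16 * (√C0 * √C0) ^ 2 * (√(N : ℝ) * √(N : ℝ)) ^ 2 := by ring
      _ = _ := by rw [hsC2, hsN2]
  have hHsq : (H : ℝ) ^ 2 ≤ 4 * η * N := by
    calc (H : ℝ) ^ 2 ≤ (2 * (√η * √(N : ℝ))) ^ 2 := pow_le_pow_left₀ (by positivity) hH2 2
      _ = 4 * (√η * √η) * (√(N : ℝ) * √(N : ℝ)) := by ring
      _ = _ := by rw [hsη2, hsN2]
  have hηs : η ≤ √η := by
    calc η = √η * √η := hsη2.symm
      _ ≤ √η * 1 := mul_le_mul_of_nonneg_left hsη1 hsη.le
      _ = √η := mul_one _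
  have hC23 : C0 ^ 2 ≤ C0 ^ 3 := pow_le_pow_right₀ hC0 (by norm_num)
  have hCs : √C0 ≤ C0 := by
    calc √C0 = √C0 * 1 := (mul_one _).symm
      _ ≤ √C0 * √C0 := mul_le_mul_of_nonneg_left hsC1 (by linarith)
      _ = C0 := hsC2
  have hpart1 : 169 * (H : ℝ) ^ 2 * ((L : ℝ) + 1) ^ 4 ≤ 10816 * C0 ^ 3 * √η * (N : ℝ) ^ 3 := by
    calc 169 * (H : ℝ) ^ 2 * ((L : ℝ) + 1) ^ 4
        ≤ 169 * (4 * η * N) * (16 * C0 ^ 2 * (N : ℝ) ^ 2) :=
          mul_le_mul (mul_le_mul_of_nonneg_left hHsq (by norm_num)) hL4 (by positivity)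
            (by positivity)
      _ = 10816 * (C0 ^ 2 * η) * (N : ℝ) ^ 3 := by ring
      _ ≤ 10816 * (C0 ^ 3 * √η) * (N : ℝ) ^ 3 :=
          mul_le_mul_of_nonneg_right (mul_le_mul_of_nonneg_left (mul_le_mul hC23 hηs hη.le
            (by positivity)) (by norm_num)) (by positivity)
      _ = _ := by ring
  have hpart2 : 1352 * ((L : ℝ) + 1) ^ 5 * H ≤ 86528 * C0 ^ 3 * √η * (N : ℝ) ^ 3 := by
    calc 1352 * ((L : ℝ) + 1) ^ 5 * H
        = 1352 * (((L : ℝ) + 1) ^ 4 * ((L : ℝ) + 1)) * H := by ring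
      _ ≤ 1352 * ((16 * C0 ^ 2 * (N : ℝ) ^ 2) * (2 * (√C0 * √(N : ℝ)))) *
            (2 * (√η * √(N : ℝ))) :=
          mul_le_mul (mul_le_mul_of_nonneg_left (mul_le_mul hL4 hL2 (by positivity)
            (by positivity)) (by norm_num)) hH2 (by positivity) (by positivity)
      _ = 86528 * (C0 ^ 2 * √C0) * √η * ((N : ℝ) ^ 2 * (√(N : ℝ) * √(N : ℝ))) := by ring
      _ = 86528 * (C0 ^ 2 * √C0) * √η * (N : ℝ) ^ 3 := by rw [hsN2]; ring
      _ ≤ 86528 * (C0 ^ 2 * C0) * √η * (N : ℝ) ^ 3 :=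
          mul_le_mul_of_nonneg_right (mul_le_mul_of_nonneg_right (mul_le_mul_of_nonneg_left
            (mul_le_mul_of_nonneg_left hCs (by positivity)) (by norm_num)) hsη.le) (by positivity)
      _ = _ := by ring
  calc _ ≤ ∑ w ∈ bx L, (169 * (H : ℝ) ^ 2 * ((L : ℝ) + 1) ^ 2 + 1352 * ((L : ℝ) + 1) ^ 3 * H) :=
        Finset.sum_le_sum hw
    _ = ((L : ℝ) + 1) ^ 2 *
          (169 * (H : ℝ) ^ 2 * ((L : ℝ) + 1) ^ 2 + 1352 * ((L : ℝ) + 1) ^ 3 * H) := by
        rw [Finset.sum_const, nsmul_eq_mul, hcard]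
    _ = 169 * (H : ℝ) ^ 2 * ((L : ℝ) + 1) ^ 4 + 1352 * ((L : ℝ) + 1) ^ 5 * H := by ring
    _ ≤ 10816 * C0 ^ 3 * √η * (N : ℝ) ^ 3 + 86528 * C0 ^ 3 * √η * (N : ℝ) ^ 3 :=
        add_le_add hpart1 hpart2
    _ ≤ 100000 * C0 ^ 3 * √η * (N : ℝ) ^ 3 := by
        have : 0 ≤ C0 ^ 3 * √η * (N : ℝ) ^ 3 := by positivity
        linarith only [this]

end

end Pool.Agent.Lib.MP_0b748d_nt.HHC
end

section

set_option autoImplicit false

/-!
# Non primitive vectors
-/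

namespace Pool.Agent.Lib.MP_0b748d_nt.HHC

noncomputable section

/-- the number of multiples of `g` in `[0, L]` -/
private theorem CwC_mult (L g : ℕ) (hg : 1 ≤ g) :
    ((Finset.Icc (0 : ℤ) L).filter (fun x => (g : ℤ) ∣ x)).card ≤ L / g + 1 := by
  rw [← Finset.card_range (L / g + 1)]
  refine Finset.card_le_card_of_injOn (fun x => (x / (g : ℤ)).toNat) ?_ ?_
  · intro x hx
    rw [Finset.mem_coe, Finset.mem_filter, Finset.mem_Icc] at hx
    obtain ⟨⟨h0, hL⟩, hd⟩ := hx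
    simp only [Finset.coe_range, Set.mem_Iio]
    have h1 : x / (g : ℤ) ≤ (L : ℤ) / (g : ℤ) := Int.ediv_le_ediv (by exact_mod_cast hg) hL
    have h2 : ((L / g : ℕ) : ℤ) = (L : ℤ) / (g : ℤ) := by push_cast; rfl
    have h3 : (0 : ℤ) ≤ ((L / g : ℕ) : ℤ) := Int.natCast_nonneg _
    rw [← h2] at h1
    omega
  · intro x hx y hy hxy
    rw [Finset.mem_coe, Finset.mem_filter, Finset.mem_Icc] at hx hy
    obtain ⟨⟨hx0, -⟩, hxd⟩ := hx
    obtain ⟨⟨hy0, -⟩, hyd⟩ := hy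
    have hgz : (0 : ℤ) < g := by exact_mod_cast hg
    have h1 : 0 ≤ x / (g : ℤ) := Int.ediv_nonneg hx0 hgz.le
    have h2 : 0 ≤ y / (g : ℤ) := Int.ediv_nonneg hy0 hgz.le
    have h3 : x / (g : ℤ) = y / (g : ℤ) := by
      have h4 : (x / (g : ℤ)).toNat = (y / (g : ℤ)).toNat := hxy
      omega
    rw [← Int.ediv_mul_cancel hxd, ← Int.ediv_mul_cancel hyd, h3]

/-- the number of vectors of the box with both coordinates divisible by `g ≤ L` -/
private theorem CwC_card (L g : ℕ) (hg : 1 ≤ g) (hgL : g ≤ L) :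
    (((bx L).filter (fun u => (g : ℤ) ∣ u.1 ∧ (g : ℤ) ∣ u.2)).card : ℝ) ≤
      4 * (L : ℝ) ^ 2 * (1 / (g : ℝ) ^ 2) := by
  have h1 : ((bx L).filter (fun u => (g : ℤ) ∣ u.1 ∧ (g : ℤ) ∣ u.2)).card ≤
      (L / g + 1) * (L / g + 1) := by
    refine (Finset.card_le_card (t := ((Finset.Icc (0 : ℤ) L).filter (fun x => (g : ℤ) ∣ x)) ×ˢ
      ((Finset.Icc (0 : ℤ) L).filter (fun x => (g : ℤ) ∣ x))) ?_).trans ?_
    · intro u hu
      unfold bx at hu
      rw [Finset.mem_filter, Finset.mem_product] at hu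
      rw [Finset.mem_product, Finset.mem_filter, Finset.mem_filter]
      exact ⟨⟨hu.1.1, hu.2.1⟩, hu.1.2, hu.2.2⟩
    · rw [Finset.card_product]
      exact Nat.mul_le_mul (CwC_mult L g hg) (CwC_mult L g hg)
  have h2 : 1 ≤ L / g := by
    rw [Nat.one_le_div_iff (by omega)]; exact hgL
  have hg' : (0 : ℝ) < g := by exact_mod_cast hg
  have h3 : ((L / g : ℕ) : ℝ) ≤ (L : ℝ) / g := Nat.cast_div_le
  have h4 : (1 : ℝ) ≤ ((L / g : ℕ) : ℝ) := by exact_mod_cast h2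
  have h5 : (((bx L).filter (fun u => (g : ℤ) ∣ u.1 ∧ (g : ℤ) ∣ u.2)).card : ℝ) ≤
      (((L / g : ℕ) : ℝ) + 1) * (((L / g : ℕ) : ℝ) + 1) := by exact_mod_cast h1
  have e : 4 * (L : ℝ) ^ 2 * (1 / (g : ℝ) ^ 2) = 4 * ((L : ℝ) / g) ^ 2 := by
    field_simp
  rw [e]
  nlinarith

open Classical in
/-- Proof. Take `G0 ≥ 1` with `G0 ≥ 48 C0²/ε`. If `L² < N` all terms vanish (`km_supp`). Let
`N ≤ L²`, so `(L+1)² ≤ 4 C0 N`. For `u = 0`, `dt u w = 0` and `km 0 = 0` (`N ≥ 1`). Let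
`g = gcd(u.1, u.2) ≥ 2`. If `km(dt u w) ≠ 0` then `dt u w` is prime to `W` (`km_supp`) and divisible by
`g`, so `g` is prime to `W`; a prime factor of `g` does not divide `W`, hence not `G0!`, so `g > G0`.
The number of `u ≠ 0` in the box with both coordinates divisible by `g ≤ L` is at most
`(L/g + 1)² ≤ 4 L²/g²`; the number of the `u` to be considered is at most
`∑_{G0 < g ≤ L} 4 L²/g² ≤ 4 L²/G0` (`tail_sq`). For each `u`,
`∑_{w ∈ bx L} |km(dt u w)| ≤ 3 (L+1)²`, by `km_sq` with `κ = 1`, since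
`dt u w = dt (w.2, w.1) (u.2, u.1)` and the box is symmetric. In total
`(4 C0 N/G0) * 3 * 4 C0 N = 48 C0² N²/G0 ≤ ε N²`. -/
theorem nonprim (C0 ε : ℝ) (hC0 : 1 ≤ C0) (hε : 0 < ε) : ∃ G0 : ℕ, ∀ J W : ℕ, 1 ≤ J → 1 ≤ W →
    G0.factorial ∣ W → ∃ N0 : ℕ, ∀ N ≥ N0, ∀ L : ℕ, (L : ℝ) ^ 2 ≤ C0 * N → ∀ c : ℕ → ℝ,
    (∀ p, |c p| ≤ 1) →
    ∑ u ∈ (bx L).filter (fun u => ¬ Pv u), ∑ w ∈ bx L, |km c N J W (dt u w).toNat| ≤
      ε * (N : ℝ) ^ 2 := by
  obtain ⟨G0, hG0⟩ : ∃ G0 : ℕ, 48 * C0 ^ 2 / ε + 1 ≤ (G0 : ℝ) := exists_nat_ge _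
  have hG1 : (1 : ℝ) ≤ G0 := by
    have : 0 ≤ 48 * C0 ^ 2 / ε := by positivity
    linarith
  have hG1' : 1 ≤ G0 := by exact_mod_cast hG1
  refine ⟨G0, fun J W hJ hW hdW => ?_⟩
  obtain ⟨N0, hN0⟩ := km_sq 1 one_pos J W hJ hW
  refine ⟨max N0 1, fun N hN L hL c hc => ?_⟩
  have hN1 : 1 ≤ N := (le_max_right _ _).trans hN
  have hNN : N0 ≤ N := (le_max_left _ _).trans hN
  have hN' : (1 : ℝ) ≤ N := by exact_mod_cast hN1
  have hdt : ∀ u ∈ bx L, ∀ w ∈ bx L, dt u w ≤ (L : ℤ) ^ 2 := by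
    intro u hu w hw
    unfold bx at hu hw
    rw [Finset.mem_product, Finset.mem_Icc, Finset.mem_Icc] at hu hw
    obtain ⟨⟨a1, a2⟩, a3, a4⟩ := hu
    obtain ⟨⟨b1, b2⟩, b3, b4⟩ := hw
    unfold dt
    have : u.1 * w.2 ≤ L * L := mul_le_mul a2 b4 b3 (by positivity)
    have : 0 ≤ u.2 * w.1 := mul_nonneg a3 b1
    nlinarith
  -- nonvanishing terms
  have hnv : ∀ u ∈ bx L, ∀ w ∈ bx L, km c N J W (dt u w).toNat ≠ 0 →
      N ≤ L ^ 2 ∧ (¬ Pv u → G0 < Int.gcd u.1 u.2 ∧ Int.gcd u.1 u.2 ≤ L) := by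
    intro u hu w hw h
    obtain ⟨h1, h2, h3⟩ := km_supp h
    have h4 : 0 < dt u w := by
      by_contra h5
      rw [not_lt] at h5
      rw [Int.toNat_of_nonpos h5] at h1
      omega
    have h5 : ((dt u w).toNat : ℤ) = dt u w := Int.toNat_of_nonneg h4.le
    have h6 := hdt u hu w hw
    refine ⟨?_, fun hp => ?_⟩
    · have : (N : ℤ) ≤ (L : ℤ) ^ 2 := by
        have : (N : ℤ) ≤ ((dt u w).toNat : ℤ) := by exact_mod_cast h1
        omega
      exact_mod_cast this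
    · have g1 : ((Int.gcd u.1 u.2 : ℕ) : ℤ) ∣ dt u w := by
        unfold dt
        exact dvd_sub (Dvd.dvd.mul_right (Int.gcd_dvd_left _ _) _)
          (Dvd.dvd.mul_right (Int.gcd_dvd_right _ _) _)
      have g2 : Int.gcd u.1 u.2 ∣ (dt u w).toNat := by
        rw [← h5] at g1
        exact_mod_cast g1
      have g3 : Int.gcd u.1 u.2 ≠ 0 := by
        intro h7
        rw [h7] at g2
        have := Nat.eq_zero_of_zero_dvd g2
        omega
      have g4 : Int.gcd u.1 u.2 ≠ 1 := by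
        intro h7
        exact hp (Int.isCoprime_iff_gcd_eq_one.2 h7)
      constructor
      · by_contra h7
        rw [not_lt] at h7
        have h8 : Int.gcd u.1 u.2 ∣ W := (Nat.dvd_factorial (by omega) h7).trans hdW
        have h9 : Int.gcd u.1 u.2 ∣ 1 := by
          rw [← h3]
          exact Nat.dvd_gcd g2 h8
        exact g4 (Nat.dvd_one.1 h9)
      · have hu' := hu
        unfold bx at hu'
        rw [Finset.mem_product, Finset.mem_Icc, Finset.mem_Icc] at hu'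
        obtain ⟨⟨a1, a2⟩, a3, a4⟩ := hu'
        by_cases h7 : u.1 = 0
        · have h8 : u.2 ≠ 0 := by
            intro h8
            apply g3
            rw [h7, h8]; rfl
          have h9 := Int.le_of_dvd (by omega) (Int.gcd_dvd_right u.1 u.2)
          have : ((Int.gcd u.1 u.2 : ℕ) : ℤ) ≤ (L : ℤ) := h9.trans a4
          exact_mod_cast this
        · have h9 := Int.le_of_dvd (by omega) (Int.gcd_dvd_left u.1 u.2)
          have : ((Int.gcd u.1 u.2 : ℕ) : ℤ) ≤ (L : ℤ) := h9.trans a2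
          exact_mod_cast this
  by_cases hNL : N ≤ L ^ 2
  swap
  · have h0 : ∑ u ∈ (bx L).filter (fun u => ¬ Pv u), ∑ w ∈ bx L, |km c N J W (dt u w).toNat| = 0 := by
      refine Finset.sum_eq_zero fun u hu => Finset.sum_eq_zero fun w hw => ?_
      rw [abs_eq_zero]
      by_contra h
      exact hNL (hnv u (Finset.mem_filter.1 hu).1 w hw h).1
    rw [h0]; positivity
  have hL1 : 1 ≤ L := by
    rcases Nat.eq_zero_or_pos L with h | h
    · rw [h] at hNL; simp at hNL; omega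
    · exact h
  have hL1' : (1 : ℝ) ≤ L := by exact_mod_cast hL1
  have hL4 : ((L : ℝ) + 1) ^ 2 ≤ 4 * (C0 * N) := by nlinarith
  -- the inner sum
  have hin : ∀ u : ℤ × ℤ, ∑ w ∈ bx L, |km c N J W (dt u w).toNat| ≤ 3 * ((L : ℝ) + 1) ^ 2 := by
    intro u
    have e1 : ∑ w ∈ bx L, |km c N J W (dt u w).toNat| =
        ∑ w ∈ sq 0 0 (L + 1), |km c N J W (dt w (u.2, u.1)).toNat| := by
      rw [← bx_eq]
      refine Finset.sum_nbij' Prod.swap Prod.swap ?_ ?_ (fun _ _ => rfl) (fun _ _ => rfl) ?_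
      · intro w hw
        unfold bx at hw ⊢
        rw [Finset.mem_product] at hw ⊢
        exact ⟨hw.2, hw.1⟩
      · intro w hw
        unfold bx at hw ⊢
        rw [Finset.mem_product] at hw ⊢
        exact ⟨hw.2, hw.1⟩
      · intro w _
        have : dt u w = dt w.swap (u.2, u.1) := by
          unfold dt
          simp only [Prod.fst_swap, Prod.snd_swap]
          ring
        rw [this]
    rw [e1]
    have h1 := hN0 N hNN c hc (u.2, u.1) 0 0 (L + 1) (by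
      rw [one_mul]
      push_cast
      refine Real.sqrt_le_iff.2 ⟨by positivity, ?_⟩
      have : (N : ℝ) ≤ (L : ℝ) ^ 2 := by exact_mod_cast hNL
      nlinarith)
    push_cast at h1
    exact h1
  set S := ((bx L).filter (fun u => ¬ Pv u)).filter
    (fun u => ∑ w ∈ bx L, |km c N J W (dt u w).toNat| ≠ 0) with hS
  have hSsub : S ⊆ (Finset.Ioc G0 L).biUnion
      (fun g => (bx L).filter (fun u => (g : ℤ) ∣ u.1 ∧ (g : ℤ) ∣ u.2)) := by
    intro u hu
    rw [hS, Finset.mem_filter, Finset.mem_filter] at hu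
    obtain ⟨⟨hu1, hu2⟩, hu3⟩ := hu
    obtain ⟨w, hw, hw0⟩ := Finset.exists_ne_zero_of_sum_ne_zero hu3
    rw [abs_ne_zero] at hw0
    obtain ⟨-, h2⟩ := hnv u hu1 w hw hw0
    obtain ⟨h3, h4⟩ := h2 hu2
    rw [Finset.mem_biUnion]
    refine ⟨Int.gcd u.1 u.2, Finset.mem_Ioc.2 ⟨h3, h4⟩, ?_⟩
    rw [Finset.mem_filter]
    exact ⟨hu1, Int.gcd_dvd_left _ _, Int.gcd_dvd_right _ _⟩
  have hScard : (S.card : ℝ) ≤ 4 * (L : ℝ) ^ 2 / G0 := by
    have h1 : S.card ≤ ∑ g ∈ Finset.Ioc G0 L,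
        ((bx L).filter (fun u => (g : ℤ) ∣ u.1 ∧ (g : ℤ) ∣ u.2)).card :=
      (Finset.card_le_card hSsub).trans Finset.card_biUnion_le
    calc (S.card : ℝ) ≤ ((∑ g ∈ Finset.Ioc G0 L,
        ((bx L).filter (fun u => (g : ℤ) ∣ u.1 ∧ (g : ℤ) ∣ u.2)).card : ℕ) : ℝ) := by
          exact_mod_cast h1
      _ = ∑ g ∈ Finset.Ioc G0 L,
        (((bx L).filter (fun u => (g : ℤ) ∣ u.1 ∧ (g : ℤ) ∣ u.2)).card : ℝ) := by push_cast; rfl
      _ ≤ ∑ g ∈ Finset.Ioc G0 L, 4 * (L : ℝ) ^ 2 * (1 / (g : ℝ) ^ 2) := by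
          refine Finset.sum_le_sum fun g hg => ?_
          rw [Finset.mem_Ioc] at hg
          exact CwC_card L g (by omega) hg.2
      _ = 4 * (L : ℝ) ^ 2 * ∑ g ∈ Finset.Ioc G0 L, 1 / (g : ℝ) ^ 2 := by rw [Finset.mul_sum]
      _ ≤ 4 * (L : ℝ) ^ 2 * (1 / (G0 : ℝ)) :=
          mul_le_mul_of_nonneg_left (tail_sq G0 L hG1') (by positivity)
      _ = 4 * (L : ℝ) ^ 2 / G0 := by ring
  have hG0p : (0 : ℝ) < G0 := by linarith
  calc ∑ u ∈ (bx L).filter (fun u => ¬ Pv u), ∑ w ∈ bx L, |km c N J W (dt u w).toNat|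
      = ∑ u ∈ S, ∑ w ∈ bx L, |km c N J W (dt u w).toNat| := by
        rw [hS, Finset.sum_filter_ne_zero]
    _ ≤ ∑ u ∈ S, 3 * ((L : ℝ) + 1) ^ 2 := Finset.sum_le_sum fun u _ => hin u
    _ = S.card * (3 * ((L : ℝ) + 1) ^ 2) := by rw [Finset.sum_const, nsmul_eq_mul]
    _ ≤ (4 * (L : ℝ) ^ 2 / G0) * (3 * ((L : ℝ) + 1) ^ 2) :=
        mul_le_mul_of_nonneg_right hScard (by positivity)
    _ ≤ (4 * (C0 * N) / G0) * (3 * (4 * (C0 * N))) := by
        gcongr
    _ = 48 * C0 ^ 2 / G0 * (N : ℝ) ^ 2 := by ring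
    _ ≤ ε * (N : ℝ) ^ 2 := by
        refine mul_le_mul_of_nonneg_right ?_ (by positivity)
        rw [div_le_iff₀ hG0p]
        have h1 : 48 * C0 ^ 2 / ε ≤ G0 := by linarith
        rw [div_le_iff₀ hε] at h1
        linarith

end

end Pool.Agent.Lib.MP_0b748d_nt.HHC
end

section

set_option autoImplicit false

/-!
# Plancherel formula
-/

namespace Pool.Agent.Lib.MP_0b748d_nt.HHC

noncomputable section

open Classical in
/-- the correlations of the parts prime to `δ`.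

Proof. For `r` a unit modulo `δ` let `S r` be the inner sum; terms with `n` not prime to `δ` vanish.
`∑_χ ‖Kc f A χ‖² ‖Kc f B χ‖² = ∑_χ ‖conj (Kc f A χ) * Kc f B χ‖²` and
`conj (Kc f A χ) * Kc f B χ = ∑_{m, n} f m f n χ(n/m) = ∑_r S r χ r` (only `m, n` prime to `δ`
count). By orthogonality of the characters this is `φ(δ) ∑_r (S r)²`. -/
theorem pars {δ : ℕ} (hδ : 1 ≤ δ) (f : ℕ → ℝ) (A B : Finset ℕ) :
    ∑ r ∈ ur δ, (Sr f (A.filter (fun m => Nat.Coprime m δ)) B δ r) ^ 2 =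
      (1 / (Nat.totient δ : ℝ)) *
        ∑ χ : DirichletCharacter ℂ δ, ‖Kc f A χ‖ ^ 2 * ‖Kc f B χ‖ ^ 2 := by
  have : NeZero δ := ⟨by omega⟩
  have hstar : ∀ (ψ : DirichletCharacter ℂ δ) (x : ZMod δ), (starRingEnd ℂ) (ψ x) = ψ⁻¹ x :=
    fun ψ x => MulChar.star_apply' ψ x
  set A' := A.filter (fun m => Nat.Coprime m δ) with hA'
  let g : ZMod δ → ℂ := fun x => ∑ m ∈ A', ∑ n ∈ B,
    if ((n : ZMod δ) = x * (m : ZMod δ)) then ((f m : ℂ) * (f n : ℂ)) else 0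
  have hg : ∀ r : ℕ, g (r : ZMod δ) = ((Sr f A' B δ r : ℝ) : ℂ) := by
    intro r
    unfold Sr
    rw [Complex.ofReal_sum]
    refine Finset.sum_congr rfl (fun m _ => ?_)
    rw [Complex.ofReal_sum]
    refine Finset.sum_congr rfl (fun n _ => ?_)
    by_cases h : n ≡ r * m [MOD δ]
    · rw [if_pos h, if_pos]
      · push_cast; rfl
      · have := (ZMod.natCast_eq_natCast_iff _ _ _).2 h
        rw [this]; push_cast; rfl
    · rw [if_neg h, if_neg]
      · simp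
      · intro h'
        apply h
        apply (ZMod.natCast_eq_natCast_iff _ _ _).1
        rw [h']; push_cast; rfl
  have h1 : ∀ χ : DirichletCharacter ℂ δ, ∑ x : ZMod δ, χ x * g x =
      (starRingEnd ℂ) (Kc f A χ) * Kc f B χ := by
    intro χ
    have h2 : ∑ x : ZMod δ, χ x * g x = ∑ m ∈ A', ∑ n ∈ B,
        ∑ x : ZMod δ, (if ((n : ZMod δ) = x * (m : ZMod δ)) then χ x * ((f m : ℂ) * (f n : ℂ))
          else 0) := by
      have h3 : ∀ x : ZMod δ, χ x * g x = ∑ m ∈ A', ∑ n ∈ B,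
          (if ((n : ZMod δ) = x * (m : ZMod δ)) then χ x * ((f m : ℂ) * (f n : ℂ)) else 0) := by
        intro x
        rw [Finset.mul_sum]
        refine Finset.sum_congr rfl (fun m _ => ?_)
        rw [Finset.mul_sum]
        refine Finset.sum_congr rfl (fun n _ => ?_)
        rw [mul_ite, mul_zero]
      rw [Finset.sum_congr rfl (fun x _ => h3 x), Finset.sum_comm]
      refine Finset.sum_congr rfl (fun m _ => ?_)
      rw [Finset.sum_comm]
    have h4 : (starRingEnd ℂ) (Kc f A χ) = ∑ m ∈ A', (f m : ℂ) * χ⁻¹ (m : ZMod δ) := by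
      unfold Kc
      rw [map_sum, hA', Finset.sum_filter]
      refine Finset.sum_congr rfl (fun m _ => ?_)
      rw [map_mul (starRingEnd ℂ), hstar, Complex.conj_ofReal]
      by_cases hm : Nat.Coprime m δ
      · rw [if_pos hm]
      · rw [if_neg hm, MulChar.map_nonunit, mul_zero]
        rwa [ZMod.isUnit_iff_coprime]
    rw [h2, h4]
    unfold Kc
    rw [Finset.sum_mul_sum]
    refine Finset.sum_congr rfl (fun m hm => Finset.sum_congr rfl (fun n _ => ?_))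
    have hmu : IsUnit (m : ZMod δ) := by
      rw [ZMod.isUnit_iff_coprime]
      exact (Finset.mem_filter.1 hm).2
    obtain ⟨u, hu⟩ := hmu
    have h5 : ∀ x : ZMod δ, ((n : ZMod δ) = x * (m : ZMod δ)) ↔
        x = (n : ZMod δ) * ((u⁻¹ : (ZMod δ)ˣ) : ZMod δ) := by
      intro x
      rw [← hu]
      constructor
      · intro h
        rw [h, mul_assoc, Units.mul_inv, mul_one]
      · intro h
        rw [h, mul_assoc, Units.inv_mul, mul_one]
    have h6 : ∑ x : ZMod δ, (if ((n : ZMod δ) = x * (m : ZMod δ)) then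
        χ x * ((f m : ℂ) * (f n : ℂ)) else 0) =
        ∑ x : ZMod δ, (if x = (n : ZMod δ) * ((u⁻¹ : (ZMod δ)ˣ) : ZMod δ) then
        χ x * ((f m : ℂ) * (f n : ℂ)) else 0) := by
      refine Finset.sum_congr rfl (fun x _ => ?_)
      by_cases h : (n : ZMod δ) = x * (m : ZMod δ)
      · rw [if_pos h, if_pos ((h5 x).1 h)]
      · rw [if_neg h, if_neg (fun h' => h ((h5 x).2 h'))]
    rw [h6, Finset.sum_ite_eq' Finset.univ]
    simp only [Finset.mem_univ, if_true]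
    have h7 : χ ((u⁻¹ : (ZMod δ)ˣ) : ZMod δ) = χ⁻¹ (m : ZMod δ) := by
      rw [MulChar.inv_apply_eq_inv', ← hu]
      exact (eq_inv_of_mul_eq_one_left (by rw [← map_mul, Units.inv_mul, map_one]))
    rw [map_mul, h7]
    ring
  have h8 := clsD_orth g
  rw [clsD_ur] at h8
  have h9 : ∑ χ : DirichletCharacter ℂ δ, ‖∑ x : ZMod δ, χ x * g x‖ ^ 2 =
      ∑ χ : DirichletCharacter ℂ δ, ‖Kc f A χ‖ ^ 2 * ‖Kc f B χ‖ ^ 2 := by
    refine Finset.sum_congr rfl (fun χ _ => ?_)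
    rw [h1, norm_mul, mul_pow, RCLike.norm_conj]
  have h10 : ∑ a ∈ ur δ, ‖g (a : ZMod δ)‖ ^ 2 = ∑ r ∈ ur δ, (Sr f A' B δ r) ^ 2 := by
    refine Finset.sum_congr rfl (fun r _ => ?_)
    rw [hg, Complex.norm_real, Real.norm_eq_abs, sq_abs]
  rw [h9, h10] at h8
  have h11 : (Nat.totient δ : ℝ) ≠ 0 := by
    exact_mod_cast (Nat.totient_pos.2 (by omega)).ne'
  rw [h8, one_div, inv_mul_cancel_left₀ h11]

end

end Pool.Agent.Lib.MP_0b748d_nt.HHC
end
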