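import Mathlib
import Pool.Agent.Lib.MP_0b748d_nt.HH.CselJ
import Pool.Agent.Lib.MP_0b748d_nt.HH.CmodC

section

set_option autoImplicit false

/-!
# Two primitive characters are orthogonal on intervals
-/

namespace Pool.Agent.Lib.MP_0b748d_nt.HHC

noncomputable section

/-- sums of a periodic function of mean zero over intervals -/
theorem per_sum (q : ℕ) (hq : 1 ≤ q) (f : ℕ → ℂ) (hf : ∀ n, f (n + q) = f n)
    (h0 : ∑ n ∈ Finset.range q, f n = 0) (h1 : ∀ n, ‖f n‖ ≤ 1) (a b : ℕ) :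
    ‖∑ n ∈ Finset.Ico a b, f n‖ ≤ q := by
  have hper : ∀ a, ∑ n ∈ Finset.Ico a (a + q), f n = 0 := by
    intro a
    induction a with
    | zero =>
      rw [zero_add, ← Finset.range_eq_Ico]
      exact h0
    | succ a ih =>
      have e1 : ∑ n ∈ Finset.Ico a (a + q + 1), f n =
          ∑ n ∈ Finset.Ico a (a + q), f n + f (a + q) :=
        Finset.sum_Ico_succ_top (by omega) _
      have e2 : ∑ n ∈ Finset.Ico a (a + q + 1), f n =
          f a + ∑ n ∈ Finset.Ico (a + 1) (a + q + 1), f n :=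
        Finset.sum_eq_sum_Ico_succ_bot (by omega) _
      have e3 : a + 1 + q = a + q + 1 := by omega
      rw [e3]
      rw [ih, hf, zero_add, e2] at e1
      exact add_eq_left.1 e1
  have hmain : ∀ k : ℕ, ∀ b, b ≤ a + k → ‖∑ n ∈ Finset.Ico a b, f n‖ ≤ q := by
    intro k
    induction k using Nat.strong_induction_on with
    | _ k ih =>
      intro b hb
      by_cases hbq : b ≤ a + q
      · calc ‖∑ n ∈ Finset.Ico a b, f n‖ ≤ ∑ n ∈ Finset.Ico a b, ‖f n‖ := norm_sum_le _ _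
          _ ≤ ∑ n ∈ Finset.Ico a b, (1 : ℝ) := Finset.sum_le_sum fun n _ => h1 n
          _ = ((b - a : ℕ) : ℝ) := by
            rw [Finset.sum_const, Nat.card_Ico, nsmul_eq_mul, mul_one]
          _ ≤ q := by
            exact_mod_cast (by omega : b - a ≤ q)
      · have e1 := Finset.sum_Ico_consecutive f (show a ≤ b - q by omega) (show b - q ≤ b by omega)
        have e2 := hper (b - q)
        rw [Nat.sub_add_cancel (by omega)] at e2
        rw [e2, add_zero] at e1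
        rw [← e1]
        exact ih (k - q) (by omega) (b - q) (by omega)
  exact hmain (b - a) b (by omega)

private theorem pla_sum (q : ℕ) [NeZero q] (g : ZMod q → ℂ) :
    ∑ n ∈ Finset.range q, g (n : ZMod q) = ∑ a : ZMod q, g a := by
  obtain ⟨k, rfl⟩ : ∃ k, q = k + 1 := ⟨q - 1, (Nat.succ_pred_eq_of_ne_zero (NeZero.ne q)).symm⟩
  rw [Finset.sum_range]
  exact Finset.sum_congr rfl fun i _ => congrArg g (ZMod.natCast_zmod_val (n := k + 1) i)

private theorem pla_zero {n : ℕ} (χ : DirichletCharacter ℂ n) {m : ℕ} (h : ¬ Nat.Coprime m n) :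
    χ (m : ZMod n) = 0 := by
  refine χ.map_nonunit fun h2 => h ?_
  exact (ZMod.isUnit_iff_coprime m n).1 h2

/-- the primitive characters of conductor at most `R` -/
def PI (R : ℕ) : Finset (Σ D : ℕ, DirichletCharacter ℂ D) := (Finset.Icc 1 R).sigma (fun D => PC D)

/-- Proof. Let `x = (D, χ)`, `y = (D', χ')`, `q = D D' ≤ R²`. The function
`n ↦ χ n * conj (χ' n)` has period `q`. Let `χ₁, χ₂` be the characters modulo `q` induced by `χ, χ'`
(`DirichletCharacter.changeLevel`). For `n` prime to `q` the function is `(χ₁ χ₂⁻¹) n`, otherwise both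
are `0`. If `χ₁ = χ₂`, the conductors agree (`conductor_changeLevel`, primitivity), `D = D'`, and
`χ = χ'` by `changeLevel_injective`: excluded. So `χ₁ χ₂⁻¹ ≠ 1` and the sum over a period vanishes
(`MulChar.sum_eq_zero_of_ne_one`). Use `per_sum`. -/
theorem off_sum {R : ℕ} {x y : Σ D : ℕ, DirichletCharacter ℂ D} (hx : x ∈ PI R) (hy : y ∈ PI R)
    (hne : x ≠ y) (a b : ℕ) :
    ‖∑ n ∈ Finset.Ico a b, x.2 (n : ZMod x.1) * (starRingEnd ℂ) (y.2 (n : ZMod y.1))‖ ≤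
      (R : ℝ) ^ 2 := by
  classical
  obtain ⟨D, χ⟩ := x
  obtain ⟨D', χ'⟩ := y
  unfold PI PC at hx hy
  rw [Finset.mem_sigma, Finset.mem_Icc, Finset.mem_filter] at hx hy
  obtain ⟨⟨hD1, hDR⟩, -, hχ⟩ := hx
  obtain ⟨⟨hD1', hDR'⟩, -, hχ'⟩ := hy
  dsimp only at hD1 hDR hχ hD1' hDR' hχ' ⊢
  have hq1 : 1 ≤ D * D' := Nat.mul_pos hD1 hD1'
  have : NeZero (D * D') := ⟨by omega⟩
  have hd : D ∣ D * D' := Dvd.intro _ rfl
  have hd' : D' ∣ D * D' := Dvd.intro_left _ rfl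
  have hne2 : DirichletCharacter.changeLevel hd χ ≠ DirichletCharacter.changeLevel hd' χ' := by
    intro he
    have h1 := DirichletCharacter.conductor_changeLevel χ hd
    have h2 := DirichletCharacter.conductor_changeLevel χ' hd'
    have h3 : D = D' := by
      rw [he, h2] at h1
      exact (hχ : χ.conductor = D).symm.trans (h1.symm.trans hχ')
    subst h3
    exact hne (by rw [DirichletCharacter.changeLevel_injective hd he])
  have hper : ∀ n : ℕ, χ ((n + D * D' : ℕ) : ZMod D) *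
      (starRingEnd ℂ) (χ' ((n + D * D' : ℕ) : ZMod D')) =
      χ (n : ZMod D) * (starRingEnd ℂ) (χ' (n : ZMod D')) := by
    intro n
    have e1 : ((n + D * D' : ℕ) : ZMod D) = (n : ZMod D) := by
      push_cast
      rw [ZMod.natCast_self, zero_mul, add_zero]
    have e2 : ((n + D * D' : ℕ) : ZMod D') = (n : ZMod D') := by
      push_cast
      rw [ZMod.natCast_self, mul_zero, add_zero]
    rw [e1, e2]
  have hnorm : ∀ n : ℕ, ‖χ (n : ZMod D) * (starRingEnd ℂ) (χ' (n : ZMod D'))‖ ≤ 1 := by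
    intro n
    rw [norm_mul, RCLike.norm_conj]
    exact mul_le_one₀ (DirichletCharacter.norm_le_one _ _) (norm_nonneg _)
      (DirichletCharacter.norm_le_one _ _)
  have hval : ∀ n : ℕ, χ (n : ZMod D) * (starRingEnd ℂ) (χ' (n : ZMod D')) =
      (DirichletCharacter.changeLevel hd χ * (DirichletCharacter.changeLevel hd' χ')⁻¹)
        (n : ZMod (D * D')) := by
    intro n
    by_cases hn : Nat.Coprime n (D * D')
    · have hn2 : IsCoprime (n : ℤ) ((D * D' : ℕ) : ℤ) := Nat.isCoprime_iff_coprime.2 hn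
      have e1 := DirichletCharacter.changeLevel_eq_cast_of_dvd' χ hd hn2
      have e2 := DirichletCharacter.changeLevel_eq_cast_of_dvd' χ' hd' hn2
      rw [MulChar.mul_apply, ← MulChar.star_apply', Int.cast_natCast] at *
      rw [Int.cast_natCast] at e1 e2
      rw [e1, e2]
      rfl
    · rw [pla_zero _ hn]
      rw [Nat.coprime_mul_iff_right, not_and_or] at hn
      rcases hn with hn | hn
      · rw [pla_zero _ hn, zero_mul]
      · rw [pla_zero _ hn, map_zero, mul_zero]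
  have h0 : ∑ n ∈ Finset.range (D * D'), χ (n : ZMod D) * (starRingEnd ℂ) (χ' (n : ZMod D')) =
      0 := by
    rw [Finset.sum_congr rfl fun n _ => hval n,
      pla_sum (D * D') (fun a => (DirichletCharacter.changeLevel hd χ *
        (DirichletCharacter.changeLevel hd' χ')⁻¹) a)]
    refine MulChar.sum_eq_zero_of_ne_one fun h => hne2 ?_
    exact mul_inv_eq_one.1 h
  have hfin := per_sum (D * D') hq1 (fun n => χ (n : ZMod D) *
    (starRingEnd ℂ) (χ' (n : ZMod D'))) hper h0 hnorm a b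
  refine hfin.trans ?_
  rw [pow_two]
  push_cast
  exact mul_le_mul (by exact_mod_cast hDR) (by exact_mod_cast hDR') (by positivity)
    (by positivity)

end

end Pool.Agent.Lib.MP_0b748d_nt.HHC
end

section

section

set_option autoImplicit false

/-!
# Primitive characters on residue classes
-/

namespace Pool.Agent.Lib.MP_0b748d_nt.HHC

noncomputable section

private lemma CkmA_exists {D : ℕ} (hD : 1 ≤ D) (χ : DirichletCharacter ℂ D) (hχ : χ.IsPrimitive)
    {W : ℕ} (h : ¬ D ∣ W) :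
    ∃ y : ℕ, y ≡ 1 [MOD W] ∧ Nat.Coprime y D ∧ χ (y : ZMod D) ≠ 1 := by
  have : NeZero D := ⟨by omega⟩
  by_contra hcon
  push Not at hcon
  have hfac : χ.FactorsThrough (D.gcd W) := by
    refine (DirichletCharacter.factorsThrough_iff_ker_unitsMap (D.gcd_dvd_left W)).mpr
      fun x hx => MonoidHom.mem_ker.mpr ?_
    rw [Units.ext_iff, MulChar.coe_toUnitHom, Units.val_one]
    have hx1 : x.val.val ≡ 1 [MOD D.gcd W] := by
      rwa [MonoidHom.mem_ker, Units.ext_iff, ZMod.unitsMap_val, ← ZMod.natCast_val,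
        Units.val_one, ← Nat.cast_one, ZMod.natCast_eq_natCast_iff] at hx
    obtain ⟨z, hz1, hz2⟩ := Nat.chineseRemainder' hx1
    have hz3 : (z : ZMod D) = (x : ZMod D) := by
      have h1 := (ZMod.natCast_eq_natCast_iff z x.val.val D).mpr hz1
      rw [h1, ZMod.natCast_zmod_val]
    have hz4 : Nat.Coprime z D := by
      rw [← ZMod.isUnit_iff_coprime, hz3]
      exact x.isUnit
    rw [← hz3]
    exact hcon z hz2 hz4
  have h1 : χ.conductor ≤ D.gcd W := Nat.sInf_le hfac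
  have h2 : χ.conductor = D := hχ
  rw [h2] at h1
  have h3 : D.gcd W = D := le_antisymm (Nat.le_of_dvd (by omega) (D.gcd_dvd_left W)) h1
  exact h (h3 ▸ D.gcd_dvd_right W)

open Classical in
/-- Proof. There is `y` with `y ≡ 1 mod W`, `y` prime to `D` and `χ y ≠ 1`. Otherwise let
`g = gcd(D, W)`, a proper divisor of `D`; if `x` is prime to `D` and `x ≡ 1 mod g`, then by the
Chinese remainder theorem there is `y ≡ x mod D`, `y ≡ 1 mod W`, so `χ x = χ y = 1`; so `χ` factors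
through `g` (`DirichletCharacter.factorsThrough_iff_ker_unitsMap`) and its conductor is at most
`g < D`, contrary to primitivity. Multiplication by `y` permutes the residues `m` modulo `W D` with
`m ≡ a mod W` (`y` is prime to `W D`), so the sum `S` satisfies `S = χ y * S`, and `S = 0`. (If
`a ≥ W` the sum is empty.) -/
theorem prim_class {D : ℕ} (hD : 1 ≤ D) (χ : DirichletCharacter ℂ D) (hχ : χ.IsPrimitive) {W : ℕ}
    (hW : 1 ≤ W) (h : ¬ D ∣ W) (a : ℕ) :
    ∑ m ∈ (Finset.range (W * D)).filter (fun m => m % W = a), χ (m : ZMod D) = 0 := by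
  obtain ⟨y, hy1, hy2, hy3⟩ := CkmA_exists hD χ hχ h
  have hWD : 0 < W * D := Nat.mul_pos (by omega) (by omega)
  have hcop : Nat.Coprime y (W * D) := by
    refine Nat.Coprime.mul_right ?_ hy2
    have h1 := hy1.gcd_eq
    rw [Nat.gcd_one_left] at h1
    exact h1
  set S := (Finset.range (W * D)).filter (fun m => m % W = a) with hS
  have hmaps : ∀ m ∈ S, (y * m) % (W * D) ∈ S := by
    intro m hm
    rw [hS, Finset.mem_filter, Finset.mem_range] at hm ⊢
    refine ⟨Nat.mod_lt _ hWD, ?_⟩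
    rw [Nat.mod_mul_right_mod, ← hm.2]
    have h2 : y * m ≡ 1 * m [MOD W] := hy1.mul_right m
    rw [one_mul] at h2
    exact h2
  have hinj : Set.InjOn (fun m => (y * m) % (W * D)) (S : Set ℕ) := by
    intro m hm m' hm' hmm
    have hm1 := Finset.mem_range.mp (Finset.mem_filter.mp (Finset.mem_coe.mp hm)).1
    have hm1' := Finset.mem_range.mp (Finset.mem_filter.mp (Finset.mem_coe.mp hm')).1
    have h3 : y * m ≡ y * m' [MOD W * D] := hmm
    have h4 : m ≡ m' [MOD W * D] := Nat.ModEq.cancel_left_of_coprime (by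
      rw [Nat.gcd_comm]; exact hcop) h3
    exact Nat.ModEq.eq_of_lt_of_lt h4 hm1 hm1'
  have himg : S.image (fun m => (y * m) % (W * D)) = S := by
    refine Finset.eq_of_subset_of_card_le (fun x hx => ?_) ?_
    · obtain ⟨m, hm, rfl⟩ := Finset.mem_image.mp hx
      exact hmaps m hm
    · rw [Finset.card_image_of_injOn hinj]
  have hval : ∀ m : ℕ, χ (((y * m) % (W * D) : ℕ) : ZMod D) = χ (y : ZMod D) * χ (m : ZMod D) := by
    intro m
    have h5 : (((y * m) % (W * D) : ℕ) : ZMod D) = ((y * m : ℕ) : ZMod D) := by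
      rw [ZMod.natCast_eq_natCast_iff]
      exact (Nat.mod_modEq (y * m) (W * D)).of_mul_left W
    rw [h5, Nat.cast_mul, map_mul]
  have hsum : ∑ m ∈ S, χ (m : ZMod D) = χ (y : ZMod D) * ∑ m ∈ S, χ (m : ZMod D) := by
    calc ∑ m ∈ S, χ (m : ZMod D)
        = ∑ m ∈ S.image (fun m => (y * m) % (W * D)), χ (m : ZMod D) := by rw [himg]
      _ = ∑ m ∈ S, χ (((y * m) % (W * D) : ℕ) : ZMod D) := Finset.sum_image hinj
      _ = χ (y : ZMod D) * ∑ m ∈ S, χ (m : ZMod D) := by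
          rw [Finset.mul_sum]
          exact Finset.sum_congr rfl fun m _ => hval m
  have h6 : (1 - χ (y : ZMod D)) * ∑ m ∈ S, χ (m : ZMod D) = 0 := by
    rw [sub_mul, one_mul, ← hsum, sub_self]
  rcases mul_eq_zero.mp h6 with h7 | h7
  · exact absurd (sub_eq_zero.mp h7).symm hy3
  · exact h7

end

end Pool.Agent.Lib.MP_0b748d_nt.HHC
end

section

set_option autoImplicit false

/-!
# Sums over numbers prime to k: moduli not dividing W
-/

namespace Pool.Agent.Lib.MP_0b748d_nt.HHC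

noncomputable section

/-- detection of coprimality by the Möbius function -/
theorem ckmB_mob (m k : ℕ) (hk : 1 ≤ k) :
    ∑ l ∈ k.divisors.filter (fun l => l ∣ m), ArithmeticFunction.moebius l =
      if Nat.Coprime m k then 1 else 0 := by
  have h1 : k.divisors.filter (fun l => l ∣ m) = (Nat.gcd m k).divisors := by
    ext l
    rw [Finset.mem_filter, Nat.mem_divisors, Nat.mem_divisors, Nat.dvd_gcd_iff]
    have h2 : Nat.gcd m k ≠ 0 := (Nat.gcd_pos_of_pos_right m hk).ne'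
    have h3 : k ≠ 0 := by omega
    tauto
  have h2 := congrArg (fun f : ArithmeticFunction ℤ => f (Nat.gcd m k))
    ArithmeticFunction.moebius_mul_coe_zeta
  simp only [ArithmeticFunction.coe_mul_zeta_apply, ArithmeticFunction.one_apply] at h2
  rw [h1, h2]

/-- sums over coprime numbers -/
theorem ckmB_sum {R : Type*} [CommRing R] (F : ℕ → R) (x y k : ℕ) (hk : 1 ≤ k) :
    ∑ m ∈ (Finset.Ico x y).filter (fun m => Nat.Coprime m k), F m =
      ∑ l ∈ k.divisors, (ArithmeticFunction.moebius l : R) *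
        ∑ m ∈ (Finset.Ico x y).filter (fun m => l ∣ m), F m := by
  rw [Finset.sum_filter]
  have h1 : ∀ m ∈ Finset.Ico x y, (if Nat.Coprime m k then F m else 0) =
      ∑ l ∈ k.divisors, if l ∣ m then (ArithmeticFunction.moebius l : R) * F m else 0 := by
    intro m _
    have h2 := congrArg (fun z : ℤ => (z : R)) (ckmB_mob m k hk)
    simp only [Int.cast_sum] at h2
    rw [← Finset.sum_filter, ← Finset.sum_mul, h2]
    split_ifs <;> simp
  rw [Finset.sum_congr rfl h1, Finset.sum_comm]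
  refine Finset.sum_congr rfl fun l _ => ?_
  rw [Finset.mul_sum, Finset.sum_filter]

private theorem ckmB_ico (F : ℕ → ℂ) (x y l : ℕ) (hl : 1 ≤ l) :
    ∑ m ∈ (Finset.Ico x y).filter (fun m => l ∣ m), F m =
      ∑ m ∈ Finset.Ico ((x + l - 1) / l) ((y + l - 1) / l), F (l * m) := by
  refine (Finset.sum_bij (fun m _ => l * m) ?_ ?_ ?_ ?_).symm
  · intro m hm
    rw [Finset.mem_Ico] at hm
    rw [Finset.mem_filter, Finset.mem_Ico]
    obtain ⟨h1, h2⟩ := hm
    refine ⟨⟨?_, ?_⟩, Dvd.intro m rfl⟩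
    · have h3 : x + l - 1 < l * (m + 1) := by
        have h4 := Nat.lt_mul_of_div_lt (Nat.lt_succ_of_le h1) (by omega : 0 < l)
        rw [mul_comm] at h4
        exact h4
      rw [mul_add, mul_one] at h3
      omega
    · have h3 : m + 1 ≤ (y + l - 1) / l := h2
      rw [Nat.le_div_iff_mul_le (by omega)] at h3
      have h4 : (m + 1) * l = l * m + l := by ring
      omega
  · intro m₁ _ m₂ _ h
    exact Nat.eq_of_mul_eq_mul_left (by omega) h
  · intro m hm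
    rw [Finset.mem_filter, Finset.mem_Ico] at hm
    obtain ⟨⟨h1, h2⟩, c, rfl⟩ := hm
    refine ⟨c, ?_, rfl⟩
    rw [Finset.mem_Ico]
    constructor
    · have h3 : (x + l - 1) / l < c + 1 := by
        rw [Nat.div_lt_iff_lt_mul (by omega)]
        have h4 : (c + 1) * l = l * c + l := by ring
        omega
      omega
    · have h3 : c + 1 ≤ (y + l - 1) / l := by
        rw [Nat.le_div_iff_mul_le (by omega)]
        have h4 : (c + 1) * l = l * c + l := by ring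
        omega
      omega
  · intro m _
    rfl

/-- Proof. Write the coprimality condition as `∑_{l ∣ k, l ∣ m} μ(l)`
(`ArithmeticFunction.sum_moebius…`, `Nat.Coprime`), so the sum is `∑_{l ∣ k} μ(l) ∑_{m, l ∣ m}`. For
fixed `l`, `m = l m'`, `m'` runs over an interval, and `m' ↦ b ((l m') % W) χ(l m')` has period
`W D`, is bounded by `B`, and its sum over a period is
`χ(l) ∑_{a < W} b ((l a) % W) ∑_{m' < W D, m' % W = a} χ(m') = 0` by `prim_class`. Use `per_sum`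
(divide by `B`; `B = 0` is trivial). -/
theorem cop_nd {D : ℕ} (hD : 1 ≤ D) (χ : DirichletCharacter ℂ D) (hχ : χ.IsPrimitive) {W : ℕ}
    (hW : 1 ≤ W) (h : ¬ D ∣ W) (b : ℕ → ℝ) {B : ℝ} (hB : ∀ a, |b a| ≤ B) (x y k : ℕ) (hk : 1 ≤ k) :
    ‖∑ m ∈ (Finset.Ico x y).filter (fun m => Nat.Coprime m k), (b (m % W) : ℂ) * χ (m : ZMod D)‖ ≤
      B * W * D * k.divisors.card := by
  have hB0 : 0 ≤ B := (abs_nonneg _).trans (hB 0)
  rw [ckmB_sum _ x y k hk]
  have hinner : ∀ l ∈ k.divisors, ‖(ArithmeticFunction.moebius l : ℂ) *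
      ∑ m ∈ (Finset.Ico x y).filter (fun m => l ∣ m), (b (m % W) : ℂ) * χ (m : ZMod D)‖ ≤
        B * W * D := by
    intro l hl
    have hl1 : 1 ≤ l := Nat.pos_of_mem_divisors hl
    have hmu : ‖(ArithmeticFunction.moebius l : ℂ)‖ ≤ 1 := by
      rw [Complex.norm_intCast]
      exact_mod_cast ArithmeticFunction.abs_moebius_le_one
    rw [norm_mul]
    have hmain : ‖∑ m ∈ (Finset.Ico x y).filter (fun m => l ∣ m),
        (b (m % W) : ℂ) * χ (m : ZMod D)‖ ≤ B * W * D := by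
      rw [ckmB_ico _ x y l hl1]
      rcases hB0.eq_or_lt with h0 | hBpos
      · have h1 : ∀ a, b a = 0 := fun a => by
          have := hB a
          rw [← h0] at this
          exact abs_eq_zero.1 (le_antisymm this (abs_nonneg _))
        simp [h1, ← h0]
      have hq : 1 ≤ W * D := Nat.mul_pos hW hD
      have h1 := per_sum (W * D) hq
        (fun n => (b ((l * n) % W) : ℂ) * χ ((l * n : ℕ) : ZMod D) / (B : ℂ)) ?_ ?_ ?_
        ((x + l - 1) / l) ((y + l - 1) / l)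
      · rw [← Finset.sum_div, norm_div, Complex.norm_real, Real.norm_of_nonneg hB0,
          div_le_iff₀ hBpos] at h1
        refine h1.trans (le_of_eq ?_)
        push_cast
        ring
      · intro n
        have h2 : (l * (n + W * D)) % W = (l * n) % W := by
          have : l * (n + W * D) = l * n + W * (l * D) := by ring
          rw [this, Nat.add_mul_mod_self_left]
        have h3 : ((l * (n + W * D) : ℕ) : ZMod D) = ((l * n : ℕ) : ZMod D) := by
          push_cast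
          rw [ZMod.natCast_self, mul_zero, add_zero]
        simp only [h2, h3]
      · rw [← Finset.sum_div]
        have h2 : ∑ n ∈ Finset.range (W * D), (b ((l * n) % W) : ℂ) * χ ((l * n : ℕ) : ZMod D) =
            0 := by
          have h3 : ∀ n ∈ Finset.range (W * D),
              (b ((l * n) % W) : ℂ) * χ ((l * n : ℕ) : ZMod D) =
              ∑ a ∈ Finset.range W, if n % W = a then
                ((b ((l * a) % W) : ℂ) * χ (l : ZMod D)) * χ (n : ZMod D) else 0 := by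
            intro n _
            rw [Finset.sum_ite_eq, if_pos (Finset.mem_range.2 (Nat.mod_lt n hW))]
            have h4 : (l * n) % W = (l * (n % W)) % W := by
              rw [Nat.mul_mod, Nat.mul_mod l (n % W), Nat.mod_mod]
            rw [← h4, Nat.cast_mul, map_mul]
            ring
          rw [Finset.sum_congr rfl h3, Finset.sum_comm]
          refine Finset.sum_eq_zero fun a _ => ?_
          rw [← Finset.sum_filter, ← Finset.mul_sum, prim_class hD χ hχ hW h a, mul_zero]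
        rw [h2, zero_div]
      · intro n
        rw [norm_div, norm_mul, Complex.norm_real, Complex.norm_real, Real.norm_of_nonneg hB0,
          div_le_one hBpos, Real.norm_eq_abs]
        calc |b (l * n % W)| * ‖χ ((l * n : ℕ) : ZMod D)‖ ≤ B * 1 :=
              mul_le_mul (hB _) (DirichletCharacter.norm_le_one χ _) (norm_nonneg _) hB0
          _ = B := mul_one B
    calc ‖(ArithmeticFunction.moebius l : ℂ)‖ * _ ≤ 1 * (B * W * D) :=
          mul_le_mul hmu hmain (norm_nonneg _) zero_le_one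
      _ = B * W * D := one_mul _
  refine (norm_sum_le _ _).trans ((Finset.sum_le_sum hinner).trans (le_of_eq ?_))
  rw [Finset.sum_const, nsmul_eq_mul]
  ring

end

end Pool.Agent.Lib.MP_0b748d_nt.HHC
end
end

section

section

set_option autoImplicit false

/-!
# Sums over numbers prime to k: moduli dividing W
-/

namespace Pool.Agent.Lib.MP_0b748d_nt.HHC

noncomputable section

/-- one residue class in an interval -/
private theorem ckmC_cnt (x y r v : ℕ) (hr : 1 ≤ r) (hxy : x ≤ y) :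
    |(((Finset.Ico x y).filter (fun m => m ≡ v [MOD r])).card : ℝ) - ((y : ℝ) - x) / r| ≤ 1 := by
  have hr0 : (0 : ℚ) < r := by exact_mod_cast hr
  have h1 := Nat.Ico_filter_modEq_card x y hr v
  set c := ((Finset.Ico x y).filter (fun m => m ≡ v [MOD r])).card with hc
  have hle : ⌈((x : ℚ) - v) / r⌉ ≤ ⌈((y : ℚ) - v) / r⌉ := by
    apply Int.ceil_le_ceil
    apply div_le_div_of_nonneg_right _ hr0.le
    have : (x : ℚ) ≤ y := by exact_mod_cast hxy
    linarith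
  rw [max_eq_left (by linarith)] at h1
  have h2 : (c : ℚ) = (⌈((y : ℚ) - v) / r⌉ : ℚ) - (⌈((x : ℚ) - v) / r⌉ : ℚ) := by
    exact_mod_cast congrArg (fun z : ℤ => (z : ℚ)) h1
  have h3 := Int.le_ceil (((y : ℚ) - v) / r)
  have h4 := Int.ceil_lt_add_one (((y : ℚ) - v) / r)
  have h5 := Int.le_ceil (((x : ℚ) - v) / r)
  have h6 := Int.ceil_lt_add_one (((x : ℚ) - v) / r)
  have h7 : ((y : ℚ) - v) / r - ((x : ℚ) - v) / r = ((y : ℚ) - x) / r := by ring
  have h8 : |(c : ℚ) - ((y : ℚ) - x) / r| ≤ 1 := by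
    rw [abs_le, h2, ← h7]
    constructor <;> linarith
  have h9 : ((|(c : ℚ) - ((y : ℚ) - x) / r| : ℚ) : ℝ) ≤ ((1 : ℚ) : ℝ) := by exact_mod_cast h8
  push_cast at h9
  exact h9

/-- multiples of `l` in a residue class -/
private theorem ckmC_key2 {W l a : ℕ} (hW : 1 ≤ W) (hl : 1 ≤ l) (hlW : Nat.Coprime l W)
    (ha : a < W) (x y : ℕ) :
    |(((Finset.Ico x y).filter (fun m => m % W = a ∧ l ∣ m)).card : ℝ) -
      1 / (l : ℝ) * (((Finset.Ico x y).filter (fun m => m % W = a)).card : ℝ)| ≤ 2 := by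
  rcases le_or_gt x y with hxy | hxy
  · obtain ⟨v, hv1, hv2⟩ := Nat.chineseRemainder hlW.symm a 0
    have e1 : (Finset.Ico x y).filter (fun m => m % W = a ∧ l ∣ m) =
        (Finset.Ico x y).filter (fun m => m ≡ v [MOD (W * l)]) := by
      apply Finset.filter_congr
      intro m _
      rw [← Nat.modEq_and_modEq_iff_modEq_mul hlW.symm]
      have h1 : m % W = a ↔ m ≡ v [MOD W] := by
        constructor
        · intro h
          refine Nat.ModEq.trans ?_ hv1.symm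
          show m % W = a % W
          rw [h, Nat.mod_eq_of_lt ha]
        · intro h
          have h2 : m ≡ a [MOD W] := h.trans hv1
          have h3 : m % W = a % W := h2
          rw [h3, Nat.mod_eq_of_lt ha]
      have h2 : l ∣ m ↔ m ≡ v [MOD l] := by
        rw [← Nat.modEq_zero_iff_dvd]
        exact ⟨fun h => h.trans hv2.symm, fun h => h.trans hv2⟩
      rw [h1, h2]
    have e2 : (Finset.Ico x y).filter (fun m => m % W = a) =
        (Finset.Ico x y).filter (fun m => m ≡ a [MOD W]) := by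
      apply Finset.filter_congr
      intro m _
      show m % W = a ↔ m % W = a % W
      rw [Nat.mod_eq_of_lt ha]
    rw [e1, e2]
    have h1 := ckmC_cnt x y (W * l) v (Nat.mul_pos hW hl) hxy
    have h2 := ckmC_cnt x y W a hW hxy
    set A : ℝ := (((Finset.Ico x y).filter (fun m => m ≡ v [MOD (W * l)])).card : ℝ)
    set C : ℝ := (((Finset.Ico x y).filter (fun m => m ≡ a [MOD W])).card : ℝ)
    have hl0 : (1 : ℝ) ≤ l := by exact_mod_cast hl
    have hlinv : 1 / (l : ℝ) ≤ 1 := by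
      rw [div_le_one (by linarith)]
      exact hl0
    have hlpos : 0 ≤ 1 / (l : ℝ) := by positivity
    have hW0 : (0 : ℝ) < W := by exact_mod_cast hW
    have e3 : A - 1 / (l : ℝ) * C = (A - ((y : ℝ) - x) / ((W * l : ℕ) : ℝ)) -
        1 / (l : ℝ) * (C - ((y : ℝ) - x) / W) := by
      push_cast
      field_simp
      ring
    rw [e3]
    calc _ ≤ |A - ((y : ℝ) - x) / ((W * l : ℕ) : ℝ)| +
        |1 / (l : ℝ) * (C - ((y : ℝ) - x) / W)| := abs_sub _ _
      _ ≤ 1 + 1 * 1 := by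
        refine add_le_add h1 ?_
        rw [abs_mul, abs_of_nonneg hlpos]
        exact mul_le_mul hlinv h2 (abs_nonneg _) zero_le_one
      _ = 2 := by norm_num
  · rw [Finset.Ico_eq_empty (by omega)]
    simp

/-- the density -/
private def ckmC_d (k W : ℕ) : ℝ :=
  ∑ l ∈ k.divisors.filter (fun l => Nat.Coprime l W), (ArithmeticFunction.moebius l : ℝ) / l

private theorem ckmC_key {W a k : ℕ} (hW : 1 ≤ W) (hk : 1 ≤ k) (ha : a < W)
    (haW : Nat.Coprime a W) (x y : ℕ) :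
    |((((Finset.Ico x y).filter (fun m => Nat.Coprime m k)).filter (fun m => m % W = a)).card : ℝ) -
      ckmC_d k W * (((Finset.Ico x y).filter (fun m => m % W = a)).card : ℝ)| ≤
      2 * k.divisors.card := by
  have h1 : ((((Finset.Ico x y).filter (fun m => Nat.Coprime m k)).filter
      (fun m => m % W = a)).card : ℝ) = ∑ l ∈ k.divisors, (ArithmeticFunction.moebius l : ℝ) *
        (((Finset.Ico x y).filter (fun m => m % W = a ∧ l ∣ m)).card : ℝ) := by
    have h2 := ckmB_sum (R := ℝ) (fun m => if m % W = a then 1 else 0) x y k hk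
    rw [← Finset.sum_filter, Finset.sum_const, nsmul_eq_mul, mul_one] at h2
    rw [h2]
    refine Finset.sum_congr rfl fun l _ => ?_
    congr 1
    rw [← Finset.sum_filter, Finset.sum_const, nsmul_eq_mul, mul_one, Finset.filter_filter]
    congr 2
    apply Finset.filter_congr
    intro m _
    exact and_comm
  have h2 : ∑ l ∈ k.divisors, (ArithmeticFunction.moebius l : ℝ) *
        (((Finset.Ico x y).filter (fun m => m % W = a ∧ l ∣ m)).card : ℝ) =
      ∑ l ∈ k.divisors.filter (fun l => Nat.Coprime l W), (ArithmeticFunction.moebius l : ℝ) *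
        (((Finset.Ico x y).filter (fun m => m % W = a ∧ l ∣ m)).card : ℝ) := by
    rw [Finset.sum_filter]
    refine Finset.sum_congr rfl fun l _ => ?_
    split_ifs with h3
    · rfl
    · have h4 : (Finset.Ico x y).filter (fun m => m % W = a ∧ l ∣ m) = ∅ := by
        rw [Finset.filter_eq_empty_iff]
        rintro m _ ⟨h5, h6⟩
        apply h3
        have h7 : Nat.gcd l W ∣ m := (Nat.gcd_dvd_left l W).trans h6
        have h8 : Nat.gcd l W ∣ a := by
          rw [← h5]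
          exact (Nat.dvd_mod_iff (Nat.gcd_dvd_right l W)).2 h7
        have h9 : Nat.gcd l W ∣ Nat.gcd a W := Nat.dvd_gcd h8 (Nat.gcd_dvd_right l W)
        rw [haW] at h9
        exact Nat.dvd_one.1 h9
      rw [h4, Finset.card_empty, Nat.cast_zero, mul_zero]
  rw [h1, h2, ckmC_d, Finset.sum_mul, ← Finset.sum_sub_distrib]
  refine (Finset.abs_sum_le_sum_abs _ _).trans ?_
  have h3 : ∀ l ∈ k.divisors.filter (fun l => Nat.Coprime l W),
      |(ArithmeticFunction.moebius l : ℝ) *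
        (((Finset.Ico x y).filter (fun m => m % W = a ∧ l ∣ m)).card : ℝ) -
        (ArithmeticFunction.moebius l : ℝ) / l *
        (((Finset.Ico x y).filter (fun m => m % W = a)).card : ℝ)| ≤ 2 := by
    intro l hl
    rw [Finset.mem_filter] at hl
    have hl1 : 1 ≤ l := Nat.pos_of_mem_divisors hl.1
    have h4 := ckmC_key2 hW hl1 hl.2 ha x y
    have h5 : (ArithmeticFunction.moebius l : ℝ) *
        (((Finset.Ico x y).filter (fun m => m % W = a ∧ l ∣ m)).card : ℝ) -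
        (ArithmeticFunction.moebius l : ℝ) / l *
        (((Finset.Ico x y).filter (fun m => m % W = a)).card : ℝ) =
        (ArithmeticFunction.moebius l : ℝ) *
        ((((Finset.Ico x y).filter (fun m => m % W = a ∧ l ∣ m)).card : ℝ) -
        1 / (l : ℝ) * (((Finset.Ico x y).filter (fun m => m % W = a)).card : ℝ)) := by
      ring
    rw [h5, abs_mul]
    have hmu : |(ArithmeticFunction.moebius l : ℝ)| ≤ 1 := by
      exact_mod_cast ArithmeticFunction.abs_moebius_le_one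
    calc _ ≤ 1 * 2 := mul_le_mul hmu h4 (abs_nonneg _) zero_le_one
      _ = 2 := one_mul 2
  refine (Finset.sum_le_sum h3).trans ?_
  rw [Finset.sum_const, nsmul_eq_mul, mul_comm]
  have h4 : ((k.divisors.filter (fun l => Nat.Coprime l W)).card : ℝ) ≤ k.divisors.card := by
    exact_mod_cast Finset.card_filter_le _ _
  linarith

private theorem ckmC_d_le {W k : ℕ} (hW : 1 ≤ W) (hk : 1 ≤ k) : |ckmC_d k W| ≤ 1 := by
  have ha : 1 % W < W := Nat.mod_lt _ hW
  have haW : Nat.Coprime (1 % W) W := by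
    rw [Nat.Coprime, ← Nat.gcd_rec, Nat.gcd_one_right]
  set d : ℝ := (k.divisors.card : ℝ) with hd
  have hd0 : 0 ≤ d := Nat.cast_nonneg _
  have hmain : ∀ n : ℕ, |ckmC_d k W| * n ≤ n + (|ckmC_d k W| + 1 + 2 * d) := by
    intro n
    have h1 := ckmC_key hW hk ha haW 0 (n * W)
    have h2 := ckmC_cnt 0 (n * W) W 1 hW (Nat.zero_le _)
    have e2 : (Finset.Ico 0 (n * W)).filter (fun m => m ≡ 1 [MOD W]) =
        (Finset.Ico 0 (n * W)).filter (fun m => m % W = 1 % W) := rfl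
    rw [e2] at h2
    have h3 : ((((Finset.Ico 0 (n * W)).filter (fun m => Nat.Coprime m k)).filter
        (fun m => m % W = 1 % W)).card : ℝ) ≤
        (((Finset.Ico 0 (n * W)).filter (fun m => m % W = 1 % W)).card : ℝ) := by
      exact_mod_cast Finset.card_le_card
        (Finset.filter_subset_filter _ (Finset.filter_subset _ _))
    set A : ℝ := ((((Finset.Ico 0 (n * W)).filter (fun m => Nat.Coprime m k)).filter
        (fun m => m % W = 1 % W)).card : ℝ)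
    set C : ℝ := (((Finset.Ico 0 (n * W)).filter (fun m => m % W = 1 % W)).card : ℝ)
    have hA0 : 0 ≤ A := Nat.cast_nonneg _
    have hC0 : 0 ≤ C := Nat.cast_nonneg _
    have hW0 : (0 : ℝ) < W := by exact_mod_cast hW
    have h4 : (((n * W : ℕ) : ℝ) - ((0 : ℕ) : ℝ)) / W = n := by
      push_cast
      field_simp
      ring
    rw [h4, abs_le] at h2
    have h5 : |ckmC_d k W| * C ≤ A + 2 * d := by
      have h6 : |ckmC_d k W * C| ≤ |A| + |A - ckmC_d k W * C| := by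
        have h7 : ckmC_d k W * C = A - (A - ckmC_d k W * C) := by ring
        nth_rw 1 [h7]
        exact abs_sub _ _
      rw [abs_mul, abs_of_nonneg hC0, abs_of_nonneg hA0] at h6
      linarith
    have h6 : |ckmC_d k W| * (n - C) ≤ |ckmC_d k W| * 1 :=
      mul_le_mul_of_nonneg_left (by linarith) (abs_nonneg _)
    nlinarith
  by_contra hcon
  push Not at hcon
  obtain ⟨n, hn⟩ := exists_nat_gt ((|ckmC_d k W| + 1 + 2 * d) / (|ckmC_d k W| - 1))
  rw [div_lt_iff₀ (by linarith)] at hn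
  have := hmain n
  nlinarith

private theorem ckmC_fib (S : Finset ℕ) (G : ℕ → ℂ) {W : ℕ} (hW : 1 ≤ W) :
    ∑ m ∈ S, G (m % W) =
      ∑ a ∈ Finset.range W, (((S.filter (fun m => m % W = a)).card : ℝ) : ℂ) * G a := by
  have h1 : ∀ m ∈ S, G (m % W) = ∑ a ∈ Finset.range W, if m % W = a then G a else 0 := by
    intro m _
    rw [Finset.sum_ite_eq, if_pos (Finset.mem_range.2 (Nat.mod_lt m hW))]
  rw [Finset.sum_congr rfl h1, Finset.sum_comm]
  refine Finset.sum_congr rfl fun a _ => ?_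
  rw [← Finset.sum_filter, Finset.sum_const, nsmul_eq_mul]
  push_cast
  rfl

/-- Proof. Group by `a = m % W`, prime to `W`; `χ m = χ a` as `D ∣ W`. For such `a`,
`#{m ∈ [x, y) : m ≡ a, m prime to k} = ∑_{l ∣ k, l prime to W} μ(l) #{m : m ≡ a mod W, l ∣ m}`
(if `l ∣ m` is not prime to `W` then neither is `a`), and
`|#{m ∈ [x, y) : m ≡ a mod W, l ∣ m} - (1/l) #{m ∈ [x, y) : m ≡ a mod W}| ≤ 2` (the two numbers are
`(y-x)/(l W) + O(1)` and `(y-x)/W + O(1)`). So the number is `d0 * #{m : m ≡ a} + E`,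
`|E| ≤ 2 * #divisors`, with `d0 = ∑_{l ∣ k, l prime to W} μ(l)/l = ∏_{p ∣ k, p ∤ W} (1 - 1/p)` in
`[0, 1]`. The main term is `d0` times the sum without the coprimality condition. -/
theorem cop_d {D : ℕ} (hD : 1 ≤ D) (χ : DirichletCharacter ℂ D) {W : ℕ} (hW : 1 ≤ W) (h : D ∣ W)
    (b : ℕ → ℝ) {B : ℝ} (hB : ∀ a, |b a| ≤ B) (hb : ∀ a, ¬ Nat.Coprime a W → b a = 0)
    (x y k : ℕ) (hk : 1 ≤ k) :
    ‖∑ m ∈ (Finset.Ico x y).filter (fun m => Nat.Coprime m k), (b (m % W) : ℂ) * χ (m : ZMod D)‖ ≤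
      ‖∑ m ∈ Finset.Ico x y, (b (m % W) : ℂ) * χ (m : ZMod D)‖ + 2 * B * W * k.divisors.card := by
  have hB0 : 0 ≤ B := (abs_nonneg _).trans (hB 0)
  set G : ℕ → ℂ := fun a => (b a : ℂ) * χ (a : ZMod D) with hG
  have hGm : ∀ m : ℕ, (b (m % W) : ℂ) * χ (m : ZMod D) = G (m % W) := by
    intro m
    have h1 : ((m % W : ℕ) : ZMod D) = (m : ZMod D) := by
      obtain ⟨c, hc⟩ := h
      conv_rhs => rw [← Nat.mod_add_div m W]
      rw [hc]
      push_cast
      rw [ZMod.natCast_self, zero_mul, zero_mul, add_zero]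
    rw [hG]
    simp only [h1]
  simp only [hGm]
  rw [ckmC_fib _ G hW, ckmC_fib _ G hW]
  set N' : ℕ → ℝ := fun a => ((((Finset.Ico x y).filter (fun m => Nat.Coprime m k)).filter
    (fun m => m % W = a)).card : ℝ) with hN'
  set N : ℕ → ℝ := fun a => (((Finset.Ico x y).filter (fun m => m % W = a)).card : ℝ) with hN
  have e1 : ∑ a ∈ Finset.range W, ((N' a : ℝ) : ℂ) * G a =
      (ckmC_d k W : ℂ) * ∑ a ∈ Finset.range W, ((N a : ℝ) : ℂ) * G a +
        ∑ a ∈ Finset.range W, ((N' a - ckmC_d k W * N a : ℝ) : ℂ) * G a := by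
    rw [Finset.mul_sum, ← Finset.sum_add_distrib]
    refine Finset.sum_congr rfl fun a _ => ?_
    push_cast
    ring
  show ‖∑ a ∈ Finset.range W, ((N' a : ℝ) : ℂ) * G a‖ ≤
    ‖∑ a ∈ Finset.range W, ((N a : ℝ) : ℂ) * G a‖ + _
  rw [e1]
  refine (norm_add_le _ _).trans (add_le_add ?_ ?_)
  · rw [norm_mul, Complex.norm_real, Real.norm_eq_abs]
    exact mul_le_of_le_one_left (norm_nonneg _) (ckmC_d_le hW hk)
  · have h2 : ∀ a ∈ Finset.range W, ‖((N' a - ckmC_d k W * N a : ℝ) : ℂ) * G a‖ ≤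
        2 * k.divisors.card * B := by
      intro a ha
      rw [Finset.mem_range] at ha
      rw [norm_mul, Complex.norm_real, Real.norm_eq_abs]
      by_cases haW : Nat.Coprime a W
      · have hGa : ‖G a‖ ≤ B := by
          rw [hG]
          simp only
          rw [norm_mul, Complex.norm_real, Real.norm_eq_abs]
          calc |b a| * ‖χ (a : ZMod D)‖ ≤ B * 1 :=
                mul_le_mul (hB _) (DirichletCharacter.norm_le_one χ _) (norm_nonneg _) hB0
            _ = B := mul_one B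
        exact mul_le_mul (ckmC_key hW hk ha haW x y) hGa (norm_nonneg _) (by positivity)
      · have hGa : G a = 0 := by
          rw [hG]
          simp only
          rw [hb a haW, Complex.ofReal_zero, zero_mul]
        rw [hGa, norm_zero, mul_zero]
        positivity
    refine (norm_sum_le _ _).trans ((Finset.sum_le_sum h2).trans (le_of_eq ?_))
    rw [Finset.sum_const, Finset.card_range, nsmul_eq_mul]
    ring

end

end Pool.Agent.Lib.MP_0b748d_nt.HHC
end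

section

set_option autoImplicit false

/-!
# Large sieve for primes and small conductors
-/

namespace Pool.Agent.Lib.MP_0b748d_nt.HHC

noncomputable section

/-- weighted version of `off_sum` on multiples of `d`: substitute `n = d m` -/
theorem off_dvd {R : ℕ} {x y : Σ D : ℕ, DirichletCharacter ℂ D} (hx : x ∈ PI R) (hy : y ∈ PI R)
    (hne : x ≠ y) (a b d : ℕ) (hd : 1 ≤ d) :
    ‖∑ n ∈ (Finset.Ico a b).filter (fun n => d ∣ n),
      x.2 (n : ZMod x.1) * (starRingEnd ℂ) (y.2 (n : ZMod y.1))‖ ≤ (R : ℝ) ^ 2 := by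
  have hset : (Finset.Ico a b).filter (fun n => d ∣ n) =
      (Finset.Ico ((a + d - 1) / d) ((b + d - 1) / d)).image (fun m => d * m) := by
    ext n
    simp only [Finset.mem_filter, Finset.mem_Ico, Finset.mem_image]
    have key : ∀ c m : ℕ, (c + d - 1) / d ≤ m ↔ c ≤ d * m := by
      intro c m
      rw [Nat.div_le_iff_le_mul_add_pred hd]
      omega
    constructor
    · rintro ⟨⟨h1, h2⟩, m, rfl⟩
      refine ⟨m, ⟨(key a m).2 h1, ?_⟩, rfl⟩
      rw [← not_le, key b m, not_le]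
      exact h2
    · rintro ⟨m, ⟨h1, h2⟩, rfl⟩
      refine ⟨⟨(key a m).1 h1, ?_⟩, dvd_mul_right d m⟩
      rw [← not_le, key b m, not_le] at h2
      exact h2
  have hinj : Set.InjOn (fun m => d * m)
      (Finset.Ico ((a + d - 1) / d) ((b + d - 1) / d) : Set ℕ) := by
    intro m _ m' _ h
    exact Nat.eq_of_mul_eq_mul_left hd h
  rw [hset, Finset.sum_image hinj]
  have hfac : ∀ m : ℕ, x.2 (((d * m : ℕ)) : ZMod x.1) * (starRingEnd ℂ)
      (y.2 (((d * m : ℕ)) : ZMod y.1)) =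
      (x.2 (d : ZMod x.1) * (starRingEnd ℂ) (y.2 (d : ZMod y.1))) *
        (x.2 (m : ZMod x.1) * (starRingEnd ℂ) (y.2 (m : ZMod y.1))) := by
    intro m
    push_cast
    rw [map_mul, map_mul, map_mul]
    ring
  rw [Finset.sum_congr rfl fun m _ => hfac m, ← Finset.mul_sum, norm_mul]
  have h1 : ‖x.2 (d : ZMod x.1) * (starRingEnd ℂ) (y.2 (d : ZMod y.1))‖ ≤ 1 := by
    rw [norm_mul, RCLike.norm_conj]
    exact mul_le_one₀ (DirichletCharacter.norm_le_one _ _) (norm_nonneg _)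
      (DirichletCharacter.norm_le_one _ _)
  have h2 := off_sum hx hy hne ((a + d - 1) / d) ((b + d - 1) / d)
  calc _ ≤ 1 * (R : ℝ) ^ 2 := mul_le_mul h1 h2 (norm_nonneg _) zero_le_one
    _ = (R : ℝ) ^ 2 := one_mul _

private theorem cplb_card (R : ℕ) : ((PI R).card : ℝ) ≤ (R : ℝ) ^ 2 := by
  have h : (PI R).card ≤ R * R := by
    unfold PI
    rw [Finset.card_sigma]
    calc ∑ D ∈ Finset.Icc 1 R, (PC D).card ≤ ∑ D ∈ Finset.Icc 1 R, R := by
          refine Finset.sum_le_sum fun D hD => ?_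
          rw [Finset.mem_Icc] at hD
          have : NeZero D := ⟨by omega⟩
          calc (PC D).card ≤ Fintype.card (DirichletCharacter ℂ D) := Finset.card_le_univ _
            _ = D.totient := by
              rw [← Nat.card_eq_fintype_card]
              exact DirichletCharacter.card_eq_totient_of_hasEnoughRootsOfUnity ℂ D
            _ ≤ D := Nat.totient_le D
            _ ≤ R := hD.2
      _ = R * R := by rw [Finset.sum_const, Nat.card_Icc, smul_eq_mul]; simp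
  rw [pow_two]
  exact_mod_cast h

private theorem cplb_interval {lam : ℕ → ℝ} {Z : ℕ} (h : SW Z lam) (N : ℕ) :
    ∑ n ∈ Finset.Ico N (2 * N), nu lam Z (n : ℤ) ≤ N / Real.log Z + Z ^ 2 := by
  have h1 := nu_interval h (N : ℤ) N
  have h2 : Finset.Ico (N : ℤ) ((N : ℤ) + N) =
      (Finset.Ico N (2 * N)).image (fun n : ℕ => (n : ℤ)) := by
    ext z
    simp only [Finset.mem_image, Finset.mem_Ico]
    constructor
    · rintro ⟨ha, hb⟩
      exact ⟨z.toNat, ⟨by omega, by omega⟩, by omega⟩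
    · rintro ⟨n, ⟨ha, hb⟩, rfl⟩
      exact ⟨by omega, by omega⟩
  rw [h2, Finset.sum_image (fun a _ b _ hab => by exact_mod_cast hab)] at h1
  exact h1

open Classical in
private theorem cplb_off {lam : ℕ → ℝ} {Z R : ℕ} (h : SW Z lam) (N : ℕ)
    {x y : Σ D : ℕ, DirichletCharacter ℂ D} (hx : x ∈ PI R) (hy : y ∈ PI R) (hne : x ≠ y) :
    ‖∑ n ∈ Finset.Ico N (2 * N), ((nu lam Z (n : ℤ) : ℝ) : ℂ) *
      (x.2 (n : ZMod x.1) * (starRingEnd ℂ) (y.2 (n : ZMod y.1)))‖ ≤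
      (Z : ℝ) ^ 2 * (R : ℝ) ^ 2 := by
  rw [nu_expand (Finset.Ico N (2 * N)) (fun n : ℕ => (n : ℤ))
    (fun n : ℕ => x.2 (n : ZMod x.1) * (starRingEnd ℂ) (y.2 (n : ZMod y.1))) lam Z]
  calc ‖∑ d ∈ Finset.Icc 1 Z, ∑ e ∈ Finset.Icc 1 Z, ((lam d * lam e : ℝ) : ℂ) *
        ∑ t ∈ (Finset.Ico N (2 * N)).filter (fun t : ℕ => ((Nat.lcm d e : ℕ) : ℤ) ∣ (t : ℤ)),
          (x.2 (t : ZMod x.1) * (starRingEnd ℂ) (y.2 (t : ZMod y.1)))‖
      ≤ ∑ d ∈ Finset.Icc 1 Z, ∑ e ∈ Finset.Icc 1 Z, (R : ℝ) ^ 2 := by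
        refine (norm_sum_le _ _).trans (Finset.sum_le_sum fun d hd => ?_)
        refine (norm_sum_le _ _).trans (Finset.sum_le_sum fun e he => ?_)
        rw [Finset.mem_Icc] at hd he
        rw [norm_mul]
        have h1 : ‖((lam d * lam e : ℝ) : ℂ)‖ ≤ 1 := by
          rw [Complex.norm_real, Real.norm_eq_abs, abs_mul]
          exact mul_le_one₀ (h.le d) (abs_nonneg _) (h.le e)
        have h2 : (Finset.Ico N (2 * N)).filter
            (fun t : ℕ => ((Nat.lcm d e : ℕ) : ℤ) ∣ (t : ℤ)) =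
            (Finset.Ico N (2 * N)).filter (fun t => Nat.lcm d e ∣ t) := by
          refine Finset.filter_congr fun t _ => ?_
          exact Int.natCast_dvd_natCast
        rw [h2]
        have h3 := off_dvd hx hy hne N (2 * N) (Nat.lcm d e)
          (Nat.lcm_pos (by omega) (by omega))
        calc _ ≤ 1 * (R : ℝ) ^ 2 := mul_le_mul h1 h3 (norm_nonneg _) zero_le_one
          _ = (R : ℝ) ^ 2 := one_mul _
    _ = (Z : ℝ) ^ 2 * (R : ℝ) ^ 2 := by
        rw [Finset.sum_const, Finset.sum_const, Nat.card_Icc]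
        simp only [add_tsub_cancel_right, nsmul_eq_mul]
        ring

private theorem cplb_sq {κ : Type*} (t : Finset κ) (g : κ → ℂ) :
    (((‖∑ j ∈ t, g j‖ ^ 2 : ℝ)) : ℂ) =
      ∑ j ∈ t, ∑ j' ∈ t, g j * (starRingEnd ℂ) (g j') := by
  rw [← Finset.sum_mul_sum, ← map_sum, Complex.mul_conj, Complex.normSq_eq_norm_sq]

open Classical in
private theorem cplb_main {lam : ℕ → ℝ} {Z R : ℕ} (h : SW Z lam) (N : ℕ)
    (b : (Σ D : ℕ, DirichletCharacter ℂ D) → ℂ) :
    ∑ n ∈ Finset.Ico N (2 * N), nu lam Z (n : ℤ) *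
      ‖∑ y ∈ PI R, b y * y.2 (n : ZMod y.1)‖ ^ 2 ≤
      (N / Real.log Z + Z ^ 2 + Z ^ 2 * R ^ 4) * ∑ y ∈ PI R, ‖b y‖ ^ 2 := by
  obtain ⟨S, hS⟩ : ∃ S : ℝ, S = ∑ n ∈ Finset.Ico N (2 * N), nu lam Z (n : ℤ) *
      ‖∑ y ∈ PI R, b y * y.2 (n : ZMod y.1)‖ ^ 2 := ⟨_, rfl⟩
  rw [← hS]
  have hexp : (S : ℂ) = ∑ y ∈ PI R, ∑ y' ∈ PI R, (b y * (starRingEnd ℂ) (b y')) *
      ∑ n ∈ Finset.Ico N (2 * N), ((nu lam Z (n : ℤ) : ℝ) : ℂ) *
        (y.2 (n : ZMod y.1) * (starRingEnd ℂ) (y'.2 (n : ZMod y'.1))) := by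
    rw [hS]
    push_cast
    have h1 : ∀ n ∈ Finset.Ico N (2 * N), ((nu lam Z (n : ℤ) : ℝ) : ℂ) *
        ((‖∑ y ∈ PI R, b y * y.2 (n : ZMod y.1)‖ : ℝ) : ℂ) ^ 2 =
        ∑ y ∈ PI R, ∑ y' ∈ PI R, (b y * (starRingEnd ℂ) (b y')) *
          (((nu lam Z (n : ℤ) : ℝ) : ℂ) *
            (y.2 (n : ZMod y.1) * (starRingEnd ℂ) (y'.2 (n : ZMod y'.1)))) := by
      intro n _
      have h2 := cplb_sq (PI R) (fun y => b y * y.2 (n : ZMod y.1))
      push_cast at h2
      rw [h2, Finset.mul_sum]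
      refine Finset.sum_congr rfl fun y _ => ?_
      rw [Finset.mul_sum]
      refine Finset.sum_congr rfl fun y' _ => ?_
      rw [map_mul]
      ring
    rw [Finset.sum_congr rfl h1, Finset.sum_comm]
    refine Finset.sum_congr rfl fun y _ => ?_
    rw [Finset.sum_comm]
    refine Finset.sum_congr rfl fun y' _ => ?_
    rw [Finset.mul_sum]
  have hnu : 0 ≤ ∑ n ∈ Finset.Ico N (2 * N), nu lam Z (n : ℤ) :=
    Finset.sum_nonneg fun n _ => nu_nonneg _ _ _
  have hbd : ∀ y ∈ PI R, ∀ y' ∈ PI R,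
      ‖(b y * (starRingEnd ℂ) (b y')) *
        ∑ n ∈ Finset.Ico N (2 * N), ((nu lam Z (n : ℤ) : ℝ) : ℂ) *
          (y.2 (n : ZMod y.1) * (starRingEnd ℂ) (y'.2 (n : ZMod y'.1)))‖ ≤
      (if y = y' then ‖b y‖ ^ 2 * (N / Real.log Z + Z ^ 2) else 0) +
        ‖b y‖ * ‖b y'‖ * ((Z : ℝ) ^ 2 * (R : ℝ) ^ 2) := by
    intro y hy y' hy'
    rw [norm_mul, norm_mul, RCLike.norm_conj]
    have h0 : 0 ≤ ‖b y‖ * ‖b y'‖ := mul_nonneg (norm_nonneg _) (norm_nonneg _)
    by_cases hyy : y = y'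
    · subst hyy
      rw [if_pos rfl]
      have h1 : ‖∑ n ∈ Finset.Ico N (2 * N), ((nu lam Z (n : ℤ) : ℝ) : ℂ) *
          (y.2 (n : ZMod y.1) * (starRingEnd ℂ) (y.2 (n : ZMod y.1)))‖ ≤
          N / Real.log Z + Z ^ 2 := by
        refine le_trans ?_ (cplb_interval h N)
        refine (norm_sum_le _ _).trans (Finset.sum_le_sum fun n _ => ?_)
        rw [norm_mul, Complex.norm_real, Real.norm_eq_abs, abs_of_nonneg (nu_nonneg _ _ _),
          norm_mul, RCLike.norm_conj]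
        refine mul_le_of_le_one_right (nu_nonneg _ _ _) ?_
        exact mul_le_one₀ (DirichletCharacter.norm_le_one _ _) (norm_nonneg _)
          (DirichletCharacter.norm_le_one _ _)
      have h2 : ‖b y‖ * ‖b y‖ * ‖∑ n ∈ Finset.Ico N (2 * N), ((nu lam Z (n : ℤ) : ℝ) : ℂ) *
          (y.2 (n : ZMod y.1) * (starRingEnd ℂ) (y.2 (n : ZMod y.1)))‖ ≤
          ‖b y‖ * ‖b y‖ * (N / Real.log Z + Z ^ 2) := mul_le_mul_of_nonneg_left h1 h0
      have h3 : 0 ≤ ‖b y‖ * ‖b y‖ * ((Z : ℝ) ^ 2 * (R : ℝ) ^ 2) := by positivity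
      rw [pow_two (‖b y‖)]
      linarith
    · rw [if_neg hyy, zero_add]
      exact mul_le_mul_of_nonneg_left (cplb_off h N hy hy' hyy) h0
  have hS0 : S ≤ ‖(S : ℂ)‖ := by
    rw [Complex.norm_real, Real.norm_eq_abs]
    exact le_abs_self S
  have hB : (∑ y ∈ PI R, ‖b y‖) ^ 2 ≤ (R : ℝ) ^ 2 * ∑ y ∈ PI R, ‖b y‖ ^ 2 := by
    refine (sq_sum_le_card_mul_sum_sq).trans ?_
    exact mul_le_mul_of_nonneg_right (cplb_card R) (Finset.sum_nonneg fun y _ => sq_nonneg _)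
  calc S ≤ ‖(S : ℂ)‖ := hS0
    _ ≤ ∑ y ∈ PI R, ∑ y' ∈ PI R,
        ((if y = y' then ‖b y‖ ^ 2 * (N / Real.log Z + Z ^ 2) else 0) +
          ‖b y‖ * ‖b y'‖ * ((Z : ℝ) ^ 2 * (R : ℝ) ^ 2)) := by
        rw [hexp]
        refine (norm_sum_le _ _).trans (Finset.sum_le_sum fun y hy => ?_)
        refine (norm_sum_le _ _).trans (Finset.sum_le_sum fun y' hy' => ?_)
        exact hbd y hy y' hy'
    _ = (∑ y ∈ PI R, ‖b y‖ ^ 2) * (N / Real.log Z + Z ^ 2) +
        (∑ y ∈ PI R, ‖b y‖) ^ 2 * ((Z : ℝ) ^ 2 * (R : ℝ) ^ 2) := by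
        simp only [Finset.sum_add_distrib]
        congr 1
        · rw [Finset.sum_mul]
          refine Finset.sum_congr rfl fun y hy => ?_
          rw [Finset.sum_ite_eq, if_pos hy]
        · rw [pow_two (∑ y ∈ PI R, ‖b y‖), Finset.sum_mul_sum, Finset.sum_mul]
          refine Finset.sum_congr rfl fun y _ => ?_
          rw [Finset.sum_mul]
    _ ≤ (∑ y ∈ PI R, ‖b y‖ ^ 2) * (N / Real.log Z + Z ^ 2) +
        ((R : ℝ) ^ 2 * ∑ y ∈ PI R, ‖b y‖ ^ 2) * ((Z : ℝ) ^ 2 * (R : ℝ) ^ 2) := by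
        have := mul_le_mul_of_nonneg_right hB
          (by positivity : (0 : ℝ) ≤ (Z : ℝ) ^ 2 * (R : ℝ) ^ 2)
        linarith
    _ = (N / Real.log Z + Z ^ 2 + Z ^ 2 * R ^ 4) * ∑ y ∈ PI R, ‖b y‖ ^ 2 := by ring

/-- numerics -/
private theorem cplb_num : ∃ N0 : ℕ, 2 ≤ N0 ∧ ∀ N ≥ N0,
    2 ≤ ⌊(N : ℝ) ^ (1 / 8 : ℝ)⌋₊ ∧ ⌊(N : ℝ) ^ (1 / 8 : ℝ)⌋₊ < N ∧
    ∀ R : ℕ, R ^ 20 ≤ N →
      (N : ℝ) / Real.log ⌊(N : ℝ) ^ (1 / 8 : ℝ)⌋₊ + (⌊(N : ℝ) ^ (1 / 8 : ℝ)⌋₊ : ℝ) ^ 2 +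
        (⌊(N : ℝ) ^ (1 / 8 : ℝ)⌋₊ : ℝ) ^ 2 * (R : ℝ) ^ 4 ≤ 10 * (N / Real.log N) := by
  have hlo : ∀ᶠ x : ℝ in Filter.atTop, Real.log x ≤ (1 / 2) * x ^ (11 / 20 : ℝ) := by
    have h1 := (isLittleO_log_rpow_atTop (r := 11 / 20) (by norm_num)).bound
      (show (0 : ℝ) < 1 / 2 by norm_num)
    filter_upwards [h1, Filter.eventually_ge_atTop (1 : ℝ)] with x hx hx1
    rw [Real.norm_eq_abs, Real.norm_eq_abs, abs_of_nonneg (Real.log_nonneg hx1),
      abs_of_nonneg (Real.rpow_nonneg (by linarith) _)] at hx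
    exact hx
  have hlog : ∀ᶠ x : ℝ in Filter.atTop, 72 * Real.log 2 ≤ Real.log x :=
    Real.tendsto_log_atTop.eventually_ge_atTop _
  have hall := (hlo.and (hlog.and (Filter.eventually_ge_atTop (1000 : ℝ))))
  obtain ⟨N0, hN0⟩ := Filter.eventually_atTop.1 (tendsto_natCast_atTop_atTop.eventually hall)
  refine ⟨max N0 2, le_max_right _ _, fun N hN => ?_⟩
  obtain ⟨h1, h2, h3⟩ := hN0 N ((le_max_left _ _).trans hN)
  have hN1 : (1 : ℝ) < N := by linarith
  have hN0' : (0 : ℝ) < N := by linarith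
  obtain ⟨z, hz⟩ : ∃ z : ℝ, z = (N : ℝ) ^ (1 / 8 : ℝ) := ⟨_, rfl⟩
  rw [← hz]
  have hlogz : Real.log z = Real.log N / 8 := by
    rw [hz, Real.log_rpow hN0']
    ring
  have hz0 : 0 < z := by rw [hz]; exact Real.rpow_pos_of_pos hN0' _
  have hl2 : 0 < Real.log 2 := Real.log_pos (by norm_num)
  have hz4 : 4 ≤ z := by
    rw [← Real.log_le_log_iff (by norm_num) hz0, hlogz,
      show (4 : ℝ) = 2 ^ (2 : ℕ) by norm_num, Real.log_pow]
    push_cast
    linarith
  obtain ⟨Z, hZ⟩ : ∃ Z : ℕ, Z = ⌊z⌋₊ := ⟨_, rfl⟩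
  rw [← hZ]
  have hZle : (Z : ℝ) ≤ z := by rw [hZ]; exact Nat.floor_le hz0.le
  have hZgt : z / 2 ≤ Z := by
    have := Nat.lt_floor_add_one z
    rw [← hZ] at this
    linarith
  have hZ2 : (2 : ℝ) ≤ Z := by linarith
  have hzN : z < N := by
    rw [hz]
    calc (N : ℝ) ^ (1 / 8 : ℝ) < (N : ℝ) ^ (1 : ℝ) :=
          Real.rpow_lt_rpow_of_exponent_lt hN1 (by norm_num)
      _ = N := Real.rpow_one _
  refine ⟨by exact_mod_cast hZ2, by exact_mod_cast hZle.trans_lt hzN, fun R hR => ?_⟩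
  have hlN : 0 < Real.log N := by linarith
  have hlogZ : Real.log N / 9 ≤ Real.log Z := by
    calc Real.log N / 9 ≤ Real.log N / 8 - Real.log 2 := by linarith
      _ = Real.log (z / 2) := by rw [Real.log_div hz0.ne' (by norm_num), hlogz]
      _ ≤ Real.log Z := Real.log_le_log (by linarith) hZgt
  have hA : (N : ℝ) / Real.log Z ≤ 9 * (N / Real.log N) := by
    calc (N : ℝ) / Real.log Z ≤ N / (Real.log N / 9) :=
          div_le_div_of_nonneg_left hN0'.le (by linarith) hlogZ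
      _ = 9 * (N / Real.log N) := by field_simp
  have hR4 : (R : ℝ) ^ 4 ≤ (N : ℝ) ^ (1 / 5 : ℝ) := by
    have h5 : ((R : ℝ) ^ 4) ^ (5 : ℕ) ≤ N := by
      rw [← pow_mul]
      exact_mod_cast hR
    calc (R : ℝ) ^ 4 = (((R : ℝ) ^ 4) ^ (5 : ℕ)) ^ (1 / 5 : ℝ) := by
          rw [← Real.rpow_natCast ((R : ℝ) ^ 4) 5, ← Real.rpow_mul (by positivity)]
          norm_num
      _ ≤ (N : ℝ) ^ (1 / 5 : ℝ) := Real.rpow_le_rpow (by positivity) h5 (by norm_num)
  have hZsq : (Z : ℝ) ^ 2 ≤ (N : ℝ) ^ (1 / 4 : ℝ) := by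
    calc (Z : ℝ) ^ 2 ≤ z ^ 2 := pow_le_pow_left₀ (by linarith) hZle 2
      _ = (N : ℝ) ^ (1 / 4 : ℝ) := by
        rw [hz, ← Real.rpow_natCast, ← Real.rpow_mul hN0'.le]
        norm_num
  have hone : (1 : ℝ) ≤ (N : ℝ) ^ (1 / 5 : ℝ) := Real.one_le_rpow hN1.le (by norm_num)
  have hB : (Z : ℝ) ^ 2 + (Z : ℝ) ^ 2 * (R : ℝ) ^ 4 ≤ 2 * (N : ℝ) ^ (9 / 20 : ℝ) := by
    have hm : (N : ℝ) ^ (9 / 20 : ℝ) = (N : ℝ) ^ (1 / 4 : ℝ) * (N : ℝ) ^ (1 / 5 : ℝ) := by
      rw [← Real.rpow_add hN0']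
      norm_num
    rw [hm]
    have hq : 0 ≤ (N : ℝ) ^ (1 / 4 : ℝ) := Real.rpow_nonneg hN0'.le _
    have e1 : (Z : ℝ) ^ 2 ≤ (N : ℝ) ^ (1 / 4 : ℝ) * (N : ℝ) ^ (1 / 5 : ℝ) :=
      hZsq.trans (le_mul_of_one_le_right hq hone)
    have e2 : (Z : ℝ) ^ 2 * (R : ℝ) ^ 4 ≤ (N : ℝ) ^ (1 / 4 : ℝ) * (N : ℝ) ^ (1 / 5 : ℝ) :=
      mul_le_mul hZsq hR4 (by positivity) hq
    linarith
  have hC : 2 * (N : ℝ) ^ (9 / 20 : ℝ) ≤ N / Real.log N := by
    rw [le_div_iff₀ hlN]
    calc 2 * (N : ℝ) ^ (9 / 20 : ℝ) * Real.log N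
        ≤ 2 * (N : ℝ) ^ (9 / 20 : ℝ) * ((1 / 2) * (N : ℝ) ^ (11 / 20 : ℝ)) :=
          mul_le_mul_of_nonneg_left h1 (by positivity)
      _ = (N : ℝ) ^ (9 / 20 : ℝ) * (N : ℝ) ^ (11 / 20 : ℝ) := by ring
      _ = N := by
        rw [← Real.rpow_add hN0']
        norm_num
  linarith

open Classical in
/-- large sieve for primes, all primitive characters of conductor at most `N^(1/20)`.

Proof. By `duality` (`s` = the primes of `[N, 2N)`, `t = PI R`, `x p χ = χ p`) it suffices to bound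
`∑_p ‖∑_{χ ∈ PI R} b χ χ p‖² ≤ ∑_{n ∈ Ico N 2N} nu lam Z n ‖∑ b χ χ n‖²`, where `Z = ⌊N^(1/8)⌋₊`,
`lam` from `sel_exists`, `nu_prime`, `nu_nonneg`. Expand the square of the norm: the diagonal
contributes at most `∑ ‖b χ‖² ∑_n nu n ≤ (N/log Z + Z²) ∑ ‖b‖²` (`nu_interval`); a pair `χ ≠ χ'`
contributes at most `‖b χ‖ ‖b χ'‖ Z² R²` by `nu_expand` (with `F n = n`,
`w n = χ n conj (χ' n)`), `|lam| ≤ 1` and `off_dvd`; in total
`Z² R² (∑ ‖b‖)² ≤ Z² R² #(PI R) ∑ ‖b‖² ≤ Z² R⁴ ∑ ‖b‖²` since `#(PI R) ≤ ∑_{D ≤ R} φ(D) ≤ R²`.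
For large `N` everything is at most `10 (N/log N) ∑ ‖b‖²`. -/
theorem pls : ∃ N0 : ℕ, ∀ N ≥ N0, ∀ R : ℕ, R ^ 20 ≤ N → ∀ a : ℕ → ℂ,
    ∑ D ∈ Finset.Icc 1 R, ∑ χ ∈ PC D,
      ‖∑ p ∈ (Finset.Ico N (2 * N)).filter Nat.Prime, a p * χ (p : ZMod D)‖ ^ 2 ≤
      10 * (N / Real.log N) * ∑ p ∈ (Finset.Ico N (2 * N)).filter Nat.Prime, ‖a p‖ ^ 2 := by
  obtain ⟨N0, hN2, hN0⟩ := cplb_num
  refine ⟨N0, fun N hN R hR a => ?_⟩
  obtain ⟨hZ2, hZN, hnum⟩ := hN0 N hN
  obtain ⟨Z, hZ⟩ : ∃ Z : ℕ, Z = ⌊(N : ℝ) ^ (1 / 8 : ℝ)⌋₊ := ⟨_, rfl⟩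
  rw [← hZ] at hZ2 hZN hnum
  obtain ⟨lam, hlam⟩ := sel_exists Z hZ2
  have hM : (0 : ℝ) ≤ 10 * (N / Real.log N) := by
    have : 0 ≤ Real.log N := Real.log_natCast_nonneg N
    positivity
  have key := duality ((Finset.Ico N (2 * N)).filter Nat.Prime) (PI R)
    (fun p y => y.2 (p : ZMod y.1)) (10 * (N / Real.log N)) hM (by
      intro b
      calc ∑ p ∈ (Finset.Ico N (2 * N)).filter Nat.Prime,
            ‖∑ y ∈ PI R, b y * y.2 (p : ZMod y.1)‖ ^ 2
          = ∑ p ∈ (Finset.Ico N (2 * N)).filter Nat.Prime, nu lam Z (p : ℤ) *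
            ‖∑ y ∈ PI R, b y * y.2 (p : ZMod y.1)‖ ^ 2 := by
            refine Finset.sum_congr rfl fun p hp => ?_
            rw [Finset.mem_filter, Finset.mem_Ico] at hp
            rw [nu_prime hlam (by omega) hp.2 (by omega), one_mul]
        _ ≤ ∑ n ∈ Finset.Ico N (2 * N), nu lam Z (n : ℤ) *
            ‖∑ y ∈ PI R, b y * y.2 (n : ZMod y.1)‖ ^ 2 :=
            Finset.sum_le_sum_of_subset_of_nonneg (Finset.filter_subset _ _)
              fun n _ _ => mul_nonneg (nu_nonneg _ _ _) (sq_nonneg _)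
        _ ≤ (N / Real.log Z + Z ^ 2 + Z ^ 2 * R ^ 4) * ∑ y ∈ PI R, ‖b y‖ ^ 2 :=
            cplb_main hlam N b
        _ ≤ 10 * (N / Real.log N) * ∑ y ∈ PI R, ‖b y‖ ^ 2 :=
            mul_le_mul_of_nonneg_right (hnum R hR)
              (Finset.sum_nonneg fun y _ => sq_nonneg _)) a
  unfold PI at key
  rw [Finset.sum_sigma] at key
  exact key

end

end Pool.Agent.Lib.MP_0b748d_nt.HHC
end

section

set_option autoImplicit false

/-!
# Mean square of the prime coefficients over small conductors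
-/

namespace Pool.Agent.Lib.MP_0b748d_nt.HHC

noncomputable section

/-- Proof. `Kc (kp c N) (cell N J i) χ = ∑_{p ∈ [N, 2N) prime} a p χ p` with
`a p = if p ∈ cell N J i then c p * log N else 0`, `|a p| ≤ log N`. By `pls` and `prime_count` the sum
is at most `10 (N/log N) * (log N)² * 5 N/log N = 50 N²`. -/
theorem kp_mean : ∃ N0 : ℕ, ∀ N ≥ N0, ∀ R : ℕ, R ^ 20 ≤ N → ∀ c : ℕ → ℝ, (∀ p, |c p| ≤ 1) →
    ∀ J i : ℕ, ∑ D ∈ Finset.Icc 1 R, ∑ χ ∈ PC D, ‖Kc (kp c N) (cell N J i) χ‖ ^ 2 ≤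
      50 * (N : ℝ) ^ 2 := by
  classical
  obtain ⟨N1, h1⟩ := pls
  obtain ⟨N2, h2⟩ := prime_count
  refine ⟨max (max N1 N2) 3, fun N hN R hR c hc J i => ?_⟩
  have hN1 : N1 ≤ N := le_trans (le_trans (le_max_left _ _) (le_max_left _ _)) hN
  have hN2 : N2 ≤ N := le_trans (le_trans (le_max_right _ _) (le_max_left _ _)) hN
  have hN3 : 3 ≤ N := le_trans (le_max_right _ _) hN
  have hNR : (1 : ℝ) < N := by exact_mod_cast (by omega : 1 < N)
  have hlog : 0 < Real.log N := Real.log_pos hNR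
  set a : ℕ → ℂ := fun p => if p ∈ cell N J i then ((c p * Real.log N : ℝ) : ℂ) else 0 with ha
  have hK : ∀ (D : ℕ) (χ : DirichletCharacter ℂ D), Kc (kp c N) (cell N J i) χ =
      ∑ p ∈ (Finset.Ico N (2 * N)).filter Nat.Prime, a p * χ (p : ZMod D) := by
    intro D χ
    unfold Kc
    have hs : cell N J i ⊆ Finset.Ico N (2 * N) := Finset.filter_subset _ _
    rw [Finset.sum_filter, ← Finset.sum_subset hs]
    · refine Finset.sum_congr rfl fun m hm => ?_
      have hm' := hs hm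
      rw [Finset.mem_Ico] at hm'
      by_cases hp : m.Prime
      · rw [if_pos hp]
        simp only [ha, kp]
        rw [if_pos hm, if_pos ⟨hp, hm'.1, hm'.2⟩]
      · rw [if_neg hp]
        simp only [kp]
        rw [if_neg (fun h => hp h.1)]
        simp
    · intro m _ hm
      simp only [ha]
      rw [if_neg hm]
      simp
  have h3 := h1 N hN1 R hR a
  have h4 : ∑ p ∈ (Finset.Ico N (2 * N)).filter Nat.Prime, ‖a p‖ ^ 2 ≤
      5 * (N / Real.log N) * (Real.log N) ^ 2 := by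
    calc ∑ p ∈ (Finset.Ico N (2 * N)).filter Nat.Prime, ‖a p‖ ^ 2
        ≤ ∑ p ∈ (Finset.Ico N (2 * N)).filter Nat.Prime, (Real.log N) ^ 2 := by
          refine Finset.sum_le_sum fun p _ => ?_
          refine pow_le_pow_left₀ (norm_nonneg _) ?_ 2
          simp only [ha]
          split_ifs
          · rw [Complex.norm_real, Real.norm_eq_abs, abs_mul, abs_of_pos hlog]
            exact mul_le_of_le_one_left hlog.le (hc p)
          · rw [norm_zero]; exact hlog.le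
      _ = (((Finset.Ico N (2 * N)).filter Nat.Prime).card : ℝ) * (Real.log N) ^ 2 := by
          rw [Finset.sum_const, nsmul_eq_mul]
      _ ≤ 5 * (N / Real.log N) * (Real.log N) ^ 2 :=
          mul_le_mul_of_nonneg_right (h2 N hN2) (sq_nonneg _)
  calc ∑ D ∈ Finset.Icc 1 R, ∑ χ ∈ PC D, ‖Kc (kp c N) (cell N J i) χ‖ ^ 2
      = ∑ D ∈ Finset.Icc 1 R, ∑ χ ∈ PC D,
        ‖∑ p ∈ (Finset.Ico N (2 * N)).filter Nat.Prime, a p * χ (p : ZMod D)‖ ^ 2 := by
        refine Finset.sum_congr rfl fun D _ => Finset.sum_congr rfl fun χ _ => ?_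
        rw [hK D χ]
    _ ≤ 10 * (N / Real.log N) * ∑ p ∈ (Finset.Ico N (2 * N)).filter Nat.Prime, ‖a p‖ ^ 2 := h3
    _ ≤ 10 * (N / Real.log N) * (5 * (N / Real.log N) * (Real.log N) ^ 2) :=
        mul_le_mul_of_nonneg_left h4 (by positivity)
    _ = 50 * (N : ℝ) ^ 2 := by
        field_simp
        norm_num

end

end Pool.Agent.Lib.MP_0b748d_nt.HHC
end

section

set_option autoImplicit false

/-!
# The model against primitive characters
-/

namespace Pool.Agent.Lib.MP_0b748d_nt.HHC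

noncomputable section

private theorem CkmD_mem {N J i m : ℕ} (hm : m ∈ cell N J i) :
    N ≤ m ∧ m < 2 * N ∧ ci N J m = i := by
  unfold cell at hm
  rw [Finset.mem_filter, Finset.mem_Ico] at hm
  exact ⟨hm.1.1, hm.1.2, hm.2⟩

private theorem CkmD_mono {N J m m' : ℕ} (h : m ≤ m') : ci N J m ≤ ci N J m' := by
  unfold ci
  exact Nat.div_le_div_right (Nat.mul_le_mul_right J (Nat.sub_le_sub_right h N))

/-- a cell is an interval: `m ↦ ci N J m` is monotone -/
theorem cell_Ico (N J i : ℕ) : ∃ x y : ℕ, cell N J i = Finset.Ico x y := by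
  by_cases h : (cell N J i).Nonempty
  · refine ⟨(cell N J i).min' h, (cell N J i).max' h + 1, ?_⟩
    ext m
    rw [Finset.mem_Ico]
    constructor
    · intro hm
      exact ⟨Finset.min'_le _ m hm, Nat.lt_succ_of_le (Finset.le_max' _ m hm)⟩
    · rintro ⟨h1, h2⟩
      obtain ⟨h3, h4, h5⟩ := CkmD_mem (Finset.min'_mem _ h)
      obtain ⟨h6, h7, h8⟩ := CkmD_mem (Finset.max'_mem _ h)
      have h9 := CkmD_mono (N := N) (J := J) h1
      have h10 := CkmD_mono (N := N) (J := J) (Nat.lt_succ_iff.1 h2)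
      rw [h5] at h9
      rw [h8] at h10
      unfold cell
      rw [Finset.mem_filter, Finset.mem_Ico]
      refine ⟨⟨h3.trans h1, ?_⟩, le_antisymm h10 h9⟩
      omega
  · rw [Finset.not_nonempty_iff_eq_empty] at h
    exact ⟨0, 0, by rw [h]; simp⟩

/-- Proof. On the cell `i`, `km c N J W m = b (m % W)` with
`b a = if a prime to W then (∑_{m' ∈ cc N J W i a} kp c N m') / #cc else 0`; if the cell is empty
there is nothing to prove, otherwise we may also put `b a = 0` for the `a` with no `m` of the cell in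
the class `a`, and then `|b a| ≤ 2 W/φ(W) ≤ 2 W` by `km_le` (take an `m` in the cell with
`m % W = a`). The cell is an interval (`cell_Ico`). If `D ∤ W`, use `cop_nd` with `B = 2W`. If
`D ∣ W`, use `cop_d`; the sum without coprimality condition is
`Kc (km …) (cell …) χ = Kc (kp …) (cell …) χ` by `ks_char` (`N > W`). -/
theorem km_char (J W : ℕ) (hJ : 1 ≤ J) (hW : 1 ≤ W) : ∃ N0 : ℕ, ∀ N ≥ N0, ∀ c : ℕ → ℝ,
    (∀ p, |c p| ≤ 1) → ∀ (i D : ℕ), 1 ≤ D → ∀ χ ∈ PC D, ∀ k : ℕ, 1 ≤ k →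
    ‖Kc (km c N J W) ((cell N J i).filter (fun m => Nat.Coprime m k)) χ‖ ≤
      ‖Kc (kp c N) (cell N J i) χ‖ + 4 * W ^ 2 * D * k.divisors.card := by
  classical
  obtain ⟨N0, hN0⟩ := km_le J W hJ hW
  refine ⟨N0 + W + 1, fun N hN c hc i D hD χ hχ k hk => ?_⟩
  have hχp : χ.IsPrimitive := (Finset.mem_filter.1 hχ).2
  have hkm := hN0 N (by omega) c hc
  obtain ⟨x, y, hxy⟩ := cell_Ico N J i
  obtain ⟨b, hb⟩ : ∃ b : ℕ → ℝ, ∀ a, b a =
      if Nat.Coprime a W ∧ (cc N J W i a).Nonempty then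
        (∑ m' ∈ cc N J W i a, kp c N m') / (cc N J W i a).card else 0 := ⟨_, fun a => rfl⟩
  have hcop : ∀ m, (Nat.Coprime m W ↔ Nat.Coprime (m % W) W) := by
    intro m
    have h2 : Nat.gcd (m % W) W = Nat.gcd m W := (Nat.mod_modEq m W).gcd_eq
    unfold Nat.Coprime
    rw [h2]
  have hval : ∀ m ∈ cell N J i, km c N J W m = b (m % W) := by
    intro m hm
    obtain ⟨h1, h2, h3⟩ := CkmD_mem hm
    have h4 : (cc N J W i (m % W)).Nonempty :=
      ⟨m, by unfold cc; rw [Finset.mem_filter]; exact ⟨hm, rfl⟩⟩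
    rw [hb]
    unfold km
    rw [h3]
    by_cases hc' : Nat.Coprime m W
    · rw [if_pos ⟨h1, h2, hc'⟩, if_pos ⟨(hcop m).1 hc', h4⟩]
    · rw [if_neg fun h => hc' h.2.2, if_neg fun h => hc' ((hcop m).2 h.1)]
  have hW' : (1 : ℝ) ≤ W := by exact_mod_cast hW
  have hφ : (1 : ℝ) ≤ Nat.totient W := by
    exact_mod_cast Nat.totient_pos.2 (by omega : 0 < W)
  have hbB : ∀ a, |b a| ≤ 2 * (W : ℝ) := by
    intro a
    by_cases h : Nat.Coprime a W ∧ (cc N J W i a).Nonempty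
    · obtain ⟨m, hm⟩ := h.2
      unfold cc at hm
      rw [Finset.mem_filter] at hm
      rw [← hm.2, ← hval m hm.1]
      refine (hkm m).trans ?_
      rw [div_le_iff₀ (by linarith)]
      nlinarith
    · rw [hb, if_neg h, abs_zero]
      linarith
  have hb0 : ∀ a, ¬ Nat.Coprime a W → b a = 0 := by
    intro a ha
    rw [hb, if_neg fun h => ha h.1]
  have hsum : Kc (km c N J W) ((cell N J i).filter (fun m => Nat.Coprime m k)) χ =
      ∑ m ∈ (Finset.Ico x y).filter (fun m => Nat.Coprime m k),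
        (b (m % W) : ℂ) * χ (m : ZMod D) := by
    unfold Kc
    rw [← hxy]
    refine Finset.sum_congr rfl fun m hm => ?_
    rw [hval m (Finset.mem_filter.1 hm).1]
  have hsum' : Kc (km c N J W) (cell N J i) χ =
      ∑ m ∈ Finset.Ico x y, (b (m % W) : ℂ) * χ (m : ZMod D) := by
    unfold Kc
    rw [← hxy]
    refine Finset.sum_congr rfl fun m hm => ?_
    rw [hval m hm]
  have hD' : (1 : ℝ) ≤ D := by exact_mod_cast hD
  have hdc : (0 : ℝ) ≤ k.divisors.card := Nat.cast_nonneg _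
  obtain ⟨q, hq⟩ : ∃ q : ℝ, (k.divisors.card : ℝ) = q := ⟨_, rfl⟩
  rw [hq] at hdc
  rw [hsum, hq]
  by_cases hDW : D ∣ W
  · refine (cop_d hD χ hW hDW b hbB hb0 x y k hk).trans ?_
    rw [hq]
    have h1 : Kc (kp c N) (cell N J i) χ = Kc (km c N J W) (cell N J i) χ := by
      have h2 := ks_char c (J := J) hW (by omega : W < N) hDW i χ
      have h3 : Kc (ks c N J W) (cell N J i) χ =
          Kc (kp c N) (cell N J i) χ - Kc (km c N J W) (cell N J i) χ := by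
        unfold Kc
        rw [← Finset.sum_sub_distrib]
        refine Finset.sum_congr rfl fun m _ => ?_
        unfold ks
        push_cast
        ring
      rw [h3] at h2
      exact sub_eq_zero.1 h2
    rw [h1, hsum']
    have h4 : 2 * (2 * (W : ℝ)) * W * q ≤
        4 * (W : ℝ) ^ 2 * D * q := by
      have h5 : (0 : ℝ) ≤ 4 * (W : ℝ) ^ 2 * q := by positivity
      calc 2 * (2 * (W : ℝ)) * W * q = 4 * (W : ℝ) ^ 2 * q * 1 := by
            ring
        _ ≤ 4 * (W : ℝ) ^ 2 * q * D := mul_le_mul_of_nonneg_left hD' h5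
        _ = 4 * (W : ℝ) ^ 2 * D * q := by ring
    linarith
  · refine (cop_nd hD χ hχp hW hDW b hbB x y k hk).trans ?_
    rw [hq]
    have h4 : 2 * (W : ℝ) * W * D * q ≤
        4 * (W : ℝ) ^ 2 * D * q := by
      have h5 : (0 : ℝ) ≤ (W : ℝ) ^ 2 * D * q := by positivity
      nlinarith
    have h6 := norm_nonneg (Kc (kp c N) (cell N J i) χ)
    linarith

end

end Pool.Agent.Lib.MP_0b748d_nt.HHC
end

section

set_option autoImplicit false

/-!
# The difference against primitive characters of small conductor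
-/

namespace Pool.Agent.Lib.MP_0b748d_nt.HHC

noncomputable section

private theorem kmE_diff {C0 : ℝ} {N J : ℕ} (hN1 : 1 ≤ N) (hNC : C0 < N) (c : ℕ → ℝ)
    (hc : ∀ p, |c p| ≤ 1) (i D : ℕ) (χ : DirichletCharacter ℂ D) (k : ℕ) (hk : 1 ≤ k)
    (hkN : (k : ℝ) ≤ C0 * N) :
    ‖Kc (kp c N) ((cell N J i).filter (fun m => Nat.Coprime m k)) χ‖ ≤
      ‖Kc (kp c N) (cell N J i) χ‖ + Real.log N := by
  classical
  have hlog : 0 ≤ Real.log N := Real.log_natCast_nonneg N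
  have h1 : Kc (kp c N) (cell N J i) χ =
      Kc (kp c N) ((cell N J i).filter (fun m => Nat.Coprime m k)) χ +
      ∑ m ∈ (cell N J i).filter (fun m => ¬ Nat.Coprime m k), (kp c N m : ℂ) * χ (m : ZMod D) := by
    unfold Kc
    exact (Finset.sum_filter_add_sum_filter_not _ _ _).symm
  have h2 : ∑ m ∈ (cell N J i).filter (fun m => ¬ Nat.Coprime m k),
      (kp c N m : ℂ) * χ (m : ZMod D) =
      ∑ m ∈ ((cell N J i).filter (fun m => ¬ Nat.Coprime m k)).filter (fun m => m.Prime),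
      (kp c N m : ℂ) * χ (m : ZMod D) := by
    rw [Finset.sum_filter (fun m : ℕ => m.Prime)]
    refine Finset.sum_congr rfl fun m _ => ?_
    by_cases hm : m.Prime
    · rw [if_pos hm]
    · rw [if_neg hm]
      have : kp c N m = 0 := by
        unfold kp
        exact if_neg fun h => hm h.1
      rw [this, Complex.ofReal_zero, zero_mul]
  have hmem : ∀ m ∈ ((cell N J i).filter (fun m => ¬ Nat.Coprime m k)).filter (fun m => m.Prime),
      N ≤ m ∧ m.Prime ∧ m ∣ k := by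
    intro m hm
    rw [Finset.mem_filter, Finset.mem_filter] at hm
    obtain ⟨⟨h3, h4⟩, h5⟩ := hm
    unfold cell at h3
    rw [Finset.mem_filter, Finset.mem_Ico] at h3
    refine ⟨h3.1.1, h5, ?_⟩
    by_contra h6
    exact h4 ((Nat.Prime.coprime_iff_not_dvd h5).2 h6)
  have hcard : (((cell N J i).filter (fun m => ¬ Nat.Coprime m k)).filter
      (fun m => m.Prime)).card ≤ 1 := by
    rw [Finset.card_le_one]
    intro a ha b hb
    by_contra hab
    obtain ⟨ha1, ha2, ha3⟩ := hmem a ha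
    obtain ⟨hb1, hb2, hb3⟩ := hmem b hb
    have h3 : a * b ∣ k := ((Nat.coprime_primes ha2 hb2).2 hab).mul_dvd_of_dvd_of_dvd ha3 hb3
    have h4 : N * N ≤ k := (Nat.mul_le_mul ha1 hb1).trans (Nat.le_of_dvd hk h3)
    have h5 : (N : ℝ) * N ≤ k := by exact_mod_cast h4
    have h6 : (0 : ℝ) < N := by exact_mod_cast hN1
    have h7 : C0 * (N : ℝ) < N * N := mul_lt_mul_of_pos_right hNC h6
    linarith
  have hterm : ∀ m ∈ ((cell N J i).filter (fun m => ¬ Nat.Coprime m k)).filter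
      (fun m => m.Prime), ‖(kp c N m : ℂ) * χ (m : ZMod D)‖ ≤ Real.log N := by
    intro m _
    rw [norm_mul, Complex.norm_real, Real.norm_eq_abs]
    have h3 : |kp c N m| ≤ Real.log N := by
      unfold kp
      split_ifs
      · rw [abs_mul, abs_of_nonneg hlog]
        calc |c m| * Real.log N ≤ 1 * Real.log N := mul_le_mul_of_nonneg_right (hc m) hlog
          _ = Real.log N := one_mul _
      · rw [abs_zero]
        exact hlog
    calc |kp c N m| * ‖χ (m : ZMod D)‖ ≤ Real.log N * 1 :=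
          mul_le_mul h3 (DirichletCharacter.norm_le_one _ _) (norm_nonneg _) hlog
      _ = Real.log N := mul_one _
  have h3 : ‖∑ m ∈ (cell N J i).filter (fun m => ¬ Nat.Coprime m k),
      (kp c N m : ℂ) * χ (m : ZMod D)‖ ≤ Real.log N := by
    rw [h2]
    refine (norm_sum_le _ _).trans ((Finset.sum_le_sum hterm).trans ?_)
    rw [Finset.sum_const, nsmul_eq_mul]
    calc _ ≤ (1 : ℝ) * Real.log N := mul_le_mul_of_nonneg_right (by exact_mod_cast hcard) hlog
      _ = Real.log N := one_mul _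
  have h4 : Kc (kp c N) ((cell N J i).filter (fun m => Nat.Coprime m k)) χ =
      Kc (kp c N) (cell N J i) χ -
      ∑ m ∈ (cell N J i).filter (fun m => ¬ Nat.Coprime m k), (kp c N m : ℂ) * χ (m : ZMod D) := by
    rw [h1]
    ring
  rw [h4]
  exact (norm_sub_le _ _).trans (by linarith)

private theorem kmE_num {C0 : ℝ} (hC0 : 1 ≤ C0) {W N D k : ℕ} (hN1 : 1 ≤ N)
    (hN : (2 * (2 + 8 * (W : ℝ) ^ 2 * √C0) ^ 2) ^ 5 ≤ N) (hD : D ^ 20 ≤ N)
    (hkN : (k : ℝ) ≤ C0 * N) :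
    2 * (Real.log N + 4 * (W : ℝ) ^ 2 * D * k.divisors.card) ^ 2 ≤ (N : ℝ) ^ (13 / 10 : ℝ) := by
  have hN0 : (0 : ℝ) < N := by exact_mod_cast hN1
  obtain ⟨c1, hc1⟩ : ∃ c1 : ℝ, c1 = 2 + 8 * (W : ℝ) ^ 2 * √C0 := ⟨_, rfl⟩
  rw [← hc1] at hN
  have hc0 : 0 ≤ c1 := by
    rw [hc1]
    positivity
  have hDN : (D : ℝ) ≤ (N : ℝ) ^ (1 / 20 : ℝ) := by
    have h1 : ((D : ℝ) ^ 20) ^ (((20 : ℕ) : ℝ)⁻¹) = D :=
      Real.pow_rpow_inv_natCast (Nat.cast_nonneg D) (by norm_num)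
    have h2 : (D : ℝ) ^ 20 ≤ N := by exact_mod_cast hD
    calc (D : ℝ) = ((D : ℝ) ^ 20) ^ (((20 : ℕ) : ℝ)⁻¹) := h1.symm
      _ ≤ (N : ℝ) ^ (((20 : ℕ) : ℝ)⁻¹) := Real.rpow_le_rpow (by positivity) h2 (by positivity)
      _ = (N : ℝ) ^ (1 / 20 : ℝ) := by norm_num
  have hdk : (k.divisors.card : ℝ) ≤ 2 * (√C0 * (N : ℝ) ^ (1 / 2 : ℝ)) := by
    refine (div_card k).trans ?_
    rw [← Real.sqrt_eq_rpow, ← Real.sqrt_mul (by linarith)]
    exact mul_le_mul_of_nonneg_left (Real.sqrt_le_sqrt hkN) (by norm_num)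
  have hlog : Real.log N ≤ 2 * (N : ℝ) ^ (11 / 20 : ℝ) := by
    have h1 := Real.log_le_rpow_div (x := (N : ℝ)) hN0.le (ε := 11 / 20) (by norm_num)
    have h2 : 0 ≤ (N : ℝ) ^ (11 / 20 : ℝ) := by positivity
    refine h1.trans ?_
    rw [div_le_iff₀ (by norm_num)]
    nlinarith
  have hlog0 : 0 ≤ Real.log N := Real.log_natCast_nonneg N
  have hE : Real.log N + 4 * (W : ℝ) ^ 2 * D * k.divisors.card ≤ c1 * (N : ℝ) ^ (11 / 20 : ℝ) := by
    have h1 : 4 * (W : ℝ) ^ 2 * D * k.divisors.card ≤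
        4 * (W : ℝ) ^ 2 * (N : ℝ) ^ (1 / 20 : ℝ) * (2 * (√C0 * (N : ℝ) ^ (1 / 2 : ℝ))) := by
      gcongr
    have h2 : (N : ℝ) ^ (1 / 20 : ℝ) * (N : ℝ) ^ (1 / 2 : ℝ) = (N : ℝ) ^ (11 / 20 : ℝ) := by
      rw [← Real.rpow_add hN0]
      norm_num
    have h3 : 4 * (W : ℝ) ^ 2 * (N : ℝ) ^ (1 / 20 : ℝ) * (2 * (√C0 * (N : ℝ) ^ (1 / 2 : ℝ))) =
        8 * (W : ℝ) ^ 2 * √C0 * ((N : ℝ) ^ (1 / 20 : ℝ) * (N : ℝ) ^ (1 / 2 : ℝ)) := by ring
    rw [h3, h2] at h1
    rw [hc1]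
    linarith
  have hE0 : 0 ≤ Real.log N + 4 * (W : ℝ) ^ 2 * D * k.divisors.card := by positivity
  have h1 : (Real.log N + 4 * (W : ℝ) ^ 2 * D * k.divisors.card) ^ 2 ≤
      (c1 * (N : ℝ) ^ (11 / 20 : ℝ)) ^ 2 := pow_le_pow_left₀ hE0 hE 2
  have h2 : (c1 * (N : ℝ) ^ (11 / 20 : ℝ)) ^ 2 = c1 ^ 2 * (N : ℝ) ^ (11 / 10 : ℝ) := by
    rw [mul_pow, ← Real.rpow_natCast ((N : ℝ) ^ (11 / 20 : ℝ)), ← Real.rpow_mul hN0.le]
    norm_num
  have h3 : 2 * c1 ^ 2 ≤ (N : ℝ) ^ (1 / 5 : ℝ) := by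
    have h4 : ((2 * c1 ^ 2) ^ 5) ^ (((5 : ℕ) : ℝ)⁻¹) = 2 * c1 ^ 2 :=
      Real.pow_rpow_inv_natCast (by positivity) (by norm_num)
    calc 2 * c1 ^ 2 = ((2 * c1 ^ 2) ^ 5) ^ (((5 : ℕ) : ℝ)⁻¹) := h4.symm
      _ ≤ (N : ℝ) ^ (((5 : ℕ) : ℝ)⁻¹) := Real.rpow_le_rpow (by positivity) hN (by positivity)
      _ = (N : ℝ) ^ (1 / 5 : ℝ) := by norm_num
  calc 2 * (Real.log N + 4 * (W : ℝ) ^ 2 * D * k.divisors.card) ^ 2 ≤
      2 * (c1 ^ 2 * (N : ℝ) ^ (11 / 10 : ℝ)) := by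
        rw [← h2]
        exact mul_le_mul_of_nonneg_left h1 (by norm_num)
    _ = (2 * c1 ^ 2) * (N : ℝ) ^ (11 / 10 : ℝ) := by ring
    _ ≤ (N : ℝ) ^ (1 / 5 : ℝ) * (N : ℝ) ^ (11 / 10 : ℝ) :=
      mul_le_mul_of_nonneg_right h3 (by positivity)
    _ = (N : ℝ) ^ (13 / 10 : ℝ) := by
      rw [← Real.rpow_add hN0]
      norm_num

/-- Proof. Let `s` be the part of the cell prime to `k`. `Kc ks s χ = Kc kp s χ - Kc km s χ`. The sums
`Kc kp s χ` and `Kc kp (cell) χ` differ by the terms with `m` prime, `m ≥ N`, `m ∣ k` (a prime `m`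
not prime to `k` divides it); there is at most one such `m` because `k ≤ C0 N < N²`; so the difference
is at most `log N`. With `km_char` and `div_card`, `k ≤ C0 N`, `D ≤ N^(1/20)`:
`‖Kc ks s χ‖ ≤ 2 ‖Kc kp (cell) χ‖ + log N + 8 W² N^(1/20) √(C0 N)`, and
`(log N + 8 W² √C0 N^(11/20))² ≤ N^(13/10) / 2` for large `N`. Use `(a + b)² ≤ 2 a² + 2 b²`. -/
theorem kb (C0 : ℝ) (hC0 : 1 ≤ C0) (J W : ℕ) (hJ : 1 ≤ J) (hW : 1 ≤ W) : ∃ N0 : ℕ, ∀ N ≥ N0,
    ∀ c : ℕ → ℝ, (∀ p, |c p| ≤ 1) → ∀ (i D : ℕ), 1 ≤ D → D ^ 20 ≤ N → ∀ χ ∈ PC D,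
    ∀ k : ℕ, 1 ≤ k → (k : ℝ) ≤ C0 * N →
    ‖Kc (ks c N J W) ((cell N J i).filter (fun m => Nat.Coprime m k)) χ‖ ^ 2 ≤
      8 * ‖Kc (kp c N) (cell N J i) χ‖ ^ 2 + (N : ℝ) ^ (13 / 10 : ℝ) := by
  obtain ⟨N1, hN1⟩ := km_char J W hJ hW
  obtain ⟨N2, hN2⟩ := exists_nat_gt C0
  obtain ⟨N3, hN3⟩ := exists_nat_ge ((2 * (2 + 8 * (W : ℝ) ^ 2 * √C0) ^ 2) ^ 5)
  refine ⟨N1 + N2 + N3 + 1, fun N hN c hc i D hD1 hD χ hχ k hk hkN => ?_⟩
  have hN1' : 1 ≤ N := by omega
  have hNC : C0 < N := hN2.trans_le (by exact_mod_cast (by omega : N2 ≤ N))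
  have hN3' : (2 * (2 + 8 * (W : ℝ) ^ 2 * √C0) ^ 2) ^ 5 ≤ (N : ℝ) :=
    hN3.trans (by exact_mod_cast (by omega : N3 ≤ N))
  have h1 := kmE_diff (J := J) hN1' hNC c hc i D χ k hk hkN
  have h2 := hN1 N (by omega) c hc i D hD1 χ hχ k hk
  have h3 : Kc (ks c N J W) ((cell N J i).filter (fun m => Nat.Coprime m k)) χ =
      Kc (kp c N) ((cell N J i).filter (fun m => Nat.Coprime m k)) χ -
      Kc (km c N J W) ((cell N J i).filter (fun m => Nat.Coprime m k)) χ := by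
    unfold Kc ks
    rw [← Finset.sum_sub_distrib]
    refine Finset.sum_congr rfl fun m _ => ?_
    push_cast
    ring
  have h4 := kmE_num hC0 (W := W) hN1' hN3' hD hkN
  obtain ⟨X, hX⟩ : ∃ X, X = ‖Kc (kp c N) (cell N J i) χ‖ := ⟨_, rfl⟩
  obtain ⟨E, hE⟩ : ∃ E, E = Real.log N + 4 * (W : ℝ) ^ 2 * D * k.divisors.card := ⟨_, rfl⟩
  rw [← hX] at h1 h2 ⊢
  rw [← hE] at h4
  have h5 : ‖Kc (ks c N J W) ((cell N J i).filter (fun m => Nat.Coprime m k)) χ‖ ≤ 2 * X + E := by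
    rw [h3]
    refine (norm_sub_le _ _).trans ?_
    rw [hE]
    linarith
  have h6 : ‖Kc (ks c N J W) ((cell N J i).filter (fun m => Nat.Coprime m k)) χ‖ ^ 2 ≤
      (2 * X + E) ^ 2 := pow_le_pow_left₀ (norm_nonneg _) h5 2
  nlinarith [sq_nonneg (2 * X - E)]

end

end Pool.Agent.Lib.MP_0b748d_nt.HHC
end

section

set_option autoImplicit false

/-!
# Medium conductors
-/

namespace Pool.Agent.Lib.MP_0b748d_nt.HHC

noncomputable section

private theorem crbB_log (L : ℕ) : (1 + L) ^ 2 ≤ 4 * 2 ^ L := by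
  induction L with
  | zero => norm_num
  | succ L ih =>
    rcases Nat.lt_or_ge L 2 with h | h
    · interval_cases L <;> norm_num
    · have h2 : 2 ^ (L + 1) = 2 * 2 ^ L := by ring
      rw [h2]
      nlinarith

private theorem crbB_phi (d : ℕ) (hd : 1 ≤ d) : Real.sqrt d ≤ 2 * Nat.totient d := by
  have hφ : (0 : ℝ) < Nat.totient d := by exact_mod_cast Nat.totient_pos.2 hd
  have hd0 : (0 : ℝ) < d := by exact_mod_cast hd
  have h1 := phi_low d hd
  have h2 : (1 + (Nat.log 2 d : ℝ)) ≤ 2 * Real.sqrt d := by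
    have h3 := crbB_log (Nat.log 2 d)
    have h4 : 2 ^ Nat.log 2 d ≤ d := Nat.pow_log_le_self 2 (by omega)
    have h5 : (1 + Nat.log 2 d) ^ 2 ≤ 4 * d := h3.trans (Nat.mul_le_mul_left 4 h4)
    have h6 : (1 + (Nat.log 2 d : ℝ)) ^ 2 ≤ 4 * d := by exact_mod_cast h5
    have h7 : Real.sqrt ((1 + (Nat.log 2 d : ℝ)) ^ 2) ≤ Real.sqrt (4 * d) := Real.sqrt_le_sqrt h6
    rw [Real.sqrt_sq (by positivity), Real.sqrt_mul (by norm_num)] at h7
    have h8 : Real.sqrt 4 = 2 := by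
      rw [show (4 : ℝ) = 2 ^ 2 by norm_num, Real.sqrt_sq (by norm_num)]
    rw [h8] at h7
    exact h7
  have h3 : (d : ℝ) ≤ 2 * Real.sqrt d * Nat.totient d :=
    h1.trans (mul_le_mul_of_nonneg_right h2 hφ.le)
  have hs : 0 < Real.sqrt d := Real.sqrt_pos.2 hd0
  have hss : Real.sqrt d * Real.sqrt d = d := Real.mul_self_sqrt hd0.le
  have h6 : Real.sqrt d * Real.sqrt d ≤ Real.sqrt d * (2 * Nat.totient d) := by
    rw [hss]
    linarith
  exact le_of_mul_le_mul_left h6 hs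

private theorem crbB_norm {f : ℕ → ℝ} {N : ℕ} (h : ∑ m ∈ Finset.Ico N (2 * N), |f m| ≤ 10 * N)
    {s : Finset ℕ} (hs : s ⊆ Finset.Ico N (2 * N)) {n : ℕ} (χ : DirichletCharacter ℂ n) :
    ‖Kc f s χ‖ ^ 2 ≤ 100 * (N : ℝ) ^ 2 := by
  have h1 : ‖Kc f s χ‖ ≤ 10 * N := by
    calc ‖Kc f s χ‖ ≤ ∑ m ∈ s, ‖(f m : ℂ) * χ (m : ZMod n)‖ := norm_sum_le _ _
      _ ≤ ∑ m ∈ s, |f m| := by
          refine Finset.sum_le_sum fun m _ => ?_
          rw [norm_mul, Complex.norm_real, Real.norm_eq_abs]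
          calc |f m| * ‖χ (m : ZMod n)‖ ≤ |f m| * 1 :=
                mul_le_mul_of_nonneg_left (χ.norm_le_one _) (abs_nonneg _)
            _ = |f m| := mul_one _
      _ ≤ ∑ m ∈ Finset.Ico N (2 * N), |f m| :=
          Finset.sum_le_sum_of_subset_of_nonneg hs fun m _ _ => abs_nonneg _
      _ ≤ 10 * N := h
  calc ‖Kc f s χ‖ ^ 2 ≤ (10 * (N : ℝ)) ^ 2 := pow_le_pow_left₀ (norm_nonneg _) h1 2
    _ = 100 * (N : ℝ) ^ 2 := by ring

open Classical in
/-- characters of medium conductor.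

Proof. Let `C1` be the constant of `sum_inv_phi`. By `cond_sum`
(`P D = (r < D ∧ D^20 ≤ N)`), `‖Kc ks (…) χ‖ ≤ 10 N` for the second factor (`ks_sum`, the cell is in
`[N, 2N)`), and `kb` for the first (`k = δ/D ≤ C0 N`), the left side is at most
`∑_{r < D ≤ R} (∑_{δ ∈ DR, D ∣ δ} 1/φ δ) ∑_{χ ∈ PC D} (8 ‖Kc kp (cell) χ‖² + N^(13/10)) * 100 N²`,
where `R = Nat.floor (N^(1/20))` (the largest `R` with `R^20 ≤ N`). By `sum_inv_phi` (`A = η N`,
`B = C0 N`) and `phi_low` with `1 + log₂ D ≤ 2 √D`, the inner sum over `δ` is at most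
`C1 (C0/η)/φ D ≤ 2 C1 (C0/η)/√D ≤ 2 C1 (C0/η)/√r`. By `kp_mean` and `PC_card`
(`∑_{D ≤ R} #PC D ≤ R² ≤ N^(1/10)`) we get
`2 C1 (C0/η)/√r * 100 N² * (8 * 50 N² + N^(14/10)) ≤ (10^5 C1 C0/η)/√r * N⁴` for large `N`. -/
theorem R2 (C0 η : ℝ) (hC0 : 1 ≤ C0) (hη : 0 < η) (hη1 : η ≤ 1) : ∃ C : ℝ, 1 ≤ C ∧
    ∀ r J W : ℕ, 1 ≤ r → 1 ≤ J → 1 ≤ W → ∃ N0 : ℕ, ∀ N ≥ N0, ∀ c : ℕ → ℝ, (∀ p, |c p| ≤ 1) →
    ∀ i j : ℕ, ∑ δ ∈ DR C0 η N, (1 / (Nat.totient δ : ℝ)) *
      ∑ χ ∈ (Finset.univ : Finset (DirichletCharacter ℂ δ)).filter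
        (fun χ => r < χ.conductor ∧ χ.conductor ^ 20 ≤ N),
        ‖Kc (ks c N J W) (cell N J i) χ‖ ^ 2 * ‖Kc (ks c N J W) (cell N J j) χ‖ ^ 2 ≤
      C / √r * (N : ℝ) ^ 4 := by
  obtain ⟨C1, hC1, hphi⟩ := sum_inv_phi
  obtain ⟨Na, hNa⟩ := kp_mean
  obtain ⟨Nc, hNc⟩ := ks_sum
  have hq1 : 1 ≤ C0 / η := by
    rw [le_div_iff₀ hη]
    linarith
  refine ⟨80200 * (C1 * (C0 / η)), by nlinarith, ?_⟩
  intro r J W hr hJ hW
  obtain ⟨Nb, hNb⟩ := kb C0 hC0 J W hJ hW
  refine ⟨max (max Na Nb) (max Nc 1), fun N hN c hc i j => ?_⟩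
  have hN1 : Na ≤ N := le_trans (le_trans (le_max_left _ _) (le_max_left _ _)) hN
  have hN2 : Nb ≤ N := le_trans (le_trans (le_max_right _ _) (le_max_left _ _)) hN
  have hN3 : Nc ≤ N := le_trans (le_trans (le_max_left _ _) (le_max_right _ _)) hN
  have hN4 : 1 ≤ N := le_trans (le_trans (le_max_right _ _) (le_max_right _ _)) hN
  have hNR : (1 : ℝ) ≤ N := by exact_mod_cast hN4
  have hNR0 : (0 : ℝ) < N := by linarith
  -- the bound for `D`
  set R := Nat.findGreatest (fun R => R ^ 20 ≤ N) N with hR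
  have hR20 : R ^ 20 ≤ N := by
    have := Nat.findGreatest_spec (P := fun R => R ^ 20 ≤ N) (Nat.zero_le N)
      (by simp)
    exact this
  have hDR : ∀ D : ℕ, D ^ 20 ≤ N → D ≤ R := by
    intro D hD
    refine Nat.le_findGreatest ?_ hD
    exact (Nat.le_self_pow (by norm_num) D).trans hD
  have hRD : ∀ D : ℕ, D ≤ R → D ^ 20 ≤ N := fun D hD => (Nat.pow_le_pow_left hD 20).trans hR20
  set f := ks c N J W with hf
  set V : ℕ → ℝ := fun D => ∑ χ ∈ PC D,
    (8 * ‖Kc (kp c N) (cell N J i) χ‖ ^ 2 + (N : ℝ) ^ (13 / 10 : ℝ)) * (100 * (N : ℝ) ^ 2) with hV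
  have hV0 : ∀ D, 0 ≤ V D := fun D => Finset.sum_nonneg fun χ _ => by positivity
  have hDRmem : ∀ δ ∈ DR C0 η N, 1 ≤ δ ∧ (δ : ℝ) ≤ C0 * N ∧ η * N ≤ δ := by
    intro δ hδ
    rw [DR, Finset.mem_filter, Finset.mem_Icc] at hδ
    exact ⟨hδ.1.1, (Nat.le_floor_iff (by positivity)).1 hδ.1.2, hδ.2⟩
  have hcell : ∀ l, cell N J l ⊆ Finset.Ico N (2 * N) := fun l => Finset.filter_subset _ _
  have hstep1 : ∑ δ ∈ DR C0 η N, (1 / (Nat.totient δ : ℝ)) *
      ∑ χ ∈ (Finset.univ : Finset (DirichletCharacter ℂ δ)).filter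
        (fun χ => r < χ.conductor ∧ χ.conductor ^ 20 ≤ N),
        ‖Kc f (cell N J i) χ‖ ^ 2 * ‖Kc f (cell N J j) χ‖ ^ 2 ≤
      ∑ δ ∈ DR C0 η N, (1 / (Nat.totient δ : ℝ)) *
        ∑ D ∈ δ.divisors.filter (fun D => r < D ∧ D ^ 20 ≤ N), ∑ χ ∈ PC D,
      ‖Kc f ((cell N J i).filter (fun m => Nat.Coprime m (δ / D))) χ‖ ^ 2 *
        ‖Kc f ((cell N J j).filter (fun m => Nat.Coprime m (δ / D))) χ‖ ^ 2 := by
    have h := cond_sum f (cell N J i) (cell N J j) (DR C0 η N) (fun δ hδ => (hDRmem δ hδ).1)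
      (fun D => r < D ∧ D ^ 20 ≤ N)
    refine le_trans (le_of_eq ?_) (h.trans (le_of_eq ?_))
    · refine Finset.sum_congr rfl fun δ _ => ?_
      refine congrArg (fun z => (1 / (Nat.totient δ : ℝ)) * z) ?_
      refine Finset.sum_congr ?_ fun _ _ => rfl
      ext χ
      simp only [Finset.mem_filter]
    · refine Finset.sum_congr rfl fun δ _ => ?_
      refine congrArg (fun z => (1 / (Nat.totient δ : ℝ)) * z) ?_
      refine Finset.sum_congr ?_ fun _ _ => rfl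
      ext D
      simp only [Finset.mem_filter]
  refine hstep1.trans ?_
  have hstep2 : ∀ δ ∈ DR C0 η N, (1 / (Nat.totient δ : ℝ)) *
        ∑ D ∈ δ.divisors.filter (fun D => r < D ∧ D ^ 20 ≤ N), ∑ χ ∈ PC D,
      ‖Kc f ((cell N J i).filter (fun m => Nat.Coprime m (δ / D))) χ‖ ^ 2 *
        ‖Kc f ((cell N J j).filter (fun m => Nat.Coprime m (δ / D))) χ‖ ^ 2 ≤
      ∑ D ∈ Finset.Icc 1 R, if D ∣ δ ∧ r < D then (1 / (Nat.totient δ : ℝ)) * V D else 0 := by
    intro δ hδ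
    obtain ⟨hδ1, hδ2, hδ3⟩ := hDRmem δ hδ
    rw [← Finset.sum_filter, ← Finset.mul_sum]
    refine mul_le_mul_of_nonneg_left ?_ (by positivity)
    calc ∑ D ∈ δ.divisors.filter (fun D => r < D ∧ D ^ 20 ≤ N), ∑ χ ∈ PC D,
        ‖Kc f ((cell N J i).filter (fun m => Nat.Coprime m (δ / D))) χ‖ ^ 2 *
          ‖Kc f ((cell N J j).filter (fun m => Nat.Coprime m (δ / D))) χ‖ ^ 2
        ≤ ∑ D ∈ δ.divisors.filter (fun D => r < D ∧ D ^ 20 ≤ N), V D := by
          refine Finset.sum_le_sum fun D hD => Finset.sum_le_sum fun χ hχ => ?_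
          rw [Finset.mem_filter, Nat.mem_divisors] at hD
          obtain ⟨⟨hD1, hD2⟩, hD3, hD4⟩ := hD
          have hDpos : 0 < D := Nat.pos_of_dvd_of_pos hD1 (by omega)
          have hk1 : 1 ≤ δ / D := Nat.div_pos (Nat.le_of_dvd (by omega) hD1) hDpos
          have hk2 : ((δ / D : ℕ) : ℝ) ≤ C0 * N := by
            refine le_trans ?_ hδ2
            exact_mod_cast Nat.div_le_self δ D
          have e1 := hNb N hN2 c hc i D hDpos hD4 χ hχ (δ / D) hk1 hk2
          have e2 : ‖Kc f ((cell N J j).filter (fun m => Nat.Coprime m (δ / D))) χ‖ ^ 2 ≤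
              100 * (N : ℝ) ^ 2 :=
            crbB_norm (hNc N hN3 J W hJ hW c hc)
              ((Finset.filter_subset _ _).trans (hcell j)) χ
          exact mul_le_mul e1 e2 (by positivity) (by positivity)
      _ ≤ ∑ D ∈ (Finset.Icc 1 R).filter (fun D => D ∣ δ ∧ r < D), V D := by
          refine Finset.sum_le_sum_of_subset_of_nonneg ?_ fun D _ _ => hV0 D
          intro D hD
          rw [Finset.mem_filter, Nat.mem_divisors] at hD
          obtain ⟨⟨hD1, hD2⟩, hD3, hD4⟩ := hD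
          rw [Finset.mem_filter, Finset.mem_Icc]
          exact ⟨⟨Nat.pos_of_dvd_of_pos hD1 (by omega), hDR D hD4⟩, hD1, hD3⟩
  refine (Finset.sum_le_sum hstep2).trans ?_
  rw [Finset.sum_comm]
  have hsr : 0 < Real.sqrt r := Real.sqrt_pos.2 (by exact_mod_cast hr)
  have hstep3 : ∀ D ∈ Finset.Icc 1 R,
      (∑ δ ∈ DR C0 η N, if D ∣ δ ∧ r < D then (1 / (Nat.totient δ : ℝ)) * V D else 0) ≤
      (2 * (C1 * (C0 / η)) / Real.sqrt r) * V D := by
    intro D hD
    rw [Finset.mem_Icc] at hD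
    by_cases hrD : r < D
    · have e1 : (∑ δ ∈ DR C0 η N, if D ∣ δ ∧ r < D then (1 / (Nat.totient δ : ℝ)) * V D else 0) =
          (∑ δ ∈ (DR C0 η N).filter (fun δ => D ∣ δ), 1 / (Nat.totient δ : ℝ)) * V D := by
        rw [Finset.sum_filter, Finset.sum_mul]
        refine Finset.sum_congr rfl fun δ _ => ?_
        by_cases h : D ∣ δ
        · rw [if_pos ⟨h, hrD⟩, if_pos h]
        · rw [if_neg (fun h' => h h'.1), if_neg h, zero_mul]
      rw [e1]
      refine mul_le_mul_of_nonneg_right ?_ (hV0 D)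
      have e2 := hphi (η * N) (C0 * N) D ((DR C0 η N).filter (fun δ => D ∣ δ)) (by positivity)
        (mul_le_mul_of_nonneg_right (by linarith) hNR0.le) hD.1 (by
          intro δ hδ
          rw [Finset.mem_filter] at hδ
          obtain ⟨-, h2, h3⟩ := hDRmem δ hδ.1
          exact ⟨h3, h2, hδ.2⟩)
      refine e2.trans ?_
      have e3 : C0 * (N : ℝ) / (η * N) = C0 / η := mul_div_mul_right _ _ hNR0.ne'
      rw [e3]
      have hφ : (0 : ℝ) < Nat.totient D := by exact_mod_cast Nat.totient_pos.2 hD.1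
      have e4 : Real.sqrt r ≤ 2 * Nat.totient D :=
        (Real.sqrt_le_sqrt (by exact_mod_cast hrD.le)).trans (crbB_phi D hD.1)
      have hCC : 0 ≤ C1 * (C0 / η) := by positivity
      rw [div_le_div_iff₀ hφ hsr]
      nlinarith [mul_le_mul_of_nonneg_left e4 hCC]
    · have e1 : (∑ δ ∈ DR C0 η N, if D ∣ δ ∧ r < D then (1 / (Nat.totient δ : ℝ)) * V D else 0) =
          0 := by
        refine Finset.sum_eq_zero fun δ _ => ?_
        rw [if_neg (fun h' => hrD h'.2)]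
      rw [e1]
      have := hV0 D
      positivity
  refine (Finset.sum_le_sum hstep3).trans ?_
  rw [← Finset.mul_sum]
  have hR2 : (R : ℝ) * R * (N : ℝ) ^ (13 / 10 : ℝ) ≤ (N : ℝ) ^ 2 := by
    have e1 : (R : ℝ) ^ 20 ≤ N := by exact_mod_cast hR20
    have e2 : (R : ℝ) * R ≤ (N : ℝ) ^ (1 / 10 : ℝ) := by
      have e3 : ((R : ℝ) * R) = (((R : ℝ) * R) ^ 10) ^ (1 / 10 : ℝ) := by
        rw [← Real.rpow_natCast, ← Real.rpow_mul (by positivity)]
        norm_num
      rw [e3]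
      refine Real.rpow_le_rpow (by positivity) ?_ (by norm_num)
      have e4 : ((R : ℝ) * R) ^ 10 = (R : ℝ) ^ 20 := by ring
      rw [e4]
      exact e1
    calc (R : ℝ) * R * (N : ℝ) ^ (13 / 10 : ℝ)
        ≤ (N : ℝ) ^ (1 / 10 : ℝ) * (N : ℝ) ^ (13 / 10 : ℝ) :=
          mul_le_mul_of_nonneg_right e2 (by positivity)
      _ = (N : ℝ) ^ (14 / 10 : ℝ) := by
          rw [← Real.rpow_add hNR0]
          norm_num
      _ ≤ (N : ℝ) ^ (2 : ℝ) := Real.rpow_le_rpow_of_exponent_le hNR (by norm_num)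
      _ = (N : ℝ) ^ 2 := by norm_cast
  have hstep4 : ∑ D ∈ Finset.Icc 1 R, V D ≤ 40100 * (N : ℝ) ^ 4 := by
    have e1 : ∑ D ∈ Finset.Icc 1 R, V D = (8 * (∑ D ∈ Finset.Icc 1 R, ∑ χ ∈ PC D,
        ‖Kc (kp c N) (cell N J i) χ‖ ^ 2) + (N : ℝ) ^ (13 / 10 : ℝ) *
        ∑ D ∈ Finset.Icc 1 R, ((PC D).card : ℝ)) * (100 * (N : ℝ) ^ 2) := by
      rw [Finset.mul_sum, Finset.mul_sum, ← Finset.sum_add_distrib, Finset.sum_mul]
      refine Finset.sum_congr rfl fun D _ => ?_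
      simp only [hV]
      rw [← Finset.sum_mul, Finset.sum_add_distrib, Finset.sum_const, nsmul_eq_mul,
        Finset.mul_sum, mul_comm ((PC D).card : ℝ)]
    have e2 := hNa N hN1 R hR20 c hc J i
    have e3 : ∑ D ∈ Finset.Icc 1 R, ((PC D).card : ℝ) ≤ (R : ℝ) * R := by
      calc ∑ D ∈ Finset.Icc 1 R, ((PC D).card : ℝ) ≤ ∑ _D ∈ Finset.Icc 1 R, (R : ℝ) := by
            refine Finset.sum_le_sum fun D hD => ?_
            rw [Finset.mem_Icc] at hD
            exact_mod_cast (PC_card hD.1).trans hD.2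
        _ = (R : ℝ) * R := by
            rw [Finset.sum_const, Nat.card_Icc, Nat.add_sub_cancel, nsmul_eq_mul]
    rw [e1]
    have e4 : (N : ℝ) ^ (13 / 10 : ℝ) * ∑ D ∈ Finset.Icc 1 R, ((PC D).card : ℝ) ≤ (N : ℝ) ^ 2 := by
      calc (N : ℝ) ^ (13 / 10 : ℝ) * ∑ D ∈ Finset.Icc 1 R, ((PC D).card : ℝ)
          ≤ (N : ℝ) ^ (13 / 10 : ℝ) * ((R : ℝ) * R) :=
            mul_le_mul_of_nonneg_left e3 (by positivity)
        _ = (R : ℝ) * R * (N : ℝ) ^ (13 / 10 : ℝ) := by ring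
        _ ≤ (N : ℝ) ^ 2 := hR2
    calc (8 * (∑ D ∈ Finset.Icc 1 R, ∑ χ ∈ PC D, ‖Kc (kp c N) (cell N J i) χ‖ ^ 2) +
          (N : ℝ) ^ (13 / 10 : ℝ) * ∑ D ∈ Finset.Icc 1 R, ((PC D).card : ℝ)) *
          (100 * (N : ℝ) ^ 2)
        ≤ (8 * (50 * (N : ℝ) ^ 2) + (N : ℝ) ^ 2) * (100 * (N : ℝ) ^ 2) :=
          mul_le_mul_of_nonneg_right (by linarith) (by positivity)
      _ = 40100 * (N : ℝ) ^ 4 := by ring
  calc (2 * (C1 * (C0 / η)) / Real.sqrt r) * ∑ D ∈ Finset.Icc 1 R, V D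
      ≤ (2 * (C1 * (C0 / η)) / Real.sqrt r) * (40100 * (N : ℝ) ^ 4) :=
        mul_le_mul_of_nonneg_left hstep4 (by positivity)
    _ = 80200 * (C1 * (C0 / η)) / Real.sqrt r * (N : ℝ) ^ 4 := by ring

end

end Pool.Agent.Lib.MP_0b748d_nt.HHC
end
end
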