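import Pool.Agent.Lib.MP_0b748d_nt.HH.CselJ
import Pool.Agent.Lib.MP_0b748d_nt.P.LargeSieve
import Pool.Agent.Lib.MP_0b748d_nt.HH.ClsD

section

set_option autoImplicit false

/-!
# The additive large sieve for Farey fractions
-/

namespace Pool.Agent.Lib.MP_0b748d_nt.HHC

noncomputable section

/-- the reduced fractions `a / q`, `q ≤ Q`, `0 ≤ a < q`, as pairs `(q, a)` -/
def Fq (Q : ℕ) : Finset (ℕ × ℕ) :=
  ((Finset.Icc 1 Q) ×ˢ (Finset.range Q)).filter (fun x => x.2 < x.1 ∧ Nat.Coprime x.2 x.1)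

/-- Proof. `a/q - b/r - k = n/(q r)` with an integer `n`, `q r ≤ Q²`, and `n ≠ 0`: otherwise
`a/q ≡ b/r mod 1`, both in `[0, 1)`, so `a/q = b/r`, and reduced fractions are unique. -/
theorem Fq_sep {Q : ℕ} {x y : ℕ × ℕ} (hx : x ∈ Fq Q) (hy : y ∈ Fq Q) (hne : x ≠ y) (k : ℤ) :
    1 / (Q : ℝ) ^ 2 ≤ |((x.2 : ℝ) / x.1) - ((y.2 : ℝ) / y.1) - k| := by
  obtain ⟨q, a⟩ := x
  obtain ⟨r, b⟩ := y
  simp only [Fq, Finset.mem_filter, Finset.mem_product, Finset.mem_Icc, Finset.mem_range] at hx hy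
  obtain ⟨⟨⟨hq1, hqQ⟩, _⟩, haq, hcop⟩ := hx
  obtain ⟨⟨⟨hr1, hrQ⟩, _⟩, hbr, hcop'⟩ := hy
  have hq0 : (0 : ℝ) < q := by exact_mod_cast hq1
  have hr0 : (0 : ℝ) < r := by exact_mod_cast hr1
  have hqQ' : (q : ℝ) ≤ Q := by exact_mod_cast hqQ
  have hrQ' : (r : ℝ) ≤ Q := by exact_mod_cast hrQ
  have hQ0 : (0 : ℝ) < Q := lt_of_lt_of_le hq0 hqQ'
  simp only
  have hN : ((a : ℝ) / q) - ((b : ℝ) / r) - k =
      (((a : ℤ) * r - b * q - k * (q * r) : ℤ) : ℝ) / (q * r) := by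
    push_cast
    field_simp
  rw [hN]
  by_cases h0 : ((a : ℤ) * r - b * q - k * (q * r) : ℤ) = 0
  · exfalso
    have hqr : (0 : ℤ) < (q : ℤ) * r := by positivity
    have ha2 : (a : ℤ) * r < q * r := by
      have : (a : ℤ) < q := by exact_mod_cast haq
      have hr' : (0 : ℤ) < r := by exact_mod_cast hr1
      nlinarith
    have hb2 : (b : ℤ) * q < q * r := by
      have : (b : ℤ) < r := by exact_mod_cast hbr
      have hq' : (0 : ℤ) < q := by exact_mod_cast hq1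
      nlinarith
    have ha3 : (0 : ℤ) ≤ (a : ℤ) * r := by positivity
    have hb3 : (0 : ℤ) ≤ (b : ℤ) * q := by positivity
    have hk1 : k < 1 := by
      by_contra hk
      push Not at hk
      have : (q : ℤ) * r ≤ k * (q * r) := by nlinarith
      linarith
    have hk2 : -1 < k := by
      by_contra hk
      push Not at hk
      have : k * ((q : ℤ) * r) ≤ -(q * r) := by nlinarith
      linarith
    have hk : k = 0 := by omega
    rw [hk, zero_mul, sub_zero, sub_eq_zero] at h0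
    have h1 : a * r = b * q := by exact_mod_cast h0
    have hd1 : q ∣ r := by
      have : q ∣ a * r := by rw [h1]; exact Dvd.intro_left b rfl
      exact hcop.symm.dvd_of_dvd_mul_left this
    have hd2 : r ∣ q := by
      have : r ∣ b * q := by rw [← h1]; exact Dvd.intro_left a rfl
      exact hcop'.symm.dvd_of_dvd_mul_left this
    have hqr2 : q = r := Nat.dvd_antisymm hd1 hd2
    subst hqr2
    have : a = b := Nat.eq_of_mul_eq_mul_right (by omega) h1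
    exact hne (by rw [this])
  · have h1 : (1 : ℝ) ≤ |(((a : ℤ) * r - b * q - k * (q * r) : ℤ) : ℝ)| := by
      rw [← Int.cast_abs]
      exact_mod_cast Int.one_le_abs h0
    rw [abs_div, abs_of_pos (mul_pos hq0 hr0)]
    have h2 : (q : ℝ) * r ≤ (Q : ℝ) ^ 2 := by nlinarith
    calc 1 / (Q : ℝ) ^ 2 ≤ 1 / ((q : ℝ) * r) :=
          one_div_le_one_div_of_le (mul_pos hq0 hr0) h2
      _ ≤ _ := div_le_div_of_nonneg_right h1 (mul_pos hq0 hr0).le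

/-- Proof. `large_sieve` (file `P/LargeSieve.lean`) with `s = Fq Q`, `α x = x.2/x.1`, `δ = 1/Q²`,
`T = M + Q²`, and `Fq_sep`: for all `b`, `∑_{m ∈ Icc (-T) T} ‖∑_x b x ee(m α x)‖² ≤ 8 T ∑ ‖b‖²`;
keep only `m ∈ [1, M]` and apply `duality`. -/
theorem ls_add (Q M : ℕ) (hQ : 1 ≤ Q) (c : ℕ → ℂ) :
    ∑ x ∈ Fq Q, ‖∑ n ∈ Finset.Icc 1 M, c n * ee ((n : ℝ) * ((x.2 : ℝ) / x.1))‖ ^ 2 ≤
      8 * ((M : ℝ) + Q ^ 2) * ∑ n ∈ Finset.Icc 1 M, ‖c n‖ ^ 2 := by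
  classical
  have hQ0 : (0 : ℝ) < (Q : ℝ) ^ 2 := by
    have : (0 : ℝ) < Q := by exact_mod_cast hQ
    positivity
  have hT : ((M + Q ^ 2 : ℕ) : ℝ) = (M : ℝ) + (Q : ℝ) ^ 2 := by push_cast; ring
  rw [← hT]
  refine duality (Finset.Icc 1 M) (Fq Q)
    (fun (n : ℕ) (x : ℕ × ℕ) => ee ((n : ℝ) * ((x.2 : ℝ) / x.1)))
    (8 * ((M + Q ^ 2 : ℕ) : ℝ)) (by positivity) ?_ c
  intro b
  have h1 := large_sieve (Fq Q) b (fun x => (x.2 : ℝ) / x.1) (1 / (Q : ℝ) ^ 2) (M + Q ^ 2)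
    (by positivity) (by
      rw [hT, mul_one_div, le_div_iff₀ hQ0]
      have : (0 : ℝ) ≤ M := Nat.cast_nonneg M
      linarith)
    (fun i hi j hj hij k => Fq_sep hi hj hij k)
  refine le_trans ?_ h1
  have h2 : ∑ n ∈ Finset.Icc 1 M, ‖∑ j ∈ Fq Q, b j * ee ((n : ℝ) * ((j.2 : ℝ) / j.1))‖ ^ 2 =
      ∑ m ∈ (Finset.Icc 1 M).image (fun n : ℕ => (n : ℤ)),
        ‖∑ j ∈ Fq Q, b j * ee ((m : ℝ) * ((j.2 : ℝ) / j.1))‖ ^ 2 := by
    rw [Finset.sum_image (fun m _ n _ hmn => by exact_mod_cast hmn)]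
    refine Finset.sum_congr rfl fun n _ => ?_
    rw [Int.cast_natCast]
  rw [h2]
  refine Finset.sum_le_sum_of_subset_of_nonneg ?_ (fun _ _ _ => by positivity)
  intro m hm
  obtain ⟨n, hn, rfl⟩ := Finset.mem_image.1 hm
  rw [Finset.mem_Icc] at hn ⊢
  push_cast
  constructor
  · have : (0 : ℤ) ≤ (n : ℤ) := Int.natCast_nonneg n
    have h3 : (0 : ℤ) ≤ (M : ℤ) := Int.natCast_nonneg M
    nlinarith [sq_nonneg (Q : ℤ)]
  · have : (n : ℤ) ≤ M := by exact_mod_cast hn.2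
    nlinarith [sq_nonneg (Q : ℤ)]

end

end Pool.Agent.Lib.MP_0b748d_nt.HHC
end

section

set_option autoImplicit false

/-!
# The multiplicative large sieve
-/

namespace Pool.Agent.Lib.MP_0b748d_nt.HHC

noncomputable section

theorem clsE_sum (Q : ℕ) (f : ℕ × ℕ → ℝ) :
    ∑ D ∈ Finset.Icc 1 Q, ∑ a ∈ ur D, f (D, a) = ∑ x ∈ Fq Q, f x := by
  classical
  unfold Fq ur
  rw [Finset.sum_filter, Finset.sum_product]
  refine Finset.sum_congr rfl (fun D hD => ?_)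
  have hD' := Finset.mem_Icc.1 hD
  rw [← Finset.sum_filter]
  refine Finset.sum_congr ?_ (fun _ _ => rfl)
  ext a
  simp only [Finset.mem_filter, Finset.mem_range]
  constructor
  · rintro ⟨h1, h2⟩
    exact ⟨by omega, h1, h2⟩
  · rintro ⟨h1, h2, h3⟩
    exact ⟨h2, h3⟩

/-- `ls_char` for every `D`, and `ls_add`: `(D, a)`, `D ∈ Icc 1 Q`, `a ∈ ur D`, are the elements of
`Fq Q`. -/
theorem ls_mul (Q M : ℕ) (c : ℕ → ℂ) :
    ∑ D ∈ Finset.Icc 1 Q, ∑ χ ∈ PC D, ‖∑ n ∈ Finset.Icc 1 M, c n * χ (n : ZMod D)‖ ^ 2 ≤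
      8 * ((M : ℝ) + Q ^ 2) * ∑ n ∈ Finset.Icc 1 M, ‖c n‖ ^ 2 := by
  rcases Nat.eq_zero_or_pos Q with hQ | hQ
  · subst hQ
    rw [Finset.Icc_eq_empty (by omega), Finset.sum_empty]
    positivity
  have h1 : ∑ D ∈ Finset.Icc 1 Q, ∑ χ ∈ PC D,
      ‖∑ n ∈ Finset.Icc 1 M, c n * χ (n : ZMod D)‖ ^ 2 ≤
      ∑ D ∈ Finset.Icc 1 Q, ∑ a ∈ ur D,
        ‖∑ n ∈ Finset.Icc 1 M, c n * ee ((n : ℝ) * ((a : ℝ) / D))‖ ^ 2 :=
    Finset.sum_le_sum (fun D hD => ls_char (Finset.mem_Icc.1 hD).1 M c)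
  refine h1.trans ?_
  have h2 := clsE_sum Q (fun x =>
    ‖∑ n ∈ Finset.Icc 1 M, c n * ee ((n : ℝ) * ((x.2 : ℝ) / x.1))‖ ^ 2)
  rw [h2]
  exact ls_add Q M hQ c

end

end Pool.Agent.Lib.MP_0b748d_nt.HHC
end
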