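import Mathlib
import Pool.Agent.Lib.MP_0b748d_nt.HH.CselJ
import Pool.Agent.Lib.MP_0b748d_nt.HH.CmodC
import Pool.Agent.Lib.MP_0b748d_nt.HH.CvE
import Pool.Agent.Lib.MP_0b748d_nt.HH.ClsE
import Pool.Agent.Lib.MP_0b748d_nt.HH.CphiA

section

section

set_option autoImplicit false

/-!
# Counting units solving a congruence
-/

namespace Pool.Agent.Lib.MP_0b748d_nt.HHC

noncomputable section

open Classical in
/-- Proof. If `n ≡ ρ m mod δ` with `ρ` prime to `δ`, then `gcd(n, δ) = gcd(ρ m, δ) = gcd(m, δ) = g`. If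
`ρ, ρ'` are two solutions then `δ/g` divides `ρ - ρ'`, so there are at most `g` solutions in
`[0, δ)`. -/
theorem unit_card {δ : ℕ} (hδ : 1 ≤ δ) (m n : ℕ) :
    ((ur δ).filter (fun ρ => n ≡ ρ * m [MOD δ])).card ≤
      if Nat.gcd n δ = Nat.gcd m δ then Nat.gcd m δ else 0 := by
  rcases ((ur δ).filter (fun ρ => n ≡ ρ * m [MOD δ])).eq_empty_or_nonempty with h0 | ⟨ρ₀, h0⟩
  · rw [h0, Finset.card_empty]
    exact Nat.zero_le _
  have hmem : ∀ ρ, ρ ∈ (ur δ).filter (fun ρ => n ≡ ρ * m [MOD δ]) →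
      ρ < δ ∧ Nat.Coprime ρ δ ∧ n ≡ ρ * m [MOD δ] := by
    intro ρ hρ
    rw [Finset.mem_filter, ur, Finset.mem_filter, Finset.mem_range] at hρ
    exact ⟨hρ.1.1, hρ.1.2, hρ.2⟩
  obtain ⟨-, hc0, hn0⟩ := hmem ρ₀ h0
  have hg : Nat.gcd n δ = Nat.gcd m δ := by
    rw [hn0.gcd_eq, Nat.Coprime.gcd_mul_left_cancel m hc0]
  rw [if_pos hg]
  have hgpos : 0 < Nat.gcd m δ := Nat.gcd_pos_of_pos_right m hδ
  have hdvd : Nat.gcd m δ ∣ δ := Nat.gcd_dvd_right m δ
  obtain ⟨δ', hδ'⟩ := hdvd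
  have hδ'pos : 0 < δ' := by
    rcases Nat.eq_zero_or_pos δ' with h | h
    · rw [h, mul_zero] at hδ'
      omega
    · exact h
  have hquot : δ / Nat.gcd δ m = δ' := by
    rw [Nat.gcd_comm δ m]
    exact Nat.div_eq_of_eq_mul_right hgpos hδ'
  calc ((ur δ).filter (fun ρ => n ≡ ρ * m [MOD δ])).card
      ≤ (Finset.range (Nat.gcd m δ)).card := by
        refine Finset.card_le_card_of_injOn (fun ρ => ρ / δ') ?_ ?_
        · intro ρ hρ
          obtain ⟨h1, -, -⟩ := hmem ρ (by exact_mod_cast hρ)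
          rw [Finset.mem_coe, Finset.mem_range]
          exact Nat.div_lt_of_lt_mul (by rw [mul_comm, ← hδ']; exact h1)
        · intro ρ hρ ρ' hρ' he
          obtain ⟨-, -, h1⟩ := hmem ρ (by exact_mod_cast hρ)
          obtain ⟨-, -, h2⟩ := hmem ρ' (by exact_mod_cast hρ')
          have h3 : ρ * m ≡ ρ' * m [MOD δ] := h1.symm.trans h2
          have h4 := h3.cancel_right_div_gcd hδ
          rw [hquot] at h4
          have h5 : ρ / δ' = ρ' / δ' := he
          rw [← Nat.div_add_mod ρ δ', ← Nat.div_add_mod ρ' δ', h5, h4]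
    _ = Nat.gcd m δ := Finset.card_range _

end

end Pool.Agent.Lib.MP_0b748d_nt.HHC
end

section

set_option autoImplicit false

/-!
# The model against functions with small sums over pieces
-/

namespace Pool.Agent.Lib.MP_0b748d_nt.HHC

noncomputable section

private theorem CwB_out {c : ℕ → ℝ} {N J W m : ℕ} (h : ¬ (N ≤ m ∧ m < 2 * N)) :
    km c N J W m = 0 := by
  by_contra h2
  obtain ⟨h3, h4, -⟩ := km_supp h2
  exact h ⟨h3, h4⟩

/-- the model only depends on the cell and the residue class -/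
private theorem CwB_km {c : ℕ → ℝ} {N J W : ℕ} {x y : ℤ} (hN : 1 ≤ N) (hJ : 1 ≤ J)
    (hs : ∀ i : ℕ, i ≤ J → ((x : ℝ) < N + i * N / J ↔ (y : ℝ) < N + i * N / J))
    (hW : (W : ℤ) ∣ x - y) : km c N J W x.toNat = km c N J W y.toNat := by
  have hJ' : (0 : ℝ) < J := by exact_mod_cast hJ
  have hN' : (0 : ℝ) < N := by exact_mod_cast hN
  have h0 : x < (N : ℤ) ↔ y < (N : ℤ) := by
    have := hs 0 (by omega)
    simp only [Nat.cast_zero, zero_mul, zero_div, add_zero] at this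
    constructor
    · intro h; exact_mod_cast this.1 (by exact_mod_cast h)
    · intro h; exact_mod_cast this.2 (by exact_mod_cast h)
  have h1 : x < 2 * (N : ℤ) ↔ y < 2 * (N : ℤ) := by
    have := hs J le_rfl
    have e : (N : ℝ) + J * N / J = 2 * N := by field_simp; ring
    rw [e] at this
    constructor
    · intro h
      have := this.1 (by exact_mod_cast h)
      exact_mod_cast this
    · intro h
      have := this.2 (by exact_mod_cast h)
      exact_mod_cast this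
  by_cases hx : (N : ℤ) ≤ x ∧ x < 2 * (N : ℤ)
  · have hy : (N : ℤ) ≤ y ∧ y < 2 * (N : ℤ) := by omega
    obtain ⟨m, rfl⟩ := Int.eq_ofNat_of_zero_le (show 0 ≤ x by omega)
    obtain ⟨n, rfl⟩ := Int.eq_ofNat_of_zero_le (show 0 ≤ y by omega)
    rw [Int.toNat_natCast, Int.toNat_natCast]
    have hm1 : N ≤ m := by omega
    have hm2 : m < 2 * N := by omega
    have hn1 : N ≤ n := by omega
    have hn2 : n < 2 * N := by omega
    have hk := ci_lt hJ hm1 hm2
    have hci : ci N J n = ci N J m := by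
      set k := ci N J m with hkdef
      have a1 : k * N ≤ (m - N) * J := by
        rw [hkdef]; exact Nat.div_mul_le_self _ _
      have a2 : (m - N) * J < (k + 1) * N := by
        rw [hkdef]
        have := Nat.lt_div_mul_add (a := (m - N) * J) (b := N) (by omega)
        unfold ci
        linarith only [this]
      have a1' : (k : ℝ) * N ≤ ((m : ℝ) - N) * J := by
        rw [← Nat.cast_sub hm1]; exact_mod_cast a1
      have a2' : ((m : ℝ) - N) * J < ((k : ℝ) + 1) * N := by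
        rw [← Nat.cast_sub hm1]; exact_mod_cast a2
      have b1 : ¬ ((m : ℝ) < N + k * N / J) := by
        rw [not_lt]
        have : (k : ℝ) * N / J ≤ (m : ℝ) - N := by rw [div_le_iff₀ hJ']; exact a1'
        linarith only [this]
      have b2 : (m : ℝ) < N + ((k + 1 : ℕ) : ℝ) * N / J := by
        have : (m : ℝ) - N < ((k + 1 : ℕ) : ℝ) * N / J := by
          rw [lt_div_iff₀ hJ']; push_cast; exact a2'
        linarith only [this]
      have c1 : ¬ ((n : ℝ) < N + k * N / J) := by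
        intro h
        refine b1 ?_
        have := (hs k hk.le).2 (by rw [Int.cast_natCast]; exact h)
        rwa [Int.cast_natCast] at this
      have c2 : (n : ℝ) < N + ((k + 1 : ℕ) : ℝ) * N / J := by
        have := (hs (k + 1) hk).1 (by rw [Int.cast_natCast]; exact b2)
        rwa [Int.cast_natCast] at this
      rw [not_lt] at c1
      have d1 : (k : ℝ) * N ≤ ((n : ℝ) - N) * J := by
        have : (k : ℝ) * N / J ≤ (n : ℝ) - N := by linarith only [c1]
        rwa [div_le_iff₀ hJ'] at this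
      have d2 : ((n : ℝ) - N) * J < ((k : ℝ) + 1) * N := by
        have : (n : ℝ) - N < ((k + 1 : ℕ) : ℝ) * N / J := by linarith only [c2]
        rw [lt_div_iff₀ hJ'] at this
        push_cast at this
        exact this
      rw [← Nat.cast_sub hn1] at d1 d2
      have d1' : k * N ≤ (n - N) * J := by exact_mod_cast d1
      have d2' : (n - N) * J < (k + 1) * N := by exact_mod_cast d2
      unfold ci
      rw [Nat.div_eq_iff (by omega)]
      constructor
      · exact d1'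
      · have : (k + 1) * N = k * N + N := by ring
        omega
    have hmod : n % W = m % W := by
      have : m ≡ n [MOD W] := by
        have h5 : (n : ℤ) ≡ (m : ℤ) [ZMOD (W : ℤ)] := Int.modEq_iff_dvd.2 hW
        exact (Int.natCast_modEq_iff.1 h5).symm
      exact this.symm
    have hco : Nat.Coprime n W ↔ Nat.Coprime m W := by
      unfold Nat.Coprime
      rw [Nat.gcd_comm n W, Nat.gcd_rec W n, hmod, ← Nat.gcd_rec W m, Nat.gcd_comm W m]
    unfold km
    rw [hci, hmod]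
    by_cases h3 : Nat.Coprime m W
    · rw [if_pos ⟨hm1, hm2, h3⟩, if_pos ⟨hn1, hn2, hco.2 h3⟩]
    · rw [if_neg (fun h => h3 h.2.2), if_neg (fun h => h3 (hco.1 h.2.2))]
  · rw [CwB_out, CwB_out]
    · intro h; apply hx; omega
    · intro h; apply hx; omega

open Classical in
/-- the sum over one clean piece -/
private theorem CwB_piece {C0 : ℝ} {J W N L : ℕ} (hJ : 1 ≤ J) (hW : 1 ≤ W)
    (hN : 1 ≤ N) (hC0 : 0 ≤ C0) {c : ℕ → ℝ} (hkm : ∀ m, |km c N J W m| ≤ 2 * W)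
    {κ : ℤ × ℤ → ℤ × ℤ → ℝ} (hκ : LK C0 N L κ) {f : ℤ × ℤ → ℝ} (hf : ∀ u, |f u| ≤ 1) {η : ℝ}
    (hη : 0 < η) (Q : Finset (ℤ × ℤ)) (hQ : Q ⊆ bx L)
    (hp : ∀ u ∈ Q, ∀ u' ∈ Q, |(u.1 : ℝ) - u'.1| ≤ η * √N ∧ |(u.2 : ℝ) - u'.2| ≤ η * √N)
    {w : ℤ × ℤ} (hw : w ∈ bx L)
    (hcl : ∀ u ∈ Q, ∀ u' ∈ Q, ∀ i : ℕ, i ≤ J →
      ((dt u w : ℝ) < N + i * N / J ↔ (dt u' w : ℝ) < N + i * N / J)) :
    |∑ u ∈ Q, f u * κ u w * km c N J W (dt u w).toNat| ≤
      4 * W * C0 * η * Q.card + 2 * W * C0 * ∑ a ∈ Finset.range W ×ˢ Finset.range W,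
        |∑ u ∈ Q.filter (fun u => u.1 % (W : ℤ) = (a.1 : ℤ) ∧ u.2 % (W : ℤ) = (a.2 : ℤ)), f u| := by
  rcases Q.eq_empty_or_nonempty with hQ0 | ⟨u0, hu0⟩
  · subst hQ0; simp
  have hW' : (1 : ℝ) ≤ W := by exact_mod_cast hW
  have hWz : (0 : ℤ) < W := by exact_mod_cast hW
  have hN' : (1 : ℝ) ≤ N := by exact_mod_cast hN
  have hsN : 0 < √(N : ℝ) := Real.sqrt_pos.2 (by linarith)
  have e1 : ∑ u ∈ Q, f u * κ u w * km c N J W (dt u w).toNat =
      ∑ u ∈ Q, f u * (κ u w - κ u0 w) * km c N J W (dt u w).toNat +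
        κ u0 w * ∑ u ∈ Q, f u * km c N J W (dt u w).toNat := by
    rw [Finset.mul_sum, ← Finset.sum_add_distrib]
    refine Finset.sum_congr rfl fun u _ => by ring
  rw [e1]
  refine (abs_add_le _ _).trans (add_le_add ?_ ?_)
  · refine (Finset.abs_sum_le_sum_abs _ _).trans ?_
    have : ∀ u ∈ Q, |f u * (κ u w - κ u0 w) * km c N J W (dt u w).toNat| ≤ 4 * W * C0 * η := by
      intro u hu
      rw [abs_mul, abs_mul]
      have h1 := hκ.l1 u (hQ hu) u0 (hQ hu0) w hw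
      obtain ⟨h2, h3⟩ := hp u hu u0 hu0
      have h4 : |κ u w - κ u0 w| ≤ 2 * C0 * η := by
        refine h1.trans ?_
        rw [div_le_iff₀ hsN]
        nlinarith only [hC0, h2, h3]
      calc |f u| * |κ u w - κ u0 w| * |km c N J W (dt u w).toNat|
          ≤ 1 * (2 * C0 * η) * (2 * W) := by
            gcongr
            · exact hf u
            · exact hkm _
        _ = 4 * W * C0 * η := by ring
    calc ∑ u ∈ Q, |f u * (κ u w - κ u0 w) * km c N J W (dt u w).toNat|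
        ≤ ∑ u ∈ Q, 4 * W * C0 * η := Finset.sum_le_sum this
      _ = 4 * W * C0 * η * Q.card := by rw [Finset.sum_const, nsmul_eq_mul]; ring
  · rw [abs_mul]
    have h1 : ∑ u ∈ Q, f u * km c N J W (dt u w).toNat =
        ∑ a ∈ Finset.range W ×ˢ Finset.range W,
          ∑ u ∈ Q.filter (fun u => u.1 % (W : ℤ) = (a.1 : ℤ) ∧ u.2 % (W : ℤ) = (a.2 : ℤ)),
            f u * km c N J W (dt u w).toNat := by
      rw [← Finset.sum_fiberwise_of_maps_to (s := Q) (t := Finset.range W ×ˢ Finset.range W)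
        (g := fun u : ℤ × ℤ => ((u.1 % (W : ℤ)).toNat, (u.2 % (W : ℤ)).toNat))]
      · refine Finset.sum_congr rfl fun a ha => ?_
        refine Finset.sum_congr ?_ fun _ _ => rfl
        refine Finset.filter_congr fun u _ => ?_
        have m1 := Int.emod_nonneg u.1 hWz.ne'
        have m2 := Int.emod_nonneg u.2 hWz.ne'
        rw [Prod.ext_iff]
        simp only
        constructor
        · rintro ⟨a1, a2⟩
          omega
        · rintro ⟨a1, a2⟩
          omega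
      · intro u _
        have m1 := Int.emod_nonneg u.1 hWz.ne'
        have m2 := Int.emod_nonneg u.2 hWz.ne'
        have m3 := Int.emod_lt_of_pos u.1 hWz
        have m4 := Int.emod_lt_of_pos u.2 hWz
        rw [Finset.mem_product, Finset.mem_range, Finset.mem_range]
        simp only
        omega
    have h2 : |∑ u ∈ Q, f u * km c N J W (dt u w).toNat| ≤
        2 * W * ∑ a ∈ Finset.range W ×ˢ Finset.range W,
        |∑ u ∈ Q.filter (fun u => u.1 % (W : ℤ) = (a.1 : ℤ) ∧ u.2 % (W : ℤ) = (a.2 : ℤ)), f u| := by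
      rw [h1, Finset.mul_sum]
      refine (Finset.abs_sum_le_sum_abs _ _).trans (Finset.sum_le_sum fun a _ => ?_)
      set R := Q.filter (fun u => u.1 % (W : ℤ) = (a.1 : ℤ) ∧ u.2 % (W : ℤ) = (a.2 : ℤ)) with hR
      rcases R.eq_empty_or_nonempty with hR0 | ⟨u1, hu1⟩
      · rw [hR0]; simp
      · have h3 : ∀ u ∈ R, f u * km c N J W (dt u w).toNat =
            f u * km c N J W (dt u1 w).toNat := by
          intro u hu
          rw [hR, Finset.mem_filter] at hu hu1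
          rw [CwB_km hN hJ (hcl u hu.1 u1 hu1.1)]
          have d1 : (W : ℤ) ∣ u.1 - u1.1 :=
            Int.ModEq.dvd (show u1.1 ≡ u.1 [ZMOD W] from by
              unfold Int.ModEq; rw [hu.2.1, hu1.2.1])
          have d2 : (W : ℤ) ∣ u.2 - u1.2 :=
            Int.ModEq.dvd (show u1.2 ≡ u.2 [ZMOD W] from by
              unfold Int.ModEq; rw [hu.2.2, hu1.2.2])
          have e : dt u w - dt u1 w = (u.1 - u1.1) * w.2 - (u.2 - u1.2) * w.1 := by
            unfold dt; ring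
          rw [e]
          exact dvd_sub (d1.mul_right _) (d2.mul_right _)
        rw [Finset.sum_congr rfl h3, ← Finset.sum_mul, abs_mul, mul_comm]
        exact mul_le_mul_of_nonneg_right (hkm _) (abs_nonneg _)
    calc |κ u0 w| * |∑ u ∈ Q, f u * km c N J W (dt u w).toNat|
        ≤ C0 * (2 * W * ∑ a ∈ Finset.range W ×ˢ Finset.range W,
        |∑ u ∈ Q.filter (fun u => u.1 % (W : ℤ) = (a.1 : ℤ) ∧ u.2 % (W : ℤ) = (a.2 : ℤ)), f u|) :=
          mul_le_mul (hκ.bd u0 (hQ hu0) w hw) h2 (abs_nonneg _) hC0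
      _ = _ := by ring

open Classical in
/-- the sum over `u` for a fixed `w` -/
private theorem CwB_T {C0 : ℝ} {J W N L : ℕ} (hJ : 1 ≤ J) (hW : 1 ≤ W)
    (hN : 1 ≤ N) (hC0 : 0 ≤ C0) {c : ℕ → ℝ} (hkm : ∀ m, |km c N J W m| ≤ 2 * W)
    {κ : ℤ × ℤ → ℤ × ℤ → ℝ} (hκ : LK C0 N L κ) {f : ℤ × ℤ → ℝ} (hf : ∀ u, |f u| ≤ 1) {η : ℝ}
    (hη : 0 < η) (piece : ℤ × ℤ → ℕ)
    (hp : ∀ u ∈ bx L, ∀ u' ∈ bx L, piece u = piece u' →
      |(u.1 : ℝ) - u'.1| ≤ η * √N ∧ |(u.2 : ℝ) - u'.2| ≤ η * √N)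
    {w : ℤ × ℤ} (hw : w ∈ bx L) :
    |∑ u ∈ bx L, f u * κ u w * km c N J W (dt u w).toNat| ≤
      2 * W * C0 * (((J : ℝ) + 1) * ((L + 1) * (8 * η * √N + 1))) +
      (4 * W * C0 * η * (L + 1) ^ 2 +
      2 * W * C0 * ∑ j ∈ (bx L).image piece, ∑ a ∈ Finset.range W ×ˢ Finset.range W,
        |∑ u ∈ (bx L).filter (fun u => piece u = j ∧ u.1 % (W : ℤ) = (a.1 : ℤ) ∧
          u.2 % (W : ℤ) = (a.2 : ℤ)), f u|) := by
  have hW' : (1 : ℝ) ≤ W := by exact_mod_cast hW
  have hN' : (1 : ℝ) ≤ N := by exact_mod_cast hN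
  have hsum0 : 0 ≤ ∑ j ∈ (bx L).image piece, ∑ a ∈ Finset.range W ×ˢ Finset.range W,
        |∑ u ∈ (bx L).filter (fun u => piece u = j ∧ u.1 % (W : ℤ) = (a.1 : ℤ) ∧
          u.2 % (W : ℤ) = (a.2 : ℤ)), f u| :=
    Finset.sum_nonneg fun _ _ => Finset.sum_nonneg fun _ _ => abs_nonneg _
  by_cases hw0 : w = 0
  · have h1 : ∑ u ∈ bx L, f u * κ u w * km c N J W (dt u w).toNat = 0 := by
      refine Finset.sum_eq_zero fun u _ => ?_
      have : dt u w = 0 := by
        rw [hw0]; unfold dt; simp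
      rw [this, CwB_out, mul_zero]
      simp only [Int.toNat_zero]
      omega
    rw [h1, abs_zero]
    positivity
  have hw' := hw
  unfold bx at hw'
  rw [Finset.mem_product, Finset.mem_Icc, Finset.mem_Icc] at hw'
  obtain ⟨⟨w1, -⟩, w3, -⟩ := hw'
  have hMz : (1 : ℤ) ≤ max w.1 w.2 := by
    by_contra h
    apply hw0
    rw [not_le] at h
    have h1 : w.1 ≤ max w.1 w.2 := le_max_left _ _
    have h2 : w.2 ≤ max w.1 w.2 := le_max_right _ _
    exact Prod.ext (show w.1 = 0 by omega) (show w.2 = 0 by omega)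
  set M : ℝ := ((max w.1 w.2 : ℤ) : ℝ) with hMdef
  have hM1 : (1 : ℝ) ≤ M := by rw [hMdef]; exact_mod_cast hMz
  have hwM1 : (w.1 : ℝ) ≤ M := by rw [hMdef]; exact_mod_cast le_max_left w.1 w.2
  have hwM2 : (w.2 : ℝ) ≤ M := by rw [hMdef]; exact_mod_cast le_max_right w.1 w.2
  have hw1' : (0 : ℝ) ≤ w.1 := by exact_mod_cast w1
  have hw2' : (0 : ℝ) ≤ w.2 := by exact_mod_cast w3
  have hsN : 0 < √(N : ℝ) := Real.sqrt_pos.2 (by linarith)
  set s : ℝ := 2 * η * √N * M with hsdef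
  have hs0 : 0 < s := by positivity
  have hclose : ∀ u ∈ bx L, ∀ u' ∈ bx L, piece u = piece u' →
      |(dt u w : ℝ) - dt u' w| ≤ s := by
    intro u hu u' hu' h
    obtain ⟨h1, h2⟩ := hp u hu u' hu' h
    have e : (dt u w : ℝ) - dt u' w = ((u.1 : ℝ) - u'.1) * w.2 - ((u.2 : ℝ) - u'.2) * w.1 := by
      unfold dt; push_cast; ring
    rw [e]
    refine (abs_sub _ _).trans ?_
    rw [abs_mul, abs_mul, abs_of_nonneg hw1', abs_of_nonneg hw2']
    have h3 : |(u.1 : ℝ) - u'.1| * w.2 ≤ η * √N * M := mul_le_mul h1 hwM2 hw2' (by positivity)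
    have h4 : |(u.2 : ℝ) - u'.2| * w.1 ≤ η * √N * M := mul_le_mul h2 hwM1 hw1' (by positivity)
    rw [hsdef]; linarith
  set bad : ℤ × ℤ → Prop := fun u => ∃ u' ∈ bx L, piece u' = piece u ∧
    ∃ i ∈ Finset.range (J + 1), |(dt u' w : ℝ) - (N + (i : ℝ) * N / J)| ≤ s with hbad
  rw [← Finset.sum_filter_add_sum_filter_not (bx L) bad]
  refine (abs_add_le _ _).trans (add_le_add ?_ ?_)
  · -- the bad part
    have hsub : (bx L).filter bad ⊆ (Finset.range (J + 1)).biUnion (fun i =>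
        (bx L).filter (fun u => |(dt u w : ℝ) - (N + (i : ℝ) * N / J)| ≤ 2 * s)) := by
      intro u hu
      rw [Finset.mem_filter] at hu
      obtain ⟨hu1, u', hu', hpp, i, hi, hle⟩ := hu
      rw [Finset.mem_biUnion]
      refine ⟨i, hi, ?_⟩
      rw [Finset.mem_filter]
      refine ⟨hu1, ?_⟩
      have h1 := hclose u hu1 u' hu' hpp.symm
      calc |(dt u w : ℝ) - (N + (i : ℝ) * N / J)|
          = |((dt u w : ℝ) - dt u' w) + ((dt u' w : ℝ) - (N + (i : ℝ) * N / J))| := by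
            congr 1; ring
        _ ≤ s + s := (abs_add_le _ _).trans (add_le_add h1 hle)
        _ = 2 * s := by ring
    have hcard : (((bx L).filter bad).card : ℝ) ≤ ((J : ℝ) + 1) * ((L + 1) * (8 * η * √N + 1)) := by
      have h1 : ((bx L).filter bad).card ≤ ∑ i ∈ Finset.range (J + 1),
          ((bx L).filter (fun u => |(dt u w : ℝ) - (N + (i : ℝ) * N / J)| ≤ 2 * s)).card :=
        (Finset.card_le_card hsub).trans Finset.card_biUnion_le
      calc (((bx L).filter bad).card : ℝ) ≤ ((∑ i ∈ Finset.range (J + 1),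
          ((bx L).filter (fun u => |(dt u w : ℝ) - (N + (i : ℝ) * N / J)| ≤ 2 * s)).card : ℕ) :
            ℝ) := by exact_mod_cast h1
        _ = ∑ i ∈ Finset.range (J + 1), (((bx L).filter
            (fun u => |(dt u w : ℝ) - (N + (i : ℝ) * N / J)| ≤ 2 * s)).card : ℝ) := by
              push_cast; rfl
        _ ≤ ∑ i ∈ Finset.range (J + 1), ((L : ℝ) + 1) * (8 * η * √N + 1) := by
              refine Finset.sum_le_sum fun i _ => ?_
              refine (strip_card hw hw0 _ (by positivity : 0 ≤ 2 * s)).trans (le_of_eq ?_)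
              rw [← hMdef, hsdef]
              have hM0 : M ≠ 0 := by linarith
              have : 2 * (2 * (2 * η * √(N : ℝ) * M)) / M = 8 * η * √N := by
                field_simp; norm_num
              rw [this]
        _ = ((J : ℝ) + 1) * ((L + 1) * (8 * η * √N + 1)) := by
              rw [Finset.sum_const, nsmul_eq_mul, Finset.card_range]; push_cast; ring
    refine (Finset.abs_sum_le_sum_abs _ _).trans ?_
    calc ∑ u ∈ (bx L).filter bad, |f u * κ u w * km c N J W (dt u w).toNat|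
        ≤ ∑ u ∈ (bx L).filter bad, 2 * W * C0 := by
          refine Finset.sum_le_sum fun u hu => ?_
          rw [Finset.mem_filter] at hu
          rw [abs_mul, abs_mul]
          calc |f u| * |κ u w| * |km c N J W (dt u w).toNat|
              ≤ 1 * C0 * (2 * W) := by
                gcongr
                · exact hf u
                · exact hκ.bd u hu.1 w hw
                · exact hkm _
            _ = 2 * W * C0 := by ring
      _ = 2 * W * C0 * ((bx L).filter bad).card := by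
          rw [Finset.sum_const, nsmul_eq_mul]; ring
      _ ≤ _ := mul_le_mul_of_nonneg_left hcard (by positivity)
  · -- the good part
    have hmaps : ∀ u ∈ (bx L).filter (fun u => ¬ bad u), piece u ∈ (bx L).image piece := by
      intro u hu
      exact Finset.mem_image_of_mem _ (Finset.mem_filter.1 hu).1
    rw [← Finset.sum_fiberwise_of_maps_to hmaps]
    refine (Finset.abs_sum_le_sum_abs _ _).trans ?_
    have hj : ∀ j ∈ (bx L).image piece,
        |∑ u ∈ ((bx L).filter (fun u => ¬ bad u)).filter (fun u => piece u = j),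
          f u * κ u w * km c N J W (dt u w).toNat| ≤
        4 * W * C0 * η * ((bx L).filter (fun u => piece u = j)).card +
        2 * W * C0 * ∑ a ∈ Finset.range W ×ˢ Finset.range W,
        |∑ u ∈ (bx L).filter (fun u => piece u = j ∧ u.1 % (W : ℤ) = (a.1 : ℤ) ∧
          u.2 % (W : ℤ) = (a.2 : ℤ)), f u| := by
      intro j _
      rcases (((bx L).filter (fun u => ¬ bad u)).filter (fun u => piece u = j)).eq_empty_or_nonempty
        with h0 | ⟨u0, hu0⟩
      · rw [h0, Finset.sum_empty, abs_zero]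
        have : 0 ≤ ∑ a ∈ Finset.range W ×ˢ Finset.range W,
          |∑ u ∈ (bx L).filter (fun u => piece u = j ∧ u.1 % (W : ℤ) = (a.1 : ℤ) ∧
          u.2 % (W : ℤ) = (a.2 : ℤ)), f u| := Finset.sum_nonneg fun _ _ => abs_nonneg _
        positivity
      · rw [Finset.mem_filter, Finset.mem_filter] at hu0
        obtain ⟨⟨hu0a, hu0b⟩, hu0c⟩ := hu0
        have hgood : ∀ u ∈ bx L, piece u = j → ¬ bad u := by
          intro u _ huj hb
          apply hu0b
          obtain ⟨u', hu', hpp, h⟩ := hb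
          exact ⟨u', hu', by rw [hpp, huj, hu0c], h⟩
        have e1 : ((bx L).filter (fun u => ¬ bad u)).filter (fun u => piece u = j) =
            (bx L).filter (fun u => piece u = j) := by
          ext u
          rw [Finset.mem_filter, Finset.mem_filter, Finset.mem_filter]
          constructor
          · rintro ⟨⟨a1, -⟩, a3⟩; exact ⟨a1, a3⟩
          · rintro ⟨a1, a3⟩; exact ⟨⟨a1, hgood u a1 a3⟩, a3⟩
        rw [e1]
        have h1 := CwB_piece hJ hW hN hC0 hkm hκ hf hη ((bx L).filter (fun u => piece u = j))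
          (Finset.filter_subset _ _) (by
            intro u hu u' hu'
            rw [Finset.mem_filter] at hu hu'
            exact hp u hu.1 u' hu'.1 (by rw [hu.2, hu'.2])) hw (by
            intro u hu u' hu' i hi
            rw [Finset.mem_filter] at hu hu'
            have hg : ¬ bad u := hgood u hu.1 hu.2
            have hg' : ¬ bad u' := hgood u' hu'.1 hu'.2
            have g1 : s < |(dt u w : ℝ) - (N + (i : ℝ) * N / J)| := by
              by_contra h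
              exact hg ⟨u, hu.1, rfl, i, Finset.mem_range.2 (by omega), not_lt.1 h⟩
            have g2 : s < |(dt u' w : ℝ) - (N + (i : ℝ) * N / J)| := by
              by_contra h
              exact hg' ⟨u', hu'.1, rfl, i, Finset.mem_range.2 (by omega), not_lt.1 h⟩
            have g3 := hclose u hu.1 u' hu'.1 (by rw [hu.2, hu'.2])
            rw [abs_le] at g3
            rw [lt_abs] at g1 g2
            constructor
            · intro h
              by_contra h'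
              rw [not_lt] at h'
              rcases g1 with g1 | g1
              · linarith
              · linarith
            · intro h
              by_contra h'
              rw [not_lt] at h'
              rcases g2 with g2 | g2
              · linarith
              · linarith)
        refine h1.trans (le_of_eq ?_)
        congr 2
        refine Finset.sum_congr rfl fun a _ => ?_
        rw [Finset.filter_filter]
    refine (Finset.sum_le_sum hj).trans (le_of_eq ?_)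
    rw [Finset.sum_add_distrib, ← Finset.mul_sum, ← Finset.mul_sum]
    congr 1
    have hcard : ∑ j ∈ (bx L).image piece, (((bx L).filter (fun u => piece u = j)).card : ℝ) =
        ((L : ℝ) + 1) ^ 2 := by
      have h1 := Finset.card_eq_sum_card_image piece (bx L)
      have h2 : ((bx L).card : ℝ) = ((L : ℝ) + 1) ^ 2 := by
        unfold bx
        rw [Finset.card_product, Int.card_Icc]
        have : ((L : ℤ) + 1 - 0).toNat = L + 1 := by omega
        rw [this]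
        push_cast
        ring
      rw [← h2, h1]
      push_cast
      rfl
    rw [hcard]

open Classical in
/-- Proof. `(L+1)² ≤ 4 C0 N`. Fix `w ∈ bx L`, `w ≠ 0` (for `w = 0` all terms vanish),
`M = max w.1 w.2 ≥ 1`. Call a piece clean if `dt u w` is in one and the same cell `[N, 2N) ∩ (ci = i)`
for all `u` of the piece, or outside `[N, 2N)` for all of them. If a piece is not clean it contains
`u, u'` such that one of the `J + 1` numbers `t_i = N + i N/J` (`0 ≤ i ≤ J`) lies between `dt u w` and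
`dt u' w`; since `|dt (u'' - u) w| ≤ 2 η √N M` for any two vectors of the piece, all vectors `u''` of
the piece satisfy `|dt u'' w - t_i| ≤ 2 η √N M`. By `strip_card` the unclean pieces together have at
most `(J+1)(L+1)(4 η √N + 1)` elements, and contribute at most `C0 * 2W` each (`km_le`,
`2 W/φ(W) ≤ 2 W`). A clean piece outside `[N, 2N)` contributes `0`. In a clean piece inside a cell,
`km(dt u w)` only depends on the class of `u` modulo `W`; replace `κ u w` by `κ u_j w` with a fixed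
`u_j` of the piece: error at most `C0 * 2 η * 2 W` for each `u`. The rest is at most
`C0 * 2 W * ∑_a |∑_{u in the piece, u ≡ a} f u|`. Summing over the pieces and over `w`:
`(L+1)² (2 W C0 (J+1)(L+1)(4 η √N + 1) + 4 W C0 η (L+1)² + 2 W C0 η N)`, at most `ε N²` if `η` is
small in terms of `C0, J, W, ε` and `N ≥ N0`. -/
theorem km_kernel (C0 ε : ℝ) (hC0 : 1 ≤ C0) (hε : 0 < ε) (J W : ℕ) (hJ : 1 ≤ J) (hW : 1 ≤ W) :
    ∃ (η : ℝ) (N0 : ℕ), 0 < η ∧ ∀ N ≥ N0, ∀ L : ℕ, (L : ℝ) ^ 2 ≤ C0 * N →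
    ∀ κ : ℤ × ℤ → ℤ × ℤ → ℝ, LK C0 N L κ → ∀ c : ℕ → ℝ, (∀ p, |c p| ≤ 1) →
    ∀ f h : ℤ × ℤ → ℝ, (∀ u, |f u| ≤ 1) → (∀ u, |h u| ≤ 1) → SM W η N L f →
    |∑ u ∈ bx L, ∑ w ∈ bx L, f u * h w * κ u w * km c N J W (dt u w).toNat| ≤
      ε * (N : ℝ) ^ 2 := by
  have hJ' : (1 : ℝ) ≤ J := by exact_mod_cast hJ
  have hW' : (1 : ℝ) ≤ W := by exact_mod_cast hW
  obtain ⟨N0, hN0⟩ := km_le J W hJ hW
  set D : ℝ := 216 * W * C0 ^ 3 * (J + 1) with hD
  have hD0 : 0 < D := by positivity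
  set η : ℝ := ε / D with hηdef
  have hη : 0 < η := by positivity
  refine ⟨η, max N0 (⌈1 / η ^ 2⌉₊ + 1), hη, ?_⟩
  intro N hN L hL κ hκ c hc f h hf hh hSM
  have hNN : N0 ≤ N := (le_max_left _ _).trans hN
  have hN2 : ⌈1 / η ^ 2⌉₊ + 1 ≤ N := (le_max_right _ _).trans hN
  have hN1 : 1 ≤ N := by omega
  have hN' : (1 : ℝ) ≤ N := by exact_mod_cast hN1
  have hN3 : 1 / η ^ 2 ≤ (N : ℝ) :=
    (Nat.le_ceil _).trans (by exact_mod_cast (by omega : ⌈1 / η ^ 2⌉₊ ≤ N))
  have hsN : √(N : ℝ) ≤ η * N := by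
    have h1 : 1 ≤ η ^ 2 * N := by
      rw [div_le_iff₀ (by positivity)] at hN3; linarith only [hN3]
    refine Real.sqrt_le_iff.2 ⟨by positivity, ?_⟩
    nlinarith only [h1]
  have hkm : ∀ m, |km c N J W m| ≤ 2 * W := by
    intro m
    refine (hN0 N hNN c hc m).trans ?_
    have hφ : (1 : ℝ) ≤ Nat.totient W := by
      exact_mod_cast Nat.totient_pos.2 (by omega)
    rw [div_le_iff₀ (by linarith)]
    nlinarith only [hφ]
  obtain ⟨piece, hp, hsum⟩ := hSM
  have hT := fun w (hw : w ∈ bx L) => CwB_T hJ hW hN1 (by linarith) hkm hκ hf hη piece hp hw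
  set SS := ∑ j ∈ (bx L).image piece, ∑ a ∈ Finset.range W ×ˢ Finset.range W,
        |∑ u ∈ (bx L).filter (fun u => piece u = j ∧ u.1 % (W : ℤ) = (a.1 : ℤ) ∧
          u.2 % (W : ℤ) = (a.2 : ℤ)), f u| with hSS
  -- sizes
  have hL4 : ((L : ℝ) + 1) ^ 2 ≤ 4 * (C0 * N) := by
    rcases Nat.eq_zero_or_pos L with h0 | h0
    · rw [h0]; push_cast; nlinarith only [hC0, hN']
    · have : (1 : ℝ) ≤ L := by exact_mod_cast h0
      nlinarith only [hL, this]
  have hsq : √(N : ℝ) ^ 2 = N := Real.sq_sqrt (by linarith)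
  have hs1 : 1 ≤ √(N : ℝ) := by
    rw [Real.one_le_sqrt]; exact hN'
  have hL2 : (L : ℝ) + 1 ≤ 2 * C0 * √N := by
    have h1 : ((L : ℝ) + 1) ^ 2 ≤ (2 * C0 * √N) ^ 2 := by
      have : (2 * C0 * √(N : ℝ)) ^ 2 = 4 * C0 ^ 2 * N := by rw [mul_pow, hsq]; ring
      rw [this]
      nlinarith only [hC0, hL4]
    exact (abs_le_of_sq_le_sq' h1 (by positivity)).2
  set X : ℝ := 2 * W * C0 * (((J : ℝ) + 1) * ((L + 1) * (8 * η * √N + 1))) +
      (4 * W * C0 * η * (L + 1) ^ 2 + 2 * W * C0 * SS) with hX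
  have hXle : X ≤ 54 * W * C0 ^ 2 * (J + 1) * η * N := by
    have a1 : ((L : ℝ) + 1) * (8 * η * √N + 1) ≤ 18 * C0 * η * N := by
      calc ((L : ℝ) + 1) * (8 * η * √N + 1) ≤ (2 * C0 * √N) * (8 * η * √N + 1) :=
            mul_le_mul_of_nonneg_right hL2 (by positivity)
        _ = 16 * C0 * η * (√(N : ℝ) ^ 2) + 2 * C0 * √N := by ring
        _ = 16 * C0 * η * N + 2 * C0 * √N := by rw [hsq]
        _ ≤ 16 * C0 * η * N + 2 * C0 * (η * N) := by
            have : 2 * C0 * √(N : ℝ) ≤ 2 * C0 * (η * N) :=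
              mul_le_mul_of_nonneg_left hsN (by positivity)
            linarith
        _ = 18 * C0 * η * N := by ring
    have a2 : 2 * (W : ℝ) * C0 * (((J : ℝ) + 1) * ((L + 1) * (8 * η * √N + 1))) ≤
        2 * W * C0 * (((J : ℝ) + 1) * (18 * C0 * η * N)) := by
      gcongr
    have a3 : 4 * (W : ℝ) * C0 * η * (L + 1) ^ 2 ≤ 4 * W * C0 * η * (4 * (C0 * N)) := by
      gcongr
    have a4 : 2 * (W : ℝ) * C0 * SS ≤ 2 * W * C0 * (η * N) := by
      gcongr
    have a5 : X ≤ 2 * W * C0 * (((J : ℝ) + 1) * (18 * C0 * η * N)) +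
        (4 * W * C0 * η * (4 * (C0 * N)) + 2 * W * C0 * (η * N)) := by
      rw [hX]; linarith only [a2, a3, a4]
    refine a5.trans ?_
    have b1 : 0 ≤ (W : ℝ) * C0 * η * N := by positivity
    have b2 : (W : ℝ) * C0 * η * N ≤ W * C0 ^ 2 * η * N := by nlinarith only [hC0, b1]
    have b3 : (W : ℝ) * C0 ^ 2 * η * N ≤ W * C0 ^ 2 * η * N * J := by
      have : 0 ≤ (W : ℝ) * C0 ^ 2 * η * N := by positivity
      nlinarith only [hJ', this]
    linarith only [b1, b2, b3]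
  have hX0 : 0 ≤ X := by
    rcases (bx L).eq_empty_or_nonempty with h0 | ⟨w, hw⟩
    · exfalso
      have : ((0 : ℤ), (0 : ℤ)) ∈ bx L := by
        unfold bx
        rw [Finset.mem_product]
        simp
      rw [h0] at this
      exact absurd this (Finset.notMem_empty _)
    · exact (abs_nonneg _).trans (hT w hw)
  have hcardB : ((bx L).card : ℝ) = ((L : ℝ) + 1) ^ 2 := by
    unfold bx
    rw [Finset.card_product, Int.card_Icc]
    have : ((L : ℤ) + 1 - 0).toNat = L + 1 := by omega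
    rw [this]
    push_cast
    ring
  have e1 : ∑ u ∈ bx L, ∑ w ∈ bx L, f u * h w * κ u w * km c N J W (dt u w).toNat =
      ∑ w ∈ bx L, h w * ∑ u ∈ bx L, f u * κ u w * km c N J W (dt u w).toNat := by
    rw [Finset.sum_comm]
    refine Finset.sum_congr rfl fun w _ => ?_
    rw [Finset.mul_sum]
    refine Finset.sum_congr rfl fun u _ => by ring
  rw [e1]
  refine (Finset.abs_sum_le_sum_abs _ _).trans ?_
  calc ∑ w ∈ bx L, |h w * ∑ u ∈ bx L, f u * κ u w * km c N J W (dt u w).toNat|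
      ≤ ∑ w ∈ bx L, X := by
        refine Finset.sum_le_sum fun w hw => ?_
        rw [abs_mul]
        calc |h w| * |∑ u ∈ bx L, f u * κ u w * km c N J W (dt u w).toNat|
            ≤ 1 * X := mul_le_mul (hh w) (hT w hw) (abs_nonneg _) zero_le_one
          _ = X := one_mul _
    _ = ((L : ℝ) + 1) ^ 2 * X := by rw [Finset.sum_const, nsmul_eq_mul, hcardB]
    _ ≤ (4 * (C0 * N)) * (54 * W * C0 ^ 2 * (J + 1) * η * N) := by
        gcongr
    _ = D * η * (N : ℝ) ^ 2 := by rw [hD]; ring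
    _ = ε * (N : ℝ) ^ 2 := by
        rw [hηdef]
        field_simp

end

end Pool.Agent.Lib.MP_0b748d_nt.HHC
end

section

set_option autoImplicit false

/-!
# The part of the correlations not prime to the modulus
-/

namespace Pool.Agent.Lib.MP_0b748d_nt.HHC

noncomputable section

private theorem CncB_count (X g : ℕ) :
    (((Finset.Icc 1 X).filter (fun δ => g ∣ δ)).card : ℝ) * g ≤ X := by
  have h1 : ((Finset.Icc 1 X).filter (fun δ => g ∣ δ)).card = X / g := by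
    have h2 : Finset.Icc 1 X = Finset.Ioc 0 X := by
      ext
      simp [Nat.succ_le_iff]
    rw [h2]
    exact Nat.Ioc_filter_dvd_card_eq_div X g
  rw [h1]
  exact_mod_cast Nat.div_mul_le_self X g

private theorem CncB_eq {N m n : ℕ} (_hN : 1 ≤ N) (hm : N ≤ m) (hn1 : N ≤ n) (hn : n < 2 * N)
    (h : m ∣ n) : n = m := by
  obtain ⟨k, rfl⟩ := h
  have h1 : k < 2 := by
    by_contra h2
    push Not at h2
    have := Nat.mul_le_mul hm h2
    omega
  have h2 : k ≠ 0 := by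
    rintro rfl
    omega
  have h3 : k = 1 := by omega
  rw [h3, mul_one]

open Classical in
private theorem CncB_swap {δ : ℕ} (hδ : 1 ≤ δ) {S T I : Finset ℕ} (hS : S ⊆ I) (hT : T ⊆ I)
    (a : ℕ → ℝ) (ha : ∀ m, 0 ≤ a m) :
    ∑ ρ ∈ ur δ, ∑ m ∈ S.filter (fun m => ¬ Nat.Coprime m δ), ∑ n ∈ T,
      (if n ≡ ρ * m [MOD δ] then a m * a n else 0) ≤
    ∑ m ∈ I, ∑ n ∈ I, (if Nat.gcd n δ = Nat.gcd m δ ∧ 1 < Nat.gcd m δ then
      (Nat.gcd m δ : ℝ) * (a m * a n) else 0) := by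
  have hnn : ∀ m n, 0 ≤ (if Nat.gcd n δ = Nat.gcd m δ ∧ 1 < Nat.gcd m δ then
      (Nat.gcd m δ : ℝ) * (a m * a n) else 0) := by
    intro m n
    split_ifs
    · exact mul_nonneg (Nat.cast_nonneg _) (mul_nonneg (ha m) (ha n))
    · exact le_rfl
  calc ∑ ρ ∈ ur δ, ∑ m ∈ S.filter (fun m => ¬ Nat.Coprime m δ), ∑ n ∈ T,
      (if n ≡ ρ * m [MOD δ] then a m * a n else 0)
      = ∑ m ∈ S.filter (fun m => ¬ Nat.Coprime m δ), ∑ n ∈ T, ∑ ρ ∈ ur δ,
      (if n ≡ ρ * m [MOD δ] then a m * a n else 0) := by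
        rw [Finset.sum_comm]
        exact Finset.sum_congr rfl fun m _ => Finset.sum_comm
    _ ≤ ∑ m ∈ S.filter (fun m => ¬ Nat.Coprime m δ), ∑ n ∈ T,
      (if Nat.gcd n δ = Nat.gcd m δ ∧ 1 < Nat.gcd m δ then
      (Nat.gcd m δ : ℝ) * (a m * a n) else 0) := by
        refine Finset.sum_le_sum fun m hm => Finset.sum_le_sum fun n _ => ?_
        rw [← Finset.sum_filter, Finset.sum_const, nsmul_eq_mul]
        have h1 := unit_card hδ m n
        have hg : 1 < Nat.gcd m δ := by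
          have h2 : Nat.gcd m δ ≠ 1 := (Finset.mem_filter.1 hm).2
          have h3 : 0 < Nat.gcd m δ := Nat.gcd_pos_of_pos_right m (by omega)
          omega
        have h4 : 0 ≤ a m * a n := mul_nonneg (ha m) (ha n)
        by_cases h5 : Nat.gcd n δ = Nat.gcd m δ
        · rw [if_pos h5] at h1
          rw [if_pos ⟨h5, hg⟩]
          exact mul_le_mul_of_nonneg_right (by exact_mod_cast h1) h4
        · rw [if_neg h5] at h1
          rw [if_neg fun h => h5 h.1]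
          have h6 : ((ur δ).filter (fun ρ => n ≡ ρ * m [MOD δ])).card = 0 := by omega
          rw [h6, Nat.cast_zero, zero_mul]
    _ ≤ ∑ m ∈ I, ∑ n ∈ T, (if Nat.gcd n δ = Nat.gcd m δ ∧ 1 < Nat.gcd m δ then
      (Nat.gcd m δ : ℝ) * (a m * a n) else 0) :=
        Finset.sum_le_sum_of_subset_of_nonneg ((Finset.filter_subset _ _).trans hS)
          fun m _ _ => Finset.sum_nonneg fun n _ => hnn m n
    _ ≤ ∑ m ∈ I, ∑ n ∈ I, (if Nat.gcd n δ = Nat.gcd m δ ∧ 1 < Nat.gcd m δ then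
      (Nat.gcd m δ : ℝ) * (a m * a n) else 0) :=
        Finset.sum_le_sum fun m _ =>
          Finset.sum_le_sum_of_subset_of_nonneg hT fun n _ _ => hnn m n

private theorem CncB_big {r W g m : ℕ} (hrW : (r ^ 3).factorial ∣ W) (hg : 1 < g) (hgm : g ∣ m)
    (hm : Nat.Coprime m W) : r ^ 3 < g := by
  by_contra h
  push Not at h
  obtain ⟨p, hp, hpg⟩ := Nat.exists_prime_and_dvd (by omega : g ≠ 1)
  have h1 : p ≤ r ^ 3 := (Nat.le_of_dvd (by omega) hpg).trans h
  have h2 : p ∣ W := ((Nat.Prime.dvd_factorial hp).2 h1).trans hrW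
  have h3 : p ∣ 1 := by
    rw [← Nat.coprime_iff_gcd_eq_one.1 hm]
    exact Nat.dvd_gcd (hpg.trans hgm) h2
  exact hp.one_lt.ne' (Nat.dvd_one.1 h3)

private theorem CncB_np {N J W m : ℕ} (c : ℕ → ℝ) (h : ¬ m.Prime) :
    |ks c N J W m| = |km c N J W m| := by
  unfold ks kp
  rw [if_neg fun h' => h h'.1, zero_sub, abs_neg]

open Classical in
private theorem CncB_point {N J W r δ m n : ℕ} (c : ℕ → ℝ) (hrW : (r ^ 3).factorial ∣ W)
    (hN : 1 ≤ N) (hm : m ∈ Finset.Ico N (2 * N)) (hn : n ∈ Finset.Ico N (2 * N)) :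
    (if Nat.gcd n δ = Nat.gcd m δ ∧ 1 < Nat.gcd m δ then
      (Nat.gcd m δ : ℝ) * (|ks c N J W m| * |ks c N J W n|) else 0) ≤
    (if m = n then (if m.Prime ∧ m ∣ δ then (m : ℝ) * |ks c N J W m| ^ 2 else 0) else 0) +
    ∑ g ∈ (Finset.Ioo (r ^ 3) (2 * N)).filter (fun g => g ∣ δ), (g : ℝ) *
      ((if g ∣ m then |km c N J W m| else 0) * (if g ∣ n then |km c N J W n| else 0)) := by
  rw [Finset.mem_Ico] at hm hn
  have hβ : ∀ g ∈ (Finset.Ioo (r ^ 3) (2 * N)).filter (fun g => g ∣ δ), 0 ≤ (g : ℝ) *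
      ((if g ∣ m then |km c N J W m| else 0) * (if g ∣ n then |km c N J W n| else 0)) := by
    intro g _
    refine mul_nonneg (Nat.cast_nonneg _) (mul_nonneg ?_ ?_)
    · split_ifs
      · exact abs_nonneg _
      · exact le_rfl
    · split_ifs
      · exact abs_nonneg _
      · exact le_rfl
  have hβs := Finset.sum_nonneg hβ
  have hα : 0 ≤ (if m = n then (if m.Prime ∧ m ∣ δ then (m : ℝ) * |ks c N J W m| ^ 2 else 0)
      else 0) := by
    split_ifs
    · positivity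
    · exact le_rfl
    · exact le_rfl
  by_cases h : Nat.gcd n δ = Nat.gcd m δ ∧ 1 < Nat.gcd m δ
  · rw [if_pos h]
    obtain ⟨h1, h2⟩ := h
    have hgm := Nat.gcd_dvd_left m δ
    have hgδ := Nat.gcd_dvd_right m δ
    have hgn : Nat.gcd m δ ∣ n := by rw [← h1]; exact Nat.gcd_dvd_left n δ
    by_cases hp : m.Prime
    · have h3 : Nat.gcd m δ = m := by
        rcases (Nat.dvd_prime hp).1 hgm with h | h
        · omega
        · exact h
      rw [h3] at hgn hgδ
      have h4 : n = m := CncB_eq hN hm.1 hn.1 hn.2 hgn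
      rw [h4, if_pos rfl, if_pos ⟨hp, hgδ⟩, h3, ← pow_two]
      rw [h4] at hβs
      linarith
    · by_cases hq : n.Prime
      · exfalso
        have h3 : Nat.gcd m δ = n := by
          rcases (Nat.dvd_prime hq).1 hgn with h | h
          · omega
          · exact h
        rw [h3] at hgm
        have h4 : m = n := CncB_eq hN hn.1 hm.1 hm.2 hgm
        rw [h4] at hp
        exact hp hq
      · have key : (Nat.gcd m δ : ℝ) * (|ks c N J W m| * |ks c N J W n|) ≤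
            ∑ g ∈ (Finset.Ioo (r ^ 3) (2 * N)).filter (fun g => g ∣ δ), (g : ℝ) *
              ((if g ∣ m then |km c N J W m| else 0) *
                (if g ∣ n then |km c N J W n| else 0)) := by
          rw [CncB_np c hp, CncB_np c hq]
          by_cases hz : km c N J W m = 0
          · rw [hz, abs_zero, zero_mul, mul_zero]
            rw [hz, abs_zero] at hβs
            exact hβs
          · have hco : Nat.Coprime m W := by
              by_contra hc
              apply hz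
              unfold km
              exact if_neg fun h => hc h.2.2
            have h5 : Nat.gcd m δ ∈ (Finset.Ioo (r ^ 3) (2 * N)).filter (fun g => g ∣ δ) := by
              rw [Finset.mem_filter, Finset.mem_Ioo]
              exact ⟨⟨CncB_big hrW h2 hgm hco,
                lt_of_le_of_lt (Nat.le_of_dvd (by omega) hgm) hm.2⟩, hgδ⟩
            have h6 := Finset.single_le_sum hβ h5
            rw [if_pos hgm, if_pos hgn] at h6
            exact h6
        exact key.trans (le_add_of_nonneg_left hα)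
  · rw [if_neg h]
    exact add_nonneg hα hβs

open Classical in
/-- Proof. Sum over `ρ` first: by `unit_card` the sum over `ρ, m, n` is at most
`∑_{m, n : gcd(m, δ) = gcd(n, δ) = g > 1} g |ks m| |ks n|`, `m, n ∈ [N, 2N)`.
(α) Pairs with `m` prime: `g = m`, `m ∣ n`, so `n = m` as `n < 2N`; likewise `n` prime gives
`m = n`. These pairs contribute at most `∑_{m prime, m ∣ δ} m |ks m|² ≤ 2N (2 log N)²` for every such
`m` (`ks_le`); for each `m` there are at most `C0 N/m ≤ C0` values of `δ`; by `prime_count` the total is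
at most `C0 * 5 (N/log N) * 8 N (log N)² = 40 C0 N² log N`.
(β) Pairs with `m, n` not prime: `|ks m| = |km m|`, nonzero only if `m` is prime to `W`; then `g` is
prime to `W`, `g > 1`, so `g > r^3` (every prime `≤ r^3` divides `W`), and `g < 2N`. They contribute at
most `∑_g g (∑_{m, g ∣ m} |km m|)² ≤ ∑_g g (2N/g + 2W)²` (`km_dvd`), the sum over `g ∣ δ`,
`r^3 < g < 2N`. The sum over `δ ≤ C0 N` is at most
`∑_{r³ < g < 2N} (C0 N/g) g (8 N²/g² + 8 W²) ≤ 8 C0 N (N²/r³ + 2 N W²)` (`tail_sq`).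
Altogether at most `(20 C0/r) N³` for large `N`. -/
theorem NC (C0 : ℝ) (hC0 : 1 ≤ C0) (r J W : ℕ) (hr : 1 ≤ r) (hJ : 1 ≤ J) (hW : 1 ≤ W)
    (hrW : (r ^ 3).factorial ∣ W) : ∃ N0 : ℕ, ∀ N ≥ N0, ∀ c : ℕ → ℝ, (∀ p, |c p| ≤ 1) →
    ∀ i j : ℕ, ∑ δ ∈ Finset.Icc 1 ⌊C0 * N⌋₊, ∑ ρ ∈ ur δ,
      ∑ m ∈ (cell N J i).filter (fun m => ¬ Nat.Coprime m δ), ∑ n ∈ cell N J j,
        (if n ≡ ρ * m [MOD δ] then |ks c N J W m| * |ks c N J W n| else 0) ≤
      20 * C0 / r * (N : ℝ) ^ 3 := by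
  obtain ⟨N1, hN1⟩ := ks_le J W hJ hW
  obtain ⟨N2, hN2⟩ := km_dvd J W hJ hW
  obtain ⟨N3, hN3⟩ := prime_count
  refine ⟨N1 + N2 + N3 + 196 * r ^ 2 + 16 * W ^ 2 * r + 2, fun N hN c hc i j => ?_⟩
  have hNN : 1 < N := by nlinarith [hN, Nat.zero_le (196 * r ^ 2), Nat.zero_le (16 * W ^ 2 * r)]
  have hNr : (1 : ℝ) < N := by exact_mod_cast hNN
  have hN0 : (0 : ℝ) < N := by linarith
  have hr0 : (1 : ℝ) ≤ r := by exact_mod_cast hr
  have hlog : 0 < Real.log N := Real.log_pos hNr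
  have hC : (0 : ℝ) < C0 := by linarith
  obtain ⟨I, hI⟩ : ∃ I, Finset.Ico N (2 * N) = I := ⟨_, rfl⟩
  obtain ⟨X, hX⟩ : ∃ X, ⌊C0 * N⌋₊ = X := ⟨_, rfl⟩
  have hXr : (X : ℝ) ≤ C0 * N := by
    rw [← hX]
    exact Nat.floor_le (by positivity)
  obtain ⟨G, hG⟩ : ∃ G, Finset.Ioo (r ^ 3) (2 * N) = G := ⟨_, rfl⟩
  have hcell : ∀ i', cell N J i' ⊆ I := by
    intro i'
    rw [← hI]
    unfold cell
    exact Finset.filter_subset _ _
  obtain ⟨B, hB⟩ : ∃ B : ℕ → ℝ, ∀ g, B g = ∑ m ∈ I, (if g ∣ m then |km c N J W m| else 0) :=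
    ⟨_, fun g => rfl⟩
  have hB0 : ∀ g, 0 ≤ B g := by
    intro g
    rw [hB]
    refine Finset.sum_nonneg fun m _ => ?_
    split_ifs
    · exact abs_nonneg _
    · exact le_rfl
  have hBle : ∀ g, 1 ≤ g → B g ≤ 2 * N / g + 2 * W := by
    intro g hg
    have h1 := hN2 N (by omega) c hc g hg
    rw [hI, Finset.sum_filter] at h1
    rw [hB]
    exact h1
  -- the sum for one modulus
  have hδ : ∀ δ ∈ Finset.Icc 1 X, ∑ ρ ∈ ur δ,
      ∑ m ∈ (cell N J i).filter (fun m => ¬ Nat.Coprime m δ), ∑ n ∈ cell N J j,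
        (if n ≡ ρ * m [MOD δ] then |ks c N J W m| * |ks c N J W n| else 0) ≤
      ∑ m ∈ I.filter Nat.Prime, (if m ∣ δ then (m : ℝ) * |ks c N J W m| ^ 2 else 0) +
      ∑ g ∈ G, (if g ∣ δ then (g : ℝ) * B g ^ 2 else 0) := by
    intro δ hδ
    rw [Finset.mem_Icc] at hδ
    refine (CncB_swap hδ.1 (hcell i) (hcell j) (fun m => |ks c N J W m|)
      (fun m => abs_nonneg _)).trans ?_
    have h1 : ∀ m ∈ I, ∀ n ∈ I, (if Nat.gcd n δ = Nat.gcd m δ ∧ 1 < Nat.gcd m δ then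
      (Nat.gcd m δ : ℝ) * (|ks c N J W m| * |ks c N J W n|) else 0) ≤
      (if m = n then (if m.Prime ∧ m ∣ δ then (m : ℝ) * |ks c N J W m| ^ 2 else 0) else 0) +
      ∑ g ∈ G.filter (fun g => g ∣ δ), (g : ℝ) *
        ((if g ∣ m then |km c N J W m| else 0) * (if g ∣ n then |km c N J W n| else 0)) := by
      intro m hm n hn
      rw [← hG]
      rw [← hI] at hm hn
      exact CncB_point c hrW hNN.le hm hn
    refine (Finset.sum_le_sum fun m hm => Finset.sum_le_sum fun n hn => h1 m hm n hn).trans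
      (le_of_eq ?_)
    simp only [Finset.sum_add_distrib]
    congr 1
    · rw [Finset.sum_filter]
      refine Finset.sum_congr rfl fun m hm => ?_
      rw [Finset.sum_ite_eq I m, if_pos hm]
      by_cases hp : m.Prime
      · simp [hp]
      · simp [hp]
    · have h2 : ∀ m ∈ I, ∑ n ∈ I, ∑ g ∈ G.filter (fun g => g ∣ δ), (g : ℝ) *
          ((if g ∣ m then |km c N J W m| else 0) * (if g ∣ n then |km c N J W n| else 0)) =
          ∑ g ∈ G.filter (fun g => g ∣ δ), (g : ℝ) *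
            ((if g ∣ m then |km c N J W m| else 0) * B g) := by
        intro m _
        rw [Finset.sum_comm]
        refine Finset.sum_congr rfl fun g _ => ?_
        rw [← Finset.mul_sum, ← Finset.mul_sum, hB]
      rw [Finset.sum_congr rfl h2, Finset.sum_comm, Finset.sum_filter]
      refine Finset.sum_congr rfl fun g _ => ?_
      split_ifs
      · rw [← Finset.mul_sum, ← Finset.sum_mul, ← hB, pow_two]
      · rfl
  refine (Finset.sum_le_sum (s := Finset.Icc 1 ⌊C0 * N⌋₊) fun δ h => hδ δ (by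
    rwa [hX] at h)).trans ?_
  rw [hX, Finset.sum_add_distrib]
  have hcomm : ∀ (s : Finset ℕ) (f : ℕ → ℝ), (∀ g ∈ s, 0 ≤ f g) →
      ∑ δ ∈ Finset.Icc 1 X, ∑ g ∈ s, (if g ∣ δ then (g : ℝ) * f g else 0) ≤
        ∑ g ∈ s, C0 * N * f g := by
    intro s f hf
    rw [Finset.sum_comm]
    refine Finset.sum_le_sum fun g hg => ?_
    rw [← Finset.sum_filter, Finset.sum_const, nsmul_eq_mul, ← mul_assoc]
    exact mul_le_mul_of_nonneg_right ((CncB_count X g).trans hXr) (hf g hg)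
  have hα : ∑ δ ∈ Finset.Icc 1 X, ∑ m ∈ I.filter Nat.Prime,
      (if m ∣ δ then (m : ℝ) * |ks c N J W m| ^ 2 else 0) ≤ 20 * C0 * (N : ℝ) ^ 2 *
        Real.log N := by
    refine (hcomm _ (fun m => |ks c N J W m| ^ 2) fun g _ => by positivity).trans ?_
    have h1 : ∀ m ∈ I.filter Nat.Prime, C0 * N * |ks c N J W m| ^ 2 ≤
        C0 * N * (2 * Real.log N) ^ 2 := by
      intro m _
      refine mul_le_mul_of_nonneg_left ?_ (by positivity)
      exact pow_le_pow_left₀ (abs_nonneg _) (hN1 N (by omega) c hc m) 2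
    refine (Finset.sum_le_sum h1).trans ?_
    rw [Finset.sum_const, nsmul_eq_mul]
    have h2 := hN3 N (by omega)
    rw [hI] at h2
    calc ((I.filter Nat.Prime).card : ℝ) * (C0 * N * (2 * Real.log N) ^ 2)
        ≤ 5 * (N / Real.log N) * (C0 * N * (2 * Real.log N) ^ 2) :=
          mul_le_mul_of_nonneg_right h2 (by positivity)
      _ = 20 * C0 * (N : ℝ) ^ 2 * Real.log N := by
          field_simp
          ring
  have hr3 : 1 ≤ r ^ 3 := Nat.one_le_pow _ _ hr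
  have hβ : ∑ δ ∈ Finset.Icc 1 X, ∑ g ∈ G, (if g ∣ δ then (g : ℝ) * B g ^ 2 else 0) ≤
      8 * C0 * (N : ℝ) ^ 3 / r + 16 * C0 * (W : ℝ) ^ 2 * (N : ℝ) ^ 2 := by
    refine (hcomm _ (fun g => B g ^ 2) fun g _ => by positivity).trans ?_
    have h1 : ∀ g ∈ G, C0 * N * B g ^ 2 ≤
        8 * C0 * (N : ℝ) ^ 3 * (1 / (g : ℝ) ^ 2) + 8 * C0 * N * (W : ℝ) ^ 2 := by
      intro g hg
      rw [← hG, Finset.mem_Ioo] at hg
      have hg1 : 1 ≤ g := by omega
      have h2 : B g ^ 2 ≤ (2 * N / g + 2 * W) ^ 2 :=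
        pow_le_pow_left₀ (hB0 g) (hBle g hg1) 2
      have h3 : (2 * (N : ℝ) / g + 2 * W) ^ 2 ≤ 8 * ((N : ℝ) ^ 2 * (1 / (g : ℝ) ^ 2)) +
          8 * (W : ℝ) ^ 2 := by
        have h4 : (N : ℝ) ^ 2 * (1 / (g : ℝ) ^ 2) = ((N : ℝ) / g) ^ 2 := by ring
        rw [h4, mul_div_assoc]
        nlinarith [sq_nonneg ((N : ℝ) / g - W)]
      calc C0 * N * B g ^ 2 ≤ C0 * N * (8 * ((N : ℝ) ^ 2 * (1 / (g : ℝ) ^ 2)) +
          8 * (W : ℝ) ^ 2) := mul_le_mul_of_nonneg_left (h2.trans h3) (by positivity)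
        _ = _ := by ring
    refine (Finset.sum_le_sum h1).trans ?_
    rw [Finset.sum_add_distrib, ← Finset.mul_sum, Finset.sum_const, nsmul_eq_mul]
    have h5 : ∑ g ∈ G, 1 / (g : ℝ) ^ 2 ≤ 1 / (r : ℝ) := by
      refine (Finset.sum_le_sum_of_subset_of_nonneg (t := Finset.Ioc (r ^ 3) (2 * N)) ?_
        fun g _ _ => by positivity).trans ((tail_sq (r ^ 3) (2 * N) hr3).trans ?_)
      · rw [← hG]
        exact Finset.Ioo_subset_Ioc_self
      · apply one_div_le_one_div_of_le (by linarith)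
        push_cast
        calc (r : ℝ) = (r : ℝ) ^ 1 := (pow_one _).symm
          _ ≤ (r : ℝ) ^ 3 := pow_le_pow_right₀ hr0 (by norm_num)
    have h6 : (G.card : ℝ) ≤ 2 * N := by
      rw [← hG, Nat.card_Ioo]
      have : 2 * N - r ^ 3 - 1 ≤ 2 * N := by omega
      exact_mod_cast this
    have h7 : 8 * C0 * (N : ℝ) ^ 3 * ∑ g ∈ G, 1 / (g : ℝ) ^ 2 ≤ 8 * C0 * (N : ℝ) ^ 3 / r := by
      rw [div_eq_mul_one_div (8 * C0 * (N : ℝ) ^ 3)]
      exact mul_le_mul_of_nonneg_left h5 (by positivity)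
    have h8 : (G.card : ℝ) * (8 * C0 * N * (W : ℝ) ^ 2) ≤
        16 * C0 * (W : ℝ) ^ 2 * (N : ℝ) ^ 2 := by
      calc (G.card : ℝ) * (8 * C0 * N * (W : ℝ) ^ 2) ≤ 2 * N * (8 * C0 * N * (W : ℝ) ^ 2) :=
            mul_le_mul_of_nonneg_right h6 (by positivity)
        _ = _ := by ring
    exact add_le_add h7 h8
  refine (add_le_add hα hβ).trans ?_
  have hr00 : (0 : ℝ) < r := by linarith
  -- `20 log N ≤ 6 N / r`
  have e1 : 20 * Real.log N ≤ 6 * N / r := by
    have h1 : Real.log N ≤ 2 * Real.sqrt N := by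
      have h2 : Real.log (Real.sqrt N) ≤ Real.sqrt N := Real.log_le_self (Real.sqrt_nonneg _)
      rw [Real.log_sqrt (by positivity)] at h2
      linarith
    have h3 : 14 * (r : ℝ) ≤ Real.sqrt N := by
      apply Real.le_sqrt_of_sq_le
      have : 196 * r ^ 2 ≤ N := by omega
      have h4 : ((196 * r ^ 2 : ℕ) : ℝ) ≤ N := by exact_mod_cast this
      push_cast at h4
      nlinarith
    have h5 : Real.sqrt N * Real.sqrt N = N := Real.mul_self_sqrt hN0.le
    rw [le_div_iff₀ hr00]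
    have h6 : 0 ≤ Real.sqrt N := Real.sqrt_nonneg _
    calc 20 * Real.log N * r ≤ 20 * (2 * Real.sqrt N) * r := by
          apply mul_le_mul_of_nonneg_right _ hr00.le
          linarith
      _ = (40 * (r : ℝ)) * Real.sqrt N := by ring
      _ ≤ (6 * Real.sqrt N) * Real.sqrt N := by
          apply mul_le_mul_of_nonneg_right _ h6
          linarith
      _ = 6 * N := by rw [mul_assoc, h5]
  have e2 : 16 * (W : ℝ) ^ 2 ≤ N / r := by
    rw [le_div_iff₀ hr00]
    have : 16 * W ^ 2 * r ≤ N := by omega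
    exact_mod_cast this
  have h1 : 20 * C0 * (N : ℝ) ^ 2 * Real.log N ≤ C0 * (N : ℝ) ^ 2 * (6 * N / r) := by
    calc 20 * C0 * (N : ℝ) ^ 2 * Real.log N = C0 * (N : ℝ) ^ 2 * (20 * Real.log N) := by ring
      _ ≤ _ := mul_le_mul_of_nonneg_left e1 (by positivity)
  have h2 : 16 * C0 * (W : ℝ) ^ 2 * (N : ℝ) ^ 2 ≤ C0 * (N : ℝ) ^ 2 * (N / r) := by
    calc 16 * C0 * (W : ℝ) ^ 2 * (N : ℝ) ^ 2 = C0 * (N : ℝ) ^ 2 * (16 * (W : ℝ) ^ 2) := by ring
      _ ≤ _ := mul_le_mul_of_nonneg_left e2 (by positivity)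
  have h3 : (0 : ℝ) ≤ C0 * (N : ℝ) ^ 3 / r := by positivity
  have h4 : C0 * (N : ℝ) ^ 2 * (6 * N / r) = 6 * (C0 * (N : ℝ) ^ 3 / r) := by ring
  have h5 : C0 * (N : ℝ) ^ 2 * (N / r) = C0 * (N : ℝ) ^ 3 / r := by ring
  have h6 : 8 * C0 * (N : ℝ) ^ 3 / r = 8 * (C0 * (N : ℝ) ^ 3 / r) := by ring
  have h7 : 20 * C0 / r * (N : ℝ) ^ 3 = 20 * (C0 * (N : ℝ) ^ 3 / r) := by ring
  rw [h7, h6]
  rw [h4] at h1
  rw [h5] at h2
  linarith

end

end Pool.Agent.Lib.MP_0b748d_nt.HHC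
end
end

section

section

set_option autoImplicit false

/-!
# Counting quadruples with equal products
-/

namespace Pool.Agent.Lib.MP_0b748d_nt.HHC

noncomputable section

/-- number of multiples of `g` in `[N, 2N)` -/
private theorem ccvA_mult (N g : ℕ) (hN : 1 ≤ N) (hg : 1 ≤ g) :
    ((Finset.Ico N (2 * N)).filter (fun a => g ∣ a)).card * g ≤ N + g := by
  have h1 : ((Finset.Ico N (2 * N)).filter (fun a => g ∣ a)).card ≤
      (Finset.Ioc ((N - 1) / g) ((2 * N - 1) / g)).card := by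
    apply Finset.card_le_card_of_injOn (fun a => a / g)
    · intro a ha
      rw [Finset.mem_coe, Finset.mem_filter, Finset.mem_Ico] at ha
      obtain ⟨⟨h1, h2⟩, k, rfl⟩ := ha
      rw [Finset.mem_coe, Finset.mem_Ioc]
      simp only []
      rw [Nat.mul_div_cancel_left _ (by omega)]
      constructor
      · rw [Nat.div_lt_iff_lt_mul (by omega)]
        rw [mul_comm k g]
        omega
      · rw [Nat.le_div_iff_mul_le (by omega)]
        rw [mul_comm k g]
        omega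
    · intro a ha b hb hab
      rw [Finset.mem_coe, Finset.mem_filter] at ha hb
      obtain ⟨_, k, rfl⟩ := ha
      obtain ⟨_, l, rfl⟩ := hb
      simp only [] at hab
      rw [Nat.mul_div_cancel_left _ (by omega), Nat.mul_div_cancel_left _ (by omega)] at hab
      rw [hab]
  rw [Nat.card_Ioc] at h1
  have h2 : (2 * N - 1) / g * g ≤ 2 * N - 1 := Nat.div_mul_le_self _ _
  have h3 : N - 1 < ((N - 1) / g + 1) * g := by
    have e1 := Nat.div_add_mod (N - 1) g
    have e2 := Nat.mod_lt (N - 1) (show 0 < g by omega)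
    rw [add_mul, one_mul, mul_comm ((N - 1) / g) g]
    omega
  calc ((Finset.Ico N (2 * N)).filter (fun a => g ∣ a)).card * g
      ≤ ((2 * N - 1) / g - (N - 1) / g) * g := Nat.mul_le_mul_right g h1
    _ = (2 * N - 1) / g * g - (N - 1) / g * g := Nat.sub_mul _ _ _
    _ ≤ N + g := by
        rw [add_mul, one_mul] at h3
        omega

/-- the fibres of the quadruples over `(a, c)` -/
private theorem ccvA_card (N : ℕ) (hN : 1 ≤ N) :
    ((((Finset.Ico N (2 * N)) ×ˢ (Finset.Ico N (2 * N))) ×ˢ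
      ((Finset.Ico N (2 * N)) ×ˢ (Finset.Ico N (2 * N)))).filter
      (fun x => x.1.1 * x.1.2 = x.2.1 * x.2.2)).card ≤
      ∑ p ∈ (Finset.Ico N (2 * N)) ×ˢ (Finset.Ico N (2 * N)), 2 * Nat.gcd p.1 p.2 := by
  have h0 : ∑ p ∈ (Finset.Ico N (2 * N)) ×ˢ (Finset.Ico N (2 * N)), 2 * Nat.gcd p.1 p.2 =
      (((Finset.Ico N (2 * N)) ×ˢ (Finset.Ico N (2 * N))).sigma
        (fun p => Finset.range (2 * Nat.gcd p.1 p.2))).card := by
    rw [Finset.card_sigma]
    exact Finset.sum_congr rfl fun p _ => (Finset.card_range _).symm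
  rw [h0]
  have key : ∀ a b c d : ℕ, N ≤ a → N ≤ c → a * b = c * d →
      b = c / Nat.gcd a c * (b / (c / Nat.gcd a c)) ∧
      d = a / Nat.gcd a c * (b / (c / Nat.gcd a c)) := by
    intro a b c d ha hc h
    have hg : 0 < Nat.gcd a c := Nat.gcd_pos_of_pos_left _ (by omega)
    obtain ⟨a', ha'⟩ := Nat.gcd_dvd_left a c
    obtain ⟨c', hc'⟩ := Nat.gcd_dvd_right a c
    have e1 : a / Nat.gcd a c = a' := Nat.div_eq_of_eq_mul_right hg ha'
    have e2 : c / Nat.gcd a c = c' := Nat.div_eq_of_eq_mul_right hg hc'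
    have e1' : a / Nat.gcd a c = a' := e1
    have hcop : Nat.Coprime a' c' := by
      have := Nat.coprime_div_gcd_div_gcd hg
      rwa [e1', e2] at this
    have hab : a' * b = c' * d := by
      have h3 : Nat.gcd a c * (a' * b) = Nat.gcd a c * (c' * d) := by
        rw [← mul_assoc, ← mul_assoc, ← ha', ← hc', h]
      exact Nat.eq_of_mul_eq_mul_left hg h3
    have hcb : c' ∣ b := by
      have h4 : c' ∣ a' * b := ⟨d, hab⟩
      exact (Nat.Coprime.dvd_of_dvd_mul_left hcop.symm h4)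
    obtain ⟨t, rfl⟩ := hcb
    have hc'0 : 0 < c' := by
      rcases Nat.eq_zero_or_pos c' with h5 | h5
      · rw [h5, mul_zero] at hc'
        omega
      · exact h5
    rw [e1', e2, Nat.mul_div_cancel_left _ hc'0]
    refine ⟨rfl, ?_⟩
    have h6 : c' * (a' * t) = c' * d := by
      rw [← hab]
      ring
    exact (Nat.eq_of_mul_eq_mul_left hc'0 h6).symm
  apply Finset.card_le_card_of_injOn
    (fun x => (⟨(x.1.1, x.2.1), x.1.2 / (x.2.1 / Nat.gcd x.1.1 x.2.1)⟩ : (_ : ℕ × ℕ) × ℕ))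
  · rintro ⟨⟨a, b⟩, ⟨c, d⟩⟩ hx
    rw [Finset.mem_coe, Finset.mem_filter, Finset.mem_product, Finset.mem_product,
      Finset.mem_product] at hx
    simp only [Finset.mem_Ico] at hx
    obtain ⟨⟨⟨ha, hb⟩, hc, hd⟩, h⟩ := hx
    obtain ⟨k1, k2⟩ := key a b c d ha.1 hc.1 h
    rw [Finset.mem_coe, Finset.mem_sigma, Finset.mem_product, Finset.mem_range]
    simp only [Finset.mem_Ico]
    refine ⟨⟨ha, hc⟩, ?_⟩
    have hg : 0 < Nat.gcd a c := Nat.gcd_pos_of_pos_left _ (by omega)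
    have h1 : c / Nat.gcd a c * Nat.gcd a c = c := Nat.div_mul_cancel (Nat.gcd_dvd_right a c)
    by_contra hlt
    push Not at hlt
    have h2 : c / Nat.gcd a c * (2 * Nat.gcd a c) ≤ b := by
      calc c / Nat.gcd a c * (2 * Nat.gcd a c)
          ≤ c / Nat.gcd a c * (b / (c / Nat.gcd a c)) := Nat.mul_le_mul_left _ hlt
        _ = b := k1.symm
    have h3 : c / Nat.gcd a c * (2 * Nat.gcd a c) = 2 * c := by
      rw [mul_left_comm, h1]
    omega
  · rintro ⟨⟨a, b⟩, ⟨c, d⟩⟩ hx ⟨⟨a₂, b₂⟩, ⟨c₂, d₂⟩⟩ hx₂ heq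
    rw [Finset.mem_coe, Finset.mem_filter, Finset.mem_product, Finset.mem_product,
      Finset.mem_product] at hx hx₂
    simp only [Finset.mem_Ico] at hx hx₂
    obtain ⟨⟨⟨ha, hb⟩, hc, hd⟩, h⟩ := hx
    obtain ⟨⟨⟨ha₂, hb₂⟩, hc₂, hd₂⟩, h₂⟩ := hx₂
    simp only [Sigma.mk.injEq, Prod.mk.injEq] at heq
    obtain ⟨⟨rfl, rfl⟩, heq⟩ := heq
    have ht := eq_of_heq heq
    obtain ⟨k1, k2⟩ := key a b c d ha.1 hc.1 h
    obtain ⟨k3, k4⟩ := key a b₂ c d₂ ha.1 hc.1 h₂
    rw [← ht] at k3 k4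
    rw [← k1] at k3
    rw [← k2] at k4
    rw [k3, k4]

private theorem ccvA_gcd (N : ℕ) (hN : 1 ≤ N) :
    ∑ p ∈ (Finset.Ico N (2 * N)) ×ˢ (Finset.Ico N (2 * N)), Nat.gcd p.1 p.2 ≤
      ∑ g ∈ Finset.Icc 1 (2 * N),
        g * ((Finset.Ico N (2 * N)).filter (fun a => g ∣ a)).card ^ 2 := by
  have h1 : ∀ p ∈ (Finset.Ico N (2 * N)) ×ˢ (Finset.Ico N (2 * N)), Nat.gcd p.1 p.2 ≤
      ∑ g ∈ Finset.Icc 1 (2 * N), g * ((if g ∣ p.1 then 1 else 0) * (if g ∣ p.2 then 1 else 0)) := by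
    rintro ⟨a, c⟩ hp
    rw [Finset.mem_product, Finset.mem_Ico, Finset.mem_Ico] at hp
    simp only [] at hp ⊢
    have hg : 0 < Nat.gcd a c := Nat.gcd_pos_of_pos_left _ (by omega)
    have hle : Nat.gcd a c ≤ a := Nat.gcd_le_left _ (by omega)
    have h2 := Finset.single_le_sum (s := Finset.Icc 1 (2 * N))
      (f := fun g => g * ((if g ∣ a then 1 else 0) * (if g ∣ c then 1 else 0)))
      (fun _ _ => Nat.zero_le _) (Finset.mem_Icc.2 ⟨hg, by omega⟩)
    refine le_trans (le_of_eq ?_) h2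
    rw [if_pos (Nat.gcd_dvd_left a c), if_pos (Nat.gcd_dvd_right a c), mul_one, mul_one]
  refine (Finset.sum_le_sum h1).trans (le_of_eq ?_)
  rw [Finset.sum_comm]
  refine Finset.sum_congr rfl fun g _ => ?_
  rw [← Finset.mul_sum]
  congr 1
  rw [Finset.sum_product, pow_two, Finset.card_filter, Finset.sum_mul_sum]

open Classical in
/-- Proof. Let the quadruple be `((a, b), (c, d))`, `a b = c d`. Let `g = gcd(a, c)`, `a = g a'`,
`c = g c'`. Then `a' b = c' d`, so `b = c' t`, `d = a' t` with `1 ≤ t`, and `c' t < 2N`, `a' t < 2N`.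
For given `a, c` the number of `t` is at most `2 N / max a' c' = 2 N g / max a c ≤ 2 g`. So the number
of quadruples is at most `∑_{a, c} 2 gcd(a, c) ≤ 2 ∑_{g ≤ 2N} g * (number of multiples of g in
[N, 2N))²`, and the number of multiples is at most `N/g + 1 ≤ 3 N/g` for `g ≤ 2N`. Altogether
`≤ 18 N² ∑_{g ≤ 2N} 1/g ≤ 18 N² (1 + log (2N))` (`harmonic_le_one_add_log`). -/
theorem quad_count (N : ℕ) (hN : 1 ≤ N) :
    (((((Finset.Ico N (2 * N)) ×ˢ (Finset.Ico N (2 * N))) ×ˢ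
      ((Finset.Ico N (2 * N)) ×ˢ (Finset.Ico N (2 * N)))).filter
      (fun x => x.1.1 * x.1.2 = x.2.1 * x.2.2)).card : ℝ) ≤
      18 * (N : ℝ) ^ 2 * (1 + Real.log (2 * N)) := by
  have hNr : (1 : ℝ) ≤ N := by exact_mod_cast hN
  have h1 : (((((Finset.Ico N (2 * N)) ×ˢ (Finset.Ico N (2 * N))) ×ˢ
      ((Finset.Ico N (2 * N)) ×ˢ (Finset.Ico N (2 * N)))).filter
      (fun x => x.1.1 * x.1.2 = x.2.1 * x.2.2)).card : ℝ) ≤
      2 * ∑ g ∈ Finset.Icc 1 (2 * N),
        (g : ℝ) * (((Finset.Ico N (2 * N)).filter (fun a => g ∣ a)).card : ℝ) ^ 2 := by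
    have h2 := (ccvA_card N hN).trans (le_of_eq (Finset.mul_sum _ _ _).symm) |>.trans
      (Nat.mul_le_mul_left 2 (ccvA_gcd N hN))
    have h3 : ((2 * ∑ g ∈ Finset.Icc 1 (2 * N),
        g * ((Finset.Ico N (2 * N)).filter (fun a => g ∣ a)).card ^ 2 : ℕ) : ℝ) =
        2 * ∑ g ∈ Finset.Icc 1 (2 * N),
        (g : ℝ) * (((Finset.Ico N (2 * N)).filter (fun a => g ∣ a)).card : ℝ) ^ 2 := by
      push_cast
      rfl
    rw [← h3]
    exact (Nat.cast_le (α := ℝ)).2 h2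
  refine h1.trans ?_
  have h4 : ∀ g ∈ Finset.Icc 1 (2 * N),
      (g : ℝ) * (((Finset.Ico N (2 * N)).filter (fun a => g ∣ a)).card : ℝ) ^ 2 ≤
        9 * (N : ℝ) ^ 2 * (g : ℝ)⁻¹ := by
    intro g hg
    rw [Finset.mem_Icc] at hg
    have hg0 : (0 : ℝ) < g := by
      have : 0 < g := hg.1
      exact_mod_cast this
    have h5 : (((Finset.Ico N (2 * N)).filter (fun a => g ∣ a)).card : ℝ) * g ≤ 3 * N := by
      have h6 := ccvA_mult N g hN hg.1
      have h7 : ((Finset.Ico N (2 * N)).filter (fun a => g ∣ a)).card * g ≤ 3 * N := by omega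
      exact_mod_cast h7
    have h8 : (0 : ℝ) ≤ (((Finset.Ico N (2 * N)).filter (fun a => g ∣ a)).card : ℝ) * g := by
      positivity
    have h9 := pow_le_pow_left₀ h8 h5 2
    rw [← div_eq_mul_inv, le_div_iff₀ hg0]
    calc (g : ℝ) * (((Finset.Ico N (2 * N)).filter (fun a => g ∣ a)).card : ℝ) ^ 2 * g
        = ((((Finset.Ico N (2 * N)).filter (fun a => g ∣ a)).card : ℝ) * g) ^ 2 := by ring
      _ ≤ (3 * (N : ℝ)) ^ 2 := h9
      _ = 9 * (N : ℝ) ^ 2 := by ring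
  have h10 : ∑ g ∈ Finset.Icc 1 (2 * N), (g : ℝ)⁻¹ ≤ 1 + Real.log (2 * N) := by
    have h11 := harmonic_le_one_add_log (2 * N)
    rw [harmonic_eq_sum_Icc] at h11
    push_cast at h11
    exact h11
  calc 2 * ∑ g ∈ Finset.Icc 1 (2 * N),
        (g : ℝ) * (((Finset.Ico N (2 * N)).filter (fun a => g ∣ a)).card : ℝ) ^ 2
      ≤ 2 * ∑ g ∈ Finset.Icc 1 (2 * N), 9 * (N : ℝ) ^ 2 * (g : ℝ)⁻¹ :=
        mul_le_mul_of_nonneg_left (Finset.sum_le_sum h4) (by norm_num)
    _ = 18 * (N : ℝ) ^ 2 * ∑ g ∈ Finset.Icc 1 (2 * N), (g : ℝ)⁻¹ := by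
        rw [← Finset.mul_sum]
        ring
    _ ≤ 18 * (N : ℝ) ^ 2 * (1 + Real.log (2 * N)) :=
        mul_le_mul_of_nonneg_left h10 (by positivity)

end

end Pool.Agent.Lib.MP_0b748d_nt.HHC
end

section

set_option autoImplicit false

/-!
# Products of two character sums
-/

namespace Pool.Agent.Lib.MP_0b748d_nt.HHC

noncomputable section

/-- Proof. Expand the product; `χ` is multiplicative, and the product of two elements of `[N, 2N)` is
in `[1, 4N²]`. Group the pairs by their product. -/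
theorem Kc_mul {D : ℕ} (f : ℕ → ℝ) {A B : Finset ℕ} {N : ℕ} (hN : 1 ≤ N)
    (hA : A ⊆ Finset.Ico N (2 * N)) (hB : B ⊆ Finset.Ico N (2 * N)) (χ : DirichletCharacter ℂ D) :
    Kc f A χ * Kc f B χ = ∑ n ∈ Finset.Icc 1 (4 * N ^ 2), (cv f A B n : ℂ) * χ (n : ZMod D) := by
  have hmem : ∀ x ∈ A ×ˢ B, x.1 * x.2 ∈ Finset.Icc 1 (4 * N ^ 2) := by
    intro x hx
    rw [Finset.mem_product] at hx
    have h1 := Finset.mem_Ico.1 (hA hx.1)
    have h2 := Finset.mem_Ico.1 (hB hx.2)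
    rw [Finset.mem_Icc]
    constructor
    · exact Nat.mul_pos (by omega) (by omega)
    · calc x.1 * x.2 ≤ (2 * N) * (2 * N) := Nat.mul_le_mul (by omega) (by omega)
        _ = 4 * N ^ 2 := by ring
  unfold Kc cv
  rw [Finset.sum_mul_sum, ← Finset.sum_product']
  have h3 : ∀ n ∈ Finset.Icc 1 (4 * N ^ 2),
      ((∑ x ∈ A ×ˢ B, if x.1 * x.2 = n then f x.1 * f x.2 else 0 : ℝ) : ℂ) * χ (n : ZMod D) =
      ∑ x ∈ A ×ˢ B, if x.1 * x.2 = n then
        (f x.1 : ℂ) * χ (x.1 : ZMod D) * ((f x.2 : ℂ) * χ (x.2 : ZMod D)) else 0 := by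
    intro n _
    rw [Complex.ofReal_sum, Finset.sum_mul]
    refine Finset.sum_congr rfl fun x _ => ?_
    split_ifs with h
    · rw [← h, Nat.cast_mul, map_mul, Complex.ofReal_mul]
      ring
    · rw [Complex.ofReal_zero, zero_mul]
  rw [Finset.sum_congr rfl h3, Finset.sum_comm]
  refine Finset.sum_congr rfl fun x hx => ?_
  rw [Finset.sum_ite_eq, if_pos (hmem x hx)]

/-- Proof. `(cv n)²` is a sum over pairs of pairs with both products equal to `n`; summed over `n` we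
get at most `F⁴` times the number of quadruples of `quad_count`. -/
theorem cv_sq (f : ℕ → ℝ) {F : ℝ} (hF : ∀ m, |f m| ≤ F) {A B : Finset ℕ} {N : ℕ} (hN : 1 ≤ N)
    (hA : A ⊆ Finset.Ico N (2 * N)) (hB : B ⊆ Finset.Ico N (2 * N)) :
    ∑ n ∈ Finset.Icc 1 (4 * N ^ 2), (cv f A B n) ^ 2 ≤
      F ^ 4 * (18 * (N : ℝ) ^ 2 * (1 + Real.log (2 * N))) := by
  have hF0 : 0 ≤ F := (abs_nonneg _).trans (hF 0)
  obtain ⟨S, hS⟩ : ∃ S : ℕ → Finset (ℕ × ℕ), ∀ n, S n =
      ((Finset.Ico N (2 * N)) ×ˢ (Finset.Ico N (2 * N))).filter (fun x => x.1 * x.2 = n) :=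
    ⟨_, fun n => rfl⟩
  have h1 : ∀ n, (cv f A B n) ^ 2 ≤ F ^ 4 * ((S n).card : ℝ) ^ 2 := by
    intro n
    have h2 : |cv f A B n| ≤ F ^ 2 * (S n).card := by
      unfold cv
      refine (Finset.abs_sum_le_sum_abs _ _).trans ?_
      have h3 : ∀ x ∈ A ×ˢ B, |if x.1 * x.2 = n then f x.1 * f x.2 else 0| ≤
          if x.1 * x.2 = n then F ^ 2 else 0 := by
        intro x _
        split_ifs with h
        · rw [abs_mul, pow_two]
          exact mul_le_mul (hF _) (hF _) (abs_nonneg _) hF0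
        · rw [abs_zero]
      refine (Finset.sum_le_sum h3).trans ?_
      rw [← Finset.sum_filter, Finset.sum_const, nsmul_eq_mul, mul_comm]
      refine mul_le_mul_of_nonneg_left ?_ (by positivity)
      rw [Nat.cast_le, hS]
      apply Finset.card_le_card
      intro x hx
      rw [Finset.mem_filter, Finset.mem_product] at hx ⊢
      exact ⟨⟨hA hx.1.1, hB hx.1.2⟩, hx.2⟩
    calc (cv f A B n) ^ 2 = |cv f A B n| ^ 2 := (sq_abs _).symm
      _ ≤ (F ^ 2 * (S n).card) ^ 2 := pow_le_pow_left₀ (abs_nonneg _) h2 2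
      _ = F ^ 4 * ((S n).card : ℝ) ^ 2 := by ring
  have h4 : ∑ n ∈ Finset.Icc 1 (4 * N ^ 2), (S n).card ^ 2 ≤
      ((((Finset.Ico N (2 * N)) ×ˢ (Finset.Ico N (2 * N))) ×ˢ
      ((Finset.Ico N (2 * N)) ×ˢ (Finset.Ico N (2 * N)))).filter
      (fun x => x.1.1 * x.1.2 = x.2.1 * x.2.2)).card := by
    have h5 : ∑ n ∈ Finset.Icc 1 (4 * N ^ 2), (S n).card ^ 2 =
        ((Finset.Icc 1 (4 * N ^ 2)).sigma (fun n => S n ×ˢ S n)).card := by
      rw [Finset.card_sigma]
      refine Finset.sum_congr rfl fun n _ => ?_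
      rw [Finset.card_product, pow_two]
    rw [h5]
    apply Finset.card_le_card_of_injOn (fun z => z.2)
    · rintro ⟨n, x, y⟩ hz
      rw [Finset.mem_coe, Finset.mem_sigma, Finset.mem_product, hS, Finset.mem_filter,
        Finset.mem_filter] at hz
      rw [Finset.mem_coe, Finset.mem_filter, Finset.mem_product]
      obtain ⟨_, ⟨h6, h7⟩, h8, h9⟩ := hz
      exact ⟨⟨h6, h8⟩, h7.trans h9.symm⟩
    · rintro ⟨n, x, y⟩ hz ⟨n', x', y'⟩ hz' heq
      rw [Finset.mem_coe, Finset.mem_sigma, Finset.mem_product, hS, Finset.mem_filter,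
        Finset.mem_filter] at hz hz'
      simp only [Prod.mk.injEq] at heq
      obtain ⟨rfl, rfl⟩ := heq
      obtain ⟨_, ⟨_, h7⟩, _⟩ := hz
      obtain ⟨_, ⟨_, h8⟩, _⟩ := hz'
      simp only [] at h7 h8
      have h9 : n = n' := h7.symm.trans h8
      rw [h9]
  have h10 : ((∑ n ∈ Finset.Icc 1 (4 * N ^ 2), (S n).card ^ 2 : ℕ) : ℝ) ≤
      18 * (N : ℝ) ^ 2 * (1 + Real.log (2 * N)) :=
    ((Nat.cast_le (α := ℝ)).2 h4).trans (quad_count N hN)
  push_cast at h10
  calc ∑ n ∈ Finset.Icc 1 (4 * N ^ 2), (cv f A B n) ^ 2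
      ≤ ∑ n ∈ Finset.Icc 1 (4 * N ^ 2), F ^ 4 * ((S n).card : ℝ) ^ 2 :=
        Finset.sum_le_sum fun n _ => h1 n
    _ = F ^ 4 * ∑ n ∈ Finset.Icc 1 (4 * N ^ 2), ((S n).card : ℝ) ^ 2 := by
        rw [← Finset.mul_sum]
    _ ≤ F ^ 4 * (18 * (N : ℝ) ^ 2 * (1 + Real.log (2 * N))) :=
        mul_le_mul_of_nonneg_left h10 (by positivity)

end

end Pool.Agent.Lib.MP_0b748d_nt.HHC
end

section

set_option autoImplicit false

/-!
# Fourth moment of character sums
-/

namespace Pool.Agent.Lib.MP_0b748d_nt.HHC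

noncomputable section

/-- `ls_mul` with `M = 4 N²` and the coefficients `cv f A B`, with `Kc_mul` (the norm of a product is
the product of the norms) and `cv_sq` -/
theorem fourth (f : ℕ → ℝ) {F : ℝ} (hF : ∀ m, |f m| ≤ F) {A B : Finset ℕ} {N : ℕ} (hN : 1 ≤ N)
    (hA : A ⊆ Finset.Ico N (2 * N)) (hB : B ⊆ Finset.Ico N (2 * N)) (Q : ℕ) :
    ∑ D ∈ Finset.Icc 1 Q, ∑ χ ∈ PC D, ‖Kc f A χ‖ ^ 2 * ‖Kc f B χ‖ ^ 2 ≤
      8 * (4 * (N : ℝ) ^ 2 + Q ^ 2) * (F ^ 4 * (18 * (N : ℝ) ^ 2 * (1 + Real.log (2 * N)))) := by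
  have h1 := ls_mul Q (4 * N ^ 2) (fun n => (cv f A B n : ℂ))
  have h2 : ∀ n ∈ Finset.Icc 1 (4 * N ^ 2), ‖((cv f A B n : ℝ) : ℂ)‖ ^ 2 = (cv f A B n) ^ 2 := by
    intro n _
    rw [Complex.norm_real, Real.norm_eq_abs, sq_abs]
  rw [Finset.sum_congr rfl h2] at h1
  have h3 : ∀ D ∈ Finset.Icc 1 Q, ∑ χ ∈ PC D, ‖Kc f A χ‖ ^ 2 * ‖Kc f B χ‖ ^ 2 =
      ∑ χ ∈ PC D, ‖∑ n ∈ Finset.Icc 1 (4 * N ^ 2), (cv f A B n : ℂ) * χ (n : ZMod D)‖ ^ 2 := by
    intro D _
    refine Finset.sum_congr rfl fun χ _ => ?_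
    rw [← Kc_mul f hN hA hB χ, norm_mul, mul_pow]
  rw [Finset.sum_congr rfl h3]
  refine h1.trans ?_
  have h4 : (((4 * N ^ 2 : ℕ) : ℝ)) = 4 * (N : ℝ) ^ 2 := by push_cast; ring
  rw [h4]
  exact mul_le_mul_of_nonneg_left (cv_sq f hF hN hA hB) (by positivity)

end

end Pool.Agent.Lib.MP_0b748d_nt.HHC
end

section

set_option autoImplicit false

/-!
# Large conductors
-/

namespace Pool.Agent.Lib.MP_0b748d_nt.HHC

noncomputable section

private theorem CrcA_asym (C0 η ε : ℝ) (hC0 : 1 ≤ C0) (hη : 0 < η) (hε : 0 < ε) :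
    ∃ N0 : ℕ, ∀ N ≥ N0,
      (1 + (Nat.log 2 ⌊C0 * (N : ℝ)⌋₊ : ℝ)) / (η * N) * ((C0 * (N : ℝ) ^ (19 / 20 : ℝ)) *
        (8 * (4 * (N : ℝ) ^ 2 + (⌊C0 * (N : ℝ)⌋₊ : ℝ) ^ 2) *
          ((2 * Real.log N) ^ 4 * (18 * (N : ℝ) ^ 2 * (1 + Real.log (2 * N)))))) ≤
      ε * (N : ℝ) ^ 4 := by
  set K : ℝ := C0 / η * 15 * (8 * (4 + C0 ^ 2) * 16 * 18) with hK
  have hKp : 0 < K := by positivity
  have h1 := isLittleO_log_rpow_rpow_atTop (s := (1 / 20 : ℝ)) (6 : ℝ) (by norm_num)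
  have h2 := h1.bound (c := ε / K) (by positivity)
  obtain ⟨X0, hX0⟩ := Filter.eventually_atTop.1 h2
  refine ⟨⌈|X0| + C0 + 3⌉₊, fun N hN => ?_⟩
  have hN1 : |X0| + C0 + 3 ≤ N := (Nat.le_ceil _).trans (by exact_mod_cast hN)
  have hX : X0 ≤ N := by
    have := le_abs_self X0
    linarith
  have hx0 := abs_nonneg X0
  have hC0N : C0 ≤ N := by linarith
  have h3N : (3 : ℝ) ≤ N := by linarith
  set x : ℝ := (N : ℝ) with hx
  have hxp : 0 < x := by linarith
  have hlog1 : 1 ≤ Real.log x := by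
    rw [Real.le_log_iff_exp_le hxp]
    have := Real.exp_one_lt_d9
    linarith
  have h3 := hX0 x hX
  rw [Real.norm_of_nonneg (Real.rpow_nonneg (by linarith) _),
    Real.norm_of_nonneg (Real.rpow_nonneg hxp.le _)] at h3
  have h3' : Real.log x ^ 6 ≤ ε / K * x ^ (1 / 20 : ℝ) := by
    have e : Real.log x ^ (6 : ℝ) = Real.log x ^ 6 := by
      rw [← Real.rpow_natCast]; norm_num
    rw [← e]; exact h3
  have hM : (⌊C0 * x⌋₊ : ℝ) ≤ C0 * x := Nat.floor_le (by positivity)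
  have hM1 : 1 ≤ ⌊C0 * x⌋₊ := by
    rw [Nat.one_le_floor_iff]
    nlinarith
  have hL : (1 + (Nat.log 2 ⌊C0 * x⌋₊ : ℝ)) ≤ 5 * Real.log x := by
    have e1 : (Nat.log 2 ⌊C0 * x⌋₊ : ℝ) ≤ Real.logb 2 (⌊C0 * x⌋₊ : ℝ) := by
      have := Real.natLog_le_logb ⌊C0 * x⌋₊ 2
      simpa using this
    have e2 : Real.logb 2 (⌊C0 * x⌋₊ : ℝ) ≤ 4 * Real.log x := by
      rw [Real.logb, div_le_iff₀ (Real.log_pos (by norm_num))]
      have e3 : Real.log (⌊C0 * x⌋₊ : ℝ) ≤ 2 * Real.log x := by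
        have e4 : Real.log (⌊C0 * x⌋₊ : ℝ) ≤ Real.log (x * x) := by
          apply Real.log_le_log
          · exact_mod_cast hM1
          · refine hM.trans ?_
            exact mul_le_mul_of_nonneg_right hC0N hxp.le
        rw [Real.log_mul hxp.ne' hxp.ne'] at e4
        linarith
      have e5 : (1 : ℝ) / 2 ≤ Real.log 2 := by
        have := Real.log_two_gt_d9
        linarith
      nlinarith
    linarith
  have hL2 : 1 + Real.log (2 * x) ≤ 3 * Real.log x := by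
    rw [Real.log_mul (by norm_num) hxp.ne']
    have : Real.log 2 ≤ Real.log x := Real.log_le_log (by norm_num) (by linarith)
    linarith
  have hlog0 : 0 ≤ Real.log x := by linarith
  have hrp : x ^ (19 / 20 : ℝ) * x ^ (1 / 20 : ℝ) = x := by
    rw [← Real.rpow_add hxp]; norm_num
  have hr0 : 0 ≤ x ^ (19 / 20 : ℝ) := Real.rpow_nonneg hxp.le _
  have hM2 : 8 * (4 * x ^ 2 + (⌊C0 * x⌋₊ : ℝ) ^ 2) ≤ 8 * (4 + C0 ^ 2) * x ^ 2 := by
    have : (⌊C0 * x⌋₊ : ℝ) ^ 2 ≤ (C0 * x) ^ 2 := by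
      apply pow_le_pow_left₀ (Nat.cast_nonneg _) hM
    nlinarith
  have hlog2x : 0 ≤ 1 + Real.log (2 * x) := by
    have : 0 ≤ Real.log (2 * x) := Real.log_nonneg (by linarith)
    linarith
  calc (1 + (Nat.log 2 ⌊C0 * x⌋₊ : ℝ)) / (η * x) * ((C0 * x ^ (19 / 20 : ℝ)) *
        (8 * (4 * x ^ 2 + (⌊C0 * x⌋₊ : ℝ) ^ 2) *
          ((2 * Real.log x) ^ 4 * (18 * x ^ 2 * (1 + Real.log (2 * x))))))
      ≤ (5 * Real.log x) / (η * x) * ((C0 * x ^ (19 / 20 : ℝ)) *
        ((8 * (4 + C0 ^ 2) * x ^ 2) *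
          ((2 * Real.log x) ^ 4 * (18 * x ^ 2 * (3 * Real.log x))))) := by
        gcongr
    _ = K * Real.log x ^ 6 * (x ^ (19 / 20 : ℝ) * x ^ 3) := by
        rw [hK]; field_simp; ring
    _ ≤ K * (ε / K * x ^ (1 / 20 : ℝ)) * (x ^ (19 / 20 : ℝ) * x ^ 3) := by
        gcongr
    _ = ε * (x ^ (19 / 20 : ℝ) * x ^ (1 / 20 : ℝ)) * x ^ 3 := by
        field_simp
    _ = ε * x ^ 4 := by rw [hrp]; ring

open Classical in
/-- characters of large conductor.

Proof. By `cond_sum` (`P D = (N < D^20)`) the left side is at most the sum over `δ ∈ DR`, `D ∣ δ`,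
`N < D^20`, `χ ∈ PC D`. By `phi_low`, `1/φ δ ≤ (1 + log₂ (C0 N))/(η N)` for `δ ∈ DR`. Put
`k = δ/D ≤ C0 N / N^(1/20)`; the map `(δ, D) ↦ (k, D)` is injective. For each `k`, `fourth` with
`f = ks c N J W`, `F = 2 log N` (`ks_le`), `A, B` the parts prime to `k` of the cells (subsets of
`[N, 2N)`), `Q = ⌊C0 N⌋` bounds the sum over `D ≤ Q` by
`8 (4 + C0²) N² (2 log N)⁴ 18 N² (1 + log 2N)`. Altogether the bound is
`C0 N^(19/20) * (1 + log₂ (C0 N))/(η N) * 8 (4 + C0²) 16 * 18 * N⁴ (log N)⁴ (1 + log 2N)`,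
which is `≤ ε N⁴` for large `N`. -/
theorem R3 (C0 η ε : ℝ) (hC0 : 1 ≤ C0) (hη : 0 < η) (hε : 0 < ε) (J W : ℕ) (hJ : 1 ≤ J)
    (hW : 1 ≤ W) : ∃ N0 : ℕ, ∀ N ≥ N0, ∀ c : ℕ → ℝ, (∀ p, |c p| ≤ 1) → ∀ i j : ℕ,
    ∑ δ ∈ DR C0 η N, (1 / (Nat.totient δ : ℝ)) *
      ∑ χ ∈ (Finset.univ : Finset (DirichletCharacter ℂ δ)).filter
        (fun χ => N < χ.conductor ^ 20),
        ‖Kc (ks c N J W) (cell N J i) χ‖ ^ 2 * ‖Kc (ks c N J W) (cell N J j) χ‖ ^ 2 ≤
      ε * (N : ℝ) ^ 4 := by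
  classical
  obtain ⟨N1, hN1⟩ := ks_le J W hJ hW
  obtain ⟨N2, hN2⟩ := CrcA_asym C0 η ε hC0 hη hε
  refine ⟨N1 + N2 + 1, fun N hN c hc i j => ?_⟩
  have hNpos : 1 ≤ N := by omega
  have hx : (0 : ℝ) < N := by exact_mod_cast (by omega : 0 < N)
  set f := ks c N J W with hf
  set A := cell N J i with hA
  set B := cell N J j with hB
  set M := ⌊C0 * (N : ℝ)⌋₊ with hM
  have hMle : (M : ℝ) ≤ C0 * N := Nat.floor_le (by positivity)
  set Kx := ⌊C0 * (N : ℝ) ^ (19 / 20 : ℝ)⌋₊ with hKx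
  have hr0 : 0 ≤ (N : ℝ) ^ (19 / 20 : ℝ) := Real.rpow_nonneg hx.le _
  have hKxle : (Kx : ℝ) ≤ C0 * (N : ℝ) ^ (19 / 20 : ℝ) := Nat.floor_le (by positivity)
  have hDR : ∀ δ ∈ DR C0 η N, 1 ≤ δ ∧ δ ≤ M ∧ η * N ≤ (δ : ℝ) := by
    intro δ hδ
    unfold DR at hδ
    rw [Finset.mem_filter, Finset.mem_Icc] at hδ
    exact ⟨hδ.1.1, hδ.1.2, hδ.2⟩
  have e1 := cond_sum f A B (DR C0 η N) (fun δ hδ => (hDR δ hδ).1) (fun D => N < D ^ 20)
  set G : ℕ → ℕ → ℝ := fun k D => ∑ χ ∈ PC D,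
      ‖Kc f (A.filter (fun m => Nat.Coprime m k)) χ‖ ^ 2 *
        ‖Kc f (B.filter (fun m => Nat.Coprime m k)) χ‖ ^ 2 with hG
  have hG0 : ∀ k D, 0 ≤ G k D := fun k D =>
    Finset.sum_nonneg fun χ _ => mul_nonneg (sq_nonneg _) (sq_nonneg _)
  have hcellsub : ∀ i', cell N J i' ⊆ Finset.Ico N (2 * N) := fun i' => by
    unfold cell; exact Finset.filter_subset _ _
  have e4 : ∀ k, ∑ D ∈ Finset.Icc 1 M, G k D ≤
      8 * (4 * (N : ℝ) ^ 2 + (M : ℝ) ^ 2) *
        ((2 * Real.log N) ^ 4 * (18 * (N : ℝ) ^ 2 * (1 + Real.log (2 * N)))) := by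
    intro k
    exact fourth f (hN1 N (by omega) c hc) hNpos
      ((Finset.filter_subset _ _).trans (hcellsub i))
      ((Finset.filter_subset _ _).trans (hcellsub j)) M
  have hL0 : (0 : ℝ) ≤ (1 + (Nat.log 2 M : ℝ)) / (η * N) := by positivity
  have e2 : ∑ δ ∈ DR C0 η N, (1 / (Nat.totient δ : ℝ)) *
      ∑ D ∈ δ.divisors.filter (fun D => N < D ^ 20), G (δ / D) D ≤
      ∑ δ ∈ DR C0 η N, ((1 + (Nat.log 2 M : ℝ)) / (η * N)) *
        ∑ D ∈ δ.divisors.filter (fun D => N < D ^ 20), G (δ / D) D := by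
    refine Finset.sum_le_sum fun δ hδ => ?_
    refine mul_le_mul_of_nonneg_right ?_ (Finset.sum_nonneg fun D _ => hG0 _ _)
    obtain ⟨h1, h2, h3⟩ := hDR δ hδ
    have h4 := phi_low δ h1
    have hφ : (0 : ℝ) < Nat.totient δ := by exact_mod_cast Nat.totient_pos.2 h1
    rw [div_le_div_iff₀ hφ (by positivity), one_mul]
    have h5 : (Nat.log 2 δ : ℝ) ≤ Nat.log 2 M := by exact_mod_cast Nat.log_mono_right h2
    calc η * (N : ℝ) ≤ δ := h3
      _ ≤ (1 + (Nat.log 2 δ : ℝ)) * Nat.totient δ := h4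
      _ ≤ (1 + (Nat.log 2 M : ℝ)) * Nat.totient δ := by gcongr
  have e3 : ∑ δ ∈ DR C0 η N, ∑ D ∈ δ.divisors.filter (fun D => N < D ^ 20), G (δ / D) D ≤
      ∑ k ∈ Finset.Icc 1 Kx, ∑ D ∈ Finset.Icc 1 M, G k D := by
    rw [Finset.sum_sigma', ← Finset.sum_product']
    set S := (DR C0 η N).sigma fun δ => δ.divisors.filter (fun D => N < D ^ 20) with hS
    have hSm : ∀ x ∈ S, x.1 ∈ DR C0 η N ∧ x.2 ∣ x.1 ∧ N < x.2 ^ 20 := by
      intro x hx
      rw [hS, Finset.mem_sigma, Finset.mem_filter, Nat.mem_divisors] at hx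
      exact ⟨hx.1, hx.2.1.1, hx.2.2⟩
    have hinj : Set.InjOn (fun x : (Σ _ : ℕ, ℕ) => (x.1 / x.2, x.2)) (S : Set (Σ _ : ℕ, ℕ)) := by
      intro x hx y hy hxy
      obtain ⟨-, hx2, -⟩ := hSm x hx
      obtain ⟨-, hy2, -⟩ := hSm y hy
      obtain ⟨x1, x2⟩ := x
      obtain ⟨y1, y2⟩ := y
      simp only [Prod.mk.injEq] at hxy hx2 hy2
      obtain ⟨h1, h2⟩ := hxy
      subst h2
      have : x1 = y1 := by
        rw [← Nat.div_mul_cancel hx2, ← Nat.div_mul_cancel hy2, h1]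
      subst this
      rfl
    have h1 : ∑ x ∈ S, G (x.1 / x.2) x.2 =
        ∑ y ∈ S.image (fun x : (Σ _ : ℕ, ℕ) => (x.1 / x.2, x.2)), G y.1 y.2 := by
      rw [Finset.sum_image hinj]
    rw [h1]
    refine Finset.sum_le_sum_of_subset_of_nonneg ?_ fun y _ _ => hG0 _ _
    intro y hy
    rw [Finset.mem_image] at hy
    obtain ⟨x, hx', rfl⟩ := hy
    obtain ⟨h2, h3, h4⟩ := hSm x hx'
    obtain ⟨h5, h6, -⟩ := hDR _ h2
    rw [Finset.mem_product, Finset.mem_Icc, Finset.mem_Icc]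
    have hx2pos : 1 ≤ x.2 := Nat.pos_of_dvd_of_pos h3 h5
    have hkD : x.1 / x.2 * x.2 = x.1 := Nat.div_mul_cancel h3
    refine ⟨⟨?_, ?_⟩, hx2pos, (Nat.le_of_dvd h5 h3).trans h6⟩
    · exact Nat.div_pos (Nat.le_of_dvd h5 h3) hx2pos
    · apply Nat.le_floor
      have h7 : (N : ℝ) ^ (1 / 20 : ℝ) ≤ (x.2 : ℝ) := by
        have h8 : (N : ℝ) ≤ (x.2 : ℝ) ^ (20 : ℕ) := by exact_mod_cast h4.le
        calc (N : ℝ) ^ (1 / 20 : ℝ) ≤ ((x.2 : ℝ) ^ (20 : ℕ)) ^ (1 / 20 : ℝ) :=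
              Real.rpow_le_rpow hx.le h8 (by norm_num)
          _ = (x.2 : ℝ) := by
              rw [← Real.rpow_natCast, ← Real.rpow_mul (Nat.cast_nonneg _)]
              norm_num
      have hr1 : 0 < (N : ℝ) ^ (1 / 20 : ℝ) := Real.rpow_pos_of_pos hx _
      have hrp : (N : ℝ) ^ (19 / 20 : ℝ) * (N : ℝ) ^ (1 / 20 : ℝ) = N := by
        rw [← Real.rpow_add hx]; norm_num
      have h9 : ((x.1 / x.2 : ℕ) : ℝ) * (N : ℝ) ^ (1 / 20 : ℝ) ≤
          (C0 * (N : ℝ) ^ (19 / 20 : ℝ)) * (N : ℝ) ^ (1 / 20 : ℝ) := by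
        calc ((x.1 / x.2 : ℕ) : ℝ) * (N : ℝ) ^ (1 / 20 : ℝ)
            ≤ ((x.1 / x.2 : ℕ) : ℝ) * x.2 := by gcongr
          _ = (x.1 : ℝ) := by exact_mod_cast hkD
          _ ≤ M := by exact_mod_cast h6
          _ ≤ C0 * N := hMle
          _ = _ := by rw [mul_assoc, hrp]
      exact le_of_mul_le_mul_right h9 hr1
  have e5 : ∑ k ∈ Finset.Icc 1 Kx, ∑ D ∈ Finset.Icc 1 M, G k D ≤
      (C0 * (N : ℝ) ^ (19 / 20 : ℝ)) * (8 * (4 * (N : ℝ) ^ 2 + (M : ℝ) ^ 2) *
        ((2 * Real.log N) ^ 4 * (18 * (N : ℝ) ^ 2 * (1 + Real.log (2 * N))))) := by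
    refine (Finset.sum_le_sum fun k _ => e4 k).trans ?_
    rw [Finset.sum_const, Nat.card_Icc, nsmul_eq_mul, Nat.add_sub_cancel]
    refine mul_le_mul_of_nonneg_right hKxle ?_
    have : 0 ≤ Real.log (2 * (N : ℝ)) := Real.log_nonneg (by
      have : (1 : ℝ) ≤ N := by exact_mod_cast hNpos
      linarith)
    positivity
  refine le_trans ?_ (hN2 N (by omega))
  have e6 : ∑ δ ∈ DR C0 η N, (1 / (Nat.totient δ : ℝ)) *
      ∑ D ∈ δ.divisors.filter (fun D => N < D ^ 20), G (δ / D) D ≤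
      (1 + (Nat.log 2 M : ℝ)) / (η * N) *
      ((C0 * (N : ℝ) ^ (19 / 20 : ℝ)) * (8 * (4 * (N : ℝ) ^ 2 + (M : ℝ) ^ 2) *
        ((2 * Real.log N) ^ 4 * (18 * (N : ℝ) ^ 2 * (1 + Real.log (2 * N)))))) := by
    refine e2.trans ?_
    rw [← Finset.mul_sum]
    exact mul_le_mul_of_nonneg_left (e3.trans e5) hL0
  refine le_trans (le_trans (le_of_eq ?_) e1) (le_trans (le_of_eq ?_) e6)
  · refine Finset.sum_congr rfl fun δ _ => ?_
    congr 1
    refine Finset.sum_congr ?_ fun χ _ => rfl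
    ext χ
    simp only [Finset.mem_filter]
  · refine Finset.sum_congr rfl fun δ _ => ?_
    congr 1
    refine Finset.sum_congr ?_ fun D _ => rfl
    ext D
    simp only [Finset.mem_filter]

end

end Pool.Agent.Lib.MP_0b748d_nt.HHC
end
end
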