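import Pool.Agent.Lib.MP_0b748d_nt.HH.TreeB
import Pool.Agent.Lib.MP_0b748d_nt.HH.Cpars
import Pool.Agent.Lib.MP_0b748d_nt.HH.CvE
import Pool.Agent.Lib.MP_0b748d_nt.HH.CrcA
import Pool.Agent.Lib.MP_0b748d_nt.HH.CrbB
import Pool.Agent.Lib.MP_0b748d_nt.HH.DecA
import Pool.Agent.Lib.MP_0b748d_nt.P.Defs

section

set_option autoImplicit false

/-!
# From window means to pieces of cells
-/

namespace Pool.Agent.Lib.MP_0b748d_nt.HH

open Zsqrtd MeasureTheory

noncomputable section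

/-- the element with given coordinates -/
def zv (x y : ℤ√2) (v : ℕ × ℕ) : ℤ√2 := (v.1 : ℤ√2) * x + (v.2 : ℤ√2) * y

/-- `s1 z = √(nm z) exp (th z)`, `s2 z = √(nm z) exp (-th z)` and `cross1`, `cross2` -/
theorem det_sinh {z w : ℤ√2} (hz : TP z) (hw : TP w) :
    (det z w : ℝ) = √((nm z : ℝ) * nm w) * Real.sinh (th w - th z) / √2 := by
  have ha := hz.1
  have hb := hz.2
  have hc := hw.1
  have hd := hw.2
  have hpos : ∀ t : ℝ, 0 < Real.exp t := Real.exp_pos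
  have hsq : ∀ t : ℝ, 0 < t → Real.exp (Real.log t / 2) ^ 2 = t := by
    intro t ht
    rw [← Real.exp_nat_mul]
    push_cast
    rw [mul_div_cancel₀ _ two_ne_zero, Real.exp_log ht]
  obtain ⟨α, hα⟩ : ∃ α, α = Real.exp (Real.log (s1 z) / 2) := ⟨_, rfl⟩
  obtain ⟨β, hβ⟩ : ∃ β, β = Real.exp (Real.log (s2 z) / 2) := ⟨_, rfl⟩
  obtain ⟨γ, hγ⟩ : ∃ γ, γ = Real.exp (Real.log (s1 w) / 2) := ⟨_, rfl⟩
  obtain ⟨δ, hδ⟩ : ∃ δ, δ = Real.exp (Real.log (s2 w) / 2) := ⟨_, rfl⟩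
  have hα0 : 0 < α := by rw [hα]; exact hpos _
  have hβ0 : 0 < β := by rw [hβ]; exact hpos _
  have hγ0 : 0 < γ := by rw [hγ]; exact hpos _
  have hδ0 : 0 < δ := by rw [hδ]; exact hpos _
  have ea : s1 z = α ^ 2 := by rw [hα, hsq _ ha]
  have eb : s2 z = β ^ 2 := by rw [hβ, hsq _ hb]
  have ec : s1 w = γ ^ 2 := by rw [hγ, hsq _ hc]
  have ed : s2 w = δ ^ 2 := by rw [hδ, hsq _ hd]
  have hexp : Real.exp (th w - th z) = γ * β / (δ * α) := by
    have h1 : th w - th z = (Real.log (s1 w) / 2 + Real.log (s2 z) / 2) -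
        (Real.log (s2 w) / 2 + Real.log (s1 z) / 2) := by
      unfold th
      ring
    rw [h1, Real.exp_sub, Real.exp_add, Real.exp_add, ← hα, ← hβ, ← hγ, ← hδ]
  have hexp' : Real.exp (-(th w - th z)) = δ * α / (γ * β) := by
    rw [Real.exp_neg, hexp, inv_div]
  have hn : √((nm z : ℝ) * nm w) = α * β * γ * δ := by
    rw [← s1_mul_s2, ← s1_mul_s2, ea, eb, ec, ed]
    have h2 : α ^ 2 * β ^ 2 * (γ ^ 2 * δ ^ 2) = (α * β * γ * δ) ^ 2 := by ring
    rw [h2, Real.sqrt_sq (by positivity)]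
  have h3 := cross1 z w
  have h4 := cross2 z w
  rw [ec, eb] at h3
  rw [ea, ed] at h4
  have h5 : √(2 : ℝ) ≠ 0 := sqrt2_pos.ne'
  rw [hn, Real.sinh_eq, hexp, hexp', eq_div_iff h5]
  have h6 : α * β * γ * δ * ((γ * β / (δ * α) - δ * α / (γ * β)) / 2) =
      (γ ^ 2 * β ^ 2 - α ^ 2 * δ ^ 2) / 2 := by
    field_simp
  rw [h6, h3, h4]
  ring

private theorem ExA_s1 (n : ℕ) : s1 (n : ℤ√2) = n := by
  simp [s1]

private theorem ExA_s2 (n : ℕ) : s2 (n : ℤ√2) = n := by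
  simp [s2]

theorem zv_TP {x y : ℤ√2} (h : Fr x y) {v : ℕ × ℕ} (hv : v ≠ (0, 0)) : TP (zv x y v) := by
  have h1 : (0 : ℝ) < v.1 ∨ (0 : ℝ) < v.2 := by
    by_contra hcon
    push Not at hcon
    apply hv
    have h2 : v.1 = 0 := by
      have := hcon.1
      exact_mod_cast le_antisymm this (Nat.cast_nonneg _)
    have h3 : v.2 = 0 := by
      have := hcon.2
      exact_mod_cast le_antisymm this (Nat.cast_nonneg _)
    exact Prod.ext h2 h3
  have h4 : (0 : ℝ) ≤ v.1 := Nat.cast_nonneg _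
  have h5 : (0 : ℝ) ≤ v.2 := Nat.cast_nonneg _
  have key : ∀ a b : ℝ, 0 < a → 0 < b → 0 < (v.1 : ℝ) * a + (v.2 : ℝ) * b := by
    intro a b ha hb
    rcases h1 with h1 | h1
    · have := mul_pos h1 ha
      have := mul_nonneg h5 hb.le
      linarith
    · have := mul_nonneg h4 ha.le
      have := mul_pos h1 hb
      linarith
  refine ⟨?_, ?_⟩
  · rw [zv, s1_add, s1_mul, s1_mul, ExA_s1, ExA_s1]
    exact key _ _ h.tx.1 h.ty.1
  · rw [zv, s2_add, s2_mul, s2_mul, ExA_s2, ExA_s2]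
    exact key _ _ h.tx.2 h.ty.2

theorem zv_det {x y : ℤ√2} (h : Fr x y) (v : ℕ × ℕ) :
    det (zv x y v) y = v.1 ∧ det x (zv x y v) = v.2 := by
  have h1 := h.dt
  unfold det at h1
  constructor
  · unfold det zv
    simp only [re_add, im_add, re_mul, im_mul, re_natCast, im_natCast]
    linear_combination (v.1 : ℤ) * h1
  · unfold det zv
    simp only [re_add, im_add, re_mul, im_mul, re_natCast, im_natCast]
    linear_combination (v.2 : ℤ) * h1

theorem zv_val {x y : ℤ√2} (h : Fr x y) (v : ℕ × ℕ) :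
    (((fm x y).val v.1 v.2 : ℕ) : ℤ) = nm (zv x y v) := by
  have h1 := h.tx.nm_pos
  have h2 := h.ty.nm_pos
  have h3 := B_pos h.tx h.ty
  unfold Fm.val fm
  push_cast
  rw [Int.toNat_of_nonneg h1.le, Int.toNat_of_nonneg h2.le, Int.toNat_of_nonneg h3.le]
  unfold nm B zv
  simp only [re_add, im_add, re_mul, im_mul, re_natCast, im_natCast]
  ring

end

end Pool.Agent.Lib.MP_0b748d_nt.HH
end

section

section

set_option autoImplicit false

/-!
# Transversal vectors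
-/

namespace Pool.Agent.Lib.MP_0b748d_nt.HHC

noncomputable section

open Classical in
/-- the sum over transversal pairs, assuming a bound for the correlations along lines.

Proof. Choose `rs u v` with `Rz u v (rs u v)` for the pairs of the sum (`rz_exists`; `dt u v ≠ 0` since
`η N ≥ 1`). By `A_cells` (with `f = ks c N J W`, `ks_supp`) the left side is at most
`∑_{i, j < J} ∑_{(u, v)} |Sr … (|dt u v|) (rs u v)|
+ ∑_{w ∈ bd} (∑_{u ∈ bx L} |ks (dt u w)|) (∑_{v ∈ bx L} |ks (dt v w)|)`.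
The first part is at most `J² (2 C0/η + 1)^4 B` by `vp_sum` (`F δ r = |Sr … δ r|`) and `hB`; the
second, by the hypothesis `hS` and `bd_card`, at most `4 (2L/(Jη) + 1)(L + 1) * (13 (L+1)²)²`. -/
theorem far {C0 η : ℝ} (hC0 : 1 ≤ C0) (hη : 0 < η) {J W N L : ℕ} (hJ : 1 ≤ J) (hW : 1 ≤ W)
    (hN : 1 ≤ η * N) (hN1 : 1 ≤ N) (hL : (L : ℝ) ^ 2 ≤ C0 * N) (c : ℕ → ℝ) {B : ℝ}
    (hB : ∀ i j : ℕ, ∑ δ ∈ DR C0 η N, ∑ ρ ∈ ur δ,
      |Sr (ks c N J W) (cell N J i) (cell N J j) δ ρ| ≤ B)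
    (hS : ∀ w ∈ bx L, ∑ u ∈ bx L, |ks c N J W (dt u w).toNat| ≤ 13 * ((L : ℝ) + 1) ^ 2) :
    ∑ x ∈ ((bx L) ×ˢ (bx L)).filter (fun x => Pv x.1 ∧ Pv x.2 ∧ η * N ≤ |(dt x.1 x.2 : ℝ)|),
      |∑ w ∈ bx L, ks c N J W (dt x.1 w).toNat * ks c N J W (dt x.2 w).toNat| ≤
      (J : ℝ) ^ 2 * ((2 * C0 / η + 1) ^ 4 * B) +
        4 * (2 * L / (J * η) + 1) * (L + 1) * (13 * ((L : ℝ) + 1) ^ 2) ^ 2 := by
  classical
  have hηN : 0 < η * N := lt_of_lt_of_le one_pos hN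
  have hJ0 : (0:ℝ) < J := by exact_mod_cast hJ
  set f := ks c N J W with hf
  have hfs : ∀ m, f m ≠ 0 → N ≤ m ∧ m < 2 * N := fun m hm => ks_supp hm
  set T := ((bx L) ×ˢ (bx L)).filter
    (fun x => Pv x.1 ∧ Pv x.2 ∧ η * N ≤ |(dt x.1 x.2 : ℝ)|) with hT
  have hmem : ∀ x ∈ T, (x.1 ∈ bx L ∧ x.2 ∈ bx L) ∧
      Pv x.1 ∧ Pv x.2 ∧ η * N ≤ |(dt x.1 x.2 : ℝ)| := by
    intro x hx
    rw [hT, Finset.mem_filter, Finset.mem_product] at hx
    exact hx
  let rs : ℤ × ℤ → ℤ × ℤ → ℕ := fun u v => if h : ∃ r, Rz u v r then h.choose else 0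
  have hrs : ∀ x ∈ T, Rz x.1 x.2 (rs x.1 x.2) := by
    intro x hx
    have hx' := hmem x hx
    have hd : dt x.1 x.2 ≠ 0 := by
      intro h0
      have h2 := hx'.2.2.2
      rw [h0, Int.cast_zero, abs_zero] at h2
      linarith
    have hex := rz_exists hx'.2.1 hx'.2.2.1 hd
    simp only [rs, dif_pos hex]
    exact hex.choose_spec
  set s : ℝ := 2 * L / (J * η) with hs
  have hs0 : 0 ≤ s := by positivity
  have h1 : ∀ x ∈ T, |∑ w ∈ bx L, f (dt x.1 w).toNat * f (dt x.2 w).toNat| ≤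
      ∑ i ∈ Finset.range J, ∑ j ∈ Finset.range J,
        |Sr f (cell N J i) (cell N J j) (dt x.1 x.2).natAbs (rs x.1 x.2)| +
      ∑ w ∈ bd L s, |f (dt x.1 w).toNat| * |f (dt x.2 w).toNat| := by
    intro x hx
    have hx' := hmem x hx
    exact A_cells hN1 hJ hη hx'.1.1 hx'.1.2 hx'.2.1 (hrs x hx) hx'.2.2.2 f hfs
  refine (Finset.sum_le_sum h1).trans ?_
  rw [Finset.sum_add_distrib]
  refine add_le_add ?_ ?_
  · calc ∑ x ∈ T, ∑ i ∈ Finset.range J, ∑ j ∈ Finset.range J,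
          |Sr f (cell N J i) (cell N J j) (dt x.1 x.2).natAbs (rs x.1 x.2)|
        = ∑ i ∈ Finset.range J, ∑ j ∈ Finset.range J, ∑ x ∈ T,
          |Sr f (cell N J i) (cell N J j) (dt x.1 x.2).natAbs (rs x.1 x.2)| := by
          rw [Finset.sum_comm]
          refine Finset.sum_congr rfl fun i _ => ?_
          rw [Finset.sum_comm]
      _ ≤ ∑ i ∈ Finset.range J, ∑ j ∈ Finset.range J, (2 * C0 / η + 1) ^ 4 * B := by
          refine Finset.sum_le_sum fun i _ => Finset.sum_le_sum fun j _ => ?_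
          refine (vp_sum (fun δ r => |Sr f (cell N J i) (cell N J j) δ r|)
            (fun _ _ => abs_nonneg _) hC0 hη hN hL rs T ?_).trans ?_
          · intro x hx
            have hx' := hmem x hx
            exact ⟨hx'.1.1, hx'.1.2, hx'.2.2.2, hrs x hx⟩
          · exact mul_le_mul_of_nonneg_left (hB i j) (by positivity)
      _ = (J : ℝ) ^ 2 * ((2 * C0 / η + 1) ^ 4 * B) := by
          simp only [Finset.sum_const, Finset.card_range, nsmul_eq_mul]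
          ring
  · calc ∑ x ∈ T, ∑ w ∈ bd L s, |f (dt x.1 w).toNat| * |f (dt x.2 w).toNat|
        ≤ ∑ x ∈ (bx L) ×ˢ (bx L), ∑ w ∈ bd L s,
            |f (dt x.1 w).toNat| * |f (dt x.2 w).toNat| :=
          Finset.sum_le_sum_of_subset_of_nonneg (Finset.filter_subset _ _)
            (fun _ _ _ => Finset.sum_nonneg fun _ _ => by positivity)
      _ = ∑ w ∈ bd L s, (∑ u ∈ bx L, |f (dt u w).toNat|) *
            (∑ v ∈ bx L, |f (dt v w).toNat|) := by
          rw [Finset.sum_comm]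
          refine Finset.sum_congr rfl fun w _ => ?_
          rw [Finset.sum_product, Finset.sum_mul_sum]
      _ ≤ ∑ w ∈ bd L s, (13 * ((L : ℝ) + 1) ^ 2) ^ 2 := by
          refine Finset.sum_le_sum fun w hw => ?_
          have hwb : w ∈ bx L := (Finset.mem_filter.mp hw).1
          rw [_root_.sq (13 * ((L : ℝ) + 1) ^ 2)]
          exact mul_le_mul (hS w hwb) (hS w hwb)
            (Finset.sum_nonneg fun _ _ => abs_nonneg _) (by positivity)
      _ = ((bd L s).card : ℝ) * (13 * ((L : ℝ) + 1) ^ 2) ^ 2 := by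
          rw [Finset.sum_const, nsmul_eq_mul]
      _ ≤ 4 * (s + 1) * (L + 1) * (13 * ((L : ℝ) + 1) ^ 2) ^ 2 :=
          mul_le_mul_of_nonneg_right (bd_card L hs0) (by positivity)

end

end Pool.Agent.Lib.MP_0b748d_nt.HHC
end

section

set_option autoImplicit false

/-!
# The correlations along lines
-/

namespace Pool.Agent.Lib.MP_0b748d_nt.HHC

noncomputable section

private theorem clm_three {α : Type*} (s : Finset α) (F : α → ℝ) (hF : ∀ x ∈ s, 0 ≤ F x)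
    (P1 P2 P3 : α → Prop) [DecidablePred P1] [DecidablePred P2] [DecidablePred P3]
    (h : ∀ x ∈ s, P1 x ∨ P2 x ∨ P3 x) :
    ∑ x ∈ s, F x ≤ ∑ x ∈ s.filter P1, F x + ∑ x ∈ s.filter P2, F x + ∑ x ∈ s.filter P3, F x := by
  rw [Finset.sum_filter, Finset.sum_filter, Finset.sum_filter, ← Finset.sum_add_distrib,
    ← Finset.sum_add_distrib]
  refine Finset.sum_le_sum fun x hx => ?_
  have h0 := hF x hx
  rcases h x hx with h1 | h1 | h1
  · rw [if_pos h1]
    split_ifs <;> linarith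
  · rw [if_pos h1]
    split_ifs <;> linarith
  · rw [if_pos h1]
    split_ifs <;> linarith

private theorem clm_ur_card (δ : ℕ) : (ur δ).card ≤ δ := by
  unfold ur
  exact (Finset.card_filter_le _ _).trans (le_of_eq (Finset.card_range δ))

open Classical in
private theorem clm_split (f : ℕ → ℝ) (A B : Finset ℕ) (δ ρ : ℕ) :
    |Sr f A B δ ρ| ≤ |Sr f (A.filter (fun m => Nat.Coprime m δ)) B δ ρ| +
      ∑ m ∈ A.filter (fun m => ¬ Nat.Coprime m δ), ∑ n ∈ B,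
        (if n ≡ ρ * m [MOD δ] then |f m| * |f n| else 0) := by
  have h1 : Sr f A B δ ρ = Sr f (A.filter (fun m => Nat.Coprime m δ)) B δ ρ +
      Sr f (A.filter (fun m => ¬ Nat.Coprime m δ)) B δ ρ := by
    unfold Sr
    exact (Finset.sum_filter_add_sum_filter_not A _ _).symm
  rw [h1]
  refine (abs_add_le _ _).trans (add_le_add le_rfl ?_)
  unfold Sr
  refine (Finset.abs_sum_le_sum_abs _ _).trans (Finset.sum_le_sum fun m _ => ?_)
  refine (Finset.abs_sum_le_sum_abs _ _).trans (Finset.sum_le_sum fun n _ => ?_)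
  split_ifs
  · rw [abs_mul]
  · rw [abs_zero]

open Classical in
/-- Proof. Let `C` be the maximum of the constants of `R1` and `R2`. Choose `r ≥ 1` with `r ≥ G0`,
`20 C0/r ≤ ε/2` and `C0² (C/r + C/√r + ε')  ≤ ε²/4` for a suitable `ε' > 0`, and `W = (r^3)!` (so
`G0! ∣ W`). Let `J ≥ 1`, `N ≥ N0`. Split `Sr` according to `m` prime to `δ` or not. The second part is
bounded by `NC`: `≤ (ε/2) N³` (`DR ⊆ Icc 1 ⌊C0 N⌋`). For the first, by the Cauchy-Schwarz inequality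
`∑_{δ ∈ DR} ∑_{ρ ∈ ur δ} |Sr'| ≤ (∑_{δ ∈ DR} #(ur δ))^(1/2) (∑_δ ∑_ρ Sr'²)^(1/2)`, the first factor is
at most `C0 N` (`#(ur δ) ≤ δ ≤ C0 N`, `#DR ≤ C0 N`) and by `pars` and the three ranges of conductors
(`≤ r`; `> r` and `cond^20 ≤ N`; `cond^20 > N`) the second is at most
`((C/r + C/√r + ε') N⁴)^(1/2)`. -/
theorem L1main (C0 η ε : ℝ) (hC0 : 1 ≤ C0) (hη : 0 < η) (hη1 : η ≤ 1) (hε : 0 < ε) (G0 : ℕ) :
    ∃ W : ℕ, 1 ≤ W ∧ G0.factorial ∣ W ∧ ∀ J : ℕ, 1 ≤ J → ∃ N0 : ℕ, ∀ N ≥ N0, ∀ c : ℕ → ℝ,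
    (∀ p, |c p| ≤ 1) → ∀ i j : ℕ,
    ∑ δ ∈ DR C0 η N, ∑ ρ ∈ ur δ, |Sr (ks c N J W) (cell N J i) (cell N J j) δ ρ| ≤
      ε * (N : ℝ) ^ 3 := by
  obtain ⟨C1, hC1, hR1⟩ := R1 C0 η hC0 hη hη1
  obtain ⟨C2, hC2, hR2⟩ := R2 C0 η hC0 hη hη1
  have hC0p : 0 < C0 := by linarith
  obtain ⟨e', he'⟩ : ∃ e' : ℝ, e' = ε ^ 2 / (12 * C0 ^ 2) := ⟨_, rfl⟩
  have he'p : 0 < e' := by rw [he']; positivity
  obtain ⟨r, hr1, hrG, hr2, hr3, hr4⟩ : ∃ r : ℕ, 1 ≤ r ∧ G0 ≤ r ∧ 20 * C0 / r ≤ ε / 2 ∧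
      C1 / r ≤ e' ∧ C2 / √r ≤ e' := by
    refine ⟨max (max 1 G0) (max ⌈40 * C0 / ε⌉₊ (max ⌈C1 / e'⌉₊ ⌈(C2 / e') ^ 2⌉₊)), ?_, ?_, ?_, ?_, ?_⟩
    · exact (le_max_left _ _).trans (le_max_left _ _)
    · exact (le_max_right _ _).trans (le_max_left _ _)
    all_goals set r := max (max 1 G0) (max ⌈40 * C0 / ε⌉₊ (max ⌈C1 / e'⌉₊ ⌈(C2 / e') ^ 2⌉₊)) with hr
    all_goals have hrpos : (0 : ℝ) < r := by
                have : 1 ≤ r := (le_max_left _ _).trans (le_max_left _ _)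
                exact_mod_cast this
    · have h1 : 40 * C0 / ε ≤ r := (Nat.le_ceil _).trans (by
        exact_mod_cast (le_max_left _ _).trans (le_max_right _ _))
      rw [div_le_iff₀ hε] at h1
      rw [div_le_iff₀ hrpos]
      linarith
    · have h1 : C1 / e' ≤ r := (Nat.le_ceil _).trans (by
        exact_mod_cast (le_max_left _ _).trans ((le_max_right _ _).trans (le_max_right _ _)))
      rw [div_le_iff₀ he'p] at h1
      rw [div_le_iff₀ hrpos]
      linarith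
    · have h1 : (C2 / e') ^ 2 ≤ r := (Nat.le_ceil _).trans (by
        exact_mod_cast (le_max_right _ _).trans ((le_max_right _ _).trans (le_max_right _ _)))
      have h2 : C2 / e' ≤ √r := Real.le_sqrt_of_sq_le h1
      rw [div_le_iff₀ he'p] at h2
      rw [div_le_iff₀ (Real.sqrt_pos.2 hrpos)]
      linarith
  refine ⟨(r ^ 3).factorial, Nat.factorial_pos _, Nat.factorial_dvd_factorial
    (hrG.trans (Nat.le_self_pow (by norm_num) r)), fun J hJ => ?_⟩
  obtain ⟨W, hW⟩ : ∃ W : ℕ, W = (r ^ 3).factorial := ⟨_, rfl⟩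
  rw [← hW]
  have hW1 : 1 ≤ W := by rw [hW]; exact Nat.factorial_pos _
  have hWd : (r ^ 3).factorial ∣ W := by rw [hW]
  obtain ⟨N1, hN1⟩ := hR1 r J W hr1 hJ hW1 hWd
  obtain ⟨N2, hN2⟩ := hR2 r J W hr1 hJ hW1
  obtain ⟨N3, hN3⟩ := R3 C0 η e' hC0 hη he'p J W hJ hW1
  obtain ⟨N4, hN4⟩ := NC C0 hC0 r J W hr1 hJ hW1 hWd
  refine ⟨max (max N1 N2) (max N3 N4), fun N hN c hc i j => ?_⟩
  have hN1' := hN1 N (((le_max_left _ _).trans (le_max_left _ _)).trans hN) c hc i j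
  have hN2' := hN2 N (((le_max_right _ _).trans (le_max_left _ _)).trans hN) c hc i j
  have hN3' := hN3 N (((le_max_left _ _).trans (le_max_right _ _)).trans hN) c hc i j
  have hN4' := hN4 N (((le_max_right _ _).trans (le_max_right _ _)).trans hN) c hc i j
  obtain ⟨f, hf⟩ : ∃ f : ℕ → ℝ, f = ks c N J W := ⟨_, rfl⟩
  rw [← hf] at hN1' hN2' hN3' hN4' ⊢
  have hNn : (0 : ℝ) ≤ N := Nat.cast_nonneg N
  have hDR : DR C0 η N ⊆ Finset.Icc 1 ⌊C0 * N⌋₊ := Finset.filter_subset _ _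
  have hDRδ : ∀ δ ∈ DR C0 η N, 1 ≤ δ ∧ (δ : ℝ) ≤ C0 * N := by
    intro δ hδ
    have h1 := Finset.mem_Icc.1 (hDR hδ)
    exact ⟨h1.1, (Nat.le_floor_iff (by positivity)).1 h1.2⟩
  -- the part not prime to `δ`
  have hsecond : ∑ δ ∈ DR C0 η N, ∑ ρ ∈ ur δ,
      ∑ m ∈ (cell N J i).filter (fun m => ¬ Nat.Coprime m δ), ∑ n ∈ cell N J j,
        (if n ≡ ρ * m [MOD δ] then |f m| * |f n| else 0) ≤ ε / 2 * (N : ℝ) ^ 3 := by
    refine (Finset.sum_le_sum_of_subset_of_nonneg hDR fun δ _ _ => ?_).trans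
      (hN4'.trans ?_)
    · refine Finset.sum_nonneg fun ρ _ => Finset.sum_nonneg fun m _ =>
        Finset.sum_nonneg fun n _ => ?_
      split_ifs <;> positivity
    · gcongr
  -- the part prime to `δ`
  set S' : ℕ → ℕ → ℝ := fun δ ρ =>
    Sr f ((cell N J i).filter (fun m => Nat.Coprime m δ)) (cell N J j) δ ρ with hS'
  have hsq : ∑ δ ∈ DR C0 η N, ∑ ρ ∈ ur δ, (S' δ ρ) ^ 2 ≤ (C1 / r + C2 / √r + e') * (N : ℝ) ^ 4 := by
    have h1 : ∑ δ ∈ DR C0 η N, ∑ ρ ∈ ur δ, (S' δ ρ) ^ 2 = ∑ δ ∈ DR C0 η N,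
        (1 / (Nat.totient δ : ℝ)) * ∑ χ : DirichletCharacter ℂ δ,
          ‖Kc f (cell N J i) χ‖ ^ 2 * ‖Kc f (cell N J j) χ‖ ^ 2 :=
      Finset.sum_congr rfl fun δ hδ => pars (hDRδ δ hδ).1 f (cell N J i) (cell N J j)
    rw [h1]
    refine (Finset.sum_le_sum fun δ _ => mul_le_mul_of_nonneg_left
      (clm_three Finset.univ _ (fun χ _ => by positivity)
        (fun χ : DirichletCharacter ℂ δ => χ.conductor ≤ r)
        (fun χ : DirichletCharacter ℂ δ => r < χ.conductor ∧ χ.conductor ^ 20 ≤ N)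
        (fun χ : DirichletCharacter ℂ δ => N < χ.conductor ^ 20) (fun χ _ => by omega))
      (by positivity)).trans ?_
    simp only [mul_add, Finset.sum_add_distrib]
    calc _ ≤ C1 / r * (N : ℝ) ^ 4 + C2 / √r * (N : ℝ) ^ 4 + e' * (N : ℝ) ^ 4 :=
          add_le_add (add_le_add hN1' hN2') hN3'
      _ = _ := by ring
  have hcard : ∑ δ ∈ DR C0 η N, ((ur δ).card : ℝ) ≤ (C0 * N) ^ 2 := by
    calc ∑ δ ∈ DR C0 η N, ((ur δ).card : ℝ) ≤ ∑ _δ ∈ DR C0 η N, C0 * N :=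
          Finset.sum_le_sum fun δ hδ => by
            have : ((ur δ).card : ℝ) ≤ δ := by exact_mod_cast clm_ur_card δ
            exact this.trans (hDRδ δ hδ).2
      _ = ((DR C0 η N).card : ℝ) * (C0 * N) := by rw [Finset.sum_const, nsmul_eq_mul]
      _ ≤ (C0 * N) * (C0 * N) := by
          gcongr
          have h1 : (DR C0 η N).card ≤ ⌊C0 * N⌋₊ := by
            refine (Finset.card_le_card hDR).trans (le_of_eq ?_)
            rw [Nat.card_Icc, Nat.add_sub_cancel]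
          exact (by exact_mod_cast h1 : ((DR C0 η N).card : ℝ) ≤ (⌊C0 * N⌋₊ : ℝ)).trans
            (Nat.floor_le (by positivity))
      _ = _ := by ring
  have hfirst : ∑ δ ∈ DR C0 η N, ∑ ρ ∈ ur δ, |S' δ ρ| ≤ ε / 2 * (N : ℝ) ^ 3 := by
    rw [Finset.sum_sigma']
    refine abs_le_of_sq_le_sq' ?_ (by positivity) |>.2
    calc (∑ x ∈ (DR C0 η N).sigma fun δ => ur δ, |S' x.1 x.2|) ^ 2
        ≤ (((DR C0 η N).sigma fun δ => ur δ).card : ℝ) *
          ∑ x ∈ (DR C0 η N).sigma fun δ => ur δ, |S' x.1 x.2| ^ 2 :=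
          sq_sum_le_card_mul_sum_sq
      _ = (∑ δ ∈ DR C0 η N, ((ur δ).card : ℝ)) * ∑ δ ∈ DR C0 η N, ∑ ρ ∈ ur δ, (S' δ ρ) ^ 2 := by
          rw [Finset.card_sigma, Nat.cast_sum, Finset.sum_sigma]
          simp only [sq_abs]
      _ ≤ (C0 * N) ^ 2 * ((C1 / r + C2 / √r + e') * (N : ℝ) ^ 4) := by
          gcongr
      _ ≤ (C0 * N) ^ 2 * ((e' + e' + e') * (N : ℝ) ^ 4) := by gcongr
      _ = (ε / 2 * (N : ℝ) ^ 3) ^ 2 := by
          rw [he']
          field_simp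
          ring
  calc ∑ δ ∈ DR C0 η N, ∑ ρ ∈ ur δ, |Sr f (cell N J i) (cell N J j) δ ρ|
      ≤ ∑ δ ∈ DR C0 η N, ∑ ρ ∈ ur δ, (|S' δ ρ| +
        ∑ m ∈ (cell N J i).filter (fun m => ¬ Nat.Coprime m δ), ∑ n ∈ cell N J j,
        (if n ≡ ρ * m [MOD δ] then |f m| * |f n| else 0)) :=
        Finset.sum_le_sum fun δ _ => Finset.sum_le_sum fun ρ _ => clm_split _ _ _ _ _
    _ ≤ ε / 2 * (N : ℝ) ^ 3 + ε / 2 * (N : ℝ) ^ 3 := by
        simp only [Finset.sum_add_distrib]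
        exact add_le_add hfirst hsecond
    _ = ε * (N : ℝ) ^ 3 := by ring

end

end Pool.Agent.Lib.MP_0b748d_nt.HHC
end

section

set_option autoImplicit false

/-!
# The bilinear form of the difference
-/

namespace Pool.Agent.Lib.MP_0b748d_nt.HHC

noncomputable section

private lemma CvH_cs {α : Type*} (S : Finset α) (P : α → Prop) [DecidablePred P]
    (f h : α → ℝ) (K : α → α → ℝ)
    (hf : ∀ u, |f u| ≤ 1) (hh : ∀ u, |h u| ≤ 1) (hP : ∀ u, ¬ P u → f u = 0) :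
    (∑ u ∈ S, ∑ w ∈ S, f u * h w * K u w) ^ 2 ≤
      (S.card : ℝ) * ∑ x ∈ (S ×ˢ S).filter (fun x => P x.1 ∧ P x.2),
        |∑ w ∈ S, K x.1 w * K x.2 w| := by
  have e1 : ∑ u ∈ S, ∑ w ∈ S, f u * h w * K u w = ∑ w ∈ S, h w * (∑ u ∈ S, f u * K u w) := by
    rw [Finset.sum_comm]
    refine Finset.sum_congr rfl fun w _ => ?_
    rw [Finset.mul_sum]
    exact Finset.sum_congr rfl fun u _ => by ring
  rw [e1]
  have e2 := Finset.sum_mul_sq_le_sq_mul_sq S h (fun w => ∑ u ∈ S, f u * K u w)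
  refine e2.trans ?_
  have e3 : ∑ w ∈ S, h w ^ 2 ≤ (S.card : ℝ) := by
    calc ∑ w ∈ S, h w ^ 2 ≤ ∑ w ∈ S, (1:ℝ) := by
          refine Finset.sum_le_sum fun w _ => ?_
          rw [← sq_abs]
          exact pow_le_one₀ (abs_nonneg _) (hh w)
      _ = (S.card : ℝ) := by simp
  have e4 : ∑ w ∈ S, (∑ u ∈ S, f u * K u w) ^ 2 =
      ∑ x ∈ S ×ˢ S, f x.1 * f x.2 * ∑ w ∈ S, K x.1 w * K x.2 w := by
    calc ∑ w ∈ S, (∑ u ∈ S, f u * K u w) ^ 2
        = ∑ w ∈ S, ∑ u ∈ S, ∑ v ∈ S, f u * K u w * (f v * K v w) := by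
          refine Finset.sum_congr rfl fun w _ => ?_
          rw [_root_.sq, Finset.sum_mul_sum]
      _ = ∑ u ∈ S, ∑ v ∈ S, ∑ w ∈ S, f u * K u w * (f v * K v w) := by
          rw [Finset.sum_comm]
          refine Finset.sum_congr rfl fun u _ => ?_
          rw [Finset.sum_comm]
      _ = ∑ x ∈ S ×ˢ S, f x.1 * f x.2 * ∑ w ∈ S, K x.1 w * K x.2 w := by
          rw [Finset.sum_product]
          refine Finset.sum_congr rfl fun u _ => Finset.sum_congr rfl fun v _ => ?_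
          rw [Finset.mul_sum]
          exact Finset.sum_congr rfl fun w _ => by ring
  have e5 : ∑ x ∈ S ×ˢ S, f x.1 * f x.2 * ∑ w ∈ S, K x.1 w * K x.2 w ≤
      ∑ x ∈ (S ×ˢ S).filter (fun x => P x.1 ∧ P x.2), |∑ w ∈ S, K x.1 w * K x.2 w| := by
    rw [Finset.sum_filter]
    refine Finset.sum_le_sum fun x _ => ?_
    split_ifs with hx
    · calc f x.1 * f x.2 * ∑ w ∈ S, K x.1 w * K x.2 w
          ≤ |f x.1 * f x.2 * ∑ w ∈ S, K x.1 w * K x.2 w| := le_abs_self _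
        _ = |f x.1| * |f x.2| * |∑ w ∈ S, K x.1 w * K x.2 w| := by rw [abs_mul, abs_mul]
        _ ≤ 1 * 1 * |∑ w ∈ S, K x.1 w * K x.2 w| :=
            mul_le_mul_of_nonneg_right
              (mul_le_mul (hf _) (hf _) (abs_nonneg _) zero_le_one) (abs_nonneg _)
        _ = |∑ w ∈ S, K x.1 w * K x.2 w| := by ring
    · rw [not_and_or] at hx
      rcases hx with hx | hx <;> rw [hP _ hx] <;> simp
  have e6 : 0 ≤ ∑ w ∈ S, (∑ u ∈ S, f u * K u w) ^ 2 := Finset.sum_nonneg fun _ _ => sq_nonneg _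
  exact mul_le_mul e3 (e4.le.trans e5) e6 (Nat.cast_nonneg _)

private lemma CvH_split {α : Type*} (S : Finset α) (P : α → Prop) [DecidablePred P]
    (K : α → α → ℝ) (d : α → α → ℝ) (t : ℝ) :
    ∑ x ∈ (S ×ˢ S).filter (fun x => P x.1 ∧ P x.2), |∑ w ∈ S, K x.1 w * K x.2 w| ≤
      ∑ x ∈ (S ×ˢ S).filter (fun x => P x.1 ∧ P x.2 ∧ t ≤ d x.1 x.2),
        |∑ w ∈ S, K x.1 w * K x.2 w| +
      ∑ w ∈ S, ∑ u ∈ S, ∑ v ∈ S.filter (fun v => d u v < t), |K u w| * |K v w| := by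
  classical
  rw [← Finset.sum_filter_add_sum_filter_not _ (fun x : α × α => t ≤ d x.1 x.2)]
  refine add_le_add (le_of_eq ?_) ?_
  · rw [Finset.filter_filter]
    refine Finset.sum_congr ?_ fun _ _ => rfl
    ext x
    simp only [Finset.mem_filter, and_assoc]
  · calc ∑ x ∈ ((S ×ˢ S).filter (fun x => P x.1 ∧ P x.2)).filter (fun x => ¬ t ≤ d x.1 x.2),
          |∑ w ∈ S, K x.1 w * K x.2 w|
        ≤ ∑ x ∈ (S ×ˢ S).filter (fun x => d x.1 x.2 < t), ∑ w ∈ S, |K x.1 w| * |K x.2 w| := by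
          refine (Finset.sum_le_sum fun x _ => ?_).trans
            (Finset.sum_le_sum_of_subset_of_nonneg ?_ fun _ _ _ =>
              Finset.sum_nonneg fun _ _ => by positivity)
          · refine (Finset.abs_sum_le_sum_abs _ _).trans (le_of_eq ?_)
            exact Finset.sum_congr rfl fun w _ => abs_mul _ _
          · intro x hx
            rw [Finset.mem_filter, Finset.mem_filter] at hx
            rw [Finset.mem_filter]
            exact ⟨hx.1.1, not_le.mp hx.2⟩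
      _ = ∑ u ∈ S, ∑ v ∈ S.filter (fun v => d u v < t), ∑ w ∈ S, |K u w| * |K v w| := by
          rw [Finset.sum_filter, Finset.sum_product]
          refine Finset.sum_congr rfl fun u _ => ?_
          rw [Finset.sum_filter]
      _ = ∑ w ∈ S, ∑ u ∈ S, ∑ v ∈ S.filter (fun v => d u v < t), |K u w| * |K v w| := by
          rw [Finset.sum_comm]
          rw [Finset.sum_comm]
          symm
          rw [Finset.sum_comm]
          refine Finset.sum_congr rfl fun u _ => ?_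
          rw [Finset.sum_comm]

private lemma CvH_num {C0 τ η x n ε' : ℝ} {Jr : ℝ} (hC0 : 1 ≤ C0) (hτ : 0 < τ) (hη : 0 < η)
    (hJ : 1 ≤ Jr) (hn : 0 < n) (hx : 0 ≤ x)
    (hx2 : (x + 1) ^ 2 ≤ 4 * C0 * n)
    (hJ2 : 86528 * C0 ^ 3 ≤ Jr * η * τ)
    (hε' : Jr ^ 2 * (2 * C0 / η + 1) ^ 4 * ε' ≤ τ)
    (hn2 : 21632 * C0 ^ 3 ≤ τ * √n) :
    Jr ^ 2 * ((2 * C0 / η + 1) ^ 4 * (ε' * n ^ 3)) +
      4 * (2 * x / (Jr * η) + 1) * (x + 1) * (13 * (x + 1) ^ 2) ^ 2 ≤ 3 * τ * n ^ 3 := by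
  have hJ0 : 0 < Jr := by linarith
  have h1 : Jr ^ 2 * ((2 * C0 / η + 1) ^ 4 * (ε' * n ^ 3)) ≤ τ * n ^ 3 := by
    calc Jr ^ 2 * ((2 * C0 / η + 1) ^ 4 * (ε' * n ^ 3))
        = Jr ^ 2 * (2 * C0 / η + 1) ^ 4 * ε' * n ^ 3 := by ring
      _ ≤ τ * n ^ 3 := mul_le_mul_of_nonneg_right hε' (by positivity)
  set y := x + 1 with hy
  have hy0 : 0 < y := by linarith
  have h6 : y ^ 6 ≤ 64 * C0 ^ 3 * n ^ 3 := by
    calc y ^ 6 = (y ^ 2) ^ 3 := by ring
      _ ≤ (4 * C0 * n) ^ 3 := pow_le_pow_left₀ (by positivity) hx2 3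
      _ = 64 * C0 ^ 3 * n ^ 3 := by ring
  have h2 : 1352 * y ^ 6 / (Jr * η) ≤ τ * n ^ 3 := by
    rw [div_le_iff₀ (by positivity)]
    calc 1352 * y ^ 6 ≤ 1352 * (64 * C0 ^ 3 * n ^ 3) := by linarith
      _ = 86528 * C0 ^ 3 * n ^ 3 := by ring
      _ ≤ Jr * η * τ * n ^ 3 := mul_le_mul_of_nonneg_right hJ2 (by positivity)
      _ = τ * n ^ 3 * (Jr * η) := by ring
  have hsn : √n * √n = n := Real.mul_self_sqrt hn.le
  have hsn0 : 0 < √n := Real.sqrt_pos.mpr hn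
  have hyb : y ≤ 2 * C0 * √n := by
    apply le_of_sq_le_sq _ (by positivity)
    calc y ^ 2 ≤ 4 * C0 * n := hx2
      _ ≤ 4 * (C0 * C0) * n := by
          have : C0 ≤ C0 * C0 := by nlinarith
          have h4 : 4 * C0 ≤ 4 * (C0 * C0) := by linarith
          exact mul_le_mul_of_nonneg_right h4 hn.le
      _ = 4 * (C0 * C0) * (√n * √n) := by rw [hsn]
      _ = (2 * C0 * √n) ^ 2 := by ring
  have h3 : 676 * y ^ 5 ≤ τ * n ^ 3 := by
    calc 676 * y ^ 5 = 676 * ((y ^ 2) ^ 2 * y) := by ring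
      _ ≤ 676 * ((4 * C0 * n) ^ 2 * (2 * C0 * √n)) := by
          have := mul_le_mul (pow_le_pow_left₀ (by positivity) hx2 2) hyb hy0.le (by positivity)
          linarith
      _ = 21632 * C0 ^ 3 * (n ^ 2 * √n) := by ring
      _ ≤ τ * √n * (n ^ 2 * √n) := mul_le_mul_of_nonneg_right hn2 (by positivity)
      _ = τ * n ^ 2 * (√n * √n) := by ring
      _ = τ * n ^ 3 := by rw [hsn]; ring
  have h4 : 4 * (2 * x / (Jr * η) + 1) * y * (13 * y ^ 2) ^ 2 ≤
      1352 * y ^ 6 / (Jr * η) + 676 * y ^ 5 := by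
    have e : 4 * (2 * x / (Jr * η) + 1) * y * (13 * y ^ 2) ^ 2 =
        1352 * (x * y ^ 5) / (Jr * η) + 676 * y ^ 5 := by ring
    rw [e]
    have : x * y ^ 5 ≤ y ^ 6 := by
      calc x * y ^ 5 ≤ y * y ^ 5 := mul_le_mul_of_nonneg_right (by linarith) (by positivity)
        _ = y ^ 6 := by ring
    have h5 : 1352 * (x * y ^ 5) / (Jr * η) ≤ 1352 * y ^ 6 / (Jr * η) :=
      div_le_div_of_nonneg_right (by linarith) (by positivity)
    linarith
  linarith

open Classical in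
/-- Proof. If `L² < N`, then `dt u w ≤ L² < N` on the box and all terms vanish (`ks_supp`). Let
`N ≤ L²`; `(L+1)² ≤ 4 C0 N`. Let `T` be the left side. By the Cauchy-Schwarz inequality in `w`, and
since `f` vanishes at the non primitive vectors,
`T² ≤ (L+1)² ∑_{w} (∑_u f u ks(dt u w))² ≤ (L+1)² X`,
`X = ∑_{u, v ∈ bx L, Pv u, Pv v} |∑_w ks(dt u w) ks(dt v w)|`. The pairs with `|dt u v| < η N`
contribute at most `10^5 C0³ √η N³` to `X` (`near`), the others are bounded by `far`, with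
`B = ε' N³` from `L1main (C0, η, ε', G0)` and `hS` from `ks_box`. Order of the choices: first `η ≤ 1`
with `10^5 C0³ √η ≤ ε²/(16 C0)`, then `J` with
`4 * 169 * 2 * (2 √C0)^6 ≤ J η ε²/(16 C0)`, then `ε'` with
`J² (2 C0/η + 1)^4 ε' ≤ ε²/(16 C0)`, then `W` from `L1main`, then `N0`. The remaining term
`4 * 169 (L+1)^5 ≤ 676 (2 √(C0 N))^5` is at most `ε² N³/(16 C0)` for large `N`. So
`X ≤ ε² N³/(4 C0)` and `T² ≤ 4 C0 N X ≤ ε² N⁴`. -/
theorem ks_bilinear (C0 ε : ℝ) (hC0 : 1 ≤ C0) (hε : 0 < ε) (G0 : ℕ) : ∃ J W N0 : ℕ, 1 ≤ J ∧ 1 ≤ W ∧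
    G0.factorial ∣ W ∧ ∀ N ≥ N0, ∀ L : ℕ, (L : ℝ) ^ 2 ≤ C0 * N → ∀ c : ℕ → ℝ, (∀ p, |c p| ≤ 1) →
    ∀ f h : ℤ × ℤ → ℝ, (∀ u, |f u| ≤ 1) → (∀ u, |h u| ≤ 1) → (∀ u, ¬ Pv u → f u = 0) →
    |∑ u ∈ bx L, ∑ w ∈ bx L, f u * h w * ks c N J W (dt u w).toNat| ≤ ε * (N : ℝ) ^ 2 := by
  classical
  set τ : ℝ := ε ^ 2 / (16 * C0) with hτ
  have hC0p : 0 < C0 := by linarith
  have hτ0 : 0 < τ := by positivity
  -- the choice of η
  set q : ℝ := τ / (100000 * C0 ^ 3) with hq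
  have hq0 : 0 < q := by positivity
  set η : ℝ := min 1 (q ^ 2) with hηdef
  have hη0 : 0 < η := lt_min one_pos (by positivity)
  have hη1 : η ≤ 1 := min_le_left _ _
  have hηq : 100000 * C0 ^ 3 * √η ≤ τ := by
    have : √η ≤ q := by
      calc √η ≤ √(q ^ 2) := Real.sqrt_le_sqrt (min_le_right _ _)
        _ = q := Real.sqrt_sq hq0.le
    calc 100000 * C0 ^ 3 * √η ≤ 100000 * C0 ^ 3 * q :=
          mul_le_mul_of_nonneg_left this (by positivity)
      _ = τ := by rw [hq]; field_simp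
  -- the choice of J
  obtain ⟨J0, hJ0⟩ := exists_nat_gt (86528 * C0 ^ 3 / (η * τ))
  set J : ℕ := J0 + 1 with hJ
  have hJ1 : 1 ≤ J := Nat.le_add_left 1 J0
  have hJr : (1 : ℝ) ≤ (J : ℝ) := by exact_mod_cast hJ1
  have hJ2 : 86528 * C0 ^ 3 ≤ (J : ℝ) * η * τ := by
    rw [div_lt_iff₀ (by positivity)] at hJ0
    have : (J0 : ℝ) * (η * τ) ≤ (J : ℝ) * (η * τ) :=
      mul_le_mul_of_nonneg_right (by rw [hJ]; push_cast; linarith) (by positivity)
    calc 86528 * C0 ^ 3 ≤ (J : ℝ) * (η * τ) := hJ0.le.trans this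
      _ = (J : ℝ) * η * τ := by ring
  -- the choice of ε'
  set D : ℝ := (J : ℝ) ^ 2 * (2 * C0 / η + 1) ^ 4 with hD
  have hD0 : 0 < D := by positivity
  set ε' : ℝ := τ / D with hε'
  have hε'0 : 0 < ε' := by positivity
  have hε'2 : (J : ℝ) ^ 2 * (2 * C0 / η + 1) ^ 4 * ε' ≤ τ := by
    rw [hε', ← hD, mul_div_cancel₀ _ hD0.ne']
  obtain ⟨W, hW1, hWG, hWJ⟩ := L1main C0 η ε' hC0 hη0 hη1 hε'0 G0
  obtain ⟨N1, hN1⟩ := hWJ J hJ1
  obtain ⟨N2, hN2⟩ := near C0 η hC0 hη0 hη1 J W hJ1 hW1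
  obtain ⟨N3, hN3⟩ := ks_box C0 hC0 J W hJ1 hW1
  obtain ⟨N4, hN4⟩ := exists_nat_gt (1 / η)
  obtain ⟨N5, hN5⟩ := exists_nat_gt ((21632 * C0 ^ 3 / τ) ^ 2)
  refine ⟨J, W, N1 + N2 + N3 + N4 + N5 + 1, hJ1, hW1, hWG, ?_⟩
  intro N hN L hL c hc f h hf hh hfP
  have hNp : 1 ≤ N := by omega
  have hNr : (1 : ℝ) ≤ N := by exact_mod_cast hNp
  by_cases hLN : L ^ 2 < N
  · -- all terms vanish
    have hz : ∀ u ∈ bx L, ∀ w ∈ bx L, ks c N J W (dt u w).toNat = 0 := by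
      intro u hu w hw
      by_contra h0
      have h1 := (ks_supp h0).1
      rw [bx, Finset.mem_product, Finset.mem_Icc, Finset.mem_Icc] at hu hw
      have h2 : dt u w ≤ (L : ℤ) ^ 2 := by
        unfold dt
        have a1 : u.1 * w.2 ≤ (L : ℤ) * L :=
          mul_le_mul hu.1.2 hw.2.2 hw.2.1 (Int.natCast_nonneg _)
        have a2 : 0 ≤ u.2 * w.1 := mul_nonneg hu.2.1 hw.1.1
        rw [_root_.sq]; linarith
      have h3 : ((dt u w).toNat : ℤ) ≤ (L : ℤ) ^ 2 := by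
        rw [Int.toNat_eq_max]
        exact max_le h2 (by positivity)
      have h4 : (dt u w).toNat ≤ L ^ 2 := by exact_mod_cast h3
      omega
    have : ∑ u ∈ bx L, ∑ w ∈ bx L, f u * h w * ks c N J W (dt u w).toNat = 0 :=
      Finset.sum_eq_zero fun u hu => Finset.sum_eq_zero fun w hw => by rw [hz u hu w hw, mul_zero]
    rw [this, abs_zero]
    positivity
  · have hLN' : N ≤ L ^ 2 := not_lt.mp hLN
    have hL1 : 1 ≤ L := by
      rcases Nat.eq_zero_or_pos L with h0 | h0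
      · subst h0; simp at hLN'; omega
      · exact h0
    have hLr : (1 : ℝ) ≤ L := by exact_mod_cast hL1
    have hL2 : ((L : ℝ) + 1) ^ 2 ≤ 4 * C0 * N := by
      calc ((L : ℝ) + 1) ^ 2 ≤ (2 * L) ^ 2 := pow_le_pow_left₀ (by positivity) (by linarith) 2
        _ = 4 * (L : ℝ) ^ 2 := by ring
        _ ≤ 4 * (C0 * N) := by linarith
        _ = 4 * C0 * N := by ring
    have hηN : 1 ≤ η * N := by
      have h4 : (N4 : ℝ) ≤ N := by exact_mod_cast (by omega : N4 ≤ N)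
      have h5 : 1 / η < N := hN4.trans_le h4
      rw [div_lt_iff₀ hη0] at h5
      linarith
    have hn2 : 21632 * C0 ^ 3 ≤ τ * √(N : ℝ) := by
      have h4 : (N5 : ℝ) ≤ N := by exact_mod_cast (by omega : N5 ≤ N)
      have h5 : 21632 * C0 ^ 3 / τ ≤ √(N : ℝ) :=
        Real.le_sqrt_of_sq_le (hN5.le.trans h4)
      rw [div_le_iff₀ hτ0] at h5
      linarith
    set K : ℤ × ℤ → ℤ × ℤ → ℝ := fun u w => ks c N J W (dt u w).toNat with hK
    have hS := hN3 N (by omega) c hc L hLN' hL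
    have hnear := hN2 N (by omega) c hc L hLN' hL
    have hfar := far (L := L) hC0 hη0 hJ1 hW1 hηN hNp hL c (hN1 N (by omega) c hc) hS
    have hcs := CvH_cs (bx L) Pv f h K hf hh hfP
    have hsp := CvH_split (bx L) Pv K (fun u v => |(dt u v : ℝ)|) (η * N)
    have hnum := CvH_num (x := (L : ℝ)) (n := (N : ℝ)) hC0 hτ0 hη0 hJr (by linarith)
      (by linarith) hL2 hJ2 hε'2 hn2
    have hX : ∑ x ∈ (bx L ×ˢ bx L).filter (fun x => Pv x.1 ∧ Pv x.2),
        |∑ w ∈ bx L, K x.1 w * K x.2 w| ≤ 4 * τ * (N : ℝ) ^ 3 := by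
      have a1 : 100000 * C0 ^ 3 * √η * (N : ℝ) ^ 3 ≤ τ * (N : ℝ) ^ 3 :=
        mul_le_mul_of_nonneg_right hηq (by positivity)
      have a2 := hsp.trans (add_le_add hfar hnear)
      linarith
    have hcard : ((bx L).card : ℝ) = ((L : ℝ) + 1) ^ 2 := by
      rw [bx, Finset.card_product, Int.card_Icc]
      have : ((L : ℤ) + 1 - 0).toNat = L + 1 := by
        rw [sub_zero]; exact Int.toNat_natCast (L + 1)
      rw [this]; push_cast; ring
    have hT : (∑ u ∈ bx L, ∑ w ∈ bx L, f u * h w * ks c N J W (dt u w).toNat) ^ 2 ≤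
        (ε * (N : ℝ) ^ 2) ^ 2 := by
      calc (∑ u ∈ bx L, ∑ w ∈ bx L, f u * h w * ks c N J W (dt u w).toNat) ^ 2
          ≤ ((bx L).card : ℝ) * ∑ x ∈ (bx L ×ˢ bx L).filter (fun x => Pv x.1 ∧ Pv x.2),
            |∑ w ∈ bx L, K x.1 w * K x.2 w| := hcs
        _ ≤ (4 * C0 * N) * (4 * τ * (N : ℝ) ^ 3) := by
            rw [hcard]
            exact mul_le_mul hL2 hX (Finset.sum_nonneg fun _ _ => abs_nonneg _) (by positivity)
        _ = (ε * (N : ℝ) ^ 2) ^ 2 := by rw [hτ]; field_simp; ring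
    exact abs_le_of_sq_le_sq hT (by positivity)

end

end Pool.Agent.Lib.MP_0b748d_nt.HHC
end

section

set_option autoImplicit false

/-!
# Adding a Lipschitz kernel
-/

namespace Pool.Agent.Lib.MP_0b748d_nt.HHC

noncomputable section

private lemma CwA_fib {α : Type*} [DecidableEq α] (S : Finset α) (ι : α → α) (F : α → α → ℝ) :
    ∑ a ∈ S.image ι, ∑ u ∈ S, (if ι u = a then F a u else 0) = ∑ u ∈ S, F (ι u) u := by
  rw [Finset.sum_comm]
  refine Finset.sum_congr rfl fun u hu => ?_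
  rw [Finset.sum_ite_eq (S.image ι) (ι u) (fun a => F a u),
    if_pos (Finset.mem_image_of_mem ι hu)]

private lemma CwA_split {α : Type*} [DecidableEq α] (S : Finset α) (ι pt : α → α)
    (κ K : α → α → ℝ) (f h : α → ℝ) :
    ∑ a ∈ S.image ι, ∑ b ∈ S.image ι, κ (pt a) (pt b) *
      ∑ u ∈ S, ∑ w ∈ S, (if ι u = a then f u else 0) * (if ι w = b then h w else 0) * K u w =
    ∑ u ∈ S, ∑ w ∈ S, f u * h w * κ (pt (ι u)) (pt (ι w)) * K u w := by
  have e1 : ∀ a ∈ S.image ι, ∑ b ∈ S.image ι, κ (pt a) (pt b) *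
      ∑ u ∈ S, ∑ w ∈ S, (if ι u = a then f u else 0) * (if ι w = b then h w else 0) * K u w =
      ∑ u ∈ S, (if ι u = a then ∑ b ∈ S.image ι, ∑ w ∈ S,
        (if ι w = b then f u * h w * κ (pt a) (pt b) * K u w else 0) else 0) := by
    intro a _
    calc ∑ b ∈ S.image ι, κ (pt a) (pt b) *
          ∑ u ∈ S, ∑ w ∈ S, (if ι u = a then f u else 0) * (if ι w = b then h w else 0) * K u w
        = ∑ b ∈ S.image ι, ∑ u ∈ S, (if ι u = a then ∑ w ∈ S,
            (if ι w = b then f u * h w * κ (pt a) (pt b) * K u w else 0) else 0) := by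
          refine Finset.sum_congr rfl fun b _ => ?_
          rw [Finset.mul_sum]
          refine Finset.sum_congr rfl fun u _ => ?_
          rw [Finset.mul_sum]
          split_ifs with h1
          · refine Finset.sum_congr rfl fun w _ => ?_
            split_ifs <;> ring
          · exact Finset.sum_eq_zero fun w _ => by ring
      _ = ∑ u ∈ S, ∑ b ∈ S.image ι, (if ι u = a then ∑ w ∈ S,
            (if ι w = b then f u * h w * κ (pt a) (pt b) * K u w else 0) else 0) :=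
          Finset.sum_comm
      _ = _ := by
          refine Finset.sum_congr rfl fun u _ => ?_
          split_ifs with h1
          · rfl
          · exact Finset.sum_const_zero
  rw [Finset.sum_congr rfl e1, CwA_fib S ι (fun a u => ∑ b ∈ S.image ι, ∑ w ∈ S,
        (if ι w = b then f u * h w * κ (pt a) (pt b) * K u w else 0))]
  refine Finset.sum_congr rfl fun u _ => ?_
  exact CwA_fib S ι (fun b w => f u * h w * κ (pt (ι u)) (pt b) * K u w)

private lemma CwA_mem {L : ℕ} {u : ℤ × ℤ} :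
    u ∈ bx L ↔ (0 ≤ u.1 ∧ u.1 ≤ L) ∧ (0 ≤ u.2 ∧ u.2 ≤ L) := by
  unfold bx
  rw [Finset.mem_product, Finset.mem_Icc, Finset.mem_Icc]

private lemma CwA_card (L : ℕ) : ((bx L).card : ℝ) = ((L : ℝ) + 1) ^ 2 := by
  unfold bx
  rw [Finset.card_product, Int.card_Icc]
  have : ((L : ℤ) + 1 - 0).toNat = L + 1 := by omega
  rw [this]
  push_cast
  ring

private lemma CwA_dt {L : ℕ} {u w : ℤ × ℤ} (hu : u ∈ bx L) (hw : w ∈ bx L) :
    (dt u w).toNat ≤ L ^ 2 := by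
  rw [CwA_mem] at hu hw
  obtain ⟨⟨h1, h2⟩, h3, h4⟩ := hu
  obtain ⟨⟨h5, h6⟩, h7, h8⟩ := hw
  rw [Int.toNat_le]
  unfold dt
  push_cast
  have h9 : u.1 * w.2 ≤ (L : ℤ) * L := mul_le_mul h2 h8 h7 (by omega)
  have h10 : 0 ≤ u.2 * w.1 := mul_nonneg h3 h5
  linarith only [h9, h10]

private lemma CwA_coord {L H : ℕ} (hH : 0 < H) {x : ℤ} (h0 : 0 ≤ x) (h1 : x ≤ L) :
    (0 ≤ x / (H : ℤ) * H ∧ x / (H : ℤ) * H ≤ L) ∧ |(x : ℝ) - ((x / (H : ℤ) * H : ℤ) : ℝ)| ≤ H := by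
  have hH' : (0 : ℤ) < H := by exact_mod_cast hH
  have h2 := Int.emod_add_mul_ediv x H
  have h3 := Int.emod_nonneg x hH'.ne'
  have h4 := Int.emod_lt_of_pos x hH'
  have h5 : x / (H : ℤ) * H = x - x % (H : ℤ) := by linarith
  have h6 : 0 ≤ x / (H : ℤ) * H := mul_nonneg (Int.ediv_nonneg h0 hH'.le) hH'.le
  refine ⟨⟨h6, by omega⟩, ?_⟩
  rw [h5, ← Int.cast_sub, sub_sub_cancel, abs_of_nonneg (by exact_mod_cast h3)]
  exact_mod_cast h4.le

/-- Proof. If `L² < N` all terms vanish. Let `N ≤ L²`, `L + 1 ≤ 2 √(C0 N)`. Choose `G ≥ 1` with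
`(8 C0 √C0/G) * 13 * 16 C0² ≤ ε/2` and apply `ks_bilinear` with `C0` and `ε'' = ε/(2 C0 G⁴)`. Let
`H = L/G + 1` (integer division; `H G ≥ L + 1`, `H ≤ 2 L/G` for `L ≥ G`, i.e. for large `N`), and
for `a ∈ [0, G)²` let `S_a` be the part of the box with `a.1 H ≤ u.1 < (a.1+1) H`,
`a.2 H ≤ u.2 < (a.2+1) H`; for nonempty `S_a` put `u_a = (a.1 H, a.2 H) ∈ bx L`. For `u ∈ S_a`,
`w ∈ S_b`, `|κ u w - κ u_a w_b| ≤ C0 * 4 H/√N ≤ 8 C0 √C0/G`. So the sum differs from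
`∑_{a, b} κ u_a w_b ∑_{u, w} (f 1_{S_a}) u (h 1_{S_b}) w ks(dt u w)` by at most
`(8 C0 √C0/G) ∑_w ∑_u |ks(dt u w)| ≤ (8 C0 √C0/G)(L+1)² * 13 (L+1)²` (`ks_box`), and the main term is
at most `G⁴ C0 ε'' N²`. -/
theorem ks_kernel (C0 ε : ℝ) (hC0 : 1 ≤ C0) (hε : 0 < ε) (G0 : ℕ) : ∃ J W N0 : ℕ, 1 ≤ J ∧ 1 ≤ W ∧
    G0.factorial ∣ W ∧ ∀ N ≥ N0, ∀ L : ℕ, (L : ℝ) ^ 2 ≤ C0 * N → ∀ κ : ℤ × ℤ → ℤ × ℤ → ℝ,
    LK C0 N L κ → ∀ c : ℕ → ℝ, (∀ p, |c p| ≤ 1) → ∀ f h : ℤ × ℤ → ℝ, (∀ u, |f u| ≤ 1) →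
    (∀ u, |h u| ≤ 1) → (∀ u, ¬ Pv u → f u = 0) →
    |∑ u ∈ bx L, ∑ w ∈ bx L, f u * h w * κ u w * ks c N J W (dt u w).toNat| ≤
      ε * (N : ℝ) ^ 2 := by
  classical
  have hC0p : 0 < C0 := by linarith
  -- the choice of G
  obtain ⟨G1, hG1⟩ := exists_nat_gt (3328 * C0 ^ 4 / ε)
  set G : ℕ := G1 + 1 with hGdef
  have hG0 : 0 < G := Nat.succ_pos _
  have hGr : (0 : ℝ) < (G : ℝ) := by exact_mod_cast hG0
  have hGb : 3328 * C0 ^ 4 ≤ ε * G := by
    rw [div_lt_iff₀ hε] at hG1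
    have : (G : ℝ) = G1 + 1 := by rw [hGdef]; push_cast; ring
    rw [this]
    linarith only [hε, hG1]
  set ε2 : ℝ := ε / (2 * C0 * (G : ℝ) ^ 4) with hε2
  have hε2p : 0 < ε2 := by positivity
  obtain ⟨J, W, N1, hJ, hW, hdvd, hbil⟩ := ks_bilinear C0 ε2 hC0 hε2p G0
  obtain ⟨N2, hbox⟩ := ks_box C0 hC0 J W hJ hW
  refine ⟨J, W, max (max N1 N2) (G ^ 2 + 1), hJ, hW, hdvd, ?_⟩
  intro N hN L hL κ hκ c hc f h hf hh hP
  have hN1 : N1 ≤ N := le_trans (le_trans (le_max_left _ _) (le_max_left _ _)) hN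
  have hN2 : N2 ≤ N := le_trans (le_trans (le_max_right _ _) (le_max_left _ _)) hN
  have hN3 : G ^ 2 + 1 ≤ N := le_trans (le_max_right _ _) hN
  have hNpos : (0 : ℝ) < (N : ℝ) := by
    have : 0 < N := by omega
    exact_mod_cast this
  by_cases hcase : L ^ 2 < N
  · have hz : ∑ u ∈ bx L, ∑ w ∈ bx L, f u * h w * κ u w * ks c N J W (dt u w).toNat = 0 := by
      refine Finset.sum_eq_zero fun u hu => Finset.sum_eq_zero fun w hw => ?_
      have h1 : ks c N J W (dt u w).toNat = 0 := by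
        by_contra hne
        have h2 := (ks_supp hne).1
        have h3 := CwA_dt hu hw
        omega
      rw [h1, mul_zero]
    rw [hz, abs_zero]
    positivity
  rw [not_lt] at hcase
  have hboxL := hbox N hN2 c hc L hcase hL
  -- sizes
  have hGL : G ≤ L := by
    by_contra hlt
    rw [not_le] at hlt
    have : L ^ 2 < G ^ 2 := Nat.pow_lt_pow_left hlt (by norm_num)
    omega
  have hL1 : (1 : ℝ) ≤ (L : ℝ) := by
    have : 1 ≤ L := le_trans hG0 hGL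
    exact_mod_cast this
  have hL4 : ((L : ℝ) + 1) ^ 2 ≤ 4 * C0 * N := by
    have : ((L : ℝ) + 1) ^ 2 ≤ (2 * L) ^ 2 := pow_le_pow_left₀ (by positivity) (by linarith) 2
    linarith only [hL, this]
  have hsN : 0 < √(N : ℝ) := Real.sqrt_pos.mpr hNpos
  have hLs : (L : ℝ) ≤ C0 * √N := by
    apply le_of_sq_le_sq _ (by positivity)
    rw [mul_pow, Real.sq_sqrt hNpos.le]
    have : C0 * N ≤ C0 ^ 2 * N := by
      have h1 : C0 ≤ C0 ^ 2 := by nlinarith only [hC0]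
      exact mul_le_mul_of_nonneg_right h1 hNpos.le
    linarith
  -- the side H
  set H : ℕ := L / G + 1 with hHdef
  have hH0 : 0 < H := Nat.succ_pos _
  have hHr : (H : ℝ) ≤ 2 * L / G := by
    rw [le_div_iff₀ hGr]
    have h1 : H * G ≤ 2 * L := by
      rw [hHdef]
      have := Nat.div_mul_le_self L G
      linarith only [hGL, this]
    exact_mod_cast h1
  have hHG : L < H * G := by
    rw [hHdef]
    exact Nat.lt_mul_of_div_lt (Nat.lt_succ_self _) hG0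
  set ι : ℤ × ℤ → ℤ × ℤ := fun u => (u.1 / (H : ℤ), u.2 / (H : ℤ)) with hι
  set pt : ℤ × ℤ → ℤ × ℤ := fun a => (a.1 * (H : ℤ), a.2 * (H : ℤ)) with hpt
  have hrep : ∀ u ∈ bx L, pt (ι u) ∈ bx L ∧ |(u.1 : ℝ) - ((pt (ι u)).1 : ℝ)| ≤ H ∧
      |(u.2 : ℝ) - ((pt (ι u)).2 : ℝ)| ≤ H := by
    intro u hu
    have hu' := CwA_mem.mp hu
    have h1 := CwA_coord hH0 hu'.1.1 hu'.1.2
    have h2 := CwA_coord hH0 hu'.2.1 hu'.2.2
    exact ⟨CwA_mem.mpr ⟨h1.1, h2.1⟩, h1.2, h2.2⟩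
  have hcardι : (((bx L).image ι).card : ℝ) ≤ (G : ℝ) ^ 2 := by
    have hsub : (bx L).image ι ⊆ Finset.Ico (0 : ℤ) G ×ˢ Finset.Ico (0 : ℤ) G := by
      intro a ha
      obtain ⟨u, hu, rfl⟩ := Finset.mem_image.mp ha
      have hu' := CwA_mem.mp hu
      have hHz : (0 : ℤ) < H := by exact_mod_cast hH0
      have hHGz : (L : ℤ) < H * G := by exact_mod_cast hHG
      rw [Finset.mem_product, Finset.mem_Ico, Finset.mem_Ico]
      refine ⟨⟨Int.ediv_nonneg hu'.1.1 hHz.le, ?_⟩, Int.ediv_nonneg hu'.2.1 hHz.le, ?_⟩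
      · exact Int.ediv_lt_of_lt_mul hHz (by linarith only [hHGz, hu'.1.2])
      · exact Int.ediv_lt_of_lt_mul hHz (by linarith only [hHGz, hu'.2.2])
    have h1 := Finset.card_le_card hsub
    rw [Finset.card_product, Int.card_Ico] at h1
    have h2 : ((G : ℤ) - 0).toNat = G := by omega
    rw [h2] at h1
    calc (((bx L).image ι).card : ℝ) ≤ ((G * G : ℕ) : ℝ) := by exact_mod_cast h1
      _ = (G : ℝ) ^ 2 := by push_cast; ring
  set K : ℤ × ℤ → ℤ × ℤ → ℝ := fun u w => ks c N J W (dt u w).toNat with hK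
  -- the main part
  have hmain : |∑ u ∈ bx L, ∑ w ∈ bx L, f u * h w * κ (pt (ι u)) (pt (ι w)) * K u w| ≤
      ε / 2 * (N : ℝ) ^ 2 := by
    rw [← CwA_split (bx L) ι pt κ K f h]
    have hterm : ∀ a ∈ (bx L).image ι, ∀ b ∈ (bx L).image ι, |κ (pt a) (pt b) *
        ∑ u ∈ bx L, ∑ w ∈ bx L, (if ι u = a then f u else 0) * (if ι w = b then h w else 0) *
          K u w| ≤ C0 * (ε2 * (N : ℝ) ^ 2) := by
      intro a ha b hb
      obtain ⟨u, hu, rfl⟩ := Finset.mem_image.mp ha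
      obtain ⟨w, hw, rfl⟩ := Finset.mem_image.mp hb
      rw [abs_mul]
      refine mul_le_mul (hκ.bd _ (hrep u hu).1 _ (hrep w hw).1) ?_ (abs_nonneg _) hC0p.le
      refine hbil N hN1 L hL c hc (fun v => if ι v = ι u then f v else 0)
        (fun v => if ι v = ι w then h v else 0) ?_ ?_ ?_
      · intro v
        beta_reduce
        split_ifs
        · exact hf v
        · simp
      · intro v
        beta_reduce
        split_ifs
        · exact hh v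
        · simp
      · intro v hv
        beta_reduce
        rw [hP v hv]
        simp
    calc _ ≤ ∑ a ∈ (bx L).image ι, ∑ b ∈ (bx L).image ι, C0 * (ε2 * (N : ℝ) ^ 2) := by
          refine (Finset.abs_sum_le_sum_abs _ _).trans (Finset.sum_le_sum fun a ha => ?_)
          exact (Finset.abs_sum_le_sum_abs _ _).trans
            (Finset.sum_le_sum fun b hb => hterm a ha b hb)
      _ = (((bx L).image ι).card : ℝ) * ((((bx L).image ι).card : ℝ) *
            (C0 * (ε2 * (N : ℝ) ^ 2))) := by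
          rw [Finset.sum_const, Finset.sum_const, nsmul_eq_mul, nsmul_eq_mul]
      _ ≤ (G : ℝ) ^ 2 * ((G : ℝ) ^ 2 * (C0 * (ε2 * (N : ℝ) ^ 2))) := by
          refine mul_le_mul hcardι ?_ (by positivity) (by positivity)
          exact mul_le_mul_of_nonneg_right hcardι (by positivity)
      _ = ε / 2 * (N : ℝ) ^ 2 := by
          rw [hε2]
          field_simp
  -- the error
  set δ : ℝ := 8 * C0 ^ 2 / G with hδ
  have hδ0 : 0 ≤ δ := by positivity
  have hdiff : ∀ u ∈ bx L, ∀ w ∈ bx L, |κ u w - κ (pt (ι u)) (pt (ι w))| ≤ δ := by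
    intro u hu w hw
    obtain ⟨hu1, hu2, hu3⟩ := hrep u hu
    obtain ⟨hw1, hw2, hw3⟩ := hrep w hw
    have h1 := hκ.l1 u hu _ hu1 w hw
    have h2 := hκ.l2 _ hu1 w hw _ hw1
    have h3 : ∀ x y : ℝ, x ≤ H → y ≤ H → C0 * (x + y) / √N ≤ 4 * C0 ^ 2 / G := by
      intro x y hx hy
      rw [div_le_div_iff₀ hsN hGr]
      have h4 : (H : ℝ) * G ≤ 2 * L := by
        rw [le_div_iff₀ hGr] at hHr
        exact hHr
      have h5 : C0 * (x + y) * G ≤ C0 * (2 * H) * G :=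
        mul_le_mul_of_nonneg_right (mul_le_mul_of_nonneg_left (by linarith only [hx, hy]) hC0p.le) hGr.le
      have h6 : C0 * (2 * H) * G ≤ C0 * (4 * L) := by nlinarith only [hsN, hLs, h4]
      have h7 : C0 * (4 * L) ≤ C0 * (4 * (C0 * √N)) :=
        mul_le_mul_of_nonneg_left (by linarith only [hLs]) hC0p.le
      calc C0 * (x + y) * G ≤ C0 * (4 * (C0 * √N)) := h5.trans (h6.trans h7)
        _ = 4 * C0 ^ 2 * √N := by ring
    have h8 := h3 _ _ hu2 hu3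
    have h9 := h3 _ _ hw2 hw3
    have h10 : κ u w - κ (pt (ι u)) (pt (ι w)) =
        (κ u w - κ (pt (ι u)) w) + (κ (pt (ι u)) w - κ (pt (ι u)) (pt (ι w))) := by ring
    rw [h10]
    refine (abs_add_le _ _).trans ?_
    have h11 : δ = 4 * C0 ^ 2 / G + 4 * C0 ^ 2 / G := by rw [hδ]; ring
    rw [h11]
    exact add_le_add (h1.trans h8) (h2.trans h9)
  have herr : |∑ u ∈ bx L, ∑ w ∈ bx L, f u * h w * (κ u w - κ (pt (ι u)) (pt (ι w))) * K u w| ≤
      ε / 2 * (N : ℝ) ^ 2 := by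
    calc _ ≤ ∑ u ∈ bx L, ∑ w ∈ bx L, δ * |K u w| := by
          refine (Finset.abs_sum_le_sum_abs _ _).trans (Finset.sum_le_sum fun u hu => ?_)
          refine (Finset.abs_sum_le_sum_abs _ _).trans (Finset.sum_le_sum fun w hw => ?_)
          rw [abs_mul, abs_mul, abs_mul]
          refine mul_le_mul_of_nonneg_right ?_ (abs_nonneg _)
          calc |f u| * |h w| * |κ u w - κ (pt (ι u)) (pt (ι w))| ≤ 1 * 1 * δ :=
                mul_le_mul (mul_le_mul (hf u) (hh w) (abs_nonneg _) zero_le_one)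
                  (hdiff u hu w hw) (abs_nonneg _) (by norm_num)
            _ = δ := by ring
      _ = ∑ w ∈ bx L, δ * ∑ u ∈ bx L, |K u w| := by
          rw [Finset.sum_comm]
          exact Finset.sum_congr rfl fun w _ => (Finset.mul_sum _ _ _).symm
      _ ≤ ∑ w ∈ bx L, δ * (13 * ((L : ℝ) + 1) ^ 2) :=
          Finset.sum_le_sum fun w hw => mul_le_mul_of_nonneg_left (hboxL w hw) hδ0
      _ = δ * (13 * (((L : ℝ) + 1) ^ 2) ^ 2) := by
          rw [Finset.sum_const, nsmul_eq_mul, CwA_card]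
          ring
      _ ≤ δ * (13 * (4 * C0 * N) ^ 2) := by
          refine mul_le_mul_of_nonneg_left ?_ hδ0
          refine mul_le_mul_of_nonneg_left ?_ (by norm_num)
          exact pow_le_pow_left₀ (by positivity) hL4 2
      _ = 1664 * C0 ^ 4 / G * (N : ℝ) ^ 2 := by rw [hδ]; ring
      _ ≤ ε / 2 * (N : ℝ) ^ 2 := by
          refine mul_le_mul_of_nonneg_right ?_ (by positivity)
          rw [div_le_iff₀ hGr]
          linarith only [hGb]
  have hsum : ∑ u ∈ bx L, ∑ w ∈ bx L, f u * h w * κ u w * ks c N J W (dt u w).toNat =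
      ∑ u ∈ bx L, ∑ w ∈ bx L, f u * h w * κ (pt (ι u)) (pt (ι w)) * K u w +
      ∑ u ∈ bx L, ∑ w ∈ bx L, f u * h w * (κ u w - κ (pt (ι u)) (pt (ι w))) * K u w := by
    rw [← Finset.sum_add_distrib]
    refine Finset.sum_congr rfl fun u _ => ?_
    rw [← Finset.sum_add_distrib]
    refine Finset.sum_congr rfl fun w _ => ?_
    rw [hK]
    ring
  rw [hsum]
  refine (abs_add_le _ _).trans ?_
  linarith only [hmain, herr]

end

end Pool.Agent.Lib.MP_0b748d_nt.HHC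
end

section

set_option autoImplicit false

/-!
# The bilinear theorem
-/

namespace Pool.Agent.Lib.MP_0b748d_nt.HHC

noncomputable section

/-- for a nonprimitive vector of the box the determinant is not a prime `≥ N` -/
private theorem Cmain_zero {N L : ℕ} (hLN : L < N) (c : ℕ → ℝ) {u : ℤ × ℤ} (hu : u ∈ bx L)
    (hp : ¬ Pv u) (w : ℤ × ℤ) : kp c N (dt u w).toNat = 0 := by
  unfold kp
  rw [if_neg]
  rintro ⟨hpr, hN, -⟩
  obtain ⟨m, hm⟩ : ∃ m, m = (dt u w).toNat := ⟨_, rfl⟩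
  rw [← hm] at hpr hN
  have hm0 : 0 < m := hpr.pos
  have hdt : dt u w = (m : ℤ) := by omega
  have hg1 : (Int.gcd u.1 u.2) ∣ m := by
    have h1 : ((Int.gcd u.1 u.2 : ℕ) : ℤ) ∣ dt u w := by
      unfold dt
      exact dvd_sub ((Int.gcd_dvd_left _ _).mul_right _) ((Int.gcd_dvd_right _ _).mul_right _)
    rw [hdt] at h1
    exact Int.natCast_dvd_natCast.1 h1
  have hg2 : Int.gcd u.1 u.2 = m := by
    rcases (Nat.dvd_prime hpr).1 hg1 with h1 | h1
    · exact absurd (Int.isCoprime_iff_gcd_eq_one.2 h1) hp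
    · exact h1
  unfold bx at hu
  rw [Finset.mem_product, Finset.mem_Icc, Finset.mem_Icc] at hu
  obtain ⟨⟨h1, h2⟩, h3, h4⟩ := hu
  have hd1 : (m : ℤ) ∣ u.1 := by rw [← hg2]; exact Int.gcd_dvd_left _ _
  have hd2 : (m : ℤ) ∣ u.2 := by rw [← hg2]; exact Int.gcd_dvd_right _ _
  have h5 : u.1 = 0 := by
    by_contra h5
    have h6 := Int.le_of_dvd (by omega) hd1
    omega
  have h6 : u.2 = 0 := by
    by_contra h6
    have h7 := Int.le_of_dvd (by omega) hd2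
    omega
  unfold dt at hdt
  rw [h5, h6, zero_mul, zero_mul, sub_zero] at hdt
  omega

/-- **The bilinear theorem.**

Proof. Let `G0` be from `nonprim (C0, ε/(3 C0))`, `J, W` from `ks_kernel (C0, ε/3, G0)`, `η` from
`km_kernel (C0, ε/3, J, W)`. Let `f1 u = f u` if `Pv u`, `0` otherwise. For large `N`,
`kp c N (dt u w).toNat = 0` if `u` in the box is not primitive: `g = gcd(u.1, u.2)` divides the
prime `p = dt u w ≥ N`, and `2 ≤ g ≤ L < N` (`L² ≤ C0 N < N²`) is impossible (`u = 0` gives `dt = 0`).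
So the sum is `∑ f1 h κ kp = ∑ f1 h κ ks + ∑ f1 h κ km`, and
`∑ f1 h κ km = ∑ f h κ km - ∑_{u not primitive} f h κ km`, the last sum being at most
`C0 * (ε/(3 C0)) N²` in absolute value. -/
theorem C_main (C0 ε : ℝ) (hC0 : 1 ≤ C0) (hε : 0 < ε) : ∃ (η : ℝ) (W N0 : ℕ), 0 < η ∧ 1 ≤ W ∧
    ∀ N ≥ N0, ∀ L : ℕ, (L : ℝ) ^ 2 ≤ C0 * N → ∀ κ : ℤ × ℤ → ℤ × ℤ → ℝ, LK C0 N L κ →
    ∀ c : ℕ → ℝ, (∀ p, |c p| ≤ 1) → ∀ f h : ℤ × ℤ → ℝ, (∀ u, |f u| ≤ 1) → (∀ u, |h u| ≤ 1) →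
    SM W η N L f →
    |∑ u ∈ bx L, ∑ w ∈ bx L, f u * h w * κ u w * kp c N (dt u w).toNat| ≤ ε * (N : ℝ) ^ 2 := by
  classical
  have hC0' : 0 < C0 := lt_of_lt_of_le one_pos hC0
  obtain ⟨G0, hG0⟩ := nonprim C0 (ε / (3 * C0)) hC0 (by positivity)
  obtain ⟨J, W, N1, hJ, hW, hGW, h1⟩ := ks_kernel C0 (ε / 3) hC0 (by positivity) G0
  obtain ⟨N2, h2⟩ := hG0 J W hJ hW hGW
  obtain ⟨η, N3, hη, h3⟩ := km_kernel C0 (ε / 3) hC0 (by positivity) J W hJ hW
  obtain ⟨N4, hN4⟩ := exists_nat_gt C0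
  refine ⟨η, W, N1 + N2 + N3 + N4, hη, hW, ?_⟩
  intro N hN L hL κ hκ c hc f h hf hh hSM
  have hNC : C0 < N := hN4.trans_le (by exact_mod_cast (show N4 ≤ N by omega))
  have hN0 : (0 : ℝ) < N := hC0'.trans hNC
  have hLN : L < N := by
    by_contra hcon
    have h4 : (N : ℝ) ≤ L := by exact_mod_cast not_lt.1 hcon
    have h5 : (N : ℝ) ^ 2 ≤ (L : ℝ) ^ 2 := pow_le_pow_left₀ hN0.le h4 2
    have h6 : C0 * (N : ℝ) < (N : ℝ) ^ 2 := by
      rw [pow_two]
      exact mul_lt_mul_of_pos_right hNC hN0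
    linarith
  set f1 : ℤ × ℤ → ℝ := fun u => if Pv u then f u else 0 with hf1
  have hf1a : ∀ u, |f1 u| ≤ 1 := by
    intro u
    rw [hf1]
    simp only
    split_ifs
    · exact hf u
    · rw [abs_zero]
      exact zero_le_one
  have hf1b : ∀ u, ¬ Pv u → f1 u = 0 := fun u hu => if_neg hu
  have k1 := h1 N (by omega) L hL κ hκ c hc f1 h hf1a hh hf1b
  have k2 := h2 N (by omega) L hL c hc
  have k3 := h3 N (by omega) L hL κ hκ c hc f h hf hh hSM
  -- the decomposition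
  have e1 : ∑ u ∈ bx L, ∑ w ∈ bx L, f u * h w * κ u w * kp c N (dt u w).toNat =
      ∑ u ∈ bx L, ∑ w ∈ bx L, f1 u * h w * κ u w * ks c N J W (dt u w).toNat +
      (∑ u ∈ bx L, ∑ w ∈ bx L, f u * h w * κ u w * km c N J W (dt u w).toNat -
        ∑ u ∈ (bx L).filter (fun u => ¬ Pv u), ∑ w ∈ bx L,
          f u * h w * κ u w * km c N J W (dt u w).toNat) := by
    rw [Finset.sum_filter, ← Finset.sum_sub_distrib, ← Finset.sum_add_distrib]
    refine Finset.sum_congr rfl fun u hu => ?_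
    by_cases hpu : Pv u
    · rw [if_neg (not_not.2 hpu), sub_zero, ← Finset.sum_add_distrib]
      refine Finset.sum_congr rfl fun w _ => ?_
      have h4 : f1 u = f u := if_pos hpu
      rw [h4]
      unfold ks
      ring
    · rw [if_pos hpu, sub_self, add_zero]
      refine Finset.sum_congr rfl fun w _ => ?_
      rw [Cmain_zero hLN c hu hpu w, hf1b u hpu]
      ring
  have e2 : |∑ u ∈ (bx L).filter (fun u => ¬ Pv u), ∑ w ∈ bx L,
      f u * h w * κ u w * km c N J W (dt u w).toNat| ≤ ε / 3 * (N : ℝ) ^ 2 := by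
    refine (Finset.abs_sum_le_sum_abs _ _).trans ?_
    have h4 : ∀ u ∈ (bx L).filter (fun u => ¬ Pv u), |∑ w ∈ bx L,
        f u * h w * κ u w * km c N J W (dt u w).toNat| ≤
        C0 * ∑ w ∈ bx L, |km c N J W (dt u w).toNat| := by
      intro u hu
      refine (Finset.abs_sum_le_sum_abs _ _).trans ?_
      rw [Finset.mul_sum]
      refine Finset.sum_le_sum fun w hw => ?_
      rw [abs_mul, abs_mul, abs_mul]
      refine mul_le_mul_of_nonneg_right ?_ (abs_nonneg _)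
      have h5 : |f u| * |h w| ≤ 1 := mul_le_one₀ (hf u) (abs_nonneg _) (hh w)
      calc |f u| * |h w| * |κ u w| ≤ 1 * C0 :=
            mul_le_mul h5 (hκ.bd u (Finset.mem_filter.1 hu).1 w hw) (abs_nonneg _) zero_le_one
        _ = C0 := one_mul _
    refine (Finset.sum_le_sum h4).trans ?_
    rw [← Finset.mul_sum]
    calc C0 * ∑ u ∈ (bx L).filter (fun u => ¬ Pv u), ∑ w ∈ bx L, |km c N J W (dt u w).toNat|
        ≤ C0 * (ε / (3 * C0) * (N : ℝ) ^ 2) := mul_le_mul_of_nonneg_left k2 hC0'.le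
      _ = ε / 3 * (N : ℝ) ^ 2 := by field_simp
  rw [e1]
  have h7 := abs_le.1 k1
  have h8 := abs_le.1 k3
  have h9 := abs_le.1 e2
  rw [abs_le]
  constructor
  · linarith [h7.1, h8.1, h9.2]
  · linarith [h7.2, h8.2, h9.1]

end

end Pool.Agent.Lib.MP_0b748d_nt.HHC
end

section

set_option autoImplicit false

/-!
# The bilinear theorem (interface)
-/

namespace Pool.Agent.Lib.MP_0b748d_nt.HH

noncomputable section

/-- vectors of a box -/
def Bv (b : ℕ) : Finset (ℕ × ℕ) := Finset.range (b + 1) ×ˢ Finset.range (b + 1)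

/-- determinant of two vectors -/
def dv (v w : ℕ × ℕ) : ℤ := (v.1 : ℤ) * w.2 - (v.2 : ℤ) * w.1

open Classical in
/-- `f` has small sums over the pieces of a partition of the box into sets of diameter at most `η √P`,
in all residue classes modulo `W` -/
def Sm (W : ℕ) (η : ℝ) (P b : ℕ) (f : ℕ × ℕ → ℝ) : Prop := ∃ piece : ℕ × ℕ → ℕ,
  (∀ v ∈ Bv b, ∀ v' ∈ Bv b, piece v = piece v' →
    |(v.1 : ℝ) - v'.1| ≤ η * √P ∧ |(v.2 : ℝ) - v'.2| ≤ η * √P) ∧
  ∑ j ∈ (Bv b).image piece, ∑ r ∈ Finset.range W ×ˢ Finset.range W,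
    |∑ v ∈ (Bv b).filter (fun v => piece v = j ∧ v.1 % W = r.1 ∧ v.2 % W = r.2), f v| ≤ η * P

/-- Lipschitz kernels on the box -/
structure Lk (C0 : ℝ) (P b : ℕ) (κ : ℕ × ℕ → ℕ × ℕ → ℝ) : Prop where
  bd : ∀ v ∈ Bv b, ∀ w ∈ Bv b, |κ v w| ≤ C0
  l1 : ∀ v ∈ Bv b, ∀ v' ∈ Bv b, ∀ w ∈ Bv b,
    |κ v w - κ v' w| ≤ C0 * (|(v.1 : ℝ) - v'.1| + |(v.2 : ℝ) - v'.2|) / √P
  l2 : ∀ v ∈ Bv b, ∀ w ∈ Bv b, ∀ w' ∈ Bv b,
    |κ v w - κ v w'| ≤ C0 * (|(w.1 : ℝ) - w'.1| + |(w.2 : ℝ) - w'.2|) / √P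

private def bilE (v : ℕ × ℕ) : ℤ × ℤ := ((v.1 : ℤ), (v.2 : ℤ))

private def bilT (u : ℤ × ℤ) : ℕ × ℕ := (u.1.toNat, u.2.toNat)

private theorem bilTE (v : ℕ × ℕ) : bilT (bilE v) = v := by
  unfold bilT bilE
  simp

private theorem bilT_mem {b : ℕ} {u : ℤ × ℤ} (hu : u ∈ HHC.bx b) : bilT u ∈ Bv b := by
  unfold HHC.bx at hu
  rw [Finset.mem_product, Finset.mem_Icc, Finset.mem_Icc] at hu
  unfold Bv bilT
  rw [Finset.mem_product, Finset.mem_range, Finset.mem_range]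
  simp only
  omega

private theorem bilE_mem {b : ℕ} {v : ℕ × ℕ} (hv : v ∈ Bv b) : bilE v ∈ HHC.bx b := by
  unfold Bv at hv
  rw [Finset.mem_product, Finset.mem_range, Finset.mem_range] at hv
  unfold HHC.bx bilE
  rw [Finset.mem_product, Finset.mem_Icc, Finset.mem_Icc]
  simp only
  omega

private theorem bilET {b : ℕ} {u : ℤ × ℤ} (hu : u ∈ HHC.bx b) : bilE (bilT u) = u := by
  unfold HHC.bx at hu
  rw [Finset.mem_product, Finset.mem_Icc, Finset.mem_Icc] at hu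
  obtain ⟨⟨h1, -⟩, h2, -⟩ := hu
  unfold bilE bilT
  exact Prod.ext (Int.toNat_of_nonneg h1) (Int.toNat_of_nonneg h2)

private theorem bil_sum {b : ℕ} {M : Type*} [AddCommMonoid M] (F : ℤ × ℤ → M) :
    ∑ u ∈ HHC.bx b, F u = ∑ v ∈ Bv b, F (bilE v) :=
  Finset.sum_nbij' bilT bilE (fun _ hu => bilT_mem hu) (fun _ hv => bilE_mem hv)
    (fun _ hu => bilET hu) (fun v _ => bilTE v) (fun u hu => by rw [bilET hu])

private theorem bil_cast {b : ℕ} {u : ℤ × ℤ} (hu : u ∈ HHC.bx b) :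
    ((bilT u).1 : ℝ) = (u.1 : ℝ) ∧ ((bilT u).2 : ℝ) = (u.2 : ℝ) := by
  unfold HHC.bx at hu
  rw [Finset.mem_product, Finset.mem_Icc, Finset.mem_Icc] at hu
  obtain ⟨⟨h1, -⟩, h2, -⟩ := hu
  constructor
  · have : ((u.1.toNat : ℤ) : ℝ) = (u.1 : ℝ) := by rw [Int.toNat_of_nonneg h1]
    exact_mod_cast this
  · have : ((u.2.toNat : ℤ) : ℝ) = (u.2 : ℝ) := by rw [Int.toNat_of_nonneg h2]
    exact_mod_cast this

private theorem bil_PP {P m : ℕ} : m ∈ PP P ↔ (P ≤ m ∧ m < 2 * P) ∧ MR.Sp m := by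
  classical
  unfold PP
  rw [Finset.mem_filter, Finset.mem_Ico]

private theorem bil_sqb {C0 : ℝ} {P b : ℕ} (hb : (b : ℝ) ≤ C0 * √P) :
    (b : ℝ) ^ 2 ≤ C0 ^ 2 * P := by
  have h1 : (b : ℝ) ^ 2 ≤ (C0 * √P) ^ 2 := pow_le_pow_left₀ (Nat.cast_nonneg b) hb 2
  rwa [mul_pow, Real.sq_sqrt (Nat.cast_nonneg P)] at h1

open Classical in
/-- **Bilinear theorem** (section C, helper65).

Proof from `HHC.C_main` (file `Cmain.lean`) with `C0 ^ 2`, `ε`: let `κ' u w = κ (u.1.toNat, u.2.toNat)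
(w.1.toNat, w.2.toNat)`, and `f', h'` likewise; `(v.1, v.2) ↦ ((v.1 : ℤ), (v.2 : ℤ))` is a bijection of
`Bv b` onto `HHC.bx b` and `dv` becomes `HHC.dt`; `b² ≤ C0² P`; `Lk C0 P b κ` gives
`HHC.LK (C0^2) P b κ'` as `C0 ≤ C0²`, `Sm W η P b f` gives `HHC.SM W η P b f'` with
`piece' u = piece (u.1.toNat, u.2.toNat)`. With `c' m = if Sp m then c m else 0`,
`(if m ∈ PP P then c m else 0) * log P = HHC.kp c' P m`. -/
theorem bilinear (C0 ε : ℝ) (hC0 : 1 ≤ C0) (hε : 0 < ε) : ∃ (η : ℝ) (W P0 : ℕ), 0 < η ∧ 1 ≤ W ∧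
    ∀ P b : ℕ, P0 ≤ P → (b : ℝ) ≤ C0 * √P → ∀ κ : ℕ × ℕ → ℕ × ℕ → ℝ, Lk C0 P b κ →
    ∀ c : ℕ → ℝ, (∀ m, |c m| ≤ 1) → ∀ f h : ℕ × ℕ → ℝ, (∀ v, |f v| ≤ 1) → (∀ v, |h v| ≤ 1) →
    Sm W η P b f →
    |∑ v ∈ Bv b, ∑ w ∈ Bv b, f v * h w * κ v w *
      (if (dv v w).toNat ∈ PP P then c (dv v w).toNat else 0)| * Real.log P ≤ ε * P ^ 2 := by
  have hC1 : 1 ≤ C0 ^ 2 := one_le_pow₀ hC0
  have hC2 : C0 ≤ C0 ^ 2 := by nlinarith
  obtain ⟨η, W, N0, hη, hW, hmain⟩ := HHC.C_main (C0 ^ 2) ε hC1 hε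
  refine ⟨η, W, N0, hη, hW, ?_⟩
  intro P b hP hb κ hκ c hc f h hf hh hSm
  have hlog : 0 ≤ Real.log (P : ℝ) := Real.log_natCast_nonneg P
  have hLK : HHC.LK (C0 ^ 2) P b (fun u w => κ (bilT u) (bilT w)) := by
    refine ⟨?_, ?_, ?_⟩
    · intro u hu w hw
      exact (hκ.bd _ (bilT_mem hu) _ (bilT_mem hw)).trans hC2
    · intro u hu u' hu' w hw
      have h1 := hκ.l1 _ (bilT_mem hu) _ (bilT_mem hu') _ (bilT_mem hw)
      rw [(bil_cast hu).1, (bil_cast hu).2, (bil_cast hu').1, (bil_cast hu').2] at h1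
      refine h1.trans ?_
      gcongr
    · intro u hu w hw w' hw'
      have h1 := hκ.l2 _ (bilT_mem hu) _ (bilT_mem hw) _ (bilT_mem hw')
      rw [(bil_cast hw).1, (bil_cast hw).2, (bil_cast hw').1, (bil_cast hw').2] at h1
      refine h1.trans ?_
      gcongr
  have hSM : HHC.SM W η P b (fun u => f (bilT u)) := by
    obtain ⟨piece, hp1, hp2⟩ := hSm
    refine ⟨fun u => piece (bilT u), ?_, ?_⟩
    · intro u hu u' hu' he
      have h1 := hp1 _ (bilT_mem hu) _ (bilT_mem hu') he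
      rw [(bil_cast hu).1, (bil_cast hu).2, (bil_cast hu').1, (bil_cast hu').2] at h1
      exact h1
    · have himg : (HHC.bx b).image (fun u => piece (bilT u)) = (Bv b).image piece := by
        ext j
        rw [Finset.mem_image, Finset.mem_image]
        constructor
        · rintro ⟨u, hu, rfl⟩
          exact ⟨_, bilT_mem hu, rfl⟩
        · rintro ⟨v, hv, rfl⟩
          exact ⟨bilE v, bilE_mem hv, by simp only [bilTE]⟩
      rw [himg]
      refine le_of_eq_of_le ?_ hp2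
      refine Finset.sum_congr rfl fun j _ => Finset.sum_congr rfl fun r _ => ?_
      congr 1
      rw [Finset.sum_filter, Finset.sum_filter, bil_sum]
      refine Finset.sum_congr rfl fun v _ => ?_
      simp only [bilTE]
      have e1 : ((bilE v).1 % (W : ℤ) = (r.1 : ℤ)) ↔ (v.1 % W = r.1) := by
        unfold bilE
        simp only
        rw [← Int.natCast_mod]
        exact Int.natCast_inj
      have e2 : ((bilE v).2 % (W : ℤ) = (r.2 : ℤ)) ↔ (v.2 % W = r.2) := by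
        unfold bilE
        simp only
        rw [← Int.natCast_mod]
        exact Int.natCast_inj
      simp only [e1, e2]
  obtain ⟨c', hc'⟩ : ∃ c' : ℕ → ℝ, c' = fun m => if MR.Sp m then c m else 0 := ⟨_, rfl⟩
  have hcp : ∀ m, MR.Sp m → c' m = c m := fun m hm => by rw [hc']; exact if_pos hm
  have hcn : ∀ m, ¬ MR.Sp m → c' m = 0 := fun m hm => by rw [hc']; exact if_neg hm
  have hkey := hmain P hP b (bil_sqb hb) (fun u w => κ (bilT u) (bilT w)) hLK
    c' (fun p => by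
      by_cases hp : MR.Sp p
      · rw [hcp p hp]; exact hc p
      · rw [hcn p hp]; simp) (fun u => f (bilT u)) (fun u => h (bilT u)) (fun u => hf _) (fun u => hh _) hSM
  rw [bil_sum] at hkey
  have hsum : (∑ v ∈ Bv b, ∑ w ∈ Bv b, f v * h w * κ v w *
      (if (dv v w).toNat ∈ PP P then c (dv v w).toNat else 0)) * Real.log P =
      ∑ v ∈ Bv b, ∑ u ∈ HHC.bx b, f (bilT (bilE v)) * h (bilT u) *
        κ (bilT (bilE v)) (bilT u) *
        HHC.kp c' P (HHC.dt (bilE v) u).toNat := by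
    rw [Finset.sum_mul]
    refine Finset.sum_congr rfl fun v _ => ?_
    rw [bil_sum, Finset.sum_mul]
    refine Finset.sum_congr rfl fun w _ => ?_
    rw [bilTE, bilTE]
    have e1 : HHC.dt (bilE v) (bilE w) = dv v w := rfl
    rw [e1]
    have e2 : HHC.kp c' P (dv v w).toNat =
        (if (dv v w).toNat ∈ PP P then c (dv v w).toNat else 0) * Real.log P := by
      unfold HHC.kp
      by_cases h1 : (dv v w).toNat ∈ PP P
      · obtain ⟨⟨h2, h3⟩, h4⟩ := bil_PP.1 h1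
        rw [if_pos h1, if_pos ⟨h4.1, h2, h3⟩, hcp _ h4]
      · rw [if_neg h1, zero_mul]
        split_ifs with h2
        · have h3 : ¬ MR.Sp (dv v w).toNat := fun h3 =>
            h1 (bil_PP.2 ⟨⟨h2.2.1, h2.2.2⟩, h3⟩)
          rw [hcn _ h3, zero_mul]
        · rfl
    rw [e2]
    ring
  have habs : |∑ v ∈ Bv b, ∑ w ∈ Bv b, f v * h w * κ v w *
      (if (dv v w).toNat ∈ PP P then c (dv v w).toNat else 0)| * Real.log P =
      |(∑ v ∈ Bv b, ∑ w ∈ Bv b, f v * h w * κ v w *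
      (if (dv v w).toNat ∈ PP P then c (dv v w).toNat else 0)) * Real.log P| := by
    rw [abs_mul, abs_of_nonneg hlog]
  rw [habs, hsum]
  exact hkey

open Classical in
private theorem bil_left (C0 : ℝ) (hC0 : 1 ≤ C0) : ∃ K : ℝ, 1 ≤ K ∧ ∀ P b : ℕ, 2 ≤ P →
    (b : ℝ) ≤ C0 * √P → ∀ v ∈ Bv b,
      (((Bv b).filter (fun w => (dv w v).toNat ∈ PP P)).card : ℝ) ≤ K * P / Real.log P := by
  obtain ⟨N0, hN0⟩ := HHC.kp_sq 1 one_pos
  obtain ⟨M, hM⟩ := exists_nat_gt (C0 ^ 2)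
  have hC1 : 1 ≤ C0 ^ 2 := one_le_pow₀ hC0
  refine ⟨4 * C0 ^ 2 * (N0 + M : ℕ) + 40 * C0 ^ 2, by
    have : (0 : ℝ) ≤ 4 * C0 ^ 2 * (N0 + M : ℕ) := by positivity
    linarith, ?_⟩
  intro P b hP hb v hv
  have hP1 : (1 : ℝ) < P := by exact_mod_cast (by omega : 1 < P)
  have hP0 : (0 : ℝ) < P := by linarith
  have hlog : 0 < Real.log (P : ℝ) := Real.log_pos hP1
  have hsP : 1 ≤ √(P : ℝ) := by
    rw [Real.one_le_sqrt]
    exact hP1.le
  have hCs : 1 ≤ C0 * √(P : ℝ) := by nlinarith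
  have hb1 : ((b : ℝ) + 1) ^ 2 ≤ 4 * C0 ^ 2 * P := by
    have h1 : (b : ℝ) + 1 ≤ 2 * (C0 * √P) := by linarith
    have h2 : ((b : ℝ) + 1) ^ 2 ≤ (2 * (C0 * √P)) ^ 2 := pow_le_pow_left₀ (by positivity) h1 2
    rw [mul_pow, mul_pow, Real.sq_sqrt hP0.le] at h2
    linarith
  rw [le_div_iff₀ hlog]
  have hcard : (((Bv b).filter (fun w => (dv w v).toNat ∈ PP P)).card : ℝ) ≤
      ((b : ℝ) + 1) ^ 2 := by
    have h1 : ((Bv b).filter (fun w => (dv w v).toNat ∈ PP P)).card ≤ (b + 1) * (b + 1) := by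
      refine (Finset.card_filter_le _ _).trans ?_
      unfold Bv
      rw [Finset.card_product, Finset.card_range]
    have h2 : (((Bv b).filter (fun w => (dv w v).toNat ∈ PP P)).card : ℝ) ≤
        (((b + 1) * (b + 1) : ℕ) : ℝ) := by exact_mod_cast h1
    refine h2.trans (le_of_eq ?_)
    push_cast
    ring
  rcases lt_or_ge P (N0 + M) with hlt | hge
  · have h1 : Real.log P ≤ ((N0 + M : ℕ) : ℝ) := by
      refine (Real.log_le_self hP0.le).trans ?_
      exact_mod_cast hlt.le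
    have h2 : (((Bv b).filter (fun w => (dv w v).toNat ∈ PP P)).card : ℝ) * Real.log P ≤
        (4 * C0 ^ 2 * P) * ((N0 + M : ℕ) : ℝ) :=
      mul_le_mul (hcard.trans hb1) h1 hlog.le (by positivity)
    have h3 : (0 : ℝ) ≤ 40 * C0 ^ 2 * P := by positivity
    calc _ ≤ (4 * C0 ^ 2 * P) * ((N0 + M : ℕ) : ℝ) := h2
      _ ≤ (4 * C0 ^ 2 * P) * ((N0 + M : ℕ) : ℝ) + 40 * C0 ^ 2 * P := by linarith
      _ = (4 * C0 ^ 2 * ((N0 + M : ℕ) : ℝ) + 40 * C0 ^ 2) * P := by ring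
  · have hvb : v.1 ≤ b ∧ v.2 ≤ b := by
      unfold Bv at hv
      rw [Finset.mem_product, Finset.mem_range, Finset.mem_range] at hv
      omega
    have hgoal : (((Bv b).filter (fun w => (dv w v).toNat ∈ PP P)).card : ℝ) * Real.log P ≤
        40 * C0 ^ 2 * P := by
      rcases lt_or_ge (b * b) P with hbP | hbP
      · have h0 : (Bv b).filter (fun w => (dv w v).toNat ∈ PP P) = ∅ := by
          rw [Finset.filter_eq_empty_iff]
          intro w hw hcon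
          have hwb : w.1 ≤ b ∧ w.2 ≤ b := by
            unfold Bv at hw
            rw [Finset.mem_product, Finset.mem_range, Finset.mem_range] at hw
            omega
          have h1 := (bil_PP.1 hcon).1.1
          have h2 : (dv w v).toNat ≤ b * b := by
            rw [Int.toNat_le]
            unfold dv
            have h3 : (w.1 : ℤ) * v.2 ≤ b * b := by
              exact_mod_cast Nat.mul_le_mul hwb.1 hvb.2
            have h4 : (0 : ℤ) ≤ (w.2 : ℤ) * v.1 := by positivity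
            push_cast
            linarith
          omega
        rw [h0, Finset.card_empty, Nat.cast_zero, zero_mul]
        positivity
      · have hM' : C0 ^ 2 < P := hM.trans_le (by exact_mod_cast (show M ≤ P by omega))
        have hbP' : (b : ℝ) < P := by
          have h1 : C0 < √(P : ℝ) := Real.lt_sqrt_of_sq_lt hM'
          have h2 : C0 * √(P : ℝ) < √(P : ℝ) * √(P : ℝ) :=
            mul_lt_mul_of_pos_right h1 (by linarith)
          rw [Real.mul_self_sqrt hP0.le] at h2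
          exact lt_of_le_of_lt hb h2
        have hbP'' : b < P := by exact_mod_cast hbP'
        have hH : 1 * √(P : ℝ) ≤ ((b + 1 : ℕ) : ℝ) := by
          rw [one_mul, Real.sqrt_le_left (by positivity)]
          have h1 : (P : ℝ) ≤ ((b * b : ℕ) : ℝ) := by exact_mod_cast hbP
          push_cast at h1 ⊢
          have h2 : (0 : ℝ) ≤ b := Nat.cast_nonneg b
          nlinarith
        have h1 := hN0 P (by omega) (fun _ => 1) (fun _ => by simp) (bilE v) (by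
          unfold bilE
          simp only [Nat.abs_cast]
          exact_mod_cast lt_of_le_of_lt hvb.1 hbP'') (by
          unfold bilE
          simp only [Nat.abs_cast]
          exact_mod_cast lt_of_le_of_lt hvb.2 hbP'') 0 0 (b + 1) hH
        have hsq : HHC.sq 0 0 (b + 1) = HHC.bx b := by
          unfold HHC.sq HHC.bx
          ext u
          simp only [Finset.mem_product, Finset.mem_Ico, Finset.mem_Icc]
          push_cast
          omega
        rw [hsq, bil_sum] at h1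
        have h2 : (((Bv b).filter (fun w => (dv w v).toNat ∈ PP P)).card : ℝ) * Real.log P ≤
            ∑ w ∈ Bv b, |HHC.kp (fun _ => 1) P (HHC.dt (bilE w) (bilE v)).toNat| := by
          rw [← nsmul_eq_mul, ← Finset.sum_const]
          rw [Finset.sum_filter]
          refine Finset.sum_le_sum fun w _ => ?_
          split_ifs with h3
          · have h4 := bil_PP.1 h3
            have e1 : HHC.dt (bilE w) (bilE v) = dv w v := rfl
            rw [e1]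
            unfold HHC.kp
            rw [if_pos ⟨h4.2.1, h4.1.1, h4.1.2⟩, one_mul]
            exact le_abs_self _
          · exact abs_nonneg _
        refine h2.trans (h1.trans ?_)
        push_cast
        linarith
    have h3 : (0 : ℝ) ≤ 4 * C0 ^ 2 * ((N0 + M : ℕ) : ℝ) * P := by positivity
    calc _ ≤ 40 * C0 ^ 2 * P := hgoal
      _ ≤ 4 * C0 ^ 2 * ((N0 + M : ℕ) : ℝ) * P + 40 * C0 ^ 2 * P := by linarith
      _ = (4 * C0 ^ 2 * ((N0 + M : ℕ) : ℝ) + 40 * C0 ^ 2) * P := by ring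

open Classical in
/-- number of vectors with prime determinant against a given vector (Selberg sieve).

Proof from `HHC.kp_sq` (file `CsqC.lean`) with `κ = 1`, `c = 1`, `N = P`, the square
`HHC.sq 0 0 (b + 1) = HHC.bx b`: let `N0` be its constant and `P1 = max N0 (⌈C0²⌉ + 2)`. For `P < P1`
the number is at most `(b + 1)² ≤ 4 C0² P1`. For `P ≥ P1`: if `b² < P` there is no such `w`
(`|dv v w| ≤ b²`); otherwise `√P ≤ b + 1`, `b ≤ C0 √P < P`, and
`log P * #{w : (dv w v).toNat ∈ PP P} ≤ ∑_{w} |kp 1 P (dt w v).toNat| ≤ 10 (b + 1)² ≤ 40 C0² P`. For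
`dv v w` use `dt v w = dt (w.2, w.1) (v.2, v.1)` and the symmetry of the box. -/
theorem det_card (C0 : ℝ) (hC0 : 1 ≤ C0) : ∃ K : ℝ, 1 ≤ K ∧ ∀ P b : ℕ, 2 ≤ P → (b : ℝ) ≤ C0 * √P →
    ∀ v ∈ Bv b, (((Bv b).filter (fun w => (dv v w).toNat ∈ PP P)).card : ℝ) ≤ K * P / Real.log P ∧
      (((Bv b).filter (fun w => (dv w v).toNat ∈ PP P)).card : ℝ) ≤ K * P / Real.log P := by
  obtain ⟨K, hK, h⟩ := bil_left C0 hC0
  refine ⟨K, hK, fun P b hP hb v hv => ⟨?_, h P b hP hb v hv⟩⟩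
  have hsw : ∀ w : ℕ × ℕ, w ∈ Bv b → (w.2, w.1) ∈ Bv b := by
    intro w hw
    unfold Bv at hw ⊢
    rw [Finset.mem_product] at hw ⊢
    exact ⟨hw.2, hw.1⟩
  have h1 := h P b hP hb (v.2, v.1) (hsw v hv)
  have hdv : ∀ w : ℕ × ℕ, dv (w.2, w.1) (v.2, v.1) = dv v w := by
    intro w
    unfold dv
    ring
  have h2 : ((Bv b).filter (fun w => (dv v w).toNat ∈ PP P)).card =
      ((Bv b).filter (fun w => (dv w (v.2, v.1)).toNat ∈ PP P)).card := by
    refine Finset.card_nbij' (fun w => (w.2, w.1)) (fun w => (w.2, w.1)) ?_ ?_ ?_ ?_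
    · intro w hw
      simp only [Finset.coe_filter, Set.mem_ofPred_eq] at hw ⊢
      exact ⟨hsw w hw.1, by rw [hdv]; exact hw.2⟩
    · intro w hw
      simp only [Finset.coe_filter, Set.mem_ofPred_eq] at hw ⊢
      refine ⟨hsw w hw.1, ?_⟩
      rw [← hdv]
      exact hw.2
    · intro w _
      rfl
    · intro w _
      rfl
  rw [h2]
  exact h1

end

end Pool.Agent.Lib.MP_0b748d_nt.HH
end
end

section

set_option autoImplicit false

/-!
# From window means to pieces of cells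
-/

namespace Pool.Agent.Lib.MP_0b748d_nt.HH

open Zsqrtd MeasureTheory

noncomputable section

/-- number of the shell: shells `[ρ ^ (i + 1) X, ρ ^ i X)`, `i < I`, and the innermost `I` -/
def shI (ρ X : ℝ) (I : ℕ) (N : ℝ) : ℕ :=
  ((Finset.range I).filter (fun i => N < ρ ^ (i + 1) * X)).card

private theorem shI_anti {ρ X N : ℝ} (hρ : 0 < ρ) (hρ1 : ρ < 1) (hX : 0 < X) {i j : ℕ}
    (hij : i ≤ j) (h : N < ρ ^ j * X) : N < ρ ^ i * X :=
  h.trans_le (mul_le_mul_of_nonneg_right (pow_le_pow_of_le_one hρ.le hρ1.le hij) hX.le)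

private theorem shI_le {ρ X N : ℝ} (hρ : 0 < ρ) (hρ1 : ρ < 1) (hX : 0 < X) (I i : ℕ)
    (hi : i ≤ I) : i ≤ shI ρ X I N ↔ (i = 0 ∨ N < ρ ^ i * X) := by
  constructor
  · intro h
    rcases Nat.eq_zero_or_pos i with h0 | h0
    · exact Or.inl h0
    · right
      by_contra hcon
      have h1 : (Finset.range I).filter (fun j => N < ρ ^ (j + 1) * X) ⊆ Finset.range (i - 1) := by
        intro j hj
        rw [Finset.mem_filter] at hj
        rw [Finset.mem_range]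
        by_contra hji
        exact hcon (shI_anti hρ hρ1 hX (by omega) hj.2)
      have h2 := Finset.card_le_card h1
      rw [Finset.card_range] at h2
      unfold shI at h
      omega
  · intro h
    have h1 : Finset.range i ⊆ (Finset.range I).filter (fun j => N < ρ ^ (j + 1) * X) := by
      intro j hj
      rw [Finset.mem_range] at hj
      rw [Finset.mem_filter, Finset.mem_range]
      refine ⟨by omega, ?_⟩
      rcases h with h | h
      · omega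
      · exact shI_anti hρ hρ1 hX (by omega) h
    have h2 := Finset.card_le_card h1
    rw [Finset.card_range] at h2
    exact h2

theorem shI_eq {ρ X N : ℝ} (hρ : 0 < ρ) (hρ1 : ρ < 1) (hX : 0 < X) (hN : N < X) (I i : ℕ)
    (hi : i < I) : shI ρ X I N = i ↔ ρ ^ (i + 1) * X ≤ N ∧ N < ρ ^ i * X := by
  have h1 := shI_le (N := N) hρ hρ1 hX I i hi.le
  have h2 := shI_le (N := N) hρ hρ1 hX I (i + 1) hi
  constructor
  · intro h
    constructor
    · by_contra hcon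
      have := h2.mpr (Or.inr (not_le.mp hcon))
      omega
    · rcases h1.mp h.ge with h3 | h3
      · rw [h3, pow_zero, one_mul]
        exact hN
      · exact h3
  · rintro ⟨h3, h4⟩
    have h5 := h1.mpr (Or.inr h4)
    have h6 : ¬ (i + 1 ≤ shI ρ X I N) := by
      rw [h2]
      rintro (h7 | h7)
      · omega
      · exact absurd h7 (not_lt.mpr h3)
    omega

theorem shI_last {ρ X N : ℝ} (hρ : 0 < ρ) (hρ1 : ρ < 1) (hX : 0 < X) (I : ℕ) :
    shI ρ X I N = I ↔ (I = 0 ∨ N < ρ ^ I * X) := by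
  rw [← shI_le hρ hρ1 hX I I le_rfl]
  have h1 : shI ρ X I N ≤ I := by
    have h2 := Finset.card_filter_le (Finset.range I) (fun i => N < ρ ^ (i + 1) * X)
    rwa [Finset.card_range] at h2
  omega

/-- number of the angular window `[t + k h, t + (k + 1) h)` (shifted by one) -/
def wk (t h : ℝ) (z : ℤ√2) : ℕ := (⌊(al z - t) / h⌋ + 1).toNat

/-- the label of a vector -/
def pc (x y : ℤ√2) (t h ρ X : ℝ) (I : ℕ) (v : ℕ × ℕ) : ℕ :=
  Nat.pair (wk t h (zv x y v)) (shI ρ X I (nm (zv x y v)))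

end

end Pool.Agent.Lib.MP_0b748d_nt.HH
end
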