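import Mathlib
import Pool.Agent.Lib.MP_0b748d_nt.HH.ResC
import Pool.Agent.Lib.MP_0b748d_nt.HH.PatA
import Pool.Agent.Lib.MP_0b748d_nt.HH.ExC
import Pool.Agent.Lib.MP_0b748d_nt.HH.PrimeF
import Pool.Agent.Lib.MP_0b748d_nt.HH.DecA
import Pool.Agent.Lib.MP_0b748d_nt.HH.TreeB
import Pool.Agent.Lib.MP_0b748d_nt.MR.DirsA
import Pool.Agent.Lib.MP_0b748d_nt.HH.AsmD

section

set_option autoImplicit false

/-!
# Assembly: the averages over forms vanish in the limit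
-/

namespace Pool.Agent.Lib.MP_0b748d_nt.HH

open Filter Topology MR

noncomputable section

open Classical in
/-- value of the first function at a vector of a pattern (zero if missing) -/
def lk1 (a : Pt) (v : ℕ × ℕ) : ℝ := ∑ e ∈ a.filter (fun e => e.1 = v), (e.2.1 : ℝ)

open Classical in
/-- value of the second function -/
def lk2 (a : Pt) (v : ℕ × ℕ) : ℝ := ∑ e ∈ a.filter (fun e => e.1 = v), (e.2.2 : ℝ)

open Classical in
/-- indicator of the missing vectors -/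
def ms (a : Pt) (v : ℕ × ℕ) : ℝ := if ∃ e ∈ a, e.1 = v then 0 else 1

open Classical in
theorem lk_gr (F G : ℕ → ℤ) (Q : Fm) (S : Finset (ℕ × ℕ)) (v : ℕ × ℕ) :
    lk1 (gr F G Q S) v = (if v ∈ S then (F (Q.val v.1 v.2) : ℝ) else 0) ∧
    lk2 (gr F G Q S) v = (if v ∈ S then (G (Q.val v.1 v.2) : ℝ) else 0) ∧
    ms (gr F G Q S) v = (if v ∈ S then 0 else 1) := by
  have hfil : (gr F G Q S).filter (fun e => e.1 = v) =
      if v ∈ S then {(v, (F (Q.val v.1 v.2), G (Q.val v.1 v.2)))} else ∅ := by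
    ext e
    rw [Finset.mem_filter, gr, Finset.mem_image]
    constructor
    · rintro ⟨⟨w, hw, rfl⟩, h⟩
      simp only at h
      subst h
      rw [if_pos hw]
      exact Finset.mem_singleton_self _
    · intro h
      split_ifs at h with hv
      · rw [Finset.mem_singleton] at h
        subst h
        exact ⟨⟨v, hv, rfl⟩, rfl⟩
      · exact absurd h (Finset.notMem_empty _)
  refine ⟨?_, ?_, ?_⟩
  · unfold lk1
    rw [hfil]
    split_ifs with hv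
    · rw [Finset.sum_singleton]
    · rw [Finset.sum_empty]
  · unfold lk2
    rw [hfil]
    split_ifs with hv
    · rw [Finset.sum_singleton]
    · rw [Finset.sum_empty]
  · unfold ms
    have hiff : (∃ e ∈ gr F G Q S, e.1 = v) ↔ v ∈ S := by
      constructor
      · rintro ⟨e, he, hev⟩
        rw [gr, Finset.mem_image] at he
        obtain ⟨w, hw, rfl⟩ := he
        simp only at hev
        subst hev
        exact hw
      · intro hv
        refine ⟨(v, (F (Q.val v.1 v.2), G (Q.val v.1 v.2))), ?_, rfl⟩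
        rw [gr, Finset.mem_image]
        exact ⟨v, hv, rfl⟩
    by_cases hv : v ∈ S
    · rw [if_pos (hiff.2 hv), if_pos hv]
    · rw [if_neg (fun h => hv (hiff.1 h)), if_neg hv]

/-- shape with three coordinates -/
def sh (m : ℕ) (T : ℝ) (Q : Fm) : ℕ × ℕ × ℕ :=
  (⌊(m : ℝ) * Q.d / T⌋₊, ⌊(m : ℝ) * Q.n / T⌋₊, ⌊(m : ℝ) * Q.e / T⌋₊)

open Classical in
/-- the shape variable: `none` for bad cells -/
def Zs (δ : ℝ) (m : ℕ) (n i : ℕ) (Q : Fm) : Option (ℕ × ℕ × ℕ) :=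
  if Gc δ (tt n i) Q then some (sh m (tt n i) Q) else none

/-- `d, e ≤ T`, `n ≤ T + 1 ≤ 2 T` -/
theorem Zs_range (δ : ℝ) (m : ℕ) : ∃ D : Finset (Option (ℕ × ℕ × ℕ)), Rg (Zs δ m) D ∧
    (D.card : ℝ) ≤ (2 * m + 2) ^ 3 + 1 := by
  classical
  refine ⟨insert none (((Finset.range (2 * m + 2)) ×ˢ
    ((Finset.range (2 * m + 2)) ×ˢ (Finset.range (2 * m + 2)))).image some), ?_, ?_⟩
  · intro n i Q hQ
    have hT1 : 1 ≤ tt n i := one_le_tt n i
    have hT0 : 0 < tt n i := tt_pos n i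
    rw [mem_Cl hT0.le] at hQ
    obtain ⟨hok, hd, he, -⟩ := hQ
    have hn2 : (Q.n : ℝ) ^ 2 = Q.d * Q.e + 2 := by exact_mod_cast hok.2.2
    have hn : (Q.n : ℝ) ≤ 2 * tt n i := by
      have h1 : (Q.d : ℝ) * Q.e ≤ tt n i * tt n i :=
        mul_le_mul hd he (Nat.cast_nonneg _) hT0.le
      by_contra hcon
      push Not at hcon
      nlinarith
    have hfl : ∀ k : ℕ, (k : ℝ) ≤ 2 * tt n i → ⌊(m : ℝ) * k / tt n i⌋₊ < 2 * m + 2 := by
      intro k hk
      have h1 : (m : ℝ) * k / tt n i ≤ ((2 * m : ℕ) : ℝ) := by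
        rw [div_le_iff₀ hT0]
        push_cast
        have hm : (0 : ℝ) ≤ m := Nat.cast_nonneg m
        calc (m : ℝ) * k ≤ m * (2 * tt n i) := mul_le_mul_of_nonneg_left hk hm
          _ = 2 * m * tt n i := by ring
      have h2 : ⌊(m : ℝ) * k / tt n i⌋₊ ≤ ⌊((2 * m : ℕ) : ℝ)⌋₊ := Nat.floor_le_floor h1
      rw [Nat.floor_natCast] at h2
      omega
    rw [Finset.mem_insert, Finset.mem_image]
    unfold Zs
    split_ifs with hg
    · right
      refine ⟨sh m (tt n i) Q, ?_, rfl⟩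
      unfold sh
      rw [Finset.mem_product, Finset.mem_product, Finset.mem_range, Finset.mem_range,
        Finset.mem_range]
      exact ⟨hfl _ (by linarith), hfl _ hn, hfl _ (by linarith)⟩
    · left
      rfl
  · have h1 := Finset.card_insert_le (none : Option (ℕ × ℕ × ℕ)) (((Finset.range (2 * m + 2)) ×ˢ
      ((Finset.range (2 * m + 2)) ×ˢ (Finset.range (2 * m + 2)))).image some)
    have h2 : (((Finset.range (2 * m + 2)) ×ˢ
      ((Finset.range (2 * m + 2)) ×ˢ (Finset.range (2 * m + 2)))).image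
        (some : ℕ × ℕ × ℕ → Option (ℕ × ℕ × ℕ))).card ≤ (2 * m + 2) ^ 3 := by
      refine Finset.card_image_le.trans ?_
      rw [Finset.card_product, Finset.card_product, Finset.card_range]
      apply le_of_eq
      ring
    have h3 := h1.trans (Nat.add_le_add_right h2 1)
    exact_mod_cast h3

/-- the quadratic form of a shape -/
def qs (m : ℕ) (g : ℕ × ℕ × ℕ) (v : ℕ × ℕ) : ℝ :=
  ((g.1 : ℝ) * v.1 ^ 2 + 2 * g.2.1 * (v.1 * v.2) + g.2.2 * v.2 ^ 2) / m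

/-- the weight of a shape -/
def Kz (W : ℝ → ℝ → ℝ) (s m : ℕ) (z : Option (ℕ × ℕ × ℕ)) (D : ℝ) (v w : ℕ × ℕ) : ℝ :=
  match z with
  | none => 0
  | some g => W (qs m g v / (D * 2 ^ s)) (qs m g w / (D * 2 ^ s))

end

end Pool.Agent.Lib.MP_0b748d_nt.HH
end

section

set_option autoImplicit false

/-!
# Assembly: the averages over forms vanish in the limit
-/

namespace Pool.Agent.Lib.MP_0b748d_nt.HH

open Filter Topology MR

noncomputable section

private theorem Kz_some (W : ℝ → ℝ → ℝ) (s m : ℕ) (g : ℕ × ℕ × ℕ) (D : ℝ) (v w : ℕ × ℕ) :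
    Kz W s m (some g) D v w = W (qs m g v / (D * 2 ^ s)) (qs m g w / (D * 2 ^ s)) := rfl

private theorem Bv_le {c : ℕ} {v : ℕ × ℕ} (hv : v ∈ Bv c) : (v.1 : ℝ) ≤ c ∧ (v.2 : ℝ) ≤ c := by
  unfold Bv at hv
  rw [Finset.mem_product, Finset.mem_range, Finset.mem_range] at hv
  constructor
  · exact_mod_cast Nat.lt_succ_iff.1 hv.1
  · exact_mod_cast Nat.lt_succ_iff.1 hv.2

private theorem floor_close (m k : ℕ) (hm : 1 ≤ m) {T : ℝ} (hT : 0 < T) :
    |(k : ℝ) / T - (⌊(m : ℝ) * k / T⌋₊ : ℝ) / m| ≤ 1 / m := by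
  have hm0 : (0 : ℝ) < m := by exact_mod_cast hm
  have h0 : (0 : ℝ) ≤ (m : ℝ) * k / T := by positivity
  have h1 := Nat.floor_le h0
  have h2 := (Nat.lt_floor_add_one ((m : ℝ) * k / T)).le
  have h3 : (k : ℝ) / T - (⌊(m : ℝ) * k / T⌋₊ : ℝ) / m =
      ((m : ℝ) * k / T - (⌊(m : ℝ) * k / T⌋₊ : ℝ)) / m := by
    field_simp
  rw [h3, abs_div, abs_of_pos hm0]
  apply div_le_div_of_nonneg_right _ hm0.le
  rw [abs_of_nonneg (by linarith)]
  linarith

private theorem sq_le_of {C0 : ℝ} {P c : ℕ} (hc : (c : ℝ) ≤ C0 * √P) :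
    (c : ℝ) ^ 2 ≤ C0 ^ 2 * P := by
  have h0 : (0 : ℝ) ≤ c := Nat.cast_nonneg c
  calc (c : ℝ) ^ 2 ≤ (C0 * √P) ^ 2 := pow_le_pow_left₀ h0 hc 2
    _ = C0 ^ 2 * P := by rw [mul_pow, Real.sq_sqrt (Nat.cast_nonneg P)]

private theorem val_close (m : ℕ) (hm : 1 ≤ m) {T : ℝ} (hT : 0 < T) (Q : Fm) {c : ℕ}
    {v : ℕ × ℕ} (hv : v ∈ Bv c) :
    |(Q.val v.1 v.2 : ℝ) / T - qs m (sh m T Q) v| ≤ 4 * (c : ℝ) ^ 2 / m := by
  have hm0 : (0 : ℝ) < m := by exact_mod_cast hm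
  obtain ⟨h1, h2⟩ := Bv_le hv
  have hx : (0 : ℝ) ≤ v.1 := Nat.cast_nonneg _
  have hy : (0 : ℝ) ≤ v.2 := Nat.cast_nonneg _
  have hd := floor_close m Q.d hm hT
  have hn := floor_close m Q.n hm hT
  have he := floor_close m Q.e hm hT
  unfold qs sh
  simp only
  set fd := (⌊(m : ℝ) * Q.d / T⌋₊ : ℝ)
  set fn := (⌊(m : ℝ) * Q.n / T⌋₊ : ℝ)
  set fe := (⌊(m : ℝ) * Q.e / T⌋₊ : ℝ)
  have h3 : (Q.val v.1 v.2 : ℝ) / T - (fd * (v.1 : ℝ) ^ 2 + 2 * fn * (v.1 * v.2) +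
      fe * (v.2 : ℝ) ^ 2) / m = ((Q.d : ℝ) / T - fd / m) * (v.1 : ℝ) ^ 2 +
      ((Q.n : ℝ) / T - fn / m) * (2 * (v.1 * v.2)) + ((Q.e : ℝ) / T - fe / m) * (v.2 : ℝ) ^ 2 := by
    unfold Fm.val
    push_cast
    ring
  rw [h3]
  refine (abs_add_three _ _ _).trans ?_
  have hab : ∀ a x : ℝ, 0 ≤ x → |a * x| = |a| * x := fun a x hx => by
    rw [abs_mul, abs_of_nonneg hx]
  rw [hab _ _ (by positivity), hab _ _ (by positivity), hab _ _ (by positivity)]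
  have hxx : (v.1 : ℝ) ^ 2 ≤ (c : ℝ) ^ 2 := pow_le_pow_left₀ hx h1 2
  have hyy : (v.2 : ℝ) ^ 2 ≤ (c : ℝ) ^ 2 := pow_le_pow_left₀ hy h2 2
  have hxy : (v.1 : ℝ) * v.2 ≤ (c : ℝ) ^ 2 := by
    rw [sq]
    exact mul_le_mul h1 h2 hy (hx.trans h1)
  have hinv : (0 : ℝ) ≤ 1 / m := by positivity
  have e1 : |(Q.d : ℝ) / T - fd / m| * (v.1 : ℝ) ^ 2 ≤ 1 / m * (c : ℝ) ^ 2 :=
    mul_le_mul hd hxx (by positivity) hinv
  have e2 : |(Q.n : ℝ) / T - fn / m| * (2 * ((v.1 : ℝ) * v.2)) ≤ 1 / m * (2 * (c : ℝ) ^ 2) :=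
    mul_le_mul hn (by linarith) (by positivity) hinv
  have e3 : |(Q.e : ℝ) / T - fe / m| * (v.2 : ℝ) ^ 2 ≤ 1 / m * (c : ℝ) ^ 2 :=
    mul_le_mul he hyy (by positivity) hinv
  have e4 : 4 * (c : ℝ) ^ 2 / m = 1 / m * (c : ℝ) ^ 2 + 1 / m * (2 * (c : ℝ) ^ 2) +
      1 / m * (c : ℝ) ^ 2 := by ring
  rw [e4]
  linarith

/-- `|Q.val v / T - qs m g v| ≤ (v.1 + v.2)² / m ≤ 4 b² / m ≤ 4 C0² P / m` -/
theorem Kz_close {a b L : ℝ} {W : ℝ → ℝ → ℝ} (hW : Wt a b L W) (hL : 0 ≤ L) (s m : ℕ) (hm : 1 ≤ m)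
    {T : ℝ} (hT : 0 < T) {Q : Fm} (C0 : ℝ) (P c : ℕ) (hP : 1 ≤ P)
    (hc : (c : ℝ) ≤ C0 * √P) (D : ℝ) (hD : (P : ℝ) ≤ D) {v w : ℕ × ℕ} (hv : v ∈ Bv c)
    (hw : w ∈ Bv c) :
    |W (Q.val v.1 v.2 / (D * (2 ^ s * T))) (Q.val w.1 w.2 / (D * (2 ^ s * T))) -
      Kz W s m (some (sh m T Q)) D v w| ≤ 8 * L * C0 ^ 2 / m := by
  have hm0 : (0 : ℝ) < m := by exact_mod_cast hm
  have hP0 : (0 : ℝ) < P := by exact_mod_cast hP
  have hD0 : 0 < D := hP0.trans_le hD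
  have h2s : (1 : ℝ) ≤ 2 ^ s := one_le_pow₀ (by norm_num)
  have key : ∀ u : ℕ × ℕ, u ∈ Bv c → |(Q.val u.1 u.2 : ℝ) / (D * (2 ^ s * T)) -
      qs m (sh m T Q) u / (D * 2 ^ s)| ≤ 4 * C0 ^ 2 / m := by
    intro u hu
    have h1 := val_close m hm hT Q hu
    have h2 := sq_le_of hc
    have h3 : (Q.val u.1 u.2 : ℝ) / (D * (2 ^ s * T)) - qs m (sh m T Q) u / (D * 2 ^ s) =
        ((Q.val u.1 u.2 : ℝ) / T - qs m (sh m T Q) u) / (D * 2 ^ s) := by
      field_simp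
    have hDs : (P : ℝ) ≤ D * 2 ^ s := by
      calc (P : ℝ) ≤ D * 1 := by linarith
        _ ≤ D * 2 ^ s := mul_le_mul_of_nonneg_left h2s hD0.le
    rw [h3, abs_div, abs_of_pos (by positivity : 0 < D * 2 ^ s), div_le_iff₀ (by positivity)]
    refine h1.trans ?_
    have h4 : 4 * (c : ℝ) ^ 2 / m ≤ 4 * (C0 ^ 2 * P) / m := by
      apply div_le_div_of_nonneg_right _ hm0.le
      linarith
    refine h4.trans ?_
    have h5 : 4 * (C0 ^ 2 * P) / m = 4 * C0 ^ 2 / m * P := by ring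
    rw [h5]
    exact mul_le_mul_of_nonneg_left hDs (by positivity)
  rw [Kz_some]
  refine (hW.lip _ _ _ _).trans ?_
  have h1 := key v hv
  have h2 := key w hw
  have h3 : 8 * L * C0 ^ 2 / m = L * (4 * C0 ^ 2 / m + 4 * C0 ^ 2 / m) := by ring
  rw [h3]
  exact mul_le_mul_of_nonneg_left (add_le_add h1 h2) hL

private theorem div_le_two {m k : ℕ} (hm : 1 ≤ m) (hk : k ≤ 2 * m) : (k : ℝ) / m ≤ 2 := by
  have hm0 : (0 : ℝ) < m := by exact_mod_cast hm
  rw [div_le_iff₀ hm0]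
  exact_mod_cast hk

private theorem qs_eq (m : ℕ) (g : ℕ × ℕ × ℕ) (v : ℕ × ℕ) : qs m g v =
    (g.1 : ℝ) / m * (v.1 : ℝ) ^ 2 + (g.2.1 : ℝ) / m * (2 * (v.1 * v.2)) +
      (g.2.2 : ℝ) / m * (v.2 : ℝ) ^ 2 := by
  unfold qs
  ring

private theorem qs_abs_le {m : ℕ} (hm : 1 ≤ m) {g : ℕ × ℕ × ℕ} (h1 : g.1 ≤ 2 * m)
    (h2 : g.2.1 ≤ 2 * m) (h3 : g.2.2 ≤ 2 * m) {c : ℕ} {v : ℕ × ℕ} (hv : v ∈ Bv c) :
    |qs m g v| ≤ 8 * (c : ℝ) ^ 2 := by
  have e1 := div_le_two hm h1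
  have e2 := div_le_two hm h2
  have e3 := div_le_two hm h3
  obtain ⟨hx1, hy1⟩ := Bv_le hv
  have hx : (0 : ℝ) ≤ v.1 := Nat.cast_nonneg _
  have hy : (0 : ℝ) ≤ v.2 := Nat.cast_nonneg _
  have hxx : (v.1 : ℝ) ^ 2 ≤ (c : ℝ) ^ 2 := pow_le_pow_left₀ hx hx1 2
  have hyy : (v.2 : ℝ) ^ 2 ≤ (c : ℝ) ^ 2 := pow_le_pow_left₀ hy hy1 2
  have hxy : (v.1 : ℝ) * v.2 ≤ (c : ℝ) ^ 2 := by
    rw [sq]
    exact mul_le_mul hx1 hy1 hy (hx.trans hx1)
  rw [qs_eq, abs_of_nonneg (by positivity)]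
  have f1 : (g.1 : ℝ) / m * (v.1 : ℝ) ^ 2 ≤ 2 * (c : ℝ) ^ 2 :=
    mul_le_mul e1 hxx (by positivity) (by norm_num)
  have f2 : (g.2.1 : ℝ) / m * (2 * ((v.1 : ℝ) * v.2)) ≤ 2 * (2 * (c : ℝ) ^ 2) :=
    mul_le_mul e2 (by linarith) (by positivity) (by norm_num)
  have f3 : (g.2.2 : ℝ) / m * (v.2 : ℝ) ^ 2 ≤ 2 * (c : ℝ) ^ 2 :=
    mul_le_mul e3 hyy (by positivity) (by norm_num)
  linarith

private theorem qs_sub_le {m : ℕ} (hm : 1 ≤ m) {g : ℕ × ℕ × ℕ} (h1 : g.1 ≤ 2 * m)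
    (h2 : g.2.1 ≤ 2 * m) (h3 : g.2.2 ≤ 2 * m) {c : ℕ} {v v' : ℕ × ℕ} (hv : v ∈ Bv c)
    (hv' : v' ∈ Bv c) :
    |qs m g v - qs m g v'| ≤ 8 * c * (|(v.1 : ℝ) - v'.1| + |(v.2 : ℝ) - v'.2|) := by
  have e1 := div_le_two hm h1
  have e2 := div_le_two hm h2
  have e3 := div_le_two hm h3
  obtain ⟨hx1, hy1⟩ := Bv_le hv
  obtain ⟨hx1', hy1'⟩ := Bv_le hv'
  have hx : (0 : ℝ) ≤ v.1 := Nat.cast_nonneg _
  have hy : (0 : ℝ) ≤ v.2 := Nat.cast_nonneg _
  have hx' : (0 : ℝ) ≤ v'.1 := Nat.cast_nonneg _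
  have hy' : (0 : ℝ) ≤ v'.2 := Nat.cast_nonneg _
  have hc : (0 : ℝ) ≤ c := Nat.cast_nonneg _
  set a := |(v.1 : ℝ) - v'.1| with ha
  set b := |(v.2 : ℝ) - v'.2| with hb
  have ha0 : 0 ≤ a := abs_nonneg _
  have hb0 : 0 ≤ b := abs_nonneg _
  have d1 : |(v.1 : ℝ) ^ 2 - (v'.1 : ℝ) ^ 2| ≤ a * (2 * c) := by
    rw [show (v.1 : ℝ) ^ 2 - (v'.1 : ℝ) ^ 2 = (v.1 - v'.1) * (v.1 + v'.1) by ring, abs_mul,
      abs_of_nonneg (by positivity : (0 : ℝ) ≤ (v.1 : ℝ) + v'.1)]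
    exact mul_le_mul_of_nonneg_left (by linarith) ha0
  have d3 : |(v.2 : ℝ) ^ 2 - (v'.2 : ℝ) ^ 2| ≤ b * (2 * c) := by
    rw [show (v.2 : ℝ) ^ 2 - (v'.2 : ℝ) ^ 2 = (v.2 - v'.2) * (v.2 + v'.2) by ring, abs_mul,
      abs_of_nonneg (by positivity : (0 : ℝ) ≤ (v.2 : ℝ) + v'.2)]
    exact mul_le_mul_of_nonneg_left (by linarith) hb0
  have d2 : |2 * ((v.1 : ℝ) * v.2) - 2 * ((v'.1 : ℝ) * v'.2)| ≤ 2 * (a * c + b * c) := by
    rw [show 2 * ((v.1 : ℝ) * v.2) - 2 * ((v'.1 : ℝ) * v'.2) =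
      2 * ((v.1 - v'.1) * v.2 + (v.2 - v'.2) * v'.1) by ring, abs_mul,
      abs_of_pos (by norm_num : (0 : ℝ) < 2)]
    apply mul_le_mul_of_nonneg_left _ (by norm_num)
    refine (abs_add_le _ _).trans ?_
    rw [abs_mul, abs_mul, abs_of_nonneg hy, abs_of_nonneg hx']
    exact add_le_add (mul_le_mul_of_nonneg_left hy1 ha0) (mul_le_mul_of_nonneg_left hx1' hb0)
  rw [qs_eq, qs_eq]
  have h4 : (g.1 : ℝ) / m * (v.1 : ℝ) ^ 2 + (g.2.1 : ℝ) / m * (2 * (v.1 * v.2)) +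
      (g.2.2 : ℝ) / m * (v.2 : ℝ) ^ 2 - ((g.1 : ℝ) / m * (v'.1 : ℝ) ^ 2 +
      (g.2.1 : ℝ) / m * (2 * (v'.1 * v'.2)) + (g.2.2 : ℝ) / m * (v'.2 : ℝ) ^ 2) =
      (g.1 : ℝ) / m * ((v.1 : ℝ) ^ 2 - (v'.1 : ℝ) ^ 2) +
      (g.2.1 : ℝ) / m * (2 * ((v.1 : ℝ) * v.2) - 2 * ((v'.1 : ℝ) * v'.2)) +
      (g.2.2 : ℝ) / m * ((v.2 : ℝ) ^ 2 - (v'.2 : ℝ) ^ 2) := by ring
  rw [h4]
  refine (abs_add_three _ _ _).trans ?_
  rw [abs_mul, abs_mul, abs_mul, abs_of_nonneg (by positivity : (0 : ℝ) ≤ (g.1 : ℝ) / m),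
    abs_of_nonneg (by positivity : (0 : ℝ) ≤ (g.2.1 : ℝ) / m),
    abs_of_nonneg (by positivity : (0 : ℝ) ≤ (g.2.2 : ℝ) / m)]
  have f1 := mul_le_mul e1 d1 (abs_nonneg _) (by norm_num)
  have f2 := mul_le_mul e2 d2 (abs_nonneg _) (by norm_num)
  have f3 := mul_le_mul e3 d3 (abs_nonneg _) (by norm_num)
  calc _ ≤ 2 * (a * (2 * c)) + 2 * (2 * (a * c + b * c)) + 2 * (b * (2 * c)) :=
        add_le_add (add_le_add f1 f2) f3
    _ = 8 * c * (a + b) := by ring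

private theorem dv_sub_le {c : ℕ} {v v' w : ℕ × ℕ} (hw : w ∈ Bv c) :
    |(dv v w : ℝ) - dv v' w| ≤ c * (|(v.1 : ℝ) - v'.1| + |(v.2 : ℝ) - v'.2|) ∧
    |(dv w v : ℝ) - dv w v'| ≤ c * (|(v.1 : ℝ) - v'.1| + |(v.2 : ℝ) - v'.2|) := by
  obtain ⟨hx1, hy1⟩ := Bv_le hw
  have hx : (0 : ℝ) ≤ w.1 := Nat.cast_nonneg _
  have hy : (0 : ℝ) ≤ w.2 := Nat.cast_nonneg _
  have h1 : |(v.1 : ℝ) - v'.1| * w.2 ≤ |(v.1 : ℝ) - v'.1| * c :=
    mul_le_mul_of_nonneg_left hy1 (abs_nonneg _)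
  have h2 : |(v.2 : ℝ) - v'.2| * w.1 ≤ |(v.2 : ℝ) - v'.2| * c :=
    mul_le_mul_of_nonneg_left hx1 (abs_nonneg _)
  unfold dv
  push_cast
  constructor
  · rw [show (v.1 : ℝ) * w.2 - v.2 * w.1 - (v'.1 * w.2 - v'.2 * w.1) =
      (v.1 - v'.1) * w.2 + -((v.2 - v'.2) * w.1) by ring]
    refine (abs_add_le _ _).trans ?_
    rw [abs_neg, abs_mul, abs_mul, abs_of_nonneg hx, abs_of_nonneg hy]
    linarith
  · rw [show (w.1 : ℝ) * v.2 - w.2 * v.1 - (w.1 * v'.2 - w.2 * v'.1) =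
      (v.2 - v'.2) * w.1 + -((v.1 - v'.1) * w.2) by ring]
    refine (abs_add_le _ _).trans ?_
    rw [abs_neg, abs_mul, abs_mul, abs_of_nonneg hx, abs_of_nonneg hy]
    linarith

/-- the quotient `q / (D 2^s)` as `q` and `D ≥ P` change -/
private theorem quot_le {C0 : ℝ} (hC0 : 1 ≤ C0) {P c : ℕ} (hP : 1 ≤ P)
    (hc : (c : ℝ) ≤ C0 * √P) (s : ℕ) {q q' d d' δ : ℝ} (hδ : 0 ≤ δ) (hq' : |q'| ≤ 8 * (c : ℝ) ^ 2)
    (hq : |q - q'| ≤ 8 * c * δ) (hd : |d - d'| ≤ c * δ) :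
    |q / (max d P * 2 ^ s) - q' / (max d' P * 2 ^ s)| ≤ 16 * C0 ^ 3 * δ / √P := by
  have hP0 : (0 : ℝ) < P := by exact_mod_cast hP
  have hsP : 0 < √(P : ℝ) := Real.sqrt_pos.2 hP0
  have hPP : √(P : ℝ) * √P = P := Real.mul_self_sqrt hP0.le
  have h2s : (1 : ℝ) ≤ 2 ^ s := one_le_pow₀ (by norm_num)
  have hc0 : (0 : ℝ) ≤ c := Nat.cast_nonneg _
  set D := max d (P : ℝ) with hD
  set D' := max d' (P : ℝ) with hD'
  have hPD : (P : ℝ) ≤ D := le_max_right _ _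
  have hPD' : (P : ℝ) ≤ D' := le_max_right _ _
  have hD0 : 0 < D := hP0.trans_le hPD
  have hD0' : 0 < D' := hP0.trans_le hPD'
  have hDD : |D - D'| ≤ c * δ := (abs_max_sub_max_le_abs d d' P).trans hd
  have hcδ : 0 ≤ c * δ := (abs_nonneg _).trans hDD
  have h1 : q / (D * 2 ^ s) - q' / (D' * 2 ^ s) =
      ((q - q') / D + q' * (D' - D) / (D * D')) / 2 ^ s := by
    field_simp
    ring
  rw [h1, abs_div, abs_of_pos (by positivity : (0 : ℝ) < 2 ^ s)]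
  have h2 : |(q - q') / D + q' * (D' - D) / (D * D')| ≤
      8 * (c * δ) / P + 8 * (c : ℝ) ^ 2 * (c * δ) / (P * P) := by
    refine (abs_add_le _ _).trans (add_le_add ?_ ?_)
    · rw [abs_div, abs_of_pos hD0]
      refine div_le_div₀ (by positivity) (by linarith) hP0 hPD
    · rw [abs_div, abs_mul, abs_of_pos (mul_pos hD0 hD0'), abs_sub_comm D' D]
      refine div_le_div₀ (by positivity) ?_ (mul_pos hP0 hP0) ?_
      · exact mul_le_mul hq' hDD (abs_nonneg _) (by positivity)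
      · exact mul_le_mul hPD hPD' hP0.le hD0.le
  have h3 : |(q - q') / D + q' * (D' - D) / (D * D')| / 2 ^ s ≤
      |(q - q') / D + q' * (D' - D) / (D * D')| := div_le_self (abs_nonneg _) h2s
  refine h3.trans (h2.trans ?_)
  have hcδ' : (c : ℝ) * δ ≤ C0 * √P * δ := mul_le_mul_of_nonneg_right hc hδ
  have hc2 := sq_le_of hc
  have hC3 : C0 ≤ C0 ^ 3 := by nlinarith [sq_nonneg (C0 - 1), sq_nonneg C0]
  have hC00 : 0 ≤ C0 := by linarith
  have e1 : 8 * (c * δ) / P ≤ 8 * C0 ^ 3 * δ / √P := by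
    calc 8 * (c * δ) / P ≤ 8 * (C0 * √P * δ) / P :=
          div_le_div_of_nonneg_right (by linarith) hP0.le
      _ = 8 * C0 * δ / √P := by
          rw [div_eq_div_iff hP0.ne' hsP.ne']
          calc 8 * (C0 * √P * δ) * √P = 8 * C0 * δ * (√P * √P) := by ring
            _ = 8 * C0 * δ * P := by rw [hPP]
      _ ≤ 8 * C0 ^ 3 * δ / √P := by
          apply div_le_div_of_nonneg_right _ hsP.le
          exact mul_le_mul_of_nonneg_right (by linarith) hδ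
  have e2 : 8 * (c : ℝ) ^ 2 * (c * δ) / (P * P) ≤ 8 * C0 ^ 3 * δ / √P := by
    calc 8 * (c : ℝ) ^ 2 * (c * δ) / (P * P) ≤ 8 * (C0 ^ 2 * P) * (C0 * √P * δ) / (P * P) := by
          apply div_le_div_of_nonneg_right _ (by positivity)
          exact mul_le_mul (by linarith) hcδ' hcδ (by positivity)
      _ = 8 * C0 ^ 3 * δ / √P := by
          rw [div_eq_div_iff (by positivity) hsP.ne']
          calc 8 * (C0 ^ 2 * P) * (C0 * √P * δ) * √P = 8 * C0 ^ 3 * δ * (P * (√P * √P)) := by ring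
            _ = 8 * C0 ^ 3 * δ * (P * P) := by rw [hPP]
  have e3 : 16 * C0 ^ 3 * δ / √P = 8 * C0 ^ 3 * δ / √P + 8 * C0 ^ 3 * δ / √P := by ring
  rw [e3]
  exact add_le_add e1 e2

/-- Kernel of a shape, with `D = max (det, P)`: `|qs v| ≤ C P` with Lipschitz constant `C √P` on the
box (`g.i ≤ 2 m`), `D ≥ P` has Lipschitz constant `c`; `W` is `L`-Lipschitz. -/
theorem Kz_Lk (L C0 : ℝ) (hL : 0 ≤ L) (hC0 : 1 ≤ C0) : ∃ C1 : ℝ, C0 ≤ C1 ∧ ∀ (a b : ℝ)
    (W : ℝ → ℝ → ℝ), Wt a b L W → ∀ (s m P c : ℕ), 1 ≤ m → 1 ≤ P → (c : ℝ) ≤ C0 * √P →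
    ∀ g : ℕ × ℕ × ℕ, g.1 ≤ 2 * m → g.2.1 ≤ 2 * m → g.2.2 ≤ 2 * m →
    Lk C1 P c (fun v w => Kz W s m (some g) (max (dv v w : ℝ) P) v w) := by
  have hC00 : 0 ≤ C0 := by linarith
  refine ⟨C0 + 32 * L * C0 ^ 3, by
    have : 0 ≤ 32 * L * C0 ^ 3 := by positivity
    linarith, ?_⟩
  intro a b W hW s m P c hm hP hc g h1 h2 h3
  have hP0 : (0 : ℝ) < P := by exact_mod_cast hP
  have hsP : 0 < √(P : ℝ) := Real.sqrt_pos.2 hP0
  have hLC : 0 ≤ 32 * L * C0 ^ 3 := by positivity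
  have fin : ∀ (δ : ℝ), 0 ≤ δ → ∀ x y x' y' : ℝ, |x - x'| ≤ 16 * C0 ^ 3 * δ / √P →
      |y - y'| ≤ 16 * C0 ^ 3 * δ / √P →
      |W x y - W x' y'| ≤ (C0 + 32 * L * C0 ^ 3) * δ / √P := by
    intro δ hδ x y x' y' hx hy
    refine (hW.lip x y x' y').trans ?_
    calc L * (|x - x'| + |y - y'|) ≤
          L * (16 * C0 ^ 3 * δ / √P + 16 * C0 ^ 3 * δ / √P) :=
          mul_le_mul_of_nonneg_left (add_le_add hx hy) hL
      _ = 32 * L * C0 ^ 3 * δ / √P := by ring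
      _ ≤ (C0 + 32 * L * C0 ^ 3) * δ / √P := by
          apply div_le_div_of_nonneg_right _ hsP.le
          exact mul_le_mul_of_nonneg_right (by linarith) hδ
  refine ⟨?_, ?_, ?_⟩
  · intro v _ w _
    rw [Kz_some]
    have h4 := hW.bd (qs m g v / (max (dv v w : ℝ) P * 2 ^ s))
      (qs m g w / (max (dv v w : ℝ) P * 2 ^ s))
    linarith
  · intro v hv v' hv' w hw
    simp only [Kz_some]
    have hδ : 0 ≤ |(v.1 : ℝ) - v'.1| + |(v.2 : ℝ) - v'.2| := by positivity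
    have hc0 : (0 : ℝ) ≤ 8 * c * (|(v.1 : ℝ) - v'.1| + |(v.2 : ℝ) - v'.2|) := by positivity
    refine fin _ hδ _ _ _ _ ?_ ?_
    · exact quot_le hC0 hP hc s hδ (qs_abs_le hm h1 h2 h3 hv') (qs_sub_le hm h1 h2 h3 hv hv')
        (dv_sub_le hw).1
    · refine quot_le hC0 hP hc s hδ (qs_abs_le hm h1 h2 h3 hw) ?_ (dv_sub_le hw).1
      rw [sub_self, abs_zero]
      exact hc0
  · intro v hv w hw w' hw'
    simp only [Kz_some]
    have hδ : 0 ≤ |(w.1 : ℝ) - w'.1| + |(w.2 : ℝ) - w'.2| := by positivity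
    have hc0 : (0 : ℝ) ≤ 8 * c * (|(w.1 : ℝ) - w'.1| + |(w.2 : ℝ) - w'.2|) := by positivity
    refine fin _ hδ _ _ _ _ ?_ ?_
    · refine quot_le hC0 hP hc s hδ (qs_abs_le hm h1 h2 h3 hv) ?_ (dv_sub_le hv).2
      rw [sub_self, abs_zero]
      exact hc0
    · exact quot_le hC0 hP hc s hδ (qs_abs_le hm h1 h2 h3 hw') (qs_sub_le hm h1 h2 h3 hw hw')
        (dv_sub_le hv).2

end

end Pool.Agent.Lib.MP_0b748d_nt.HH
end

section

section

set_option autoImplicit false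

/-!
# From window means to pieces of cells
-/

namespace Pool.Agent.Lib.MP_0b748d_nt.HH

open Zsqrtd MR MeasureTheory

noncomputable section

/-- integrability of the window sums as functions of the position -/
theorem Wz_measurable (c W : ℕ) (r s : ℤ) (Y h : ℝ) :
    Measurable (fun θ : ℝ => |∑ z ∈ Wz W r s Y θ h, (Fl c (nm z).toNat : ℝ)|) ∧
    ∃ C : ℝ, ∀ θ, |∑ z ∈ Wz W r s Y θ h, (Fl c (nm z).toNat : ℝ)| ≤ C := by
  classical
  have hW : ∀ θ : ℝ, ∑ z ∈ Wz W r s Y θ h, (Fl c (nm z).toNat : ℝ) =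
      ∑ z ∈ AA Y, if (Prim z ∧ (nm z : ℝ) < Y ∧ θ ≤ al z ∧ al z < θ + h ∧
        (W : ℤ) ∣ z.re - r ∧ (W : ℤ) ∣ z.im - s) then (Fl c (nm z).toNat : ℝ) else 0 := by
    intro θ
    rw [Wz, Finset.sum_filter]
  constructor
  · simp only [hW]
    refine Measurable.abs ?_
    refine Finset.measurable_sum _ fun z _ => ?_
    refine Measurable.ite ?_ measurable_const measurable_const
    have e1 : MeasurableSet {θ : ℝ | θ ≤ al z} := measurableSet_Iic
    have e2 : MeasurableSet {θ : ℝ | al z < θ + h} :=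
      measurableSet_lt measurable_const (measurable_id.add_const h)
    have e3 : ∀ P : Prop, MeasurableSet {θ : ℝ | P} := fun P => MeasurableSet.const P
    exact (e3 _).inter ((e3 _).inter (e1.inter (e2.inter ((e3 _).inter (e3 _)))))
  · refine ⟨∑ z ∈ AA Y, |(Fl c (nm z).toNat : ℝ)|, fun θ => ?_⟩
    rw [hW]
    refine (Finset.abs_sum_le_sum_abs _ _).trans (Finset.sum_le_sum fun z _ => ?_)
    split_ifs
    · exact le_rfl
    · rw [abs_zero]
      exact abs_nonneg _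

private theorem exE_mem {W : ℕ} {r s : ℤ} {Y θ h : ℝ} {z : ℤ√2} :
    z ∈ Wz W r s Y θ h ↔ (TP z ∧ (nm z : ℝ) ≤ Y ∧ |th z| ≤ 5) ∧ Prim z ∧ (nm z : ℝ) < Y ∧
      θ ≤ al z ∧ al z < θ + h ∧ (W : ℤ) ∣ z.re - r ∧ (W : ℤ) ∣ z.im - s := by
  classical
  rw [Wz, Finset.mem_filter, mem_AA]

private theorem exE_th {z : ℤ√2} {a b : ℝ} (h0 : 0 ≤ a) (h1 : b ≤ 5 / 2) (ha : a ≤ al z)
    (hb : al z < b) : |th z| ≤ 5 := by
  have hpos := th_uu_pos
  have hle := freq_th_uu_le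
  have h2 : th z = al z * th uu := by
    simp only [al]
    field_simp
  rw [h2, abs_of_nonneg (mul_nonneg (h0.trans ha) hpos.le)]
  nlinarith

private theorem exE_al {u z : ℤ√2} (hu : TP u) (hz : TP z) : al (u * z) = al u + al z := by
  simp only [al]
  rw [th_mul hu hz, add_div]

private theorem exE_al_uu : al uu = 1 := div_self th_uu_pos.ne'

private theorem exE_al_star : al (star uu) = -1 := by
  simp only [al]
  rw [th_star, neg_div, div_self th_uu_pos.ne']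

private theorem exE_star_uu (z : ℤ√2) : star uu * (uu * z) = z := by
  have h : star uu * uu = 1 := by
    ext
    · simp [uu]
    · simp [uu]
  rw [← mul_assoc, h, one_mul]

private theorem exE_uu_star (z : ℤ√2) : uu * (star uu * z) = z := by
  have h : uu * star uu = 1 := by
    ext
    · simp [uu]
    · simp [uu]
  rw [← mul_assoc, h, one_mul]

private theorem exE_inner (c W : ℕ) (Y θ h : ℝ) (hθ : 0 ≤ θ) (hθ1 : θ ≤ 1)
    (hh1 : h ≤ 1 / 2) (r1 r2 t1 t2 : ℤ) (e1 : (W : ℤ) ∣ 3 * r1 + 4 * r2 - t1)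
    (e2 : (W : ℤ) ∣ 2 * r1 + 3 * r2 - t2) :
    ∑ z ∈ Wz W t1 t2 Y (θ + 1) h, (Fl c (nm z).toNat : ℝ) =
      ∑ z ∈ Wz W r1 r2 Y θ h, (Fl c (nm z).toNat : ℝ) := by
  have hre : ∀ z : ℤ√2, (uu * z).re = 3 * z.re + 4 * z.im := by
    intro z
    simp only [uu, re_mul]
    ring
  have him : ∀ z : ℤ√2, (uu * z).im = 2 * z.re + 3 * z.im := by
    intro z
    simp [uu, im_mul]
    ring
  have hre' : ∀ z : ℤ√2, (star uu * z).re = 3 * z.re - 4 * z.im := by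
    intro z
    simp [uu, re_mul]
    ring
  have him' : ∀ z : ℤ√2, (star uu * z).im = -2 * z.re + 3 * z.im := by
    intro z
    simp [uu, im_mul]
    ring
  have hnm : ∀ z, nm (uu * z) = nm z := fun z => by rw [nm_mul, nm_uu, one_mul]
  have hnm' : ∀ z, nm (star uu * z) = nm z := fun z => by
    rw [nm_mul, nm_star, nm_uu, one_mul]
  refine Finset.sum_nbij' (fun z => star uu * z) (fun z => uu * z) ?_ ?_ ?_ ?_ ?_
  · intro z hz
    rw [exE_mem] at hz ⊢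
    obtain ⟨⟨h1, h2, h3⟩, h4, h5, h6, h7, h8, h9⟩ := hz
    have hal : al (star uu * z) = al z - 1 := by
      rw [exE_al TP_uu.star h1, exE_al_star]
      ring
    refine ⟨⟨TP_uu.star.mul h1, by rw [hnm']; exact h2, ?_⟩,
      freq_prim_mul (by rw [nm_star, nm_uu]) h4, by rw [hnm']; exact h5, by rw [hal]; linarith,
      by rw [hal]; linarith, ?_, ?_⟩
    · exact exE_th (a := θ) (b := θ + h) hθ (by linarith) (by rw [hal]; linarith)
        (by rw [hal]; linarith)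
    · rw [hre']
      have : 3 * z.re - 4 * z.im - r1 = 3 * (z.re - t1) - 4 * (z.im - t2) -
          3 * (3 * r1 + 4 * r2 - t1) + 4 * (2 * r1 + 3 * r2 - t2) := by ring
      rw [this]
      exact dvd_add (dvd_sub (dvd_sub (h8.mul_left 3) (h9.mul_left 4)) (e1.mul_left 3))
        (e2.mul_left 4)
    · rw [him']
      have : -2 * z.re + 3 * z.im - r2 = 3 * (z.im - t2) - 2 * (z.re - t1) +
          2 * (3 * r1 + 4 * r2 - t1) - 3 * (2 * r1 + 3 * r2 - t2) := by ring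
      rw [this]
      exact dvd_sub (dvd_add (dvd_sub (h9.mul_left 3) (h8.mul_left 2)) (e1.mul_left 2))
        (e2.mul_left 3)
  · intro z hz
    rw [exE_mem] at hz ⊢
    obtain ⟨⟨h1, h2, h3⟩, h4, h5, h6, h7, h8, h9⟩ := hz
    have hal : al (uu * z) = al z + 1 := by
      rw [exE_al TP_uu h1, exE_al_uu]
      ring
    refine ⟨⟨TP_uu.mul h1, by rw [hnm]; exact h2, ?_⟩,
      freq_prim_mul nm_uu h4, by rw [hnm]; exact h5, by rw [hal]; linarith,
      by rw [hal]; linarith, ?_, ?_⟩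
    · exact exE_th (a := θ + 1) (b := θ + 1 + h) (by linarith) (by linarith)
        (by rw [hal]; linarith) (by rw [hal]; linarith)
    · rw [hre]
      have : 3 * z.re + 4 * z.im - t1 = 3 * (z.re - r1) + 4 * (z.im - r2) +
          (3 * r1 + 4 * r2 - t1) := by ring
      rw [this]
      exact dvd_add (dvd_add (h8.mul_left 3) (h9.mul_left 4)) e1
    · rw [him]
      have : 2 * z.re + 3 * z.im - t2 = 2 * (z.re - r1) + 3 * (z.im - r2) +
          (2 * r1 + 3 * r2 - t2) := by ring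
      rw [this]
      exact dvd_add (dvd_add (h8.mul_left 2) (h9.mul_left 3)) e2
  · intro z _
    exact exE_uu_star z
  · intro z _
    exact exE_star_uu z
  · intro z _
    simp only [hnm']

/-- The sum over all classes of the window sums has period one in the position: multiplication by
`un 1` maps `Wz` for `θ` to `Wz` for `θ + 1`, permuting the classes modulo `W`; here `θ ∈ [0, 1]`,
`h ≤ 1 / 2`, so all angles satisfy `|th z| ≤ 5`. -/
theorem Wz_period (c W : ℕ) (hW : 1 ≤ W) (Y θ h : ℝ) (hθ : 0 ≤ θ) (hθ1 : θ ≤ 1) (hh : 0 < h)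
    (hh1 : h ≤ 1 / 2) :
    ∑ r ∈ Finset.range W ×ˢ Finset.range W,
      |∑ z ∈ Wz W r.1 r.2 Y (θ + 1) h, (Fl c (nm z).toNat : ℝ)| =
    ∑ r ∈ Finset.range W ×ˢ Finset.range W,
      |∑ z ∈ Wz W r.1 r.2 Y θ h, (Fl c (nm z).toNat : ℝ)| := by
  symm
  have hmod : ∀ a : ℕ, (W : ℤ) ∣ (a : ℤ) - ((a % W : ℕ) : ℤ) := by
    intro a
    rw [Int.natCast_mod]
    exact Int.dvd_self_sub_emod
  set σ : ℕ × ℕ → ℕ × ℕ := fun r => ((3 * r.1 + 4 * r.2) % W, (2 * r.1 + 3 * r.2) % W) with hσ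
  have hmaps : ∀ r ∈ Finset.range W ×ˢ Finset.range W, σ r ∈ Finset.range W ×ˢ Finset.range W := by
    intro r _
    simp only [hσ, Finset.mem_product, Finset.mem_range]
    exact ⟨Nat.mod_lt _ (by omega), Nat.mod_lt _ (by omega)⟩
  have hinj : Set.InjOn σ (Finset.range W ×ˢ Finset.range W : Finset (ℕ × ℕ)) := by
    intro r hr t ht hrt
    rw [Finset.mem_coe, Finset.mem_product, Finset.mem_range, Finset.mem_range] at hr ht
    simp only [hσ, Prod.mk.injEq] at hrt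
    have h1 : (W : ℤ) ∣ (3 * r.1 + 4 * r.2) - (3 * t.1 + 4 * t.2) := by
      have h2 := hmod (3 * r.1 + 4 * r.2)
      have h3 := hmod (3 * t.1 + 4 * t.2)
      rw [hrt.1] at h2
      have h4 := dvd_sub h2 h3
      push_cast at h4
      rw [sub_sub_sub_cancel_right] at h4
      exact h4
    have h2 : (W : ℤ) ∣ (2 * r.1 + 3 * r.2) - (2 * t.1 + 3 * t.2) := by
      have h2 := hmod (2 * r.1 + 3 * r.2)
      have h3 := hmod (2 * t.1 + 3 * t.2)
      rw [hrt.2] at h2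
      have h4 := dvd_sub h2 h3
      push_cast at h4
      rw [sub_sub_sub_cancel_right] at h4
      exact h4
    have h3 : (W : ℤ) ∣ (r.1 : ℤ) - t.1 := by
      have : (r.1 : ℤ) - t.1 = 3 * ((3 * r.1 + 4 * r.2) - (3 * t.1 + 4 * t.2)) -
        4 * ((2 * r.1 + 3 * r.2) - (2 * t.1 + 3 * t.2)) := by ring
      rw [this]
      exact dvd_sub (h1.mul_left 3) (h2.mul_left 4)
    have h4 : (W : ℤ) ∣ (r.2 : ℤ) - t.2 := by
      have : (r.2 : ℤ) - t.2 = 3 * ((2 * r.1 + 3 * r.2) - (2 * t.1 + 3 * t.2)) -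
        2 * ((3 * r.1 + 4 * r.2) - (3 * t.1 + 4 * t.2)) := by ring
      rw [this]
      exact dvd_sub (h2.mul_left 3) (h1.mul_left 2)
    have h5 : (r.1 : ℤ) - t.1 = 0 :=
      Int.eq_zero_of_abs_lt_dvd h3 (by rw [abs_lt]; constructor <;> omega)
    have h6 : (r.2 : ℤ) - t.2 = 0 :=
      Int.eq_zero_of_abs_lt_dvd h4 (by rw [abs_lt]; constructor <;> omega)
    exact Prod.ext (by omega) (by omega)
  refine Finset.sum_nbij σ hmaps hinj
    (Finset.surjOn_of_injOn_of_card_le σ hmaps hinj le_rfl) ?_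
  intro r _
  refine congrArg abs ?_
  refine (exE_inner c W Y θ h hθ hθ1 hh1 r.1 r.2 (σ r).1 (σ r).2 ?_ ?_).symm
  · have h1 := hmod (3 * r.1 + 4 * r.2)
    push_cast at h1
    simp only [hσ]
    push_cast
    exact h1
  · have h1 := hmod (2 * r.1 + 3 * r.2)
    push_cast at h1
    simp only [hσ]
    push_cast
    exact h1

end

end Pool.Agent.Lib.MP_0b748d_nt.HH
end

section

set_option autoImplicit false

/-!
# From window means to pieces of cells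
-/

namespace Pool.Agent.Lib.MP_0b748d_nt.HH

open Zsqrtd MR MeasureTheory

noncomputable section

theorem exD_sinh {a b : ℝ} (ha0 : 0 ≤ a) (ha : a ≤ 1) (hb0 : 0 ≤ b) (hb : b ≤ 1) :
    |Real.sinh a - Real.sinh b| ≤ 2 * |a - b| := by
  have h := Convex.norm_image_sub_le_of_norm_deriv_le (𝕜 := ℝ) (f := Real.sinh) (C := 2)
    (s := Set.Icc (0 : ℝ) 1) (x := b) (y := a)
    (fun x _ => Real.differentiable_sinh.differentiableAt) ?_ (convex_Icc 0 1) ⟨hb0, hb⟩ ⟨ha0, ha⟩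
  · simpa [Real.norm_eq_abs] using h
  · intro x hx
    rw [Real.deriv_sinh, Real.norm_eq_abs, abs_of_pos (Real.cosh_pos x), Real.cosh_eq]
    have h1 : Real.exp x ≤ Real.exp 1 := Real.exp_le_exp.2 hx.2
    have h2 : Real.exp (-x) ≤ 1 := by
      rw [← Real.exp_zero]
      exact Real.exp_le_exp.2 (by linarith [hx.1])
    have h3 := Real.exp_one_lt_d9
    linarith

theorem exD_sq {u w : ℝ} (h : u ^ 2 ≤ w ^ 2) (hw : 0 ≤ w) : u ≤ w :=
  (abs_le_of_sq_le_sq' h hw).2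

theorem exD_cell {δ T : ℝ} (hδ : 0 < δ) (hT : 2 ≤ T) {x y : ℤ√2} (h : Fr x y)
    (hc : fm x y ∈ Cl T) (hg : Gc δ T (fm x y)) :
    (δ * T ≤ (nm x : ℝ) ∧ (nm x : ℝ) ≤ T) ∧ (δ * T ≤ (nm y : ℝ) ∧ (nm y : ℝ) ≤ T) ∧
      (δ * T ≤ (B x y : ℝ) ∧ (B x y : ℝ) ≤ T + 1) ∧ 0 ≤ th y - th x ∧
      th y - th x ≤ 5 / (δ * T) := by
  have hT0 : 0 < T := by linarith
  rw [mem_Cl hT0.le] at hc
  obtain ⟨_, hd, he, _⟩ := hc
  obtain ⟨gd, ge⟩ := hg
  have e1 : ((fm x y).d : ℝ) = (nm x : ℝ) := by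
    have : (((fm x y).d : ℕ) : ℤ) = nm x := Int.toNat_of_nonneg h.tx.nm_pos.le
    exact_mod_cast this
  have e2 : ((fm x y).e : ℝ) = (nm y : ℝ) := by
    have : (((fm x y).e : ℕ) : ℤ) = nm y := Int.toNat_of_nonneg h.ty.nm_pos.le
    exact_mod_cast this
  rw [e1] at hd gd
  rw [e2] at he ge
  have hB := B_pos h.tx h.ty
  have hBr : (0 : ℝ) < B x y := by exact_mod_cast hB
  have hsq : (nm x : ℝ) * nm y = (B x y : ℝ) ^ 2 - 2 := by
    have := B_sq x y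
    rw [h.dt] at this
    have h2 : (nm x : ℝ) * nm y = (B x y : ℝ) ^ 2 - 2 * 1 ^ 2 := by exact_mod_cast this
    linarith
  have hδT : 0 < δ * T := by positivity
  have l1 : δ * T ≤ (B x y : ℝ) := by
    apply exD_sq _ hBr.le
    have := mul_le_mul gd ge hδT.le (hδT.le.trans gd)
    linarith only [hsq, this]
  have l2 : (B x y : ℝ) ≤ T + 1 := by
    apply exD_sq _ (by linarith)
    have := mul_le_mul hd he (hδT.le.trans ge) hT0.le
    linarith only [hT, hsq, this]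
  refine ⟨⟨gd, hd⟩, ⟨ge, he⟩, ⟨l1, l2⟩, ?_, ?_⟩
  · have := (th_lt_iff h.tx h.ty).2 (by rw [h.dt]; norm_num)
    linarith
  · refine (edge_len_le h.tx h.ty h.dt).trans ?_
    exact div_le_div_of_nonneg_left (by norm_num) hδT l1

theorem exD_form {x y : ℤ√2} (h : Fr x y) (v : ℕ × ℕ) :
    (nm (zv x y v) : ℝ) = (nm x : ℝ) * (v.1 : ℝ) ^ 2 + 2 * (B x y : ℝ) * ((v.1 : ℝ) * v.2) +
      (nm y : ℝ) * (v.2 : ℝ) ^ 2 := by
  have e0 : (((fm x y).val v.1 v.2 : ℕ) : ℤ) = nm (zv x y v) := zv_val h v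
  have e1 : (((nm x).toNat : ℕ) : ℤ) = nm x := Int.toNat_of_nonneg h.tx.nm_pos.le
  have e2 : (((nm y).toNat : ℕ) : ℤ) = nm y := Int.toNat_of_nonneg h.ty.nm_pos.le
  have e3 : (((B x y).toNat : ℕ) : ℤ) = B x y := Int.toNat_of_nonneg (B_pos h.tx h.ty).le
  have e4 : nm (zv x y v) = nm x * (v.1 : ℤ) ^ 2 + 2 * B x y * ((v.1 : ℤ) * v.2) +
      nm y * (v.2 : ℤ) ^ 2 := by
    rw [← e0]
    simp only [Fm.val, fm]
    push_cast
    rw [e1, e2, e3]
  rw [e4]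
  push_cast
  ring

theorem exD_lt {C0 δ T : ℝ} (hC0 : 1 ≤ C0) (hδ : 0 < δ) (hT : 2 ≤ T) {x y : ℤ√2} (h : Fr x y)
    (hc : fm x y ∈ Cl T) (hg : Gc δ T (fm x y)) {P : ℕ} (hP : 1 ≤ P) {v : ℕ × ℕ}
    (hv : v ∈ Bv ⌊C0 * √P⌋₊) : (nm (zv x y v) : ℝ) < 7 * C0 ^ 2 * P * T := by
  obtain ⟨⟨a1, a2⟩, ⟨a3, a4⟩, ⟨a5, a6⟩, -, -⟩ := exD_cell hδ hT h hc hg
  have hP0 : (1 : ℝ) ≤ P := by exact_mod_cast hP
  have hs0 : 0 ≤ √(P : ℝ) := Real.sqrt_nonneg _
  have hs : √(P : ℝ) ^ 2 = P := Real.sq_sqrt (by linarith)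
  rw [Bv, Finset.mem_product, Finset.mem_range, Finset.mem_range, Nat.lt_succ_iff,
    Nat.lt_succ_iff] at hv
  have b0 : 0 ≤ C0 * √(P : ℝ) := by positivity
  have b1 : (v.1 : ℝ) ≤ C0 * √P := (Nat.le_floor_iff b0).1 hv.1
  have b2 : (v.2 : ℝ) ≤ C0 * √P := (Nat.le_floor_iff b0).1 hv.2
  have c1 : (0 : ℝ) ≤ v.1 := Nat.cast_nonneg _
  have c2 : (0 : ℝ) ≤ v.2 := Nat.cast_nonneg _
  have hT0 : 0 < T := by linarith
  have hδT : 0 < δ * T := by positivity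
  have d1 : (v.1 : ℝ) ^ 2 ≤ C0 ^ 2 * P := by
    have := pow_le_pow_left₀ c1 b1 2
    rw [mul_pow, hs] at this
    exact this
  have d2 : (v.2 : ℝ) ^ 2 ≤ C0 ^ 2 * P := by
    have := pow_le_pow_left₀ c2 b2 2
    rw [mul_pow, hs] at this
    exact this
  have d3 : (v.1 : ℝ) * v.2 ≤ C0 ^ 2 * P := by
    have := mul_le_mul b1 b2 c2 b0
    have e : C0 * √(P : ℝ) * (C0 * √P) = C0 ^ 2 * √P ^ 2 := by ring
    rw [e, hs] at this
    exact this
  have hW : 0 < C0 ^ 2 * (P : ℝ) := by positivity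
  rw [exD_form h v]
  have f1 : (nm x : ℝ) * (v.1 : ℝ) ^ 2 ≤ T * (C0 ^ 2 * P) :=
    mul_le_mul a2 d1 (by positivity) hT0.le
  have f2 : (nm y : ℝ) * (v.2 : ℝ) ^ 2 ≤ T * (C0 ^ 2 * P) :=
    mul_le_mul a4 d2 (by positivity) hT0.le
  have f3 : (B x y : ℝ) * ((v.1 : ℝ) * v.2) ≤ (T + 1) * (C0 ^ 2 * P) :=
    mul_le_mul a6 d3 (by positivity) (by linarith)
  nlinarith only [hT, hW, f1, f2, f3]

theorem exD_coord {x y : ℤ√2} (h : Fr x y) {v : ℕ × ℕ} (hv : v ≠ (0, 0)) :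
    ((v.2 : ℝ) = √((nm x : ℝ) * nm (zv x y v)) * Real.sinh (th (zv x y v) - th x) / √2) ∧
    ((v.1 : ℝ) = √((nm y : ℝ) * nm (zv x y v)) * Real.sinh (th y - th (zv x y v)) / √2) ∧
    th x ≤ th (zv x y v) ∧ th (zv x y v) ≤ th y := by
  have hz := zv_TP h hv
  obtain ⟨e1, e2⟩ := zv_det h v
  refine ⟨?_, ?_, ?_, ?_⟩
  · have h1 := det_sinh h.tx hz
    rw [e2] at h1
    have h2 : (((v.2 : ℕ) : ℤ) : ℝ) = (v.2 : ℝ) := Int.cast_natCast _
    rw [← h2, h1]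
  · have h1 := det_sinh hz h.ty
    rw [e1] at h1
    have h2 : (((v.1 : ℕ) : ℤ) : ℝ) = (v.1 : ℝ) := Int.cast_natCast _
    rw [← h2, h1, mul_comm (nm y : ℝ)]
  · rw [th_le_iff h.tx hz, e2]
    exact Int.natCast_nonneg _
  · rw [th_le_iff hz h.ty, e1]
    exact Int.natCast_nonneg _

theorem exD_est {T X D N N' r α c a a' : ℝ} (hD0 : 0 ≤ D) (hD : D ≤ T)
    (hN : 0 ≤ N) (hN' : 0 ≤ N') (hNX' : N' ≤ X) (hr : |√N - √N'| ≤ r * √X) (hr0 : 0 ≤ r)
    (ha0 : 0 ≤ a) (ha : a ≤ α) (ha0' : 0 ≤ a') (ha' : a' ≤ α) (hα : α ≤ 1) (hc : |a - a'| ≤ c) :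
    |√(D * N) * Real.sinh a / √2 - √(D * N') * Real.sinh a' / √2| ≤
      √T * √X * (2 * r * α + 2 * c) := by
  have s2 : (1 : ℝ) ≤ √2 := by
    rw [Real.one_le_sqrt]
    norm_num
  have e : √(D * N) * Real.sinh a / √2 - √(D * N') * Real.sinh a' / √2 =
      √D / √2 * ((√N - √N') * (Real.sinh a - Real.sinh 0) +
        √N' * (Real.sinh a - Real.sinh a')) := by
    rw [Real.sqrt_mul hD0, Real.sqrt_mul hD0, Real.sinh_zero]
    ring
  rw [e, abs_mul, abs_of_nonneg (by positivity : 0 ≤ √D / √2)]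
  have h1 : √D / √2 ≤ √T := by
    rw [div_le_iff₀ (by linarith)]
    have := Real.sqrt_le_sqrt hD
    nlinarith only [s2, this, Real.sqrt_nonneg T]
  have h2 : |Real.sinh a - Real.sinh 0| ≤ 2 * α := by
    refine (exD_sinh ha0 (ha.trans hα) le_rfl zero_le_one).trans ?_
    rw [sub_zero, abs_of_nonneg ha0]
    linarith
  have h3 : |Real.sinh a - Real.sinh a'| ≤ 2 * c := by
    refine (exD_sinh ha0 (ha.trans hα) ha0' (ha'.trans hα)).trans ?_
    linarith only [hc]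
  have h4 : √N' ≤ √X := Real.sqrt_le_sqrt hNX'
  have h5 : |(√N - √N') * (Real.sinh a - Real.sinh 0) + √N' * (Real.sinh a - Real.sinh a')| ≤
      r * √X * (2 * α) + √X * (2 * c) := by
    refine (abs_add_le _ _).trans (add_le_add ?_ ?_)
    · rw [abs_mul]
      exact mul_le_mul hr h2 (abs_nonneg _) (by positivity)
    · rw [abs_mul, abs_of_nonneg (Real.sqrt_nonneg N')]
      exact mul_le_mul h4 h3 (abs_nonneg _) (Real.sqrt_nonneg _)
  calc √D / √2 * |(√N - √N') * (Real.sinh a - Real.sinh 0) + √N' * (Real.sinh a - Real.sinh a')|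
      ≤ √T * (r * √X * (2 * α) + √X * (2 * c)) :=
        mul_le_mul h1 h5 (abs_nonneg _) (Real.sqrt_nonneg _)
    _ = √T * √X * (2 * r * α + 2 * c) := by ring

theorem exD_wk {t h : ℝ} (ht : t < h) {z z' : ℤ√2} (ht0 : 0 ≤ t) (hz : 0 ≤ al z)
    (hz' : 0 ≤ al z') (he : wk t h z = wk t h z') : |al z - al z'| ≤ h := by
  have hh : 0 < h := by linarith
  have key : ∀ w : ℤ√2, 0 ≤ al w → -1 ≤ ⌊(al w - t) / h⌋ := by
    intro w hw
    rw [Int.le_floor]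
    push_cast
    rw [le_div_iff₀ hh]
    linarith
  have k1 := key z hz
  have k2 := key z' hz'
  unfold wk at he
  have h3 : ⌊(al z - t) / h⌋ = ⌊(al z' - t) / h⌋ := by omega
  have h4 := Int.abs_sub_lt_one_of_floor_eq_floor h3
  rw [← sub_div, abs_div, abs_of_pos hh, div_lt_one hh] at h4
  have h5 : al z - t - (al z' - t) = al z - al z' := by ring
  rw [h5] at h4
  exact h4.le

theorem exD_th {z z' : ℤ√2} {h : ℝ} (hh : |al z - al z'| ≤ h) : |th z - th z'| ≤ 2 * h := by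
  obtain ⟨hu1, hu2⟩ := th_uu_bounds
  have hpos : 0 < th uu := by linarith
  have h7 : th z - th z' = (al z - al z') * th uu := by
    unfold al
    field_simp
  rw [h7, abs_mul, abs_of_pos hpos]
  have := abs_nonneg (al z - al z')
  nlinarith

theorem exD_al {x z : ℤ√2} (hx : 0 ≤ al x) (h : th x ≤ th z) : 0 ≤ al z := by
  obtain ⟨hu1, hu2⟩ := th_uu_bounds
  have hpos : 0 < th uu := by linarith
  unfold al at hx ⊢
  exact hx.trans (div_le_div_of_nonneg_right h hpos.le)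

theorem exD_shell {ρ X N N' : ℝ} (hρ : 0 < ρ) (hρ1 : ρ < 1) (hX : 0 ≤ X) (i : ℕ)
    (h1 : ρ ^ (i + 1) * X ≤ N) (h2 : N < ρ ^ i * X) (h1' : ρ ^ (i + 1) * X ≤ N')
    (h2' : N' < ρ ^ i * X) : |√N - √N'| ≤ (1 - ρ) * √X := by
  have hpi : 0 < ρ ^ i := pow_pos hρ i
  have hp1 : ρ ^ i ≤ 1 := pow_le_one₀ hρ.le hρ1.le
  have g1 : √(ρ ^ (i + 1) * X) = √ρ * √(ρ ^ i * X) := by
    rw [← Real.sqrt_mul hρ.le]
    congr 1
    ring
  have g2 := Real.sqrt_le_sqrt h1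
  have g3 := Real.sqrt_le_sqrt h2.le
  have g2' := Real.sqrt_le_sqrt h1'
  have g3' := Real.sqrt_le_sqrt h2'.le
  rw [g1] at g2 g2'
  have g4 : √(ρ ^ i * X) ≤ √X := Real.sqrt_le_sqrt (by nlinarith only [hX, hp1])
  have g5 : ρ ≤ √ρ := by
    apply Real.le_sqrt_of_sq_le
    nlinarith only [hρ, hρ1]
  have g6 : √(ρ ^ i * X) - √ρ * √(ρ ^ i * X) ≤ (1 - ρ) * √X := by
    have h5 := Real.sqrt_nonneg (ρ ^ i * X)
    have h6 : ρ * √(ρ ^ i * X) ≤ √ρ * √(ρ ^ i * X) := mul_le_mul_of_nonneg_right g5 h5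
    nlinarith only [hρ1, g4, h6]
  rw [abs_le]
  constructor <;> linarith

theorem exD_inner {C0 δ η ρ T : ℝ} {I P : ℕ} (hδ : 0 < δ) (hη : 0 < η) (hT : 2 ≤ T)
    (h3 : 7 * C0 ^ 2 * ρ ^ I ≤ δ * η ^ 2) {D u N : ℝ} (hD : δ * T ≤ D) (hu : 0 ≤ u)
    (hN : D * u ^ 2 ≤ N) (hN2 : N < ρ ^ I * (7 * C0 ^ 2 * P * T)) : u ≤ η * √P := by
  have hT0 : 0 < T := by linarith
  have hP0 : (0 : ℝ) ≤ P := Nat.cast_nonneg _
  apply exD_sq _ (by positivity)
  rw [mul_pow, Real.sq_sqrt hP0]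
  have h4 : δ * T * u ^ 2 ≤ δ * T * (η ^ 2 * P) := by
    have h5 : δ * T * u ^ 2 ≤ D * u ^ 2 := mul_le_mul_of_nonneg_right hD (sq_nonneg u)
    have h6 : 7 * C0 ^ 2 * ρ ^ I * (P * T) ≤ δ * η ^ 2 * (P * T) :=
      mul_le_mul_of_nonneg_right h3 (by positivity)
    linarith only [hN, hN2, h5, h6]
  exact le_of_mul_le_mul_left h4 (by positivity)

theorem exD_core {C0 δ η ρ η2 : ℝ} {I : ℕ} (hC0 : 1 ≤ C0) (hδ : 0 < δ) (hη : 0 < η) (hρ : 0 < ρ)
    (hρ1 : ρ < 1) (hη2 : 0 < η2) (h1 : 60 * C0 * (1 - ρ) ≤ η * δ) (h2 : 24 * C0 * η2 ≤ η)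
    (h3 : 7 * C0 ^ 2 * ρ ^ I ≤ δ * η ^ 2) (hI : 1 ≤ I) {T : ℝ} (hT : 2 ≤ T) (hT5 : 5 / δ ≤ T)
    {x y : ℤ√2} (h : Fr x y) (hc : fm x y ∈ Cl T) (hg : Gc δ T (fm x y)) (hx : 0 ≤ al x)
    {P : ℕ} (hP : 1 ≤ P) {t : ℝ} (ht0 : 0 ≤ t) (ht : t < η2 / T) {v v' : ℕ × ℕ}
    (hv : (nm (zv x y v) : ℝ) < 7 * C0 ^ 2 * P * T) (hv' : (nm (zv x y v') : ℝ) < 7 * C0 ^ 2 * P * T)
    (he : pc x y t (η2 / T) ρ (7 * C0 ^ 2 * P * T) I v =
      pc x y t (η2 / T) ρ (7 * C0 ^ 2 * P * T) I v') :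
    |(v.1 : ℝ) - v'.1| ≤ η * √P ∧ |(v.2 : ℝ) - v'.2| ≤ η * √P := by
  obtain ⟨⟨a1, a2⟩, ⟨a3, a4⟩, ⟨a5, a6⟩, a7, a8⟩ := exD_cell hδ hT h hc hg
  have hT0 : 0 < T := by linarith only [hT]
  have hP0 : (1 : ℝ) ≤ P := by exact_mod_cast hP
  obtain ⟨X, hX⟩ : ∃ X : ℝ, X = 7 * C0 ^ 2 * P * T := ⟨_, rfl⟩
  rw [← hX] at hv hv' he
  have hX0 : 0 < X := by rw [hX]; positivity
  unfold pc at he
  rw [Nat.pair_eq_pair] at he
  obtain ⟨hw, hs⟩ := he
  have hB0 : (0 : ℝ) < B x y := by exact_mod_cast B_pos h.tx h.ty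
  have hnx0 : (0 : ℝ) < nm x := by exact_mod_cast h.tx.nm_pos
  have hny0 : (0 : ℝ) < nm y := by exact_mod_cast h.ty.nm_pos
  have hle : ∀ w : ℕ × ℕ, (nm x : ℝ) * (w.1 : ℝ) ^ 2 ≤ nm (zv x y w) ∧
      (nm y : ℝ) * (w.2 : ℝ) ^ 2 ≤ nm (zv x y w) := by
    intro w
    rw [exD_form h w]
    have c1 : (0 : ℝ) ≤ w.1 := Nat.cast_nonneg _
    have c2 : (0 : ℝ) ≤ w.2 := Nat.cast_nonneg _
    have d1 : 0 ≤ 2 * (B x y : ℝ) * ((w.1 : ℝ) * w.2) := by positivity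
    have d2 : 0 ≤ (nm x : ℝ) * (w.1 : ℝ) ^ 2 := by positivity
    have d3 : 0 ≤ (nm y : ℝ) * (w.2 : ℝ) ^ 2 := by positivity
    constructor <;> linarith only [d1, d3, d2]
  have hinner : ∀ w : ℕ × ℕ, shI ρ X I (nm (zv x y w)) = I →
      (0 ≤ (w.1 : ℝ) ∧ (w.1 : ℝ) ≤ η * √P) ∧ (0 ≤ (w.2 : ℝ) ∧ (w.2 : ℝ) ≤ η * √P) := by
    intro w hsw
    rw [shI_last hρ hρ1 hX0] at hsw
    have hN : (nm (zv x y w) : ℝ) < ρ ^ I * X := by
      rcases hsw with h0 | h0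
      · omega
      · exact h0
    rw [hX] at hN
    obtain ⟨q1, q2⟩ := hle w
    exact ⟨⟨Nat.cast_nonneg _, exD_inner hδ hη hT h3 a1 (Nat.cast_nonneg _) q1 hN⟩,
      ⟨Nat.cast_nonneg _, exD_inner hδ hη hT h3 a3 (Nat.cast_nonneg _) q2 hN⟩⟩
  have hsle : shI ρ X I (nm (zv x y v)) ≤ I := by
    unfold shI
    refine (Finset.card_filter_le _ _).trans ?_
    rw [Finset.card_range]
  rcases hsle.eq_or_lt with hsI | hsI
  · obtain ⟨⟨p1, p2⟩, p3, p4⟩ := hinner v hsI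
    obtain ⟨⟨r1, r2⟩, r3, r4⟩ := hinner v' (hs ▸ hsI)
    constructor <;> rw [abs_le] <;> constructor <;> linarith only [r2, p2, r4, p4]
  · obtain ⟨i, hi⟩ : ∃ i, i = shI ρ X I (nm (zv x y v)) := ⟨_, rfl⟩
    rw [← hi] at hs hsI
    obtain ⟨n1, n2⟩ := (shI_eq hρ hρ1 hX0 hv I i hsI).1 hi.symm
    obtain ⟨n1', n2'⟩ := (shI_eq hρ hρ1 hX0 hv' I i hsI).1 hs.symm
    have hpos : 0 < ρ ^ (i + 1) * X := by positivity
    have hne : ∀ w : ℕ × ℕ, ρ ^ (i + 1) * X ≤ (nm (zv x y w) : ℝ) → w ≠ (0, 0) := by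
      intro w hw0 hw1
      rw [hw1, exD_form h] at hw0
      norm_num at hw0
      linarith only [hpos, hw0]
    obtain ⟨u1, u2, u3, u4⟩ := exD_coord h (hne v n1)
    obtain ⟨u1', u2', u3', u4'⟩ := exD_coord h (hne v' n1')
    have hal := exD_wk ht ht0 (exD_al hx u3) (exD_al hx u3') hw
    have hth := exD_th hal
    have hr := exD_shell hρ hρ1 hX0.le i n1 n2 n1' n2'
    have hα : 5 / (δ * T) ≤ 1 := by
      rw [div_le_one (by positivity)]
      rw [div_le_iff₀ hδ] at hT5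
      linarith only [hT5]
    have hN0 : (0 : ℝ) ≤ nm (zv x y v) := hpos.le.trans n1
    have hN0' : (0 : ℝ) ≤ nm (zv x y v') := hpos.le.trans n1'
    have hfin : √T * √X * (2 * (1 - ρ) * (5 / (δ * T)) + 2 * (2 * (η2 / T))) ≤ η * √P := by
      have e1 : √T * √X = √7 * C0 * √P * T := by
        rw [← Real.sqrt_mul hT0.le, hX]
        have e2 : T * (7 * C0 ^ 2 * P * T) = 7 * (P * (C0 * T) ^ 2) := by ring
        rw [e2, Real.sqrt_mul (by norm_num), Real.sqrt_mul (by linarith only []),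
          Real.sqrt_sq (by positivity)]
        ring
      have e3 : √7 ≤ 3 := by
        rw [Real.sqrt_le_left (by norm_num)]
        norm_num
      have hA : 0 ≤ 1 - ρ := by linarith only [hρ1]
      have e4 : √T * √X * (2 * (1 - ρ) * (5 / (δ * T)) + 2 * (2 * (η2 / T))) =
          √7 * C0 * √P * (10 * (1 - ρ) / δ + 4 * η2) := by
        rw [e1]
        field_simp
        ring
      rw [e4]
      have e5 : √7 * C0 * √P * (10 * (1 - ρ) / δ + 4 * η2) ≤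
          3 * C0 * √P * (10 * (1 - ρ) / δ + 4 * η2) := by
        have : 0 ≤ 10 * (1 - ρ) / δ + 4 * η2 := by positivity
        gcongr
      refine e5.trans ?_
      have e6 : 60 * C0 * ((1 - ρ) / δ) ≤ η := by
        rw [← mul_div_assoc, div_le_iff₀ hδ]
        exact h1
      have e7 : 3 * C0 * (10 * (1 - ρ) / δ + 4 * η2) ≤ η := by
        have : 3 * C0 * (10 * (1 - ρ) / δ + 4 * η2) =
            (60 * C0 * ((1 - ρ) / δ)) / 2 + (24 * C0 * η2) / 2 := by ring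
        rw [this]
        linarith only [h2, e6]
      have e8 : 3 * C0 * √P * (10 * (1 - ρ) / δ + 4 * η2) =
          3 * C0 * (10 * (1 - ρ) / δ + 4 * η2) * √P := by ring
      rw [e8]
      exact mul_le_mul_of_nonneg_right e7 (Real.sqrt_nonneg _)
    constructor
    · rw [u2, u2']
      refine (exD_est (α := 5 / (δ * T)) (c := 2 * (η2 / T)) hny0.le a4 hN0 hN0' hv'.le hr
        (by linarith only [hρ1]) (by linarith only [u4]) (by linarith only [a8, u3]) (by linarith only [u4']) (by linarith only [a8, u3']) hα ?_).trans hfin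
      have e : th y - th (zv x y v) - (th y - th (zv x y v')) =
          -(th (zv x y v) - th (zv x y v')) := by ring
      rw [e, abs_neg]
      exact hth
    · rw [u1, u1']
      refine (exD_est (α := 5 / (δ * T)) (c := 2 * (η2 / T)) hnx0.le a2 hN0 hN0' hv'.le hr
        (by linarith only [hρ1]) (by linarith only [u3]) (by linarith only [a8, u4]) (by linarith only [u3']) (by linarith only [a8, u4']) hα ?_).trans hfin
      have e : th (zv x y v) - th x - (th (zv x y v') - th x) =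
          th (zv x y v) - th (zv x y v') := by ring
      rw [e]
      exact hth

/-- parameters for `exD_core` -/
theorem exD_par (η C0 δ : ℝ) (hη : 0 < η) (hC0 : 1 ≤ C0) (hδ : 0 < δ) :
    ∃ (ρ η2 : ℝ) (I : ℕ), 0 < ρ ∧ ρ < 1 ∧ 0 < η2 ∧ η2 ≤ η ∧ 1 ≤ I ∧ ρ ^ I ≤ η ∧
      60 * C0 * (1 - ρ) ≤ η * δ ∧ 24 * C0 * η2 ≤ η ∧ 7 * C0 ^ 2 * ρ ^ I ≤ δ * η ^ 2 := by
  obtain ⟨s, hs⟩ : ∃ s : ℝ, s = min (1 / 2) (η * δ / (60 * C0)) := ⟨_, rfl⟩
  have hs0 : 0 < s := by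
    rw [hs]
    exact lt_min (by norm_num) (by positivity)
  have hs1 : s ≤ 1 / 2 := by rw [hs]; exact min_le_left _ _
  have hs2 : s ≤ η * δ / (60 * C0) := by rw [hs]; exact min_le_right _ _
  have hC00 : 0 < C0 := by linarith only [hC0]
  obtain ⟨I, hI⟩ := exists_pow_lt_of_lt_one
    (show 0 < min η (δ * η ^ 2 / (7 * C0 ^ 2)) from lt_min hη (by positivity))
    (show 1 - s < 1 by linarith)
  have hI2 : (1 - s) ^ (I + 1) < min η (δ * η ^ 2 / (7 * C0 ^ 2)) := by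
    refine lt_of_le_of_lt ?_ hI
    rw [pow_succ]
    have : 0 < (1 - s) ^ I := pow_pos (by linarith) I
    nlinarith only [hs0, this]
  refine ⟨1 - s, η / (24 * C0), I + 1, by linarith only [hs1], by linarith only [hs0], by positivity, ?_, by omega,
    (hI2.trans_le (min_le_left _ _)).le, ?_, ?_, ?_⟩
  · rw [div_le_iff₀ (by positivity)]
    nlinarith only [hη, hC0]
  · rw [le_div_iff₀ (by positivity)] at hs2
    linarith
  · rw [mul_div_cancel₀ _ (by positivity)]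
  · have := (hI2.trans_le (min_le_right _ _)).le
    rw [le_div_iff₀ (by positivity)] at this
    linarith

/-- Diameter of the pieces. Let `(x, y)` be a basis of a good cell of level `T`, `X = 7 C0² P T`,
`h = η2 / T`. For `v ≠ 0` in the box `nm (zv v) = Q.val v < X`. Let `v, v'` have the same label. If the
shell is `I`, then `Q.d v.1², Q.e v.2² ≤ nm < ρ ^ I X` and the coordinates are at most
`√(7 C0² ρ ^ I P / δ) ≤ η √P`. Otherwise both are nonzero, `nm z, nm z'` lie in one shell, so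
`|√(nm z) - √(nm z')| ≤ (1 - √ρ) √X ≤ (1 - ρ) √X`, `|th z - th z'| ≤ 2 h`, and
`0 ≤ th z - th x ≤ th y - th x ≤ 5 / B x y ≤ 5 / (δ T)` (`edge_len_le`). By `det_sinh` and `zv_det`
`v.2 = √(nm x) √(nm z) sinh (th z - th x) / √2`, so
`|v.2 - v'.2| ≤ √T √X ((1 - ρ) * 6 / (δ T) + 3 h) ≤ √7 C0 √P (6 (1 - ρ) / δ + 3 η2) ≤ η √P`; the same
for the first coordinate. -/
theorem pc_diam (η C0 δ : ℝ) (hη : 0 < η) (hC0 : 1 ≤ C0) (hδ : 0 < δ) (hδ1 : δ ≤ 1) :
    ∃ (ρ η2 : ℝ) (I : ℕ), 0 < ρ ∧ ρ < 1 ∧ 0 < η2 ∧ η2 ≤ η ∧ 1 ≤ I ∧ ρ ^ I ≤ η ∧ ∃ T0 : ℝ, 2 ≤ T0 ∧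
    ∀ T : ℝ, T0 ≤ T → ∀ x y : ℤ√2, Fr x y → fm x y ∈ Cl T → Gc δ T (fm x y) → 0 ≤ al x → al x < 1 →
    ∀ P : ℕ, 1 ≤ P → ∀ t : ℝ, 0 ≤ t → t < η2 / T → ∀ v ∈ Bv ⌊C0 * √P⌋₊, ∀ v' ∈ Bv ⌊C0 * √P⌋₊,
    pc x y t (η2 / T) ρ (7 * C0 ^ 2 * P * T) I v = pc x y t (η2 / T) ρ (7 * C0 ^ 2 * P * T) I v' →
    |(v.1 : ℝ) - v'.1| ≤ η * √P ∧ |(v.2 : ℝ) - v'.2| ≤ η * √P := by
  obtain ⟨ρ, η2, I, c1, c2, c3, c4, c5, c6, c7, c8, c9⟩ := exD_par η C0 δ hη hC0 hδ
  refine ⟨ρ, η2, I, c1, c2, c3, c4, c5, c6, max 2 (5 / δ), le_max_left _ _, ?_⟩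
  intro T hT x y h hc hg hx _ P hP t ht0 ht v hv v' hv' he
  have hT2 : 2 ≤ T := (le_max_left _ _).trans hT
  have hT5 : 5 / δ ≤ T := (le_max_right _ _).trans hT
  exact exD_core hC0 hδ hη c1 c2 c3 c7 c8 c9 c5 hT2 hT5 h hc hg hx hP ht0 ht
    (exD_lt hC0 hδ hT2 h hc hg hP hv) (exD_lt hC0 hδ hT2 h hc hg hP hv') he

end

end Pool.Agent.Lib.MP_0b748d_nt.HH
end

section

set_option autoImplicit false

/-!
# Assembly: the averages over forms vanish in the limit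
-/

namespace Pool.Agent.Lib.MP_0b748d_nt.HH

open Filter Topology MR

noncomputable section

theorem PP_mem_iff {P p : ℕ} : p ∈ PP P ↔ (P ≤ p ∧ p < 2 * P) ∧ Sp p := by
  classical
  unfold PP
  rw [Finset.mem_filter, Finset.mem_Ico]

theorem PP_prime_ne {P p : ℕ} (h : p ∈ PP P) : p.Prime ∧ p ≠ 2 := by
  have h1 := (PP_mem_iff.1 h).2
  refine ⟨h1.1, ?_⟩
  rintro rfl
  have h2 := h1.2
  omega

open Classical in
/-- the matrices of the box with determinant in `PP P` are the pairs of vectors of the box with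
determinant in `PP P` -/
theorem sum_PP_pairs {P c : ℕ} (g : ℕ → Mt → ℝ) :
    ∑ p ∈ PP P, ∑ M ∈ (Bx c).filter (fun M => M.Dt p), g p M =
      ∑ v ∈ Bv c, ∑ w ∈ Bv c, if (dv v w).toNat ∈ PP P then
        g (dv v w).toNat ⟨v.1, w.1, v.2, w.2⟩ else 0 := by
  rw [← Finset.sum_product', ← Finset.sum_filter, Finset.sum_sigma']
  refine Finset.sum_bij' (fun x _ => ((x.2.a, x.2.c), (x.2.b, x.2.d)))
    (fun y _ => ⟨(dv y.1 y.2).toNat, ⟨y.1.1, y.2.1, y.1.2, y.2.2⟩⟩) ?_ ?_ ?_ ?_ ?_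
  · rintro ⟨p, M⟩ h
    rw [Finset.mem_sigma, Finset.mem_filter, mem_Bx] at h
    obtain ⟨hp, ⟨h1, h2, h3, h4⟩, h5⟩ := h
    simp only at hp h1 h2 h3 h4 h5
    unfold Mt.Dt at h5
    have hd : dv (M.a, M.c) (M.b, M.d) = (p : ℤ) := by
      unfold dv
      have : (M.a : ℤ) * M.d = M.b * M.c + p := by exact_mod_cast h5
      simp only
      linarith [mul_comm (M.c : ℤ) M.b]
    rw [Finset.mem_filter, Finset.mem_product]
    refine ⟨⟨?_, ?_⟩, ?_⟩
    · unfold Bv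
      rw [Finset.mem_product, Finset.mem_range, Finset.mem_range]
      exact ⟨by simp only; omega, by simp only; omega⟩
    · unfold Bv
      rw [Finset.mem_product, Finset.mem_range, Finset.mem_range]
      exact ⟨by simp only; omega, by simp only; omega⟩
    · simp only [hd, Int.toNat_natCast]
      exact hp
  · rintro ⟨v, w⟩ h
    rw [Finset.mem_filter, Finset.mem_product] at h
    obtain ⟨⟨hv, hw⟩, hd⟩ := h
    simp only at hv hw hd
    unfold Bv at hv hw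
    rw [Finset.mem_product, Finset.mem_range, Finset.mem_range] at hv hw
    rw [Finset.mem_sigma, Finset.mem_filter, mem_Bx]
    refine ⟨hd, ⟨by simp only; omega, by simp only; omega, by simp only; omega,
      by simp only; omega⟩, ?_⟩
    have hpos : 0 < (dv v w).toNat := (PP_prime_ne hd).1.pos
    have h0 : 0 < dv v w := by omega
    unfold Mt.Dt
    simp only
    have h2 : ((dv v w).toNat : ℤ) = dv v w := Int.toNat_of_nonneg h0.le
    have h3 : (v.1 : ℤ) * w.2 = w.1 * v.2 + (dv v w).toNat := by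
      rw [h2]
      unfold dv
      ring
    exact_mod_cast h3
  · rintro ⟨p, M⟩ h
    rw [Finset.mem_sigma, Finset.mem_filter, mem_Bx] at h
    obtain ⟨hp, ⟨h1, h2, h3, h4⟩, h5⟩ := h
    simp only at hp h1 h2 h3 h4 h5
    unfold Mt.Dt at h5
    have hd : dv (M.a, M.c) (M.b, M.d) = (p : ℤ) := by
      unfold dv
      have : (M.a : ℤ) * M.d = M.b * M.c + p := by exact_mod_cast h5
      simp only
      linarith [mul_comm (M.c : ℤ) M.b]
    simp only [hd, Int.toNat_natCast]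
  · rintro ⟨v, w⟩ h
    rfl
  · rintro ⟨p, M⟩ h
    rw [Finset.mem_sigma, Finset.mem_filter, mem_Bx] at h
    obtain ⟨hp, ⟨h1, h2, h3, h4⟩, h5⟩ := h
    simp only at hp h1 h2 h3 h4 h5
    unfold Mt.Dt at h5
    have hd : dv (M.a, M.c) (M.b, M.d) = (p : ℤ) := by
      unfold dv
      have : (M.a : ℤ) * M.d = M.b * M.c + p := by exact_mod_cast h5
      simp only
      linarith [mul_comm (M.c : ℤ) M.b]
    simp only [hd, Int.toNat_natCast]

open Classical in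
/-- Missing vectors: `qp p ≤ 2 / P` and `det_card` for each missing vector. -/
theorem miss_sum (C0 : ℝ) (hC0 : 1 ≤ C0) : ∃ K : ℝ, 1 ≤ K ∧ ∀ P c : ℕ, 3 ≤ P → (c : ℝ) ≤ C0 * √P →
    ∀ a : Pt, ∑ p ∈ PP P, ∑ M ∈ (Bx c).filter (fun M => M.Dt p),
      (ms a (M.a, M.c) + ms a (M.b, M.d)) * qp p ≤
      K / Real.log P * ∑ v ∈ Bv c, ms a v := by
  obtain ⟨K, hK1, hK⟩ := det_card C0 hC0
  refine ⟨4 * K, by linarith, fun P c hP hc a => ?_⟩
  have hP0 : (0 : ℝ) < P := by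
    have : 0 < P := by omega
    exact_mod_cast this
  have hlog : 0 < Real.log P := Real.log_pos (by exact_mod_cast (by omega : 1 < P))
  have hms : ∀ v, 0 ≤ ms a v := by
    intro v
    unfold ms
    split_ifs <;> norm_num
  have hcard := hK P c (by omega) hc
  rw [sum_PP_pairs (fun p M => (ms a (M.a, M.c) + ms a (M.b, M.d)) * qp p)]
  have h1 : ∀ v ∈ Bv c, ∀ w ∈ Bv c, (if (dv v w).toNat ∈ PP P then
      (ms a (v.1, v.2) + ms a (w.1, w.2)) * qp (dv v w).toNat else 0) ≤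
      (2 / P) * ((if (dv v w).toNat ∈ PP P then ms a v else 0) +
        (if (dv v w).toNat ∈ PP P then ms a w else 0)) := by
    intro v _ w _
    by_cases h : (dv v w).toNat ∈ PP P
    · rw [if_pos h, if_pos h, if_pos h]
      have hp := PP_prime_ne h
      have hle := (PP_mem_iff.1 h).1.1
      obtain ⟨hq0, hq1⟩ := qp_le hp.1 hp.2
      have hle' : (P : ℝ) ≤ ((dv v w).toNat : ℝ) := by exact_mod_cast hle
      have hq2 : qp (dv v w).toNat ≤ 2 / P :=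
        hq1.trans (div_le_div_of_nonneg_left (by norm_num) hP0 hle')
      have h2 : 0 ≤ ms a v + ms a w := add_nonneg (hms v) (hms w)
      calc (ms a (v.1, v.2) + ms a (w.1, w.2)) * qp (dv v w).toNat
          = (ms a v + ms a w) * qp (dv v w).toNat := rfl
        _ ≤ (ms a v + ms a w) * (2 / P) := mul_le_mul_of_nonneg_left hq2 h2
        _ = _ := by ring
    · rw [if_neg h, if_neg h, if_neg h]
      simp
  have h2 : ∑ v ∈ Bv c, ∑ w ∈ Bv c, (if (dv v w).toNat ∈ PP P then ms a v else 0) ≤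
      ∑ v ∈ Bv c, ms a v * (K * P / Real.log P) := by
    refine Finset.sum_le_sum fun v hv => ?_
    rw [← Finset.sum_filter, Finset.sum_const, nsmul_eq_mul, mul_comm]
    exact mul_le_mul_of_nonneg_left (hcard v hv).1 (hms v)
  have h3 : ∑ v ∈ Bv c, ∑ w ∈ Bv c, (if (dv v w).toNat ∈ PP P then ms a w else 0) ≤
      ∑ v ∈ Bv c, ms a v * (K * P / Real.log P) := by
    rw [Finset.sum_comm]
    refine Finset.sum_le_sum fun v hv => ?_
    rw [← Finset.sum_filter, Finset.sum_const, nsmul_eq_mul, mul_comm]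
    exact mul_le_mul_of_nonneg_left (hcard v hv).2 (hms v)
  calc _ ≤ ∑ v ∈ Bv c, ∑ w ∈ Bv c, (2 / P) * ((if (dv v w).toNat ∈ PP P then ms a v else 0) +
        (if (dv v w).toNat ∈ PP P then ms a w else 0)) :=
        Finset.sum_le_sum fun v hv => Finset.sum_le_sum fun w hw => h1 v hv w hw
    _ = (2 / P) * (∑ v ∈ Bv c, ∑ w ∈ Bv c, (if (dv v w).toNat ∈ PP P then ms a v else 0) +
        ∑ v ∈ Bv c, ∑ w ∈ Bv c, (if (dv v w).toNat ∈ PP P then ms a w else 0)) := by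
        simp only [← Finset.mul_sum, Finset.sum_add_distrib]
    _ ≤ (2 / P) * (∑ v ∈ Bv c, ms a v * (K * P / Real.log P) +
        ∑ v ∈ Bv c, ms a v * (K * P / Real.log P)) :=
        mul_le_mul_of_nonneg_left (add_le_add h2 h3) (by positivity)
    _ = 4 * K / Real.log P * ∑ v ∈ Bv c, ms a v := by
        rw [← Finset.sum_mul]
        field_simp
        ring

end

end Pool.Agent.Lib.MP_0b748d_nt.HH
end

section

set_option autoImplicit false

/-!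
# Assembly: the averages over forms vanish in the limit
-/

namespace Pool.Agent.Lib.MP_0b748d_nt.HH

open Filter Topology MR

noncomputable section

private theorem asmh_mem {P p : ℕ} (hp : p ∈ PP P) : (P ≤ p ∧ p < 2 * P) ∧ Sp p := by
  classical
  unfold PP at hp
  rwa [Finset.mem_filter, Finset.mem_Ico] at hp

private theorem asmh_ne {P p : ℕ} (hp : p ∈ PP P) : p ≠ 2 := by
  rintro rfl
  have h := (asmh_mem hp).2.2
  omega

open Classical in
/-- The sum over matrices of a good cell: on the support of `W` the entries of `M` are at most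
`c = ⌊C0 √P⌋`, `C0² = 2 b 2 ^ s / δ` (`Q.d M.a² ≤ b p 2 ^ s T`, `Q.d ≥ δ T`, `p ≤ 2 P`), so `Ph` is the
sum over `M ∈ Bx c`; replace `W` by `Kz` (`Kz_close`, at most `K` terms by `bases_card`) and `F`, `G` by
the values of the pattern. -/
theorem Ph_pattern (a b L δ : ℝ) (s : ℕ) (ha : 0 < a) (hab : a ≤ b) (hL : 0 ≤ L) (hδ : 0 < δ)
    (hδ1 : δ ≤ 1) : ∃ K : ℝ, 1 ≤ K ∧ ∀ (W : ℝ → ℝ → ℝ), Wt a b L W → ∀ F G : ℕ → ℤ,
    (∀ m, |F m| ≤ 1) → (∀ m, |G m| ≤ 1) → ∀ (T : ℝ), 2 ≤ T → ∀ Q ∈ Cl T, Gc δ T Q →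
    ∀ (P m : ℕ), 2 ≤ P → 1 ≤ m → ∀ p ∈ PP P, ∀ S : Finset (ℕ × ℕ),
    |Ph W F G b p (2 ^ s * T) Q -
      ∑ M ∈ (Bx ⌊√(2 * b * 2 ^ s / δ) * √P⌋₊).filter (fun M => M.Dt p),
        (Kz W s m (some (sh m T Q)) p (M.a, M.c) (M.b, M.d) * lk1 (gr F G Q S) (M.a, M.c) *
          lk2 (gr F G Q S) (M.b, M.d)) * (if zr (res p Q) M then (1 : ℝ) else 0)| ≤
      K / m + ∑ M ∈ (Bx ⌊√(2 * b * 2 ^ s / δ) * √P⌋₊).filter (fun M => M.Dt p),
        (ms (gr F G Q S) (M.a, M.c) + ms (gr F G Q S) (M.b, M.d)) *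
          (if zr (res p Q) M then (1 : ℝ) else 0) := by
  classical
  set C0 : ℝ := √(2 * b * 2 ^ s / δ) with hC0def
  have hb : 0 < b := lt_of_lt_of_le ha hab
  have hC0sq : C0 ^ 2 = 2 * b * 2 ^ s / δ := Real.sq_sqrt (by positivity)
  obtain ⟨K1, hK1, hcard⟩ := bases_card (max 1 (C0 ^ 2)) (le_max_left _ _)
  refine ⟨1 + K1 * (8 * L * C0 ^ 2), ?_, ?_⟩
  · have : 0 ≤ K1 * (8 * L * C0 ^ 2) := by positivity
    linarith
  intro W hW F G hF hG T hT Q hQ hGc P m hP hm p hp S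
  have hT0 : 0 < T := by linarith
  have hm0 : (0 : ℝ) < m := by exact_mod_cast hm
  have hpmem := asmh_mem hp
  have hPp : (P : ℝ) ≤ p := by exact_mod_cast hpmem.1.1
  have hp2P : (p : ℝ) ≤ 2 * P := by
    have : p ≤ 2 * P := hpmem.1.2.le
    exact_mod_cast this
  have hP0 : (0 : ℝ) < P := by
    have : 0 < P := by omega
    exact_mod_cast this
  have hp0 : (0 : ℝ) < p := by linarith
  have hQok := ((mem_Cl hT0.le).1 hQ).1
  set c : ℕ := ⌊C0 * √P⌋₊ with hc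
  have hC0n : 0 ≤ C0 * √P := by positivity
  have hcle : (c : ℝ) ≤ C0 * √P := Nat.floor_le hC0n
  set A : Finset Mt := (Bx c).filter (fun M => M.Dt p) with hA
  set g : Mt → ℝ := fun M => W (Q.val M.a M.c / (p * (2 ^ s * T))) (Q.val M.b M.d / (p * (2 ^ s * T))) *
      ((F (Q.val M.a M.c) : ℝ) * (G (Q.val M.b M.d) : ℝ)) with hg
  set k : Mt → ℝ := fun M => Kz W s m (some (sh m T Q)) p (M.a, M.c) (M.b, M.d) *
      lk1 (gr F G Q S) (M.a, M.c) * lk2 (gr F G Q S) (M.b, M.d) with hk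
  -- support
  have hden : 0 < (p : ℝ) * (2 ^ s * T) := by positivity
  have hbound : ∀ (x d : ℕ) (v : ℕ), (d : ℝ) * (x : ℝ) ^ 2 ≤ v → δ * T ≤ d → 1 ≤ d →
      (v : ℝ) / (p * (2 ^ s * T)) ≤ b → x ≤ c ∧ x ≤ ⌊√(b * p * (2 ^ s * T))⌋₊ := by
    intro x d v h1 h2 h3 h4
    rw [div_le_iff₀ hden] at h4
    have h5 : (d : ℝ) * (x : ℝ) ^ 2 ≤ b * (p * (2 ^ s * T)) := h1.trans h4
    have hx2 : (0 : ℝ) ≤ (x : ℝ) ^ 2 := by positivity
    have h3' : (1 : ℝ) ≤ d := by exact_mod_cast h3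
    constructor
    · refine Nat.le_floor ?_
      have h6 : (δ * T) * (x : ℝ) ^ 2 ≤ b * (p * (2 ^ s * T)) :=
        (mul_le_mul_of_nonneg_right h2 hx2).trans h5
      have h7 : δ * (x : ℝ) ^ 2 ≤ b * p * 2 ^ s := by
        have : T * (δ * (x : ℝ) ^ 2) ≤ T * (b * p * 2 ^ s) := by linarith
        exact le_of_mul_le_mul_left this hT0
      have h8 : δ * (x : ℝ) ^ 2 ≤ 2 * b * 2 ^ s * P := by
        refine h7.trans ?_
        have : b * 2 ^ s * (p : ℝ) ≤ b * 2 ^ s * (2 * P) :=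
          mul_le_mul_of_nonneg_left hp2P (by positivity)
        linarith
      have h9 : (x : ℝ) ^ 2 ≤ (C0 * √P) ^ 2 := by
        rw [mul_pow, hC0sq, Real.sq_sqrt hP0.le]
        have : (x : ℝ) ^ 2 ≤ (2 * b * 2 ^ s * P) / δ := by
          rw [le_div_iff₀ hδ]
          linarith
        refine this.trans (le_of_eq ?_)
        ring
      exact abs_le_of_sq_le_sq' h9 hC0n |>.2
    · refine Nat.le_floor (Real.le_sqrt_of_sq_le ?_)
      have : (x : ℝ) ^ 2 ≤ d * (x : ℝ) ^ 2 := le_mul_of_one_le_left hx2 h3'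
      calc (x : ℝ) ^ 2 ≤ d * (x : ℝ) ^ 2 := this
        _ ≤ b * (p * (2 ^ s * T)) := h5
        _ = b * p * (2 ^ s * T) := by ring
  have hsupp : ∀ M : Mt, g M ≠ 0 → M ∈ Bx c ∧ M ∈ Bx ⌊√(b * p * (2 ^ s * T))⌋₊ := by
    intro M hM
    have hW0 : W (Q.val M.a M.c / (p * (2 ^ s * T))) (Q.val M.b M.d / (p * (2 ^ s * T))) ≠ 0 :=
      fun h => hM (by rw [hg]; simp only [h, zero_mul])
    obtain ⟨⟨_, h1⟩, ⟨_, h2⟩⟩ := hW.sp _ _ hW0
    have v1 : (Q.d : ℝ) * (M.a : ℝ) ^ 2 ≤ (Q.val M.a M.c : ℕ) := by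
      unfold Fm.val
      push_cast
      have : (0 : ℝ) ≤ 2 * Q.n * (M.a * M.c) + Q.e * (M.c : ℝ) ^ 2 := by positivity
      linarith
    have v2 : (Q.e : ℝ) * (M.c : ℝ) ^ 2 ≤ (Q.val M.a M.c : ℕ) := by
      unfold Fm.val
      push_cast
      have : (0 : ℝ) ≤ Q.d * (M.a : ℝ) ^ 2 + 2 * Q.n * (M.a * M.c) := by positivity
      linarith
    have v3 : (Q.d : ℝ) * (M.b : ℝ) ^ 2 ≤ (Q.val M.b M.d : ℕ) := by
      unfold Fm.val
      push_cast
      have : (0 : ℝ) ≤ 2 * Q.n * (M.b * M.d) + Q.e * (M.d : ℝ) ^ 2 := by positivity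
      linarith
    have v4 : (Q.e : ℝ) * (M.d : ℝ) ^ 2 ≤ (Q.val M.b M.d : ℕ) := by
      unfold Fm.val
      push_cast
      have : (0 : ℝ) ≤ Q.d * (M.b : ℝ) ^ 2 + 2 * Q.n * (M.b * M.d) := by positivity
      linarith
    have w1 := hbound M.a Q.d _ v1 hGc.1 hQok.1 h1
    have w2 := hbound M.c Q.e _ v2 hGc.2 hQok.2.1 h1
    have w3 := hbound M.b Q.d _ v3 hGc.1 hQok.1 h2
    have w4 := hbound M.d Q.e _ v4 hGc.2 hQok.2.1 h2
    exact ⟨mem_Bx.2 ⟨w1.1, w3.1, w2.1, w4.1⟩, mem_Bx.2 ⟨w1.2, w3.2, w2.2, w4.2⟩⟩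
  have hPh : Ph W F G b p (2 ^ s * T) Q =
      ∑ M ∈ A, g M * (if zr (res p Q) M then (1 : ℝ) else 0) := by
    have e1 : ∑ M ∈ A, g M * (if zr (res p Q) M then (1 : ℝ) else 0) =
        ∑ M ∈ A.filter (fun M => zr (res p Q) M), g M := by
      rw [Finset.sum_filter (s := A) (p := fun M => zr (res p Q) M)]
      refine Finset.sum_congr rfl fun M _ => ?_
      split_ifs
      · rw [mul_one]
      · rw [mul_zero]
    rw [e1]
    unfold Ph
    refine Finset.sum_congr_of_eq_on_inter ?_ ?_ (fun _ _ _ => rfl)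
    · intro M hM1 hM2
      by_contra h0
      rw [Finset.mem_filter] at hM1
      have h3 := hsupp M h0
      refine hM2 ?_
      rw [Finset.mem_filter, hA, Finset.mem_filter]
      exact ⟨⟨h3.1, hM1.2.1⟩, hM1.2.2⟩
    · intro M hM1 hM2
      by_contra h0
      rw [Finset.mem_filter, hA, Finset.mem_filter] at hM1
      have h3 := hsupp M h0
      refine hM2 ?_
      rw [Finset.mem_filter]
      exact ⟨h3.2, hM1.1.2, hM1.2⟩
  have hFr : ∀ x, |(F x : ℝ)| ≤ 1 := fun x => by exact_mod_cast hF x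
  have hGr : ∀ x, |(G x : ℝ)| ≤ 1 := fun x => by exact_mod_cast hG x
  -- pointwise
  have hpt : ∀ M ∈ A, |g M - k M| ≤ 8 * L * C0 ^ 2 / m +
      (ms (gr F G Q S) (M.a, M.c) + ms (gr F G Q S) (M.b, M.d)) := by
    intro M hM
    rw [hA, Finset.mem_filter, mem_Bx] at hM
    obtain ⟨a1, a2, a3⟩ := lk_gr F G Q S (M.a, M.c)
    obtain ⟨b1, b2, b3⟩ := lk_gr F G Q S (M.b, M.d)
    have hE : 0 ≤ 8 * L * C0 ^ 2 / m := by positivity
    have hgb : |g M| ≤ 1 := by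
      rw [hg]
      simp only [abs_mul]
      have x1 := hW.bd (Q.val M.a M.c / (p * (2 ^ s * T))) (Q.val M.b M.d / (p * (2 ^ s * T)))
      have x2 := hFr (Q.val M.a M.c)
      have x3 := hGr (Q.val M.b M.d)
      have x4 : |(F (Q.val M.a M.c) : ℝ)| * |(G (Q.val M.b M.d) : ℝ)| ≤ 1 * 1 :=
        mul_le_mul x2 x3 (abs_nonneg _) zero_le_one
      calc _ ≤ (1 : ℝ) * (1 * 1) := mul_le_mul x1 x4 (by positivity) zero_le_one
        _ = 1 := by norm_num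
    rw [a3, b3]
    by_cases hv : (M.a, M.c) ∈ S
    · by_cases hw : (M.b, M.d) ∈ S
      · rw [if_pos hv, if_pos hw]
        have hkM : k M = Kz W s m (some (sh m T Q)) p (M.a, M.c) (M.b, M.d) *
            ((F (Q.val M.a M.c) : ℝ) * (G (Q.val M.b M.d) : ℝ)) := by
          rw [hk]
          simp only
          rw [a1, b2, if_pos hv, if_pos hw]
          ring
        have hd : g M - k M = (W (Q.val M.a M.c / (p * (2 ^ s * T)))
            (Q.val M.b M.d / (p * (2 ^ s * T))) -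
            Kz W s m (some (sh m T Q)) p (M.a, M.c) (M.b, M.d)) *
            ((F (Q.val M.a M.c) : ℝ) * (G (Q.val M.b M.d) : ℝ)) := by
          rw [hkM, hg]
          simp only
          ring
        rw [hd, abs_mul, abs_mul]
        have y1 := Kz_close hW hL s m hm hT0 (Q := Q) C0 P c (by omega) hcle (p : ℝ) hPp
          (v := (M.a, M.c)) (w := (M.b, M.d)) (by
            rw [Bv, Finset.mem_product, Finset.mem_range, Finset.mem_range]
            simp only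
            omega) (by
            rw [Bv, Finset.mem_product, Finset.mem_range, Finset.mem_range]
            simp only
            omega)
        have x2 := hFr (Q.val M.a M.c)
        have x3 := hGr (Q.val M.b M.d)
        have x4 : |(F (Q.val M.a M.c) : ℝ)| * |(G (Q.val M.b M.d) : ℝ)| ≤ 1 * 1 :=
          mul_le_mul x2 x3 (abs_nonneg _) zero_le_one
        have := mul_le_mul y1 x4 (by positivity) hE
        simp only [add_zero]
        linarith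
      · have hk0 : k M = 0 := by
          rw [hk]
          simp only
          rw [b2, if_neg hw, mul_zero]
        rw [hk0, sub_zero, if_pos hv, if_neg hw]
        linarith
    · have hk0 : k M = 0 := by
        rw [hk]
        simp only
        rw [a1, if_neg hv, mul_zero, zero_mul]
      rw [hk0, sub_zero, if_neg hv]
      have : (0 : ℝ) ≤ (if (M.b, M.d) ∈ S then 0 else 1) := by split_ifs <;> norm_num
      linarith
  have hcnt : ∑ M ∈ A, (if zr (res p Q) M then (1 : ℝ) else 0) ≤ K1 := by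
    rw [← Finset.sum_filter, Finset.sum_const, nsmul_eq_mul, mul_one, hA, Finset.filter_filter]
    refine hcard p c hpmem.2.1 (asmh_ne hp) ?_ _ (res_mem hQok p)
    calc (c : ℝ) ^ 2 ≤ (C0 * √P) ^ 2 := pow_le_pow_left₀ (Nat.cast_nonneg _) hcle 2
      _ = C0 ^ 2 * P := by rw [mul_pow, Real.sq_sqrt hP0.le]
      _ ≤ max 1 (C0 ^ 2) * p := mul_le_mul (le_max_right _ _) hPp hP0.le (by positivity)
  rw [hPh, ← Finset.sum_sub_distrib]
  calc |∑ M ∈ A, (g M * (if zr (res p Q) M then (1 : ℝ) else 0) -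
        k M * (if zr (res p Q) M then (1 : ℝ) else 0))|
      ≤ ∑ M ∈ A, |g M * (if zr (res p Q) M then (1 : ℝ) else 0) -
        k M * (if zr (res p Q) M then (1 : ℝ) else 0)| := Finset.abs_sum_le_sum_abs _ _
    _ ≤ ∑ M ∈ A, (8 * L * C0 ^ 2 / m * (if zr (res p Q) M then (1 : ℝ) else 0) +
        (ms (gr F G Q S) (M.a, M.c) + ms (gr F G Q S) (M.b, M.d)) *
          (if zr (res p Q) M then (1 : ℝ) else 0)) := by
        refine Finset.sum_le_sum fun M hM => ?_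
        rw [← sub_mul, abs_mul, ← add_mul]
        have h0 : (0 : ℝ) ≤ (if zr (res p Q) M then (1 : ℝ) else 0) := by split_ifs <;> norm_num
        rw [abs_of_nonneg h0]
        exact mul_le_mul_of_nonneg_right (hpt M hM) h0
    _ = 8 * L * C0 ^ 2 / m * ∑ M ∈ A, (if zr (res p Q) M then (1 : ℝ) else 0) +
        ∑ M ∈ A, (ms (gr F G Q S) (M.a, M.c) + ms (gr F G Q S) (M.b, M.d)) *
          (if zr (res p Q) M then (1 : ℝ) else 0) := by
        rw [Finset.sum_add_distrib, Finset.mul_sum]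
    _ ≤ (1 + K1 * (8 * L * C0 ^ 2)) / m +
        ∑ M ∈ A, (ms (gr F G Q S) (M.a, M.c) + ms (gr F G Q S) (M.b, M.d)) *
          (if zr (res p Q) M then (1 : ℝ) else 0) := by
        have hE : 0 ≤ 8 * L * C0 ^ 2 / m := by positivity
        have h1 := mul_le_mul_of_nonneg_left hcnt hE
        have h2 : 8 * L * C0 ^ 2 / m * K1 ≤ (1 + K1 * (8 * L * C0 ^ 2)) / m := by
          rw [div_mul_eq_mul_div, div_le_div_iff_of_pos_right hm0]
          linarith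
        linarith

end

end Pool.Agent.Lib.MP_0b748d_nt.HH
end

section

set_option autoImplicit false

/-!
# Assembly: the averages over forms vanish in the limit
-/

namespace Pool.Agent.Lib.MP_0b748d_nt.HH

open Filter Topology MR

noncomputable section

private theorem coprime_of_dv {P c : ℕ} (hcP : c < P) {v w : ℕ × ℕ} (hv : v ∈ Bv c)
    (h : (dv v w).toNat ∈ PP P) : Nat.Coprime v.1 v.2 := by
  have hp := (PP_prime_ne h).1
  have hle := (PP_mem_iff.1 h).1.1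
  have hpos : 0 < (dv v w).toNat := hp.pos
  have h0 : 0 < dv v w := by omega
  have h2 : ((dv v w).toNat : ℤ) = dv v w := Int.toNat_of_nonneg h0.le
  have hd : (Nat.gcd v.1 v.2) ∣ (dv v w).toNat := by
    have h3 : ((Nat.gcd v.1 v.2 : ℕ) : ℤ) ∣ dv v w := by
      unfold dv
      refine dvd_sub (Dvd.dvd.mul_right ?_ _) (Dvd.dvd.mul_right ?_ _)
      · exact_mod_cast Nat.gcd_dvd_left v.1 v.2
      · exact_mod_cast Nat.gcd_dvd_right v.1 v.2
    rw [← h2] at h3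
    exact_mod_cast h3
  rcases (Nat.dvd_prime hp).1 hd with h3 | h3
  · exact h3
  · exfalso
    unfold Bv at hv
    rw [Finset.mem_product, Finset.mem_range, Finset.mem_range] at hv
    have h4 : P ≤ Nat.gcd v.1 v.2 := by rw [h3]; exact hle
    have h5 : v.1 = 0 := by
      by_contra h6
      have := Nat.le_of_dvd (Nat.pos_of_ne_zero h6) (Nat.gcd_dvd_left v.1 v.2)
      omega
    have h6 : v.2 = 0 := by
      by_contra h6
      have := Nat.le_of_dvd (Nat.pos_of_ne_zero h6) (Nat.gcd_dvd_right v.1 v.2)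
      omega
    unfold dv at h0
    rw [h5, h6] at h0
    simp at h0

open Classical in
/-- Main term for one cell: the sum over `p ∈ PP P` and `M ∈ Bx c` is the double sum over `v, w` of
`bilinear` with `f = lk1 a` restricted to primitive vectors (a vector with prime determinant
`p ≥ P > c` is primitive), `h = lk2 a`, `κ = Kz` (`Kz_Lk`) and coefficients
`c m = γ m * qp m * P / 2`, `|c m| ≤ 1`. -/
theorem main_cell (L C0 ε : ℝ) (hL : 0 ≤ L) (hC0 : 1 ≤ C0) (hε : 0 < ε) :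
    ∃ (η : ℝ) (W0 P0 : ℕ), 0 < η ∧ 1 ≤ W0 ∧ ∀ (a b : ℝ) (W : ℝ → ℝ → ℝ), Wt a b L W →
    ∀ (s m P c : ℕ), 1 ≤ m → P0 ≤ P → (c : ℝ) ≤ C0 * √P → ∀ g : ℕ × ℕ × ℕ,
    g.1 ≤ 2 * m → g.2.1 ≤ 2 * m → g.2.2 ≤ 2 * m → ∀ γ : ℕ → ℤ, (∀ p, γ p = 1 ∨ γ p = -1) →
    ∀ x : Pt, (∀ v, |lk1 x v| ≤ 1) → (∀ v, |lk2 x v| ≤ 1) →
    Sm W0 η P c (fun v => if Nat.Coprime v.1 v.2 then lk1 x v else 0) →
    |∑ p ∈ PP P, ∑ M ∈ (Bx c).filter (fun M => M.Dt p), γ p * qp p *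
      (Kz W s m (some g) p (M.a, M.c) (M.b, M.d) * lk1 x (M.a, M.c) * lk2 x (M.b, M.d))| ≤
      ε * P / Real.log P := by
  obtain ⟨C1, hC1, hLk⟩ := Kz_Lk L C0 hL hC0
  obtain ⟨η, W0, P0, hη, hW0, hB⟩ := bilinear C1 (ε / 2) (hC0.trans hC1) (by positivity)
  refine ⟨η, W0, max P0 (⌈C0 ^ 2⌉₊ + 3), hη, hW0, ?_⟩
  intro a b W hW s m P c hm hP hc g hg1 hg2 hg3 γ hγ x hx1 hx2 hSm
  have hP1 : P0 ≤ P := (le_max_left _ _).trans hP
  have hP2 : ⌈C0 ^ 2⌉₊ + 3 ≤ P := (le_max_right _ _).trans hP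
  have hP0 : (0 : ℝ) < P := by
    have : 0 < P := by omega
    exact_mod_cast this
  have hlog : 0 < Real.log P := Real.log_pos (by exact_mod_cast (by omega : 1 < P))
  have hcP : c < P := by
    have h1 : C0 ^ 2 < P := by
      have h2 := Nat.le_ceil (C0 ^ 2)
      have h3 : ((⌈C0 ^ 2⌉₊ + 3 : ℕ) : ℝ) ≤ P := by exact_mod_cast hP2
      push_cast at h3
      linarith
    have h2 : C0 < √P := by
      rw [Real.lt_sqrt (by linarith)]
      exact h1
    have h3 : (c : ℝ) < P := by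
      calc (c : ℝ) ≤ C0 * √P := hc
        _ < √P * √P := mul_lt_mul_of_pos_right h2 (Real.sqrt_pos.2 hP0)
        _ = P := Real.mul_self_sqrt hP0.le
    exact_mod_cast h3
  set c' : ℕ → ℝ := fun n => if n ∈ PP P then γ n * qp n * (P / 2) else 0 with hc'
  have hc'1 : ∀ n, |c' n| ≤ 1 := by
    intro n
    simp only [hc']
    by_cases h : n ∈ PP P
    · rw [if_pos h]
      have hp := PP_prime_ne h
      have hle : (P : ℝ) ≤ n := by exact_mod_cast (PP_mem_iff.1 h).1.1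
      obtain ⟨hq0, hq1⟩ := qp_le hp.1 hp.2
      have hg : |(γ n : ℝ)| = 1 := by
        rcases hγ n with h1 | h1 <;> rw [h1] <;> norm_num
      rw [abs_mul, abs_mul, hg, abs_of_nonneg hq0, abs_of_pos (by positivity : (0 : ℝ) < P / 2),
        one_mul]
      calc qp n * (P / 2) ≤ (2 / n) * (P / 2) := mul_le_mul_of_nonneg_right hq1 (by positivity)
        _ = P / n := by
            have : (0 : ℝ) < n := lt_of_lt_of_le hP0 hle
            field_simp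
        _ ≤ 1 := by
            have : (0 : ℝ) < n := lt_of_lt_of_le hP0 hle
            rw [div_le_one this]
            exact hle
    · rw [if_neg h]
      norm_num
  have hb := hB P c hP1 (hc.trans (mul_le_mul_of_nonneg_right hC1 (Real.sqrt_nonneg _)))
    (fun v w => Kz W s m (some g) (max (dv v w : ℝ) P) v w)
    (hLk a b W hW s m P c hm (by omega) hc g hg1 hg2 hg3) c' hc'1
    (fun v => if Nat.Coprime v.1 v.2 then lk1 x v else 0) (fun v => lk2 x v)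
    (fun v => by
      by_cases h : Nat.Coprime v.1 v.2
      · simp only [if_pos h]
        exact hx1 v
      · simp only [if_neg h]
        norm_num) hx2 hSm
  rw [sum_PP_pairs (fun p M => γ p * qp p *
      (Kz W s m (some g) p (M.a, M.c) (M.b, M.d) * lk1 x (M.a, M.c) * lk2 x (M.b, M.d)))]
  have hkey : (∑ v ∈ Bv c, ∑ w ∈ Bv c, if (dv v w).toNat ∈ PP P then
      (fun (p : ℕ) (M : Mt) => (γ p : ℝ) * qp p *
        (Kz W s m (some g) p (M.a, M.c) (M.b, M.d) * lk1 x (M.a, M.c) * lk2 x (M.b, M.d)))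
        (dv v w).toNat ⟨v.1, w.1, v.2, w.2⟩ else 0) =
      (2 / P) * ∑ v ∈ Bv c, ∑ w ∈ Bv c,
        (if Nat.Coprime v.1 v.2 then lk1 x v else 0) * lk2 x w *
          Kz W s m (some g) (max (dv v w : ℝ) P) v w *
          (if (dv v w).toNat ∈ PP P then c' (dv v w).toNat else 0) := by
    rw [Finset.mul_sum]
    refine Finset.sum_congr rfl fun v hv => ?_
    rw [Finset.mul_sum]
    refine Finset.sum_congr rfl fun w hw => ?_
    by_cases h : (dv v w).toNat ∈ PP P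
    · have hp := (PP_prime_ne h).1
      have hle := (PP_mem_iff.1 h).1.1
      have hpos : 0 < (dv v w).toNat := hp.pos
      have h0 : 0 < dv v w := by omega
      have h2 : ((dv v w).toNat : ℤ) = dv v w := Int.toNat_of_nonneg h0.le
      have h3 : (((dv v w).toNat : ℕ) : ℝ) = (dv v w : ℝ) := by exact_mod_cast h2
      have h4 : max (dv v w : ℝ) P = (dv v w : ℝ) := by
        refine max_eq_left ?_
        rw [← h3]
        exact_mod_cast hle
      have h5 := coprime_of_dv hcP hv h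
      rw [if_pos h, if_pos h, if_pos h5, h4]
      simp only [hc', if_pos h]
      rw [h3]
      field_simp
    · rw [if_neg h, if_neg h]
      simp
  rw [hkey, abs_mul, abs_of_pos (by positivity : (0 : ℝ) < 2 / P)]
  rw [le_div_iff₀ hlog]
  calc 2 / (P : ℝ) * |∑ v ∈ Bv c, ∑ w ∈ Bv c,
        (if Nat.Coprime v.1 v.2 then lk1 x v else 0) * lk2 x w *
          Kz W s m (some g) (max (dv v w : ℝ) P) v w *
          (if (dv v w).toNat ∈ PP P then c' (dv v w).toNat else 0)| * Real.log P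
      = 2 / (P : ℝ) * (|∑ v ∈ Bv c, ∑ w ∈ Bv c,
        (if Nat.Coprime v.1 v.2 then lk1 x v else 0) * lk2 x w *
          Kz W s m (some g) (max (dv v w : ℝ) P) v w *
          (if (dv v w).toNat ∈ PP P then c' (dv v w).toNat else 0)| * Real.log P) := by ring
    _ ≤ 2 / (P : ℝ) * (ε / 2 * P ^ 2) := mul_le_mul_of_nonneg_left hb (by positivity)
    _ = ε * P := by field_simp

/-- If `f` and `f'` differ in at most `ε P` vectors of the box (by at most `1` each) then `Sm` for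
`f'` gives `Sm` for `f`. -/
theorem Sm_of_close (W : ℕ) (η ε : ℝ) (P b : ℕ) (f f' : ℕ × ℕ → ℝ) (h : Sm W η P b f')
    (hff : ∑ v ∈ Bv b, |f v - f' v| ≤ ε * P) (hε : 0 ≤ ε) : Sm W (η + ε) P b f := by
  classical
  obtain ⟨piece, h1, h2⟩ := h
  refine ⟨piece, fun v hv v' hv' hp => ?_, ?_⟩
  · obtain ⟨h3, h4⟩ := h1 v hv v' hv' hp
    have h5 : η * √P ≤ (η + ε) * √P :=
      mul_le_mul_of_nonneg_right (by linarith) (Real.sqrt_nonneg _)
    exact ⟨h3.trans h5, h4.trans h5⟩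
  · have h3 : ∑ j ∈ (Bv b).image piece, ∑ r ∈ Finset.range W ×ˢ Finset.range W,
        ∑ v ∈ (Bv b).filter (fun v => piece v = j ∧ v.1 % W = r.1 ∧ v.2 % W = r.2), |f v - f' v| ≤
        ∑ v ∈ Bv b, |f v - f' v| := by
      have h4 := Finset.sum_fiberwise_le_sum_of_sum_fiber_nonneg (s := Bv b)
        (t := (Bv b).image piece ×ˢ (Finset.range W ×ˢ Finset.range W))
        (g := fun v => (piece v, (v.1 % W, v.2 % W))) (f := fun v => |f v - f' v|)
        (fun y _ => Finset.sum_nonneg fun v _ => abs_nonneg _)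
      refine le_trans (le_of_eq ?_) h4
      rw [Finset.sum_product]
      refine Finset.sum_congr rfl fun j _ => Finset.sum_congr rfl fun r _ => ?_
      refine Finset.sum_congr ?_ fun _ _ => rfl
      ext v
      simp only [Finset.mem_filter, Prod.ext_iff]
    calc ∑ j ∈ (Bv b).image piece, ∑ r ∈ Finset.range W ×ˢ Finset.range W,
        |∑ v ∈ (Bv b).filter (fun v => piece v = j ∧ v.1 % W = r.1 ∧ v.2 % W = r.2), f v|
        ≤ ∑ j ∈ (Bv b).image piece, ∑ r ∈ Finset.range W ×ˢ Finset.range W,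
          (|∑ v ∈ (Bv b).filter (fun v => piece v = j ∧ v.1 % W = r.1 ∧ v.2 % W = r.2), f' v| +
          ∑ v ∈ (Bv b).filter (fun v => piece v = j ∧ v.1 % W = r.1 ∧ v.2 % W = r.2),
            |f v - f' v|) := by
          refine Finset.sum_le_sum fun j _ => Finset.sum_le_sum fun r _ => ?_
          have h4 : ∑ v ∈ (Bv b).filter (fun v => piece v = j ∧ v.1 % W = r.1 ∧ v.2 % W = r.2),
              f v = ∑ v ∈ (Bv b).filter (fun v => piece v = j ∧ v.1 % W = r.1 ∧ v.2 % W = r.2),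
              f' v + ∑ v ∈ (Bv b).filter (fun v => piece v = j ∧ v.1 % W = r.1 ∧ v.2 % W = r.2),
              (f v - f' v) := by
            rw [← Finset.sum_add_distrib]
            exact Finset.sum_congr rfl fun v _ => by ring
          rw [h4]
          exact (abs_add_le _ _).trans (add_le_add le_rfl (Finset.abs_sum_le_sum_abs _ _))
      _ = ∑ j ∈ (Bv b).image piece, ∑ r ∈ Finset.range W ×ˢ Finset.range W,
          |∑ v ∈ (Bv b).filter (fun v => piece v = j ∧ v.1 % W = r.1 ∧ v.2 % W = r.2), f' v| +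
          ∑ j ∈ (Bv b).image piece, ∑ r ∈ Finset.range W ×ˢ Finset.range W,
          ∑ v ∈ (Bv b).filter (fun v => piece v = j ∧ v.1 % W = r.1 ∧ v.2 % W = r.2),
            |f v - f' v| := by
          simp only [Finset.sum_add_distrib]
      _ ≤ η * P + ε * P := add_le_add h2 (h3.trans hff)
      _ = (η + ε) * P := by ring

end

end Pool.Agent.Lib.MP_0b748d_nt.HH
end

section

set_option autoImplicit false

/-!
# From window means to pieces of cells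
-/

namespace Pool.Agent.Lib.MP_0b748d_nt.HH

open Zsqrtd MeasureTheory

noncomputable section

/-- averaging over shifts of a grid: `∫_0^h ∑_{k < K} g (t + k h) dt = ∫_0^{K h} g` -/
theorem exists_shift (g : ℝ → ℝ) (hg : Measurable g) (h0 : ∀ θ, 0 ≤ g θ) (C : ℝ)
    (hC : ∀ θ, g θ ≤ C) (h : ℝ) (hh : 0 < h) (K : ℕ) :
    ∃ t : ℝ, 0 ≤ t ∧ t < h ∧ ∑ k ∈ Finset.range K, g (t + k * h) ≤
      (1 / h) * ∫ θ in (0 : ℝ)..(K * h), g θ := by
  have hint : ∀ a b : ℝ, IntervalIntegrable g volume a b := by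
    intro a b
    rw [intervalIntegrable_iff]
    refine Measure.integrableOn_of_bounded (M := C) ?_ hg.aestronglyMeasurable ?_
    · exact (measure_Ioc_lt_top (a := min a b) (b := max a b)).ne
    · refine Filter.Eventually.of_forall fun θ => ?_
      rw [Real.norm_of_nonneg (h0 θ)]
      exact hC θ
  have hk : ∀ k : ℕ, ∫ θ in (0 : ℝ)..h, g (θ + k * h)
      = ∫ θ in ((k : ℕ) : ℝ) * h..((k + 1 : ℕ) : ℝ) * h, g θ := by
    intro k
    rw [intervalIntegral.integral_comp_add_right (fun θ => g θ) ((k : ℝ) * h)]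
    congr 1
    · ring
    · push_cast; ring
  have hik : ∀ k ∈ Finset.range K, IntervalIntegrable (fun θ => g (θ + k * h)) volume 0 h := by
    intro k _
    have := (hint (k * h) (h + k * h)).comp_add_right ((k : ℝ) * h)
    simpa using this
  have hsum : ∫ θ in (0 : ℝ)..h, ∑ k ∈ Finset.range K, g (θ + k * h)
      = ∫ θ in (0 : ℝ)..(K * h), g θ := by
    rw [intervalIntegral.integral_finsetSum hik, Finset.sum_congr rfl fun k _ => hk k,
      intervalIntegral.sum_integral_adjacent_intervals (a := fun k : ℕ => (k : ℝ) * h)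
        (fun k _ => hint _ _)]
    simp
  have hvol : volume (Set.Ico (0 : ℝ) h) = ENNReal.ofReal h := by
    rw [Real.volume_Ico, sub_zero]
  have hiS : IntegrableOn (fun θ => ∑ k ∈ Finset.range K, g (θ + k * h)) (Set.Ico (0 : ℝ) h) volume := by
    refine Measure.integrableOn_of_bounded (M := K * C) ?_ ?_ ?_
    · rw [hvol]; exact ENNReal.ofReal_ne_top
    · exact (Finset.measurable_fun_sum _ fun k _ =>
        hg.comp (measurable_id.add_const _)).aestronglyMeasurable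
    · refine Filter.Eventually.of_forall fun θ => ?_
      rw [Real.norm_of_nonneg (Finset.sum_nonneg fun k _ => h0 _)]
      calc ∑ k ∈ Finset.range K, g (θ + k * h) ≤ ∑ _k ∈ Finset.range K, C :=
            Finset.sum_le_sum fun k _ => hC _
        _ = K * C := by rw [Finset.sum_const, Finset.card_range, nsmul_eq_mul]
  obtain ⟨t, ht, hle⟩ := exists_le_setAverage (μ := volume)
    (by rw [hvol]; exact (ENNReal.ofReal_pos.2 hh).ne') (by rw [hvol]; exact ENNReal.ofReal_ne_top) hiS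
  refine ⟨t, ht.1, ht.2, hle.trans (le_of_eq ?_)⟩
  rw [setAverage_eq, ← hsum, intervalIntegral.integral_of_le hh.le, integral_Ico_eq_integral_Ioo,
    integral_Ioc_eq_integral_Ioo, smul_eq_mul, Measure.real, hvol, ENNReal.toReal_ofReal hh.le, one_div]

end

end Pool.Agent.Lib.MP_0b748d_nt.HH
end
end
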