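import Pool.Agent.Lib.MP_0b748d_nt.HH.ExC
import Pool.Agent.Lib.MP_0b748d_nt.Cover
import Pool.Agent.Lib.MP_0b748d_nt.HH.DE13
import Pool.Agent.Lib.MP_0b748d_nt.HH.ExF
import Pool.Agent.Lib.MP_0b748d_nt.HH.PrimeF
import Pool.Agent.Lib.MP_0b748d_nt.HH.AsmC
import Pool.Agent.Lib.MP_0b748d_nt.HH.AsmD
import Pool.Agent.Lib.MP_0b748d_nt.HH.AsmE
import Pool.Agent.Lib.MP_0b748d_nt.HH.DecF

section

set_option autoImplicit false

/-!
# From window means to pieces of cells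
-/

namespace Pool.Agent.Lib.MP_0b748d_nt.HH

open Zsqrtd MeasureTheory

noncomputable section

private theorem exb_re (x y : ℤ√2) (v : ℕ × ℕ) :
    (zv x y v).re = (v.1 : ℤ) * x.re + (v.2 : ℤ) * y.re := by
  simp [zv, Zsqrtd.re_add, Zsqrtd.re_mul]

private theorem exb_im (x y : ℤ√2) (v : ℕ × ℕ) :
    (zv x y v).im = (v.1 : ℤ) * x.im + (v.2 : ℤ) * y.im := by
  simp [zv, Zsqrtd.im_add, Zsqrtd.im_mul]

/-- coordinates in a basis of determinant one are unique and integral -/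
theorem zv_class {x y : ℤ√2} (h : Fr x y) (W : ℕ) (v r : ℕ × ℕ) :
    ((W : ℤ) ∣ (zv x y v).re - (zv x y r).re ∧ (W : ℤ) ∣ (zv x y v).im - (zv x y r).im) ↔
      ((W : ℤ) ∣ (v.1 : ℤ) - r.1 ∧ (W : ℤ) ∣ (v.2 : ℤ) - r.2) := by
  have hd : x.re * y.im - x.im * y.re = 1 := h.dt
  rw [exb_re, exb_re, exb_im, exb_im]
  constructor
  · rintro ⟨h1, h2⟩
    constructor
    · have e : (v.1 : ℤ) - r.1 =
          y.im * (((v.1 : ℤ) * x.re + (v.2 : ℤ) * y.re) - ((r.1 : ℤ) * x.re + (r.2 : ℤ) * y.re)) -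
          y.re * (((v.1 : ℤ) * x.im + (v.2 : ℤ) * y.im) - ((r.1 : ℤ) * x.im + (r.2 : ℤ) * y.im)) := by
        linear_combination (-((v.1 : ℤ) - r.1)) * hd
      rw [e]
      exact dvd_sub (Dvd.dvd.mul_left h1 _) (Dvd.dvd.mul_left h2 _)
    · have e : (v.2 : ℤ) - r.2 =
          x.re * (((v.1 : ℤ) * x.im + (v.2 : ℤ) * y.im) - ((r.1 : ℤ) * x.im + (r.2 : ℤ) * y.im)) -
          x.im * (((v.1 : ℤ) * x.re + (v.2 : ℤ) * y.re) - ((r.1 : ℤ) * x.re + (r.2 : ℤ) * y.re)) := by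
        linear_combination (-((v.2 : ℤ) - r.2)) * hd
      rw [e]
      exact dvd_sub (Dvd.dvd.mul_left h2 _) (Dvd.dvd.mul_left h1 _)
  · rintro ⟨h1, h2⟩
    constructor
    · have e : ((v.1 : ℤ) * x.re + (v.2 : ℤ) * y.re) - ((r.1 : ℤ) * x.re + (r.2 : ℤ) * y.re) =
          x.re * ((v.1 : ℤ) - r.1) + y.re * ((v.2 : ℤ) - r.2) := by ring
      rw [e]
      exact dvd_add (Dvd.dvd.mul_left h1 _) (Dvd.dvd.mul_left h2 _)
    · have e : ((v.1 : ℤ) * x.im + (v.2 : ℤ) * y.im) - ((r.1 : ℤ) * x.im + (r.2 : ℤ) * y.im) =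
          x.im * ((v.1 : ℤ) - r.1) + y.im * ((v.2 : ℤ) - r.2) := by ring
      rw [e]
      exact dvd_add (Dvd.dvd.mul_left h1 _) (Dvd.dvd.mul_left h2 _)

theorem zv_prim {x y : ℤ√2} (h : Fr x y) (v : ℕ × ℕ) : Prim (zv x y v) ↔ Nat.Coprime v.1 v.2 := by
  have hd : x.re * y.im - x.im * y.re = 1 := h.dt
  rw [← Nat.isCoprime_iff_coprime]
  show IsCoprime (zv x y v).re (zv x y v).im ↔ _
  rw [exb_re, exb_im]
  constructor
  · rintro ⟨p, q, hpq⟩
    exact ⟨p * x.re + q * x.im, p * y.re + q * y.im, by linear_combination hpq⟩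
  · rintro ⟨u, w, huw⟩
    exact ⟨u * y.im - w * x.im, w * x.re - u * y.re, by
      linear_combination huw + (u * v.1 + w * v.2) * hd⟩

end

end Pool.Agent.Lib.MP_0b748d_nt.HH
end

section

set_option autoImplicit false

/-!
# Small averages of the Liouville function in angular windows with congruences (interface D)
-/

namespace Pool.Agent.Lib.MP_0b748d_nt.HH

open Zsqrtd MR MeasureTheory

noncomputable section

/-- **Interface D** (helper23): mean values over windows -/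
theorem window_mean (c W : ℕ) (hW : 1 ≤ W) (ε : ℝ) (hε : 0 < ε) : ∃ l0 : ℝ, 1 ≤ l0 ∧
    ∀ l : ℝ, l0 ≤ l → ∃ X0 : ℝ, l ≤ X0 ∧ ∀ X : ℝ, X0 ≤ X → ∀ r s : ℤ,
    ∫ θ in (0 : ℝ)..1, |∑ z ∈ Wz W r s X θ (l / X), (Fl c (nm z).toNat : ℝ)| ≤ ε * l :=
  HD.window_main c W hW ε hε

end

end Pool.Agent.Lib.MP_0b748d_nt.HH
end

section

set_option autoImplicit false

/-!
# From window means to pieces of cells
-/

namespace Pool.Agent.Lib.MP_0b748d_nt.HH

open Zsqrtd MR MeasureTheory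

noncomputable section

/-- bounded measurable functions are interval integrable -/
private theorem exG_int (f : ℝ → ℝ) (hf : Measurable f) (C : ℝ) (hC : ∀ θ, |f θ| ≤ C) (a b : ℝ) :
    IntervalIntegrable f volume a b := by
  refine (intervalIntegrable_const (c := C)).mono_fun' hf.aestronglyMeasurable ?_
  exact Filter.Eventually.of_forall (fun θ => by simpa using hC θ)

/-- `window_mean`, `Wz_period` (positions in `[0, 2]`), `exists_shift` for the sum `g` over the shells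
`i ≤ I` and all classes; `l_i = ρ ^ i * 7 C0² P η2`, `Y_i = ρ ^ i * 7 C0² P T`, `h = l_i / Y_i = η2 / T`. -/
theorem grid_mean (c W : ℕ) (hW : 1 ≤ W) (C0 ρ η2 ε : ℝ) (hC0 : 1 ≤ C0) (hρ : 0 < ρ) (hρ1 : ρ < 1)
    (hη2 : 0 < η2) (hε : 0 < ε) (I : ℕ) : ∃ P1 : ℕ, ∀ P : ℕ, P1 ≤ P → ∃ T1 : ℝ, 2 ≤ T1 ∧
    ∀ T : ℝ, T1 ≤ T → ∃ t : ℝ, 0 ≤ t ∧ t < η2 / T ∧ ∀ K : ℕ, (K : ℝ) * (η2 / T) ≤ 2 →
      ∑ k ∈ Finset.range K, ∑ i ∈ Finset.range (I + 1), ∑ r ∈ Finset.range W ×ˢ Finset.range W,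
        |∑ z ∈ Wz W r.1 r.2 (ρ ^ i * (7 * C0 ^ 2 * P * T)) (t + k * (η2 / T)) (η2 / T),
          (Fl c (nm z).toNat : ℝ)| ≤ ε * P * T := by
  have hWr : (1 : ℝ) ≤ W := by exact_mod_cast hW
  have hC00 : 0 < C0 := by linarith
  have hI0 : (0 : ℝ) < (I : ℝ) + 1 := by positivity
  obtain ⟨D, hD⟩ : ∃ D : ℝ, D = 14 * ((I : ℝ) + 1) * (W : ℝ) ^ 2 * C0 ^ 2 := ⟨_, rfl⟩
  have hD0 : 0 < D := by rw [hD]; positivity
  obtain ⟨l0, hl0, H⟩ := window_mean c W hW (ε / D) (by positivity)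
  choose! X0 hX0l hX0 using H
  have hρI : 0 < ρ ^ I := pow_pos hρ I
  have hρi : ∀ i ∈ Finset.range (I + 1), ρ ^ I ≤ ρ ^ i ∧ ρ ^ i ≤ 1 := by
    intro i hi
    rw [Finset.mem_range] at hi
    exact ⟨pow_le_pow_of_le_one hρ.le hρ1.le (by omega), pow_le_one₀ hρ.le hρ1.le⟩
  refine ⟨⌈l0 / (ρ ^ I * (7 * C0 ^ 2 * η2))⌉₊ + 1, fun P hP => ?_⟩
  have hP0 : (0 : ℝ) < P := by
    have : 1 ≤ P := by omega
    exact_mod_cast this
  have hPl : l0 ≤ ρ ^ I * (7 * C0 ^ 2 * P * η2) := by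
    have h1 : l0 / (ρ ^ I * (7 * C0 ^ 2 * η2)) ≤ P := by
      refine (Nat.le_ceil _).trans ?_
      exact_mod_cast (by omega : ⌈l0 / (ρ ^ I * (7 * C0 ^ 2 * η2))⌉₊ ≤ P)
    rw [div_le_iff₀ (by positivity)] at h1
    linarith
  obtain ⟨l, hl⟩ : ∃ l : ℕ → ℝ, l = fun i => ρ ^ i * (7 * C0 ^ 2 * P * η2) := ⟨_, rfl⟩
  have hll : ∀ i ∈ Finset.range (I + 1), l0 ≤ l i := by
    intro i hi
    refine hPl.trans ?_
    rw [hl]
    exact mul_le_mul_of_nonneg_right (hρi i hi).1 (by positivity)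
  obtain ⟨M, hM⟩ : ∃ M : ℝ, M = ∑ i ∈ Finset.range (I + 1), |X0 (l i)| := ⟨_, rfl⟩
  have hMi : ∀ i ∈ Finset.range (I + 1), X0 (l i) ≤ M := by
    intro i hi
    rw [hM]
    exact (le_abs_self _).trans
      (Finset.single_le_sum (f := fun i => |X0 (l i)|) (fun j _ => abs_nonneg _) hi)
  refine ⟨max 2 (max (2 * η2) (M / (ρ ^ I * (7 * C0 ^ 2 * P)))), le_max_left _ _, fun T hT => ?_⟩
  have hT2 : 2 ≤ T := (le_max_left _ _).trans hT
  have hT3 : 2 * η2 ≤ T := ((le_max_left _ _).trans (le_max_right _ _)).trans hT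
  have hT4 : M / (ρ ^ I * (7 * C0 ^ 2 * P)) ≤ T :=
    ((le_max_right _ _).trans (le_max_right _ _)).trans hT
  have hT0 : 0 < T := by linarith
  rw [div_le_iff₀ (by positivity)] at hT4
  obtain ⟨h, hh⟩ : ∃ h : ℝ, h = η2 / T := ⟨_, rfl⟩
  have hh0 : 0 < h := by rw [hh]; positivity
  have hh1 : h ≤ 1 / 2 := by
    rw [hh, div_le_div_iff₀ hT0 (by norm_num)]
    linarith
  obtain ⟨Y, hY⟩ : ∃ Y : ℕ → ℝ, Y = fun i => ρ ^ i * (7 * C0 ^ 2 * P * T) := ⟨_, rfl⟩
  have hYX : ∀ i ∈ Finset.range (I + 1), X0 (l i) ≤ Y i := by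
    intro i hi
    refine (hMi i hi).trans ?_
    have h1 : ρ ^ I * (7 * C0 ^ 2 * P * T) ≤ ρ ^ i * (7 * C0 ^ 2 * P * T) :=
      mul_le_mul_of_nonneg_right (hρi i hi).1 (by positivity)
    rw [hY]
    show M ≤ ρ ^ i * (7 * C0 ^ 2 * P * T)
    linarith
  have hlY : ∀ i, l i / Y i = h := by
    intro i
    rw [hl, hY, hh]
    have := (pow_pos hρ i).ne'
    field_simp
  rw [← hh]
  obtain ⟨f, hf⟩ : ∃ f : ℕ → ℕ × ℕ → ℝ → ℝ, f = fun i r θ =>
    |∑ z ∈ Wz W r.1 r.2 (Y i) θ h, (Fl c (nm z).toNat : ℝ)| := ⟨_, rfl⟩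
  have hfm : ∀ i r, Measurable (f i r) := by
    intro i r
    rw [hf]
    exact (Wz_measurable c W r.1 r.2 (Y i) h).1
  have hf0 : ∀ i r θ, 0 ≤ f i r θ := by
    intro i r θ
    rw [hf]
    exact abs_nonneg _
  have hfC : ∀ i r, ∃ C : ℝ, ∀ θ, f i r θ ≤ C := by
    intro i r
    obtain ⟨C, hC⟩ := (Wz_measurable c W r.1 r.2 (Y i) h).2
    exact ⟨C, fun θ => by rw [hf]; exact hC θ⟩
  choose C hC using hfC
  have hfi : ∀ i r a b, IntervalIntegrable (f i r) volume a b := by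
    intro i r a b
    exact exG_int _ (hfm i r) (C i r) (fun θ => by rw [abs_of_nonneg (hf0 i r θ)]; exact hC i r θ) a b
  obtain ⟨g, hg⟩ : ∃ g : ℝ → ℝ, g = fun θ => ∑ i ∈ Finset.range (I + 1),
    ∑ r ∈ Finset.range W ×ˢ Finset.range W, f i r θ := ⟨_, rfl⟩
  have hgm : Measurable g := by
    rw [hg]
    exact Finset.measurable_fun_sum _ (fun i _ => Finset.measurable_fun_sum _ (fun r _ => hfm i r))
  have hg0 : ∀ θ, 0 ≤ g θ := by
    intro θ
    rw [hg]
    exact Finset.sum_nonneg (fun i _ => Finset.sum_nonneg (fun r _ => hf0 i r θ))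
  have hgC : ∀ θ, g θ ≤ ∑ i ∈ Finset.range (I + 1),
      ∑ r ∈ Finset.range W ×ˢ Finset.range W, C i r := by
    intro θ
    rw [hg]
    exact Finset.sum_le_sum (fun i _ => Finset.sum_le_sum (fun r _ => hC i r θ))
  have hgi : ∀ a b, IntervalIntegrable g volume a b := fun a b =>
    exG_int g hgm _ (fun θ => by rw [abs_of_nonneg (hg0 θ)]; exact hgC θ) a b
  have hper : ∀ θ, 0 ≤ θ → θ ≤ 1 → g (θ + 1) = g θ := by
    intro θ h1 h2
    rw [hg, hf]
    exact Finset.sum_congr rfl (fun i _ => Wz_period c W hW (Y i) θ h h1 h2 hh0 hh1)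
  have hint1 : ∫ θ in (0 : ℝ)..1, g θ ≤ ε / D * (((I : ℝ) + 1) * (W : ℝ) ^ 2 *
      (7 * C0 ^ 2 * P * η2)) := by
    have e1 : ∫ θ in (0 : ℝ)..1, g θ = ∑ i ∈ Finset.range (I + 1),
        ∑ r ∈ Finset.range W ×ˢ Finset.range W, ∫ θ in (0 : ℝ)..1, f i r θ := by
      rw [hg, intervalIntegral.integral_finsetSum]
      · refine Finset.sum_congr rfl (fun i _ => ?_)
        rw [intervalIntegral.integral_finsetSum]
        exact fun r _ => hfi i r 0 1
      · intro i _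
        have := IntervalIntegrable.sum (μ := volume) (a := 0) (b := 1)
          (Finset.range W ×ˢ Finset.range W) (f := fun r => f i r) (fun r _ => hfi i r 0 1)
        refine this.congr (fun θ _ => ?_)
        exact Finset.sum_apply θ _ _
    have e2 : ∀ i ∈ Finset.range (I + 1), ∀ r ∈ Finset.range W ×ˢ Finset.range W,
        ∫ θ in (0 : ℝ)..1, f i r θ ≤ ε / D * (7 * C0 ^ 2 * P * η2) := by
      intro i hi r _
      have h1 := hX0 (l i) (hll i hi) (Y i) (hYX i hi) r.1 r.2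
      rw [hlY] at h1
      rw [hf]
      refine h1.trans ?_
      have h2 : l i ≤ 7 * C0 ^ 2 * P * η2 := by
        rw [hl]
        show ρ ^ i * (7 * C0 ^ 2 * P * η2) ≤ _
        have := mul_le_mul_of_nonneg_right (hρi i hi).2
          (by positivity : 0 ≤ 7 * C0 ^ 2 * P * η2)
        linarith
      exact mul_le_mul_of_nonneg_left h2 (by positivity)
    rw [e1]
    calc _ ≤ ∑ i ∈ Finset.range (I + 1), ∑ r ∈ Finset.range W ×ˢ Finset.range W,
          ε / D * (7 * C0 ^ 2 * P * η2) :=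
        Finset.sum_le_sum (fun i hi => Finset.sum_le_sum (fun r hr => e2 i hi r hr))
      _ = _ := by
        simp only [Finset.sum_const, Finset.card_range, Finset.card_product, nsmul_eq_mul]
        push_cast
        ring
  have hint2 : ∫ θ in (0 : ℝ)..2, g θ = 2 * ∫ θ in (0 : ℝ)..1, g θ := by
    have e1 : ∫ θ in (1 : ℝ)..2, g θ = ∫ θ in (0 : ℝ)..1, g θ := by
      have e2 : ∫ θ in (0 : ℝ)..1, g (θ + 1) = ∫ θ in (0 + 1 : ℝ)..(1 + 1), g θ :=
        intervalIntegral.integral_comp_add_right g 1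
      have e3 : ∫ θ in (0 : ℝ)..1, g (θ + 1) = ∫ θ in (0 : ℝ)..1, g θ := by
        apply intervalIntegral.integral_congr
        intro θ hθ
        rw [Set.uIcc_of_le (by norm_num)] at hθ
        exact hper θ hθ.1 hθ.2
      rw [← e3, e2]
      norm_num
    rw [← intervalIntegral.integral_add_adjacent_intervals (hgi 0 1) (hgi 1 2), e1]
    ring
  obtain ⟨t, ht0, ht1, ht⟩ := exists_shift g hgm hg0 _ hgC h hh0 ⌊2 / h⌋₊
  refine ⟨t, ht0, ht1, fun K hK => ?_⟩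
  have hKle : K ≤ ⌊2 / h⌋₊ := by
    apply Nat.le_floor
    rw [le_div_iff₀ hh0]
    exact hK
  have hsub : ∑ k ∈ Finset.range K, g (t + k * h) ≤
      ∑ k ∈ Finset.range ⌊2 / h⌋₊, g (t + k * h) :=
    Finset.sum_le_sum_of_subset_of_nonneg (Finset.range_mono hKle) (fun k _ _ => hg0 _)
  have hfl : (⌊2 / h⌋₊ : ℝ) * h ≤ 2 := by
    have := Nat.floor_le (by positivity : 0 ≤ 2 / h)
    rwa [le_div_iff₀ hh0] at this
  have hfl0 : 0 ≤ (⌊2 / h⌋₊ : ℝ) * h := by positivity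
  have hmono : ∫ θ in (0 : ℝ)..((⌊2 / h⌋₊ : ℝ) * h), g θ ≤ ∫ θ in (0 : ℝ)..2, g θ := by
    rw [← intervalIntegral.integral_add_adjacent_intervals (hgi 0 _) (hgi ((⌊2 / h⌋₊ : ℝ) * h) 2)]
    have : 0 ≤ ∫ θ in ((⌊2 / h⌋₊ : ℝ) * h)..2, g θ :=
      intervalIntegral.integral_nonneg hfl (fun θ _ => hg0 θ)
    linarith
  have hfin : ∑ k ∈ Finset.range K, g (t + k * h) ≤ ε * P * T := by
    refine hsub.trans (ht.trans ?_)
    calc 1 / h * ∫ θ in (0 : ℝ)..((⌊2 / h⌋₊ : ℝ) * h), g θ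
        ≤ 1 / h * (2 * (ε / D * (((I : ℝ) + 1) * (W : ℝ) ^ 2 * (7 * C0 ^ 2 * P * η2)))) := by
          apply mul_le_mul_of_nonneg_left _ (by positivity)
          linarith
      _ = ε * P * T := by
          rw [hh, hD]
          field_simp
          ring
  have hfinal : ∑ k ∈ Finset.range K, g (t + k * h) =
      ∑ k ∈ Finset.range K, ∑ i ∈ Finset.range (I + 1), ∑ r ∈ Finset.range W ×ˢ Finset.range W,
        |∑ z ∈ Wz W r.1 r.2 (ρ ^ i * (7 * C0 ^ 2 * P * T)) (t + k * h) h,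
          (Fl c (nm z).toNat : ℝ)| := by
    rw [hg, hf, hY]
  rw [← hfinal]
  exact hfin

/-- a label is exact for a basis: the shell is not the innermost, the window lies in the cone, and all
vectors of the label lie in the box -/
def Exa (x y : ℤ√2) (t h ρ X : ℝ) (I b : ℕ) (j : ℕ) : Prop :=
  (Nat.unpair j).2 < I ∧ 1 ≤ (Nat.unpair j).1 ∧ al x ≤ t + ((Nat.unpair j).1 - 1 : ℝ) * h ∧
    t + ((Nat.unpair j).1 : ℝ) * h ≤ al y ∧
    ∀ v : ℕ × ℕ, v ≠ (0, 0) → (nm (zv x y v) : ℝ) < X → pc x y t h ρ X I v = j → v ∈ Bv b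

end

end Pool.Agent.Lib.MP_0b748d_nt.HH
end

section

set_option autoImplicit false

/-!
# From window means to pieces of cells
-/

namespace Pool.Agent.Lib.MP_0b748d_nt.HH

open Zsqrtd MR MeasureTheory

noncomputable section

open Classical in
private theorem exI_card1 (b : ℕ) (r : ℝ) (hr : 0 ≤ r) :
    (((Finset.range (b + 1)).filter (fun n : ℕ => (n : ℝ) ≤ r)).card : ℝ) ≤ r + 1 := by
  have h1 : (Finset.range (b + 1)).filter (fun n : ℕ => (n : ℝ) ≤ r) ⊆ Finset.range (⌊r⌋₊ + 1) := by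
    intro n hn
    rw [Finset.mem_filter] at hn
    rw [Finset.mem_range, Nat.lt_succ_iff]
    exact Nat.le_floor hn.2
  have h2 := Finset.card_le_card h1
  rw [Finset.card_range] at h2
  have h3 : (((Finset.range (b + 1)).filter (fun n : ℕ => (n : ℝ) ≤ r)).card : ℝ) ≤
      ((⌊r⌋₊ + 1 : ℕ) : ℝ) := by exact_mod_cast h2
  push_cast at h3
  linarith [Nat.floor_le hr]

open Classical in
private theorem exI_card2 (b : ℕ) (r c : ℝ) (hr : 0 ≤ r) (hb : (b : ℝ) ≤ c) :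
    (((Finset.range (b + 1)).filter (fun n : ℕ => c - r < (n : ℝ))).card : ℝ) ≤ r + 1 := by
  have h1 : ((Finset.range (b + 1)).filter (fun n : ℕ => c - r < (n : ℝ))).card ≤
      (Finset.range (⌊r⌋₊ + 1)).card := by
    apply Finset.card_le_card_of_injOn (fun n => b - n)
    · intro n hn
      rw [Finset.mem_coe, Finset.mem_filter, Finset.mem_range] at hn
      rw [Finset.mem_coe, Finset.mem_range, Nat.lt_succ_iff]
      apply Nat.le_floor
      have : n ≤ b := by omega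
      rw [Nat.cast_sub this]
      linarith [hn.2]
    · intro n hn m hm h
      rw [Finset.mem_coe, Finset.mem_filter, Finset.mem_range] at hn hm
      simp only at h
      omega
  rw [Finset.card_range] at h1
  have h3 : (((Finset.range (b + 1)).filter (fun n : ℕ => c - r < (n : ℝ))).card : ℝ) ≤
      ((⌊r⌋₊ + 1 : ℕ) : ℝ) := by exact_mod_cast h1
  push_cast at h3
  linarith [Nat.floor_le hr]

open Classical in
private theorem exI_prod (b : ℕ) (p : ℕ → Prop) (r c : ℝ) (hr : 0 ≤ r) (hb : (b : ℝ) ≤ c)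
    (hp : (((Finset.range (b + 1)).filter p).card : ℝ) ≤ r + 1) :
    (((Bv b).filter (fun v => p v.1)).card : ℝ) ≤ (r + 1) * (c + 1) ∧
    (((Bv b).filter (fun v => p v.2)).card : ℝ) ≤ (r + 1) * (c + 1) := by
  have hb1 : ((b : ℝ) + 1) ≤ c + 1 := by linarith
  have hb0 : (0 : ℝ) ≤ b := Nat.cast_nonneg _
  constructor
  · have h1 : (Bv b).filter (fun v => p v.1) ⊆
        ((Finset.range (b + 1)).filter p) ×ˢ Finset.range (b + 1) := by
      intro v hv
      rw [Finset.mem_filter, Bv, Finset.mem_product] at hv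
      rw [Finset.mem_product, Finset.mem_filter]
      exact ⟨⟨hv.1.1, hv.2⟩, hv.1.2⟩
    have h2 := Finset.card_le_card h1
    rw [Finset.card_product, Finset.card_range] at h2
    have h3 : (((Bv b).filter (fun v => p v.1)).card : ℝ) ≤
        (((Finset.range (b + 1)).filter p).card : ℝ) * ((b : ℝ) + 1) := by exact_mod_cast h2
    exact h3.trans (mul_le_mul hp hb1 (by linarith) (by linarith))
  · have h1 : (Bv b).filter (fun v => p v.2) ⊆
        Finset.range (b + 1) ×ˢ ((Finset.range (b + 1)).filter p) := by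
      intro v hv
      rw [Finset.mem_filter, Bv, Finset.mem_product] at hv
      rw [Finset.mem_product, Finset.mem_filter]
      exact ⟨hv.1.1, hv.1.2, hv.2⟩
    have h2 := Finset.card_le_card h1
    rw [Finset.card_product, Finset.card_range, mul_comm] at h2
    have h3 : (((Bv b).filter (fun v => p v.2)).card : ℝ) ≤
        (((Finset.range (b + 1)).filter p).card : ℝ) * ((b : ℝ) + 1) := by exact_mod_cast h2
    exact h3.trans (mul_le_mul hp hb1 (by linarith) (by linarith))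

/-- a coordinate is small if the angle is close to the edge -/
private theorem exI_small {C0 η' η2 δ T D N a : ℝ} {P : ℕ} (hC0 : 1 ≤ C0) (hδ : 0 < δ)
    (hη2 : 0 < η2) (h2 : 24 * C0 * η2 ≤ η') (hT : 2 ≤ T) (hT5 : 5 / δ ≤ T) (hP : 1 ≤ P)
    (hD0 : 0 ≤ D) (hD : D ≤ T) (hN : 0 ≤ N) (hNX : N ≤ 7 * C0 ^ 2 * P * T) (ha0 : 0 ≤ a)
    (ha1 : a ≤ 5 / (δ * T)) (ha : a ≤ 2 * (η2 / T)) :
    √(D * N) * Real.sinh a / √2 ≤ η' * √P := by
  have hT0 : 0 < T := by linarith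
  have hP0 : (1 : ℝ) ≤ P := by exact_mod_cast hP
  have hα : 5 / (δ * T) ≤ 1 := by
    rw [div_le_one (by positivity)]
    rw [div_le_iff₀ hδ] at hT5
    linarith
  have h := exD_est (T := T) (X := 7 * C0 ^ 2 * P * T) (D := D) (N := N) (N' := N) (r := 0)
    (α := 5 / (δ * T)) (c := 2 * (η2 / T)) (a := a) (a' := 0) hD0 hD hN hN hNX (by simp) le_rfl
    ha0 ha1 le_rfl (ha0.trans ha1) hα (by rw [sub_zero, abs_of_nonneg ha0]; exact ha)
  rw [Real.sinh_zero, mul_zero, zero_div, sub_zero] at h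
  refine (le_abs_self _).trans (h.trans ?_)
  have e1 : √T * √(7 * C0 ^ 2 * P * T) = √7 * C0 * √P * T := by
    rw [← Real.sqrt_mul hT0.le]
    have e2 : T * (7 * C0 ^ 2 * P * T) = 7 * (P * (C0 * T) ^ 2) := by ring
    rw [e2, Real.sqrt_mul (by norm_num), Real.sqrt_mul (by linarith),
      Real.sqrt_sq (by positivity)]
    ring
  have e3 : √7 ≤ 3 := by
    rw [Real.sqrt_le_left (by norm_num)]
    norm_num
  have e4 : √T * √(7 * C0 ^ 2 * P * T) * (2 * 0 * (5 / (δ * T)) + 2 * (2 * (η2 / T))) =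
      √7 * C0 * √P * (4 * η2) := by
    rw [e1]
    field_simp
    ring
  rw [e4]
  have hs : 0 ≤ √(P : ℝ) := Real.sqrt_nonneg _
  have e5 : √7 * C0 * √P * (4 * η2) ≤ 3 * C0 * √P * (4 * η2) := by gcongr
  have e6 : 3 * C0 * √P * (4 * η2) = (24 * C0 * η2) / 2 * √P := by ring
  have e7 : (24 * C0 * η2) / 2 * √(P : ℝ) ≤ η' * √P := by
    apply mul_le_mul_of_nonneg_right _ hs
    have : 0 < 24 * C0 * η2 := by positivity
    linarith only [h2, this]
  linarith only [e5, e7]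

private theorem exI_diff {x z : ℤ√2} {h : ℝ} (hle : th x ≤ th z) (hh : al z - al x ≤ h) :
    th z - th x ≤ 2 * h := by
  obtain ⟨hu1, hu2⟩ := th_uu_bounds
  have hpos : 0 < th uu := by linarith
  have h1 : al x ≤ al z := by
    unfold al
    exact div_le_div_of_nonneg_right hle hpos.le
  have h2 := exD_th (z := z) (z' := x) (h := h) (by rw [abs_of_nonneg (by linarith)]; exact hh)
  exact (le_abs_self _).trans h2

open Classical in
/-- Vectors with inexact labels, for the parameters of `pc_diam` with a small `η'`: (i) innermost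
shell: `v.1, v.2 ≤ √(7 C0² ρ ^ I P / δ)`; (ii) the window of `z = zv v` contains `al x` or `al y` or sticks
out: `th z - th x ≤ 2 h` or `th y - th z ≤ 2 h`, so `v.2` or `v.1` is at most
`√T √X * 3 h ≤ 9 C0 η2 √P` (`det_sinh`); (iii) some vector with the same label, norm `< X`, is outside
the box: then (the diameter estimate of `pc_diam` does not use that the vectors are in the box, only
`nm < X`) `v.1` or `v.2` exceeds `b - η' √P`. Each set has at most `C η' P + C √P` elements. -/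
theorem inexact_card (η C0 δ : ℝ) (hη : 0 < η) (hC0 : 1 ≤ C0) (hδ : 0 < δ) (hδ1 : δ ≤ 1) :
    ∃ (ρ η2 : ℝ) (I : ℕ), 0 < ρ ∧ ρ < 1 ∧ 0 < η2 ∧ 1 ≤ I ∧ ∃ P1 : ℕ, ∃ T0 : ℝ, 2 ≤ T0 ∧
    ∀ T : ℝ, T0 ≤ T → ∀ x y : ℤ√2, Fr x y → fm x y ∈ Cl T → Gc δ T (fm x y) → 0 ≤ al x → al x < 1 →
    ∀ P : ℕ, P1 ≤ P → ∀ t : ℝ, 0 ≤ t → t < η2 / T →
    (al y ≤ 2 ∧ ∀ v ∈ Bv ⌊C0 * √P⌋₊, (nm (zv x y v) : ℝ) < 7 * C0 ^ 2 * P * T) ∧
    (∀ v ∈ Bv ⌊C0 * √P⌋₊, ∀ v' ∈ Bv ⌊C0 * √P⌋₊,
      pc x y t (η2 / T) ρ (7 * C0 ^ 2 * P * T) I v = pc x y t (η2 / T) ρ (7 * C0 ^ 2 * P * T) I v' →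
      |(v.1 : ℝ) - v'.1| ≤ η * √P ∧ |(v.2 : ℝ) - v'.2| ≤ η * √P) ∧
    (((Bv ⌊C0 * √P⌋₊).filter (fun v => ¬ Exa x y t (η2 / T) ρ (7 * C0 ^ 2 * P * T) I ⌊C0 * √P⌋₊
      (pc x y t (η2 / T) ρ (7 * C0 ^ 2 * P * T) I v))).card : ℝ) ≤ η * P := by
  obtain ⟨η', hη'⟩ : ∃ η' : ℝ, η' = min 1 (η / (20 * C0)) := ⟨_, rfl⟩
  have hη'0 : 0 < η' := by rw [hη']; exact lt_min one_pos (by positivity)
  have hη'1 : η' ≤ 1 := by rw [hη']; exact min_le_left _ _
  have hη'2 : 20 * C0 * η' ≤ η := by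
    have : η' ≤ η / (20 * C0) := by rw [hη']; exact min_le_right _ _
    rw [le_div_iff₀ (by positivity)] at this
    linarith
  have hη'3 : η' ≤ η := by nlinarith only [hη, hC0, hη'2]
  obtain ⟨ρ, η2, I, c1, c2, c3, c4, c5, c6, c7, c8, c9⟩ := exD_par η' C0 δ hη'0 hC0 hδ
  refine ⟨ρ, η2, I, c1, c2, c3, c5, ⌈1 / η' ^ 2⌉₊ + 1, max 2 (5 / δ), le_max_left _ _, ?_⟩
  intro T hT x y h hc hg hx hx1 P hP t ht0 ht
  have hT2 : 2 ≤ T := (le_max_left _ _).trans hT
  have hT5 : 5 / δ ≤ T := (le_max_right _ _).trans hT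
  have hT0 : 0 < T := by linarith
  have hP1 : 1 ≤ P := by omega
  have hP0 : (1 : ℝ) ≤ P := by exact_mod_cast hP1
  obtain ⟨s, hs⟩ : ∃ s : ℝ, s = √(P : ℝ) := ⟨_, rfl⟩
  have hs0 : 0 ≤ s := by rw [hs]; exact Real.sqrt_nonneg _
  have hss : s ^ 2 = P := by rw [hs]; exact Real.sq_sqrt (by linarith)
  have hηs : 1 ≤ η' * s := by
    have h1 : 1 / η' ^ 2 ≤ P := by
      refine (Nat.le_ceil _).trans ?_
      exact_mod_cast (by omega : ⌈1 / η' ^ 2⌉₊ ≤ P)
    rw [div_le_iff₀ (by positivity), ← hss] at h1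
    apply exD_sq _ (by positivity)
    linarith only [h1]
  obtain ⟨⟨a1, a2⟩, ⟨a3, a4⟩, ⟨a5, a6⟩, a7, a8⟩ := exD_cell hδ hT2 h hc hg
  have hα : 5 / (δ * T) ≤ 1 := by
    rw [div_le_one (by positivity)]
    rw [div_le_iff₀ hδ] at hT5
    linarith
  obtain ⟨hu1, hu2⟩ := th_uu_bounds
  have hu0 : 0 < th uu := by linarith
  have hhh : 0 < η2 / T := by positivity
  refine ⟨⟨?_, fun v hv => exD_lt hC0 hδ hT2 h hc hg hP1 hv⟩, ?_, ?_⟩
  · have h1 : al y - al x = (th y - th x) / th uu := by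
      unfold al
      ring
    have h2 : (th y - th x) / th uu ≤ 1 := by
      rw [div_le_one hu0]
      linarith only [a8, hα, hu1]
    linarith
  · intro v hv v' hv' he
    obtain ⟨p1, p2⟩ := exD_core hC0 hδ hη'0 c1 c2 c3 c7 c8 c9 c5 hT2 hT5 h hc hg hx hP1 ht0 ht
      (exD_lt hC0 hδ hT2 h hc hg hP1 hv) (exD_lt hC0 hδ hT2 h hc hg hP1 hv') he
    have : η' * √(P : ℝ) ≤ η * √P := mul_le_mul_of_nonneg_right hη'3 (Real.sqrt_nonneg _)
    exact ⟨p1.trans this, p2.trans this⟩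
  · obtain ⟨b, hb⟩ : ∃ b : ℕ, b = ⌊C0 * √(P : ℝ)⌋₊ := ⟨_, rfl⟩
    have hb0 : 0 ≤ C0 * s := by positivity
    have hbc : (b : ℝ) ≤ C0 * s := by rw [hb, ← hs]; exact Nat.floor_le hb0
    have hbc2 : C0 * s < b + 1 := by rw [hb, ← hs]; exact Nat.lt_floor_add_one _
    rw [← hb]
    have hr0 : 0 ≤ η' * s := by positivity
    have q1 := exI_prod b (fun n => (n : ℝ) ≤ η' * s) (η' * s) (C0 * s) hr0 hbc
      (exI_card1 b _ hr0)
    have q2 := exI_prod b (fun n => C0 * s - η' * s < (n : ℝ)) (η' * s) (C0 * s) hr0 hbc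
      (exI_card2 b _ _ hr0 hbc)
    have hsub : (Bv b).filter (fun v => ¬ Exa x y t (η2 / T) ρ (7 * C0 ^ 2 * P * T) I b
        (pc x y t (η2 / T) ρ (7 * C0 ^ 2 * P * T) I v)) ⊆
        (((Bv b).filter (fun v => (v.1 : ℝ) ≤ η' * s)) ∪
          ((Bv b).filter (fun v => (v.2 : ℝ) ≤ η' * s))) ∪
        (((Bv b).filter (fun v => C0 * s - η' * s < (v.1 : ℝ))) ∪
          ((Bv b).filter (fun v => C0 * s - η' * s < (v.2 : ℝ)))) := by
      intro v hv
      rw [Finset.mem_filter] at hv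
      obtain ⟨hvb, hne⟩ := hv
      simp only [Finset.mem_union, Finset.mem_filter]
      by_contra hcon
      push Not at hcon
      obtain ⟨⟨n1, n2⟩, n3, n4⟩ := hcon
      have m1 := n1 hvb
      have m2 := n2 hvb
      have m3 := n3 hvb
      have m4 := n4 hvb
      apply hne
      have hvb' : v ∈ Bv ⌊C0 * √(P : ℝ)⌋₊ := by rw [← hb]; exact hvb
      have hnm := exD_lt hC0 hδ hT2 h hc hg hP1 hvb'
      obtain ⟨X, hX⟩ : ∃ X : ℝ, X = 7 * C0 ^ 2 * P * T := ⟨_, rfl⟩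
      have hX0 : 0 < X := by rw [hX]; positivity
      rw [← hX] at hnm
      have hB0 : (0 : ℝ) < B x y := by exact_mod_cast B_pos h.tx h.ty
      have hnx0 : (0 : ℝ) < nm x := by exact_mod_cast h.tx.nm_pos
      have hny0 : (0 : ℝ) < nm y := by exact_mod_cast h.ty.nm_pos
      have hsle : shI ρ X I (nm (zv x y v)) ≤ I := by
        unfold shI
        refine (Finset.card_filter_le _ _).trans ?_
        rw [Finset.card_range]
      have hsI : shI ρ X I (nm (zv x y v)) < I := by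
        rcases hsle.eq_or_lt with h1 | h1
        · exfalso
          rw [shI_last c1 c2 hX0] at h1
          have hN : (nm (zv x y v) : ℝ) < ρ ^ I * X := by
            rcases h1 with h0 | h0
            · omega
            · exact h0
          have hle : (nm x : ℝ) * (v.1 : ℝ) ^ 2 ≤ nm (zv x y v) := by
            rw [exD_form h v]
            have d1 : 0 ≤ 2 * (B x y : ℝ) * ((v.1 : ℝ) * v.2) := by positivity
            have d3 : 0 ≤ (nm y : ℝ) * (v.2 : ℝ) ^ 2 := by positivity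
            linarith only [d1, d3]
          rw [hX] at hN
          have := exD_inner hδ hη'0 hT2 c9 a1 (Nat.cast_nonneg v.1) hle hN
          rw [← hs] at this
          linarith only [m1, this]
        · exact h1
      have hpos : 0 < (nm (zv x y v) : ℝ) := by
        have h1 := (shI_eq c1 c2 hX0 hnm I _ hsI).1 rfl
        have h2 : 0 < ρ ^ (shI ρ X I (nm (zv x y v)) + 1) * X := by positivity
        linarith only [h2, h1.1]
      have hv0 : v ≠ (0, 0) := by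
        intro h0
        rw [h0, exD_form h] at hpos
        norm_num at hpos
      obtain ⟨u1, u2, u3, u4⟩ := exD_coord h hv0
      have hal : 0 ≤ al (zv x y v) := exD_al hx u3
      obtain ⟨hh, hhd⟩ : ∃ hh : ℝ, hh = η2 / T := ⟨_, rfl⟩
      have hh0 : 0 < hh := by rw [hhd]; exact hhh
      -- not close to the edges
      have far1 : hh < al (zv x y v) - al x := by
        by_contra hcc
        push Not at hcc
        have h1 := exI_diff u3 hcc
        rw [hhd] at h1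
        have h2 := exI_small (D := nm x) (N := nm (zv x y v)) (P := P) hC0 hδ c3 c8 hT2 hT5 hP1
          hnx0.le a2 hpos.le (by rw [← hX]; exact hnm.le) (by linarith only [u3]) (by linarith only [a8, u4]) h1
        rw [← u1, ← hs] at h2
        linarith only [m2, h2]
      have far2 : hh < al y - al (zv x y v) := by
        by_contra hcc
        push Not at hcc
        have h1 := exI_diff u4 hcc
        rw [hhd] at h1
        have h2 := exI_small (D := nm y) (N := nm (zv x y v)) (P := P) hC0 hδ c3 c8 hT2 hT5 hP1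
          hny0.le a4 hpos.le (by rw [← hX]; exact hnm.le) (by linarith only [u4]) (by linarith only [a8, u3]) h1
        rw [← u2, ← hs] at h2
        linarith only [m1, h2]
      obtain ⟨k, hk⟩ : ∃ k : ℤ, k = ⌊(al (zv x y v) - t) / hh⌋ := ⟨_, rfl⟩
      have hth : t < hh := by rw [hhd]; exact ht
      have hk0 : 0 ≤ k := by
        rw [hk]
        apply Int.floor_nonneg.2
        apply div_nonneg _ hh0.le
        linarith only [hx, ht, hhd, far1]
      have hwk : (wk t hh (zv x y v) : ℤ) = k + 1 := by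
        unfold wk
        rw [← hk]
        omega
      have hwkr : ((wk t hh (zv x y v) : ℕ) : ℝ) = (k : ℝ) + 1 := by exact_mod_cast hwk
      have k1 : (k : ℝ) * hh ≤ al (zv x y v) - t := by
        have := Int.floor_le ((al (zv x y v) - t) / hh)
        rw [← hk, le_div_iff₀ hh0] at this
        exact this
      have k2 : al (zv x y v) - t < ((k : ℝ) + 1) * hh := by
        have := Int.lt_floor_add_one ((al (zv x y v) - t) / hh)
        rw [← hk, div_lt_iff₀ hh0] at this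
        exact this
      rw [← hX, ← hhd]
      unfold Exa
      simp only [pc, Nat.unpair_pair]
      refine ⟨hsI, by omega, ?_, ?_, ?_⟩
      · rw [hwkr]
        linarith only [far1, k2]
      · rw [hwkr]
        linarith only [far2, k1]
      · intro v' hv'0 hv' he
        by_contra hout
        have he' : pc x y t (η2 / T) ρ (7 * C0 ^ 2 * P * T) I v =
            pc x y t (η2 / T) ρ (7 * C0 ^ 2 * P * T) I v' := by
          rw [← hX, ← hhd]
          exact he.symm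
        rw [hX] at hnm hv'
        obtain ⟨p1, p2⟩ := exD_core hC0 hδ hη'0 c1 c2 c3 c7 c8 c9 c5 hT2 hT5 h hc hg hx hP1 ht0 ht
          hnm hv' he'
        rw [← hs] at p1 p2
        rw [abs_le] at p1 p2
        rw [Bv, Finset.mem_product, Finset.mem_range, Finset.mem_range] at hout
        rcases not_and_or.1 hout with h1 | h1
        · have h2 : b + 1 ≤ v'.1 := by omega
          have h3 : ((b : ℝ) + 1) ≤ v'.1 := by exact_mod_cast h2
          linarith only [hbc2, m3, h3, p1.1]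
        · have h2 : b + 1 ≤ v'.2 := by omega
          have h3 : ((b : ℝ) + 1) ≤ v'.2 := by exact_mod_cast h2
          linarith only [hbc2, m4, h3, p2.1]
    have hcard := (Finset.card_le_card hsub).trans ((Finset.card_union_le _ _).trans
      (add_le_add (Finset.card_union_le _ _) (Finset.card_union_le _ _)))
    have hcard' : (((Bv b).filter (fun v => ¬ Exa x y t (η2 / T) ρ (7 * C0 ^ 2 * P * T) I b
        (pc x y t (η2 / T) ρ (7 * C0 ^ 2 * P * T) I v))).card : ℝ) ≤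
        ((((Bv b).filter (fun v => (v.1 : ℝ) ≤ η' * s)).card : ℝ) +
          ((Bv b).filter (fun v => (v.2 : ℝ) ≤ η' * s)).card) +
        ((((Bv b).filter (fun v => C0 * s - η' * s < (v.1 : ℝ))).card : ℝ) +
          ((Bv b).filter (fun v => C0 * s - η' * s < (v.2 : ℝ))).card) := by
      exact_mod_cast hcard
    refine hcard'.trans ?_
    have r1 : η' * s + 1 ≤ 2 * (η' * s) := by linarith only [hηs]
    have r2 : C0 * s + 1 ≤ 2 * (C0 * s) := by nlinarith only [hC0, hη'0, hη'1, r1]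
    have r3 : (η' * s + 1) * (C0 * s + 1) ≤ 2 * (η' * s) * (2 * (C0 * s)) :=
      mul_le_mul r1 r2 (by linarith only [r2]) (by linarith only [r1])
    have r4 : 2 * (η' * s) * (2 * (C0 * s)) = 4 * (C0 * η') * P := by
      rw [← hss]
      ring
    have r5 : 16 * (C0 * η') * (P : ℝ) ≤ η * P := by
      apply mul_le_mul_of_nonneg_right _ (by linarith only [])
      linarith only [hη'2, mul_pos (by linarith : 0 < C0) hη'0]
    linarith only [r3, r4, r5, q1.1, q1.2, q2.1, q2.2]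

end

end Pool.Agent.Lib.MP_0b748d_nt.HH
end

section

set_option autoImplicit false

/-!
# From window means to pieces of cells
-/

namespace Pool.Agent.Lib.MP_0b748d_nt.HH

open Zsqrtd MR MeasureTheory

noncomputable section

/-- For an exact label `j = (k + 1, i)` the sum over the vectors of the box with label `j` and class
`r` is the difference of the window sums for the norms `< ρ ^ i X` and `< ρ ^ (i + 1) X` at the position
`t + k h`, for the class of `zv x y r` modulo `W` (`zv_class`, `zv_prim`, `zv_val`, `shI_eq`,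
`cone_coords`); the angles are bounded since `0 ≤ al x`, `al y ≤ 2`. -/
theorem exact_sum (c W : ℕ) (hW : 1 ≤ W) {x y : ℤ√2} (h : Fr x y) (hx : 0 ≤ al x) (hy : al y ≤ 2)
    {t hh ρ X : ℝ} (ht : 0 ≤ t) (hh0 : 0 < hh) (hρ : 0 < ρ) (hρ1 : ρ < 1) (hX : 0 < X) (I b : ℕ)
    (hb : ∀ v ∈ Bv b, (nm (zv x y v) : ℝ) < X) (j : ℕ) (hj : Exa x y t hh ρ X I b j)
    (r : ℕ × ℕ) :
    ∑ v ∈ (Bv b).filter (fun v => pc x y t hh ρ X I v = j ∧ v.1 % W = r.1 % W ∧ v.2 % W = r.2 % W),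
      (if Nat.Coprime v.1 v.2 then (Fl c ((fm x y).val v.1 v.2) : ℝ) else 0) =
    ∑ z ∈ Wz W (zv x y r).re (zv x y r).im (ρ ^ (Nat.unpair j).2 * X)
        (t + ((Nat.unpair j).1 - 1 : ℝ) * hh) hh, (Fl c (nm z).toNat : ℝ) -
    ∑ z ∈ Wz W (zv x y r).re (zv x y r).im (ρ ^ ((Nat.unpair j).2 + 1) * X)
        (t + ((Nat.unpair j).1 - 1 : ℝ) * hh) hh, (Fl c (nm z).toNat : ℝ) := by
  classical
  obtain ⟨hiI, hk1, hk2, hk3, hall⟩ := hj
  set K := (Nat.unpair j).1 with hK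
  set i := (Nat.unpair j).2 with hi
  have hjp : j = Nat.pair K i := (Nat.pair_unpair j).symm
  have hthu : 0 < th uu := by linarith [th_uu_bounds.1]
  have hthu2 : th uu ≤ 2 := th_uu_bounds.2
  -- windows
  have hwk : ∀ z : ℤ√2, wk t hh z = K ↔ t + ((K : ℝ) - 1) * hh ≤ al z ∧ al z < t + ((K : ℝ) - 1) * hh + hh := by
    intro z
    have e1 : wk t hh z = K ↔ ⌊(al z - t) / hh⌋ = (K : ℤ) - 1 := by
      unfold wk
      constructor
      · intro h1
        omega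
      · intro h1
        omega
    rw [e1, Int.floor_eq_iff, le_div_iff₀ hh0, div_lt_iff₀ hh0]
    push_cast
    constructor
    · rintro ⟨h1, h2⟩
      constructor <;> linarith
    · rintro ⟨h1, h2⟩
      constructor <;> linarith
  have hYY : ρ ^ (i + 1) * X ≤ ρ ^ i * X := by
    have : ρ ^ (i + 1) ≤ ρ ^ i := pow_le_pow_of_le_one hρ.le hρ1.le (Nat.le_succ i)
    exact mul_le_mul_of_nonneg_right this hX.le
  have hYX : ρ ^ i * X ≤ X := by
    have : ρ ^ i ≤ 1 := pow_le_one₀ hρ.le hρ1.le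
    nlinarith
  have hmW : ∀ (Y : ℝ) (z : ℤ√2), z ∈ Wz W (zv x y r).re (zv x y r).im Y (t + ((K : ℝ) - 1) * hh) hh ↔
      (TP z ∧ (nm z : ℝ) ≤ Y ∧ |th z| ≤ 5) ∧ Prim z ∧ (nm z : ℝ) < Y ∧ t + ((K : ℝ) - 1) * hh ≤ al z ∧
      al z < t + ((K : ℝ) - 1) * hh + hh ∧
    (W : ℤ) ∣ z.re - (zv x y r).re ∧ (W : ℤ) ∣ z.im - (zv x y r).im := by
    intro Y z
    unfold Wz
    rw [Finset.mem_filter, mem_AA]
  have hsub : Wz W (zv x y r).re (zv x y r).im (ρ ^ (i + 1) * X) (t + ((K : ℝ) - 1) * hh) hh ⊆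
      Wz W (zv x y r).re (zv x y r).im (ρ ^ i * X) (t + ((K : ℝ) - 1) * hh) hh := by
    intro z hz
    rw [hmW] at hz ⊢
    obtain ⟨⟨a1, a2, a3⟩, a4, a5, a6⟩ := hz
    exact ⟨⟨a1, a2.trans hYY, a3⟩, a4, a5.trans_le hYY, a6⟩
  rw [← Finset.sum_sdiff hsub, add_sub_cancel_right]
  rw [← Finset.sum_filter]
  refine Finset.sum_bij (fun v _ => zv x y v) ?_ ?_ ?_ ?_
  · intro v hv
    rw [Finset.mem_filter, Finset.mem_filter] at hv
    obtain ⟨⟨hvB, hpc, hc1, hc2⟩, hcop⟩ := hv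
    have hv0 : v ≠ (0, 0) := by
      rintro rfl
      simp at hcop
    have hTP := zv_TP h hv0
    unfold pc at hpc
    rw [hjp, Nat.pair_eq_pair] at hpc
    obtain ⟨hw, hs⟩ := hpc
    rw [hwk] at hw
    rw [shI_eq hρ hρ1 hX (hb v hvB) I i hiI] at hs
    have hcl := (zv_class h W v r).2 ⟨(Nat.modEq_iff_dvd.1 (Nat.ModEq.symm hc1)), (Nat.modEq_iff_dvd.1 (Nat.ModEq.symm hc2))⟩
    rw [Finset.mem_sdiff, hmW, hmW]
    have hal1 : al x ≤ al (zv x y v) := hk2.trans hw.1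
    have hal2 : al (zv x y v) ≤ al y := by
      refine hw.2.le.trans (le_trans (le_of_eq ?_) hk3)
      ring
    have hth : |th (zv x y v)| ≤ 5 := by
      have e : th (zv x y v) = al (zv x y v) * th uu := by
        unfold al; field_simp
      rw [e, abs_le]
      have b1 : 0 ≤ al (zv x y v) := hx.trans hal1
      have b2 : al (zv x y v) ≤ 2 := hal2.trans hy
      constructor
      · nlinarith
      · nlinarith
    refine ⟨⟨⟨hTP, hs.2.le, hth⟩, (zv_prim h v).2 hcop, hs.2, hw.1, hw.2, hcl⟩, ?_⟩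
    rintro ⟨-, -, a5, -⟩
    linarith [hs.1]
  · intro v hv v' hv' he
    obtain ⟨a1, a2⟩ := zv_det h v
    obtain ⟨b1, b2⟩ := zv_det h v'
    rw [he] at a1 a2
    have e1 : (v.1 : ℤ) = v'.1 := a1.symm.trans b1
    have e2 : (v.2 : ℤ) = v'.2 := a2.symm.trans b2
    exact Prod.ext (by exact_mod_cast e1) (by exact_mod_cast e2)
  · intro z hz
    rw [Finset.mem_sdiff, hmW, hmW] at hz
    obtain ⟨⟨⟨a1, a2, a3⟩, a4, a5, a6, a7, a8⟩, hn⟩ := hz
    have hN1 : ρ ^ (i + 1) * X ≤ (nm z : ℝ) := by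
      by_contra hlt
      push Not at hlt
      exact hn ⟨⟨a1, hlt.le, a3⟩, a4, hlt, a6, a7, a8⟩
    have hal : ∀ z : ℤ√2, th z = al z * th uu := by
      intro z
      unfold al; field_simp
    have ht1 : th x ≤ th z := by
      rw [hal x, hal z]
      exact mul_le_mul_of_nonneg_right (hk2.trans a6) hthu.le
    have ht2 : th z ≤ th y := by
      rw [hal z, hal y]
      refine mul_le_mul_of_nonneg_right (a7.le.trans (le_trans (le_of_eq ?_) hk3)) hthu.le
      ring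
    obtain ⟨p, q, hzpq, -, -⟩ := cone_coords h a1 ht1 ht2
    have hzv : zv x y (p, q) = z := by
      unfold zv
      exact hzpq.symm
    have hpq : ((p, q) : ℕ × ℕ) ≠ (0, 0) := by
      intro h0
      rw [Prod.mk.injEq] at h0
      obtain ⟨rfl, rfl⟩ := h0
      have : z = 0 := by rw [hzpq]; simp
      have := a1.nm_pos
      rw [‹z = 0›] at this
      simp [nm] at this
    have hnX : (nm (zv x y (p, q)) : ℝ) < X := by
      rw [hzv]; exact a5.trans_le hYX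
    have hpcj : pc x y t hh ρ X I (p, q) = j := by
      unfold pc
      rw [hjp, Nat.pair_eq_pair]
      refine ⟨?_, ?_⟩
      · rw [hwk, hzv]; exact ⟨a6, a7⟩
      · rw [shI_eq hρ hρ1 hX hnX I i hiI, hzv]; exact ⟨hN1, a5⟩
    have hB := hall (p, q) hpq hnX hpcj
    refine ⟨(p, q), ?_, hzv⟩
    rw [Finset.mem_filter, Finset.mem_filter]
    have hcl := (zv_class h W (p, q) r).1 (by rw [hzv]; exact a8)
    refine ⟨⟨hB, hpcj, ?_, ?_⟩, ?_⟩
    · exact (Nat.modEq_iff_dvd.2 hcl.1).symm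
    · exact (Nat.modEq_iff_dvd.2 hcl.2).symm
    · rw [← zv_prim h, hzv]; exact a4
  · intro v hv
    have e := zv_val h v
    have e2 : (nm (zv x y v)).toNat = (fm x y).val v.1 v.2 := by omega
    rw [e2]

end

end Pool.Agent.Lib.MP_0b748d_nt.HH
end

section

set_option autoImplicit false

/-!
# Small sums of the Liouville function over pieces of cells (interface)
-/

namespace Pool.Agent.Lib.MP_0b748d_nt.HH

noncomputable section

/-- the values of `Fl` on the primitive vectors of a form -/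
def Fq (c : ℕ) (Q : Fm) (v : ℕ × ℕ) : ℝ :=
  if Nat.Coprime v.1 v.2 then (Fl c (Q.val v.1 v.2) : ℝ) else 0

section aux

open Zsqrtd MR

private theorem win_dvd {W r r' z : ℤ} (h1 : W ∣ r - r') : W ∣ z - r ↔ W ∣ z - r' := by
  constructor
  · intro h
    have h2 := dvd_add h h1
    rwa [sub_add_sub_cancel] at h2
  · intro h
    have h2 := dvd_sub h h1
    rwa [sub_sub_sub_cancel_right] at h2

private theorem win_Wz_congr {W : ℕ} {r s r' s' : ℤ} (h1 : (W : ℤ) ∣ r - r')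
    (h2 : (W : ℤ) ∣ s - s') (Y θ h : ℝ) : Wz W r s Y θ h = Wz W r' s' Y θ h := by
  unfold Wz
  ext z
  simp only [Finset.mem_filter, win_dvd h1, win_dvd h2]

private theorem win_basis {T : ℝ} (hT : 0 ≤ T) {Q : Fm} (hQ : Q ∈ Cl T) :
    ∃ x y : ℤ√2, Fr x y ∧ fm x y = Q ∧ 0 ≤ al x ∧ al x < 1 := by
  obtain ⟨x, y, hF, hf⟩ := fm_surj ((mem_Cl hT).1 hQ).1
  obtain ⟨hu1, hu2, -⟩ := un_spec (-⌊al x⌋)
  have hd : det (un (-⌊al x⌋) * x) (un (-⌊al x⌋) * y) = nm (un (-⌊al x⌋)) * det x y := by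
    simp only [det, nm, re_mul, im_mul]
    ring
  refine ⟨un (-⌊al x⌋) * x, un (-⌊al x⌋) * y, ⟨hu1.mul hF.tx, hu1.mul hF.ty, ?_⟩, ?_, ?_, ?_⟩
  · rw [hd, hu2, hF.dt, one_mul]
  · rw [fm_un]
    exact hf
  · rw [al_un hF.tx]
    push_cast
    linarith [Int.floor_le (al x)]
  · rw [al_un hF.tx]
    push_cast
    linarith [Int.lt_floor_add_one (al x)]

private theorem win_class {x y : ℤ√2} (h : Fr x y) {W : ℕ} (hW : 1 ≤ W) (g : ℤ → ℤ → ℝ)
    (hg : ∀ r s r' s' : ℤ, (W : ℤ) ∣ r - r' → (W : ℤ) ∣ s - s' → g r s = g r' s') :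
    ∑ r ∈ Finset.range W ×ˢ Finset.range W, g (zv x y r).re (zv x y r).im =
      ∑ r ∈ Finset.range W ×ˢ Finset.range W, g r.1 r.2 := by
  have hW0 : (0 : ℤ) < W := by exact_mod_cast hW
  have hmod : ∀ a : ℤ, (((a % (W : ℤ)).toNat : ℕ) : ℤ) = a % (W : ℤ) := fun a =>
    Int.toNat_of_nonneg (Int.emod_nonneg a hW0.ne')
  have hdvd : ∀ a : ℤ, (W : ℤ) ∣ a - (((a % (W : ℤ)).toNat : ℕ) : ℤ) := by
    intro a
    rw [hmod]
    exact Int.dvd_self_sub_emod
  have hlt : ∀ a : ℤ, (a % (W : ℤ)).toNat < W := by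
    intro a
    have h1 := hmod a
    have h2 := Int.emod_lt_of_pos a hW0
    omega
  have hmaps : Set.MapsTo (fun r : ℕ × ℕ => (((zv x y r).re % (W : ℤ)).toNat,
      ((zv x y r).im % (W : ℤ)).toNat)) (Finset.range W ×ˢ Finset.range W : Finset (ℕ × ℕ))
      (Finset.range W ×ˢ Finset.range W : Finset (ℕ × ℕ)) := by
    intro r _
    rw [Finset.mem_coe, Finset.mem_product, Finset.mem_range, Finset.mem_range]
    exact ⟨hlt _, hlt _⟩
  have hinj : Set.InjOn (fun r : ℕ × ℕ => (((zv x y r).re % (W : ℤ)).toNat,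
      ((zv x y r).im % (W : ℤ)).toNat)) (Finset.range W ×ˢ Finset.range W : Finset (ℕ × ℕ)) := by
    intro r hr r' hr' he
    rw [Finset.mem_coe, Finset.mem_product, Finset.mem_range, Finset.mem_range] at hr hr'
    have he' := Prod.mk.injEq _ _ _ _ ▸ he
    obtain ⟨h1, h2⟩ := he'
    have k1 : (W : ℤ) ∣ (zv x y r).re - (zv x y r').re := by
      have a1 := hdvd (zv x y r).re
      have a2 := hdvd (zv x y r').re
      rw [h1] at a1
      have a3 := dvd_sub a1 a2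
      rwa [sub_sub_sub_cancel_right] at a3
    have k2 : (W : ℤ) ∣ (zv x y r).im - (zv x y r').im := by
      have a1 := hdvd (zv x y r).im
      have a2 := hdvd (zv x y r').im
      rw [h2] at a1
      have a3 := dvd_sub a1 a2
      rwa [sub_sub_sub_cancel_right] at a3
    obtain ⟨m1, m2⟩ := (zv_class h W r r').1 ⟨k1, k2⟩
    have key : ∀ a b : ℕ, a < W → b < W → (W : ℤ) ∣ (a : ℤ) - b → a = b := by
      intro a b ha hb hab
      have h3 : (a : ℤ) - b = 0 := by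
        apply Int.eq_zero_of_abs_lt_dvd hab
        rw [abs_lt]
        constructor <;> omega
      omega
    exact Prod.ext (key _ _ hr.1 hr'.1 m1) (key _ _ hr.2 hr'.2 m2)
  refine Finset.sum_nbij (fun r : ℕ × ℕ => (((zv x y r).re % (W : ℤ)).toNat,
      ((zv x y r).im % (W : ℤ)).toNat)) hmaps hinj
    (Finset.surjOn_of_injOn_of_card_le _ hmaps hinj le_rfl) ?_
  intro r _
  exact hg _ _ _ _ (hdvd _) (hdvd _)

private theorem win_disj {T : ℝ} (hT : 0 ≤ T) {x y x' y' : ℤ√2} (h : Fr x y) (h' : Fr x' y')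
    (hc : fm x y ∈ Cl T) (hc' : fm x' y' ∈ Cl T) {a b : ℝ} (hab : a < b) (h1 : al x ≤ a)
    (h2 : b ≤ al y) (h3 : al x' ≤ a) (h4 : b ≤ al y') : fm x y = fm x' y' := by
  have hpos := th_uu_pos
  have hal : ∀ z w : ℤ√2, al z < al w → th z < th w := by
    intro z w hzw
    rw [al, al] at hzw
    exact (div_lt_div_iff_of_pos_right hpos).1 hzw
  have key : ∀ z w : ℤ√2, th x ≤ th z → th w ≤ th y → th x' ≤ th z → th w ≤ th y' →
      th z < th w → fm x y = fm x' y' := by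
    intro z w k1 k2 k3 k4 k5
    obtain ⟨e1, e2⟩ := cell_unique hT h h' hc hc' k5 k1 k2 k3 k4
    rw [e1, e2]
  rcases le_total (th x) (th x') with q1 | q1 <;> rcases le_total (th y) (th y') with q2 | q2
  · exact key x' y q1 le_rfl le_rfl q2 (hal _ _ (by linarith))
  · exact key x' y' q1 q2 le_rfl le_rfl (hal _ _ (by linarith))
  · exact key x y le_rfl le_rfl q1 q2 (hal _ _ (by linarith))
  · exact key x y' le_rfl q2 q1 le_rfl (hal _ _ (by linarith))

open Classical in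
private theorem win_inexact (W : ℕ) (hW : 1 ≤ W) (S : Finset (ℕ × ℕ)) (piece : ℕ × ℕ → ℕ)
    (f : ℕ × ℕ → ℝ) (hf : ∀ v, |f v| ≤ 1) (E : ℕ → Prop) :
    ∑ j ∈ (S.image piece).filter (fun j => ¬ E j), ∑ r ∈ Finset.range W ×ˢ Finset.range W,
      |∑ v ∈ S.filter (fun v => piece v = j ∧ v.1 % W = r.1 ∧ v.2 % W = r.2), f v| ≤
      ((S.filter (fun v => ¬ E (piece v))).card : ℝ) := by
  have h1 : ∀ j : ℕ, ∑ r ∈ Finset.range W ×ˢ Finset.range W,
      |∑ v ∈ S.filter (fun v => piece v = j ∧ v.1 % W = r.1 ∧ v.2 % W = r.2), f v| ≤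
      ((S.filter (fun v => piece v = j)).card : ℝ) := by
    intro j
    have h2 : ((S.filter (fun v => piece v = j)).card : ℝ) =
        ∑ r ∈ Finset.range W ×ˢ Finset.range W,
          ((S.filter (fun v => piece v = j ∧ v.1 % W = r.1 ∧ v.2 % W = r.2)).card : ℝ) := by
      rw [Finset.card_eq_sum_card_fiberwise (f := fun v : ℕ × ℕ => (v.1 % W, v.2 % W))
        (t := Finset.range W ×ˢ Finset.range W)]
      · push_cast
        refine Finset.sum_congr rfl ?_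
        intro r _
        rw [Finset.filter_filter]
        congr 2
        ext v
        simp only [Finset.mem_filter, Prod.ext_iff]
      · intro v _
        rw [Finset.mem_coe, Finset.mem_product, Finset.mem_range, Finset.mem_range]
        exact ⟨Nat.mod_lt _ hW, Nat.mod_lt _ hW⟩
    rw [h2]
    refine Finset.sum_le_sum ?_
    intro r _
    refine (Finset.abs_sum_le_sum_abs _ _).trans ?_
    refine (Finset.sum_le_sum (fun v _ => hf v)).trans ?_
    rw [Finset.sum_const, nsmul_eq_mul, mul_one]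
  refine (Finset.sum_le_sum (fun j _ => h1 j)).trans (le_of_eq ?_)
  rw [Finset.card_eq_sum_card_fiberwise (f := piece)
    (t := (S.image piece).filter (fun j => ¬ E j))]
  · push_cast
    refine Finset.sum_congr rfl ?_
    intro j hj
    rw [Finset.mem_filter] at hj
    rw [Finset.filter_filter]
    congr 2
    ext v
    simp only [Finset.mem_filter]
    constructor
    · rintro ⟨a1, a2⟩
      exact ⟨a1, by rw [a2]; exact hj.2, a2⟩
    · rintro ⟨a1, -, a2⟩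
      exact ⟨a1, a2⟩
  · intro v hv
    rw [Finset.mem_coe, Finset.mem_filter] at hv
    rw [Finset.mem_coe, Finset.mem_filter]
    exact ⟨Finset.mem_image_of_mem _ hv.1, hv.2⟩

/-- window sums over all classes -/
private def wG (c W : ℕ) (X ρ t h : ℝ) (k i : ℕ) : ℝ :=
  ∑ r ∈ Finset.range W ×ˢ Finset.range W,
    |∑ z ∈ Wz W r.1 r.2 (ρ ^ i * X) (t + k * h) h, (Fl c (nm z).toNat : ℝ)|

private theorem wG_nonneg (c W : ℕ) (X ρ t h : ℝ) (k i : ℕ) : 0 ≤ wG c W X ρ t h k i :=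
  Finset.sum_nonneg fun _ _ => abs_nonneg _

private theorem wG_class (c : ℕ) {W : ℕ} (hW : 1 ≤ W) (X ρ t h : ℝ) (k i : ℕ) {x y : ℤ√2}
    (hF : Fr x y) : ∑ r ∈ Finset.range W ×ˢ Finset.range W,
      |∑ z ∈ Wz W (zv x y r).re (zv x y r).im (ρ ^ i * X) (t + k * h) h,
        (Fl c (nm z).toNat : ℝ)| = wG c W X ρ t h k i := by
  have h1 := win_class hF hW (fun r s => |∑ z ∈ Wz W r s (ρ ^ i * X) (t + k * h) h,
    (Fl c (nm z).toNat : ℝ)|) ?_
  · exact h1
  · intro r s r' s' e1 e2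
    rw [win_Wz_congr e1 e2]

open Classical in
private theorem win_exact (c : ℕ) {W : ℕ} (hW : 1 ≤ W) {x y : ℤ√2} (hF : Fr x y)
    (hx : 0 ≤ al x) (hy : al y ≤ 2) {t h ρ X : ℝ} (ht : 0 ≤ t) (hh : 0 < h) (hρ : 0 < ρ)
    (hρ1 : ρ < 1) (hX : 0 < X) (I b : ℕ) (hb : ∀ v ∈ Bv b, (nm (zv x y v) : ℝ) < X) (K : ℕ)
    (hK : ∀ k : ℕ, ((k : ℝ) + 1) * h ≤ 2 → k < K) :
    ∑ j ∈ ((Bv b).image (pc x y t h ρ X I)).filter (fun j => Exa x y t h ρ X I b j),
      ∑ r ∈ Finset.range W ×ˢ Finset.range W,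
      |∑ v ∈ (Bv b).filter (fun v => pc x y t h ρ X I v = j ∧ v.1 % W = r.1 ∧ v.2 % W = r.2),
        Fq c (fm x y) v| ≤
    ∑ k ∈ (Finset.range K).filter (fun k : ℕ => al x ≤ t + k * h ∧ t + ((k : ℝ) + 1) * h ≤ al y),
      2 * ∑ i ∈ Finset.range (I + 1), wG c W X ρ t h k i := by
  have hone : ∀ j : ℕ, Exa x y t h ρ X I b j →
      ∑ r ∈ Finset.range W ×ˢ Finset.range W,
      |∑ v ∈ (Bv b).filter (fun v => pc x y t h ρ X I v = j ∧ v.1 % W = r.1 ∧ v.2 % W = r.2),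
        Fq c (fm x y) v| ≤
      wG c W X ρ t h ((Nat.unpair j).1 - 1) (Nat.unpair j).2 +
        wG c W X ρ t h ((Nat.unpair j).1 - 1) ((Nat.unpair j).2 + 1) := by
    intro j hj
    have hj1 : 1 ≤ (Nat.unpair j).1 := hj.2.1
    have hcast : (((Nat.unpair j).1 - 1 : ℕ) : ℝ) = ((Nat.unpair j).1 : ℝ) - 1 := by
      push_cast [hj1]
      ring
    rw [← wG_class c hW X ρ t h _ _ hF, ← wG_class c hW X ρ t h _ _ hF, ← Finset.sum_add_distrib]
    refine Finset.sum_le_sum ?_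
    intro r hr
    rw [Finset.mem_product, Finset.mem_range, Finset.mem_range] at hr
    have h1 := exact_sum c W hW hF hx hy ht hh hρ hρ1 hX I b hb j hj r
    rw [Nat.mod_eq_of_lt hr.1, Nat.mod_eq_of_lt hr.2] at h1
    have h2 : ∑ v ∈ (Bv b).filter (fun v => pc x y t h ρ X I v = j ∧ v.1 % W = r.1 ∧
        v.2 % W = r.2), Fq c (fm x y) v = ∑ v ∈ (Bv b).filter (fun v => pc x y t h ρ X I v = j ∧
        v.1 % W = r.1 ∧ v.2 % W = r.2),
        (if Nat.Coprime v.1 v.2 then (Fl c ((fm x y).val v.1 v.2) : ℝ) else 0) := rfl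
    have h3 : ∑ v ∈ (Bv b).filter (fun v => pc x y t h ρ X I v = j ∧ v.1 % W = r.1 ∧
        v.2 % W = r.2), Fq c (fm x y) v = _ := h2.trans (by convert h1 using 2)
    rw [h3, hcast]
    exact abs_sub _ _
  refine (Finset.sum_le_sum (fun j hj => hone j (Finset.mem_filter.1 hj).2)).trans ?_
  have hinj : Set.InjOn (fun j : ℕ => ((Nat.unpair j).1 - 1, (Nat.unpair j).2))
      (((Bv b).image (pc x y t h ρ X I)).filter (fun j => Exa x y t h ρ X I b j) : Finset ℕ) := by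
    intro j hj j' hj' he
    rw [Finset.mem_coe, Finset.mem_filter] at hj hj'
    have a1 : 1 ≤ (Nat.unpair j).1 := hj.2.2.1
    have a2 : 1 ≤ (Nat.unpair j').1 := hj'.2.2.1
    simp only [Prod.mk.injEq] at he
    have a3 : Nat.unpair j = Nat.unpair j' := Prod.ext (by omega) he.2
    rw [← Nat.pair_unpair j, ← Nat.pair_unpair j', a3]
  have hle : ∑ j ∈ ((Bv b).image (pc x y t h ρ X I)).filter (fun j => Exa x y t h ρ X I b j),
      (wG c W X ρ t h ((Nat.unpair j).1 - 1) (Nat.unpair j).2 +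
        wG c W X ρ t h ((Nat.unpair j).1 - 1) ((Nat.unpair j).2 + 1)) ≤
      ∑ p ∈ (Finset.range K).filter (fun k : ℕ => al x ≤ t + k * h ∧
        t + ((k : ℝ) + 1) * h ≤ al y) ×ˢ Finset.range I,
        (wG c W X ρ t h p.1 p.2 + wG c W X ρ t h p.1 (p.2 + 1)) := by
    rw [← Finset.sum_image (f := fun p : ℕ × ℕ => wG c W X ρ t h p.1 p.2 +
      wG c W X ρ t h p.1 (p.2 + 1)) hinj]
    refine Finset.sum_le_sum_of_subset_of_nonneg ?_ ?_
    · intro p hp
      rw [Finset.mem_image] at hp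
      obtain ⟨j, hj, rfl⟩ := hp
      obtain ⟨e1, e2, e3, e4, -⟩ := (Finset.mem_filter.1 hj).2
      have hcast : (((Nat.unpair j).1 - 1 : ℕ) : ℝ) = ((Nat.unpair j).1 : ℝ) - 1 := by
        push_cast [e2]
        ring
      rw [Finset.mem_product, Finset.mem_filter, Finset.mem_range, Finset.mem_range]
      refine ⟨⟨?_, ?_, ?_⟩, e1⟩
      · apply hK
        change ((((Nat.unpair j).1 - 1 : ℕ) : ℝ) + 1) * h ≤ 2
        rw [hcast]
        have : ((Nat.unpair j).1 : ℝ) - 1 + 1 = (Nat.unpair j).1 := by ring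
        rw [this]
        linarith
      · change al x ≤ t + (((Nat.unpair j).1 - 1 : ℕ) : ℝ) * h
        rw [hcast]
        exact e3
      · change t + ((((Nat.unpair j).1 - 1 : ℕ) : ℝ) + 1) * h ≤ al y
        rw [hcast]
        have : ((Nat.unpair j).1 : ℝ) - 1 + 1 = (Nat.unpair j).1 := by ring
        rw [this]
        exact e4
    · intro p _ _
      exact add_nonneg (wG_nonneg _ _ _ _ _ _ _ _) (wG_nonneg _ _ _ _ _ _ _ _)
  refine hle.trans ?_
  rw [Finset.sum_product]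
  refine Finset.sum_le_sum ?_
  intro k _
  rw [Finset.sum_add_distrib, two_mul]
  refine add_le_add ?_ ?_
  · refine Finset.sum_le_sum_of_subset_of_nonneg ?_ (fun i _ _ => wG_nonneg _ _ _ _ _ _ _ _)
    intro i hi
    rw [Finset.mem_range] at hi ⊢
    omega
  · rw [Finset.sum_range_succ' (fun i => wG c W X ρ t h k i) I]
    exact le_add_of_nonneg_right (wG_nonneg _ _ _ _ _ _ _ _)

private theorem win_Fq_le (c : ℕ) (Q : Fm) (v : ℕ × ℕ) : |Fq c Q v| ≤ 1 := by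
  unfold Fq Fl
  split_ifs
  · push_cast
    rw [abs_pow, abs_neg, abs_one, one_pow]
  · simp
  · simp

open Classical in
/-- one bad cell -/
private theorem win_cell (c : ℕ) {W : ℕ} (hW : 1 ≤ W) {η : ℝ} (hη : 0 < η) {x y : ℤ√2}
    (hF : Fr x y)
    (hx : 0 ≤ al x) (hy : al y ≤ 2) {t h ρ X : ℝ} (ht : 0 ≤ t) (hh : 0 < h) (hρ : 0 < ρ)
    (hρ1 : ρ < 1) (hX : 0 < X) (I b P : ℕ) (hb : ∀ v ∈ Bv b, (nm (zv x y v) : ℝ) < X) (K : ℕ)
    (hK : ∀ k : ℕ, ((k : ℝ) + 1) * h ≤ 2 → k < K)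
    (hpc : ∀ v ∈ Bv b, ∀ v' ∈ Bv b, pc x y t h ρ X I v = pc x y t h ρ X I v' →
      |(v.1 : ℝ) - v'.1| ≤ η / 2 * √P ∧ |(v.2 : ℝ) - v'.2| ≤ η / 2 * √P)
    (hin : (((Bv b).filter (fun v => ¬ Exa x y t h ρ X I b (pc x y t h ρ X I v))).card : ℝ) ≤
      η / 2 * P) (hns : ¬ Sm W η P b (Fq c (fm x y))) :
    η / 2 * P ≤
    ∑ k ∈ (Finset.range K).filter (fun k : ℕ => al x ≤ t + k * h ∧ t + ((k : ℝ) + 1) * h ≤ al y),
      2 * ∑ i ∈ Finset.range (I + 1), wG c W X ρ t h k i := by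
  by_contra hcon
  push Not at hcon
  apply hns
  refine ⟨pc x y t h ρ X I, ?_, ?_⟩
  · intro v hv v' hv' he
    obtain ⟨h1, h2⟩ := hpc v hv v' hv' he
    have h3 : η / 2 * √P ≤ η * √P := by
      have := mul_nonneg hη.le (Real.sqrt_nonneg (P : ℝ))
      linarith
    exact ⟨h1.trans h3, h2.trans h3⟩
  · have h1 := win_exact c hW hF hx hy ht hh hρ hρ1 hX I b hb K hK
    have h2 := win_inexact W hW (Bv b) (pc x y t h ρ X I) (Fq c (fm x y)) (win_Fq_le c (fm x y))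
      (fun j => Exa x y t h ρ X I b j)
    rw [← Finset.sum_filter_add_sum_filter_not ((Bv b).image (pc x y t h ρ X I))
      (fun j => Exa x y t h ρ X I b j)]
    have h3 := add_le_add (h1.trans hcon.le) (h2.trans hin)
    have h4 : η / 2 * (P : ℝ) + η / 2 * P = η * P := by ring
    rw [h4] at h3
    exact h3

open Classical in
private theorem win_main (c W : ℕ) (hW : 1 ≤ W) (η C0 δ : ℝ) (hη : 0 < η) (hC0 : 1 ≤ C0)
    (hδ : 0 < δ) :
    ∃ P1 : ℕ, ∀ P : ℕ, P1 ≤ P → ∃ T1 : ℝ, ∀ T : ℝ, T1 ≤ T →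
    (((Cl T).filter (fun Q => Gc δ T Q ∧ ¬ Sm W η P ⌊C0 * √P⌋₊ (Fq c Q))).card : ℝ) ≤ η * T := by
  have hδ' : 0 < min δ 1 := lt_min hδ one_pos
  have hη2' : 0 < η / 2 := by positivity
  obtain ⟨ρ, η2, I, hρ, hρ1, hη2, hI, PA, TA, hTA, hA⟩ :=
    inexact_card (η / 2) C0 (min δ 1) hη2' hC0 hδ' (min_le_right _ _)
  obtain ⟨PB, hB⟩ := grid_mean c W hW C0 ρ η2 (η ^ 2 / 4) hC0 hρ hρ1 hη2 (by positivity) I
  refine ⟨max (max PA PB) 1, fun P hP => ?_⟩
  have hPA : PA ≤ P := le_trans (le_trans (le_max_left _ _) (le_max_left _ _)) hP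
  have hPB : PB ≤ P := le_trans (le_trans (le_max_right _ _) (le_max_left _ _)) hP
  have hP1 : 1 ≤ P := le_trans (le_max_right _ _) hP
  have hP0 : (0 : ℝ) < P := by exact_mod_cast hP1
  obtain ⟨TB, hTB, hB'⟩ := hB P hPB
  refine ⟨max TA TB, fun T hT => ?_⟩
  have hTA' : TA ≤ T := le_trans (le_max_left _ _) hT
  have hTB' : TB ≤ T := le_trans (le_max_right _ _) hT
  have hTpos : 0 < T := by linarith
  obtain ⟨t, ht0, ht1, hG⟩ := hB' T hTB'
  have hC0' : 0 < C0 := by linarith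
  have hhpos : 0 < η2 / T := by positivity
  have hXpos : 0 < 7 * C0 ^ 2 * P * T := by positivity
  have hbasis : ∀ Q ∈ (Cl T).filter (fun Q => Gc δ T Q ∧ ¬ Sm W η P ⌊C0 * √P⌋₊ (Fq c Q)),
      ∃ p : ℤ√2 × ℤ√2, Fr p.1 p.2 ∧ fm p.1 p.2 = Q ∧ 0 ≤ al p.1 ∧ al p.1 < 1 := by
    intro Q hQ
    obtain ⟨x, y, h1, h2, h3, h4⟩ := win_basis hTpos.le (Finset.mem_filter.1 hQ).1
    exact ⟨(x, y), h1, h2, h3, h4⟩
  choose! p hp using hbasis
  generalize hbad : (Cl T).filter (fun Q => Gc δ T Q ∧ ¬ Sm W η P ⌊C0 * √P⌋₊ (Fq c Q)) = bad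
    at hp ⊢
  have hbad' : ∀ Q ∈ bad, Q ∈ Cl T ∧ Gc δ T Q ∧ ¬ Sm W η P ⌊C0 * √P⌋₊ (Fq c Q) := by
    intro Q hQ
    rw [← hbad] at hQ
    exact Finset.mem_filter.1 hQ
  have hK : ∀ k : ℕ, ((k : ℝ) + 1) * (η2 / T) ≤ 2 → k < ⌊2 / (η2 / T)⌋₊ := by
    intro k hk
    have h1 : ((k + 1 : ℕ) : ℝ) ≤ 2 / (η2 / T) := by
      rw [le_div_iff₀ hhpos]
      push_cast
      exact hk
    exact Nat.lt_of_succ_le (Nat.le_floor h1)
  have hK2 : (⌊2 / (η2 / T)⌋₊ : ℝ) * (η2 / T) ≤ 2 := by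
    rw [← le_div_iff₀ hhpos]
    exact Nat.floor_le (by positivity)
  have hG' := hG _ hK2
  have hcell : ∀ Q ∈ bad, η / 2 * P ≤
      ∑ k ∈ (Finset.range ⌊2 / (η2 / T)⌋₊).filter (fun k : ℕ => al (p Q).1 ≤ t + k * (η2 / T) ∧
        t + ((k : ℝ) + 1) * (η2 / T) ≤ al (p Q).2),
      2 * ∑ i ∈ Finset.range (I + 1), wG c W (7 * C0 ^ 2 * P * T) ρ t (η2 / T) k i := by
    intro Q hQ
    obtain ⟨hF, hf, h0, h1⟩ := hp Q hQ
    obtain ⟨b1, b2, b3⟩ := hbad' Q hQ
    have hGc : Gc (min δ 1) T (fm (p Q).1 (p Q).2) := by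
      rw [hf]
      have hmul : min δ 1 * T ≤ δ * T := mul_le_mul_of_nonneg_right (min_le_left _ _) hTpos.le
      exact ⟨hmul.trans b2.1, hmul.trans b2.2⟩
    obtain ⟨⟨a1, a2⟩, a3, a4⟩ := hA T hTA' (p Q).1 (p Q).2 hF (by rw [hf]; exact b1) hGc h0 h1 P
      hPA t ht0 ht1
    refine win_cell c hW hη hF h0 a1 ht0 hhpos hρ hρ1 hXpos I ⌊C0 * √P⌋₊ P a2 _ hK a3 a4 ?_
    rw [hf]
    exact b3
  have hsum : (bad.card : ℝ) * (η / 2 * P) ≤ ∑ k ∈ Finset.range ⌊2 / (η2 / T)⌋₊,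
      2 * ∑ i ∈ Finset.range (I + 1), wG c W (7 * C0 ^ 2 * P * T) ρ t (η2 / T) k i := by
    have h1 := Finset.sum_le_sum hcell
    rw [Finset.sum_const, nsmul_eq_mul] at h1
    refine h1.trans ?_
    rw [← Finset.sum_biUnion]
    · refine Finset.sum_le_sum_of_subset_of_nonneg ?_ ?_
      · intro k hk
        rw [Finset.mem_biUnion] at hk
        obtain ⟨Q, -, hk⟩ := hk
        exact (Finset.mem_filter.1 hk).1
      · intro k _ _
        exact mul_nonneg zero_le_two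
          (Finset.sum_nonneg fun i _ => wG_nonneg _ _ _ _ _ _ _ _)
    · intro Q hQ Q' hQ' hne
      rw [Function.onFun, Finset.disjoint_left]
      intro k hk hk'
      apply hne
      obtain ⟨hF, hf, -, -⟩ := hp Q hQ
      obtain ⟨hF', hf', -, -⟩ := hp Q' hQ'
      have k1 := (Finset.mem_filter.1 hk).2
      have k2 := (Finset.mem_filter.1 hk').2
      have hlt : t + (k : ℝ) * (η2 / T) < t + ((k : ℝ) + 1) * (η2 / T) := by linarith
      have h2 := win_disj hTpos.le hF hF' (by rw [hf]; exact (hbad' Q hQ).1)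
        (by rw [hf']; exact (hbad' Q' hQ').1) hlt k1.1 k1.2 k2.1 k2.2
      rw [hf, hf'] at h2
      exact h2
  have htot : ∑ k ∈ Finset.range ⌊2 / (η2 / T)⌋₊,
      2 * ∑ i ∈ Finset.range (I + 1), wG c W (7 * C0 ^ 2 * P * T) ρ t (η2 / T) k i ≤
      2 * (η ^ 2 / 4 * P * T) := by
    rw [← Finset.mul_sum]
    exact mul_le_mul_of_nonneg_left hG' zero_le_two
  have h5 := hsum.trans htot
  have h6 : (bad.card : ℝ) * (η / 2 * P) ≤ η * T * (η / 2 * P) := by
    refine h5.trans (le_of_eq ?_)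
    ring
  exact le_of_mul_le_mul_right h6 (by positivity)

end aux

open Classical in
/-- **Windows.** Parameters `ρ, η2, I` from `inexact_card` with `η / 2` (it is enough to treat
`δ ≤ 1`; for `δ > 1` use `δ = 1`, `Gc` is decreasing in `δ`), `h = η2 / T`, `X = 7 C0² P T`, and `t` from
`grid_mean` with `ε = η² / 4`. For every good cell choose a basis `(x, y)` with `0 ≤ al x < 1` (multiply
by a unit) and use the labels `pc`. Vectors with inexact labels contribute at most `(η / 2) P`. For exact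
labels `j = (k + 1, i)` use `exact_sum`: the contribution is at most the sum over `r` of the absolute
values of the two window sums at the position `t + k h`, shells `i`, `i + 1`, for the class of
`zv x y r`, which runs through all classes modulo `W` once (`zv_class`). The cones of different cells
have disjoint interiors (`cell_unique`), so each window position `k` belongs to at most one cell, and the
sum over all good cells of the exact parts is at most `2 * (η² / 4) P T` (`(k + 1) h ≤ al y ≤ 2`). Hence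
at most `η T` good cells have exact part larger than `(η / 2) P`. -/
theorem windows (c W : ℕ) (hW : 1 ≤ W) (η C0 δ : ℝ) (hη : 0 < η) (hC0 : 1 ≤ C0) (hδ : 0 < δ) :
    ∃ P1 : ℕ, ∀ P : ℕ, P1 ≤ P → ∃ T1 : ℝ, ∀ T : ℝ, T1 ≤ T →
    (((Cl T).filter (fun Q => Gc δ T Q ∧ ¬ Sm W η P ⌊C0 * √P⌋₊ (Fq c Q))).card : ℝ) ≤ η * T :=
  win_main c W hW η C0 δ hη hC0 hδ

end

end Pool.Agent.Lib.MP_0b748d_nt.HH
end

section

set_option autoImplicit false

/-!
# Assembly: averages and test functions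
-/

namespace Pool.Agent.Lib.MP_0b748d_nt.HH

open Filter Topology MR

noncomputable section

/-! ### averages -/

theorem asmK_Bd_abs_le {φ ψ : ℕ → ℕ → Fm → ℝ} (h : ∀ n i, ∀ Q ∈ Cl (tt n i), |φ n i Q| ≤ |ψ n i Q|)
    (k : Bd ψ) : Bd φ := by
  obtain ⟨C, hC⟩ := k
  exact ⟨C, fun n i hn => (Finset.sum_le_sum (h n i)).trans (hC n i hn)⟩

theorem asmK_Bd_dbl {S : Finset ℕ} {B : ℕ → Finset Mt} {f : ℕ → ℕ → Fm → ℕ → Mt → ℝ}
    (c : ℕ → ℝ) (h : ∀ n i Q, ∀ p ∈ S, ∀ M ∈ B p, |f n i Q p M| ≤ c p) :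
    Bd (fun n i Q => ∑ p ∈ S, ∑ M ∈ B p, f n i Q p M) := by
  refine Bd_of_le (C := ∑ p ∈ S, ∑ M ∈ B p, c p) fun n i Q _ => ?_
  refine (Finset.abs_sum_le_sum_abs _ _).trans (Finset.sum_le_sum fun p hp => ?_)
  exact (Finset.abs_sum_le_sum_abs _ _).trans (Finset.sum_le_sum fun M hM => h n i Q p hp M hM)

theorem asmK_Av_tri {U : Ultrafilter ℕ} (hU : (U : Filter ℕ) ≤ atTop)
    {φ ψ θ : ℕ → ℕ → Fm → ℝ} (hφ : Bd φ) (hψ : Bd ψ) (hθ : Bd θ) (T0 : ℝ)
    (h : ∀ n i, T0 ≤ tt n i → ∀ Q ∈ Cl (tt n i), |φ n i Q - ψ n i Q| ≤ θ n i Q) :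
    |Av U φ| ≤ |Av U ψ| + Av U θ := by
  have h1 : Bd (fun n i Q => φ n i Q + (-1) * ψ n i Q) := Bd_add hφ (Bd_smul (-1) hψ)
  have h2 : |Av U (fun n i Q => φ n i Q + (-1) * ψ n i Q)| ≤ Av U θ := by
    refine Av_abs_le hU hθ T0 (fun n i hT Q hQ => ?_) h1
    have := h n i hT Q hQ
    rwa [show φ n i Q + (-1) * ψ n i Q = φ n i Q - ψ n i Q by ring]
  rw [Av_add hφ (Bd_smul (-1) hψ), Av_smul (-1) hψ] at h2
  have h3 : Av U φ = Av U ψ + (Av U φ + (-1) * Av U ψ) := by ring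
  rw [h3]
  exact (abs_add_le _ _).trans (add_le_add le_rfl h2)

theorem asmK_Av_const {U : Ultrafilter ℕ} (c : ℝ) : Av U (fun _ _ _ => c) = c * mass U := by
  have h := Av_smul (U := U) c (Bd_of_le (φ := fun _ _ _ => (1 : ℝ)) (C := 1)
    (fun n i Q _ => by simp))
  unfold mass
  rw [← h]
  congr 1
  funext n i Q
  ring

theorem asmK_Bd_const (c : ℝ) : Bd (fun _ _ _ => c) :=
  Bd_of_le (C := |c|) fun _ _ _ _ => le_rfl

/-! ### the test functions -/

/-- truncation -/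
def asmK_cl (t : ℝ) : ℝ := if |t| ≤ 1 then t else 0

theorem asmK_cl_abs (t : ℝ) : |asmK_cl t| ≤ 1 := by
  unfold asmK_cl
  split_ifs with h
  · exact h
  · norm_num

theorem asmK_cl_eq {t : ℝ} (h : |t| ≤ 1) : asmK_cl t = t := by
  unfold asmK_cl
  rw [if_pos h]

/-- the main test function -/
def asmK_ka (W : ℝ → ℝ → ℝ) (s m : ℕ) (γ : ℕ → ℤ) (p : ℕ) (y : Pt × Option (ℕ × ℕ × ℕ)) (M : Mt) :
    ℝ := asmK_cl (γ p * (Kz W s m y.2 p (M.a, M.c) (M.b, M.d) * lk1 y.1 (M.a, M.c) *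
      lk2 y.1 (M.b, M.d)))

theorem asmK_Kz_abs {a b L : ℝ} {W : ℝ → ℝ → ℝ} (hW : Wt a b L W) (s m : ℕ)
    (z : Option (ℕ × ℕ × ℕ)) (D : ℝ) (v w : ℕ × ℕ) : |Kz W s m z D v w| ≤ 1 := by
  unfold Kz
  cases z with
  | none => simp
  | some g => exact hW.bd _ _

theorem asmK_ka_eq {a b L : ℝ} {W : ℝ → ℝ → ℝ} (hW : Wt a b L W) (s m : ℕ) {γ : ℕ → ℤ}
    (hγ : ∀ p, γ p = 1 ∨ γ p = -1) (p : ℕ) (y : Pt × Option (ℕ × ℕ × ℕ)) (M : Mt)
    (h1 : ∀ v, |lk1 y.1 v| ≤ 1) (h2 : ∀ v, |lk2 y.1 v| ≤ 1) :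
    asmK_ka W s m γ p y M = γ p * (Kz W s m y.2 p (M.a, M.c) (M.b, M.d) * lk1 y.1 (M.a, M.c) *
      lk2 y.1 (M.b, M.d)) := by
  unfold asmK_ka
  refine asmK_cl_eq ?_
  have hg : |(γ p : ℝ)| = 1 := by
    rcases hγ p with h | h <;> rw [h] <;> norm_num
  rw [abs_mul, hg, one_mul, abs_mul, abs_mul]
  have h3 := asmK_Kz_abs hW s m y.2 p (M.a, M.c) (M.b, M.d)
  calc |Kz W s m y.2 p (M.a, M.c) (M.b, M.d)| * |lk1 y.1 (M.a, M.c)| * |lk2 y.1 (M.b, M.d)|
      ≤ 1 * 1 * 1 := mul_le_mul (mul_le_mul h3 (h1 _) (abs_nonneg _) zero_le_one) (h2 _)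
        (abs_nonneg _) (by norm_num)
    _ = 1 := by norm_num

/-- the test function of the missing vectors -/
def asmK_mi (x : Pt) (M : Mt) : ℝ := (ms x (M.a, M.c) + ms x (M.b, M.d)) / 2

theorem asmK_ms_nonneg (x : Pt) (v : ℕ × ℕ) : 0 ≤ ms x v := by
  unfold ms
  split_ifs <;> norm_num

theorem asmK_ms_le (x : Pt) (v : ℕ × ℕ) : ms x v ≤ 1 := by
  unfold ms
  split_ifs <;> norm_num

theorem asmK_mi_abs (x : Pt) (M : Mt) : |asmK_mi x M| ≤ 1 := by
  unfold asmK_mi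
  have h1 := asmK_ms_nonneg x (M.a, M.c)
  have h2 := asmK_ms_nonneg x (M.b, M.d)
  have h3 := asmK_ms_le x (M.a, M.c)
  have h4 := asmK_ms_le x (M.b, M.d)
  rw [abs_of_nonneg (by positivity)]
  linarith

open Classical in
/-- the indicator of the vanishing of the residue form -/
def asmK_z (p : ℕ) (Q : Fm) (M : Mt) : ℝ := if zr (res p Q) M then (1 : ℝ) else 0

theorem asmK_z_abs (p : ℕ) (Q : Fm) (M : Mt) : |asmK_z p Q M| ≤ 1 := by
  unfold asmK_z
  split_ifs <;> norm_num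

open Classical in
theorem asmK_split {U : Ultrafilter ℕ} {S : Finset ℕ} {b : ℕ} {α : Type}
    {X : ℕ → ℕ → Fm → α} {κ : ℕ → α → Mt → ℝ} (hκ : ∀ p x M, |κ p x M| ≤ 1) {R : ℝ}
    (h : |Av U (fun n i Q => ∑ p ∈ S, ∑ M ∈ (Bx b).filter (fun M => M.Dt p),
      κ p (X n i Q) M * ((if zr (res p Q) M then (1 : ℝ) else 0) - qp p))| ≤ R) :
    |Av U (fun n i Q => ∑ p ∈ S, ∑ M ∈ (Bx b).filter (fun M => M.Dt p),
      κ p (X n i Q) M * asmK_z p Q M)| ≤
    |Av U (fun n i Q => ∑ p ∈ S, ∑ M ∈ (Bx b).filter (fun M => M.Dt p),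
      κ p (X n i Q) M * qp p)| + R := by
  have hb1 : Bd (fun n i Q => ∑ p ∈ S, ∑ M ∈ (Bx b).filter (fun M => M.Dt p),
      κ p (X n i Q) M * ((if zr (res p Q) M then (1 : ℝ) else 0) - qp p)) := by
    refine asmK_Bd_dbl (fun p => 1 + |qp p|) fun n i Q p _ M _ => ?_
    rw [abs_mul]
    have h1 : |(if zr (res p Q) M then (1 : ℝ) else 0) - qp p| ≤ 1 + |qp p| :=
      (abs_sub _ _).trans (add_le_add (by split_ifs <;> norm_num) le_rfl)
    calc _ ≤ 1 * (1 + |qp p|) := mul_le_mul (hκ _ _ _) h1 (abs_nonneg _) zero_le_one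
      _ = _ := one_mul _
  have hb2 : Bd (fun n i Q => ∑ p ∈ S, ∑ M ∈ (Bx b).filter (fun M => M.Dt p),
      κ p (X n i Q) M * qp p) := by
    refine asmK_Bd_dbl (fun p => |qp p|) fun n i Q p _ M _ => ?_
    rw [abs_mul]
    calc _ ≤ 1 * |qp p| := mul_le_mul_of_nonneg_right (hκ _ _ _) (abs_nonneg _)
      _ = _ := one_mul _
  have h1 : Av U (fun n i Q => ∑ p ∈ S, ∑ M ∈ (Bx b).filter (fun M => M.Dt p),
      κ p (X n i Q) M * asmK_z p Q M) =
      Av U (fun n i Q => ∑ p ∈ S, ∑ M ∈ (Bx b).filter (fun M => M.Dt p),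
        κ p (X n i Q) M * qp p) +
      Av U (fun n i Q => ∑ p ∈ S, ∑ M ∈ (Bx b).filter (fun M => M.Dt p),
      κ p (X n i Q) M * ((if zr (res p Q) M then (1 : ℝ) else 0) - qp p)) := by
    rw [← Av_add hb2 hb1]
    congr 1
    funext n i Q
    rw [← Finset.sum_add_distrib]
    refine Finset.sum_congr rfl fun p _ => ?_
    rw [← Finset.sum_add_distrib]
    refine Finset.sum_congr rfl fun M _ => ?_
    unfold asmK_z
    ring
  rw [h1]
  exact (abs_add_le _ _).trans (add_le_add le_rfl h)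

end

end Pool.Agent.Lib.MP_0b748d_nt.HH
end
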