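import Pool.Agent.Lib.MP_0b748d_nt.MR.VExp
import Pool.Agent.Lib.MP_0b748d_nt.HH.AsmC
import Pool.Agent.Lib.MP_0b748d_nt.HH.AsmE
import Pool.Agent.Lib.MP_0b748d_nt.HH.ExF
import Pool.Agent.Lib.MP_0b748d_nt.HH.AsmKA
import Pool.Agent.Lib.MP_0b748d_nt.HH.ExC
import Pool.Agent.Lib.MP_0b748d_nt.HH.DecF
import Pool.Agent.Lib.MP_0b748d_nt.HH.PrimeF

section

set_option autoImplicit false

/-!
# The number of balanced pairs in a dyadic interval
-/

namespace Pool.Agent.Lib.MP_0b748d_nt.HH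

open Zsqrtd MR

noncomputable section

/-- the balanced pairs `(n, d)`, `d ∣ n ^ 2 - 2`, with `X < n ≤ 2 X` and `n ≡ c mod 2` -/
def Bal (D X c : ℕ) : Finset (ℕ × ℕ) :=
  (Finset.Ioc X (2 * X) ×ˢ Finset.Icc 1 (2 * D * X)).filter (fun x => x.2 ∣ x.1 ^ 2 - 2 ∧
    x.1 ≤ D * x.2 ∧ x.2 ≤ D * x.1 ∧ x.1 % 2 = c)

private theorem finH_cop {w : ℤ√2} (hw : Prim w) : IsCoprime (nm w) w.im := by
  have h1 : IsCoprime (w.re ^ 2) w.im := IsCoprime.pow_left hw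
  have h2 : nm w = w.re ^ 2 + w.im * (-2 * w.im) := by
    unfold nm
    ring
  rw [h2]
  exact (IsCoprime.add_mul_left_left_iff).2 h1

private theorem finH_root {w : ℤ√2} (hw : Can w) {X c : ℕ} (hc : c < 2) {d : ℕ}
    (hd : nm w = (d : ℤ)) (h2 : 2 * d ≤ X) :
    ∃ n : ℕ, X < n ∧ n ≤ 2 * X ∧ n % 2 = c ∧ (d : ℤ) ∣ w.re - n * w.im := by
  have hodd : nm w % 2 = 1 := nm_odd hw.1.2
  have hd1 : d % 2 = 1 := by omega
  have hcop : IsCoprime (d : ℤ) w.im := hd ▸ finH_cop hw.2.1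
  obtain ⟨a, b, hab⟩ := hcop
  -- residue modulo d
  set r : ℤ := w.re * b with hr
  have h3 : (d : ℤ) ∣ w.re - r * w.im := by
    refine ⟨w.re * a, ?_⟩
    rw [hr]
    linear_combination (-w.re) * hab
  -- combine with the parity
  set m : ℤ := r + d * (r - c) with hm
  have h4 : (m - c) % 2 = 0 := by
    have e : m - c = (1 + d) * (r - c) := by rw [hm]; ring
    rw [e, Int.mul_emod]
    have e2 : ((1 : ℤ) + d) % 2 = 0 := by omega
    rw [e2]
    simp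
  have h5 : (d : ℤ) ∣ w.re - m * w.im := by
    have e : w.re - m * w.im = (w.re - r * w.im) - d * ((r - c) * w.im) := by rw [hm]; ring
    rw [e]
    exact dvd_sub h3 (Dvd.intro _ rfl)
  have hd0 : 0 < d := by omega
  -- shift into the interval
  set q : ℤ := (m - (X + 1)) / (2 * d) with hq
  set k : ℤ := m - 2 * d * q with hk
  have hdd : (0 : ℤ) < 2 * d := by omega
  have h6 : (m - (X + 1)) % (2 * d) = m - (X + 1) - 2 * d * q := by
    rw [hq, Int.emod_def]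
  have h7 := Int.emod_nonneg (m - (X + 1)) hdd.ne'
  have h8 := Int.emod_lt_of_pos (m - (X + 1)) hdd
  rw [h6] at h7 h8
  have hk1 : (X : ℤ) + 1 ≤ k := by rw [hk]; linarith
  have hk2 : k < X + 1 + 2 * d := by rw [hk]; linarith
  obtain ⟨n, hn⟩ := Int.eq_ofNat_of_zero_le (show 0 ≤ k by omega)
  refine ⟨n, by omega, by omega, ?_, ?_⟩
  · have e : (n : ℤ) - c = (m - c) - 2 * (d * q) := by rw [← hn, hk]; ring
    omega
  · rw [← hn, hk]
    have e : w.re - (m - 2 * d * q) * w.im = (w.re - m * w.im) + d * (2 * q * w.im) := by ring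
    rw [e]
    exact dvd_add h5 (Dvd.intro _ rfl)

private theorem finH_sq {w : ℤ√2} (hw : Prim w) {d n : ℕ} (hd : nm w = (d : ℤ))
    (h : (d : ℤ) ∣ w.re - n * w.im) : (d : ℤ) ∣ (n : ℤ) ^ 2 - 2 := by
  have hcop : IsCoprime (d : ℤ) (w.im ^ 2) := IsCoprime.pow_right (hd ▸ finH_cop hw)
  apply hcop.dvd_of_dvd_mul_right
  have e : ((n : ℤ) ^ 2 - 2) * w.im ^ 2 = nm w - (w.re - n * w.im) * (w.re + n * w.im) := by
    unfold nm
    ring
  rw [e, hd]
  exact dvd_sub (dvd_refl _) (h.mul_right _)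

private theorem finH_inj {w v : ℤ√2} (hw : Can w) (hv : Can v) {d n : ℕ} (hd : nm w = (d : ℤ))
    (hd' : nm v = (d : ℤ)) (h : (d : ℤ) ∣ w.re - n * w.im) (h' : (d : ℤ) ∣ v.re - n * v.im) :
    w = v := by
  have hpos : (0 : ℤ) < d := by
    rw [← hd]
    exact hw.1.1.nm_pos
  have hsq := finH_sq hw.2.1 hd h
  obtain ⟨a, ha⟩ : (d : ℤ) ∣ w.re * v.re - 2 * (w.im * v.im) := by
    have e : w.re * v.re - 2 * (w.im * v.im) = (w.re - n * w.im) * v.re +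
        n * w.im * (v.re - n * v.im) + ((n : ℤ) ^ 2 - 2) * (w.im * v.im) := by ring
    rw [e]
    exact dvd_add (dvd_add (h.mul_right _) (h'.mul_left _)) (hsq.mul_right _)
  obtain ⟨b, hb⟩ : (d : ℤ) ∣ w.im * v.re - w.re * v.im := by
    have e : w.im * v.re - w.re * v.im = w.im * (v.re - n * v.im) - (w.re - n * w.im) * v.im := by
      ring
    rw [e]
    exact dvd_sub (h'.mul_left _) (h.mul_right _)
  set u : ℤ√2 := ⟨a, b⟩ with hu
  have hre : nm w = w.re ^ 2 - 2 * w.im ^ 2 := rfl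
  have hre' : nm v = v.re ^ 2 - 2 * v.im ^ 2 := rfl
  have h1 : w = u * v := by
    apply Zsqrtd.ext
    · rw [Zsqrtd.re_mul, hu]
      simp only
      have e : (d : ℤ) * w.re = d * (a * v.re + 2 * b * v.im) := by
        have : (d : ℤ) * (a * v.re + 2 * b * v.im) = (d * a) * v.re + 2 * (d * b) * v.im := by ring
        rw [this, ← ha, ← hb, ← hd', hre']
        ring
      exact mul_left_cancel₀ hpos.ne' e
    · rw [Zsqrtd.im_mul, hu]
      simp only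
      have e : (d : ℤ) * w.im = d * (a * v.im + b * v.re) := by
        have : (d : ℤ) * (a * v.im + b * v.re) = (d * a) * v.im + (d * b) * v.re := by ring
        rw [this, ← ha, ← hb, ← hd', hre']
        ring
      exact mul_left_cancel₀ hpos.ne' e
  have hnm : nm u = 1 := by
    have e : nm w = nm u * nm v := by rw [h1, nm_mul]
    rw [hd, hd'] at e
    have : (d : ℤ) * 1 = d * nm u := by linarith
    exact (mul_left_cancel₀ hpos.ne' this).symm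
  have hTP : TP u := by
    have h2 : TP (w * star v) := hw.1.1.mul hv.1.star.1
    have h3 := ((TP_iff _).1 h2).1
    have h4 : (w * star v).re = d * a := by
      rw [← ha]
      simp only [Zsqrtd.re_mul, Zsqrtd.re_star, Zsqrtd.im_star]
      ring
    rw [h4] at h3
    refine (TP_iff _).2 ⟨(mul_pos_iff_of_pos_left hpos).1 h3, ?_⟩
    rw [hnm]
    exact one_pos
  obtain ⟨k, hk⟩ := eq_un hTP hnm
  rw [hk] at h1
  have h4 := al_un hv.1.1 k
  rw [← h1] at h4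
  have h5 := hw.2.2
  have h6 := hv.2.2
  have h7 : k = 0 := by
    have h8 : (-1 : ℝ) < k := by linarith [h5.1, h6.2]
    have h9 : (k : ℝ) < 1 := by linarith [h5.2, h6.1]
    have h10 : (-1 : ℤ) < k := by exact_mod_cast h8
    have h11 : k < 1 := by exact_mod_cast h9
    omega
  rw [h1, h7, un_zero, one_mul]

/-- every dyadic interval contains `≫ X` balanced pairs of each parity -/
theorem bal_lower : ∃ (c0 : ℝ) (X0 : ℕ), 0 < c0 ∧ 1 ≤ X0 ∧ ∀ D X c : ℕ, 8 ≤ D → X0 ≤ X → c < 2 →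
    c0 * X ≤ ((Bal D X c).card : ℝ) := by
  classical
  obtain ⟨X1, hX1, hU⟩ := U_dyadic
  have hk := kap1_pos
  refine ⟨kap1 / 8, ⌈4 * X1⌉₊ + 8, by positivity, by omega, fun D X c hD hX hc => ?_⟩
  have hX8 : X1 ≤ (X : ℝ) / 4 := by
    have h1 : 4 * X1 ≤ X := by
      have h2 := Nat.le_ceil (4 * X1)
      have h3 : ((⌈4 * X1⌉₊ + 8 : ℕ) : ℝ) ≤ X := by exact_mod_cast hX
      push_cast at h3
      linarith
    linarith
  have hcard := (hU ((X : ℝ) / 4) hX8).1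
  refine le_trans (by linarith) (hcard.trans ?_)
  -- the map
  have key : ∀ w ∈ Us ((X : ℝ) / 4) (2 * ((X : ℝ) / 4)), ∃ n : ℕ, X < n ∧ n ≤ 2 * X ∧ n % 2 = c ∧
      (((nm w).toNat : ℕ) : ℤ) ∣ w.re - n * w.im := by
    intro w hw
    obtain ⟨hcan, h1, h2⟩ := mem_Us.1 hw
    have hp := hcan.1.1.nm_pos
    have hd : nm w = (((nm w).toNat : ℕ) : ℤ) := (Int.toNat_of_nonneg hp.le).symm
    apply finH_root hcan hc hd
    have h3 : (2 * nm w : ℝ) ≤ X := by linarith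
    have h4 : 2 * nm w ≤ (X : ℤ) := by exact_mod_cast h3
    omega
  choose! n hn using key
  have hinj : Set.InjOn (fun w => (n w, (nm w).toNat))
      (Us ((X : ℝ) / 4) (2 * ((X : ℝ) / 4)) : Finset (ℤ√2)) := by
    intro w hw v hv hwv
    obtain ⟨e1, e2⟩ := Prod.mk.inj hwv
    have hcw := (mem_Us.1 hw).1
    have hcv := (mem_Us.1 hv).1
    have hd : nm w = (((nm w).toNat : ℕ) : ℤ) := (Int.toNat_of_nonneg hcw.1.1.nm_pos.le).symm
    have hd' : nm v = (((nm v).toNat : ℕ) : ℤ) := (Int.toNat_of_nonneg hcv.1.1.nm_pos.le).symm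
    have h1 := (hn w hw).2.2.2
    have h2 := (hn v hv).2.2.2
    rw [← e1, ← e2] at h2
    rw [← e2] at hd'
    exact finH_inj hcw hcv hd hd' h1 h2
  rw [← Finset.card_image_of_injOn hinj]
  have : (((Us ((X : ℝ) / 4) (2 * ((X : ℝ) / 4))).image (fun w => (n w, (nm w).toNat))).card) ≤
      (Bal D X c).card := by
    apply Finset.card_le_card
    intro x hx
    obtain ⟨w, hw, rfl⟩ := Finset.mem_image.1 hx
    obtain ⟨hcan, h1, h2⟩ := mem_Us.1 hw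
    obtain ⟨h3, h4, h5, h6⟩ := hn w hw
    have hp := hcan.1.1.nm_pos
    have hd : nm w = (((nm w).toNat : ℕ) : ℤ) := (Int.toNat_of_nonneg hp.le).symm
    set d := (nm w).toNat with hdd
    have hd4 : 2 * d ≤ X := by
      have h7 : (2 * nm w : ℝ) ≤ X := by linarith
      have h8 : 2 * nm w ≤ (X : ℤ) := by exact_mod_cast h7
      omega
    have hd8 : X ≤ 4 * d := by
      have h7 : (X : ℝ) ≤ 4 * nm w := by linarith
      have h8 : (X : ℤ) ≤ 4 * nm w := by exact_mod_cast h7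
      omega
    have hd0 : 1 ≤ d := by omega
    have hsq := finH_sq hcan.2.1 hd h6
    have hX8' : 8 ≤ X := by omega
    unfold Bal
    rw [Finset.mem_filter, Finset.mem_product, Finset.mem_Ioc, Finset.mem_Icc]
    refine ⟨⟨⟨h3, h4⟩, hd0, by nlinarith⟩, ?_, ?_, ?_, h5⟩
    · have h9 : 2 ≤ (n w) ^ 2 := by nlinarith
      have h10 : ((d : ℕ) : ℤ) ∣ (((n w) ^ 2 - 2 : ℕ) : ℤ) := by
        rw [Nat.cast_sub h9]
        push_cast
        exact hsq
      exact Int.natCast_dvd_natCast.1 h10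
    · calc n w ≤ 2 * X := h4
        _ ≤ 8 * d := by omega
        _ ≤ D * d := Nat.mul_le_mul_right d hD
    · calc d ≤ 1 * n w := by omega
        _ ≤ D * n w := Nat.mul_le_mul_right _ (by omega)
  exact_mod_cast this

end

end Pool.Agent.Lib.MP_0b748d_nt.HH
end

section

set_option autoImplicit false

/-!
# Assembly: the missing vectors and the bad cells
-/

namespace Pool.Agent.Lib.MP_0b748d_nt.HH

open Filter Topology MR

noncomputable section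

open Classical in
theorem asmK_miss {F G : ℕ → ℤ} {T : ℝ} (hT : 1 ≤ T) {Q : Fm} (hQ : Q ∈ Cl T)
    (S : Finset (ℕ × ℕ)) {C0 : ℝ} {P c Cs : ℕ} (hc : (c : ℝ) ≤ C0 * √P)
    (hCs : 6 * C0 ^ 2 ≤ Cs) : ∑ v ∈ Bv c, ms (gr F G Q S) v ≤
      (((Vt Q (Cs * P * T)).filter (fun v => v ∉ S)).card : ℝ) := by
  have hT0 : 0 < T := by linarith
  have hP0 : (0 : ℝ) ≤ P := Nat.cast_nonneg P
  have h1 : ∑ v ∈ Bv c, ms (gr F G Q S) v = (((Bv c).filter (fun v => v ∉ S)).card : ℝ) := by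
    rw [Finset.card_filter]
    push_cast
    refine Finset.sum_congr rfl fun v _ => ?_
    rw [(lk_gr F G Q S v).2.2]
    by_cases h : v ∈ S
    · simp [h]
    · simp [h]
  rw [h1]
  have h2 : (Bv c).filter (fun v => v ∉ S) ⊆ (Vt Q (Cs * P * T)).filter (fun v => v ∉ S) := by
    intro v hv
    rw [Finset.mem_filter] at hv ⊢
    refine ⟨?_, hv.2⟩
    have hv1 := hv.1
    rw [mem_Cl hT0.le] at hQ
    obtain ⟨hok, hd, he, -⟩ := hQ
    rw [mem_Vt hok (by positivity)]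
    unfold Bv at hv1
    rw [Finset.mem_product, Finset.mem_range, Finset.mem_range] at hv1
    have hx : (v.1 : ℝ) ≤ c := by exact_mod_cast Nat.lt_succ_iff.1 hv1.1
    have hy : (v.2 : ℝ) ≤ c := by exact_mod_cast Nat.lt_succ_iff.1 hv1.2
    have hx0 : (0 : ℝ) ≤ v.1 := Nat.cast_nonneg _
    have hy0 : (0 : ℝ) ≤ v.2 := Nat.cast_nonneg _
    have hn : (Q.n : ℝ) ≤ 2 * T := by
      have h3 : (Q.n : ℝ) ^ 2 = Q.d * Q.e + 2 := by exact_mod_cast hok.2.2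
      have h4 : (Q.d : ℝ) * Q.e ≤ T * T := mul_le_mul hd he (Nat.cast_nonneg _) hT0.le
      have h5 : (Q.n : ℝ) ^ 2 ≤ (2 * T) ^ 2 := by nlinarith
      exact le_of_sq_le_sq h5 (by positivity)
    have hval : (Q.val v.1 v.2 : ℝ) = Q.d * (v.1 : ℝ) ^ 2 + 2 * Q.n * (v.1 * v.2) +
        Q.e * (v.2 : ℝ) ^ 2 := by
      unfold Fm.val
      push_cast
      ring
    have hc2 : (c : ℝ) ^ 2 ≤ C0 ^ 2 * P := by
      calc (c : ℝ) ^ 2 ≤ (C0 * √P) ^ 2 := pow_le_pow_left₀ (Nat.cast_nonneg _) hc 2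
        _ = C0 ^ 2 * P := by rw [mul_pow, Real.sq_sqrt hP0]
    have e1 : (v.1 : ℝ) ^ 2 ≤ (c : ℝ) ^ 2 := pow_le_pow_left₀ hx0 hx 2
    have e2 : (v.2 : ℝ) ^ 2 ≤ (c : ℝ) ^ 2 := pow_le_pow_left₀ hy0 hy 2
    have e3 : (v.1 : ℝ) * v.2 ≤ (c : ℝ) ^ 2 := by
      rw [sq]
      exact mul_le_mul hx hy hy0 (Nat.cast_nonneg _)
    rw [hval]
    calc (Q.d : ℝ) * (v.1 : ℝ) ^ 2 + 2 * Q.n * (v.1 * v.2) + Q.e * (v.2 : ℝ) ^ 2
        ≤ T * (c : ℝ) ^ 2 + 2 * (2 * T) * (c : ℝ) ^ 2 + T * (c : ℝ) ^ 2 := by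
          refine add_le_add (add_le_add ?_ ?_) ?_
          · exact mul_le_mul hd e1 (by positivity) hT0.le
          · exact mul_le_mul (by linarith) e3 (by positivity) (by positivity)
          · exact mul_le_mul he e2 (by positivity) hT0.le
      _ = 6 * T * (c : ℝ) ^ 2 := by ring
      _ ≤ 6 * T * (C0 ^ 2 * P) := mul_le_mul_of_nonneg_left hc2 (by positivity)
      _ = (6 * C0 ^ 2) * P * T := by ring
      _ ≤ Cs * P * T := by
          refine mul_le_mul_of_nonneg_right (mul_le_mul_of_nonneg_right hCs hP0) hT0.le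
  exact_mod_cast Finset.card_le_card h2

open Classical in
theorem asmK_Sm {c1 : ℕ} {G : ℕ → ℤ} {Q : Fm} (S : Finset (ℕ × ℕ)) {W0 : ℕ} {η ηw : ℝ}
    {P c : ℕ} (hw : ηw ≤ η / 2) (hη : 0 < η) (h : Sm W0 ηw P c (Fq c1 Q))
    (hm : ∑ v ∈ Bv c, ms (gr (Fl c1) G Q S) v ≤ η / 2 * P) :
    Sm W0 η P c (fun v => if Nat.Coprime v.1 v.2 then lk1 (gr (Fl c1) G Q S) v else 0) := by
  have h1 := Sm_of_close W0 ηw (η - ηw) P c
    (fun v => if Nat.Coprime v.1 v.2 then lk1 (gr (Fl c1) G Q S) v else 0) (Fq c1 Q) h ?_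
    (by linarith)
  · rwa [show ηw + (η - ηw) = η by ring] at h1
  · have hP0 : (0 : ℝ) ≤ P := Nat.cast_nonneg P
    calc ∑ v ∈ Bv c, |(if Nat.Coprime v.1 v.2 then lk1 (gr (Fl c1) G Q S) v else 0) - Fq c1 Q v|
        ≤ ∑ v ∈ Bv c, ms (gr (Fl c1) G Q S) v := by
          refine Finset.sum_le_sum fun v _ => ?_
          unfold Fq
          by_cases hv : Nat.Coprime v.1 v.2
          · rw [if_pos hv, if_pos hv, (lk_gr (Fl c1) G Q S v).1, (lk_gr (Fl c1) G Q S v).2.2]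
            by_cases hs : v ∈ S
            · rw [if_pos hs, if_pos hs, sub_self, abs_zero]
            · rw [if_neg hs, if_neg hs, zero_sub, abs_neg]
              exact_mod_cast Fl_abs c1 _
          · rw [if_neg hv, if_neg hv, sub_self, abs_zero]
            exact asmK_ms_nonneg _ _
      _ ≤ η / 2 * P := hm
      _ ≤ (η - ηw) * P := mul_le_mul_of_nonneg_right (by linarith) hP0

open Classical in
theorem asmK_step5 {C0 Kms : ℝ} (hKms : 1 ≤ Kms)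
    (hM : ∀ P c : ℕ, 3 ≤ P → (c : ℝ) ≤ C0 * √P →
      ∀ a : Pt, ∑ p ∈ PP P, ∑ M ∈ (Bx c).filter (fun M => M.Dt p),
      (ms a (M.a, M.c) + ms a (M.b, M.d)) * qp p ≤
      Kms / Real.log P * ∑ v ∈ Bv c, ms a v)
    {U : Ultrafilter ℕ} (hU : (U : Filter ℕ) ≤ atTop) {P c Cs : ℕ} (hP : 3 ≤ P)
    (hc : (c : ℝ) ≤ C0 * √P) (hCs : 6 * C0 ^ 2 ≤ Cs) {F G : ℕ → ℕ → ℤ}
    {S : ℕ → ℕ → Fm → Finset (ℕ × ℕ)}
    (hb : Bd (fun n i Q => (((Vt Q (Cs * P * tt n i)).filter (fun v => v ∉ S n i Q)).card : ℝ)))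
    {ε : ℝ} (h : Av U (fun n i Q =>
      (((Vt Q (Cs * P * tt n i)).filter (fun v => v ∉ S n i Q)).card : ℝ)) ≤ ε * P) :
    |Av U (fun n i Q => ∑ p ∈ PP P, ∑ M ∈ (Bx c).filter (fun M => M.Dt p),
      asmK_mi (gr (F n) (G n) Q (S n i Q)) M * qp p)| ≤ Kms / Real.log P * (ε * P) := by
  have hlog : 0 < Real.log P := Real.log_pos (by exact_mod_cast (by omega : 1 < P))
  have hqp : ∀ p ∈ PP P, 0 ≤ qp p := fun p hp => (qp_le (PP_prime_ne hp).1 (PP_prime_ne hp).2).1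
  have hb1 : Bd (fun n i Q => ∑ p ∈ PP P, ∑ M ∈ (Bx c).filter (fun M => M.Dt p),
      asmK_mi (gr (F n) (G n) Q (S n i Q)) M * qp p) := by
    refine asmK_Bd_dbl (fun p => |qp p|) fun n i Q p _ M _ => ?_
    rw [abs_mul]
    exact mul_le_of_le_one_left (abs_nonneg _) (asmK_mi_abs _ _)
  have hK0 : 0 ≤ Kms / Real.log P := by positivity
  refine (Av_abs_le hU (Bd_smul (Kms / Real.log P) hb) 1 ?_ hb1).trans ?_
  · intro n i hT Q hQ
    have hnn : 0 ≤ ∑ p ∈ PP P, ∑ M ∈ (Bx c).filter (fun M => M.Dt p),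
        asmK_mi (gr (F n) (G n) Q (S n i Q)) M * qp p := by
      refine Finset.sum_nonneg fun p hp => Finset.sum_nonneg fun M _ => mul_nonneg ?_ (hqp p hp)
      unfold asmK_mi
      have h1 := asmK_ms_nonneg (gr (F n) (G n) Q (S n i Q)) (M.a, M.c)
      have h2 := asmK_ms_nonneg (gr (F n) (G n) Q (S n i Q)) (M.b, M.d)
      positivity
    rw [abs_of_nonneg hnn]
    have h1 := hM P c hP hc (gr (F n) (G n) Q (S n i Q))
    have h2 : ∑ p ∈ PP P, ∑ M ∈ (Bx c).filter (fun M => M.Dt p),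
        (ms (gr (F n) (G n) Q (S n i Q)) (M.a, M.c) + ms (gr (F n) (G n) Q (S n i Q)) (M.b, M.d)) *
          qp p = 2 * ∑ p ∈ PP P, ∑ M ∈ (Bx c).filter (fun M => M.Dt p),
        asmK_mi (gr (F n) (G n) Q (S n i Q)) M * qp p := by
      rw [Finset.mul_sum]
      refine Finset.sum_congr rfl fun p _ => ?_
      rw [Finset.mul_sum]
      refine Finset.sum_congr rfl fun M _ => ?_
      unfold asmK_mi
      ring
    rw [h2] at h1
    have h3 := asmK_miss (F := F n) (G := G n) hT hQ (S n i Q) hc hCs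
    have h4 := mul_le_mul_of_nonneg_left h3 hK0
    linarith
  · rw [Av_smul _ hb]
    exact mul_le_mul_of_nonneg_left h hK0

open Classical in
theorem asmK_bad {c1 W0 : ℕ} {η ηw C0 δ : ℝ} (hη : 0 < η) (hw : ηw ≤ η / 2) {P c Cs : ℕ}
    (hP : 3 ≤ P) (hc : (c : ℝ) ≤ C0 * √P) (hCs : 6 * C0 ^ 2 ≤ Cs) {T1 : ℝ}
    (hT1 : ∀ T : ℝ, T1 ≤ T →
      (((Cl T).filter (fun Q => Gc δ T Q ∧ ¬ Sm W0 ηw P c (Fq c1 Q))).card : ℝ) ≤ ηw * T)
    {U : Ultrafilter ℕ} (hU : (U : Filter ℕ) ≤ atTop) {G : ℕ → ℕ → ℤ}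
    {S : ℕ → ℕ → Fm → Finset (ℕ × ℕ)}
    (hb : Bd (fun n i Q => (((Vt Q (Cs * P * tt n i)).filter (fun v => v ∉ S n i Q)).card : ℝ)))
    {ε : ℝ} (h : Av U (fun n i Q =>
      (((Vt Q (Cs * P * tt n i)).filter (fun v => v ∉ S n i Q)).card : ℝ)) ≤ ε * P) :
    Av U (fun n i Q =>
      if Gc δ (tt n i) Q ∧ ¬ Sm W0 η P c
        (fun v => if Nat.Coprime v.1 v.2 then lk1 (gr (Fl c1) (G n) Q (S n i Q)) v else 0)
        then (1 : ℝ) else 0) ≤ ηw + 2 * ε / η := by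
  have hP0 : (0 : ℝ) < P := by exact_mod_cast (by omega : 0 < P)
  have hb1 : Bd (fun n i Q => if Gc δ (tt n i) Q ∧ ¬ Sm W0 η P c
      (fun v => if Nat.Coprime v.1 v.2 then lk1 (gr (Fl c1) (G n) Q (S n i Q)) v else 0)
      then (1 : ℝ) else 0) := by
    refine Bd_of_le (C := 1) fun n i Q _ => ?_
    split_ifs <;> norm_num
  have hb2 : Bd (fun n i Q => if Gc δ (tt n i) Q ∧ ¬ Sm W0 ηw P c (Fq c1 Q)
      then (1 : ℝ) else 0) := by
    refine Bd_of_le (C := 1) fun n i Q _ => ?_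
    split_ifs <;> norm_num
  have h1 : Av U (fun n i Q => if Gc δ (tt n i) Q ∧ ¬ Sm W0 ηw P c (Fq c1 Q)
      then (1 : ℝ) else 0) ≤ ηw := by
    refine Av_le hU hb2 T1 ηw fun n i _ hT => ?_
    rw [Finset.sum_boole]
    exact hT1 _ hT
  have h2 := Av_mono hU hb1 (Bd_add hb2 (Bd_smul (2 / (η * P)) hb)) 1 (by
    intro n i hT Q hQ
    have hc0 : (0 : ℝ) ≤ (((Vt Q (Cs * P * tt n i)).filter (fun v => v ∉ S n i Q)).card : ℝ) :=
      Nat.cast_nonneg _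
    have hk : 0 ≤ 2 / (η * P) * (((Vt Q (Cs * P * tt n i)).filter (fun v => v ∉ S n i Q)).card : ℝ) :=
      by positivity
    by_cases hx : Gc δ (tt n i) Q ∧ ¬ Sm W0 η P c
      (fun v => if Nat.Coprime v.1 v.2 then lk1 (gr (Fl c1) (G n) Q (S n i Q)) v else 0)
    · rw [if_pos hx]
      by_cases hy : Sm W0 ηw P c (Fq c1 Q)
      · have h3 : η / 2 * P < ∑ v ∈ Bv c, ms (gr (Fl c1) (G n) Q (S n i Q)) v := by
          by_contra hcon
          exact hx.2 (asmK_Sm (S n i Q) hw hη hy (not_lt.1 hcon))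
        have h4 := asmK_miss (F := Fl c1) (G := G n) hT hQ (S n i Q) hc hCs
        have h5 := h3.le.trans h4
        have h6 : (0 : ℝ) ≤ if Gc δ (tt n i) Q ∧ ¬ Sm W0 ηw P c (Fq c1 Q)
            then (1 : ℝ) else 0 := by split_ifs <;> norm_num
        have h7 : 1 ≤ 2 / (η * P) *
            (((Vt Q (Cs * P * tt n i)).filter (fun v => v ∉ S n i Q)).card : ℝ) := by
          rw [div_mul_eq_mul_div, le_div_iff₀ (by positivity)]
          linarith
        linarith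
      · have h3 : Gc δ (tt n i) Q ∧ ¬ Sm W0 ηw P c (Fq c1 Q) := And.intro hx.1 hy
        rw [if_pos h3]
        linarith
    · rw [if_neg hx]
      have h6 : (0 : ℝ) ≤ if Gc δ (tt n i) Q ∧ ¬ Sm W0 ηw P c (Fq c1 Q)
          then (1 : ℝ) else 0 := by split_ifs <;> norm_num
      linarith)
  rw [Av_add hb2 (Bd_smul _ hb), Av_smul _ hb] at h2
  refine h2.trans (add_le_add h1 ?_)
  calc 2 / (η * P) * Av U (fun n i Q =>
      (((Vt Q (Cs * P * tt n i)).filter (fun v => v ∉ S n i Q)).card : ℝ))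
      ≤ 2 / (η * P) * (ε * P) := mul_le_mul_of_nonneg_left h (by positivity)
    _ = 2 * ε / η := by field_simp

end

end Pool.Agent.Lib.MP_0b748d_nt.HH
end

section

set_option autoImplicit false

/-!
# Assembly: one cell
-/

namespace Pool.Agent.Lib.MP_0b748d_nt.HH

open Filter Topology MR

noncomputable section

/-! ### one cell -/

theorem asmK_lk1 {F G : ℕ → ℤ} (hF : ∀ m, |F m| ≤ 1) (Q : Fm) (S : Finset (ℕ × ℕ)) (v : ℕ × ℕ) :
    |lk1 (gr F G Q S) v| ≤ 1 := by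
  rw [(lk_gr F G Q S v).1]
  split_ifs
  · exact_mod_cast hF _
  · norm_num

theorem asmK_lk2 {F G : ℕ → ℤ} (hG : ∀ m, |G m| ≤ 1) (Q : Fm) (S : Finset (ℕ × ℕ)) (v : ℕ × ℕ) :
    |lk2 (gr F G Q S) v| ≤ 1 := by
  rw [(lk_gr F G Q S v).2.1]
  split_ifs
  · exact_mod_cast hG _
  · norm_num

open Classical in
theorem asmK_cell {a b L δ : ℝ} {s : ℕ} {K : ℝ} (hK0 : 1 ≤ K)
    (hK : ∀ (W : ℝ → ℝ → ℝ), Wt a b L W → ∀ F G : ℕ → ℤ,
      (∀ m, |F m| ≤ 1) → (∀ m, |G m| ≤ 1) → ∀ (T : ℝ), 2 ≤ T → ∀ Q ∈ Cl T, Gc δ T Q →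
      ∀ (P m : ℕ), 2 ≤ P → 1 ≤ m → ∀ p ∈ PP P, ∀ S : Finset (ℕ × ℕ),
      |Ph W F G b p (2 ^ s * T) Q -
        ∑ M ∈ (Bx ⌊√(2 * b * 2 ^ s / δ) * √P⌋₊).filter (fun M => M.Dt p),
          (Kz W s m (some (sh m T Q)) p (M.a, M.c) (M.b, M.d) * lk1 (gr F G Q S) (M.a, M.c) *
            lk2 (gr F G Q S) (M.b, M.d)) * (if zr (res p Q) M then (1 : ℝ) else 0)| ≤
        K / m + ∑ M ∈ (Bx ⌊√(2 * b * 2 ^ s / δ) * √P⌋₊).filter (fun M => M.Dt p),
          (ms (gr F G Q S) (M.a, M.c) + ms (gr F G Q S) (M.b, M.d)) *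
            (if zr (res p Q) M then (1 : ℝ) else 0))
    {W : ℝ → ℝ → ℝ} (hW : Wt a b L W) {F G : ℕ → ℤ} (hF : ∀ m, |F m| ≤ 1) (hG : ∀ m, |G m| ≤ 1)
    {T : ℝ} (hT : 2 ≤ T) {Q : Fm} (hQ : Q ∈ Cl T) {P m : ℕ} (hP : 2 ≤ P) (hm : 1 ≤ m)
    {γ : ℕ → ℤ} (hγ : ∀ p, γ p = 1 ∨ γ p = -1) (S : Finset (ℕ × ℕ)) :
    |∑ p ∈ PP P, γ p * (if Gc δ T Q then Ph W F G b p (2 ^ s * T) Q else 0) -
      ∑ p ∈ PP P, ∑ M ∈ (Bx ⌊√(2 * b * 2 ^ s / δ) * √P⌋₊).filter (fun M => M.Dt p),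
        asmK_ka W s m γ p (gr F G Q S, if Gc δ T Q then some (sh m T Q) else none) M * asmK_z p Q M| ≤
      (PP P).card * (K / m) +
        2 * ∑ p ∈ PP P, ∑ M ∈ (Bx ⌊√(2 * b * 2 ^ s / δ) * √P⌋₊).filter (fun M => M.Dt p),
          asmK_mi (gr F G Q S) M * asmK_z p Q M := by
  have hm0 : (0 : ℝ) < m := by exact_mod_cast hm
  have hz0 : ∀ p M, 0 ≤ asmK_z p Q M := by
    intro p M
    unfold asmK_z
    split_ifs <;> norm_num
  have hmi0 : ∀ M, 0 ≤ asmK_mi (gr F G Q S) M := by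
    intro M
    unfold asmK_mi
    have h1 := asmK_ms_nonneg (gr F G Q S) (M.a, M.c)
    have h2 := asmK_ms_nonneg (gr F G Q S) (M.b, M.d)
    positivity
  by_cases hg : Gc δ T Q
  · simp only [if_pos hg]
    rw [← Finset.sum_sub_distrib]
    refine (Finset.abs_sum_le_sum_abs _ _).trans ?_
    rw [← nsmul_eq_mul, ← Finset.sum_const, Finset.mul_sum, ← Finset.sum_add_distrib]
    refine Finset.sum_le_sum fun p hp => ?_
    have h1 := hK W hW F G hF hG T hT Q hQ hg P m hP hm p hp S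
    have hgm : |(γ p : ℝ)| = 1 := by
      rcases hγ p with h | h <;> rw [h] <;> norm_num
    have h2 : (γ p : ℝ) * Ph W F G b p (2 ^ s * T) Q -
        ∑ M ∈ (Bx ⌊√(2 * b * 2 ^ s / δ) * √P⌋₊).filter (fun M => M.Dt p),
          asmK_ka W s m γ p (gr F G Q S, some (sh m T Q)) M * asmK_z p Q M =
        γ p * (Ph W F G b p (2 ^ s * T) Q -
        ∑ M ∈ (Bx ⌊√(2 * b * 2 ^ s / δ) * √P⌋₊).filter (fun M => M.Dt p),
          (Kz W s m (some (sh m T Q)) p (M.a, M.c) (M.b, M.d) * lk1 (gr F G Q S) (M.a, M.c) *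
            lk2 (gr F G Q S) (M.b, M.d)) * (if zr (res p Q) M then (1 : ℝ) else 0)) := by
      rw [mul_sub, Finset.mul_sum]
      congr 1
      refine Finset.sum_congr rfl fun M _ => ?_
      rw [asmK_ka_eq hW s m hγ p _ M (asmK_lk1 hF Q S) (asmK_lk2 hG Q S)]
      unfold asmK_z
      ring
    rw [h2, abs_mul, hgm, one_mul]
    refine h1.trans (le_of_eq ?_)
    congr 1
    rw [Finset.mul_sum]
    refine Finset.sum_congr rfl fun M _ => ?_
    unfold asmK_mi asmK_z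
    ring
  · simp only [if_neg hg]
    have h1 : ∀ p M, asmK_ka W s m γ p (gr F G Q S, none) M = 0 := by
      intro p M
      unfold asmK_ka Kz
      simp [asmK_cl]
    simp only [h1, zero_mul, mul_zero, Finset.sum_const_zero, sub_zero, abs_zero]
    have h2 : 0 ≤ ∑ p ∈ PP P, ∑ M ∈ (Bx ⌊√(2 * b * 2 ^ s / δ) * √P⌋₊).filter (fun M => M.Dt p),
          asmK_mi (gr F G Q S) M * asmK_z p Q M :=
      Finset.sum_nonneg fun p _ => Finset.sum_nonneg fun M _ => mul_nonneg (hmi0 M) (hz0 p M)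
    positivity

theorem asmK_sh {m : ℕ} {T : ℝ} (hT : 1 ≤ T) {Q : Fm} (hQ : Q ∈ Cl T) :
    (sh m T Q).1 ≤ 2 * m ∧ (sh m T Q).2.1 ≤ 2 * m ∧ (sh m T Q).2.2 ≤ 2 * m := by
  rw [mem_Cl (by linarith)] at hQ
  obtain ⟨⟨h0, h1, h2⟩, hd, he, -⟩ := hQ
  have hT0 : 0 < T := by linarith
  have hn : (Q.n : ℝ) ≤ 2 * T := by
    have h3 : (Q.n : ℝ) ^ 2 = Q.d * Q.e + 2 := by exact_mod_cast h2
    have h4 : (Q.d : ℝ) * Q.e ≤ T * T := mul_le_mul hd he (Nat.cast_nonneg _) hT0.le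
    have h5 : (Q.n : ℝ) ^ 2 ≤ (2 * T) ^ 2 := by nlinarith
    exact le_of_sq_le_sq h5 (by positivity)
  have key : ∀ x : ℝ, x ≤ 2 * T → ⌊(m : ℝ) * x / T⌋₊ ≤ 2 * m := by
    intro x hx
    refine Nat.floor_le_of_le ?_
    rw [div_le_iff₀ hT0]
    push_cast
    have hm : (0 : ℝ) ≤ m := Nat.cast_nonneg m
    nlinarith
  exact ⟨key _ (by linarith), key _ hn, key _ (by linarith)⟩

open Classical in
theorem asmK_main {L C0 εm η : ℝ} {W0 P0 : ℕ}
    (hM : ∀ (a b : ℝ) (W : ℝ → ℝ → ℝ), Wt a b L W →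
      ∀ (s m P c : ℕ), 1 ≤ m → P0 ≤ P → (c : ℝ) ≤ C0 * √P → ∀ g : ℕ × ℕ × ℕ,
      g.1 ≤ 2 * m → g.2.1 ≤ 2 * m → g.2.2 ≤ 2 * m → ∀ γ : ℕ → ℤ, (∀ p, γ p = 1 ∨ γ p = -1) →
      ∀ x : Pt, (∀ v, |lk1 x v| ≤ 1) → (∀ v, |lk2 x v| ≤ 1) →
      Sm W0 η P c (fun v => if Nat.Coprime v.1 v.2 then lk1 x v else 0) →
      |∑ p ∈ PP P, ∑ M ∈ (Bx c).filter (fun M => M.Dt p), γ p * qp p *
        (Kz W s m (some g) p (M.a, M.c) (M.b, M.d) * lk1 x (M.a, M.c) * lk2 x (M.b, M.d))| ≤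
        εm * P / Real.log P)
    {a b : ℝ} {W : ℝ → ℝ → ℝ} (hW : Wt a b L W) (s m : ℕ) (hm : 1 ≤ m) {P c : ℕ} (hP : P0 ≤ P)
    (hP2 : 2 ≤ P) (hεm : 0 ≤ εm) (hc : (c : ℝ) ≤ C0 * √P) {γ : ℕ → ℤ} (hγ : ∀ p, γ p = 1 ∨ γ p = -1)
    {F G : ℕ → ℤ} (hF : ∀ m, |F m| ≤ 1) (hG : ∀ m, |G m| ≤ 1) {T : ℝ} (hT : 1 ≤ T) {Q : Fm}
    (hQ : Q ∈ Cl T) (S : Finset (ℕ × ℕ)) (δ : ℝ) {Kq : ℝ}
    (hq : ∀ p ∈ PP P, qp p * ((Bx c).filter (fun M => M.Dt p)).card ≤ Kq) :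
    |∑ p ∈ PP P, ∑ M ∈ (Bx c).filter (fun M => M.Dt p),
      asmK_ka W s m γ p (gr F G Q S, if Gc δ T Q then some (sh m T Q) else none) M * qp p| ≤
    εm * P / Real.log P + (PP P).card * Kq * (if Gc δ T Q ∧ ¬ Sm W0 η P c
      (fun v => if Nat.Coprime v.1 v.2 then lk1 (gr F G Q S) v else 0) then (1 : ℝ) else 0) := by
  have hlog : 0 ≤ Real.log P := Real.log_natCast_nonneg P
  have hqp : ∀ p ∈ PP P, 0 ≤ qp p := fun p hp => (qp_le (PP_prime_ne hp).1 (PP_prime_ne hp).2).1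
  have hKq : 0 ≤ (PP P).card * Kq := by
    rw [← nsmul_eq_mul, ← Finset.sum_const]
    exact Finset.sum_nonneg fun p hp => (mul_nonneg (hqp p hp) (Nat.cast_nonneg _)).trans (hq p hp)
  have hmain : 0 ≤ εm * P / Real.log P := by positivity
  by_cases hg : Gc δ T Q
  · by_cases hs : Sm W0 η P c (fun v => if Nat.Coprime v.1 v.2 then lk1 (gr F G Q S) v else 0)
    · have h0 : ¬ (Gc δ T Q ∧ ¬ Sm W0 η P c
          (fun v => if Nat.Coprime v.1 v.2 then lk1 (gr F G Q S) v else 0)) := fun h => h.2 hs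
      rw [if_neg h0, mul_zero, add_zero]
      simp only [if_pos hg]
      obtain ⟨g1, g2, g3⟩ := asmK_sh (m := m) hT hQ
      have h1 := hM a b W hW s m P c hm hP hc (sh m T Q) g1 g2 g3 γ hγ (gr F G Q S)
        (asmK_lk1 hF Q S) (asmK_lk2 hG Q S) hs
      refine le_trans (le_of_eq ?_) h1
      congr 1
      refine Finset.sum_congr rfl fun p _ => Finset.sum_congr rfl fun M _ => ?_
      rw [asmK_ka_eq hW s m hγ p _ M (asmK_lk1 hF Q S) (asmK_lk2 hG Q S)]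
      ring
    · have h01 : Gc δ T Q ∧ ¬ Sm W0 η P c
          (fun v => if Nat.Coprime v.1 v.2 then lk1 (gr F G Q S) v else 0) := And.intro hg hs
      rw [if_pos h01, mul_one]
      have h1 : |∑ p ∈ PP P, ∑ M ∈ (Bx c).filter (fun M => M.Dt p),
          asmK_ka W s m γ p (gr F G Q S, if Gc δ T Q then some (sh m T Q) else none) M * qp p| ≤
          ∑ p ∈ PP P, Kq := by
        refine (Finset.abs_sum_le_sum_abs _ _).trans (Finset.sum_le_sum fun p hp => ?_)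
        refine (Finset.abs_sum_le_sum_abs _ _).trans ?_
        refine le_trans ?_ (hq p hp)
        rw [mul_comm, ← nsmul_eq_mul, ← Finset.sum_const]
        refine Finset.sum_le_sum fun M _ => ?_
        rw [abs_mul, abs_of_nonneg (hqp p hp)]
        calc _ ≤ 1 * qp p := mul_le_mul_of_nonneg_right (asmK_cl_abs _) (hqp p hp)
          _ = qp p := one_mul _
      rw [Finset.sum_const, nsmul_eq_mul] at h1
      linarith
  · have h0 : ¬ (Gc δ T Q ∧ ¬ Sm W0 η P c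
        (fun v => if Nat.Coprime v.1 v.2 then lk1 (gr F G Q S) v else 0)) := fun h => hg h.1
    rw [if_neg h0, mul_zero, add_zero]
    simp only [if_neg hg]
    have h1 : ∀ p M, asmK_ka W s m γ p (gr F G Q S, none) M = 0 := by
      intro p M
      unfold asmK_ka Kz
      simp [asmK_cl]
    simp only [h1, zero_mul, Finset.sum_const_zero, abs_zero]
    exact hmain

end

end Pool.Agent.Lib.MP_0b748d_nt.HH
end
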