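import Pool.Agent.Lib.MP_0b748d_nt.HH.CntB
import Pool.Agent.Lib.MP_0b748d_nt.HH.FinD
import Pool.Agent.Lib.MP_0b748d_nt.HH.TreeF

section

set_option autoImplicit false

/-!
# From the limit averages to the theorem
-/

namespace Pool.Agent.Lib.MP_0b748d_nt.HH

open Filter Topology MR

noncomputable section

private lemma finA_par {n d e : ℕ} (h : n ^ 2 = d * e + 2) :
    (n % 2 = 1 → d % 2 = 1 ∧ e % 2 = 1) ∧
      (n % 2 = 0 → (d % 2 = 0 ∧ e % 2 = 1) ∨ (d % 2 = 1 ∧ e % 2 = 0)) := by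
  have hn : n % 4 = 0 ∨ n % 4 = 1 ∨ n % 4 = 2 ∨ n % 4 = 3 := by omega
  have hd : d % 4 = 0 ∨ d % 4 = 1 ∨ d % 4 = 2 ∨ d % 4 = 3 := by omega
  have he : e % 4 = 0 ∨ e % 4 = 1 ∨ e % 4 = 2 ∨ e % 4 = 3 := by omega
  have h1 : n ^ 2 % 4 = (n % 4) ^ 2 % 4 := Nat.pow_mod n 2 4
  have h2 : (d * e) % 4 = (d % 4) * (e % 4) % 4 := Nat.mul_mod d e 4
  rcases hn with hn | hn | hn | hn <;> rcases hd with hd | hd | hd | hd <;>
    rcases he with he | he | he | he <;> rw [hn] at h1 <;> rw [hd, he] at h2 <;>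
    norm_num at h1 h2 <;> omega

/-- the sum over balanced forms with `X < n ≤ 2 X` -/
def HB (D X : ℕ) (F G : ℕ → ℤ) : ℝ :=
  ∑ Q ∈ (Qs (2 * (D : ℝ) * X)).filter (fun Q => (X < Q.n ∧ Q.n ≤ 2 * X) ∧ Q.n ≤ D * Q.d ∧
    Q.d ≤ D * Q.n), ((F Q.d : ℝ) * (G Q.e : ℝ))

/-- The pairs `(n, d)`, `d ∣ n² - 2`, `n ≤ D d`, `d ≤ D n`, correspond to the forms
`(d, n, (n² - 2) / d)`; `e ≤ n² / d ≤ D n ≤ 2 D X`. `n` is odd iff `d` and `e` are odd; if `n` is even
then exactly one of `d`, `e` is even (`n² - 2 ≡ 2 mod 4`). -/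
theorem HB_sum (D X : ℕ) (hX : 1 ≤ X) (g : ℕ → ℤ) (c : ℕ) (hc : c < 2) :
    ∑ n ∈ (Finset.Ioc X (2 * X)).filter (fun n => n % 2 = c),
      ∑ d ∈ (n ^ 2 - 2).divisors.filter (fun d => n ≤ D * d ∧ d ≤ D * n),
        ((-1 : ℝ) ^ (ArithmeticFunction.cardFactors d) * (g ((n ^ 2 - 2) / d) : ℝ)) =
    if c = 1 then HB D X (Fl 1) (Gg g 1) else HB D X (Fl 0) (Gg g 1) + HB D X (Fl 1) (Gg g 0) := by
  obtain ⟨T, hT⟩ : ∃ T, T = (Qs (2 * (D : ℝ) * X)).filter
    (fun Q => (X < Q.n ∧ Q.n ≤ 2 * X) ∧ Q.n ≤ D * Q.d ∧ Q.d ≤ D * Q.n) := ⟨_, rfl⟩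
  have hY : (0 : ℝ) ≤ 2 * (D : ℝ) * X := by positivity
  have hTm : ∀ Q, Q ∈ T ↔ (Q.Ok ∧ (Q.d : ℝ) ≤ 2 * (D : ℝ) * X ∧ (Q.e : ℝ) ≤ 2 * (D : ℝ) * X) ∧
      (X < Q.n ∧ Q.n ≤ 2 * X) ∧ Q.n ≤ D * Q.d ∧ Q.d ≤ D * Q.n := by
    intro Q
    rw [hT, Finset.mem_filter, mem_Qs hY]
  have hA : ∑ n ∈ (Finset.Ioc X (2 * X)).filter (fun n => n % 2 = c),
      ∑ d ∈ (n ^ 2 - 2).divisors.filter (fun d => n ≤ D * d ∧ d ≤ D * n),
        ((-1 : ℝ) ^ (ArithmeticFunction.cardFactors d) * (g ((n ^ 2 - 2) / d) : ℝ)) =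
      ∑ Q ∈ T.filter (fun Q => Q.n % 2 = c),
        ((-1 : ℝ) ^ (ArithmeticFunction.cardFactors Q.d) * (g Q.e : ℝ)) := by
    rw [Finset.sum_sigma']
    refine Finset.sum_bij' (fun x _ => (⟨x.2, x.1, (x.1 ^ 2 - 2) / x.2⟩ : Fm))
      (fun Q _ => ⟨Q.n, Q.d⟩) ?_ ?_ ?_ ?_ ?_
    · rintro ⟨n, d⟩ hx
      rw [Finset.mem_sigma, Finset.mem_filter, Finset.mem_filter, Finset.mem_Ioc,
        Nat.mem_divisors] at hx
      obtain ⟨⟨⟨h2, hN⟩, hpar⟩, ⟨hdvd, hne⟩, hDd, hdD⟩ := hx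
      simp only at h2 hN hpar hdvd hne hDd hdD
      have h22 : 2 ≤ n := by omega
      have hd0 : 0 < d := Nat.pos_of_ne_zero fun h => by
        rw [h] at hdvd
        exact hne (zero_dvd_iff.1 hdvd)
      obtain ⟨e, he⟩ := hdvd
      have hdiv : (n ^ 2 - 2) / d = e := by
        rw [he]
        exact Nat.mul_div_cancel_left e hd0
      have h4 : 4 ≤ n ^ 2 := by nlinarith
      have hn2 : n ^ 2 = d * e + 2 := by omega
      have he0 : 0 < e := Nat.pos_of_ne_zero fun h => by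
        rw [h, mul_zero] at he
        exact hne he
      have heD : e ≤ D * n := by
        have h5 : d * e ≤ d * (D * n) := by
          calc d * e ≤ n ^ 2 := by omega
            _ = n * n := by ring
            _ ≤ (D * d) * n := Nat.mul_le_mul_right n hDd
            _ = d * (D * n) := by ring
        exact Nat.le_of_mul_le_mul_left h5 hd0
      rw [Finset.mem_filter, hTm]
      simp only
      rw [hdiv]
      refine ⟨⟨⟨⟨hd0, he0, hn2⟩, ?_, ?_⟩, ⟨h2, hN⟩, hDd, hdD⟩, hpar⟩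
      · have h6 : d ≤ 2 * D * X := (hdD.trans (Nat.mul_le_mul_left D hN)).trans (by rw [← mul_assoc, mul_comm D 2])
        exact_mod_cast h6
      · have h6 : e ≤ 2 * D * X := (heD.trans (Nat.mul_le_mul_left D hN)).trans (by rw [← mul_assoc, mul_comm D 2])
        exact_mod_cast h6
    · intro Q hQ
      rw [Finset.mem_filter, hTm] at hQ
      obtain ⟨⟨⟨⟨hd0, he0, hn2⟩, -, -⟩, ⟨h2, hN⟩, hDd, hdD⟩, hpar⟩ := hQ
      rw [Finset.mem_sigma, Finset.mem_filter, Finset.mem_filter, Finset.mem_Ioc,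
        Nat.mem_divisors]
      simp only
      have h5 : Q.n ^ 2 - 2 = Q.d * Q.e := by omega
      have h6 : 0 < Q.d * Q.e := Nat.mul_pos hd0 he0
      exact ⟨⟨⟨h2, hN⟩, hpar⟩, ⟨⟨Q.e, h5⟩, by omega⟩, hDd, hdD⟩
    · rintro ⟨n, d⟩ _
      rfl
    · intro Q hQ
      rw [Finset.mem_filter, hTm] at hQ
      obtain ⟨⟨⟨⟨hd0, he0, hn2⟩, -, -⟩, -⟩, -⟩ := hQ
      have h5 : Q.n ^ 2 - 2 = Q.d * Q.e := by omega
      apply Fm.ext
      · rfl
      · rfl
      · simp only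
        rw [h5]
        exact Nat.mul_div_cancel_left _ hd0
    · rintro ⟨n, d⟩ _
      rfl
  rw [hA, Finset.sum_filter]
  have hpt : ∀ Q ∈ T, ((Q.n % 2 = 1 → Q.d % 2 = 1 ∧ Q.e % 2 = 1) ∧
      (Q.n % 2 = 0 → (Q.d % 2 = 0 ∧ Q.e % 2 = 1) ∨ (Q.d % 2 = 1 ∧ Q.e % 2 = 0))) ∧
      Q.d ≠ 0 ∧ Q.e ≠ 0 := by
    intro Q hQ
    obtain ⟨⟨⟨hd0, he0, hn2⟩, -, -⟩, -⟩ := (hTm Q).1 hQ
    exact ⟨finA_par hn2, hd0.ne', he0.ne'⟩
  have hFl : ∀ (c' d : ℕ), d ≠ 0 → (Fl c' d : ℝ) =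
      if d % 2 = c' then (-1 : ℝ) ^ (ArithmeticFunction.cardFactors d) else 0 := by
    intro c' d hd
    unfold Fl
    by_cases h : d % 2 = c'
    · rw [if_pos ⟨h, hd⟩, if_pos h]
      push_cast
      rfl
    · rw [if_neg (fun h' => h h'.1), if_neg h, Int.cast_zero]
  have hGg : ∀ (c' e : ℕ), e ≠ 0 → (Gg g c' e : ℝ) = if e % 2 = c' then (g e : ℝ) else 0 := by
    intro c' e he
    unfold Gg
    by_cases h : e % 2 = c'
    · rw [if_pos ⟨h, he⟩, if_pos h]
    · rw [if_neg (fun h' => h h'.1), if_neg h, Int.cast_zero]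
  unfold HB
  rw [← hT]
  have hc' : c = 0 ∨ c = 1 := by omega
  rcases hc' with rfl | rfl
  · rw [if_neg (by norm_num), ← Finset.sum_add_distrib]
    apply Finset.sum_congr rfl
    intro Q hQ
    obtain ⟨⟨hp1, hp0⟩, hd, he⟩ := hpt Q hQ
    rw [hFl 0 _ hd, hFl 1 _ hd, hGg 0 _ he, hGg 1 _ he]
    rcases Nat.mod_two_eq_zero_or_one Q.n with h | h
    · rw [if_pos h]
      rcases hp0 h with ⟨h1, h2⟩ | ⟨h1, h2⟩
      · rw [if_pos h1, if_pos h2, if_neg (by omega), zero_mul, add_zero]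
      · rw [if_neg (by omega), zero_mul, zero_add, if_pos h1, if_pos h2]
    · rw [if_neg (by omega)]
      obtain ⟨h1, h2⟩ := hp1 h
      rw [if_neg (by omega), zero_mul, zero_add, if_neg (by omega : ¬ Q.e % 2 = 0),
        mul_zero]
  · rw [if_pos rfl]
    apply Finset.sum_congr rfl
    intro Q hQ
    obtain ⟨⟨hp1, hp0⟩, hd, he⟩ := hpt Q hQ
    rw [hFl 1 _ hd, hGg 1 _ he]
    rcases Nat.mod_two_eq_zero_or_one Q.n with h | h
    · rw [if_neg (by omega)]
      rcases hp0 h with ⟨h1, h2⟩ | ⟨h1, h2⟩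
      · rw [if_neg (by omega), zero_mul]
      · rw [if_neg (by omega : ¬ Q.e % 2 = 1), mul_zero]
    · obtain ⟨h1, h2⟩ := hp1 h
      rw [if_pos h, if_pos h1, if_pos h2]

end

end Pool.Agent.Lib.MP_0b748d_nt.HH
end

section

set_option autoImplicit false

/-!
# From the limit averages to the theorem
-/

namespace Pool.Agent.Lib.MP_0b748d_nt.HH

open Filter Topology MR

noncomputable section

open Classical in
/-- the forms of size about `T` near the boundary of the region -/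
def Zo (A η T : ℝ) : Finset Fm := (Qs (Real.exp (A + 2) * T)).filter (fun Q =>
  T / 8 ≤ √((Q.d : ℝ) * Q.e) ∧ (|Real.log (√((Q.d : ℝ) * Q.e) / T)| ≤ 2 * η ∨
    |Real.log (√((Q.d : ℝ) * Q.e) / T) - Real.log 2| ≤ 2 * η ∨
    |(|Real.log (√(Q.d : ℝ) / √(Q.e : ℝ))|) - A| ≤ 2 * η))

private theorem finC_plat_one {A η v : ℝ} (hη : 0 < η) (h : |v| ≤ A) : plat A η v = 1 := by
  unfold plat
  have h1 : 1 ≤ (A + η - |v|) / η := by
    rw [le_div_iff₀ hη]
    linarith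
  rw [min_eq_left h1, max_eq_right zero_le_one]

private theorem finC_plat_zero {A η v : ℝ} (hη : 0 < η) (h : A + η ≤ |v|) : plat A η v = 0 := by
  unfold plat
  have h1 : (A + η - |v|) / η ≤ 0 := div_nonpos_of_nonpos_of_nonneg (by linarith) hη.le
  rw [min_eq_right (h1.trans zero_le_one), max_eq_left h1]

private theorem finC_plat_bd (A η v : ℝ) : 0 ≤ plat A η v ∧ plat A η v ≤ 1 := by
  unfold plat
  exact ⟨le_max_left _ _, max_le zero_le_one (min_le_left _ _)⟩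

private theorem finC_Wf_bd (A η x y : ℝ) : 0 ≤ Wf A η x y ∧ Wf A η x y ≤ 1 := by
  unfold Wf
  split_ifs
  · have h1 := finC_plat_bd (Real.log 2 / 2) η (Real.log (x * y) / 2 - Real.log 2 / 2)
    have h2 := finC_plat_bd A η (Real.log (x / y) / 2)
    exact ⟨mul_nonneg h1.1 h2.1, mul_le_one₀ h1.2 h2.1 h2.2⟩
  · exact ⟨le_rfl, zero_le_one⟩

/-- the weight in terms of `s = √(d e)` and `√d / √e` -/
private theorem finC_Wf {A η T d e : ℝ} (hd : 0 < d) (he : 0 < e) (hT : 0 < T) :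
    Wf A η (d / T) (e / T) = plat (Real.log 2 / 2) η (Real.log (√(d * e) / T) - Real.log 2 / 2) *
      plat A η (Real.log (√d / √e)) := by
  unfold Wf
  rw [if_pos ⟨by positivity, by positivity⟩]
  have h1 : Real.log (d / T * (e / T)) / 2 = Real.log (√(d * e) / T) := by
    have e1 : d / T * (e / T) = (√(d * e) / T) ^ 2 := by
      rw [div_pow, Real.sq_sqrt (by positivity)]
      ring
    rw [e1, Real.log_pow]
    push_cast
    ring
  have h2 : Real.log (d / T / (e / T)) / 2 = Real.log (√d / √e) := by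
    have e1 : d / T / (e / T) = (√d / √e) ^ 2 := by
      rw [div_pow, Real.sq_sqrt hd.le, Real.sq_sqrt he.le]
      field_simp
    rw [e1, Real.log_pow]
    push_cast
    ring
  rw [h1, h2]

/-- away from the boundary the conditions agree with the weight -/
private theorem finC_key {D X : ℕ} (hD : 1 ≤ D) {η T : ℝ} (hη : 0 < η) (hη1 : η ≤ 1 / 4)
    (hTη : 8 ≤ T * η) (hT8 : 8 ≤ T) (h1 : T ≤ X) (h2 : (X : ℝ) ≤ T * (1 + η / 8)) {Q : Fm}
    (hQ : Q.Ok)
    (hZ : ¬ (T / 8 ≤ √((Q.d : ℝ) * Q.e) ∧ (|Real.log (√((Q.d : ℝ) * Q.e) / T)| ≤ 2 * η ∨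
      |Real.log (√((Q.d : ℝ) * Q.e) / T) - Real.log 2| ≤ 2 * η ∨
      |(|Real.log (√(Q.d : ℝ) / √(Q.e : ℝ))|) - Real.log D| ≤ 2 * η))) :
    Wf (Real.log D) η (Q.d / T) (Q.e / T) =
      if (X < Q.n ∧ Q.n ≤ 2 * X) ∧ Q.n ≤ D * Q.d ∧ Q.d ≤ D * Q.n then 1 else 0 := by
  have hd : (0 : ℝ) < Q.d := by exact_mod_cast hQ.1
  have he : (0 : ℝ) < Q.e := by exact_mod_cast hQ.2.1
  have hT : 0 < T := by linarith
  have hDr : (1 : ℝ) ≤ D := by exact_mod_cast hD
  have hD0 : (0 : ℝ) < D := by linarith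
  obtain ⟨hn1, hn2⟩ := n_bounds hQ
  rw [finC_Wf hd he hT]
  set s := √((Q.d : ℝ) * Q.e) with hs
  have hs0 : 0 < s := Real.sqrt_pos.2 (by positivity)
  set u := Real.log (s / T) with hu
  set v := Real.log (√(Q.d : ℝ) / √(Q.e : ℝ)) with hv
  have hlog2 : Real.log 2 < 0.6931471808 := Real.log_two_lt_d9
  have hlog2' : 0.6931471803 < Real.log 2 := Real.log_two_gt_d9
  norm_num at hlog2 hlog2'
  have hsu : s = T * Real.exp u := by
    rw [hu, Real.exp_log (by positivity)]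
    field_simp
  have hdv : (Q.d : ℝ) = s * Real.exp v := by
    rw [hv, Real.exp_log (by positivity), hs, Real.sqrt_mul hd.le]
    have h3 : √(Q.e : ℝ) ≠ 0 := (Real.sqrt_pos.2 he).ne'
    field_simp
    rw [Real.sq_sqrt hd.le]
  have hDe : (D : ℝ) = Real.exp (Real.log D) := (Real.exp_log hD0).symm
  have hup : 1 + 2 * η ≤ Real.exp (2 * η) := by linarith [Real.add_one_le_exp (2 * η)]
  have hdn : Real.exp (-(2 * η)) ≤ 1 - η := by
    have h3 : Real.exp (-(2 * η)) * Real.exp (2 * η) = 1 := by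
      rw [← Real.exp_add, neg_add_cancel, Real.exp_zero]
    have h4 : 0 < Real.exp (-(2 * η)) := Real.exp_pos _
    have h5 : Real.exp (-(2 * η)) * (1 + 2 * η) ≤ Real.exp (-(2 * η)) * Real.exp (2 * η) :=
      mul_le_mul_of_nonneg_left hup h4.le
    rw [h3] at h5
    by_contra hcon
    push Not at hcon
    have h6 : (1 - η) * (1 + 2 * η) < Real.exp (-(2 * η)) * (1 + 2 * η) :=
      mul_lt_mul_of_pos_right hcon (by linarith)
    nlinarith only [hη, hη1, h5, hcon]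
  clear_value s u v
  by_cases hs8 : s < T / 8
  · -- small forms
    have h3 : u < -(2 : ℝ) := by
      rw [hu, Real.log_lt_iff_lt_exp (by positivity), div_lt_iff₀ hT]
      have h4 : (1 : ℝ) / 8 ≤ Real.exp (-2) := by
        rw [Real.exp_neg, ← one_div]
        apply one_div_le_one_div_of_le (Real.exp_pos _)
        have h5 : Real.exp 2 = Real.exp 1 * Real.exp 1 := by
          rw [← Real.exp_add]
          norm_num
        rw [h5]
        have h6 := Real.exp_one_lt_d9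
        have h7 := Real.exp_pos 1
        nlinarith only [h6, h7]
      have h9 : (1 : ℝ) / 8 * T ≤ Real.exp (-2) * T := mul_le_mul_of_nonneg_right h4 hT.le
      linarith
    have h4 : plat (Real.log 2 / 2) η (u - Real.log 2 / 2) = 0 := by
      apply finC_plat_zero hη
      rw [abs_of_neg (by linarith)]
      linarith
    rw [h4, zero_mul, if_neg]
    rintro ⟨⟨h5, -⟩, -⟩
    have h6 : (X : ℝ) < Q.n := by exact_mod_cast h5
    linarith
  push Not at hs8
  have hZ' : 2 * η < |u| ∧ 2 * η < |u - Real.log 2| ∧ 2 * η < |(|v|) - Real.log D| := by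
    by_contra hcon
    apply hZ
    refine ⟨hs8, ?_⟩
    by_contra hcon2
    apply hcon
    push Not at hcon2
    exact hcon2
  obtain ⟨hz1, hz2, hz3⟩ := hZ'
  have hsη : 2 ≤ s * (2 * η) := by
    have h3 : T / 8 * (2 * η) ≤ s * (2 * η) := mul_le_mul_of_nonneg_right hs8 (by linarith)
    linarith
  -- the position of `u`
  rcases lt_or_ge u 0 with hu0 | hu0
  · have h3 : u < -(2 * η) := by
      rw [abs_of_neg hu0] at hz1
      linarith
    have h4 : plat (Real.log 2 / 2) η (u - Real.log 2 / 2) = 0 := by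
      apply finC_plat_zero hη
      rw [abs_of_neg (by linarith)]
      linarith
    rw [h4, zero_mul, if_neg]
    rintro ⟨⟨h5, -⟩, -⟩
    have h6 : (X : ℝ) < Q.n := by exact_mod_cast h5
    have h7 : Real.exp u ≤ 1 - η := (Real.exp_le_exp.2 h3.le).trans hdn
    have h8 : s ≤ T * (1 - η) := by
      rw [hsu]
      exact mul_le_mul_of_nonneg_left h7 hT.le
    have h9 : T * (1 - η) = T - T * η := by ring
    linarith
  have hz1' : 2 * η < u := by rwa [abs_of_nonneg hu0] at hz1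
  rcases lt_or_ge (Real.log 2) u with hu2 | hu2
  · have h3 : Real.log 2 + 2 * η < u := by
      rw [abs_of_pos (by linarith)] at hz2
      linarith
    have h4 : plat (Real.log 2 / 2) η (u - Real.log 2 / 2) = 0 := by
      apply finC_plat_zero hη
      rw [abs_of_pos (by linarith)]
      linarith
    rw [h4, zero_mul, if_neg]
    rintro ⟨⟨-, h5⟩, -⟩
    have h6 : (Q.n : ℝ) ≤ 2 * X := by exact_mod_cast h5
    have h7 : 2 * (1 + 2 * η) ≤ Real.exp u := by
      have h8 : Real.exp (Real.log 2 + 2 * η) ≤ Real.exp u := Real.exp_le_exp.2 h3.le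
      rw [Real.exp_add, Real.exp_log (by norm_num)] at h8
      linarith
    have h8 : T * (2 * (1 + 2 * η)) ≤ s := by
      rw [hsu]
      exact mul_le_mul_of_nonneg_left h7 hT.le
    have h9 : T * (2 * (1 + 2 * η)) = 2 * T + 4 * (T * η) := by ring
    have h10 : T * (1 + η / 8) = T + T * η / 8 := by ring
    linarith only [h1, h2, hn1, h6, h8]
  have hz2' : u < Real.log 2 - 2 * η := by
    rw [abs_of_nonpos (by linarith)] at hz2
    linarith
  have h4 : plat (Real.log 2 / 2) η (u - Real.log 2 / 2) = 1 := by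
    apply finC_plat_one hη
    rw [abs_le]
    constructor <;> linarith
  rw [h4, one_mul]
  have hsT : T * (1 + 2 * η) ≤ s := by
    rw [hsu]
    exact mul_le_mul_of_nonneg_left (hup.trans (Real.exp_le_exp.2 hz1'.le)) hT.le
  have hsT2 : s ≤ T * (2 * (1 - η)) := by
    rw [hsu]
    apply mul_le_mul_of_nonneg_left _ hT.le
    have h8 : Real.exp u ≤ Real.exp (Real.log 2 + -(2 * η)) := Real.exp_le_exp.2 (by linarith)
    rw [Real.exp_add, Real.exp_log (show (0 : ℝ) < 2 by norm_num)] at h8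
    linarith
  have g1 : T * (1 + η / 8) = T + T * η / 8 := by ring
  have g2 : T * (1 + 2 * η) = T + 2 * (T * η) := by ring
  have g3 : T * (2 * (1 - η)) = 2 * T - 2 * (T * η) := by ring
  have hXn : X < Q.n := by
    have h5 : (X : ℝ) < Q.n := by linarith
    exact_mod_cast h5
  have hn2X : Q.n ≤ 2 * X := by
    have h5 : (Q.n : ℝ) ≤ 2 * X := by linarith
    exact_mod_cast h5
  -- the position of `v`
  rcases lt_or_ge (Real.log D) (|v|) with hv1 | hv1
  · have hz3' : Real.log D + 2 * η < |v| := by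
      rw [abs_of_pos (by linarith)] at hz3
      linarith
    rw [finC_plat_zero hη (by linarith), if_neg]
    rintro ⟨-, h5, h6⟩
    have h5' : (Q.n : ℝ) ≤ D * Q.d := by exact_mod_cast h5
    have h6' : (Q.d : ℝ) ≤ D * Q.n := by exact_mod_cast h6
    rcases le_or_gt 0 v with hv0 | hv0
    · rw [abs_of_nonneg hv0] at hz3'
      have h7 : (D : ℝ) * (1 + 2 * η) ≤ Real.exp v := by
        have h8 : Real.exp (Real.log D + 2 * η) ≤ Real.exp v := Real.exp_le_exp.2 hz3'.le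
        rw [Real.exp_add, ← hDe] at h8
        exact (mul_le_mul_of_nonneg_left hup hD0.le).trans h8
      have h9 : s * ((D : ℝ) * (1 + 2 * η)) ≤ Q.d := by
        rw [hdv]
        exact mul_le_mul_of_nonneg_left h7 hs0.le
      have h10 : (D : ℝ) * Q.n ≤ D * (s + 1) := mul_le_mul_of_nonneg_left hn2 hD0.le
      have h11 : (D : ℝ) * 2 ≤ D * (s * (2 * η)) := mul_le_mul_of_nonneg_left hsη hD0.le
      have h12 : s * ((D : ℝ) * (1 + 2 * η)) = D * s + D * (s * (2 * η)) := by ring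
      have h13 : (D : ℝ) * (s + 1) = D * s + D := by ring
      linarith only [hD0, h6', h9, h10, h11]
    · rw [abs_of_neg hv0] at hz3'
      have h7 : (D : ℝ) * Real.exp v ≤ 1 := by
        have h8 : Real.exp (Real.log D + v) ≤ Real.exp 0 := Real.exp_le_exp.2 (by linarith only [hη, hz3'])
        rw [Real.exp_add, ← hDe, Real.exp_zero] at h8
        exact h8
      have h9 : (D : ℝ) * Q.d ≤ s := by
        rw [hdv]
        calc (D : ℝ) * (s * Real.exp v) = s * (D * Real.exp v) := by ring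
          _ ≤ s * 1 := mul_le_mul_of_nonneg_left h7 hs0.le
          _ = s := mul_one s
      linarith only [hn1, h5', h9]
  · have hz3' : |v| < Real.log D - 2 * η := by
      rw [abs_of_nonpos (by linarith)] at hz3
      linarith
    obtain ⟨hv2, hv3⟩ := abs_lt.1 hz3'
    rw [finC_plat_one hη hv1, if_pos]
    refine ⟨⟨hXn, hn2X⟩, ?_, ?_⟩
    · have h7 : 1 + 2 * η ≤ (D : ℝ) * Real.exp v := by
        have h8 : Real.exp (2 * η) ≤ Real.exp (Real.log D + v) := Real.exp_le_exp.2 (by linarith)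
        rw [Real.exp_add, ← hDe] at h8
        exact hup.trans h8
      have h9' : s * (1 + 2 * η) = s + s * (2 * η) := by ring
      have h9 : s * (1 + 2 * η) ≤ D * Q.d := by
        rw [hdv]
        calc s * (1 + 2 * η) ≤ s * (D * Real.exp v) := mul_le_mul_of_nonneg_left h7 hs0.le
          _ = D * (s * Real.exp v) := by ring
      have h10 : (Q.n : ℝ) ≤ D * Q.d := by linarith only [hn2, hsη, h9]
      exact_mod_cast h10
    · have h7 : Real.exp v ≤ D := by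
        rw [hDe]
        exact Real.exp_le_exp.2 (by linarith)
      have h9 : (Q.d : ℝ) ≤ D * Q.n := by
        rw [hdv]
        calc s * Real.exp v ≤ s * D := mul_le_mul_of_nonneg_left h7 hs0.le
          _ = D * s := mul_comm _ _
          _ ≤ D * Q.n := mul_le_mul_of_nonneg_left hn1.le hD0.le
      exact_mod_cast h9

/-- Comparison at one scale, `T ≤ X ≤ T (1 + 1 / n)`, `n ≥ n0 (η)`, `T ≥ T0 (η)`: a form where the
conditions of `HB` do not agree with the value of the test weight (`1` if they hold, `0` if not) lies in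
`Zo` (`n_bounds`: `n - 1 ≤ √(d e) < n`; `n ≤ D d` iff … up to a factor `1 + O(1 / n²)` in the ratio
`√(d / e)`; `2 D X ≤ 4 D T ≤ exp (log D + 2) T`). -/
theorem HB_close (D : ℕ) (hD : 1 ≤ D) (η : ℝ) (hη : 0 < η) (hη1 : η ≤ 1 / 4) : ∃ n0 : ℕ, 1 ≤ n0 ∧
    ∀ (T : ℝ) (X : ℕ), (n0 : ℝ) ≤ T → T ≤ X → (X : ℝ) ≤ T * (1 + 1 / n0) → ∀ F G : ℕ → ℤ,
    (∀ m, |F m| ≤ 1) → (∀ m, |G m| ≤ 1) →
    |HB D X F G - QW (Wf (Real.log D) η) F G (Real.exp (Real.log D + 2)) T| ≤
      ((Zo (Real.log D) η T).card : ℝ) := by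
  classical
  refine ⟨⌈8 / η⌉₊ + 8, by omega, fun T X hT hTX hXT F G hF hG => ?_⟩
  set n0 : ℕ := ⌈8 / η⌉₊ + 8 with hn0
  have hn0r : 8 / η ≤ (n0 : ℝ) := by
    have h1 := Nat.le_ceil (8 / η)
    rw [hn0]
    push_cast
    linarith only [h1]
  have hn08 : (8 : ℝ) ≤ n0 := by
    rw [hn0]
    push_cast
    have : (0 : ℝ) ≤ (⌈8 / η⌉₊ : ℝ) := by positivity
    linarith
  have hT8 : 8 ≤ T := by linarith
  have hTη : 8 ≤ T * η := by
    have h1 : 8 / η ≤ T := hn0r.trans hT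
    rwa [div_le_iff₀ hη] at h1
  have hT0 : 0 < T := by linarith
  have hinv : 1 / (n0 : ℝ) ≤ η / 8 := by
    rw [div_le_div_iff₀ (by linarith) (by norm_num), one_mul]
    rw [div_le_iff₀ hη] at hn0r
    linarith
  have hXT' : (X : ℝ) ≤ T * (1 + η / 8) :=
    hXT.trans (mul_le_mul_of_nonneg_left (by linarith) hT0.le)
  have hDr : (1 : ℝ) ≤ D := by exact_mod_cast hD
  have hD0 : (0 : ℝ) < D := by linarith only [hDr]
  have hb : Real.exp (Real.log D + 2) = D * Real.exp 2 := by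
    rw [Real.exp_add, Real.exp_log hD0]
  have he2 : (4 : ℝ) ≤ Real.exp 2 := by
    have h5 : Real.exp 2 = Real.exp 1 * Real.exp 1 := by
      rw [← Real.exp_add]
      norm_num
    rw [h5]
    have h6 := Real.exp_one_gt_d9
    norm_num at h6
    nlinarith only [h6]
  have hY : 2 * (D : ℝ) * X ≤ Real.exp (Real.log D + 2) * T := by
    rw [hb]
    have h1 : (X : ℝ) ≤ 2 * T := by nlinarith only [hη, hη1, hXT']
    calc 2 * (D : ℝ) * X ≤ 2 * D * (2 * T) := mul_le_mul_of_nonneg_left h1 (by positivity)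
      _ = D * 4 * T := by ring
      _ ≤ D * Real.exp 2 * T := by gcongr
  have hY0 : (0 : ℝ) ≤ 2 * (D : ℝ) * X := by positivity
  have hY1 : (0 : ℝ) ≤ Real.exp (Real.log D + 2) * T := by positivity
  -- the first sum over all forms
  have hHB : HB D X F G = ∑ Q ∈ Qs (Real.exp (Real.log D + 2) * T),
      (if (X < Q.n ∧ Q.n ≤ 2 * X) ∧ Q.n ≤ D * Q.d ∧ Q.d ≤ D * Q.n then (1 : ℝ) else 0) *
        ((F Q.d : ℝ) * (G Q.e : ℝ)) := by
    unfold HB
    have h1 : (Qs (2 * (D : ℝ) * X)).filter (fun Q => (X < Q.n ∧ Q.n ≤ 2 * X) ∧ Q.n ≤ D * Q.d ∧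
        Q.d ≤ D * Q.n) = (Qs (Real.exp (Real.log D + 2) * T)).filter
          (fun Q => (X < Q.n ∧ Q.n ≤ 2 * X) ∧ Q.n ≤ D * Q.d ∧ Q.d ≤ D * Q.n) := by
      ext Q
      rw [Finset.mem_filter, Finset.mem_filter, mem_Qs hY0, mem_Qs hY1]
      constructor
      · rintro ⟨⟨h2, h3, h4⟩, h5⟩
        exact ⟨⟨h2, h3.trans hY, h4.trans hY⟩, h5⟩
      · rintro ⟨⟨h2, -, -⟩, h5⟩
        obtain ⟨⟨h6, h7⟩, h8, h9⟩ := h5
        obtain ⟨k1, k2, k3⟩ := h2
        have h10 : Q.e ≤ D * Q.n := by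
          have h11 : Q.d * Q.e ≤ Q.d * (D * Q.n) := by
            calc Q.d * Q.e ≤ Q.n ^ 2 := by omega
              _ = Q.n * Q.n := by ring
              _ ≤ (D * Q.d) * Q.n := Nat.mul_le_mul_right _ h8
              _ = Q.d * (D * Q.n) := by ring
          exact Nat.le_of_mul_le_mul_left h11 k1
        have h12 : D * Q.n ≤ D * (2 * X) := Nat.mul_le_mul_left D h7
        refine ⟨⟨⟨k1, k2, k3⟩, ?_, ?_⟩, ⟨h6, h7⟩, h8, h9⟩
        · have h13 : Q.d ≤ D * (2 * X) := h9.trans h12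
          have h14 : (Q.d : ℝ) ≤ D * (2 * X) := by exact_mod_cast h13
          linarith only [h14]
        · have h13 : Q.e ≤ D * (2 * X) := h10.trans h12
          have h14 : (Q.e : ℝ) ≤ D * (2 * X) := by exact_mod_cast h13
          linarith only [h14]
    rw [h1, Finset.sum_filter]
    refine Finset.sum_congr rfl fun Q _ => ?_
    split_ifs
    · rw [one_mul]
    · rw [zero_mul]
  rw [hHB]
  unfold QW
  rw [← Finset.sum_sub_distrib]
  have hZo : ((Zo (Real.log D) η T).card : ℝ) = ∑ Q ∈ Qs (Real.exp (Real.log D + 2) * T),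
      if T / 8 ≤ √((Q.d : ℝ) * Q.e) ∧ (|Real.log (√((Q.d : ℝ) * Q.e) / T)| ≤ 2 * η ∨
      |Real.log (√((Q.d : ℝ) * Q.e) / T) - Real.log 2| ≤ 2 * η ∨
      |(|Real.log (√(Q.d : ℝ) / √(Q.e : ℝ))|) - Real.log D| ≤ 2 * η) then (1 : ℝ) else 0 := by
    unfold Zo
    rw [Finset.sum_boole]
  rw [hZo]
  refine (Finset.abs_sum_le_sum_abs _ _).trans (Finset.sum_le_sum fun Q hQ => ?_)
  have hOk := ((mem_Qs hY1).1 hQ).1
  rw [← sub_mul, abs_mul]
  have hFG : |((F Q.d : ℝ) * (G Q.e : ℝ))| ≤ 1 := by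
    rw [abs_mul]
    have h1 : |(F Q.d : ℝ)| ≤ 1 := by exact_mod_cast hF Q.d
    have h2 : |(G Q.e : ℝ)| ≤ 1 := by exact_mod_cast hG Q.e
    exact mul_le_one₀ h1 (abs_nonneg _) h2
  refine (mul_le_of_le_one_right (abs_nonneg _) hFG).trans ?_
  have hW := finC_Wf_bd (Real.log D) η (Q.d / T) (Q.e / T)
  by_cases hz : T / 8 ≤ √((Q.d : ℝ) * Q.e) ∧ (|Real.log (√((Q.d : ℝ) * Q.e) / T)| ≤ 2 * η ∨
      |Real.log (√((Q.d : ℝ) * Q.e) / T) - Real.log 2| ≤ 2 * η ∨
      |(|Real.log (√(Q.d : ℝ) / √(Q.e : ℝ))|) - Real.log D| ≤ 2 * η)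
  · rw [if_pos hz, abs_le]
    split_ifs <;> constructor <;> linarith only [hW.1, hW.2]
  · rw [if_neg hz, finC_key hD hη hη1 hTη hT8 hTX hXT' hOk hz, sub_self, abs_zero]

end

end Pool.Agent.Lib.MP_0b748d_nt.HH
end

section

set_option autoImplicit false

/-!
# From the limit averages to the theorem
-/

namespace Pool.Agent.Lib.MP_0b748d_nt.HH

open Filter Topology MR

noncomputable section

open Classical in
private lemma finE_triv : ∃ C : ℝ, 1 ≤ C ∧ ∀ Y : ℝ, 0 ≤ Y → ((Qs Y).card : ℝ) ≤ C * Y := by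
  obtain ⟨C, hC, h⟩ := Qs_ab
  refine ⟨C, hC, fun Y hY => ?_⟩
  have h1 := h 1 1 Y one_pos one_pos hY
  have h2 : (Qs (max 1 1 ^ 2 * Y)).filter
      (fun Q => (Q.d : ℝ) ≤ 1 ^ 2 * Y ∧ (Q.e : ℝ) ≤ 1 ^ 2 * Y) = Qs Y := by
    rw [max_self, one_pow, one_mul]
    apply Finset.filter_true_of_mem
    intro Q hQ
    exact ((mem_Qs hY).1 hQ).2
  rw [h2] at h1
  linarith

private lemma finE_card {S : Finset ℕ} {l : ℝ} (hl : 0 ≤ l)
    (h : ∀ a ∈ S, ∀ b ∈ S, ((a : ℝ) - b) ≤ l) : (S.card : ℝ) ≤ l + 1 := by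
  rcases S.eq_empty_or_nonempty with h0 | hne
  · subst h0
    simp only [Finset.card_empty, Nat.cast_zero]
    linarith
  · obtain ⟨m, hm⟩ : ∃ m, m = S.min' hne := ⟨_, rfl⟩
    have hmS : m ∈ S := hm ▸ Finset.min'_mem _ _
    have h1 : S ⊆ Finset.Icc m (m + ⌊l⌋₊) := by
      intro a ha
      rw [Finset.mem_Icc]
      have hma : m ≤ a := hm ▸ Finset.min'_le _ _ ha
      refine ⟨hma, ?_⟩
      have h2 := h a ha m hmS
      have h3 : ((a - m : ℕ) : ℝ) ≤ l := by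
        rw [Nat.cast_sub hma]
        exact h2
      have h4 : a - m ≤ ⌊l⌋₊ := Nat.le_floor h3
      omega
    have h5 := Finset.card_le_card h1
    rw [Nat.card_Icc] at h5
    have h6 : (S.card : ℝ) ≤ (⌊l⌋₊ : ℝ) + 1 := by
      have : S.card ≤ ⌊l⌋₊ + 1 := by omega
      exact_mod_cast this
    have := Nat.floor_le hl
    linarith only [h6, this]

private lemma finE_half : (1 / 2 : ℝ) ≤ Real.log 2 := by
  have := Real.log_two_gt_d9
  norm_num at this ⊢
  linarith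

private lemma finE_exph : Real.exp (1 / 2) ≤ 2 := by
  have h := Real.exp_bound_div_one_sub_of_interval (x := 1 / 2) (by norm_num) (by norm_num)
  norm_num at h ⊢
  exact h

private lemma finE_log (n i : ℕ) : Real.log (tt n i) = (i : ℝ) / n * Real.log 2 := by
  unfold tt
  rw [Real.log_rpow (by norm_num)]

private lemma finE_one (n i : ℕ) : 1 ≤ tt n i := by
  unfold tt
  exact Real.one_le_rpow (by norm_num) (by positivity)

open Classical in
/-- the number of levels where the size of a form is near the level -/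
private lemma finE_levels {n : ℕ} (hn : 1 ≤ n) {η y c : ℝ} (hη : 0 < η) (hy : 0 < y) :
    (((Finset.range (n ^ 2)).filter (fun i => |Real.log (y / tt n i) - c| ≤ 2 * η)).card : ℝ) ≤
      8 * η * n + 1 := by
  have hn0 : (0 : ℝ) < n := by exact_mod_cast hn
  apply finE_card (by positivity)
  intro a ha b hb
  rw [Finset.mem_filter] at ha hb
  have hlog : ∀ i : ℕ, Real.log (y / tt n i) = Real.log y - (i : ℝ) / n * Real.log 2 := by
    intro i
    rw [Real.log_div hy.ne' (by have := finE_one n i; positivity), finE_log]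
  have h1 := (abs_le.1 ha.2).1
  have h2 := (abs_le.1 hb.2).2
  rw [hlog] at h1 h2
  have h3 : ((a : ℝ) - b) * (Real.log 2 / n) ≤ 4 * η := by
    have h4 : ((a : ℝ) - b) * (Real.log 2 / n) = (a : ℝ) / n * Real.log 2 -
      (b : ℝ) / n * Real.log 2 := by ring
    linarith only [h1, h2, h4]
  have h5 := finE_half
  by_contra hcon
  push Not at hcon
  have h6 : 8 * η * n * ((1 / 2) / n) < ((a : ℝ) - b) * (Real.log 2 / n) := by
    have h7 : (1 / 2 : ℝ) / n ≤ Real.log 2 / n := by gcongr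
    have h8 : (0 : ℝ) < (1 / 2) / n := by positivity
    calc 8 * η * n * ((1 / 2) / n) < ((a : ℝ) - b) * ((1 / 2) / n) :=
          mul_lt_mul_of_pos_right hcon h8
      _ ≤ ((a : ℝ) - b) * (Real.log 2 / n) := by
        apply mul_le_mul_of_nonneg_left h7
        have : 0 ≤ 8 * η * n := by positivity
        linarith only [hcon, this]
  have h9 : 8 * η * n * ((1 / 2) / n) = 4 * η := by
    field_simp
    ring
  linarith only [h3, h6, h9]

open Classical in
/-- the two narrow sectors -/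
private lemma finE_sector (A : ℝ) (hA : 0 ≤ A) : ∃ C : ℝ, 1 ≤ C ∧ ∀ η : ℝ, 0 < η → η ≤ 1 / 8 →
    ∃ Y0 : ℝ, 1 ≤ Y0 ∧ ∀ Y : ℝ, Y0 ≤ Y →
    (((Qs Y).filter (fun Q =>
      |(|Real.log (√(Q.d : ℝ) / √(Q.e : ℝ))|) - A| ≤ 2 * η)).card : ℝ) ≤ C * η * Y := by
  obtain ⟨C, hC, hnar⟩ := narrow (Real.exp (A + 1)) (Real.one_le_exp (by linarith))
  refine ⟨16 * C, by linarith, fun η hη hη8 => ?_⟩
  have hR : 1 / Real.exp (A + 1) = Real.exp (-(A + 1)) := by
    rw [Real.exp_neg, one_div]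
  obtain ⟨Y1, hY1, h1⟩ := hnar (8 * η) (Real.exp (A - 2 * η)) (by positivity) (by linarith)
    (by rw [hR]; exact Real.exp_le_exp.2 (by linarith)) (Real.exp_le_exp.2 (by linarith))
  obtain ⟨Y2, hY2, h2⟩ := hnar (8 * η) (Real.exp (-A - 2 * η)) (by positivity) (by linarith)
    (by rw [hR]; exact Real.exp_le_exp.2 (by linarith)) (Real.exp_le_exp.2 (by linarith))
  refine ⟨max Y1 Y2, hY1.trans (le_max_left _ _), fun Y hY => ?_⟩
  have h3 := h1 Y ((le_max_left _ _).trans hY)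
  have h4 := h2 Y ((le_max_right _ _).trans hY)
  have hY0 : 0 ≤ Y := by
    have := (le_max_left Y1 Y2).trans hY
    linarith
  have hexp : Real.exp (4 * η) ≤ 1 + 8 * η := by
    have h5 := Real.exp_bound_div_one_sub_of_interval (x := 4 * η) (by positivity) (by linarith only [hη8])
    refine h5.trans ?_
    rw [div_le_iff₀ (by linarith only [hη8])]
    nlinarith only [hη, hη8]
  have hsub : (Qs Y).filter (fun Q =>
      |(|Real.log (√(Q.d : ℝ) / √(Q.e : ℝ))|) - A| ≤ 2 * η) ⊆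
      (Qs Y).filter (fun Q => Real.exp (A - 2 * η) ≤ √(Q.d : ℝ) / √(Q.e : ℝ) ∧
        √(Q.d : ℝ) / √(Q.e : ℝ) ≤ Real.exp (A - 2 * η) * (1 + 8 * η)) ∪
      (Qs Y).filter (fun Q => Real.exp (-A - 2 * η) ≤ √(Q.d : ℝ) / √(Q.e : ℝ) ∧
        √(Q.d : ℝ) / √(Q.e : ℝ) ≤ Real.exp (-A - 2 * η) * (1 + 8 * η)) := by
    intro Q hQ
    rw [Finset.mem_filter] at hQ
    obtain ⟨hQ1, hQ2⟩ := hQ
    obtain ⟨⟨hd, he, -⟩, -, -⟩ := (mem_Qs hY0).1 hQ1
    have hr : 0 < √(Q.d : ℝ) / √(Q.e : ℝ) := by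
      have hd' : (0 : ℝ) < Q.d := by exact_mod_cast hd
      have he' : (0 : ℝ) < Q.e := by exact_mod_cast he
      positivity
    obtain ⟨r, hrd⟩ : ∃ r, r = √(Q.d : ℝ) / √(Q.e : ℝ) := ⟨_, rfl⟩
    rw [← hrd] at hr hQ2
    rw [Finset.mem_union, Finset.mem_filter, Finset.mem_filter, ← hrd]
    have hb : ∀ B : ℝ, B - 2 * η ≤ Real.log r → Real.log r ≤ B + 2 * η →
        Real.exp (B - 2 * η) ≤ r ∧ r ≤ Real.exp (B - 2 * η) * (1 + 8 * η) := by
      intro B hB1 hB2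
      constructor
      · calc Real.exp (B - 2 * η) ≤ Real.exp (Real.log r) := Real.exp_le_exp.2 hB1
          _ = r := Real.exp_log hr
      · calc r = Real.exp (Real.log r) := (Real.exp_log hr).symm
          _ ≤ Real.exp (B + 2 * η) := Real.exp_le_exp.2 hB2
          _ = Real.exp (B - 2 * η) * Real.exp (4 * η) := by
            rw [← Real.exp_add]
            congr 1
            ring
          _ ≤ _ := mul_le_mul_of_nonneg_left hexp (Real.exp_pos _).le
    have h6 := abs_le.1 hQ2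
    rcases le_or_gt 0 (Real.log r) with h0 | h0
    · left
      rw [abs_of_nonneg h0] at h6
      exact ⟨hQ1, hb A (by linarith [h6.1]) (by linarith only [h6.2])⟩
    · right
      rw [abs_of_neg h0] at h6
      have := hb (-A) (by linarith [h6.2]) (by linarith [h6.1])
      exact ⟨hQ1, this⟩
  have h5 := (Finset.card_le_card hsub).trans (Finset.card_union_le _ _)
  have h6 : (((Qs Y).filter (fun Q =>
      |(|Real.log (√(Q.d : ℝ) / √(Q.e : ℝ))|) - A| ≤ 2 * η)).card : ℝ) ≤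
      C * (8 * η) * Y + C * (8 * η) * Y := by
    refine le_trans ?_ (add_le_add h3 h4)
    exact_mod_cast h5
  linarith only [h6]

open Classical in
/-- average of the number of forms in the two narrow sectors -/
private lemma finE_avgA (A : ℝ) (hA : 0 ≤ A) : ∃ C : ℝ, 1 ≤ C ∧ ∀ η : ℝ, 0 < η → η ≤ 1 / 8 →
    ∃ C' : ℝ, ∀ n : ℕ, 1 ≤ n → (1 / (n : ℝ) ^ 2) * ∑ i ∈ Finset.range (n ^ 2),
      (1 / tt n i) * (((Qs (Real.exp (A + 2) * tt n i)).filter (fun Q =>
        |(|Real.log (√(Q.d : ℝ) / √(Q.e : ℝ))|) - A| ≤ 2 * η)).card : ℝ) ≤ C * η + C' / n := by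
  obtain ⟨Ct, hCt, htriv⟩ := finE_triv
  obtain ⟨Cs, hCs, hsec⟩ := finE_sector A hA
  have hE1 : 1 ≤ Real.exp (A + 2) := Real.one_le_exp (by linarith)
  obtain ⟨E, hE⟩ : ∃ E, E = Real.exp (A + 2) := ⟨_, rfl⟩
  rw [← hE] at hE1 ⊢
  refine ⟨Cs * E, by nlinarith, fun η hη hη8 => ?_⟩
  obtain ⟨Y0, hY0, hs⟩ := hsec η hη hη8
  have hL0 : 0 ≤ Real.log Y0 / Real.log 2 :=
    div_nonneg (Real.log_nonneg hY0) (by linarith [finE_half])
  obtain ⟨L, hL⟩ : ∃ L, L = Real.log Y0 / Real.log 2 := ⟨_, rfl⟩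
  rw [← hL] at hL0
  refine ⟨Ct * E * (L + 1), fun n hn => ?_⟩
  have hn0 : (0 : ℝ) < n := by exact_mod_cast hn
  have hn1 : (1 : ℝ) ≤ n := by exact_mod_cast hn
  have hCE : 0 ≤ Ct * E := by nlinarith only [hCt, hE1]
  have hlev : ∀ i ∈ Finset.range (n ^ 2), (1 / tt n i) *
      (((Qs (E * tt n i)).filter (fun Q =>
        |(|Real.log (√(Q.d : ℝ) / √(Q.e : ℝ))|) - A| ≤ 2 * η)).card : ℝ) ≤
      Cs * E * η + if tt n i < Y0 then Ct * E else 0 := by
    intro i _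
    have h1 := finE_one n i
    have h0 : 0 < tt n i := by linarith
    rw [one_div, inv_mul_le_iff₀ h0]
    have hE0 : 0 ≤ E * tt n i := by positivity
    have hge : 0 ≤ Cs * E * η := by positivity
    split_ifs with hlt
    · have h2 : (((Qs (E * tt n i)).filter (fun Q =>
        |(|Real.log (√(Q.d : ℝ) / √(Q.e : ℝ))|) - A| ≤ 2 * η)).card : ℝ) ≤
          ((Qs (E * tt n i)).card : ℝ) := by
        exact_mod_cast Finset.card_filter_le _ _
      have h3 := htriv _ hE0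
      have h4 : 0 ≤ tt n i * (Cs * E * η) := by positivity
      have h5 : tt n i * (Cs * E * η + Ct * E) = tt n i * (Cs * E * η) + Ct * (E * tt n i) := by
        ring
      linarith
    · push Not at hlt
      have h2 := hs (E * tt n i) (hlt.trans (by nlinarith only [hE1, hE0]))
      rw [add_zero]
      calc _ ≤ Cs * η * (E * tt n i) := h2
        _ = tt n i * (Cs * E * η) := by ring
  have hsum := Finset.sum_le_sum hlev
  rw [Finset.sum_add_distrib, Finset.sum_const, Finset.card_range, nsmul_eq_mul,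
    ← Finset.sum_filter, Finset.sum_const, nsmul_eq_mul] at hsum
  have hcard : (((Finset.range (n ^ 2)).filter (fun i => tt n i < Y0)).card : ℝ) ≤ n * L + 1 := by
    have hsub : (Finset.range (n ^ 2)).filter (fun i => tt n i < Y0) ⊆ Finset.range ⌈n * L⌉₊ := by
      intro i hi
      rw [Finset.mem_filter] at hi
      rw [Finset.mem_range]
      have h1 := finE_one n i
      have h2 : Real.log (tt n i) < Real.log Y0 := Real.log_lt_log (by linarith only [h1]) hi.2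
      rw [finE_log] at h2
      have hlog2 : 0 < Real.log 2 := by linarith [finE_half]
      have h3 : (i : ℝ) / n < L := by
        rw [hL, lt_div_iff₀ hlog2]
        exact h2
      rw [div_lt_iff₀ hn0] at h3
      have h4 : (i : ℝ) < (⌈n * L⌉₊ : ℝ) := by
        have := Nat.le_ceil ((n : ℝ) * L)
        linarith
      exact_mod_cast h4
    have h1 := Finset.card_le_card hsub
    rw [Finset.card_range] at h1
    have h2 : (⌈(n : ℝ) * L⌉₊ : ℝ) < n * L + 1 := Nat.ceil_lt_add_one (by positivity)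
    have h3 : (((Finset.range (n ^ 2)).filter (fun i => tt n i < Y0)).card : ℝ) ≤
        (⌈(n : ℝ) * L⌉₊ : ℝ) := by exact_mod_cast h1
    linarith only [h2, h3]
  have hfin : ∑ i ∈ Finset.range (n ^ 2), (1 / tt n i) *
      (((Qs (E * tt n i)).filter (fun Q =>
        |(|Real.log (√(Q.d : ℝ) / √(Q.e : ℝ))|) - A| ≤ 2 * η)).card : ℝ) ≤
      (n : ℝ) ^ 2 * (Cs * E * η) + (n * L + 1) * (Ct * E) := by
    refine hsum.trans ?_
    push_cast
    have := mul_le_mul_of_nonneg_right hcard hCE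
    linarith only [this]
  have hnn : (0 : ℝ) < (n : ℝ) ^ 2 := by positivity
  rw [one_div, inv_mul_le_iff₀ hnn]
  refine hfin.trans ?_
  have h1 : (n : ℝ) ^ 2 * (Cs * E * η + Ct * E * (L + 1) / n) =
      (n : ℝ) ^ 2 * (Cs * E * η) + n * (L + 1) * (Ct * E) := by
    field_simp
  rw [h1]
  have h2 : (n * L + 1) * (Ct * E) ≤ n * (L + 1) * (Ct * E) := by
    apply mul_le_mul_of_nonneg_right _ hCE
    linarith only [hn1]
  linarith only [h2]

open Classical in
/-- average of the number of forms whose size is near the level or twice the level -/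
private lemma finE_avgB (A : ℝ) (hA : 0 ≤ A) : ∃ C : ℝ, 1 ≤ C ∧ ∀ η : ℝ, 0 < η → η ≤ 1 / 4 →
    ∀ n : ℕ, 1 ≤ n → (1 / (n : ℝ) ^ 2) * ∑ i ∈ Finset.range (n ^ 2),
      (1 / tt n i) * (((Qs (Real.exp (A + 2) * tt n i)).filter (fun Q =>
        tt n i / 8 ≤ √((Q.d : ℝ) * Q.e) ∧ (|Real.log (√((Q.d : ℝ) * Q.e) / tt n i) - 0| ≤ 2 * η ∨
        |Real.log (√((Q.d : ℝ) * Q.e) / tt n i) - Real.log 2| ≤ 2 * η))).card : ℝ) ≤
      C * (8 * η + 1 / n) := by
  have hE1 : 1 ≤ Real.exp (A + 2) := Real.one_le_exp (by linarith)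
  obtain ⟨E, hE⟩ : ∃ E, E = Real.exp (A + 2) := ⟨_, rfl⟩
  rw [← hE] at hE1 ⊢
  obtain ⟨Cs, hCs, hinv⟩ := sum_inv (8 * E) (by linarith)
  refine ⟨8 * (Cs * (A + 4)), by nlinarith only [hA, hCs], fun η hη hη4 n hn => ?_⟩
  have hn0 : (0 : ℝ) < n := by exact_mod_cast hn
  have hn1 : (1 : ℝ) ≤ n := by exact_mod_cast hn
  have h2n : (1 : ℝ) ≤ 2 ^ n := one_le_pow₀ (by norm_num)
  have hY' : (1 : ℝ) ≤ E * 2 ^ n := by nlinarith only [hE1, h2n]
  have hSinv := hinv 1 (E * 2 ^ n) le_rfl hY'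
  rw [div_one] at hSinv
  obtain ⟨S, hS⟩ : ∃ S, S = (Qs (8 * E * (E * 2 ^ n))).filter (fun Q =>
      (Q.d : ℝ) ≤ (8 * E) ^ 2 * Q.e ∧ (Q.e : ℝ) ≤ (8 * E) ^ 2 * Q.d ∧
      1 ≤ √((Q.d : ℝ) * Q.e) ∧ √((Q.d : ℝ) * Q.e) ≤ E * 2 ^ n) := ⟨_, rfl⟩
  rw [← hS] at hSinv
  have hlogE : Real.log (E * 2 ^ n) = (A + 2) + n * Real.log 2 := by
    rw [Real.log_mul (by positivity) (by positivity), hE, Real.log_exp, Real.log_pow]
  have hlog2 : Real.log 2 ≤ 1 := by
    have := Real.log_le_sub_one_of_pos (show (0 : ℝ) < 2 by norm_num)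
    linarith
  have hSinv' : ∑ Q ∈ S, 1 / √((Q.d : ℝ) * Q.e) ≤ Cs * (A + 4) * n := by
    refine hSinv.trans ?_
    rw [hlogE, mul_assoc]
    apply mul_le_mul_of_nonneg_left _ (by linarith)
    nlinarith only [hA, hn1, hlog2]
  -- the forms which occur
  have hmem : ∀ i ∈ Finset.range (n ^ 2), ∀ Q ∈ (Qs (E * tt n i)).filter (fun Q =>
        tt n i / 8 ≤ √((Q.d : ℝ) * Q.e) ∧ (|Real.log (√((Q.d : ℝ) * Q.e) / tt n i) - 0| ≤ 2 * η ∨
        |Real.log (√((Q.d : ℝ) * Q.e) / tt n i) - Real.log 2| ≤ 2 * η)),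
      Q ∈ S ∧ (|Real.log (√((Q.d : ℝ) * Q.e) / tt n i) - 0| ≤ 2 * η ∨
        |Real.log (√((Q.d : ℝ) * Q.e) / tt n i) - Real.log 2| ≤ 2 * η) ∧
        1 / tt n i ≤ 4 * (1 / √((Q.d : ℝ) * Q.e)) := by
    intro i hi Q hQ
    rw [Finset.mem_range] at hi
    have hT1 := finE_one n i
    have hT0 : 0 < tt n i := by linarith only [hT1]
    have hTn : tt n i ≤ 2 ^ n := by
      unfold tt
      rw [← Real.rpow_natCast]
      apply Real.rpow_le_rpow_of_exponent_le (by norm_num)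
      rw [div_le_iff₀ hn0]
      have : (i : ℝ) < (n : ℝ) ^ 2 := by exact_mod_cast hi
      linarith only [this]
    rw [Finset.mem_filter, mem_Qs (by positivity)] at hQ
    obtain ⟨⟨hok, hd, he⟩, h8, hP⟩ := hQ
    have hd0 : (1 : ℝ) ≤ Q.d := by exact_mod_cast hok.1
    have he0 : (1 : ℝ) ≤ Q.e := by exact_mod_cast hok.2.1
    have hy1 : 1 ≤ √((Q.d : ℝ) * Q.e) := by
      rw [Real.one_le_sqrt]
      nlinarith only [hd0, he0]
    have hy2 : √((Q.d : ℝ) * Q.e) ≤ E * tt n i := by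
      rw [Real.sqrt_le_left (by positivity)]
      nlinarith only [hd, he]
    have hET : E * tt n i ≤ E * 2 ^ n := by gcongr
    have hratio : ∀ d e : ℝ, 1 ≤ d → 1 ≤ e → d ≤ E * tt n i → tt n i / 8 ≤ √(d * e) →
        d ≤ (8 * E) ^ 2 * e := by
      intro d e hd1 he1 hdE h8'
      have h1 : d ≤ 8 * E * √(d * e) := by nlinarith only [hT0, hd1, hdE, h8']
      have h2 : d * d ≤ (8 * E) ^ 2 * (d * e) := by
        have h3 : d * d ≤ (8 * E * √(d * e)) * (8 * E * √(d * e)) :=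
          mul_le_mul h1 h1 (by linarith) (by positivity)
        have h4 : √(d * e) * √(d * e) = d * e := Real.mul_self_sqrt (by positivity)
        calc d * d ≤ (8 * E * √(d * e)) * (8 * E * √(d * e)) := h3
          _ = (8 * E) ^ 2 * (√(d * e) * √(d * e)) := by ring
          _ = _ := by rw [h4]
      have h5 : d * d ≤ d * ((8 * E) ^ 2 * e) := by linarith
      exact le_of_mul_le_mul_left h5 (by linarith)
    refine ⟨?_, hP, ?_⟩
    · rw [hS, Finset.mem_filter, mem_Qs (by positivity)]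
      have hbig : E * tt n i ≤ 8 * E * (E * 2 ^ n) := by
        have : E * 2 ^ n ≤ 8 * E * (E * 2 ^ n) := by
          apply le_mul_of_one_le_left (by positivity)
          linarith
        linarith
      refine ⟨⟨hok, hd.trans hbig, he.trans hbig⟩, hratio _ _ hd0 he0 hd h8,
        hratio _ _ he0 hd0 he (by rw [mul_comm]; exact h8), hy1, hy2.trans hET⟩
    · have hlogle : Real.log (√((Q.d : ℝ) * Q.e) / tt n i) ≤ Real.log 2 + 1 / 2 := by
        have h5 := finE_half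
        rcases hP with h | h
        · have := (abs_le.1 h).2
          linarith
        · have := (abs_le.1 h).2
          linarith
      have h6 : √((Q.d : ℝ) * Q.e) / tt n i ≤ 4 := by
        calc √((Q.d : ℝ) * Q.e) / tt n i = Real.exp (Real.log (√((Q.d : ℝ) * Q.e) / tt n i)) :=
              (Real.exp_log (by positivity)).symm
          _ ≤ Real.exp (Real.log 2 + 1 / 2) := Real.exp_le_exp.2 hlogle
          _ = 2 * Real.exp (1 / 2) := by rw [Real.exp_add, Real.exp_log (by norm_num)]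
          _ ≤ 4 := by linarith [finE_exph]
      rw [div_le_iff₀ hT0] at h6
      rw [mul_one_div, div_le_div_iff₀ hT0 (by linarith)]
      linarith
  have hlev : ∀ i ∈ Finset.range (n ^ 2), (1 / tt n i) *
      (((Qs (E * tt n i)).filter (fun Q =>
        tt n i / 8 ≤ √((Q.d : ℝ) * Q.e) ∧ (|Real.log (√((Q.d : ℝ) * Q.e) / tt n i) - 0| ≤ 2 * η ∨
        |Real.log (√((Q.d : ℝ) * Q.e) / tt n i) - Real.log 2| ≤ 2 * η))).card : ℝ) ≤
      ∑ Q ∈ S, if (|Real.log (√((Q.d : ℝ) * Q.e) / tt n i) - 0| ≤ 2 * η ∨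
        |Real.log (√((Q.d : ℝ) * Q.e) / tt n i) - Real.log 2| ≤ 2 * η) then
          4 * (1 / √((Q.d : ℝ) * Q.e)) else 0 := by
    intro i hi
    rw [mul_comm, ← nsmul_eq_mul, ← Finset.sum_const]
    have hT0 : 0 < tt n i := by linarith [finE_one n i]
    calc _ ≤ ∑ Q ∈ (Qs (E * tt n i)).filter (fun Q =>
        tt n i / 8 ≤ √((Q.d : ℝ) * Q.e) ∧ (|Real.log (√((Q.d : ℝ) * Q.e) / tt n i) - 0| ≤ 2 * η ∨
        |Real.log (√((Q.d : ℝ) * Q.e) / tt n i) - Real.log 2| ≤ 2 * η)),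
          (if (|Real.log (√((Q.d : ℝ) * Q.e) / tt n i) - 0| ≤ 2 * η ∨
        |Real.log (√((Q.d : ℝ) * Q.e) / tt n i) - Real.log 2| ≤ 2 * η) then
          4 * (1 / √((Q.d : ℝ) * Q.e)) else 0) := by
          apply Finset.sum_le_sum
          intro Q hQ
          obtain ⟨-, h2, h3⟩ := hmem i hi Q hQ
          rw [if_pos h2]
          exact h3
      _ ≤ _ := by
          apply Finset.sum_le_sum_of_subset_of_nonneg
          · intro Q hQ
            exact (hmem i hi Q hQ).1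
          · intro Q _ _
            split_ifs
            · positivity
            · exact le_rfl
  have hsum := Finset.sum_le_sum hlev
  rw [Finset.sum_comm] at hsum
  have hQ : ∀ Q ∈ S, ∑ i ∈ Finset.range (n ^ 2),
      (if (|Real.log (√((Q.d : ℝ) * Q.e) / tt n i) - 0| ≤ 2 * η ∨
        |Real.log (√((Q.d : ℝ) * Q.e) / tt n i) - Real.log 2| ≤ 2 * η) then
          4 * (1 / √((Q.d : ℝ) * Q.e)) else 0) ≤
      (8 * (8 * η * n + 1)) * (1 / √((Q.d : ℝ) * Q.e)) := by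
    intro Q hQ
    rw [hS, Finset.mem_filter] at hQ
    have hy1 : 1 ≤ √((Q.d : ℝ) * Q.e) := hQ.2.2.2.1
    have hy0 : 0 < √((Q.d : ℝ) * Q.e) := by linarith
    rw [← Finset.sum_filter, Finset.sum_const, nsmul_eq_mul, Finset.filter_or]
    have h1 := finE_levels hn (c := 0) hη hy0
    have h2 := finE_levels hn (c := Real.log 2) hη hy0
    have h3 := Finset.card_union_le
      ((Finset.range (n ^ 2)).filter
        (fun i => |Real.log (√((Q.d : ℝ) * Q.e) / tt n i) - 0| ≤ 2 * η))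
      ((Finset.range (n ^ 2)).filter
        (fun i => |Real.log (√((Q.d : ℝ) * Q.e) / tt n i) - Real.log 2| ≤ 2 * η))
    have h4 : ((((Finset.range (n ^ 2)).filter
        (fun i => |Real.log (√((Q.d : ℝ) * Q.e) / tt n i) - 0| ≤ 2 * η)) ∪
      ((Finset.range (n ^ 2)).filter
        (fun i => |Real.log (√((Q.d : ℝ) * Q.e) / tt n i) - Real.log 2| ≤ 2 * η))).card : ℝ) ≤
        2 * (8 * η * n + 1) := by
      have h5 : ((((Finset.range (n ^ 2)).filter
        (fun i => |Real.log (√((Q.d : ℝ) * Q.e) / tt n i) - 0| ≤ 2 * η)) ∪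
      ((Finset.range (n ^ 2)).filter
        (fun i => |Real.log (√((Q.d : ℝ) * Q.e) / tt n i) - Real.log 2| ≤ 2 * η))).card : ℝ) ≤
        (((Finset.range (n ^ 2)).filter
        (fun i => |Real.log (√((Q.d : ℝ) * Q.e) / tt n i) - 0| ≤ 2 * η)).card : ℝ) +
      (((Finset.range (n ^ 2)).filter
        (fun i => |Real.log (√((Q.d : ℝ) * Q.e) / tt n i) - Real.log 2| ≤ 2 * η)).card : ℝ) := by
        exact_mod_cast h3
      linarith only [h1, h2, h5]
    calc _ ≤ (2 * (8 * η * n + 1)) * (4 * (1 / √((Q.d : ℝ) * Q.e))) :=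
          mul_le_mul_of_nonneg_right h4 (by positivity)
      _ = _ := by ring
  have hsum2 := hsum.trans (Finset.sum_le_sum hQ)
  rw [← Finset.mul_sum] at hsum2
  have hnn : (0 : ℝ) < (n : ℝ) ^ 2 := by positivity
  rw [one_div, inv_mul_le_iff₀ hnn]
  refine hsum2.trans ?_
  calc (8 * (8 * η * n + 1)) * ∑ Q ∈ S, 1 / √((Q.d : ℝ) * Q.e) ≤
      (8 * (8 * η * n + 1)) * (Cs * (A + 4) * n) :=
        mul_le_mul_of_nonneg_left hSinv' (by positivity)
    _ = (n : ℝ) ^ 2 * (8 * (Cs * (A + 4)) * (8 * η + 1 / n)) := by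
      field_simp

/-- Average of the boundary terms. (a) ratio near `exp (± A)`: two narrow sectors, for `T ≥ Y0` at most
`C η T` forms (`narrow` with `Y = exp (A + 2) T`), and at most `C T` always (`Qs_ab`); the levels with
`T < Y0` are a proportion `O(1 / n)`. (b) size near `T` or `2 T`: exchange the summations; a form with
`√(d e) = y` is counted for at most `4 η n / log 2 + 1 ≤ 8 η n + 1` levels, each with weight
`1 / T ≤ 4 / y`; here `d, e ≤ exp (A + 2) T` and `√(d e) ≥ T / 8` bound the ratio, so by `sum_inv` (with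
`Y = 1`, `Y' = exp (A + 2) 2 ^ n`) the average is at most
`(1 / n²)(8 η n + 1) C (1 + n) ≤ C (η + 1 / n)`. -/
theorem Zo_avg (A : ℝ) (hA : 0 ≤ A) : ∃ C : ℝ, 1 ≤ C ∧ ∀ η : ℝ, 0 < η → η ≤ 1 / 4 → ∃ C' : ℝ,
    ∀ n : ℕ, 1 ≤ n → (1 / (n : ℝ) ^ 2) * ∑ i ∈ Finset.range (n ^ 2),
      (1 / tt n i) * ((Zo A η (tt n i)).card : ℝ) ≤ C * η + C' / n := by
  classical
  obtain ⟨Ct, hCt, htriv⟩ := finE_triv
  obtain ⟨Ca, hCa, hA1⟩ := finE_avgA A hA
  obtain ⟨Cb, hCb, hB1⟩ := finE_avgB A hA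
  have hE1 : 1 ≤ Real.exp (A + 2) := Real.one_le_exp (by linarith)
  have hCtE : 0 ≤ Ct * Real.exp (A + 2) := by positivity
  refine ⟨Ca + 8 * Cb + 8 * (Ct * Real.exp (A + 2)), by linarith, fun η hη hη4 => ?_⟩
  rcases le_or_gt η (1 / 8) with hη8 | hη8
  · obtain ⟨C', hC'⟩ := hA1 η hη hη8
    refine ⟨C' + Cb, fun n hn => ?_⟩
    have hn0 : (0 : ℝ) < n := by exact_mod_cast hn
    have h1 := hC' n hn
    have h2 := hB1 η hη hη4 n hn
    have hlev : ∀ i ∈ Finset.range (n ^ 2), (1 / tt n i) * ((Zo A η (tt n i)).card : ℝ) ≤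
        (1 / tt n i) * (((Qs (Real.exp (A + 2) * tt n i)).filter (fun Q =>
          |(|Real.log (√(Q.d : ℝ) / √(Q.e : ℝ))|) - A| ≤ 2 * η)).card : ℝ) +
        (1 / tt n i) * (((Qs (Real.exp (A + 2) * tt n i)).filter (fun Q =>
          tt n i / 8 ≤ √((Q.d : ℝ) * Q.e) ∧ (|Real.log (√((Q.d : ℝ) * Q.e) / tt n i) - 0| ≤ 2 * η ∨
          |Real.log (√((Q.d : ℝ) * Q.e) / tt n i) - Real.log 2| ≤ 2 * η))).card : ℝ) := by
      intro i _
      have hT0 : 0 < tt n i := by linarith only [finE_one n i]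
      rw [← mul_add]
      apply mul_le_mul_of_nonneg_left _ (by positivity)
      have hsub : Zo A η (tt n i) ⊆ (Qs (Real.exp (A + 2) * tt n i)).filter (fun Q =>
          |(|Real.log (√(Q.d : ℝ) / √(Q.e : ℝ))|) - A| ≤ 2 * η) ∪
          (Qs (Real.exp (A + 2) * tt n i)).filter (fun Q =>
          tt n i / 8 ≤ √((Q.d : ℝ) * Q.e) ∧ (|Real.log (√((Q.d : ℝ) * Q.e) / tt n i) - 0| ≤ 2 * η ∨
          |Real.log (√((Q.d : ℝ) * Q.e) / tt n i) - Real.log 2| ≤ 2 * η)) := by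
        intro Q hQ
        unfold Zo at hQ
        rw [Finset.mem_filter] at hQ
        rw [Finset.mem_union, Finset.mem_filter, Finset.mem_filter, sub_zero]
        obtain ⟨hQ1, hQ2, hQ3 | hQ3 | hQ3⟩ := hQ
        · exact Or.inr ⟨hQ1, hQ2, Or.inl hQ3⟩
        · exact Or.inr ⟨hQ1, hQ2, Or.inr hQ3⟩
        · exact Or.inl ⟨hQ1, hQ3⟩
      have h3 := (Finset.card_le_card hsub).trans (Finset.card_union_le _ _)
      exact_mod_cast h3
    have hsum := Finset.sum_le_sum hlev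
    rw [Finset.sum_add_distrib] at hsum
    have hnn : (0 : ℝ) ≤ 1 / (n : ℝ) ^ 2 := by positivity
    have h3 := mul_le_mul_of_nonneg_left hsum hnn
    rw [mul_add] at h3
    have h4 : Cb * (8 * η + 1 / n) = 8 * Cb * η + Cb / n := by ring
    have h5 : (C' + Cb) / n = C' / n + Cb / n := by ring
    have h6 : 0 ≤ 8 * (Ct * Real.exp (A + 2)) * η := by positivity
    rw [h5]
    linarith only [h1, h2, h3, h4, h6]
  · refine ⟨0, fun n hn => ?_⟩
    have hn0 : (0 : ℝ) < n := by exact_mod_cast hn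
    have hlev : ∀ i ∈ Finset.range (n ^ 2), (1 / tt n i) * ((Zo A η (tt n i)).card : ℝ) ≤
        Ct * Real.exp (A + 2) := by
      intro i _
      have hT0 : 0 < tt n i := by linarith [finE_one n i]
      rw [one_div, inv_mul_le_iff₀ hT0]
      have h1 : ((Zo A η (tt n i)).card : ℝ) ≤ ((Qs (Real.exp (A + 2) * tt n i)).card : ℝ) := by
        unfold Zo
        exact_mod_cast Finset.card_filter_le _ _
      have h2 := htriv (Real.exp (A + 2) * tt n i) (by positivity)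
      linarith
    have hsum := Finset.sum_le_sum hlev
    rw [Finset.sum_const, Finset.card_range, nsmul_eq_mul] at hsum
    push_cast at hsum
    have hnn : (0 : ℝ) < (n : ℝ) ^ 2 := by positivity
    rw [one_div, inv_mul_le_iff₀ hnn]
    refine hsum.trans ?_
    apply mul_le_mul_of_nonneg_left _ hnn.le
    rw [zero_div, add_zero]
    have h6 : Ct * Real.exp (A + 2) ≤ 8 * (Ct * Real.exp (A + 2)) * η := by nlinarith only [hCtE, hη8]
    have h7 : 0 ≤ (Ca + 8 * Cb) * η := by positivity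
    linarith

/-- trivial bound: `Qs_ab` -/
theorem HB_le (D : ℕ) (hD : 1 ≤ D) : ∃ C : ℝ, 1 ≤ C ∧ ∀ X : ℕ, ∀ F G : ℕ → ℤ,
    (∀ m, |F m| ≤ 1) → (∀ m, |G m| ≤ 1) → |HB D X F G| ≤ C * X := by
  obtain ⟨C, hC, h⟩ := finE_triv
  have hD' : (1 : ℝ) ≤ D := by exact_mod_cast hD
  refine ⟨2 * D * C, by nlinarith, fun X F G hF hG => ?_⟩
  unfold HB
  refine (Finset.abs_sum_le_sum_abs _ _).trans ?_
  have h1 : ∀ Q ∈ (Qs (2 * (D : ℝ) * X)).filter (fun Q => (X < Q.n ∧ Q.n ≤ 2 * X) ∧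
      Q.n ≤ D * Q.d ∧ Q.d ≤ D * Q.n), |(F Q.d : ℝ) * (G Q.e : ℝ)| ≤ 1 := by
    intro Q _
    rw [abs_mul]
    have h2 : |(F Q.d : ℝ)| ≤ 1 := by
      rw [← Int.cast_abs]
      exact_mod_cast hF Q.d
    have h3 : |(G Q.e : ℝ)| ≤ 1 := by
      rw [← Int.cast_abs]
      exact_mod_cast hG Q.e
    calc |(F Q.d : ℝ)| * |(G Q.e : ℝ)| ≤ 1 * 1 :=
          mul_le_mul h2 h3 (abs_nonneg _) (by norm_num)
      _ = 1 := one_mul 1
  refine (Finset.sum_le_card_nsmul _ _ 1 h1).trans ?_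
  rw [nsmul_eq_mul, mul_one]
  calc (((Qs (2 * (D : ℝ) * X)).filter (fun Q => (X < Q.n ∧ Q.n ≤ 2 * X) ∧
      Q.n ≤ D * Q.d ∧ Q.d ≤ D * Q.n)).card : ℝ) ≤ ((Qs (2 * (D : ℝ) * X)).card : ℝ) := by
        exact_mod_cast Finset.card_filter_le _ _
    _ ≤ C * (2 * (D : ℝ) * X) := h _ (by positivity)
    _ = 2 * D * C * X := by ring

end

end Pool.Agent.Lib.MP_0b748d_nt.HH
end

section

set_option autoImplicit false

/-!
# From the limit averages to the theorem
-/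

namespace Pool.Agent.Lib.MP_0b748d_nt.HH

open Filter Topology MR

noncomputable section

private lemma finF_harm (n : ℕ) : ∑ X ∈ Finset.Icc 1 n, (1 / (X : ℝ)) ≤ 1 + Real.log n := by
  have h := harmonic_le_one_add_log n
  rw [harmonic_eq_sum_Icc] at h
  push_cast at h
  simpa only [one_div] using h

/-- the trivial bound -/
private lemma finF_triv {S : Finset ℕ} {n : ℕ} (hS : S ⊆ Finset.Icc 1 n) {f : ℕ → ℝ} {C : ℝ}
    (hC : 0 ≤ C) (hf : ∀ X, |f X| ≤ C * X) :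
    ∑ X ∈ S, |f X| / (X : ℝ) ^ 2 ≤ C * (1 + Real.log n) := by
  calc ∑ X ∈ S, |f X| / (X : ℝ) ^ 2 ≤ ∑ X ∈ Finset.Icc 1 n, |f X| / (X : ℝ) ^ 2 :=
        Finset.sum_le_sum_of_subset_of_nonneg hS (fun X _ _ => by positivity)
    _ ≤ ∑ X ∈ Finset.Icc 1 n, C * (1 / (X : ℝ)) := by
        apply Finset.sum_le_sum
        intro X hX
        have hX1 : (1 : ℝ) ≤ X := by exact_mod_cast (Finset.mem_Icc.1 hX).1
        rw [div_le_iff₀ (by positivity)]
        calc |f X| ≤ C * X := hf X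
          _ = C * (1 / (X : ℝ)) * (X : ℝ) ^ 2 := by field_simp
    _ = C * ∑ X ∈ Finset.Icc 1 n, (1 / (X : ℝ)) := by rw [Finset.mul_sum]
    _ ≤ C * (1 + Real.log n) := mul_le_mul_of_nonneg_left (finF_harm n) hC

private lemma finF_root {n : ℕ} (hn : 1 ≤ n) : (2 : ℝ) ^ (1 / (n : ℝ)) ≤ 1 + 1 / n := by
  have hn0 : (0 : ℝ) < n := by exact_mod_cast hn
  have h1 : (2 : ℝ) ≤ (1 + 1 / (n : ℝ)) ^ n := by
    have h2 := one_add_mul_le_pow (a := 1 / (n : ℝ)) (by
      have : 0 ≤ 1 / (n : ℝ) := by positivity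
      linarith) n
    have h3 : (n : ℝ) * (1 / n) = 1 := by field_simp
    linarith
  calc (2 : ℝ) ^ (1 / (n : ℝ)) ≤ ((1 + 1 / (n : ℝ)) ^ n) ^ (1 / (n : ℝ)) :=
        Real.rpow_le_rpow (by norm_num) h1 (by positivity)
    _ = 1 + 1 / n := by
        rw [one_div (n : ℝ)]
        exact Real.pow_rpow_inv_natCast (by positivity) (by omega)

/-- the level of `X` -/
private def finF_i (n X : ℕ) : ℕ := ⌊(n : ℝ) * Real.logb 2 X⌋₊

private lemma finF_i_spec {n X : ℕ} (hn : 1 ≤ n) (hX : 1 ≤ X) :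
    tt n (finF_i n X) ≤ X ∧ (X : ℝ) < tt n (finF_i n X) * (2 : ℝ) ^ (1 / (n : ℝ)) := by
  have hn0 : (0 : ℝ) < n := by exact_mod_cast hn
  have hX1 : (1 : ℝ) ≤ X := by exact_mod_cast hX
  have hX0 : (0 : ℝ) < X := by linarith
  have h0 : 0 ≤ (n : ℝ) * Real.logb 2 X :=
    mul_nonneg hn0.le (Real.logb_nonneg (by norm_num) hX1)
  have h1 := Nat.floor_le h0
  have h2 := Nat.lt_floor_add_one ((n : ℝ) * Real.logb 2 X)
  constructor
  · rw [tt, finF_i, ← Real.le_logb_iff_rpow_le (by norm_num) hX0, div_le_iff₀ hn0]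
    linarith
  · rw [tt, finF_i, ← Real.rpow_add (by norm_num), ← Real.logb_lt_iff_lt_rpow (by norm_num) hX0,
      ← add_div, lt_div_iff₀ hn0]
    linarith

private lemma finF_i_lt {n X : ℕ} (hn : 1 ≤ n) (hX : 1 ≤ X) (hX2 : X < 2 ^ n) :
    finF_i n X < n ^ 2 := by
  have hn0 : (0 : ℝ) < n := by exact_mod_cast hn
  have hX0 : (0 : ℝ) < X := by exact_mod_cast hX
  rw [finF_i, Nat.floor_lt' (by positivity)]
  push_cast
  rw [pow_two]
  apply mul_lt_mul_of_pos_left _ hn0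
  rw [Real.logb_lt_iff_lt_rpow (by norm_num) hX0, Real.rpow_natCast]
  exact_mod_cast hX2

private lemma finF_card {n : ℕ} (hn : 1 ≤ n) {T : ℝ} (hT : (n : ℝ) ≤ T) (S : Finset ℕ)
    (hS : ∀ X ∈ S, T ≤ (X : ℝ) ∧ (X : ℝ) ≤ T * (1 + 1 / n)) : (S.card : ℝ) ≤ 2 * T / n := by
  have hn0 : (0 : ℝ) < n := by exact_mod_cast hn
  have hT0 : 0 < T := by linarith
  have h1 : S ⊆ Finset.Icc ⌈T⌉₊ ⌊T * (1 + 1 / n)⌋₊ := by
    intro X hX
    obtain ⟨h2, h3⟩ := hS X hX
    rw [Finset.mem_Icc]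
    exact ⟨Nat.ceil_le.2 h2, Nat.le_floor h3⟩
  have h2 := Finset.card_le_card h1
  rw [Nat.card_Icc] at h2
  have h3 : ((⌊T * (1 + 1 / n)⌋₊ + 1 - ⌈T⌉₊ : ℕ) : ℝ) ≤ T / n + 1 := by
    rcases le_total ⌈T⌉₊ (⌊T * (1 + 1 / n)⌋₊ + 1) with h4 | h4
    · rw [Nat.cast_sub h4]
      push_cast
      have h5 := Nat.floor_le (by positivity : 0 ≤ T * (1 + 1 / (n : ℝ)))
      have h6 := Nat.le_ceil T
      have h7 : T * (1 + 1 / (n : ℝ)) = T + T / n := by ring
      linarith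
    · rw [Nat.sub_eq_zero_of_le h4, Nat.cast_zero]
      positivity
  have h4 : (S.card : ℝ) ≤ T / n + 1 := by
    refine le_trans ?_ h3
    exact_mod_cast h2
  have h5 : 1 ≤ T / n := by
    rw [le_div_iff₀ hn0]
    linarith
  have h6 : 2 * T / n = T / n + T / n := by ring
  linarith

/-- the sum over the levels -/
private lemma finF_levels {n N n0 : ℕ} (hn : 1 ≤ n) (hN : N < 2 ^ n) (hn0 : n0 ≤ n)
    (hn01 : 1 ≤ n0) {f : ℕ → ℝ} {q z : ℕ → ℝ} (hq : ∀ i, 0 ≤ q i) (hz : ∀ i, 0 ≤ z i)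
    (hf : ∀ (i X : ℕ), (n0 : ℝ) ≤ tt n i → tt n i ≤ X → (X : ℝ) ≤ tt n i * (1 + 1 / n0) →
      |f X| ≤ q i + z i) :
    ∑ X ∈ (Finset.Icc 1 N).filter (fun X => n < X), |f X| / (X : ℝ) ^ 2 ≤
      2 * n * ((1 / (n : ℝ) ^ 2) * ∑ i ∈ Finset.range (n ^ 2), (1 / tt n i) * q i +
        (1 / (n : ℝ) ^ 2) * ∑ i ∈ Finset.range (n ^ 2), (1 / tt n i) * z i) := by
  have hnr : (0 : ℝ) < n := by exact_mod_cast hn
  have hn0r : (0 : ℝ) < n0 := by exact_mod_cast hn01
  have htt : ∀ i, 0 < tt n i := fun i => by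
    rw [tt]
    positivity
  have hmaps : ∀ X ∈ (Finset.Icc 1 N).filter (fun X => n < X),
      finF_i n X ∈ Finset.range (n ^ 2) := by
    intro X hX
    rw [Finset.mem_filter, Finset.mem_Icc] at hX
    rw [Finset.mem_range]
    exact finF_i_lt hn hX.1.1 (lt_of_le_of_lt hX.1.2 hN)
  rw [← Finset.sum_fiberwise_of_maps_to hmaps]
  have hmain : ∀ i ∈ Finset.range (n ^ 2),
      ∑ X ∈ ((Finset.Icc 1 N).filter (fun X => n < X)).filter (fun X => finF_i n X = i),
        |f X| / (X : ℝ) ^ 2 ≤ 2 / n * ((1 / tt n i) * q i + (1 / tt n i) * z i) := by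
    intro i _
    obtain ⟨S, hS⟩ : ∃ S, S = ((Finset.Icc 1 N).filter (fun X => n < X)).filter
      (fun X => finF_i n X = i) := ⟨_, rfl⟩
    rw [← hS]
    have hSm : ∀ X ∈ S, (1 ≤ X ∧ n < X) ∧ tt n i ≤ X ∧ (X : ℝ) ≤ tt n i * (1 + 1 / n) ∧
        (n : ℝ) ≤ tt n i := by
      intro X hX
      rw [hS, Finset.mem_filter, Finset.mem_filter, Finset.mem_Icc] at hX
      obtain ⟨⟨⟨h1, -⟩, h2⟩, h3⟩ := hX
      obtain ⟨h4, h5⟩ := finF_i_spec hn h1
      rw [h3] at h4 h5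
      have h6 : (X : ℝ) ≤ tt n i * (1 + 1 / n) :=
        h5.le.trans (mul_le_mul_of_nonneg_left (finF_root hn) (htt i).le)
      refine ⟨⟨h1, h2⟩, h4, h6, ?_⟩
      have h7 : (n : ℝ) + 1 ≤ X := by exact_mod_cast h2
      have h8 : (n : ℝ) * (1 + 1 / n) = n + 1 := by field_simp
      have h9 : (n : ℝ) * (1 + 1 / n) ≤ tt n i * (1 + 1 / n) := by
        rw [h8]
        linarith
      exact le_of_mul_le_mul_right h9 (by positivity)
    rcases S.eq_empty_or_nonempty with hemp | ⟨X0, hX0⟩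
    · rw [hemp, Finset.sum_empty]
      have := htt i
      have := hq i
      have := hz i
      positivity
    have hTn := (hSm X0 hX0).2.2.2
    have hcard := finF_card hn hTn S (fun X hX => ⟨(hSm X hX).2.1, (hSm X hX).2.2.1⟩)
    have hb : ∀ X ∈ S, |f X| / (X : ℝ) ^ 2 ≤ (q i + z i) / (tt n i) ^ 2 := by
      intro X hX
      obtain ⟨-, h2, h3, h4⟩ := hSm X hX
      have h5 : (X : ℝ) ≤ tt n i * (1 + 1 / n0) := by
        refine h3.trans (mul_le_mul_of_nonneg_left ?_ (htt i).le)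
        have : 1 / (n : ℝ) ≤ 1 / n0 := one_div_le_one_div_of_le hn0r (by exact_mod_cast hn0)
        linarith
      have h6 : (n0 : ℝ) ≤ tt n i := le_trans (by exact_mod_cast hn0) h4
      have h7 := hf i X h6 h2 h5
      have h8 := htt i
      exact div_le_div₀ (add_nonneg (hq i) (hz i)) h7 (by positivity)
        (pow_le_pow_left₀ h8.le h2 2)
    calc ∑ X ∈ S, |f X| / (X : ℝ) ^ 2 ≤ ∑ X ∈ S, (q i + z i) / (tt n i) ^ 2 :=
          Finset.sum_le_sum hb
      _ = S.card * ((q i + z i) / (tt n i) ^ 2) := by rw [Finset.sum_const, nsmul_eq_mul]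
      _ ≤ (2 * tt n i / n) * ((q i + z i) / (tt n i) ^ 2) := by
          apply mul_le_mul_of_nonneg_right hcard
          have := hq i
          have := hz i
          positivity
      _ = 2 / n * ((1 / tt n i) * q i + (1 / tt n i) * z i) := by
          have h8 := (htt i).ne'
          field_simp
  refine (Finset.sum_le_sum hmain).trans (le_of_eq ?_)
  rw [← Finset.mul_sum, Finset.sum_add_distrib]
  field_simp

/-- **Comparison.** `n = Nat.log 2 N + 1`, so `N < 2 ^ n`. Choose `w i` as the sign of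
`QW … (tt n i)`, so that `AQ = (1 / n²) ∑ (1 / T_i) |QW (T_i)|`. For `n ≥ n0` (`HB_close`) and
`X > n`, let `T_i ≤ X < T_{i+1} = T_i 2 ^ (1 / n) ≤ T_i (1 + 1 / n)`; there are at most
`T_i / n + 1 ≤ 3 T_i / n` such `X` (`T_i ≥ X / 2 ≥ n / 2`), so their contribution is at most
`(3 / (n T_i))(|QW (T_i)| + |Zo (T_i)|)` (up to a factor for `1 / X² ≤ 1 / T_i²`); sum over `i` and use
`Zo_avg`. The `X ≤ n` contribute at most `C (1 + log n)` (`HB_le`), and for `n < n0` everything is at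
most `C' (n0)`. -/
theorem compare (D : ℕ) (hD : 1 ≤ D) : ∃ C : ℝ, 1 ≤ C ∧ ∀ η : ℝ, 0 < η → η ≤ 1 / 4 → ∃ C' : ℝ,
    ∀ N : ℕ, 1 ≤ N → ∀ F G : ℕ → ℤ, (∀ m, |F m| ≤ 1) → (∀ m, |G m| ≤ 1) →
    ∃ w : ℕ → ℝ, (∀ i, w i = 1 ∨ w i = -1) ∧
    ∑ X ∈ Finset.Icc 1 N, |HB D X F G| / (X : ℝ) ^ 2 ≤
      C * ((Nat.log 2 N : ℝ) + 1) * AQ (Wf (Real.log D) η) F G (Real.exp (Real.log D + 2)) w
        (Nat.log 2 N + 1) + C * η * ((Nat.log 2 N : ℝ) + 1) +
        C' * (1 + Real.log ((Nat.log 2 N : ℝ) + 1)) := by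
  classical
  have hA : 0 ≤ Real.log (D : ℝ) := Real.log_nonneg (by exact_mod_cast hD)
  obtain ⟨CZ, hCZ1, hZ⟩ := Zo_avg (Real.log D) hA
  obtain ⟨CH, hCH1, hH⟩ := HB_le D hD
  refine ⟨2 * CZ, by linarith, ?_⟩
  intro η hη hη1
  obtain ⟨CZ', hZ'⟩ := hZ η hη hη1
  obtain ⟨n0, hn01, hcl⟩ := HB_close D hD η hη hη1
  refine ⟨CH * (2 + n0) + 2 * |CZ'|, ?_⟩
  intro N hN F G hF hG
  obtain ⟨n, hnd⟩ : ∃ n, n = Nat.log 2 N + 1 := ⟨_, rfl⟩
  have hn1 : 1 ≤ n := by omega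
  have hNn : N < 2 ^ n := by
    rw [hnd]
    exact Nat.lt_pow_succ_log_self (by norm_num) N
  have hcast : (Nat.log 2 N : ℝ) + 1 = n := by
    rw [hnd]
    push_cast
    rfl
  rw [hcast, ← hnd]
  have hnr : (1 : ℝ) ≤ n := by exact_mod_cast hn1
  have hlogn : 0 ≤ Real.log n := Real.log_nonneg hnr
  have htt : ∀ i, 0 < tt n i := fun i => by
    rw [tt]
    positivity
  obtain ⟨q, hqd⟩ : ∃ q : ℕ → ℝ, q = fun i =>
    QW (Wf (Real.log D) η) F G (Real.exp (Real.log D + 2)) (tt n i) := ⟨_, rfl⟩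
  obtain ⟨w, hwd⟩ : ∃ w : ℕ → ℝ, w = fun i => if 0 ≤ q i then 1 else -1 := ⟨_, rfl⟩
  have hw : ∀ i, w i = 1 ∨ w i = -1 := by
    intro i
    rw [hwd]
    simp only
    split_ifs
    · left; rfl
    · right; rfl
  have hwq : ∀ i, w i * q i = |q i| := by
    intro i
    rw [hwd]
    simp only
    split_ifs with h
    · rw [one_mul, abs_of_nonneg h]
    · rw [abs_of_neg (not_le.1 h)]
      ring
  refine ⟨w, hw, ?_⟩
  have hAQ : AQ (Wf (Real.log D) η) F G (Real.exp (Real.log D + 2)) w n =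
      (1 / (n : ℝ) ^ 2) * ∑ i ∈ Finset.range (n ^ 2), (1 / tt n i) * |q i| := by
    rw [AQ]
    congr 1
    apply Finset.sum_congr rfl
    intro i _
    rw [← hwq i, hqd]
    ring
  have hAQ0 : 0 ≤ (1 / (n : ℝ) ^ 2) * ∑ i ∈ Finset.range (n ^ 2), (1 / tt n i) * |q i| := by
    apply mul_nonneg (by positivity)
    apply Finset.sum_nonneg
    intro i _
    have := htt i
    positivity
  rw [hAQ]
  obtain ⟨a, ha⟩ : ∃ a, a = (1 / (n : ℝ) ^ 2) * ∑ i ∈ Finset.range (n ^ 2),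
    (1 / tt n i) * |q i| := ⟨_, rfl⟩
  rw [← ha] at hAQ0 ⊢
  have hCZ' : 0 ≤ |CZ'| := abs_nonneg _
  have hn0r : (1 : ℝ) ≤ n0 := by exact_mod_cast hn01
  have t1 : 0 ≤ 2 * CZ * n * a := by positivity
  have t2 : 0 ≤ 2 * CZ * η * n := by positivity
  rcases lt_or_ge n n0 with hnn | hnn
  · have h1 : ∑ X ∈ Finset.Icc 1 N, |HB D X F G| / (X : ℝ) ^ 2 ≤ CH * (1 + Real.log N) :=
      finF_triv (f := fun X => HB D X F G) (Finset.Subset.refl _) (by linarith)
        (fun X => hH X F G hF hG)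
    have h2 : Real.log N ≤ n := by
      have hN0 : (0 : ℝ) < N := by exact_mod_cast hN
      have h3 : Real.log N ≤ Real.log (2 ^ n) := by
        apply Real.log_le_log hN0
        exact_mod_cast hNn.le
      rw [Real.log_pow] at h3
      have := Real.log_le_sub_one_of_pos (show (0 : ℝ) < 2 by norm_num)
      nlinarith
    have h3 : (n : ℝ) ≤ n0 := by exact_mod_cast hnn.le
    have h4 : CH * (1 + Real.log N) ≤ CH * (2 + n0) :=
      mul_le_mul_of_nonneg_left (by linarith) (by linarith)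
    have h5 : 0 ≤ CH * (2 + n0) + 2 * |CZ'| := by positivity
    have h6 : CH * (2 + n0) + 2 * |CZ'| ≤ (CH * (2 + n0) + 2 * |CZ'|) * (1 + Real.log n) :=
      le_mul_of_one_le_right h5 (by linarith)
    linarith
  · have hsplit := (Finset.sum_filter_add_sum_filter_not (Finset.Icc 1 N) (fun X => n < X)
      (fun X : ℕ => |HB D X F G| / (X : ℝ) ^ 2)).symm
    rw [hsplit]
    have h1 : ∑ X ∈ (Finset.Icc 1 N).filter (fun X => ¬ n < X), |HB D X F G| / (X : ℝ) ^ 2 ≤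
        CH * (1 + Real.log n) := by
      apply finF_triv (f := fun X => HB D X F G) _ (by linarith) (fun X => hH X F G hF hG)
      intro X hX
      rw [Finset.mem_filter, Finset.mem_Icc] at hX
      rw [Finset.mem_Icc]
      omega
    have h2 : ∑ X ∈ (Finset.Icc 1 N).filter (fun X => n < X), |HB D X F G| / (X : ℝ) ^ 2 ≤
      2 * n * ((1 / (n : ℝ) ^ 2) * ∑ i ∈ Finset.range (n ^ 2), (1 / tt n i) * |q i| +
        (1 / (n : ℝ) ^ 2) * ∑ i ∈ Finset.range (n ^ 2), (1 / tt n i) *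
          ((Zo (Real.log D) η (tt n i)).card : ℝ)) := by
      apply finF_levels (f := fun X => HB D X F G) (q := fun i => |q i|)
        (z := fun i => ((Zo (Real.log D) η (tt n i)).card : ℝ)) hn1 hNn hnn hn01
        (fun i => abs_nonneg _) (fun i => Nat.cast_nonneg _)
      intro i X h3 h4 h5
      have h6 := hcl (tt n i) X h3 h4 h5 F G hF hG
      have h7 : |HB D X F G| ≤ |q i| + |HB D X F G - q i| := by
        have := abs_add_le (q i) (HB D X F G - q i)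
        rwa [add_sub_cancel] at this
      rw [hqd] at h7 ⊢
      simp only at h7 ⊢
      linarith
    rw [← ha] at h2
    have h3 := hZ' n hn1
    have h4 : 2 * (n : ℝ) * (a + (1 / (n : ℝ) ^ 2) * ∑ i ∈ Finset.range (n ^ 2),
        (1 / tt n i) * ((Zo (Real.log D) η (tt n i)).card : ℝ)) ≤
        2 * n * (a + (CZ * η + CZ' / n)) :=
      mul_le_mul_of_nonneg_left (by linarith) (by positivity)
    have h5 : 2 * (n : ℝ) * (a + (CZ * η + CZ' / n)) =
        2 * n * a + 2 * CZ * η * n + 2 * CZ' := by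
      field_simp
      ring
    have h6 : 2 * (n : ℝ) * a ≤ 2 * CZ * n * a := by
      have : 2 * CZ * n * a = CZ * (2 * n * a) := by ring
      rw [this]
      exact le_mul_of_one_le_left (by positivity) hCZ1
    have h7 : 2 * |CZ'| ≤ 2 * |CZ'| * (1 + Real.log n) :=
      le_mul_of_one_le_right (by positivity) (by linarith)
    have h8 : CH * (1 + Real.log n) ≤ CH * (2 + n0) * (1 + Real.log n) := by
      apply mul_le_mul_of_nonneg_right _ (by linarith)
      exact le_mul_of_one_le_right (by linarith) (by linarith)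
    have h9 : CZ' ≤ |CZ'| := le_abs_self _
    have h10 : (CH * (2 + n0) + 2 * |CZ'|) * (1 + Real.log n) =
      CH * (2 + n0) * (1 + Real.log n) + 2 * |CZ'| * (1 + Real.log n) := by ring
    linarith

end

end Pool.Agent.Lib.MP_0b748d_nt.HH
end
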