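import Pool.Agent.Lib.MP_0b748d_nt.HH.AsmC
import Pool.Agent.Lib.MP_0b748d_nt.HH.AsmE
import Pool.Agent.Lib.MP_0b748d_nt.HH.ExF
import Pool.Agent.Lib.MP_0b748d_nt.HH.AsmKB
import Pool.Agent.Lib.MP_0b748d_nt.HH.ExC
import Pool.Agent.Lib.MP_0b748d_nt.HH.DecF
import Pool.Agent.Lib.MP_0b748d_nt.HH.PrimeF
import Pool.Agent.Lib.MP_0b748d_nt.HH.AsmKA
import Pool.Agent.Lib.MP_0b748d_nt.HH.FinF

section

set_option autoImplicit false

/-!
# Assembly: the replacement steps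
-/

namespace Pool.Agent.Lib.MP_0b748d_nt.HH

open Filter Topology MR

noncomputable section

/-! ### the steps -/

/-- sign of a truth value -/
def asmK_sg (x : Bool) : ℤ := if x then 1 else -1

theorem asmK_sg_val (x : Bool) : asmK_sg x = 1 ∨ asmK_sg x = -1 := by
  unfold asmK_sg
  split_ifs <;> simp

theorem asmK_sg_mul {γ : ℕ → ℤ} (hγ : ∀ p, γ p = 1 ∨ γ p = -1) (x : Bool) (p : ℕ) :
    asmK_sg x * γ p = 1 ∨ asmK_sg x * γ p = -1 := by
  rcases asmK_sg_val x with h | h <;> rcases hγ p with h1 | h1 <;> rw [h, h1] <;> norm_num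

open Classical in
/-- the sign of the weight -/
def asmK_bw (w : ℕ → ℕ → ℝ) (s n i : ℕ) : Bool := decide (w n (i + s * n) = 1)

theorem asmK_bw_eq {w : ℕ → ℕ → ℝ} (hw : ∀ n i, w n i = 1 ∨ w n i = -1) (s n i : ℕ) :
    ((asmK_sg (asmK_bw w s n i) : ℤ) : ℝ) = w n (i + s * n) := by
  unfold asmK_sg asmK_bw
  rcases hw n (i + s * n) with h | h
  · simp [h]
  · have h1 : ¬ ((-1 : ℝ) = 1) := by norm_num
    simp [h, h1]

theorem asmK_w_abs {w : ℕ → ℕ → ℝ} (hw : ∀ n i, w n i = 1 ∨ w n i = -1) (n i : ℕ) :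
    |w n i| = 1 := by
  rcases hw n i with h | h <;> rw [h] <;> norm_num

theorem asmK_V3 {F : ℕ → ℕ → ℤ} (hF : V3 F) (n m : ℕ) : |F n m| ≤ 1 := by
  rcases hF n m with h | h | h <;> rw [h] <;> norm_num

/-- the test function with the weight -/
def asmK_kb (W : ℝ → ℝ → ℝ) (s m : ℕ) (γ : ℕ → ℤ) (p : ℕ)
    (y : Pt × (Option (ℕ × ℕ × ℕ) × Bool)) (M : Mt) : ℝ :=
  asmK_ka W s m (fun q => asmK_sg y.2.2 * γ q) p (y.1, y.2.1) M

theorem asmK_kb_abs (W : ℝ → ℝ → ℝ) (s m : ℕ) (γ : ℕ → ℤ) (p : ℕ)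
    (y : Pt × (Option (ℕ × ℕ × ℕ) × Bool)) (M : Mt) : |asmK_kb W s m γ p y M| ≤ 1 := by
  unfold asmK_kb asmK_ka
  exact asmK_cl_abs _

open Classical in
/-- the sum over the primes -/
def asmK_Phi (W : ℝ → ℝ → ℝ) (F G : ℕ → ℕ → ℤ) (b δ : ℝ) (s : ℕ) (w : ℕ → ℕ → ℝ) (γ : ℕ → ℤ)
    (P n i : ℕ) (Q : Fm) : ℝ :=
  ∑ p ∈ PP P, ((asmK_sg (asmK_bw w s n i) * γ p : ℤ) : ℝ) *
    (if Gc δ (tt n i) Q then Ph W (F n) (G n) b p (2 ^ s * tt n i) Q else 0)

open Classical in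
theorem asmK_Phi_Bd {a b L δ : ℝ} (ha : 0 < a) (hab : a ≤ b) {W : ℝ → ℝ → ℝ} (hW : Wt a b L W)
    {F G : ℕ → ℕ → ℤ} (hF : V3 F) (hG : V3 G) (w : ℕ → ℕ → ℝ) (s : ℕ) {γ : ℕ → ℤ}
    (hγ : ∀ p, γ p = 1 ∨ γ p = -1) (P : ℕ) : Bd (asmK_Phi W F G b δ s w γ P) := by
  refine Bd_sum (PP P) (fun p n i Q => ((asmK_sg (asmK_bw w s n i) * γ p : ℤ) : ℝ) *
    (if Gc δ (tt n i) Q then Ph W (F n) (G n) b p (2 ^ s * tt n i) Q else 0)) fun p hp => ?_
  refine asmK_Bd_abs_le (fun n i Q _ => ?_) (Pn_Bd ha hab hW hF hG (PP_mem_iff.1 hp).2 s)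
  have h1 : |((asmK_sg (asmK_bw w s n i) * γ p : ℤ) : ℝ)| = 1 := by
    rcases asmK_sg_mul hγ (asmK_bw w s n i) p with h | h <;> rw [h] <;> norm_num
  rw [abs_mul, h1, one_mul]
  split_ifs
  · exact le_rfl
  · rw [abs_zero]
    exact abs_nonneg _

open Classical in
theorem asmK_step1 {a b L δ : ℝ} (ha : 0 < a) (hab : a ≤ b) {U : Ultrafilter ℕ}
    {W : ℝ → ℝ → ℝ} (hW : Wt a b L W) {F G : ℕ → ℕ → ℤ} (hF : V3 F) (hG : V3 G) {w : ℕ → ℕ → ℝ}
    (hw : ∀ n i, w n i = 1 ∨ w n i = -1) {s : ℕ} {γ : ℕ → ℤ} {P : ℕ} {ε : ℝ}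
    (h : ∀ p ∈ PP P, |2 * SW U W F G b w + γ p * (1 / 2 ^ s) *
      Av U (fun n i Q => if Gc δ (tt n i) Q then w n (i + s * n) * Pn W F G b p s n i Q else 0)| ≤ ε) :
    2 * (PP P).card * |SW U W F G b w| ≤ (PP P).card * ε + |Av U (asmK_Phi W F G b δ s w γ P)| := by
  have hb : ∀ p ∈ PP P, Bd (fun n i Q => if Gc δ (tt n i) Q then
      w n (i + s * n) * Pn W F G b p s n i Q else 0) := by
    intro p hp
    refine asmK_Bd_abs_le (fun n i Q _ => ?_) (Pn_Bd ha hab hW hF hG (PP_mem_iff.1 hp).2 s)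
    split_ifs
    · rw [abs_mul, asmK_w_abs hw, one_mul]
    · rw [abs_zero]
      exact abs_nonneg _
  obtain ⟨Ap, hAp⟩ : ∃ Ap : ℕ → ℝ, ∀ p, Ap p = Av U (fun n i Q => if Gc δ (tt n i) Q then
      w n (i + s * n) * Pn W F G b p s n i Q else 0) := ⟨_, fun _ => rfl⟩
  have h1 : Av U (asmK_Phi W F G b δ s w γ P) = ∑ p ∈ PP P, γ p * Ap p := by
    have h2 : ∑ p ∈ PP P, (γ p : ℝ) * Ap p = ∑ p ∈ PP P, Av U (fun n i Q => (γ p : ℝ) *
        (if Gc δ (tt n i) Q then w n (i + s * n) * Pn W F G b p s n i Q else 0)) :=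
      Finset.sum_congr rfl (fun p hp => by rw [Av_smul (γ p : ℝ) (hb p hp), hAp])
    rw [h2, ← Av_sum (PP P) (fun p n i Q => (γ p : ℝ) *
        (if Gc δ (tt n i) Q then w n (i + s * n) * Pn W F G b p s n i Q else 0))
        (fun p hp => Bd_smul _ (hb p hp))]
    congr 1
    funext n i Q
    unfold asmK_Phi
    refine Finset.sum_congr rfl fun p _ => ?_
    rw [Int.cast_mul, asmK_bw_eq hw]
    split_ifs
    · unfold Pn
      ring
    · ring
  have h3 : 2 * (PP P).card * SW U W F G b w =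
      ∑ p ∈ PP P, (2 * SW U W F G b w + γ p * (1 / 2 ^ s) * Ap p) -
        (1 / 2 ^ s) * Av U (asmK_Phi W F G b δ s w γ P) := by
    rw [h1, Finset.sum_add_distrib, Finset.sum_const, nsmul_eq_mul, Finset.mul_sum]
    have h4 : ∑ p ∈ PP P, (γ p : ℝ) * (1 / 2 ^ s) * Ap p =
        ∑ p ∈ PP P, (1 / 2 ^ s) * ((γ p : ℝ) * Ap p) :=
      Finset.sum_congr rfl fun p _ => by ring
    rw [h4]
    ring
  have h5 : |2 * (PP P).card * SW U W F G b w| = 2 * (PP P).card * |SW U W F G b w| := by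
    rw [abs_mul, abs_of_nonneg (by positivity : (0 : ℝ) ≤ 2 * (PP P).card)]
  rw [← h5, h3]
  refine (abs_sub _ _).trans (add_le_add ?_ ?_)
  · refine (Finset.abs_sum_le_sum_abs _ _).trans ?_
    rw [← nsmul_eq_mul, ← Finset.sum_const]
    refine Finset.sum_le_sum fun p hp => ?_
    rw [hAp]
    exact h p hp
  · rw [abs_mul, abs_of_nonneg (by positivity : (0 : ℝ) ≤ 1 / 2 ^ s)]
    refine mul_le_of_le_one_left (abs_nonneg _) ?_
    rw [div_le_one (by positivity)]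
    exact one_le_pow₀ (by norm_num)

open Classical in
theorem asmK_step2 {a b L δ : ℝ} (ha : 0 < a) (hab : a ≤ b) {s : ℕ} {K : ℝ} (hK0 : 1 ≤ K)
    (hK : ∀ (W : ℝ → ℝ → ℝ), Wt a b L W → ∀ F G : ℕ → ℤ,
      (∀ m, |F m| ≤ 1) → (∀ m, |G m| ≤ 1) → ∀ (T : ℝ), 2 ≤ T → ∀ Q ∈ Cl T, Gc δ T Q →
      ∀ (P m : ℕ), 2 ≤ P → 1 ≤ m → ∀ p ∈ PP P, ∀ S : Finset (ℕ × ℕ),
      |Ph W F G b p (2 ^ s * T) Q -
        ∑ M ∈ (Bx ⌊√(2 * b * 2 ^ s / δ) * √P⌋₊).filter (fun M => M.Dt p),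
          (Kz W s m (some (sh m T Q)) p (M.a, M.c) (M.b, M.d) * lk1 (gr F G Q S) (M.a, M.c) *
            lk2 (gr F G Q S) (M.b, M.d)) * (if zr (res p Q) M then (1 : ℝ) else 0)| ≤
        K / m + ∑ M ∈ (Bx ⌊√(2 * b * 2 ^ s / δ) * √P⌋₊).filter (fun M => M.Dt p),
          (ms (gr F G Q S) (M.a, M.c) + ms (gr F G Q S) (M.b, M.d)) *
            (if zr (res p Q) M then (1 : ℝ) else 0))
    {U : Ultrafilter ℕ} (hU : (U : Filter ℕ) ≤ atTop) {W : ℝ → ℝ → ℝ} (hW : Wt a b L W)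
    {F G : ℕ → ℕ → ℤ} (hF : V3 F) (hG : V3 G) (w : ℕ → ℕ → ℝ) {γ : ℕ → ℤ}
    (hγ : ∀ p, γ p = 1 ∨ γ p = -1) {P m : ℕ} (hP : 2 ≤ P) (hm : 1 ≤ m)
    (S : ℕ → ℕ → Fm → Finset (ℕ × ℕ)) :
    |Av U (asmK_Phi W F G b δ s w γ P)| ≤
      |Av U (fun n i Q => ∑ p ∈ PP P,
        ∑ M ∈ (Bx ⌊√(2 * b * 2 ^ s / δ) * √P⌋₊).filter (fun M => M.Dt p),
        asmK_kb W s m γ p (gr (F n) (G n) Q (S n i Q), (Zs δ m n i Q, asmK_bw w s n i)) M *
          asmK_z p Q M)| +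
      ((PP P).card * (K / m) * mass U + 2 * |Av U (fun n i Q => ∑ p ∈ PP P,
        ∑ M ∈ (Bx ⌊√(2 * b * 2 ^ s / δ) * √P⌋₊).filter (fun M => M.Dt p),
        asmK_mi (gr (F n) (G n) Q (S n i Q)) M * asmK_z p Q M)|) := by
  have hb1 : Bd (fun n i Q => ∑ p ∈ PP P,
      ∑ M ∈ (Bx ⌊√(2 * b * 2 ^ s / δ) * √P⌋₊).filter (fun M => M.Dt p),
      asmK_kb W s m γ p (gr (F n) (G n) Q (S n i Q), (Zs δ m n i Q, asmK_bw w s n i)) M * asmK_z p Q M) := by
    refine asmK_Bd_dbl (fun _ => 1) fun n i Q p _ M _ => ?_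
    rw [abs_mul]
    calc _ ≤ (1 : ℝ) * 1 := mul_le_mul (asmK_kb_abs _ _ _ _ _ _ _) (asmK_z_abs _ _ _) (abs_nonneg _)
          zero_le_one
      _ = 1 := one_mul _
  have hb2 : Bd (fun n i Q => ∑ p ∈ PP P,
      ∑ M ∈ (Bx ⌊√(2 * b * 2 ^ s / δ) * √P⌋₊).filter (fun M => M.Dt p),
      asmK_mi (gr (F n) (G n) Q (S n i Q)) M * asmK_z p Q M) := by
    refine asmK_Bd_dbl (fun _ => 1) fun n i Q p _ M _ => ?_
    rw [abs_mul]
    calc _ ≤ (1 : ℝ) * 1 := mul_le_mul (asmK_mi_abs _ _) (asmK_z_abs _ _ _) (abs_nonneg _)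
          zero_le_one
      _ = 1 := one_mul _
  have hb3 := Bd_add (asmK_Bd_const ((PP P).card * (K / m))) (Bd_smul 2 hb2)
  refine (asmK_Av_tri hU (asmK_Phi_Bd ha hab hW hF hG w s hγ P) hb1 hb3 2 ?_).trans ?_
  · intro n i hT Q hQ
    exact asmK_cell hK0 hK hW (asmK_V3 hF n) (asmK_V3 hG n) hT hQ hP hm
      (asmK_sg_mul hγ (asmK_bw w s n i)) (S n i Q)
  · refine add_le_add le_rfl ?_
    rw [Av_add (asmK_Bd_const _) (Bd_smul 2 hb2), asmK_Av_const, Av_smul 2 hb2]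
    exact add_le_add le_rfl (mul_le_mul_of_nonneg_left (le_abs_self _) (by norm_num))

open Classical in
theorem asmK_step4 {L C0 εm η : ℝ} {W0 P0 : ℕ}
    (hM : ∀ (a b : ℝ) (W : ℝ → ℝ → ℝ), Wt a b L W →
      ∀ (s m P c : ℕ), 1 ≤ m → P0 ≤ P → (c : ℝ) ≤ C0 * √P → ∀ g : ℕ × ℕ × ℕ,
      g.1 ≤ 2 * m → g.2.1 ≤ 2 * m → g.2.2 ≤ 2 * m → ∀ γ : ℕ → ℤ, (∀ p, γ p = 1 ∨ γ p = -1) →
      ∀ x : Pt, (∀ v, |lk1 x v| ≤ 1) → (∀ v, |lk2 x v| ≤ 1) →
      Sm W0 η P c (fun v => if Nat.Coprime v.1 v.2 then lk1 x v else 0) →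
      |∑ p ∈ PP P, ∑ M ∈ (Bx c).filter (fun M => M.Dt p), γ p * qp p *
        (Kz W s m (some g) p (M.a, M.c) (M.b, M.d) * lk1 x (M.a, M.c) * lk2 x (M.b, M.d))| ≤
        εm * P / Real.log P)
    {U : Ultrafilter ℕ} (hU : (U : Filter ℕ) ≤ atTop)
    {a b : ℝ} {W : ℝ → ℝ → ℝ} (hW : Wt a b L W) (s m : ℕ) (hm : 1 ≤ m) {P c : ℕ} (hP : P0 ≤ P)
    (hP2 : 2 ≤ P) (hεm : 0 ≤ εm) (hc : (c : ℝ) ≤ C0 * √P) {γ : ℕ → ℤ} (hγ : ∀ p, γ p = 1 ∨ γ p = -1)
    (w : ℕ → ℕ → ℝ) {F G : ℕ → ℕ → ℤ} (hF : V3 F) (hG : V3 G) (S : ℕ → ℕ → Fm → Finset (ℕ × ℕ))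
    (δ : ℝ) {Kq : ℝ}
    (hq : ∀ p ∈ PP P, qp p * ((Bx c).filter (fun M => M.Dt p)).card ≤ Kq) :
    |Av U (fun n i Q => ∑ p ∈ PP P, ∑ M ∈ (Bx c).filter (fun M => M.Dt p),
      asmK_kb W s m γ p (gr (F n) (G n) Q (S n i Q), (Zs δ m n i Q, asmK_bw w s n i)) M * qp p)| ≤
    εm * P / Real.log P * mass U + (PP P).card * Kq * Av U (fun n i Q =>
      if Gc δ (tt n i) Q ∧ ¬ Sm W0 η P c
        (fun v => if Nat.Coprime v.1 v.2 then lk1 (gr (F n) (G n) Q (S n i Q)) v else 0)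
        then (1 : ℝ) else 0) := by
  have hb1 : Bd (fun n i Q => ∑ p ∈ PP P, ∑ M ∈ (Bx c).filter (fun M => M.Dt p),
      asmK_kb W s m γ p (gr (F n) (G n) Q (S n i Q), (Zs δ m n i Q, asmK_bw w s n i)) M * qp p) := by
    refine asmK_Bd_dbl (fun p => |qp p|) fun n i Q p _ M _ => ?_
    rw [abs_mul]
    exact mul_le_of_le_one_left (abs_nonneg _) (asmK_kb_abs _ _ _ _ _ _ _)
  have hb2 : Bd (fun n i Q => if Gc δ (tt n i) Q ∧ ¬ Sm W0 η P c
      (fun v => if Nat.Coprime v.1 v.2 then lk1 (gr (F n) (G n) Q (S n i Q)) v else 0)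
      then (1 : ℝ) else 0) := by
    refine Bd_of_le (C := 1) fun n i Q _ => ?_
    split_ifs <;> norm_num
  have hb3 := Bd_add (asmK_Bd_const (εm * P / Real.log P)) (Bd_smul ((PP P).card * Kq) hb2)
  refine (Av_abs_le hU hb3 1 ?_ hb1).trans (le_of_eq ?_)
  · intro n i hT Q hQ
    exact asmK_main hM hW s m hm hP hP2 hεm hc (asmK_sg_mul hγ (asmK_bw w s n i)) (asmK_V3 hF n) (asmK_V3 hG n)
      hT hQ (S n i Q) δ hq
  · rw [Av_add (asmK_Bd_const _) (Bd_smul _ hb2), asmK_Av_const, Av_smul _ hb2]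

end

end Pool.Agent.Lib.MP_0b748d_nt.HH
end

section

set_option autoImplicit false

/-!
# Assembly: the averages over forms vanish in the limit
-/

namespace Pool.Agent.Lib.MP_0b748d_nt.HH

open Filter Topology MR

noncomputable section

private theorem asmK_sqrt {K I N q e C η2 : ℝ} (hK : 0 < K) (hq : 0 ≤ q) (hN : 0 ≤ N) (he : 0 ≤ e)
    (hI : I ≤ 2 * η2 * q) (hη2 : 0 ≤ η2) (hNC : N ≤ C * q) (h : 2 * η2 * C * K ^ 2 ≤ e ^ 2) :
    K * √(I * N) ≤ e * q := by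
  have h1 : √(I * N) ≤ e * q / K := by
    rw [Real.sqrt_le_iff]
    refine ⟨by positivity, ?_⟩
    have h2 : I * N ≤ (2 * η2 * q) * (C * q) := mul_le_mul hI hNC hN (by positivity)
    refine h2.trans ?_
    rw [div_pow, le_div_iff₀ (by positivity)]
    have h3 := mul_le_mul_of_nonneg_right h (sq_nonneg q)
    nlinarith
  calc K * √(I * N) ≤ K * (e * q / K) := mul_le_mul_of_nonneg_left h1 hK.le
    _ = e * q := by field_simp

private theorem asmK_large (L η : ℝ) (hη : 0 < η) : ∃ P0 : ℕ, ∀ P : ℕ, P0 ≤ P → 3 ≤ P →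
    L ≤ η * P / Real.log P := by
  refine ⟨⌈(2 * |L| / η) ^ 2⌉₊, fun P hP hP3 => ?_⟩
  have hP0 : (0 : ℝ) < P := by exact_mod_cast (by omega : 0 < P)
  have hlog : 0 < Real.log P := Real.log_pos (by exact_mod_cast (by omega : 1 < P))
  have h1 : (2 * |L| / η) ^ 2 ≤ P := (Nat.le_ceil _).trans (by exact_mod_cast hP)
  have h2 : 2 * |L| / η ≤ √P := Real.le_sqrt_of_sq_le h1
  have h3 : Real.log P ≤ 2 * √P := by
    have h4 : Real.log P = 2 * Real.log √P := by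
      rw [Real.log_sqrt hP0.le]
      ring
    have h5 := Real.log_le_sub_one_of_pos (Real.sqrt_pos.2 hP0)
    rw [h4]
    linarith
  rw [le_div_iff₀ hlog]
  rw [div_le_iff₀ hη] at h2
  calc L * Real.log P ≤ |L| * Real.log P := mul_le_mul_of_nonneg_right (le_abs_self _) hlog.le
    _ ≤ |L| * (2 * √P) := mul_le_mul_of_nonneg_left h3 (abs_nonneg _)
    _ = (2 * |L|) * √P := by ring
    _ ≤ (√P * η) * √P := mul_le_mul_of_nonneg_right h2 (Real.sqrt_nonneg _)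
    _ = η * (√P * √P) := by ring
    _ = η * P := by rw [Real.mul_self_sqrt hP0.le]


/-- the final computation -/
private theorem asmK_fin {σ ε N q x1 x2 x3 x4 x5 μ ηw ε2 η cPP Cm Kp Kq Kms M Pr lg : ℝ} {m : ℕ}
    (hm1 : 1 ≤ m) (hε : 0 < ε) (hN0 : 0 < N) (hq0 : 0 < q) (hcPP0 : 0 < cPP)
    (hCm0 : 0 < Cm) (hKp1 : 1 ≤ Kp) (hKq0 : 0 < Kq) (hPr : 0 < Pr) (hlog : 0 < lg)
    (hq : q = Pr / lg) (hN1 : cPP * q ≤ N) (hmass : M ≤ Cm) (hm : Kp * Cm / ε ≤ m)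
    (hηw2 : Kq * ηw ≤ ε) (hε21 : Kms * ε2 ≤ ε * cPP) (hε22 : Kq * (2 * ε2 / η) ≤ ε)
    (g1 : 2 * N * |σ| ≤ N * ε + x1) (g2 : x1 ≤ x2 + (N * (Kp / m) * M + 2 * x3))
    (g3 : x2 ≤ x4 + ε * cPP * q) (g3' : x3 ≤ x5 + ε * cPP * q)
    (g4 : x4 ≤ ε * cPP / Cm * Pr / lg * M + N * Kq * μ)
    (g4' : μ ≤ ηw + 2 * ε2 / η) (g5 : x5 ≤ Kms / lg * (ε2 * Pr)) : |σ| ≤ 5 * ε := by
  have t0 : ε * cPP * q ≤ ε * N := by
    calc ε * cPP * q = ε * (cPP * q) := by ring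
      _ ≤ ε * N := mul_le_mul_of_nonneg_left hN1 hε.le
  have t1 : N * (Kp / m) * M ≤ N * ε := by
    have hm0 : (0 : ℝ) < m := by exact_mod_cast hm1
    have h6 : Kp / m * M ≤ ε := by
      calc Kp / m * M ≤ Kp / m * Cm := mul_le_mul_of_nonneg_left hmass (by positivity)
        _ ≤ ε := by
          rw [div_mul_eq_mul_div, div_le_iff₀ hm0]
          rw [div_le_iff₀ hε] at hm
          linarith
    rw [mul_assoc]
    exact mul_le_mul_of_nonneg_left h6 hN0.le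
  have t2 : ε * cPP / Cm * Pr / lg * M ≤ ε * N := by
    refine le_trans ?_ t0
    calc ε * cPP / Cm * Pr / lg * M ≤ ε * cPP / Cm * Pr / lg * Cm :=
          mul_le_mul_of_nonneg_left hmass (by positivity)
      _ = ε * cPP * q := by
        rw [hq]
        field_simp
  have t3 : N * Kq * μ ≤ N * (2 * ε) := by
    rw [mul_assoc]
    refine mul_le_mul_of_nonneg_left ?_ hN0.le
    calc Kq * μ ≤ Kq * (ηw + 2 * ε2 / η) := mul_le_mul_of_nonneg_left g4' hKq0.le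
      _ = Kq * ηw + Kq * (2 * ε2 / η) := by ring
      _ ≤ 2 * ε := by linarith
  have t5 : Kms / lg * (ε2 * Pr) ≤ ε * N := by
    refine le_trans ?_ t0
    calc Kms / lg * (ε2 * Pr) = (Kms * ε2) * q := by
          rw [hq]
          ring
      _ ≤ ε * cPP * q := mul_le_mul_of_nonneg_right hε21 hq0.le
  have t6 : 2 * N * |σ| ≤ 2 * N * (5 * ε) := by linarith
  exact le_of_mul_le_mul_left t6 (by positivity)

/-! ### the limit signs -/

private theorem asmK_V3_Fl (c : ℕ) : V3 (fun _ => Fl c) := by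
  intro n m
  show Fl c m = 0 ∨ Fl c m = 1 ∨ Fl c m = -1
  unfold Fl
  split_ifs
  · exact Or.inr (neg_one_pow_eq_or ℤ _)
  · exact Or.inl rfl

private theorem asmK_V3_Gg {g : ℕ → ℕ → ℤ} (hg : ∀ n, CMg (g n)) (c : ℕ) :
    V3 (fun n => Gg (g n) c) := by
  intro n m
  show Gg (g n) c m = 0 ∨ Gg (g n) c m = 1 ∨ Gg (g n) c m = -1
  unfold Gg
  split_ifs with h
  · exact Or.inr ((hg n).val m (Nat.pos_of_ne_zero h.2))
  · exact Or.inl rfl

open Classical in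
private theorem asmK_gamma (U : Ultrafilter ℕ) {g : ℕ → ℕ → ℤ} (hg : ∀ n, CMg (g n)) :
    ∃ γ : ℕ → ℤ, (∀ p, γ p = 1 ∨ γ p = -1) ∧
      ∀ p, 1 ≤ p → ∀ᶠ n in (U : Filter ℕ), g n p = γ p := by
  refine ⟨fun p => if ∀ᶠ n in (U : Filter ℕ), g n p = 1 then 1 else -1, fun p => ?_, fun p hp => ?_⟩
  · show (if ∀ᶠ n in (U : Filter ℕ), g n p = 1 then (1 : ℤ) else -1) = 1 ∨
      (if ∀ᶠ n in (U : Filter ℕ), g n p = 1 then (1 : ℤ) else -1) = -1
    split_ifs <;> simp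
  · by_cases h : ∀ᶠ n in (U : Filter ℕ), g n p = 1
    · simp only [if_pos h]
      exact h
    · simp only [if_neg h]
      have h1 : ∀ᶠ n in (U : Filter ℕ), ¬ g n p = 1 := Ultrafilter.eventually_not.2 h
      filter_upwards [h1] with n hn
      exact ((hg n).val p hp).resolve_left hn

private theorem asmK_mlog {Cm x y : ℝ} {U : Ultrafilter ℕ} (hCm1 : 1 ≤ Cm) (hCm : mass U ≤ Cm)
    (d : ℕ) (hd : (d : ℝ) ≤ x) (hx1 : 1 ≤ x) (h : Cm * Real.log x ≤ y) :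
    mass U * Real.log d ≤ y := by
  refine le_trans ?_ h
  rcases Nat.eq_zero_or_pos d with h0 | h0
  · rw [h0, Nat.cast_zero, Real.log_zero, mul_zero]
    exact mul_nonneg (by linarith) (Real.log_nonneg hx1)
  · have h1 : (1 : ℝ) ≤ d := by exact_mod_cast h0
    have h2 : 0 ≤ Real.log d := Real.log_nonneg h1
    have h3 : Real.log d ≤ Real.log x := Real.log_le_log (by linarith) hd
    exact mul_le_mul hCm h3 h2 (by linarith)

open Classical in
/-- **The limit average vanishes.** Given `ε`: choose `s`, `δ` with `C (2 ^ (-s) + √δ) ≤ ε`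
(`one_prime_good`), `C0 = √(2 b 2 ^ s / δ) + 1`, `Cs = ⌈6 C0²⌉` (so that `Bv c` lies in
`Vt Q (Cs P T)` for `c ≤ C0 √P`, as `Q.val x y ≤ 5 T c²`), then `ε4` and the `η`, `W0` of `main_cell`,
`m` large, and `η2, ε2` small, then `P0` large (`main_cell`, `windows` with `η / 2` (and a smaller
proportion), `PP_card_ge`, and `mass U log D.card ≤ η2 P / log P`). `ent_dec` gives `P`, `S`, `A` for
`F = Fl c1`, `G = Gg (g n) c2`. The weight `w n (i + s n) = ±1` is one more finite-valued variable: use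
`dec_avg` for the triple (pattern, `Zs`, weight). For `p ∈ PP P` let `γ p` be the limit of the sign `g n p` along `U`.
Sum `one_prime_good` over `p ∈ PP P`:
`|2 |PP| SW + 2 ^ (-s) Av (1_good w ∑_p γ_p Pn_p)| ≤ |PP| ε`. Replace `Pn` by patterns (`Ph_pattern`), the
indicator `[zr]` by `qp p` (`dec_avg` for the pair (pattern, `Zs`), whose information is at most
`2 η2 P / log P` by `lim_info_pair`; both for the main sum and for the missing sum), bound the missing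
sum by `miss_sum` and `ent_dec`, and the main sum by `main_cell` on the cells with `Sm` and by
`∑_p K ≤ K |PP|` (`qp_card`) on the others; the measure of the cells without `Sm` is small by `windows`,
`Sm_of_close` and Markov's inequality for the missing vectors. Divide by `|PP| ≥ c P / log P`. -/
theorem SW_zero (U : Ultrafilter ℕ) (hU : (U : Filter ℕ) ≤ atTop) (a b L : ℝ) (ha : 0 < a)
    (hab : a ≤ b) (hL : 0 ≤ L) (W : ℝ → ℝ → ℝ) (hW : Wt a b L W) (g : ℕ → ℕ → ℤ)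
    (hg : ∀ n, CMg (g n)) (c1 c2 : ℕ) (w : ℕ → ℕ → ℝ) (hw : ∀ n i, w n i = 1 ∨ w n i = -1) :
    SW U W (fun _ => Fl c1) (fun n => Gg (g n) c2) b w = 0 := by
  have hb : 0 < b := lt_of_lt_of_le ha hab
  have hF : V3 (fun _ => Fl c1) := asmK_V3_Fl c1
  have hG : V3 (fun n => Gg (g n) c2) := asmK_V3_Gg hg c2
  obtain ⟨γ, hγ, hγev⟩ := asmK_gamma U hg
  obtain ⟨C, hC1, hC⟩ := one_prime_good a b ha hab
  obtain ⟨CPP, hCPP1, hCPP⟩ := PP_card_le
  obtain ⟨cPP, hcPP0, PPP, hcPP⟩ := PP_card_ge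
  obtain ⟨Cm, hCm1, hCm⟩ := mass_le
  have hC0' : 0 < C := by linarith
  have hCm0 : 0 < Cm := by linarith
  have hCPP0 : 0 < CPP := by linarith
  by_contra hne
  obtain ⟨σ, hσ⟩ : ∃ σ, σ = SW U W (fun _ => Fl c1) (fun n => Gg (g n) c2) b w := ⟨_, rfl⟩
  rw [← hσ] at hne
  have hσ0 : 0 < |σ| := abs_pos.2 hne
  obtain ⟨ε, hε, hεlt⟩ : ∃ ε : ℝ, 0 < ε ∧ 5 * ε < |σ| :=
    ⟨|σ| / 6, by positivity, by linarith⟩
  -- the parameters `s`, `δ`
  obtain ⟨s, hs⟩ := exists_pow_lt_of_lt_one (show 0 < ε / (2 * C) by positivity)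
    (show (1 / 2 : ℝ) < 1 by norm_num)
  obtain ⟨δ, hδdef⟩ : ∃ δ : ℝ, δ = min 1 (min (2 * b) ((ε / (2 * C)) ^ 2)) := ⟨_, rfl⟩
  have hδ0 : 0 < δ := by
    rw [hδdef]
    exact lt_min (by norm_num) (lt_min (by positivity) (by positivity))
  have hδ1 : δ ≤ 1 := by
    rw [hδdef]
    exact min_le_left _ _
  have hδb : δ ≤ 2 * b := by
    rw [hδdef]
    exact (min_le_right _ _).trans (min_le_left _ _)
  have hδε : √δ ≤ ε / (2 * C) := by
    rw [Real.sqrt_le_iff]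
    refine ⟨by positivity, ?_⟩
    rw [hδdef]
    exact (min_le_right _ _).trans (min_le_right _ _)
  have hCε : C * (1 / 2 ^ s + √δ) ≤ ε := by
    have h1 : (1 : ℝ) / 2 ^ s = (1 / 2) ^ s := by rw [div_pow, one_pow]
    rw [h1]
    calc C * ((1 / 2) ^ s + √δ) ≤ C * (ε / (2 * C) + ε / (2 * C)) :=
          mul_le_mul_of_nonneg_left (add_le_add hs.le hδε) hC0'.le
      _ = ε := by field_simp; ring
  obtain ⟨C0, hC0⟩ : ∃ C0, C0 = √(2 * b * 2 ^ s / δ) := ⟨_, rfl⟩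
  have hC01 : 1 ≤ C0 := by
    rw [hC0, Real.one_le_sqrt, one_le_div hδ0]
    have h1 : (1 : ℝ) ≤ 2 ^ s := one_le_pow₀ (by norm_num)
    exact hδb.trans (le_mul_of_one_le_right (by positivity) h1)
  have hC02 : 1 ≤ C0 ^ 2 := one_le_pow₀ hC01
  obtain ⟨Kp, hKp1, hKp⟩ := Ph_pattern a b L δ s ha hab hL hδ0 hδ1
  obtain ⟨Kd, hKd1, hKd⟩ := dec_avg (C0 ^ 2) hC02
  obtain ⟨Kq, hKq1, hKq⟩ := qp_card (C0 ^ 2) hC02
  obtain ⟨Kms, hKms1, hKms⟩ := miss_sum C0 hC01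
  obtain ⟨η, W0, P6, hη, hW01, hmain⟩ := main_cell L C0 (ε * cPP / Cm) hL hC01 (by positivity)
  have hKq0 : 0 < Kq := by linarith
  have hKd0 : 0 < Kd := by linarith
  have hKms0 : 0 < Kms := by linarith
  obtain ⟨ηw, hηwdef⟩ : ∃ ηw, ηw = min (η / 2) (ε / Kq) := ⟨_, rfl⟩
  have hηw0 : 0 < ηw := by
    rw [hηwdef]
    exact lt_min (by positivity) (by positivity)
  have hηw1 : ηw ≤ η / 2 := by
    rw [hηwdef]
    exact min_le_left _ _
  have hηw2 : Kq * ηw ≤ ε := by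
    have h1 : ηw ≤ ε / Kq := by
      rw [hηwdef]
      exact min_le_right _ _
    rw [le_div_iff₀ hKq0] at h1
    linarith
  obtain ⟨P7, hP7⟩ := windows c1 W0 hW01 ηw C0 δ hηw0 hC01 hδ0
  obtain ⟨m, hm1, hm⟩ : ∃ m : ℕ, 1 ≤ m ∧ Kp * Cm / ε ≤ m :=
    ⟨⌈Kp * Cm / ε⌉₊ + 1, by omega, (Nat.le_ceil _).trans (by push_cast; linarith)⟩
  obtain ⟨D, hD, hDcard⟩ := Zs_range δ m
  obtain ⟨η2, hη2def⟩ : ∃ η2, η2 = (ε * cPP) ^ 2 / (2 * CPP * Kd ^ 2) := ⟨_, rfl⟩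
  have hη20 : 0 < η2 := by
    rw [hη2def]
    positivity
  have hη21 : 2 * η2 * CPP * Kd ^ 2 ≤ (ε * cPP) ^ 2 := by
    rw [hη2def]
    refine le_of_eq ?_
    field_simp
  obtain ⟨ε2, hε2def⟩ : ∃ ε2, ε2 = min (ε * cPP / Kms) (ε * η / (2 * Kq)) := ⟨_, rfl⟩
  have hε20 : 0 < ε2 := by
    rw [hε2def]
    exact lt_min (by positivity) (by positivity)
  have hε21 : Kms * ε2 ≤ ε * cPP := by
    have h1 : ε2 ≤ ε * cPP / Kms := by
      rw [hε2def]
      exact min_le_left _ _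
    rw [le_div_iff₀ hKms0] at h1
    linarith
  have hε22 : Kq * (2 * ε2 / η) ≤ ε := by
    have h1 : ε2 ≤ ε * η / (2 * Kq) := by
      rw [hε2def]
      exact min_le_right _ _
    rw [le_div_iff₀ (by positivity)] at h1
    rw [← mul_div_assoc, div_le_iff₀ hη]
    linarith
  obtain ⟨P4, hP4⟩ := asmK_large (Cm * Real.log (2 * ((2 * m + 2) ^ 3 + 1))) η2 hη20
  obtain ⟨Cs, hCs1, hCs⟩ : ∃ Cs : ℕ, 1 ≤ Cs ∧ 6 * C0 ^ 2 ≤ Cs :=
    ⟨⌈6 * C0 ^ 2⌉₊, Nat.one_le_iff_ne_zero.2 (Nat.ceil_pos.2 (by positivity)).ne', Nat.le_ceil _⟩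
  obtain ⟨P, hP, hP2, S, A, hA, hBd, hAv, hInf⟩ :=
    ent_dec U hU hF hG Cs hCs1 η2 ε2 hη20 hε20 (PPP + P6 + P7 + P4 + 3)
  have hPP1 : PPP ≤ P := by omega
  have hP61 : P6 ≤ P := by omega
  have hP71 : P7 ≤ P := by omega
  have hP41 : P4 ≤ P := by omega
  have hP3 : 3 ≤ P := by omega
  have hP0 : (0 : ℝ) < P := by exact_mod_cast (by omega : 0 < P)
  have hlog : 0 < Real.log P := Real.log_pos (by exact_mod_cast (by omega : 1 < P))
  obtain ⟨q, hq⟩ : ∃ q : ℝ, q = P / Real.log P := ⟨_, rfl⟩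
  have hq0 : 0 < q := by
    rw [hq]
    positivity
  obtain ⟨N, hN⟩ : ∃ N : ℝ, N = (PP P).card := ⟨_, rfl⟩
  have hN1 : cPP * q ≤ N := by
    rw [hq, hN, ← mul_div_assoc, div_le_iff₀ hlog]
    exact hcPP P hPP1
  have hN2 : N ≤ CPP * q := by
    rw [hq, hN, ← mul_div_assoc, le_div_iff₀ hlog]
    exact hCPP P hP2
  have hN0 : 0 < N := lt_of_lt_of_le (by positivity) hN1
  obtain ⟨c, hcdef⟩ : ∃ c : ℕ, c = ⌊C0 * √P⌋₊ := ⟨_, rfl⟩
  have hc : (c : ℝ) ≤ C0 * √P := by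
    rw [hcdef]
    exact Nat.floor_le (by positivity)
  have hSP : ∀ p ∈ PP P, p.Prime ∧ p ≠ 2 ∧ (c : ℝ) ^ 2 ≤ C0 ^ 2 * p := by
    intro p hp
    refine ⟨(PP_prime_ne hp).1, (PP_prime_ne hp).2, ?_⟩
    have h1 : (P : ℝ) ≤ p := by exact_mod_cast (PP_mem_iff.1 hp).1.1
    calc (c : ℝ) ^ 2 ≤ (C0 * √P) ^ 2 := pow_le_pow_left₀ (Nat.cast_nonneg _) hc 2
      _ = C0 ^ 2 * P := by rw [mul_pow, Real.sq_sqrt hP0.le]
      _ ≤ C0 ^ 2 * p := mul_le_mul_of_nonneg_left h1 (by positivity)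
  have hqK : ∀ p ∈ PP P, qp p * ((Bx c).filter (fun M => M.Dt p)).card ≤ Kq := fun p hp =>
    hKq p c (hSP p hp).1 (hSP p hp).2.1 (hSP p hp).2.2
  have hmass : mass U ≤ Cm := hCm U
  -- step 1
  have h1 := asmK_step1 (δ := δ) (s := s) (γ := γ) (P := P) (ε := ε) (U := U) ha hab hW hF hG hw (by
    intro p hp
    have hp1 := (PP_mem_iff.1 hp).2
    refine (hC U hU L W hW _ _ hF hG p hp1 (γ p) (hγ p) ?_ w (fun n i => (asmK_w_abs hw n i).le)
      s δ hδ0 hδ1).trans hCε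
    filter_upwards [hγev p hp1.1.one_lt.le] with n hn
    refine ⟨fun k => Fl_mul c1 (PP_prime_ne hp).1 (PP_prime_ne hp).2 k, fun k => ?_⟩
    show Gg (g n) c2 (p * k) = γ p * Gg (g n) c2 k
    rw [Gg_mul (hg n) c2 (PP_prime_ne hp).1 (PP_prime_ne hp).2, hn])
  -- step 2
  have h2 := asmK_step2 ha hab hKp1 hKp hU hW hF hG w hγ hP2 hm1 S
  rw [← hC0, ← hcdef] at h2
  -- step 3
  have hRg : Rg (fun n i Q => (gr (Fl c1) (Gg (g n) c2) Q (S n i Q),
      (Zs δ m n i Q, asmK_bw w s n i))) (A ×ˢ (D ×ˢ (Finset.univ : Finset Bool))) := by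
    intro n i Q hQ
    exact Finset.mem_product.2 ⟨hA n i Q hQ, Finset.mem_product.2 ⟨hD n i Q hQ,
      Finset.mem_univ _⟩⟩
  have hRgZ : Rg (fun n i Q => (Zs δ m n i Q, asmK_bw w s n i)) (D ×ˢ (Finset.univ : Finset Bool)) := by
    intro n i Q hQ
    exact Finset.mem_product.2 ⟨hD n i Q hQ, Finset.mem_univ _⟩
  have hInf2 : Inf U (fun n i Q => (gr (Fl c1) (Gg (g n) c2) Q (S n i Q),
      (Zs δ m n i Q, asmK_bw w s n i))) (A ×ˢ (D ×ˢ (Finset.univ : Finset Bool))) (PP P) ≤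
      2 * η2 * q := by
    have h3 := lim_info_pair U (fun n i Q => gr (Fl c1) (Gg (g n) c2) Q (S n i Q)) (Yv (PP P))
      (fun n i Q => (Zs δ m n i Q, asmK_bw w s n i)) A (OF (PP P)) (D ×ˢ (Finset.univ : Finset Bool))
      hA (Yv_range (PP P) (PP_prime P)) hRgZ
    have h4 : mass U * Real.log ((D ×ˢ (Finset.univ : Finset Bool)).card : ℝ) ≤ η2 * q := by
      refine asmK_mlog (x := 2 * ((2 * m + 2) ^ 3 + 1)) hCm1 hmass _ ?_ ?_ ?_
      · rw [Finset.card_product, Finset.card_univ, Fintype.card_bool]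
        push_cast
        linarith
      · have h5 : (0 : ℝ) ≤ (2 * m + 2) ^ 3 := by positivity
        linarith
      · have h5 := hP4 P hP41 hP3
        rw [mul_div_assoc, ← hq] at h5
        exact h5
    have h5 : Inf U (fun n i Q => gr (Fl c1) (Gg (g n) c2) Q (S n i Q)) A (PP P) ≤ η2 * q := by
      rw [hq, ← mul_div_assoc]
      exact hInf
    unfold Inf at h5 ⊢
    linarith
  have hInf1 : Inf U (fun n i Q => gr (Fl c1) (Gg (g n) c2) Q (S n i Q)) A (PP P) ≤ 2 * η2 * q := by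
    have h5 : Inf U (fun n i Q => gr (Fl c1) (Gg (g n) c2) Q (S n i Q)) A (PP P) ≤ η2 * q := by
      rw [hq, ← mul_div_assoc]
      exact hInf
    linarith [mul_pos hη20 hq0]
  have h3 := asmK_split (κ := asmK_kb W s m γ) (fun p x M => asmK_kb_abs _ _ _ _ _ _ _)
    (hKd U hU (PP P) c hSP _ _ hRg (asmK_kb W s m γ) (fun p x M => asmK_kb_abs _ _ _ _ _ _ _))
  have h3' := asmK_split (κ := fun _ x M => asmK_mi x M) (fun p x M => asmK_mi_abs _ _)
    (hKd U hU (PP P) c hSP _ _ hA (fun _ x M => asmK_mi x M) (fun p x M => asmK_mi_abs _ _))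
  have hR1 := asmK_sqrt (e := ε * cPP) hKd0 hq0.le hN0.le (by positivity) hInf2 hη20.le hN2 hη21
  have hR2 := asmK_sqrt (e := ε * cPP) hKd0 hq0.le hN0.le (by positivity) hInf1 hη20.le hN2 hη21
  -- step 4
  have h4 := asmK_step4 hmain hU hW s m hm1 hP61 hP2 (by positivity) hc hγ w hF hG S δ hqK
  obtain ⟨T1, hT1⟩ := hP7 P hP71
  rw [← hcdef] at hT1
  have h4' := asmK_bad (G := fun n => Gg (g n) c2) hη hηw1 hP3 hc hCs hT1 hU hBd hAv
  -- step 5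
  have h5 := asmK_step5 (F := fun _ => Fl c1) (G := fun n => Gg (g n) c2) hKms1 hKms hU hP3 hc hCs
    hBd hAv
  -- conclusion
  obtain ⟨μ, hμ⟩ : ∃ μ, μ = Av U (fun n i Q =>
      if Gc δ (tt n i) Q ∧ ¬ Sm W0 η P c
        (fun v => if Nat.Coprime v.1 v.2 then lk1 (gr (Fl c1) (Gg (g n) c2) Q (S n i Q)) v else 0)
        then (1 : ℝ) else 0) := ⟨_, rfl⟩
  obtain ⟨x1, hx1⟩ : ∃ x1, x1 = |Av U (asmK_Phi W (fun _ => Fl c1) (fun n => Gg (g n) c2) b δ s w γ P)| :=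
    ⟨_, rfl⟩
  obtain ⟨x2, hx2⟩ : ∃ x2, x2 = |Av U (fun n i Q => ∑ p ∈ PP P,
        ∑ M ∈ (Bx c).filter (fun M => M.Dt p),
        asmK_kb W s m γ p (gr (Fl c1) (Gg (g n) c2) Q (S n i Q), (Zs δ m n i Q, asmK_bw w s n i)) M *
          asmK_z p Q M)| := ⟨_, rfl⟩
  obtain ⟨x3, hx3⟩ : ∃ x3, x3 = |Av U (fun n i Q => ∑ p ∈ PP P,
        ∑ M ∈ (Bx c).filter (fun M => M.Dt p),
        asmK_mi (gr (Fl c1) (Gg (g n) c2) Q (S n i Q)) M * asmK_z p Q M)| := ⟨_, rfl⟩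
  obtain ⟨x4, hx4⟩ : ∃ x4, x4 = |Av U (fun n i Q => ∑ p ∈ PP P,
        ∑ M ∈ (Bx c).filter (fun M => M.Dt p),
        asmK_kb W s m γ p (gr (Fl c1) (Gg (g n) c2) Q (S n i Q), (Zs δ m n i Q, asmK_bw w s n i)) M *
          qp p)| := ⟨_, rfl⟩
  obtain ⟨x5, hx5⟩ : ∃ x5, x5 = |Av U (fun n i Q => ∑ p ∈ PP P,
        ∑ M ∈ (Bx c).filter (fun M => M.Dt p),
        asmK_mi (gr (Fl c1) (Gg (g n) c2) Q (S n i Q)) M * qp p)| := ⟨_, rfl⟩
  have g1 : 2 * N * |σ| ≤ N * ε + x1 := by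
    rw [hN, hσ, hx1]
    exact h1
  have g2 : x1 ≤ x2 + (N * (Kp / m) * mass U + 2 * x3) := by
    rw [hN, hx1, hx2, hx3]
    exact h2
  have g3 : x2 ≤ x4 + ε * cPP * q := by
    rw [hx2, hx4]
    refine h3.trans (add_le_add le_rfl ?_)
    rw [hN] at hR1
    exact hR1
  have g3' : x3 ≤ x5 + ε * cPP * q := by
    rw [hx3, hx5]
    refine h3'.trans (add_le_add le_rfl ?_)
    rw [hN] at hR2
    exact hR2
  have g4 : x4 ≤ ε * cPP / Cm * P / Real.log P * mass U + N * Kq * μ := by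
    rw [hx4, hN, hμ]
    exact h4
  have g4' : μ ≤ ηw + 2 * ε2 / η := by
    rw [hμ]
    exact h4'
  have g5 : x5 ≤ Kms / Real.log P * (ε2 * P) := by
    rw [hx5]
    exact h5
  have t7 : |σ| ≤ 5 * ε := asmK_fin hm1 hε hN0 hq0 hcPP0 hCm0 hKp1 hKq0 hP0 hlog hq hN1
    hmass hm hηw2 hε21 hε22 g1 g2 g3 g3' g4 g4' g5
  exact absurd hεlt (not_lt.2 t7)

end

end Pool.Agent.Lib.MP_0b748d_nt.HH
end

section

set_option autoImplicit false

/-!
# From the limit averages to the theorem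
-/

namespace Pool.Agent.Lib.MP_0b748d_nt.HH

open Filter Topology MR

noncomputable section

private theorem finG_one : CMg (fun _ => 1) := ⟨fun _ _ _ _ => by norm_num, fun _ _ => Or.inl rfl⟩

/-- the averages are bounded -/
private theorem finG_AQ_le {a b L : ℝ} (ha : 0 < a) (hab : a ≤ b) {W : ℝ → ℝ → ℝ}
    (hW : Wt a b L W) : ∃ C : ℝ, 0 ≤ C ∧ ∀ F G : ℕ → ℤ, (∀ m, |F m| ≤ 1) → (∀ m, |G m| ≤ 1) →
    ∀ w : ℕ → ℝ, (∀ i, w i = 1 ∨ w i = -1) → ∀ n : ℕ, |AQ W F G b w n| ≤ C := by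
  obtain ⟨C, hC1, hC⟩ := QW_le a b ha hab
  refine ⟨C, by linarith, fun F G hF hG w hw n => ?_⟩
  unfold AQ
  have htt : ∀ i, 1 ≤ tt n i := fun i => by
    unfold tt
    exact Real.one_le_rpow (by norm_num) (by positivity)
  have h1 : ∀ i ∈ Finset.range (n ^ 2), |w i * ((1 / tt n i) * QW W F G b (tt n i))| ≤ C := by
    intro i _
    have h3 : 0 < tt n i := by linarith [htt i]
    have h2 := hC L W hW F G hF hG (tt n i) h3
    have h4 : |w i| = 1 := by rcases hw i with h | h <;> rw [h] <;> norm_num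
    rw [abs_mul, h4, one_mul, abs_mul, abs_of_pos (by positivity : 0 < 1 / tt n i), one_div,
      inv_mul_le_iff₀ h3, mul_comm]
    exact h2
  have h2 : |∑ i ∈ Finset.range (n ^ 2), w i * ((1 / tt n i) * QW W F G b (tt n i))| ≤
      (n : ℝ) ^ 2 * C := by
    refine (Finset.abs_sum_le_sum_abs _ _).trans ?_
    have h3 := Finset.sum_le_card_nsmul _ _ _ h1
    rw [Finset.card_range, nsmul_eq_mul] at h3
    push_cast at h3
    exact h3
  rw [abs_mul, abs_of_nonneg (by positivity : (0 : ℝ) ≤ 1 / (n : ℝ) ^ 2)]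
  rcases Nat.eq_zero_or_pos n with hn | hn
  · subst hn
    simp only [Nat.cast_zero]
    norm_num
    linarith
  · have hn' : (0 : ℝ) < (n : ℝ) ^ 2 := by positivity
    rw [one_div, inv_mul_le_iff₀ hn']
    exact h2

/-- the statement for one pair of classes -/
private theorem finG_key (D : ℕ) (hD : 1 ≤ D) (c1 c2 : ℕ) (ε : ℝ) (hε : 0 < ε) :
    ∃ N0 : ℕ, ∀ N : ℕ, N0 ≤ N → ∀ g : ℕ → ℤ, CMg g →
      ∑ X ∈ Finset.Icc 1 N, |HB D X (Fl c1) (Gg g c2)| / (X : ℝ) ^ 2 ≤ ε * Real.log N := by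
  obtain ⟨C, hC1, hC⟩ := compare D hD
  have hlog2 : 0 < Real.log 2 := Real.log_pos (by norm_num)
  -- the parameter `η`
  obtain ⟨η, hη0, hη1, hη2⟩ : ∃ η : ℝ, 0 < η ∧ η ≤ 1 / 4 ∧ C * η ≤ ε * Real.log 2 / 8 := by
    refine ⟨min (1 / 4) (ε * Real.log 2 / 8 / C), lt_min (by norm_num) (by positivity),
      min_le_left _ _, ?_⟩
    calc C * min (1 / 4) (ε * Real.log 2 / 8 / C) ≤ C * (ε * Real.log 2 / 8 / C) :=
          mul_le_mul_of_nonneg_left (min_le_right _ _) (by linarith)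
      _ = ε * Real.log 2 / 8 := by field_simp
  obtain ⟨C', hC'⟩ := hC η hη0 hη1
  have hA : 0 ≤ Real.log (D : ℝ) := Real.log_nonneg (by exact_mod_cast hD)
  set A : ℝ := Real.log (D : ℝ) with hAd
  obtain ⟨L, hL0, hW⟩ := Wf_Wt A η hA hη0 hη1
  have ha : 0 < Real.exp (-(A + 2)) := Real.exp_pos _
  have hab : Real.exp (-(A + 2)) ≤ Real.exp (A + 2) := Real.exp_le_exp.2 (by linarith)
  by_contra hcon
  push Not at hcon
  -- bad levels
  let P : ℕ → (ℕ → ℤ) × (ℕ → ℝ) → Prop := fun n x => (CMg x.1 ∧ (∀ i, x.2 i = 1 ∨ x.2 i = -1)) ∧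
    ∃ N : ℕ, 2 ≤ N ∧ Nat.log 2 N + 1 = n ∧ ε * Real.log N <
      C * (n : ℝ) * AQ (Wf A η) (Fl c1) (Gg x.1 c2) (Real.exp (A + 2)) x.2 n + C * η * (n : ℝ) +
        C' * (1 + Real.log (n : ℝ))
  have hfreq : ∃ᶠ n in (atTop : Filter ℕ), ∃ x, P n x := by
    rw [frequently_atTop]
    intro n0
    obtain ⟨N, hN, g, hg, hlt⟩ := hcon (2 ^ (n0 + 1))
    have hN2 : 2 ≤ N := by
      calc 2 = 2 ^ 1 := by norm_num
        _ ≤ 2 ^ (n0 + 1) := Nat.pow_le_pow_right (by norm_num) (by omega)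
        _ ≤ N := hN
    obtain ⟨w, hw, hcmp⟩ := hC' N (by omega) (Fl c1) (Gg g c2) (Fl_abs c1) (Gg_abs hg c2)
    refine ⟨Nat.log 2 N + 1, ?_, (g, w), ⟨hg, hw⟩, N, hN2, rfl, ?_⟩
    · have h1 : n0 + 1 ≤ Nat.log 2 N := (Nat.le_log_iff_pow_le (by norm_num) (by omega)).2 hN
      show n0 ≤ Nat.log 2 N + 1
      omega
    · push_cast
      exact hlt.trans_le hcmp
  have hNB : ((atTop : Filter ℕ) ⊓ 𝓟 {n | ∃ x, P n x}).NeBot := frequently_iff_neBot.1 hfreq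
  let U : Ultrafilter ℕ := Ultrafilter.of ((atTop : Filter ℕ) ⊓ 𝓟 {n | ∃ x, P n x})
  have hU1 : (U : Filter ℕ) ≤ (atTop : Filter ℕ) ⊓ 𝓟 {n | ∃ x, P n x} := Ultrafilter.of_le _
  have hU : (U : Filter ℕ) ≤ atTop := hU1.trans inf_le_left
  have hUS : ∀ᶠ n in (U : Filter ℕ), ∃ x, P n x := by
    have h1 := hU1.trans inf_le_right
    rwa [le_principal_iff] at h1
  classical
  let v : ℕ → (ℕ → ℤ) × (ℕ → ℝ) := fun n => if h : ∃ x, P n x then h.choose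
    else (fun _ => 1, fun _ => 1)
  have hv : ∀ n, CMg (v n).1 ∧ ∀ i, (v n).2 i = 1 ∨ (v n).2 i = -1 := by
    intro n
    by_cases h : ∃ x, P n x
    · have h1 : v n = h.choose := dif_pos h
      rw [h1]
      exact h.choose_spec.1
    · have h1 : v n = (fun _ => 1, fun _ => 1) := dif_neg h
      rw [h1]
      exact ⟨finG_one, fun _ => Or.inl rfl⟩
  have hvP : ∀ᶠ n in (U : Filter ℕ), P n (v n) := by
    filter_upwards [hUS] with n h
    have h1 : v n = h.choose := dif_pos h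
    rw [h1]
    exact h.choose_spec
  have hzero := SW_zero U hU _ _ L ha hab hL0 (Wf A η) hW (fun n => (v n).1) (fun n => (hv n).1)
    c1 c2 (fun n => (v n).2) (fun n => (hv n).2)
  obtain ⟨CB, -, hCB⟩ := finG_AQ_le ha hab hW
  have hBs : Bs (fun n => AQ (Wf A η) (Fl c1) (Gg (v n).1 c2) (Real.exp (A + 2)) (v n).2 n) :=
    ⟨CB, fun n => hCB _ _ (Fl_abs c1) (Gg_abs (hv n).1 c2) _ (hv n).2 n⟩
  have htend := ul_tendsto U hBs
  have hz : ul U (fun n => AQ (Wf A η) (Fl c1) (Gg (v n).1 c2) (Real.exp (A + 2)) (v n).2 n) = 0 :=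
    hzero
  rw [hz] at htend
  have hsmall : ∀ᶠ n in (U : Filter ℕ),
      |AQ (Wf A η) (Fl c1) (Gg (v n).1 c2) (Real.exp (A + 2)) (v n).2 n| <
        ε * Real.log 2 / 8 / C := by
    have h1 := htend.abs
    rw [abs_zero] at h1
    exact h1.eventually (gt_mem_nhds (by positivity))
  have hlarge : ∀ᶠ n : ℕ in (U : Filter ℕ),
      C' * (1 + Real.log (n : ℝ)) ≤ ε * Real.log 2 / 8 * (n : ℝ) := by
    apply hU
    have h1 : Tendsto (fun n : ℕ => (C' + C' * Real.log (n : ℝ)) / (n : ℝ)) atTop (𝓝 0) := by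
      have h2 : Tendsto (fun n : ℕ => C' / (n : ℝ)) atTop (𝓝 0) :=
        tendsto_const_div_atTop_nhds_zero_nat C'
      have h3 : Tendsto (fun n : ℕ => Real.log (n : ℝ) / (n : ℝ)) atTop (𝓝 0) := by
        have h4 : Tendsto (fun x : ℝ => Real.log x / x) atTop (𝓝 0) :=
          Real.isLittleO_log_id_atTop.tendsto_div_nhds_zero
        exact h4.comp tendsto_natCast_atTop_atTop
      have h5 := h2.add (h3.const_mul C')
      rw [mul_zero, add_zero] at h5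
      refine h5.congr fun n => ?_
      ring
    have h2 := h1.eventually (gt_mem_nhds (by positivity : (0 : ℝ) < ε * Real.log 2 / 8))
    filter_upwards [h2, eventually_ge_atTop 1] with n hn hn1
    have hn0 : (0 : ℝ) < n := by exact_mod_cast hn1
    rw [div_lt_iff₀ hn0] at hn
    linarith
  obtain ⟨n, ⟨-, N, hN2, hlog, hbad⟩, hs, hl⟩ := (hvP.and (hsmall.and hlarge)).exists
  have hn1 : (1 : ℝ) ≤ n := by
    rw [← hlog]
    push_cast
    have : (0 : ℝ) ≤ (Nat.log 2 N : ℝ) := by positivity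
    linarith
  -- `n log 2 ≤ 2 log N`
  have hnN : (n : ℝ) * Real.log 2 ≤ 2 * Real.log N := by
    have h1 : 2 ^ Nat.log 2 N ≤ N := Nat.pow_log_le_self 2 (by omega)
    have h2 : (Nat.log 2 N : ℝ) * Real.log 2 ≤ Real.log N := by
      rw [← Real.log_pow]
      apply Real.log_le_log (by positivity)
      exact_mod_cast h1
    have h3 : Real.log 2 ≤ Real.log N :=
      Real.log_le_log (by norm_num) (by exact_mod_cast hN2)
    rw [← hlog]
    push_cast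
    linarith
  have h2 : C * (n : ℝ) * AQ (Wf A η) (Fl c1) (Gg (v n).1 c2) (Real.exp (A + 2)) (v n).2 n ≤
      (n : ℝ) * (ε * Real.log 2 / 8) := by
    have h3 : AQ (Wf A η) (Fl c1) (Gg (v n).1 c2) (Real.exp (A + 2)) (v n).2 n ≤
        ε * Real.log 2 / 8 / C := (le_abs_self _).trans hs.le
    calc _ ≤ C * (n : ℝ) * (ε * Real.log 2 / 8 / C) :=
          mul_le_mul_of_nonneg_left h3 (by positivity)
      _ = (n : ℝ) * (ε * Real.log 2 / 8) := by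
          field_simp
  have h3 : C * η * (n : ℝ) ≤ (n : ℝ) * (ε * Real.log 2 / 8) := by
    rw [mul_comm (C * η)]
    exact mul_le_mul_of_nonneg_left hη2 (by linarith)
  have h4 : 3 * ((n : ℝ) * (ε * Real.log 2 / 8)) ≤ ε * Real.log N := by
    have h5 : ε * ((n : ℝ) * Real.log 2) ≤ ε * (2 * Real.log N) :=
      mul_le_mul_of_nonneg_left hnN hε.le
    have h6 : 0 ≤ ε * Real.log N := by
      have : 0 ≤ Real.log N := Real.log_nonneg (by exact_mod_cast (by omega : 1 ≤ N))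
      positivity
    nlinarith
  linarith

/-- **Theorem P2.** By contradiction: let infinitely many `N` have a bad `g_N`; the numbers
`n = Nat.log 2 N + 1` form an infinite set `S`; for `n ∈ S` choose one such `N` and `g n`, otherwise
`g n = 1`; let `U` be an ultrafilter containing `S` and all cofinite sets. For each of the at most two
pairs of classes (`HB_sum`) take the weights `w n` of `compare` and apply `SW_zero` (and `Wf_Wt`): the
averages `AQ` tend to zero along `U`, and `compare` with small `η` gives `… ≤ ε log N` for `U`-almost all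
`n`, a contradiction. (`D = 0`: empty sums. `c ≥ 2`: empty sums.) -/
theorem exactly_half (D : ℕ) (ε : ℝ) (hε : 0 < ε) : ∃ N0 : ℕ, ∀ N : ℕ, N0 ≤ N → ∀ g : ℕ → ℤ, CMg g →
    ∀ c : ℕ, ∑ X ∈ Finset.Icc 1 N, |∑ n ∈ (Finset.Ioc X (2 * X)).filter (fun n => n % 2 = c),
      ∑ d ∈ (n ^ 2 - 2).divisors.filter (fun d => n ≤ D * d ∧ d ≤ D * n),
        ((-1 : ℝ) ^ (ArithmeticFunction.cardFactors d) * (g ((n ^ 2 - 2) / d) : ℝ))| / (X : ℝ) ^ 2 ≤
      ε * Real.log N := by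
  rcases Nat.eq_zero_or_pos D with hD | hD
  · subst hD
    refine ⟨1, fun N hN g _ c => ?_⟩
    have h1 : ∀ X ∈ Finset.Icc 1 N, |∑ n ∈ (Finset.Ioc X (2 * X)).filter (fun n => n % 2 = c),
        ∑ d ∈ (n ^ 2 - 2).divisors.filter (fun d => n ≤ 0 * d ∧ d ≤ 0 * n),
          ((-1 : ℝ) ^ (ArithmeticFunction.cardFactors d) * (g ((n ^ 2 - 2) / d) : ℝ))| /
            (X : ℝ) ^ 2 = 0 := by
      intro X _
      have h2 : ∑ n ∈ (Finset.Ioc X (2 * X)).filter (fun n => n % 2 = c),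
        ∑ d ∈ (n ^ 2 - 2).divisors.filter (fun d => n ≤ 0 * d ∧ d ≤ 0 * n),
          ((-1 : ℝ) ^ (ArithmeticFunction.cardFactors d) * (g ((n ^ 2 - 2) / d) : ℝ)) = 0 := by
        apply Finset.sum_eq_zero
        intro n hn
        rw [Finset.mem_filter, Finset.mem_Ioc] at hn
        rw [Finset.filter_false_of_mem, Finset.sum_empty]
        intro d _ hd
        have := hd.1
        rw [zero_mul] at this
        omega
      rw [h2, abs_zero, zero_div]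
    rw [Finset.sum_eq_zero h1]
    exact mul_nonneg hε.le (Real.log_nonneg (by exact_mod_cast hN))
  · obtain ⟨N1, h1⟩ := finG_key D hD 1 1 (ε / 2) (by positivity)
    obtain ⟨N2, h2⟩ := finG_key D hD 0 1 (ε / 2) (by positivity)
    obtain ⟨N3, h3⟩ := finG_key D hD 1 0 (ε / 2) (by positivity)
    refine ⟨N1 + N2 + N3 + 1, fun N hN g hg c => ?_⟩
    have hlogN : 0 ≤ Real.log N := Real.log_nonneg (by exact_mod_cast (by omega : 1 ≤ N))
    have k1 := h1 N (by omega) g hg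
    have k2 := h2 N (by omega) g hg
    have k3 := h3 N (by omega) g hg
    have k4 : 0 ≤ ε / 2 * Real.log N := by positivity
    by_cases hc : c < 2
    · have k5 : ∀ X ∈ Finset.Icc 1 N,
          |∑ n ∈ (Finset.Ioc X (2 * X)).filter (fun n => n % 2 = c),
          ∑ d ∈ (n ^ 2 - 2).divisors.filter (fun d => n ≤ D * d ∧ d ≤ D * n),
          ((-1 : ℝ) ^ (ArithmeticFunction.cardFactors d) * (g ((n ^ 2 - 2) / d) : ℝ))| /
            (X : ℝ) ^ 2 ≤ if c = 1 then |HB D X (Fl 1) (Gg g 1)| / (X : ℝ) ^ 2 else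
              |HB D X (Fl 0) (Gg g 1)| / (X : ℝ) ^ 2 + |HB D X (Fl 1) (Gg g 0)| / (X : ℝ) ^ 2 := by
        intro X hX
        rw [HB_sum D X (Finset.mem_Icc.1 hX).1 g c hc]
        split_ifs with hc1
        · exact le_rfl
        · rw [← add_div]
          exact div_le_div_of_nonneg_right (abs_add_le _ _) (by positivity)
      refine (Finset.sum_le_sum k5).trans ?_
      by_cases hc1 : c = 1
      · simp only [if_pos hc1]
        linarith
      · simp only [if_neg hc1]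
        rw [Finset.sum_add_distrib]
        linarith
    · have h4 : ∀ X, (Finset.Ioc X (2 * X)).filter (fun n => n % 2 = c) = ∅ := by
        intro X
        apply Finset.filter_false_of_mem
        intro n _ hn
        omega
      simp only [h4, Finset.sum_empty, abs_zero, zero_div, Finset.sum_const_zero]
      positivity

end

end Pool.Agent.Lib.MP_0b748d_nt.HH
end

section

set_option autoImplicit false

/-!
# Exactly half of the balanced pairs, at almost all scales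
-/

namespace Pool.Agent.Lib.MP_0b748d_nt.HH

open MR

noncomputable section

/-- the sum over balanced pairs as a double sum -/
theorem Bal_sum (D X c : ℕ) (hX : 1 ≤ X) (φ : ℕ → ℕ → ℝ) :
    ∑ n ∈ (Finset.Ioc X (2 * X)).filter (fun n => n % 2 = c),
      ∑ d ∈ (n ^ 2 - 2).divisors.filter (fun d => n ≤ D * d ∧ d ≤ D * n), φ n d =
    ∑ x ∈ Bal D X c, φ x.1 x.2 := by
  rw [Finset.sum_sigma']
  refine Finset.sum_bij' (fun x _ => (x.1, x.2)) (fun x _ => ⟨x.1, x.2⟩) ?_ ?_ ?_ ?_ ?_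
  · rintro ⟨n, d⟩ hx
    rw [Finset.mem_sigma, Finset.mem_filter, Finset.mem_filter, Finset.mem_Ioc,
      Nat.mem_divisors] at hx
    obtain ⟨⟨⟨h1, h2⟩, h3⟩, ⟨h4, h5⟩, h6, h7⟩ := hx
    simp only at h1 h2 h3 h4 h5 h6 h7
    unfold Bal
    rw [Finset.mem_filter, Finset.mem_product, Finset.mem_Ioc, Finset.mem_Icc]
    refine ⟨⟨⟨h1, h2⟩, Nat.pos_of_dvd_of_pos h4 (Nat.pos_of_ne_zero h5), ?_⟩, h4, h6, h7, h3⟩
    calc d ≤ D * n := h7
      _ ≤ D * (2 * X) := Nat.mul_le_mul_left D h2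
      _ = 2 * D * X := by ring
  · rintro ⟨n, d⟩ hx
    unfold Bal at hx
    rw [Finset.mem_filter, Finset.mem_product, Finset.mem_Ioc, Finset.mem_Icc] at hx
    obtain ⟨⟨⟨h1, h2⟩, h3, h4⟩, h5, h6, h7, h8⟩ := hx
    simp only at h1 h2 h3 h4 h5 h6 h7 h8
    rw [Finset.mem_sigma, Finset.mem_filter, Finset.mem_filter, Finset.mem_Ioc,
      Nat.mem_divisors]
    refine ⟨⟨⟨h1, h2⟩, h8⟩, ⟨h5, ?_⟩, h6, h7⟩
    have h9 : 4 ≤ n ^ 2 := by nlinarith
    simp only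
    omega
  · rintro ⟨n, d⟩ _
    rfl
  · rintro ⟨n, d⟩ _
    rfl
  · rintro ⟨n, d⟩ _
    rfl

/-- a sum of signs -/
theorem sign_sum {ι : Type*} [DecidableEq ι] (S : Finset ι) (φ : ι → ℤ)
    (h : ∀ x ∈ S, φ x = 1 ∨ φ x = -1) :
    ∑ x ∈ S, (φ x : ℝ) = 2 * (((S.filter (fun x => φ x = 1)).card : ℝ) - (S.card : ℝ) / 2) := by
  have h1 : ∑ x ∈ S, (φ x : ℝ) = ∑ x ∈ S, (2 * (if φ x = 1 then (1 : ℝ) else 0) - 1) := by
    refine Finset.sum_congr rfl fun x hx => ?_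
    rcases h x hx with h2 | h2
    · rw [h2]
      norm_num
    · rw [h2]
      norm_num
  rw [h1, Finset.sum_sub_distrib, ← Finset.mul_sum, Finset.sum_boole, Finset.sum_const,
    nsmul_eq_mul, mul_one]
  ring

open Classical in
/-- **Exactly half.** -/
theorem half (D : ℕ) (hD : 8 ≤ D) (ε : ℝ) (hε : 0 < ε) : ∃ N0 : ℕ, ∀ N : ℕ, N0 ≤ N →
    ∀ g : ℕ → ℤ, CMg g → ∀ c : ℕ, c < 2 →
    ∑ X ∈ (Finset.Icc 1 N).filter (fun X => ε * ((Bal D X c).card : ℝ) <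
      |(((Bal D X c).filter (fun x => (-1) ^ (ArithmeticFunction.cardFactors x.2) *
        g ((x.1 ^ 2 - 2) / x.2) = 1)).card : ℝ) - ((Bal D X c).card : ℝ) / 2|), (1 / (X : ℝ)) ≤
      ε * Real.log N := by
  obtain ⟨c0, X0, hc0, hX0, hlow⟩ := bal_lower
  obtain ⟨N1, hN1⟩ := exactly_half D (ε ^ 2 * c0) (by positivity)
  have hlim : ∃ N2 : ℕ, ∀ N : ℕ, N2 ≤ N → (X0 : ℝ) ≤ ε / 2 * Real.log N := by
    have h1 : Filter.Tendsto (fun N : ℕ => ε / 2 * Real.log (N : ℝ)) Filter.atTop Filter.atTop :=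
      (Real.tendsto_log_atTop.comp tendsto_natCast_atTop_atTop).const_mul_atTop (by positivity)
    exact Filter.eventually_atTop.1 (h1.eventually_ge_atTop (X0 : ℝ))
  obtain ⟨N2, hN2⟩ := hlim
  refine ⟨max N1 N2, fun N hN g hg c hc => ?_⟩
  have hmain := hN1 N ((le_max_left _ _).trans hN) g hg c
  have hsmall := hN2 N ((le_max_right _ _).trans hN)
  obtain ⟨S, hS⟩ : ∃ S : ℕ → ℝ, S = fun X =>
    ∑ n ∈ (Finset.Ioc X (2 * X)).filter (fun n => n % 2 = c),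
      ∑ d ∈ (n ^ 2 - 2).divisors.filter (fun d => n ≤ D * d ∧ d ≤ D * n),
        ((-1 : ℝ) ^ (ArithmeticFunction.cardFactors d) * (g ((n ^ 2 - 2) / d) : ℝ)) := ⟨_, rfl⟩
  have hmain' : ∑ X ∈ Finset.Icc 1 N, |S X| / (X : ℝ) ^ 2 ≤ ε ^ 2 * c0 * Real.log N := by
    rw [hS]
    exact hmain
  -- the sum in terms of the two cardinalities
  have hcard : ∀ X : ℕ, 1 ≤ X → |S X| = 2 * |(((Bal D X c).filter (fun x =>
      (-1) ^ (ArithmeticFunction.cardFactors x.2) * g ((x.1 ^ 2 - 2) / x.2) = 1)).card : ℝ) -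
        ((Bal D X c).card : ℝ) / 2| := by
    intro X hX
    have h1 : S X = ∑ x ∈ Bal D X c, (((-1) ^ (ArithmeticFunction.cardFactors x.2) *
        g ((x.1 ^ 2 - 2) / x.2) : ℤ) : ℝ) := by
      rw [hS]
      simp only
      rw [Bal_sum D X c hX]
      refine Finset.sum_congr rfl fun x _ => ?_
      push_cast
      rfl
    rw [h1, sign_sum, abs_mul, abs_two]
    intro x hx
    unfold Bal at hx
    rw [Finset.mem_filter, Finset.mem_product, Finset.mem_Ioc, Finset.mem_Icc] at hx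
    obtain ⟨⟨⟨h2, h3⟩, h4, h5⟩, h6, h7, h8, h9⟩ := hx
    have h10 : 4 ≤ x.1 ^ 2 := by nlinarith
    have h11 : 1 ≤ (x.1 ^ 2 - 2) / x.2 :=
      Nat.div_pos (Nat.le_of_dvd (by omega) h6) (by omega)
    rcases hg.val _ h11 with h | h <;>
      rcases neg_one_pow_eq_or ℤ (ArithmeticFunction.cardFactors x.2) with h' | h' <;>
      rw [h, h'] <;> norm_num
  -- split the bad scales
  have hterm : ∀ X ∈ (Finset.Icc 1 N).filter (fun X => ε * ((Bal D X c).card : ℝ) <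
      |(((Bal D X c).filter (fun x => (-1) ^ (ArithmeticFunction.cardFactors x.2) *
        g ((x.1 ^ 2 - 2) / x.2) = 1)).card : ℝ) - ((Bal D X c).card : ℝ) / 2|),
      (1 / (X : ℝ)) ≤ (1 / (2 * ε * c0)) * (|S X| / (X : ℝ) ^ 2) +
        if X ≤ X0 then 1 else 0 := by
    intro X hX
    obtain ⟨hX1, hbad⟩ := Finset.mem_filter.1 hX
    have hXpos : 1 ≤ X := (Finset.mem_Icc.1 hX1).1
    have hXr : (1 : ℝ) ≤ X := by exact_mod_cast hXpos
    have hX0' : (0 : ℝ) < X := by linarith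
    by_cases hle : X ≤ X0
    · rw [if_pos hle]
      have h1 : 1 / (X : ℝ) ≤ 1 := by
        rw [div_le_iff₀ hX0']
        linarith
      have h2 : 0 ≤ (1 / (2 * ε * c0)) * (|S X| / (X : ℝ) ^ 2) := by positivity
      linarith
    · rw [if_neg hle, add_zero]
      have h1 := hlow D X c hD (by omega) hc
      have h2 : 2 * ε * (c0 * X) ≤ |S X| := by
        rw [hcard X hXpos]
        have h3 : ε * (c0 * X) ≤ ε * ((Bal D X c).card : ℝ) :=
          mul_le_mul_of_nonneg_left h1 hε.le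
        linarith
      rw [div_mul_div_comm, one_mul, div_le_div_iff₀ hX0' (by positivity)]
      nlinarith
  refine (Finset.sum_le_sum hterm).trans ?_
  rw [Finset.sum_add_distrib, ← Finset.mul_sum]
  have h1 : ∑ X ∈ (Finset.Icc 1 N).filter (fun X => ε * ((Bal D X c).card : ℝ) <
      |(((Bal D X c).filter (fun x => (-1) ^ (ArithmeticFunction.cardFactors x.2) *
        g ((x.1 ^ 2 - 2) / x.2) = 1)).card : ℝ) - ((Bal D X c).card : ℝ) / 2|),
      |S X| / (X : ℝ) ^ 2 ≤ ε ^ 2 * c0 * Real.log N :=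
    (Finset.sum_le_sum_of_subset_of_nonneg (Finset.filter_subset _ _)
      (fun X _ _ => by positivity)).trans hmain'
  have h2 : ∑ X ∈ (Finset.Icc 1 N).filter (fun X => ε * ((Bal D X c).card : ℝ) <
      |(((Bal D X c).filter (fun x => (-1) ^ (ArithmeticFunction.cardFactors x.2) *
        g ((x.1 ^ 2 - 2) / x.2) = 1)).card : ℝ) - ((Bal D X c).card : ℝ) / 2|),
      (if X ≤ X0 then (1 : ℝ) else 0) ≤ X0 := by
    rw [← Finset.sum_filter, Finset.sum_const, nsmul_eq_mul, mul_one]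
    have h3 : (((Finset.Icc 1 N).filter (fun X => ε * ((Bal D X c).card : ℝ) <
      |(((Bal D X c).filter (fun x => (-1) ^ (ArithmeticFunction.cardFactors x.2) *
        g ((x.1 ^ 2 - 2) / x.2) = 1)).card : ℝ) - ((Bal D X c).card : ℝ) / 2|)).filter
        (fun X => X ≤ X0)).card ≤ (Finset.Icc 1 X0).card := by
      apply Finset.card_le_card
      intro X hX
      obtain ⟨h4, h5⟩ := Finset.mem_filter.1 hX
      have h6 := (Finset.mem_filter.1 h4).1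
      exact Finset.mem_Icc.2 ⟨(Finset.mem_Icc.1 h6).1, h5⟩
    rw [Nat.card_Icc] at h3
    have h7 : X0 + 1 - 1 = X0 := by omega
    rw [h7] at h3
    exact_mod_cast h3
  have h3 : (1 / (2 * ε * c0)) * (ε ^ 2 * c0 * Real.log N) = ε / 2 * Real.log N := by
    field_simp
  have h4 := mul_le_mul_of_nonneg_left h1 (by positivity : (0 : ℝ) ≤ 1 / (2 * ε * c0))
  rw [h3] at h4
  linarith

end

end Pool.Agent.Lib.MP_0b748d_nt.HH
end

section

set_option autoImplicit false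

/-!
# Independence and the four sign patterns of balanced factorisations
-/

namespace Pool.Agent.Lib.MP_0b748d_nt.HH

open MR

noncomputable section

/-- from a bound for the logarithmic average to the logarithmic size of the set of bad scales -/
theorem bad_log (D : ℕ) (hD : 8 ≤ D) (ε : ℝ) (hε : 0 < ε) : ∃ δ : ℝ, 0 < δ ∧ ∀ X1 : ℕ,
    ∃ N0 : ℕ, ∀ N : ℕ, N0 ≤ N → ∀ c : ℕ, c < 2 → ∀ S : ℕ → ℝ, (∀ X, 0 ≤ S X) →
    ∑ X ∈ Finset.Icc 1 N, S X / (X : ℝ) ^ 2 ≤ δ * Real.log N →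
    ∀ B : Finset ℕ, B ⊆ Finset.Icc 1 N →
    (∀ X ∈ B, X1 < X → ε * ((Bal D X c).card : ℝ) < S X) →
    ∑ X ∈ B, (1 / (X : ℝ)) ≤ ε * Real.log N := by
  obtain ⟨c0, X0, hc0, hX0, hlow⟩ := bal_lower
  refine ⟨ε ^ 2 * c0 / 2, by positivity, fun X1 => ?_⟩
  have hlim : ∃ N2 : ℕ, ∀ N : ℕ, N2 ≤ N → ((max X0 X1 : ℕ) : ℝ) ≤ ε / 2 * Real.log N := by
    have h1 : Filter.Tendsto (fun N : ℕ => ε / 2 * Real.log (N : ℝ)) Filter.atTop Filter.atTop :=
      (Real.tendsto_log_atTop.comp tendsto_natCast_atTop_atTop).const_mul_atTop (by positivity)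
    exact Filter.eventually_atTop.1 (h1.eventually_ge_atTop ((max X0 X1 : ℕ) : ℝ))
  obtain ⟨N2, hN2⟩ := hlim
  refine ⟨N2, fun N hN c hc S hS0 hS B hB hbad => ?_⟩
  have hsmall := hN2 N hN
  have hterm : ∀ X ∈ B, (1 / (X : ℝ)) ≤ (1 / (ε * c0)) * (S X / (X : ℝ) ^ 2) +
      if X ≤ max X0 X1 then 1 else 0 := by
    intro X hX
    have hXpos : 1 ≤ X := (Finset.mem_Icc.1 (hB hX)).1
    have hXr : (1 : ℝ) ≤ X := by exact_mod_cast hXpos
    have hX0' : (0 : ℝ) < X := by linarith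
    have h0 := hS0 X
    by_cases hle : X ≤ max X0 X1
    · rw [if_pos hle]
      have h1 : 1 / (X : ℝ) ≤ 1 := by
        rw [div_le_iff₀ hX0']
        linarith
      have h2 : 0 ≤ (1 / (ε * c0)) * (S X / (X : ℝ) ^ 2) := by positivity
      linarith
    · rw [if_neg hle, add_zero]
      have hlt : max X0 X1 < X := by omega
      have h1 := hlow D X c hD (((le_max_left _ _).trans_lt hlt).le) hc
      have h2 := hbad X hX ((le_max_right _ _).trans_lt hlt)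
      have h3 : ε * (c0 * X) ≤ S X :=
        (mul_le_mul_of_nonneg_left h1 hε.le).trans h2.le
      rw [div_mul_div_comm, one_mul, div_le_div_iff₀ hX0' (by positivity)]
      nlinarith
  refine (Finset.sum_le_sum hterm).trans ?_
  rw [Finset.sum_add_distrib, ← Finset.mul_sum]
  have h1 : ∑ X ∈ B, S X / (X : ℝ) ^ 2 ≤ ε ^ 2 * c0 / 2 * Real.log N :=
    (Finset.sum_le_sum_of_subset_of_nonneg hB
      (fun X _ _ => div_nonneg (hS0 X) (by positivity))).trans hS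
  have h2 : ∑ X ∈ B, (if X ≤ max X0 X1 then (1 : ℝ) else 0) ≤ ((max X0 X1 : ℕ) : ℝ) := by
    rw [← Finset.sum_filter, Finset.sum_const, nsmul_eq_mul, mul_one]
    have h3 : (B.filter (fun X => X ≤ max X0 X1)).card ≤ (Finset.Icc 1 (max X0 X1)).card := by
      apply Finset.card_le_card
      intro X hX
      obtain ⟨h4, h5⟩ := Finset.mem_filter.1 hX
      exact Finset.mem_Icc.2 ⟨(Finset.mem_Icc.1 (hB h4)).1, h5⟩
    rw [Nat.card_Icc, Nat.add_sub_cancel] at h3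
    exact_mod_cast h3
  have h3 : (1 / (ε * c0)) * (ε ^ 2 * c0 / 2 * Real.log N) = ε / 2 * Real.log N := by
    field_simp
  have h4 := mul_le_mul_of_nonneg_left h1 (by positivity : (0 : ℝ) ≤ 1 / (ε * c0))
  rw [h3] at h4
  linarith

/-- four patterns of two signs -/
theorem pattern_sum {ι : Type*} [DecidableEq ι] (S : Finset ι) (u v : ι → ℤ)
    (hu : ∀ x ∈ S, u x = 1 ∨ u x = -1) (hv : ∀ x ∈ S, v x = 1 ∨ v x = -1) (s t : ℤ)
    (hs : s = 1 ∨ s = -1) (ht : t = 1 ∨ t = -1) :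
    4 * ((S.filter (fun x => u x = s ∧ v x = t)).card : ℝ) =
      (S.card : ℝ) + s * ∑ x ∈ S, (u x : ℝ) + t * ∑ x ∈ S, (v x : ℝ) +
        s * t * ∑ x ∈ S, ((u x : ℝ) * (v x : ℝ)) := by
  have h1 : 4 * ((S.filter (fun x => u x = s ∧ v x = t)).card : ℝ) =
      ∑ x ∈ S, (if u x = s ∧ v x = t then (4 : ℝ) else 0) := by
    rw [← Finset.sum_filter, Finset.sum_const, nsmul_eq_mul]
    ring
  have h2 : (S.card : ℝ) = ∑ _x ∈ S, (1 : ℝ) := by
    rw [Finset.sum_const, nsmul_eq_mul, mul_one]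
  rw [h1, h2, Finset.mul_sum, Finset.mul_sum, Finset.mul_sum, ← Finset.sum_add_distrib,
    ← Finset.sum_add_distrib, ← Finset.sum_add_distrib]
  refine Finset.sum_congr rfl fun x hx => ?_
  rcases hu x hx with h | h <;> rcases hv x hx with h' | h' <;> rcases hs with h3 | h3 <;>
    rcases ht with h4 | h4 <;> rw [h, h', h3, h4] <;> norm_num

/-- two patterns of one sign -/
theorem pattern_one {ι : Type*} [DecidableEq ι] (S : Finset ι) (v : ι → ℤ)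
    (hv : ∀ x ∈ S, v x = 1 ∨ v x = -1) (t : ℤ) (ht : t = 1 ∨ t = -1) :
    2 * ((S.filter (fun x => v x = t)).card : ℝ) = (S.card : ℝ) + t * ∑ x ∈ S, (v x : ℝ) := by
  have h1 : 2 * ((S.filter (fun x => v x = t)).card : ℝ) =
      ∑ x ∈ S, (if v x = t then (2 : ℝ) else 0) := by
    rw [← Finset.sum_filter, Finset.sum_const, nsmul_eq_mul]
    ring
  have h2 : (S.card : ℝ) = ∑ _x ∈ S, (1 : ℝ) := by
    rw [Finset.sum_const, nsmul_eq_mul, mul_one]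
  rw [h1, h2, Finset.mul_sum, ← Finset.sum_add_distrib]
  refine Finset.sum_congr rfl fun x hx => ?_
  rcases hv x hx with h' | h' <;> rcases ht with h4 | h4 <;> rw [h', h4] <;> norm_num

/-- the Liouville function as a completely multiplicative sign function -/
theorem CMg_liou : CMg (fun m => (-1) ^ (ArithmeticFunction.cardFactors m)) := by
  refine ⟨fun m n hm hn => ?_, fun m _ => ?_⟩
  · show (-1 : ℤ) ^ (ArithmeticFunction.cardFactors (m * n)) =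
      (-1) ^ (ArithmeticFunction.cardFactors m) * (-1) ^ (ArithmeticFunction.cardFactors n)
    rw [ArithmeticFunction.cardFactors_mul (by omega) (by omega), pow_add]
  · exact neg_one_pow_eq_or ℤ _

/-- the constant function -/
theorem CMg_one : CMg (fun _ => 1) := ⟨fun _ _ _ _ => by norm_num, fun _ _ => Or.inl rfl⟩

theorem mem_Bal {D X c : ℕ} {x : ℕ × ℕ} : x ∈ Bal D X c ↔
    (X < x.1 ∧ x.1 ≤ 2 * X) ∧ 1 ≤ x.2 ∧ x.2 ∣ x.1 ^ 2 - 2 ∧ x.1 ≤ D * x.2 ∧ x.2 ≤ D * x.1 ∧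
      x.1 % 2 = c := by
  unfold Bal
  rw [Finset.mem_filter, Finset.mem_product, Finset.mem_Ioc, Finset.mem_Icc]
  constructor
  · rintro ⟨⟨⟨h1, h2⟩, h3, h4⟩, h5, h6, h7, h8⟩
    exact ⟨⟨h1, h2⟩, h3, h5, h6, h7, h8⟩
  · rintro ⟨⟨h1, h2⟩, h3, h5, h6, h7, h8⟩
    refine ⟨⟨⟨h1, h2⟩, h3, ?_⟩, h5, h6, h7, h8⟩
    calc x.2 ≤ D * x.1 := h7
      _ ≤ D * (2 * X) := Nat.mul_le_mul_left D h2
      _ = 2 * D * X := by ring

/-- the map `(n, d) ↦ (n, (n² - 2) / d)` preserves the balanced pairs with `n > 2 D` -/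
theorem Bal_swap {D X c : ℕ} (hD : 1 ≤ D) (hX : 2 * D ≤ X) {x : ℕ × ℕ} (hx : x ∈ Bal D X c) :
    (x.1, (x.1 ^ 2 - 2) / x.2) ∈ Bal D X c := by
  obtain ⟨n, d⟩ := x
  rw [mem_Bal] at hx ⊢
  simp only at hx ⊢
  obtain ⟨⟨h1, h2⟩, h3, ⟨e, he⟩, h5, h6, h7⟩ := hx
  have hn3 : 3 ≤ n := by omega
  have h9 : 9 ≤ n ^ 2 := by nlinarith
  have hn2 : n ^ 2 = d * e + 2 := by omega
  have hdiv : (n ^ 2 - 2) / d = e := by rw [he, Nat.mul_div_cancel_left _ (by omega)]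
  rw [hdiv]
  have he1 : 1 ≤ e := by
    rcases Nat.eq_zero_or_pos e with h | h
    · rw [h] at he
      omega
    · exact h
  refine ⟨⟨h1, h2⟩, he1, ⟨d, by rw [he, mul_comm]⟩, ?_, ?_, h7⟩
  · have hne : d ≠ D * n := by
      intro h
      have h10 : n ∣ 2 := by
        have h11 : n ∣ d * e := by rw [h]; exact ⟨D * e, by ring⟩
        have h12 : n ∣ n ^ 2 := ⟨n, by ring⟩
        exact (Nat.dvd_add_right h11).1 (hn2 ▸ h12)
      exact absurd (Nat.le_of_dvd (by norm_num) h10) (by omega)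
    have hlt : d + 1 ≤ D * n := by omega
    by_contra hcon
    push Not at hcon
    -- `D e < n`, so `D e + 1 ≤ n`
    have h10 : D * e + 1 ≤ n := hcon
    have h11 : D * (d * e + 2) = D * n ^ 2 := by rw [hn2]
    have h12 : d * (D * e) + 2 * D = D * n ^ 2 := by rw [← h11]; ring
    have h13 : d * (D * e + 1) ≤ d * n := Nat.mul_le_mul_left d h10
    have h14 : (d + 1) * n ≤ (D * n) * n := Nat.mul_le_mul_right n hlt
    nlinarith
  · have h10 : d * e < d * (D * n) := by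
      calc d * e < n ^ 2 := by omega
        _ = n * n := by ring
        _ ≤ (D * d) * n := Nat.mul_le_mul_right n h5
        _ = d * (D * n) := by ring
    exact (Nat.lt_of_mul_lt_mul_left h10).le

theorem Bal_sum_swap {D X c : ℕ} (hD : 1 ≤ D) (hX : 2 * D ≤ X) (φ : ℕ → ℝ) :
    ∑ x ∈ Bal D X c, φ ((x.1 ^ 2 - 2) / x.2) = ∑ x ∈ Bal D X c, φ x.2 := by
  have key : ∀ x ∈ Bal D X c, (x.1 ^ 2 - 2) / ((x.1 ^ 2 - 2) / x.2) = x.2 := by
    intro x hx
    obtain ⟨⟨h1, h2⟩, h3, ⟨e, he⟩, h5, h6, h7⟩ := mem_Bal.1 hx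
    have h9 : 9 ≤ x.1 ^ 2 := by
      have hn3 : 3 ≤ x.1 := by omega
      nlinarith
    have hdiv : (x.1 ^ 2 - 2) / x.2 = e := by rw [he, Nat.mul_div_cancel_left _ (by omega)]
    have he1 : 1 ≤ e := by
      rcases Nat.eq_zero_or_pos e with h | h
      · rw [h] at he
        omega
      · exact h
    rw [hdiv, he, Nat.mul_div_cancel _ (by omega)]
  refine Finset.sum_bij' (fun x _ => (x.1, (x.1 ^ 2 - 2) / x.2))
    (fun x _ => (x.1, (x.1 ^ 2 - 2) / x.2)) ?_ ?_ ?_ ?_ ?_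
  · exact fun x hx => Bal_swap hD hX hx
  · exact fun x hx => Bal_swap hD hX hx
  · intro x hx
    simp only [key x hx]
  · intro x hx
    simp only [key x hx]
  · intro x _
    rfl

theorem Bal_quot_pos {D X c : ℕ} {x : ℕ × ℕ} (hX : 1 ≤ X) (hx : x ∈ Bal D X c) :
    1 ≤ (x.1 ^ 2 - 2) / x.2 := by
  obtain ⟨⟨h1, h2⟩, h3, h4, h5, h6, h7⟩ := mem_Bal.1 hx
  have h9 : 4 ≤ x.1 ^ 2 := by
    have hn3 : 2 ≤ x.1 := by omega
    nlinarith
  exact Nat.div_pos (Nat.le_of_dvd (by omega) h4) (by omega)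

/-- the logarithmic averages in terms of the balanced pairs -/
theorem exactly_half_Bal (D : ℕ) (ε : ℝ) (hε : 0 < ε) : ∃ N0 : ℕ, ∀ N : ℕ, N0 ≤ N →
    ∀ g : ℕ → ℤ, CMg g → ∀ c : ℕ, ∑ X ∈ Finset.Icc 1 N, |∑ x ∈ Bal D X c,
      ((-1 : ℝ) ^ (ArithmeticFunction.cardFactors x.2) * (g ((x.1 ^ 2 - 2) / x.2) : ℝ))| /
        (X : ℝ) ^ 2 ≤ ε * Real.log N := by
  obtain ⟨N0, hN0⟩ := exactly_half D ε hε
  refine ⟨N0, fun N hN g hg c => ?_⟩
  refine le_trans (le_of_eq ?_) (hN0 N hN g hg c)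
  refine Finset.sum_congr rfl fun X hX => ?_
  rw [Bal_sum D X c (Finset.mem_Icc.1 hX).1 (fun n d =>
    ((-1 : ℝ) ^ (ArithmeticFunction.cardFactors d) * (g ((n ^ 2 - 2) / d) : ℝ)))]

open Classical in
/-- **Independence.** For every completely multiplicative `g` with values `± 1` the sign `λ(d)` is
asymptotically equidistributed on the balanced factorisations `d e = n² - 2`, independently of
`g(e)`, at almost all scales. -/
theorem half_indep (D : ℕ) (hD : 8 ≤ D) (ε : ℝ) (hε : 0 < ε) : ∃ N0 : ℕ, ∀ N : ℕ, N0 ≤ N →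
    ∀ g : ℕ → ℤ, CMg g → ∀ c : ℕ, c < 2 → ∀ s t : ℤ, (s = 1 ∨ s = -1) → (t = 1 ∨ t = -1) →
    ∑ X ∈ (Finset.Icc 1 N).filter (fun X => ε * ((Bal D X c).card : ℝ) <
      |(((Bal D X c).filter (fun x => (-1) ^ (ArithmeticFunction.cardFactors x.2) = s ∧
        g ((x.1 ^ 2 - 2) / x.2) = t)).card : ℝ) -
        (((Bal D X c).filter (fun x => g ((x.1 ^ 2 - 2) / x.2) = t)).card : ℝ) / 2|),
      (1 / (X : ℝ)) ≤ ε * Real.log N := by
  obtain ⟨δ, hδ, hδ'⟩ := bad_log D hD ε hε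
  obtain ⟨N0, hN0⟩ := hδ' 0
  obtain ⟨N1, hN1⟩ := exactly_half_Bal D (δ / 2) (by positivity)
  refine ⟨max N0 N1, fun N hN g hg c hc s t hs ht => ?_⟩
  have hA := hN1 N ((le_max_right _ _).trans hN) g hg c
  have hB := hN1 N ((le_max_right _ _).trans hN) _ CMg_one c
  obtain ⟨SA, hSA⟩ : ∃ S : ℕ → ℝ, S = fun X => ∑ x ∈ Bal D X c,
      ((-1 : ℝ) ^ (ArithmeticFunction.cardFactors x.2) * (g ((x.1 ^ 2 - 2) / x.2) : ℝ)) := ⟨_, rfl⟩
  obtain ⟨SB, hSB⟩ : ∃ S : ℕ → ℝ, S = fun X => ∑ x ∈ Bal D X c,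
      ((-1 : ℝ) ^ (ArithmeticFunction.cardFactors x.2)) := ⟨_, rfl⟩
  have hA' : ∑ X ∈ Finset.Icc 1 N, |SA X| / (X : ℝ) ^ 2 ≤ δ / 2 * Real.log N := by
    rw [hSA]; exact hA
  have hB' : ∑ X ∈ Finset.Icc 1 N, |SB X| / (X : ℝ) ^ 2 ≤ δ / 2 * Real.log N := by
    rw [hSB]
    refine le_trans (le_of_eq ?_) hB
    refine Finset.sum_congr rfl fun X _ => ?_
    simp only [Int.cast_one, mul_one]
  refine hN0 N ((le_max_left _ _).trans hN) c hc (fun X => |SA X| + |SB X|)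
    (fun X => by positivity) ?_ _ (Finset.filter_subset _ _) ?_
  · have h1 : ∑ X ∈ Finset.Icc 1 N, (|SA X| + |SB X|) / (X : ℝ) ^ 2 =
        ∑ X ∈ Finset.Icc 1 N, |SA X| / (X : ℝ) ^ 2 + ∑ X ∈ Finset.Icc 1 N, |SB X| / (X : ℝ) ^ 2 := by
      rw [← Finset.sum_add_distrib]
      exact Finset.sum_congr rfl fun X _ => by rw [add_div]
    rw [h1]
    linarith
  · intro X hX _
    obtain ⟨hX1, hbad⟩ := Finset.mem_filter.1 hX
    have hXpos : 1 ≤ X := (Finset.mem_Icc.1 hX1).1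
    refine hbad.trans_le ?_
    have hu : ∀ x ∈ Bal D X c, (-1 : ℤ) ^ (ArithmeticFunction.cardFactors x.2) = 1 ∨
        (-1 : ℤ) ^ (ArithmeticFunction.cardFactors x.2) = -1 := fun x _ => neg_one_pow_eq_or ℤ _
    have hv : ∀ x ∈ Bal D X c, g ((x.1 ^ 2 - 2) / x.2) = 1 ∨ g ((x.1 ^ 2 - 2) / x.2) = -1 :=
      fun x hx => hg.val _ (Bal_quot_pos hXpos hx)
    have h1 := pattern_sum (Bal D X c) (fun x => (-1 : ℤ) ^ (ArithmeticFunction.cardFactors x.2))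
      (fun x => g ((x.1 ^ 2 - 2) / x.2)) hu hv s t hs ht
    have h2 := pattern_one (Bal D X c) (fun x => g ((x.1 ^ 2 - 2) / x.2)) hv t ht
    have h3 : ∑ x ∈ Bal D X c, (((-1 : ℤ) ^ (ArithmeticFunction.cardFactors x.2) : ℤ) : ℝ) =
        SB X := by
      rw [hSB]
      exact Finset.sum_congr rfl fun x _ => by push_cast; rfl
    have h4 : ∑ x ∈ Bal D X c, ((((-1 : ℤ) ^ (ArithmeticFunction.cardFactors x.2) : ℤ) : ℝ) *
        (g ((x.1 ^ 2 - 2) / x.2) : ℝ)) = SA X := by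
      rw [hSA]
      exact Finset.sum_congr rfl fun x _ => by push_cast; rfl
    rw [h3, h4] at h1
    have h5 : (((Bal D X c).filter (fun x => (-1) ^ (ArithmeticFunction.cardFactors x.2) = s ∧
        g ((x.1 ^ 2 - 2) / x.2) = t)).card : ℝ) -
        (((Bal D X c).filter (fun x => g ((x.1 ^ 2 - 2) / x.2) = t)).card : ℝ) / 2 =
        ((s : ℝ) * SB X + (s : ℝ) * t * SA X) / 4 := by
      linarith
    rw [h5, abs_div, abs_of_pos (by norm_num : (0 : ℝ) < 4)]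
    have hs' : |(s : ℝ)| = 1 := by rcases hs with h | h <;> rw [h] <;> norm_num
    have ht' : |(t : ℝ)| = 1 := by rcases ht with h | h <;> rw [h] <;> norm_num
    have h6 : |(s : ℝ) * SB X + (s : ℝ) * t * SA X| ≤ |SB X| + |SA X| := by
      refine (abs_add_le _ _).trans (le_of_eq ?_)
      rw [abs_mul, abs_mul, abs_mul, hs', ht']
      ring
    have h7 := abs_nonneg (SB X)
    have h8 := abs_nonneg (SA X)
    rw [div_le_iff₀ (by norm_num : (0 : ℝ) < 4)]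
    linarith

open Classical in
/-- **The four patterns.** At almost all scales the four sign patterns `(λ(d), λ(e))` of the
balanced factorisations `d e = n² - 2` have asymptotic frequency `1 / 4` each. -/
theorem four_patterns (D : ℕ) (hD : 8 ≤ D) (ε : ℝ) (hε : 0 < ε) : ∃ N0 : ℕ, ∀ N : ℕ, N0 ≤ N →
    ∀ c : ℕ, c < 2 → ∀ s t : ℤ, (s = 1 ∨ s = -1) → (t = 1 ∨ t = -1) →
    ∑ X ∈ (Finset.Icc 1 N).filter (fun X => ε * ((Bal D X c).card : ℝ) <
      |(((Bal D X c).filter (fun x => (-1) ^ (ArithmeticFunction.cardFactors x.2) = s ∧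
        (-1) ^ (ArithmeticFunction.cardFactors ((x.1 ^ 2 - 2) / x.2)) = t)).card : ℝ) -
        ((Bal D X c).card : ℝ) / 4|), (1 / (X : ℝ)) ≤ ε * Real.log N := by
  obtain ⟨δ, hδ, hδ'⟩ := bad_log D hD ε hε
  obtain ⟨N0, hN0⟩ := hδ' (2 * D)
  obtain ⟨N1, hN1⟩ := exactly_half_Bal D (δ / 2) (by positivity)
  refine ⟨max N0 N1, fun N hN c hc s t hs ht => ?_⟩
  have hA := hN1 N ((le_max_right _ _).trans hN) _ CMg_liou c
  have hB := hN1 N ((le_max_right _ _).trans hN) _ CMg_one c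
  obtain ⟨SA, hSA⟩ : ∃ S : ℕ → ℝ, S = fun X => ∑ x ∈ Bal D X c,
      ((-1 : ℝ) ^ (ArithmeticFunction.cardFactors x.2) *
        (-1 : ℝ) ^ (ArithmeticFunction.cardFactors ((x.1 ^ 2 - 2) / x.2))) := ⟨_, rfl⟩
  obtain ⟨SB, hSB⟩ : ∃ S : ℕ → ℝ, S = fun X => ∑ x ∈ Bal D X c,
      ((-1 : ℝ) ^ (ArithmeticFunction.cardFactors x.2)) := ⟨_, rfl⟩
  have hA' : ∑ X ∈ Finset.Icc 1 N, |SA X| / (X : ℝ) ^ 2 ≤ δ / 2 * Real.log N := by
    rw [hSA]
    refine le_trans (le_of_eq ?_) hA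
    refine Finset.sum_congr rfl fun X _ => ?_
    push_cast
    rfl
  have hB' : ∑ X ∈ Finset.Icc 1 N, |SB X| / (X : ℝ) ^ 2 ≤ δ / 2 * Real.log N := by
    rw [hSB]
    refine le_trans (le_of_eq ?_) hB
    refine Finset.sum_congr rfl fun X _ => ?_
    simp only [Int.cast_one, mul_one]
  refine hN0 N ((le_max_left _ _).trans hN) c hc (fun X => |SA X| + |SB X|)
    (fun X => by positivity) ?_ _ (Finset.filter_subset _ _) ?_
  · have h1 : ∑ X ∈ Finset.Icc 1 N, (|SA X| + |SB X|) / (X : ℝ) ^ 2 =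
        ∑ X ∈ Finset.Icc 1 N, |SA X| / (X : ℝ) ^ 2 + ∑ X ∈ Finset.Icc 1 N, |SB X| / (X : ℝ) ^ 2 := by
      rw [← Finset.sum_add_distrib]
      exact Finset.sum_congr rfl fun X _ => by rw [add_div]
    rw [h1]
    linarith
  · intro X hX hX2
    obtain ⟨hX1, hbad⟩ := Finset.mem_filter.1 hX
    refine hbad.trans_le ?_
    have hu : ∀ x ∈ Bal D X c, (-1 : ℤ) ^ (ArithmeticFunction.cardFactors x.2) = 1 ∨
        (-1 : ℤ) ^ (ArithmeticFunction.cardFactors x.2) = -1 := fun x _ => neg_one_pow_eq_or ℤ _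
    have hv : ∀ x ∈ Bal D X c,
        (-1 : ℤ) ^ (ArithmeticFunction.cardFactors ((x.1 ^ 2 - 2) / x.2)) = 1 ∨
        (-1 : ℤ) ^ (ArithmeticFunction.cardFactors ((x.1 ^ 2 - 2) / x.2)) = -1 :=
      fun x _ => neg_one_pow_eq_or ℤ _
    have h1 := pattern_sum (Bal D X c) (fun x => (-1 : ℤ) ^ (ArithmeticFunction.cardFactors x.2))
      (fun x => (-1 : ℤ) ^ (ArithmeticFunction.cardFactors ((x.1 ^ 2 - 2) / x.2))) hu hv s t hs ht
    have h3 : ∑ x ∈ Bal D X c, (((-1 : ℤ) ^ (ArithmeticFunction.cardFactors x.2) : ℤ) : ℝ) =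
        SB X := by
      rw [hSB]
      exact Finset.sum_congr rfl fun x _ => by push_cast; rfl
    have h3' : ∑ x ∈ Bal D X c,
        (((-1 : ℤ) ^ (ArithmeticFunction.cardFactors ((x.1 ^ 2 - 2) / x.2)) : ℤ) : ℝ) = SB X := by
      rw [← h3, Bal_sum_swap (by omega) hX2.le
        (fun m => (((-1 : ℤ) ^ (ArithmeticFunction.cardFactors m) : ℤ) : ℝ))]
    have h4 : ∑ x ∈ Bal D X c, ((((-1 : ℤ) ^ (ArithmeticFunction.cardFactors x.2) : ℤ) : ℝ) *
        (((-1 : ℤ) ^ (ArithmeticFunction.cardFactors ((x.1 ^ 2 - 2) / x.2)) : ℤ) : ℝ)) = SA X := by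
      rw [hSA]
      exact Finset.sum_congr rfl fun x _ => by push_cast; rfl
    rw [h3, h3', h4] at h1
    have h5 : (((Bal D X c).filter (fun x => (-1) ^ (ArithmeticFunction.cardFactors x.2) = s ∧
        (-1) ^ (ArithmeticFunction.cardFactors ((x.1 ^ 2 - 2) / x.2)) = t)).card : ℝ) -
        ((Bal D X c).card : ℝ) / 4 =
        ((s : ℝ) * SB X + (t : ℝ) * SB X + (s : ℝ) * t * SA X) / 4 := by
      linarith
    rw [h5, abs_div, abs_of_pos (by norm_num : (0 : ℝ) < 4)]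
    have hs' : |(s : ℝ)| = 1 := by rcases hs with h | h <;> rw [h] <;> norm_num
    have ht' : |(t : ℝ)| = 1 := by rcases ht with h | h <;> rw [h] <;> norm_num
    have h6 : |(s : ℝ) * SB X + (t : ℝ) * SB X + (s : ℝ) * t * SA X| ≤
        2 * |SB X| + |SA X| := by
      refine (abs_add_three _ _ _).trans (le_of_eq ?_)
      rw [abs_mul, abs_mul, abs_mul, abs_mul, hs', ht']
      ring
    have h7 := abs_nonneg (SB X)
    have h8 := abs_nonneg (SA X)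
    rw [div_le_iff₀ (by norm_num : (0 : ℝ) < 4)]
    linarith

end

end Pool.Agent.Lib.MP_0b748d_nt.HH
end
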